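import Mathlib
import Pool.Agent.Work.MP_5e5ff1_ag.Defs
import Pool.Agent.Work.MP_5e5ff1_ag.T.Minors

/-! Bundle of small proof modules (one section per former module). -/

section

/-! Derivations on algebraic extensions. -/

open Polynomial TensorProduct

namespace Pool.Agent.Work.MP_5e5ff1_ag.A

theorem exists_derivation_ext_aux {S T : Type*} [CommRing S] [CommRing T] [Algebra S T]
    [Algebra.FormallyEtale S T] (d : Derivation ℤ S S) :
    ∃ δ : Derivation ℤ T T, ∀ s, δ (algebraMap S T s) = algebraMap S T (d s) := by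
  let f : Ω[S⁄ℤ] →ₗ[S] T := (Algebra.linearMap S T).comp d.liftKaehlerDifferential
  let g : T ⊗[S] Ω[S⁄ℤ] →ₗ[T] T := LinearMap.liftBaseChange T f
  let e := KaehlerDifferential.tensorKaehlerEquivOfFormallyEtale ℤ S T
  let h : Ω[T⁄ℤ] →ₗ[T] T := g ∘ₗ e.symm.toLinearMap
  refine ⟨h.compDer (KaehlerDifferential.D ℤ T), ?_⟩
  intro s
  have h1 : e.symm (KaehlerDifferential.D ℤ T (algebraMap S T s))
      = 1 ⊗ₜ[S] KaehlerDifferential.D ℤ S s :=
    KaehlerDifferential.tensorKaehlerEquivOfFormallyEtale_symm_D_algebraMap ℤ S T s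
  change g (e.symm (KaehlerDifferential.D ℤ T (algebraMap S T s))) = _
  rw [h1]
  simp [g, f]

/-- a map is a derivation -/
structure IsDer {R : Type*} [CommRing R] (D : R → R) : Prop where
  map_add : ∀ x y, D (x + y) = D x + D y
  leibniz : ∀ x y, D (x * y) = x * D y + y * D x

namespace IsDer

variable {R : Type*} [CommRing R] {D : R → R} (h : IsDer D)
include h

lemma map_zero : D 0 = 0 := by
  have := h.map_add 0 0
  rw [add_zero] at this
  exact left_eq_add.mp this

lemma map_neg (x : R) : D (-x) = - D x := by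
  have := h.map_add x (-x)
  rw [add_neg_cancel, h.map_zero] at this
  exact (neg_eq_of_add_eq_zero_right this.symm).symm

lemma map_sub (x y : R) : D (x - y) = D x - D y := by
  rw [sub_eq_add_neg, h.map_add, h.map_neg, sub_eq_add_neg]

lemma map_one : D 1 = 0 := by
  have := h.leibniz 1 1
  simp only [one_mul] at this
  exact left_eq_add.mp this

lemma map_pow (x : R) (n : ℕ) : D (x ^ n) = n * x ^ (n - 1) * D x := by
  induction n with
  | zero => simp [h.map_one]
  | succ n ih =>
    rw [pow_succ, h.leibniz, ih]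
    rcases n with _ | n
    · simp
    · rw [Nat.add_sub_cancel, Nat.add_sub_cancel]
      push_cast
      ring

lemma map_sum {α : Type*} (s : Finset α) (f : α → R) : D (∑ i ∈ s, f i) = ∑ i ∈ s, D (f i) := by
  classical
  induction s using Finset.induction_on with
  | empty => simp [h.map_zero]
  | insert a s ha ih => rw [Finset.sum_insert ha, Finset.sum_insert ha, h.map_add, ih]

end IsDer

lemma IsDer.map_inv {R : Type*} [Field R] {D : R → R} (h : IsDer D) (x : R) :
    D x⁻¹ = - (x⁻¹ ^ 2 * D x) := by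
  by_cases hx : x = 0
  · subst hx; simp [h.map_zero]
  · have h1 := h.leibniz x x⁻¹
    rw [mul_inv_cancel₀ hx, h.map_one] at h1
    have h2 : x * D x⁻¹ = - (x⁻¹ * D x) := by linear_combination -h1
    have h3 : D x⁻¹ = x⁻¹ * (x * D x⁻¹) := by rw [inv_mul_cancel_left₀ hx]
    rw [h3, h2]; ring

lemma isDer_of_derivation {R : Type*} [CommRing R] (d : Derivation ℤ R R) : IsDer d :=
  ⟨_root_.map_add d, fun x y => d.leibniz x y⟩

/-- a derivation from a map -/
def derivationOf {R : Type*} [CommRing R] {D : R → R} (h : IsDer D) : Derivation ℤ R R :=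
  Derivation.mk' (AddMonoidHom.mk' D h.map_add).toIntLinearMap h.leibniz

/-- derivations extend to formally etale algebras -/
theorem exists_derivation_ext {S T : Type*} [CommRing S] [CommRing T] [Algebra S T]
    [Algebra.FormallyEtale S T] {d : S → S} (hd : IsDer d) :
    ∃ δ : T → T, IsDer δ ∧ ∀ s, δ (algebraMap S T s) = algebraMap S T (d s) := by
  obtain ⟨δ, hδ⟩ := exists_derivation_ext_aux (T := T) (derivationOf hd)
  exact ⟨δ, isDer_of_derivation δ, hδ⟩

/-- derivations which agree on a field agree on its algebraic extensions -/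
theorem comm_of_algebraic {R L E : Type*} [Field R] [Field L] [Field E] [Algebra R L]
    [Algebra.IsAlgebraic R L] [CharZero R] (φ : L →+* E) {δ : L → L} (hδ : IsDer δ)
    {D : E → E} (hD : IsDer D)
    (h : ∀ z : R, D (φ (algebraMap R L z)) = φ (δ (algebraMap R L z))) (y : L) :
    D (φ y) = φ (δ y) := by
  have key : ∀ f : R[X], D (φ (aeval y f)) - φ (δ (aeval y f))
      = φ (aeval y (derivative f)) * (D (φ y) - φ (δ y)) := by
    intro f
    induction f using Polynomial.induction_on' with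
    | add p q hp hq =>
      simp only [map_add, hD.map_add, hδ.map_add] at hp hq ⊢
      linear_combination hp + hq
    | monomial n a =>
      rw [aeval_monomial, derivative_monomial, aeval_monomial, map_mul, map_pow,
        hD.leibniz, hδ.leibniz, hD.map_pow, hδ.map_pow, h a]
      simp only [map_mul, map_add, map_pow, map_natCast]
      ring
  have hint : IsIntegral R y := (Algebra.IsAlgebraic.isAlgebraic y).isIntegral
  have h1 := key (minpoly R y)
  rw [minpoly.aeval, map_zero, hD.map_zero, hδ.map_zero, map_zero, sub_zero] at h1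
  have h2 : aeval y (derivative (minpoly R y)) ≠ 0 := by
    have hsep : (minpoly R y).Separable := (minpoly.irreducible hint).separable
    exact hsep.aeval_derivative_ne_zero (minpoly.aeval R y)
  have h3 := mul_eq_zero.mp h1.symm
  rcases h3 with h3 | h3
  · exact absurd ((map_eq_zero φ).mp h3) h2
  · exact sub_eq_zero.mp h3

/-- constants in an algebraic extension -/
theorem const_of_algebraic {C₀ Q E : Type*} [Field C₀] [IsAlgClosed C₀] [Field Q] [Field E]
    [Algebra Q E] [Algebra.IsAlgebraic Q E] (i : C₀ →+* Q) {d : Q → Q} (hd : IsDer d)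
    {D : E → E} (hDer : IsDer D) (hD : ∀ q, D (algebraMap Q E q) = algebraMap Q E (d q))
    (hconst : ∀ q : Q, d q = 0 → ∃ c, q = i c) {e : E} (he : D e = 0) :
    ∃ c, e = algebraMap Q E (i c) := by
  classical
  have hint : IsIntegral Q e := (Algebra.IsAlgebraic.isAlgebraic e).isIntegral
  set f := minpoly Q e with hf
  have hmonic : f.Monic := minpoly.monic hint
  -- the coefficientwise derivative
  set g : Q[X] := ∑ n ∈ Finset.range f.natDegree, monomial n (d (f.coeff n)) with hg
  have hpow : ∀ n : ℕ, D (e ^ n) = 0 := by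
    intro n
    rw [hDer.map_pow, he, mul_zero]
  have h1 : aeval e g = 0 := by
    have h2 : D (aeval e f) = 0 := by rw [hf, minpoly.aeval, hDer.map_zero]
    rw [aeval_eq_sum_range, Finset.sum_range_succ, hDer.map_add, hDer.map_sum] at h2
    have h3 : D (f.coeff f.natDegree • e ^ f.natDegree) = 0 := by
      rw [hmonic.coeff_natDegree, one_smul, hpow]
    rw [h3, add_zero] at h2
    rw [hg, map_sum, ← h2]
    apply Finset.sum_congr rfl
    intro n _
    rw [aeval_monomial, Algebra.smul_def, hDer.leibniz, hpow, mul_zero, zero_add, hD, mul_comm]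
  have hgdeg : g.degree < f.degree := by
    rw [degree_eq_natDegree hmonic.ne_zero]
    refine (degree_sum_le _ _).trans_lt ?_
    rw [Finset.sup_lt_iff (by simp)]
    intro n hn
    refine (degree_monomial_le _ _).trans_lt ?_
    exact_mod_cast Finset.mem_range.mp hn
  have hg0 : g = 0 := by
    by_contra hne
    exact absurd (minpoly.degree_le_of_ne_zero Q e hne h1) (not_le.mpr hgdeg)
  have hcoeff : ∀ n, d (f.coeff n) = 0 := by
    intro n
    by_cases hn : n < f.natDegree
    · have h2 := congrArg (fun q => coeff q n) hg0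
      simp only [hg, finsetSum_coeff, coeff_monomial, coeff_zero] at h2
      rw [Finset.sum_eq_single n (by intro b _ hb; rw [if_neg hb])
        (by intro h; exact absurd (Finset.mem_range.mpr hn) h), if_pos rfl] at h2
      exact h2
    · rcases (not_lt.mp hn).eq_or_lt with h | h
      · rw [← h, hmonic.coeff_natDegree, hd.map_one]
      · rw [coeff_eq_zero_of_natDegree_lt h, hd.map_zero]
  choose c hc using fun n => hconst _ (hcoeff n)
  set f₀ : C₀[X] := ∑ n ∈ Finset.range (f.natDegree + 1), monomial n (c n) with hf₀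
  have hmap : f₀.map i = f := by
    rw [hf₀, Polynomial.map_sum]
    conv_rhs => rw [f.as_sum_range]
    apply Finset.sum_congr rfl
    intro n _
    rw [map_monomial, ← hc n]
  have hf₀ne : f₀ ≠ 0 := by
    intro h
    rw [h, Polynomial.map_zero] at hmap
    exact hmonic.ne_zero hmap.symm
  have hsplit := IsAlgClosed.splits f₀
  have hroots := hsplit.eq_prod_roots
  have h4 : (f₀.map ((algebraMap Q E).comp i)).eval e = 0 := by
    rw [← Polynomial.map_map, hmap, eval_map_algebraMap, hf, minpoly.aeval]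
  rw [hroots, Polynomial.map_mul, map_C, eval_mul, eval_C] at h4
  have h5 : ((algebraMap Q E).comp i) f₀.leadingCoeff ≠ 0 := by
    intro h
    exact hf₀ne (leadingCoeff_eq_zero.mp ((map_eq_zero _).mp h))
  have h6 := (mul_eq_zero.mp h4).resolve_left h5
  rw [Polynomial.map_multiset_prod, eval_multiset_prod, Multiset.prod_eq_zero_iff] at h6
  simp only [Multiset.map_map, Multiset.mem_map, Function.comp_apply] at h6
  obtain ⟨a, _, ha⟩ := h6
  refine ⟨a, ?_⟩
  rw [Polynomial.map_sub, map_X, map_C, eval_sub, eval_X, eval_C, sub_eq_zero] at ha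
  exact ha

end Pool.Agent.Work.MP_5e5ff1_ag.A

end

section

/-! Linear differential equations over power series. -/

open Finset

namespace Pool.Agent.Work.MP_5e5ff1_ag.A

variable {F : Type*} [Field F] [CharZero F] {ι : Type*} [Fintype ι]

/-- the coefficients of the solution -/
noncomputable def odeCoeff (A : Matrix ι ι (PowerSeries F)) (v : ι → F) : ℕ → ι → F
  | 0 => v
  | n + 1 => fun i => ((n : F) + 1)⁻¹ *
      ∑ j, ∑ k ∈ range (n + 1), PowerSeries.coeff k (A i j) * odeCoeff A v (n - k) j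
  decreasing_by omega

omit [CharZero F] in
lemma coeff_mul_range (f g : PowerSeries F) (n : ℕ) :
    PowerSeries.coeff n (f * g)
      = ∑ k ∈ range (n + 1), PowerSeries.coeff k f * PowerSeries.coeff (n - k) g := by
  rw [PowerSeries.coeff_mul]
  exact Finset.Nat.sum_antidiagonal_eq_sum_range_succ
    (fun a b => PowerSeries.coeff a f * PowerSeries.coeff b g) n

/-- existence -/
theorem exists_solution (A : Matrix ι ι (PowerSeries F)) (v : ι → F) :
    ∃ y : ι → PowerSeries F, (∀ i, PowerSeries.constantCoeff (y i) = v i) ∧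
      ∀ i, PowerSeries.derivative F (y i) = ∑ j, A i j * y j := by
  refine ⟨fun i => PowerSeries.mk fun n => odeCoeff A v n i, ?_, ?_⟩
  · intro i
    rw [← PowerSeries.coeff_zero_eq_constantCoeff_apply, PowerSeries.coeff_mk, odeCoeff]
  · intro i
    ext n
    rw [PowerSeries.coeff_derivative, PowerSeries.coeff_mk, odeCoeff, map_sum]
    simp only [coeff_mul_range, PowerSeries.coeff_mk]
    have h : (n : F) + 1 ≠ 0 := by exact_mod_cast Nat.succ_ne_zero n
    field_simp

/-- uniqueness -/
theorem solution_zero (A : Matrix ι ι (PowerSeries F)) {y : ι → PowerSeries F}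
    (h0 : ∀ i, PowerSeries.constantCoeff (y i) = 0)
    (h : ∀ i, PowerSeries.derivative F (y i) = ∑ j, A i j * y j) (i : ι) : y i = 0 := by
  have key : ∀ n : ℕ, ∀ i, PowerSeries.coeff n (y i) = 0 := by
    intro n
    induction n using Nat.strong_induction_on with
    | _ n ih =>
      intro i
      rcases n with _ | n
      · rw [PowerSeries.coeff_zero_eq_constantCoeff_apply]; exact h0 i
      · have h1 := congrArg (PowerSeries.coeff n) (h i)
        rw [PowerSeries.coeff_derivative, map_sum] at h1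
        simp only [coeff_mul_range] at h1
        rw [Finset.sum_eq_zero (fun j _ => Finset.sum_eq_zero (fun k _ => by
          rw [ih (n - k) (by omega) j, mul_zero]))] at h1
        have h2 : (n : F) + 1 ≠ 0 := by exact_mod_cast Nat.succ_ne_zero n
        exact (mul_eq_zero.mp h1).resolve_right h2
  ext n
  rw [key n i, map_zero]

theorem solution_unique (A : Matrix ι ι (PowerSeries F)) {y z : ι → PowerSeries F}
    (h0 : ∀ i, PowerSeries.constantCoeff (y i) = PowerSeries.constantCoeff (z i))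
    (hy : ∀ i, PowerSeries.derivative F (y i) = ∑ j, A i j * y j)
    (hz : ∀ i, PowerSeries.derivative F (z i) = ∑ j, A i j * z j) : y = z := by
  funext i
  rw [← sub_eq_zero]
  refine solution_zero A (y := fun i => y i - z i) ?_ ?_ i
  · intro i
    rw [map_sub, h0, sub_self]
  · intro i
    rw [map_sub, hy, hz, ← Finset.sum_sub_distrib]
    apply Finset.sum_congr rfl
    intro j _
    ring

end Pool.Agent.Work.MP_5e5ff1_ag.A

end

section

/-! Horizontal polynomial matrices for `f' = (b/t + c/(t-1)) f` in characteristic p, and the resulting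
inequalities for the eigenvalues of `b`, `c`, `b + c` (all rank one twists, and the dual). -/


open Polynomial Matrix

namespace Pool.Agent.Work.MP_5e5ff1_ag

lemma exists_min_nat {α : Type*} (P : α → Prop) (f : α → ℕ) (hne : ∃ x, P x) :
    ∃ x, P x ∧ ∀ y, P y → f x ≤ f y := by
  classical
  have h : ∃ n, ∃ x, P x ∧ f x = n := by
    obtain ⟨x, hx⟩ := hne
    exact ⟨f x, x, hx, rfl⟩
  obtain ⟨x, hx, hfx⟩ := Nat.find_spec h
  exact ⟨x, hx, fun y hy => by rw [hfx]; exact Nat.find_min' h ⟨y, hy, rfl⟩⟩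

lemma exists_max_nat {α : Type*} (P : α → Prop) (f : α → ℕ) (B : ℕ)
    (hB : ∀ x, P x → f x ≤ B) (hne : ∃ x, P x) :
    ∃ x, P x ∧ ∀ y, P y → f y ≤ f x := by
  obtain ⟨x, hx, h⟩ := exists_min_nat P (fun x => B - f x) hne
  refine ⟨x, hx, ?_⟩
  intro y hy
  have h1 := h y hy
  have h2 := hB x hx
  have h3 := hB y hy
  omega

variable {k : Type*} [Field k] {r : ℕ}

/-- the columns of `F` are polynomial solutions of `w f' = L f` -/
def Hor (w : k[X]) (L F : Matrix (Fin r) (Fin r) k[X]) : Prop :=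
  ∀ i j, w * derivative (F i j) = ∑ l, L i l * F l j

lemma hor_updateCol {w : k[X]} {L F : Matrix (Fin r) (Fin r) k[X]} (hF : Hor w L F) (J : Fin r)
    (g : Fin r → k[X]) (hg : ∀ i, w * derivative (g i) = ∑ l, L i l * g l) :
    Hor w L (F.updateCol J g) := by
  intro i j
  by_cases h : j = J
  · subst h
    simp only [updateCol_self]
    exact hg i
  · simp only [updateCol_ne h]
    exact hF i j

/-- a relation with minimal support for a matrix intertwining with a diagonal matrix -/
lemma min_support {M R : Matrix (Fin r) (Fin r) k} {d : Fin r → k} (hRM : R * M = M * diagonal d)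
    (hdet : M.det = 0) :
    ∃ c : Fin r → k, c ≠ 0 ∧ M *ᵥ c = 0 ∧ ∀ i j, c i ≠ 0 → c j ≠ 0 → d i = d j := by
  classical
  obtain ⟨c0, hc0, hMc0⟩ := Matrix.exists_mulVec_eq_zero_iff.mpr hdet
  obtain ⟨c, ⟨hc, hMc⟩, hmin⟩ := exists_min_nat (fun c : Fin r → k => c ≠ 0 ∧ M *ᵥ c = 0)
    (fun c => (Finset.univ.filter (fun i => c i ≠ 0)).card) ⟨c0, hc0, hMc0⟩
  refine ⟨c, hc, hMc, ?_⟩
  intro i j hi hj
  by_contra hne
  set c' : Fin r → k := fun l => (d l - d i) * c l with hc'
  have h1 : M *ᵥ c' = 0 := by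
    have h2 : c' = (diagonal d) *ᵥ c - (d i) • c := by
      funext l
      simp only [hc', mulVec_diagonal, Pi.sub_apply, Pi.smul_apply, smul_eq_mul]
      ring
    rw [h2, mulVec_sub, mulVec_smul, hMc, smul_zero, sub_zero, mulVec_mulVec, ← hRM,
      ← mulVec_mulVec, hMc, mulVec_zero]
  have h3 : c' ≠ 0 := by
    intro h
    have := congrFun h j
    simp only [hc', Pi.zero_apply] at this
    rcases mul_eq_zero.mp this with h4 | h4
    · exact hne (sub_eq_zero.mp h4).symm
    · exact hj h4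
  have h5 := hmin c' ⟨h3, h1⟩
  have h6 : (Finset.univ.filter (fun l => c' l ≠ 0)) ⊂ (Finset.univ.filter (fun l => c l ≠ 0)) := by
    rw [Finset.ssubset_iff_of_subset]
    · refine ⟨i, by simp [hi], by simp [hc']⟩
    · intro l hl
      simp only [Finset.mem_filter, Finset.mem_univ, true_and, hc'] at hl ⊢
      exact fun h => hl (by rw [h, mul_zero])
  have h7 := Finset.card_lt_card h6
  omega

lemma factor_cols {F : Matrix (Fin r) (Fin r) k[X]} {a : k} {m : Fin r → ℕ}
    (h : ∀ i j, (X - C a) ^ (m j) ∣ F i j) :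
    ∃ H : Matrix (Fin r) (Fin r) k[X], (∀ i j, F i j = (X - C a) ^ (m j) * H i j) ∧
      F.det = (X - C a) ^ (∑ j, m j) * H.det := by
  choose H hH using h
  refine ⟨H, hH, ?_⟩
  have h1 : F = (Matrix.of H) * diagonal (fun j => (X - C a) ^ (m j)) := by
    ext1 i j
    rw [mul_diagonal, hH i j, mul_comm]
    rfl
  rw [h1, det_mul, det_diagonal, Finset.prod_pow_eq_pow_sum, mul_comm]
  rfl

/-- residue relation at a point -/
lemma residue_rel {w : k[X]} {L F H : Matrix (Fin r) (Fin r) k[X]} {a : k} {g : k[X]}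
    (hw : w = (X - C a) * g) (hg : g.eval a ≠ 0) (hF : Hor w L F) {m : Fin r → ℕ}
    (hH : ∀ i j, F i j = (X - C a) ^ (m j) * H i j) :
    ((g.eval a)⁻¹ • L.map (eval a)) * H.map (eval a)
      = H.map (eval a) * diagonal (fun j => ((m j : ℕ) : k)) := by
  have key : ∀ i j, C ((m j : ℕ) : k) * g * H i j + (X - C a) * g * derivative (H i j)
      = ∑ l, L i l * H l j := by
    intro i j
    have h1 := hF i j
    have h2 : ∑ l, L i l * F l j = (X - C a) ^ (m j) * ∑ l, L i l * H l j := by
      rw [Finset.mul_sum]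
      apply Finset.sum_congr rfl
      intro l _
      rw [hH l j]; ring
    rw [h2, hH i j, derivative_mul, derivative_X_sub_C_pow, hw] at h1
    have h3 : (X - C a) * (C ((m j : ℕ) : k) * (X - C a) ^ (m j - 1))
        = C ((m j : ℕ) : k) * (X - C a) ^ (m j) := by
      rcases Nat.eq_zero_or_pos (m j) with h0 | h0
      · rw [h0]; simp
      · obtain ⟨n, hn⟩ : ∃ n, m j = n + 1 := ⟨m j - 1, by omega⟩
        rw [hn, Nat.add_sub_cancel, pow_succ]; ring
    have h4 : (X - C a) ^ (m j) * (C ((m j : ℕ) : k) * g * H i j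
        + (X - C a) * g * derivative (H i j)) = (X - C a) ^ (m j) * ∑ l, L i l * H l j := by
      rw [← h1]
      linear_combination (-g * H i j) * h3
    exact mul_left_cancel₀ (pow_ne_zero _ (X_sub_C_ne_zero a)) h4
  ext1 i j
  rw [smul_mul, mul_diagonal, Matrix.smul_apply, mul_apply]
  have h5 := congrArg (eval a) (key i j)
  simp only [eval_add, eval_mul, eval_C, eval_sub, eval_X, sub_self, zero_mul, add_zero,
    eval_finsetSum] at h5
  simp only [map_apply, smul_eq_mul]
  rw [← h5]
  field_simp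


/-- column combination with coefficients of zero derivative -/
lemma hor_combine {w : k[X]} {L F : Matrix (Fin r) (Fin r) k[X]} (hF : Hor w L F) (J : Fin r)
    (c : Fin r → k[X]) (hc : ∀ j, derivative (c j) = 0) :
    Hor w L (F.updateCol J (fun i => ∑ j, c j * F i j)) ∧
      (F.updateCol J (fun i => ∑ j, c j * F i j)).det = c J * F.det := by
  constructor
  · apply hor_updateCol hF
    intro i
    rw [derivative_sum, Finset.mul_sum]
    have h1 : ∀ j, w * derivative (c j * F i j) = ∑ l, L i l * (c j * F l j) := by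
      intro j
      rw [derivative_mul, hc j, zero_mul, zero_add]
      have := hF i j
      calc w * (c j * derivative (F i j)) = c j * (w * derivative (F i j)) := by ring
        _ = c j * ∑ l, L i l * F l j := by rw [this]
        _ = _ := by
          rw [Finset.mul_sum]
          apply Finset.sum_congr rfl
          intro l _
          ring
    simp only [h1]
    rw [Finset.sum_comm]
    apply Finset.sum_congr rfl
    intro l _
    rw [Finset.mul_sum]
  · have := Matrix.det_updateCol_sum F J c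
    simpa only [smul_eq_mul] using this

/-- division of a column by a polynomial of zero derivative -/
lemma hor_divide {w : k[X]} {L F : Matrix (Fin r) (Fin r) k[X]} (hF : Hor w L F) (J : Fin r)
    (q : k[X]) (hq : derivative q = 0) (hq0 : q ≠ 0) (g : Fin r → k[X])
    (hg : ∀ i, F i J = q * g i) :
    Hor w L (F.updateCol J g) ∧ F.det = q * (F.updateCol J g).det := by
  constructor
  · apply hor_updateCol hF
    intro i
    have h1 := hF i J
    have h2 : ∑ l, L i l * F l J = q * ∑ l, L i l * g l := by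
      rw [Finset.mul_sum]
      apply Finset.sum_congr rfl
      intro l _
      rw [hg l]; ring
    rw [h2, hg i, derivative_mul, hq, zero_mul, zero_add] at h1
    have h3 : q * (w * derivative (g i)) = q * ∑ l, L i l * g l := by rw [← h1]; ring
    exact mul_left_cancel₀ hq0 h3
  · have h1 : F = F.updateCol J (q • g) := by
      ext1 i j
      by_cases h : j = J
      · subst h
        rw [updateCol_self]
        simp [hg i]
      · rw [updateCol_ne h]
    conv_lhs => rw [h1]
    rw [det_updateCol_smul]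

lemma natDegree_of_dvd_pow {f : k[X]} {a : k} {n : ℕ} (hf : f ≠ 0) (h : (X - C a) ^ n ∣ f) :
    n ≤ f.natDegree := by
  have := natDegree_le_of_dvd h hf
  rwa [natDegree_pow, natDegree_X_sub_C, mul_one] at this

theorem local_structure {p : ℕ} [hp : Fact p.Prime] [CharP k p] {w : k[X]}
    {L F : Matrix (Fin r) (Fin r) k[X]} (a : k) (g : k[X]) (hw : w = (X - C a) * g)
    (hg : g.eval a ≠ 0) (hF : Hor w L F) (hdet : F.det ≠ 0)
    (hmin : ∀ G, Hor w L G → G.det ≠ 0 → F.det.natDegree ≤ G.det.natDegree) :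
    ∃ m : Fin r → ℕ, (∀ j, m j < p) ∧ F.det.rootMultiplicity a = ∑ j, m j ∧
      ((g.eval a)⁻¹ • L.map (eval a)).charpoly = ∏ j, (X - C ((m j : ℕ) : k)) := by
  classical
  -- choice of an admissible pair with maximal total order
  obtain ⟨⟨G, m⟩, ⟨hG, ⟨μ, hμ, hGdet⟩, hdiv⟩, hmax⟩ := exists_max_nat
    (fun x : Matrix (Fin r) (Fin r) k[X] × (Fin r → ℕ) => Hor w L x.1 ∧
      (∃ μ : k, μ ≠ 0 ∧ x.1.det = C μ * F.det) ∧ ∀ i j, (X - C a) ^ (x.2 j) ∣ x.1 i j)
    (fun x => ∑ j, x.2 j) F.det.natDegree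
    (by
      rintro ⟨G, m⟩ ⟨_, ⟨μ, hμ, hGdet⟩, hdiv⟩
      simp only at hGdet hdiv ⊢
      obtain ⟨H, _, hH2⟩ := factor_cols hdiv
      have h1 : F.det.natDegree = G.det.natDegree := by
        rw [hGdet, natDegree_C_mul hμ]
      rw [h1]
      have h2 : G.det ≠ 0 := by
        rw [hGdet]; exact mul_ne_zero (C_ne_zero.mpr hμ) hdet
      exact natDegree_of_dvd_pow h2 ⟨H.det, hH2⟩)
    ⟨(F, fun _ => 0), hF, ⟨1, one_ne_zero, by simp⟩, by simp⟩
  simp only at hG hGdet hdiv hmax
  have hG0 : G.det ≠ 0 := by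
    rw [hGdet]; exact mul_ne_zero (C_ne_zero.mpr hμ) hdet
  have hGdeg : G.det.natDegree = F.det.natDegree := by
    rw [hGdet, natDegree_C_mul hμ]
  obtain ⟨H, hH, hHdet⟩ := factor_cols hdiv
  have hres := residue_rel hw hg hG hH
  -- the leading matrix is invertible
  have hHa : (H.map (eval a)).det ≠ 0 := by
    intro h0
    obtain ⟨c, hc, hMc, hsupp⟩ := min_support hres h0
    obtain ⟨J, hJ, hJmax⟩ : ∃ J, c J ≠ 0 ∧ ∀ j, c j ≠ 0 → m j ≤ m J := by
      obtain ⟨J, h1, h2⟩ := exists_max_nat (fun j => c j ≠ 0) m (∑ j, m j)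
        (fun j _ => Finset.single_le_sum (f := m) (fun _ _ => Nat.zero_le _) (Finset.mem_univ j))
        (Function.ne_iff.mp hc)
      exact ⟨J, h1, h2⟩
    set cc : Fin r → k[X] := fun j => C (c j) * (X - C a) ^ (m J - m j) with hcc
    have hder : ∀ j, derivative (cc j) = 0 := by
      intro j
      by_cases hj : c j = 0
      · simp [hcc, hj]
      · have h1 := hsupp J j hJ hj
        have h2 : p ∣ m J - m j := by
          have h3 := (CharP.natCast_eq_natCast k p).mp h1
          exact (Nat.modEq_iff_dvd' (hJmax j hj)).mp h3.symm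
        simp only [hcc]
        rw [derivative_C_mul, derivative_X_sub_C_pow, (CharP.cast_eq_zero_iff k p _).mpr h2]
        simp
    obtain ⟨h1, h2⟩ := hor_combine hG J cc hder
    have h3 := hmax (G.updateCol J (fun i => ∑ j, cc j * G i j), Function.update m J (m J + 1))
      ⟨h1, ⟨c J * μ, mul_ne_zero hJ hμ, by
        rw [h2, hGdet]; simp only [hcc, Nat.sub_self, pow_zero, mul_one, C_mul]; ring⟩, by
        intro i j
        by_cases hj : j = J
        · subst hj
          simp only [updateCol_self, Function.update_self]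
          have h4 : ∑ l, cc l * G i l = (X - C a) ^ (m j) * ∑ l, C (c l) * H i l := by
            rw [Finset.mul_sum]
            apply Finset.sum_congr rfl
            intro l _
            by_cases hl : c l = 0
            · simp [hcc, hl]
            · simp only [hcc]
              rw [hH i l]
              have : (X - C a : k[X]) ^ (m j) = (X - C a) ^ (m j - m l) * (X - C a) ^ (m l) := by
                rw [← pow_add, Nat.sub_add_cancel (hJmax l hl)]
              rw [this]; ring
          rw [h4, pow_succ]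
          apply mul_dvd_mul_left
          rw [dvd_iff_isRoot, IsRoot.def, eval_finsetSum]
          have h5 := congrFun hMc i
          simp only [mulVec, dotProduct, map_apply, Pi.zero_apply] at h5
          rw [← h5]
          apply Finset.sum_congr rfl
          intro l _
          rw [eval_mul, eval_C]; ring
        · simp only [updateCol_ne hj, Function.update_of_ne hj]
          exact hdiv i j⟩
    simp only at h3
    rw [Finset.sum_update_of_mem (Finset.mem_univ J)] at h3
    have h6 : ∑ j, m j = m J + ∑ j ∈ Finset.univ \ {J}, m j := by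
      rw [← Finset.add_sum_erase Finset.univ m (Finset.mem_univ J), Finset.sdiff_singleton_eq_erase]
    omega
  -- orders are less than p
  have hlt : ∀ j, m j < p := by
    intro J
    by_contra hcon
    push Not at hcon
    have hq : derivative ((X - C a : k[X]) ^ p) = 0 := by
      rw [derivative_X_sub_C_pow, CharP.cast_eq_zero]
      simp
    have hq0 : (X - C a : k[X]) ^ p ≠ 0 := pow_ne_zero _ (X_sub_C_ne_zero a)
    have h1 : ∀ i, ∃ g, G i J = (X - C a) ^ p * g := fun i =>
      (pow_dvd_pow _ hcon).trans (hdiv i J)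
    choose gg hgg using h1
    obtain ⟨h2, h3⟩ := hor_divide hG J _ hq hq0 gg hgg
    have h4 : (G.updateCol J gg).det ≠ 0 := by
      intro h; rw [h, mul_zero] at h3; exact hG0 h3
    have h5 := hmin _ h2 h4
    rw [← hGdeg, h3, natDegree_mul hq0 h4, natDegree_pow, natDegree_X_sub_C] at h5
    have := hp.out.pos
    omega
  refine ⟨m, hlt, ?_, ?_⟩
  · have h1 : F.det.rootMultiplicity a = G.det.rootMultiplicity a := by
      rw [hGdet, rootMultiplicity_mul (mul_ne_zero (C_ne_zero.mpr hμ) hdet), rootMultiplicity_C,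
        zero_add]
    have h2 : H.det.eval a ≠ 0 := by
      have : H.det.eval a = (H.map (eval a)).det := by
        have := RingHom.map_det (evalRingHom a) H
        simpa using this
      rw [this]; exact hHa
    have h3 : H.det ≠ 0 := by intro h; rw [h] at h2; simp at h2
    rw [h1, hHdet, rootMultiplicity_mul (mul_ne_zero (pow_ne_zero _ (X_sub_C_ne_zero a)) h3),
      rootMultiplicity_X_sub_C_pow, rootMultiplicity_eq_zero h2, add_zero]
  · have hu : IsUnit (H.map (eval a)) := by
      rw [Matrix.isUnit_iff_isUnit_det]; exact isUnit_iff_ne_zero.mpr hHa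
    obtain ⟨U, hU⟩ := hu
    have h1 : (g.eval a)⁻¹ • L.map (eval a)
        = U.val * diagonal (fun j => ((m j : ℕ) : k)) * (U⁻¹).val := by
      rw [← hU] at hres
      rw [← hres, mul_assoc]
      simp
    rw [h1]
    have := charpoly_units_conj U (diagonal (fun j => ((m j : ℕ) : k)))
    rw [Matrix.coe_units_inv, this, charpoly_diagonal]


/-- coefficient of a determinant in the top possible degree -/
lemma coeff_det {M : Matrix (Fin r) (Fin r) k[X]} {D : ℕ} (h : ∀ i j, (M i j).natDegree ≤ D) :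
    M.det.coeff (r * D) = (M.map (fun f => f.coeff D)).det ∧ M.det.natDegree ≤ r * D := by
  constructor
  · rw [det_apply, det_apply, finsetSum_coeff]
    apply Finset.sum_congr rfl
    intro σ _
    rw [coeff_smul]
    congr 1
    have := coeff_prod_of_natDegree_le (s := Finset.univ) (f := fun i => M (σ i) i) D
      (fun i _ => h (σ i) i)
    simpa using this
  · rw [det_apply]
    apply natDegree_sum_le_of_forall_le
    intro σ _
    refine (natDegree_smul_le _ _).trans ?_
    refine (natDegree_prod_le _ _).trans ?_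
    calc ∑ i, (M (σ i) i).natDegree ≤ ∑ _i : Fin r, D := Finset.sum_le_sum (fun i _ => h (σ i) i)
      _ = r * D := by simp

/-- degree of a determinant with invertible leading matrix -/
lemma natDegree_det_of_leading {F : Matrix (Fin r) (Fin r) k[X]} {d : Fin r → ℕ}
    (h : ∀ i j, (F i j).natDegree ≤ d j)
    (hl : (Matrix.of fun i j => (F i j).coeff (d j)).det ≠ 0) :
    F.det.natDegree = ∑ j, d j := by
  set D := ∑ j, d j with hD
  have hdD : ∀ j, d j ≤ D := fun j =>
    Finset.single_le_sum (f := d) (fun _ _ => Nat.zero_le _) (Finset.mem_univ j)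
  set M : Matrix (Fin r) (Fin r) k[X] := F * diagonal (fun j => X ^ (D - d j)) with hM
  have hMe : ∀ i j, M i j = F i j * X ^ (D - d j) := by
    intro i j
    rw [hM, mul_diagonal]
  have h1 : ∀ i j, (M i j).natDegree ≤ D := by
    intro i j
    rw [hMe]
    refine natDegree_mul_le.trans ?_
    rw [natDegree_X_pow]
    have := h i j
    have := hdD j
    omega
  have h2 : M.map (fun f => f.coeff D) = Matrix.of fun i j => (F i j).coeff (d j) := by
    ext1 i j
    rw [map_apply, hMe, of_apply]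
    have : D = d j + (D - d j) := by have := hdD j; omega
    conv_lhs => rw [this]
    rw [show d j + (D - d j) - d j = D - d j by omega]
    exact coeff_mul_X_pow _ _ _
  obtain ⟨h3, h4⟩ := coeff_det h1
  rw [h2] at h3
  have h5 : M.det.natDegree = r * D :=
    le_antisymm h4 (le_natDegree_of_ne_zero (by rw [h3]; exact hl))
  have h6 : M.det = F.det * X ^ (∑ j, (D - d j)) := by
    rw [hM, det_mul, det_diagonal, Finset.prod_pow_eq_pow_sum]
  have h7 : F.det ≠ 0 := by
    intro h0
    rw [h6, h0, zero_mul, coeff_zero] at h3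
    exact hl h3.symm
  rw [h6, natDegree_mul h7 (pow_ne_zero _ X_ne_zero), natDegree_X_pow] at h5
  have h8 : ∑ j, (D - d j) + ∑ j, d j = r * D := by
    rw [← Finset.sum_add_distrib]
    calc ∑ j, (D - d j + d j) = ∑ _j : Fin r, D :=
          Finset.sum_congr rfl (fun j _ => Nat.sub_add_cancel (hdD j))
      _ = r * D := by simp
  omega

/-- the matrix of the Fuchsian system after clearing denominators -/
noncomputable def Lmat (b c : Matrix (Fin r) (Fin r) k) : Matrix (Fin r) (Fin r) k[X] :=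
  (X - 1 : k[X]) • b.map C + (X : k[X]) • c.map C

theorem infinity_structure {p : ℕ} [CharP k p]
    {b c : Matrix (Fin r) (Fin r) k} {F : Matrix (Fin r) (Fin r) k[X]}
    (hF : Hor (X * (X - 1)) (Lmat b c) F) (hdet : F.det ≠ 0)
    (hker : ∀ v : Fin r → k, b *ᵥ v = 0 → c *ᵥ v = 0 → v = 0) :
    ∃ d : Fin r → ℕ, (∀ j, 1 ≤ d j) ∧ F.det.natDegree = ∑ j, d j ∧
      (b + c).charpoly = ∏ j, (X - C ((d j : ℕ) : k)) := by
  classical
  obtain ⟨⟨G, d⟩, ⟨hG, ⟨μ, hμ, hGdet⟩, hdeg⟩, hmin⟩ := exists_min_nat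
    (fun x : Matrix (Fin r) (Fin r) k[X] × (Fin r → ℕ) => Hor (X * (X - 1)) (Lmat b c) x.1 ∧
      (∃ μ : k, μ ≠ 0 ∧ x.1.det = C μ * F.det) ∧ ∀ i j, (x.1 i j).natDegree ≤ x.2 j)
    (fun x => ∑ j, x.2 j)
    ⟨(F, fun j => ∑ i, (F i j).natDegree), hF, ⟨1, one_ne_zero, by simp⟩, by
      intro i j
      exact Finset.single_le_sum (f := fun i => (F i j).natDegree) (fun _ _ => Nat.zero_le _)
        (Finset.mem_univ i)⟩
  simp only at hG hGdet hdeg hmin
  have hG0 : G.det ≠ 0 := by
    rw [hGdet]; exact mul_ne_zero (C_ne_zero.mpr hμ) hdet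
  set ℓ : Matrix (Fin r) (Fin r) k := Matrix.of fun i j => (G i j).coeff (d j) with hℓ
  -- eigenvector relation at infinity
  have hres : (b + c) * ℓ = ℓ * diagonal (fun j => ((d j : ℕ) : k)) := by
    ext1 i j
    have h1 : (X * (X - 1) * derivative (G i j)).coeff (d j + 1)
        = (∑ l, Lmat b c i l * G l j).coeff (d j + 1) := by rw [hG i j]
    have h2 : (X * (X - 1) * derivative (G i j)).coeff (d j + 1)
        = (d j : k) * (G i j).coeff (d j) := by
      have e1 : (X * (X - 1) * derivative (G i j) : k[X])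
          = X * (X * derivative (G i j)) - X * derivative (G i j) := by ring
      rw [e1, coeff_sub, coeff_X_mul, coeff_X_mul, coeff_derivative]
      have e2 : (G i j).coeff (d j + 1) = 0 :=
        coeff_eq_zero_of_natDegree_lt (lt_of_le_of_lt (hdeg i j) (Nat.lt_succ_self _))
      rw [e2, zero_mul, sub_zero]
      rcases Nat.eq_zero_or_pos (d j) with h0 | h0
      · rw [h0]; simp
      · obtain ⟨n, hn⟩ : ∃ n, d j = n + 1 := ⟨d j - 1, by omega⟩
        rw [hn, coeff_X_mul, coeff_derivative]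
        push_cast
        ring
    have h3 : ∀ l, (Lmat b c i l * G l j).coeff (d j + 1) = (b i l + c i l) * (G l j).coeff (d j) := by
      intro l
      have e1 : Lmat b c i l * G l j = X * (C (b i l + c i l) * G l j) - C (b i l) * G l j := by
        simp only [Lmat, Matrix.add_apply, Matrix.smul_apply, map_apply, smul_eq_mul, C_add]
        ring
      rw [e1, coeff_sub, coeff_X_mul, coeff_C_mul, coeff_C_mul]
      have e2 : (G l j).coeff (d j + 1) = 0 :=
        coeff_eq_zero_of_natDegree_lt (lt_of_le_of_lt (hdeg l j) (Nat.lt_succ_self _))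
      rw [e2, mul_zero, sub_zero]
    rw [h2, finsetSum_coeff] at h1
    simp only [h3] at h1
    rw [mul_diagonal, mul_apply]
    simp only [hℓ, of_apply, Matrix.add_apply]
    rw [← h1]; ring
  have hℓ0 : ℓ.det ≠ 0 := by
    intro h0
    obtain ⟨e, he, hMe, hsupp⟩ := min_support hres h0
    obtain ⟨J, hJ, hJmax⟩ : ∃ J, e J ≠ 0 ∧ ∀ j, e j ≠ 0 → d j ≤ d J := by
      obtain ⟨J, h1, h2⟩ := exists_max_nat (fun j => e j ≠ 0) d (∑ j, d j)
        (fun j _ => Finset.single_le_sum (f := d) (fun _ _ => Nat.zero_le _) (Finset.mem_univ j))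
        (Function.ne_iff.mp he)
      exact ⟨J, h1, h2⟩
    set cc : Fin r → k[X] := fun j => C (e j) * X ^ (d J - d j) with hcc
    have hder : ∀ j, derivative (cc j) = 0 := by
      intro j
      by_cases hj : e j = 0
      · simp [hcc, hj]
      · have h1 := hsupp J j hJ hj
        have h2 : p ∣ d J - d j := by
          have h3 := (CharP.natCast_eq_natCast k p).mp h1
          exact (Nat.modEq_iff_dvd' (hJmax j hj)).mp h3.symm
        simp only [hcc]
        rw [derivative_C_mul, derivative_X_pow, (CharP.cast_eq_zero_iff k p _).mpr h2]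
        simp
    obtain ⟨h1, h2⟩ := hor_combine hG J cc hder
    have hcol : ∀ i, (∑ j, cc j * G i j).natDegree ≤ d J ∧ (∑ j, cc j * G i j).coeff (d J) = 0 := by
      intro i
      constructor
      · apply natDegree_sum_le_of_forall_le
        intro j _
        by_cases hj : e j = 0
        · simp [hcc, hj]
        · simp only [hcc]
          refine natDegree_mul_le.trans ?_
          have e1 := natDegree_C_mul_X_pow_le (e j) (d J - d j)
          have e2 := hdeg i j
          have e3 := hJmax j hj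
          omega
      · rw [finsetSum_coeff]
        have h5 := congrFun hMe i
        simp only [mulVec, dotProduct, hℓ, of_apply, Pi.zero_apply] at h5
        rw [← h5]
        apply Finset.sum_congr rfl
        intro j _
        by_cases hj : e j = 0
        · simp [hcc, hj]
        · simp only [hcc]
          have e3 := hJmax j hj
          have e4 : C (e j) * X ^ (d J - d j) * G i j = C (e j) * (G i j * X ^ (d J - d j)) := by ring
          have e5 : d J = d j + (d J - d j) := by omega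
          rw [e4, coeff_C_mul]
          conv_lhs => rw [e5]
          rw [show d j + (d J - d j) - d j = d J - d j by omega, coeff_mul_X_pow]
          ring
    rcases Nat.eq_zero_or_pos (d J) with h0 | h0
    · -- zero column, impossible
      have h6 : (G.updateCol J (fun i => ∑ j, cc j * G i j)).det = 0 := by
        apply det_eq_zero_of_column_eq_zero J
        intro i
        rw [updateCol_self]
        obtain ⟨h7, h8⟩ := hcol i
        rw [h0] at h7 h8
        rw [eq_C_of_natDegree_le_zero h7, h8, C_0]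
      rw [h2] at h6
      have h7 : cc J ≠ 0 := by
        simp only [hcc, Nat.sub_self, pow_zero, mul_one]
        exact C_ne_zero.mpr hJ
      exact (mul_ne_zero h7 hG0) h6
    · have h3 := hmin (G.updateCol J (fun i => ∑ j, cc j * G i j), Function.update d J (d J - 1))
        ⟨h1, ⟨e J * μ, mul_ne_zero hJ hμ, by
          rw [h2, hGdet]; simp only [hcc, Nat.sub_self, pow_zero, mul_one, C_mul]; ring⟩, by
          intro i j
          by_cases hj : j = J
          · subst hj
            simp only [updateCol_self, Function.update_self]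
            obtain ⟨h7, h8⟩ := hcol i
            rw [natDegree_le_iff_coeff_eq_zero]
            intro N hN
            rcases Nat.lt_or_ge (d j) N with h9 | h9
            · exact coeff_eq_zero_of_natDegree_lt (lt_of_le_of_lt h7 h9)
            · have : N = d j := by omega
              rw [this]; exact h8
          · simp only [updateCol_ne hj, Function.update_of_ne hj]
            exact hdeg i j⟩
      simp only at h3
      rw [Finset.sum_update_of_mem (Finset.mem_univ J)] at h3
      have h6 : ∑ j, d j = d J + ∑ j ∈ Finset.univ \ {J}, d j := by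
        rw [← Finset.add_sum_erase Finset.univ d (Finset.mem_univ J), Finset.sdiff_singleton_eq_erase]
      omega
  refine ⟨d, ?_, ?_, ?_⟩
  · intro j
    by_contra hcon
    have hd0 : d j = 0 := by omega
    have hconst : ∀ i, G i j = C ((G i j).coeff 0) := fun i =>
      eq_C_of_natDegree_le_zero (by have := hdeg i j; omega)
    set v : Fin r → k := fun i => (G i j).coeff 0 with hv
    have h1 : ∀ i, ∑ l, (C (b i l) * (X - 1) + C (c i l) * X) * C (v l) = (0 : k[X]) := by
      intro i
      have h2 := hG i j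
      rw [hconst i, derivative_C, mul_zero] at h2
      rw [h2]
      apply Finset.sum_congr rfl
      intro l _
      rw [hconst l]
      simp only [Lmat, Matrix.add_apply, Matrix.smul_apply, map_apply, smul_eq_mul, hv]
      ring
    have hbv : b *ᵥ v = 0 := by
      funext i
      have h3 := congrArg (eval 0) (h1 i)
      simp only [eval_finsetSum, eval_mul, eval_add, eval_C, eval_sub, eval_X, eval_one,
        eval_zero] at h3
      simp only [mulVec, dotProduct, Pi.zero_apply]
      have h4 : ∑ l, (b i l * (0 - 1) + c i l * 0) * v l = - ∑ l, b i l * v l := by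
        rw [← Finset.sum_neg_distrib]
        apply Finset.sum_congr rfl
        intro l _
        ring
      rw [h4] at h3
      exact neg_eq_zero.mp h3
    have hcv : c *ᵥ v = 0 := by
      funext i
      have h3 := congrArg (eval 1) (h1 i)
      simp only [eval_finsetSum, eval_mul, eval_add, eval_C, eval_sub, eval_X, eval_one,
        eval_zero] at h3
      simp only [mulVec, dotProduct, Pi.zero_apply]
      rw [← h3]
      apply Finset.sum_congr rfl
      intro l _
      ring
    have hv0 := hker v hbv hcv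
    apply hG0
    apply det_eq_zero_of_column_eq_zero j
    intro i
    rw [hconst i]
    have := congrFun hv0 i
    simp only [hv, Pi.zero_apply] at this
    rw [this, C_0]
  · rw [← natDegree_det_of_leading hdeg hℓ0, hGdet, natDegree_C_mul hμ]
  · have hu : IsUnit ℓ := by
      rw [Matrix.isUnit_iff_isUnit_det]; exact isUnit_iff_ne_zero.mpr hℓ0
    obtain ⟨U, hU⟩ := hu
    have h1 : b + c = U.val * diagonal (fun j => ((d j : ℕ) : k)) * (U⁻¹).val := by
      rw [← hU] at hres
      rw [← hres, mul_assoc]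
      simp
    rw [h1]
    have := charpoly_units_conj U (diagonal (fun j => ((d j : ℕ) : k)))
    rw [Matrix.coe_units_inv, this, charpoly_diagonal]


theorem core {p : ℕ} [hp : Fact p.Prime] [CharP k p] [IsAlgClosed k]
    (b c : Matrix (Fin r) (Fin r) k)
    (hex : ∃ F, Hor (X * (X - 1)) (Lmat b c) F ∧ F.det ≠ 0)
    (hker : ∀ v : Fin r → k, b *ᵥ v = 0 → c *ᵥ v = 0 → v = 0) :
    ∃ m0 m1 d : Fin r → ℕ, (∀ j, m0 j < p) ∧ (∀ j, m1 j < p) ∧ (∀ j, 1 ≤ d j) ∧
      b.charpoly = ∏ j, (X - C ((m0 j : ℕ) : k)) ∧ c.charpoly = ∏ j, (X - C ((m1 j : ℕ) : k)) ∧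
      (b + c).charpoly = ∏ j, (X - C ((d j : ℕ) : k)) ∧ ∑ j, d j = ∑ j, m0 j + ∑ j, m1 j := by
  classical
  obtain ⟨F, ⟨hF, hdet⟩, hmin⟩ := exists_min_nat
    (fun F : Matrix (Fin r) (Fin r) k[X] => Hor (X * (X - 1)) (Lmat b c) F ∧ F.det ≠ 0)
    (fun F => F.det.natDegree) hex
  have hmin' : ∀ G, Hor (X * (X - 1)) (Lmat b c) G → G.det ≠ 0 →
      F.det.natDegree ≤ G.det.natDegree := fun G h1 h2 => hmin G ⟨h1, h2⟩
  obtain ⟨m0, hm0, hr0, hc0⟩ := local_structure (p := p) (w := X * (X - 1)) (L := Lmat b c) 0 (X - 1)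
    (by simp) (by simp) hF hdet hmin'
  obtain ⟨m1, hm1, hr1, hc1⟩ := local_structure (p := p) (w := X * (X - 1)) (L := Lmat b c) 1 X
    (by simp; ring) (by simp) hF hdet hmin'
  obtain ⟨d, hd1, hdeg, hcd⟩ := infinity_structure (p := p) hF hdet hker
  have hL0 : ((X - 1 : k[X]).eval 0)⁻¹ • (Lmat b c).map (eval 0) = b := by
    ext1 i j
    simp [Lmat]
  have hL1 : ((X : k[X]).eval 1)⁻¹ • (Lmat b c).map (eval 1) = c := by
    ext1 i j
    simp [Lmat]
  rw [hL0] at hc0
  rw [hL1] at hc1
  refine ⟨m0, m1, d, hm0, hm1, hd1, hc0, hc1, hcd, ?_⟩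
  have hother : ∀ a : k, a ≠ 0 → a ≠ 1 → F.det.rootMultiplicity a = 0 := by
    intro a ha0 ha1
    have hequiv : ∀ G, Hor ((X - C a) * (X * (X - 1))) ((X - C a) • Lmat b c) G ↔
        Hor (X * (X - 1)) (Lmat b c) G := by
      intro G
      have h1 : ∀ i j, ∑ l, ((X - C a) • Lmat b c) i l * G l j
          = (X - C a) * ∑ l, Lmat b c i l * G l j := by
        intro i j
        rw [Finset.mul_sum]
        apply Finset.sum_congr rfl
        intro l _
        rw [Matrix.smul_apply, smul_eq_mul]; ring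
      constructor
      · intro h i j
        have h2 := h i j
        rw [h1, mul_assoc] at h2
        exact mul_left_cancel₀ (X_sub_C_ne_zero a) h2
      · intro h i j
        rw [h1, mul_assoc, h i j]
    obtain ⟨m, hm, hr, hcm⟩ := local_structure (p := p) (w := (X - C a) * (X * (X - 1)))
      (L := (X - C a) • Lmat b c) a (X * (X - 1)) rfl
      (by simp only [eval_mul, eval_X, eval_sub, eval_one]; exact mul_ne_zero ha0 (sub_ne_zero.mpr ha1))
      ((hequiv F).mpr hF) hdet (fun G h1 h2 => hmin' G ((hequiv G).mp h1) h2)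
    rw [hr]
    apply Finset.sum_eq_zero
    intro j _
    have h1 : (((X - C a) • Lmat b c).map (eval a) : Matrix (Fin r) (Fin r) k) = 0 := by
      ext1 i l
      simp
    rw [h1, smul_zero, charpoly_zero] at hcm
    have h2 := congrArg (eval ((m j : ℕ) : k)) hcm
    rw [eval_prod, Finset.prod_eq_zero (Finset.mem_univ j) (by simp)] at h2
    rw [eval_pow, eval_X] at h2
    have h3 : ((m j : ℕ) : k) = 0 := (pow_eq_zero_iff (by
      rw [Fintype.card_fin]; exact (Fin.pos j).ne')).mp h2
    have h4 := (CharP.cast_eq_zero_iff k p _).mp h3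
    exact Nat.eq_zero_of_dvd_of_lt h4 (hm j)
  rw [← hdeg, ← hr0, ← hr1, ← IsAlgClosed.card_roots_eq_natDegree, ← Multiset.toFinset_sum_count_eq]
  have hsub : F.det.roots.toFinset ⊆ {0, 1} := by
    intro a ha
    rw [Multiset.mem_toFinset] at ha
    by_contra hcon
    simp only [Finset.mem_insert, Finset.mem_singleton, not_or] at hcon
    have h1 := hother a hcon.1 hcon.2
    rw [← count_roots] at h1
    exact (Multiset.count_pos.mpr ha).ne' h1
  rw [Finset.sum_subset hsub (by
    intro a _ ha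
    rw [Multiset.mem_toFinset] at ha
    exact Multiset.count_eq_zero.mpr ha), Finset.sum_pair zero_ne_one]
  simp only [count_roots]

/-- representative of an element of the prime field -/
noncomputable def rep (z : k) : ℕ := by
  classical
  exact if h : ∃ n : ℕ, (n : k) = z then Nat.find h else 0

lemma rep_natCast {p : ℕ} [CharP k p] (n : ℕ) : rep (n : k) = n % p := by
  classical
  have h : ∃ m : ℕ, (m : k) = (n : k) := ⟨n, rfl⟩
  unfold rep
  rw [dif_pos h]
  apply le_antisymm
  · apply Nat.find_min'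
    rw [CharP.natCast_eq_natCast k p]
    exact Nat.mod_modEq n p
  · have h1 := Nat.find_spec h
    rw [CharP.natCast_eq_natCast k p] at h1
    calc n % p = Nat.find h % p := h1.symm
      _ ≤ Nat.find h := Nat.mod_le _ _

lemma sum_transfer {x y : Fin r → k} (h : ∏ j, (X - C (x j)) = ∏ j, (X - C (y j))) (f : k → ℕ) :
    ∑ j, f (x j) = ∑ j, f (y j) := by
  have h1 : ∀ z : Fin r → k, (∏ j, (X - C (z j))).roots = Finset.univ.val.map z := by
    intro z
    have : ∏ j, (X - C (z j)) = ((Finset.univ.val.map z).map (fun a => X - C a)).prod := by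
      rw [Multiset.map_map]; rfl
    rw [this, roots_multiset_prod_X_sub_C]
  have h2 : Finset.univ.val.map x = Finset.univ.val.map y := by rw [← h1 x, ← h1 y, h]
  have h3 : ∀ z : Fin r → k, ∑ j, f (z j) = ((Finset.univ.val.map z).map f).sum := by
    intro z
    rw [Multiset.map_map]; rfl
  rw [h3, h3, h2]

lemma rep_neg {p : ℕ} [hp : Fact p.Prime] [CharP k p] (n : ℕ) (hn : 1 ≤ n) :
    p ≤ n + rep (-(n : k)) := by
  have h1 : (-(n : k)) = ((n * (p - 1) : ℕ) : k) := by
    have h2 : ((p - 1 : ℕ) : k) = -1 := by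
      have := hp.out.one_le
      push_cast [Nat.cast_sub this]
      simp
    rw [Nat.cast_mul, h2]; ring
  rw [h1, rep_natCast (p := p)]
  have h2 : p ∣ n + (n * (p - 1)) % p := by
    rw [Nat.dvd_iff_mod_eq_zero, Nat.add_mod_mod, ← Nat.dvd_iff_mod_eq_zero]
    have := hp.out.one_le
    refine ⟨n, ?_⟩
    obtain ⟨q, hq⟩ : ∃ q, p = q + 1 := ⟨p - 1, by omega⟩
    rw [hq]; simp; ring
  exact Nat.le_of_dvd (by omega) h2

/-- the basic inequality in characteristic `p` -/
theorem ineq_basic {p : ℕ} [hp : Fact p.Prime] [CharP k p] [IsAlgClosed k]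
    {b c : Matrix (Fin r) (Fin r) k} {β γ ε : Fin r → k}
    (hb : b.charpoly = ∏ j, (X - C (β j))) (hc : c.charpoly = ∏ j, (X - C (γ j)))
    (hbc : (b + c).charpoly = ∏ j, (X - C (ε j)))
    (hex : ∃ F, Hor (X * (X - 1)) (Lmat b c) F ∧ F.det ≠ 0)
    (hker : ∀ v : Fin r → k, b *ᵥ v = 0 → c *ᵥ v = 0 → v = 0) :
    p * r ≤ ∑ j, rep (β j) + ∑ j, rep (γ j) + ∑ j, rep (-(ε j)) := by
  obtain ⟨m0, m1, d, h0, h1, hd, e0, e1, e2, hsum⟩ := core b c hex hker
  rw [sum_transfer (hb.symm.trans e0) rep, sum_transfer (hc.symm.trans e1) rep,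
    sum_transfer (hbc.symm.trans e2) (fun z => rep (-z))]
  simp only [rep_natCast (p := p)]
  rw [Finset.sum_congr rfl (fun j _ => Nat.mod_eq_of_lt (h0 j)),
    Finset.sum_congr rfl (fun j _ => Nat.mod_eq_of_lt (h1 j)), ← hsum, ← Finset.sum_add_distrib]
  calc p * r = ∑ _j : Fin r, p := by simp [mul_comm]
    _ ≤ _ := Finset.sum_le_sum (fun j _ => rep_neg (d j) (hd j))


/-- twisting by a rank one system with exponents in the prime field -/
lemma hor_twist {p : ℕ} [hp : Fact p.Prime] [CharP k p] {b c : Matrix (Fin r) (Fin r) k}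
    (x y : ℕ) (hex : ∃ F, Hor (X * (X - 1)) (Lmat b c) F ∧ F.det ≠ 0) :
    ∃ F, Hor (X * (X - 1)) (Lmat (b - scalar (Fin r) (x : k)) (c - scalar (Fin r) (y : k))) F ∧
      F.det ≠ 0 := by
  obtain ⟨F, hF, hdet⟩ := hex
  set s := x * (p - 1) with hs
  set t := y * (p - 1) with ht
  have hcast : ((p - 1 : ℕ) : k) = -1 := by
    have := hp.out.one_le
    push_cast [Nat.cast_sub this]
    simp
  have hsk : (C ((s : ℕ) : k) : k[X]) = - C (x : k) := by
    rw [hs, Nat.cast_mul, hcast]; simp
  have htk : (C ((t : ℕ) : k) : k[X]) = - C (y : k) := by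
    rw [ht, Nat.cast_mul, hcast]; simp
  set q : k[X] := X ^ s * (X - C 1) ^ t with hq
  have hpow : ∀ (a : k) (n : ℕ), (X - C a) * derivative ((X - C a) ^ n)
      = C ((n : ℕ) : k) * (X - C a) ^ n := by
    intro a n
    rw [derivative_X_sub_C_pow]
    rcases Nat.eq_zero_or_pos n with h0 | h0
    · rw [h0]; simp
    · obtain ⟨l, hl⟩ : ∃ l, n = l + 1 := ⟨n - 1, by omega⟩
      rw [hl, Nat.add_sub_cancel, pow_succ]; ring
  have hq' : X * (X - 1) * derivative q = -(C (x : k) * (X - 1) + C (y : k) * X) * q := by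
    have h1 := hpow 0 s
    have h2 := hpow 1 t
    rw [C_0, sub_zero, hsk] at h1
    rw [htk] at h2
    rw [hq, derivative_mul]
    rw [C_1] at h2 ⊢
    linear_combination ((X - 1) * (X - 1) ^ t) * h1 + (X * X ^ s) * h2
  have hq0 : q ≠ 0 := mul_ne_zero (pow_ne_zero _ X_ne_zero) (pow_ne_zero _ (X_sub_C_ne_zero 1))
  refine ⟨q • F, ?_, ?_⟩
  · intro i j
    have h1 := hF i j
    rw [Matrix.smul_apply, smul_eq_mul, derivative_mul]
    have h2 : ∀ l, Lmat (b - scalar (Fin r) (x : k)) (c - scalar (Fin r) (y : k)) i l * (q • F) l j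
        = q * (Lmat b c i l * F l j)
          - (if i = l then (C (x : k) * (X - 1) + C (y : k) * X) * q * F l j else 0) := by
      intro l
      simp only [Lmat, Matrix.add_apply, Matrix.smul_apply, map_apply, smul_eq_mul,
        Matrix.sub_apply, scalar_apply, diagonal_apply]
      by_cases hil : i = l
      · simp only [hil, if_true, C_sub]; ring
      · simp only [hil, if_false, C_sub, C_0]; ring
    simp only [h2]
    rw [Finset.sum_sub_distrib, ← Finset.mul_sum, ← h1, Finset.sum_ite_eq]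
    simp only [Finset.mem_univ, if_true]
    linear_combination (F i j) * hq'
  · rw [det_smul]
    exact mul_ne_zero (pow_ne_zero _ hq0) hdet

lemma charpoly_twist {b : Matrix (Fin r) (Fin r) k} {β : Fin r → k}
    (hb : b.charpoly = ∏ j, (X - C (β j))) (x : k) :
    (b - scalar (Fin r) x).charpoly = ∏ j, (X - C (β j - x)) := by
  rw [charpoly_sub_scalar, hb, Polynomial.prod_comp]
  apply Finset.prod_congr rfl
  intro j _
  simp
  ring

/-- the inequality for all rank one twists -/
theorem ineq_twist {p : ℕ} [hp : Fact p.Prime] [CharP k p] [IsAlgClosed k]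
    {b c : Matrix (Fin r) (Fin r) k} {β γ ε : Fin r → k}
    (hb : b.charpoly = ∏ j, (X - C (β j))) (hc : c.charpoly = ∏ j, (X - C (γ j)))
    (hbc : (b + c).charpoly = ∏ j, (X - C (ε j)))
    (hex : ∃ F, Hor (X * (X - 1)) (Lmat b c) F ∧ F.det ≠ 0) (x y : ℕ)
    (hker : ∀ v : Fin r → k, b *ᵥ v = (x : k) • v → c *ᵥ v = (y : k) • v → v = 0) :
    p * r ≤ ∑ j, rep (β j - x) + ∑ j, rep (γ j - y) + ∑ j, rep ((x : k) + y - ε j) := by
  have h1 := ineq_basic (charpoly_twist hb (x : k)) (charpoly_twist hc (y : k))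
    (ε := fun j => ε j - ((x : k) + y)) (by
      have h2 : b - scalar (Fin r) (x : k) + (c - scalar (Fin r) (y : k))
          = (b + c) - scalar (Fin r) ((x : k) + y) := by
        rw [map_add]; abel
      rw [h2]
      exact charpoly_twist hbc _) (hor_twist (p := p) x y hex) (by
      intro v h2 h3
      apply hker v
      · rw [sub_mulVec, sub_eq_zero] at h2
        rw [h2]
        simp
      · rw [sub_mulVec, sub_eq_zero] at h3
        rw [h3]
        simp)
  simpa only [neg_sub] using h1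

lemma map_derivative_mul (M N : Matrix (Fin r) (Fin r) k[X]) :
    (M * N).map (fun f => derivative f)
      = M.map (fun f => derivative f) * N + M * N.map (fun f => derivative f) := by
  ext1 i j
  simp only [map_apply, mul_apply, Matrix.add_apply, derivative_sum, derivative_mul,
    Finset.sum_add_distrib]

/-- the dual system -/
lemma hor_dual {p : ℕ} [hp : Fact p.Prime] [CharP k p] {b c : Matrix (Fin r) (Fin r) k}
    (hex : ∃ F, Hor (X * (X - 1)) (Lmat b c) F ∧ F.det ≠ 0) :
    ∃ F, Hor (X * (X - 1)) (Lmat (-bᵀ) (-cᵀ)) F ∧ F.det ≠ 0 := by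
  obtain ⟨F, hF, hdet⟩ := hex
  set D := F.det with hD
  set w : k[X] := X * (X - 1) with hw
  set L := Lmat b c with hL
  -- matrix form of the equation
  have hFm : w • F.map (fun f => derivative f) = L * F := by
    ext1 i j
    rw [Matrix.smul_apply, smul_eq_mul, map_apply, mul_apply, hF i j]
  have h1 : F.map (fun f => derivative f) * adjugate F + F * (adjugate F).map (fun f => derivative f)
      = (derivative D) • (1 : Matrix (Fin r) (Fin r) k[X]) := by
    rw [← map_derivative_mul, mul_adjugate]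
    ext1 i j
    rw [map_apply, Matrix.smul_apply, Matrix.smul_apply, smul_eq_mul, smul_eq_mul, one_apply]
    by_cases hij : i = j
    · simp [hij, hD]
    · simp [hij]
  have h2 : F * (w • (adjugate F).map (fun f => derivative f))
      = (w * derivative D) • (1 : Matrix (Fin r) (Fin r) k[X]) - D • L := by
    have h3 := congrArg (fun M => w • M) h1
    simp only [smul_add] at h3
    rw [← Matrix.smul_mul, hFm, Matrix.mul_assoc, mul_adjugate, smul_smul, ← Matrix.mul_smul F w,
      Matrix.mul_smul L, Matrix.mul_one] at h3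
    rw [← h3, ← hD]
    abel
  have h3 : D • (w • (adjugate F).map (fun f => derivative f))
      = (w * derivative D) • adjugate F - D • (adjugate F * L) := by
    have h4 : adjugate F * (F * (w • (adjugate F).map (fun f => derivative f)))
        = adjugate F * ((w * derivative D) • (1 : Matrix (Fin r) (Fin r) k[X]) - D • L) := by
      rw [h2]
    rw [← Matrix.mul_assoc, adjugate_mul, Matrix.smul_mul, Matrix.one_mul, ← hD] at h4
    rw [h4, Matrix.mul_sub, Matrix.mul_smul, Matrix.mul_one, Matrix.mul_smul]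
  have hD0 : D ≠ 0 := hdet
  have hcast : ((p - 1 : ℕ) : k[X]) = -1 := by
    have := hp.out.one_le
    push_cast [Nat.cast_sub this]
    simp
  have hDpow : D * derivative (D ^ (p - 1)) = - (D ^ (p - 1) * derivative D) := by
    have h5 : derivative (D ^ (p - 1)) = ((p - 1 : ℕ) : k[X]) * D ^ (p - 1 - 1) * derivative D := by
      rw [derivative_pow]; simp
    rw [h5, hcast]
    rcases Nat.lt_or_ge (p - 1) 1 with h6 | h6
    · have := hp.out.two_le
      omega
    · obtain ⟨l, hl⟩ : ∃ l, p - 1 = l + 1 := ⟨p - 2, by omega⟩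
      rw [hl, Nat.add_sub_cancel, pow_succ]; ring
  refine ⟨(D ^ (p - 1) • adjugate F)ᵀ, ?_, ?_⟩
  · intro i j
    have h5 := congrFun (congrFun h3 j) i
    simp only [Matrix.smul_apply, Matrix.sub_apply, map_apply, smul_eq_mul] at h5
    have h6 : ∑ l, Lmat (-bᵀ) (-cᵀ) i l * (D ^ (p - 1) • adjugate F)ᵀ l j
        = - (D ^ (p - 1) * (adjugate F * L) j i) := by
      rw [mul_apply, Finset.mul_sum, ← Finset.sum_neg_distrib]
      apply Finset.sum_congr rfl
      intro l _
      simp only [hL, Lmat, Matrix.add_apply, Matrix.smul_apply, map_apply, smul_eq_mul,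
        transpose_apply, Matrix.neg_apply, C_neg]
      ring
    rw [h6]
    simp only [transpose_apply, Matrix.smul_apply, smul_eq_mul, derivative_mul]
    apply mul_left_cancel₀ hD0
    linear_combination (w * (adjugate F) j i) * hDpow + (D ^ (p - 1)) * h5
  · rw [det_transpose, det_smul, det_adjugate]
    exact mul_ne_zero (pow_ne_zero _ (pow_ne_zero _ hD0)) (pow_ne_zero _ hD0)

lemma charpoly_neg_transpose {b : Matrix (Fin r) (Fin r) k} {β : Fin r → k}
    (hb : b.charpoly = ∏ j, (X - C (β j))) :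
    (-bᵀ).charpoly = ∏ j, (X - C (-(β j))) := by
  have h1 : (-bᵀ).charpoly = (-1) ^ r * (bᵀ.charpoly).comp (-X) := by
    rw [charpoly, charpoly, ← coe_compRingHom_apply, RingHom.map_det]
    have h2 : charmatrix (-bᵀ) = (-1 : k[X]) • (compRingHom (-X)).mapMatrix (charmatrix bᵀ) := by
      ext1 i j
      rw [Matrix.smul_apply, RingHom.mapMatrix_apply, map_apply, charmatrix_apply, charmatrix_apply]
      simp only [Matrix.neg_apply, map_neg, coe_compRingHom_apply, sub_comp, C_comp, smul_eq_mul]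
      by_cases hij : i = j
      · simp [hij]; ring
      · simp [hij]
    rw [h2, det_smul, Fintype.card_fin]
  rw [h1, charpoly_transpose, hb, Polynomial.prod_comp]
  have h3 : ((-1) ^ r : k[X]) = ∏ _j : Fin r, (-1 : k[X]) := by simp
  rw [h3, ← Finset.prod_mul_distrib]
  apply Finset.prod_congr rfl
  intro j _
  simp
  ring

/-- the dual inequality for all rank one twists -/
theorem ineq_twist_dual {p : ℕ} [hp : Fact p.Prime] [CharP k p] [IsAlgClosed k]
    {b c : Matrix (Fin r) (Fin r) k} {β γ ε : Fin r → k}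
    (hb : b.charpoly = ∏ j, (X - C (β j))) (hc : c.charpoly = ∏ j, (X - C (γ j)))
    (hbc : (b + c).charpoly = ∏ j, (X - C (ε j)))
    (hex : ∃ F, Hor (X * (X - 1)) (Lmat b c) F ∧ F.det ≠ 0) (x y : ℕ)
    (hker : ∀ v : Fin r → k, bᵀ *ᵥ v = (x : k) • v → cᵀ *ᵥ v = (y : k) • v → v = 0) :
    p * r ≤ ∑ j, rep ((x : k) - β j) + ∑ j, rep ((y : k) - γ j)
      + ∑ j, rep (ε j - x - y) := by
  have hcast : ((p - 1 : ℕ) : k) = -1 := by
    have := hp.out.one_le
    push_cast [Nat.cast_sub this]
    simp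
  have hx : ((x * (p - 1) : ℕ) : k) = -x := by rw [Nat.cast_mul, hcast]; ring
  have hy : ((y * (p - 1) : ℕ) : k) = -y := by rw [Nat.cast_mul, hcast]; ring
  have h1 := ineq_twist (charpoly_neg_transpose hb) (charpoly_neg_transpose hc)
    (ε := fun j => -(ε j)) (by
      have h2 : -bᵀ + -cᵀ = -(b + c)ᵀ := by rw [transpose_add]; abel
      rw [h2]
      exact charpoly_neg_transpose hbc) (hor_dual (p := p) hex) (x * (p - 1)) (y * (p - 1)) (by
      intro v h2 h3
      rw [hx, neg_mulVec, neg_smul] at h2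
      rw [hy, neg_mulVec, neg_smul] at h3
      exact hker v (neg_injective h2) (neg_injective h3))
  rw [hx, hy] at h1
  have e1 : ∀ z : k, -z - -(x : k) = (x : k) - z := fun z => by ring
  have e2 : ∀ z : k, -z - -(y : k) = (y : k) - z := fun z => by ring
  have e3 : ∀ z : k, -(x : k) + -(y : k) - -z = z - x - y := fun z => by ring
  simpa only [e1, e2, e3] using h1

end Pool.Agent.Work.MP_5e5ff1_ag

end

section

/-! Bound for sums of additive characters over the units modulo `N`. -/

open Finset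

namespace Pool.Agent.Work.MP_5e5ff1_ag

/-- `e(x) = exp(2 pi i x)` -/
noncomputable def ee (x : ℝ) : ℂ := Complex.exp (2 * Real.pi * Complex.I * x)

lemma ee_add (x y : ℝ) : ee (x + y) = ee x * ee y := by
  unfold ee
  rw [← Complex.exp_add]
  congr 1
  push_cast
  ring

lemma ee_int (n : ℤ) : ee n = 1 := by
  unfold ee
  rw [Complex.exp_eq_one_iff]
  exact ⟨n, by push_cast; ring⟩

lemma ee_zero : ee 0 = 1 := by simp [ee]

lemma norm_ee (x : ℝ) : ‖ee x‖ = 1 := by
  unfold ee
  rw [show (2 * Real.pi * Complex.I * x : ℂ) = ((2 * Real.pi * x : ℝ) : ℂ) * Complex.I by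
    push_cast; ring]
  exact Complex.norm_exp_ofReal_mul_I _

lemma ee_congr {x y : ℝ} (n : ℤ) (h : x = y + n) : ee x = ee y := by
  rw [h, ee_add, ee_int, mul_one]

lemma sum_primitiveRoots (n : ℕ) (hn : 0 < n) :
    ∑ ζ ∈ primitiveRoots n ℂ, ζ = ((ArithmeticFunction.moebius n : ℤ) : ℂ) := by
  classical
  have h1 : ∀ n > 0, ∑ i ∈ n.divisors, (∑ ζ ∈ primitiveRoots i ℂ, ζ) = if n = 1 then (1 : ℂ) else 0 := by
    intro n hn
    rw [← Finset.sum_biUnion (fun i _ j _ hij => IsPrimitiveRoot.disjoint hij),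
      ← IsPrimitiveRoot.nthRoots_one_eq_biUnion_primitiveRoots]
    split_ifs with h
    · subst h
      have : Polynomial.nthRootsFinset 1 (1 : ℂ) = {1} := by
        ext x
        simp [Polynomial.mem_nthRootsFinset]
      rw [this, Finset.sum_singleton]
    · have hn1 : 1 < n := by omega
      have : NeZero n := ⟨hn.ne'⟩
      have hζ := Complex.isPrimitiveRoot_exp n hn.ne'
      set ζ := Complex.exp (2 * Real.pi * Complex.I / n) with hζd
      have h2 : Polynomial.nthRootsFinset n (1 : ℂ) = (Finset.range n).image (fun i => ζ ^ i) := by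
        ext x
        rw [Polynomial.mem_nthRootsFinset hn, Finset.mem_image]
        constructor
        · intro hx
          obtain ⟨i, hi, hix⟩ := hζ.eq_pow_of_pow_eq_one hx
          exact ⟨i, Finset.mem_range.mpr hi, hix⟩
        · rintro ⟨i, _, rfl⟩
          rw [← pow_mul, mul_comm, pow_mul, hζ.pow_eq_one, one_pow]
      rw [h2, Finset.sum_image]
      · exact hζ.geom_sum_eq_zero hn1
      · intro i hi j hj hij
        exact hζ.pow_inj (Finset.mem_range.mp hi) (Finset.mem_range.mp hj) hij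
  have h2 := (ArithmeticFunction.sum_eq_iff_sum_mul_moebius_eq.mp h1) n hn
  rw [← h2, Finset.sum_eq_single (n, 1)]
  · simp
  · rintro ⟨a, b⟩ hab hne
    have hab' := (Nat.mem_divisorsAntidiagonal.mp hab).1
    have hb : b ≠ 1 := by
      rintro rfl
      apply hne
      simp only [mul_one] at hab'
      rw [hab']
    simp [hb]
  · intro h
    exact absurd (Nat.mem_divisorsAntidiagonal.mpr ⟨by simp, hn.ne'⟩) h

lemma norm_sum_units (q : ℕ) [NeZero q] (h : (ZMod q)ˣ) :
    ‖∑ v : (ZMod q)ˣ, ee (((v * h : (ZMod q)ˣ) : ZMod q).val / q)‖ ≤ 1 := by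
  classical
  have hq : 0 < q := NeZero.pos q
  have h0 : ∑ v : (ZMod q)ˣ, ee (((v * h : (ZMod q)ˣ) : ZMod q).val / q)
      = ∑ v : (ZMod q)ˣ, ee ((v : ZMod q).val / q) :=
    Fintype.sum_equiv (Equiv.mulRight h) _ _ (fun v => rfl)
  have h1 : ∑ v : (ZMod q)ˣ, ee ((v : ZMod q).val / q) = ∑ ζ ∈ primitiveRoots q ℂ, ζ := by
    refine Finset.sum_bij (fun v _ => ee ((v : ZMod q).val / q)) ?_ ?_ ?_ (fun _ _ => rfl)
    · intro v _
      rw [mem_primitiveRoots hq, Complex.isPrimitiveRoot_iff _ q hq.ne']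
      refine ⟨(v : ZMod q).val, ZMod.val_lt _, ZMod.val_coe_unit_coprime v, ?_⟩
      unfold ee
      push_cast
      rfl
    · intro v _ w _ hvw
      have hζ := Complex.isPrimitiveRoot_exp q hq.ne'
      have key : ∀ v : (ZMod q)ˣ, ee ((v : ZMod q).val / q)
          = Complex.exp (2 * Real.pi * Complex.I / q) ^ (v : ZMod q).val := by
        intro v
        rw [← Complex.exp_nat_mul]
        unfold ee
        congr 1
        push_cast
        ring
      rw [key, key] at hvw
      have := hζ.pow_inj (ZMod.val_lt _) (ZMod.val_lt _) hvw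
      exact Units.ext (ZMod.val_injective q this)
    · intro ζ hζ
      rw [mem_primitiveRoots hq, Complex.isPrimitiveRoot_iff _ q hq.ne'] at hζ
      obtain ⟨i, hi, hic, hiζ⟩ := hζ
      refine ⟨ZMod.unitOfCoprime i hic, Finset.mem_univ _, ?_⟩
      rw [ZMod.coe_unitOfCoprime, ZMod.val_natCast_of_lt hi, ← hiζ]
      unfold ee
      push_cast
      rfl
  rw [h0, h1, sum_primitiveRoots q hq]
  have h2 := ArithmeticFunction.abs_moebius_le_one (n := q)
  rw [Complex.norm_intCast]
  exact_mod_cast h2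

/-- sums over units modulo `N` of a character of order `q` -/
lemma norm_sum_units_general (N : ℕ) [NeZero N] (h : ℤ) (g : ℕ) (q : ℕ) (hN : N = g * q)
    (h' : ℤ) (hh : h = g * h') (hcop : IsCoprime h' (q : ℤ)) :
    ‖∑ u : (ZMod N)ˣ, ee ((((u : ZMod N).val : ℝ) * h) / N)‖ * (q.totient : ℝ) ≤ (N.totient : ℝ) := by
  classical
  have hN0 : N ≠ 0 := NeZero.ne N
  have hq0 : q ≠ 0 := by rintro rfl; simp at hN; exact hN0 hN
  have hg0 : g ≠ 0 := by rintro rfl; simp at hN; exact hN0 hN
  have : NeZero q := ⟨hq0⟩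
  have hqN : q ∣ N := ⟨g, by rw [hN]; ring⟩
  set π := ZMod.unitsMap hqN with hπ
  have hsurj : Function.Surjective π := ZMod.unitsMap_surjective hqN
  -- unit of h'
  obtain ⟨w, hw⟩ : ∃ w : (ZMod q)ˣ, (w : ZMod q) = (h' : ZMod q) := by
    have : IsUnit ((h' : ℤ) : ZMod q) := by
      obtain ⟨a, b, hab⟩ := hcop
      rw [isUnit_iff_exists_inv]
      refine ⟨(a : ZMod q), ?_⟩
      have := congrArg (fun z : ℤ => (z : ZMod q)) hab
      push_cast at this
      rw [ZMod.natCast_self, mul_zero, add_zero] at this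
      rw [mul_comm]; exact this
    obtain ⟨w, hw⟩ := this
    exact ⟨w, hw⟩
  have hval : ∀ u : (ZMod N)ˣ, ee ((((u : ZMod N).val : ℝ) * h) / N)
      = ee (((π u * w : (ZMod q)ˣ) : ZMod q).val / q) := by
    intro u
    have h1 : ((((u : ZMod N).val : ℤ) * h' : ℤ) : ZMod q) = ((π u * w : (ZMod q)ˣ) : ZMod q) := by
      rw [Units.val_mul, hw, hπ, ZMod.unitsMap_val]
      push_cast
      rw [ZMod.natCast_val]
    have h2 : (((((u : ZMod N).val : ℤ) * h' : ℤ) : ZMod q)
        - (((((π u * w : (ZMod q)ˣ) : ZMod q).val : ℤ)) : ZMod q)) = 0 := by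
      rw [h1]
      simp
    rw [← Int.cast_sub, ZMod.intCast_zmod_eq_zero_iff_dvd] at h2
    obtain ⟨m, hm⟩ := h2
    apply ee_congr m
    have hm' : ((u : ZMod N).val : ℝ) * h' - (((π u * w : (ZMod q)ˣ) : ZMod q).val : ℝ) = q * m := by
      exact_mod_cast hm
    have hNr : (N : ℝ) = g * q := by exact_mod_cast hN
    rw [hNr, hh]
    have hq0' : (q : ℝ) ≠ 0 := Nat.cast_ne_zero.mpr hq0
    have hg0' : (g : ℝ) ≠ 0 := Nat.cast_ne_zero.mpr hg0
    push_cast
    field_simp
    linear_combination hm'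
  simp only [hval]
  -- fibers
  set c := (Finset.univ.filter (fun u : (ZMod N)ˣ => π u = 1)).card with hc
  have hfib : ∀ v : (ZMod q)ˣ, (Finset.univ.filter (fun u : (ZMod N)ˣ => π u = v)).card = c := by
    intro v
    exact MonoidHom.card_fiber_eq_of_mem_range π (hsurj v) (hsurj 1)
  have hsum : ∀ f : (ZMod q)ˣ → ℂ, ∑ u : (ZMod N)ˣ, f (π u) = c * ∑ v, f v := by
    intro f
    rw [← Finset.sum_fiberwise Finset.univ π, Finset.mul_sum]
    apply Finset.sum_congr rfl
    intro v _
    rw [← hfib v]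
    rw [Finset.sum_congr rfl (g := fun _ => f v) (fun u hu => by
      rw [(Finset.mem_filter.mp hu).2])]
    simp
  have hcard : (N.totient : ℝ) = c * q.totient := by
    have h1 := hsum (fun _ => 1)
    simp only [Finset.sum_const, Finset.card_univ, ZMod.card_units_eq_totient, nsmul_eq_mul,
      mul_one] at h1
    exact_mod_cast h1
  have h1 := hsum (fun v => ee (((v * w : (ZMod q)ˣ) : ZMod q).val / q))
  rw [h1, norm_mul, hcard]
  have h2 := norm_sum_units q w
  rw [Complex.norm_natCast]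
  have h3 : (0 : ℝ) ≤ c := Nat.cast_nonneg _
  have h4 : (0 : ℝ) ≤ q.totient := Nat.cast_nonneg _
  calc (c : ℝ) * ‖∑ v : (ZMod q)ˣ, ee (((v * w : (ZMod q)ˣ) : ZMod q).val / q)‖ * q.totient
      ≤ c * 1 * q.totient := by gcongr
    _ = c * q.totient := by ring

end Pool.Agent.Work.MP_5e5ff1_ag

end

section

/-! Ultraproducts of algebraically closed fields, and their identification with the complex
numbers. -/

open Cardinal Filter Polynomial

namespace Pool.Agent.Work.MP_5e5ff1_ag

/-- the sequences vanishing at almost all indices of a fixed nonprincipal ultrafilter -/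
def ultraIdeal (k : ℕ → Type) [∀ n, Field (k n)] : Ideal (∀ n, k n) where
  carrier := {x | ∀ᶠ n in (hyperfilter ℕ : Filter ℕ), x n = 0}
  add_mem' := by
    intro x y hx hy
    filter_upwards [hx, hy] with n h1 h2
    rw [Pi.add_apply, h1, h2, add_zero]
  zero_mem' := Eventually.of_forall (fun n => rfl)
  smul_mem' := by
    intro c x hx
    filter_upwards [hx] with n h1
    rw [smul_eq_mul, Pi.mul_apply, h1, mul_zero]

lemma mem_ultraIdeal {k : ℕ → Type} [∀ n, Field (k n)] {x : ∀ n, k n} :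
    x ∈ ultraIdeal k ↔ ∀ᶠ n in (hyperfilter ℕ : Filter ℕ), x n = 0 := Iff.rfl

lemma ultraIdeal_maximal (k : ℕ → Type) [∀ n, Field (k n)] : (ultraIdeal k).IsMaximal := by
  rw [Ideal.isMaximal_iff]
  constructor
  · rw [mem_ultraIdeal]
    intro h
    obtain ⟨n, hn⟩ := h.exists
    exact one_ne_zero hn
  · intro J x hJ hx hxJ
    rw [mem_ultraIdeal, ← Ultrafilter.eventually_not] at hx
    set y : ∀ n, k n := fun n => (x n)⁻¹ with hy
    have h1 : (1 : ∀ n, k n) - y * x ∈ ultraIdeal k := by
      rw [mem_ultraIdeal]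
      filter_upwards [hx] with n hn
      simp only [hy, Pi.sub_apply, Pi.one_apply, Pi.mul_apply]
      rw [inv_mul_cancel₀ hn, sub_self]
    have h2 : (1 : ∀ n, k n) = (1 - y * x) + y * x := by ring
    rw [h2]
    exact J.add_mem (hJ h1) (J.mul_mem_left y hxJ)

section
variable (k : ℕ → Type) [∀ n, Field (k n)]

lemma ultra_mk_eq_zero {x : ∀ n, k n} : Ideal.Quotient.mk (ultraIdeal k) x = 0 ↔
    ∀ᶠ n in (hyperfilter ℕ : Filter ℕ), x n = 0 := by
  rw [Ideal.Quotient.eq_zero_iff_mem, mem_ultraIdeal]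

lemma ultra_algClosed [∀ n, IsAlgClosed (k n)]
    (L : Type) [Field L] (π : (∀ n, k n) →+* L) (hπ : Function.Surjective π) :
    IsAlgClosed L := by
  apply IsAlgClosed.of_exists_root
  intro f hf hirr
  obtain ⟨q, hq, hdeg, hmon⟩ := lifts_and_natDegree_eq_and_monic
    ((Polynomial.mem_lifts f).mpr (Polynomial.map_surjective π hπ f)) hf
  have hpos : 0 < f.natDegree := hirr.natDegree_pos
  have hex : ∀ n, ∃ x : k n, (q.map (Pi.evalRingHom k n)).eval x = 0 := by
    intro n
    apply IsAlgClosed.exists_root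
    have h1 : (q.map (Pi.evalRingHom k n)).natDegree = q.natDegree :=
      hmon.natDegree_map (Pi.evalRingHom k n)
    intro h2
    rw [degree_eq_natDegree (hmon.map (Pi.evalRingHom k n)).ne_zero, h1, hdeg] at h2
    have : f.natDegree = 0 := by exact_mod_cast h2
    omega
  choose x hx using hex
  refine ⟨π x, ?_⟩
  have h3 : q.eval x = 0 := by
    funext n
    have h4 := hx n
    rw [eval_map] at h4
    have h5 : Pi.evalRingHom k n (q.eval x) = q.eval₂ (Pi.evalRingHom k n) (x n) := by
      rw [← Polynomial.eval₂_at_apply]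
      rfl
    rw [← h5] at h4
    exact h4
  rw [← hq, eval_map, Polynomial.eval₂_at_apply, h3, map_zero]

end


lemma ultra_card (k : ℕ → Type) [∀ n, Field (k n)] [∀ n, Infinite (k n)]
    (hk : ∀ n, #(k n) ≤ 𝔠) (L : Type) [Field L] (π : (∀ n, k n) →+* L)
    (hπ : Function.Surjective π)
    (hker : ∀ x, π x = 0 ↔ ∀ᶠ n in (hyperfilter ℕ : Filter ℕ), x n = 0) : #L = 𝔠 := by
  classical
  apply le_antisymm
  · calc #L ≤ #(∀ n, k n) := Cardinal.mk_le_of_surjective hπ
      _ = Cardinal.prod (fun n => #(k n)) := Cardinal.mk_pi _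
      _ ≤ Cardinal.prod (fun _ : ℕ => 𝔠) := Cardinal.prod_le_prod _ _ hk
      _ = 𝔠 := by simp
  · have h1 : 𝔠 = #(Set ℕ) := by simp
    rw [h1]
    set x : Set ℕ → ∀ n, k n := fun s n =>
      Infinite.natEmbedding (k n) (Encodable.encode ((Finset.range n).filter (fun i => i ∈ s)))
      with hx
    apply Cardinal.mk_le_of_injective (f := fun s => π (x s))
    intro s t hst
    simp only at hst
    by_contra hne
    obtain ⟨i, hi⟩ : ∃ i, ¬ (i ∈ s ↔ i ∈ t) := by
      by_contra h
      push Not at h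
      exact hne (Set.ext h)
    have h2 : π (x s - x t) = 0 := by rw [map_sub, hst, sub_self]
    rw [hker] at h2
    have h3 : ∀ᶠ n in (hyperfilter ℕ : Filter ℕ), i < n := by
      have : ∀ᶠ n in (atTop : Filter ℕ), i < n := eventually_gt_atTop i
      exact Nat.hyperfilter_le_atTop this
    obtain ⟨n, h4, h5⟩ := (h2.and h3).exists
    rw [Pi.sub_apply, sub_eq_zero] at h4
    simp only [hx] at h4
    have h6 := Encodable.encode_injective ((Infinite.natEmbedding (k n)).injective h4)
    have h7 := Finset.ext_iff.mp h6 i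
    simp only [Finset.mem_filter, Finset.mem_range, h5, true_and] at h7
    exact hi h7

lemma exists_equiv_over (A : Type) [CommRing A] [IsDomain A] [Countable A] (L M : Type)
    [Field L] [Field M] [IsAlgClosed L] [IsAlgClosed M] (f : A →+* L) (g : A →+* M)
    (hf : Function.Injective f) (hg : Function.Injective g) (hL : ℵ₀ < #L) (hLM : #L = #M) :
    ∃ e : L ≃+* M, ∀ a, e (f a) = g a := by
  let : Algebra A L := f.toAlgebra
  let : Algebra A M := g.toAlgebra
  have : FaithfulSMul A L := (faithfulSMul_iff_algebraMap_injective A L).mpr hf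
  have : FaithfulSMul A M := (faithfulSMul_iff_algebraMap_injective A M).mpr hg
  obtain ⟨s, hs⟩ := exists_isTranscendenceBasis A L
  obtain ⟨t, ht⟩ := exists_isTranscendenceBasis A M
  have hA : #A ≤ ℵ₀ := Cardinal.mk_le_aleph0
  have h1 := IsAlgClosed.cardinal_eq_cardinal_transcendence_basis_of_aleph0_lt _ hs hA hL
  have h2 := IsAlgClosed.cardinal_eq_cardinal_transcendence_basis_of_aleph0_lt _ ht hA
    (hLM ▸ hL)
  simp only [Cardinal.lift_id] at h1 h2
  obtain ⟨e⟩ : Nonempty (s ≃ t) := Cardinal.eq.mp (by rw [← h1, ← h2, hLM])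
  let := IsAlgClosed.isAlgClosure_of_transcendence_basis _ hs
  let := IsAlgClosed.isAlgClosure_of_transcendence_basis _ ht
  let E : Algebra.adjoin A (Set.range (Subtype.val : s → L)) ≃ₐ[A]
      Algebra.adjoin A (Set.range (Subtype.val : t → M)) :=
    (hs.1.aevalEquiv.symm.trans (MvPolynomial.renameEquiv A e)).trans ht.1.aevalEquiv
  refine ⟨IsAlgClosure.equivOfEquiv L M E.toRingEquiv, ?_⟩
  intro a
  have h3 := IsAlgClosure.equivOfEquiv_algebraMap L M E.toRingEquiv
    (algebraMap A (Algebra.adjoin A (Set.range (Subtype.val : s → L))) a)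
  have h4 : E.toRingEquiv (algebraMap A (Algebra.adjoin A (Set.range (Subtype.val : s → L))) a)
      = algebraMap A (Algebra.adjoin A (Set.range (Subtype.val : t → M))) a := E.commutes a
  rw [h4] at h3
  exact h3

theorem exists_ultra {A : Type} [CommRing A] [IsDomain A] [Countable A]
    (σ : A →+* ℂ) (hσ : Function.Injective σ)
    (k : ℕ → Type) [∀ n, Field (k n)] [∀ n, IsAlgClosed (k n)] (hk : ∀ n, #(k n) ≤ 𝔠)
    (φ : ∀ n, A →+* k n) (hφ : ∀ a : A, a ≠ 0 → ∀ᶠ n in cofinite, φ n a ≠ 0) :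
    ∃ π : (∀ n, k n) →+* ℂ, Function.Surjective π ∧
      (∀ x, π x = 0 ↔ ∀ᶠ n in (hyperfilter ℕ : Filter ℕ), x n = 0) ∧
      ∀ a, π (fun n => φ n a) = σ a := by
  have := ultraIdeal_maximal k
  let : Field ((∀ n, k n) ⧸ ultraIdeal k) := Ideal.Quotient.field _
  set π₀ : (∀ n, k n) →+* ((∀ n, k n) ⧸ ultraIdeal k) := Ideal.Quotient.mk (ultraIdeal k) with hπ₀
  have hsurj : Function.Surjective π₀ := Ideal.Quotient.mk_surjective
  have hker : ∀ x, π₀ x = 0 ↔ ∀ᶠ n in (hyperfilter ℕ : Filter ℕ), x n = 0 :=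
    fun x => ultra_mk_eq_zero k
  have : IsAlgClosed ((∀ n, k n) ⧸ ultraIdeal k) := ultra_algClosed k _ π₀ hsurj
  have : ∀ n, Infinite (k n) := fun n => IsAlgClosed.instInfinite
  have hcard := ultra_card k hk _ π₀ hsurj hker
  set f : A →+* ((∀ n, k n) ⧸ ultraIdeal k) := π₀.comp (RingHom.pi φ) with hf
  have hfinj : Function.Injective f := by
    rw [injective_iff_map_eq_zero]
    intro a ha
    by_contra hne
    rw [hf, RingHom.comp_apply, hker] at ha
    have h1 := hyperfilter_le_cofinite (hφ a hne)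
    obtain ⟨n, h2, h3⟩ := (ha.and h1).exists
    exact h3 h2
  obtain ⟨e, he⟩ := exists_equiv_over A _ ℂ f σ hfinj hσ (by rw [hcard]; exact aleph0_lt_continuum)
    (by rw [hcard]; simp)
  refine ⟨(e : _ →+* ℂ).comp π₀, ?_, ?_, ?_⟩
  · exact e.surjective.comp hsurj
  · intro x
    rw [← hker x]
    simp
  · intro a
    exact he a

end Pool.Agent.Work.MP_5e5ff1_ag

end

section

/-! The completion at a point and its algebraic closure. -/

open Polynomial

namespace Pool.Agent.Work.MP_5e5ff1_ag.A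

/-- an algebraic closure of the field of Laurent series -/
abbrev EE : Type := AlgebraicClosure (FractionRing (PowerSeries ℂ))

/-- the algebraic functions -/
abbrev OO : Type := AlgebraicClosure (RatFunc ℂ)

/-- the expansion of polynomials at the point `x` -/
noncomputable def loc (x : ℂ) : ℂ[X] →+* PowerSeries ℂ :=
  (Polynomial.coeToPowerSeries.ringHom).comp (Polynomial.compRingHom (X + C x))

lemma loc_apply (x : ℂ) (f : ℂ[X]) : loc x f = ((f.comp (X + C x) : ℂ[X]) : PowerSeries ℂ) := rfl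

lemma loc_derivative (x : ℂ) (f : ℂ[X]) :
    PowerSeries.derivative ℂ (loc x f) = loc x (derivative f) := by
  rw [loc_apply, loc_apply, PowerSeries.derivative_coe, derivative_comp]
  simp

lemma constantCoeff_loc (x : ℂ) (f : ℂ[X]) :
    PowerSeries.constantCoeff (loc x f) = f.eval x := by
  rw [loc_apply, Polynomial.constantCoeff_coe, coeff_zero_eq_eval_zero, eval_comp]
  simp

lemma loc_injective (x : ℂ) : Function.Injective (loc x) := by
  rw [injective_iff_map_eq_zero]
  intro f hf
  rw [loc_apply] at hf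
  have h1 : f.comp (X + C x) = 0 := by
    apply Polynomial.coe_injective ℂ
    rw [hf, Polynomial.coe_zero]
  have h2 : (f.comp (X + C x)).comp (X - C x) = 0 := by rw [h1, zero_comp]
  rw [comp_assoc] at h2
  simpa using h2

lemma const_frac {d : FractionRing (PowerSeries ℂ) → FractionRing (PowerSeries ℂ)}
    (hder : IsDer d) (hd : ∀ f : PowerSeries ℂ, d (algebraMap _ _ f)
      = algebraMap _ _ (PowerSeries.derivative ℂ f))
    (q : FractionRing (PowerSeries ℂ)) (hq : d q = 0) :
    ∃ c : ℂ, q = algebraMap (PowerSeries ℂ) _ (PowerSeries.C c) := by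
  have hinj : Function.Injective (algebraMap (PowerSeries ℂ) (FractionRing (PowerSeries ℂ))) :=
    IsFractionRing.injective _ _
  have key : ∀ f : PowerSeries ℂ, d (algebraMap _ _ f) = 0 → ∃ c : ℂ, f = PowerSeries.C c := by
    intro f hf
    rw [hd] at hf
    have h1 : PowerSeries.derivative ℂ f = 0 := hinj (by rw [hf, map_zero])
    refine ⟨PowerSeries.constantCoeff f, ?_⟩
    apply PowerSeries.derivative.ext
    · rw [h1, PowerSeries.derivative_C]
    · simp
  rcases ValuationRing.isInteger_or_isInteger (PowerSeries ℂ) q with ⟨f, hf⟩ | ⟨f, hf⟩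
  · obtain ⟨c, rfl⟩ := key f (by rw [hf, hq])
    exact ⟨c, hf.symm⟩
  · have h1 : d (algebraMap _ _ f) = 0 := by
      rw [hf, hder.map_inv, hq, mul_zero, neg_zero]
    obtain ⟨c, rfl⟩ := key f h1
    refine ⟨c⁻¹, ?_⟩
    have h2 : q = (algebraMap (PowerSeries ℂ) (FractionRing (PowerSeries ℂ)) (PowerSeries.C c))⁻¹ := by
      rw [hf, inv_inv]
    rw [h2]
    by_cases hc : c = 0
    · subst hc; simp
    · rw [inv_eq_iff_eq_inv]
      symm
      apply inv_eq_of_mul_eq_one_left
      rw [← map_mul, ← map_mul, mul_inv_cancel₀ hc, map_one, map_one]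

/-- the derivation on the algebraic closure of the field of Laurent series -/
theorem exists_derivation_EE : ∃ D : EE → EE, IsDer D ∧
    (∀ f : PowerSeries ℂ, D (algebraMap (PowerSeries ℂ) EE f)
      = algebraMap (PowerSeries ℂ) EE (PowerSeries.derivative ℂ f)) ∧
    ∀ e, D e = 0 → ∃ c : ℂ, e = algebraMap (PowerSeries ℂ) EE (PowerSeries.C c) := by
  have : Algebra.FormallyEtale (PowerSeries ℂ) (FractionRing (PowerSeries ℂ)) :=
    Algebra.FormallyEtale.of_isLocalization (nonZeroDivisors (PowerSeries ℂ))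
  have h0 : IsDer (fun f : PowerSeries ℂ => PowerSeries.derivative ℂ f) :=
    ⟨fun x y => map_add _ x y, fun x y => (PowerSeries.derivative ℂ).leibniz x y⟩
  obtain ⟨d, hder, hd⟩ := exists_derivation_ext (T := FractionRing (PowerSeries ℂ)) h0
  have hd' : ∀ f : PowerSeries ℂ, d (algebraMap _ _ f)
      = algebraMap _ _ (PowerSeries.derivative ℂ f) := hd
  have : CharZero (FractionRing (PowerSeries ℂ)) :=
    charZero_of_injective_ringHom
      (f := (algebraMap (PowerSeries ℂ) (FractionRing (PowerSeries ℂ))).comp PowerSeries.C)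
      (RingHom.injective _)
  have : Algebra.FormallyEtale (FractionRing (PowerSeries ℂ)) EE :=
    Algebra.FormallyEtale.of_isSeparable _ _
  obtain ⟨D, hDer, hD⟩ := exists_derivation_ext (T := EE) hder
  refine ⟨D, hDer, ?_, ?_⟩
  · intro f
    rw [IsScalarTower.algebraMap_apply (PowerSeries ℂ) (FractionRing (PowerSeries ℂ)) EE, hD, hd',
      ← IsScalarTower.algebraMap_apply]
  · intro e he
    obtain ⟨c, hc⟩ := const_of_algebraic
      ((algebraMap (PowerSeries ℂ) (FractionRing (PowerSeries ℂ))).comp PowerSeries.C) hder hDer hD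
      (fun q hq => const_frac hder hd' q hq) he
    refine ⟨c, ?_⟩
    rw [hc, IsScalarTower.algebraMap_apply (PowerSeries ℂ) (FractionRing (PowerSeries ℂ)) EE]
    rfl

lemma algebraMap_EE_injective : Function.Injective (algebraMap (PowerSeries ℂ) EE) := by
  rw [IsScalarTower.algebraMap_eq (PowerSeries ℂ) (FractionRing (PowerSeries ℂ)) EE]
  exact (algebraMap (FractionRing (PowerSeries ℂ)) EE).injective.comp
    (IsFractionRing.injective _ _)

/-- the embedding of the algebraic functions -/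
theorem exists_embedding (x : ℂ) : ∃ φ : OO →+* EE,
    (∀ f : ℂ[X], φ (algebraMap (RatFunc ℂ) OO (algebraMap ℂ[X] (RatFunc ℂ) f))
      = algebraMap (PowerSeries ℂ) EE (loc x f)) ∧
    ∀ e : EE, (∃ f : (RatFunc ℂ)[X], f ≠ 0 ∧
      (f.map (φ.comp (algebraMap (RatFunc ℂ) OO))).eval e = 0) → ∃ y, φ y = e := by
  have hinj : Function.Injective ((algebraMap (PowerSeries ℂ) EE).comp (loc x)) :=
    algebraMap_EE_injective.comp (loc_injective x)
  let i : RatFunc ℂ →+* EE := IsFractionRing.lift (A := ℂ[X]) (K := RatFunc ℂ) hinj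
  have hi : ∀ f : ℂ[X], i (algebraMap ℂ[X] (RatFunc ℂ) f)
      = algebraMap (PowerSeries ℂ) EE (loc x f) := fun f => IsFractionRing.lift_algebraMap hinj f
  let : Algebra (RatFunc ℂ) EE := i.toAlgebra
  let φ : OO →ₐ[RatFunc ℂ] EE := IsAlgClosed.lift
  refine ⟨φ.toRingHom, ?_, ?_⟩
  · intro f
    have h1 : φ (algebraMap (RatFunc ℂ) OO (algebraMap ℂ[X] (RatFunc ℂ) f))
        = algebraMap (RatFunc ℂ) EE (algebraMap ℂ[X] (RatFunc ℂ) f) := φ.commutes _
    exact h1.trans (hi f)
  · rintro e ⟨f, hf, he⟩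
    have h1 : (φ.toRingHom.comp (algebraMap (RatFunc ℂ) OO)) = algebraMap (RatFunc ℂ) EE := by
      ext1 z
      exact φ.commutes z
    have hsplit := IsAlgClosed.splits (f.map (algebraMap (RatFunc ℂ) OO))
    have hroots := hsplit.eq_prod_roots
    have h4 : ((f.map (algebraMap (RatFunc ℂ) OO)).map φ.toRingHom).eval e = 0 := by
      rw [Polynomial.map_map]; exact he
    rw [hroots, Polynomial.map_mul, map_C, eval_mul, eval_C] at h4
    have h5 : φ.toRingHom (f.map (algebraMap (RatFunc ℂ) OO)).leadingCoeff ≠ 0 := by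
      intro h
      have h6 := leadingCoeff_eq_zero.mp ((map_eq_zero _).mp h)
      exact hf ((Polynomial.map_eq_zero _).mp h6)
    have h6 := (mul_eq_zero.mp h4).resolve_left h5
    rw [Polynomial.map_multiset_prod, eval_multiset_prod, Multiset.prod_eq_zero_iff] at h6
    simp only [Multiset.map_map, Multiset.mem_map, Function.comp_apply] at h6
    obtain ⟨a, _, ha⟩ := h6
    refine ⟨a, ?_⟩
    rw [Polynomial.map_sub, map_X, map_C, eval_sub, eval_X, eval_C, sub_eq_zero] at ha
    exact ha.symm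

/-- the derivation on algebraic functions -/
theorem exists_derivation_OO : ∃ δ : OO → OO, IsDer δ ∧
    (∀ z : ℂ, δ (algebraMap (RatFunc ℂ) OO (algebraMap ℂ (RatFunc ℂ) z)) = 0) ∧
    δ (algebraMap (RatFunc ℂ) OO RatFunc.X) = 1 := by
  have : Algebra.FormallyEtale ℂ[X] (RatFunc ℂ) :=
    Algebra.FormallyEtale.of_isLocalization (nonZeroDivisors ℂ[X])
  have h0 : IsDer (fun f : ℂ[X] => derivative f) :=
    ⟨fun x y => derivative_add, fun x y => by rw [derivative_mul]; ring⟩
  obtain ⟨d, hder, hd⟩ := exists_derivation_ext (T := RatFunc ℂ) h0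
  have hd' : ∀ f : ℂ[X], d (algebraMap ℂ[X] (RatFunc ℂ) f)
      = algebraMap ℂ[X] (RatFunc ℂ) (derivative f) := hd
  have : Algebra.FormallyEtale (RatFunc ℂ) OO := Algebra.FormallyEtale.of_isSeparable _ _
  obtain ⟨D, hDer, hD⟩ := exists_derivation_ext (T := OO) hder
  refine ⟨D, hDer, ?_, ?_⟩
  · intro z
    rw [hD, IsScalarTower.algebraMap_apply ℂ ℂ[X] (RatFunc ℂ), hd', Polynomial.algebraMap_eq,
      derivative_C, map_zero, map_zero]
  · rw [hD, ← RatFunc.algebraMap_X, hd', derivative_X, map_one, map_one]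

/-- a derivation of the algebraic functions which extends `d/dt` is compatible with the
derivation of the completion -/
theorem derivation_comm {x : ℂ} {φ : OO →+* EE}
    (hφ : ∀ f : ℂ[X], φ (algebraMap (RatFunc ℂ) OO (algebraMap ℂ[X] (RatFunc ℂ) f))
      = algebraMap (PowerSeries ℂ) EE (loc x f)) {D : EE → EE} (hDer : IsDer D)
    (hD : ∀ f : PowerSeries ℂ, D (algebraMap (PowerSeries ℂ) EE f)
      = algebraMap (PowerSeries ℂ) EE (PowerSeries.derivative ℂ f))
    {δ : OO → OO} (hδ : IsDer δ)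
    (hδ₀ : ∀ z : ℂ, δ (algebraMap (RatFunc ℂ) OO (algebraMap ℂ (RatFunc ℂ) z)) = 0)
    (hδ₁ : δ (algebraMap (RatFunc ℂ) OO RatFunc.X) = 1) (y : OO) :
    D (φ y) = φ (δ y) := by
  have hpoly : ∀ f : ℂ[X], δ (algebraMap (RatFunc ℂ) OO (algebraMap ℂ[X] (RatFunc ℂ) f))
      = algebraMap (RatFunc ℂ) OO (algebraMap ℂ[X] (RatFunc ℂ) (derivative f)) := by
    intro f
    induction f using Polynomial.induction_on' with
    | add p q hp hq => simp only [map_add, hδ.map_add, hp, hq]
    | monomial n a =>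
      rw [← C_mul_X_pow_eq_monomial, derivative_C_mul_X_pow]
      simp only [map_mul, map_pow, hδ.leibniz, hδ.map_pow, RatFunc.algebraMap_X, hδ₁]
      have h1 : δ (algebraMap (RatFunc ℂ) OO (algebraMap ℂ[X] (RatFunc ℂ) (C a))) = 0 := by
        have := hδ₀ a
        rwa [IsScalarTower.algebraMap_apply ℂ ℂ[X] (RatFunc ℂ), Polynomial.algebraMap_eq] at this
      rw [h1]
      simp only [mul_zero, add_zero, mul_one, map_natCast]
      ring
  have hpoly' : ∀ f : ℂ[X], D (φ (algebraMap (RatFunc ℂ) OO (algebraMap ℂ[X] (RatFunc ℂ) f)))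
      = φ (δ (algebraMap (RatFunc ℂ) OO (algebraMap ℂ[X] (RatFunc ℂ) f))) := by
    intro f
    rw [hpoly, hφ, hφ, hD, loc_derivative]
  apply comm_of_algebraic (R := RatFunc ℂ) φ hδ hDer
  intro z
  obtain ⟨f, g, hg, rfl⟩ := IsFractionRing.div_surjective (A := ℂ[X]) z
  have hg0 : g ≠ 0 := nonZeroDivisors.ne_zero hg
  simp only [div_eq_mul_inv, map_mul, map_inv₀]
  rw [hDer.leibniz, hδ.leibniz, hDer.map_inv, hδ.map_inv, hpoly', hpoly']
  simp only [map_mul, map_add, map_neg, map_pow, map_inv₀]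

end Pool.Agent.Work.MP_5e5ff1_ag.A

end

section

/-! Kronecker approximation with multipliers restricted to units modulo `N`. -/

open Finset

namespace Pool.Agent.Work.MP_5e5ff1_ag

lemma totient_large (B : ℕ) (q : ℕ) (hq : (2 * B).factorial < q) : B ≤ q.totient := by
  by_contra hcon
  push Not at hcon
  have hq0 : 0 < q := by omega
  have h1 : q ∣ (2 * B).factorial := by
    rw [Nat.dvd_iff_prime_pow_dvd_dvd]
    intro p k hp hpk
    rcases Nat.eq_zero_or_pos k with rfl | hk
    · simp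
    · obtain ⟨l, rfl⟩ : ∃ l, k = l + 1 := ⟨k - 1, by omega⟩
      have h2 : (p ^ (l + 1)).totient ≤ q.totient :=
        Nat.le_of_dvd (Nat.totient_pos.mpr hq0) (Nat.totient_dvd_of_dvd hpk)
      rw [Nat.totient_prime_pow_succ hp] at h2
      have h3 : p ^ (l + 1) ≤ 2 * (p ^ l * (p - 1)) := by
        have h4 := hp.two_le
        have h5 : p ≤ 2 * (p - 1) := by omega
        calc p ^ (l + 1) = p ^ l * p := pow_succ _ _
          _ ≤ p ^ l * (2 * (p - 1)) := Nat.mul_le_mul_left _ h5
          _ = 2 * (p ^ l * (p - 1)) := by ring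
      exact Nat.dvd_factorial (pow_pos hp.pos _) (by omega)
  exact absurd (Nat.le_of_dvd (Nat.factorial_pos _) h1) (by omega)

lemma ee_sum {ι : Type*} (s : Finset ι) (f : ι → ℝ) : ee (∑ i ∈ s, f i) = ∏ i ∈ s, ee (f i) := by
  classical
  induction s using Finset.induction_on with
  | empty => simp [ee_zero]
  | insert i s hi ih => rw [Finset.sum_insert hi, Finset.prod_insert hi, ee_add, ih]

lemma conj_ee (x : ℝ) : (starRingEnd ℂ) (ee x) = ee (-x) := by
  unfold ee
  rw [← Complex.exp_conj]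
  congr 1
  rw [show (2 * Real.pi * Complex.I * x : ℂ) = ((2 * Real.pi * x : ℝ) : ℂ) * Complex.I by
    push_cast; ring, map_mul, Complex.conj_ofReal, Complex.conj_I]
  push_cast
  ring

/-- Fejer kernel -/
noncomputable def fej (L : ℕ) (x : ℝ) : ℝ := ‖∑ k ∈ Finset.range L, ee (k * x)‖ ^ 2 / L

lemma fej_nonneg (L : ℕ) (x : ℝ) : 0 ≤ fej L x := by unfold fej; positivity

lemma fej_one (x : ℝ) : fej 1 x = 1 := by simp [fej, ee_zero]

lemma fej_expand (L : ℕ) (x : ℝ) : (fej L x : ℂ)
    = (∑ z ∈ Finset.range L ×ˢ Finset.range L, ee (((z.1 : ℝ) - z.2) * x)) / L := by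
  unfold fej
  rw [Complex.ofReal_div, Complex.ofReal_natCast, Complex.ofReal_pow, ← Complex.mul_conj', map_sum,
    Finset.sum_mul_sum, ← Finset.sum_product']
  congr 1
  apply Finset.sum_congr rfl
  intro z _
  rw [conj_ee, ← ee_add]
  congr 1
  ring

lemma norm_ee_sub_one (x : ℝ) : ‖ee x - 1‖ = 2 * |Real.sin (Real.pi * x)| := by
  have h := Complex.norm_exp_I_mul_ofReal_sub_one (2 * Real.pi * x)
  have h1 : Complex.I * ((2 * Real.pi * x : ℝ) : ℂ) = 2 * Real.pi * Complex.I * x := by
    push_cast; ring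
  rw [h1] at h
  unfold ee
  rw [h, norm_mul, Real.norm_eq_abs, Real.norm_eq_abs]
  congr 1
  · norm_num
  · congr 2
    ring

lemma sin_lower {x δ : ℝ} (h : ∀ z : ℤ, δ ≤ |x - z|) :
    2 * δ ≤ |Real.sin (Real.pi * x)| := by
  set t := x - round x with ht
  have ht1 : |t| ≤ 1 / 2 := abs_sub_round x
  have ht2 : δ ≤ |t| := h (round x)
  have h1 : |Real.sin (Real.pi * x)| = |Real.sin (Real.pi * t)| := by
    have : Real.pi * x = Real.pi * t + (round x) * Real.pi := by rw [ht]; ring
    rw [this, Real.sin_add_int_mul_pi, abs_mul, abs_zpow, abs_neg, abs_one, one_zpow, one_mul]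
  rw [h1, Real.abs_sin_eq_sin_abs_of_abs_le_pi (by
    rw [abs_mul, abs_of_pos Real.pi_pos]; nlinarith [Real.pi_pos])]
  rw [abs_mul, abs_of_pos Real.pi_pos]
  have h2 := Real.mul_le_sin (x := Real.pi * |t|) (by positivity) (by nlinarith [Real.pi_pos])
  have h3 : 2 / Real.pi * (Real.pi * |t|) = 2 * |t| := by
    field_simp
  rw [h3] at h2
  linarith

lemma fej_le {L : ℕ} (hL : 0 < L) {x δ : ℝ} (h0 : 0 < δ) (h : ∀ z : ℤ, δ ≤ |x - z|) :
    fej L x ≤ 1 / (4 * L * δ ^ 2) := by
  have hs := sin_lower h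
  have h1 : 4 * δ ≤ ‖ee x - 1‖ := by rw [norm_ee_sub_one]; linarith
  have hne : ee x ≠ 1 := by
    intro h2
    rw [h2, sub_self, norm_zero] at h1
    linarith
  have h2 : ∑ k ∈ Finset.range L, ee (k * x) = (ee x ^ L - 1) / (ee x - 1) := by
    rw [← geom_sum_eq hne]
    apply Finset.sum_congr rfl
    intro k _
    unfold ee
    rw [← Complex.exp_nat_mul]
    congr 1
    push_cast
    ring
  have h3 : ‖ee x ^ L - 1‖ ≤ 2 := by
    refine (norm_sub_le _ _).trans ?_
    rw [norm_pow, norm_ee, one_pow, norm_one]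
    norm_num
  unfold fej
  rw [h2, norm_div]
  have hLr : (0 : ℝ) < L := by exact_mod_cast hL
  have h4 : ‖ee x ^ L - 1‖ / ‖ee x - 1‖ ≤ 2 / (4 * δ) := by gcongr
  calc (‖ee x ^ L - 1‖ / ‖ee x - 1‖) ^ 2 / L ≤ (2 / (4 * δ)) ^ 2 / L := by gcongr
    _ = 1 / (4 * L * δ ^ 2) := by field_simp; norm_num


/-- the average of a product of Fejer kernels along units -/
theorem average {ι : Type*} [Fintype ι] [DecidableEq ι] {N : ℕ} [NeZero N] (a : ι → ℤ) (c : ι → ℝ)
    (L : ι → ℕ) (hL : ∀ i, 0 < L i) {η : ℝ} (hη : 0 ≤ η)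
    (hm : ∀ m : ι → ℤ, m ≠ 0 → (∀ i, |m i| < L i) →
      ‖∑ u : (ZMod N)ˣ, ee ((((u : ZMod N).val : ℝ) * ((∑ i, m i * a i : ℤ) : ℝ)) / N)‖
        ≤ η * N.totient) :
    |∑ u : (ZMod N)ˣ, ∏ i, fej (L i) (((u : ZMod N).val : ℝ) * a i / N - c i) - N.totient|
      ≤ (∏ i, (L i : ℝ)) * (η * N.totient) := by
  set Z := Fintype.piFinset (fun i => Finset.range (L i) ×ˢ Finset.range (L i)) with hZ
  set T : (ι → ℕ × ℕ) → ℂ := fun z => ∑ u : (ZMod N)ˣ,
    ∏ i, ee ((((z i).1 : ℝ) - (z i).2) * (((u : ZMod N).val : ℝ) * a i / N - c i)) with hT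
  set dl : (ι → ℕ × ℕ) → ℂ := fun z => ∏ i, (if (z i).1 = (z i).2 then 1 else 0) with hdl
  have hPpos : (0 : ℝ) < ∏ i, (L i : ℝ) := Finset.prod_pos fun i _ => by exact_mod_cast hL i
  have hPne : (∏ i, (L i : ℂ)) ≠ 0 := Finset.prod_ne_zero_iff.mpr fun i _ =>
    Nat.cast_ne_zero.mpr (hL i).ne'
  -- expansion
  have h1 : ((∑ u : (ZMod N)ˣ, ∏ i, fej (L i) (((u : ZMod N).val : ℝ) * a i / N - c i) : ℝ) : ℂ)
      = (∑ z ∈ Z, T z) / ∏ i, (L i : ℂ) := by
    rw [Complex.ofReal_sum, hT, Finset.sum_comm, Finset.sum_div]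
    apply Finset.sum_congr rfl
    intro u _
    rw [Complex.ofReal_prod]
    simp only [fej_expand]
    rw [Finset.prod_div_distrib, Finset.prod_univ_sum]
  have h2 : ∑ z ∈ Z, dl z = ∏ i, (L i : ℂ) := by
    rw [hdl, hZ, ← Finset.prod_univ_sum (fun i => Finset.range (L i) ×ˢ Finset.range (L i))
      (fun _ x => if x.1 = x.2 then (1 : ℂ) else 0)]
    apply Finset.prod_congr rfl
    intro i _
    rw [Finset.sum_product]
    simp
    rw [Finset.filter_true_of_mem (fun x hx => Finset.mem_range.mp hx), Finset.card_range]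
  have h3 : ((∑ u : (ZMod N)ˣ, ∏ i, fej (L i) (((u : ZMod N).val : ℝ) * a i / N - c i)
      - N.totient : ℝ) : ℂ) = (∑ z ∈ Z, (T z - N.totient * dl z)) / ∏ i, (L i : ℂ) := by
    rw [Complex.ofReal_sub, h1, Finset.sum_sub_distrib, ← Finset.mul_sum, h2, sub_div,
      mul_div_cancel_right₀ _ hPne]
    simp
  have h4 : ∀ z ∈ Z, ‖T z - N.totient * dl z‖ ≤ η * N.totient := by
    intro z hz
    by_cases hdiag : ∀ i, (z i).1 = (z i).2
    · have e1 : dl z = 1 := by
        rw [hdl]; exact Finset.prod_eq_one fun i _ => if_pos (hdiag i)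
      have e2 : T z = N.totient := by
        rw [hT]
        have : ∀ u : (ZMod N)ˣ, ∏ i, ee ((((z i).1 : ℝ) - (z i).2)
            * (((u : ZMod N).val : ℝ) * a i / N - c i)) = 1 := by
          intro u
          apply Finset.prod_eq_one
          intro i _
          rw [hdiag i, sub_self, zero_mul, ee_zero]
        simp only [this]
        simp [ZMod.card_units_eq_totient]
      rw [e1, e2, mul_one, sub_self, norm_zero]
      positivity
    · have e1 : dl z = 0 := by
        push Not at hdiag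
        obtain ⟨i, hi⟩ := hdiag
        rw [hdl]; exact Finset.prod_eq_zero (Finset.mem_univ i) (if_neg hi)
      rw [e1, mul_zero, sub_zero]
      set m : ι → ℤ := fun i => ((z i).1 : ℤ) - (z i).2 with hmdef
      have e2 : T z = ee (-(∑ i, (m i : ℝ) * c i)) *
          ∑ u : (ZMod N)ˣ, ee ((((u : ZMod N).val : ℝ) * ((∑ i, m i * a i : ℤ) : ℝ)) / N) := by
        rw [hT, Finset.mul_sum]
        apply Finset.sum_congr rfl
        intro u _
        rw [← ee_sum, ← ee_add]
        congr 1
        rw [Int.cast_sum, Finset.mul_sum, Finset.sum_div, ← Finset.sum_neg_distrib,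
          ← Finset.sum_add_distrib]
        apply Finset.sum_congr rfl
        intro i _
        simp only [hmdef]
        push_cast
        ring
      rw [e2, norm_mul, norm_ee, one_mul]
      apply hm
      · intro h0
        apply hdiag
        intro i
        have := congrFun h0 i
        simp only [hmdef, Pi.zero_apply] at this
        omega
      · intro i
        have h5 := (Fintype.mem_piFinset.mp hz) i
        rw [Finset.mem_product, Finset.mem_range, Finset.mem_range] at h5
        simp only [hmdef]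
        rw [abs_lt]
        omega
  have h5 : ‖((∑ u : (ZMod N)ˣ, ∏ i, fej (L i) (((u : ZMod N).val : ℝ) * a i / N - c i)
      - N.totient : ℝ) : ℂ)‖ ≤ (∏ i, (L i : ℝ)) * (η * N.totient) := by
    rw [h3, norm_div]
    have e1 : ‖∏ i, (L i : ℂ)‖ = ∏ i, (L i : ℝ) := by
      rw [norm_prod]
      simp
    rw [e1, div_le_iff₀ hPpos]
    refine (norm_sum_le _ _).trans ?_
    refine (Finset.sum_le_sum h4).trans ?_
    rw [Finset.sum_const, nsmul_eq_mul]
    have e2 : (Z.card : ℝ) = (∏ i, (L i : ℝ)) * ∏ i, (L i : ℝ) := by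
      rw [hZ, Fintype.card_piFinset]
      simp only [Finset.card_product, Finset.card_range]
      push_cast
      rw [Finset.prod_mul_distrib]
    rw [e2]
    apply le_of_eq
    ring
  rwa [Complex.norm_real, Real.norm_eq_abs] at h5

/-- Kronecker approximation with unit multipliers -/
theorem kronecker_units (ι : Type*) [Fintype ι] [DecidableEq ι] (δ : ℝ) (hδ : 0 < δ) :
    ∃ M : ℕ, ∀ (N : ℕ), 0 < N → ∀ a : ι → ℤ,
      (∀ m : ι → ℤ, m ≠ 0 → (∀ i, |m i| ≤ M) → ¬ (N : ℤ) ∣ ∑ i, m i * a i) →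
      ∀ c : ι → ℝ, ∃ u : ℤ, IsCoprime u (N : ℤ) ∧
        ∀ i, ∃ z : ℤ, |(u : ℝ) * ((a i : ℝ) / N) - c i - z| < δ := by
  set D := Fintype.card ι with hD
  obtain ⟨L, hL0, hL⟩ : ∃ L : ℕ, 0 < L ∧ (D : ℝ) / δ ^ 2 ≤ L := by
    obtain ⟨L, hL⟩ := exists_nat_ge ((D : ℝ) / δ ^ 2)
    exact ⟨L + 1, Nat.succ_pos _, by push_cast; linarith⟩
  set B := 4 * L ^ D with hB
  set Q0 := (2 * B).factorial with hQ0
  refine ⟨Q0 * L, ?_⟩
  intro N hN a hrel c
  have : NeZero N := ⟨hN.ne'⟩
  by_contra hcon
  push Not at hcon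
  have hLr : (0 : ℝ) < L := by exact_mod_cast hL0
  have hφpos : (0 : ℝ) < N.totient := by exact_mod_cast Nat.totient_pos.mpr hN
  set η : ℝ := 1 / (4 * (L : ℝ) ^ D) with hη
  have hη0 : 0 ≤ η := by positivity
  -- character sums
  have hchar : ∀ m : ι → ℤ, m ≠ 0 → (∀ i, |m i| < L) →
      ‖∑ u : (ZMod N)ˣ, ee ((((u : ZMod N).val : ℝ) * ((∑ i, m i * a i : ℤ) : ℝ)) / N)‖
        ≤ η * N.totient := by
    intro m hm0 hmL
    set h := ∑ i, m i * a i with hh
    set g := Int.gcd h N with hg
    have hg0 : 0 < g := Int.gcd_pos_of_ne_zero_right _ (by exact_mod_cast hN.ne')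
    obtain ⟨q, hq⟩ : g ∣ N := by
      have := Int.gcd_dvd_right h (N : ℤ)
      exact_mod_cast this
    obtain ⟨h', hh'⟩ : (g : ℤ) ∣ h := Int.gcd_dvd_left _ _
    have hq0 : 0 < q := Nat.pos_of_ne_zero (by rintro rfl; simp at hq; omega)
    have hcop : IsCoprime h' (q : ℤ) := by
      rw [Int.isCoprime_iff_gcd_eq_one]
      have h1 : Int.gcd ((g : ℤ) * h') ((g : ℤ) * q) = g * Int.gcd h' q := by
        rw [Int.gcd_mul_left]; simp
      have h2 : (g : ℤ) * q = (N : ℤ) := by rw [hq]; push_cast; ring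
      rw [h2, ← hh', ← hg] at h1
      have h3 : g * 1 = g * Int.gcd h' q := by rw [mul_one]; exact h1
      exact (Nat.eq_of_mul_eq_mul_left hg0 h3).symm
    have h1 := norm_sum_units_general N h g q hq h' hh' hcop
    have hqQ : Q0 < q := by
      by_contra hle
      push Not at hle
      apply hrel (fun i => (q : ℤ) * m i)
      · intro h0
        apply hm0
        funext i
        have := congrFun h0 i
        simp only [Pi.zero_apply] at this
        rcases mul_eq_zero.mp this with h4 | h4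
        · exact absurd h4 (by exact_mod_cast hq0.ne')
        · exact h4
      · intro i
        rw [abs_mul, Nat.abs_cast]
        push_cast
        have h2 := (hmL i).le
        have h3 : (q : ℤ) ≤ Q0 := by exact_mod_cast hle
        exact mul_le_mul h3 h2 (abs_nonneg _) (by positivity)
      · have h2 : ∑ i, (q : ℤ) * m i * a i = q * h := by
          rw [hh, Finset.mul_sum]
          apply Finset.sum_congr rfl
          intro i _
          ring
        rw [h2, hh']
        refine ⟨h', ?_⟩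
        rw [hq]; push_cast; ring
    have h2 : B ≤ q.totient := totient_large B q hqQ
    have h3 : (B : ℝ) ≤ q.totient := by exact_mod_cast h2
    have h4 : (B : ℝ) = 4 * (L : ℝ) ^ D := by rw [hB]; push_cast; ring
    have h5 : (0 : ℝ) < 4 * (L : ℝ) ^ D := by positivity
    rw [hη, div_mul_eq_mul_div, one_mul, le_div_iff₀ h5]
    refine le_trans ?_ h1
    apply mul_le_mul_of_nonneg_left _ (norm_nonneg _)
    rw [← h4]; exact h3
  -- upper bound for kernels at far points
  set κ : ℝ := 1 / (4 * L * δ ^ 2) with hκ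
  have hκ0 : 0 ≤ κ := by positivity
  have hκD : κ * D ≤ 1 / 4 := by
    rw [hκ, div_mul_eq_mul_div, one_mul, div_le_iff₀ (by positivity)]
    rw [div_le_iff₀ (by positivity)] at hL
    linarith
  have hfar : ∀ u : (ZMod N)ˣ, ∏ i, fej L (((u : ZMod N).val : ℝ) * a i / N - c i)
      ≤ ∑ i, κ * ∏ j, fej (if j = i then 1 else L) (((u : ZMod N).val : ℝ) * a j / N - c j) := by
    intro u
    have hcopu : IsCoprime (((u : ZMod N).val : ℕ) : ℤ) (N : ℤ) :=
      Nat.isCoprime_iff_coprime.mpr (ZMod.val_coe_unit_coprime u)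
    obtain ⟨i, hi⟩ := hcon _ hcopu
    have h1 : fej L (((u : ZMod N).val : ℝ) * a i / N - c i) ≤ κ := by
      apply fej_le hL0 hδ
      intro z
      have := hi z
      have e1 : (((((u : ZMod N).val : ℕ) : ℤ)) : ℝ) * ((a i : ℝ) / N) - c i - z
          = ((u : ZMod N).val : ℝ) * a i / N - c i - z := by
        push_cast
        ring
      rw [e1] at this
      exact this
    have h2 : ∏ j, fej L (((u : ZMod N).val : ℝ) * a j / N - c j)
        ≤ κ * ∏ j, fej (if j = i then 1 else L) (((u : ZMod N).val : ℝ) * a j / N - c j) := by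
      rw [← Finset.mul_prod_erase Finset.univ _ (Finset.mem_univ i),
        ← Finset.mul_prod_erase Finset.univ
          (fun j => fej (if j = i then 1 else L) (((u : ZMod N).val : ℝ) * a j / N - c j))
          (Finset.mem_univ i)]
      simp only [if_true, fej_one, one_mul]
      have e2 : ∏ j ∈ Finset.univ.erase i, fej (if j = i then 1 else L)
          (((u : ZMod N).val : ℝ) * a j / N - c j)
          = ∏ j ∈ Finset.univ.erase i, fej L (((u : ZMod N).val : ℝ) * a j / N - c j) := by
        apply Finset.prod_congr rfl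
        intro j hj
        rw [if_neg (Finset.ne_of_mem_erase hj)]
      rw [e2]
      exact mul_le_mul_of_nonneg_right h1 (Finset.prod_nonneg fun j _ => fej_nonneg _ _)
    refine h2.trans ?_
    exact Finset.single_le_sum (f := fun i => κ * ∏ j, fej (if j = i then 1 else L)
      (((u : ZMod N).val : ℝ) * a j / N - c j))
      (fun i _ => mul_nonneg hκ0 (Finset.prod_nonneg fun j _ => fej_nonneg _ _)) (Finset.mem_univ i)
  -- averages
  have hA := average a c (fun _ => L) (fun _ => hL0) hη0 (fun m h1 h2 => hchar m h1 h2)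
  have hAi : ∀ i, |∑ u : (ZMod N)ˣ, ∏ j, fej (if j = i then 1 else L)
      (((u : ZMod N).val : ℝ) * a j / N - c j) - N.totient| ≤ (L : ℝ) ^ D * (η * N.totient) := by
    intro i
    have h1 := average a c (fun j => if j = i then 1 else L)
      (fun j => by split_ifs <;> omega) hη0 (fun m h1 h2 => hchar m h1 (fun j => by
        have := h2 j
        split_ifs at this with h3
        · have h4 : (1 : ℤ) ≤ L := by exact_mod_cast hL0
          push_cast at this
          omega
        · exact this))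
    refine h1.trans ?_
    apply mul_le_mul_of_nonneg_right _ (by positivity)
    calc ∏ j, (((if j = i then 1 else L : ℕ)) : ℝ) ≤ ∏ _j : ι, (L : ℝ) := by
          apply Finset.prod_le_prod (fun _ _ => by positivity)
          intro j _
          split_ifs
          · have : (1 : ℝ) ≤ L := by exact_mod_cast hL0
            push_cast; exact this
          · exact le_refl _
      _ = (L : ℝ) ^ D := by rw [Finset.prod_const, Finset.card_univ]
  have hprodL : ∏ _i : ι, (L : ℝ) = (L : ℝ) ^ D := by rw [Finset.prod_const, Finset.card_univ]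
  simp only [hprodL] at hA
  have hLη : (L : ℝ) ^ D * (η * N.totient) = N.totient / 4 := by
    rw [hη]; field_simp
  rw [hLη] at hA
  have hlow := (abs_le.mp hA).1
  have hup : ∑ u : (ZMod N)ˣ, ∏ i, fej L (((u : ZMod N).val : ℝ) * a i / N - c i)
      ≤ ∑ i : ι, κ * (N.totient + N.totient / 4) := by
    refine (Finset.sum_le_sum fun u _ => hfar u).trans ?_
    rw [Finset.sum_comm]
    apply Finset.sum_le_sum
    intro i _
    rw [← Finset.mul_sum]
    apply mul_le_mul_of_nonneg_left _ hκ0
    have h1 := hAi i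
    rw [hLη] at h1
    have := (abs_le.mp h1).2
    linarith
  rw [Finset.sum_const, Finset.card_univ, nsmul_eq_mul] at hup
  have h6 : (D : ℝ) * (κ * (N.totient + N.totient / 4)) = (κ * D) * (5 / 4 * N.totient) := by ring
  rw [← hD, h6] at hup
  have h7 : (κ * D) * (5 / 4 * N.totient) ≤ 1 / 4 * (5 / 4 * N.totient) := by
    apply mul_le_mul_of_nonneg_right hκD; positivity
  linarith

end Pool.Agent.Work.MP_5e5ff1_ag

end

section

/-! Vanishing p-curvature gives a full set of polynomial solutions (Cartier projector). -/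

open Polynomial Matrix

namespace Pool.Agent.Work.MP_5e5ff1_ag

/-- numerators of the iterates of the connection, over any commutative ring -/
noncomputable def Qs {R : Type*} [CommRing R] {r : ℕ} (ν : R) (b c : Matrix (Fin r) (Fin r) R) :
    ℕ → Matrix (Fin r) (Fin r) (Polynomial R)
  | 0 => 1
  | j + 1 => (Polynomial.C ν * ((X : Polynomial R) * (X - 1))) •
        (Qs ν b c j).map (fun f => derivative f)
      - ((j : Polynomial R) * Polynomial.C ν * (2 * (X : Polynomial R) - 1)) • Qs ν b c j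
      - (((X : Polynomial R) - 1) • b.map (fun x => Polynomial.C x)
          + (X : Polynomial R) • c.map (fun x => Polynomial.C x)) * Qs ν b c j

lemma Qs_map {R S : Type*} [CommRing R] [CommRing S] {r : ℕ} (φ : R →+* S) (ν : R)
    (b c : Matrix (Fin r) (Fin r) R) (j : ℕ) :
    (Qs ν b c j).map (fun f => f.map φ) = Qs (φ ν) (b.map φ) (c.map φ) j := by
  induction j with
  | zero =>
    change (1 : Matrix (Fin r) (Fin r) (Polynomial R)).map (fun f => f.map φ) = 1
    ext1 i l
    rw [map_apply, Matrix.one_apply, Matrix.one_apply]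
    split_ifs
    · simp
    · simp
  | succ j ih =>
    simp only [Qs]
    rw [← ih]
    ext1 i l
    simp only [map_apply, Matrix.sub_apply, Matrix.smul_apply, smul_eq_mul, Polynomial.map_sub,
      Polynomial.map_mul, Polynomial.map_X, Polynomial.map_one, Polynomial.map_C, mul_apply,
      Polynomial.map_sum, Matrix.add_apply, Polynomial.map_add, Polynomial.map_natCast,
      Polynomial.derivative_map, Polynomial.map_ofNat]

variable {k : Type*} [Field k] {r : ℕ}

/-- entrywise derivative -/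
noncomputable def der (M : Matrix (Fin r) (Fin r) k[X]) : Matrix (Fin r) (Fin r) k[X] :=
  M.map (fun f => derivative f)

lemma der_add (M N : Matrix (Fin r) (Fin r) k[X]) : der (M + N) = der M + der N := by
  ext1 i j; simp [der]

lemma der_smul (f : k[X]) (M : Matrix (Fin r) (Fin r) k[X]) :
    der (f • M) = derivative f • M + f • der M := by
  ext1 i j; simp [der, derivative_mul]

theorem exists_hor {p : ℕ} [hp : Fact p.Prime] [CharP k p] {ν : k} (hν : ν ≠ 0)
    (b c : Matrix (Fin r) (Fin r) k) (hQ : Qs ν b c p = 0) (x0 : k) (hx0 : x0 ≠ 0) (hx1 : x0 ≠ 1) :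
    ∃ F, Hor (X * (X - 1)) (Lmat (ν⁻¹ • b) (ν⁻¹ • c)) F ∧ F.det ≠ 0 := by
  set w : k[X] := C ν * (X * (X - 1)) with hw
  set L : Matrix (Fin r) (Fin r) k[X] := Lmat b c with hL
  set u : k[X] := X - C x0 with hu
  set cf : ℕ → k := fun j => (-1) ^ j * ((j.factorial : ℕ) : k)⁻¹ with hcf
  have hw' : derivative w = C ν * (2 * X - 1) := by
    simp only [hw, derivative_mul, derivative_C, derivative_X, derivative_sub, derivative_one]
    ring
  have hrec : ∀ j, w • der (Qs ν b c j) = Qs ν b c (j + 1)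
      + ((j : k[X]) * derivative w) • Qs ν b c j + L * Qs ν b c j := by
    intro j
    have : Qs ν b c (j + 1) = w • der (Qs ν b c j)
        - ((j : k[X]) * derivative w) • Qs ν b c j - L * Qs ν b c j := by
      rw [hw']
      simp only [Qs, hw, der, hL, Lmat, mul_assoc]
    rw [this]; abel
  have hcp : (C ((p : ℕ) : k) : k[X]) = 0 := by rw [CharP.cast_eq_zero]; simp
  -- the scalar function of the j-th term
  have hterm : ∀ j, j < p → w * derivative (u ^ j * w ^ (p - j))
      = (j : k[X]) * u ^ (j - 1) * w ^ (p - j + 1)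
        - (j : k[X]) * derivative w * (u ^ j * w ^ (p - j)) := by
    intro j hj
    obtain ⟨l, hl⟩ : ∃ l, p - j = l + 1 := ⟨p - j - 1, by omega⟩
    have hcast : ((l + 1 : ℕ) : k[X]) = - (j : k[X]) := by
      have h1 : ((l + 1 + j : ℕ) : k[X]) = 0 := by
        have : l + 1 + j = p := by omega
        rw [this]
        exact_mod_cast hcp
      rw [Nat.cast_add] at h1
      exact eq_neg_of_add_eq_zero_left h1
    have hdu : derivative (u ^ j) = (j : k[X]) * u ^ (j - 1) := by
      rw [hu, derivative_X_sub_C_pow]; simp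
    have hdw : derivative (w ^ (l + 1)) = ((l + 1 : ℕ) : k[X]) * w ^ l * derivative w := by
      rw [derivative_pow]; simp
    rw [hl, derivative_mul, hdu, hdw, hcast]
    ring
  have hT : ∀ j, j < p → w • der ((u ^ j * w ^ (p - j)) • Qs ν b c j)
      = ((j : k[X]) * u ^ (j - 1) * w ^ (p - j + 1)) • Qs ν b c j
        + (u ^ j * w ^ (p - j)) • Qs ν b c (j + 1)
        + L * ((u ^ j * w ^ (p - j)) • Qs ν b c j) := by
    intro j hj
    rw [der_smul, smul_add, smul_smul, hterm j hj, smul_smul, mul_comm w, ← smul_smul _ w,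
      hrec j, smul_add, smul_add, Matrix.mul_smul, smul_smul, sub_smul]
    have : (j : k[X]) * derivative w * (u ^ j * w ^ (p - j))
        = u ^ j * w ^ (p - j) * ((j : k[X]) * derivative w) := by ring
    rw [this]
    abel
  -- partial sums
  have hS : ∀ n, n < p → w • der (∑ j ∈ Finset.range (n + 1),
        C (cf j) • ((u ^ j * w ^ (p - j)) • Qs ν b c j))
      = L * (∑ j ∈ Finset.range (n + 1), C (cf j) • ((u ^ j * w ^ (p - j)) • Qs ν b c j))
        + C (cf n) • ((u ^ n * w ^ (p - n)) • Qs ν b c (n + 1)) := by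
    intro n
    induction n with
    | zero =>
      intro h0
      rw [zero_add, Finset.sum_range_one, der_smul, derivative_C, zero_smul, zero_add, smul_comm,
        hT 0 h0, Nat.cast_zero, zero_mul, zero_mul, zero_smul, zero_add, smul_add]
      simp only [Matrix.mul_smul]
      abel
    | succ n ih =>
      intro hn
      rw [Finset.sum_range_succ, der_add, smul_add, ih (by omega), der_smul, derivative_C,
        zero_smul, zero_add, smul_comm w, hT (n + 1) hn, Matrix.mul_add, smul_add, smul_add]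
      have h1 : C (cf (n + 1)) • ((((n + 1 : ℕ) : k[X]) * u ^ (n + 1 - 1) * w ^ (p - (n + 1) + 1)) •
          Qs ν b c (n + 1)) = - (C (cf n) • ((u ^ n * w ^ (p - n)) • Qs ν b c (n + 1))) := by
        rw [smul_smul, smul_smul, ← neg_smul]
        congr 1
        have h2 : p - (n + 1) + 1 = p - n := by omega
        have h3 : C (cf (n + 1)) * ((n + 1 : ℕ) : k[X]) = - C (cf n) := by
          have h4 : ((n + 1 : ℕ) : k[X]) = C ((n + 1 : ℕ) : k) := by simp
          rw [h4, ← C_mul, ← C_neg]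
          congr 1
          simp only [hcf]
          rw [Nat.factorial_succ]
          have h5 : ((n + 1 : ℕ) : k) ≠ 0 := by
            intro h
            rw [CharP.cast_eq_zero_iff k p] at h
            exact absurd (Nat.le_of_dvd (Nat.succ_pos n) h) (by omega)
          rw [Nat.cast_mul, mul_inv, pow_succ]
          field_simp
        rw [h2, Nat.add_sub_cancel]
        linear_combination (u ^ n * w ^ (p - n)) * h3
      rw [h1]
      simp only [Matrix.mul_smul]
      abel
  set F : Matrix (Fin r) (Fin r) k[X] := ∑ j ∈ Finset.range p,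
    C (cf j) • ((u ^ j * w ^ (p - j)) • Qs ν b c j) with hF
  have hp1 : p - 1 + 1 = p := Nat.sub_add_cancel hp.out.one_le
  have hFeq : w • der F = L * F := by
    have h1 := hS (p - 1) (by have := hp.out.pos; omega)
    rw [hp1, hQ, smul_zero, smul_zero, add_zero] at h1
    exact h1
  refine ⟨F, ?_, ?_⟩
  · intro i j
    have h1 := congrFun (congrFun hFeq i) j
    rw [Matrix.smul_apply, mul_apply, smul_eq_mul] at h1
    have h2 : der F i j = derivative (F i j) := rfl
    rw [h2, hw] at h1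
    have h3 : ∀ l, Lmat (ν⁻¹ • b) (ν⁻¹ • c) i l = C ν⁻¹ * L i l := by
      intro l
      simp only [hL, Lmat, Matrix.add_apply, Matrix.smul_apply, map_apply, smul_eq_mul, C_mul]
      ring
    simp only [h3]
    have h4 : ∑ l, C ν⁻¹ * L i l * F l j = C ν⁻¹ * ∑ l, L i l * F l j := by
      rw [Finset.mul_sum]
      apply Finset.sum_congr rfl
      intro l _
      ring
    rw [h4, ← h1, ← mul_assoc, ← mul_assoc, ← C_mul, inv_mul_cancel₀ hν, C_1, one_mul]
  · intro hdet
    have h1 : F.map (eval x0) = (w.eval x0) ^ p • (1 : Matrix (Fin r) (Fin r) k) := by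
      ext1 i j
      rw [map_apply, hF, Matrix.sum_apply, eval_finsetSum]
      rw [Finset.sum_eq_single 0]
      · have hQ0 : Qs ν b c 0 = 1 := rfl
        simp only [hcf, pow_zero, Nat.factorial_zero, Nat.cast_one, inv_one, mul_one, C_1,
          one_mul, Nat.sub_zero, Matrix.smul_apply, smul_eq_mul, eval_mul, eval_pow, hQ0,
          Matrix.one_apply]
        by_cases hij : i = j
        · simp [hij]
        · simp [hij]
      · intro j' _ hj'
        simp only [Matrix.smul_apply, smul_eq_mul, eval_mul, eval_pow, hu, eval_sub, eval_X, eval_C,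
          sub_self, zero_pow hj', zero_mul, mul_zero]
      · intro h
        exact absurd (Finset.mem_range.mpr hp.out.pos) h
    have h2 := RingHom.map_det (evalRingHom x0) F
    rw [hdet, map_zero] at h2
    have h3 : (evalRingHom x0).mapMatrix F = F.map (eval x0) := rfl
    rw [h3, h1, det_smul, det_one, mul_one] at h2
    have h4 : w.eval x0 ≠ 0 := by
      simp only [hw, eval_mul, eval_C, eval_X, eval_sub, eval_one]
      exact mul_ne_zero hν (mul_ne_zero hx0 (sub_ne_zero.mpr hx1))
    exact (pow_ne_zero _ (pow_ne_zero _ h4)) h2.symm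

end Pool.Agent.Work.MP_5e5ff1_ag

end

section

/-! A horizontal basis in characteristic p, with adapted frames at `0, 1, ∞`. -/

open Polynomial Matrix

namespace Pool.Agent.Work.MP_5e5ff1_ag.T

variable {k : Type*} [Field k] {r : ℕ}

lemma hor_mul_const {w : k[X]} {L F : Matrix (Fin r) (Fin r) k[X]} (hF : Hor w L F)
    (N : Matrix (Fin r) (Fin r) k[X]) (hN : ∀ i j, derivative (N i j) = 0) : Hor w L (F * N) := by
  intro i j
  simp only [mul_apply, derivative_sum, derivative_mul, hN, mul_zero, add_zero]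
  rw [Finset.mul_sum]
  simp only [Finset.mul_sum]
  rw [Finset.sum_comm]
  apply Finset.sum_congr rfl
  intro l _
  rw [← mul_assoc, hF i l, Finset.sum_mul]
  apply Finset.sum_congr rfl
  intro m _
  ring

theorem local_frame {p : ℕ} [hp : Fact p.Prime] [CharP k p] {w : k[X]}
    {L G : Matrix (Fin r) (Fin r) k[X]} (a : k) (g : k[X]) (hw : w = (X - C a) * g)
    (hg : g.eval a ≠ 0) (hG : Hor w L G) (hdet : G.det ≠ 0)
    (hmin : ∀ G', Hor w L G' → G'.det ≠ 0 → G.det.natDegree ≤ G'.det.natDegree) :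
    ∃ (h : Matrix (Fin r) (Fin r) k) (H : Matrix (Fin r) (Fin r) k[X]) (m : Fin r → ℕ),
      h.det ≠ 0 ∧ G * h.map C = H * diagonal (fun j => (X - C a) ^ (m j)) ∧
      (H.map (eval a)).det ≠ 0 ∧
      (∀ j, m j < p) ∧ G.det.rootMultiplicity a = ∑ j, m j ∧
      ((g.eval a)⁻¹ • L.map (eval a)).charpoly = ∏ j, (X - C ((m j : ℕ) : k)) := by
  classical
  have hdetmul : ∀ h : Matrix (Fin r) (Fin r) k, (G * h.map C).det = G.det * C h.det := by
    intro h
    rw [det_mul]
    have := RingHom.map_det (C : k →+* k[X]) h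
    congr 1
    simpa using this.symm
  have hhor : ∀ h : Matrix (Fin r) (Fin r) k, Hor w L (G * h.map C) := fun h =>
    hor_mul_const hG _ (fun i j => by simp)
  -- choice of an admissible pair with maximal total order
  obtain ⟨⟨h, m⟩, ⟨hh, hdiv⟩, hmax⟩ := exists_max_nat
    (fun x : Matrix (Fin r) (Fin r) k × (Fin r → ℕ) => x.1.det ≠ 0 ∧
      ∀ i j, (X - C a) ^ (x.2 j) ∣ (G * x.1.map C) i j)
    (fun x => ∑ j, x.2 j) G.det.natDegree
    (by
      rintro ⟨h, m⟩ ⟨hh, hdiv⟩
      simp only at hh hdiv ⊢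
      obtain ⟨H, _, hH2⟩ := factor_cols hdiv
      have h1 : G.det.natDegree = (G * h.map C).det.natDegree := by
        rw [hdetmul, mul_comm, natDegree_C_mul hh]
      rw [h1]
      have h2 : (G * h.map C).det ≠ 0 := by
        rw [hdetmul]; exact mul_ne_zero hdet (C_ne_zero.mpr hh)
      exact natDegree_of_dvd_pow h2 ⟨H.det, hH2⟩)
    ⟨(1, fun _ => 0), by simp, by simp⟩
  simp only at hh hdiv hmax
  have hGh0 : (G * h.map C).det ≠ 0 := by
    rw [hdetmul]; exact mul_ne_zero hdet (C_ne_zero.mpr hh)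
  have hGhdeg : (G * h.map C).det.natDegree = G.det.natDegree := by
    rw [hdetmul, mul_comm, natDegree_C_mul hh]
  obtain ⟨H, hH, hHdet⟩ := factor_cols hdiv
  have hres := residue_rel hw hg (hhor h) hH
  -- orders are less than p
  have hlt : ∀ j, m j < p := by
    intro J
    by_contra hcon
    push Not at hcon
    have hq : derivative ((X - C a : k[X]) ^ p) = 0 := by
      rw [derivative_X_sub_C_pow, CharP.cast_eq_zero]
      simp
    have hq0 : (X - C a : k[X]) ^ p ≠ 0 := pow_ne_zero _ (X_sub_C_ne_zero a)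
    have h1 : ∀ i, ∃ g, (G * h.map C) i J = (X - C a) ^ p * g := fun i =>
      (pow_dvd_pow _ hcon).trans (hdiv i J)
    choose gg hgg using h1
    obtain ⟨h2, h3⟩ := hor_divide (hhor h) J _ hq hq0 gg hgg
    have h4 : ((G * h.map C).updateCol J gg).det ≠ 0 := by
      intro h; rw [h, mul_zero] at h3; exact hGh0 h3
    have h5 := hmin _ h2 h4
    rw [← hGhdeg, h3, natDegree_mul hq0 h4, natDegree_pow, natDegree_X_sub_C] at h5
    have := hp.out.pos
    omega
  -- the leading matrix is invertible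
  have hHa : (H.map (eval a)).det ≠ 0 := by
    intro h0
    obtain ⟨c, hc, hMc, hsupp⟩ := min_support hres h0
    obtain ⟨J, hJ⟩ := Function.ne_iff.mp hc
    simp only [Pi.zero_apply] at hJ
    have hm : ∀ j, c j ≠ 0 → m j = m J := by
      intro j hj
      have h1 := hsupp j J hj hJ
      have h2 := (CharP.natCast_eq_natCast k p).mp h1
      exact Nat.ModEq.eq_of_lt_of_lt h2 (hlt j) (hlt J)
    set h' := h.updateCol J (fun i => ∑ j, c j • h i j) with hh'
    have h1 : h'.det = c J • h.det := Matrix.det_updateCol_sum h J c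
    have hcolJ : ∀ i, (G * h'.map C) i J = ∑ j, C (c j) * (G * h.map C) i j := by
      intro i
      simp only [mul_apply, map_apply, hh', updateCol_self, smul_eq_mul, map_sum, C_mul]
      simp only [Finset.mul_sum]
      rw [Finset.sum_comm]
      apply Finset.sum_congr rfl
      intro l _
      apply Finset.sum_congr rfl
      intro l' _
      ring
    have hcol : ∀ i j, j ≠ J → (G * h'.map C) i j = (G * h.map C) i j := by
      intro i j hj
      simp only [mul_apply, map_apply, hh', updateCol_ne hj]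
    have h3 := hmax (h', Function.update m J (m J + 1)) ⟨by
        rw [h1, smul_eq_mul]; exact mul_ne_zero hJ hh, by
        intro i j
        by_cases hj : j = J
        · subst hj
          simp only [Function.update_self]
          rw [hcolJ]
          have h4 : ∑ l, C (c l) * (G * h.map C) i l
              = (X - C a) ^ (m j) * ∑ l, C (c l) * H i l := by
            rw [Finset.mul_sum]
            apply Finset.sum_congr rfl
            intro l _
            by_cases hl : c l = 0
            · simp [hl]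
            · rw [hH i l, hm l hl]; ring
          rw [h4, pow_succ]
          apply mul_dvd_mul_left
          rw [dvd_iff_isRoot, IsRoot.def, eval_finsetSum]
          have h5 := congrFun hMc i
          simp only [mulVec, dotProduct, map_apply, Pi.zero_apply] at h5
          rw [← h5]
          apply Finset.sum_congr rfl
          intro l _
          rw [eval_mul, eval_C]; ring
        · simp only [Function.update_of_ne hj]
          rw [hcol i j hj]
          exact hdiv i j⟩
    simp only at h3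
    rw [Finset.sum_update_of_mem (Finset.mem_univ J)] at h3
    have h6 : ∑ j, m j = m J + ∑ j ∈ Finset.univ \ {J}, m j := by
      rw [← Finset.add_sum_erase Finset.univ m (Finset.mem_univ J), Finset.sdiff_singleton_eq_erase]
    omega
  refine ⟨h, H, m, hh, ?_, hHa, hlt, ?_, ?_⟩
  · ext1 i j
    rw [mul_diagonal, hH i j, mul_comm]
  · have h1 : G.det.rootMultiplicity a = (G * h.map C).det.rootMultiplicity a := by
      rw [hdetmul, rootMultiplicity_mul (mul_ne_zero hdet (C_ne_zero.mpr hh)), rootMultiplicity_C,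
        add_zero]
    have h2 : H.det.eval a ≠ 0 := by
      have : H.det.eval a = (H.map (eval a)).det := by
        have := RingHom.map_det (evalRingHom a) H
        simpa using this
      rw [this]; exact hHa
    have h3 : H.det ≠ 0 := by intro h; rw [h] at h2; simp at h2
    rw [h1, hHdet, rootMultiplicity_mul (mul_ne_zero (pow_ne_zero _ (X_sub_C_ne_zero a)) h3),
      rootMultiplicity_X_sub_C_pow, rootMultiplicity_eq_zero h2, add_zero]
  · have hu : IsUnit (H.map (eval a)) := by
      rw [Matrix.isUnit_iff_isUnit_det]; exact isUnit_iff_ne_zero.mpr hHa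
    obtain ⟨U, hU⟩ := hu
    have h1 : (g.eval a)⁻¹ • L.map (eval a)
        = U.val * diagonal (fun j => ((m j : ℕ) : k)) * (U⁻¹).val := by
      rw [← hU] at hres
      rw [← hres, mul_assoc]
      simp
    rw [h1]
    have := charpoly_units_conj U (diagonal (fun j => ((m j : ℕ) : k)))
    rw [Matrix.coe_units_inv, this, charpoly_diagonal]

theorem infinity_frame {p : ℕ} [CharP k p]
    {b c : Matrix (Fin r) (Fin r) k} {F : Matrix (Fin r) (Fin r) k[X]}
    (hF : Hor (X * (X - 1)) (Lmat b c) F) (hdet : F.det ≠ 0) :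
    ∃ (G : Matrix (Fin r) (Fin r) k[X]) (d : Fin r → ℕ), Hor (X * (X - 1)) (Lmat b c) G ∧
      (∃ μ : k, μ ≠ 0 ∧ G.det = C μ * F.det) ∧ (∀ i j, (G i j).natDegree ≤ d j) ∧
      (Matrix.of fun i j => (G i j).coeff (d j)).det ≠ 0 ∧
      F.det.natDegree = ∑ j, d j ∧
      (b + c).charpoly = ∏ j, (X - C ((d j : ℕ) : k)) := by
  classical
  obtain ⟨⟨G, d⟩, ⟨hG, ⟨μ, hμ, hGdet⟩, hdeg⟩, hmin⟩ := exists_min_nat
    (fun x : Matrix (Fin r) (Fin r) k[X] × (Fin r → ℕ) => Hor (X * (X - 1)) (Lmat b c) x.1 ∧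
      (∃ μ : k, μ ≠ 0 ∧ x.1.det = C μ * F.det) ∧ ∀ i j, (x.1 i j).natDegree ≤ x.2 j)
    (fun x => ∑ j, x.2 j)
    ⟨(F, fun j => ∑ i, (F i j).natDegree), hF, ⟨1, one_ne_zero, by simp⟩, by
      intro i j
      exact Finset.single_le_sum (f := fun i => (F i j).natDegree) (fun _ _ => Nat.zero_le _)
        (Finset.mem_univ i)⟩
  simp only at hG hGdet hdeg hmin
  have hG0 : G.det ≠ 0 := by
    rw [hGdet]; exact mul_ne_zero (C_ne_zero.mpr hμ) hdet
  set ℓ : Matrix (Fin r) (Fin r) k := Matrix.of fun i j => (G i j).coeff (d j) with hℓ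
  -- eigenvector relation at infinity
  have hres : (b + c) * ℓ = ℓ * diagonal (fun j => ((d j : ℕ) : k)) := by
    ext1 i j
    have h1 : (X * (X - 1) * derivative (G i j)).coeff (d j + 1)
        = (∑ l, Lmat b c i l * G l j).coeff (d j + 1) := by rw [hG i j]
    have h2 : (X * (X - 1) * derivative (G i j)).coeff (d j + 1)
        = (d j : k) * (G i j).coeff (d j) := by
      have e1 : (X * (X - 1) * derivative (G i j) : k[X])
          = X * (X * derivative (G i j)) - X * derivative (G i j) := by ring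
      rw [e1, coeff_sub, coeff_X_mul, coeff_X_mul, coeff_derivative]
      have e2 : (G i j).coeff (d j + 1) = 0 :=
        coeff_eq_zero_of_natDegree_lt (lt_of_le_of_lt (hdeg i j) (Nat.lt_succ_self _))
      rw [e2, zero_mul, sub_zero]
      rcases Nat.eq_zero_or_pos (d j) with h0 | h0
      · rw [h0]; simp
      · obtain ⟨n, hn⟩ : ∃ n, d j = n + 1 := ⟨d j - 1, by omega⟩
        rw [hn, coeff_X_mul, coeff_derivative]
        push_cast
        ring
    have h3 : ∀ l, (Lmat b c i l * G l j).coeff (d j + 1) = (b i l + c i l) * (G l j).coeff (d j) := by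
      intro l
      have e1 : Lmat b c i l * G l j = X * (C (b i l + c i l) * G l j) - C (b i l) * G l j := by
        simp only [Lmat, Matrix.add_apply, Matrix.smul_apply, map_apply, smul_eq_mul, C_add]
        ring
      rw [e1, coeff_sub, coeff_X_mul, coeff_C_mul, coeff_C_mul]
      have e2 : (G l j).coeff (d j + 1) = 0 :=
        coeff_eq_zero_of_natDegree_lt (lt_of_le_of_lt (hdeg l j) (Nat.lt_succ_self _))
      rw [e2, mul_zero, sub_zero]
    rw [h2, finsetSum_coeff] at h1
    simp only [h3] at h1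
    rw [mul_diagonal, mul_apply]
    simp only [hℓ, of_apply, Matrix.add_apply]
    rw [← h1]; ring
  have hℓ0 : ℓ.det ≠ 0 := by
    intro h0
    obtain ⟨e, he, hMe, hsupp⟩ := min_support hres h0
    obtain ⟨J, hJ, hJmax⟩ : ∃ J, e J ≠ 0 ∧ ∀ j, e j ≠ 0 → d j ≤ d J := by
      obtain ⟨J, h1, h2⟩ := exists_max_nat (fun j => e j ≠ 0) d (∑ j, d j)
        (fun j _ => Finset.single_le_sum (f := d) (fun _ _ => Nat.zero_le _) (Finset.mem_univ j))
        (Function.ne_iff.mp he)
      exact ⟨J, h1, h2⟩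
    set cc : Fin r → k[X] := fun j => C (e j) * X ^ (d J - d j) with hcc
    have hder : ∀ j, derivative (cc j) = 0 := by
      intro j
      by_cases hj : e j = 0
      · simp [hcc, hj]
      · have h1 := hsupp J j hJ hj
        have h2 : p ∣ d J - d j := by
          have h3 := (CharP.natCast_eq_natCast k p).mp h1
          exact (Nat.modEq_iff_dvd' (hJmax j hj)).mp h3.symm
        simp only [hcc]
        rw [derivative_C_mul, derivative_X_pow, (CharP.cast_eq_zero_iff k p _).mpr h2]
        simp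
    obtain ⟨h1, h2⟩ := hor_combine hG J cc hder
    have hcol : ∀ i, (∑ j, cc j * G i j).natDegree ≤ d J ∧ (∑ j, cc j * G i j).coeff (d J) = 0 := by
      intro i
      constructor
      · apply natDegree_sum_le_of_forall_le
        intro j _
        by_cases hj : e j = 0
        · simp [hcc, hj]
        · simp only [hcc]
          refine natDegree_mul_le.trans ?_
          have e1 := natDegree_C_mul_X_pow_le (e j) (d J - d j)
          have e2 := hdeg i j
          have e3 := hJmax j hj
          omega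
      · rw [finsetSum_coeff]
        have h5 := congrFun hMe i
        simp only [mulVec, dotProduct, hℓ, of_apply, Pi.zero_apply] at h5
        rw [← h5]
        apply Finset.sum_congr rfl
        intro j _
        by_cases hj : e j = 0
        · simp [hcc, hj]
        · simp only [hcc]
          have e3 := hJmax j hj
          have e4 : C (e j) * X ^ (d J - d j) * G i j = C (e j) * (G i j * X ^ (d J - d j)) := by ring
          have e5 : d J = d j + (d J - d j) := by omega
          rw [e4, coeff_C_mul]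
          conv_lhs => rw [e5]
          rw [show d j + (d J - d j) - d j = d J - d j by omega, coeff_mul_X_pow]
          ring
    rcases Nat.eq_zero_or_pos (d J) with h0 | h0
    · -- zero column, impossible
      have h6 : (G.updateCol J (fun i => ∑ j, cc j * G i j)).det = 0 := by
        apply det_eq_zero_of_column_eq_zero J
        intro i
        rw [updateCol_self]
        obtain ⟨h7, h8⟩ := hcol i
        rw [h0] at h7 h8
        rw [eq_C_of_natDegree_le_zero h7, h8, C_0]
      rw [h2] at h6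
      have h7 : cc J ≠ 0 := by
        simp only [hcc, Nat.sub_self, pow_zero, mul_one]
        exact C_ne_zero.mpr hJ
      exact (mul_ne_zero h7 hG0) h6
    · have h3 := hmin (G.updateCol J (fun i => ∑ j, cc j * G i j), Function.update d J (d J - 1))
        ⟨h1, ⟨e J * μ, mul_ne_zero hJ hμ, by
          rw [h2, hGdet]; simp only [hcc, Nat.sub_self, pow_zero, mul_one, C_mul]; ring⟩, by
          intro i j
          by_cases hj : j = J
          · subst hj
            simp only [updateCol_self, Function.update_self]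
            obtain ⟨h7, h8⟩ := hcol i
            rw [natDegree_le_iff_coeff_eq_zero]
            intro N hN
            rcases Nat.lt_or_ge (d j) N with h9 | h9
            · exact coeff_eq_zero_of_natDegree_lt (lt_of_le_of_lt h7 h9)
            · have : N = d j := by omega
              rw [this]; exact h8
          · simp only [updateCol_ne hj, Function.update_of_ne hj]
            exact hdeg i j⟩
      simp only at h3
      rw [Finset.sum_update_of_mem (Finset.mem_univ J)] at h3
      have h6 : ∑ j, d j = d J + ∑ j ∈ Finset.univ \ {J}, d j := by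
        rw [← Finset.add_sum_erase Finset.univ d (Finset.mem_univ J), Finset.sdiff_singleton_eq_erase]
      omega
  refine ⟨G, d, hG, ⟨μ, hμ, hGdet⟩, hdeg, hℓ0, ?_, ?_⟩
  · rw [← natDegree_det_of_leading hdeg hℓ0, hGdet, natDegree_C_mul hμ]
  · have hu : IsUnit ℓ := by
      rw [Matrix.isUnit_iff_isUnit_det]; exact isUnit_iff_ne_zero.mpr hℓ0
    obtain ⟨U, hU⟩ := hu
    have h1 : b + c = U.val * diagonal (fun j => ((d j : ℕ) : k)) * (U⁻¹).val := by
      rw [← hU] at hres
      rw [← hres, mul_assoc]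
      simp
    rw [h1]
    have := charpoly_units_conj U (diagonal (fun j => ((d j : ℕ) : k)))
    rw [Matrix.coe_units_inv, this, charpoly_diagonal]

/-- frames of a horizontal matrix adapted to the three points, with exact orders -/
structure TFrame {F : Type*} [Field F] {ι : Type*} [Fintype ι] [DecidableEq ι]
    (G : Matrix ι ι F[X]) (h₀ h₁ : Matrix ι ι F) (m₀ m₁ d : ι → ℕ) : Prop where
  h₀_ne : h₀.det ≠ 0
  h₁_ne : h₁.det ≠ 0
  frame₀ : ∃ H₀ : Matrix ι ι F[X], G * h₀.map C = H₀ * diagonal (fun j => (X - C 0) ^ (m₀ j)) ∧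
    (H₀.map (eval 0)).det ≠ 0
  frame₁ : ∃ H₁ : Matrix ι ι F[X], G * h₁.map C = H₁ * diagonal (fun j => (X - C 1) ^ (m₁ j)) ∧
    (H₁.map (eval 1)).det ≠ 0
  deg : ∀ i j, (G i j).natDegree ≤ d j
  lead : (Matrix.of fun i j => (G i j).coeff (d j)).det ≠ 0
  good : ∀ x : F, x ≠ 0 → x ≠ 1 → (G.map (eval x)).det ≠ 0

theorem frames {p : ℕ} [hp : Fact p.Prime] [CharP k p] [IsAlgClosed k]
    (b c : Matrix (Fin r) (Fin r) k)
    (hex : ∃ F, Hor (X * (X - 1)) (Lmat b c) F ∧ F.det ≠ 0) :
    ∃ (G : Matrix (Fin r) (Fin r) k[X]) (h₀ h₁ : Matrix (Fin r) (Fin r) k)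
      (m₀ m₁ d : Fin r → ℕ), Hor (X * (X - 1)) (Lmat b c) G ∧ TFrame G h₀ h₁ m₀ m₁ d ∧
      (∀ j, m₀ j < p) ∧ (∀ j, m₁ j < p) ∧ ∑ j, d j = ∑ j, m₀ j + ∑ j, m₁ j ∧
      b.charpoly = ∏ j, (X - C ((m₀ j : ℕ) : k)) ∧ c.charpoly = ∏ j, (X - C ((m₁ j : ℕ) : k)) ∧
      (b + c).charpoly = ∏ j, (X - C ((d j : ℕ) : k)) := by
  classical
  obtain ⟨F, ⟨hF, hdet⟩, hmin⟩ := exists_min_nat
    (fun F : Matrix (Fin r) (Fin r) k[X] => Hor (X * (X - 1)) (Lmat b c) F ∧ F.det ≠ 0)
    (fun F => F.det.natDegree) hex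
  have hmin' : ∀ G, Hor (X * (X - 1)) (Lmat b c) G → G.det ≠ 0 →
      F.det.natDegree ≤ G.det.natDegree := fun G h1 h2 => hmin G ⟨h1, h2⟩
  obtain ⟨G, d, hG, ⟨μ, hμ, hGF⟩, hdeg, hlead, hsum, hcd⟩ := infinity_frame (p := p) hF hdet
  have hG0 : G.det ≠ 0 := by rw [hGF]; exact mul_ne_zero (C_ne_zero.mpr hμ) hdet
  have hGdeg : G.det.natDegree = F.det.natDegree := by rw [hGF, natDegree_C_mul hμ]
  have hminG : ∀ G', Hor (X * (X - 1)) (Lmat b c) G' → G'.det ≠ 0 →
      G.det.natDegree ≤ G'.det.natDegree := fun G' h1 h2 => by rw [hGdeg]; exact hmin' G' h1 h2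
  obtain ⟨h₀, H₀, m₀, hh₀, e₀, hH₀, hm₀, hr0, hc0⟩ := local_frame (p := p) (w := X * (X - 1))
    (L := Lmat b c) 0 (X - 1) (by simp) (by simp) hG hG0 hminG
  obtain ⟨h₁, H₁, m₁, hh₁, e₁, hH₁, hm₁, hr1, hc1⟩ := local_frame (p := p) (w := X * (X - 1))
    (L := Lmat b c) 1 X (by simp; ring) (by simp) hG hG0 hminG
  have hL0 : ((X - 1 : k[X]).eval 0)⁻¹ • (Lmat b c).map (eval 0) = b := by
    ext1 i j
    simp [Lmat]
  have hL1 : ((X : k[X]).eval 1)⁻¹ • (Lmat b c).map (eval 1) = c := by
    ext1 i j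
    simp [Lmat]
  rw [hL0] at hc0
  rw [hL1] at hc1
  have hother : ∀ a : k, a ≠ 0 → a ≠ 1 → G.det.rootMultiplicity a = 0 := by
    intro a ha0 ha1
    have hequiv : ∀ G, Hor ((X - C a) * (X * (X - 1))) ((X - C a) • Lmat b c) G ↔
        Hor (X * (X - 1)) (Lmat b c) G := by
      intro G
      have h1 : ∀ i j, ∑ l, ((X - C a) • Lmat b c) i l * G l j
          = (X - C a) * ∑ l, Lmat b c i l * G l j := by
        intro i j
        rw [Finset.mul_sum]
        apply Finset.sum_congr rfl
        intro l _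
        rw [Matrix.smul_apply, smul_eq_mul]; ring
      constructor
      · intro h i j
        have h2 := h i j
        rw [h1, mul_assoc] at h2
        exact mul_left_cancel₀ (X_sub_C_ne_zero a) h2
      · intro h i j
        rw [h1, mul_assoc, h i j]
    obtain ⟨m, hm, hr, hcm⟩ := local_structure (p := p) (w := (X - C a) * (X * (X - 1)))
      (L := (X - C a) • Lmat b c) a (X * (X - 1)) rfl
      (by simp only [eval_mul, eval_X, eval_sub, eval_one]; exact mul_ne_zero ha0 (sub_ne_zero.mpr ha1))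
      ((hequiv G).mpr hG) hG0 (fun G h1 h2 => hminG G ((hequiv G).mp h1) h2)
    rw [hr]
    apply Finset.sum_eq_zero
    intro j _
    have h1 : (((X - C a) • Lmat b c).map (eval a) : Matrix (Fin r) (Fin r) k) = 0 := by
      ext1 i l
      simp
    rw [h1, smul_zero, charpoly_zero] at hcm
    have h2 := congrArg (eval ((m j : ℕ) : k)) hcm
    rw [eval_prod, Finset.prod_eq_zero (Finset.mem_univ j) (by simp)] at h2
    rw [eval_pow, eval_X] at h2
    have h3 : ((m j : ℕ) : k) = 0 := (pow_eq_zero_iff (by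
      rw [Fintype.card_fin]; exact (Fin.pos j).ne')).mp h2
    have h4 := (CharP.cast_eq_zero_iff k p _).mp h3
    exact Nat.eq_zero_of_dvd_of_lt h4 (hm j)
  refine ⟨G, h₀, h₁, m₀, m₁, d, hG, ⟨hh₀, hh₁, ⟨H₀, e₀, hH₀⟩, ⟨H₁, e₁, hH₁⟩, hdeg, hlead, ?_⟩,
    hm₀, hm₁, ?_, hc0, hc1, hcd⟩
  · intro x hx0 hx1
    have h1 : G.det.eval x = (G.map (eval x)).det := by
      have := RingHom.map_det (evalRingHom x) G
      simpa using this
    rw [← h1]
    intro h2
    have h3 := (rootMultiplicity_pos hG0).mpr (IsRoot.def.mpr h2)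
    rw [hother x hx0 hx1] at h3
    exact lt_irrefl _ h3
  rw [← hsum, ← hGdeg, ← hr0, ← hr1, ← IsAlgClosed.card_roots_eq_natDegree,
    ← Multiset.toFinset_sum_count_eq]
  have hsub : G.det.roots.toFinset ⊆ {0, 1} := by
    intro a ha
    rw [Multiset.mem_toFinset] at ha
    by_contra hcon
    simp only [Finset.mem_insert, Finset.mem_singleton, not_or] at hcon
    have h1 := hother a hcon.1 hcon.2
    rw [← count_roots] at h1
    exact (Multiset.count_pos.mpr ha).ne' h1
  rw [Finset.sum_subset hsub (by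
    intro a _ ha
    rw [Multiset.mem_toFinset] at ha
    exact Multiset.count_eq_zero.mpr ha), Finset.sum_pair zero_ne_one]
  simp only [count_roots]

end Pool.Agent.Work.MP_5e5ff1_ag.T

end

section

/-! Reduction of the exponent inequalities from a number field to residue fields. -/

open Polynomial Matrix NumberField

namespace Pool.Agent.Work.MP_5e5ff1_ag

lemma charpoly_smul_prod {F : Type*} [Field F] {r : ℕ} {M : Matrix (Fin r) (Fin r) F}
    {μ : Fin r → F} (h : M.charpoly = ∏ j, (X - C (μ j))) {t : F} (ht : t ≠ 0) :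
    (t • M).charpoly = ∏ j, (X - C (t * μ j)) := by
  have h1 : (t • M).charpoly = (C t) ^ r * (M.charpoly).comp (C t⁻¹ * X) := by
    rw [charpoly, charpoly, ← coe_compRingHom_apply, RingHom.map_det]
    have h2 : charmatrix (t • M)
        = (C t : F[X]) • (compRingHom (C t⁻¹ * X)).mapMatrix (charmatrix M) := by
      ext1 i j
      rw [Matrix.smul_apply, RingHom.mapMatrix_apply, map_apply, charmatrix_apply, charmatrix_apply]
      simp only [Matrix.smul_apply, coe_compRingHom_apply, sub_comp, C_comp, smul_eq_mul]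
      by_cases hij : i = j
      · have htt : (C t * C t⁻¹ : F[X]) = 1 := by rw [← C_mul, mul_inv_cancel₀ ht, C_1]
        simp only [hij, diagonal_apply_eq, X_comp, C_mul, mul_sub]
        rw [← mul_assoc, htt, one_mul]
      · simp [diagonal_apply_ne _ hij]
    rw [h2, det_smul, Fintype.card_fin]
  rw [h1, h, Polynomial.prod_comp]
  have h3 : ((C t) ^ r : F[X]) = ∏ _j : Fin r, (C t : F[X]) := by simp
  rw [h3, ← Finset.prod_mul_distrib]
  apply Finset.prod_congr rfl
  intro j _
  rw [sub_comp, X_comp, C_comp, mul_sub, ← mul_assoc, ← C_mul, mul_inv_cancel₀ ht, C_1, one_mul,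
    ← C_mul]

variable {K : Type*} [Field K] [NumberField K] {r : ℕ}

/-- reduction of the characteristic polynomial -/
lemma reduce_charpoly {k : Type*} [Field k] (φ : 𝓞 K →+* k) {n N : ℕ} (hn0 : 0 < n) (hN0 : 0 < N)
    (hn : (n : k) ≠ 0) (hN : (N : k) ≠ 0) {b : Matrix (Fin r) (Fin r) (𝓞 K)} {s : Fin r → ℤ}
    (hb : ((n : K)⁻¹ • b.map (algebraMap (𝓞 K) K)).charpoly
      = ∏ j, (X - C ((s j : K) / (N : K)))) :
    ((n : k)⁻¹ • b.map φ).charpoly = ∏ j, (X - C ((s j : k) / (N : k))) := by
  have hnK : (n : K) ≠ 0 := Nat.cast_ne_zero.mpr hn0.ne'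
  have hNK : (N : K) ≠ 0 := Nat.cast_ne_zero.mpr hN0.ne'
  -- scaled matrix over the ring of integers
  have h1 := charpoly_smul_prod hb (mul_ne_zero hNK hnK)
  have h2 : ((N : K) * (n : K)) • ((n : K)⁻¹ • b.map (algebraMap (𝓞 K) K))
      = ((N : 𝓞 K) • b).map (algebraMap (𝓞 K) K) := by
    ext1 i j
    simp only [Matrix.smul_apply, map_apply, smul_eq_mul, map_mul, map_natCast]
    field_simp
  have h3 : ∀ j, ((N : K) * (n : K)) * ((s j : K) / (N : K))
      = algebraMap (𝓞 K) K ((n : 𝓞 K) * ((s j : ℤ) : 𝓞 K)) := by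
    intro j
    rw [map_mul, map_natCast, map_intCast]
    field_simp
  rw [h2, charpoly_map] at h1
  simp only [h3] at h1
  have h4 : ((N : 𝓞 K) • b).charpoly = ∏ j, (X - C ((n : 𝓞 K) * ((s j : ℤ) : 𝓞 K))) := by
    apply Polynomial.map_injective (algebraMap (𝓞 K) K) (RingOfIntegers.coe_injective)
    rw [h1, Polynomial.map_prod]
    apply Finset.prod_congr rfl
    intro j _
    rw [Polynomial.map_sub, Polynomial.map_X, Polynomial.map_C]
  have h5 := congrArg (Polynomial.map φ) h4
  rw [← charpoly_map, Polynomial.map_prod] at h5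
  have h6 : ((N : 𝓞 K) • b).map φ = (N : k) • b.map φ := by
    ext1 i j
    simp only [Matrix.smul_apply, map_apply, smul_eq_mul, map_mul, map_natCast]
  rw [h6] at h5
  have h7 : ((N : k) • b.map φ).charpoly = ∏ j, (X - C ((n : k) * (s j : k))) := by
    rw [h5]
    apply Finset.prod_congr rfl
    intro j _
    simp
  have h8 := charpoly_smul_prod h7 (inv_ne_zero (mul_ne_zero hn hN))
  have h9 : ((n : k) * (N : k))⁻¹ • ((N : k) • b.map φ) = (n : k)⁻¹ • b.map φ := by
    rw [smul_smul]
    congr 1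
    field_simp
  rw [h9] at h8
  rw [h8]
  apply Finset.prod_congr rfl
  intro j _
  congr 2
  field_simp

/-- integral left inverse of a pair of matrices without common kernel -/
lemma left_inverse {M1 M2 : Matrix (Fin r) (Fin r) (𝓞 K)}
    (h : ∀ v : Fin r → K, M1.map (algebraMap (𝓞 K) K) *ᵥ v = 0 →
      M2.map (algebraMap (𝓞 K) K) *ᵥ v = 0 → v = 0) :
    ∃ d : 𝓞 K, d ≠ 0 ∧ ∃ U V : Matrix (Fin r) (Fin r) (𝓞 K), U * M1 + V * M2 = d • 1 := by
  classical
  set f1 := Matrix.toLin' (M1.map (algebraMap (𝓞 K) K)) with hf1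
  set f2 := Matrix.toLin' (M2.map (algebraMap (𝓞 K) K)) with hf2
  have hker : LinearMap.ker (f1.prod f2) = ⊥ := by
    rw [LinearMap.ker_eq_bot']
    intro v hv
    have hv1 : f1 v = 0 := congrArg Prod.fst hv
    have hv2 : f2 v = 0 := congrArg Prod.snd hv
    exact h v (by simpa [hf1] using hv1) (by simpa [hf2] using hv2)
  obtain ⟨g, hg⟩ := (f1.prod f2).exists_leftInverse_of_injective hker
  set U0 := LinearMap.toMatrix' (g ∘ₗ LinearMap.inl K (Fin r → K) (Fin r → K)) with hU0
  set V0 := LinearMap.toMatrix' (g ∘ₗ LinearMap.inr K (Fin r → K) (Fin r → K)) with hV0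
  have h1 : U0 * M1.map (algebraMap (𝓞 K) K) + V0 * M2.map (algebraMap (𝓞 K) K) = 1 := by
    apply Matrix.toLin'.injective
    rw [map_add, Matrix.toLin'_mul, Matrix.toLin'_mul, hU0, hV0, Matrix.toLin'_toMatrix',
      Matrix.toLin'_toMatrix', Matrix.toLin'_one, ← hg]
    ext1 i
    apply LinearMap.ext
    intro x
    simp only [LinearMap.comp_apply, LinearMap.add_apply, LinearMap.inl_apply, LinearMap.inr_apply]
    rw [← map_add]
    simp [hf1, hf2]
  obtain ⟨d, hd⟩ := IsLocalization.exist_integer_multiples_of_finite (nonZeroDivisors (𝓞 K))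
    (S := K) (fun x : (Fin r × Fin r) ⊕ (Fin r × Fin r) =>
      Sum.elim (fun x => U0 x.1 x.2) (fun x => V0 x.1 x.2) x)
  have hU : ∀ i j, ∃ a : 𝓞 K, algebraMap (𝓞 K) K a = (d : 𝓞 K) • U0 i j := fun i j => hd (Sum.inl (i, j))
  have hV : ∀ i j, ∃ a : 𝓞 K, algebraMap (𝓞 K) K a = (d : 𝓞 K) • V0 i j := fun i j => hd (Sum.inr (i, j))
  choose U hU using hU
  choose V hV using hV
  refine ⟨d, nonZeroDivisors.ne_zero d.2, Matrix.of U, Matrix.of V, ?_⟩
  have hinj : Function.Injective (algebraMap (𝓞 K) K) := RingOfIntegers.coe_injective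
  apply Matrix.map_injective hinj
  change (Matrix.of U * M1 + Matrix.of V * M2).map (algebraMap (𝓞 K) K)
    = ((d : 𝓞 K) • (1 : Matrix (Fin r) (Fin r) (𝓞 K))).map (algebraMap (𝓞 K) K)
  rw [Matrix.map_add _ (map_add _), Matrix.map_mul, Matrix.map_mul]
  have e1 : (Matrix.of U).map (algebraMap (𝓞 K) K) = (algebraMap (𝓞 K) K d) • U0 := by
    ext1 i j
    rw [map_apply, of_apply, hU, Matrix.smul_apply, Algebra.smul_def, smul_eq_mul]
  have e2 : (Matrix.of V).map (algebraMap (𝓞 K) K) = (algebraMap (𝓞 K) K d) • V0 := by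
    ext1 i j
    rw [map_apply, of_apply, hV, Matrix.smul_apply, Algebra.smul_def, smul_eq_mul]
  rw [e1, e2, Matrix.smul_mul, Matrix.smul_mul, ← smul_add, h1]
  ext1 i j
  by_cases hij : i = j
  · simp [hij]
  · simp [hij]

omit [NumberField K] in
/-- the kernel condition after reduction -/
lemma reduce_kernel {M1 M2 U V : Matrix (Fin r) (Fin r) (𝓞 K)} {d : 𝓞 K}
    (hUV : U * M1 + V * M2 = d • 1) {k : Type*} [Field k] (φ : 𝓞 K →+* k) (hd : φ d ≠ 0)
    (v : Fin r → k) (h1 : M1.map φ *ᵥ v = 0) (h2 : M2.map φ *ᵥ v = 0) : v = 0 := by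
  have h3 : ((U * M1 + V * M2).map φ) *ᵥ v
      = ((d • (1 : Matrix (Fin r) (Fin r) (𝓞 K))).map φ) *ᵥ v := by rw [hUV]
  rw [Matrix.map_add _ (map_add _), Matrix.map_mul, Matrix.map_mul, add_mulVec, ← mulVec_mulVec,
    ← mulVec_mulVec, h1, h2, mulVec_zero, mulVec_zero, add_zero] at h3
  have h4 : (d • (1 : Matrix (Fin r) (Fin r) (𝓞 K))).map φ = φ d • 1 := by
    ext1 i j
    by_cases hij : i = j
    · simp [hij]
    · simp [hij]
  rw [h4, smul_mulVec, one_mulVec] at h3
  exact (smul_eq_zero.mp h3.symm).resolve_left hd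

/-- exact formula for the representative -/
lemma rep_formula {k : Type*} [Field k] {p : ℕ} [hp : Fact p.Prime] [CharP k p] {N : ℕ}
    (hN0 : 0 < N) (hN : (N : k) ≠ 0) {u : ℤ} (hu : (N : ℤ) ∣ u * p - 1) (s a : ℤ) :
    (rep ((s : k) / (N : k) - (a : k)) : ℝ) / p
      = Int.fract (-(u * ((s : ℝ) / N)) + (s : ℝ) / N / p - a / p) := by
  have hppos : (0 : ℝ) < p := by exact_mod_cast hp.out.pos
  have hNpos : (0 : ℝ) < N := by exact_mod_cast hN0
  obtain ⟨ρ, hρp, hρ⟩ : ∃ ρ : ℕ, ρ < p ∧ (ρ : k) = (s : k) / (N : k) - (a : k) := by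
    have hNz : ((N : ℕ) : ZMod p) ≠ 0 := by
      intro h
      apply hN
      rw [CharP.cast_eq_zero_iff k p]
      exact (ZMod.natCast_eq_zero_iff N p).mp h
    refine ⟨((s : ZMod p) / (N : ZMod p) - (a : ZMod p)).val, ZMod.val_lt _, ?_⟩
    have h1 : ((((s : ZMod p) / (N : ZMod p) - (a : ZMod p)).val : ℕ) : k)
        = ZMod.castHom (dvd_refl p) k ((s : ZMod p) / (N : ZMod p) - (a : ZMod p)) := by
      rw [ZMod.castHom_apply, ZMod.natCast_val]
    rw [h1, map_sub, map_div₀, map_intCast, map_natCast, map_intCast]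
  have hrep : rep ((s : k) / (N : k) - (a : k)) = ρ := by
    rw [← hρ, rep_natCast (p := p), Nat.mod_eq_of_lt hρp]
  rw [hrep]
  have h1 : (((ρ : ℤ) * N - s + a * N : ℤ) : k) = 0 := by
    push_cast
    rw [hρ]
    field_simp
    ring
  obtain ⟨j, hj⟩ := (CharP.intCast_eq_zero_iff k p _).mp h1
  obtain ⟨m, hm⟩ := hu
  symm
  rw [Int.fract_eq_iff]
  refine ⟨by positivity, by rw [div_lt_one hppos]; exact_mod_cast hρp, ?_⟩
  refine ⟨-(u * (ρ + a) - m * j), ?_⟩
  have hj' : (ρ : ℝ) * N - s + a * N = p * j := by exact_mod_cast hj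
  have hm' : (u : ℝ) * p - 1 = N * m := by exact_mod_cast hm
  have key : (-(u * ((s : ℝ) / N)) + (s : ℝ) / N / p - a / p - ρ / p) * (N * p)
      = (-(u * (ρ + a) - m * j) : ℝ) * (N * p) := by
    field_simp
    linear_combination ((u : ℝ) * p - 1) * hj' + ((p : ℝ) * j) * hm'
  push_cast
  exact mul_right_cancel₀ (by positivity) key


lemma Qs_of_pcurv {n : ℕ} {b c : Matrix (Fin r) (Fin r) (𝓞 K)} {P : Ideal (𝓞 K)}
    (h : PCurvZero n b c P) {k : Type*} [Field k] (φ : (𝓞 K ⧸ P) →+* k) :
    Qs (n : k) (b.map (fun x => φ (Ideal.Quotient.mk P x)))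
      (c.map (fun x => φ (Ideal.Quotient.mk P x))) (ringChar (𝓞 K ⧸ P)) = 0 := by
  have h1 := h (Qs (Ideal.Quotient.mk P (n : 𝓞 K)) (b.map (Ideal.Quotient.mk P))
    (c.map (Ideal.Quotient.mk P))) rfl (fun k => rfl)
  have h2 := Qs_map φ (Ideal.Quotient.mk P (n : 𝓞 K)) (b.map (Ideal.Quotient.mk P))
    (c.map (Ideal.Quotient.mk P)) (ringChar (𝓞 K ⧸ P))
  rw [h1] at h2
  have h3 : φ (Ideal.Quotient.mk P (n : 𝓞 K)) = (n : k) := by simp
  rw [h3] at h2
  have h4 : (0 : Matrix (Fin r) (Fin r) (Polynomial (𝓞 K ⧸ P))).map (fun f => f.map φ) = 0 := by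
    ext1 i j
    simp
  rw [h4] at h2
  exact h2.symm

end Pool.Agent.Work.MP_5e5ff1_ag

end

section

/-! Closures of Galois orbits of torsion points: they fill torsion cosets. -/

open Finset Filter Topology

namespace Pool.Agent.Work.MP_5e5ff1_ag

/-- a power of a squared cosine -/
noncomputable def kerc (K : ℕ) (x : ℝ) : ℝ :=
  ‖∑ j ∈ Finset.range (K + 1), (K.choose j : ℂ) * ee (j * x)‖ ^ 2 / 4 ^ K

/-- its Fourier weights -/
noncomputable def wt (K : ℕ) (z : ℕ × ℕ) : ℝ := (K.choose z.1 : ℝ) * (K.choose z.2 : ℝ) / 4 ^ K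

lemma wt_nonneg (K : ℕ) (z : ℕ × ℕ) : 0 ≤ wt K z := by unfold wt; positivity

lemma kerc_nonneg (K : ℕ) (x : ℝ) : 0 ≤ kerc K x := by unfold kerc; positivity

lemma kerc_expand (K : ℕ) (x : ℝ) : (kerc K x : ℂ)
    = ∑ z ∈ Finset.range (K + 1) ×ˢ Finset.range (K + 1), (wt K z : ℂ) * ee (((z.1 : ℝ) - z.2) * x) := by
  unfold kerc
  rw [Complex.ofReal_div, Complex.ofReal_pow, ← Complex.mul_conj', map_sum,
    Finset.sum_mul_sum, ← Finset.sum_product', Finset.sum_div]
  apply Finset.sum_congr rfl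
  intro z _
  rw [map_mul, conj_ee, Complex.conj_natCast]
  have h1 : ee (((z.1 : ℝ) - z.2) * x) = ee (z.1 * x) * ee (-(z.2 * x)) := by
    rw [← ee_add]; congr 1; ring
  rw [h1]
  unfold wt
  push_cast
  ring

lemma sum_wt (K : ℕ) :
    ∑ z ∈ Finset.range (K + 1) ×ˢ Finset.range (K + 1), wt K z = 1 := by
  have h1 : ∑ z ∈ Finset.range (K + 1) ×ˢ Finset.range (K + 1), wt K z
      = (∑ j ∈ Finset.range (K + 1), (K.choose j : ℝ)) * (∑ j ∈ Finset.range (K + 1), (K.choose j : ℝ))
        / 4 ^ K := by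
    rw [Finset.sum_mul_sum, ← Finset.sum_product', Finset.sum_div]
    rfl
  have h2 : ∑ j ∈ Finset.range (K + 1), (K.choose j : ℝ) = 2 ^ K := by
    exact_mod_cast Nat.sum_range_choose K
  rw [h1, h2, ← mul_pow]
  norm_num

lemma sum_wt_diag (K : ℕ) :
    1 / ((K : ℝ) + 1) ≤ ∑ z ∈ Finset.range (K + 1) ×ˢ Finset.range (K + 1),
      (if z.1 = z.2 then wt K z else 0) := by
  have h1 : ∑ z ∈ Finset.range (K + 1) ×ˢ Finset.range (K + 1), (if z.1 = z.2 then wt K z else 0)
      = (∑ j ∈ Finset.range (K + 1), (K.choose j : ℝ) ^ 2) / 4 ^ K := by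
    rw [Finset.sum_product, Finset.sum_div]
    apply Finset.sum_congr rfl
    intro j hj
    rw [Finset.sum_ite_eq, if_pos hj]
    unfold wt
    ring
  have h2 : ∑ j ∈ Finset.range (K + 1), (K.choose j : ℝ) = 2 ^ K := by
    exact_mod_cast Nat.sum_range_choose K
  have h4 : (∑ j ∈ Finset.range (K + 1), (K.choose j : ℝ)) ^ 2
      ≤ (Finset.range (K + 1)).card * ∑ j ∈ Finset.range (K + 1), (K.choose j : ℝ) ^ 2 :=
    sq_sum_le_card_mul_sum_sq
  rw [h2, Finset.card_range] at h4
  rw [h1, div_le_div_iff₀ (by positivity) (by positivity), one_mul]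
  calc (4 : ℝ) ^ K = (2 ^ K) ^ 2 := by rw [← pow_mul, mul_comm, pow_mul]; norm_num
    _ ≤ ((K + 1 : ℕ) : ℝ) * ∑ j ∈ Finset.range (K + 1), (K.choose j : ℝ) ^ 2 := h4
    _ = _ := by push_cast; ring

lemma kerc_eq (K : ℕ) (x : ℝ) : kerc K x = (‖1 + ee x‖ ^ 2 / 4) ^ K := by
  have h1 : ∑ j ∈ Finset.range (K + 1), (K.choose j : ℂ) * ee (j * x) = (1 + ee x) ^ K := by
    rw [add_comm (1 : ℂ) (ee x), add_pow]
    apply Finset.sum_congr rfl
    intro j _
    have : ee (j * x) = ee x ^ j := by
      unfold ee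
      rw [← Complex.exp_nat_mul]
      congr 1
      push_cast
      ring
    rw [this, one_pow, mul_one, mul_comm]
  unfold kerc
  rw [h1, norm_pow, div_pow, ← pow_mul, ← pow_mul, mul_comm K 2]

lemma norm_one_add_ee (x : ℝ) : ‖1 + ee x‖ ^ 2 = 4 - ‖ee x - 1‖ ^ 2 := by
  have h := parallelogram_law_with_norm ℝ (ee x) (1 : ℂ)
  rw [norm_ee, norm_one] at h
  rw [add_comm]
  nlinarith

lemma kerc_le_one (K : ℕ) (x : ℝ) : kerc K x ≤ 1 := by
  rw [kerc_eq]
  apply pow_le_one₀ (by positivity)
  rw [norm_one_add_ee]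
  nlinarith [sq_nonneg ‖ee x - 1‖]

lemma kerc_far (K : ℕ) {x δ : ℝ} (h0 : 0 < δ) (h : ∀ z : ℤ, δ ≤ |x - z|) :
    kerc K x ≤ (1 - 4 * δ ^ 2) ^ K := by
  have hs := sin_lower h
  have h1 : 4 * δ ≤ ‖ee x - 1‖ := by rw [norm_ee_sub_one]; linarith
  rw [kerc_eq]
  apply pow_le_pow_left₀ (by positivity)
  rw [norm_one_add_ee]
  nlinarith

/-- lower bound for the average of the kernel along a finite family of points -/
theorem avg_lower {ι : Type*} [Fintype ι] [DecidableEq ι] (K : ℕ) {G : Type*} (S : Finset G)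
    (g : G → ι → ℝ) (w : ι → ℝ) {η : ℝ} (hη : 0 ≤ η)
    (h : ∀ k : ι → ℤ, (∀ i, |k i| ≤ K) → (∀ u ∈ S, ee (∑ i, (k i : ℝ) * (g u i - w i)) = 1) ∨
      ‖∑ u ∈ S, ee (∑ i, (k i : ℝ) * (g u i - w i))‖ ≤ η * S.card) :
    (1 / ((K : ℝ) + 1) ^ Fintype.card ι - η) * S.card
      ≤ ∑ u ∈ S, ∏ i, kerc K (g u i - w i) := by
  set Z := Fintype.piFinset (fun _ : ι => Finset.range (K + 1) ×ˢ Finset.range (K + 1)) with hZ
  set W : (ι → ℕ × ℕ) → ℝ := fun z => ∏ i, wt K (z i) with hW
  have hW0 : ∀ z, 0 ≤ W z := fun z => Finset.prod_nonneg fun i _ => wt_nonneg K _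
  set T : (ι → ℕ × ℕ) → ℂ := fun z => ∑ u ∈ S, ee (∑ i, (((z i).1 : ℝ) - (z i).2) * (g u i - w i))
    with hT
  -- expansion
  have h1 : ((∑ u ∈ S, ∏ i, kerc K (g u i - w i) : ℝ) : ℂ) = ∑ z ∈ Z, (W z : ℂ) * T z := by
    rw [Complex.ofReal_sum, hT]
    simp only [Finset.mul_sum]
    rw [Finset.sum_comm]
    apply Finset.sum_congr rfl
    intro u _
    rw [Complex.ofReal_prod]
    simp only [kerc_expand]
    rw [Finset.prod_univ_sum]
    apply Finset.sum_congr rfl
    intro z _
    rw [Finset.prod_mul_distrib, ee_sum, hW]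
    push_cast
    rfl
  have h2 : (∑ u ∈ S, ∏ i, kerc K (g u i - w i)) = ∑ z ∈ Z, W z * (T z).re := by
    have := congrArg Complex.re h1
    rw [Complex.ofReal_re, Complex.re_sum] at this
    rw [this]
    apply Finset.sum_congr rfl
    intro z _
    rw [Complex.re_ofReal_mul]
  -- pointwise bounds
  have h3 : ∀ z ∈ Z, (if ∀ i, (z i).1 = (z i).2 then (S.card : ℝ) else 0) - η * S.card ≤ (T z).re := by
    intro z hz
    split_ifs with hd
    · have e1 : T z = S.card := by
        rw [hT]
        have : ∀ u ∈ S, ee (∑ i, (((z i).1 : ℝ) - (z i).2) * (g u i - w i)) = 1 := by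
          intro u _
          have : ∑ i, (((z i).1 : ℝ) - (z i).2) * (g u i - w i) = 0 := by
            apply Finset.sum_eq_zero
            intro i _
            rw [hd i]; ring
          rw [this, ee_zero]
        simp only [Finset.sum_congr rfl this]
        simp
      rw [e1, Complex.natCast_re]
      have : 0 ≤ η * S.card := by positivity
      linarith
    · set k : ι → ℤ := fun i => ((z i).1 : ℤ) - (z i).2 with hk
      have hkK : ∀ i, |k i| ≤ K := by
        intro i
        have h5 := (Fintype.mem_piFinset.mp hz) i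
        rw [Finset.mem_product, Finset.mem_range, Finset.mem_range] at h5
        simp only [hk]
        rw [abs_le]
        omega
      have e2 : ∀ u, ∑ i, (((z i).1 : ℝ) - (z i).2) * (g u i - w i)
          = ∑ i, (k i : ℝ) * (g u i - w i) := by
        intro u
        apply Finset.sum_congr rfl
        intro i _
        simp only [hk]; push_cast; ring
      have e3 : T z = ∑ u ∈ S, ee (∑ i, (k i : ℝ) * (g u i - w i)) := by
        rw [hT]; simp only [e2]
      rcases h k hkK with hg | hb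
      · have e4 : T z = S.card := by
          rw [e3, Finset.sum_congr rfl hg]
          simp
        rw [e4, Complex.natCast_re]
        have h5 : 0 ≤ η * S.card := by positivity
        have h6 : (0 : ℝ) ≤ S.card := Nat.cast_nonneg _
        linarith
      · rw [← e3] at hb
        have := Complex.abs_re_le_norm (T z)
        have := (abs_le.mp this).1
        linarith
  have h4 : ∑ z ∈ Z, W z = 1 := by
    rw [hW, hZ, ← Finset.prod_univ_sum (fun _ : ι => Finset.range (K + 1) ×ˢ Finset.range (K + 1))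
      (fun _ z => wt K z)]
    simp [sum_wt]
  have h5 : 1 / ((K : ℝ) + 1) ^ Fintype.card ι
      ≤ ∑ z ∈ Z, W z * (if ∀ i, (z i).1 = (z i).2 then (1 : ℝ) else 0) := by
    have e1 : ∀ z : ι → ℕ × ℕ, W z * (if ∀ i, (z i).1 = (z i).2 then (1 : ℝ) else 0)
        = ∏ i, (if (z i).1 = (z i).2 then wt K (z i) else 0) := by
      intro z
      split_ifs with hd
      · rw [mul_one, hW]
        apply Finset.prod_congr rfl
        intro i _
        rw [if_pos (hd i)]
      · push Not at hd
        obtain ⟨i, hi⟩ := hd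
        rw [mul_zero]
        exact (Finset.prod_eq_zero (Finset.mem_univ i) (if_neg hi)).symm
    simp only [e1]
    rw [hZ, ← Finset.prod_univ_sum (fun _ : ι => Finset.range (K + 1) ×ˢ Finset.range (K + 1))
      (fun _ z => if z.1 = z.2 then wt K z else 0)]
    rw [Finset.prod_const, Finset.card_univ, ← one_div_pow]
    exact pow_le_pow_left₀ (by positivity) (sum_wt_diag K) _
  rw [h2]
  calc (1 / ((K : ℝ) + 1) ^ Fintype.card ι - η) * S.card
      ≤ (∑ z ∈ Z, W z * (if ∀ i, (z i).1 = (z i).2 then (1 : ℝ) else 0) - η * ∑ z ∈ Z, W z)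
          * S.card := by
        rw [h4, mul_one]
        exact mul_le_mul_of_nonneg_right (by linarith) (Nat.cast_nonneg _)
    _ = ∑ z ∈ Z, W z * ((if ∀ i, (z i).1 = (z i).2 then (S.card : ℝ) else 0) - η * S.card) := by
        rw [sub_mul, Finset.sum_mul, mul_assoc, mul_comm (∑ z ∈ Z, W z), ← mul_assoc,
          Finset.mul_sum, ← Finset.sum_sub_distrib]
        apply Finset.sum_congr rfl
        intro z _
        split_ifs <;> ring
    _ ≤ ∑ z ∈ Z, W z * (T z).re :=
        Finset.sum_le_sum fun z hz => mul_le_mul_of_nonneg_left (h3 z hz) (hW0 z)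

/-- character sums over units, in terms of the denominator of the rational frequency -/
lemma norm_sum_units_den (N : ℕ) [NeZero N] (h : ℤ) :
    ‖∑ u : (ZMod N)ˣ, ee ((((u : ZMod N).val : ℝ) * h) / N)‖ * ((((h : ℚ) / N).den).totient : ℝ)
      ≤ (N.totient : ℝ) := by
  have hN0 : N ≠ 0 := NeZero.ne N
  set ρ : ℚ := (h : ℚ) / N with hρ
  have hdvd : ρ.den ∣ N := by
    have h1 := Rat.den_dvd h N
    have h2 : Rat.divInt h N = ρ := by rw [Rat.divInt_eq_div, hρ]; push_cast; rfl
    rw [h2] at h1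
    exact_mod_cast h1
  obtain ⟨g, hg⟩ := hdvd
  have hh : h = g * ρ.num := by
    have h1 : (h : ℚ) = ρ * N := by rw [hρ]; field_simp
    have h2 : ρ * ρ.den = ρ.num := Rat.mul_den_eq_num ρ
    have h3 : (h : ℚ) = ((g * ρ.num : ℤ) : ℚ) := by
      rw [h1, hg]
      push_cast
      rw [← mul_assoc, h2]
      ring
    exact_mod_cast h3
  exact norm_sum_units_general N h g ρ.den (by rw [mul_comm]; exact hg) ρ.num hh
    (Int.isCoprime_iff_gcd_eq_one.mpr (by
      have := ρ.reduced
      rw [Nat.Coprime] at this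
      rw [Int.gcd]; simpa using this))

/-- units congruent to one modulo `m` -/
def unitsOne (N m : ℕ) [NeZero N] : Finset (ZMod N)ˣ :=
  Finset.univ.filter (fun u => (m : ℤ) ∣ ((u : ZMod N).val : ℤ) - 1)

lemma card_unitsOne {N m : ℕ} [NeZero N] (hm : 0 < m) (hmN : m ∣ N) :
    (N.totient : ℝ) ≤ m * (unitsOne N m).card := by
  classical
  have : NeZero m := ⟨hm.ne'⟩
  set π := ZMod.unitsMap hmN with hπ
  have hsurj : Function.Surjective π := ZMod.unitsMap_surjective hmN
  have hone : unitsOne N m = Finset.univ.filter (fun u : (ZMod N)ˣ => π u = 1) := by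
    ext u
    simp only [unitsOne, Finset.mem_filter, Finset.mem_univ, true_and]
    rw [← ZMod.intCast_zmod_eq_zero_iff_dvd, ← Units.val_inj, hπ, ZMod.unitsMap_val]
    push_cast
    rw [ZMod.natCast_val, sub_eq_zero]
  have hfib : ∀ v : (ZMod m)ˣ,
      (Finset.univ.filter (fun u : (ZMod N)ˣ => π u = v)).card = (unitsOne N m).card := by
    intro v
    rw [hone]
    exact MonoidHom.card_fiber_eq_of_mem_range π (hsurj v) (hsurj 1)
  have h1 : (Finset.univ : Finset (ZMod N)ˣ).card = ∑ v : (ZMod m)ˣ, (unitsOne N m).card := by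
    rw [Finset.card_eq_sum_card_fiberwise (f := π) (t := Finset.univ) (fun _ _ => Finset.mem_univ _)]
    exact Finset.sum_congr rfl fun v _ => hfib v
  rw [Finset.card_univ, ZMod.card_units_eq_totient, Finset.sum_const, Finset.card_univ,
    ZMod.card_units_eq_totient, smul_eq_mul] at h1
  rw [h1]
  push_cast
  apply mul_le_mul_of_nonneg_right _ (Nat.cast_nonneg _)
  exact_mod_cast Nat.totient_le m

lemma indicator_sum {m : ℕ} (hm : 0 < m) (t : ℤ) :
    (∑ j ∈ Finset.range m, ee ((j : ℝ) * t / m)) / m = if (m : ℤ) ∣ t then (1 : ℂ) else 0 := by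
  have hmr : (m : ℝ) ≠ 0 := Nat.cast_ne_zero.mpr hm.ne'
  have hmc : (m : ℂ) ≠ 0 := Nat.cast_ne_zero.mpr hm.ne'
  split_ifs with h
  · obtain ⟨s, rfl⟩ := h
    have : ∀ j ∈ Finset.range m, ee ((j : ℝ) * ((m * s : ℤ) : ℝ) / m) = 1 := by
      intro j _
      rw [← ee_int (j * s)]
      congr 1
      push_cast
      field_simp
    rw [Finset.sum_congr rfl this]
    simp [hmc]
  · have h1 : ∀ j ∈ Finset.range m, ee ((j : ℝ) * t / m) = ee ((t : ℝ) / m) ^ j := by
      intro j _
      unfold ee
      rw [← Complex.exp_nat_mul]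
      congr 1
      push_cast
      ring
    have h2 : ee ((t : ℝ) / m) ≠ 1 := by
      intro h3
      unfold ee at h3
      rw [Complex.exp_eq_one_iff] at h3
      obtain ⟨s, hs⟩ := h3
      apply h
      have h4 : ((t : ℝ) / m : ℂ) = s := by
        have hpi : (2 * Real.pi * Complex.I : ℂ) ≠ 0 := Complex.two_pi_I_ne_zero
        apply mul_left_cancel₀ hpi
        rw [mul_comm (2 * Real.pi * Complex.I) (s : ℂ), ← hs]
        push_cast
        ring
      refine ⟨s, ?_⟩
      have h5 : (t : ℂ) = m * s := by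
        rw [← h4]
        push_cast
        field_simp
      exact_mod_cast h5
    rw [Finset.sum_congr rfl h1, geom_sum_eq h2]
    have h6 : ee ((t : ℝ) / m) ^ m = 1 := by
      rw [← ee_int t]
      unfold ee
      rw [← Complex.exp_nat_mul]
      congr 1
      push_cast
      field_simp
    rw [h6, sub_self, zero_div, zero_div]

/-- character sums over units congruent to one modulo `m` -/
lemma restricted_sum {N m : ℕ} [NeZero N] (hm : 0 < m) (hmN : m ∣ N) (h : ℤ) {B : ℕ}
    (hB : (2 * B).factorial * m < ((h : ℚ) / N).den) :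
    ‖∑ u ∈ unitsOne N m, ee ((((u : ZMod N).val : ℝ) * h) / N)‖ * B ≤ (N.totient : ℝ) := by
  have hmr : (m : ℝ) ≠ 0 := Nat.cast_ne_zero.mpr hm.ne'
  have hmc : (m : ℂ) ≠ 0 := Nat.cast_ne_zero.mpr hm.ne'
  have hN0 : N ≠ 0 := NeZero.ne N
  have hNr : (N : ℝ) ≠ 0 := Nat.cast_ne_zero.mpr hN0
  obtain ⟨l, hl⟩ := hmN
  have hl0 : l ≠ 0 := by rintro rfl; simp at hl; exact hN0 hl
  have h1 : ∑ u ∈ unitsOne N m, ee ((((u : ZMod N).val : ℝ) * h) / N)
      = (∑ j ∈ Finset.range m, ee (-(j / m : ℝ)) * ∑ u : (ZMod N)ˣ,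
          ee ((((u : ZMod N).val : ℝ) * ((h + j * l : ℤ) : ℝ)) / N)) / m := by
    have e1 : ∑ u ∈ unitsOne N m, ee ((((u : ZMod N).val : ℝ) * h) / N)
        = ∑ u : (ZMod N)ˣ, ee ((((u : ZMod N).val : ℝ) * h) / N) *
          ((∑ j ∈ Finset.range m, ee ((j : ℝ) * ((((u : ZMod N).val : ℤ) - 1 : ℤ) : ℝ) / m)) / m) := by
      simp only [indicator_sum hm]
      rw [unitsOne, Finset.sum_filter]
      apply Finset.sum_congr rfl
      intro u _
      split_ifs <;> simp
    rw [e1]
    simp only [Finset.mul_sum, Finset.sum_div]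
    rw [Finset.sum_comm]
    apply Finset.sum_congr rfl
    intro j _
    apply Finset.sum_congr rfl
    intro u _
    rw [mul_div_assoc']
    congr 1
    rw [← ee_add, ← ee_add]
    congr 1
    have hNml : (N : ℝ) = m * l := by exact_mod_cast hl
    have hlr : (l : ℝ) ≠ 0 := Nat.cast_ne_zero.mpr hl0
    rw [hNml]
    push_cast
    field_simp
    ring
  have h2 : ∀ j ∈ Finset.range m, ‖∑ u : (ZMod N)ˣ,
          ee ((((u : ZMod N).val : ℝ) * ((h + j * l : ℤ) : ℝ)) / N)‖ * B ≤ N.totient := by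
    intro j _
    have h3 := norm_sum_units_den N (h + j * l)
    refine le_trans ?_ h3
    apply mul_le_mul_of_nonneg_left _ (norm_nonneg _)
    have h4 : ((h : ℚ) / N).den ≤ (((h + j * l : ℤ) : ℚ) / N).den * m := by
      have e2 : (h : ℚ) / N = ((h + j * l : ℤ) : ℚ) / N + (-(j : ℤ) : ℤ) / (m : ℤ) := by
        have hlq : (l : ℚ) ≠ 0 := Nat.cast_ne_zero.mpr hl0
        have hmq : (m : ℚ) ≠ 0 := Nat.cast_ne_zero.mpr hm.ne'
        have hNml : (N : ℚ) = m * l := by exact_mod_cast hl
        rw [hNml]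
        push_cast
        field_simp
        ring
      rw [e2]
      have h5 := Rat.add_den_dvd (((h + j * l : ℤ) : ℚ) / N) ((-(j : ℤ) : ℤ) / (m : ℤ))
      have h6 : ((((-(j : ℤ) : ℤ) : ℚ) / (m : ℤ)).den : ℤ) ∣ (m : ℤ) := by
        have := Rat.den_dvd (-(j : ℤ)) (m : ℤ)
        rw [Rat.divInt_eq_div] at this
        exact this
      have h7 : (((-(j : ℤ) : ℤ) : ℚ) / (m : ℤ)).den ∣ m := by exact_mod_cast h6
      exact Nat.le_of_dvd (Nat.mul_pos (Rat.den_pos _) hm) (h5.trans (Nat.mul_dvd_mul_left _ h7))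
    have h5 : (2 * B).factorial < (((h + j * l : ℤ) : ℚ) / N).den :=
      Nat.lt_of_mul_lt_mul_right (hB.trans_le h4)
    exact_mod_cast totient_large B _ h5
  have hmpos : (0 : ℝ) < m := by exact_mod_cast hm
  rw [h1, norm_div, Complex.norm_natCast, div_mul_eq_mul_div, div_le_iff₀ hmpos]
  calc ‖∑ j ∈ Finset.range m, ee (-(j / m : ℝ)) * ∑ u : (ZMod N)ˣ,
          ee ((((u : ZMod N).val : ℝ) * ((h + j * l : ℤ) : ℝ)) / N)‖ * B
      ≤ (∑ j ∈ Finset.range m, ‖∑ u : (ZMod N)ˣ,
          ee ((((u : ZMod N).val : ℝ) * ((h + j * l : ℤ) : ℝ)) / N)‖) * B := by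
        apply mul_le_mul_of_nonneg_right _ (Nat.cast_nonneg _)
        refine (norm_sum_le _ _).trans (Finset.sum_le_sum fun j _ => ?_)
        rw [norm_mul, norm_ee, one_mul]
    _ = ∑ j ∈ Finset.range m, ‖∑ u : (ZMod N)ˣ,
          ee ((((u : ZMod N).val : ℝ) * ((h + j * l : ℤ) : ℝ)) / N)‖ * B := by rw [Finset.sum_mul]
    _ ≤ ∑ j ∈ Finset.range m, (N.totient : ℝ) := Finset.sum_le_sum h2
    _ = N.totient * m := by simp [mul_comm]

end Pool.Agent.Work.MP_5e5ff1_ag

end

section

/-! Saturation of submodules of `F[X]^ι`. -/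

open Polynomial Matrix

set_option linter.unusedSectionVars false

namespace Pool.Agent.Work.MP_5e5ff1_ag.T

variable {F : Type*} [Field F] {ι : Type*} [Fintype ι] [DecidableEq ι]

lemma map_eval_mul {m n o : Type*} [Fintype n] (a : F) (A : Matrix m n F[X]) (B : Matrix n o F[X]) :
    (A * B).map (eval a) = A.map (eval a) * B.map (eval a) := by
  ext1 i j
  simp only [map_apply, mul_apply, eval_finsetSum, eval_mul]

lemma map_eval_one {m : Type*} [DecidableEq m] (a : F) :
    (1 : Matrix m m F[X]).map (eval a) = 1 := by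
  ext1 i j
  rw [map_apply, Matrix.one_apply, Matrix.one_apply]
  split_ifs <;> simp

lemma eval_det_submatrix {k : ℕ} (a : F) (W : Matrix ι (Fin k) F[X]) (J : Fin k → ι) :
    (W.submatrix J id).det.eval a = ((W.map (eval a)).submatrix J id).det := by
  exact RingHom.map_det (evalRingHom a) (W.submatrix J id)

lemma eval_det {m : Type*} [Fintype m] [DecidableEq m] (a : F) (A : Matrix m m F[X]) :
    A.det.eval a = (A.map (eval a)).det := by
  have := RingHom.map_det (evalRingHom a) A
  simpa using this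

lemma IsSub.fullRank {k : ℕ} {W : Matrix ι (Fin k) F[X]} (h : IsSub W) : FullRank W := by
  obtain ⟨V, hV⟩ := h
  exact fullRank_of_leftInv hV

lemma IsSub.fullRank_eval {k : ℕ} {W : Matrix ι (Fin k) F[X]} (h : IsSub W) (a : F) :
    FullRank (W.map (eval a)) := by
  obtain ⟨V, hV⟩ := h
  apply fullRank_of_leftInv (V := V.map (eval a))
  rw [← map_eval_mul, hV, map_eval_one]

lemma isSub_of_minors [IsAlgClosed F] {k : ℕ} {W : Matrix ι (Fin k) F[X]}
    (h : ∀ a : F, FullRank (W.map (eval a))) : IsSub W := by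
  classical
  have h1 : (1 : F[X]) ∈ Ideal.span (Set.range fun J : Fin k → ι => (W.submatrix J id).det) := by
    obtain ⟨g, hg⟩ := (inferInstance : (Ideal.span
      (Set.range fun J : Fin k → ι => (W.submatrix J id).det)).IsPrincipal)
    have hdvd : ∀ J, g ∣ (W.submatrix J id).det := by
      intro J
      rw [← Ideal.mem_span_singleton, ← Ideal.submodule_span_eq, ← hg]
      exact Ideal.subset_span ⟨J, rfl⟩
    have hunit : IsUnit g := by
      by_contra hnu
      obtain ⟨a, ha⟩ : ∃ a, IsRoot g a := by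
        by_cases h0 : g = 0
        · exact ⟨0, by rw [h0]; simp⟩
        · apply IsAlgClosed.exists_root
          intro hd
          exact hnu (isUnit_iff_degree_eq_zero.mpr hd)
      obtain ⟨J, hJ⟩ := h a
      apply hJ
      rw [← eval_det_submatrix]
      obtain ⟨q, hq⟩ := hdvd J
      rw [hq, eval_mul, ha.eq_zero, zero_mul]
    rw [hg, Ideal.submodule_span_eq, Ideal.span_singleton_eq_top.mpr hunit]
    exact Submodule.mem_top
  rw [Ideal.mem_span_range_iff_exists_fun] at h1
  obtain ⟨c, hc⟩ := h1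
  refine ⟨∑ J : Fin k → ι, c J • (adjugate (W.submatrix J id)
    * (1 : Matrix ι ι F[X]).submatrix J id), ?_⟩
  rw [Matrix.sum_mul]
  have h2 : ∀ J : Fin k → ι, (c J • (adjugate (W.submatrix J id)
      * (1 : Matrix ι ι F[X]).submatrix J id)) * W
      = (c J * (W.submatrix J id).det) • (1 : Matrix (Fin k) (Fin k) F[X]) := by
    intro J
    have h3 : (1 : Matrix ι ι F[X]).submatrix J id * W = W.submatrix J id := by
      rw [← submatrix_mul_left, Matrix.one_mul]
    rw [Matrix.smul_mul, Matrix.mul_assoc, h3, adjugate_mul, smul_smul]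
  simp only [h2]
  rw [← Finset.sum_smul, hc, one_smul]

/-- saturation -/
theorem saturate [IsAlgClosed F] {k : ℕ} {W₁ : Matrix ι (Fin k) F[X]} (h : FullRank W₁) :
    ∃ (W : Matrix ι (Fin k) F[X]) (N : Matrix (Fin k) (Fin k) F[X]), IsSub W ∧ W₁ = W * N ∧
      N.det ≠ 0 := by
  classical
  obtain ⟨I, hI⟩ := h
  have hminor : ∀ (W : Matrix ι (Fin k) F[X]) (N : Matrix (Fin k) (Fin k) F[X]), W₁ = W * N →
      (W₁.submatrix I id).det = (W.submatrix I id).det * N.det := by
    rintro W N rfl
    rw [submatrix_mul_left, det_mul]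
  obtain ⟨⟨W, N⟩, hWN, hmax⟩ := exists_max_nat
    (fun x : Matrix ι (Fin k) F[X] × Matrix (Fin k) (Fin k) F[X] => W₁ = x.1 * x.2)
    (fun x => x.2.det.natDegree) (W₁.submatrix I id).det.natDegree
    (by
      rintro ⟨W, N⟩ hWN
      simp only at hWN ⊢
      exact natDegree_le_of_dvd ⟨(W.submatrix I id).det, by rw [hminor W N hWN]; ring⟩ hI)
    ⟨(W₁, 1), by simp⟩
  simp only at hWN hmax
  have hN : N.det ≠ 0 := by
    intro h0
    apply hI
    rw [hminor W N hWN, h0, mul_zero]
  refine ⟨W, N, ?_, hWN, hN⟩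
  apply isSub_of_minors
  intro a
  by_contra hcon
  obtain ⟨c, hc, hWc⟩ := exists_relation hcon
  obtain ⟨J, hJ⟩ := Function.ne_iff.mp hc
  simp only [Pi.zero_apply] at hJ
  set E : Matrix (Fin k) (Fin k) F := (1 : Matrix (Fin k) (Fin k) F).updateCol J
    (fun i => ∑ j, c j • (1 : Matrix (Fin k) (Fin k) F) i j) with hE
  have hEdet : E.det = c J := by
    rw [hE, det_updateCol_sum, det_one]; simp
  have hEu : IsUnit E.det := isUnit_iff_ne_zero.mpr (by rw [hEdet]; exact hJ)
  have hEJ : ∀ i, E i J = c i := by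
    intro i
    rw [hE, updateCol_self]
    simp [Matrix.one_apply]
  have hEne : ∀ i j, j ≠ J → E i j = (1 : Matrix (Fin k) (Fin k) F) i j := by
    intro i j hj
    rw [hE, updateCol_ne hj]
  -- the new column
  have hcol : ∀ i, (X - C a) ∣ (W * E.map C) i J := by
    intro i
    rw [dvd_iff_isRoot, IsRoot.def, mul_apply, eval_finsetSum]
    have h1 := congrFun hWc i
    simp only [mulVec, dotProduct, map_apply, Pi.zero_apply] at h1
    rw [← h1]
    apply Finset.sum_congr rfl
    intro l _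
    rw [map_apply, eval_mul, eval_C, hEJ]
  choose q hq using hcol
  set W' : Matrix ι (Fin k) F[X] := (W * E.map C).updateCol J q with hW'
  set D : Matrix (Fin k) (Fin k) F[X] := diagonal (Function.update (fun _ => 1) J (X - C a)) with hD
  have h1 : W * E.map C = W' * D := by
    ext1 i j
    rw [hD, mul_diagonal]
    by_cases hj : j = J
    · subst hj
      rw [hW', updateCol_self, Function.update_self, hq, mul_comm]
    · rw [hW', updateCol_ne hj, Function.update_of_ne hj, mul_one]
  have h2 : W = W' * (D * E⁻¹.map C) := by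
    rw [← Matrix.mul_assoc, ← h1, Matrix.mul_assoc, ← Matrix.map_mul, Matrix.mul_nonsing_inv E hEu]
    have : (1 : Matrix (Fin k) (Fin k) F).map (C : F → F[X]) = 1 := by
      ext1 i j
      rw [map_apply, Matrix.one_apply, Matrix.one_apply]
      split_ifs <;> simp
    rw [this, Matrix.mul_one]
  have h3 := hmax (W', D * E⁻¹.map C * N) (by
    simp only
    rw [← Matrix.mul_assoc, ← h2]
    exact hWN)
  simp only at h3
  have hEi : (E⁻¹).det ≠ 0 := by
    rw [det_nonsing_inv]; simpa [hEdet] using hJ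
  have hDdet : D.det = X - C a := by
    rw [hD, det_diagonal, Finset.prod_update_of_mem (Finset.mem_univ J)]
    simp
  have h4 : (D * E⁻¹.map C * N).det = C (E⁻¹).det * ((X - C a) * N.det) := by
    rw [det_mul, det_mul, det_map_C, hDdet]; ring
  rw [h4, natDegree_C_mul hEi, natDegree_mul (X_sub_C_ne_zero a) hN, natDegree_X_sub_C] at h3
  omega

end Pool.Agent.Work.MP_5e5ff1_ag.T

end

section

/-! The smallest subbundle containing a vector. -/

open Polynomial Matrix

set_option linter.unusedSectionVars false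

namespace Pool.Agent.Work.MP_5e5ff1_ag.A

open Pool.Agent.Work.MP_5e5ff1_ag.T

variable {E : Type*} [Field E] {ι : Type*} [Fintype ι] [DecidableEq ι]

/-- the vector `s` is a combination of `k` vectors with rational entries -/
def Rep (i : RatFunc ℂ →+* E) (s : ι → E) (k : ℕ) : Prop :=
  ∃ (W : Matrix ι (Fin k) (RatFunc ℂ)) (y : Fin k → E), ∀ f, s f = ∑ l, i (W f l) * y l

lemma sum_succAbove {k : ℕ} (l₀ : Fin (k + 1)) (g : Fin (k + 1) → E) :
    ∑ l, g l = g l₀ + ∑ l, g (l₀.succAbove l) := Fin.sum_univ_succAbove g l₀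

/-- in a minimal representation the coefficients `y` are independent -/
lemma indep_of_min {i : RatFunc ℂ →+* E} {s : ι → E} {k : ℕ}
    (hmin : ∀ k' < k, ¬ Rep i s k') {W : Matrix ι (Fin k) (RatFunc ℂ)} {y : Fin k → E}
    (h : ∀ f, s f = ∑ l, i (W f l) * y l) {c : Fin k → RatFunc ℂ}
    (hc : ∑ l, i (c l) * y l = 0) : c = 0 := by
  by_contra hne
  obtain ⟨l₀, hl₀⟩ := Function.ne_iff.mp hne
  simp only [Pi.zero_apply] at hl₀
  rcases k with _ | k
  · exact l₀.elim0
  apply hmin k (Nat.lt_succ_self k)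
  have hi : i (c l₀) ≠ 0 := fun h => hl₀ ((map_eq_zero i).mp h)
  refine ⟨Matrix.of fun f l => W f (l₀.succAbove l) * c l₀ - W f l₀ * c (l₀.succAbove l),
    fun l => (i (c l₀))⁻¹ * y (l₀.succAbove l), fun f => ?_⟩
  rw [sum_succAbove l₀] at hc
  have h1 : y l₀ = - ∑ l, i (c l₀)⁻¹ * (i (c (l₀.succAbove l)) * y (l₀.succAbove l)) := by
    rw [← Finset.mul_sum, map_inv₀]
    field_simp
    linear_combination hc
  rw [h f, sum_succAbove l₀, h1, mul_neg, Finset.mul_sum, neg_add_eq_sub,
    ← Finset.sum_sub_distrib]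
  apply Finset.sum_congr rfl
  intro l _
  simp only [of_apply, map_sub, map_mul, map_inv₀]
  field_simp

/-- in a minimal representation the vectors are independent -/
lemma fullRank_of_min {i : RatFunc ℂ →+* E} {s : ι → E} {k : ℕ}
    (hmin : ∀ k' < k, ¬ Rep i s k') {W : Matrix ι (Fin k) (RatFunc ℂ)} {y : Fin k → E}
    (h : ∀ f, s f = ∑ l, i (W f l) * y l) : FullRank W := by
  by_contra hcon
  obtain ⟨c, hc, hWc⟩ := exists_relation hcon
  obtain ⟨l₀, hl₀⟩ := Function.ne_iff.mp hc
  simp only [Pi.zero_apply] at hl₀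
  rcases k with _ | k
  · exact l₀.elim0
  apply hmin k (Nat.lt_succ_self k)
  have hi : i (c l₀) ≠ 0 := fun h => hl₀ ((map_eq_zero i).mp h)
  refine ⟨W.submatrix id l₀.succAbove,
    fun l => y (l₀.succAbove l) - (i (c l₀))⁻¹ * i (c (l₀.succAbove l)) * y l₀, fun f => ?_⟩
  have h1 : i (W f l₀) = - ∑ l, i (W f (l₀.succAbove l)) * ((i (c l₀))⁻¹ *
      i (c (l₀.succAbove l))) := by
    have h2 := congrArg i (congrFun hWc f)
    simp only [mulVec, dotProduct, Pi.zero_apply, map_sum, map_mul, map_zero] at h2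
    rw [sum_succAbove l₀] at h2
    have h3 : ∑ l, i (W f (l₀.succAbove l)) * ((i (c l₀))⁻¹ * i (c (l₀.succAbove l)))
        = (i (c l₀))⁻¹ * ∑ l, i (W f (l₀.succAbove l)) * i (c (l₀.succAbove l)) := by
      rw [Finset.mul_sum]
      apply Finset.sum_congr rfl
      intro l _
      ring
    rw [h3]
    field_simp
    linear_combination h2
  rw [h f, sum_succAbove l₀, h1, neg_mul, Finset.sum_mul, neg_add_eq_sub,
    ← Finset.sum_sub_distrib]
  apply Finset.sum_congr rfl
  intro l _
  simp only [submatrix_apply, id_eq]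
  ring

/-- the hull -/
theorem exists_hull (i : RatFunc ℂ →+* E) (s : ι → E) {D : ℕ} (hD : Rep i s D) :
    ∃ k ≤ D, ∃ (W : Matrix ι (Fin k) ℂ[X]) (y : Fin k → E), IsSub W ∧
      (∀ f, s f = ∑ l, i (algebraMap ℂ[X] (RatFunc ℂ) (W f l)) * y l) ∧
      ∀ c : Fin k → ℂ[X], ∑ l, i (algebraMap ℂ[X] (RatFunc ℂ) (c l)) * y l = 0 → c = 0 := by
  classical
  have hex : ∃ k, Rep i s k := ⟨D, hD⟩
  set k := Nat.find hex with hk
  have hmin : ∀ k' < k, ¬ Rep i s k' := fun k' h => Nat.find_min hex h
  obtain ⟨W, y, hWy⟩ := Nat.find_spec hex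
  have hfull := fullRank_of_min hmin hWy
  have hind : ∀ c : Fin k → RatFunc ℂ, ∑ l, i (c l) * y l = 0 → c = 0 :=
    fun c hc => indep_of_min hmin hWy hc
  have hinj : Function.Injective (algebraMap ℂ[X] (RatFunc ℂ)) := IsFractionRing.injective _ _
  -- clear denominators
  obtain ⟨g, hg⟩ := IsLocalization.exist_integer_multiples_of_finite (nonZeroDivisors ℂ[X])
    (fun x : ι × Fin k => W x.1 x.2)
  have hg0 : (g : ℂ[X]) ≠ 0 := nonZeroDivisors.ne_zero g.2
  have hG0 : algebraMap ℂ[X] (RatFunc ℂ) (g : ℂ[X]) ≠ 0 := by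
    rw [Ne, map_eq_zero_iff _ hinj]; exact hg0
  choose w hw using hg
  set W₁ : Matrix ι (Fin k) ℂ[X] := Matrix.of fun f l => w (f, l) with hW₁
  have hW₁' : W₁.map (algebraMap ℂ[X] (RatFunc ℂ))
      = algebraMap ℂ[X] (RatFunc ℂ) (g : ℂ[X]) • W := by
    ext1 f l
    rw [map_apply, hW₁, of_apply, hw (f, l), Matrix.smul_apply, smul_eq_mul, Algebra.smul_def]
  have hfull₁ : FullRank W₁ := by
    obtain ⟨J, hJ⟩ := hfull
    refine ⟨J, fun h0 => ?_⟩
    have h1 := congrArg (algebraMap ℂ[X] (RatFunc ℂ)) h0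
    rw [RingHom.map_det, map_zero] at h1
    have h2 : (algebraMap ℂ[X] (RatFunc ℂ)).mapMatrix (W₁.submatrix J id)
        = algebraMap ℂ[X] (RatFunc ℂ) (g : ℂ[X]) • W.submatrix J id := by
      change (W₁.map (algebraMap ℂ[X] (RatFunc ℂ))).submatrix J id = _
      rw [hW₁']
      rfl
    rw [h2, det_smul] at h1
    exact mul_ne_zero (pow_ne_zero _ hG0) hJ h1
  obtain ⟨W₂, N, hsub, hWN, hN⟩ := saturate hfull₁
  refine ⟨k, Nat.find_min' hex hD, W₂,
    fun l => ∑ m, i (algebraMap ℂ[X] (RatFunc ℂ) (N l m))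
      * ((i (algebraMap ℂ[X] (RatFunc ℂ) (g : ℂ[X])))⁻¹ * y m), hsub, ?_, ?_⟩
  · intro f
    have hiG : i (algebraMap ℂ[X] (RatFunc ℂ) (g : ℂ[X])) ≠ 0 :=
      fun h => hG0 ((map_eq_zero i).mp h)
    have h1 : ∀ m, i (W f m) = (i (algebraMap ℂ[X] (RatFunc ℂ) (g : ℂ[X])))⁻¹
        * ∑ l, i (algebraMap ℂ[X] (RatFunc ℂ) (W₂ f l))
          * i (algebraMap ℂ[X] (RatFunc ℂ) (N l m)) := by
      intro m
      have h2 := congrFun (congrFun hW₁' f) m
      rw [hWN, map_apply, mul_apply, Matrix.smul_apply, smul_eq_mul] at h2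
      have h3 := congrArg i h2
      simp only [map_sum, map_mul] at h3
      rw [h3, inv_mul_cancel_left₀ hiG]
    rw [hWy f]
    simp only [h1, Finset.mul_sum, Finset.sum_mul]
    rw [Finset.sum_comm]
    apply Finset.sum_congr rfl
    intro l _
    apply Finset.sum_congr rfl
    intro m _
    ring
  · intro c hc
    have h1 : (fun m => ∑ l, algebraMap ℂ[X] (RatFunc ℂ) (c l)
        * algebraMap ℂ[X] (RatFunc ℂ) (N l m)
        * (algebraMap ℂ[X] (RatFunc ℂ) (g : ℂ[X]))⁻¹) = 0 := by
      apply hind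
      rw [← hc]
      simp only [map_sum, map_mul, map_inv₀, Finset.mul_sum, Finset.sum_mul]
      rw [Finset.sum_comm]
      apply Finset.sum_congr rfl
      intro l _
      apply Finset.sum_congr rfl
      intro m _
      ring
    have h2 : c ᵥ* N = 0 := by
      funext m
      have h3 := congrFun h1 m
      simp only [Pi.zero_apply] at h3
      rw [← Finset.sum_mul] at h3
      have h4 := (mul_eq_zero.mp h3).resolve_right (inv_ne_zero hG0)
      apply hinj
      rw [Pi.zero_apply, map_zero, ← h4]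
      simp only [vecMul, dotProduct, map_sum, map_mul]
    have h3 : c ᵥ* (N * N.adjugate) = 0 := by rw [← vecMul_vecMul, h2, zero_vecMul]
    rw [mul_adjugate] at h3
    funext l
    have h4 := congrFun h3 l
    rw [vecMul_smul, vecMul_one, Pi.smul_apply, Pi.zero_apply, smul_eq_mul] at h4
    exact (mul_eq_zero.mp h4).resolve_left hN

end Pool.Agent.Work.MP_5e5ff1_ag.A

end

section

/-! The exponent inequalities over a number field: one prime, and the limit over infinitely many
primes in a residue class. -/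

open Polynomial Matrix NumberField Filter Topology

namespace Pool.Agent.Work.MP_5e5ff1_ag

section primes
variable {K : Type*} [Field K] [NumberField K]

lemma ne_bot_of_maximal {P : Ideal (𝓞 K)} (hP : P.IsMaximal) : P ≠ ⊥ :=
  Ring.ne_bot_of_isMaximal_of_not_isField hP (RingOfIntegers.not_isField K)

lemma prime_ringChar {P : Ideal (𝓞 K)} (hP : P.IsMaximal) : (ringChar (𝓞 K ⧸ P)).Prime := by
  have h0 := ne_bot_of_maximal hP
  have : Finite (𝓞 K ⧸ P) := by
    rw [← Ideal.absNorm_ne_zero_iff]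
    exact fun h => h0 (Ideal.absNorm_eq_zero_iff.mp h)
  have := hP.isPrime
  exact CharP.char_is_prime (𝓞 K ⧸ P) _

lemma finite_mem {d : 𝓞 K} (hd : d ≠ 0) : {P : Ideal (𝓞 K) | P.IsMaximal ∧ d ∈ P}.Finite := by
  classical
  have h1 : (Ideal.span {d} : Ideal (𝓞 K)) ≠ 0 := by
    rw [Ne, Ideal.zero_eq_bot, Ideal.span_singleton_eq_bot]
    exact hd
  have := UniqueFactorizationMonoid.fintypeSubtypeDvd (Ideal.span {d} : Ideal (𝓞 K)) h1
  have h2 : {P : Ideal (𝓞 K) | P ∣ Ideal.span {d}}.Finite := by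
    rw [← Set.finite_coe_iff]
    exact Finite.of_fintype {x // x ∣ (Ideal.span {d} : Ideal (𝓞 K))}
  apply h2.subset
  intro P hP
  exact Ideal.dvd_span_singleton.mpr hP.2

lemma finite_char (B : ℕ) :
    {P : Ideal (𝓞 K) | P.IsMaximal ∧ ringChar (𝓞 K ⧸ P) ≤ B}.Finite := by
  have h1 : {P : Ideal (𝓞 K) | P.IsMaximal ∧ ringChar (𝓞 K ⧸ P) ≤ B} ⊆
      ⋃ p ∈ {p : ℕ | p ≤ B ∧ p ≠ 0}, {P : Ideal (𝓞 K) | P.IsMaximal ∧ (p : 𝓞 K) ∈ P} := by
    intro P hP
    simp only [Set.mem_iUnion, Set.mem_ofPred_eq]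
    refine ⟨ringChar (𝓞 K ⧸ P), ⟨hP.2, (prime_ringChar hP.1).ne_zero⟩, hP.1, ?_⟩
    rw [← Ideal.Quotient.eq_zero_iff_mem, map_natCast]
    exact ringChar.Nat.cast_ringChar
  refine Set.Finite.subset (Set.Finite.biUnion ?_ ?_) h1
  · exact (Set.finite_le_nat B).subset (fun p hp => hp.1)
  · intro p hp
    exact finite_mem (Nat.cast_ne_zero.mpr hp.2)

end primes

variable {K : Type*} [Field K] [NumberField K] {r : ℕ}

omit [NumberField K] in
lemma map_shift {F : Type*} [Field F] (φ : 𝓞 K →+* F) (N n : ℕ) (e : Matrix (Fin r) (Fin r) (𝓞 K))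
    (z : ℤ) (v : Fin r → F) :
    ((N : 𝓞 K) • e - ((n : 𝓞 K) * ((z : ℤ) : 𝓞 K)) • (1 : Matrix (Fin r) (Fin r) (𝓞 K))).map φ *ᵥ v
      = (N : F) • (e.map φ *ᵥ v) - ((n : F) * (z : F)) • v := by
  have h1 : ((N : 𝓞 K) • e - ((n : 𝓞 K) * ((z : ℤ) : 𝓞 K)) • (1 : Matrix (Fin r) (Fin r) (𝓞 K))).map φ
      = (N : F) • e.map φ - ((n : F) * (z : F)) • 1 := by
    ext1 i j
    by_cases hij : i = j
    · simp [hij]
    · simp [hij]
  rw [h1, sub_mulVec, smul_mulVec, smul_mulVec, one_mulVec]

/-- the kernel condition at almost all primes -/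
lemma kernel_reduction {n N : ℕ} (hn0 : 0 < n) (hN0 : 0 < N)
    {b c : Matrix (Fin r) (Fin r) (𝓞 K)} {s t : Fin r → ℤ}
    (hb : ((n : K)⁻¹ • b.map (algebraMap (𝓞 K) K)).charpoly = ∏ j, (X - C ((s j : K) / (N : K))))
    (hc : ((n : K)⁻¹ • c.map (algebraMap (𝓞 K) K)).charpoly = ∏ j, (X - C ((t j : K) / (N : K))))
    (hnc : NoCommonEigenvector (b.map (algebraMap (𝓞 K) K)) (c.map (algebraMap (𝓞 K) K))) :
    ∃ d : 𝓞 K, d ≠ 0 ∧ ∀ (k : Type _) [Field k] (φ : 𝓞 K →+* k), φ d ≠ 0 →
      ∀ (x y : k) (v : Fin r → k), ((n : k)⁻¹ • b.map φ) *ᵥ v = x • v →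
        ((n : k)⁻¹ • c.map φ) *ᵥ v = y • v → v = 0 := by
  classical
  have hnK : (n : K) ≠ 0 := Nat.cast_ne_zero.mpr hn0.ne'
  have hNK : (N : K) ≠ 0 := Nat.cast_ne_zero.mpr hN0.ne'
  -- the integral matrices
  set M1 : Fin r → Matrix (Fin r) (Fin r) (𝓞 K) := fun i =>
    (N : 𝓞 K) • b - ((n : 𝓞 K) * ((s i : ℤ) : 𝓞 K)) • 1 with hM1
  set M2 : Fin r → Matrix (Fin r) (Fin r) (𝓞 K) := fun i =>
    (N : 𝓞 K) • c - ((n : 𝓞 K) * ((t i : ℤ) : 𝓞 K)) • 1 with hM2
  have hex : ∀ i j, ∃ d : 𝓞 K, d ≠ 0 ∧ ∃ U V : Matrix (Fin r) (Fin r) (𝓞 K),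
      U * M1 i + V * M2 j = d • 1 := by
    intro i j
    apply left_inverse
    intro v h1 h2
    by_contra hv
    simp only [hM1] at h1
    simp only [hM2] at h2
    rw [map_shift] at h1 h2
    refine hnc v hv (((n : K) * (s i : K)) / N) (((n : K) * (t j : K)) / N) ⟨?_, ?_⟩
    · have h3 := sub_eq_zero.mp h1
      have h4 : b.map (algebraMap (𝓞 K) K) *ᵥ v = (N : K)⁻¹ • ((N : K) • (b.map (algebraMap (𝓞 K) K) *ᵥ v)) := by
        rw [smul_smul, inv_mul_cancel₀ hNK, one_smul]
      rw [h4, h3, smul_smul]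
      congr 1
      field_simp
    · have h3 := sub_eq_zero.mp h2
      have h4 : c.map (algebraMap (𝓞 K) K) *ᵥ v = (N : K)⁻¹ • ((N : K) • (c.map (algebraMap (𝓞 K) K) *ᵥ v)) := by
        rw [smul_smul, inv_mul_cancel₀ hNK, one_smul]
      rw [h4, h3, smul_smul]
      congr 1
      field_simp
  choose d hd U V hUV using hex
  refine ⟨(n : 𝓞 K) * (N : 𝓞 K) * ∏ i, ∏ j, d i j, ?_, ?_⟩
  · refine mul_ne_zero (mul_ne_zero (Nat.cast_ne_zero.mpr hn0.ne') (Nat.cast_ne_zero.mpr hN0.ne')) ?_
    exact Finset.prod_ne_zero_iff.mpr fun i _ => Finset.prod_ne_zero_iff.mpr fun j _ => hd i j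
  · intro k _ φ hφ x y v h1 h2
    by_contra hv
    rw [map_mul, map_mul, map_natCast, map_natCast, map_prod] at hφ
    have hφ1 := left_ne_zero_of_mul hφ
    have hφ2 := right_ne_zero_of_mul hφ
    have hnk := left_ne_zero_of_mul hφ1
    have hNk := right_ne_zero_of_mul hφ1
    have hroot : ∀ (M : Matrix (Fin r) (Fin r) k) (z : k) (q : Fin r → ℤ),
        M.charpoly = ∏ j, (X - C ((q j : k) / (N : k))) → M *ᵥ v = z • v →
        ∃ i, z = (q i : k) / (N : k) := by
      intro M z q hM hMv
      have h3 : M.charpoly.eval z = 0 := by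
        rw [Matrix.eval_charpoly]
        apply (Matrix.exists_mulVec_eq_zero_iff).mp
        refine ⟨v, hv, ?_⟩
        rw [sub_mulVec, hMv]
        simp
      rw [hM, eval_prod, Finset.prod_eq_zero_iff] at h3
      obtain ⟨i, _, hi⟩ := h3
      exact ⟨i, by simpa [sub_eq_zero] using hi⟩
    obtain ⟨i, hi⟩ := hroot _ x s (reduce_charpoly φ hn0 hN0 hnk hNk hb) h1
    obtain ⟨j, hj⟩ := hroot _ y t (reduce_charpoly φ hn0 hN0 hnk hNk hc) h2
    have hdij : φ (d i j) ≠ 0 := by
      have h3 := (Finset.prod_ne_zero_iff.mp hφ2) i (Finset.mem_univ i)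
      rw [map_prod] at h3
      exact (Finset.prod_ne_zero_iff.mp h3) j (Finset.mem_univ j)
    have conv : ∀ (e : Matrix (Fin r) (Fin r) (𝓞 K)) (z : ℤ) (q : k), q = (z : k) / N →
        ((n : k)⁻¹ • e.map φ) *ᵥ v = q • v →
        (N : k) • (e.map φ *ᵥ v) - ((n : k) * (z : k)) • v = 0 := by
      intro e z q hq he
      rw [smul_mulVec] at he
      have h4 : e.map φ *ᵥ v = (n : k) • ((n : k)⁻¹ • (e.map φ *ᵥ v)) := by
        rw [smul_smul, mul_inv_cancel₀ hnk, one_smul]
      rw [h4, he, smul_smul, smul_smul, hq, ← sub_smul]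
      have : (N : k) * (n : k) * ((z : k) / N) - (n : k) * z = 0 := by
        field_simp
        ring
      rw [this, zero_smul]
    apply hv
    refine reduce_kernel (hUV i j) φ hdij v ?_ ?_
    · simp only [hM1]; rw [map_shift]; exact conv b (s i) x hi h1
    · simp only [hM2]; rw [map_shift]; exact conv c (t j) y hj h2


/-- the inequalities at one prime -/
theorem one_prime {n N : ℕ} (hn0 : 0 < n) (hN0 : 0 < N)
    {b c : Matrix (Fin r) (Fin r) (𝓞 K)} {s t q : Fin r → ℤ}
    (hb : ((n : K)⁻¹ • b.map (algebraMap (𝓞 K) K)).charpoly = ∏ j, (X - C ((s j : K) / (N : K))))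
    (hc : ((n : K)⁻¹ • c.map (algebraMap (𝓞 K) K)).charpoly = ∏ j, (X - C ((t j : K) / (N : K))))
    (hbc : ((n : K)⁻¹ • (b + c).map (algebraMap (𝓞 K) K)).charpoly
      = ∏ j, (X - C ((q j : K) / (N : K)))) :
    ∃ d : 𝓞 K, d ≠ 0 ∧ ∀ P : Ideal (𝓞 K), P.IsMaximal → d ∉ P → PCurvZero n b c P →
      ∀ u : ℤ, (N : ℤ) ∣ u * (ringChar (𝓞 K ⧸ P) : ℕ) - 1 → ∀ x y : ℕ,
      (NoCommonEigenvector (b.map (algebraMap (𝓞 K) K)) (c.map (algebraMap (𝓞 K) K)) →
        (r : ℝ) ≤ ∑ j, Int.fract (-(u * ((s j : ℝ) / N)) + (s j : ℝ) / N / (ringChar (𝓞 K ⧸ P) : ℕ)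
            - x / (ringChar (𝓞 K ⧸ P) : ℕ))
          + ∑ j, Int.fract (-(u * ((t j : ℝ) / N)) + (t j : ℝ) / N / (ringChar (𝓞 K ⧸ P) : ℕ)
            - y / (ringChar (𝓞 K ⧸ P) : ℕ))
          + ∑ j, Int.fract (u * ((q j : ℝ) / N) - (q j : ℝ) / N / (ringChar (𝓞 K ⧸ P) : ℕ)
            + (x + y) / (ringChar (𝓞 K ⧸ P) : ℕ))) ∧
      (NoCommonEigenvector (b.map (algebraMap (𝓞 K) K))ᵀ (c.map (algebraMap (𝓞 K) K))ᵀ →
        (r : ℝ) ≤ ∑ j, Int.fract (u * ((s j : ℝ) / N) - (s j : ℝ) / N / (ringChar (𝓞 K ⧸ P) : ℕ)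
            + x / (ringChar (𝓞 K ⧸ P) : ℕ))
          + ∑ j, Int.fract (u * ((t j : ℝ) / N) - (t j : ℝ) / N / (ringChar (𝓞 K ⧸ P) : ℕ)
            + y / (ringChar (𝓞 K ⧸ P) : ℕ))
          + ∑ j, Int.fract (-(u * ((q j : ℝ) / N)) + (q j : ℝ) / N / (ringChar (𝓞 K ⧸ P) : ℕ)
            - (x + y) / (ringChar (𝓞 K ⧸ P) : ℕ))) := by
  classical
  -- the two exceptional elements
  obtain ⟨d1, hd1, hk1⟩ : ∃ d : 𝓞 K, d ≠ 0 ∧
      (NoCommonEigenvector (b.map (algebraMap (𝓞 K) K)) (c.map (algebraMap (𝓞 K) K)) →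
      ∀ (k : Type _) [Field k] (φ : 𝓞 K →+* k), φ d ≠ 0 →
      ∀ (x y : k) (v : Fin r → k), ((n : k)⁻¹ • b.map φ) *ᵥ v = x • v →
        ((n : k)⁻¹ • c.map φ) *ᵥ v = y • v → v = 0) := by
    by_cases h : NoCommonEigenvector (b.map (algebraMap (𝓞 K) K)) (c.map (algebraMap (𝓞 K) K))
    · obtain ⟨d, hd, h1⟩ := kernel_reduction hn0 hN0 hb hc h
      exact ⟨d, hd, fun _ => h1⟩
    · exact ⟨1, one_ne_zero, fun h' => absurd h' h⟩
  obtain ⟨d2, hd2, hk2⟩ : ∃ d : 𝓞 K, d ≠ 0 ∧
      (NoCommonEigenvector (b.map (algebraMap (𝓞 K) K))ᵀ (c.map (algebraMap (𝓞 K) K))ᵀ →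
      ∀ (k : Type _) [Field k] (φ : 𝓞 K →+* k), φ d ≠ 0 →
      ∀ (x y : k) (v : Fin r → k), ((n : k)⁻¹ • bᵀ.map φ) *ᵥ v = x • v →
        ((n : k)⁻¹ • cᵀ.map φ) *ᵥ v = y • v → v = 0) := by
    by_cases h : NoCommonEigenvector (b.map (algebraMap (𝓞 K) K))ᵀ (c.map (algebraMap (𝓞 K) K))ᵀ
    · obtain ⟨d, hd, h1⟩ := kernel_reduction (b := bᵀ) (c := cᵀ) (s := s) (t := t) hn0 hN0
        (by
          rw [← hb, ← charpoly_transpose ((n : K)⁻¹ • b.map (algebraMap (𝓞 K) K))]
          rfl)
        (by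
          rw [← hc, ← charpoly_transpose ((n : K)⁻¹ • c.map (algebraMap (𝓞 K) K))]
          rfl) h
      exact ⟨d, hd, fun _ => h1⟩
    · exact ⟨1, one_ne_zero, fun h' => absurd h' h⟩
  refine ⟨(n : 𝓞 K) * (N : 𝓞 K) * (d1 * d2), mul_ne_zero (mul_ne_zero
    (Nat.cast_ne_zero.mpr hn0.ne') (Nat.cast_ne_zero.mpr hN0.ne')) (mul_ne_zero hd1 hd2), ?_⟩
  intro P hP hdP hcurv u hu x y
  set p := ringChar (𝓞 K ⧸ P) with hp
  have hpp : p.Prime := prime_ringChar hP
  have : Fact p.Prime := ⟨hpp⟩
  let _ : Field (𝓞 K ⧸ P) := Ideal.Quotient.field P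
  set k := AlgebraicClosure (𝓞 K ⧸ P) with hk
  have : CharP (𝓞 K ⧸ P) p := ringChar.charP _
  have : CharP k p := charP_of_injective_algebraMap (algebraMap (𝓞 K ⧸ P) k).injective p
  set φ : 𝓞 K →+* k := (algebraMap (𝓞 K ⧸ P) k).comp (Ideal.Quotient.mk P) with hφ
  have hφ0 : ∀ z, z ∉ P → φ z ≠ 0 := by
    intro z hz h
    rw [hφ, RingHom.comp_apply] at h
    have h1 := (map_eq_zero_iff _ (algebraMap (𝓞 K ⧸ P) k).injective).mp h
    exact hz (Ideal.Quotient.eq_zero_iff_mem.mp h1)
  have hprod := hφ0 _ hdP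
  rw [map_mul, map_mul, map_mul, map_natCast, map_natCast] at hprod
  have hnN := left_ne_zero_of_mul hprod
  have hdd := right_ne_zero_of_mul hprod
  have hnk := left_ne_zero_of_mul hnN
  have hNk := right_ne_zero_of_mul hnN
  have hd1k := left_ne_zero_of_mul hdd
  have hd2k := right_ne_zero_of_mul hdd
  -- characteristic polynomials
  have hbk := reduce_charpoly φ hn0 hN0 hnk hNk hb
  have hck := reduce_charpoly φ hn0 hN0 hnk hNk hc
  have hbck := reduce_charpoly φ hn0 hN0 hnk hNk hbc
  have hadd : (n : k)⁻¹ • b.map φ + (n : k)⁻¹ • c.map φ = (n : k)⁻¹ • (b + c).map φ := by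
    rw [← smul_add, Matrix.map_add _ (map_add _)]
  rw [← hadd] at hbck
  -- polynomial solutions
  have hex : ∃ F, Hor (X * (X - 1)) (Lmat ((n : k)⁻¹ • b.map φ) ((n : k)⁻¹ • c.map φ)) F
      ∧ F.det ≠ 0 := by
    obtain ⟨x0, hx0⟩ : ∃ x0 : k, x0 ∉ ({0, 1} : Finset k) := Infinite.exists_notMem_finset _
    simp only [Finset.mem_insert, Finset.mem_singleton, not_or] at hx0
    exact exists_hor (p := p) hnk (b.map φ) (c.map φ)
      (Qs_of_pcurv hcurv (algebraMap (𝓞 K ⧸ P) k)) x0 hx0.1 hx0.2
  have hppos : (0 : ℝ) < p := by exact_mod_cast hpp.pos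
  have key : ∀ (z : k) (s a : ℤ) (θ : ℝ), z = (s : k) / (N : k) - (a : k) →
      θ = -(u * ((s : ℝ) / N)) + (s : ℝ) / N / p - a / p → (rep z : ℝ) / p = Int.fract θ := by
    rintro z s a θ rfl rfl
    exact rep_formula hN0 hNk hu s a
  constructor
  · intro hnc
    have h1 := ineq_twist (p := p) hbk hck hbck hex x y (fun v h2 h3 => hk1 hnc k φ hd1k _ _ v h2 h3)
    have h5 : (r : ℝ) ≤ (∑ j, (rep ((s j : k) / (N : k) - (x : k)) : ℝ) / p)
        + (∑ j, (rep ((t j : k) / (N : k) - (y : k)) : ℝ) / p)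
        + ∑ j, (rep ((x : k) + y - (q j : k) / (N : k)) : ℝ) / p := by
      rw [← Finset.sum_div, ← Finset.sum_div, ← Finset.sum_div, ← add_div, ← add_div,
        le_div_iff₀ hppos, mul_comm]
      exact_mod_cast h1
    refine h5.trans (le_of_eq ?_)
    congr 1
    · congr 1
      · apply Finset.sum_congr rfl
        intro j _
        exact key _ (s j) x _ (by push_cast; ring) (by push_cast; ring)
      · apply Finset.sum_congr rfl
        intro j _
        exact key _ (t j) y _ (by push_cast; ring) (by push_cast; ring)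
    · apply Finset.sum_congr rfl
      intro j _
      exact key _ (-(q j)) (-((x : ℤ) + y)) _ (by push_cast; ring) (by push_cast; ring)
  · intro hnc
    have h1 := ineq_twist_dual (p := p) hbk hck hbck hex x y (fun v h2 h3 =>
      hk2 hnc k φ hd2k _ _ v h2 h3)
    have h5 : (r : ℝ) ≤ (∑ j, (rep ((x : k) - (s j : k) / (N : k)) : ℝ) / p)
        + (∑ j, (rep ((y : k) - (t j : k) / (N : k)) : ℝ) / p)
        + ∑ j, (rep ((q j : k) / (N : k) - x - y) : ℝ) / p := by
      rw [← Finset.sum_div, ← Finset.sum_div, ← Finset.sum_div, ← add_div, ← add_div,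
        le_div_iff₀ hppos, mul_comm]
      exact_mod_cast h1
    refine h5.trans (le_of_eq ?_)
    congr 1
    · congr 1
      · apply Finset.sum_congr rfl
        intro j _
        exact key _ (-(s j)) (-(x : ℤ)) _ (by push_cast; ring) (by push_cast; ring)
      · apply Finset.sum_congr rfl
        intro j _
        exact key _ (-(t j)) (-(y : ℤ)) _ (by push_cast; ring) (by push_cast; ring)
    · apply Finset.sum_congr rfl
      intro j _
      exact key _ (q j) ((x : ℤ) + y) _ (by push_cast; ring) (by push_cast; ring)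

/-- limit of a fractional part at a non integral point -/
lemma tendsto_fract_of {f : ℕ → ℝ} {θ : ℝ} (h : Tendsto f atTop (𝓝 θ)) (hθ : Int.fract θ ≠ 0) :
    Tendsto (fun m => Int.fract (f m)) atTop (𝓝 (Int.fract θ)) := by
  have h1 : θ ≠ ⌊θ⌋ := by
    intro h2
    apply hθ
    rw [Int.fract, ← h2, sub_self]
  exact (continuousAt_fract h1).tendsto.comp h

lemma fract_congr {a b : ℝ} (z : ℤ) (h : a = b + z) : Int.fract a = Int.fract b := by
  rw [h, Int.fract_add_intCast]

/-- the inequalities for infinitely many primes in one residue class -/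
theorem asymptotic {n N : ℕ} (hn0 : 0 < n) (hN0 : 0 < N)
    {b c : Matrix (Fin r) (Fin r) (𝓞 K)} {s t q : Fin r → ℤ}
    (hb : ((n : K)⁻¹ • b.map (algebraMap (𝓞 K) K)).charpoly = ∏ j, (X - C ((s j : K) / (N : K))))
    (hc : ((n : K)⁻¹ • c.map (algebraMap (𝓞 K) K)).charpoly = ∏ j, (X - C ((t j : K) / (N : K))))
    (hbc : ((n : K)⁻¹ • (b + c).map (algebraMap (𝓞 K) K)).charpoly
      = ∏ j, (X - C ((q j : K) / (N : K)))) {u : ℤ}
    (hinf : {P : Ideal (𝓞 K) | P.IsMaximal ∧ PCurvZero n b c P ∧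
      (N : ℤ) ∣ u * (ringChar (𝓞 K ⧸ P) : ℕ) - 1}.Infinite)
    (x y : ℝ) (hx : ∀ j, Int.fract (x - u * ((s j : ℝ) / N)) ≠ 0)
    (hy : ∀ j, Int.fract (y - u * ((t j : ℝ) / N)) ≠ 0)
    (hz : ∀ j, Int.fract (u * ((q j : ℝ) / N) - x - y) ≠ 0) :
    (NoCommonEigenvector (b.map (algebraMap (𝓞 K) K)) (c.map (algebraMap (𝓞 K) K)) →
      (r : ℝ) ≤ ∑ j, Int.fract (x - u * ((s j : ℝ) / N)) + ∑ j, Int.fract (y - u * ((t j : ℝ) / N))
        + ∑ j, Int.fract (u * ((q j : ℝ) / N) - x - y)) ∧
    (NoCommonEigenvector (b.map (algebraMap (𝓞 K) K))ᵀ (c.map (algebraMap (𝓞 K) K))ᵀ →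
      ∑ j, Int.fract (x - u * ((s j : ℝ) / N)) + ∑ j, Int.fract (y - u * ((t j : ℝ) / N))
        + ∑ j, Int.fract (u * ((q j : ℝ) / N) - x - y) ≤ 2 * r) := by
  obtain ⟨d, hd, hone⟩ := one_prime hn0 hN0 hb hc hbc
  have hex : ∀ m : ℕ, ∃ P : Ideal (𝓞 K), P.IsMaximal ∧ PCurvZero n b c P ∧
      (N : ℤ) ∣ u * (ringChar (𝓞 K ⧸ P) : ℕ) - 1 ∧ d ∉ P ∧ m < ringChar (𝓞 K ⧸ P) := by
    intro m
    by_contra hcon
    push Not at hcon
    apply hinf
    refine ((finite_mem hd).union (finite_char (K := K) m)).subset ?_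
    intro P hP
    by_cases h1 : d ∈ P
    · exact Or.inl ⟨hP.1, h1⟩
    · exact Or.inr ⟨hP.1, hcon P hP.1 hP.2.1 hP.2.2 h1⟩
  choose P hP1 hP2 hP3 hP4 hP5 using hex
  set p : ℕ → ℕ := fun m => ringChar (𝓞 K ⧸ P m) with hp
  have hptop : Tendsto (fun m => (p m : ℝ)) atTop atTop := by
    refine tendsto_atTop_mono (fun m => ?_) (tendsto_natCast_atTop_atTop (R := ℝ))
    exact_mod_cast (hP5 m).le
  have hinv : ∀ a : ℝ, Tendsto (fun m => a / (p m : ℝ)) atTop (𝓝 0) := fun a =>
    (tendsto_const_nhds (x := a)).div_atTop hptop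
  -- the integer shifts
  set x' := Int.fract (-x) with hx'
  set y' := Int.fract (-y) with hy'
  have hlx : Tendsto (fun m => ((⌊x' * (p m : ℝ)⌋₊ : ℕ) : ℝ) / (p m : ℝ)) atTop (𝓝 x') :=
    (tendsto_nat_floor_mul_div_atTop (Int.fract_nonneg _)).comp hptop
  have hly : Tendsto (fun m => ((⌊y' * (p m : ℝ)⌋₊ : ℕ) : ℝ) / (p m : ℝ)) atTop (𝓝 y') :=
    (tendsto_nat_floor_mul_div_atTop (Int.fract_nonneg _)).comp hptop
  have hlxy : Tendsto (fun m => (((⌊x' * (p m : ℝ)⌋₊ : ℕ) : ℝ) + ((⌊y' * (p m : ℝ)⌋₊ : ℕ) : ℝ))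
      / (p m : ℝ)) atTop (𝓝 (x' + y')) := by
    have := hlx.add hly
    simpa only [add_div] using this
  have ex : x' = -x - ⌊-x⌋ := rfl
  have ey : y' = -y - ⌊-y⌋ := rfl
  -- fractional parts of the limits
  have fx : ∀ j, Int.fract (-(u * ((s j : ℝ) / N)) + 0 - x') = Int.fract (x - u * ((s j : ℝ) / N)) :=
    fun j => fract_congr ⌊-x⌋ (by rw [ex]; ring)
  have fy : ∀ j, Int.fract (-(u * ((t j : ℝ) / N)) + 0 - y') = Int.fract (y - u * ((t j : ℝ) / N)) :=
    fun j => fract_congr ⌊-y⌋ (by rw [ey]; ring)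
  have fz : ∀ j, Int.fract (u * ((q j : ℝ) / N) - 0 + (x' + y'))
      = Int.fract (u * ((q j : ℝ) / N) - x - y) :=
    fun j => fract_congr (-⌊-x⌋ - ⌊-y⌋) (by rw [ex, ey]; push_cast; ring)
  constructor
  · intro hnc
    have h1 : ∀ m, _ := fun m => (hone (P m) (hP1 m) (hP4 m) (hP2 m) u (hP3 m)
      ⌊x' * (p m : ℝ)⌋₊ ⌊y' * (p m : ℝ)⌋₊).1 hnc
    refine ge_of_tendsto' (x := (atTop : Filter ℕ)) ?_ h1
    refine ((tendsto_finsetSum _ (fun j _ => ?_)).add (tendsto_finsetSum _ (fun j _ => ?_))).add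
      (tendsto_finsetSum _ (fun j _ => ?_))
    · rw [← fx j]
      apply tendsto_fract_of
      · exact ((tendsto_const_nhds).add (hinv _)).sub hlx
      · rw [fx j]; exact hx j
    · rw [← fy j]
      apply tendsto_fract_of
      · exact ((tendsto_const_nhds).add (hinv _)).sub hly
      · rw [fy j]; exact hy j
    · rw [← fz j]
      apply tendsto_fract_of
      · exact ((tendsto_const_nhds).sub (hinv _)).add hlxy
      · rw [fz j]; exact hz j
  · intro hnc
    have h1 : ∀ m, _ := fun m => (hone (P m) (hP1 m) (hP4 m) (hP2 m) u (hP3 m)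
      ⌊x' * (p m : ℝ)⌋₊ ⌊y' * (p m : ℝ)⌋₊).2 hnc
    have fract_neg' : ∀ a : ℝ, Int.fract a ≠ 0 → Int.fract (-a) = 1 - Int.fract a :=
      fun a ha => Int.fract_neg ha
    have gx : ∀ j, Int.fract (u * ((s j : ℝ) / N) - 0 + x')
        = 1 - Int.fract (x - u * ((s j : ℝ) / N)) := fun j => by
      rw [← fract_neg' _ (hx j)]
      exact fract_congr (-⌊-x⌋) (by rw [ex]; push_cast; ring)
    have gy : ∀ j, Int.fract (u * ((t j : ℝ) / N) - 0 + y')
        = 1 - Int.fract (y - u * ((t j : ℝ) / N)) := fun j => by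
      rw [← fract_neg' _ (hy j)]
      exact fract_congr (-⌊-y⌋) (by rw [ey]; push_cast; ring)
    have gz : ∀ j, Int.fract (-(u * ((q j : ℝ) / N)) + 0 - (x' + y'))
        = 1 - Int.fract (u * ((q j : ℝ) / N) - x - y) := fun j => by
      rw [← fract_neg' _ (hz j)]
      exact fract_congr (⌊-x⌋ + ⌊-y⌋) (by rw [ex, ey]; push_cast; ring)
    have hne : ∀ a : ℝ, 1 - Int.fract a ≠ 0 := fun a => by
      have := Int.fract_lt_one a
      intro h
      linarith
    have h2 : (r : ℝ) ≤ ∑ j, (1 - Int.fract (x - u * ((s j : ℝ) / N)))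
        + ∑ j, (1 - Int.fract (y - u * ((t j : ℝ) / N)))
        + ∑ j, (1 - Int.fract (u * ((q j : ℝ) / N) - x - y)) := by
      refine ge_of_tendsto' (x := (atTop : Filter ℕ)) ?_ h1
      refine ((tendsto_finsetSum _ (fun j _ => ?_)).add (tendsto_finsetSum _ (fun j _ => ?_))).add
        (tendsto_finsetSum _ (fun j _ => ?_))
      · rw [← gx j]
        apply tendsto_fract_of
        · exact ((tendsto_const_nhds).sub (hinv _)).add hlx
        · rw [gx j]; exact hne _
      · rw [← gy j]
        apply tendsto_fract_of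
        · exact ((tendsto_const_nhds).sub (hinv _)).add hly
        · rw [gy j]; exact hne _
      · rw [← gz j]
        apply tendsto_fract_of
        · exact ((tendsto_const_nhds).add (hinv _)).sub hlxy
        · rw [gz j]; exact hne _
    simp only [Finset.sum_sub_distrib, Finset.sum_const, Finset.card_univ, Fintype.card_fin,
      nsmul_eq_mul, mul_one] at h2
    linarith

end Pool.Agent.Work.MP_5e5ff1_ag

end
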