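import Mathlib
import Pool.Agent.Work.MP_5e5ff1_ag.Unit.Stmts
import Pool.Agent.Work.MP_5e5ff1_ag.T.Minors
import Pool.Agent.Work.MP_5e5ff1_ag.Unit.Defs
import Pool.Agent.Work.MP_5e5ff1_ag.Unit.Geo

/-! Bundle of small proof modules (one section per former module). -/

section

/-! Item M_Unif: uniform bounds near the three punctures. -/

open Matrix Polynomial Filter Topology
open scoped ComplexConjugate ComplexOrder

namespace Pool.Agent.MSU

namespace ItemMUnif

lemma cz_KK (x : Fin 3) {ζ : ℂ} (h : ‖ζ‖ = 1 / 2) : cz x ζ ∈ KK := by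
  have hr : ∀ a b : ℂ, ‖a‖ - ‖b‖ ≤ ‖a - b‖ := fun a b => norm_sub_norm_le a b
  fin_cases x
  · change cz 0 ζ ∈ KK
    rw [cz_zero]
    refine ⟨h.ge, ?_, ?_⟩
    · have := norm_sub_norm_le (1 : ℂ) ζ
      rw [norm_sub_rev] at this
      simp only [norm_one] at this
      linarith
    · linarith
  · change cz 1 ζ ∈ KK
    rw [cz_one]
    refine ⟨?_, ?_, ?_⟩
    · have := norm_sub_norm_le (1 : ℂ) (-ζ)
      rw [sub_neg_eq_add, norm_neg] at this
      simp only [norm_one] at this
      linarith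
    · simp [h]
    · have := norm_add_le (1 : ℂ) ζ
      simp only [norm_one] at this
      linarith
  · change cz 2 ζ ∈ KK
    rw [cz_two]
    have h2 : ‖-ζ⁻¹‖ = 2 := by
      rw [norm_neg, norm_inv, h]; norm_num
    refine ⟨?_, ?_, ?_⟩
    · rw [h2]; norm_num
    · have := norm_sub_norm_le (-ζ⁻¹) (1 : ℂ)
      rw [h2] at this
      simp only [norm_one] at this
      linarith
    · rw [h2]

end ItemMUnif

theorem prf_M_Unif (hU : M_Unif1) : M_Unif := by
  intro r d γ Wm hγ
  obtain ⟨C, hC⟩ := hU r d (∑ x, ∑ a, ∑ b, ‖γ x a b‖) Wm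
  refine ⟨C, ?_⟩
  intro w G Q hw hG hR hK x
  refine hC x (fun _ => γ x) (w x) G Q (hw x) ?_ ?_ hG ?_ ?_
  · intro a b
    exact differentiableOn_const _
  · intro ζ _ a b
    have h1 : ‖γ x a b‖ ≤ ∑ b, ‖γ x a b‖ :=
      Finset.single_le_sum (f := fun b => ‖γ x a b‖) (fun _ _ => norm_nonneg _) (Finset.mem_univ b)
    have h2 : (∑ b, ‖γ x a b‖) ≤ ∑ a, ∑ b, ‖γ x a b‖ :=
      Finset.single_le_sum (f := fun a => ∑ b, ‖γ x a b‖)
        (fun _ _ => Finset.sum_nonneg fun _ _ => norm_nonneg _) (Finset.mem_univ a)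
    have h3 : (∑ a, ∑ b, ‖γ x a b‖) ≤ ∑ x, ∑ a, ∑ b, ‖γ x a b‖ :=
      Finset.single_le_sum (f := fun x => ∑ a, ∑ b, ‖γ x a b‖)
        (fun _ _ => Finset.sum_nonneg fun _ _ => Finset.sum_nonneg fun _ _ => norm_nonneg _)
        (Finset.mem_univ x)
    exact h1.trans (h2.trans h3)
  · obtain ⟨C', ρ, h0, _, h2⟩ := hR x
    exact ⟨C', ρ, h0, h2⟩
  · intro ζ hζ
    have hlt : ‖ζ‖ < 1 := by rw [hζ]; norm_num
    exact ⟨fun ha => hK x _ (cz_mem_a x hlt ha) (ItemMUnif.cz_KK x hζ),
      fun hb => hK (x + 1) _ (cz_mem_b x hlt hb) (ItemMUnif.cz_KK x hζ)⟩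

end Pool.Agent.MSU

end

section

/-! Positivity of the slopes of the functional of Kempf and Ness from stability. -/

open Matrix Polynomial
open scoped ComplexConjugate ComplexOrder

namespace Pool.Agent.MSU.ItemPSlope

open Pool.Agent.Work.MP_5e5ff1_ag.T

/-- telescoping -/
lemma tele {r : ℕ} (w : Fin r → ℝ) (i : Fin r) :
    ∑ l, (if i < l then cf w l else 0) = tw w - w i := by
  set W : ℕ → ℝ := fun n => if h : n < r then w ⟨n, h⟩ else 0 with hW
  have h1 : ∀ m, i.val + 1 ≤ m →
      ∑ n ∈ Finset.range m, (if i.val < n then W n - W (n - 1) else 0)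
        = W (m - 1) - W i.val := by
    intro m hm
    induction m, hm using Nat.le_induction with
    | base =>
      rw [Finset.sum_eq_zero]
      · simp
      · intro n hn
        rw [Finset.mem_range] at hn
        rw [if_neg (by omega)]
    | succ n hn ih =>
      rw [Finset.sum_range_succ, ih, if_pos (by omega)]
      simp
  have hr : 0 < r := by have := i.isLt; omega
  have h2 := h1 r i.isLt
  rw [Finset.sum_range] at h2
  have h3 : W (r - 1) = tw w := by
    simp only [hW, tw]
    rw [dif_pos (by omega), dif_pos hr]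
  have h4 : W i.val = w i := by
    simp only [hW]
    rw [dif_pos i.isLt]
  rw [h3, h4] at h2
  rw [← h2]
  apply Finset.sum_congr rfl
  intro l _
  by_cases hl : i < l
  · have hl' : i.val < l.val := hl
    rw [if_pos hl, if_pos hl']
    simp only [cf, hW]
    rw [dif_pos (by omega), dif_pos l.isLt, dif_pos (by omega)]
  · have hl' : ¬ i.val < l.val := hl
    rw [if_neg hl, if_neg hl']

lemma cf_nonneg {r : ℕ} {w : Fin r → ℝ} (hw : Monotone w) (l : Fin r) : 0 ≤ cf w l := by
  unfold cf
  split_ifs with h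
  · rw [sub_nonneg]
    apply hw
    rw [Fin.le_def]
    simp
  · exact le_rfl

/-- counting form: all entries -/
lemma sum_cf_mul_val {r : ℕ} (w : Fin r → ℝ) :
    ∑ l : Fin r, cf w l * (l.val : ℝ) = ∑ i, (tw w - w i) := by
  have h1 : ∀ l : Fin r, cf w l * (l.val : ℝ) = ∑ i : Fin r, (if i < l then cf w l else 0) := by
    intro l
    rw [← Finset.sum_filter, Finset.sum_const, nsmul_eq_mul]
    have : (Finset.univ.filter (fun i : Fin r => i < l)).card = l.val := by
      have := Fin.card_Iio l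
      rw [← this]
      congr 1
      ext i
      simp
    rw [this, mul_comm]
  simp_rw [h1]
  rw [Finset.sum_comm]
  exact Finset.sum_congr rfl fun i _ => tele w i

/-- counting form: chosen entries -/
lemma sum_cf_mul_card {r k : ℕ} (w : Fin r → ℝ) (J : Fin k → Fin r) :
    ∑ l : Fin r, cf w l * ((Finset.univ.filter (fun a => J a < l)).card : ℝ)
      = ∑ a, (tw w - w (J a)) := by
  have h1 : ∀ l : Fin r, cf w l * ((Finset.univ.filter (fun a => J a < l)).card : ℝ)
      = ∑ a, (if J a < l then cf w l else 0) := by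
    intro l
    rw [← Finset.sum_filter, Finset.sum_const, nsmul_eq_mul, mul_comm]
  simp_rw [h1]
  rw [Finset.sum_comm]
  exact Finset.sum_congr rfl fun a _ => tele w (J a)

/-- sum of chosen entries -/
lemma sum_entries {r m : ℕ} (X : Fin r → ℝ) (q : Fin m → Fin r) :
    ∑ a, X (q a) = (m : ℝ) * tw X
      - ∑ k : Fin r, cf X k * ((Finset.univ.filter (fun a => q a < k)).card : ℝ) := by
  rw [sum_cf_mul_card, Finset.sum_sub_distrib, Finset.sum_const, Finset.card_univ,
    Fintype.card_fin, nsmul_eq_mul]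
  ring

lemma sum_all {r : ℕ} (X : Fin r → ℝ) :
    ∑ i, X i = (r : ℝ) * tw X - ∑ k : Fin r, cf X k * (k.val : ℝ) := by
  rw [sum_cf_mul_val, Finset.sum_sub_distrib, Finset.sum_const, Finset.card_univ,
    Fintype.card_fin, nsmul_eq_mul]
  ring

/-- the first columns of a matrix -/
lemma fc_mul {r : ℕ} {g : Matrix (Fin r) (Fin r) ℂ} (hg : IsUnit g.det) (l : Fin r) (i : Fin r)
    (a : Fin (l : ℕ)) : (g * fc g l) i a = if i = Fin.castLE l.isLt.le a then 1 else 0 := by
  have h1 : g * fc g l = (g * g⁻¹).submatrix id (Fin.castLE l.isLt.le) := by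
    ext1 i a
    simp [fc, mul_apply]
  rw [h1, Matrix.mul_nonsing_inv _ hg]
  simp [Matrix.one_apply]

/-- the comparison of dimensions -/
lemma card_le {r k : ℕ} {g U : Matrix (Fin r) (Fin r) ℂ} (hg : IsUnit g.det)
    (hU : U * Uᴴ = 1) (sg : Equiv.Perm (Fin r)) (l : Fin r) (hk : k ≤ r)
    (L : Fin (l : ℕ) → Fin r) (hL : ((Uᴴ * fc g l).submatrix L id).det ≠ 0)
    (hz : ∀ i a, sg.symm (L a) < sg.symm i →
      ((Uᴴ * fc g l).submatrix (Function.update L a i) id).det = 0)
    (J : Fin k → Fin r)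
    (hJ : ((g * U.submatrix id (fun q : Fin k => sg (Fin.castLE hk q))).submatrix J id).det ≠ 0) :
    (Finset.univ.filter (fun a => (sg.symm (L a)).val < k)).card
      ≤ (Finset.univ.filter (fun a => J a < l)).card := by
  classical
  set N : Matrix (Fin r) (Fin (l : ℕ)) ℂ := Uᴴ * fc g l with hN
  set M : Matrix (Fin (l : ℕ)) (Fin (l : ℕ)) ℂ := adjugate (N.submatrix L id) with hM
  set E : Matrix (Fin r) (Fin k) ℂ := U.submatrix id (fun q : Fin k => sg (Fin.castLE hk q))
    with hE
  -- extension by zero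
  let ext : ({a : Fin (l : ℕ) // (sg.symm (L a)).val < k} → ℂ) →ₗ[ℂ] (Fin (l : ℕ) → ℂ) :=
    { toFun := fun c a => if h : (sg.symm (L a)).val < k then c ⟨a, h⟩ else 0
      map_add' := by
        intro c d
        funext a
        simp only [Pi.add_apply]
        split_ifs <;> simp
      map_smul' := by
        intro c d
        funext a
        simp only [Pi.smul_apply, RingHom.id_apply]
        split_ifs <;> simp }
  let res : (Fin r → ℂ) →ₗ[ℂ] ({a : Fin k // J a < l} → ℂ) :=
    { toFun := fun f b => f (J b.1)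
      map_add' := by intros; rfl
      map_smul' := by intros; rfl }
  let Φ := res ∘ₗ (g * fc g l * M).mulVecLin ∘ₗ ext
  have hinj : Function.Injective Φ := by
    rw [injective_iff_map_eq_zero]
    intro c hc
    -- the vector f
    set e : Fin (l : ℕ) → ℂ := ext c with he
    have he0 : ∀ a, ¬ (sg.symm (L a)).val < k → e a = 0 := by
      intro a ha
      simp only [he, ext, LinearMap.coe_mk, AddHom.coe_mk]
      rw [dif_neg ha]
    set f : Fin r → ℂ := (fc g l * M) *ᵥ e with hf
    have hgf : g *ᵥ f = (g * fc g l * M) *ᵥ e := by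
      rw [hf, Matrix.mulVec_mulVec, Matrix.mul_assoc]
    have hUf : Uᴴ *ᵥ f = (N * M) *ᵥ e := by
      rw [hf, Matrix.mulVec_mulVec, hN, Matrix.mul_assoc]
    -- coordinates of f vanish beyond k
    have hUf0 : ∀ i, k ≤ (sg.symm i).val → (Uᴴ *ᵥ f) i = 0 := by
      intro i hi
      rw [hUf, Matrix.mulVec, dotProduct]
      apply Finset.sum_eq_zero
      intro a _
      by_cases ha : (sg.symm (L a)).val < k
      · have h1 : (N * M) i a = 0 := by
          rw [hM, mul_adjugate_minor]
          apply hz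
          rw [Fin.lt_def]
          omega
        rw [h1, zero_mul]
      · rw [he0 a ha, mul_zero]
    have hfE : f = E *ᵥ (fun q : Fin k => (Uᴴ *ᵥ f) (sg (Fin.castLE hk q))) := by
      have h1 : f = U *ᵥ (Uᴴ *ᵥ f) := by
        rw [Matrix.mulVec_mulVec, hU, Matrix.one_mulVec]
      funext i
      conv_lhs => rw [h1]
      rw [Matrix.mulVec, Matrix.mulVec, dotProduct, dotProduct]
      rw [← Equiv.sum_comp sg]
      rw [← Finset.sum_subset (Finset.subset_univ
        (Finset.univ.map (Fin.castLEEmb hk)))]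
      · rw [Finset.sum_map]
        rfl
      · intro p _ hp
        rw [hUf0, mul_zero]
        rw [Equiv.symm_apply_apply]
        by_contra hcon
        apply hp
        rw [Finset.mem_map]
        refine ⟨⟨p.val, by omega⟩, Finset.mem_univ _, ?_⟩
        ext
        rfl
    -- all coordinates J vanish
    have hJ0 : ∀ a, (g *ᵥ f) (J a) = 0 := by
      intro a
      by_cases ha : J a < l
      · have h1 := congrFun hc ⟨a, ha⟩
        rw [hgf]
        exact h1
      · rw [hgf, Matrix.mul_assoc, ← Matrix.mulVec_mulVec] 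
        rw [← Matrix.mulVec_mulVec, Matrix.mulVec_mulVec _ g]
        rw [Matrix.mulVec, dotProduct]
        apply Finset.sum_eq_zero
        intro b _
        rw [fc_mul hg, if_neg, zero_mul]
        intro h
        apply ha
        rw [h, Fin.lt_def]
        simp
    have hc' : (fun q : Fin k => (Uᴴ *ᵥ f) (sg (Fin.castLE hk q))) = 0 := by
      apply Matrix.eq_zero_of_mulVec_eq_zero hJ
      funext a
      have h1 := hJ0 a
      rw [hfE, Matrix.mulVec_mulVec] at h1
      exact h1
    have hf0 : f = 0 := by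
      rw [hfE, hc', Matrix.mulVec_zero]
    have hNM : (N * M) *ᵥ e = 0 := by
      rw [← hUf, hf0, Matrix.mulVec_zero]
    have he1 : e = 0 := by
      have h1 : (N.submatrix L id * M) *ᵥ e = 0 := by
        funext a
        have := congrFun hNM (L a)
        exact this
      rw [hM, Matrix.mul_adjugate, Matrix.smul_mulVec, Matrix.one_mulVec] at h1
      exact (smul_eq_zero.mp h1).resolve_left hL
    funext a
    have h1 := congrFun he1 a.1
    simp only [he, ext, LinearMap.coe_mk, AddHom.coe_mk] at h1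
    rw [dif_pos a.2] at h1
    exact h1
  have h1 := LinearMap.finrank_le_finrank_of_injective hinj
  rw [Module.finrank_pi, Module.finrank_pi, Fintype.card_subtype, Fintype.card_subtype] at h1
  exact h1

lemma exists_L {r : ℕ} {g U : Matrix (Fin r) (Fin r) ℂ} (hg : IsUnit g.det)
    (hU : U * Uᴴ = 1) (sg : Equiv.Perm (Fin r)) (l : Fin r) :
    ∃ L : Fin (l : ℕ) → Fin r, ((Uᴴ * fc g l).submatrix L id).det ≠ 0 ∧
      ∀ i a, sg.symm (L a) < sg.symm i →
        ((Uᴴ * fc g l).submatrix (Function.update L a i) id).det = 0 := by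
  classical
  have h1 : FullRank (Uᴴ * fc g l) := by
    apply fullRank_of_leftInv (V := (g * U).submatrix (Fin.castLE l.isLt.le) id)
    have h2 : (g * U).submatrix (Fin.castLE l.isLt.le) id * (Uᴴ * fc g l)
        = ((g * U) * (Uᴴ * fc g l)).submatrix (Fin.castLE l.isLt.le) id := by
      ext1 i j
      simp [mul_apply]
    rw [h2, Matrix.mul_assoc, ← Matrix.mul_assoc U, hU, Matrix.one_mul]
    ext1 i j
    rw [submatrix_apply, id, fc_mul hg, Matrix.one_apply]
    simp only [Fin.castLE_inj]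
  obtain ⟨I, hI⟩ := h1
  obtain ⟨L, hL, hmax⟩ := Finset.exists_max_image
    (Finset.univ.filter (fun L : Fin (l : ℕ) → Fin r =>
      ((Uᴴ * fc g l).submatrix L id).det ≠ 0)) (fun L => ∑ a, (sg.symm (L a)).val)
    ⟨I, by simpa using hI⟩
  refine ⟨L, by simpa using hL, ?_⟩
  intro i a hia
  by_contra hcon
  have h2 := hmax (Function.update L a i) (by simpa using hcon)
  have h3 : ∑ b, (sg.symm (L b)).val < ∑ b, (sg.symm (Function.update L a i b)).val := by
    apply Finset.sum_lt_sum
    · intro b _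
      by_cases hb : b = a
      · subst hb
        rw [Function.update_self]
        exact le_of_lt hia
      · rw [Function.update_of_ne hb]
    · refine ⟨a, Finset.mem_univ _, ?_⟩
      rw [Function.update_self]
      exact hia
  omega

lemma stab {r : ℕ} {γ : Fin 3 → Matrix (Fin r) (Fin r) ℂ} {w : Fin 3 → Fin r → ℝ}
    (hst : StG γ w) {U : Matrix (Fin r) (Fin r) ℂ} (hU : Uᴴ * U = 1)
    (sg : Equiv.Perm (Fin r)) (k : ℕ) (hk0 : 0 < k) (hk : k < r) :
    ∃ J : Fin 3 → Fin k → Fin r,
      (∀ y, ((γ y * U.submatrix id (fun q : Fin k => sg (Fin.castLE hk.le q))).submatrix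
        (J y) id).det ≠ 0) ∧ 0 < ∑ y, ∑ a, w y (J y a) := by
  set E : Matrix (Fin r) (Fin k) ℂ := U.submatrix id (fun q : Fin k => sg (Fin.castLE hk.le q))
    with hE
  have hEE : Eᴴ * E = 1 := by
    have h1 : Eᴴ * E = (Uᴴ * U).submatrix (fun q : Fin k => sg (Fin.castLE hk.le q))
        (fun q : Fin k => sg (Fin.castLE hk.le q)) := by
      ext1 i j
      simp [hE, mul_apply]
    rw [h1, hU]
    ext1 i j
    rw [submatrix_apply, Matrix.one_apply, Matrix.one_apply]
    simp only [EmbeddingLike.apply_eq_iff_eq, Fin.castLE_inj]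
  have hmn : ∀ y (J : Fin k → Fin r), mn (γ y) (E.map C) J = C ((γ y * E).submatrix J id).det := by
    intro y J
    unfold mn
    rw [RingHom.map_det]
    congr 1
    rw [← Matrix.map_mul]
    rfl
  obtain ⟨J, hJ1, hJ2⟩ := hst k hk0 hk (E.map C) ⟨(Eᴴ).map C, by
    rw [← Matrix.map_mul, hEE]
    simp⟩
  refine ⟨J, ?_, ?_⟩
  · intro y h
    apply hJ1 y
    rw [hmn, h, C_0]
  · rw [hmn, hmn, hmn, rootMultiplicity_C, rootMultiplicity_C, natDegree_C] at hJ2
    simpa using hJ2

end Pool.Agent.MSU.ItemPSlope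

namespace Pool.Agent.MSU

open ItemPSlope

theorem prf_P_Slope : P_Slope := by
  intro r γ w hγ hw hsum hst U hU x hx0 hx
  have hUU : U * Uᴴ = 1 := by
    have := (Matrix.mem_unitaryGroup_iff (A := U)).mp hU
    rwa [Matrix.star_eq_conjTranspose] at this
  have hUU' : Uᴴ * U = 1 := by
    have := (Matrix.mem_unitaryGroup_iff' (A := U)).mp hU
    rwa [Matrix.star_eq_conjTranspose] at this
  set sg := Tuple.sort x with hsg
  set X : Fin r → ℝ := x ∘ sg with hX
  have hXm : Monotone X := Tuple.monotone_sort x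
  have hXs : ∀ i, X (sg.symm i) = x i := by
    intro i
    simp [hX]
  choose L hL hz using fun y => fun l => exists_L (hγ y) hUU sg l
  have hJ : ∀ k : Fin r, ∃ J : Fin 3 → Fin (k : ℕ) → Fin r, 0 < k.val →
      (∀ y, ((γ y * U.submatrix id (fun q : Fin (k : ℕ) => sg (Fin.castLE k.isLt.le q))).submatrix
        (J y) id).det ≠ 0) ∧ 0 < ∑ y, ∑ a, w y (J y a) := by
    intro k
    by_cases hk : 0 < k.val
    · obtain ⟨J, h1, h2⟩ := stab hst hUU' sg k.val hk k.isLt
      exact ⟨J, fun _ => ⟨h1, h2⟩⟩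
    · exact ⟨fun _ _ => k, fun h => absurd h hk⟩
  choose J hJ using hJ
  refine ⟨L, hL, ?_⟩
  have hcf0 : ∀ k : Fin r, ¬ 0 < k.val → cf X k = 0 := by
    intro k hk
    unfold cf
    rw [dif_neg hk]
  -- the lower bound for the chosen sums
  have key : ∀ y (l : Fin r), (l.val : ℝ) * tw X
      - ∑ k : Fin r, cf X k * ((Finset.univ.filter (fun a => J k y a < l)).card : ℝ)
      ≤ ∑ a, x (L y l a) := by
    intro y l
    have h1 : ∑ a, x (L y l a) = ∑ a, X (sg.symm (L y l a)) := by
      simp_rw [hXs]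
    rw [h1, sum_entries X (fun a => sg.symm (L y l a))]
    apply sub_le_sub_left
    apply Finset.sum_le_sum
    intro k _
    by_cases hk : 0 < k.val
    · apply mul_le_mul_of_nonneg_left _ (cf_nonneg hXm k)
      have h2 := card_le (k := k.val) (hγ y) hUU sg l k.isLt.le (L y l) (hL y l) (hz y l)
        (J k y) ((hJ k hk).1 y)
      exact_mod_cast h2
    · rw [hcf0 k hk, zero_mul, zero_mul]
  have hS : ∀ k : Fin r, 0 ≤ cf X k * ∑ y, ∑ a, w y (J k y a) := by
    intro k
    by_cases hk : 0 < k.val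
    · exact mul_nonneg (cf_nonneg hXm k) (hJ k hk).2.le
    · rw [hcf0 k hk, zero_mul]
  have hpos : 0 < ∑ k : Fin r, cf X k * ∑ y, ∑ a, w y (J k y a) := by
    apply Finset.sum_pos' (fun k _ => hS k)
    by_contra hcon
    push Not at hcon
    apply hx
    have h1 : ∀ k : Fin r, cf X k = 0 := by
      intro k
      by_cases hk : 0 < k.val
      · have h2 := hcon k (Finset.mem_univ _)
        have h3 := (hJ k hk).2
        have h4 := cf_nonneg hXm k
        by_contra h5
        have h6 : 0 < cf X k := lt_of_le_of_ne h4 (Ne.symm h5)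
        have h7 := mul_pos h6 h3
        linarith
      · exact hcf0 k hk
    have h2 : ∀ i, X i = tw X := by
      intro i
      have h3 := tele X i
      simp only [h1, ite_self, Finset.sum_const_zero] at h3
      linarith
    have h3 : ∑ i, X i = 0 := by
      rw [hX]
      have := Equiv.sum_comp sg x
      simp only [Function.comp]
      rw [this, hx0]
    rw [Finset.sum_congr rfl (fun i _ => h2 i), Finset.sum_const, Finset.card_univ,
      Fintype.card_fin, nsmul_eq_mul] at h3
    funext i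
    have hr : (0 : ℝ) < r := by
      have := i.isLt
      exact_mod_cast (by omega : 0 < r)
    have h4 : tw X = 0 := by
      rcases mul_eq_zero.mp h3 with h | h
      · exact absurd h hr.ne'
      · exact h
    rw [← hXs i, h2, h4]
    rfl
  -- the sum of the lower bounds
  have hsumX : (r : ℝ) * tw X - ∑ k : Fin r, cf X k * (k.val : ℝ) = 0 := by
    rw [← sum_all X, hX]
    have := Equiv.sum_comp sg x
    simp only [Function.comp]
    rw [this, hx0]
  have hy : ∀ y, ∑ l : Fin r, cf (w y) l * ((l.val : ℝ) * tw X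
      - ∑ k : Fin r, cf X k * ((Finset.univ.filter (fun a => J k y a < l)).card : ℝ))
      = tw X * (r * tw (w y) - ∑ i, w y i) - tw (w y) * ∑ k : Fin r, cf X k * (k.val : ℝ)
        + ∑ k : Fin r, cf X k * ∑ a, w y (J k y a) := by
    intro y
    have e1 : ∀ l : Fin r, cf (w y) l * ((l.val : ℝ) * tw X
        - ∑ k : Fin r, cf X k * ((Finset.univ.filter (fun a => J k y a < l)).card : ℝ))
        = tw X * (cf (w y) l * (l.val : ℝ)) - ∑ k : Fin r, cf X k *
          (cf (w y) l * ((Finset.univ.filter (fun a => J k y a < l)).card : ℝ)) := by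
      intro l
      rw [mul_sub, Finset.mul_sum]
      congr 1
      · ring
      · apply Finset.sum_congr rfl
        intro k _
        ring
    rw [Finset.sum_congr rfl (fun l _ => e1 l), Finset.sum_sub_distrib, ← Finset.mul_sum,
      sum_cf_mul_val, Finset.sum_comm]
    have e2 : ∀ k : Fin r, ∑ l : Fin r, cf X k *
          (cf (w y) l * ((Finset.univ.filter (fun a => J k y a < l)).card : ℝ))
        = tw (w y) * (cf X k * (k.val : ℝ)) - cf X k * ∑ a, w y (J k y a) := by
      intro k
      rw [← Finset.mul_sum, sum_cf_mul_card, Finset.sum_sub_distrib, Finset.sum_const,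
        Finset.card_univ, Fintype.card_fin, nsmul_eq_mul]
      ring
    rw [Finset.sum_congr rfl (fun k _ => e2 k), Finset.sum_sub_distrib, Finset.sum_sub_distrib,
      ← Finset.mul_sum, Finset.sum_const, Finset.card_univ, Fintype.card_fin, nsmul_eq_mul]
    ring
  have hlow : ∑ k : Fin r, cf X k * ∑ y, ∑ a, w y (J k y a)
      ≤ ∑ y, ∑ l, cf (w y) l * ∑ a, x (L y l a) := by
    have e3 : ∑ k : Fin r, cf X k * ∑ y, ∑ a, w y (J k y a)
        = ∑ y, ∑ l : Fin r, cf (w y) l * ((l.val : ℝ) * tw X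
          - ∑ k : Fin r, cf X k * ((Finset.univ.filter (fun a => J k y a < l)).card : ℝ)) := by
      rw [Finset.sum_congr rfl (fun y _ => hy y), Finset.sum_add_distrib,
        Finset.sum_sub_distrib, ← Finset.mul_sum, Finset.sum_sub_distrib, hsum, ← Finset.sum_mul,
        ← Finset.mul_sum]
      have e4 : ∑ y, ∑ k : Fin r, cf X k * ∑ a, w y (J k y a)
          = ∑ k : Fin r, cf X k * ∑ y, ∑ a, w y (J k y a) := by
        rw [Finset.sum_comm]
        exact Finset.sum_congr rfl fun k _ => by rw [Finset.mul_sum]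
      rw [e4]
      linear_combination (-(∑ y, tw (w y))) * hsumX
    rw [e3]
    apply Finset.sum_le_sum
    intro y _
    apply Finset.sum_le_sum
    intro l _
    exact mul_le_mul_of_nonneg_left (key y l) (cf_nonneg (hw y).monotone l)
  exact lt_of_lt_of_le hpos hlow

end Pool.Agent.MSU

end

section

/-! Item S_Ex: linear systems on star-convex open sets (Picard iteration). -/

open Matrix Polynomial Filter Topology
open scoped ComplexConjugate ComplexOrder

namespace Pool.Agent.MSU.ItemSEx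

open Classical in
/-- a chosen primitive -/
noncomputable def pr (U : Set ℂ) (b : ℂ) (f : ℂ → ℂ) : ℂ → ℂ :=
  if h : ∃ F : ℂ → ℂ, F b = 0 ∧ ∀ z ∈ U, HasDerivAt F (f z) z then h.choose else 0

theorem pr_spec (hP : S_Prim) {U : Set ℂ} {b : ℂ} (hU : IsOpen U) (hb : b ∈ U)
    (hs : StarConvex ℝ b U) {f : ℂ → ℂ} (hf : DifferentiableOn ℂ f U) :
    pr U b f b = 0 ∧ ∀ z ∈ U, HasDerivAt (pr U b f) (f z) z := by
  have h := hP U b hU hb hs f hf
  unfold pr
  rw [dif_pos h]
  exact h.choose_spec

section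
variable {ι : Type} [Fintype ι] [DecidableEq ι]

/-- the Picard iterates -/
noncomputable def it (U : Set ℂ) (b : ℂ) (A : ℂ → Matrix ι ι ℂ) : ℕ → ι → ι → ℂ → ℂ
  | 0 => fun i j _ => if i = j then 1 else 0
  | m + 1 => fun i j => pr U b (fun z => ∑ k, A z i k * it U b A m k j z)

theorem it_diff (hP : S_Prim) {U : Set ℂ} {b : ℂ} (hU : IsOpen U) (hb : b ∈ U)
    (hs : StarConvex ℝ b U) {A : ℂ → Matrix ι ι ℂ}
    (hA : ∀ i j, DifferentiableOn ℂ (fun z => A z i j) U) (m : ℕ) :
    ∀ i j, DifferentiableOn ℂ (it U b A m i j) U := by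
  induction m with
  | zero =>
    intro i j
    simp only [it]
    exact differentiableOn_const _
  | succ m ih =>
    intro i j z hz
    have hf : DifferentiableOn ℂ (fun z => ∑ k, A z i k * it U b A m k j z) U :=
      DifferentiableOn.fun_sum fun k _ => (hA i k).mul (ih k j)
    exact ((pr_spec hP hU hb hs hf).2 z hz).differentiableAt.differentiableWithinAt

theorem it_succ (hP : S_Prim) {U : Set ℂ} {b : ℂ} (hU : IsOpen U) (hb : b ∈ U)
    (hs : StarConvex ℝ b U) {A : ℂ → Matrix ι ι ℂ}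
    (hA : ∀ i j, DifferentiableOn ℂ (fun z => A z i j) U) (m : ℕ) (i j : ι) :
    it U b A (m + 1) i j b = 0 ∧
      ∀ z ∈ U, HasDerivAt (it U b A (m + 1) i j) (∑ k, A z i k * it U b A m k j z) z :=
  pr_spec hP hU hb hs (DifferentiableOn.fun_sum fun k _ =>
    (hA i k).mul (it_diff hP hU hb hs hA m k j))

theorem it_bound (hP : S_Prim) {U : Set ℂ} {b : ℂ} (hU : IsOpen U) (hb : b ∈ U)
    (hs : StarConvex ℝ b U) {A : ℂ → Matrix ι ι ℂ}
    (hA : ∀ i j, DifferentiableOn ℂ (fun z => A z i j) U) {K : Set ℂ} (hKU : K ⊆ U)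
    (hK : ∀ z ∈ K, ∀ s : ℝ, 0 ≤ s → s ≤ 1 → b + s * (z - b) ∈ K) {M : ℝ}
    (hM : ∀ z ∈ K, ∀ i j, ‖A z i j‖ ≤ M) (hM0 : 0 ≤ M) (m : ℕ) :
    ∀ i j, ∀ z ∈ K, ‖it U b A m i j z‖ ≤ (Fintype.card ι * M * ‖z - b‖) ^ m / m.factorial := by
  induction m with
  | zero =>
    intro i j z _
    simp only [it]
    split_ifs <;> simp
  | succ m ih =>
    intro i j z hz
    obtain ⟨h0, hd⟩ := it_succ hP hU hb hs hA m i j
    set c : ℝ := Fintype.card ι * M * ‖z - b‖ with hc
    have hc0 : 0 ≤ c := by positivity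
    let g : ℝ → ℂ := fun s => it U b A (m + 1) i j (b + s * (z - b))
    let g' : ℝ → ℂ := fun s => (∑ k, A (b + s * (z - b)) i k * it U b A m k j (b + s * (z - b)))
      * (z - b)
    have hg : ∀ s : ℝ, 0 ≤ s → s ≤ 1 → HasDerivAt g (g' s) s := by
      intro s hs0 hs1
      have h1 := hd _ (hKU (hK z hz s hs0 hs1))
      have h2 : HasDerivAt (fun s : ℝ => b + (s : ℂ) * (z - b)) (z - b) s := by
        have := ((hasDerivAt_id (s : ℂ)).comp_ofReal.mul_const (z - b)).const_add b
        simpa using this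
      exact h1.comp_of_eq s h2 rfl
    have hbd : ∀ s ∈ Set.Icc (0 : ℝ) 1, ‖g s‖ ≤ (c * s) ^ (m + 1) / (m + 1).factorial := by
      have hB : ∀ s : ℝ, HasDerivAt (fun s : ℝ => (c * s) ^ (m + 1) / (m + 1).factorial)
          (c * ((c * s) ^ m / m.factorial)) s := by
        intro s
        have h1 : HasDerivAt (fun s : ℝ => c * s) c s := by
          simpa using (hasDerivAt_id s).const_mul c
        have h2 := (h1.pow (m + 1)).div_const ((m + 1).factorial : ℝ)
        have e : c * ((c * s) ^ m / m.factorial)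
            = ((m + 1 : ℕ) : ℝ) * (c * s) ^ (m + 1 - 1) * c / (m + 1).factorial := by
          rw [Nat.factorial_succ]
          have h4 : (m.factorial : ℝ) ≠ 0 := by positivity
          have h3 : ((m : ℝ) + 1) ≠ 0 := by positivity
          rw [show m + 1 - 1 = m from rfl]
          push_cast
          field_simp
        rw [e]
        exact h2
      refine image_norm_le_of_norm_deriv_right_le_deriv_boundary' (f' := g') (a := 0) (b := 1)
        (B' := fun s => c * ((c * s) ^ m / m.factorial)) ?_ ?_ ?_ ?_ ?_ ?_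
      · intro s hs
        exact (hg s hs.1 hs.2).continuousAt.continuousWithinAt
      · intro s hs
        exact (hg s hs.1 hs.2.le).hasDerivWithinAt
      · simp [g, h0]
      · intro s _
        exact (hB s).continuousAt.continuousWithinAt
      · intro s _
        exact (hB s).hasDerivWithinAt
      · intro s hs
        have hmem := hK z hz s hs.1 hs.2.le
        have hnorm : ‖b + (s : ℂ) * (z - b) - b‖ = s * ‖z - b‖ := by
          rw [add_sub_cancel_left, norm_mul, Complex.norm_real, Real.norm_of_nonneg hs.1]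
        have h1 : ‖∑ k, A (b + s * (z - b)) i k * it U b A m k j (b + s * (z - b))‖
            ≤ ∑ _k : ι, M * ((c * s) ^ m / m.factorial) := by
          refine norm_sum_le_of_le _ fun k _ => ?_
          rw [norm_mul]
          refine mul_le_mul (hM _ hmem i k) ?_ (norm_nonneg _) hM0
          have := ih k j _ hmem
          have e : (Fintype.card ι : ℝ) * M * (s * ‖z - b‖) = c * s := by rw [hc]; ring
          rwa [hnorm, e] at this
        calc ‖g' s‖ = ‖∑ k, A (b + s * (z - b)) i k * it U b A m k j (b + s * (z - b))‖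
              * ‖z - b‖ := norm_mul _ _
          _ ≤ (∑ _k : ι, M * ((c * s) ^ m / m.factorial)) * ‖z - b‖ :=
              mul_le_mul_of_nonneg_right h1 (norm_nonneg _)
          _ = c * ((c * s) ^ m / m.factorial) := by
              rw [Finset.sum_const, Finset.card_univ, nsmul_eq_mul, hc]; ring
    have := hbd 1 ⟨zero_le_one, le_rfl⟩
    simpa [g] using this

theorem segs {U : Set ℂ} {b : ℂ} (hU : IsOpen U) (hs : StarConvex ℝ b U) {z0 : ℂ}
    (hz0 : z0 ∈ U) : ∃ r > 0, ∃ K : Set ℂ, IsCompact K ∧ K ⊆ U ∧ Metric.closedBall z0 r ⊆ K ∧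
      ∀ z ∈ K, ∀ s : ℝ, 0 ≤ s → s ≤ 1 → b + s * (z - b) ∈ K := by
  obtain ⟨r, hr, hrU⟩ := Metric.nhds_basis_closedBall.mem_iff.1 (hU.mem_nhds hz0)
  refine ⟨r, hr, (fun p : ℝ × ℂ => b + p.1 * (p.2 - b)) ''
    (Set.Icc (0 : ℝ) 1 ×ˢ Metric.closedBall z0 r), ?_, ?_, ?_, ?_⟩
  · refine (isCompact_Icc.prod (isCompact_closedBall z0 r)).image ?_
    fun_prop
  · rintro _ ⟨⟨s, w⟩, ⟨hs', hw⟩, rfl⟩
    have h := hs (hrU hw) (sub_nonneg.2 hs'.2) hs'.1 (by ring)
    have e : b + (s : ℂ) * (w - b) = (1 - s) • b + s • w := by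
      simp only [Complex.real_smul]
      push_cast
      ring
    simp only [e]
    exact h
  · intro w hw
    exact ⟨(1, w), ⟨⟨zero_le_one, le_rfl⟩, hw⟩, by simp⟩
  · rintro _ ⟨⟨t, w⟩, ⟨ht, hw⟩, rfl⟩ s hs0 hs1
    refine ⟨(s * t, w), ⟨⟨mul_nonneg hs0 ht.1, ?_⟩, hw⟩, ?_⟩
    · calc s * t ≤ 1 * 1 := mul_le_mul hs1 ht.2 ht.1 zero_le_one
        _ = 1 := one_mul 1
    · push_cast
      ring

end

end Pool.Agent.MSU.ItemSEx

namespace Pool.Agent.MSU

open ItemSEx

theorem prf_S_Ex (hP : S_Prim) : S_Ex := by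
  intro ι _ _ U b hU hb hs A hA
  refine ⟨fun z => Matrix.of fun i j => ∑' m, it U b A m i j z, ?_, ?_⟩
  · ext i j
    change (∑' m, it U b A m i j b) = (1 : Matrix ι ι ℂ) i j
    rw [tsum_eq_single 0]
    · simp [it, Matrix.one_apply]
    · intro m hm
      obtain ⟨m, rfl⟩ := Nat.exists_eq_succ_of_ne_zero hm
      exact (it_succ hP hU hb hs hA m i j).1
  · intro z0 hz0 i j
    obtain ⟨r, hr, K, hK, hKU, hball, hseg⟩ := segs hU hs hz0
    have hbd : ∃ M : ℝ, 0 ≤ M ∧ ∀ z ∈ K, ∀ i j, ‖A z i j‖ ≤ M := by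
      have h1 : ∀ p : ι × ι, ∃ M : ℝ, ∀ z ∈ K, ‖A z p.1 p.2‖ ≤ M := fun p =>
        hK.exists_bound_of_continuousOn ((hA p.1 p.2).continuousOn.mono hKU)
      choose M hM using h1
      refine ⟨∑ p, |M p|, Finset.sum_nonneg fun p _ => abs_nonneg _, fun z hz i j => ?_⟩
      exact (hM (i, j) z hz).trans ((le_abs_self _).trans
        (Finset.single_le_sum (f := fun p => |M p|) (fun p _ => abs_nonneg _)
          (Finset.mem_univ (i, j))))
    obtain ⟨M, hM0, hM⟩ := hbd
    have hbK : ∃ R : ℝ, ∀ z ∈ K, ‖z - b‖ ≤ R :=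
      hK.exists_bound_of_continuousOn (by fun_prop)
    obtain ⟨R, hR⟩ := hbK
    set W : Set ℂ := Metric.ball z0 r
    have hWK : W ⊆ K := Metric.ball_subset_closedBall.trans hball
    have hzW : z0 ∈ W := Metric.mem_ball_self hr
    have hR0 : 0 ≤ R := (norm_nonneg _).trans (hR z0 (hWK hzW))
    have hle : ∀ i j m, ∀ w ∈ W, ‖it U b A m i j w‖
        ≤ (Fintype.card ι * M * R) ^ m / m.factorial := by
      intro i j m w hw
      refine (it_bound hP hU hb hs hA hKU hseg hM hM0 m i j w (hWK hw)).trans ?_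
      have := hR w (hWK hw)
      gcongr
    have hsum : Summable fun m : ℕ => (Fintype.card ι * M * R) ^ m / (m.factorial : ℝ) :=
      Real.summable_pow_div_factorial _
    have hd : ∀ i j m, DifferentiableOn ℂ (it U b A m i j) W := fun i j m =>
      (it_diff hP hU hb hs hA m i j).mono (hWK.trans hKU)
    have hWo : IsOpen W := Metric.isOpen_ball
    have h1 := Complex.hasSum_deriv_of_summable_norm hsum (hd i j) hWo (hle i j) hzW
    have h2 := (Complex.differentiableOn_tsum_of_summable_norm hsum (hd i j) hWo (hle i j)).differentiableAt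
      (hWo.mem_nhds hzW)
    have h3 : HasSum (fun m => deriv (it U b A m i j) z0)
        (∑ k, A z0 i k * ∑' m, it U b A m k j z0) := by
      have hs1 : ∀ k, HasSum (fun m => it U b A m k j z0) (∑' m, it U b A m k j z0) := fun k =>
        (Summable.of_norm_bounded hsum (fun m => hle k j m z0 hzW)).hasSum
      have hs2 : HasSum (fun m => ∑ k, A z0 i k * it U b A m k j z0)
          (∑ k, A z0 i k * ∑' m, it U b A m k j z0) :=
        hasSum_sum fun k _ => (hs1 k).mul_left _
      have hs3 := (hasSum_nat_add_iff' (f := fun m => deriv (it U b A m i j) z0) 1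
        (g := ∑ k, A z0 i k * ∑' m, it U b A m k j z0)).1
      apply hs3
      have e0 : deriv (it U b A 0 i j) z0 = 0 := by
        simp only [it]
        exact deriv_const _ _
      have e1 : ∀ m, deriv (it U b A (m + 1) i j) z0 = ∑ k, A z0 i k * it U b A m k j z0 :=
        fun m => ((it_succ hP hU hb hs hA m i j).2 z0 hz0).deriv
      simp only [Finset.sum_range_one, e0, sub_zero, e1]
      exact hs2
    have h4 := h1.unique h3
    have h5 : HasDerivAt (fun w => ∑' m, it U b A m i j w)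
        (∑ k, A z0 i k * ∑' m, it U b A m k j z0) z0 := by
      rw [← h4]
      exact h2.hasDerivAt
    simpa only [Matrix.of_apply, Matrix.mul_apply] using h5

end Pool.Agent.MSU

end

section

/-! S_Glue: comparison of the fundamental solutions of two domains on the two half planes. -/

open Matrix Polynomial Complex

namespace Pool.Agent.MSU

namespace ItemSGlue

lemma upper_open : IsOpen {z : ℂ | 0 < z.im} := isOpen_lt continuous_const Complex.continuous_im

lemma lower_open : IsOpen {z : ℂ | z.im < 0} := isOpen_lt Complex.continuous_im continuous_const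

lemma upper_preconnected : IsPreconnected {z : ℂ | 0 < z.im} :=
  (convex_halfSpace_im_gt 0).isPreconnected

lemma lower_preconnected : IsPreconnected {z : ℂ | z.im < 0} :=
  (convex_halfSpace_im_lt 0).isPreconnected

end ItemSGlue

open ItemSGlue in
theorem prf_S_Glue (hS : S_Sol) (hI : S_Inv) (hU : S_Uniq) : S_Glue := by
  intro ι _ _ B j j'
  constructor
  · obtain ⟨E, hE⟩ := hU ι ι B j {z : ℂ | 0 < z.im} upper_open upper_preconnected
      (fun z hz => upper_mem j hz) (YY B j')
      (fun z hz a b => (hS ι B j').2 z (upper_mem j' hz) a b)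
    have h1 := hE Complex.I (by simp)
    rw [(hS ι B j').1, (hS ι B j).1, one_mul] at h1
    intro z hz
    rw [hE z hz, ← h1, mul_one]
  · obtain ⟨E, hE⟩ := hU ι ι B j {z : ℂ | z.im < 0} lower_open lower_preconnected
      (fun z hz => lower_mem j hz) (YY B j')
      (fun z hz a b => (hS ι B j').2 z (lower_mem j' hz) a b)
    have h1 := hE (-Complex.I) (by simp)
    have hu : IsUnit (PP B j).det := hI ι B j (-Complex.I) (negI_mem j)
    have h2 : (PP B j)⁻¹ * PP B j' = E := by
      have h3 : PP B j' = PP B j * E := h1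
      rw [h3, ← Matrix.mul_assoc, Matrix.nonsing_inv_mul _ hu, one_mul]
    intro z hz
    rw [h2]
    exact hE z hz

end Pool.Agent.MSU

end

section

/-! Item S_PDiff: the transport is continuously differentiable in the residues. The fundamental
solution along a path is the value of the resolvent of a Volterra operator. -/

open Matrix Polynomial Filter Topology

namespace Pool.Agent.MSU

namespace ItemSPDiff

section abs

set_option linter.unusedSectionVars false

variable {M : Type} [NormedRing M] [NormedAlgebra ℝ M] [CompleteSpace M]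

/-- continuous functions on the unit interval -/
abbrev EE (M : Type) [NormedRing M] : Type := C(Set.Icc (0 : ℝ) 1, M)

/-- extension to the line -/
noncomputable def xt (f : EE M) (s : ℝ) : M := f (Set.projIcc 0 1 zero_le_one s)

lemma xt_cont (f : EE M) : Continuous (xt f) := f.continuous.comp continuous_projIcc

lemma xt_of (f : EE M) {t : ℝ} (ht : t ∈ Set.Icc (0 : ℝ) 1) : xt f t = f ⟨t, ht⟩ := by
  simp [xt, Set.projIcc_of_mem zero_le_one ht]

lemma xt_norm (f : EE M) (s : ℝ) : ‖xt f s‖ ≤ ‖f‖ := f.norm_coe_le_norm _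

lemma xt_int (f : EE M) (a b : ℝ) : IntervalIntegrable (xt f) MeasureTheory.volume a b :=
  (xt_cont f).intervalIntegrable _ _

/-- the Volterra operator -/
noncomputable def Vo : EE M →L[ℝ] EE M :=
  LinearMap.mkContinuous
    { toFun := fun f => ⟨fun t => ∫ s in (0 : ℝ)..t, xt f s,
        (intervalIntegral.continuous_primitive (fun a b => xt_int f a b) 0).comp
          continuous_subtype_val⟩
      map_add' := by
        intro f g
        ext t
        simp only [ContinuousMap.coe_mk, ContinuousMap.add_apply]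
        rw [← intervalIntegral.integral_add (xt_int f _ _) (xt_int g _ _)]
        rfl
      map_smul' := by
        intro c f
        ext t
        simp only [ContinuousMap.coe_mk, ContinuousMap.smul_apply, RingHom.id_apply]
        rw [← intervalIntegral.integral_smul]
        rfl } 1 (by
      intro f
      rw [one_mul]
      refine (ContinuousMap.norm_le _ (norm_nonneg _)).mpr fun t => ?_
      have h := intervalIntegral.norm_integral_le_of_norm_le_const
        (a := (0 : ℝ)) (b := (t : ℝ)) (f := xt f) (C := ‖f‖) (fun s _ => xt_norm f s)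
      refine h.trans ?_
      have h1 : |(t : ℝ) - 0| ≤ 1 := by
        rw [sub_zero, abs_of_nonneg t.2.1]
        exact t.2.2
      exact mul_le_of_le_one_right (norm_nonneg _) h1)

lemma Vo_apply (f : EE M) (t : Set.Icc (0 : ℝ) 1) : Vo f t = ∫ s in (0 : ℝ)..t, xt f s := rfl

/-- the primitive as a function on the line -/
noncomputable def pr (f : EE M) (t : ℝ) : M := ∫ s in (0 : ℝ)..t, xt f s

lemma pr_deriv (f : EE M) (t : ℝ) : HasDerivAt (pr f) (xt f t) t :=
  (xt_cont f).deriv_integral _ 0 t ▸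
    (intervalIntegral.integral_hasDerivAt_right (xt_int f 0 t)
      ((xt_cont f).stronglyMeasurableAtFilter _ _) (xt_cont f).continuousAt)

lemma pr_zero (f : EE M) : pr f 0 = 0 := by simp [pr]

/-- uniqueness -/
lemma inj0 (a z : EE M) (h : z = Vo (a * z)) : z = 0 := by
  have hz : ∀ t (ht : t ∈ Set.Icc (0 : ℝ) 1), pr (a * z) t = z ⟨t, ht⟩ := by
    intro t ht
    conv_rhs => rw [h]
    rfl
  have key := norm_le_gronwallBound_of_norm_deriv_right_le (f := pr (a * z))
    (f' := xt (a * z)) (δ := 0) (K := ‖a‖) (ε := 0) (a := 0) (b := 1)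
    (fun t _ => (pr_deriv (a * z) t).continuousAt.continuousWithinAt)
    (fun t _ => (pr_deriv (a * z) t).hasDerivWithinAt)
    (by rw [pr_zero, norm_zero])
    (by
      intro t ht
      have ht' : t ∈ Set.Icc (0 : ℝ) 1 := ⟨ht.1, ht.2.le⟩
      rw [add_zero, xt_of _ ht', hz t ht', ContinuousMap.mul_apply]
      exact (norm_mul_le _ _).trans
        (mul_le_mul_of_nonneg_right (a.norm_coe_le_norm _) (norm_nonneg _)))
  ext t
  have h1 := key t t.2
  rw [gronwallBound_ε0_δ0] at h1
  have h2 := norm_le_zero_iff.mp h1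
  rw [hz t t.2] at h2
  simpa using h2

/-- integration by parts -/
lemma ibp (c d : M) (p r : EE M) :
    (ContinuousMap.const _ c + Vo p) * (ContinuousMap.const _ d + Vo r)
      = ContinuousMap.const _ (c * d) + Vo (p * (ContinuousMap.const _ d + Vo r)
        + (ContinuousMap.const _ c + Vo p) * r) := by
  ext t
  have hd : ∀ s : ℝ, HasDerivAt (fun s => (c + pr p s) * (d + pr r s))
      (xt p s * (d + pr r s) + (c + pr p s) * xt r s) s := by
    intro s
    exact ((pr_deriv p s).const_add c).mul ((pr_deriv r s).const_add d)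
  have hc : ∀ f : EE M, Continuous (pr f) := fun f =>
    intervalIntegral.continuous_primitive (fun a b => xt_int f a b) 0
  have hF := intervalIntegral.integral_eq_sub_of_hasDerivAt (a := (0 : ℝ)) (b := (t : ℝ))
    (fun s _ => hd s) (by
      apply Continuous.intervalIntegrable
      exact ((xt_cont p).mul (continuous_const.add (hc r))).add
        ((continuous_const.add (hc p)).mul (xt_cont r)))
  have hI : ∫ s in (0 : ℝ)..t, xt (p * (ContinuousMap.const _ d + Vo r)
        + (ContinuousMap.const _ c + Vo p) * r) s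
      = ∫ s in (0 : ℝ)..t, (xt p s * (d + pr r s) + (c + pr p s) * xt r s) := by
    apply intervalIntegral.integral_congr
    intro s hs
    have ht := t.2
    rw [Set.uIcc_of_le ht.1] at hs
    have hs' : s ∈ Set.Icc (0 : ℝ) 1 := ⟨hs.1, hs.2.trans ht.2⟩
    simp only
    rw [xt_of _ hs', xt_of _ hs', xt_of _ hs']
    rfl
  simp only [ContinuousMap.mul_apply, ContinuousMap.add_apply, ContinuousMap.const_apply,
    Vo_apply]
  rw [hI, hF]
  simp only [pr_zero, add_zero]
  simp only [pr]
  abel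

/-- the operator `y ↦ ∫ a y` as a continuous linear function of `a` -/
noncomputable def Kop : EE M →L[ℝ] (EE M →L[ℝ] EE M) :=
  (ContinuousLinearMap.compL ℝ (EE M) (EE M) (EE M) Vo).comp (ContinuousLinearMap.mul ℝ (EE M))

lemma Kop_apply (a z : EE M) : Kop a z = Vo (a * z) := rfl

lemma unit_op (a y yi : EE M) (hy : y = 1 + Vo (a * y)) (h2 : y * yi = 1) :
    IsUnit (1 - Kop a) := by
  rw [ContinuousLinearMap.isUnit_iff_bijective]
  constructor
  · rw [injective_iff_map_eq_zero]
    intro z hz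
    have : z - Vo (a * z) = 0 := hz
    exact inj0 a z (sub_eq_zero.mp this)
  · intro f
    have hb := ibp (1 : M) 0 (a * y) (yi * a * f)
    have e0 : (ContinuousMap.const _ (0 : M) : EE M) = 0 := rfl
    have e1 : (ContinuousMap.const _ (1 : M) : EE M) = 1 := rfl
    rw [mul_zero, e0, e1, zero_add, zero_add, ← hy] at hb
    refine ⟨f + y * Vo (yi * a * f), ?_⟩
    change (f + y * Vo (yi * a * f)) - Vo (a * (f + y * Vo (yi * a * f))) = f
    have e2 : y * (yi * a * f) = a * f := by
      rw [mul_assoc yi, ← mul_assoc y, h2, one_mul]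
    rw [e2] at hb
    rw [mul_add, ← mul_assoc a y, add_comm (a * f), ← hb]
    abel

end abs

/-- the resolvent is differentiable -/
lemma resolvent {P X M : Type} [NormedAddCommGroup P] [NormedSpace ℝ P] [NormedAddCommGroup X]
    [NormedSpace ℝ X] [CompleteSpace X] [NormedAddCommGroup M] [NormedSpace ℝ M]
    (K : P →L[ℝ] (X →L[ℝ] X)) (ev : X →L[ℝ] M) (x0 : X) (hu : ∀ B, IsUnit (1 - K B)) :
    ContDiff ℝ 1 (fun B => ev (Ring.inverse (1 - K B) x0)) ∧
    ∀ B Bd, fderiv ℝ (fun B => ev (Ring.inverse (1 - K B) x0)) B Bd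
      = ev (Ring.inverse (1 - K B) (K Bd (Ring.inverse (1 - K B) x0))) := by
  let ev' : (X →L[ℝ] X) →L[ℝ] M := ev.comp (ContinuousLinearMap.apply ℝ X x0)
  have haff : ∀ B, HasFDerivAt (fun B => 1 - K B) (-K) B := by
    intro B
    exact K.hasFDerivAt.const_sub 1
  constructor
  · have hc : ContDiff ℝ 1 (fun B => ev' (Ring.inverse (1 - K B))) := by
      apply ev'.contDiff.comp
      rw [contDiff_iff_contDiffAt]
      intro B
      obtain ⟨u, hu'⟩ := hu B
      have h1 : ContDiffAt ℝ 1 (Ring.inverse : (X →L[ℝ] X) → _) (1 - K B) := by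
        rw [← hu']; exact contDiffAt_ringInverse ℝ u
      have h2 : ContDiffAt ℝ 1 (fun B => 1 - K B) B :=
        (contDiff_const.sub K.contDiff).contDiffAt
      exact h1.comp B h2
    exact hc
  · intro B Bd
    obtain ⟨u, hu'⟩ := hu B
    have hinv : Ring.inverse (1 - K B) = ↑u⁻¹ := by rw [← hu', Ring.inverse_unit]
    have h1 : HasFDerivAt (Ring.inverse : (X →L[ℝ] X) → _)
        (-ContinuousLinearMap.mulLeftRight ℝ (X →L[ℝ] X) ↑u⁻¹ ↑u⁻¹) (1 - K B) := by
      rw [← hu']; exact hasFDerivAt_ringInverse u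
    have h3 := ev'.hasFDerivAt.comp B (h1.comp B (haff B))
    have h4 : fderiv ℝ (fun B => ev (Ring.inverse (1 - K B) x0)) B = _ := h3.fderiv
    rw [h4, hinv]
    simp only [ContinuousLinearMap.comp_apply, _root_.neg_apply,
      ContinuousLinearMap.mulLeftRight_apply, map_neg, neg_neg]
    rfl

section abs2

variable {M : Type} [NormedRing M] [NormedAlgebra ℝ M] [CompleteSpace M]

theorem main_abs {P : Type} [NormedAddCommGroup P] [NormedSpace ℝ P]
    (a : P →L[ℝ] EE M) (y yi : P → EE M) (hy : ∀ B, y B = 1 + Vo (a B * y B))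
    (h2 : ∀ B, y B * yi B = 1) (t : Set.Icc (0 : ℝ) 1) :
    ContDiff ℝ 1 (fun B => y B t) ∧
    ∀ B Bd, fderiv ℝ (fun B => y B t) B Bd = y B t * Vo (yi B * a Bd * y B) t := by
  have hu : ∀ B, IsUnit (1 - (Kop.comp a) B) := fun B => unit_op (a B) (y B) (yi B) (hy B) (h2 B)
  have hr : ∀ B, y B = Ring.inverse (1 - (Kop.comp a) B) 1 := by
    intro B
    have h1 : (1 - (Kop.comp a) B) (y B) = 1 := by
      change y B - Vo (a B * y B) = 1
      rw [sub_eq_iff_eq_add]
      exact hy B
    have h3 : (Ring.inverse (1 - (Kop.comp a) B) * (1 - (Kop.comp a) B)) (y B)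
        = Ring.inverse (1 - (Kop.comp a) B) 1 := by
      change (Ring.inverse (1 - (Kop.comp a) B)) ((1 - (Kop.comp a) B) (y B)) = _
      rw [h1]
    rw [Ring.inverse_mul_cancel _ (hu B)] at h3
    exact h3
  have hfun : (fun B => y B t)
      = fun B => (ContinuousMap.evalCLM ℝ t) (Ring.inverse (1 - (Kop.comp a) B) (1 : EE M)) := by
    funext B; rw [← hr B]; rfl
  obtain ⟨hA, hB⟩ := resolvent (Kop.comp a) (ContinuousMap.evalCLM ℝ t : EE M →L[ℝ] M) 1 hu
  rw [hfun]
  refine ⟨hA, fun B Bd => ?_⟩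
  rw [hB B Bd, ← hr B]
  have h7 : (1 - (Kop.comp a) B) (y B * Vo (yi B * a Bd * y B)) = (Kop.comp a) Bd (y B) := by
    have hb := ibp (1 : M) 0 (a B * y B) (yi B * a Bd * y B)
    have e0 : (ContinuousMap.const _ (0 : M) : EE M) = 0 := rfl
    have e1 : (ContinuousMap.const _ (1 : M) : EE M) = 1 := rfl
    rw [mul_zero, e0, e1, zero_add, zero_add, ← hy B] at hb
    have e2 : y B * (yi B * a Bd * y B) = a Bd * y B := by
      rw [mul_assoc (yi B), ← mul_assoc (y B), h2 B, one_mul]
    rw [e2, map_add] at hb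
    change y B * Vo (yi B * a Bd * y B) - Vo (a B * (y B * Vo (yi B * a Bd * y B)))
      = Vo (a Bd * y B)
    rw [← mul_assoc (a B)]
    nth_rewrite 1 [hb]
    abel
  have h8 : Ring.inverse (1 - (Kop.comp a) B) ((1 - (Kop.comp a) B)
      (y B * Vo (yi B * a Bd * y B))) = y B * Vo (yi B * a Bd * y B) := by
    have h3 : (Ring.inverse (1 - (Kop.comp a) B) * (1 - (Kop.comp a) B))
        (y B * Vo (yi B * a Bd * y B)) = y B * Vo (yi B * a Bd * y B) := by
      rw [Ring.inverse_mul_cancel _ (hu B)]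
      rfl
    exact h3
  rw [← h7, h8]
  rfl

end abs2

section path

/-- the path from `i` to `-i` -/
noncomputable def qq (j : Fin 3) (s : ℝ) : ℂ :=
  bp j * (1 - (1 - 2 * (s : ℂ)) ^ 2) + (1 - 2 * (s : ℂ)) * Complex.I

/-- derivative of the path -/
noncomputable def dq (j : Fin 3) (s : ℝ) : ℂ := bp j * (4 * (1 - 2 * (s : ℂ))) - 2 * Complex.I

lemma bp_real (j : Fin 3) : ∃ x : ℝ, bp j = (x : ℂ) := by
  refine ⟨(bp j).re, ?_⟩
  apply Complex.ext
  · simp
  · simp [bp_im]

lemma qq_mem (j : Fin 3) (s : ℝ) : qq j s ∈ V j := by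
  obtain ⟨x, hx⟩ := bp_real j
  by_cases h : 1 - 2 * s = 0
  · have h1 : (1 - 2 * (s : ℂ)) = 0 := by exact_mod_cast h
    have h2 : qq j s = bp j := by rw [qq, h1]; ring
    rw [h2]; exact bp_mem j
  · left
    have h2 : qq j s = ((x * (1 - (1 - 2 * s) ^ 2) : ℝ) : ℂ) + ((1 - 2 * s : ℝ) : ℂ) * Complex.I := by
      rw [qq, hx]; push_cast; ring
    rw [h2]
    simp only [Complex.add_im, Complex.ofReal_im, Complex.mul_im, Complex.ofReal_re, Complex.I_im,
      Complex.I_re, mul_one, mul_zero, add_zero, zero_add]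
    exact h

lemma qq_zero (j : Fin 3) : qq j 0 = Complex.I := by simp [qq]

lemma qq_one (j : Fin 3) : qq j 1 = -Complex.I := by
  simp only [qq]; push_cast; ring

lemma qq_deriv (j : Fin 3) (s : ℝ) : HasDerivAt (qq j) (dq j s) s := by
  have h0 : HasDerivAt (fun s : ℝ => (s : ℂ)) 1 s := Complex.ofRealCLM.hasDerivAt
  have h1 : HasDerivAt (fun s : ℝ => (1 - 2 * (s : ℂ))) (-(2 * 1)) s :=
    (h0.const_mul 2).const_sub 1
  have h2 := ((h1.pow 2).const_sub 1).const_mul (bp j)
  have h3 := h2.add (h1.mul_const Complex.I)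
  refine h3.congr_deriv ?_
  simp only [dq]
  push_cast
  ring

lemma qq_cont (j : Fin 3) : Continuous (qq j) := by
  unfold qq; fun_prop

lemma dq_cont (j : Fin 3) : Continuous (dq j) := by
  unfold dq; fun_prop

end path

section appl

variable {ι : Type} [Fintype ι] [DecidableEq ι]

/-- the matrices as a normed algebra -/
def NM (ι : Type) : Type := Matrix ι ι ℂ

noncomputable instance : NormedRing (NM ι) :=
  (Matrix.linftyOpNormedRing : NormedRing (Matrix ι ι ℂ))

noncomputable instance : NormedAlgebra ℝ (NM ι) :=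
  (Matrix.linftyOpNormedAlgebra (R := ℝ) (n := ι) (α := ℂ) :)

/-- the space of residues -/
abbrev PT (ι : Type) : Type := Fin 3 → ι → ι → ℂ

/-- residues as matrices -/
def ofB (B : PT ι) : Fin 3 → Matrix ι ι ℂ := fun x => Matrix.of (B x)

/-- tables to matrices -/
noncomputable def LM : (ι → ι → ℂ) →L[ℝ] NM ι :=
  LinearMap.toContinuousLinearMap
    { toFun := fun f => (Matrix.of f : Matrix ι ι ℂ), map_add' := fun _ _ => rfl,
      map_smul' := fun _ _ => rfl }

lemma LM_apply (f : ι → ι → ℂ) : LM f = (Matrix.of f : Matrix ι ι ℂ) := rfl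

instance : FiniteDimensional ℝ (NM ι) :=
  Module.Finite.of_surjective (LM (ι := ι)).toLinearMap fun x => ⟨fun a b => (x : Matrix ι ι ℂ) a b, rfl⟩

instance : CompleteSpace (NM ι) := FiniteDimensional.complete ℝ (NM ι)

/-- matrices to tables -/
noncomputable def ML : NM ι →L[ℝ] (ι → ι → ℂ) :=
  LinearMap.toContinuousLinearMap
    { toFun := fun f => (fun a b => (f : Matrix ι ι ℂ) a b : ι → ι → ℂ), map_add' := fun _ _ => rfl,
      map_smul' := fun _ _ => rfl }

lemma mat_deriv (F : ℝ → NM ι) (F' : NM ι) (s : ℝ)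
    (h : ∀ a b, HasDerivAt (fun s => (F s : Matrix ι ι ℂ) a b) ((F' : Matrix ι ι ℂ) a b) s) :
    HasDerivAt F F' s := by
  have h1 : HasDerivAt (fun s => (fun a b => (F s : Matrix ι ι ℂ) a b : ι → ι → ℂ))
      (fun a b => (F' : Matrix ι ι ℂ) a b) s :=
    hasDerivAt_pi.2 fun a => hasDerivAt_pi.2 fun b => h a b
  exact (LM (ι := ι)).hasFDerivAt.comp_hasDerivAt s h1

/-- the table of the system along the path -/
noncomputable def Tp (j : Fin 3) (B : PT ι) (s : ℝ) : ι → ι → ℂ :=
  fun a b => dq j s * ((qq j s)⁻¹ * B 0 a b + (qq j s - 1)⁻¹ * B 1 a b)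

/-- the matrix of the system along the path -/
noncomputable def Ap (j : Fin 3) (B : PT ι) (s : ℝ) : NM ι := LM (Tp j B s)

lemma Ap_eq (j : Fin 3) (B : PT ι) (s : ℝ) :
    (Ap j B s : Matrix ι ι ℂ) = dq j s • AB (ofB B) (qq j s) := by
  funext a b
  rfl

lemma Ap_cont (j : Fin 3) (B : PT ι) : Continuous (Ap j B) := by
  have h0 : ∀ s, qq j s ≠ 0 := fun s => (V_ne (qq_mem j s)).1
  have h1 : ∀ s, qq j s - 1 ≠ 0 := fun s => sub_ne_zero.mpr (V_ne (qq_mem j s)).2
  refine (LM (ι := ι)).continuous.comp (continuous_pi fun a => continuous_pi fun b => ?_)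
  exact (dq_cont j).mul ((((qq_cont j).inv₀ h0).mul continuous_const).add
    ((((qq_cont j).sub continuous_const).inv₀ h1).mul continuous_const))

lemma Tp_add (j : Fin 3) (B B' : PT ι) (s : ℝ) : Tp j (B + B') s = Tp j B s + Tp j B' s := by
  funext a b
  simp only [Tp, Pi.add_apply]
  ring

lemma Tp_smul (j : Fin 3) (c : ℝ) (B : PT ι) (s : ℝ) : Tp j (c • B) s = c • Tp j B s := by
  funext a b
  simp only [Tp, Pi.smul_apply, Complex.real_smul]
  ring

/-- linear dependence on the residues -/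
noncomputable def aL (j : Fin 3) : PT ι →L[ℝ] EE (NM ι) :=
  LinearMap.toContinuousLinearMap
    { toFun := fun B => ⟨fun t => Ap j B t, (Ap_cont j B).comp continuous_subtype_val⟩
      map_add' := by
        intro B B'
        refine ContinuousMap.ext fun t => ?_
        change LM (Tp j (B + B') t) = LM (Tp j B t) + LM (Tp j B' t)
        rw [Tp_add, map_add]
      map_smul' := by
        intro c B
        refine ContinuousMap.ext fun t => ?_
        change LM (Tp j (c • B) t) = c • LM (Tp j B t)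
        rw [Tp_smul, map_smul] }

lemma aL_apply (j : Fin 3) (B : PT ι) (t : Set.Icc (0 : ℝ) 1) : aL j B t = Ap j B t := rfl

/-- the solution along the path -/
noncomputable def Yp (j : Fin 3) (B : PT ι) (s : ℝ) : NM ι := YY (ofB B) j (qq j s)

lemma Y_deriv (hS : S_Sol) (j : Fin 3) (B : PT ι) (s : ℝ) :
    HasDerivAt (Yp j B) (Ap j B s * Yp j B s) s := by
  apply mat_deriv
  intro a b
  have h := (hS ι (ofB B) j).2 (qq j s) (qq_mem j s) a b
  have h2 := h.scomp s (qq_deriv j s)
  refine h2.congr_deriv ?_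
  have h3 : ((Ap j B s * Yp j B s : NM ι) : Matrix ι ι ℂ)
      = (dq j s • AB (ofB B) (qq j s)) * YY (ofB B) j (qq j s) := by
    rw [← Ap_eq]; rfl
  rw [h3, Matrix.smul_mul, Matrix.smul_apply]

lemma Yp_cont (hS : S_Sol) (j : Fin 3) (B : PT ι) : Continuous (Yp j B) :=
  continuous_iff_continuousAt.mpr fun s => (Y_deriv hS j B s).continuousAt

/-- the solution along the path -/
noncomputable def yy (hS : S_Sol) (j : Fin 3) (B : PT ι) : EE (NM ι) :=
  ⟨fun t => Yp j B t, (Yp_cont hS j B).comp continuous_subtype_val⟩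

lemma yy_apply (hS : S_Sol) (j : Fin 3) (B : PT ι) (t : Set.Icc (0 : ℝ) 1) :
    yy hS j B t = Yp j B t := rfl

end appl

lemma ftc {M : Type} [NormedRing M] [NormedAlgebra ℝ M] [CompleteSpace M]
    (F F' : ℝ → M) (hF : ∀ s, HasDerivAt F (F' s) s) (f' : EE M)
    (hf' : ∀ t : Set.Icc (0 : ℝ) 1, f' t = F' t) (t : Set.Icc (0 : ℝ) 1) :
    F t = F 0 + Vo f' t := by
  have h2 : ∀ s ∈ Set.uIcc (0 : ℝ) t, xt f' s = F' s := by
    intro s hs
    rw [Set.uIcc_of_le t.2.1] at hs
    have hs' : s ∈ Set.Icc (0 : ℝ) 1 := ⟨hs.1, hs.2.trans t.2.2⟩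
    rw [xt_of _ hs', hf' ⟨s, hs'⟩]
  have h1 : ∫ s in (0 : ℝ)..t, xt f' s = F t - F 0 := by
    apply intervalIntegral.integral_eq_sub_of_hasDerivAt (fun s hs => (h2 s hs) ▸ hF s)
    exact xt_int _ _ _
  rw [Vo_apply, h1]
  abel

section appl2

variable {ι : Type} [Fintype ι] [DecidableEq ι]

lemma yy_eq (hS : S_Sol) (j : Fin 3) (B : PT ι) : yy hS j B = 1 + Vo (aL j B * yy hS j B) := by
  refine ContinuousMap.ext fun t => ?_
  have h := ftc _ _ (Y_deriv hS j B) (aL j B * yy hS j B) (fun t => rfl) t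
  have h0 : Yp j B 0 = 1 := by
    change YY (ofB B) j (qq j 0) = 1
    rw [qq_zero, (hS ι (ofB B) j).1]
  rw [h0] at h
  exact h

lemma yy_unit (hS : S_Sol) (hI : S_Inv) (j : Fin 3) (B : PT ι) : IsUnit (yy hS j B) := by
  rw [ContinuousMap.isUnit_iff_forall_isUnit]
  intro t
  exact (Matrix.isUnit_iff_isUnit_det _).mpr (hI ι (ofB B) j _ (qq_mem j t))

end appl2

end ItemSPDiff

end Pool.Agent.MSU

end

section

/-! Item S_Prim: primitives of holomorphic functions on star-convex open sets. -/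

open Matrix Polynomial Filter Topology
open scoped ComplexConjugate ComplexOrder

namespace Pool.Agent.MSU.ItemSPrim

theorem segs {U : Set ℂ} {b : ℂ} (hU : IsOpen U) (hs : StarConvex ℝ b U) {z0 : ℂ}
    (hz0 : z0 ∈ U) : ∃ r > 0, ∃ K : Set ℂ, IsCompact K ∧ K ⊆ U ∧ Metric.closedBall z0 r ⊆ K ∧
      ∀ z ∈ Metric.closedBall z0 r, ∀ s : ℝ, 0 ≤ s → s ≤ 1 → b + s * (z - b) ∈ K := by
  obtain ⟨r, hr, hrU⟩ := Metric.nhds_basis_closedBall.mem_iff.1 (hU.mem_nhds hz0)
  refine ⟨r, hr, (fun p : ℝ × ℂ => b + p.1 * (p.2 - b)) ''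
    (Set.Icc (0 : ℝ) 1 ×ˢ Metric.closedBall z0 r), ?_, ?_, ?_, ?_⟩
  · refine (isCompact_Icc.prod (isCompact_closedBall z0 r)).image ?_
    fun_prop
  · rintro _ ⟨⟨s, w⟩, ⟨hs', hw⟩, rfl⟩
    have h := hs (hrU hw) (sub_nonneg.2 hs'.2) hs'.1 (by ring)
    have e : b + (s : ℂ) * (w - b) = (1 - s) • b + s • w := by
      simp only [Complex.real_smul]
      push_cast
      ring
    simp only [e]
    exact h
  · intro w hw
    exact ⟨(1, w), ⟨⟨zero_le_one, le_rfl⟩, hw⟩, by simp⟩
  · intro z hz s hs0 hs1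
    exact ⟨(s, z), ⟨⟨hs0, hs1⟩, hz⟩, rfl⟩

end Pool.Agent.MSU.ItemSPrim

namespace Pool.Agent.MSU

open ItemSPrim

theorem prf_S_Prim : S_Prim := by
  intro U b hU hb hs f hf
  have hf' : DifferentiableOn ℂ (deriv f) U := hf.deriv hU
  refine ⟨fun z => ∫ s in (0 : ℝ)..1, f (b + s * (z - b)) * (z - b), by simp, ?_⟩
  intro z0 hz0
  obtain ⟨r, hr, K, hK, hKU, hball, hseg⟩ := segs hU hs hz0
  obtain ⟨M1, hM1⟩ := hK.exists_bound_of_continuousOn (hf.continuousOn.mono hKU)
  obtain ⟨M2, hM2⟩ := hK.exists_bound_of_continuousOn (hf'.continuousOn.mono hKU)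
  have hbK : ∃ R : ℝ, ∀ z ∈ K, ‖z - b‖ ≤ R :=
    hK.exists_bound_of_continuousOn (by fun_prop)
  obtain ⟨R, hR⟩ := hbK
  have hIoc : Set.uIoc (0 : ℝ) 1 = Set.Ioc 0 1 := Set.uIoc_of_le zero_le_one
  -- continuity along segments
  have hseg' : ∀ z ∈ Metric.closedBall z0 r, ∀ g : ℂ → ℂ, ContinuousOn g U →
      ContinuousOn (fun s : ℝ => g (b + s * (z - b))) (Set.Icc 0 1) := by
    intro z hz g hg
    refine hg.comp (by fun_prop) ?_
    intro s hs'
    exact hKU (hseg z hz s hs'.1 hs'.2)
  have hcont1 : ∀ z ∈ Metric.closedBall z0 r,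
      ContinuousOn (fun s : ℝ => f (b + s * (z - b)) * (z - b)) (Set.Icc 0 1) := fun z hz =>
    (hseg' z hz f hf.continuousOn).mul continuousOn_const
  have hcont2 : ∀ z ∈ Metric.closedBall z0 r,
      ContinuousOn (fun s : ℝ => deriv f (b + s * (z - b)) * s * (z - b) + f (b + s * (z - b)))
        (Set.Icc 0 1) := fun z hz =>
    (((hseg' z hz _ hf'.continuousOn).mul (by fun_prop)).mul continuousOn_const).add
      (hseg' z hz f hf.continuousOn)
  have key := intervalIntegral.hasDerivAt_integral_of_dominated_loc_of_deriv_le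
    (μ := MeasureTheory.volume) (𝕜 := ℂ) (a := 0) (b := 1)
    (F := fun (z : ℂ) (s : ℝ) => f (b + s * (z - b)) * (z - b))
    (F' := fun (z : ℂ) (s : ℝ) => deriv f (b + s * (z - b)) * s * (z - b) + f (b + s * (z - b)))
    (x₀ := z0) (s := Metric.ball z0 r) (bound := fun _ => M2 * R + M1)
    (Metric.ball_mem_nhds z0 hr) ?_ ?_ ?_ ?_ ?_ ?_
  · have h1 := key.2
    have h2 : ∫ s in (0 : ℝ)..1, (deriv f (b + s * (z0 - b)) * s * (z0 - b)
        + f (b + s * (z0 - b))) = f z0 := by
      have h3 := intervalIntegral.integral_eq_sub_of_hasDerivAt (a := (0 : ℝ)) (b := 1)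
        (f := fun s : ℝ => (s : ℂ) * f (b + s * (z0 - b)))
        (f' := fun s : ℝ => deriv f (b + s * (z0 - b)) * s * (z0 - b) + f (b + s * (z0 - b)))
        ?_ ?_
      · rw [h3]; simp
      · intro s hs'
        rw [Set.uIcc_of_le zero_le_one] at hs'
        have hm := hKU (hseg z0 (Metric.mem_closedBall_self hr.le) s hs'.1 hs'.2)
        have h4 : HasDerivAt (fun s : ℝ => b + (s : ℂ) * (z0 - b)) (z0 - b) s := by
          have := ((hasDerivAt_id (s : ℂ)).comp_ofReal.mul_const (z0 - b)).const_add b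
          simpa using this
        have h5 : HasDerivAt f (deriv f (b + (s : ℂ) * (z0 - b))) (b + (s : ℂ) * (z0 - b)) :=
          ((hf _ hm).differentiableAt (hU.mem_nhds hm)).hasDerivAt
        have h6 : HasDerivAt (fun s : ℝ => f (b + (s : ℂ) * (z0 - b)))
            (deriv f (b + (s : ℂ) * (z0 - b)) * (z0 - b)) s := h5.comp_of_eq s h4 rfl
        have h7 : HasDerivAt (fun s : ℝ => (s : ℂ)) 1 s := by
          simpa using (hasDerivAt_id (s : ℂ)).comp_ofReal
        have e : deriv f (b + s * (z0 - b)) * s * (z0 - b) + f (b + s * (z0 - b))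
            = 1 * f (b + s * (z0 - b)) + (s : ℂ) * (deriv f (b + s * (z0 - b)) * (z0 - b)) := by
          ring
        rw [e]
        exact h7.mul h6
      · refine ContinuousOn.intervalIntegrable ?_
        rw [Set.uIcc_of_le zero_le_one]
        exact hcont2 z0 (Metric.mem_closedBall_self hr.le)
    rw [h2] at h1
    exact h1
  · filter_upwards [Metric.ball_mem_nhds z0 hr] with z hz
    rw [hIoc]
    exact ((hcont1 z (Metric.ball_subset_closedBall hz)).mono
      Set.Ioc_subset_Icc_self).aestronglyMeasurable measurableSet_Ioc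
  · refine ContinuousOn.intervalIntegrable ?_
    rw [Set.uIcc_of_le zero_le_one]
    exact hcont1 z0 (Metric.mem_closedBall_self hr.le)
  · rw [hIoc]
    exact ((hcont2 z0 (Metric.mem_closedBall_self hr.le)).mono
      Set.Ioc_subset_Icc_self).aestronglyMeasurable measurableSet_Ioc
  · refine Filter.Eventually.of_forall fun s hs' z hz => ?_
    rw [hIoc] at hs'
    have hz' := Metric.ball_subset_closedBall hz
    have hm := hseg z hz' s hs'.1.le hs'.2
    have hR' := hR z (hball hz')
    have hM20 : 0 ≤ M2 := (norm_nonneg _).trans (hM2 _ hm)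
    calc ‖deriv f (b + s * (z - b)) * s * (z - b) + f (b + s * (z - b))‖
        ≤ ‖deriv f (b + s * (z - b))‖ * ‖(s : ℂ)‖ * ‖z - b‖ + ‖f (b + s * (z - b))‖ := by
          refine (norm_add_le _ _).trans ?_
          rw [norm_mul, norm_mul]
      _ ≤ M2 * 1 * R + M1 := by
          have h1 : ‖(s : ℂ)‖ ≤ 1 := by
            rw [Complex.norm_real, Real.norm_of_nonneg hs'.1.le]; exact hs'.2
          have h2 := hM2 _ hm
          have h3 := hM1 _ hm
          gcongr
      _ = M2 * R + M1 := by ring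
  · exact intervalIntegrable_const
  · refine Filter.Eventually.of_forall fun s hs' z hz => ?_
    rw [hIoc] at hs'
    have hm := hKU (hseg z (Metric.ball_subset_closedBall hz) s hs'.1.le hs'.2)
    have h4 : HasDerivAt (fun z : ℂ => b + (s : ℂ) * (z - b)) s z := by
      have := (((hasDerivAt_id z).sub_const b).const_mul (s : ℂ)).const_add b
      simpa using this
    have h5 : HasDerivAt f (deriv f (b + (s : ℂ) * (z - b))) (b + (s : ℂ) * (z - b)) :=
      ((hf _ hm).differentiableAt (hU.mem_nhds hm)).hasDerivAt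
    have h6 : HasDerivAt (fun z : ℂ => f (b + (s : ℂ) * (z - b)))
        (deriv f (b + (s : ℂ) * (z - b)) * s) z := h5.comp_of_eq z h4 rfl
    have h7 : HasDerivAt (fun z : ℂ => z - b) 1 z := (hasDerivAt_id z).sub_const b
    have h8 := h6.mul h7
    simp only [mul_one] at h8
    exact h8

end Pool.Agent.MSU

end

section

/-! Items S_Sol and S_Inv: the fundamental solution exists and is invertible. -/

open Matrix Polynomial Filter Topology
open scoped ComplexConjugate ComplexOrder

namespace Pool.Agent.MSU.ItemSSol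

theorem AB_diff {ι : Type} [Fintype ι] [DecidableEq ι] (B : Fin 3 → Matrix ι ι ℂ) (j : Fin 3)
    (a b : ι) : DifferentiableOn ℂ (fun z => AB B z a b) (V j) := by
  intro z hz
  obtain ⟨h0, h1⟩ := V_ne hz
  have h1' : z - 1 ≠ 0 := sub_ne_zero.2 h1
  have e : (fun z => AB B z a b) = fun z => z⁻¹ * B 0 a b + (z - 1)⁻¹ * B 1 a b := by
    ext z
    simp [AB]
  rw [e]
  have d0 : DifferentiableAt ℂ (fun z : ℂ => z⁻¹) z := differentiableAt_id.inv h0
  have d1 : DifferentiableAt ℂ (fun z : ℂ => (z - 1)⁻¹) z :=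
    (differentiableAt_id.sub_const (1 : ℂ)).inv h1'
  exact ((d0.mul_const _).add (d1.mul_const _)).differentiableWithinAt

end Pool.Agent.MSU.ItemSSol

namespace Pool.Agent.MSU

theorem prf_S_Sol (hE : S_Ex) (hU : S_Unit) : S_Sol := by
  intro ι _ _ B j
  have hex : ∃ Y, Sol B j Y := by
    obtain ⟨Y, hY1, hY⟩ := hE ι (V j) (bp j) (V_open j) (bp_mem j) (V_star j) (AB B)
      (ItemSSol.AB_diff B j)
    have hI : IsUnit (Y Complex.I).det := by
      refine hU ι (V j) (V_open j) (V_preconnected j) (AB B) Y (ItemSSol.AB_diff B j) hY (bp j)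
        (bp_mem j) ?_ _ (I_mem j)
      rw [hY1, det_one]
      exact isUnit_one
    refine ⟨fun z => Y z * (Y Complex.I)⁻¹, mul_nonsing_inv _ hI, fun z hz a b => ?_⟩
    have h : HasDerivAt (fun s => ∑ k, Y s a k * (Y Complex.I)⁻¹ k b)
        (∑ k, (AB B z * Y z) a k * (Y Complex.I)⁻¹ k b) z :=
      HasDerivAt.fun_sum fun k _ => (hY z hz a k).mul_const _
    have e : (AB B z * (Y z * (Y Complex.I)⁻¹)) a b
        = ∑ k, (AB B z * Y z) a k * (Y Complex.I)⁻¹ k b := by
      rw [← Matrix.mul_assoc, Matrix.mul_apply]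
    rw [e]
    exact h
  have h2 : YY B j = hex.choose := dif_pos hex
  rw [h2]
  exact hex.choose_spec

theorem prf_S_Inv (hS : S_Sol) (hU : S_Unit) : S_Inv := by
  intro ι _ _ B j z hz
  refine hU ι (V j) (V_open j) (V_preconnected j) (AB B) (YY B j) (ItemSSol.AB_diff B j)
    (hS ι B j).2 Complex.I (I_mem j) ?_ z hz
  rw [(hS ι B j).1, det_one]
  exact isUnit_one

end Pool.Agent.MSU

end

section

/-! Item S_Uniq: every solution is the fundamental solution times a constant matrix. -/

open Matrix Polynomial Filter Topology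
open scoped ComplexConjugate ComplexOrder

namespace Pool.Agent.MSU.ItemSUniq

variable {ι : Type} [Fintype ι] [DecidableEq ι]

theorem det_diffAt {Y : ℂ → Matrix ι ι ℂ} {z : ℂ}
    (hY : ∀ a b, DifferentiableAt ℂ (fun s => Y s a b) z) :
    DifferentiableAt ℂ (fun s => (Y s).det) z := by
  simp only [Matrix.det_apply']
  refine DifferentiableAt.fun_sum fun σ _ => ?_
  refine (DifferentiableAt.const_mul ?_ _)
  exact DifferentiableAt.fun_finsetProd fun i _ => hY (σ i) i

theorem inv_diffAt {Y : ℂ → Matrix ι ι ℂ} {z : ℂ}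
    (hY : ∀ a b, DifferentiableAt ℂ (fun s => Y s a b) z) (hU : IsUnit (Y z).det) (a b : ι) :
    DifferentiableAt ℂ (fun s => (Y s)⁻¹ a b) z := by
  have e : (fun s => (Y s)⁻¹ a b) = fun s => (Y s).det⁻¹ * ((Y s).updateRow b (Pi.single a 1)).det := by
    ext s
    rw [Matrix.inv_def, Ring.inverse_eq_inv', Matrix.smul_apply, Matrix.adjugate_apply, smul_eq_mul]
  rw [e]
  refine ((det_diffAt hY).inv hU.ne_zero).mul (det_diffAt fun c d => ?_)
  by_cases h : c = b
  · subst h
    simp only [Matrix.updateRow_self]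
    exact differentiableAt_const _
  · simp only [Matrix.updateRow_ne h]
    exact hY c d

/-- derivative of the inverse matrix -/
theorem inv_hasDerivAt {Y : ℂ → Matrix ι ι ℂ} {Y' : Matrix ι ι ℂ} {z : ℂ}
    (hY : ∀ a b, HasDerivAt (fun s => Y s a b) (Y' a b) z) (hU : IsUnit (Y z).det) (a b : ι) :
    HasDerivAt (fun s => (Y s)⁻¹ a b) ((-((Y z)⁻¹ * Y' * (Y z)⁻¹)) a b) z := by
  have hYd : ∀ a b, DifferentiableAt ℂ (fun s => Y s a b) z := fun a b => (hY a b).differentiableAt
  set D' : Matrix ι ι ℂ := Matrix.of fun a b => deriv (fun s => (Y s)⁻¹ a b) z with hD'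
  have hD : ∀ a b, HasDerivAt (fun s => (Y s)⁻¹ a b) (D' a b) z := fun a b =>
    (inv_diffAt hYd hU a b).hasDerivAt
  have hev : ∀ᶠ s in 𝓝 z, (Y s).det ≠ 0 :=
    (det_diffAt hYd).continuousAt.eventually_ne hU.ne_zero
  have hzero : Y' * (Y z)⁻¹ + Y z * D' = 0 := by
    ext c d
    have h1 : HasDerivAt (fun s => ∑ k, Y s c k * (Y s)⁻¹ k d)
        (∑ k, (Y' c k * (Y z)⁻¹ k d + Y z c k * D' k d)) z :=
      HasDerivAt.fun_sum fun k _ => (hY c k).mul (hD k d)
    have h2 : (fun s => ∑ k, Y s c k * (Y s)⁻¹ k d) =ᶠ[𝓝 z] fun _ => (1 : Matrix ι ι ℂ) c d := by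
      filter_upwards [hev] with s hs
      rw [← Matrix.mul_apply, mul_nonsing_inv _ (isUnit_iff_ne_zero.2 hs)]
    have h3 := h1.congr_of_eventuallyEq h2.symm
    have h4 := h3.unique (hasDerivAt_const z ((1 : Matrix ι ι ℂ) c d))
    rw [Finset.sum_add_distrib] at h4
    simpa only [Matrix.add_apply, Matrix.mul_apply, Matrix.zero_apply] using h4
  have hD'2 : D' = -((Y z)⁻¹ * Y' * (Y z)⁻¹) := by
    have h5 : (Y z)⁻¹ * (Y' * (Y z)⁻¹ + Y z * D') = 0 := by rw [hzero, Matrix.mul_zero]
    rw [Matrix.mul_add, ← Matrix.mul_assoc, ← Matrix.mul_assoc, nonsing_inv_mul _ hU,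
      Matrix.one_mul] at h5
    exact eq_neg_of_add_eq_zero_right h5
  rw [← hD'2]
  exact hD a b

end Pool.Agent.MSU.ItemSUniq

namespace Pool.Agent.MSU

/-- derivative of the inverse of the fundamental solution -/
theorem YY_inv_hasDerivAt (hS : S_Sol) (hI : S_Inv) {ι : Type} [Fintype ι] [DecidableEq ι]
    (B : Fin 3 → Matrix ι ι ℂ) (j : Fin 3) {z : ℂ} (hz : z ∈ V j) (a b : ι) :
    HasDerivAt (fun s => (YY B j s)⁻¹ a b) ((-((YY B j z)⁻¹ * AB B z)) a b) z := by
  have hu := hI ι B j z hz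
  have h := ItemSUniq.inv_hasDerivAt ((hS ι B j).2 z hz) hu a b
  have e : (YY B j z)⁻¹ * (AB B z * YY B j z) * (YY B j z)⁻¹ = (YY B j z)⁻¹ * AB B z := by
    rw [Matrix.mul_assoc, Matrix.mul_assoc, mul_nonsing_inv _ hu, Matrix.mul_one]
  rwa [e] at h

theorem prf_S_Uniq (hS : S_Sol) (hI : S_Inv) : S_Uniq := by
  intro ι κ _ _ _ B j Ω hΩ hΩc hΩV G hG
  rcases Ω.eq_empty_or_nonempty with rfl | ⟨w, hw⟩
  · exact ⟨0, fun z hz => absurd hz (Set.notMem_empty z)⟩
  refine ⟨(YY B j w)⁻¹ * G w, fun z hz => ?_⟩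
  have hconst : ∀ a b, ((YY B j z)⁻¹ * G z) a b = ((YY B j w)⁻¹ * G w) a b := by
    intro a b
    have hd : ∀ v ∈ Ω, HasDerivAt (fun s => ∑ k, (YY B j s)⁻¹ a k * G s k b) 0 v := by
      intro v hv
      have h1 : HasDerivAt (fun s => ∑ k, (YY B j s)⁻¹ a k * G s k b)
          (∑ k, ((-((YY B j v)⁻¹ * AB B v)) a k * G v k b
            + (YY B j v)⁻¹ a k * (AB B v * G v) k b)) v :=
        HasDerivAt.fun_sum fun k _ =>
          (YY_inv_hasDerivAt hS hI B j (hΩV hv) a k).mul (hG v hv k b)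
      have e : (∑ k, ((-((YY B j v)⁻¹ * AB B v)) a k * G v k b
            + (YY B j v)⁻¹ a k * (AB B v * G v) k b)) = 0 := by
        rw [Finset.sum_add_distrib, ← Matrix.mul_apply, ← Matrix.mul_apply, Matrix.neg_mul,
          Matrix.neg_apply, Matrix.mul_assoc, neg_add_cancel]
      rwa [e] at h1
    have := hΩ.is_const_of_deriv_eq_zero hΩc
      (fun v hv => (hd v hv).differentiableAt.differentiableWithinAt)
      (fun v hv => (hd v hv).deriv) hz hw
    simpa only [Matrix.mul_apply] using this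
  have h2 : (YY B j z)⁻¹ * G z = (YY B j w)⁻¹ * G w := by
    ext a b
    exact hconst a b
  rw [← h2, ← Matrix.mul_assoc, mul_nonsing_inv _ (hI ι B j z (hΩV hz)), Matrix.one_mul]

end Pool.Agent.MSU

end

section

/-! Item S_Unit: a solution matrix which is invertible at one point is invertible everywhere. -/

open Matrix Polynomial Filter Topology
open scoped ComplexConjugate ComplexOrder

namespace Pool.Agent.MSU.ItemSUnit

section
variable {ι : Type} [Fintype ι] [DecidableEq ι]

/-- derivative of the determinant -/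
theorem det_hasDerivAt (Y Y' : ℂ → Matrix ι ι ℂ) (z : ℂ)
    (h : ∀ i j, HasDerivAt (fun s => Y s i j) (Y' z i j) z) :
    HasDerivAt (fun s => (Y s).det) (∑ k, ((Y z).updateRow k (Y' z k)).det) z := by
  have h1 : ∀ σ : Equiv.Perm ι, HasDerivAt (fun s => ∏ i, Y s (σ i) i)
      (∑ k, (∏ l ∈ Finset.univ.erase k, Y z (σ l) l) * Y' z (σ k) k) z := by
    intro σ
    have := HasDerivAt.fun_finsetProd (u := (Finset.univ : Finset ι)) (f := fun i s => Y s (σ i) i)
      (f' := fun i => Y' z (σ i) i) (x := z) (fun i _ => h (σ i) i)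
    simpa only [smul_eq_mul] using this
  have h2 : HasDerivAt (fun s => (Y s).det) (∑ σ : Equiv.Perm ι, ((Equiv.Perm.sign σ : ℤ) : ℂ) *
      ∑ k, (∏ l ∈ Finset.univ.erase k, Y z (σ l) l) * Y' z (σ k) k) z := by
    simp only [Matrix.det_apply']
    exact HasDerivAt.fun_sum fun σ _ => (h1 σ).const_mul _
  convert h2 using 1
  -- the sum over the positions in the column `k` corresponds to the row `σ k`
  have h3 : ∀ k, ((Y z).updateRow k (Y' z k)).det = ∑ σ : Equiv.Perm ι,
      ((Equiv.Perm.sign σ : ℤ) : ℂ) * ((∏ l ∈ Finset.univ.erase (σ⁻¹ k), Y z (σ l) l)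
        * Y' z k (σ⁻¹ k)) := by
    intro k
    rw [Matrix.det_apply']
    refine Finset.sum_congr rfl fun σ _ => ?_
    congr 1
    rw [← Finset.prod_erase_mul _ _ (Finset.mem_univ (σ⁻¹ k))]
    congr 1
    · refine Finset.prod_congr rfl fun l hl => ?_
      have : σ l ≠ k := by
        rintro rfl
        simp at hl
      rw [Matrix.updateRow_ne this]
    · rw [show σ (σ⁻¹ k) = k from σ.apply_symm_apply k, Matrix.updateRow_self]
  simp only [h3]
  rw [Finset.sum_comm]
  refine Finset.sum_congr rfl fun σ _ => ?_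
  rw [← Finset.mul_sum]
  congr 1
  refine Fintype.sum_equiv σ⁻¹ _ _ fun k => ?_
  rw [show σ (σ⁻¹ k) = k from σ.apply_symm_apply k]

theorem det_row_sum (A Y : Matrix ι ι ℂ) (k : ι) :
    (Y.updateRow k ((A * Y) k)).det = A k k * Y.det := by
  have h : (A * Y) k = ∑ l, A k l • Y l := by
    ext j
    simp [Matrix.mul_apply]
  rw [h]
  exact Matrix.det_updateRow_sum Y k (fun l => A k l)

/-- the formula of Liouville and Jacobi -/
theorem det_deriv (A Y : ℂ → Matrix ι ι ℂ) (z : ℂ)
    (h : ∀ i j, HasDerivAt (fun s => Y s i j) ((A z * Y z) i j) z) :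
    HasDerivAt (fun s => (Y s).det) ((∑ k, A z k k) * (Y z).det) z := by
  have := det_hasDerivAt Y (fun z => A z * Y z) z h
  simpa only [det_row_sum, ← Finset.sum_mul] using this

end

end Pool.Agent.MSU.ItemSUnit

namespace Pool.Agent.MSU

open ItemSUnit

theorem prf_S_Unit : S_Unit := by
  intro ι _ _ U hU hUc A Y hA hY b hb hdet z hz
  rw [isUnit_iff_ne_zero] at hdet ⊢
  intro hzero
  apply hdet
  have hd : ∀ w ∈ U, HasDerivAt (fun s => (Y s).det) ((∑ k, A w k k) * (Y w).det) w :=
    fun w hw => det_deriv A Y w (hY w hw)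
  have hdiff : DifferentiableOn ℂ (fun s => (Y s).det) U := fun w hw =>
    (hd w hw).differentiableAt.differentiableWithinAt
  have han : AnalyticOnNhd ℂ (fun s => (Y s).det) U := hdiff.analyticOnNhd hU
  have hev : (fun s => (Y s).det) =ᶠ[𝓝 z] 0 := by
    obtain ⟨r, hr, hrU⟩ := Metric.isOpen_iff.1 hU z hz
    have ha : DifferentiableOn ℂ (fun w => ∑ k, A w k k) (Metric.ball z r) :=
      DifferentiableOn.fun_sum fun k _ => (hA k k).mono hrU
    obtain ⟨P, hP⟩ := ha.isExactOn_ball
    filter_upwards [Metric.ball_mem_nhds z hr] with w hw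
    have hg : ∀ v ∈ Metric.ball z r, HasDerivAt (fun s => (Y s).det * Complex.exp (-P s)) 0 v := by
      intro v hv
      have h1 : HasDerivAt (fun s => (Y s).det * Complex.exp (-P s))
          ((∑ k, A v k k) * (Y v).det * Complex.exp (-P v)
          + (Y v).det * (Complex.exp (-P v) * -(∑ k, A v k k))) v :=
        (hd v (hrU hv)).mul ((hP v hv).neg.cexp)
      have e : (∑ k, A v k k) * (Y v).det * Complex.exp (-P v)
          + (Y v).det * (Complex.exp (-P v) * -(∑ k, A v k k)) = 0 := by ring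
      rwa [e] at h1
    have hc := Metric.isOpen_ball.is_const_of_deriv_eq_zero (convex_ball z r).isPreconnected
      (fun v hv => (hg v hv).differentiableAt.differentiableWithinAt)
      (fun v hv => (hg v hv).deriv) hw (Metric.mem_ball_self hr)
    simp only [hzero, zero_mul] at hc
    simpa [Complex.exp_ne_zero] using hc
  exact han.eqOn_zero_of_preconnected_of_eventuallyEq_zero hUc hz hev hb

end Pool.Agent.MSU

end

section

/-! S_W: existence of the logarithmic derivative W of the fundamental solution. -/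

open Matrix Polynomial Complex

namespace Pool.Agent.MSU

namespace ItemSW

lemma det_diff {ι : Type} [Fintype ι] [DecidableEq ι] {U : Set ℂ} {M : ℂ → Matrix ι ι ℂ}
    (h : ∀ a b, DifferentiableOn ℂ (fun z => M z a b) U) :
    DifferentiableOn ℂ (fun z => (M z).det) U := by
  simp only [Matrix.det_apply]
  refine DifferentiableOn.fun_sum fun σ _ => ?_
  refine DifferentiableOn.const_smul ?_ _
  exact DifferentiableOn.fun_finsetProd fun i _ => h _ _

lemma adj_diff {ι : Type} [Fintype ι] [DecidableEq ι] {U : Set ℂ} {M : ℂ → Matrix ι ι ℂ}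
    (h : ∀ a b, DifferentiableOn ℂ (fun z => M z a b) U) (a b : ι) :
    DifferentiableOn ℂ (fun z => (M z).adjugate a b) U := by
  simp only [Matrix.adjugate_apply]
  refine det_diff fun c d => ?_
  by_cases hc : c = b
  · subst hc
    simp only [Matrix.updateRow_self]
    exact differentiableOn_const _
  · simp only [Matrix.updateRow_ne hc]
    exact h c d

lemma inv_diff {ι : Type} [Fintype ι] [DecidableEq ι] {U : Set ℂ} {M : ℂ → Matrix ι ι ℂ}
    (h : ∀ a b, DifferentiableOn ℂ (fun z => M z a b) U) (hu : ∀ z ∈ U, IsUnit (M z).det)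
    (a b : ι) : DifferentiableOn ℂ (fun z => (M z)⁻¹ a b) U := by
  simp only [Matrix.inv_def, Ring.inverse_eq_inv', Matrix.smul_apply, smul_eq_mul]
  exact ((det_diff h).fun_inv fun z hz => (hu z hz).ne_zero).fun_mul (adj_diff h a b)

lemma mul_diff {ι : Type} [Fintype ι] [DecidableEq ι] {U : Set ℂ} {M N : ℂ → Matrix ι ι ℂ}
    (hM : ∀ a b, DifferentiableOn ℂ (fun z => M z a b) U)
    (hN : ∀ a b, DifferentiableOn ℂ (fun z => N z a b) U) (a b : ι) :
    DifferentiableOn ℂ (fun z => (M z * N z) a b) U := by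
  simp only [Matrix.mul_apply]
  exact DifferentiableOn.fun_sum fun i _ => (hM a i).fun_mul (hN i b)

lemma AB_diff {ι : Type} [Fintype ι] [DecidableEq ι] (B : Fin 3 → Matrix ι ι ℂ) (j : Fin 3)
    (a b : ι) : DifferentiableOn ℂ (fun z => AB B z a b) (V j) := by
  have h : (fun z => AB B z a b) = fun z => z⁻¹ * B 0 a b + (z - 1)⁻¹ * B 1 a b := by
    funext z
    simp [AB]
  rw [h]
  intro z hz
  have h0 := (V_ne hz).1
  have h1 : z - 1 ≠ 0 := sub_ne_zero.mpr (V_ne hz).2
  refine DifferentiableAt.differentiableWithinAt ?_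
  have e0 : DifferentiableAt ℂ (fun z : ℂ => z⁻¹ * B 0 a b) z :=
    (DifferentiableAt.fun_inv (by fun_prop) h0).mul_const _
  have e1 : DifferentiableAt ℂ (fun z : ℂ => (z - 1)⁻¹ * B 1 a b) z :=
    (DifferentiableAt.fun_inv (h := fun z : ℂ => z - 1) (by fun_prop) h1).mul_const _
  exact e0.fun_add e1

end ItemSW

open ItemSW in
theorem prf_S_W (hP : S_Prim) (hS : S_Sol) (hI : S_Inv) : S_W := by
  intro ι _ _ B Bd j
  have hY : ∀ a b, DifferentiableOn ℂ (fun z => YY B j z a b) (V j) := fun a b z hz =>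
    ((hS ι B j).2 z hz a b).differentiableAt.differentiableWithinAt
  have hf : ∀ a b, DifferentiableOn ℂ
      (fun z => ((YY B j z)⁻¹ * AB Bd z * YY B j z) a b) (V j) := fun a b =>
    mul_diff (mul_diff (inv_diff hY (hI ι B j)) (AB_diff Bd j)) hY a b
  have hex : ∀ a b, ∃ F : ℂ → ℂ, F (bp j) = 0 ∧
      ∀ z ∈ V j, HasDerivAt F (((YY B j z)⁻¹ * AB Bd z * YY B j z) a b) z := fun a b =>
    hP (V j) (bp j) (V_open j) (bp_mem j) (V_star j) _ (hf a b)
  choose F _ hF using hex
  refine ⟨fun z => Matrix.of fun a b => F a b z - F a b Complex.I, ?_, ?_⟩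
  · ext a b
    simp
  · intro z hz a b
    exact (hF a b z hz).sub_const _

end Pool.Agent.MSU

end

section

/-! S_WGlue: comparison of the functions W of two domains on the two half planes. -/

open Matrix Polynomial Complex

namespace Pool.Agent.MSU

namespace ItemSWGlue

lemma upper_open : IsOpen {z : ℂ | 0 < z.im} := isOpen_lt continuous_const Complex.continuous_im

lemma lower_open : IsOpen {z : ℂ | z.im < 0} := isOpen_lt Complex.continuous_im continuous_const

lemma upper_preconnected : IsPreconnected {z : ℂ | 0 < z.im} :=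
  (convex_halfSpace_im_gt 0).isPreconnected

lemma lower_preconnected : IsPreconnected {z : ℂ | z.im < 0} :=
  (convex_halfSpace_im_lt 0).isPreconnected

/-- two functions with the same derivative on an open preconnected set -/
lemma eq_of_deriv {U : Set ℂ} (hU : IsOpen U) (hc : IsPreconnected U) {f g f' : ℂ → ℂ}
    (hf : ∀ z ∈ U, HasDerivAt f (f' z) z) (hg : ∀ z ∈ U, HasDerivAt g (f' z) z) {z z0 : ℂ}
    (hz : z ∈ U) (hz0 : z0 ∈ U) : f z - f z0 = g z - g z0 := by
  have h1 : (fun s => f s - g s) z = (fun s => f s - g s) z0 := by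
    refine hU.is_const_of_deriv_eq_zero hc (f := fun s => f s - g s) ?_ ?_ hz hz0
    · intro s hs
      exact ((hf s hs).fun_sub (hg s hs)).differentiableAt.differentiableWithinAt
    · intro s hs
      rw [((hf s hs).fun_sub (hg s hs)).deriv, sub_self]
      rfl
  have h2 : f z - g z = f z0 - g z0 := h1
  linear_combination h2

/-- conjugation with constant matrices -/
lemma conj_deriv {ι : Type} [Fintype ι] [DecidableEq ι] (P Q : Matrix ι ι ℂ)
    {W : ℂ → Matrix ι ι ℂ} {W' : Matrix ι ι ℂ} {z : ℂ}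
    (h : ∀ a b, HasDerivAt (fun s => W s a b) (W' a b) z) (a b : ι) :
    HasDerivAt (fun s => (P * W s * Q) a b) ((P * W' * Q) a b) z := by
  simp only [Matrix.mul_apply]
  refine HasDerivAt.fun_sum fun i _ => ?_
  refine HasDerivAt.mul_const ?_ _
  exact HasDerivAt.fun_sum fun k _ => (h k i).const_mul _

end ItemSWGlue

open ItemSWGlue in
theorem prf_S_WGlue (hI : S_Inv) (hG : S_Glue) : S_WGlue := by
  intro ι _ _ B Bd j j' W W' hW hW'
  obtain ⟨hup, hlo⟩ := hG ι B j j'
  constructor
  · intro z hz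
    ext a b
    have h := eq_of_deriv upper_open upper_preconnected
      (f := fun s => W s a b) (g := fun s => W' s a b)
      (f' := fun z => ((YY B j z)⁻¹ * AB Bd z * YY B j z) a b)
      (fun s hs => hW.2 s (upper_mem j hs) a b)
      (fun s hs => by
        have h1 := hW'.2 s (upper_mem j' hs) a b
        rw [← hup s hs] at h1
        exact h1) (z := z) (z0 := Complex.I) hz (by simp)
    simp only [hW.1, hW'.1, Matrix.zero_apply, sub_zero] at h
    exact h
  · intro z hz
    set Q : Matrix ι ι ℂ := (PP B j)⁻¹ * PP B j' with hQ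
    have hu1 : IsUnit (PP B j).det := hI ι B j (-Complex.I) (negI_mem j)
    have hu2 : IsUnit (PP B j').det := hI ι B j' (-Complex.I) (negI_mem j')
    have huQ : IsUnit Q.det := by
      rw [hQ, Matrix.det_mul]
      exact (Matrix.isUnit_nonsing_inv_det _ hu1).mul hu2
    have key : ∀ s : ℂ, s.im < 0 → (YY B j' s)⁻¹ * AB Bd s * YY B j' s
        = Q⁻¹ * ((YY B j s)⁻¹ * AB Bd s * YY B j s) * Q := by
      intro s hs
      rw [hlo s hs, Matrix.mul_inv_rev]
      simp only [Matrix.mul_assoc]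
    ext a b
    have h := eq_of_deriv lower_open lower_preconnected
      (f := fun s => W' s a b) (g := fun s => (Q⁻¹ * W s * Q) a b)
      (f' := fun z => ((YY B j' z)⁻¹ * AB Bd z * YY B j' z) a b)
      (fun s hs => hW'.2 s (lower_mem j' hs) a b)
      (fun s hs => by
        have h1 := conj_deriv Q⁻¹ Q (fun a b => hW.2 s (lower_mem j hs) a b) a b
        rw [← key s hs] at h1
        exact h1) (z := z) (z0 := -Complex.I) hz (by simp)
    rw [Matrix.sub_apply, h, Matrix.mul_sub, Matrix.sub_mul, Matrix.sub_apply]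

end Pool.Agent.MSU

end

section

/-! S_Z0: the scaled transport at the parameter zero. -/

open Matrix Polynomial Complex

namespace Pool.Agent.MSU

namespace ItemSZ0

lemma log_of_polar {z : ℂ} {θ : ℝ} (h1 : -Real.pi < θ) (h2 : θ ≤ Real.pi)
    (hre : z.re = √2 * Real.cos θ) (him : z.im = √2 * Real.sin θ) :
    Complex.log z = (Real.log (√2) : ℂ) + θ * I := by
  have h2' : (0 : ℝ) < √2 := by positivity
  have hz : z = (√2 : ℝ) * Complex.exp (θ * I) := by
    apply Complex.ext
    · rw [hre, Complex.re_ofReal_mul, Complex.exp_ofReal_mul_I_re]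
    · rw [him, Complex.im_ofReal_mul, Complex.exp_ofReal_mul_I_im]
  rw [hz, Complex.log_ofReal_mul h2' (Complex.exp_ne_zero _), Complex.log_exp]
  · simpa using h1
  · simpa using h2

lemma sq2 : (√2 : ℝ) * (√2 / 2) = 1 := by
  have := Real.mul_self_sqrt (show (0 : ℝ) ≤ 2 by norm_num)
  linarith

lemma cos34 : Real.cos (3 * Real.pi / 4) = -(√2 / 2) := by
  rw [show 3 * Real.pi / 4 = Real.pi - Real.pi / 4 by ring, Real.cos_pi_sub,
    Real.cos_pi_div_four]

lemma sin34 : Real.sin (3 * Real.pi / 4) = √2 / 2 := by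
  rw [show 3 * Real.pi / 4 = Real.pi - Real.pi / 4 by ring, Real.sin_pi_sub,
    Real.sin_pi_div_four]

lemma log_a : Complex.log (1 + I) = (Real.log (√2) : ℂ) + ((Real.pi / 4 : ℝ) : ℂ) * I := by
  have hpi := Real.pi_pos
  apply log_of_polar
  · linarith
  · linarith
  · rw [Real.cos_pi_div_four, sq2]; simp
  · rw [Real.sin_pi_div_four, sq2]; simp

lemma log_b : Complex.log (1 - I) = (Real.log (√2) : ℂ) + ((-(Real.pi / 4) : ℝ) : ℂ) * I := by
  have hpi := Real.pi_pos
  apply log_of_polar
  · linarith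
  · linarith
  · rw [Real.cos_neg, Real.cos_pi_div_four, sq2]; simp
  · rw [Real.sin_neg, Real.sin_pi_div_four, mul_neg, sq2]; simp

lemma log_c : Complex.log (I - 1) = (Real.log (√2) : ℂ) + ((3 * Real.pi / 4 : ℝ) : ℂ) * I := by
  have hpi := Real.pi_pos
  apply log_of_polar
  · linarith
  · linarith
  · rw [cos34, mul_neg, sq2]; simp
  · rw [sin34, sq2]; simp

lemma log_d : Complex.log (-I - 1) = (Real.log (√2) : ℂ) + ((-(3 * Real.pi / 4) : ℝ) : ℂ) * I := by
  have hpi := Real.pi_pos
  apply log_of_polar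
  · linarith
  · linarith
  · rw [Real.cos_neg, cos34, mul_neg, sq2]; simp
  · rw [Real.sin_neg, sin34, mul_neg, sq2]; simp

lemma Lg0_val (j : Fin 3) : Lg0 j (-I) - Lg0 j I = aa j := by
  unfold Lg0 aa
  split_ifs with h
  · rw [neg_neg, Complex.log_I, Complex.log_neg_I]; ring
  · rw [Complex.log_I, Complex.log_neg_I]; ring

lemma Lg1_val (j : Fin 3) : Lg1 j (-I) - Lg1 j I = bb j := by
  unfold Lg1 bb
  split_ifs with h
  · rw [log_c, log_d]; push_cast; ring
  · rw [sub_neg_eq_add, log_a, log_b]; push_cast; ring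

lemma AB_block0 {r : ℕ} (β : Fin 3 → Matrix (Fin r) (Fin r) ℂ) (z : ℂ) :
    AB (fun x => fromBlocks (((0 : ℝ) : ℂ) • β x) (β x) 0 0) z =
      fromBlocks 0 (AB β z) (0 : Matrix (Fin r) (Fin r) ℂ) 0 := by
  unfold AB
  rw [fromBlocks_smul, fromBlocks_smul, fromBlocks_add]
  congr 1
  · simp
  · simp
  · simp

end ItemSZ0

open ItemSZ0 in
theorem prf_S_Z0 (hS : S_Sol) (hU : S_Uniq) : S_Z0 := by
  intro r β j
  set Bh : Fin 3 → Matrix (Fin r ⊕ Fin r) (Fin r ⊕ Fin r) ℂ :=
    fun x => fromBlocks (((0 : ℝ) : ℂ) • β x) (β x) 0 0 with hBh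
  set L : ℂ → Matrix (Fin r) (Fin r) ℂ :=
    fun z => (Lg0 j z - Lg0 j I) • β 0 + (Lg1 j z - Lg1 j I) • β 1 with hL
  have hd : ∀ z ∈ V j, ∀ a b, HasDerivAt
      (fun s => (fromBlocks 1 (L s) (0 : Matrix (Fin r) (Fin r) ℂ) 1 :
        Matrix (Fin r ⊕ Fin r) (Fin r ⊕ Fin r) ℂ) a b)
      ((AB Bh z * fromBlocks 1 (L z) (0 : Matrix (Fin r) (Fin r) ℂ) 1) a b) z := by
    intro z hz a b
    have e1 : AB Bh z * fromBlocks 1 (L z) (0 : Matrix (Fin r) (Fin r) ℂ) 1
        = fromBlocks 0 (AB β z) 0 0 := by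
      rw [hBh, AB_block0, fromBlocks_multiply]
      simp
    rw [e1]
    rcases a with a | a <;> rcases b with b | b
    · simp only [fromBlocks_apply₁₁, Matrix.zero_apply]
      exact hasDerivAt_const _ _
    · simp only [fromBlocks_apply₁₂]
      have h0 := ((Lg0_deriv hz).sub_const (Lg0 j I)).mul_const (β 0 a b)
      have h1 := ((Lg1_deriv hz).sub_const (Lg1 j I)).mul_const (β 1 a b)
      have h2 := h0.fun_add h1
      simpa [AB, hL] using h2
    · simp only [fromBlocks_apply₂₁, Matrix.zero_apply]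
      exact hasDerivAt_const _ _
    · simp only [fromBlocks_apply₂₂, Matrix.zero_apply]
      exact hasDerivAt_const _ _
  obtain ⟨E, hE⟩ := hU (Fin r ⊕ Fin r) (Fin r ⊕ Fin r) Bh j (V j) (V_open j)
    (V_preconnected j) subset_rfl (fun s => fromBlocks 1 (L s) 0 1) hd
  have hLI : L I = 0 := by simp [hL]
  have hE1 : E = 1 := by
    have h1 := hE Complex.I (I_mem j)
    simp only [hLI] at h1
    rw [(hS (Fin r ⊕ Fin r) Bh j).1, one_mul, fromBlocks_one] at h1
    exact h1.symm
  have h2 := hE (-Complex.I) (negI_mem j)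
  rw [hE1, mul_one] at h2
  unfold ZZ PP
  rw [← h2, toBlocks_fromBlocks₁₂]
  simp only [hL]
  rw [Lg0_val, Lg1_val]

end Pool.Agent.MSU

end

section

/-! The block system computing the scaled transport. -/

open Matrix Polynomial Complex

namespace Pool.Agent.MSU

namespace ItemSZBlock

lemma AB_block {r : ℕ} (t : ℝ) (β : Fin 3 → Matrix (Fin r) (Fin r) ℂ) (z : ℂ) :
    AB (fun x => fromBlocks ((t : ℂ) • β x) (β x) 0 0) z =
      fromBlocks ((t : ℂ) • AB β z) (AB β z) (0 : Matrix (Fin r) (Fin r) ℂ) 0 := by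
  unfold AB
  rw [fromBlocks_smul, fromBlocks_smul, fromBlocks_add]
  congr 1
  · rw [smul_add, smul_comm (z⁻¹) (t : ℂ), smul_comm ((z - 1)⁻¹) (t : ℂ)]
  · simp
  · simp

lemma AB_smul {r : ℕ} (t : ℝ) (β : Fin 3 → Matrix (Fin r) (Fin r) ℂ) (z : ℂ) :
    AB (fun x => (t : ℂ) • β x) z = (t : ℂ) • AB β z := by
  unfold AB
  rw [smul_add, smul_comm (z⁻¹) (t : ℂ), smul_comm ((z - 1)⁻¹) (t : ℂ)]

lemma mul_block {r : ℕ} (A B : Matrix (Fin r) (Fin r) ℂ)
    (Y : Matrix (Fin r ⊕ Fin r) (Fin r ⊕ Fin r) ℂ) (a b : Fin r) :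
    (fromBlocks A B (0 : Matrix (Fin r) (Fin r) ℂ) 0 * Y) (Sum.inl a) (Sum.inr b) =
      (A * Y.toBlocks₁₂) a b + (B * Y.toBlocks₂₂) a b ∧
    (fromBlocks A B (0 : Matrix (Fin r) (Fin r) ℂ) 0 * Y) (Sum.inr a) (Sum.inr b) = 0 := by
  constructor
  · simp [Matrix.mul_apply, Fintype.sum_sum_type, toBlocks₁₂, toBlocks₂₂]
  · simp [Matrix.mul_apply, Fintype.sum_sum_type]

end ItemSZBlock

open ItemSZBlock in
theorem prf_S_ZBlock (hS : S_Sol) (hU : S_Uniq) : S_ZBlock := by
  intro r t β j
  set Bh : Fin 3 → Matrix (Fin r ⊕ Fin r) (Fin r ⊕ Fin r) ℂ :=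
    fun x => fromBlocks ((t : ℂ) • β x) (β x) 0 0 with hBh
  obtain ⟨hI, hd⟩ := hS (Fin r ⊕ Fin r) Bh j
  set Y := YY Bh j with hY
  have hAB : ∀ z, AB Bh z = fromBlocks ((t : ℂ) • AB β z) (AB β z)
      (0 : Matrix (Fin r) (Fin r) ℂ) 0 := fun z => AB_block t β z
  have h22 : ∀ z ∈ V j, (Y z).toBlocks₂₂ = 1 := by
    intro z hz
    ext a b
    have hc : (fun s => Y s (Sum.inr a) (Sum.inr b)) z =
        (fun s => Y s (Sum.inr a) (Sum.inr b)) Complex.I := by
      refine (V_open j).is_const_of_deriv_eq_zero (V_preconnected j)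
        (f := fun s => Y s (Sum.inr a) (Sum.inr b)) ?_ ?_ hz (I_mem j)
      · intro s hs
        exact (hd s hs (Sum.inr a) (Sum.inr b)).differentiableAt.differentiableWithinAt
      · intro s hs
        rw [(hd s hs (Sum.inr a) (Sum.inr b)).deriv, hAB, (mul_block _ _ _ a b).2]
        rfl
    change Y z (Sum.inr a) (Sum.inr b) = _
    have hc' : Y z (Sum.inr a) (Sum.inr b) = Y Complex.I (Sum.inr a) (Sum.inr b) := hc
    rw [hc', hI]
    simp [Matrix.one_apply]
  set X : ℂ → Matrix (Fin r) (Fin r) ℂ := fun z => 1 + (t : ℂ) • (Y z).toBlocks₁₂ with hX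
  have hXd : ∀ z ∈ V j, ∀ a b,
      HasDerivAt (fun s => X s a b) ((AB (fun x => (t : ℂ) • β x) z * X z) a b) z := by
    intro z hz a b
    have h1 := ((hd z hz (Sum.inl a) (Sum.inr b)).const_mul (t : ℂ)).const_add
      ((1 : Matrix (Fin r) (Fin r) ℂ) a b)
    have e1 : (AB (fun x => (t : ℂ) • β x) z * X z) a b =
        (t : ℂ) * (AB Bh z * Y z) (Sum.inl a) (Sum.inr b) := by
      rw [hAB, (mul_block _ _ _ a b).1, h22 z hz, AB_smul]
      simp only [hX]
      rw [mul_add, mul_one, mul_one, Matrix.add_apply]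
      simp only [Matrix.smul_mul, Matrix.mul_smul, Matrix.smul_apply, smul_eq_mul]
      ring
    rw [e1]
    exact h1
  obtain ⟨E, hE⟩ := hU (Fin r) (Fin r) (fun x => (t : ℂ) • β x) j (V j) (V_open j)
    (V_preconnected j) subset_rfl X hXd
  have hXI : X Complex.I = 1 := by
    simp only [hX, hI]
    ext a b
    simp [toBlocks₁₂]
  have hE1 : E = 1 := by
    have h1 := hE Complex.I (I_mem j)
    rw [hXI, (hS (Fin r) (fun x => (t : ℂ) • β x) j).1, one_mul] at h1
    exact h1.symm
  have h2 := hE (-Complex.I) (negI_mem j)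
  rw [hE1, mul_one] at h2
  unfold PP ZZ
  rw [← h2]
  rfl

end Pool.Agent.MSU

end

section

/-! In a window of length less than one the best minor does not vanish at the point. -/

open Matrix Polynomial Filter Topology
open scoped ComplexConjugate ComplexOrder

namespace Pool.Agent.MSU

namespace ItemTLoc

variable {r k : ℕ}

theorem exists_max (w : Fin r → ℝ) (p : (Fin k → Fin r) → ℂ[X]) (a : ℂ)
    (h : ∃ J, (p J).eval a ≠ 0) : ∃ J0, (p J0).eval a ≠ 0 ∧
      ∀ J, (p J).eval a ≠ 0 → ∑ b, w (J b) ≤ ∑ b, w (J0 b) := by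
  classical
  obtain ⟨J1, h1⟩ := h
  obtain ⟨J0, h0, hm⟩ := Finset.exists_max_image
    (Finset.univ.filter fun J : Fin k → Fin r => (p J).eval a ≠ 0) (fun J => ∑ b, w (J b))
    ⟨J1, by simpa using h1⟩
  refine ⟨J0, by simpa using h0, fun J hJ => hm J (by simpa using hJ)⟩

/-- the matrix of the exchanged minors -/
noncomputable def PM (p : (Fin k → Fin r) → ℂ[X]) (J0 J : Fin k → Fin r) :
    Matrix (Fin k) (Fin k) ℂ[X] := Matrix.of fun b l => p (Function.update J0 l (J b))

theorem det_PM (W : Matrix (Fin r) (Fin k) ℂ[X]) (c : ℂ[X]) (p : (Fin k → Fin r) → ℂ[X])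
    (hk : 0 < k) (hc : c ≠ 0) (h : ∀ J, (W.submatrix J id).det = c * p J) (J0 J : Fin k → Fin r) :
    (PM p J0 J).det = (p J0) ^ (k - 1) * p J := by
  have h1 : c • PM p J0 J = W.submatrix J id * adjugate (W.submatrix J0 id) := by
    rw [← Pool.Agent.Work.MP_5e5ff1_ag.T.submatrix_mul_left]
    ext1 b l
    rw [Matrix.submatrix_apply, id,
      Pool.Agent.Work.MP_5e5ff1_ag.T.mul_adjugate_minor, h]
    rfl
  have h2 := congrArg Matrix.det h1
  rw [Matrix.det_smul, Matrix.det_mul, Matrix.det_adjugate, h J, h J0, Fintype.card_fin] at h2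
  have h3 : c ^ k * (PM p J0 J).det = c ^ k * ((p J0) ^ (k - 1) * p J) := by
    rw [h2]
    obtain ⟨m, rfl⟩ : ∃ m, k = m + 1 := ⟨k - 1, by omega⟩
    rw [Nat.add_sub_cancel]
    ring
  exact mul_left_cancel₀ (pow_ne_zero k hc) h3

end ItemTLoc

open ItemTLoc in
theorem prf_T_Loc : T_Loc := by
  classical
  intro r k W c p a w hk hc hW hw hex J hJ
  obtain ⟨J0, h0, hmax⟩ := exists_max w p a hex
  refine ⟨J0, h0, ?_⟩
  have hvan : ∀ l i, w (J0 l) < w i → (p (Function.update J0 l i)).eval a = 0 := by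
    intro l i hi
    by_contra hne
    have h1 := hmax _ hne
    have h2 : ∑ b, w (Function.update J0 l i b) = ∑ b, w (J0 b) + (w i - w (J0 l)) := by
      rw [← Finset.add_sum_erase _ _ (Finset.mem_univ l),
        ← Finset.add_sum_erase _ (fun b => w (J0 b)) (Finset.mem_univ l)]
      have h3 : ∑ x ∈ Finset.univ.erase l, w (Function.update J0 l i x)
          = ∑ x ∈ Finset.univ.erase l, w (J0 x) := by
        refine Finset.sum_congr rfl fun x hx => ?_
        rw [Function.update_of_ne (Finset.ne_of_mem_erase hx)]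
      rw [h3, Function.update_self]
      ring
    linarith
  have hdet := det_PM W c p hk hc hW J0 J
  have hp0 : p J0 ≠ 0 := by
    intro h
    apply h0
    rw [h, eval_zero]
  have hdne : (PM p J0 J).det ≠ 0 := by
    rw [hdet]
    exact mul_ne_zero (pow_ne_zero _ hp0) hJ
  have hmult : rootMultiplicity a (PM p J0 J).det = rootMultiplicity a (p J) := by
    rw [hdet, rootMultiplicity_mul (by rw [← hdet]; exact hdne)]
    have h1 : rootMultiplicity a (p J0 ^ (k - 1)) = 0 := by
      apply rootMultiplicity_eq_zero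
      rw [IsRoot.def, eval_pow]
      exact pow_ne_zero _ h0
    rw [h1, zero_add]
  set n := rootMultiplicity a (p J) with hn
  let N : Equiv.Perm (Fin k) → Finset (Fin k) := fun σ =>
    Finset.univ.filter fun l => w (J0 l) < w (J (σ l))
  have hσ : ∃ σ, (N σ).card ≤ n := by
    by_contra hcon
    push Not at hcon
    have hdvd : (X - C a) ^ (n + 1) ∣ (PM p J0 J).det := by
      rw [Matrix.det_apply]
      refine Finset.dvd_sum fun σ _ => ?_
      have h1 : (X - C a) ^ (N σ).card ∣ ∏ l, PM p J0 J (σ l) l := by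
        rw [← Finset.prod_const]
        refine (Finset.prod_dvd_prod_of_dvd _ _ fun l hl => ?_).trans
          (Finset.prod_dvd_prod_of_subset _ _ _ (Finset.subset_univ (N σ)))
        rw [dvd_iff_isRoot]
        exact hvan l (J (σ l)) (by simpa [N] using hl)
      have h2 : (X - C a) ^ (n + 1) ∣ (X - C a) ^ (N σ).card := pow_dvd_pow _ (hcon σ)
      exact (h2.trans h1).trans (by rw [Units.smul_def, zsmul_eq_mul]; exact Dvd.intro_left _ rfl)
    have h3 := (le_rootMultiplicity_iff hdne).2 hdvd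
    rw [hmult] at h3
    omega
  obtain ⟨σ, hσn⟩ := hσ
  have h4 : ∑ b, w (J b) - ∑ l, w (J0 l) = ∑ l, (w (J (σ l)) - w (J0 l)) := by
    rw [Finset.sum_sub_distrib, Equiv.sum_comp σ (fun b => w (J b))]
  have h5 : ∑ l, (w (J (σ l)) - w (J0 l)) ≤ ((N σ).card : ℝ) := by
    have h6 : ((N σ).card : ℝ) = ∑ l, if w (J0 l) < w (J (σ l)) then (1 : ℝ) else 0 := by
      simp [N]
    rw [h6]
    refine Finset.sum_le_sum fun l _ => ?_
    split_ifs with h
    · exact (hw _ _).le
    · linarith
  have h7 : ((N σ).card : ℝ) ≤ n := by exact_mod_cast hσn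
  linarith

end Pool.Agent.MSU

end

section

/-! The best minor at infinity, by reversing polynomials. -/

open Matrix Polynomial Filter Topology
open scoped ComplexConjugate ComplexOrder

namespace Pool.Agent.MSU

namespace ItemTLocInf

/-- `reflect N` as an additive map -/
noncomputable def rf (N : ℕ) : ℂ[X] →+ ℂ[X] where
  toFun := reflect N
  map_zero' := reflect_zero
  map_add' := fun f g => reflect_add f g N

theorem rf_apply (N : ℕ) (f : ℂ[X]) : rf N f = reflect N f := rfl

theorem natDegree_prod_le' {ι : Type*} (s : Finset ι) (f : ι → ℂ[X]) (N : ℕ)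
    (h : ∀ i ∈ s, (f i).natDegree ≤ N) : (∏ i ∈ s, f i).natDegree ≤ s.card * N := by
  refine (natDegree_prod_le s f).trans ?_
  refine (Finset.sum_le_card_nsmul s _ N h).trans ?_
  rw [smul_eq_mul]

theorem reflect_prod {ι : Type*} (s : Finset ι) (f : ι → ℂ[X]) (N : ℕ)
    (h : ∀ i ∈ s, (f i).natDegree ≤ N) :
    reflect (s.card * N) (∏ i ∈ s, f i) = ∏ i ∈ s, reflect N (f i) := by
  classical
  induction s using Finset.induction_on with
  | empty => simp
  | insert a s ha ih =>
    rw [Finset.prod_insert ha, Finset.prod_insert ha, Finset.card_insert_of_notMem ha,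
      ← ih fun i hi => h i (Finset.mem_insert_of_mem hi), Nat.succ_mul, add_comm,
      reflect_mul _ _ (h a (Finset.mem_insert_self a s))
        (natDegree_prod_le' s f N fun i hi => h i (Finset.mem_insert_of_mem hi))]

theorem det_reflect {k : ℕ} (A : Matrix (Fin k) (Fin k) ℂ[X]) (N : ℕ)
    (h : ∀ i j, (A i j).natDegree ≤ N) :
    (A.map (reflect N)).det = reflect (k * N) A.det := by
  rw [← rf_apply, Matrix.det_apply, Matrix.det_apply, map_sum]
  refine Finset.sum_congr rfl fun σ _ => ?_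
  rw [Units.smul_def, Units.smul_def, map_zsmul, rf_apply]
  congr 1
  have h1 := reflect_prod (Finset.univ : Finset (Fin k)) (fun i => A (σ i) i) N
    (fun i _ => h _ _)
  rw [Finset.card_univ, Fintype.card_fin] at h1
  rw [h1]
  rfl

theorem reflect_shift (P : ℂ[X]) (m M : ℕ) (hP : P.natDegree ≤ m) (hm : m ≤ M) :
    reflect M P = X ^ (M - m) * reflect m P := by
  have h1 := reflect_mul (1 : ℂ[X]) P (F := M - m) (G := m) (by simp) hP
  rw [one_mul, Nat.sub_add_cancel hm] at h1
  rw [h1]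
  congr 1
  have h2 := reflect_C (1 : ℂ) (M - m)
  rw [C_1, one_mul] at h2
  exact h2

theorem coeff_reflect' (P : ℂ[X]) (m i : ℕ) (hi : i ≤ m) :
    (reflect m P).coeff i = P.coeff (m - i) := by
  rw [coeff_reflect, revAt_le hi]

end ItemTLocInf

open ItemTLocInf in
theorem prf_T_LocInf (hT : T_Loc) : T_LocInf := by
  classical
  intro r k W m w hk hw hdeg hex J hJ
  set N : ℕ := (Finset.univ.sup fun il : Fin r × Fin k => (W il.1 il.2).natDegree) + m with hN
  have hWN : ∀ i l, (W i l).natDegree ≤ N := by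
    intro i l
    have := Finset.le_sup (f := fun il : Fin r × Fin k => (W il.1 il.2).natDegree)
      (Finset.mem_univ (i, l))
    simp only at this
    omega
  have hmN : m ≤ k * N := by
    calc m ≤ N := by omega
      _ = 1 * N := (one_mul N).symm
      _ ≤ k * N := Nat.mul_le_mul_right N hk
  have hdet : ∀ J : Fin k → Fin r, ((W.map (reflect N)).submatrix J id).det
      = X ^ (k * N - m) * reflect m ((W.submatrix J id).det) := by
    intro J
    have h1 : (W.map (reflect N)).submatrix J id = (W.submatrix J id).map (reflect N) := rfl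
    rw [h1, det_reflect (W.submatrix J id) N (fun i j => hWN (J i) j),
      reflect_shift _ m (k * N) (hdeg J) hmN]
  have heval : ∀ J : Fin k → Fin r, (reflect m ((W.submatrix J id).det)).eval 0
      = ((W.submatrix J id).det).coeff m := by
    intro J
    rw [← coeff_zero_eq_eval_zero, coeff_reflect' _ m 0 (Nat.zero_le m), Nat.sub_zero]
  obtain ⟨J1, hJ1⟩ := hex
  have hne : reflect m ((W.submatrix J id).det) ≠ 0 := by
    rw [Ne, reflect_eq_zero_iff]
    exact hJ
  obtain ⟨J', h1, h2⟩ := hT r k (W.map (reflect N)) (X ^ (k * N - m))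
    (fun J => reflect m ((W.submatrix J id).det)) 0 w hk (pow_ne_zero _ X_ne_zero) hdet hw
    ⟨J1, by rw [heval]; exact hJ1⟩ J hne
  refine ⟨J', by rw [← heval]; exact h1, ?_⟩
  have h3 : rootMultiplicity 0 (reflect m ((W.submatrix J id).det))
      ≤ m - ((W.submatrix J id).det).natDegree := by
    rw [rootMultiplicity_eq_natTrailingDegree']
    apply natTrailingDegree_le_of_ne_zero
    rw [coeff_reflect' _ m _ (Nat.sub_le _ _), Nat.sub_sub_self (hdeg J)]
    exact leadingCoeff_ne_zero.2 hJ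
  have h4 : ((rootMultiplicity 0 (reflect m ((W.submatrix J id).det)) : ℕ) : ℝ)
      + (((W.submatrix J id).det).natDegree : ℝ) ≤ m := by
    have h5 := hdeg J
    have h6 : rootMultiplicity 0 (reflect m ((W.submatrix J id).det))
      + ((W.submatrix J id).det).natDegree ≤ m := by omega
    exact_mod_cast h6
  linarith

end Pool.Agent.MSU

end

section

/-! Level 1 theorem: assembly. -/

open Matrix Polynomial Filter Topology
open scoped ComplexConjugate ComplexOrder

namespace Pool.Agent.MSU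

theorem prf_T_MSB (hP : T_Path) (hD : E_Dec) (hS : T_Sol) : T_MSB := by
  intro r γ w hγ hw hsum hst
  rcases Nat.eq_zero_or_pos r with h0 | h0
  · subst h0
    refine ⟨fun _ _ => 1, fun _ => 1, ⟨?_, ?_, ?_, ?_⟩, ?_, ?_, ?_⟩
    · intro j a
      exact a.elim0
    · intros
      rfl
    · intro j z _
      ext a
      exact a.elim0
    · intro j
      simp
    · intro x
      refine ⟨1, 1 / 2, by norm_num, le_rfl, fun ζ _ => ⟨fun _ a => a.elim0, fun _ a => a.elim0⟩⟩
    · intro j z _
      simp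
    · intro x
      simp
  · obtain ⟨x, hx⟩ := hP r γ w h0 hγ hw hsum hst
    obtain ⟨h1, h2, -⟩ := hD r γ w 1 x h0 hγ hsum one_pos hx
    have h3 : (fun y i => 1 * w y i) = w := by funext y i; ring
    rw [h3] at h1
    exact hS r γ w _ _ _ hγ hw h1 h2

end Pool.Agent.MSU

end
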