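import Mathlib
import Pool.Agent.Work.MP_5e5ff1_ag.Bd.B01
import Pool.Agent.Work.MP_5e5ff1_ag.Defs

/-! Bundle of small proof modules (one section per former module). -/

section

/-! Torsion points whose whole Galois orbit lies in a closed periodic set lie in finitely many
torsion cosets contained in that set. -/

open Finset Filter Topology

namespace Pool.Agent.Work.MP_5e5ff1_ag

variable {ι : Type*} [Fintype ι]

/-- pairing -/
def pr (k : ι → ℤ) (v : ι → ℚ) : ℚ := ∑ i, (k i : ℚ) * v i

lemma pr_add (k l : ι → ℤ) (v : ι → ℚ) : pr (k + l) v = pr k v + pr l v := by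
  unfold pr
  rw [← Finset.sum_add_distrib]
  apply Finset.sum_congr rfl
  intro i _
  simp only [Pi.add_apply]; push_cast; ring

lemma pr_smul (c : ℤ) (k : ι → ℤ) (v : ι → ℚ) : pr (c • k) v = c * pr k v := by
  unfold pr
  rw [Finset.mul_sum]
  apply Finset.sum_congr rfl
  intro i _
  simp only [Pi.smul_apply, smul_eq_mul]; push_cast; ring

lemma pr_zero (v : ι → ℚ) : pr 0 v = 0 := by simp [pr]

/-- relations of bounded order along an ultrafilter -/
def relMod (U : Ultrafilter ℕ) (v : ℕ → ι → ℚ) : Submodule ℤ (ι → ℤ) where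
  carrier := {k | ∃ B : ℕ, ∀ᶠ i in (U : Filter ℕ), (pr k (v i)).den ≤ B}
  add_mem' := by
    rintro k l ⟨B, hB⟩ ⟨B', hB'⟩
    refine ⟨B * B', ?_⟩
    filter_upwards [hB, hB'] with i h1 h2
    rw [pr_add]
    exact (Nat.le_of_dvd (Nat.mul_pos (Rat.den_pos _) (Rat.den_pos _)) (Rat.add_den_dvd _ _)).trans
      (Nat.mul_le_mul h1 h2)
  zero_mem' := ⟨1, by simp [pr_zero]⟩
  smul_mem' := by
    rintro c k ⟨B, hB⟩
    refine ⟨B, ?_⟩
    filter_upwards [hB] with i h1
    rw [pr_smul]
    refine le_trans (Nat.le_of_dvd (Rat.den_pos _) ?_) h1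
    have := Rat.mul_den_dvd (c : ℚ) (pr k (v i))
    simpa using this

lemma mem_relMod {U : Ultrafilter ℕ} {v : ℕ → ι → ℚ} {k : ι → ℤ} :
    k ∈ relMod U v ↔ ∃ B : ℕ, ∀ᶠ i in (U : Filter ℕ), (pr k (v i)).den ≤ B := Iff.rfl

/-- a common order for all bounded relations -/
lemma relMod_common (U : Ultrafilter ℕ) (v : ℕ → ι → ℚ) :
    ∃ (S : Finset (ι → ℤ)) (m : ℕ), 0 < m ∧ Submodule.span ℤ (S : Set (ι → ℤ)) = relMod U v ∧
      ∃ χ : (ι → ℤ) → ℚ, (∀ s, ∃ c : ℤ, χ s = c / m) ∧
      ∀ᶠ i in (U : Filter ℕ), ∀ s ∈ S, ∃ z : ℤ, pr s (v i) = χ s + z := by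
  obtain ⟨S, hS⟩ := IsNoetherian.noetherian (relMod U v)
  have hB : ∀ s ∈ S, ∃ B : ℕ, ∀ᶠ i in (U : Filter ℕ), (pr s (v i)).den ≤ B := by
    intro s hs
    rw [← mem_relMod, ← hS]
    exact Submodule.subset_span hs
  choose! B hB using hB
  set m := ∏ s ∈ S, (B s).factorial with hm
  have hm0 : 0 < m := Finset.prod_pos fun s _ => Nat.factorial_pos _
  have hmq : (m : ℚ) ≠ 0 := Nat.cast_ne_zero.mpr hm0.ne'
  have hdvd : ∀ s ∈ S, ∀ᶠ i in (U : Filter ℕ), (pr s (v i)).den ∣ m := by
    intro s hs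
    filter_upwards [hB s hs] with i hi
    exact (Nat.dvd_factorial (Rat.den_pos _) hi).trans (Finset.dvd_prod_of_mem _ hs)
  have hval : ∀ s ∈ S, ∃ c : Fin m, ∀ᶠ i in (U : Filter ℕ), ∃ z : ℤ,
      pr s (v i) = (((c : ℕ) : ℤ) : ℚ) / m + z := by
    intro s hs
    rw [← Ultrafilter.eventually_exists_iff]
    filter_upwards [hdvd s hs] with i hi
    obtain ⟨l, hl⟩ := hi
    set ρ := pr s (v i) with hρ
    have h1 : ρ * m = ((ρ.num * l : ℤ) : ℚ) := by
      rw [hl]
      push_cast
      rw [← mul_assoc, Rat.mul_den_eq_num]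
    set h := ρ.num * l with hh
    have h2 : 0 ≤ h % m := Int.emod_nonneg _ (by exact_mod_cast hm0.ne')
    have h3 : h % m < m := Int.emod_lt_of_pos _ (by exact_mod_cast hm0)
    refine ⟨⟨(h % m).toNat, by omega⟩, h / m, ?_⟩
    have h4 : (((h % m).toNat : ℕ) : ℤ) = h % m := Int.toNat_of_nonneg h2
    simp only [h4]
    have h5 : (h : ℚ) = ((h % m : ℤ) : ℚ) + (m : ℚ) * ((h / m : ℤ) : ℚ) := by
      have := Int.emod_add_mul_ediv h m
      exact_mod_cast this.symm
    have h6 : ρ = (h : ℚ) / m := by rw [← h1]; field_simp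
    rw [h6, h5]
    field_simp
  have hne : Nonempty (Fin m) := ⟨⟨0, hm0⟩⟩
  choose! c hc using hval
  refine ⟨S, m, hm0, hS, fun s => (((c s : ℕ) : ℤ) : ℚ) / m, fun s => ⟨((c s : ℕ) : ℤ), rfl⟩, ?_⟩
  rw [Filter.eventually_all_finset]
  intro s hs
  exact hc s hs

/-- along an ultrafilter the unit multiples become dense in a torsion coset -/
theorem orbit_dense [DecidableEq ι] (U : Ultrafilter ℕ) (v : ℕ → ι → ℚ) (N : ℕ → ℕ)
    (hN : ∀ i, 0 < N i) (hv : ∀ i j, ∃ a : ℤ, v i j = a / N i) :
    ∃ T : Finset ((ι → ℤ) × ℚ), (∀ᶠ i in (U : Filter ℕ), Solves T (fun j => ((v i j : ℚ) : ℝ))) ∧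
      ∀ w : ι → ℝ, Solves T w → ∀ δ : ℝ, 0 < δ → ∀ᶠ i in (U : Filter ℕ), ∃ u : ℤ,
        IsCoprime u (N i : ℤ) ∧ ∀ j, ∃ z : ℤ, |(u : ℝ) * ((v i j : ℚ) : ℝ) - w j - z| < δ := by
  classical
  obtain ⟨S, m, hm0, hS, χ, hχ, hev⟩ := relMod_common U v
  have hmq : (m : ℚ) ≠ 0 := Nat.cast_ne_zero.mpr hm0.ne'
  refine ⟨S.image (fun s => (s, χ s)), ?_, ?_⟩
  · filter_upwards [hev] with i hi
    intro e he
    obtain ⟨s, hs, rfl⟩ := Finset.mem_image.mp he
    obtain ⟨z, hz⟩ := hi s hs
    refine ⟨z, ?_⟩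
    have := congrArg (fun q : ℚ => (q : ℝ)) hz
    unfold pr at this
    push_cast at this
    simpa using this
  intro w hw δ hδ
  -- parameters
  set n := Fintype.card ι with hn
  set δ' := min δ (1 / 4) with hδ'
  have hδ'0 : 0 < δ' := lt_min hδ (by norm_num)
  have hδ'1 : δ' ≤ 1 / 4 := min_le_right _ _
  set q : ℝ := 1 - 4 * δ' ^ 2 with hq
  have hq0 : 0 < q := by rw [hq]; nlinarith
  have hq1 : q < 1 := by rw [hq]; nlinarith [pow_pos hδ'0 2]
  obtain ⟨K, hK⟩ : ∃ K : ℕ, q ^ K < 1 / (2 * ((K : ℝ) + 1) ^ n) := by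
    have h1 := tendsto_pow_const_mul_const_pow_of_lt_one n hq0.le hq1
    have h2 := (h1.comp (tendsto_add_atTop_nat 1)).eventually (gt_mem_nhds (show (0 : ℝ) < q / 2 by
      positivity))
    obtain ⟨K, hK⟩ := h2.exists
    refine ⟨K, ?_⟩
    simp only [Function.comp] at hK
    push_cast at hK
    rw [pow_succ] at hK
    rw [lt_div_iff₀ (by positivity)]
    have h3 : ((K : ℝ) + 1) ^ n * q ^ K < 1 / 2 := by
      by_contra hcon
      push Not at hcon
      nlinarith
    nlinarith
  set B := 4 * m * (K + 1) ^ n with hB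
  have hbad : ∀ k ∈ Fintype.piFinset (fun _ : ι => Finset.Icc (-(K : ℤ)) K), k ∉ relMod U v →
      ∀ᶠ i in (U : Filter ℕ), (2 * B).factorial * m < (pr k (v i)).den := by
    intro k _ hk
    by_contra hcon
    apply hk
    rw [mem_relMod]
    refine ⟨(2 * B).factorial * m, ?_⟩
    rw [← Ultrafilter.eventually_not] at hcon
    filter_upwards [hcon] with i hi
    exact not_lt.mp hi
  have hbad' : ∀ᶠ i in (U : Filter ℕ), ∀ k ∈ Fintype.piFinset (fun _ : ι => Finset.Icc (-(K : ℤ)) K),
      k ∉ relMod U v → (2 * B).factorial * m < (pr k (v i)).den := by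
    rw [Filter.eventually_all_finset]
    intro k hk
    by_cases h : k ∈ relMod U v
    · exact Filter.Eventually.of_forall fun i h' => absurd h h'
    · filter_upwards [hbad k hk h] with i hi _ using hi
  filter_upwards [hev, hbad'] with i hi hib
  by_contra hcon
  push Not at hcon
  have hN0 := hN i
  choose a ha using hv i
  set N' := N i * m with hN'
  have hN'0 : 0 < N' := Nat.mul_pos hN0 hm0
  have hne : NeZero N' := ⟨hN'0.ne'⟩
  have hmN' : m ∣ N' := ⟨N i, by rw [hN']; ring⟩
  have hNq : (N i : ℚ) ≠ 0 := Nat.cast_ne_zero.mpr hN0.ne'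
  -- relations in the span
  have hspan : ∀ k ∈ relMod U v, (∃ z : ℤ, ∑ j, (k j : ℝ) * w j = ((pr k (v i) : ℚ) : ℝ) + z) ∧
      ∃ c : ℤ, pr k (v i) = c / m := by
    intro k hk
    rw [← hS] at hk
    refine Submodule.span_induction ?_ ?_ ?_ ?_ hk
    · intro s hs
      obtain ⟨z, hz⟩ := hi s hs
      obtain ⟨c, hc⟩ := hχ s
      constructor
      · obtain ⟨z', hz'⟩ := hw (s, χ s) (Finset.mem_image.mpr ⟨s, hs, rfl⟩)
        refine ⟨z' - z, ?_⟩
        simp only at hz'
        rw [hz', hz]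
        push_cast
        ring
      · refine ⟨c + z * m, ?_⟩
        rw [hz, hc]
        push_cast
        field_simp
    · refine ⟨⟨0, by simp [pr_zero]⟩, 0, by simp [pr_zero]⟩
    · rintro k l _ _ ⟨⟨z, hz⟩, c, hc⟩ ⟨⟨z', hz'⟩, c', hc'⟩
      constructor
      · refine ⟨z + z', ?_⟩
        have : ∑ j, ((k + l) j : ℝ) * w j = ∑ j, (k j : ℝ) * w j + ∑ j, (l j : ℝ) * w j := by
          rw [← Finset.sum_add_distrib]
          apply Finset.sum_congr rfl
          intro j _
          simp only [Pi.add_apply]; push_cast; ring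
        rw [this, hz, hz', pr_add]
        push_cast
        ring
      · refine ⟨c + c', ?_⟩
        rw [pr_add, hc, hc']
        push_cast
        ring
    · rintro t k _ ⟨⟨z, hz⟩, c, hc⟩
      constructor
      · refine ⟨t * z, ?_⟩
        have : ∑ j, ((t • k) j : ℝ) * w j = t * ∑ j, (k j : ℝ) * w j := by
          rw [Finset.mul_sum]
          apply Finset.sum_congr rfl
          intro j _
          simp only [Pi.smul_apply, smul_eq_mul]; push_cast; ring
        rw [this, hz, pr_smul]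
        push_cast
        ring
      · refine ⟨t * c, ?_⟩
        rw [pr_smul, hc]
        push_cast
        ring
  -- the average
  set G := unitsOne N' m with hG
  set g : (ZMod N')ˣ → ι → ℝ := fun u j => ((u : ZMod N').val : ℝ) * ((v i j : ℚ) : ℝ) with hg
  set η : ℝ := 1 / (4 * ((K : ℝ) + 1) ^ n) with hη
  have hη0 : 0 ≤ η := by positivity
  have hcardG := card_unitsOne (N := N') hm0 hmN'
  have hφpos : (0 : ℝ) < N'.totient := by exact_mod_cast Nat.totient_pos.mpr hN'0
  have hGpos : (0 : ℝ) < G.card := by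
    have hmpos : (0 : ℝ) < m := by exact_mod_cast hm0
    by_contra hcon
    push Not at hcon
    have : (m : ℝ) * G.card ≤ 0 := mul_nonpos_of_nonneg_of_nonpos hmpos.le hcon
    linarith
  have hlow := avg_lower K G g w hη0 (by
    intro k hk
    have hmem : k ∈ Fintype.piFinset (fun _ : ι => Finset.Icc (-(K : ℤ)) K) := by
      rw [Fintype.mem_piFinset]
      intro j
      rw [Finset.mem_Icc, ← abs_le]
      exact hk j
    have hsum : ∀ u, ∑ j, (k j : ℝ) * (g u j - w j)
        = ((u : ZMod N').val : ℝ) * ((pr k (v i) : ℚ) : ℝ) - ∑ j, (k j : ℝ) * w j := by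
      intro u
      unfold pr
      push_cast
      rw [Finset.mul_sum, ← Finset.sum_sub_distrib]
      apply Finset.sum_congr rfl
      intro j _
      simp only [hg]
      ring
    by_cases hkm : k ∈ relMod U v
    · left
      obtain ⟨⟨z, hz⟩, c, hc⟩ := hspan k hkm
      intro u hu
      rw [hG, unitsOne, Finset.mem_filter] at hu
      obtain ⟨t, ht⟩ := hu.2
      rw [hsum, hz, hc, ← ee_int (t * c - z)]
      congr 1
      have ht' : ((u : ZMod N').val : ℝ) = m * t + 1 := by
        have : ((((u : ZMod N').val : ℤ)) : ℝ) - 1 = m * t := by exact_mod_cast ht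
        push_cast at this
        linarith
      have hmr : (m : ℝ) ≠ 0 := Nat.cast_ne_zero.mpr hm0.ne'
      rw [ht']
      push_cast
      field_simp
      ring
    · right
      have hden := hib k hmem hkm
      set h : ℤ := ∑ j, k j * (a j * m) with hh
      have hhN : (h : ℚ) / N' = pr k (v i) := by
        rw [hh, hN']
        unfold pr
        push_cast
        rw [Finset.sum_div]
        apply Finset.sum_congr rfl
        intro j _
        rw [ha j]
        field_simp
      rw [← hhN] at hden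
      have h1 := restricted_sum (N := N') hm0 hmN' h hden
      have h2 : ∑ u ∈ G, ee (∑ j, (k j : ℝ) * (g u j - w j))
          = ee (-(∑ j, (k j : ℝ) * w j)) * ∑ u ∈ G, ee ((((u : ZMod N').val : ℝ) * h) / N') := by
        rw [Finset.mul_sum]
        apply Finset.sum_congr rfl
        intro u _
        rw [hsum, ← ee_add]
        congr 1
        rw [← hhN]
        push_cast
        ring
      rw [h2, norm_mul, norm_ee, one_mul]
      have h3 : ‖∑ u ∈ G, ee ((((u : ZMod N').val : ℝ) * h) / N')‖ * (B : ℝ) ≤ m * G.card :=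
        h1.trans hcardG
      have hBr : (B : ℝ) = m * (4 * ((K : ℝ) + 1) ^ n) := by rw [hB]; push_cast; ring
      have hmpos : (0 : ℝ) < m := by exact_mod_cast hm0
      rw [hBr] at h3
      have h4 : ‖∑ u ∈ G, ee ((((u : ZMod N').val : ℝ) * h) / N')‖ * (4 * ((K : ℝ) + 1) ^ n)
          ≤ G.card := by
        by_contra hcon
        push Not at hcon
        nlinarith
      rw [hη, div_mul_eq_mul_div, one_mul, le_div_iff₀ (by positivity)]
      exact h4)
  have hup : ∑ u ∈ G, ∏ j, kerc K (g u j - w j) ≤ G.card * q ^ K := by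
    rw [← nsmul_eq_mul]
    apply Finset.sum_le_card_nsmul
    intro u _
    have hcopu : IsCoprime (((u : ZMod N').val : ℕ) : ℤ) (N i : ℤ) := by
      have h1 : IsCoprime (((u : ZMod N').val : ℕ) : ℤ) (N' : ℤ) :=
        Nat.isCoprime_iff_coprime.mpr (ZMod.val_coe_unit_coprime u)
      have h2 : (N' : ℤ) = (N i : ℤ) * (m : ℤ) := by rw [hN']; push_cast; rfl
      rw [h2] at h1
      exact h1.of_mul_right_left
    obtain ⟨j, hj⟩ := hcon _ hcopu
    rw [← Finset.mul_prod_erase Finset.univ _ (Finset.mem_univ j)]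
    have h1 : kerc K (g u j - w j) ≤ q ^ K := by
      apply kerc_far K hδ'0
      intro z
      have := hj z
      refine (min_le_left _ _).trans ?_
      simp only [hg]
      simpa using this
    calc kerc K (g u j - w j) * ∏ x ∈ Finset.univ.erase j, kerc K (g u x - w x)
        ≤ q ^ K * 1 := by
          apply mul_le_mul h1 _ (Finset.prod_nonneg fun _ _ => kerc_nonneg _ _) (by positivity)
          exact Finset.prod_le_one (fun _ _ => kerc_nonneg _ _) (fun _ _ => kerc_le_one _ _)
      _ = q ^ K := mul_one _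
  have h5 := hlow.trans hup
  rw [mul_comm (G.card : ℝ)] at h5
  have h6 : 1 / ((K : ℝ) + 1) ^ n - η ≤ q ^ K := le_of_mul_le_mul_right h5 hGpos
  have hP : (0 : ℝ) < ((K : ℝ) + 1) ^ n := by positivity
  have h7 : 1 / ((K : ℝ) + 1) ^ n - η = 3 / (4 * ((K : ℝ) + 1) ^ n) := by
    rw [hη]; field_simp; norm_num
  rw [h7] at h6
  have h8 := h6.trans_lt hK
  rw [div_lt_div_iff₀ (by positivity) (by positivity)] at h8
  nlinarith

/-- the main statement on torsion points and closed periodic sets -/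
theorem torsion_cosets [DecidableEq ι] (C : Set (ι → ℝ)) (hC : IsClosed C)
    (hper : ∀ w ∈ C, ∀ z : ι → ℤ, (fun j => w j + z j) ∈ C) :
    ∃ L : Finset (Finset ((ι → ℤ) × ℚ)), (∀ T ∈ L, ∀ w : ι → ℝ, Solves T w → w ∈ C) ∧
      ∀ (v : ι → ℚ) (N : ℕ), 0 < N → (∀ j, ∃ a : ℤ, v j = a / N) →
        (∀ u : ℤ, IsCoprime u (N : ℤ) → (fun j => (u : ℝ) * ((v j : ℚ) : ℝ)) ∈ C) →
        ∃ T ∈ L, Solves T (fun j => ((v j : ℚ) : ℝ)) := by
  classical
  by_contra hcon
  push Not at hcon
  obtain ⟨e, he⟩ := exists_surjective_nat (Finset ((ι → ℤ) × ℚ))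
  set good : Finset ((ι → ℤ) × ℚ) → Prop := fun T => ∀ w : ι → ℝ, Solves T w → w ∈ C with hgood
  have hseq : ∀ i : ℕ, ∃ v : ι → ℚ, ∃ N : ℕ, 0 < N ∧ (∀ j, ∃ a : ℤ, v j = a / N) ∧
      (∀ u : ℤ, IsCoprime u (N : ℤ) → (fun j => (u : ℝ) * ((v j : ℚ) : ℝ)) ∈ C) ∧
      ∀ T ∈ ((Finset.range (i + 1)).image e).filter good,
        ¬ Solves T (fun j => ((v j : ℚ) : ℝ)) := by
    intro i
    obtain ⟨v, N, h1, h2, h3, h4⟩ := hcon (((Finset.range (i + 1)).image e).filter good)
      (fun T hT => (Finset.mem_filter.mp hT).2)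
    exact ⟨v, N, h1, h2, h3, h4⟩
  choose v N h1 h2 h3 h4 using hseq
  set U : Ultrafilter ℕ := Filter.hyperfilter ℕ with hU
  obtain ⟨T, hT1, hT2⟩ := orbit_dense U v N h1 h2
  have hTgood : good T := by
    intro w hw
    rw [← hC.closure_eq, Metric.mem_closure_iff]
    intro δ hδ
    obtain ⟨i, u, hu, hz⟩ := (hT2 w hw (δ / 2) (by positivity)).exists
    choose z hz using hz
    refine ⟨fun j => (u : ℝ) * ((v i j : ℚ) : ℝ) + ((-(z j) : ℤ) : ℝ), hper _ (h3 i u hu) (fun j => -(z j)), ?_⟩
    refine lt_of_le_of_lt ?_ (half_lt_self hδ)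
    rw [dist_pi_le_iff (by positivity)]
    intro j
    rw [Real.dist_eq, abs_sub_comm]
    have := (hz j).le
    refine le_trans (le_of_eq ?_) this
    congr 1
    push_cast
    ring
  obtain ⟨j, hj⟩ := he T
  have hev : ∀ᶠ i in (U : Filter ℕ), j ≤ i := by
    have h5 : ∀ᶠ i in (Filter.atTop : Filter ℕ), j ≤ i := Filter.eventually_ge_atTop j
    exact (Nat.hyperfilter_le_atTop) h5
  obtain ⟨i, hi1, hi2⟩ := (hT1.and hev).exists
  apply h4 i T _ hi1
  rw [Finset.mem_filter, Finset.mem_image]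
  exact ⟨⟨j, Finset.mem_range.mpr (by omega), hj⟩, hTgood⟩

end Pool.Agent.Work.MP_5e5ff1_ag

end

section

/-! The minors of `G * W(t^p)` in characteristic p: exact orders at `0, 1, ∞`. -/

open Polynomial Matrix

set_option linter.unusedSectionVars false

namespace Pool.Agent.Work.MP_5e5ff1_ag.T

section tensFam

variable {R : Type*} [CommRing R] {κ : Type*} [Fintype κ] [DecidableEq κ]

lemma tensFam_mul {a : ℕ} (A B : Fin a → Matrix κ κ R) :
    tensFam A * tensFam B = tensFam (fun l => A l * B l) := by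
  ext1 x y
  simp only [tensFam, mul_apply, of_apply]
  rw [Finset.prod_univ_sum, Fintype.piFinset_univ]
  apply Finset.sum_congr rfl
  intro z _
  rw [← Finset.prod_mul_distrib]

lemma tensFam_one {a : ℕ} : tensFam (fun _ : Fin a => (1 : Matrix κ κ R)) = 1 := by
  ext1 x y
  simp only [tensFam, of_apply, Matrix.one_apply]
  rw [Finset.prod_ite_zero]
  simp only [Finset.mem_univ, forall_true_left, Finset.prod_const_one]
  congr 1
  exact propext ⟨fun h => funext h, fun h l => congrFun h l⟩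

end tensFam

variable {F : Type*} [Field F] {ι : Type*} [Fintype ι] [DecidableEq ι]

section expand

lemma minor_map_expand (p : ℕ) {k : ℕ} (W : Matrix ι (Fin k) F[X]) (I : Fin k → ι) :
    ((W.map (expand F p)).submatrix I id).det = expand F p (W.submatrix I id).det := by
  have h1 : (W.map (expand F p)).submatrix I id
      = (expand F p : F[X] →ₐ[F] F[X]).mapMatrix (W.submatrix I id) := rfl
  rw [h1, ← AlgHom.map_det]

lemma map_expand_mul (p : ℕ) {m n o : Type*} [Fintype n] (A : Matrix m n F[X])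
    (B : Matrix n o F[X]) :
    (A * B).map (expand F p) = A.map (expand F p) * B.map (expand F p) := by
  ext1 i j
  simp only [mul_apply, map_apply, map_sum, map_mul]

lemma map_C_mul_map_expand (p : ℕ) {k : ℕ} (g : Matrix ι ι F)
    (W : Matrix ι (Fin k) F[X]) :
    g.map C * W.map (expand F p) = (g.map C * W).map (expand F p) := by
  rw [map_expand_mul]
  congr 1
  ext1 i j
  simp

/-- exact order of `q(t^p)` at a point of the prime field -/
lemma rootMultiplicity_expand' {p : ℕ} [hp : Fact p.Prime] [CharP F p] {q : F[X]} (hq : q ≠ 0)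
    {a : F} (ha : a ^ p = a) :
    (expand F p q).rootMultiplicity a = p * q.rootMultiplicity a := by
  obtain ⟨q₁, hq₁, hnd⟩ := exists_eq_pow_rootMultiplicity_mul_and_not_dvd q hq a
  set e := q.rootMultiplicity a with he
  have h1 : expand F p (X - C a) = (X - C a) ^ p := by
    rw [map_sub, expand_X, expand_C, sub_pow_char X (C a), ← C_pow, ha]
  have h2 : (expand F p q₁).eval a ≠ 0 := by
    rw [dvd_iff_isRoot, IsRoot.def] at hnd
    rw [expand_eval, ha]
    exact hnd
  have h3 : expand F p q₁ ≠ 0 := by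
    intro h; rw [h] at h2; simp at h2
  rw [hq₁, map_mul, map_pow, h1, ← pow_mul,
    rootMultiplicity_mul (mul_ne_zero (pow_ne_zero _ (X_sub_C_ne_zero _)) h3),
    rootMultiplicity_X_sub_C_pow, rootMultiplicity_eq_zero h2, add_zero]

end expand

section orders

variable {p : ℕ} [hp : Fact p.Prime] [CharP F p]

/-- the local value -/
noncomputable def val (p : ℕ) (g : Matrix ι ι F) (m : ι → ℕ) (a : F) {k : ℕ}
    (W : Matrix ι (Fin k) F[X]) (f : Fin k → ι) : ℕ :=
  ∑ j, m (f j) + p * ((g.map C * W).submatrix f id).det.rootMultiplicity a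

/-- the value at infinity -/
noncomputable def valInf (p : ℕ) (d : ι → ℕ) {k : ℕ}
    (W : Matrix ι (Fin k) F[X]) (f : Fin k → ι) : ℕ :=
  ∑ j, d (f j) + p * (W.submatrix f id).det.natDegree

lemma factor_eq {G H : Matrix ι ι F[X]} {h : Matrix ι ι F} (hh : h.det ≠ 0) {q : ι → F[X]}
    (hGh : G * h.map C = H * diagonal q) {k : ℕ} (W : Matrix ι (Fin k) F[X]) :
    G * W.map (expand F p) = H * (diagonal q * (h⁻¹.map C * W).map (expand F p)) := by
  have h1 : h.map C * h⁻¹.map C = (1 : Matrix ι ι F[X]) := by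
    rw [← Matrix.map_mul, Matrix.mul_nonsing_inv h (isUnit_iff_ne_zero.mpr hh)]
    ext1 i j
    rw [map_apply, Matrix.one_apply, Matrix.one_apply]
    split_ifs
    · simp
    · simp
  rw [← Matrix.mul_assoc, ← hGh, ← map_C_mul_map_expand, Matrix.mul_assoc, ← Matrix.mul_assoc _ _
    (W.map (expand F p)), h1, Matrix.one_mul]

lemma dvd_minor {G H : Matrix ι ι F[X]} {h : Matrix ι ι F} (hh : h.det ≠ 0)
    {a : F} (ha : a ^ p = a) {m : ι → ℕ}
    (hGh : G * h.map C = H * diagonal (fun j => (X - C a) ^ (m j))) {k : ℕ}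
    (W : Matrix ι (Fin k) F[X]) {μ : ℕ}
    (hμ : ∀ f : Fin k → ι, ((h⁻¹.map C * W).submatrix f id).det ≠ 0 → μ ≤ val p h⁻¹ m a W f)
    (I : Fin k → ι) :
    (X - C a) ^ μ ∣ ((G * W.map (expand F p)).submatrix I id).det := by
  rw [factor_eq hh hGh W, minor_mul]
  apply Finset.dvd_sum
  intro f _
  apply Dvd.dvd.mul_left
  rw [minor_diagonal_mul, minor_map_expand, Finset.prod_pow_eq_pow_sum]
  by_cases hf : ((h⁻¹.map C * W).submatrix f id).det = 0
  · rw [hf, map_zero, mul_zero]
    exact dvd_zero _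
  · refine (pow_dvd_pow _ (hμ f hf)).trans ?_
    rw [val, pow_add]
    apply mul_dvd_mul_left
    rw [← rootMultiplicity_expand' hf ha]
    exact pow_rootMultiplicity_dvd _ a

/-- the order of the minors is attained -/
lemma exists_minor_order {G H : Matrix ι ι F[X]} {h : Matrix ι ι F} (hh : h.det ≠ 0)
    {a : F} (ha : a ^ p = a) {m : ι → ℕ}
    (hGh : G * h.map C = H * diagonal (fun j => (X - C a) ^ (m j)))
    (hH : (H.map (eval a)).det ≠ 0) {k : ℕ}
    (W : Matrix ι (Fin k) F[X]) {f : Fin k → ι}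
    (hf : ((h⁻¹.map C * W).submatrix f id).det ≠ 0) :
    ∃ J : Fin k → ι,
      ¬ (X - C a) ^ (val p h⁻¹ m a W f + 1) ∣ ((G * W.map (expand F p)).submatrix J id).det := by
  by_contra hcon
  push Not at hcon
  set V := diagonal (fun j => (X - C a) ^ (m j)) * (h⁻¹.map C * W).map (expand F p) with hV
  have hY : G * W.map (expand F p) = H * V := factor_eq hh hGh W
  rw [hY] at hcon
  have h1 : (X - C a) ^ (val p h⁻¹ m a W f + 1) ∣ ((adjugate H * (H * V)).submatrix f id).det := by
    rw [minor_mul]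
    apply Finset.dvd_sum
    intro f' _
    exact (hcon f').mul_left _
  rw [← Matrix.mul_assoc, adjugate_mul, Matrix.smul_mul, Matrix.one_mul] at h1
  have h2 : ((H.det • V).submatrix f id).det = H.det ^ k * (V.submatrix f id).det := by
    have : (H.det • V).submatrix f id = H.det • V.submatrix f id := rfl
    rw [this, det_smul, Fintype.card_fin]
  have hHa : H.det.eval a ≠ 0 := by rw [eval_det]; exact hH
  have hH0 : H.det ≠ 0 := by intro h; rw [h] at hHa; simp at hHa
  have h3 : (V.submatrix f id).det = (X - C a) ^ (∑ j, m (f j))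
      * expand F p ((h⁻¹.map C * W).submatrix f id).det := by
    rw [hV, minor_diagonal_mul, minor_map_expand, Finset.prod_pow_eq_pow_sum]
  have h4 : expand F p ((h⁻¹.map C * W).submatrix f id).det ≠ 0 := by
    intro h; exact hf ((expand_eq_zero hp.out.pos).mp h)
  have h5 : (V.submatrix f id).det ≠ 0 := by
    rw [h3]; exact mul_ne_zero (pow_ne_zero _ (X_sub_C_ne_zero a)) h4
  have h6 : (V.submatrix f id).det.rootMultiplicity a = val p h⁻¹ m a W f := by
    rw [h3, rootMultiplicity_mul (by rw [← h3]; exact h5), rootMultiplicity_X_sub_C_pow,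
      rootMultiplicity_expand' hf ha, val]
  rw [h2] at h1
  have h7 := (le_rootMultiplicity_iff (mul_ne_zero (pow_ne_zero k hH0) h5)).mpr h1
  rw [rootMultiplicity_mul (mul_ne_zero (pow_ne_zero k hH0) h5), h6,
    rootMultiplicity_eq_zero (by rw [IsRoot.def, eval_pow]; exact pow_ne_zero _ hHa)] at h7
  omega

omit hp [CharP F p] in
lemma coeff_prod_top {k : ℕ} (q : Fin k → F[X]) (e : Fin k → ℕ)
    (h : ∀ i, (q i).natDegree ≤ e i) (s : Finset (Fin k)) :
    (∏ i ∈ s, q i).coeff (∑ i ∈ s, e i) = ∏ i ∈ s, (q i).coeff (e i) ∧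
      (∏ i ∈ s, q i).natDegree ≤ ∑ i ∈ s, e i := by
  classical
  induction s using Finset.induction_on with
  | empty => simp
  | insert i s hi ih =>
    rw [Finset.prod_insert hi, Finset.sum_insert hi, Finset.prod_insert hi]
    constructor
    · rw [coeff_mul_add_eq_of_natDegree_le (h i) ih.2, ih.1]
    · exact natDegree_mul_le.trans (add_le_add (h i) ih.2)

omit hp [CharP F p] in
lemma natDegree_minor_le {G : Matrix ι ι F[X]} {d : ι → ℕ}
    (hd : ∀ i j, (G i j).natDegree ≤ d j) {k : ℕ}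
    (W : Matrix ι (Fin k) F[X]) {D : ℕ}
    (hD : ∀ f : Fin k → ι, (W.submatrix f id).det ≠ 0 → valInf p d W f ≤ D)
    (I : Fin k → ι) :
    ((G * W.map (expand F p)).submatrix I id).det.natDegree ≤ D := by
  rw [minor_mul]
  apply natDegree_sum_le_of_forall_le
  intro f _
  rw [minor_map_expand]
  by_cases hf : (W.submatrix f id).det = 0
  · rw [hf, map_zero, mul_zero, natDegree_zero]
    exact Nat.zero_le _
  · refine natDegree_mul_le.trans ((add_le_add ?_ ?_).trans (hD f hf))
    · exact (coeff_prod_top (fun i => G (I i) (f i)) (fun i => d (f i)) (fun i => hd _ _)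
        Finset.univ).2
    · rw [natDegree_expand, mul_comm]

/-- the degree of the minors is attained -/
lemma exists_minor_degree {G : Matrix ι ι F[X]} {d : ι → ℕ}
    (hd : ∀ i j, (G i j).natDegree ≤ d j)
    (hl : (Matrix.of fun i j => (G i j).coeff (d j)).det ≠ 0) {k : ℕ}
    (W : Matrix ι (Fin k) F[X]) {f₀ : Fin k → ι} (hf₀ : (W.submatrix f₀ id).det ≠ 0)
    (hmax : ∀ f : Fin k → ι, (W.submatrix f id).det ≠ 0 → valInf p d W f ≤ valInf p d W f₀) :
    ∃ J : Fin k → ι, ((G * W.map (expand F p)).submatrix J id).det ≠ 0 ∧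
      valInf p d W f₀ ≤ ((G * W.map (expand F p)).submatrix J id).det.natDegree := by
  set ℓ : Matrix ι ι F := Matrix.of fun i j => (G i j).coeff (d j) with hℓ
  set D := valInf p d W f₀ with hD
  set c : (Fin k → ι) → F := fun f => (expand F p (W.submatrix f id).det).coeff (D - ∑ j, d (f j))
    with hc
  have hcoeff : ∀ J : Fin k → ι, ((G * W.map (expand F p)).submatrix J id).det.coeff D
      = (tensFam (fun _ : Fin k => ℓ) *ᵥ c) J := by
    intro J
    rw [minor_mul, finsetSum_coeff]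
    simp only [mulVec, dotProduct, tensFam, of_apply]
    apply Finset.sum_congr rfl
    intro f _
    rw [minor_map_expand]
    by_cases hf : (W.submatrix f id).det = 0
    · simp [hc, hf]
    · have h1 := hmax f hf
      have h2 : D = ∑ j, d (f j) + (D - ∑ j, d (f j)) := by
        rw [valInf] at h1
        omega
      have h3 := coeff_prod_top (fun i => G (J i) (f i)) (fun i => d (f i)) (fun i => hd _ _)
        Finset.univ
      conv_lhs => rw [h2]
      rw [coeff_mul_add_eq_of_natDegree_le h3.2, h3.1]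
      · rfl
      · rw [natDegree_expand, mul_comm]
        rw [valInf] at h1
        omega
  have hc0 : c ≠ 0 := by
    intro h
    have h1 := congrFun h f₀
    simp only [hc, Pi.zero_apply] at h1
    have h2 : D - ∑ j, d (f₀ j) = (W.submatrix f₀ id).det.natDegree * p := by
      rw [hD, valInf, mul_comm]
      omega
    rw [h2, coeff_expand_mul hp.out.pos] at h1
    exact hf₀ (leadingCoeff_eq_zero.mp h1)
  have hne : tensFam (fun _ : Fin k => ℓ) *ᵥ c ≠ 0 := by
    intro h
    apply hc0
    have h1 : tensFam (fun _ : Fin k => ℓ⁻¹) *ᵥ (tensFam (fun _ : Fin k => ℓ) *ᵥ c) = c := by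
      rw [mulVec_mulVec, tensFam_mul]
      simp only [Matrix.nonsing_inv_mul ℓ (isUnit_iff_ne_zero.mpr hl)]
      rw [tensFam_one, one_mulVec]
    rw [← h1, h, mulVec_zero]
  obtain ⟨J, hJ⟩ := Function.ne_iff.mp hne
  rw [← hcoeff, Pi.zero_apply] at hJ
  refine ⟨J, ?_, le_natDegree_of_ne_zero hJ⟩
  intro h
  rw [h, coeff_zero] at hJ
  exact hJ rfl

end orders

end Pool.Agent.Work.MP_5e5ff1_ag.T

end

section

/-! Generic exponents: the p-curvature cannot vanish for almost all primes. -/

open Polynomial Matrix NumberField Filter Topology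

namespace Pool.Agent.Work.MP_5e5ff1_ag

variable {K : Type*} [Field K] [NumberField K]

/-- primes over a residue class -/
lemma infinite_class {N : ℕ} (hN : 0 < N) {u : ℤ} (hu : IsCoprime u (N : ℤ)) :
    {P : Ideal (𝓞 K) | P.IsMaximal ∧ (N : ℤ) ∣ u * (ringChar (𝓞 K ⧸ P) : ℕ) - 1}.Infinite := by
  have hne : NeZero N := ⟨hN.ne'⟩
  obtain ⟨a, w, haw⟩ := hu
  have hunit : IsUnit ((a : ℤ) : ZMod N) := by
    rw [isUnit_iff_exists_inv]
    refine ⟨(u : ZMod N), ?_⟩
    have := congrArg (fun z : ℤ => (z : ZMod N)) haw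
    push_cast at this
    rw [ZMod.natCast_self, mul_zero, add_zero] at this
    exact this
  have hex : ∀ m : ℕ, ∃ P : Ideal (𝓞 K), P.IsMaximal ∧ m < ringChar (𝓞 K ⧸ P) ∧
      (N : ℤ) ∣ u * (ringChar (𝓞 K ⧸ P) : ℕ) - 1 := by
    intro m
    obtain ⟨p, hpm, hp, hpa⟩ := Nat.forall_exists_prime_gt_and_eq_mod hunit m
    have h1 : (Ideal.span {(p : 𝓞 K)} : Ideal (𝓞 K)) ≠ ⊤ := by
      rw [Ne, Ideal.span_singleton_eq_top]
      intro h
      have h2 : IsUnit (Algebra.norm ℤ (p : 𝓞 K)) := h.map _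
      have h3 : Algebra.norm ℤ ((p : ℤ) : 𝓞 K) = (p : ℤ) ^ Module.finrank ℤ (𝓞 K) :=
        Algebra.norm_algebraMap_of_basis (Module.Free.chooseBasis ℤ (𝓞 K)) (p : ℤ) |>.trans (by
          rw [Module.finrank_eq_card_chooseBasisIndex])
      have h4 : ((p : ℤ) : 𝓞 K) = (p : 𝓞 K) := by push_cast; rfl
      rw [h4] at h3
      rw [h3, isUnit_pow_iff (Module.finrank_pos).ne', Int.isUnit_iff] at h2
      have := hp.one_lt
      rcases h2 with h2 | h2 <;> omega
    obtain ⟨P, hP, hPp⟩ := Ideal.exists_le_maximal _ h1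
    have h2 : (p : 𝓞 K) ∈ P := hPp (Ideal.mem_span_singleton_self _)
    have h3 : ringChar (𝓞 K ⧸ P) = p := by
      have := hP.isPrime
      apply CharP.ringChar_of_prime_eq_zero hp
      rw [← map_natCast (Ideal.Quotient.mk P)]
      exact Ideal.Quotient.eq_zero_iff_mem.mpr h2
    refine ⟨P, hP, by rw [h3]; exact hpm, ?_⟩
    rw [h3]
    have h4 : ((u * (p : ℕ) - 1 : ℤ) : ZMod N) = 0 := by
      push_cast
      rw [hpa]
      have := congrArg (fun z : ℤ => (z : ZMod N)) haw
      push_cast at this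
      rw [ZMod.natCast_self, mul_zero, add_zero] at this
      rw [mul_comm, this, sub_self]
    exact (ZMod.intCast_zmod_eq_zero_iff_dvd _ N).mp h4
  intro hfin
  obtain ⟨B, hB⟩ : ∃ B : ℕ, ∀ P ∈ {P : Ideal (𝓞 K) | P.IsMaximal ∧
      (N : ℤ) ∣ u * (ringChar (𝓞 K ⧸ P) : ℕ) - 1}, ringChar (𝓞 K ⧸ P) ≤ B := by
    obtain ⟨B, hB⟩ := (hfin.image (fun P => ringChar (𝓞 K ⧸ P))).bddAbove
    exact ⟨B, fun P hP => hB ⟨P, hP, rfl⟩⟩
  obtain ⟨P, h1, h2, h3⟩ := hex B
  have := hB P ⟨h1, h3⟩
  omega

variable {r : ℕ}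

lemma trace_of_charpoly {F : Type*} [Field F] {M : Matrix (Fin r) (Fin r) F} {μ : Fin r → F}
    (h : M.charpoly = ∏ j, (X - C (μ j))) : M.trace = ∑ j, μ j := by
  rcases Nat.eq_zero_or_pos r with rfl | hr
  · simp [Matrix.trace]
  · have : Nonempty (Fin r) := ⟨⟨0, hr⟩⟩
    rw [Matrix.trace_eq_neg_charpoly_coeff, h]
    have h1 := prod_X_sub_C_coeff_card_pred Finset.univ μ (by simpa using hr)
    rw [Finset.card_univ] at h1
    rw [h1, neg_neg]

/-- near a target point: value of the fractional part -/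
lemma fract_near {θ c δ : ℝ} {z : ℤ} (h : |θ - c - z| < δ) (h0 : δ < c) (h1 : c + δ < 1) :
    Int.fract θ = θ - z ∧ |Int.fract θ - c| < δ := by
  have h2 := abs_lt.mp h
  have h3 : Int.fract θ = θ - z := by
    rw [Int.fract_eq_iff]
    exact ⟨by linarith, by linarith, z, by ring⟩
  refine ⟨h3, ?_⟩
  rw [h3, show θ - z - c = θ - c - z by ring]
  exact h

/-- for generic exponents, in some residue class of primes the p-curvature vanishes only
finitely often -/
theorem generic_class (r : ℕ) (hr : 2 ≤ r) : ∃ M : ℕ, ∀ {K : Type} [Field K] [NumberField K]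
    {n N : ℕ} (_ : 0 < n) (_ : 0 < N)
    {b c : Matrix (Fin r) (Fin r) (𝓞 K)} {s t q : Fin r → ℤ}
    (_ : ((n : K)⁻¹ • b.map (algebraMap (𝓞 K) K)).charpoly = ∏ j, (X - C ((s j : K) / (N : K))))
    (_ : ((n : K)⁻¹ • c.map (algebraMap (𝓞 K) K)).charpoly = ∏ j, (X - C ((t j : K) / (N : K))))
    (_ : ((n : K)⁻¹ • (b + c).map (algebraMap (𝓞 K) K)).charpoly
      = ∏ j, (X - C ((q j : K) / (N : K))))
    (_ : ∀ k l m : Fin r → ℤ, (∀ i, |k i| ≤ M) → (∀ i, |l i| ≤ M) → (∀ i, |m i| ≤ M) →
      (N : ℤ) ∣ ∑ i, k i * s i + ∑ i, l i * t i + ∑ i, m i * q i →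
      ∃ z : ℤ, ∀ i, k i = z ∧ l i = z ∧ m i = -z),
    ∃ u : ℤ, IsCoprime u (N : ℤ) ∧
      {P : Ideal (𝓞 K) | P.IsMaximal ∧ PCurvZero n b c P ∧
        (N : ℤ) ∣ u * (ringChar (𝓞 K ⧸ P) : ℕ) - 1}.Finite := by
  classical
  obtain ⟨r', rfl⟩ : ∃ r', r = r' + 1 := ⟨r - 1, by omega⟩
  have hR : (2 : ℝ) ≤ ((r' + 1 : ℕ) : ℝ) := by exact_mod_cast hr
  set R : ℝ := ((r' + 1 : ℕ) : ℝ) with hRdef
  set cc : ℝ := 1 / (3 * R) with hcc
  set δ : ℝ := 1 / (12 * R ^ 2) with hδ
  have hRpos : 0 < R := by linarith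
  have hδpos : 0 < δ := by positivity
  have hccpos : 0 < cc := by positivity
  have hcR : cc * (3 * R) = 1 := by rw [hcc]; field_simp
  have hδR : δ * (3 * R) < cc := by
    rw [hδ, hcc, div_mul_eq_mul_div, div_lt_div_iff₀ (by positivity) (by positivity)]
    nlinarith
  have hδc : δ < cc := by nlinarith
  have hcc1 : cc + δ < 1 := by nlinarith
  obtain ⟨M0, hM0⟩ := kronecker_units ((Fin (r' + 1) ⊕ Fin (r' + 1)) ⊕ Fin r') δ hδpos
  refine ⟨max M0 1, ?_⟩
  intro K _ _ n N hn0 hN0 b c s t q hb hc hbc hrel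
  have hNK : (N : K) ≠ 0 := Nat.cast_ne_zero.mpr hN0.ne'
  have hnK : (n : K) ≠ 0 := Nat.cast_ne_zero.mpr hn0.ne'
  have hNR : (N : ℝ) ≠ 0 := Nat.cast_ne_zero.mpr hN0.ne'
  -- trace relation
  have htr : ∑ i, s i + ∑ i, t i = ∑ i, q i := by
    have h1 : ((n : K)⁻¹ • (b + c).map (algebraMap (𝓞 K) K)).trace
        = ((n : K)⁻¹ • b.map (algebraMap (𝓞 K) K)).trace
          + ((n : K)⁻¹ • c.map (algebraMap (𝓞 K) K)).trace := by
      rw [← Matrix.trace_add, ← smul_add, Matrix.map_add _ (map_add _)]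
    rw [trace_of_charpoly hb, trace_of_charpoly hc, trace_of_charpoly hbc, ← Finset.sum_div,
      ← Finset.sum_div, ← Finset.sum_div, ← add_div, div_left_inj' hNK] at h1
    exact_mod_cast h1.symm
  -- no common eigenvector
  have hnc : NoCommonEigenvector (b.map (algebraMap (𝓞 K) K)) (c.map (algebraMap (𝓞 K) K)) := by
    intro v hv x y hxy
    have hroot : ∀ (e : Matrix (Fin (r' + 1)) (Fin (r' + 1)) (𝓞 K)) (z : K) (w : Fin (r' + 1) → ℤ),
        ((n : K)⁻¹ • e.map (algebraMap (𝓞 K) K)).charpoly = ∏ j, (X - C ((w j : K) / (N : K))) →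
        e.map (algebraMap (𝓞 K) K) *ᵥ v = z • v →
        ∃ i, (n : K)⁻¹ * z = (w i : K) / (N : K) := by
      intro e z w he hev
      have h3 : ((n : K)⁻¹ • e.map (algebraMap (𝓞 K) K)).charpoly.eval ((n : K)⁻¹ * z) = 0 := by
        rw [Matrix.eval_charpoly]
        apply (Matrix.exists_mulVec_eq_zero_iff).mp
        refine ⟨v, hv, ?_⟩
        rw [sub_mulVec, smul_mulVec, hev, smul_smul]
        simp
      rw [he, eval_prod, Finset.prod_eq_zero_iff] at h3
      obtain ⟨i, _, hi⟩ := h3
      exact ⟨i, by simpa [sub_eq_zero] using hi⟩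
    obtain ⟨i, hi⟩ := hroot b x s hb hxy.1
    obtain ⟨j, hj⟩ := hroot c y t hc hxy.2
    obtain ⟨l, hl⟩ := hroot (b + c) (x + y) q hbc (by
      rw [Matrix.map_add _ (map_add _), add_mulVec, hxy.1, hxy.2, add_smul])
    have h1 : s i + t j - q l = 0 := by
      have h2 : (s i : K) / (N : K) + (t j : K) / (N : K) = (q l : K) / (N : K) := by
        rw [← hi, ← hj, ← hl]; ring
      rw [← add_div, div_left_inj' hNK] at h2
      have h3 : s i + t j = q l := by exact_mod_cast h2
      omega
    obtain ⟨z, hz⟩ := hrel (Pi.single i 1) (Pi.single j 1) (Pi.single l (-1))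
      (by
        intro i'
        by_cases h : i' = i
        · subst h; simp
        · simp [Pi.single_eq_of_ne h])
      (by
        intro i'
        by_cases h : i' = j
        · subst h; simp
        · simp [Pi.single_eq_of_ne h])
      (by
        intro i'
        by_cases h : i' = l
        · subst h; simp
        · simp [Pi.single_eq_of_ne h])
      (by
        have e1 : ∀ (i0 : Fin (r' + 1)) (a : ℤ) (w : Fin (r' + 1) → ℤ),
            ∑ i', (Pi.single i0 a : Fin (r' + 1) → ℤ) i' * w i' = a * w i0 := by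
          intro i0 a w
          rw [Finset.sum_eq_single i0]
          · simp
          · intro b _ hb; simp [Pi.single_eq_of_ne hb]
          · intro h; exact absurd (Finset.mem_univ _) h
        rw [e1, e1, e1]
        have : 1 * s i + 1 * t j + -1 * q l = 0 := by linarith
        rw [this]
        exact dvd_zero _)
    obtain ⟨i', hi'⟩ : ∃ i' : Fin (r' + 1), i' ≠ i := by
      have : Nontrivial (Fin (r' + 1)) := Fin.nontrivial_iff_two_le.mpr hr
      exact exists_ne i
    have h2 := (hz i).1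
    have h3 := (hz i').1
    rw [Pi.single_eq_same] at h2
    rw [Pi.single_eq_of_ne hi'] at h3
    omega
  -- the approximation
  obtain ⟨u, hu, happ⟩ := hM0 N hN0
    (Sum.elim (Sum.elim (fun i => -(s i)) (fun i => -(t i))) (fun i => q i.castSucc))
    (by
      intro m hm0 hmb hdvd
      apply hm0
      have hdvd' : (N : ℤ) ∣ ∑ i, (-(m (Sum.inl (Sum.inl i)))) * s i
          + ∑ i, (-(m (Sum.inl (Sum.inr i)))) * t i
          + ∑ i, (Fin.lastCases (motive := fun _ => ℤ) 0 (fun i => m (Sum.inr i)) i) * q i := by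
        have e1 : ∑ i, m i * (Sum.elim (Sum.elim (fun i => -(s i)) (fun i => -(t i)))
            (fun i : Fin r' => q i.castSucc)) i
            = ∑ i, (-(m (Sum.inl (Sum.inl i)))) * s i + ∑ i, (-(m (Sum.inl (Sum.inr i)))) * t i
          + ∑ i, (Fin.lastCases (motive := fun _ => ℤ) 0 (fun i => m (Sum.inr i)) i) * q i := by
          rw [Fintype.sum_sum_type, Fintype.sum_sum_type, Fin.sum_univ_castSucc (n := r')
            (fun i => (Fin.lastCases (motive := fun _ => ℤ) 0 (fun i => m (Sum.inr i)) i) * q i)]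
          simp
        rwa [e1] at hdvd
      obtain ⟨z, hz⟩ := hrel _ _ _
        (fun i => by rw [abs_neg]; exact (hmb _).trans (by push_cast; exact le_max_left _ _))
        (fun i => by rw [abs_neg]; exact (hmb _).trans (by push_cast; exact le_max_left _ _))
        (fun i => by
          refine Fin.lastCases ?_ (fun i => ?_) i
          · rw [Fin.lastCases_last]; simp
          · rw [Fin.lastCases_castSucc]
            exact (hmb _).trans (by push_cast; exact le_max_left _ _)) hdvd'
      have hz0 : z = 0 := by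
        have := (hz (Fin.last r')).2.2
        rw [Fin.lastCases_last] at this
        omega
      subst hz0
      funext i
      rcases i with (i | i) | i
      · have := (hz i).1; simp only [Pi.zero_apply]; omega
      · have := (hz i).2.1; simp only [Pi.zero_apply]; omega
      · have := (hz i.castSucc).2.2
        rw [Fin.lastCases_castSucc] at this
        simp only [Pi.zero_apply]; omega)
    (fun _ => cc)
  refine ⟨u, hu, ?_⟩
  by_contra hinf
  -- fractional parts
  have hs : ∀ i, ∃ z : ℤ, |(0 - u * ((s i : ℝ) / N)) - cc - z| < δ := by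
    intro i
    obtain ⟨z, hz⟩ := happ (Sum.inl (Sum.inl i))
    refine ⟨z, ?_⟩
    simp only [Sum.elim_inl] at hz
    convert hz using 2
    push_cast
    ring
  have ht : ∀ i, ∃ z : ℤ, |(0 - u * ((t i : ℝ) / N)) - cc - z| < δ := by
    intro i
    obtain ⟨z, hz⟩ := happ (Sum.inl (Sum.inr i))
    refine ⟨z, ?_⟩
    simp only [Sum.elim_inl, Sum.elim_inr] at hz
    convert hz using 2
    push_cast
    ring
  have hq : ∀ i : Fin r', ∃ z : ℤ, |(u * ((q i.castSucc : ℝ) / N) - 0 - 0) - cc - z| < δ := by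
    intro i
    obtain ⟨z, hz⟩ := happ (Sum.inr i)
    refine ⟨z, ?_⟩
    simp only [Sum.elim_inr] at hz
    convert hz using 2
    ring
  choose zs hs using hs
  choose zt ht using ht
  choose zq hq using hq
  have fs := fun i => fract_near (hs i) hδc hcc1
  have ft := fun i => fract_near (ht i) hδc hcc1
  have fq := fun i => fract_near (hq i) hδc hcc1
  set S : ℝ := ∑ j, Int.fract (0 - u * ((s j : ℝ) / N)) + ∑ j, Int.fract (0 - u * ((t j : ℝ) / N))
        + ∑ j, Int.fract (u * ((q j : ℝ) / N) - 0 - 0) with hS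
  -- S is an integer
  have hSint : S = ((-(∑ j, ⌊0 - u * ((s j : ℝ) / N)⌋ + ∑ j, ⌊0 - u * ((t j : ℝ) / N)⌋
      + ∑ j, ⌊u * ((q j : ℝ) / N) - 0 - 0⌋) : ℤ) : ℝ) := by
    have htr' : ∑ i, (s i : ℝ) + ∑ i, (t i : ℝ) = ∑ i, (q i : ℝ) := by exact_mod_cast htr
    have h1 : ∑ j, (0 - u * ((s j : ℝ) / N)) + ∑ j, (0 - u * ((t j : ℝ) / N))
        + ∑ j, (u * ((q j : ℝ) / N) - 0 - 0) = 0 := by
      simp only [zero_sub, sub_zero, Finset.sum_neg_distrib, ← Finset.mul_sum, ← Finset.sum_div]
      rw [← htr']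
      ring
    rw [hS]
    simp only [Int.fract, Finset.sum_sub_distrib]
    simp only [Finset.sum_sub_distrib] at h1
    push_cast
    linarith
  -- bounds
  have hcard : ∑ _j : Fin (r' + 1), (1 : ℝ) = R := by simp [hRdef]
  have hcard' : ∑ _j : Fin r', (1 : ℝ) = R - 1 := by simp [hRdef]
  have bs1 : ∑ j, Int.fract (0 - u * ((s j : ℝ) / N)) ≤ R * (cc + δ) := by
    rw [← hcard, Finset.sum_mul]
    exact Finset.sum_le_sum fun j _ => by have := (abs_lt.mp (fs j).2).2; linarith
  have bs2 : R * (cc - δ) ≤ ∑ j, Int.fract (0 - u * ((s j : ℝ) / N)) := by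
    rw [← hcard, Finset.sum_mul]
    exact Finset.sum_le_sum fun j _ => by have := (abs_lt.mp (fs j).2).1; linarith
  have bt1 : ∑ j, Int.fract (0 - u * ((t j : ℝ) / N)) ≤ R * (cc + δ) := by
    rw [← hcard, Finset.sum_mul]
    exact Finset.sum_le_sum fun j _ => by have := (abs_lt.mp (ft j).2).2; linarith
  have bt2 : R * (cc - δ) ≤ ∑ j, Int.fract (0 - u * ((t j : ℝ) / N)) := by
    rw [← hcard, Finset.sum_mul]
    exact Finset.sum_le_sum fun j _ => by have := (abs_lt.mp (ft j).2).1; linarith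
  have hsplit : ∑ j, Int.fract (u * ((q j : ℝ) / N) - 0 - 0)
      = ∑ j : Fin r', Int.fract (u * ((q j.castSucc : ℝ) / N) - 0 - 0)
        + Int.fract (u * ((q (Fin.last r') : ℝ) / N) - 0 - 0) := Fin.sum_univ_castSucc _
  have bq1 : ∑ j : Fin r', Int.fract (u * ((q j.castSucc : ℝ) / N) - 0 - 0) ≤ (R - 1) * (cc + δ) := by
    rw [← hcard', Finset.sum_mul]
    exact Finset.sum_le_sum fun j _ => by have := (abs_lt.mp (fq j).2).2; linarith
  have bq2 : (R - 1) * (cc - δ) ≤ ∑ j : Fin r', Int.fract (u * ((q j.castSucc : ℝ) / N) - 0 - 0) := by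
    rw [← hcard', Finset.sum_mul]
    exact Finset.sum_le_sum fun j _ => by have := (abs_lt.mp (fq j).2).1; linarith
  have hlast0 := Int.fract_nonneg (u * ((q (Fin.last r') : ℝ) / N) - 0 - 0)
  have hlast1 := Int.fract_lt_one (u * ((q (Fin.last r') : ℝ) / N) - 0 - 0)
  have hSlow : 0 < S := by
    rw [hS, hsplit]
    nlinarith
  have hSup : S < 2 := by
    rw [hS, hsplit]
    nlinarith
  have hS1 : S = 1 := by
    rw [hSint] at hSlow hSup ⊢
    have h1 : (0 : ℤ) < -(∑ j, ⌊0 - u * ((s j : ℝ) / N)⌋ + ∑ j, ⌊0 - u * ((t j : ℝ) / N)⌋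
      + ∑ j, ⌊u * ((q j : ℝ) / N) - 0 - 0⌋) := by exact_mod_cast hSlow
    have h2 : -(∑ j, ⌊0 - u * ((s j : ℝ) / N)⌋ + ∑ j, ⌊0 - u * ((t j : ℝ) / N)⌋
      + ∑ j, ⌊u * ((q j : ℝ) / N) - 0 - 0⌋) < (2 : ℤ) := by exact_mod_cast hSup
    have h3 : -(∑ j, ⌊0 - u * ((s j : ℝ) / N)⌋ + ∑ j, ⌊0 - u * ((t j : ℝ) / N)⌋
      + ∑ j, ⌊u * ((q j : ℝ) / N) - 0 - 0⌋) = (1 : ℤ) := by omega
    rw [h3]; norm_num
  have hlastpos : Int.fract (u * ((q (Fin.last r') : ℝ) / N) - 0 - 0) ≠ 0 := by
    intro h0
    rw [hS, hsplit, h0] at hS1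
    nlinarith
  have key := (asymptotic hn0 hN0 hb hc hbc (u := u) hinf 0 0
    (fun j => by have := (abs_lt.mp (fs j).2).1; intro h; rw [h] at this; linarith)
    (fun j => by have := (abs_lt.mp (ft j).2).1; intro h; rw [h] at this; linarith)
    (fun j => by
      refine Fin.lastCases ?_ (fun j => ?_) j
      · exact hlastpos
      · have := (abs_lt.mp (fq j).2).1; intro h; rw [h] at this; linarith)).1 hnc
  rw [← hS, hS1] at key
  linarith

end Pool.Agent.Work.MP_5e5ff1_ag

end

section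

/-! The interlacing polytope and the torsion cosets inside it. -/

open Finset Filter Topology MeasureTheory

namespace Pool.Agent.Work.MP_5e5ff1_ag

variable {r : ℕ}

lemma interlacing_periodic {v : Fin 3 × Fin r → ℝ} (h : Interlacing v) (z : Fin 3 × Fin r → ℤ) :
    Interlacing (fun j => v j + z j) := by
  intro x hx hgen
  have e : ∀ i : Fin 3 × Fin r, Int.fract (x i.1 - (v i + z i)) = Int.fract (x i.1 - v i) := by
    intro i
    rw [show x i.1 - (v i + z i) = x i.1 - v i - z i by ring, Int.fract_sub_intCast]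
  simp only [e] at hgen ⊢
  exact h x hx hgen

lemma isOpen_fract_ne : IsOpen {t : ℝ | Int.fract t ≠ 0} := by
  have h : {t : ℝ | Int.fract t ≠ 0} = (Set.range ((↑) : ℤ → ℝ))ᶜ := by
    ext t
    simp only [Set.mem_ofPred_eq, Set.mem_compl_iff, Ne, Int.fract_eq_zero_iff]
  rw [h]
  exact Int.isClosedEmbedding_coe_real.isClosed_range.isOpen_compl

lemma continuousOn_fract_ne : ContinuousOn (fun t : ℝ => Int.fract t) {t : ℝ | Int.fract t ≠ 0} := by
  intro t ht
  apply ContinuousAt.continuousWithinAt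
  apply continuousAt_fract
  intro h
  apply ht
  rw [Int.fract, ← h, sub_self]

lemma isClosed_interlacing : IsClosed {v : Fin 3 × Fin r → ℝ | Interlacing v} := by
  have h : {v : Fin 3 × Fin r → ℝ | Interlacing v} = ⋂ (x : Fin 3 → ℝ) (_ : x 0 + x 1 + x 2 = 0),
      {v : Fin 3 × Fin r → ℝ | (∀ i, Int.fract (x i.1 - v i) ≠ 0) →
        (r : ℝ) ≤ ∑ i, Int.fract (x i.1 - v i) ∧ ∑ i, Int.fract (x i.1 - v i) ≤ 2 * r} := by
    ext v
    simp only [Interlacing, Set.mem_iInter, Set.mem_ofPred_eq]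
  rw [h]
  refine isClosed_iInter fun x => isClosed_iInter fun _ => ?_
  rw [← isOpen_compl_iff]
  have hO : IsOpen {v : Fin 3 × Fin r → ℝ | ∀ i, Int.fract (x i.1 - v i) ≠ 0} := by
    rw [Set.ofPred_forall]
    refine isOpen_iInter_of_finite fun i => ?_
    exact isOpen_fract_ne.preimage (f := fun v : Fin 3 × Fin r → ℝ => x i.1 - v i) (by fun_prop)
  have hcont : ContinuousOn (fun v : Fin 3 × Fin r → ℝ => ∑ i, Int.fract (x i.1 - v i))
      {v : Fin 3 × Fin r → ℝ | ∀ i, Int.fract (x i.1 - v i) ≠ 0} := by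
    refine continuousOn_finsetSum _ fun i _ => ?_
    exact continuousOn_fract_ne.comp (f := fun v : Fin 3 × Fin r → ℝ => x i.1 - v i)
      (by fun_prop) (fun v hv => hv i)
  have hS : IsOpen {t : ℝ | t < r ∨ 2 * r < t} :=
    (isOpen_Iio (a := (r : ℝ))).union (isOpen_Ioi (a := 2 * (r : ℝ)))
  have := hcont.isOpen_inter_preimage hO hS
  convert this using 1
  ext v
  simp only [Set.mem_compl_iff, Set.mem_ofPred_eq, Set.mem_inter_iff, Set.mem_preimage]
  constructor
  · intro h
    push Not at h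
    refine ⟨h.1, ?_⟩
    by_cases h1 : (r : ℝ) ≤ ∑ i, Int.fract (x i.1 - v i)
    · exact Or.inr (h.2 h1)
    · exact Or.inl (not_le.mp h1)
  · rintro ⟨h1, h2⟩ h3
    obtain ⟨h4, h5⟩ := h3 h1
    rcases h2 with h2 | h2 <;> linarith

/-- a countable set is avoided in every interval -/
lemma exists_avoid {S : Set ℝ} (hS : S.Countable) {a b : ℝ} (hab : a < b) :
    ∃ x, a < x ∧ x < b ∧ x ∉ S := by
  obtain ⟨x, hx, hx1, hx2⟩ := (hS.dense_compl ℝ).exists_between hab
  exact ⟨x, hx1, hx2, hx⟩

lemma countable_shift (a : ℝ) (σ : ℝ) : {t : ℝ | Int.fract (σ * t - a) = 0 ∧ σ ≠ 0}.Countable := by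
  have : {t : ℝ | Int.fract (σ * t - a) = 0 ∧ σ ≠ 0} ⊆ Set.range (fun z : ℤ => (z + a) / σ) := by
    rintro t ⟨ht, hσ⟩
    obtain ⟨z, hz⟩ := Int.fract_eq_zero_iff.mp ht
    refine ⟨z, ?_⟩
    simp only
    rw [hz]
    field_simp
    ring
  exact (Set.countable_range _).mono this

/-- generic points near a given point -/
lemma exists_generic (v : Fin 3 × Fin r → ℝ) (x0 x1 : ℝ) {ε : ℝ} (hε : 0 < ε) :
    ∃ x : Fin 3 → ℝ, x 0 + x 1 + x 2 = 0 ∧ (∀ i, Int.fract (x i.1 - v i) ≠ 0) ∧
      x0 < x 0 ∧ x 0 < x0 + ε ∧ x1 < x 1 ∧ x 1 < x1 + ε := by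
  have hc0 : (⋃ j : Fin r, {t : ℝ | Int.fract (1 * t - v (0, j)) = 0 ∧ (1 : ℝ) ≠ 0}).Countable :=
    Set.countable_iUnion fun j => countable_shift _ _
  obtain ⟨a, ha1, ha2, ha3⟩ := exists_avoid hc0 (show x0 < x0 + ε by linarith)
  have hc1 : ((⋃ j : Fin r, {t : ℝ | Int.fract (1 * t - v (1, j)) = 0 ∧ (1 : ℝ) ≠ 0}) ∪
      (⋃ j : Fin r, {t : ℝ | Int.fract (-1 * t - (a + v (2, j))) = 0 ∧ (-1 : ℝ) ≠ 0})).Countable :=
    (Set.countable_iUnion fun j => countable_shift _ _).union
      (Set.countable_iUnion fun j => countable_shift _ _)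
  obtain ⟨b, hb1, hb2, hb3⟩ := exists_avoid hc1 (show x1 < x1 + ε by linarith)
  refine ⟨![a, b, -a - b], by simp, ?_, ha1, ha2, hb1, hb2⟩
  rintro ⟨i, j⟩ h0
  fin_cases i
  · apply ha3
    simp only [Set.mem_iUnion]
    refine ⟨j, ?_, one_ne_zero⟩
    rw [one_mul]
    simpa using h0
  · apply hb3
    left
    simp only [Set.mem_iUnion]
    refine ⟨j, ?_, one_ne_zero⟩
    rw [one_mul]
    simpa using h0
  · apply hb3
    right
    simp only [Set.mem_iUnion]
    refine ⟨j, ?_, by norm_num⟩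
    have e : -1 * b - (a + v (2, j)) = -a - b - v (2, j) := by ring
    rw [e]
    simpa using h0

/-- a minimal set of coordinates separating the points of a subspace -/
lemma exists_coords {ι : Type*} [Fintype ι] [DecidableEq ι] (W : Submodule ℝ (ι → ℝ)) :
    ∃ D : Finset ι, Module.finrank ℝ W ≤ D.card ∧
      ∀ i ∈ D, ∃ w ∈ W, w i = 1 ∧ ∀ j ∈ D, j ≠ i → w j = 0 := by
  classical
  set P : Finset ι → Prop := fun D => ∀ w ∈ W, (∀ i ∈ D, w i = 0) → w = 0 with hP
  have hex : ∃ D : Finset ι, P D := ⟨Finset.univ, fun w _ h => funext fun i => h i (Finset.mem_univ i)⟩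
  obtain ⟨D, hD, hmin⟩ : ∃ D : Finset ι, P D ∧ ∀ D' : Finset ι, P D' → D.card ≤ D'.card := by
    obtain ⟨D, hD, h⟩ := WellFounded.has_min (measure (fun D : Finset ι => D.card)).wf
      {D | P D} hex
    exact ⟨D, hD, fun D' hD' => not_lt.mp (h D' hD')⟩
  refine ⟨D, ?_, ?_⟩
  · set f : W →ₗ[ℝ] (D → ℝ) := (LinearMap.funLeft ℝ ℝ (fun i : D => (i : ι))).comp W.subtype with hf
    have hinj : Function.Injective f := by
      rw [← LinearMap.ker_eq_bot, LinearMap.ker_eq_bot']
      intro w hw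
      have : (w : ι → ℝ) = 0 := hD w w.2 (fun i hi => by
        have := congrFun hw ⟨i, hi⟩
        simpa [hf, LinearMap.funLeft] using this)
      exact Subtype.ext this
    have := LinearMap.finrank_le_finrank_of_injective hinj
    rwa [Module.finrank_fintype_fun_eq_card, Fintype.card_coe] at this
  · intro i hi
    have h1 : ¬ P (D.erase i) := by
      intro h
      have := hmin _ h
      rw [Finset.card_erase_of_mem hi] at this
      have := Finset.card_pos.mpr ⟨i, hi⟩
      omega
    rw [hP] at h1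
    push Not at h1
    obtain ⟨w, hw, hw1, hw2⟩ := h1
    have hwi : w i ≠ 0 := by
      intro h0
      apply hw2
      apply hD w hw
      intro j hj
      by_cases hji : j = i
      · rw [hji]; exact h0
      · exact hw1 j (Finset.mem_erase.mpr ⟨hji, hj⟩)
    refine ⟨(w i)⁻¹ • w, W.smul_mem _ hw, ?_, ?_⟩
    · simp [hwi]
    · intro j hj hji
      simp [hw1 j (Finset.mem_erase.mpr ⟨hji, hj⟩)]

/-- dimension bound: cosets inside the polytope have at least `r` independent relations -/
theorem rank_bound {T : Finset ((Fin 3 × Fin r → ℤ) × ℚ)} {v0 : Fin 3 × Fin r → ℝ}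
    (h0 : Solves T v0) (hT : ∀ w, Solves T w → Interlacing w) : r ≤ relRank T := by
  classical
  by_contra hcon
  push Not at hcon
  set A := Matrix.of fun (e : T) (i : Fin 3 × Fin r) => ((e.1.1 i : ℤ) : ℝ) with hA
  set W := LinearMap.ker A.mulVecLin with hW
  have hdim : A.rank + Module.finrank ℝ W = 3 * r := by
    have := LinearMap.finrank_range_add_finrank_ker A.mulVecLin
    rw [Module.finrank_fintype_fun_eq_card] at this
    simpa [Matrix.rank] using this
  obtain ⟨D, hD1, hD2⟩ := exists_coords W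
  have hDc : 2 * r + 1 ≤ D.card := by
    have : relRank T = A.rank := rfl
    omega
  have hDle : D.card ≤ 3 * r := by
    have := Finset.card_le_univ D
    simpa using this
  choose! b hb1 hb2 hb3 using hD2
  have hr : 0 < r := by omega
  have hrR : (0 : ℝ) < r := by exact_mod_cast hr
  set η : ℝ := 1 / (12 * r) with hη
  have hη0 : 0 < η := by positivity
  have hη1 : η * (12 * r) = 1 := by rw [hη]; field_simp
  have hη2 : η ≤ 1 / 12 := by
    rw [hη, div_le_div_iff₀ (by positivity) (by norm_num)]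
    have : (1 : ℝ) ≤ r := by exact_mod_cast hr
    linarith
  set v : Fin 3 × Fin r → ℝ := v0 + ∑ i ∈ D, (-(v0 i) - η) • b i with hv
  have hvD : ∀ i ∈ D, v i = -η := by
    intro i hi
    rw [hv, Pi.add_apply, Finset.sum_apply, Finset.sum_eq_single i]
    · rw [Pi.smul_apply, hb2 i hi, smul_eq_mul]; ring
    · intro j hj hji
      rw [Pi.smul_apply, hb3 j hj i hi (Ne.symm hji), smul_zero]
    · intro h; exact absurd hi h
  have hvT : Solves T v := by
    intro e he
    obtain ⟨z, hz⟩ := h0 e he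
    refine ⟨z, ?_⟩
    rw [← hz]
    have hker : ∀ w ∈ W, ∑ i, (e.1 i : ℝ) * w i = 0 := by
      intro w hw
      rw [hW, LinearMap.mem_ker, Matrix.mulVecLin_apply] at hw
      have := congrFun hw ⟨e, he⟩
      simpa [Matrix.mulVec, dotProduct, hA] using this
    have hsum : ∑ i ∈ D, (-(v0 i) - η) • b i ∈ W :=
      W.sum_mem fun i hi => W.smul_mem _ (hb1 i hi)
    have := hker _ hsum
    rw [hv]
    simp only [Pi.add_apply, mul_add, Finset.sum_add_distrib]
    simp only [Finset.sum_apply] at this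
    simp only [Finset.sum_apply]
    rw [this, add_zero]
  obtain ⟨x, hx0, hxg, h1, h2, h3, h4⟩ := exists_generic v 0 0 (show (0 : ℝ) < η / 4 by positivity)
  have hkey := (hT v hvT x hx0 hxg).1
  have habs : ∀ a : Fin 3, |x a| ≤ η / 2 := by
    intro a
    fin_cases a
    · simp only [Fin.zero_eta]; rw [abs_le]; constructor <;> linarith
    · simp only [Fin.mk_one]; rw [abs_le]; constructor <;> linarith
    · simp only [Fin.reduceFinMk]; rw [abs_le]; constructor <;> linarith
  have hsmall : ∀ i ∈ D, Int.fract (x i.1 - v i) ≤ 3 / 2 * η := by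
    intro i hi
    have := abs_le.mp (habs i.1)
    rw [hvD i hi, Int.fract_eq_self.mpr ⟨by linarith, by linarith⟩]
    linarith
  have hsplit : ∑ i, Int.fract (x i.1 - v i) = ∑ i ∈ D, Int.fract (x i.1 - v i)
      + ∑ i ∈ Dᶜ, Int.fract (x i.1 - v i) := (Finset.sum_add_sum_compl D _).symm
  have hb1' : ∑ i ∈ D, Int.fract (x i.1 - v i) ≤ D.card * (3 / 2 * η) := by
    rw [← nsmul_eq_mul]
    exact Finset.sum_le_card_nsmul _ _ _ hsmall
  have hb2' : ∑ i ∈ Dᶜ, Int.fract (x i.1 - v i) ≤ (Dᶜ).card * 1 := by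
    rw [← nsmul_eq_mul]
    exact Finset.sum_le_card_nsmul _ _ _ fun i _ => (Int.fract_lt_one _).le
  have hcompl : (Dᶜ).card ≤ r - 1 := by
    rw [Finset.card_compl]
    have : Fintype.card (Fin 3 × Fin r) = 3 * r := by simp
    omega
  have hcomplR : ((Dᶜ).card : ℝ) ≤ r - 1 := by
    have : (((Dᶜ).card : ℕ) : ℝ) ≤ ((r - 1 : ℕ) : ℝ) := by exact_mod_cast hcompl
    rwa [Nat.cast_sub hr, Nat.cast_one] at this
  have hDR : (D.card : ℝ) ≤ 3 * r := by exact_mod_cast hDle
  have : (D.card : ℝ) * (3 / 2 * η) ≤ 3 * r * (3 / 2 * η) := by gcongr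
  nlinarith

end Pool.Agent.Work.MP_5e5ff1_ag

end

section

/-! If the exponents at one point are free, the exponents at the other two are evenly spaced. -/

open Finset Filter Topology MeasureTheory

namespace Pool.Agent.Work.MP_5e5ff1_ag

lemma fract_periodic : Function.Periodic (fun t : ℝ => Int.fract t) 1 := by
  intro t
  exact Int.fract_add_one t

lemma fract_integrable (a b : ℝ) (f : ℝ → ℝ) (hf : Measurable f) :
    IntervalIntegrable (fun t => Int.fract (f t)) volume a b := by
  rw [intervalIntegrable_iff]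
  refine Measure.integrableOn_of_bounded (M := 1) ?_ ?_ ?_
  · simp
  · exact (measurable_fract.comp hf).aestronglyMeasurable
  · filter_upwards with t
    rw [Real.norm_eq_abs, abs_of_nonneg (Int.fract_nonneg _)]
    exact (Int.fract_lt_one _).le

lemma integral_fract_unit : ∫ t in (0 : ℝ)..1, Int.fract t = 1 / 2 := by
  have h1 : ∫ t in (0 : ℝ)..1, Int.fract t = ∫ t in (0 : ℝ)..1, t := by
    apply intervalIntegral.integral_congr_ae
    have h2 : ∀ᵐ t : ℝ, t ≠ 1 := by
      rw [ae_iff]
      simp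
    filter_upwards [h2] with t ht hmem
    rw [Set.uIoc_of_le zero_le_one] at hmem
    rw [Int.fract_eq_self]
    exact ⟨hmem.1.le, lt_of_le_of_ne hmem.2 ht⟩
  rw [h1]
  simp

lemma integral_fract_sub (a p : ℝ) : ∫ t in a..(a + 1), Int.fract (t - p) = 1 / 2 := by
  rw [intervalIntegral.integral_comp_sub_right (fun t => Int.fract t) p]
  have := fract_periodic.intervalIntegral_add_eq (a - p) 0
  rw [show a + 1 - p = a - p + 1 by ring, this, zero_add, integral_fract_unit]

lemma integral_fract_sub' (a q : ℝ) : ∫ t in a..(a + 1), Int.fract (q - t) = 1 / 2 := by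
  rw [intervalIntegral.integral_comp_sub_left (fun t => Int.fract t) q]
  have := fract_periodic.intervalIntegral_add_eq (q - (a + 1)) 0
  rw [show q - a = q - (a + 1) + 1 by ring, this, zero_add, integral_fract_unit]

/-- distance to the integers of finitely many non integral numbers -/
lemma exists_gap (S : Finset ℝ) : ∃ ε : ℝ, 0 < ε ∧ ε < 1 / 2 ∧
    ∀ t ∈ S, Int.fract t ≠ 0 → ε < Int.fract t ∧ Int.fract t < 1 - ε := by
  classical
  induction S using Finset.induction_on with
  | empty => exact ⟨1 / 4, by norm_num, by norm_num, by simp⟩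
  | insert a S _ ih =>
    obtain ⟨ε, h1, h2, h3⟩ := ih
    by_cases ha : Int.fract a = 0
    · refine ⟨ε, h1, h2, ?_⟩
      intro t ht hne
      rcases Finset.mem_insert.mp ht with rfl | ht
      · exact absurd ha hne
      · exact h3 t ht hne
    · have hpos : 0 < Int.fract a := lt_of_le_of_ne (Int.fract_nonneg _) (Ne.symm ha)
      have hlt : Int.fract a < 1 := Int.fract_lt_one _
      refine ⟨min ε (min (Int.fract a / 2) ((1 - Int.fract a) / 2)), by
        refine lt_min h1 (lt_min (by linarith) (by linarith)), (min_le_left _ _).trans_lt h2, ?_⟩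
      intro t ht hne
      have e1 := min_le_left ε (min (Int.fract a / 2) ((1 - Int.fract a) / 2))
      have e2 := (min_le_right ε (min (Int.fract a / 2) ((1 - Int.fract a) / 2))).trans
        (min_le_left _ _)
      have e3 := (min_le_right ε (min (Int.fract a / 2) ((1 - Int.fract a) / 2))).trans
        (min_le_right _ _)
      rcases Finset.mem_insert.mp ht with rfl | ht
      · constructor <;> linarith
      · have := h3 t ht hne
        constructor <;> linarith [this.1, this.2]

lemma fract_move {t s ε : ℝ} (h1 : ε < Int.fract t) (h2 : Int.fract t < 1 - ε) (h3 : |s| ≤ ε) :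
    Int.fract (t + s) = Int.fract t + s := by
  have h4 := abs_le.mp h3
  rw [Int.fract_eq_iff]
  refine ⟨by linarith, by linarith, ⌊t⌋, ?_⟩
  rw [Int.fract]; ring

/-- the jump argument -/
lemma jump {r : ℕ} (p q : Fin r → ℝ) {S : Set ℝ} (hS : S.Countable)
    (h : ∀ y, y ∉ S → (r : ℝ) ≤ ∑ j, Int.fract (y - p j) + ∑ j, Int.fract (q j - y)) (j0 : Fin r) :
    ∃ j, Int.fract (q j - p j0) = 0 := by
  classical
  by_contra hcon
  push Not at hcon
  set y0 := p j0 with hy0
  obtain ⟨ε, hε0, hε1, hgap⟩ := exists_gap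
    (Finset.univ.image (fun j => y0 - p j) ∪ Finset.univ.image (fun j => q j - y0))
  set G : ℝ → ℝ := fun y => ∑ j, Int.fract (y - p j) + ∑ j, Int.fract (q j - y) with hG
  set A : ℝ := ∑ j, (if Int.fract (y0 - p j) = 0 then 0 else Int.fract (y0 - p j))
    + ∑ j, Int.fract (q j - y0) with hA
  set μ : ℝ := ∑ j, (if Int.fract (y0 - p j) = 0 then 1 else 0) with hμ
  have hμ1 : 1 ≤ μ := by
    have h1 : (if Int.fract (y0 - p j0) = 0 then (1 : ℝ) else 0) = 1 := by
      rw [if_pos]; simp [hy0]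
    have h2 := Finset.single_le_sum (f := fun j => if Int.fract (y0 - p j) = 0 then (1 : ℝ) else 0)
      (fun j _ => by split_ifs <;> norm_num) (Finset.mem_univ j0)
    simp only [h1] at h2
    exact h2
  have hq : ∀ s : ℝ, |s| ≤ ε → ∑ j, Int.fract (q j - (y0 + s)) = ∑ j, Int.fract (q j - y0) - r * s := by
    intro s hs
    have : ∀ j, Int.fract (q j - (y0 + s)) = Int.fract (q j - y0) - s := by
      intro j
      have h1 := hgap (q j - y0) (Finset.mem_union_right _ (Finset.mem_image_of_mem _ (Finset.mem_univ j)))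
        (hcon j)
      rw [show q j - (y0 + s) = (q j - y0) + (-s) by ring,
        fract_move h1.1 h1.2 (by rw [abs_neg]; exact hs)]
      ring
    simp only [this, Finset.sum_sub_distrib]
    simp
  have hp1 : ∀ s : ℝ, 0 < s → s ≤ ε → ∑ j, Int.fract (y0 + s - p j)
      = ∑ j, (if Int.fract (y0 - p j) = 0 then 0 else Int.fract (y0 - p j)) + r * s := by
    intro s hs0 hs
    have : ∀ j, Int.fract (y0 + s - p j)
        = (if Int.fract (y0 - p j) = 0 then 0 else Int.fract (y0 - p j)) + s := by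
      intro j
      split_ifs with h0
      · obtain ⟨z, hz⟩ := Int.fract_eq_zero_iff.mp h0
        rw [show y0 + s - p j = s + (y0 - p j) by ring, ← hz, Int.fract_add_intCast, zero_add]
        exact Int.fract_eq_self.mpr ⟨hs0.le, by linarith⟩
      · have h1 := hgap (y0 - p j) (Finset.mem_union_left _ (Finset.mem_image_of_mem _ (Finset.mem_univ j))) h0
        rw [show y0 + s - p j = (y0 - p j) + s by ring,
          fract_move h1.1 h1.2 (by rw [abs_of_pos hs0]; exact hs)]
    simp only [this, Finset.sum_add_distrib]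
    simp
  have hp2 : ∀ s : ℝ, s < 0 → -ε ≤ s → ∑ j, Int.fract (y0 + s - p j)
      = ∑ j, (if Int.fract (y0 - p j) = 0 then 0 else Int.fract (y0 - p j)) + μ + r * s := by
    intro s hs0 hs
    have : ∀ j, Int.fract (y0 + s - p j)
        = (if Int.fract (y0 - p j) = 0 then 0 else Int.fract (y0 - p j))
          + (if Int.fract (y0 - p j) = 0 then 1 else 0) + s := by
      intro j
      split_ifs with h0
      · obtain ⟨z, hz⟩ := Int.fract_eq_zero_iff.mp h0
        rw [show y0 + s - p j = s + (y0 - p j) by ring, ← hz, Int.fract_add_intCast, zero_add,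
          Int.fract_eq_iff]
        exact ⟨by linarith, by linarith, -1, by push_cast; ring⟩
      · have h1 := hgap (y0 - p j) (Finset.mem_union_left _ (Finset.mem_image_of_mem _ (Finset.mem_univ j))) h0
        rw [show y0 + s - p j = (y0 - p j) + s by ring,
          fract_move h1.1 h1.2 (by rw [abs_of_neg hs0]; linarith)]
        ring
    simp only [this, Finset.sum_add_distrib]
    simp [hμ]
  have hGr : ∀ s : ℝ, 0 < s → s ≤ ε → G (y0 + s) = A := by
    intro s hs0 hs
    simp only [hG]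
    rw [hp1 s hs0 hs, hq s (by rw [abs_of_pos hs0]; exact hs), hA]
    ring
  have hGl : ∀ s : ℝ, s < 0 → -ε ≤ s → G (y0 + s) = A + μ := by
    intro s hs0 hs
    simp only [hG]
    rw [hp2 s hs0 hs, hq s (by rw [abs_of_neg hs0]; linarith), hA]
    ring
  have hAr : (r : ℝ) ≤ A := by
    obtain ⟨y, hy1, hy2, hy3⟩ := exists_avoid hS (show y0 < y0 + ε by linarith)
    have h1 := h y hy3
    have h2 := hGr (y - y0) (by linarith) (by linarith)
    rw [show y0 + (y - y0) = y by ring] at h2
    rw [← h2]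
    exact h1
  -- integrate
  have hint : ∀ a b : ℝ, IntervalIntegrable G volume a b := by
    intro a b
    simp only [hG]
    apply IntervalIntegrable.add
    · have := IntervalIntegrable.sum Finset.univ (f := fun (j : Fin r) (y : ℝ) => Int.fract (y - p j))
        (μ := volume) (a := a) (b := b) (fun j _ => fract_integrable a b _ (by fun_prop))
      simpa [Finset.sum_fn] using this
    · have := IntervalIntegrable.sum Finset.univ (f := fun (j : Fin r) (y : ℝ) => Int.fract (q j - y))
        (μ := volume) (a := a) (b := b) (fun j _ => fract_integrable a b _ (by fun_prop))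
      simpa [Finset.sum_fn] using this
  have htotal : ∫ t in (y0 - ε)..(y0 - ε + 1), G t = r := by
    simp only [hG]
    rw [intervalIntegral.integral_add, intervalIntegral.integral_finsetSum,
      intervalIntegral.integral_finsetSum]
    · simp only [integral_fract_sub, integral_fract_sub']
      simp
      ring
    · intro j _; exact fract_integrable _ _ _ (by fun_prop)
    · intro j _; exact fract_integrable _ _ _ (by fun_prop)
    · have := IntervalIntegrable.sum Finset.univ (f := fun (j : Fin r) (y : ℝ) => Int.fract (y - p j))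
        (μ := volume) (a := y0 - ε) (b := y0 - ε + 1) (fun j _ => fract_integrable _ _ _ (by fun_prop))
      simpa [Finset.sum_fn] using this
    · have := IntervalIntegrable.sum Finset.univ (f := fun (j : Fin r) (y : ℝ) => Int.fract (q j - y))
        (μ := volume) (a := y0 - ε) (b := y0 - ε + 1) (fun j _ => fract_integrable _ _ _ (by fun_prop))
      simpa [Finset.sum_fn] using this
  have hsplit := intervalIntegral.integral_add_adjacent_intervals (hint (y0 - ε) y0)
    (hint y0 (y0 - ε + 1))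
  have haeS : ∀ᵐ t : ℝ, t ∉ S := by
    rw [ae_iff]
    simpa using hS.measure_zero volume
  have hae0 : ∀ᵐ t : ℝ, t ≠ y0 := by
    rw [ae_iff]
    simp
  have h1 : ∫ _t in (y0 - ε)..y0, ((r : ℝ) + 1) ≤ ∫ t in (y0 - ε)..y0, G t := by
    apply intervalIntegral.integral_mono_ae_restrict (by linarith) intervalIntegrable_const
      (hint _ _)
    rw [Filter.EventuallyLE, ae_restrict_iff' measurableSet_Icc]
    filter_upwards [hae0] with t ht hmem
    have h2 := hGl (t - y0) (by
      have := lt_of_le_of_ne hmem.2 ht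
      linarith) (by linarith [hmem.1])
    rw [show y0 + (t - y0) = t by ring] at h2
    rw [h2]
    linarith
  have h2 : ∫ _t in y0..(y0 - ε + 1), (r : ℝ) ≤ ∫ t in y0..(y0 - ε + 1), G t := by
    apply intervalIntegral.integral_mono_ae_restrict (by linarith) intervalIntegrable_const
      (hint _ _)
    rw [Filter.EventuallyLE, ae_restrict_iff' measurableSet_Icc]
    filter_upwards [haeS] with t ht _
    exact h t ht
  rw [intervalIntegral.integral_const, smul_eq_mul] at h1 h2
  rw [htotal] at hsplit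
  nlinarith

/-- a third point different from two given ones, and the resulting split of sums over blocks -/
lemma sum_blocks {a b c : Fin 3} (hab : a ≠ b) (hac : a ≠ c) (hbc : b ≠ c) (f : Fin 3 → ℝ) :
    ∑ i, f i = f a + f b + f c := by
  have h : (Finset.univ : Finset (Fin 3)) = {a, b, c} := by
    revert a b c hab hac hbc; decide
  rw [h, Finset.sum_insert (by simp [hab, hac]), Finset.sum_insert (by simp [hbc]),
    Finset.sum_singleton]
  ring

theorem one_point {r : ℕ} (hr : 0 < r) {T : Finset ((Fin 3 × Fin r → ℤ) × ℚ)}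
    (hT : ∀ w, Solves T w → Interlacing w) (a : Fin 3)
    (hconst : ∀ e ∈ T, ∀ j j' : Fin r, e.1 (a, j) = e.1 (a, j')) {w : Fin 3 × Fin r → ℝ}
    (hw : Solves T w) (b : Fin 3) (hab : a ≠ b) : EvenlySpaced (fun j => w (b, j)) := by
  classical
  have hrR : (r : ℝ) ≠ 0 := Nat.cast_ne_zero.mpr hr.ne'
  have hrpos : (0 : ℝ) < r := by exact_mod_cast hr
  have hex : ∀ a b : Fin 3, a ≠ b → ∃ c : Fin 3, a ≠ c ∧ b ≠ c := by decide
  have third : ∀ a b c i : Fin 3, a ≠ b → a ≠ c → b ≠ c → i = a ∨ i = b ∨ i = c := by decide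
  obtain ⟨c, hac, hbc⟩ := hex a b hab
  set σ : ℝ := ∑ j, w (a, j) with hσ
  set j1 : Fin r := ⟨0, hr⟩ with hj1
  refine ⟨-(σ / r) - w (c, j1), ?_⟩
  intro l
  -- the modified point
  set t : ℝ := (σ - l) / r with ht
  set w' : Fin 3 × Fin r → ℝ := fun i => if i.1 = a then t else w i with hw'
  have hsolve : Solves T w' := by
    intro e he
    obtain ⟨z, hz⟩ := hw e he
    refine ⟨z - e.1 (a, j1) * l, ?_⟩
    have h1 : ∀ u : Fin 3 × Fin r → ℝ, ∑ i, (e.1 i : ℝ) * u i
        = ∑ j, (e.1 (a, j) : ℝ) * u (a, j) + ∑ j, (e.1 (b, j) : ℝ) * u (b, j)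
          + ∑ j, (e.1 (c, j) : ℝ) * u (c, j) := by
      intro u
      rw [Fintype.sum_prod_type]
      exact sum_blocks hab hac hbc (fun i => ∑ j, (e.1 (i, j) : ℝ) * u (i, j))
    rw [h1] at hz ⊢
    have h2 : ∀ u : Fin 3 × Fin r → ℝ, ∑ j, (e.1 (a, j) : ℝ) * u (a, j)
        = (e.1 (a, j1) : ℝ) * ∑ j, u (a, j) := by
      intro u
      rw [Finset.mul_sum]
      apply Finset.sum_congr rfl
      intro j _
      rw [hconst e he j j1]
    have h3 : ∑ j, w' (a, j) = σ - l := by
      simp only [hw', if_true]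
      rw [Finset.sum_const, Finset.card_univ, Fintype.card_fin, nsmul_eq_mul, ht]
      field_simp
    have h4 : ∀ j, w' (b, j) = w (b, j) := fun j => by simp [hw', hab.symm]
    have h5 : ∀ j, w' (c, j) = w (c, j) := fun j => by simp [hw', hac.symm]
    rw [h2] at hz ⊢
    rw [h3]
    simp only [h4, h5]
    rw [← hσ] at hz
    push_cast
    linarith
  have hint := hT w' hsolve
  -- the limit inequality
  set Sy : Set ℝ := (⋃ j : Fin r, {y : ℝ | Int.fract (1 * y - w (c, j)) = 0 ∧ (1 : ℝ) ≠ 0}) ∪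
    (⋃ j : Fin r, {y : ℝ | Int.fract (-1 * y - (t + w (b, j))) = 0 ∧ (-1 : ℝ) ≠ 0}) with hSy
  have hSyc : Sy.Countable := (Set.countable_iUnion fun j => countable_shift _ _).union
      (Set.countable_iUnion fun j => countable_shift _ _)
  have hineq : ∀ y, y ∉ Sy → (r : ℝ) ≤ ∑ j, Int.fract (y - w (c, j))
      + ∑ j, Int.fract ((-t - w (b, j)) - y) := by
    intro y hy
    have hyc : ∀ j, Int.fract (y - w (c, j)) ≠ 0 := by
      intro j h0
      apply hy
      left
      simp only [Set.mem_iUnion]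
      exact ⟨j, by rw [one_mul]; exact h0, one_ne_zero⟩
    have hyb : ∀ j, Int.fract ((-t - w (b, j)) - y) ≠ 0 := by
      intro j h0
      apply hy
      right
      simp only [Set.mem_iUnion]
      refine ⟨j, ?_, by norm_num⟩
      rw [show -1 * y - (t + w (b, j)) = (-t - w (b, j)) - y by ring]
      exact h0
    obtain ⟨ε, hε0, hε1, hgap⟩ := exists_gap (Finset.univ.image (fun j => (-t - w (b, j)) - y))
    have hη : ∀ η : ℝ, 0 < η → η < ε → (r : ℝ) ≤ ∑ j, Int.fract (y - w (c, j))
        + ∑ j, Int.fract ((-t - w (b, j)) - y) := by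
      intro η hη0 hηε
      set x : Fin 3 → ℝ := fun i => if i = a then t + η else if i = c then y else -t - η - y with hx
      have xa : x a = t + η := by simp [hx]
      have xc : x c = y := by simp [hx, hac.symm]
      have xb : x b = -t - η - y := by simp [hx, hab.symm, hbc]
      have hx0 : x 0 + x 1 + x 2 = 0 := by
        have := sum_blocks hab hac hbc x
        rw [Fin.sum_univ_three] at this
        rw [this, xa, xb, xc]
        ring
      have ea : ∀ j : Fin r, Int.fract (x a - w' (a, j)) = η := by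
        intro j
        simp only [xa, hw', if_true]
        rw [show t + η - t = η by ring]
        exact Int.fract_eq_self.mpr ⟨hη0.le, by linarith⟩
      have ec : ∀ j : Fin r, Int.fract (x c - w' (c, j)) = Int.fract (y - w (c, j)) := by
        intro j
        simp [xc, hw', hac.symm]
      have eb : ∀ j : Fin r, Int.fract (x b - w' (b, j)) = Int.fract ((-t - w (b, j)) - y) - η := by
        intro j
        have h1 := hgap _ (Finset.mem_image_of_mem _ (Finset.mem_univ j)) (hyb j)
        have h2 : x b - w' (b, j) = ((-t - w (b, j)) - y) + (-η) := by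
          simp only [xb, hw', hab.symm, if_false]
          ring
        rw [h2, fract_move h1.1 h1.2 (by rw [abs_neg, abs_of_pos hη0]; exact hηε.le)]
        ring
      have hgen : ∀ i : Fin 3 × Fin r, Int.fract (x i.1 - w' i) ≠ 0 := by
        rintro ⟨i, j⟩
        have hi : i = a ∨ i = b ∨ i = c := by
          exact third a b c i hab hac hbc
        rcases hi with rfl | rfl | rfl
        · rw [ea j]; exact hη0.ne'
        · rw [eb j]
          have h1 := hgap _ (Finset.mem_image_of_mem _ (Finset.mem_univ j)) (hyb j)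
          intro h0
          linarith [h1.1]
        · rw [ec j]; exact hyc j
      have h1 := (hint x hx0 hgen).1
      rw [Fintype.sum_prod_type, sum_blocks hab hac hbc (fun i => ∑ j, Int.fract (x i - w' (i, j)))] at h1
      simp only [ea, eb, ec, Finset.sum_sub_distrib, Finset.sum_const, Finset.card_univ,
        Fintype.card_fin, nsmul_eq_mul] at h1
      linarith
    exact hη (ε / 2) (by linarith) (by linarith)
  obtain ⟨j, hj⟩ := jump (fun j => w (c, j)) (fun j => -t - w (b, j)) hSyc hineq j1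
  obtain ⟨z, hz⟩ := Int.fract_eq_zero_iff.mp hj
  refine ⟨j, -z, ?_⟩
  have h1 : (z : ℝ) = -t - w (b, j) - w (c, j1) := hz
  have h2 : t = σ / r - l / r := by rw [ht]; ring
  push_cast
  rw [h2] at h1
  linarith

end Pool.Agent.Work.MP_5e5ff1_ag

end
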