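import Mathlib
import Pool.Agent.Work.MP_5e5ff1_ag.T.Par
import Pool.Agent.Work.MP_5e5ff1_ag.Bd.B01
import Pool.Agent.Work.MP_5e5ff1_ag.Unit.Stmts
import Pool.Agent.Work.MP_5e5ff1_ag.Unit.Defs
import Pool.Agent.Work.MP_5e5ff1_ag.Unit.Geo
import Pool.Agent.Work.MP_5e5ff1_ag.T.Minors

/-! Bundle of small proof modules (one section per former module). -/

section

/-! The numerical consequences of semistability. -/

open Polynomial Matrix

set_option linter.unusedSectionVars false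

namespace Pool.Agent.Work.MP_5e5ff1_ag.S

open Pool.Agent.Work.MP_5e5ff1_ag.T

section general

variable {F : Type*} [Field F] {ι : Type*} [Fintype ι] [DecidableEq ι]

lemma rootMultiplicity_add_le (q : F[X]) :
    q.rootMultiplicity 0 + q.rootMultiplicity 1 ≤ q.natDegree := by
  classical
  have h1 : q.rootMultiplicity 0 + q.rootMultiplicity 1 ≤ q.roots.card := by
    rw [← count_roots, ← count_roots, ← Multiset.toFinset_sum_count_eq]
    have h2 : q.roots.count 0 + q.roots.count 1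
        = ∑ a ∈ ({0, 1} : Finset F), q.roots.count a := by
      rw [Finset.sum_pair zero_ne_one]
    rw [h2]
    have h3 : ∑ a ∈ ({0, 1} : Finset F), q.roots.count a
        ≤ ∑ a ∈ ({0, 1} : Finset F) ∪ q.roots.toFinset, q.roots.count a :=
      Finset.sum_le_sum_of_subset Finset.subset_union_left
    refine h3.trans (le_of_eq ?_)
    symm
    apply Finset.sum_subset Finset.subset_union_right
    intro a _ ha
    rw [Multiset.mem_toFinset] at ha
    exact Multiset.count_eq_zero.mpr ha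
  exact h1.trans (card_roots' q)

/-- a semistable bundle has no subsheaf of positive degree -/
lemma parDegree_fullRank_le [IsAlgClosed F] {g₀ g₁ : Matrix ι ι F} (h₀ : g₀.det ≠ 0)
    (h₁ : g₁.det ≠ 0) {w : Fin 3 × ι → ℝ} (hs : Semistable g₀ g₁ w) {k : ℕ}
    {W : Matrix ι (Fin k) F[X]} (hW : FullRank W) : parDegree g₀ g₁ w W ≤ 0 := by
  obtain ⟨W', N, hsub, hWN, hN⟩ := saturate hW
  obtain ⟨I, hI, hval⟩ := parDegree_attained h₀ h₁ w hsub.fullRank
  have hI' : ParNonzero g₀ g₁ W I := by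
    rw [hWN]
    unfold ParNonzero at hI ⊢
    simp only [← Matrix.mul_assoc, minor_mul_right, mul_ne_zero_iff]
    exact ⟨⟨hI.1, hN⟩, ⟨hI.2.1, hN⟩, ⟨hI.2.2, hN⟩⟩
  refine (parDegree_le w hI').trans ?_
  have h1 : ordPart g₀ g₁ W I ≤ ordPart g₀ g₁ W' I := by
    rw [hWN]
    unfold ordPart
    simp only [← Matrix.mul_assoc, minor_mul_right]
    rw [rootMultiplicity_mul (mul_ne_zero hI.1 hN), rootMultiplicity_mul (mul_ne_zero hI.2.1 hN),
      natDegree_mul hI.2.2 hN]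
    have := rootMultiplicity_add_le N.det
    push_cast
    omega
  have h2 : parVal g₀ g₁ w W I ≤ parVal g₀ g₁ w W' I := by
    unfold parVal
    have : (ordPart g₀ g₁ W I : ℝ) ≤ (ordPart g₀ g₁ W' I : ℝ) := by exact_mod_cast h1
    linarith
  have h3 := hs.2 k W' hsub
  rw [hval] at h3
  exact h2.trans h3

end general

section numbers

variable {F : Type*} [Field F] [IsAlgClosed F] {r : ℕ} {g₀ g₁ : Matrix (Fin r) (Fin r) F}
  {w : Fin 3 × Fin r → ℝ}

/-- the one column matrix of a vector -/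
def col1 {α : Type*} {r : ℕ} (v : Fin r → α) : Matrix (Fin r) (Fin 1) α := Matrix.of fun i _ => v i

lemma minor_col1 (g : Matrix (Fin r) (Fin r) F) (v : Fin r → F[X]) (I : Fin 1 → Fin r) :
    ((g.map C * col1 v).submatrix I id).det = ∑ j, C (g (I 0) j) * v j := by
  rw [det_unique]
  simp [mul_apply, col1]

lemma minor_col1' (v : Fin r → F[X]) (I : Fin 1 → Fin r) :
    ((col1 v).submatrix I id).det = v (I 0) := by
  rw [det_unique]
  simp [col1]

/-- the value of the degree on a vector -/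
lemma parDegree_col1 (h₀ : g₀.det ≠ 0) (h₁ : g₁.det ≠ 0) {v : Fin r → F[X]} (hv : v ≠ 0) :
    ∃ i₀ i₁ i₂ : Fin r, (∑ j, C (g₀ i₀ j) * v j) ≠ 0 ∧ (∑ j, C (g₁ i₁ j) * v j) ≠ 0 ∧ v i₂ ≠ 0 ∧
      parDegree g₀ g₁ w (col1 v)
        = (w (0, i₀) + ((∑ j, C (g₀ i₀ j) * v j).rootMultiplicity 0 : ℝ))
        + (w (1, i₁) + ((∑ j, C (g₁ i₁ j) * v j).rootMultiplicity 1 : ℝ))
        + (w (2, i₂) - ((v i₂).natDegree : ℝ)) := by
  have hfull : FullRank (col1 v) := by
    obtain ⟨i, hi⟩ := Function.ne_iff.mp hv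
    refine ⟨fun _ => i, ?_⟩
    rw [minor_col1']
    exact hi
  obtain ⟨I, hI, hval⟩ := parDegree_attained h₀ h₁ w hfull
  unfold ParNonzero at hI
  rw [minor_col1, minor_col1, minor_col1'] at hI
  refine ⟨I 0 0, I 1 0, I 2 0, hI.1, hI.2.1, hI.2.2, ?_⟩
  rw [hval, parVal_eq, minor_col1, minor_col1, minor_col1']
  simp

/-- the weights at infinity are not positive -/
lemma weight_inf_le (h₀ : g₀.det ≠ 0) (h₁ : g₁.det ≠ 0)
    (hw : ∀ j, 0 ≤ w (0, j) ∧ w (0, j) ≤ 1 ∧ 0 ≤ w (1, j) ∧ w (1, j) ≤ 1)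
    (hs : Semistable g₀ g₁ w) (j : Fin r) : w (2, j) ≤ 0 := by
  have hv : (Pi.single j 1 : Fin r → F[X]) ≠ 0 := by simp
  have hfull : FullRank (col1 (Pi.single j 1 : Fin r → F[X])) := by
    refine ⟨fun _ => j, ?_⟩
    rw [minor_col1']; simp
  have h1 := parDegree_fullRank_le h₀ h₁ hs hfull
  obtain ⟨i₀, i₁, i₂, _, _, hi₂, hval⟩ := parDegree_col1 (w := w) h₀ h₁ hv
  have hj : i₂ = j := by
    by_contra h
    exact hi₂ (Pi.single_eq_of_ne h 1)
  subst hj
  rw [hval, Pi.single_eq_same, natDegree_one, Nat.cast_zero] at h1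
  have h2 := hw i₀
  have h3 := hw i₁
  have h4 : (0 : ℝ) ≤ ((∑ j, C (g₀ i₀ j) * (Pi.single i₂ 1 : Fin r → F[X]) j).rootMultiplicity 0 : ℝ) :=
    Nat.cast_nonneg _
  have h5 : (0 : ℝ) ≤ ((∑ j, C (g₁ i₁ j) * (Pi.single i₂ 1 : Fin r → F[X]) j).rootMultiplicity 1 : ℝ) :=
    Nat.cast_nonneg _
  linarith [h2.1, h3.2.2.1]

lemma weight_inf_ge (h₀ : g₀.det ≠ 0) (h₁ : g₁.det ≠ 0)
    (hw : ∀ j, 0 ≤ w (0, j) ∧ w (0, j) ≤ 1 ∧ 0 ≤ w (1, j) ∧ w (1, j) ≤ 1)
    (hs : Semistable g₀ g₁ w) (j : Fin r) : -(2 * r : ℝ) ≤ w (2, j) := by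
  have h1 := hs.1
  rw [Fintype.sum_prod_type, Fin.sum_univ_three] at h1
  have h2 : ∑ j, w (0, j) ≤ r := by
    calc ∑ j, w (0, j) ≤ ∑ _j : Fin r, (1 : ℝ) := Finset.sum_le_sum (fun j _ => (hw j).2.1)
      _ = r := by simp
  have h3 : ∑ j, w (1, j) ≤ r := by
    calc ∑ j, w (1, j) ≤ ∑ _j : Fin r, (1 : ℝ) := Finset.sum_le_sum (fun j _ => (hw j).2.2.2)
      _ = r := by simp
  have h4 : ∑ j, w (2, j) ≤ w (2, j) := by
    rw [← Finset.add_sum_erase _ _ (Finset.mem_univ j)]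
    have : ∑ x ∈ Finset.univ.erase j, w (2, x) ≤ 0 :=
      Finset.sum_nonpos (fun x _ => weight_inf_le h₀ h₁ hw hs x)
    linarith
  linarith

/-- a polynomial vector with few conditions -/
lemma exists_vector (n : Fin r → ℕ) (J₀ J₁ : Finset (Fin r))
    (h : J₀.card + J₁.card < ∑ j, n j) :
    ∃ v : Fin r → F[X], v ≠ 0 ∧ (∀ j, v j ≠ 0 → (v j).natDegree < n j) ∧
      (∀ i ∈ J₀, (∑ j, C (g₀ i j) * v j).eval 0 = 0) ∧
      (∀ i ∈ J₁, (∑ j, C (g₁ i j) * v j).eval 1 = 0) := by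
  classical
  let vec : ((Σ j, Fin (n j)) → F) →ₗ[F] (Fin r → F[X]) :=
    { toFun := fun c j => ∑ l : Fin (n j), monomial (l : ℕ) (c ⟨j, l⟩)
      map_add' := by
        intro c c'
        funext j
        simp [Finset.sum_add_distrib]
      map_smul' := by
        intro a c
        funext j
        simp only [Pi.smul_apply, RingHom.id_apply, Finset.smul_sum, smul_monomial] }
  let cond : ((Σ j, Fin (n j)) → F) →ₗ[F] ((J₀ ⊕ J₁) → F) :=
    { toFun := fun c => Sum.elim (fun i : J₀ => (∑ j, C (g₀ i j) * vec c j).eval 0)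
        (fun i : J₁ => (∑ j, C (g₁ i j) * vec c j).eval 1)
      map_add' := by
        intro c c'
        funext x
        rcases x with x | x
        · simp only [map_add, Pi.add_apply, mul_add, Finset.sum_add_distrib, eval_add,
            Sum.elim_inl]
        · simp only [map_add, Pi.add_apply, mul_add, Finset.sum_add_distrib, eval_add,
            Sum.elim_inr]
      map_smul' := by
        intro a c
        funext x
        rcases x with x | x
        · simp only [map_smul, Pi.smul_apply, Sum.elim_inl, RingHom.id_apply, mul_smul_comm,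
            ← Finset.smul_sum, eval_smul]
        · simp only [map_smul, Pi.smul_apply, Sum.elim_inr, RingHom.id_apply, mul_smul_comm,
            ← Finset.smul_sum, eval_smul] }
  have hker : ¬ Function.Injective cond := by
    intro hinj
    have h1 := LinearMap.finrank_le_finrank_of_injective hinj
    simp only [Module.finrank_fintype_fun_eq_card, Fintype.card_sigma, Fintype.card_fin,
      Fintype.card_sum, Fintype.card_coe] at h1
    omega
  rw [← LinearMap.ker_eq_bot, Submodule.eq_bot_iff] at hker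
  push Not at hker
  obtain ⟨c, hc, hc0⟩ := hker
  have hcond := LinearMap.mem_ker.mp hc
  have hcoeff : ∀ j (l : Fin (n j)), (vec c j).coeff l = c ⟨j, l⟩ := by
    intro j l
    change (∑ l : Fin (n j), monomial (l : ℕ) (c ⟨j, l⟩)).coeff l = _
    simp only [finsetSum_coeff, coeff_monomial]
    rw [Finset.sum_eq_single l (by
      intro b _ hb
      rw [if_neg]
      exact fun h => hb (Fin.ext h)) (by simp), if_pos rfl]
  refine ⟨vec c, ?_, ?_, ?_, ?_⟩
  · intro h0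
    apply hc0
    funext x
    rw [← hcoeff x.1 x.2, h0]
    simp
  · intro j hj
    have h1 : (vec c j).degree < (n j : WithBot ℕ) := by
      change (∑ l : Fin (n j), monomial (l : ℕ) (c ⟨j, l⟩)).degree < _
      refine (degree_sum_le _ _).trans_lt ?_
      rw [Finset.sup_lt_iff (WithBot.bot_lt_coe _)]
      intro l _
      exact (degree_monomial_le _ _).trans_lt (by exact_mod_cast l.2)
    rw [degree_eq_natDegree hj] at h1
    exact_mod_cast h1
  · intro i hi
    exact congrFun hcond (Sum.inl ⟨i, hi⟩)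
  · intro i hi
    exact congrFun hcond (Sum.inr ⟨i, hi⟩)

/-- the numerical inequality, for normalised test points -/
lemma sum_fract_le_aux (h₀ : g₀.det ≠ 0) (h₁ : g₁.det ≠ 0)
    (hw : ∀ j, 0 ≤ w (0, j) ∧ w (0, j) ≤ 1 ∧ 0 ≤ w (1, j) ∧ w (1, j) ≤ 1)
    (hs : Semistable g₀ g₁ w) {x : Fin 3 → ℝ} (hx : x 0 + x 1 + x 2 = 0)
    (hx0 : 0 ≤ x 0 ∧ x 0 < 1) (hx1 : 0 ≤ x 1 ∧ x 1 < 1)
    (hgen : ∀ i : Fin 3 × Fin r, Int.fract (x i.1 - w i) ≠ 0) :
    ∑ i : Fin 3 × Fin r, Int.fract (x i.1 - w i) ≤ 2 * r := by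
  classical
  by_contra hcon
  push Not at hcon
  -- the sum of the integral parts
  have hsum : ∑ i : Fin 3 × Fin r, Int.fract (x i.1 - w i)
      = - ((∑ i : Fin 3 × Fin r, ⌊x i.1 - w i⌋ : ℤ) : ℝ) := by
    have h1 : ∑ i : Fin 3 × Fin r, (x i.1 - w i) = 0 := by
      rw [Finset.sum_sub_distrib, hs.1, Fintype.sum_prod_type]
      simp only [Finset.sum_const, Finset.card_univ, Fintype.card_fin, nsmul_eq_mul]
      rw [← Finset.mul_sum, Fin.sum_univ_three, hx]
      ring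
    have h2 : ∑ i : Fin 3 × Fin r, Int.fract (x i.1 - w i)
        = ∑ i : Fin 3 × Fin r, (x i.1 - w i) - ∑ i : Fin 3 × Fin r, (⌊x i.1 - w i⌋ : ℝ) := by
      rw [← Finset.sum_sub_distrib]
      rfl
    rw [h2, h1]
    push_cast
    ring
  rw [hsum] at hcon
  have hcon' : 2 * (r : ℤ) < - ∑ i : Fin 3 × Fin r, ⌊x i.1 - w i⌋ := by exact_mod_cast hcon
  rw [Fintype.sum_prod_type, Fin.sum_univ_three] at hcon'
  set a : Fin 3 × Fin r → ℝ := fun i => x i.1 - w i with ha
  have hcon'' : 2 * (r : ℤ) < -(∑ j, ⌊a (0, j)⌋ + ∑ j, ⌊a (1, j)⌋ + ∑ j, ⌊a (2, j)⌋) := hcon'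
  -- the nonintegrality
  have hne : ∀ i, (⌊a i⌋ : ℝ) < a i := by
    intro i
    have h1 := Int.fract_nonneg (a i)
    have h2 : Int.fract (a i) ≠ 0 := hgen i
    have h3 : 0 < Int.fract (a i) := lt_of_le_of_ne h1 (Ne.symm h2)
    have h4 : Int.fract (a i) = a i - ⌊a i⌋ := rfl
    linarith
  have hlt : ∀ i, a i < (⌊a i⌋ : ℝ) + 1 := fun i => Int.lt_floor_add_one (a i)
  have hfl : ∀ (m : Fin 3), (m = 0 ∨ m = 1) → ∀ j, ⌊a (m, j)⌋ = 0 ∨ ⌊a (m, j)⌋ = -1 := by
    intro m hm j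
    have h1 : a (m, j) < 1 ∧ -1 ≤ a (m, j) := by
      rcases hm with rfl | rfl
      · have := hw j
        simp only [ha]
        constructor <;> linarith [hx0.1, hx0.2]
      · have := hw j
        simp only [ha]
        constructor <;> linarith [hx1.1, hx1.2]
    have h2 : ⌊a (m, j)⌋ < 1 := by rw [Int.floor_lt]; exact_mod_cast h1.1
    have h3 : -1 ≤ ⌊a (m, j)⌋ := by rw [Int.le_floor]; exact_mod_cast h1.2
    omega
  set J₀ : Finset (Fin r) := Finset.univ.filter (fun j => ⌊a (0, j)⌋ = 0) with hJ₀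
  set J₁ : Finset (Fin r) := Finset.univ.filter (fun j => ⌊a (1, j)⌋ = 0) with hJ₁
  have hcard : ∀ (m : Fin 3), (m = 0 ∨ m = 1) →
      (((Finset.univ.filter (fun j => ⌊a (m, j)⌋ = 0)).card : ℕ) : ℤ)
        = ∑ j, ⌊a (m, j)⌋ + r := by
    intro m hm
    rw [Finset.card_filter]
    push_cast
    have h1 : ∀ j, (if ⌊a (m, j)⌋ = 0 then (1 : ℤ) else 0) = ⌊a (m, j)⌋ + 1 := by
      intro j
      rcases hfl m hm j with h | h
      · rw [if_pos h, h]; rfl
      · rw [if_neg (by rw [h]; decide), h]; rfl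
    simp only [h1, Finset.sum_add_distrib]
    simp
  have hn : J₀.card + J₁.card < ∑ j, (-⌊a (2, j)⌋).toNat := by
    have h1 := hcard 0 (Or.inl rfl)
    have h2 := hcard 1 (Or.inr rfl)
    have h3 : -∑ j, ⌊a (2, j)⌋ ≤ ((∑ j, (-⌊a (2, j)⌋).toNat : ℕ) : ℤ) := by
      rw [← Finset.sum_neg_distrib]
      push_cast
      exact Finset.sum_le_sum fun j _ => Int.self_le_toNat _
    rw [← hJ₀] at h1
    rw [← hJ₁] at h2
    zify
    push_cast at h3
    linarith
  obtain ⟨v, hv0, hvd, hv₀, hv₁⟩ := exists_vector (g₀ := g₀) (g₁ := g₁) _ J₀ J₁ hn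
  have hfull : FullRank (col1 v) := by
    obtain ⟨i, hi⟩ := Function.ne_iff.mp hv0
    refine ⟨fun _ => i, ?_⟩
    rw [minor_col1']
    exact hi
  have h1 := parDegree_fullRank_le h₀ h₁ hs hfull
  obtain ⟨i₀, i₁, i₂, hi₀, hi₁, hi₂, hval⟩ := parDegree_col1 (w := w) h₀ h₁ hv0
  rw [hval] at h1
  have hp₀ : x 0 < w (0, i₀) + ((∑ j, C (g₀ i₀ j) * v j).rootMultiplicity 0 : ℝ) := by
    have h3 := hlt (0, i₀)
    have h4 := hne (0, i₀)
    have h5 : a (0, i₀) = x 0 - w (0, i₀) := rfl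
    rcases hfl 0 (Or.inl rfl) i₀ with h | h
    · have h2 := hv₀ i₀ (by rw [hJ₀, Finset.mem_filter]; exact ⟨Finset.mem_univ _, h⟩)
      have h6 : 0 < (∑ j, C (g₀ i₀ j) * v j).rootMultiplicity 0 :=
        (rootMultiplicity_pos hi₀).mpr h2
      have h7 : (1 : ℝ) ≤ ((∑ j, C (g₀ i₀ j) * v j).rootMultiplicity 0 : ℝ) := by
        exact_mod_cast h6
      rw [h] at h3
      push_cast at h3
      linarith
    · rw [h] at h3
      push_cast at h3
      have h7 : (0 : ℝ) ≤ ((∑ j, C (g₀ i₀ j) * v j).rootMultiplicity 0 : ℝ) := Nat.cast_nonneg _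
      linarith
  have hp₁ : x 1 < w (1, i₁) + ((∑ j, C (g₁ i₁ j) * v j).rootMultiplicity 1 : ℝ) := by
    have h3 := hlt (1, i₁)
    have h4 := hne (1, i₁)
    have h5 : a (1, i₁) = x 1 - w (1, i₁) := rfl
    rcases hfl 1 (Or.inr rfl) i₁ with h | h
    · have h2 := hv₁ i₁ (by rw [hJ₁, Finset.mem_filter]; exact ⟨Finset.mem_univ _, h⟩)
      have h6 : 0 < (∑ j, C (g₁ i₁ j) * v j).rootMultiplicity 1 :=
        (rootMultiplicity_pos hi₁).mpr h2
      have h7 : (1 : ℝ) ≤ ((∑ j, C (g₁ i₁ j) * v j).rootMultiplicity 1 : ℝ) := by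
        exact_mod_cast h6
      rw [h] at h3
      push_cast at h3
      linarith
    · rw [h] at h3
      push_cast at h3
      have h7 : (0 : ℝ) ≤ ((∑ j, C (g₁ i₁ j) * v j).rootMultiplicity 1 : ℝ) := Nat.cast_nonneg _
      linarith
  have hp₂ : x 2 < w (2, i₂) - ((v i₂).natDegree : ℝ) := by
    have h3 := hlt (2, i₂)
    have h5 : a (2, i₂) = x 2 - w (2, i₂) := rfl
    have h6 := hvd i₂ hi₂
    have h7 : ((v i₂).natDegree : ℤ) + 1 ≤ -⌊a (2, i₂)⌋ := by omega
    have h8 : ((v i₂).natDegree : ℝ) + 1 ≤ -(⌊a (2, i₂)⌋ : ℝ) := by exact_mod_cast h7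
    linarith
  linarith

/-- the numerical inequality -/
theorem sum_fract_le (h₀ : g₀.det ≠ 0) (h₁ : g₁.det ≠ 0)
    (hw : ∀ j, 0 ≤ w (0, j) ∧ w (0, j) ≤ 1 ∧ 0 ≤ w (1, j) ∧ w (1, j) ≤ 1)
    (hs : Semistable g₀ g₁ w) {x : Fin 3 → ℝ} (hx : x 0 + x 1 + x 2 = 0)
    (hgen : ∀ i : Fin 3 × Fin r, Int.fract (x i.1 - w i) ≠ 0) :
    ∑ i : Fin 3 × Fin r, Int.fract (x i.1 - w i) ≤ 2 * r := by
  set x' : Fin 3 → ℝ := ![x 0 - ⌊x 0⌋, x 1 - ⌊x 1⌋, x 2 + ⌊x 0⌋ + ⌊x 1⌋] with hx'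
  have e0 : x' 0 = x 0 - ⌊x 0⌋ := rfl
  have e1 : x' 1 = x 1 - ⌊x 1⌋ := rfl
  have e2 : x' 2 = x 2 + ⌊x 0⌋ + ⌊x 1⌋ := rfl
  have hfr : ∀ i : Fin 3 × Fin r, Int.fract (x' i.1 - w i) = Int.fract (x i.1 - w i) := by
    rintro ⟨m, j⟩
    fin_cases m
    · have : x' 0 - w (0, j) = (x 0 - w (0, j)) - ((⌊x 0⌋ : ℤ) : ℝ) := by rw [e0]; ring
      change Int.fract (x' 0 - w (0, j)) = Int.fract (x 0 - w (0, j))
      rw [this, Int.fract_sub_intCast]
    · have : x' 1 - w (1, j) = (x 1 - w (1, j)) - ((⌊x 1⌋ : ℤ) : ℝ) := by rw [e1]; ring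
      change Int.fract (x' 1 - w (1, j)) = Int.fract (x 1 - w (1, j))
      rw [this, Int.fract_sub_intCast]
    · have : x' 2 - w (2, j) = (x 2 - w (2, j)) + ((⌊x 0⌋ + ⌊x 1⌋ : ℤ) : ℝ) := by
        rw [e2]; push_cast; ring
      change Int.fract (x' 2 - w (2, j)) = Int.fract (x 2 - w (2, j))
      rw [this, Int.fract_add_intCast]
  have f0 := Int.floor_le (x 0)
  have f1 := Int.floor_le (x 1)
  have l0 := Int.lt_floor_add_one (x 0)
  have l1 := Int.lt_floor_add_one (x 1)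
  have h := sum_fract_le_aux h₀ h₁ hw hs (x := x') (by rw [e0, e1, e2]; linarith)
    ⟨by rw [e0]; linarith, by rw [e0]; linarith⟩ ⟨by rw [e1]; linarith, by rw [e1]; linarith⟩
    (fun i => by rw [hfr]; exact hgen i)
  simpa only [hfr] using h

end numbers

end Pool.Agent.Work.MP_5e5ff1_ag.S

end

section

/-! Items (as propositions) of the theorem of Mehta and Seshadri for the line minus three points,
level 2: general stable parabolic bundles (ties between the weights, closed windows, arbitrary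
lattice at infinity), as limits of the bundles of level 1. The weights `w` are growth exponents, as
in `Unit/Defs.lean`, and `γ 2 = 1` throughout. -/

open Matrix Polynomial Filter Topology

namespace Pool.Agent.MSU

/-! ### definitions -/

/-- the polynomial matrix `t (1 + (ε / t) E_ij)` -/
noncomputable def Rh {r : ℕ} (i j : Fin r) (ε : ℂ) : Matrix (Fin r) (Fin r) ℂ[X] :=
  (X : ℂ[X]) • (1 : Matrix (Fin r) (Fin r) ℂ[X]) + (C ε : ℂ[X]) • Matrix.single i j (1 : ℂ[X])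

/-- stability for the bundle whose filtration at infinity is moved by `1 + (ε/t) E_ij` -/
def StM {r : ℕ} (γ : Fin 3 → Matrix (Fin r) (Fin r) ℂ) (w : Fin 3 → Fin r → ℝ) (i j : Fin r)
    (ε : ℂ) : Prop :=
  ∀ k : ℕ, 0 < k → k < r → ∀ W : Matrix (Fin r) (Fin k) ℂ[X],
    Pool.Agent.Work.MP_5e5ff1_ag.T.IsSub W →
    ∃ J : Fin 3 → Fin k → Fin r, mn (γ 0) W (J 0) ≠ 0 ∧ mn (γ 1) W (J 1) ≠ 0 ∧
      ((Rh i j ε * W).submatrix (J 2) id).det ≠ 0 ∧
      0 < ∑ x, ∑ a, w x (J x a) - ((mn (γ 0) W (J 0)).rootMultiplicity 0 : ℝ)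
        - ((mn (γ 1) W (J 1)).rootMultiplicity 1 : ℝ)
        + ((((Rh i j ε * W).submatrix (J 2) id).det.natDegree : ℝ) - k)

/-- frames at the three points, in the local coordinate `ζ`; at infinity `t = -1/ζ` and the frame
is `1 + (ε/t) E_ij = 1 - ε ζ E_ij` -/
noncomputable def Rf {r : ℕ} (γ : Fin 3 → Matrix (Fin r) (Fin r) ℂ) (i j : Fin r) (ε : ℂ)
    (x : Fin 3) (ζ : ℂ) : Matrix (Fin r) (Fin r) ℂ :=
  if x = 2 then 1 - (ε * ζ) • Matrix.single i j (1 : ℂ) else γ x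

/-- the row bounds in frames which depend on the point -/
def RowBdF {r d : ℕ} (R : Fin 3 → ℂ → Matrix (Fin r) (Fin r) ℂ) (w : Fin 3 → Fin r → ℝ)
    (G : Fin 3 → ℂ → Matrix (Fin r) (Fin d) ℂ) : Prop :=
  ∀ x, ∃ C ρ : ℝ, 0 < ρ ∧ ρ ≤ 1 / 2 ∧ ∀ ζ : ℂ, ‖ζ‖ < ρ →
    (ζ ∈ Sa → ∀ a b, ‖(R x ζ * G x (cz x ζ)) a b‖ ≤ C * ‖ζ‖ ^ (w x a)) ∧
    (ζ ∈ Sb → ∀ a b, ‖(R x ζ * G (x + 1) (cz x ζ)) a b‖ ≤ C * ‖ζ‖ ^ (w x a))

/-- the unitary solution for the bundle moved at infinity -/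
def SolM {r : ℕ} (γ : Fin 3 → Matrix (Fin r) (Fin r) ℂ) (w : Fin 3 → Fin r → ℝ) (i j : Fin r)
    (ε : ℂ) : Prop :=
  ∃ (G : Fin 3 → ℂ → Matrix (Fin r) (Fin r) ℂ) (Q : Fin 3 → Matrix (Fin r) (Fin r) ℂ),
    MV G Q ∧ RowBdF (Rf γ i j ε) w G ∧ (∀ j, ∀ z ∈ V j, IsUnit (G j z).det) ∧
    ∀ x, (Q x).charpoly =
      ∏ j, (X - C (Complex.exp (-(2 * Real.pi * Complex.I * (w x j : ℂ)))))

/-- the change of basis over the affine line, at the point `t`: in the plane `(i, j)` it is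
`[[t, ε], [-1/ε, 0]]`, of determinant one -/
noncomputable def NN {r : ℕ} (i j : Fin r) (ε t : ℂ) : Matrix (Fin r) (Fin r) ℂ :=
  1 + (t - 1) • Matrix.single i i (1 : ℂ) + ε • Matrix.single i j (1 : ℂ)
    - ε⁻¹ • Matrix.single j i (1 : ℂ) - Matrix.single j j (1 : ℂ)

/-- the flags after the change of basis -/
noncomputable def gT {r : ℕ} (γ : Fin 3 → Matrix (Fin r) (Fin r) ℂ) (i j : Fin r) (ε : ℂ)
    (x : Fin 3) : Matrix (Fin r) (Fin r) ℂ :=
  if x = 0 then γ 0 * (NN i j ε 0)⁻¹ else if x = 1 then γ 1 * (NN i j ε 1)⁻¹ else 1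

/-- the weights after the change of basis -/
noncomputable def wT {r : ℕ} (w : Fin 3 → Fin r → ℝ) (i j : Fin r) (x : Fin 3) (a : Fin r) : ℝ :=
  w x a + if x = 2 then (if a = i then -1 else if a = j then 1 else 0) else 0

/-- the weights at `0` and `1` lie in closed windows of length one -/
def CWin {r : ℕ} (w : Fin 3 → Fin r → ℝ) : Prop :=
  ∀ x, x ≠ 2 → ∀ a b, w x b - w x a ≤ 1

/-! ### minors -/

/-- every nonzero minor of `S A` is dominated by a nonzero minor of `A`, at a point -/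
def N_Dom : Prop := ∀ (r k : ℕ) (S : Matrix (Fin r) (Fin r) ℂ[X]) (A : Matrix (Fin r) (Fin k) ℂ[X])
  (t : ℂ) (J : Fin k → Fin r), ((S * A).submatrix J id).det ≠ 0 →
  ∃ J' : Fin k → Fin r, (A.submatrix J' id).det ≠ 0 ∧ (∀ l, S (J l) (J' l) ≠ 0) ∧
    (A.submatrix J' id).det.rootMultiplicity t + ∑ l, (S (J l) (J' l)).rootMultiplicity t
      ≤ ((S * A).submatrix J id).det.rootMultiplicity t

/-- every nonzero minor of `S A` is dominated by a nonzero minor of `A`, at infinity -/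
def N_DomInf : Prop := ∀ (r k : ℕ) (S : Matrix (Fin r) (Fin r) ℂ[X])
  (A : Matrix (Fin r) (Fin k) ℂ[X]) (J : Fin k → Fin r), ((S * A).submatrix J id).det ≠ 0 →
  ∃ J' : Fin k → Fin r, (A.submatrix J' id).det ≠ 0 ∧ (∀ l, S (J l) (J' l) ≠ 0) ∧
    ((S * A).submatrix J id).det.natDegree
      ≤ (A.submatrix J' id).det.natDegree + ∑ l, (S (J l) (J' l)).natDegree

/-- decomposable families of polynomials come from subbundles -/
def N_Dec : Prop := ∀ (r k : ℕ) (q : (Fin k → Fin r) → ℂ[X]), 0 < k → (∃ J, q J ≠ 0) →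
  (∀ J0 J : Fin k → Fin r, (Matrix.of fun a b => q (Function.update J0 b (J a))).det
    = q J0 ^ (k - 1) * q J) →
  ∃ (W : Matrix (Fin r) (Fin k) ℂ[X]) (h : ℂ[X]),
    Pool.Agent.Work.MP_5e5ff1_ag.T.IsSub W ∧ h ≠ 0 ∧ ∀ J, q J = h * (W.submatrix J id).det

/-- compactness of families of polynomials of bounded degree -/
def N_Coef : Prop := ∀ (κ : Type) [Fintype κ] (D : ℕ) (p : ℕ → κ → ℂ[X]),
  (∀ n J, (p n J).natDegree ≤ D) → (∀ n, ∃ J, p n J ≠ 0) →
  ∃ (φ : ℕ → ℕ) (c : ℕ → ℂ) (q : κ → ℂ[X]), StrictMono φ ∧ (∀ n, c n ≠ 0) ∧ (∃ J, q J ≠ 0) ∧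
    (∀ J, (q J).natDegree ≤ D) ∧
    ∀ J m, Tendsto (fun n => c n * (p (φ n) J).coeff m) atTop (𝓝 ((q J).coeff m))

/-- stability is an open condition -/
def N_Open : Prop := ∀ (r : ℕ) (γ : Fin 3 → Matrix (Fin r) (Fin r) ℂ) (w : Fin 3 → Fin r → ℝ),
  GU γ → γ 2 = 1 → StG γ w → ∀ i j : Fin r, i ≠ j → ∀ (ε : ℕ → ℂ) (wn : ℕ → Fin 3 → Fin r → ℝ),
  Tendsto ε atTop (𝓝 0) → (∀ x a, Tendsto (fun n => wn n x a) atTop (𝓝 (w x a))) →
  ∀ᶠ n in atTop, StM γ (wn n) i j (ε n)

/-! ### the change of basis -/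

def N_NN : Prop := ∀ (r : ℕ) (i j : Fin r) (ε t : ℂ), i ≠ j → ε ≠ 0 → (NN i j ε t).det = 1

/-- transfer of stability -/
def N_Trans : Prop := ∀ (r : ℕ) (γ : Fin 3 → Matrix (Fin r) (Fin r) ℂ) (w : Fin 3 → Fin r → ℝ),
  GU γ → γ 2 = 1 → CWin w → ∀ i j : Fin r, i ≠ j → w 2 j + 1 ≤ w 2 i → ∀ ε : ℂ, ε ≠ 0 →
  StM γ w i j ε → StG (gT γ i j ε) (wT w i j)

/-- transfer of the unitary solution -/
def N_Back : Prop := ∀ (r : ℕ) (γ : Fin 3 → Matrix (Fin r) (Fin r) ℂ) (w : Fin 3 → Fin r → ℝ),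
  GU γ → γ 2 = 1 → CWin w → ∀ i j : Fin r, i ≠ j → w 2 j + 1 ≤ w 2 i → ∀ ε : ℂ, ε ≠ 0 →
  SolG (gT γ i j ε) (wT w i j) → SolM γ w i j ε

/-- the case `ε = 0` -/
def N_Zero : Prop := ∀ (r : ℕ) (γ : Fin 3 → Matrix (Fin r) (Fin r) ℂ) (w : Fin 3 → Fin r → ℝ)
  (i j : Fin r), γ 2 = 1 → (StM γ w i j 0 → StG γ w) ∧ (SolG γ w → SolM γ w i j 0)

/-! ### limits -/

/-- normalisation of a multivalued matrix on the compact set `KK` -/
def N_Norm : Prop := ∀ (r d : ℕ) (G : Fin 3 → ℂ → Matrix (Fin r) (Fin d) ℂ)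
  (Q : Fin 3 → Matrix (Fin d) (Fin d) ℂ), MV G Q → (∃ z : ℂ, 0 < z.im ∧ z ∈ KK ∧ G 0 z ≠ 0) →
  ∃ ν : ℝ, 0 < ν ∧ (∀ j, ∀ z ∈ V j, z ∈ KK → ∀ a b, ‖((ν : ℂ) • G j z) a b‖ ≤ 1) ∧
    ∃ j, ∃ z ∈ V j, z ∈ KK ∧ ∑ a, ∑ b, ‖((ν : ℂ) • G j z) a b‖ ^ 2 = 1

/-- the uniform bounds at the three punctures -/
def UBd {r d : ℕ} (γ : Fin 3 → Matrix (Fin r) (Fin r) ℂ) (w : Fin 3 → Fin r → ℝ) (i j : Fin r)
    (ε : ℂ) (C : ℝ) (G : Fin 3 → ℂ → Matrix (Fin r) (Fin d) ℂ) : Prop :=
  ∀ (x : Fin 3) (ζ : ℂ), ‖ζ‖ ≤ 1 / 2 →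
    (ζ ∈ Sa → ∀ a b, ‖(Rf γ i j ε x ζ * G x (cz x ζ)) a b‖ ≤ C * ‖ζ‖ ^ (w x a)) ∧
    (ζ ∈ Sb → ∀ a b, ‖(Rf γ i j ε x ζ * G (x + 1) (cz x ζ)) a b‖ ≤ C * ‖ζ‖ ^ (w x a))

def N_Unif : Prop := ∀ (r d : ℕ) (γ : Fin 3 → Matrix (Fin r) (Fin r) ℂ) (Wm : ℝ), GU γ →
  ∀ i j : Fin r, i ≠ j → ∃ C : ℝ, ∀ (ε : ℂ) (w : Fin 3 → Fin r → ℝ)
    (G : Fin 3 → ℂ → Matrix (Fin r) (Fin d) ℂ) (Q : Fin 3 → Matrix (Fin d) (Fin d) ℂ),
    ‖ε‖ ≤ 1 → (∀ x i, |w x i| ≤ Wm) → MV G Q → RowBdF (Rf γ i j ε) w G →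
    (∀ j, ∀ z ∈ V j, z ∈ KK → ∀ a b, ‖G j z a b‖ ≤ 1) → UBd γ w i j ε C G

def N_LocBd : Prop := ∀ (r d : ℕ) (γ : Fin 3 → Matrix (Fin r) (Fin r) ℂ) (Wm C : ℝ), GU γ →
  ∀ i j : Fin r, i ≠ j → ∀ l, ∀ z ∈ V l, ∃ δ M : ℝ, 0 < δ ∧
    ∀ (ε : ℂ) (w : Fin 3 → Fin r → ℝ) (G : Fin 3 → ℂ → Matrix (Fin r) (Fin d) ℂ)
      (Q : Fin 3 → Matrix (Fin d) (Fin d) ℂ), ‖ε‖ ≤ 1 → (∀ x i, |w x i| ≤ Wm) → MV G Q →
      (∀ j, ∀ z ∈ V j, z ∈ KK → ∀ a b, ‖G j z a b‖ ≤ 1) → UBd γ w i j ε C G →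
      ∀ s ∈ V l, ‖s - z‖ < δ → ∀ a b, ‖G l s a b‖ ≤ M

/-- limits of unitary solutions -/
def N_Limit : Prop := ∀ (r : ℕ) (γ : Fin 3 → Matrix (Fin r) (Fin r) ℂ)
  (w : Fin 3 → Fin r → ℝ), GU γ → γ 2 = 1 → ∑ x, ∑ i, w x i = 0 → StG γ w →
  ∀ i j : Fin r, i ≠ j → ∀ (ε : ℕ → ℂ) (wn : ℕ → Fin 3 → Fin r → ℝ),
  Tendsto ε atTop (𝓝 0) → (∀ x a, Tendsto (fun n => wn n x a) atTop (𝓝 (w x a))) →
  (∀ n, SolM γ (wn n) i j (ε n)) → SolG γ w

/-! ### assembly -/

def N_Step : Prop := ∀ (r : ℕ) (γ : Fin 3 → Matrix (Fin r) (Fin r) ℂ) (w : Fin 3 → Fin r → ℝ),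
  GU γ → γ 2 = 1 → ∑ x, ∑ i, w x i = 0 → CWin w → ∀ i j : Fin r, i ≠ j → w 2 j + 1 ≤ w 2 i →
  StG γ w → (∀ ε : ℂ, ε ≠ 0 → StG (gT γ i j ε) (wT w i j) → SolG (gT γ i j ε) (wT w i j)) →
  SolG γ w

/-- weights: different from each other in a window of length smaller than one -/
def IWin {r : ℕ} (w : Fin r → ℝ) : Prop :=
  Function.Injective w ∧ ∀ i j, w j - w i < 1

def N_Sort : Prop := ∀ (r : ℕ) (γ : Fin 3 → Matrix (Fin r) (Fin r) ℂ) (w : Fin 3 → Fin r → ℝ),
  GU γ → (∀ x, IWin (w x)) → ∑ x, ∑ i, w x i = 0 → StG γ w → SolG γ w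

def N_Ind : Prop := ∀ (r : ℕ) (lam : Fin r → ℤ) (γ : Fin 3 → Matrix (Fin r) (Fin r) ℂ)
  (w : Fin 3 → Fin r → ℝ), ∑ i, lam i = 0 → GU γ → γ 2 = 1 → IWin (w 0) → IWin (w 1) →
  IWin (fun a => w 2 a - lam a) → ∑ x, ∑ i, w x i = 0 → StG γ w → SolG γ w

def N_Lat : Prop := ∀ (r : ℕ) (x : Fin r → ℝ), ∃ lam : Fin r → ℤ, ∑ i, lam i = 0 ∧
  ∀ i j, (x j - lam j) - (x i - lam i) ≤ 1

def N_Pert : Prop := ∀ (r : ℕ) (u : Fin 3 → Fin r → ℝ), (∀ x i j, u x j - u x i ≤ 1) →
  ∑ x, ∑ i, u x i = 0 → ∃ un : ℕ → Fin 3 → Fin r → ℝ, (∀ n x, IWin (un n x)) ∧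
    (∀ n, ∑ x, ∑ i, un n x i = 0) ∧ ∀ x a, Tendsto (fun n => un n x a) atTop (𝓝 (u x a))

/-- the theorem of Mehta and Seshadri for stable bundles of degree zero -/
def N_Main : Prop := ∀ (r : ℕ) (γ : Fin 3 → Matrix (Fin r) (Fin r) ℂ) (w : Fin 3 → Fin r → ℝ),
  GU γ → γ 2 = 1 → CWin w → ∑ x, ∑ i, w x i = 0 → StG γ w → SolG γ w

end Pool.Agent.MSU

end

section

/-! Stability excludes degenerate multivalued matrices. -/

open Matrix Polynomial Filter Topology
open scoped ComplexConjugate ComplexOrder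

namespace Pool.Agent.MSU.ItemDDeg

/-! ### unitary invariance of the sum of the squares of the minors -/

lemma sum_norm_vecMul {κ : Type*} [Fintype κ] [DecidableEq κ] (T : Matrix κ κ ℂ)
    (hT : T * Tᴴ = 1) (v : κ → ℂ) : ∑ L, ‖(v ᵥ* T) L‖ ^ 2 = ∑ L, ‖v L‖ ^ 2 := by
  have key : ∀ u : κ → ℂ, ((∑ L, ‖u L‖ ^ 2 : ℝ) : ℂ) = u ⬝ᵥ star u := by
    intro u
    rw [dotProduct, Complex.ofReal_sum]
    refine Finset.sum_congr rfl fun L _ => ?_
    rw [Pi.star_apply, ← starRingEnd_apply, Complex.mul_conj, Complex.normSq_eq_norm_sq]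
  have h : ((∑ L, ‖(v ᵥ* T) L‖ ^ 2 : ℝ) : ℂ) = ((∑ L, ‖v L‖ ^ 2 : ℝ) : ℂ) := by
    rw [key, key, star_vecMul, dotProduct_mulVec, vecMul_vecMul, hT, vecMul_one]
  exact_mod_cast h

/-- tensor power of a unitary matrix -/
lemma tensor_unitary {k d : ℕ} (Q : Matrix (Fin d) (Fin d) ℂ) (hQ : Q * Qᴴ = 1) :
    (Matrix.of fun f L : Fin k → Fin d => ∏ i, Q (f i) (L i)) *
      (Matrix.of fun f L : Fin k → Fin d => ∏ i, Q (f i) (L i))ᴴ = 1 := by
  ext f g
  rw [mul_apply]
  simp only [of_apply, conjTranspose_apply, star_prod, ← Finset.prod_mul_distrib]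
  have h1 : ∑ L : Fin k → Fin d, ∏ i, Q (f i) (L i) * star (Q (g i) (L i)) =
      ∏ i, ∑ l, Q (f i) l * star (Q (g i) l) := by
    rw [Finset.prod_univ_sum, Fintype.piFinset_univ]
  rw [h1]
  have h2 : ∀ i, ∑ l, Q (f i) l * star (Q (g i) l) = (1 : Matrix (Fin d) (Fin d) ℂ) (f i) (g i) := by
    intro i
    rw [← hQ, mul_apply]
    rfl
  simp only [h2]
  by_cases hfg : f = g
  · subst hfg
    simp
  · rw [one_apply_ne hfg]
    obtain ⟨i, hi⟩ := Function.ne_iff.mp hfg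
    exact Finset.prod_eq_zero (Finset.mem_univ i) (one_apply_ne hi)

lemma minor_mul_right {k d : ℕ} (M : Matrix (Fin k) (Fin d) ℂ) (Q : Matrix (Fin d) (Fin d) ℂ)
    (L : Fin k → Fin d) : ((M * Q).submatrix id L).det =
      ((fun f : Fin k → Fin d => (M.submatrix id f).det) ᵥ*
        (Matrix.of fun f L : Fin k → Fin d => ∏ i, Q (f i) (L i))) L := by
  have h1 : ((M * Q).submatrix id L).det = ((Qᵀ * Mᵀ).submatrix L id).det := by
    rw [← det_transpose, transpose_submatrix, transpose_mul]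
  rw [h1, Pool.Agent.Work.MP_5e5ff1_ag.T.minor_mul, vecMul, dotProduct]
  refine Finset.sum_congr rfl fun f _ => ?_
  rw [mul_comm, ← transpose_submatrix, det_transpose]
  rfl

lemma sum_minors {k d : ℕ} (M : Matrix (Fin k) (Fin d) ℂ) (Q : Matrix (Fin d) (Fin d) ℂ)
    (hQ : Qᴴ * Q = 1) : ∑ L : Fin k → Fin d, ‖((M * Q).submatrix id L).det‖ ^ 2 =
      ∑ L : Fin k → Fin d, ‖(M.submatrix id L).det‖ ^ 2 := by
  have h1 := sum_norm_vecMul (Matrix.of fun f L : Fin k → Fin d => ∏ i, Q (f i) (L i))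
    (tensor_unitary Q (mul_eq_one_comm.mp hQ)) (fun f : Fin k → Fin d => (M.submatrix id f).det)
  rw [← h1]
  refine Finset.sum_congr rfl fun L _ => ?_
  rw [minor_mul_right]

/-! ### lower bounds for polynomials near the punctures -/

lemma poly_fin (P : ℂ[X]) (hP : P ≠ 0) (a : ℂ) : ∃ c ρ : ℝ, 0 < c ∧ 0 < ρ ∧
    ∀ ζ : ℂ, ‖ζ‖ < ρ → c * ‖ζ‖ ^ (P.rootMultiplicity a) ≤ ‖P.eval (a + ζ)‖ := by
  obtain ⟨P1, hP1, hdvd⟩ := exists_eq_pow_rootMultiplicity_mul_and_not_dvd P hP a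
  have hP1a : P1.eval a ≠ 0 := by
    intro h
    exact hdvd (dvd_iff_isRoot.mpr h)
  have hcont : Continuous fun ζ : ℂ => ‖P1.eval (a + ζ)‖ :=
    (P1.continuous.comp (continuous_const.add continuous_id)).norm
  have hpos : 0 < ‖P1.eval a‖ := norm_pos_iff.mpr hP1a
  have hev : ∀ᶠ ζ in 𝓝 (0 : ℂ), ‖P1.eval a‖ / 2 < ‖P1.eval (a + ζ)‖ := by
    apply hcont.continuousAt.eventually (lt_mem_nhds ?_)
    simp only [add_zero]
    linarith
  obtain ⟨ρ, hρ, hball⟩ := Metric.eventually_nhds_iff.mp hev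
  refine ⟨‖P1.eval a‖ / 2, ρ, by positivity, hρ, fun ζ hζ => ?_⟩
  have h1 := hball (y := ζ) (by simpa using hζ)
  have h2 : P.eval (a + ζ) = ζ ^ (P.rootMultiplicity a) * P1.eval (a + ζ) := by
    conv_lhs => rw [hP1]
    simp
  rw [h2, norm_mul, norm_pow, mul_comm]
  gcongr

lemma poly_inf (P : ℂ[X]) (hP : P ≠ 0) : ∃ c ρ : ℝ, 0 < c ∧ 0 < ρ ∧
    ∀ ζ : ℂ, ζ ≠ 0 → ‖ζ‖ < ρ → c ≤ ‖P.eval (-ζ⁻¹)‖ * ‖ζ‖ ^ P.natDegree := by
  have h0 : P.reverse.eval 0 ≠ 0 := by
    rw [← coeff_zero_eq_eval_zero, coeff_zero_reverse]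
    exact leadingCoeff_ne_zero.mpr hP
  have hcont : Continuous fun ζ : ℂ => ‖P.reverse.eval (-ζ)‖ :=
    (P.reverse.continuous.comp continuous_neg).norm
  have hpos : 0 < ‖P.reverse.eval 0‖ := norm_pos_iff.mpr h0
  have hev : ∀ᶠ ζ in 𝓝 (0 : ℂ), ‖P.reverse.eval 0‖ / 2 < ‖P.reverse.eval (-ζ)‖ := by
    apply hcont.continuousAt.eventually (lt_mem_nhds ?_)
    simp only [neg_zero]
    linarith
  obtain ⟨ρ, hρ, hball⟩ := Metric.eventually_nhds_iff.mp hev
  refine ⟨‖P.reverse.eval 0‖ / 2, ρ, by positivity, hρ, fun ζ hζ0 hζ => ?_⟩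
  have h1 := hball (y := ζ) (by simpa using hζ)
  have hz : -ζ⁻¹ ≠ 0 := neg_ne_zero.mpr (inv_ne_zero hζ0)
  let _ : Invertible (-ζ⁻¹) := invertibleOfNonzero hz
  have h3 := eval₂_reverse_mul_pow (RingHom.id ℂ) (-ζ⁻¹) P
  rw [eval₂_id, eval₂_id, invOf_eq_inv, inv_neg, inv_inv] at h3
  have hn : ‖ζ‖ ≠ 0 := norm_ne_zero_iff.mpr hζ0
  rw [← h3, norm_mul, norm_pow, norm_neg, norm_inv, mul_assoc, ← mul_pow, inv_mul_cancel₀ hn,
    one_pow, mul_one]
  exact h1.le

/-- growth exponent of a polynomial at a puncture -/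
noncomputable def mexp (x : Fin 3) (P : ℂ[X]) : ℝ :=
  if x = 0 then (P.rootMultiplicity 0 : ℝ) else
    if x = 1 then (P.rootMultiplicity 1 : ℝ) else -(P.natDegree : ℝ)

lemma poly_loc (x : Fin 3) (P : ℂ[X]) (hP : P ≠ 0) : ∃ c ρ : ℝ, 0 < c ∧ 0 < ρ ∧
    ∀ ζ : ℂ, ζ ≠ 0 → ‖ζ‖ < ρ → c * ‖ζ‖ ^ (mexp x P) ≤ ‖P.eval (cz x ζ)‖ := by
  fin_cases x
  · obtain ⟨c, ρ, hc, hρ, h⟩ := poly_fin P hP 0
    refine ⟨c, ρ, hc, hρ, fun ζ _ hζ => ?_⟩
    have h1 := h ζ hζ
    change c * ‖ζ‖ ^ (mexp 0 P) ≤ ‖P.eval (cz 0 ζ)‖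
    rw [cz_zero]
    rw [zero_add] at h1
    have h2 : mexp 0 P = ((P.rootMultiplicity 0 : ℕ) : ℝ) := by simp [mexp]
    rw [h2, Real.rpow_natCast]
    exact h1
  · obtain ⟨c, ρ, hc, hρ, h⟩ := poly_fin P hP 1
    refine ⟨c, ρ, hc, hρ, fun ζ _ hζ => ?_⟩
    have h1 := h ζ hζ
    change c * ‖ζ‖ ^ (mexp 1 P) ≤ ‖P.eval (cz 1 ζ)‖
    rw [cz_one]
    have h2 : mexp 1 P = ((P.rootMultiplicity 1 : ℕ) : ℝ) := by simp [mexp]
    rw [h2, Real.rpow_natCast]
    exact h1
  · obtain ⟨c, ρ, hc, hρ, h⟩ := poly_inf P hP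
    refine ⟨c, ρ, hc, hρ, fun ζ hζ0 hζ => ?_⟩
    have h1 := h ζ hζ0 hζ
    change c * ‖ζ‖ ^ (mexp 2 P) ≤ ‖P.eval (cz 2 ζ)‖
    rw [cz_two]
    have h2 : mexp 2 P = -((P.natDegree : ℕ) : ℝ) := by simp [mexp]
    have hn : 0 < ‖ζ‖ := norm_pos_iff.mpr hζ0
    rw [h2, Real.rpow_neg hn.le, Real.rpow_natCast, mul_inv_le_iff₀ (by positivity)]
    exact h1

/-! ### bounds for determinants -/

lemma det_bd {k : ℕ} (A : Matrix (Fin k) (Fin k) ℂ) (b : Fin k → ℝ) (h : ∀ i j, ‖A i j‖ ≤ b i) :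
    ‖A.det‖ ≤ (Nat.factorial k : ℝ) * ∏ i, b i := by
  rw [det_apply']
  refine (norm_sum_le _ _).trans ?_
  have h1 : ∀ σ ∈ (Finset.univ : Finset (Equiv.Perm (Fin k))),
      ‖((Equiv.Perm.sign σ : ℤ) : ℂ) * ∏ i, A (σ i) i‖ ≤ ∏ i, b i := by
    intro σ _
    rw [norm_mul, norm_prod]
    have h2 : ‖((Equiv.Perm.sign σ : ℤ) : ℂ)‖ = 1 := by
      rcases Int.units_eq_one_or (Equiv.Perm.sign σ) with h | h <;> simp [h]
    rw [h2, one_mul]
    calc ∏ i, ‖A (σ i) i‖ ≤ ∏ i, b (σ i) :=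
          Finset.prod_le_prod (fun _ _ => norm_nonneg _) fun i _ => h (σ i) i
      _ = ∏ i, b i := Equiv.prod_comp σ b
  refine (Finset.sum_le_sum h1).trans ?_
  rw [Finset.sum_const, Finset.card_univ, Fintype.card_perm, Fintype.card_fin, nsmul_eq_mul]

/-- the minors of `γ G` factor -/
lemma minor_factor {r d k : ℕ} (γ : Matrix (Fin r) (Fin r) ℂ) (W : Matrix (Fin r) (Fin k) ℂ[X])
    (J : Fin k → Fin r) (L : Fin k → Fin d) (N : Matrix (Fin k) (Fin d) ℂ) (z : ℂ) :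
    ((γ * (W.map (eval z) * N)).submatrix J L).det =
      (mn γ W J).eval z * (N.submatrix id L).det := by
  have h1 : (γ * (W.map (eval z) * N)).submatrix J L =
      ((γ * W.map (eval z)).submatrix J id) * (N.submatrix id L) := by
    rw [← Matrix.mul_assoc]
    rfl
  have h2 : ((γ.map C * W).submatrix J id).map (evalRingHom z) =
      (γ * W.map (eval z)).submatrix J id := by
    ext i j
    simp [Matrix.mul_apply, Polynomial.eval_finsetSum]
  have h3 : (mn γ W J).eval z = ((γ * W.map (eval z)).submatrix J id).det := by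
    rw [mn, ← coe_evalRingHom, RingHom.map_det, RingHom.mapMatrix_apply, h2]
    rfl
  rw [h1, det_mul, h3]

/-- the local bound -/
lemma loc {r d k : ℕ} (γ : Matrix (Fin r) (Fin r) ℂ) (W : Matrix (Fin r) (Fin k) ℂ[X])
    (J : Fin k → Fin r) (w : Fin r → ℝ) (G : Matrix (Fin r) (Fin d) ℂ)
    (M : Matrix (Fin k) (Fin d) ℂ) (z ζ : ℂ) (c C0 m : ℝ) (hζ : ζ ≠ 0) (hc : 0 < c)
    (hG : G = W.map (eval z) * M) (hb : ∀ a b, ‖(γ * G) a b‖ ≤ C0 * ‖ζ‖ ^ (w a))
    (hP : c * ‖ζ‖ ^ m ≤ ‖(mn γ W J).eval z‖) (L : Fin k → Fin d) :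
    ‖(M.submatrix id L).det‖ ≤
      ((Nat.factorial k : ℝ) * C0 ^ k / c) * ‖ζ‖ ^ (∑ a, w (J a) - m) := by
  have hn : 0 < ‖ζ‖ := norm_pos_iff.mpr hζ
  have h1 : ‖((γ * G).submatrix J L).det‖ ≤
      (Nat.factorial k : ℝ) * ∏ i, C0 * ‖ζ‖ ^ (w (J i)) :=
    det_bd _ _ fun i j => hb (J i) (L j)
  rw [hG, minor_factor, norm_mul, Finset.prod_mul_distrib, Finset.prod_const, Finset.card_univ,
    Fintype.card_fin, ← Real.rpow_sum_of_pos hn] at h1
  have h2 : c * ‖ζ‖ ^ m * ‖(M.submatrix id L).det‖ ≤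
      (Nat.factorial k : ℝ) * (C0 ^ k * ‖ζ‖ ^ (∑ a, w (J a))) := by
    refine le_trans ?_ h1
    gcongr
  have h3 : 0 < ‖ζ‖ ^ m := Real.rpow_pos_of_pos hn _
  rw [Real.rpow_sub hn]
  have h4 : (Nat.factorial k : ℝ) * C0 ^ k / c * (‖ζ‖ ^ (∑ a, w (J a)) / ‖ζ‖ ^ m) =
      (Nat.factorial k : ℝ) * (C0 ^ k * ‖ζ‖ ^ (∑ a, w (J a))) / (c * ‖ζ‖ ^ m) := by
    field_simp
  rw [h4, le_div_iff₀ (by positivity), mul_comm]
  exact h2

lemma diff_det {k d : ℕ} (N : ℂ → Matrix (Fin k) (Fin d) ℂ) (U : Set ℂ)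
    (h : ∀ a b, DifferentiableOn ℂ (fun z => N z a b) U) (L : Fin k → Fin d) :
    DifferentiableOn ℂ (fun z => ((N z).submatrix id L).det) U := by
  simp only [det_apply']
  refine DifferentiableOn.fun_sum fun σ _ => ?_
  refine DifferentiableOn.const_mul ?_ _
  refine DifferentiableOn.fun_finsetProd fun i _ => ?_
  exact h _ _

/-- real points lie in one domain only -/
lemma V_real {j j' : Fin 3} {z : ℂ} (h : z ∈ V j) (h' : z ∈ V j') (him : z.im = 0) : j = j' := by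
  rcases h with h | ⟨h, h1⟩ | ⟨h, h1, h2⟩ | ⟨h, h1⟩ <;>
    rcases h' with h' | ⟨h', h1'⟩ | ⟨h', h1', h2'⟩ | ⟨h', h1'⟩ <;>
    first
      | exact absurd him h
      | exact absurd him h'
      | (exfalso; linarith)
      | (rw [h, h'])

end Pool.Agent.MSU.ItemDDeg

namespace Pool.Agent.MSU

open ItemDDeg in
/-- stability excludes degenerate multivalued matrices -/
theorem prf_D_Deg (hF : D_Factor) (hM : M_SH2) : D_Deg := by
  intro r d γ w G Q hGU hSt hMV hRB hne hrk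
  obtain ⟨k, hk0, hkr, W, hSub, N, hN, hGN, z0, L0, hz0, hL0⟩ :=
    hF r d γ w G Q hGU hMV hRB hne hrk
  obtain ⟨J, hJ, hpos⟩ := hSt k hk0 hkr W hSub
  have hS : ∀ j : Fin 3, ∀ z : ℂ, z.im < 0 →
      ∑ L : Fin k → Fin d, ‖((N (j + 1) z).submatrix id L).det‖ ^ 2 =
      ∑ L : Fin k → Fin d, ‖((N j z).submatrix id L).det‖ ^ 2 := by
    intro j z hz
    rw [hN.minus j z hz]
    exact sum_minors _ _ (hN.unit j)
  have hz := hM (Fin k → Fin d) (fun j L z => ((N j z).submatrix id L).det)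
    (fun x => ∑ a, w x (J x a) - mexp x (mn (γ x) W (J x))) ?_ ?_ ?_ ?_ 0 L0 z0 (upper_mem 0 hz0)
  · exact hL0 hz
  · intro j L
    exact diff_det _ _ (hN.diff j) L
  · intro j j' z hzj hzj'
    rcases lt_trichotomy z.im 0 with h | h | h
    · have e0 := hS 0 z h
      have e1 := hS 1 z h
      have e2 : ∀ j : Fin 3, ∑ L : Fin k → Fin d, ‖((N j z).submatrix id L).det‖ ^ 2 =
          ∑ L : Fin k → Fin d, ‖((N 0 z).submatrix id L).det‖ ^ 2 := by
        intro j
        fin_cases j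
        · rfl
        · exact e0
        · exact e1.trans e0
      exact (e2 j).trans (e2 j').symm
    · rw [V_real hzj hzj' h]
    · rw [hN.plus j j' z h]
  · intro x
    obtain ⟨C0, ρ0, hρ0, hρ0', hb⟩ := hRB x
    obtain ⟨c, ρ1, hc, hρ1, hp⟩ := poly_loc x (mn (γ x) W (J x)) (hJ x)
    refine ⟨(Nat.factorial k : ℝ) * C0 ^ k / c, min ρ0 ρ1, lt_min hρ0 hρ1,
      (min_le_left _ _).trans hρ0', fun ζ hζ => ⟨fun hs L => ?_, fun hs L => ?_⟩⟩
    · have h0 : ‖ζ‖ < ρ0 := hζ.trans_le (min_le_left _ _)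
      have h1 : ‖ζ‖ < ρ1 := hζ.trans_le (min_le_right _ _)
      have hm : cz x ζ ∈ V x := cz_mem_a x (by linarith) hs
      exact loc (γ x) W (J x) (w x) (G x (cz x ζ)) (N x (cz x ζ)) (cz x ζ) ζ c C0 _ (Sa_ne hs) hc
        (hGN x _ hm) ((hb ζ h0).1 hs) (hp ζ (Sa_ne hs) h1) L
    · have h0 : ‖ζ‖ < ρ0 := hζ.trans_le (min_le_left _ _)
      have h1 : ‖ζ‖ < ρ1 := hζ.trans_le (min_le_right _ _)
      have hm : cz x ζ ∈ V (x + 1) := cz_mem_b x (by linarith) hs
      exact loc (γ x) W (J x) (w x) (G (x + 1) (cz x ζ)) (N (x + 1) (cz x ζ)) (cz x ζ) ζ c C0 _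
        (Sb_ne hs) hc (hGN (x + 1) _ hm) ((hb ζ h0).2 hs) (hp ζ (Sb_ne hs) h1) L
  · rw [Fin.sum_univ_three]
    rw [Fin.sum_univ_three] at hpos
    simp only [mexp, Fin.isValue, if_true, one_ne_zero, if_false]
    have h20 : (2 : Fin 3) ≠ 0 := by decide
    have h21 : (2 : Fin 3) ≠ 1 := by decide
    rw [if_neg h20, if_neg h21]
    linarith

end Pool.Agent.MSU

end

section

/-! If the determinant is nonzero at one point it is nonzero everywhere (total weight zero). -/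

open Matrix Polynomial Filter Topology
open scoped ComplexConjugate

namespace Pool.Agent.MSU

namespace ItemDDet

lemma det_diff {k : ℕ} {U : Set ℂ} (F : ℂ → Matrix (Fin k) (Fin k) ℂ)
    (h : ∀ a b, DifferentiableOn ℂ (fun z => F z a b) U) :
    DifferentiableOn ℂ (fun z => (F z).det) U := by
  have h1 : (fun z => (F z).det) = fun z => ∑ σ : Equiv.Perm (Fin k),
      ((Equiv.Perm.sign σ : ℤ) : ℂ) * ∏ i, F z (σ i) i := by
    funext z
    rw [Matrix.det_apply']
  rw [h1]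
  refine DifferentiableOn.fun_sum fun σ _ => ?_
  refine DifferentiableOn.const_mul ?_ _
  exact DifferentiableOn.fun_finsetProd fun i _ => h _ _

lemma det_bound {r : ℕ} (M : Matrix (Fin r) (Fin r) ℂ) (e : Fin r → ℝ) (C t : ℝ)
    (ht : 0 < t) (h : ∀ a b, ‖M a b‖ ≤ C * t ^ (e a)) :
    ‖M.det‖ ≤ (Fintype.card (Equiv.Perm (Fin r)) : ℝ) * (C ^ r * t ^ (∑ a, e a)) := by
  rw [Matrix.det_apply']
  refine (norm_sum_le _ _).trans ?_
  have hb : ∀ σ : Equiv.Perm (Fin r), σ ∈ Finset.univ →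
      ‖((Equiv.Perm.sign σ : ℤ) : ℂ) * ∏ i, M (σ i) i‖ ≤ C ^ r * t ^ (∑ a, e a) := by
    intro σ _
    have hs : ‖((Equiv.Perm.sign σ : ℤ) : ℂ)‖ = 1 := by
      rcases Int.units_eq_one_or (Equiv.Perm.sign σ) with h | h <;> simp [h]
    rw [norm_mul, hs, one_mul, norm_prod]
    calc ∏ i, ‖M (σ i) i‖ ≤ ∏ i, (C * t ^ (e (σ i))) :=
          Finset.prod_le_prod (fun i _ => norm_nonneg _) fun i _ => h _ _
      _ = C ^ r * ∏ i, t ^ (e (σ i)) := by
          rw [Finset.prod_mul_distrib]; simp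
      _ = C ^ r * t ^ (∑ a, e a) := by
          rw [Equiv.prod_comp σ (fun a => t ^ (e a)), ← Real.rpow_sum_of_pos ht]
  refine (Finset.sum_le_card_nsmul _ _ _ hb).trans ?_
  rw [nsmul_eq_mul, Finset.card_univ]

lemma rpow_bd (t c : ℝ) (h1 : 1 / 2 ≤ t) (h2 : t ≤ 2) : t ^ c ≤ 2 ^ |c| := by
  have ht : 0 < t := by linarith
  rcases le_total 1 t with h | h
  · exact (Real.rpow_le_rpow_of_exponent_le h (le_abs_self c)).trans
      (Real.rpow_le_rpow ht.le h2 (abs_nonneg c))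
  · have h3 : t ^ c ≤ t ^ (-|c|) :=
      Real.rpow_le_rpow_of_exponent_ge ht h (neg_abs_le c)
    refine h3.trans ?_
    rw [Real.rpow_neg ht.le, ← Real.inv_rpow ht.le]
    refine Real.rpow_le_rpow (inv_nonneg.mpr ht.le) ?_ (abs_nonneg c)
    rw [inv_le_comm₀ ht (by norm_num)]
    linarith

lemma chart_bd (α β : ℝ) (S : Fin 3 → ℝ) (h0 : S 0 = α) (h1 : S 1 = β) (h2 : S 2 = -α - β)
    (x : Fin 3) (ζ : ℂ) (hz : ζ ≠ 0) (hn : ‖ζ‖ < 1 / 2) :
    ‖ζ‖ ^ (S x) * ‖cz x ζ‖ ^ (-α) * ‖cz x ζ - 1‖ ^ (-β) ≤ 2 ^ |-α| * 2 ^ |-β| := by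
  have hp : 0 < ‖ζ‖ := norm_pos_iff.mpr hz
  have e1 : 1 / 2 ≤ ‖ζ - 1‖ ∧ ‖ζ - 1‖ ≤ 2 := by
    have h3 := norm_sub_norm_le (1 : ℂ) ζ
    have h4 := norm_sub_le ζ (1 : ℂ)
    rw [norm_one] at h3 h4
    rw [norm_sub_rev 1 ζ] at h3
    constructor <;> linarith
  have e2 : 1 / 2 ≤ ‖1 + ζ‖ ∧ ‖1 + ζ‖ ≤ 2 := by
    have h3 := norm_sub_norm_le (1 : ℂ) (-ζ)
    have h4 := norm_add_le (1 : ℂ) ζ
    rw [norm_one] at h3 h4
    rw [norm_neg, sub_neg_eq_add] at h3
    constructor <;> linarith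
  have one_a : (1 : ℝ) ≤ 2 ^ |-α| := Real.one_le_rpow (by norm_num) (abs_nonneg _)
  have one_b : (1 : ℝ) ≤ 2 ^ |-β| := Real.one_le_rpow (by norm_num) (abs_nonneg _)
  fin_cases x
  · change ‖ζ‖ ^ (S 0) * ‖cz 0 ζ‖ ^ (-α) * ‖cz 0 ζ - 1‖ ^ (-β) ≤ _
    rw [h0, cz_zero, ← Real.rpow_add hp, add_neg_cancel, Real.rpow_zero, one_mul]
    have := rpow_bd _ (-β) e1.1 e1.2
    nlinarith [Real.rpow_pos_of_pos (show (0:ℝ) < 2 by norm_num) |-β|]
  · change ‖ζ‖ ^ (S 1) * ‖cz 1 ζ‖ ^ (-α) * ‖cz 1 ζ - 1‖ ^ (-β) ≤ _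
    rw [h1, cz_one]
    have h5 : 1 + ζ - 1 = ζ := by ring
    rw [h5]
    have h6 : ‖ζ‖ ^ β * ‖1 + ζ‖ ^ (-α) * ‖ζ‖ ^ (-β) = ‖1 + ζ‖ ^ (-α) := by
      have : ‖ζ‖ ^ β * ‖ζ‖ ^ (-β) = 1 := by
        rw [← Real.rpow_add hp, add_neg_cancel, Real.rpow_zero]
      linear_combination ‖1 + ζ‖ ^ (-α) * this
    rw [h6]
    have := rpow_bd _ (-α) e2.1 e2.2
    nlinarith [Real.rpow_pos_of_pos (show (0:ℝ) < 2 by norm_num) |-α|]
  · change ‖ζ‖ ^ (S 2) * ‖cz 2 ζ‖ ^ (-α) * ‖cz 2 ζ - 1‖ ^ (-β) ≤ _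
    rw [h2, cz_two]
    have h5 : -ζ⁻¹ - 1 = -((1 + ζ) * ζ⁻¹) := by field_simp; ring
    rw [h5, norm_neg, norm_neg, norm_mul, norm_inv, Real.mul_rpow (norm_nonneg _) (by positivity),
      Real.inv_rpow hp.le, Real.inv_rpow hp.le, ← Real.rpow_neg hp.le, ← Real.rpow_neg hp.le,
      neg_neg, neg_neg]
    have h6 : ‖ζ‖ ^ (-α - β) * ‖ζ‖ ^ α * (‖1 + ζ‖ ^ (-β) * ‖ζ‖ ^ β) = ‖1 + ζ‖ ^ (-β) := by
      have : ‖ζ‖ ^ (-α - β) * ‖ζ‖ ^ α * ‖ζ‖ ^ β = 1 := by
        rw [← Real.rpow_add hp, ← Real.rpow_add hp]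
        have : -α - β + α + β = 0 := by ring
        rw [this, Real.rpow_zero]
      linear_combination ‖1 + ζ‖ ^ (-β) * this
    rw [h6]
    have := rpow_bd _ (-β) e2.1 e2.2
    nlinarith [Real.rpow_pos_of_pos (show (0:ℝ) < 2 by norm_num) |-β|]

lemma eq_of_im_zero {z : ℂ} {j j' : Fin 3} (h : z ∈ V j) (h' : z ∈ V j') (him : z.im = 0) :
    j = j' := by
  rcases h with h | ⟨rfl, h⟩ | ⟨rfl, h, h1⟩ | ⟨rfl, h⟩
  · exact absurd him h
  all_goals
    rcases h' with h' | ⟨rfl, h'⟩ | ⟨rfl, h', h1'⟩ | ⟨rfl, h'⟩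
    · exact absurd him h'
    all_goals first | rfl | (exfalso; linarith)

end ItemDDet

open ItemDDet in
theorem prf_D_Det (hSH : M_SH1) : D_Det := by
  intro r γ w G Q hγ hw hG hrow ⟨z0, hz0, hdet0⟩
  obtain ⟨α, hα⟩ : ∃ α, α = ∑ i, w 0 i := ⟨_, rfl⟩
  obtain ⟨β, hβ⟩ : ∃ β, β = ∑ i, w 1 i := ⟨_, rfl⟩
  have hw2 : ∑ i, w 2 i = -α - β := by
    rw [Fin.sum_univ_three] at hw
    rw [hα, hβ]; linarith
  obtain ⟨g, hg⟩ : ∃ g : Fin 3 → ℂ → ℂ, ∀ j z, g j z = (G j z).det *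
      (Complex.exp (((-α : ℝ) : ℂ) * Lg0 j z) * Complex.exp (((-β : ℝ) : ℂ) * Lg1 j z)) :=
    ⟨_, fun _ _ => rfl⟩
  have hnorm : ∀ j, ∀ z ∈ V j, ‖g j z‖ = ‖(G j z).det‖ * (‖z‖ ^ (-α) * ‖z - 1‖ ^ (-β)) := by
    intro j z hz
    rw [hg, norm_mul, norm_mul, norm_exp_real_mul_Lg0 hz, norm_exp_real_mul_Lg1 hz]
  have hgd : ∀ j, DifferentiableOn ℂ (g j) (V j) := by
    intro j
    have h1 : g j = fun z => (G j z).det *
      (Complex.exp (((-α : ℝ) : ℂ) * Lg0 j z) * Complex.exp (((-β : ℝ) : ℂ) * Lg1 j z)) := by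
      funext z; exact hg j z
    rw [h1]
    refine (det_diff _ (hG.diff j)).mul (DifferentiableOn.mul ?_ ?_)
    · intro z hz
      exact ((Lg0_deriv hz).differentiableAt.const_mul _).cexp.differentiableWithinAt
    · intro z hz
      exact ((Lg1_deriv hz).differentiableAt.const_mul _).cexp.differentiableWithinAt
  have hQ : ∀ j, ‖(Q j).det‖ = 1 := by
    intro j
    have h1 : ((Q j)ᴴ * Q j).det = 1 := by rw [hG.unit j, Matrix.det_one]
    rw [Matrix.det_mul, Matrix.det_conjTranspose] at h1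
    have h2 : ‖(Q j).det‖ * ‖(Q j).det‖ = 1 := by
      have := congrArg norm h1
      rwa [norm_mul, norm_star, norm_one] at this
    nlinarith [norm_nonneg (Q j).det]
  have hdeteq : ∀ (z : ℂ), z.im ≠ 0 → ∀ j, ‖(G j z).det‖ = ‖(G 0 z).det‖ := by
    intro z hz
    rcases lt_or_gt_of_ne hz with h | h
    · have h1 : ∀ j, ‖(G (j + 1) z).det‖ = ‖(G j z).det‖ := by
        intro j
        rw [hG.minus j z h, Matrix.det_mul, norm_mul, hQ, mul_one]
      intro j
      fin_cases j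
      · rfl
      · exact h1 0
      · exact (h1 1).trans (h1 0)
    · intro j
      rw [hG.plus j 0 z h]
  have hsame : ∀ j j' : Fin 3, ∀ z : ℂ, z ∈ V j → z ∈ V j' → ‖g j z‖ = ‖g j' z‖ := by
    intro j j' z hj hj'
    by_cases him : z.im = 0
    · rw [eq_of_im_zero hj hj' him]
    · rw [hnorm j z hj, hnorm j' z hj', hdeteq z him j, hdeteq z him j']
  have hbd : ∀ x : Fin 3, ∃ C ρ : ℝ, 0 < ρ ∧ ρ ≤ 1 / 2 ∧ ∀ ζ : ℂ, ‖ζ‖ < ρ →
      (ζ ∈ Sa → ‖g x (cz x ζ)‖ ≤ C) ∧ (ζ ∈ Sb → ‖g (x + 1) (cz x ζ)‖ ≤ C) := by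
    intro x
    obtain ⟨C, ρ, hρ, hρ2, hC⟩ := hrow x
    have hgx : (γ x).det ≠ 0 := (hγ x).ne_zero
    have key : ∀ (j : Fin 3) (ζ : ℂ), ζ ≠ 0 → ‖ζ‖ < ρ → cz x ζ ∈ V j →
        (∀ a b, ‖(γ x * G j (cz x ζ)) a b‖ ≤ C * ‖ζ‖ ^ (w x a)) →
        ‖g j (cz x ζ)‖ ≤ ‖(γ x).det‖⁻¹ * ((Fintype.card (Equiv.Perm (Fin r)) : ℝ) * |C| ^ r) *
          (2 ^ |-α| * 2 ^ |-β|) := by
      intro j ζ h0 hn hV hb
      have hp : 0 < ‖ζ‖ := norm_pos_iff.mpr h0
      have h1 := det_bound (γ x * G j (cz x ζ)) (w x) |C| ‖ζ‖ hp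
        (fun a b => (hb a b).trans
          (mul_le_mul_of_nonneg_right (le_abs_self C) (Real.rpow_nonneg hp.le _)))
      rw [Matrix.det_mul, norm_mul] at h1
      have h2 : ‖(G j (cz x ζ)).det‖ ≤ ‖(γ x).det‖⁻¹ *
          ((Fintype.card (Equiv.Perm (Fin r)) : ℝ) * (|C| ^ r * ‖ζ‖ ^ (∑ a, w x a))) := by
        have hpos : 0 < ‖(γ x).det‖ := norm_pos_iff.mpr hgx
        rw [← div_eq_inv_mul, le_div_iff₀ hpos]
        linarith
      have h3 := chart_bd α β (fun x => ∑ a, w x a) hα.symm hβ.symm hw2 x ζ h0 (by linarith)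
      rw [hnorm j _ hV]
      have h4 : 0 ≤ ‖cz x ζ‖ ^ (-α) * ‖cz x ζ - 1‖ ^ (-β) := by positivity
      refine (mul_le_mul_of_nonneg_right h2 h4).trans ?_
      have h5 : ‖(γ x).det‖⁻¹ *
          ((Fintype.card (Equiv.Perm (Fin r)) : ℝ) * (|C| ^ r * ‖ζ‖ ^ (∑ a, w x a))) *
          (‖cz x ζ‖ ^ (-α) * ‖cz x ζ - 1‖ ^ (-β))
          = ‖(γ x).det‖⁻¹ * ((Fintype.card (Equiv.Perm (Fin r)) : ℝ) * |C| ^ r) *
          (‖ζ‖ ^ (∑ a, w x a) * ‖cz x ζ‖ ^ (-α) * ‖cz x ζ - 1‖ ^ (-β)) := by ring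
      rw [h5]
      exact mul_le_mul_of_nonneg_left h3 (by positivity)
    refine ⟨‖(γ x).det‖⁻¹ * ((Fintype.card (Equiv.Perm (Fin r)) : ℝ) * |C| ^ r) *
          (2 ^ |-α| * 2 ^ |-β|), ρ, hρ, hρ2, fun ζ hn => ⟨fun ha => ?_, fun hb => ?_⟩⟩
    · exact key x ζ (Sa_ne ha) hn (cz_mem_a x (by linarith) ha) ((hC ζ hn).1 ha)
    · exact key (x + 1) ζ (Sb_ne hb) hn (cz_mem_b x (by linarith) hb) ((hC ζ hn).2 hb)
  have hres := hSH Unit (fun j _ => g j) (fun _ _ _ => 0) (fun j _ => hgd j)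
    (fun j _ => differentiableOn_const 0)
    (by
      intro j j' z hj hj'
      simp [hsame j j' z hj hj'])
    (by
      intro x
      obtain ⟨C, ρ, hρ, hρ2, hC⟩ := hbd x
      refine ⟨C ^ 2, ρ, hρ, hρ2, fun ζ hn => ⟨fun ha => ?_, fun hb => ?_⟩⟩
      · have h := (hC ζ hn).1 ha
        simp only [map_zero, add_zero, Finset.univ_unique, Finset.sum_singleton]
        exact pow_le_pow_left₀ (norm_nonneg _) h 2
      · have h := (hC ζ hn).2 hb
        simp only [map_zero, add_zero, Finset.univ_unique, Finset.sum_singleton]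
        exact pow_le_pow_left₀ (norm_nonneg _) h 2)
  intro j z hz
  have hc : g j z = g j z0 :=
    (V_open j).is_const_of_deriv_eq_zero (V_preconnected j) (hgd j)
      (fun s hs => (hres j () s hs).1) hz (upper_mem j hz0)
  have h0 : g j z0 ≠ 0 := by
    rw [hg, hG.plus j 0 z0 hz0]
    exact mul_ne_zero hdet0 (mul_ne_zero (Complex.exp_ne_zero _) (Complex.exp_ne_zero _))
  rw [← hc, hg] at h0
  exact (left_ne_zero_of_mul h0).isUnit

end Pool.Agent.MSU

end

section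

/-! A degenerate multivalued matrix factors through an algebraic subbundle. -/

open Matrix Polynomial Complex

namespace Pool.Agent.MSU

namespace ItemDFactor

open Pool.Agent.Work.MP_5e5ff1_ag.T

/-- if a product of holomorphic functions on `V j` vanishes and the first factor is not zero at
one point then the second factor vanishes -/
lemma zero_of_mul {j : Fin 3} {f g : ℂ → ℂ} (hf : DifferentiableOn ℂ f (V j))
    (hg : DifferentiableOn ℂ g (V j)) (h : ∀ z ∈ V j, f z * g z = 0) {z1 : ℂ} (hz1 : z1 ∈ V j)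
    (hne : f z1 ≠ 0) : ∀ z ∈ V j, g z = 0 := by
  have hga : AnalyticOnNhd ℂ g (V j) := hg.analyticOnNhd (V_open j)
  have hev : g =ᶠ[nhds z1] 0 := by
    have hfc : ContinuousAt f z1 := (hf.differentiableAt ((V_open j).mem_nhds hz1)).continuousAt
    have h1 : ∀ᶠ z in nhds z1, f z ≠ 0 := hfc.eventually_ne hne
    filter_upwards [h1, (V_open j).mem_nhds hz1] with z h2 h3
    have := h z h3
    rcases mul_eq_zero.1 this with h4 | h4
    · exact absurd h4 h2
    · exact h4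
  intro z hz
  exact hga.eqOn_zero_of_preconnected_of_eventuallyEq_zero (V_preconnected j) hz1 hev hz

lemma exists_ne (D : ℂ[X]) (hD : D ≠ 0) : ∃ z : ℂ, 0 < z.im ∧ D.eval z ≠ 0 := by
  by_contra hcon
  push Not at hcon
  apply hD
  apply Polynomial.eq_zero_of_infinite_isRoot
  refine Set.infinite_of_injective_forall_mem (f := fun n : ℕ => ((n : ℂ) + I)) ?_ ?_
  · intro a b hab
    have : (a : ℂ) = b := by simpa using hab
    exact_mod_cast this
  · intro n
    exact hcon _ (by simp)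

lemma diff_poly (D : ℂ[X]) (s : Set ℂ) : DifferentiableOn ℂ (fun z => D.eval z) s :=
  D.differentiable.differentiableOn

lemma det_diff {j : Fin 3} {r d k : ℕ} {M : ℂ → Matrix (Fin r) (Fin d) ℂ}
    (h : ∀ a b, DifferentiableOn ℂ (fun z => M z a b) (V j)) (J : Fin k → Fin r)
    (L : Fin k → Fin d) : DifferentiableOn ℂ (fun z => ((M z).submatrix J L).det) (V j) := by
  simp only [Matrix.det_apply, Matrix.submatrix_apply]
  refine DifferentiableOn.fun_sum fun σ _ => ?_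
  refine DifferentiableOn.const_smul ?_ _
  refine DifferentiableOn.fun_finsetProd fun i _ => ?_
  exact h _ _

lemma one_sub_mul {k d : ℕ} (N : Matrix (Fin k) (Fin d) ℂ) (J : Fin k → Fin k)
    (L : Fin k → Fin d) :
    N.submatrix J L = (1 : Matrix (Fin k) (Fin k) ℂ).submatrix J id * N.submatrix id L := by
  ext a b
  simp [Matrix.mul_apply, Matrix.one_apply]

end ItemDFactor

open ItemDFactor Pool.Agent.Work.MP_5e5ff1_ag.T in
theorem prf_D_Factor (hRank : D_Rank) (hRel : D_Rel) (hAllR : D_RankAll) (hRat : D_RatMin) :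
    D_Factor := by
  classical
  intro r d γ w G Q hγ hMV hRB h0 hr
  -- the maximal rank
  set S : Set ℕ := {n | ∃ z : ℂ, 0 < z.im ∧ (G 0 z).rank = n} with hS
  have hSne : S.Nonempty := by
    obtain ⟨z, hz, _⟩ := h0
    exact ⟨_, z, hz, rfl⟩
  have hSb : BddAbove S := ⟨r, by rintro n ⟨z, hz, rfl⟩; exact (hr z hz).le⟩
  obtain ⟨k, hk⟩ : ∃ k, k = sSup S := ⟨_, rfl⟩
  have hkS : k ∈ S := hk ▸ Nat.sSup_mem hSne hSb
  have hkmax : ∀ z : ℂ, 0 < z.im → (G 0 z).rank ≤ k := fun z hz => hk ▸ le_csSup hSb ⟨z, hz, rfl⟩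
  obtain ⟨z1, hz1, hrk1⟩ := hkS
  have hkr : k < r := hrk1 ▸ hr z1 hz1
  have hk0 : 0 < k := by
    obtain ⟨z, hz, hne⟩ := h0
    have : ∃ i l, G 0 z i l ≠ 0 := by
      by_contra hcon
      push Not at hcon
      exact hne (by ext i l; exact hcon i l)
    obtain ⟨i, l, hil⟩ := this
    have h1 : 1 ≤ (G 0 z).rank := by
      refine (hRank r d 1 (G 0 z)).2 ⟨fun _ => i, fun _ => l, ?_⟩
      rw [Matrix.det_fin_one]
      exact hil
    exact lt_of_lt_of_le h1 (hkmax z hz)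
  have hAll : ∀ j, ∀ z ∈ V j, (G j z).rank ≤ k := hAllR r d k G Q hMV hkmax
  obtain ⟨J0, L0, hJL⟩ := (hRank r d k (G 0 z1)).1 hrk1
  -- rational ratios
  have hrat := fun J : Fin k → Fin r =>
    hRat r d k γ w G Q hγ hMV hRB hAll J0 ⟨z1, L0, hz1, hJL⟩ J
  choose DJ NJ hDJ hDN using hrat
  set D : ℂ[X] := ∏ J, DJ J with hD
  have hD0 : D ≠ 0 := Finset.prod_ne_zero_iff.2 fun J _ => hDJ J
  have hJ0inj : Function.Injective J0 := by
    intro a b hab
    by_contra hne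
    apply hJL
    refine Matrix.det_zero_of_row_eq hne ?_
    ext c
    simp [hab]
  obtain ⟨N2, hN2, hN2a, hN2b⟩ : ∃ N2 : (Fin k → Fin r) → ℂ[X],
      (∀ J, ∀ j, ∀ z ∈ V j, ∀ L : Fin k → Fin d,
        D.eval z * ((G j z).submatrix J L).det = (N2 J).eval z * ((G j z).submatrix J0 L).det) ∧
      N2 J0 = D ∧ ∀ J, ¬ Function.Injective J → N2 J = 0 := by
    refine ⟨fun J => if J = J0 then D else if Function.Injective J then
      NJ J * ∏ K ∈ Finset.univ.erase J, DJ K else 0, ?_, by simp, ?_⟩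
    · intro J j z hz L
      by_cases h1 : J = J0
      · subst h1
        simp
      · by_cases h2 : Function.Injective J
        · simp only [h1, h2, if_true, if_false]
          have h3 := hDN J j z hz L
          have h4 : D = DJ J * ∏ K ∈ Finset.univ.erase J, DJ K := by
            rw [hD, Finset.mul_prod_erase _ _ (Finset.mem_univ J)]
          rw [h4, eval_mul, eval_mul]
          linear_combination (eval z (∏ K ∈ Finset.univ.erase J, DJ K)) * h3
        · simp only [h1, h2, if_false, eval_zero, zero_mul]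
          rw [Function.Injective] at h2
          push Not at h2
          obtain ⟨a, b, hab, hne⟩ := h2
          rw [Matrix.det_zero_of_row_eq hne, mul_zero]
          ext c
          simp [hab]
    · intro J hJ
      have h1 : J ≠ J0 := by
        rintro rfl
        exact hJ hJ0inj
      simp [h1, hJ]
  set F : Matrix (Fin r) (Fin k) ℂ[X] := Matrix.of fun i a => N2 (Function.update J0 a i) with hF
  have hz1V : ∀ j, z1 ∈ V j := fun j => upper_mem j hz1
  have hG1 : ∀ j, ((G j z1).submatrix J0 L0).det ≠ 0 := by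
    intro j
    rw [hMV.plus j 0 z1 hz1]
    exact hJL
  have hGd := hMV.diff
  have hFG : ∀ j, ∀ z ∈ V j, ∀ i l,
      D.eval z * G j z i l = ∑ a, (F i a).eval z * G j z (J0 a) l := by
    intro j z hz i l
    have key : ∀ z ∈ V j, D.eval z * G j z i l - ∑ a, (F i a).eval z * G j z (J0 a) l = 0 := by
      refine zero_of_mul (f := fun z => ((G j z).submatrix J0 L0).det)
        (g := fun z => D.eval z * G j z i l - ∑ a, (F i a).eval z * G j z (J0 a) l)
        (det_diff (hGd j) J0 L0) ?_ ?_ (hz1V j) (hG1 j)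
      · refine ((diff_poly D _).mul (hGd j i l)).sub ?_
        refine DifferentiableOn.fun_sum fun a _ => ?_
        exact (diff_poly _ _).mul (hGd j _ _)
      · intro z hz
        have h1 := (hRel r d k (G j z) (hAll j z hz)).2 J0 L0 i l
        have h2 : D.eval z * (((G j z).submatrix J0 L0).det * G j z i l) =
            ((G j z).submatrix J0 L0).det * ∑ a, (F i a).eval z * G j z (J0 a) l := by
          rw [h1, Finset.mul_sum, Finset.mul_sum]
          refine Finset.sum_congr rfl fun a _ => ?_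
          have h3 := hN2 (Function.update J0 a i) j z hz L0
          have h4 : (F i a).eval z = (N2 (Function.update J0 a i)).eval z := rfl
          rw [h4]
          linear_combination (G j z (J0 a) l) * h3
        linear_combination h2
    exact sub_eq_zero.1 (key z hz)
  have hFsub : F.submatrix J0 id = D • (1 : Matrix (Fin k) (Fin k) ℂ[X]) := by
    ext1 b a
    rw [Matrix.submatrix_apply, Matrix.smul_apply, Matrix.one_apply]
    change N2 (Function.update J0 (id a) (J0 b)) = _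
    by_cases hab : b = a
    · subst hab
      simp [hN2a]
    · rw [if_neg hab, smul_zero]
      apply hN2b
      intro hinj
      apply hab
      apply hinj
      simp [Function.update_of_ne hab]
  have hFfull : FullRank F := by
    refine ⟨J0, ?_⟩
    rw [hFsub, Matrix.det_smul, Matrix.det_one, mul_one]
    exact pow_ne_zero _ hD0
  obtain ⟨W, Tm, hW, hFW, hTd⟩ := saturate hFfull
  obtain ⟨V0, hV0⟩ := hW
  set N : Fin 3 → ℂ → Matrix (Fin k) (Fin d) ℂ := fun j z => V0.map (eval z) * G j z with hN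
  have hfac : ∀ j, ∀ z ∈ V j, G j z = W.map (eval z) * N j z := by
    intro j z hz
    obtain ⟨z2, hz2, hDz2⟩ := exists_ne D hD0
    ext i l
    have key : ∀ z ∈ V j, (W.map (eval z) * N j z) i l - G j z i l = 0 := by
      refine zero_of_mul (f := fun z => D.eval z)
        (g := fun z => (W.map (eval z) * N j z) i l - G j z i l)
        (diff_poly D _) ?_ ?_ (upper_mem j hz2) hDz2
      · refine DifferentiableOn.sub ?_ (hGd j i l)
        simp only [Matrix.mul_apply, Matrix.map_apply, hN]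
        refine DifferentiableOn.fun_sum fun a _ => (diff_poly _ _).mul ?_
        refine DifferentiableOn.fun_sum fun b _ => (diff_poly _ _).mul (hGd j _ _)
      · intro z hz
        have h1 : D.eval z • G j z = F.map (eval z) * (G j z).submatrix J0 id := by
          ext i l
          rw [Matrix.smul_apply, smul_eq_mul, hFG j z hz i l, Matrix.mul_apply]
          rfl
        have h2 : F.map (eval z) = W.map (eval z) * Tm.map (eval z) := by
          rw [hFW, map_eval_mul]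
        have h3 : V0.map (eval z) * W.map (eval z) = 1 := by
          rw [← map_eval_mul, hV0, map_eval_one]
        have h4 : W.map (eval z) * (V0.map (eval z) * (D.eval z • G j z)) = D.eval z • G j z := by
          rw [h1, h2, ← Matrix.mul_assoc (V0.map (eval z)), ← Matrix.mul_assoc (V0.map (eval z)),
            h3, Matrix.one_mul, ← Matrix.mul_assoc]
        have h5 : D.eval z • (W.map (eval z) * N j z) = D.eval z • G j z := by
          rw [← h4, hN]
          simp only [Matrix.mul_smul]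
        have h6 := congrFun (congrFun h5 i) l
        rw [Matrix.smul_apply, Matrix.smul_apply, smul_eq_mul, smul_eq_mul] at h6
        linear_combination h6
    exact (sub_eq_zero.1 (key z hz)).symm
  refine ⟨k, hk0, hkr, W, ⟨V0, hV0⟩, N, ?_, hfac, ?_⟩
  · refine ⟨?_, ?_, ?_, hMV.unit⟩
    · intro j a b
      simp only [hN, Matrix.mul_apply, Matrix.map_apply]
      refine DifferentiableOn.fun_sum fun c _ => (diff_poly _ _).mul (hGd j _ _)
    · intro j j' z hz
      simp only [hN]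
      rw [hMV.plus j j' z hz]
    · intro j z hz
      simp only [hN]
      rw [hMV.minus j z hz, Matrix.mul_assoc]
  · have h1 : k ≤ (N 0 z1).rank := by
      have h3 : (G 0 z1).rank ≤ (N 0 z1).rank := by
        conv_lhs => rw [hfac 0 z1 (hz1V 0)]
        exact Matrix.rank_mul_le_right _ _
      exact hrk1 ▸ h3
    have h2 : (N 0 z1).rank = k := le_antisymm (Matrix.rank_le_height _) h1
    obtain ⟨J, L, hdet⟩ := (hRank k d k (N 0 z1)).1 h2
    refine ⟨z1, L, hz1, ?_⟩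
    intro hzero
    apply hdet
    rw [one_sub_mul, Matrix.det_mul, hzero, mul_zero]

end Pool.Agent.MSU

end

section

/-! Item D_LM: proportional multivalued vectors of moderate growth on a punctured disc. -/

open Matrix Polynomial Complex Filter Topology

namespace Pool.Agent.MSU

namespace ItemDLM

/-- upper half disc -/
def up (ρ : ℝ) : Set ℂ := {z | ‖z‖ < ρ ∧ 0 < z.im}

/-- lower half disc -/
def lo (ρ : ℝ) : Set ℂ := {z | ‖z‖ < ρ ∧ z.im < 0}

theorem up_open (ρ : ℝ) : IsOpen (up ρ) :=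
  (isOpen_lt continuous_norm continuous_const).inter
    (isOpen_lt continuous_const Complex.continuous_im)

theorem lo_open (ρ : ℝ) : IsOpen (lo ρ) :=
  (isOpen_lt continuous_norm continuous_const).inter
    (isOpen_lt Complex.continuous_im continuous_const)

theorem up_nonempty {ρ : ℝ} (h : 0 < ρ) : (up ρ).Nonempty := by
  refine ⟨((ρ / 2 : ℝ) : ℂ) * I, ?_, ?_⟩
  · rw [norm_mul, Complex.norm_I, mul_one, Complex.norm_real, Real.norm_eq_abs,
      abs_of_pos (by linarith)]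
    linarith
  · simp [h]

theorem lo_nonempty {ρ : ℝ} (h : 0 < ρ) : (lo ρ).Nonempty := by
  refine ⟨-(((ρ / 2 : ℝ) : ℂ) * I), ?_, ?_⟩
  · rw [norm_neg, norm_mul, Complex.norm_I, mul_one, Complex.norm_real, Real.norm_eq_abs,
      abs_of_pos (by linarith)]
    linarith
  · simp [h]

theorem up_a (ρ : ℝ) : up ρ ⊆ Sa ∩ Metric.ball 0 ρ := fun z hz =>
  ⟨Or.inl hz.2.ne', by simpa using hz.1⟩

theorem up_b (ρ : ℝ) : up ρ ⊆ Sb ∩ Metric.ball 0 ρ := fun z hz =>
  ⟨Or.inl hz.2.ne', by simpa using hz.1⟩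

theorem lo_a (ρ : ℝ) : lo ρ ⊆ Sa ∩ Metric.ball 0 ρ := fun z hz =>
  ⟨Or.inl hz.2.ne, by simpa using hz.1⟩

theorem lo_b (ρ : ℝ) : lo ρ ⊆ Sb ∩ Metric.ball 0 ρ := fun z hz =>
  ⟨Or.inl hz.2.ne, by simpa using hz.1⟩

theorem open_a (ρ : ℝ) : IsOpen (Sa ∩ Metric.ball 0 ρ) := Sa_open.inter Metric.isOpen_ball

theorem open_b (ρ : ℝ) : IsOpen (Sb ∩ Metric.ball 0 ρ) := Sb_open.inter Metric.isOpen_ball

theorem pre_a {ρ : ℝ} (hρ : 0 < ρ) : IsPreconnected (Sa ∩ Metric.ball 0 ρ) := by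
  have hm : ((-(ρ / 2) : ℝ) : ℂ) ∈ Sa ∩ Metric.ball 0 ρ := by
    refine ⟨Or.inr ?_, ?_⟩
    · rw [Complex.ofReal_re]
      linarith
    · rw [mem_ball_zero_iff, Complex.norm_real, Real.norm_eq_abs, abs_neg, abs_of_pos (by linarith)]
      linarith
  have h1 : StarConvex ℝ ((-(ρ / 2) : ℝ) : ℂ) Sa := by
    rw [starConvex_iff_forall_pos hm.1]
    intro z hz a b ha hb hab
    rcases hz with h | h
    · left
      have : (a • ((-(ρ / 2) : ℝ) : ℂ) + b • z).im = b * z.im := by simp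
      rw [this]
      exact mul_ne_zero hb.ne' h
    · right
      have : (a • ((-(ρ / 2) : ℝ) : ℂ) + b • z).re = a * (-(ρ / 2)) + b * z.re := by simp
      rw [this]
      nlinarith
  have h2 : StarConvex ℝ ((-(ρ / 2) : ℝ) : ℂ) (Metric.ball (0 : ℂ) ρ) :=
    (convex_ball 0 ρ).starConvex hm.2
  exact ((h1.inter h2).isPathConnected hm).isConnected.isPreconnected

theorem pre_b {ρ : ℝ} (hρ : 0 < ρ) : IsPreconnected (Sb ∩ Metric.ball 0 ρ) := by
  have hm : ((ρ / 2 : ℝ) : ℂ) ∈ Sb ∩ Metric.ball 0 ρ := by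
    refine ⟨Or.inr ?_, ?_⟩
    · rw [Complex.ofReal_re]
      linarith
    · rw [mem_ball_zero_iff, Complex.norm_real, Real.norm_eq_abs, abs_of_pos (by linarith)]
      linarith
  have h1 : StarConvex ℝ ((ρ / 2 : ℝ) : ℂ) Sb := by
    rw [starConvex_iff_forall_pos hm.1]
    intro z hz a b ha hb hab
    rcases hz with h | h
    · left
      have : (a • ((ρ / 2 : ℝ) : ℂ) + b • z).im = b * z.im := by simp
      rw [this]
      exact mul_ne_zero hb.ne' h
    · right
      have : (a • ((ρ / 2 : ℝ) : ℂ) + b • z).re = a * (ρ / 2) + b * z.re := by simp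
      rw [this]
      have := mul_pos hb h
      have := mul_pos ha hρ
      nlinarith
  have h2 : StarConvex ℝ ((ρ / 2 : ℝ) : ℂ) (Metric.ball (0 : ℂ) ρ) :=
    (convex_ball 0 ρ).starConvex hm.2
  exact ((h1.inter h2).isPathConnected hm).isConnected.isPreconnected

/-- identity theorem -/
theorem ident {O W : Set ℂ} (hO : IsOpen O) (hc : IsPreconnected O) {f : ℂ → ℂ}
    (hf : DifferentiableOn ℂ f O) (hW : IsOpen W) (hWO : W ⊆ O) (hne : W.Nonempty)
    (h0 : ∀ z ∈ W, f z = 0) : ∀ z ∈ O, f z = 0 := by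
  obtain ⟨z0, hz0⟩ := hne
  have hA : AnalyticOnNhd ℂ f O := hf.analyticOnNhd hO
  have hev : f =ᶠ[𝓝 z0] 0 := by
    filter_upwards [hW.mem_nhds hz0] with z hz
    exact h0 z hz
  intro z hz
  exact hA.eqOn_zero_of_preconnected_of_eventuallyEq_zero hc (hWO hz0) hev hz

/-- a product of holomorphic functions which vanishes -/
theorem prod_zero {O : Set ℂ} (hO : IsOpen O) (hc : IsPreconnected O) {f g : ℂ → ℂ}
    (hf : DifferentiableOn ℂ f O) (hg : DifferentiableOn ℂ g O) (h : ∀ z ∈ O, f z * g z = 0)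
    {z0 : ℂ} (hz0 : z0 ∈ O) (hne : f z0 ≠ 0) : ∀ z ∈ O, g z = 0 := by
  have hW : IsOpen (O ∩ f ⁻¹' {0}ᶜ) :=
    hf.continuousOn.isOpen_inter_preimage hO isOpen_compl_singleton
  refine ident hO hc hg hW Set.inter_subset_left ⟨z0, hz0, hne⟩ fun z hz => ?_
  exact (mul_eq_zero.mp (h z hz.1)).resolve_left hz.2

variable {ι : Type} [Fintype ι] [DecidableEq ι]

theorem dot_diff {O : Set ℂ} {f : ℂ → ι → ℂ} (hf : ∀ i, DifferentiableOn ℂ (fun z => f z i) O)
    (e : ι → ℂ) : DifferentiableOn ℂ (fun z => f z ⬝ᵥ e) O := by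
  have : (fun z => f z ⬝ᵥ e) = fun z => ∑ i, f z i * e i := rfl
  rw [this]
  exact DifferentiableOn.fun_sum fun i _ => (hf i).mul_const (e i)

/-- the annihilator -/
def Ann (O : Set ℂ) (f : ℂ → ι → ℂ) : Submodule ℂ (ι → ℂ) where
  carrier := {e | ∀ z ∈ O, f z ⬝ᵥ e = 0}
  add_mem' := by
    intro a b ha hb z hz
    rw [dotProduct_add, ha z hz, hb z hz, add_zero]
  zero_mem' := by
    intro z _
    exact dotProduct_zero _
  smul_mem' := by
    intro c a ha z hz
    rw [dotProduct_smul, ha z hz, smul_zero]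

theorem mem_Ann {O : Set ℂ} {f : ℂ → ι → ℂ} {e : ι → ℂ} :
    e ∈ Ann O f ↔ ∀ z ∈ O, f z ⬝ᵥ e = 0 := Iff.rfl

/-- eigenvector modulo an invariant proper subspace -/
theorem exists_eigen (A : Submodule ℂ (ι → ℂ)) (hA : A ≠ ⊤) (Θ : Matrix ι ι ℂ)
    (h : ∀ e ∈ A, Θ *ᵥ e ∈ A) : ∃ (e : ι → ℂ) (μ : ℂ), e ∉ A ∧ Θ *ᵥ e - μ • e ∈ A := by
  have hle : A ≤ A.comap (Matrix.mulVecLin Θ) := by
    intro e he
    rw [Submodule.mem_comap, Matrix.mulVecLin_apply]
    exact h e he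
  have : Nontrivial ((ι → ℂ) ⧸ A) := Submodule.Quotient.nontrivial_iff.mpr hA
  obtain ⟨μ, hμ⟩ := Module.End.exists_eigenvalue (A.mapQ A (Matrix.mulVecLin Θ) hle)
  obtain ⟨v, hv⟩ := hμ.exists_hasEigenvector
  obtain ⟨e, rfl⟩ := Submodule.mkQ_surjective A v
  refine ⟨e, μ, ?_, ?_⟩
  · intro he
    apply hv.2
    rw [Submodule.mkQ_apply, Submodule.Quotient.mk_eq_zero]
    exact he
  · have h1 := hv.apply_eq_smul
    rw [Submodule.mkQ_apply, Submodule.mapQ_apply, Matrix.mulVecLin_apply,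
      ← Submodule.Quotient.mk_smul, Submodule.Quotient.eq] at h1
    exact h1

/-- branch of the logarithm on `Sa` -/
noncomputable def La (z : ℂ) : ℂ := Complex.log (-z) + Real.pi * I

open Classical in
/-- the glued function -/
noncomputable def gl (s : ℂ) (ua ub : ℂ → ℂ) (z : ℂ) : ℂ :=
  if z ∈ Sa then ua z * Complex.exp (s * La z) else ub z * Complex.exp (s * Complex.log z)

theorem gl_a (s : ℂ) (ua ub : ℂ → ℂ) {z : ℂ} (h : z ∈ Sa) :
    gl s ua ub z = ua z * Complex.exp (s * La z) := by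
  unfold gl
  rw [if_pos h]

theorem im_ne {z : ℂ} (ha : z ∈ Sa) (hb : z ∈ Sb) : z.im ≠ 0 := by
  rcases ha with h | h
  · exact h
  · rcases hb with h' | h'
    · exact h'
    · exact absurd h' (by linarith)

theorem gl_b {ρ : ℝ} {s : ℂ} {ua ub : ℂ → ℂ} (hup : ∀ z ∈ up ρ, ua z = ub z)
    (hlo : ∀ z ∈ lo ρ, ub z = Complex.exp (2 * Real.pi * I * s) * ua z) {z : ℂ}
    (hb : z ∈ Sb) (hz : ‖z‖ < ρ) :
    gl s ua ub z = ub z * Complex.exp (s * Complex.log z) := by
  unfold gl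
  split_ifs with ha
  · have him := im_ne ha hb
    rcases lt_or_gt_of_ne him with h | h
    · rw [hlo z ⟨hz, h⟩, La, log_neg_lower h, mul_add, Complex.exp_add]
      have : s * (2 * Real.pi * I) = 2 * Real.pi * I * s := by ring
      rw [this]
      ring
    · rw [hup z ⟨hz, h⟩, La, log_neg_upper h]
  · rfl

theorem Sa_or_Sb {z : ℂ} (h : z ≠ 0) : z ∈ Sa ∨ z ∈ Sb := by
  by_cases him : z.im = 0
  · rcases lt_trichotomy z.re 0 with h1 | h1 | h1
    · exact Or.inl (Or.inr h1)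
    · exact absurd (Complex.ext h1 him) h
    · exact Or.inr (Or.inr h1)
  · exact Or.inl (Or.inl him)

theorem norm_exp_bound {s L z : ℂ} {N : ℕ} (hN : |s.re| ≤ N) (hz0 : z ≠ 0) (hz1 : ‖z‖ ≤ 1)
    (hre : L.re = Real.log ‖z‖) (him : |L.im| ≤ 2 * Real.pi) :
    ‖Complex.exp (s * L)‖ * ‖z‖ ^ N ≤ Real.exp (2 * Real.pi * |s.im|) := by
  have hpos : 0 < ‖z‖ := norm_pos_iff.mpr hz0
  have hlog : Real.log ‖z‖ ≤ 0 := Real.log_nonpos hpos.le hz1
  rw [Complex.norm_exp, Complex.mul_re, hre]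
  have h1 : ‖z‖ ^ N = Real.exp (N * Real.log ‖z‖) := by
    rw [Real.exp_nat_mul, Real.exp_log hpos]
  rw [h1, ← Real.exp_add]
  apply Real.exp_le_exp.mpr
  have h2 : s.re * Real.log ‖z‖ + N * Real.log ‖z‖ ≤ 0 := by
    have : 0 ≤ s.re + N := by
      have := neg_abs_le s.re
      linarith
    nlinarith
  have h3 : -(s.im * L.im) ≤ |s.im| * (2 * Real.pi) := by
    calc -(s.im * L.im) ≤ |s.im * L.im| := neg_le_abs _
      _ = |s.im| * |L.im| := abs_mul _ _
      _ ≤ |s.im| * (2 * Real.pi) := mul_le_mul_of_nonneg_left him (abs_nonneg _)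
  nlinarith

theorem La_re {z : ℂ} : (La z).re = Real.log ‖z‖ := by
  unfold La
  rw [Complex.add_re, Complex.log_re, norm_neg]
  simp

theorem La_im {z : ℂ} : |(La z).im| ≤ 2 * Real.pi := by
  unfold La
  have h1 : (Complex.log (-z) + Real.pi * I).im = Complex.arg (-z) + Real.pi := by
    rw [Complex.add_im, Complex.log_im]
    simp
  rw [h1]
  have h2 := Complex.arg_le_pi (-z)
  have h3 := Complex.neg_pi_lt_arg (-z)
  rw [abs_of_pos (by linarith)]
  linarith

theorem log_im' {z : ℂ} : |(Complex.log z).im| ≤ 2 * Real.pi := by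
  rw [Complex.log_im]
  have := Complex.abs_arg_le_pi z
  have := Real.pi_pos
  linarith

theorem La_diff {z : ℂ} (h : z ∈ Sa) : DifferentiableAt ℂ La z := by
  have hs : -z ∈ slitPlane := by
    rcases h with h | h
    · exact Or.inr (by simpa using h)
    · exact Or.inl (by simpa using h)
  exact ((differentiableAt_id.neg).clog hs).add_const _

theorem log_diff {z : ℂ} (h : z ∈ Sb) : DifferentiableAt ℂ Complex.log z := by
  have hs : z ∈ slitPlane := by
    rcases h with h | h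
    · exact Or.inr h
    · exact Or.inl h
  exact Complex.differentiableAt_log hs

theorem glue {ρ : ℝ} (hρ : 0 < ρ) (hρ1 : ρ ≤ 1) {ua ub : ℂ → ℂ}
    (ha : DifferentiableOn ℂ ua (Sa ∩ Metric.ball 0 ρ))
    (hb : DifferentiableOn ℂ ub (Sb ∩ Metric.ball 0 ρ)) {s : ℂ}
    (hup : ∀ z ∈ up ρ, ua z = ub z)
    (hlo : ∀ z ∈ lo ρ, ub z = Complex.exp (2 * Real.pi * I * s) * ua z) {n N : ℕ}
    (hN : |s.re| ≤ N) {C : ℝ} (hCa : ∀ z ∈ Sa, ‖z‖ < ρ → ‖ua z‖ * ‖z‖ ^ n ≤ C)
    (hCb : ∀ z ∈ Sb, ‖z‖ < ρ → ‖ub z‖ * ‖z‖ ^ n ≤ C) :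
    DifferentiableOn ℂ (fun z => z ^ (n + N + 1) * gl s ua ub z) (Metric.ball 0 ρ) := by
  have hC0 : 0 ≤ C := by
    obtain ⟨z, hz⟩ := up_nonempty hρ
    exact (mul_nonneg (norm_nonneg _) (pow_nonneg (norm_nonneg _) _)).trans
      (hCa z (up_a ρ hz).1 hz.1)
  rw [← Complex.differentiableOn_compl_singleton_and_continuousAt_iff
    (Metric.isOpen_ball.mem_nhds (Metric.mem_ball_self hρ))]
  constructor
  · intro z hz
    have hz0 : z ≠ 0 := hz.2
    have hzn : ‖z‖ < ρ := by simpa using hz.1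
    apply DifferentiableAt.differentiableWithinAt
    refine (differentiableAt_id.pow _).mul ?_
    rcases Sa_or_Sb hz0 with h | h
    · have hmem : z ∈ Sa ∩ Metric.ball 0 ρ := ⟨h, hz.1⟩
      have h1 : DifferentiableAt ℂ (fun z => ua z * Complex.exp (s * La z)) z :=
        (ha.differentiableAt ((open_a ρ).mem_nhds hmem)).mul
          (((La_diff h).const_mul s).cexp)
      refine h1.congr_of_eventuallyEq ?_
      filter_upwards [(open_a ρ).mem_nhds hmem] with w hw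
      exact gl_a s ua ub hw.1
    · have hmem : z ∈ Sb ∩ Metric.ball 0 ρ := ⟨h, hz.1⟩
      have h1 : DifferentiableAt ℂ (fun z => ub z * Complex.exp (s * Complex.log z)) z :=
        (hb.differentiableAt ((open_b ρ).mem_nhds hmem)).mul
          (((log_diff h).const_mul s).cexp)
      refine h1.congr_of_eventuallyEq ?_
      filter_upwards [(open_b ρ).mem_nhds hmem] with w hw
      exact gl_b hup hlo hw.1 (by simpa using hw.2)
  · set E : ℝ := Real.exp (2 * Real.pi * |s.im|) with hE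
    have hE0 : 0 ≤ E := (Real.exp_pos _).le
    have hbd : ∀ z : ℂ, ‖z‖ < ρ → ‖z ^ (n + N + 1) * gl s ua ub z‖ ≤ C * E * ‖z‖ := by
      intro z hz
      by_cases hz0 : z = 0
      · subst hz0
        simp
      have key : ∀ (v L : ℂ), ‖v‖ * ‖z‖ ^ n ≤ C → ‖Complex.exp (s * L)‖ * ‖z‖ ^ N ≤ E →
          ‖z ^ (n + N + 1) * (v * Complex.exp (s * L))‖ ≤ C * E * ‖z‖ := by
        intro v L h1 h2
        rw [norm_mul, norm_mul, norm_pow]
        calc ‖z‖ ^ (n + N + 1) * (‖v‖ * ‖Complex.exp (s * L)‖)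
            = (‖v‖ * ‖z‖ ^ n) * (‖Complex.exp (s * L)‖ * ‖z‖ ^ N) * ‖z‖ := by ring
          _ ≤ C * E * ‖z‖ := by
            apply mul_le_mul_of_nonneg_right _ (norm_nonneg _)
            exact mul_le_mul h1 h2 (by positivity) hC0
      rcases Sa_or_Sb hz0 with h | h
      · rw [gl_a s ua ub h]
        exact key _ _ (hCa z h hz) (norm_exp_bound hN hz0 (hz.le.trans hρ1) La_re La_im)
      · rw [gl_b hup hlo h hz]
        exact key _ _ (hCb z h hz) (norm_exp_bound hN hz0 (hz.le.trans hρ1)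
          (Complex.log_re z) log_im')
    have h0 : (fun z : ℂ => z ^ (n + N + 1) * gl s ua ub z) 0 = 0 := by simp
    show Tendsto _ (𝓝 0) (𝓝 _)
    rw [h0]
    have hlim : Tendsto (fun z : ℂ => C * E * ‖z‖) (𝓝 0) (𝓝 0) := by
      have : Continuous fun z : ℂ => C * E * ‖z‖ := by fun_prop
      have h := this.tendsto 0
      simpa using h
    refine squeeze_zero_norm' ?_ hlim
    filter_upwards [Metric.ball_mem_nhds (0 : ℂ) hρ] with z hz
    exact hbd z (by simpa using hz)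

theorem cross {f h : ι → ℂ} (hp : ∀ i j, h i * f j = h j * f i) (e : ι → ℂ) (i : ι) :
    (f ⬝ᵥ e) * h i = (h ⬝ᵥ e) * f i := by
  show (∑ j, f j * e j) * h i = (∑ j, h j * e j) * f i
  rw [Finset.sum_mul, Finset.sum_mul]
  refine Finset.sum_congr rfl fun j _ => ?_
  calc f j * e j * h i = (h i * f j) * e j := by ring
    _ = (h j * f i) * e j := by rw [hp i j]
    _ = h j * e j * f i := by ring

theorem dot_bound {f : ι → ℂ} {t C : ℝ} (ht : 0 ≤ t) (h : ∀ i, ‖f i‖ * t ≤ C) (e : ι → ℂ) :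
    ‖f ⬝ᵥ e‖ * t ≤ C * ∑ i, ‖e i‖ := by
  calc ‖f ⬝ᵥ e‖ * t ≤ (∑ i, ‖f i * e i‖) * t :=
        mul_le_mul_of_nonneg_right (norm_sum_le _ _) ht
    _ = ∑ i, (‖f i‖ * t) * ‖e i‖ := by
        rw [Finset.sum_mul]
        refine Finset.sum_congr rfl fun i _ => ?_
        rw [norm_mul]
        ring
    _ ≤ ∑ i, C * ‖e i‖ :=
        Finset.sum_le_sum fun i _ => mul_le_mul_of_nonneg_right (h i) (norm_nonneg _)
    _ = C * ∑ i, ‖e i‖ := by rw [Finset.mul_sum]

end ItemDLM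

open ItemDLM in
theorem prf_D_LM : D_LM := by
  intro ι _ _ ρ C n fa fb ha hb Θ hρ hfa hfb hha hhb hup hlo hbd hprop hne
  have hupf : ∀ z ∈ up ρ, fa z = fb z := fun z hz => (hup z hz.1 hz.2).1
  have huph : ∀ z ∈ up ρ, ha z = hb z := fun z hz => (hup z hz.1 hz.2).2
  have hlof : ∀ z ∈ lo ρ, fb z = fa z ᵥ* Θ := fun z hz => (hlo z hz.1 hz.2).1
  have hloh : ∀ z ∈ lo ρ, hb z = ha z ᵥ* Θ := fun z hz => (hlo z hz.1 hz.2).2
  set A : Submodule ℂ (ι → ℂ) := Ann (Sa ∩ Metric.ball 0 ρ) fa with hA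
  have hfb0 : ∀ e ∈ A, ∀ z ∈ Sb ∩ Metric.ball 0 ρ, fb z ⬝ᵥ e = 0 := by
    intro e he
    refine ident (open_b ρ) (pre_b hρ) (dot_diff hfb e) (up_open ρ) (up_b ρ) (up_nonempty hρ) ?_
    intro z hz
    rw [← hupf z hz]
    exact he z (up_a ρ hz)
  have hinv : ∀ e ∈ A, Θ *ᵥ e ∈ A := by
    intro e he
    rw [hA, mem_Ann]
    refine ident (open_a ρ) (pre_a hρ) (dot_diff hfa _) (lo_open ρ) (lo_a ρ) (lo_nonempty hρ) ?_
    intro z hz
    rw [dotProduct_mulVec, ← hlof z hz]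
    exact hfb0 e he z (lo_b ρ hz)
  obtain ⟨z0, hz0n, hz0i, hz0⟩ := hne
  have hz0u : z0 ∈ up ρ := ⟨hz0n, hz0i⟩
  obtain ⟨j0, hj0⟩ : ∃ j, fa z0 j ≠ 0 := by
    by_contra hcon
    push Not at hcon
    exact hz0 (funext hcon)
  have hAtop : A ≠ ⊤ := by
    intro htop
    have h1 : (Pi.single j0 1 : ι → ℂ) ∈ A := by
      rw [htop]
      trivial
    have h2 := h1 z0 (up_a ρ hz0u)
    rw [dotProduct_single, mul_one] at h2
    exact hj0 h2
  obtain ⟨e, μ, he, hmem⟩ := exists_eigen A hAtop Θ hinv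
  have hdec : Θ *ᵥ e = μ • e + (Θ *ᵥ e - μ • e) := by abel
  have hha0 : ∀ a ∈ A, ∀ z ∈ Sa ∩ Metric.ball 0 ρ, ha z ⬝ᵥ a = 0 := by
    intro a haA
    refine prod_zero (open_a ρ) (pre_a hρ) (hfa j0) (dot_diff hha a) ?_ (up_a ρ hz0u) hj0
    intro z hz
    have h1 := cross (hprop z (by simpa using hz.2) hz.1) a j0
    rw [haA z hz, zero_mul] at h1
    rw [mul_comm]
    exact h1.symm
  have lo_f : ∀ z ∈ lo ρ, fb z ⬝ᵥ e = μ * (fa z ⬝ᵥ e) := by
    intro z hz
    rw [hlof z hz, ← dotProduct_mulVec, hdec, dotProduct_add, hmem z (lo_a ρ hz), add_zero,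
      dotProduct_smul, smul_eq_mul]
  have lo_h : ∀ z ∈ lo ρ, hb z ⬝ᵥ e = μ * (ha z ⬝ᵥ e) := by
    intro z hz
    rw [hloh z hz, ← dotProduct_mulVec, hdec, dotProduct_add, hha0 _ hmem z (lo_a ρ hz), add_zero,
      dotProduct_smul, smul_eq_mul]
  have hμ : μ ≠ 0 := by
    rintro rfl
    have h1 : ∀ z ∈ Sb ∩ Metric.ball 0 ρ, fb z ⬝ᵥ e = 0 := by
      refine ident (open_b ρ) (pre_b hρ) (dot_diff hfb e) (lo_open ρ) (lo_b ρ) (lo_nonempty hρ) ?_
      intro z hz
      rw [lo_f z hz, zero_mul]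
    apply he
    rw [hA, mem_Ann]
    refine ident (open_a ρ) (pre_a hρ) (dot_diff hfa _) (up_open ρ) (up_a ρ) (up_nonempty hρ) ?_
    intro z hz
    rw [hupf z hz]
    exact h1 z (up_b ρ hz)
  -- the exponent
  obtain ⟨s, hs⟩ : ∃ s : ℂ, Complex.exp (2 * Real.pi * I * s) = μ := by
    refine ⟨Complex.log μ / (2 * Real.pi * I), ?_⟩
    have h2 : (2 * Real.pi * I : ℂ) ≠ 0 := Complex.two_pi_I_ne_zero
    rw [mul_div_cancel₀ _ h2, Complex.exp_log hμ]
  obtain ⟨N, hN⟩ := exists_nat_ge |s.re|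
  set ρ1 : ℝ := min ρ 1 with hρ1
  have hρ1pos : 0 < ρ1 := lt_min hρ one_pos
  have hρ1le : ρ1 ≤ ρ := min_le_left _ _
  have hball : Metric.ball (0 : ℂ) ρ1 ⊆ Metric.ball 0 ρ := Metric.ball_subset_ball hρ1le
  have hsa : Sa ∩ Metric.ball 0 ρ1 ⊆ Sa ∩ Metric.ball 0 ρ := Set.inter_subset_inter_right _ hball
  have hsb : Sb ∩ Metric.ball 0 ρ1 ⊆ Sb ∩ Metric.ball 0 ρ := Set.inter_subset_inter_right _ hball
  have hu1 : up ρ1 ⊆ up ρ := fun z hz => ⟨hz.1.trans_le hρ1le, hz.2⟩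
  have hl1 : lo ρ1 ⊆ lo ρ := fun z hz => ⟨hz.1.trans_le hρ1le, hz.2⟩
  set ua : ℂ → ℂ := fun z => fa z ⬝ᵥ e with hua
  set ub : ℂ → ℂ := fun z => fb z ⬝ᵥ e with hub
  set va : ℂ → ℂ := fun z => ha z ⬝ᵥ e with hva
  set vb : ℂ → ℂ := fun z => hb z ⬝ᵥ e with hvb
  have guup : ∀ z ∈ up ρ1, ua z = ub z := fun z hz => by
    show fa z ⬝ᵥ e = fb z ⬝ᵥ e
    rw [hupf z (hu1 hz)]
  have gulo : ∀ z ∈ lo ρ1, ub z = Complex.exp (2 * Real.pi * I * s) * ua z := fun z hz => by
    rw [hs]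
    exact lo_f z (hl1 hz)
  have gvup : ∀ z ∈ up ρ1, va z = vb z := fun z hz => by
    show ha z ⬝ᵥ e = hb z ⬝ᵥ e
    rw [huph z (hu1 hz)]
  have gvlo : ∀ z ∈ lo ρ1, vb z = Complex.exp (2 * Real.pi * I * s) * va z := fun z hz => by
    rw [hs]
    exact lo_h z (hl1 hz)
  have hφ := glue (n := n) hρ1pos (min_le_right _ _) ((dot_diff hfa e).mono hsa)
    ((dot_diff hfb e).mono hsb) guup gulo hN (C := C * ∑ i, ‖e i‖)
    (fun z hz hzn => dot_bound (by positivity)
      (fun i => ((hbd z (hzn.trans_le hρ1le) i).1 hz).1) e)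
    (fun z hz hzn => dot_bound (by positivity)
      (fun i => ((hbd z (hzn.trans_le hρ1le) i).2 hz).1) e)
  have hψ := glue (n := n) hρ1pos (min_le_right _ _) ((dot_diff hha e).mono hsa)
    ((dot_diff hhb e).mono hsb) gvup gvlo hN (C := C * ∑ i, ‖e i‖)
    (fun z hz hzn => dot_bound (by positivity)
      (fun i => ((hbd z (hzn.trans_le hρ1le) i).1 hz).2) e)
    (fun z hz hzn => dot_bound (by positivity)
      (fun i => ((hbd z (hzn.trans_le hρ1le) i).2 hz).2) e)
  set φ : ℂ → ℂ := fun z => z ^ (n + N + 1) * gl s ua ub z with hφdef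
  set ψ : ℂ → ℂ := fun z => z ^ (n + N + 1) * gl s va vb z with hψdef
  -- zeros of the first function
  have hφan : AnalyticAt ℂ φ 0 :=
    (hφ.analyticOnNhd Metric.isOpen_ball) 0 (Metric.mem_ball_self hρ1pos)
  have hnz : ∀ᶠ z in 𝓝[≠] (0 : ℂ), φ z ≠ 0 := by
    rcases hφan.eventually_eq_zero_or_eventually_ne_zero with h | h
    · exfalso
      obtain ⟨ε, hε, hball0⟩ := Metric.eventually_nhds_iff_ball.mp h
      set ρ2 : ℝ := min ε ρ1 with hρ2
      have hρ2pos : 0 < ρ2 := lt_min hε hρ1pos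
      apply he
      rw [hA, mem_Ann]
      refine ident (open_a ρ) (pre_a hρ) (dot_diff hfa _) (up_open ρ2)
        (fun z hz => up_a ρ ⟨hz.1.trans_le ((min_le_right _ _).trans hρ1le), hz.2⟩)
        (up_nonempty hρ2pos) ?_
      intro z hz
      have hzne : z ≠ 0 := by
        rintro rfl
        exact absurd hz.2 (by simp)
      have h1 : φ z = 0 := hball0 z (by simpa using hz.1.trans_le (min_le_left _ _))
      have h2 : z ^ (n + N + 1) * (ua z * Complex.exp (s * La z)) = 0 := by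
        rw [← gl_a s ua ub (Or.inl hz.2.ne')]
        exact h1
      rcases mul_eq_zero.mp h2 with h3 | h3
      · exact absurd h3 (pow_ne_zero _ hzne)
      · exact (mul_eq_zero.mp h3).resolve_right (Complex.exp_ne_zero _)
    · exact h
  rw [eventually_nhdsWithin_iff] at hnz
  obtain ⟨ε, hε, hnz⟩ := Metric.eventually_nhds_iff_ball.mp hnz
  have hpropb : ∀ i j, ∀ z ∈ Sb ∩ Metric.ball 0 ρ, hb z i * fb z j - hb z j * fb z i = 0 := by
    intro i j
    refine ident (open_b ρ) (pre_b hρ) (f := fun z => hb z i * fb z j - hb z j * fb z i)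
      (((hhb i).mul (hfb j)).sub ((hhb j).mul (hfb i)))
      (up_open ρ) (up_b ρ) (up_nonempty hρ) ?_
    intro z hz
    show hb z i * fb z j - hb z j * fb z i = 0
    rw [← hupf z hz, ← huph z hz, hprop z hz.1 (up_a ρ hz).1 i j, sub_self]
  refine ⟨min ε ρ1, lt_min hε hρ1pos, (min_le_right _ _).trans hρ1le, φ, ψ,
    hφ.mono (Metric.ball_subset_ball (min_le_right _ _)),
    hψ.mono (Metric.ball_subset_ball (min_le_right _ _)), ?_, ?_⟩
  · intro z hz0 hz
    exact hnz z (by simpa using hz.trans_le (min_le_left _ _)) hz0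
  · intro z hz
    have hz1 : ‖z‖ < ρ1 := hz.trans_le (min_le_right _ _)
    have hzρ : ‖z‖ < ρ := hz1.trans_le hρ1le
    constructor
    · intro hza
      funext i
      show φ z * ha z i = ψ z * fa z i
      have h1 := cross (hprop z hzρ hza) e i
      have h2 : φ z = z ^ (n + N + 1) * (ua z * Complex.exp (s * La z)) := by
        rw [← gl_a s ua ub hza]
      have h3 : ψ z = z ^ (n + N + 1) * (va z * Complex.exp (s * La z)) := by
        rw [← gl_a s va vb hza]
      rw [h2, h3]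
      calc z ^ (n + N + 1) * (ua z * Complex.exp (s * La z)) * ha z i
          = z ^ (n + N + 1) * Complex.exp (s * La z) * ((fa z ⬝ᵥ e) * ha z i) := by
            rw [hua]
            ring
        _ = z ^ (n + N + 1) * Complex.exp (s * La z) * ((ha z ⬝ᵥ e) * fa z i) := by rw [h1]
        _ = z ^ (n + N + 1) * (va z * Complex.exp (s * La z)) * fa z i := by
            rw [hva]
            ring
    · intro hzb
      funext i
      show φ z * hb z i = ψ z * fb z i
      have h1 := cross (h := hb z) (f := fb z) (fun i j =>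
        sub_eq_zero.mp (hpropb i j z ⟨hzb, by simpa using hzρ⟩)) e i
      have h2 : φ z = z ^ (n + N + 1) * (ub z * Complex.exp (s * Complex.log z)) := by
        rw [← gl_b guup gulo hzb hz1]
      have h3 : ψ z = z ^ (n + N + 1) * (vb z * Complex.exp (s * Complex.log z)) := by
        rw [← gl_b gvup gvlo hzb hz1]
      rw [h2, h3]
      calc z ^ (n + N + 1) * (ub z * Complex.exp (s * Complex.log z)) * hb z i
          = z ^ (n + N + 1) * Complex.exp (s * Complex.log z) * ((fb z ⬝ᵥ e) * hb z i) := by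
            rw [hub]
            ring
        _ = z ^ (n + N + 1) * Complex.exp (s * Complex.log z) * ((hb z ⬝ᵥ e) * fb z i) := by
            rw [h1]
        _ = z ^ (n + N + 1) * (vb z * Complex.exp (s * Complex.log z)) * fb z i := by
            rw [hvb]
            ring

end Pool.Agent.MSU

end

section

/-! Item D_RAT: a meromorphic function on the sphere is rational. -/

open Matrix Polynomial Filter Topology Metric

namespace Pool.Agent.MSU.ItemDRAT

/-- An entire function with real part of polynomial growth is a polynomial. -/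
lemma pe_poly (g : ℂ → ℂ) (hg : Differentiable ℂ g) (A : ℝ) (hA : 0 < A) (m : ℕ)
    (hre : ∀ z, (g z).re ≤ A * (1 + ‖z‖) ^ m) :
    ∃ Q : Polynomial ℂ, ∀ z, g z = Q.eval z := by
  set B : ℝ := 2 * A * 3 ^ m + 3 * ‖g 0‖ with hB
  have hbound : ∀ r : ℝ, 1 ≤ r → ∀ z ∈ sphere (0 : ℂ) r, ‖g z‖ ≤ B * r ^ m := by
    intro r hr z hz
    have hzr : ‖z‖ = r := by simpa using hz
    have hr0 : 0 < r := by linarith
    have h1 := Complex.borelCaratheodory (f := g) (R := 2 * r) (M := A * (1 + 2 * r) ^ m) (z := z)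
      (by positivity) hg.differentiableOn (by
        intro w hw
        have hw' : ‖w‖ < 2 * r := by simpa using hw
        show (g w).re ≤ _
        refine (hre w).trans ?_
        gcongr) (by positivity) (by simp [hzr]; linarith)
    rw [hzr] at h1
    have e1 : 2 * r - r = r := by ring
    have e2 : 2 * r + r = 3 * r := by ring
    rw [e1, e2] at h1
    have h2 : 2 * (A * (1 + 2 * r) ^ m) * r / r = 2 * (A * (1 + 2 * r) ^ m) := by
      field_simp
    have h3 : ‖g 0‖ * (3 * r) / r = 3 * ‖g 0‖ := by field_simp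
    rw [h2, h3] at h1
    have h4 : (1 + 2 * r) ^ m ≤ (3 * r) ^ m := by
      gcongr; linarith
    have h5 : (1 : ℝ) ≤ r ^ m := one_le_pow₀ hr
    calc ‖g z‖ ≤ 2 * (A * (1 + 2 * r) ^ m) + 3 * ‖g 0‖ := h1
      _ ≤ 2 * (A * (3 * r) ^ m) + 3 * ‖g 0‖ * r ^ m := by
        have : 3 * ‖g 0‖ ≤ 3 * ‖g 0‖ * r ^ m := le_mul_of_one_le_right (by positivity) h5
        have : A * (1 + 2 * r) ^ m ≤ A * (3 * r) ^ m := by gcongr
        linarith
      _ = B * r ^ m := by rw [hB, mul_pow]; ring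
  have hzero : ∀ n : ℕ, m < n → iteratedDeriv n g 0 = 0 := by
    intro n hn
    have h1 : ∀ r : ℝ, 1 ≤ r → ‖iteratedDeriv n g 0‖ ≤ (n.factorial * B) / r := by
      intro r hr
      have hr0 : 0 < r := by linarith
      have h2 := Complex.norm_iteratedDeriv_le_of_forall_mem_sphere_norm_le n hr0
        (hg.diffContOnCl (s := ball (0 : ℂ) r)) (hbound r hr)
      refine h2.trans ?_
      rw [div_le_div_iff₀ (by positivity) hr0]
      have h3 : r ^ m * r ≤ r ^ n := by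
        rw [← pow_succ]; exact pow_le_pow_right₀ hr hn
      have hB0 : 0 ≤ B := by positivity
      calc (n.factorial : ℝ) * (B * r ^ m) * r = n.factorial * B * (r ^ m * r) := by ring
        _ ≤ n.factorial * B * r ^ n := by gcongr
    have h2 : Tendsto (fun r : ℝ => (n.factorial * B) / r) atTop (𝓝 0) :=
      tendsto_const_nhds.div_atTop tendsto_id
    have h3 : ‖iteratedDeriv n g 0‖ ≤ 0 :=
      ge_of_tendsto h2 (by filter_upwards [eventually_ge_atTop 1] with r hr using h1 r hr)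
    exact norm_le_zero_iff.1 h3
  refine ⟨∑ n ∈ Finset.range (m + 1),
    Polynomial.C ((n.factorial : ℂ)⁻¹ * iteratedDeriv n g 0) * Polynomial.X ^ n, fun z => ?_⟩
  have h1 := Complex.taylorSeries_eq_of_entire hg 0 z
  rw [← h1, tsum_eq_sum (s := Finset.range (m + 1))]
  · rw [Polynomial.eval_finsetSum]
    refine Finset.sum_congr rfl fun n _ => ?_
    simp [mul_comm, mul_left_comm]
  · intro n hn
    rw [Finset.mem_range, not_lt] at hn
    rw [hzero n (by omega)]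
    simp

/-- behaviour near infinity -/
lemma at_inf (R : ℂ → ℂ) (h : MeromorphicAt (fun ζ => R (-ζ⁻¹)) 0) :
    ∃ (n : ℕ) (ρ C : ℝ), 0 < ρ ∧ 0 < C ∧ ∀ z : ℂ, ρ < ‖z‖ → AnalyticAt ℂ R z ∧
      ‖R z‖ ≤ C * ‖z‖ ^ n := by
  obtain ⟨n, hn⟩ := h
  simp only [sub_zero, smul_eq_mul] at hn
  have h1 := hn.eventually_analyticAt
  have h2 : ∀ᶠ ζ in 𝓝 (0 : ℂ), ‖ζ ^ n * R (-ζ⁻¹)‖ < ‖(0 : ℂ) ^ n * R (-(0 : ℂ)⁻¹)‖ + 1 := by
    have := hn.continuousAt.norm
    exact this.eventually_lt_const (by simp)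
  set C : ℝ := ‖(0 : ℂ) ^ n * R (-(0 : ℂ)⁻¹)‖ + 1 with hC
  have hC0 : 0 < C := by positivity
  obtain ⟨ε, hε, hb⟩ := Metric.eventually_nhds_iff.1 (h1.and h2)
  refine ⟨n, ε⁻¹, C, by positivity, hC0, fun z hz => ?_⟩
  have hz0 : 0 < ‖z‖ := lt_trans (by positivity) hz
  have hz1 : z ≠ 0 := norm_pos_iff.1 hz0
  have hmem : dist (-z⁻¹) 0 < ε := by
    rw [dist_zero_right, norm_neg, norm_inv]
    exact inv_lt_of_inv_lt₀ hε hz
  obtain ⟨ha, hbd⟩ := hb hmem
  have e1 : -(-z⁻¹)⁻¹ = z := by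
    rw [inv_neg, inv_inv, neg_neg]
  constructor
  · -- R s = (-s)^n * (h (-1/s))
    have hcomp : AnalyticAt ℂ (fun s : ℂ => (fun ζ => ζ ^ n * R (-ζ⁻¹)) (-s⁻¹)) z := by
      have hinv : AnalyticAt ℂ (fun s : ℂ => -s⁻¹) z := (analyticAt_id.inv hz1).neg
      exact AnalyticAt.fun_comp (g := fun ζ => ζ ^ n * R (-ζ⁻¹)) (f := fun s : ℂ => -s⁻¹) ha hinv
    have h3 : AnalyticAt ℂ (fun s : ℂ => (-s) ^ n * ((fun ζ => ζ ^ n * R (-ζ⁻¹)) (-s⁻¹))) z :=
      ((analyticAt_id.neg).pow n).mul hcomp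
    refine h3.congr ?_
    filter_upwards [isOpen_ne.mem_nhds hz1] with s hs
    have hs' : s ≠ 0 := hs
    show (-s) ^ n * ((-s⁻¹) ^ n * R (-(-s⁻¹)⁻¹)) = R s
    rw [← mul_assoc, ← mul_pow]
    have : -s * -s⁻¹ = 1 := by field_simp
    rw [this, one_pow, one_mul, inv_neg, inv_inv, neg_neg]
  · rw [e1, norm_mul, norm_pow, norm_neg, norm_inv, inv_pow] at hbd
    have h4 : ‖R z‖ < C * ‖z‖ ^ n := by
      rw [inv_mul_lt_iff₀ (by positivity)] at hbd
      linarith [mul_comm C (‖z‖ ^ n)]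
    exact h4.le

/-- finitely many bad points -/
lemma bad_finite (R : ℂ → ℂ) (h : ∀ z, MeromorphicAt R z) (ρ : ℝ)
    (hρ : ∀ z : ℂ, ρ < ‖z‖ → AnalyticAt ℂ R z) :
    {z : ℂ | ¬ AnalyticAt ℂ R z}.Finite := by
  have hU : ∀ z ∈ closedBall (0 : ℂ) ρ, {s | s ≠ z → AnalyticAt ℂ R s} ∈ 𝓝 z := by
    intro z _
    have := (h z).eventually_analyticAt
    rw [eventually_nhdsWithin_iff] at this
    filter_upwards [this] with s hs hne
    exact hs hne
  obtain ⟨t, _, ht⟩ := (isCompact_closedBall (0 : ℂ) ρ).elim_nhds_subcover _ hU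
  refine t.finite_toSet.subset ?_
  intro z hz
  have hz' : ¬ AnalyticAt ℂ R z := hz
  have hmem : z ∈ closedBall (0 : ℂ) ρ := by
    rw [mem_closedBall, dist_zero_right]
    by_contra hcon
    exact hz' (hρ z (not_le.1 hcon))
  obtain ⟨p, hp, hzp⟩ := Set.mem_iUnion₂.1 (ht hmem)
  by_cases hne : z = p
  · rw [hne]; exact hp
  · exact absurd (hzp hne) hz'

lemma poly_growth (D : ℂ[X]) : ∃ A : ℝ, 0 < A ∧ ∀ z : ℂ, ‖D.eval z‖ ≤ A * (1 + ‖z‖) ^ D.natDegree := by
  refine ⟨∑ i ∈ Finset.range (D.natDegree + 1), ‖D.coeff i‖ + 1, by positivity, fun z => ?_⟩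
  rw [Polynomial.eval_eq_sum_range]
  refine (norm_sum_le _ _).trans ?_
  have h1 : ∀ i ∈ Finset.range (D.natDegree + 1), ‖D.coeff i * z ^ i‖
      ≤ ‖D.coeff i‖ * (1 + ‖z‖) ^ D.natDegree := by
    intro i hi
    rw [norm_mul, norm_pow]
    have hi' : i ≤ D.natDegree := by
      have := Finset.mem_range.1 hi; omega
    have : ‖z‖ ^ i ≤ (1 + ‖z‖) ^ D.natDegree := by
      calc ‖z‖ ^ i ≤ (1 + ‖z‖) ^ i := by gcongr; linarith
        _ ≤ (1 + ‖z‖) ^ D.natDegree := pow_le_pow_right₀ (by linarith [norm_nonneg z]) hi'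
    gcongr
  refine (Finset.sum_le_sum h1).trans ?_
  rw [← Finset.sum_mul]
  have : 0 ≤ (1 + ‖z‖) ^ D.natDegree := by positivity
  nlinarith

end Pool.Agent.MSU.ItemDRAT

namespace Pool.Agent.MSU

open ItemDRAT

theorem prf_D_RAT : D_RAT := by
  intro R hR hinf
  obtain ⟨n, ρ, C, hρ, hC, hout⟩ := at_inf R hinf
  have hfin := bad_finite R hR ρ (fun z hz => (hout z hz).1)
  classical
  choose m hm using hR
  set S := hfin.toFinset with hS
  have hSmem : ∀ z, z ∉ S → AnalyticAt ℂ R z := by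
    intro z hz
    by_contra hcon
    exact hz (hfin.mem_toFinset.2 hcon)
  set D : ℂ[X] := ∏ p ∈ S, (X - Polynomial.C p) ^ m p with hD
  have hD0 : D ≠ 0 := by
    rw [hD, Finset.prod_ne_zero_iff]
    intro p _
    exact pow_ne_zero _ (X_sub_C_ne_zero p)
  have hDan : ∀ (P : ℂ[X]) (z : ℂ), AnalyticAt ℂ (fun s => P.eval s) z := by
    intro P z
    exact (Polynomial.differentiable P).analyticAt z
  have hF : ∀ z, AnalyticAt ℂ (fun s => D.eval s * R s) z := by
    intro z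
    by_cases hz : z ∈ S
    · have h1 : AnalyticAt ℂ (fun s => (∏ p ∈ S.erase z, (X - Polynomial.C p) ^ m p).eval s *
          ((s - z) ^ m z • R s)) z := (hDan _ z).mul (hm z)
      refine h1.congr (Eventually.of_forall fun s => ?_)
      show _ = D.eval s * R s
      rw [hD, ← Finset.mul_prod_erase S _ hz, eval_mul, eval_pow, eval_sub, eval_X, eval_C]
      simp only [smul_eq_mul]
      ring
    · exact (hDan D z).mul (hSmem z hz)
  have hFd : Differentiable ℂ (fun s => D.eval s * R s) := fun z => (hF z).differentiableAt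
  obtain ⟨A, hA, hDg⟩ := poly_growth D
  obtain ⟨M, hM⟩ : ∃ M : ℝ, ∀ z ∈ closedBall (0 : ℂ) ρ, ‖D.eval z * R z‖ ≤ M :=
    (isCompact_closedBall (0 : ℂ) ρ).exists_bound_of_continuousOn hFd.continuous.continuousOn
  have hgrow : ∀ z : ℂ, (D.eval z * R z).re ≤ (A * C + |M| + 1) * (1 + ‖z‖) ^ (D.natDegree + n) := by
    intro z
    refine (Complex.re_le_norm _).trans ?_
    have hone : (1 : ℝ) ≤ (1 + ‖z‖) ^ (D.natDegree + n) :=
      one_le_pow₀ (by linarith [norm_nonneg z])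
    by_cases hz : ρ < ‖z‖
    · rw [norm_mul]
      have h1 := hDg z
      have h2 := (hout z hz).2
      have h3 : ‖z‖ ^ n ≤ (1 + ‖z‖) ^ n := by gcongr; linarith
      calc ‖D.eval z‖ * ‖R z‖ ≤ (A * (1 + ‖z‖) ^ D.natDegree) * (C * (1 + ‖z‖) ^ n) := by
            apply mul_le_mul h1 (h2.trans (by gcongr)) (norm_nonneg _) (by positivity)
        _ = (A * C) * (1 + ‖z‖) ^ (D.natDegree + n) := by rw [pow_add]; ring
        _ ≤ (A * C + |M| + 1) * (1 + ‖z‖) ^ (D.natDegree + n) := by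
            gcongr
            linarith [abs_nonneg M]
    · have hmem : z ∈ closedBall (0 : ℂ) ρ := by
        rw [mem_closedBall, dist_zero_right]; exact not_lt.1 hz
      have h1 := hM z hmem
      have h2 : M ≤ |M| := le_abs_self M
      calc ‖D.eval z * R z‖ ≤ |M| := h1.trans h2
        _ ≤ A * C + |M| + 1 := by nlinarith [mul_pos hA hC]
        _ = (A * C + |M| + 1) * 1 := by ring
        _ ≤ (A * C + |M| + 1) * (1 + ‖z‖) ^ (D.natDegree + n) := by
            gcongr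
  obtain ⟨N, hN⟩ := pe_poly _ hFd (A * C + |M| + 1) (by positivity) _ hgrow
  exact ⟨D, N, hD0, fun z _ => hN z⟩

end Pool.Agent.MSU

end

section

/-! Rank and minors. -/

open Matrix Polynomial Filter Topology
open scoped ComplexConjugate ComplexOrder

namespace Pool.Agent.MSU

namespace ItemDRank

theorem rows {r d : ℕ} (M : Matrix (Fin r) (Fin d) ℂ) (k : ℕ) (hk : M.rank = k) :
    ∃ J : Fin k → Fin r, LinearIndependent ℂ (M.submatrix J id).row := by
  obtain ⟨κ, a, ha, hspan, hli⟩ := exists_linearIndependent' ℂ (fun i => M i)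
  have hfin : Finite κ := Finite.of_injective a ha
  have : Fintype κ := Fintype.ofFinite κ
  have hcard : Fintype.card κ = k := by
    rw [← hk, M.rank_eq_finrank_span_row]
    have h1 := finrank_span_eq_card hli
    rw [← h1, hspan]
    rfl
  have e : Fin k ≃ κ := (Fintype.equivFinOfCardEq hcard).symm
  exact ⟨fun i => a (e i), hli.comp e e.injective⟩

theorem sub {r d : ℕ} (M : Matrix (Fin r) (Fin d) ℂ) (k : ℕ) (h : M.rank = k) :
    ∃ (J : Fin k → Fin r) (L : Fin k → Fin d), (M.submatrix J L).det ≠ 0 := by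
  obtain ⟨J, hJ⟩ := rows M k h
  have hr : (M.submatrix J id).rank = k := by
    have h2 := hJ.rank_matrix
    simpa using h2
  have hr2 : ((M.submatrix J id)ᵀ).rank = k := by rw [Matrix.rank_transpose, hr]
  obtain ⟨L, hL⟩ := rows ((M.submatrix J id)ᵀ) k hr2
  refine ⟨J, L, ?_⟩
  have h3 : ((M.submatrix J id)ᵀ).submatrix L id = (M.submatrix J L)ᵀ := by
    ext i j
    rfl
  rw [h3, Matrix.linearIndependent_rows_iff_isUnit, Matrix.isUnit_iff_isUnit_det,
    Matrix.det_transpose] at hL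
  exact hL.ne_zero

end ItemDRank

theorem prf_D_Rank : D_Rank := by
  intro r d k M
  refine ⟨ItemDRank.sub M k, ?_⟩
  rintro ⟨J, L, h⟩
  have h1 : (M.submatrix J L).rank = Fintype.card (Fin k) := Matrix.rank_of_det_ne_zero h
  have h2 := M.rank_submatrix_le J L
  rw [h1] at h2
  simpa using h2

end Pool.Agent.MSU

end

section

/-! The rank bound on the upper half plane holds on all `V j`. -/

open Matrix Polynomial Filter Topology

namespace Pool.Agent.MSU

namespace ItemDRankAll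

lemma det_diff {k : ℕ} {U : Set ℂ} (F : ℂ → Matrix (Fin k) (Fin k) ℂ)
    (h : ∀ a b, DifferentiableOn ℂ (fun z => F z a b) U) :
    DifferentiableOn ℂ (fun z => (F z).det) U := by
  have h1 : (fun z => (F z).det) = fun z => ∑ σ : Equiv.Perm (Fin k),
      ((Equiv.Perm.sign σ : ℤ) : ℂ) * ∏ i, F z (σ i) i := by
    funext z
    rw [Matrix.det_apply']
  rw [h1]
  refine DifferentiableOn.fun_sum fun σ _ => ?_
  refine DifferentiableOn.const_mul ?_ _
  exact DifferentiableOn.fun_finsetProd fun i _ => h _ _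

end ItemDRankAll

theorem prf_D_RankAll (hR : D_Rank) : D_RankAll := by
  intro r d k G Q hG hz j z hzj
  by_contra hlt
  rw [not_le] at hlt
  obtain ⟨k', hlt, J, L, hne⟩ : ∃ k', k < k' ∧ ∃ (J : Fin k' → Fin r) (L : Fin k' → Fin d),
      ((G j z).submatrix J L).det ≠ 0 :=
    ⟨(G j z).rank, hlt, (hR r d (G j z).rank (G j z)).1 rfl⟩
  have hd : DifferentiableOn ℂ (fun s => ((G j s).submatrix J L).det) (V j) :=
    ItemDRankAll.det_diff _ fun a b => hG.diff j (J a) (L b)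
  have han : AnalyticOnNhd ℂ (fun s => ((G j s).submatrix J L).det) (V j) :=
    hd.analyticOnNhd (V_open j)
  have hev : (fun s => ((G j s).submatrix J L).det) =ᶠ[𝓝 Complex.I] 0 := by
    have hup : {s : ℂ | 0 < s.im} ∈ 𝓝 Complex.I :=
      (isOpen_lt continuous_const Complex.continuous_im).mem_nhds (by simp)
    filter_upwards [hup] with s hs
    have h0 : G j s = G 0 s := hG.plus j 0 s hs
    by_contra h
    have h2 := (hR r d k' (G j s)).2 ⟨J, L, h⟩
    rw [h0] at h2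
    exact absurd (h2.trans (hz s hs)) (not_le.mpr hlt)
  exact hne (han.eqOn_zero_of_preconnected_of_eventuallyEq_zero (V_preconnected j) (I_mem j) hev hzj)

end Pool.Agent.MSU

end

section

/-! Item D_RatMin: the ratios of minors of a multivalued matrix of rank at most `k` are rational. -/

open Matrix Polynomial Filter Topology Metric

namespace Pool.Agent.MSU.ItemDRatMin

variable {r d k : ℕ}

/-- minors -/
noncomputable def mi (G : Fin 3 → ℂ → Matrix (Fin r) (Fin d) ℂ) (j : Fin 3)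
    (J : Fin k → Fin r) (L : Fin k → Fin d) (z : ℂ) : ℂ := ((G j z).submatrix J L).det

/-- the action on the minors -/
noncomputable def Th (Q : Fin 3 → Matrix (Fin d) (Fin d) ℂ) (k : ℕ) (j : Fin 3) :
    Matrix (Fin k → Fin d) (Fin k → Fin d) ℂ :=
  Matrix.of fun f L => ∏ a, Q j (f a) (L a)

lemma det_cols (A : Matrix (Fin r) (Fin d) ℂ) (B : Matrix (Fin d) (Fin d) ℂ)
    (J : Fin k → Fin r) (L : Fin k → Fin d) :
    ((A * B).submatrix J L).det
      = ∑ f : Fin k → Fin d, (A.submatrix J f).det * ∏ a, B (f a) (L a) := by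
  have h1 : ((A * B).submatrix J L)ᵀ = (B.submatrix id L)ᵀ * (A.submatrix J id)ᵀ := by
    ext a b
    simp [Matrix.mul_apply, mul_comm]
  rw [← det_transpose, h1, Pool.Agent.Work.MP_5e5ff1_ag.T.det_mul_rect]
  refine Finset.sum_congr rfl fun f _ => ?_
  have h2 : ((A.submatrix J id)ᵀ.submatrix f id) = (A.submatrix J f)ᵀ := by
    ext a b; simp
  rw [h2, det_transpose, mul_comm]
  rfl

section
variable {G : Fin 3 → ℂ → Matrix (Fin r) (Fin d) ℂ} {Q : Fin 3 → Matrix (Fin d) (Fin d) ℂ}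

lemma mi_upper (hG : MV G Q) (j j' : Fin 3) (J : Fin k → Fin r) (L : Fin k → Fin d) {z : ℂ}
    (hz : 0 < z.im) : mi G j J L z = mi G j' J L z := by
  unfold mi
  rw [hG.plus j j' z hz]

lemma mi_lower (hG : MV G Q) (j : Fin 3) (J : Fin k → Fin r) {z : ℂ} (hz : z.im < 0) :
    (fun L => mi G (j + 1) J L z) = (fun f => mi G j J f z) ᵥ* Th Q k j := by
  funext L
  unfold mi
  rw [hG.minus j z hz, det_cols]
  rfl

lemma mi_diff (hG : MV G Q) (j : Fin 3) (J : Fin k → Fin r) (L : Fin k → Fin d) :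
    DifferentiableOn ℂ (mi G j J L) (V j) := by
  have : mi G j J L = fun z => ∑ σ : Equiv.Perm (Fin k),
      ((Equiv.Perm.sign σ : ℤ) : ℂ) * ∏ i, G j z (J (σ i)) (L i) := by
    funext z
    unfold mi
    rw [det_apply']
    rfl
  rw [this]
  apply DifferentiableOn.fun_sum
  intro σ _
  apply DifferentiableOn.const_mul
  apply DifferentiableOn.fun_finsetProd
  intro i _
  exact hG.diff j _ _

lemma mi_an (hG : MV G Q) (j : Fin 3) (J : Fin k → Fin r) (L : Fin k → Fin d) :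
    AnalyticOnNhd ℂ (mi G j J L) (V j) :=
  (mi_diff hG j J L).analyticOnNhd (V_open j)

/-- isolated zeros -/
lemma mi_ev (hG : MV G Q) (J : Fin k → Fin r) (L : Fin k → Fin d) {z0 : ℂ} (h0 : 0 < z0.im)
    (h : mi G 0 J L z0 ≠ 0) (j : Fin 3) {z : ℂ} (hz : z ∈ V j) :
    ∀ᶠ s in 𝓝[≠] z, s ∈ V j ∧ mi G j J L s ≠ 0 := by
  have hV : ∀ᶠ s in 𝓝[≠] z, s ∈ V j := nhdsWithin_le_nhds ((V_open j).mem_nhds hz)
  rcases (mi_an hG j J L z hz).eventually_eq_zero_or_eventually_ne_zero with h1 | h1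
  · exfalso
    have := (mi_an hG j J L).eqOn_zero_of_preconnected_of_eventuallyEq_zero (V_preconnected j) hz h1
      (upper_mem j h0)
    rw [mi_upper hG j 0 J L h0] at this
    exact h this
  · exact hV.and h1

/-- proportionality -/
def Pr (G : Fin 3 → ℂ → Matrix (Fin r) (Fin d) ℂ) (J J0 : Fin k → Fin r) (j : Fin 3) (z c : ℂ) :
    Prop := ∀ L : Fin k → Fin d, mi G j J L z = c * mi G j J0 L z

lemma Pr_upper (hG : MV G Q) {J J0 : Fin k → Fin r} {j j' : Fin 3} {z c : ℂ} (hz : 0 < z.im)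
    (h : Pr G J J0 j z c) : Pr G J J0 j' z c := by
  intro L
  rw [mi_upper hG j' j J L hz, mi_upper hG j' j J0 L hz]
  exact h L

lemma Pr_lower (hG : MV G Q) {J J0 : Fin k → Fin r} {j : Fin 3} {z c : ℂ} (hz : z.im < 0)
    (h : Pr G J J0 j z c) : Pr G J J0 (j + 1) z c := by
  intro L
  have h1 : mi G (j + 1) J L z = ((fun f => mi G j J f z) ᵥ* Th Q k j) L :=
    congrFun (mi_lower hG j J hz) L
  have h2 : mi G (j + 1) J0 L z = ((fun f => mi G j J0 f z) ᵥ* Th Q k j) L :=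
    congrFun (mi_lower hG j J0 hz) L
  have h3 : (fun f => mi G j J f z) = c • (fun f => mi G j J0 f z) := by
    funext f
    exact h f
  rw [h1, h2, h3, Matrix.smul_vecMul]
  rfl

lemma Pr_all (hG : MV G Q) {J J0 : Fin k → Fin r} {j j' : Fin 3} {z c : ℂ} (hj : z ∈ V j)
    (hj' : z ∈ V j') (h : Pr G J J0 j z c) : Pr G J J0 j' z c := by
  by_cases e : j = j'
  · exact e ▸ h
  have him : z.im ≠ 0 := by
    intro h0
    rcases hj with h1 | ⟨rfl, h1⟩ | ⟨rfl, h1, h1'⟩ | ⟨rfl, h1⟩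
    · exact h1 h0
    · rcases hj' with h2 | ⟨rfl, h2⟩ | ⟨rfl, h2, h2'⟩ | ⟨rfl, h2⟩
      · exact h2 h0
      · exact e rfl
      · linarith
      · linarith
    · rcases hj' with h2 | ⟨rfl, h2⟩ | ⟨rfl, h2, h2'⟩ | ⟨rfl, h2⟩
      · exact h2 h0
      · linarith
      · exact e rfl
      · linarith
    · rcases hj' with h2 | ⟨rfl, h2⟩ | ⟨rfl, h2, h2'⟩ | ⟨rfl, h2⟩
      · exact h2 h0
      · linarith
      · linarith
      · exact e rfl
  rcases lt_or_gt_of_ne him with h0 | h0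
  · have a1 := Pr_lower hG h0 h
    have a2 := Pr_lower hG h0 a1
    have key : ∀ j j' : Fin 3, ¬ j = j' → j' = j + 1 ∨ j' = j + 1 + 1 := by decide
    have := key j j' e
    rcases this with rfl | rfl
    · exact a1
    · exact a2
  · exact Pr_upper hG h0 h

open Classical in
/-- the ratio -/
noncomputable def R0 (G : Fin 3 → ℂ → Matrix (Fin r) (Fin d) ℂ) (J J0 : Fin k → Fin r) (z : ℂ) : ℂ :=
  if h : ∃ c : ℂ, ∃ j, z ∈ V j ∧ Pr G J J0 j z c then h.choose else 0

lemma R0_spec (hG : MV G Q) (J J0 : Fin k → Fin r)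
    (hrel : ∀ j, ∀ z ∈ V j, ∀ L L' : Fin k → Fin d,
      mi G j J L z * mi G j J0 L' z = mi G j J L' z * mi G j J0 L z)
    {j : Fin 3} {z : ℂ} (hz : z ∈ V j) {L : Fin k → Fin d} (hL : mi G j J0 L z ≠ 0) :
    Pr G J J0 j z (R0 G J J0 z) := by
  have hex : ∃ c : ℂ, ∃ j, z ∈ V j ∧ Pr G J J0 j z c := by
    refine ⟨mi G j J L z / mi G j J0 L z, j, hz, fun L' => ?_⟩
    have := hrel j z hz L L'
    field_simp
    linear_combination -this
  unfold R0
  rw [dif_pos hex]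
  obtain ⟨j', hj', hp⟩ := hex.choose_spec
  exact Pr_all hG hj' hz hp

/-- the inverse chart -/
noncomputable def czi (x : Fin 3) (z : ℂ) : ℂ := if x = 0 then z else if x = 1 then z - 1 else -z⁻¹

lemma czi_cz (x : Fin 3) (ζ : ℂ) : czi x (cz x ζ) = ζ := by
  fin_cases x <;> simp [czi, cz, inv_neg]

lemma cz_czi (x : Fin 3) (z : ℂ) : cz x (czi x z) = z := by
  fin_cases x <;> simp [czi, cz, inv_neg]

lemma cz_ne (x : Fin 3) {ζ : ℂ} (h : ζ ≠ 0) : x = 2 → cz x ζ ≠ 0 := by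
  rintro rfl
  rw [cz_two]
  exact neg_ne_zero.2 (inv_ne_zero h)

lemma czi_cont (x : Fin 3) {z : ℂ} (h : x = 2 → z ≠ 0) : ContinuousAt (czi x) z := by
  by_cases h0 : x = 0
  · subst h0
    have : czi 0 = fun z => z := by funext s; simp [czi]
    rw [this]; exact continuousAt_id
  by_cases h1 : x = 1
  · subst h1
    have : czi 1 = fun z => z - 1 := by funext s; simp [czi]
    rw [this]; fun_prop
  · have key : ∀ x : Fin 3, ¬ x = 0 → ¬ x = 1 → x = 2 := by decide
    have h2 : x = 2 := key x h0 h1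
    subst h2
    have : czi 2 = fun z => -z⁻¹ := by funext s; simp [czi]
    rw [this]
    exact (continuousAt_inv₀ (h rfl)).neg

/-- growth of the minors -/
lemma growth (γ : Fin 3 → Matrix (Fin r) (Fin r) ℂ) (w : Fin 3 → Fin r → ℝ)
    (hγ : GU γ) (hR : RowBd γ w G) (x : Fin 3) :
    ∃ (C ρ : ℝ) (n : ℕ), 0 < ρ ∧ ρ ≤ 1 / 2 ∧ ∀ ζ : ℂ, ‖ζ‖ < ρ → ∀ (J : Fin k → Fin r)
      (L : Fin k → Fin d), (ζ ∈ Sa → ‖mi G x J L (cz x ζ)‖ * ‖ζ‖ ^ n ≤ C) ∧
      (ζ ∈ Sb → ‖mi G (x + 1) J L (cz x ζ)‖ * ‖ζ‖ ^ n ≤ C) := by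
  obtain ⟨C, ρ, hρ, hρ1, hb⟩ := hR x
  obtain ⟨N, hN⟩ : ∃ N : ℕ, ∀ a, -(N : ℝ) ≤ w x a := by
    obtain ⟨N, hN⟩ := exists_nat_ge (∑ a, |w x a|)
    refine ⟨N, fun a => ?_⟩
    have h1 : |w x a| ≤ ∑ a, |w x a| :=
      Finset.single_le_sum (f := fun a => |w x a|) (fun i _ => abs_nonneg _) (Finset.mem_univ a)
    have := neg_abs_le (w x a)
    linarith
  set K : ℝ := ∑ a, ∑ c, ‖(γ x)⁻¹ a c‖ with hK
  have hK0 : 0 ≤ K := Finset.sum_nonneg fun _ _ => Finset.sum_nonneg fun _ _ => norm_nonneg _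
  have hinv : (γ x)⁻¹ * γ x = 1 := nonsing_inv_mul _ (hγ x)
  -- entries
  have key : ∀ (ζ : ℂ) (M : Matrix (Fin r) (Fin d) ℂ), ζ ≠ 0 → ‖ζ‖ < 1 →
      (∀ a b, ‖(γ x * M) a b‖ ≤ C * ‖ζ‖ ^ (w x a)) → ∀ a b, ‖M a b‖ ≤ (K * |C|) / ‖ζ‖ ^ N := by
    intro ζ M h0 h1 hM a b
    have hz0 : 0 < ‖ζ‖ := norm_pos_iff.2 h0
    have e1 : M = (γ x)⁻¹ * (γ x * M) := by rw [← Matrix.mul_assoc, hinv, Matrix.one_mul]
    have hent : ∀ c, ‖(γ x * M) c b‖ ≤ |C| / ‖ζ‖ ^ N := by
      intro c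
      refine (hM c b).trans ?_
      have h2 : ‖ζ‖ ^ (w x c) ≤ ‖ζ‖ ^ (-(N : ℝ)) :=
        Real.rpow_le_rpow_of_exponent_ge hz0 h1.le (hN c)
      rw [Real.rpow_neg hz0.le, Real.rpow_natCast] at h2
      have h3 : 0 ≤ ‖ζ‖ ^ (w x c) := Real.rpow_nonneg hz0.le _
      calc C * ‖ζ‖ ^ (w x c) ≤ |C| * ‖ζ‖ ^ (w x c) := by
            apply mul_le_mul_of_nonneg_right (le_abs_self C) h3
        _ ≤ |C| * (‖ζ‖ ^ N)⁻¹ := by gcongr
        _ = |C| / ‖ζ‖ ^ N := by rw [div_eq_mul_inv]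
    calc ‖M a b‖ = ‖((γ x)⁻¹ * (γ x * M)) a b‖ := by rw [← e1]
      _ ≤ ∑ c, ‖(γ x)⁻¹ a c‖ * ‖(γ x * M) c b‖ := by
          rw [Matrix.mul_apply]
          refine (norm_sum_le _ _).trans (le_of_eq ?_)
          simp only [norm_mul]
      _ ≤ ∑ c, ‖(γ x)⁻¹ a c‖ * (|C| / ‖ζ‖ ^ N) := by
          gcongr with c _
          exact hent c
      _ = (∑ c, ‖(γ x)⁻¹ a c‖) * (|C| / ‖ζ‖ ^ N) := by rw [Finset.sum_mul]
      _ ≤ K * (|C| / ‖ζ‖ ^ N) := by
          gcongr
          exact Finset.single_le_sum (f := fun a => ∑ c, ‖(γ x)⁻¹ a c‖)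
            (fun i _ => Finset.sum_nonneg fun _ _ => norm_nonneg _) (Finset.mem_univ a)
      _ = (K * |C|) / ‖ζ‖ ^ N := by ring
  -- minors
  have key2 : ∀ (ζ : ℂ) (M : Matrix (Fin r) (Fin d) ℂ), ζ ≠ 0 → ‖ζ‖ < 1 →
      (∀ a b, ‖(γ x * M) a b‖ ≤ C * ‖ζ‖ ^ (w x a)) → ∀ (J : Fin k → Fin r) (L : Fin k → Fin d),
      ‖(M.submatrix J L).det‖ * ‖ζ‖ ^ (N * k) ≤ (k.factorial : ℝ) * (K * |C|) ^ k := by
    intro ζ M h0 h1 hM J L
    have hz0 : 0 < ‖ζ‖ := norm_pos_iff.2 h0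
    have hent := key ζ M h0 h1 hM
    have hdet : ‖(M.submatrix J L).det‖ ≤ (k.factorial : ℝ) * ((K * |C|) / ‖ζ‖ ^ N) ^ k := by
      have h5 : ‖(M.submatrix J L).det‖ ≤ Nat.factorial (Fintype.card (Fin k)) •
          ((K * |C|) / ‖ζ‖ ^ N) ^ (Fintype.card (Fin k)) :=
        Matrix.det_le (A := M.submatrix J L) (abv := NormedField.toAbsoluteValue ℂ)
          (x := (K * |C|) / ‖ζ‖ ^ N) (fun i j => hent (J i) (L j))
      simpa using h5
    calc ‖(M.submatrix J L).det‖ * ‖ζ‖ ^ (N * k)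
        ≤ ((k.factorial : ℝ) * ((K * |C|) / ‖ζ‖ ^ N) ^ k) * ‖ζ‖ ^ (N * k) := by gcongr
      _ = (k.factorial : ℝ) * (K * |C|) ^ k := by
          rw [div_pow, ← pow_mul]
          field_simp
  refine ⟨(k.factorial : ℝ) * (K * |C|) ^ k, ρ, N * k, hρ, hρ1, fun ζ hζ J L => ⟨fun h => ?_, fun h => ?_⟩⟩
  · exact key2 ζ _ (Sa_ne h) (by linarith) ((hb ζ hζ).1 h) J L
  · exact key2 ζ _ (Sb_ne h) (by linarith) ((hb ζ hζ).2 h) J L

/-- the normalised ratio -/
noncomputable def RR0 (G : Fin 3 → ℂ → Matrix (Fin r) (Fin d) ℂ) (J J0 : Fin k → Fin r) (z : ℂ) : ℂ :=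
  limUnder (𝓝[≠] z) (R0 G J J0)

/-- behaviour at the punctures, one domain -/
lemma punct_dom (hG : MV G Q) (J J0 : Fin k → Fin r)
    (hrel : ∀ j, ∀ z ∈ V j, ∀ L L' : Fin k → Fin d,
      mi G j J L z * mi G j J0 L' z = mi G j J L' z * mi G j J0 L z)
    {z0 : ℂ} {L0 : Fin k → Fin d} (h0 : 0 < z0.im) (hz0 : mi G 0 J0 L0 z0 ≠ 0)
    (x j : Fin 3) (U : Set ℂ) (hU : IsOpen U) (φ ψ : ℂ → ℂ) (ζ1 : ℂ) (hζ1 : ζ1 ∈ U) (hne : ζ1 ≠ 0)
    (hV : ∀ ζ ∈ U, cz x ζ ∈ V j) (hφ : ∀ ζ ∈ U, φ ζ ≠ 0)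
    (hφc : ContinuousAt φ ζ1) (hψc : ContinuousAt ψ ζ1)
    (hfg : ∀ ζ ∈ U, φ ζ * mi G j J L0 (cz x ζ) = ψ ζ * mi G j J0 L0 (cz x ζ)) :
    RR0 G J J0 (cz x ζ1) = ψ ζ1 / φ ζ1 := by
  have hc : ContinuousAt (czi x) (cz x ζ1) := czi_cont x (fun e => cz_ne x hne e)
  have e1 : czi x (cz x ζ1) = ζ1 := czi_cz x ζ1
  have hU' : ∀ᶠ z in 𝓝 (cz x ζ1), czi x z ∈ U := by
    apply hc.eventually_mem
    rw [e1]; exact hU.mem_nhds hζ1
  have hev := mi_ev hG J0 L0 h0 hz0 j (hV ζ1 hζ1)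
  have heq : (fun z => ψ (czi x z) / φ (czi x z)) =ᶠ[𝓝[≠] (cz x ζ1)] R0 G J J0 := by
    filter_upwards [hev, nhdsWithin_le_nhds hU'] with z hz hzU
    have h1 := hfg _ hzU
    rw [cz_czi] at h1
    have h2 := R0_spec hG J J0 hrel hz.1 hz.2 L0
    have h3 := hφ _ hzU
    have h4 := hz.2
    show ψ (czi x z) / φ (czi x z) = R0 G J J0 z
    rw [div_eq_iff h3]
    rw [h2] at h1
    apply mul_right_cancel₀ h4
    linear_combination -h1
  have hlim : Tendsto (fun z => ψ (czi x z) / φ (czi x z)) (𝓝[≠] (cz x ζ1)) (𝓝 (ψ ζ1 / φ ζ1)) := by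
    have c1 : ContinuousAt (fun z => ψ (czi x z)) (cz x ζ1) :=
      ContinuousAt.comp (g := ψ) (by rw [e1]; exact hψc) hc
    have c2 : ContinuousAt (fun z => φ (czi x z)) (cz x ζ1) :=
      ContinuousAt.comp (g := φ) (by rw [e1]; exact hφc) hc
    have c3 := c1.div c2 (by rw [e1]; exact hφ _ hζ1)
    have c4 : Tendsto (fun z => ψ (czi x z) / φ (czi x z)) (𝓝 (cz x ζ1))
        (𝓝 (ψ (czi x (cz x ζ1)) / φ (czi x (cz x ζ1)))) := c3
    rw [e1] at c4
    exact c4.mono_left nhdsWithin_le_nhds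
  exact (hlim.congr' heq).limUnder_eq

/-- generic points -/
lemma RR0_generic (hG : MV G Q) (J J0 : Fin k → Fin r)
    (hrel : ∀ j, ∀ z ∈ V j, ∀ L L' : Fin k → Fin d,
      mi G j J L z * mi G j J0 L' z = mi G j J L' z * mi G j J0 L z)
    {L0 : Fin k → Fin d} {j : Fin 3} {z : ℂ} (hz : z ∈ V j) (hL : mi G j J0 L0 z ≠ 0) :
    RR0 G J J0 z = mi G j J L0 z / mi G j J0 L0 z := by
  have hcJ : ContinuousAt (mi G j J L0) z := (mi_an hG j J L0 z hz).continuousAt
  have hc0 : ContinuousAt (mi G j J0 L0) z := (mi_an hG j J0 L0 z hz).continuousAt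
  have hne : ∀ᶠ s in 𝓝 z, mi G j J0 L0 s ≠ 0 := hc0.eventually_ne hL
  have heq : (fun s => mi G j J L0 s / mi G j J0 L0 s) =ᶠ[𝓝[≠] z] R0 G J J0 := by
    filter_upwards [nhdsWithin_le_nhds hne, nhdsWithin_le_nhds ((V_open j).mem_nhds hz)] with s hs hsV
    have h2 := R0_spec hG J J0 hrel hsV hs L0
    show mi G j J L0 s / mi G j J0 L0 s = R0 G J J0 s
    rw [h2]
    field_simp
  have hlim : Tendsto (fun s => mi G j J L0 s / mi G j J0 L0 s) (𝓝[≠] z)
      (𝓝 (mi G j J L0 z / mi G j J0 L0 z)) :=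
    (hcJ.div hc0 hL).tendsto.mono_left nhdsWithin_le_nhds
  exact (hlim.congr' heq).limUnder_eq

lemma RR0_ev (hG : MV G Q) (J J0 : Fin k → Fin r)
    (hrel : ∀ j, ∀ z ∈ V j, ∀ L L' : Fin k → Fin d,
      mi G j J L z * mi G j J0 L' z = mi G j J L' z * mi G j J0 L z)
    {L0 : Fin k → Fin d} {j : Fin 3} {z : ℂ} (hz : z ∈ V j) (hL : mi G j J0 L0 z ≠ 0) :
    RR0 G J J0 =ᶠ[𝓝 z] fun s => mi G j J L0 s / mi G j J0 L0 s := by
  have hc0 : ContinuousAt (mi G j J0 L0) z := (mi_an hG j J0 L0 z hz).continuousAt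
  have hne : ∀ᶠ s in 𝓝 z, mi G j J0 L0 s ≠ 0 := hc0.eventually_ne hL
  filter_upwards [hne, (V_open j).mem_nhds hz] with s hs hsV
  exact RR0_generic hG J J0 hrel hsV hs

end

end Pool.Agent.MSU.ItemDRatMin

namespace Pool.Agent.MSU

open ItemDRatMin

theorem prf_D_RatMin (hLM : D_LM) (hRAT : D_RAT) (hRel : D_Rel) : D_RatMin := by
  intro r d k γ w G Q hγ hG hR hrank J0 hJ0 J
  obtain ⟨z0, L0, h0, hz0⟩ := hJ0
  have hz0' : mi G 0 J0 L0 z0 ≠ 0 := hz0
  have hrel : ∀ (J J0 : Fin k → Fin r) (j : Fin 3), ∀ z ∈ V j, ∀ L L' : Fin k → Fin d,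
      mi G j J L z * mi G j J0 L' z = mi G j J L' z * mi G j J0 L z := by
    intro J J0 j z hz L L'
    exact (hRel r d k (G j z) (hrank j z hz)).1 J J0 L L'
  -- meromorphic at the punctures
  have hp : ∀ x : Fin 3, MeromorphicAt (fun ζ => RR0 G J J0 (cz x ζ)) 0 := by
    intro x
    obtain ⟨C, ρ, n, hρ, hρ1, hgr⟩ := growth (k := k) γ w hγ hR x
    have hdiff : ∀ (j : Fin 3) (U : Set ℂ), (∀ ζ ∈ U, ‖ζ‖ < ρ → ζ ≠ 0 ∧ cz x ζ ∈ V j) →
        ∀ (J : Fin k → Fin r) (L : Fin k → Fin d),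
        DifferentiableOn ℂ (fun ζ => mi G j J L (cz x ζ)) (U ∩ ball 0 ρ) := by
      intro j U hU J L ζ hζ
      have hn : ‖ζ‖ < ρ := by simpa using hζ.2
      obtain ⟨hne, hV⟩ := hU ζ hζ.1 hn
      have h1 : DifferentiableAt ℂ (mi G j J L) (cz x ζ) :=
        (mi_an hG j J L _ hV).differentiableAt
      exact (h1.comp ζ (cz_hasDerivAt x hne).differentiableAt).differentiableWithinAt
    have hSa : ∀ ζ ∈ Sa, ‖ζ‖ < ρ → ζ ≠ 0 ∧ cz x ζ ∈ V x := fun ζ h hn =>
      ⟨Sa_ne h, cz_mem_a x (by linarith) h⟩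
    have hSb : ∀ ζ ∈ Sb, ‖ζ‖ < ρ → ζ ≠ 0 ∧ cz x ζ ∈ V (x + 1) := fun ζ h hn =>
      ⟨Sb_ne h, cz_mem_b x (by linarith) h⟩
    obtain ⟨ρ', hρ', hρρ, φ, ψ, hφd, hψd, hφ0, hprop⟩ := hLM (Fin k → Fin d) ρ C n
      (fun ζ L => mi G x J0 L (cz x ζ)) (fun ζ L => mi G (x + 1) J0 L (cz x ζ))
      (fun ζ L => mi G x J L (cz x ζ)) (fun ζ L => mi G (x + 1) J L (cz x ζ)) (Th Q k x) hρ
      (fun L => hdiff x Sa hSa J0 L) (fun L => hdiff (x + 1) Sb hSb J0 L)
      (fun L => hdiff x Sa hSa J L) (fun L => hdiff (x + 1) Sb hSb J L)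
      (by
        intro z _ hz
        constructor
        · funext L; exact mi_upper hG _ _ _ _ (cz_im_pos x hz)
        · funext L; exact mi_upper hG _ _ _ _ (cz_im_pos x hz))
      (by
        intro z _ hz
        exact ⟨mi_lower hG x J0 (cz_im_neg x hz), mi_lower hG x J (cz_im_neg x hz)⟩)
      (by
        intro z hz L
        exact ⟨fun h => ⟨(hgr z hz J0 L).1 h, (hgr z hz J L).1 h⟩,
          fun h => ⟨(hgr z hz J0 L).2 h, (hgr z hz J L).2 h⟩⟩)
      (by
        intro z hz hS L L'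
        exact hrel J J0 x _ (hSa z hS hz).2 L L')
      (by
        -- a point of the upper half disc
        have hζ1 : ∃ ζ1 : ℂ, ‖ζ1‖ < ρ ∧ 0 < ζ1.im := by
          refine ⟨(ρ / 2 : ℝ) * Complex.I, ?_, ?_⟩
          · rw [norm_mul, Complex.norm_I, mul_one, Complex.norm_real, Real.norm_of_nonneg (by positivity)]
            linarith
          · simp; linarith
        obtain ⟨ζ1, hn1, him1⟩ := hζ1
        have hne1 : ζ1 ≠ 0 := by rintro rfl; simp at him1
        have hev := mi_ev hG J0 L0 h0 hz0' x (upper_mem x (cz_im_pos x him1))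
        have htend : Tendsto (cz x) (𝓝[≠] ζ1) (𝓝[≠] (cz x ζ1)) := by
          apply tendsto_nhdsWithin_of_tendsto_nhds_of_eventually_within
          · exact (cz_hasDerivAt x hne1).continuousAt.tendsto.mono_left nhdsWithin_le_nhds
          · filter_upwards [self_mem_nhdsWithin] with s hs
            intro hcon
            apply hs
            have : czi x (cz x s) = czi x (cz x ζ1) := by rw [show cz x s = cz x ζ1 from hcon]
            rw [czi_cz, czi_cz] at this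
            exact this
        have h1 := htend.eventually hev
        have h2 : ∀ᶠ s in 𝓝[≠] ζ1, ‖s‖ < ρ ∧ 0 < s.im := by
          apply nhdsWithin_le_nhds
          have o1 : IsOpen {s : ℂ | ‖s‖ < ρ ∧ 0 < s.im} :=
            (isOpen_lt continuous_norm continuous_const).inter
              (isOpen_lt continuous_const Complex.continuous_im)
          exact o1.mem_nhds ⟨hn1, him1⟩
        obtain ⟨s, hs1, hs2⟩ := (h1.and h2).exists
        refine ⟨s, hs2.1, hs2.2, fun hcon => hs1.2 ?_⟩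
        exact congrFun hcon L0)
    have hmer : MeromorphicAt (fun ζ => ψ ζ / φ ζ) 0 := by
      have hb : ball (0 : ℂ) ρ' ∈ 𝓝 (0 : ℂ) := ball_mem_nhds _ hρ'
      exact (hψd.analyticAt hb).meromorphicAt.div (hφd.analyticAt hb).meromorphicAt
    refine hmer.congr ?_
    rw [EventuallyEq, eventually_nhdsWithin_iff]
    filter_upwards [ball_mem_nhds (0 : ℂ) hρ'] with ζ1 hζ1 hne
    have hn : ‖ζ1‖ < ρ' := by simpa using hζ1
    have hne' : ζ1 ≠ 0 := hne
    have hφc : ContinuousAt φ ζ1 := (hφd.continuousOn.continuousAt (isOpen_ball.mem_nhds hζ1))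
    have hψc : ContinuousAt ψ ζ1 := (hψd.continuousOn.continuousAt (isOpen_ball.mem_nhds hζ1))
    have hcase : ζ1 ∈ Sa ∨ ζ1 ∈ Sb := by
      by_cases him : ζ1.im = 0
      · have hre : ζ1.re ≠ 0 := by
          intro hre; apply hne'; apply Complex.ext <;> simp [him, hre]
        rcases lt_or_gt_of_ne hre with h | h
        · exact Or.inl (Or.inr h)
        · exact Or.inr (Or.inr h)
      · exact Or.inl (Or.inl him)
    symm
    rcases hcase with hS | hS
    · refine punct_dom hG J J0 (hrel J J0) h0 hz0' x x (Sa ∩ ball 0 ρ') (Sa_open.inter isOpen_ball)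
        φ ψ ζ1 ⟨hS, hζ1⟩ hne' ?_ ?_ hφc hψc ?_
      · intro ζ hζ
        have hn : ‖ζ‖ < ρ' := by simpa using hζ.2
        exact (hSa ζ hζ.1 (by linarith)).2
      · intro ζ hζ
        have hn : ‖ζ‖ < ρ' := by simpa using hζ.2
        exact hφ0 ζ (Sa_ne hζ.1) hn
      · intro ζ hζ
        have hn : ‖ζ‖ < ρ' := by simpa using hζ.2
        exact congrFun ((hprop ζ hn).1 hζ.1) L0
    · refine punct_dom hG J J0 (hrel J J0) h0 hz0' x (x + 1) (Sb ∩ ball 0 ρ') (Sb_open.inter isOpen_ball)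
        φ ψ ζ1 ⟨hS, hζ1⟩ hne' ?_ ?_ hφc hψc ?_
      · intro ζ hζ
        have hn : ‖ζ‖ < ρ' := by simpa using hζ.2
        exact (hSb ζ hζ.1 (by linarith)).2
      · intro ζ hζ
        have hn : ‖ζ‖ < ρ' := by simpa using hζ.2
        exact hφ0 ζ (Sb_ne hζ.1) hn
      · intro ζ hζ
        have hn : ‖ζ‖ < ρ' := by simpa using hζ.2
        exact congrFun ((hprop ζ hn).2 hζ.1) L0
  -- meromorphic everywhere
  have hmer : ∀ z, MeromorphicAt (RR0 G J J0) z := by
    intro z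
    by_cases hz0 : z = 0
    · subst hz0
      have := hp 0
      simpa [cz] using this
    by_cases hz1 : z = 1
    · subst hz1
      have h1 := hp 1
      have h2 : MeromorphicAt ((fun ζ => RR0 G J J0 (cz 1 ζ)) ∘ (fun s : ℂ => s - 1)) 1 := by
        apply MeromorphicAt.comp_analyticAt
        · simpa using h1
        · fun_prop
      refine h2.congr (Eventually.of_forall fun s => ?_)
      simp [cz]
    · obtain ⟨j, hj⟩ := V_cover hz0 hz1
      have hev := mi_ev hG J0 L0 h0 hz0' j hj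
      have hq : MeromorphicAt (fun s => mi G j J L0 s / mi G j J0 L0 s) z :=
        (mi_an hG j J L0 z hj).meromorphicAt.div (mi_an hG j J0 L0 z hj).meromorphicAt
      refine hq.congr ?_
      filter_upwards [hev] with s hs
      exact (RR0_generic hG J J0 (hrel J J0) hs.1 hs.2).symm
  have hinf : MeromorphicAt (fun ζ => RR0 G J J0 (-ζ⁻¹)) 0 := by
    have := hp 2
    simpa [cz] using this
  obtain ⟨D, N, hD, hDN⟩ := hRAT _ hmer hinf
  refine ⟨D, N, hD, fun j z hz L => ?_⟩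
  -- generic points first
  have hgen : ∀ s ∈ V j, mi G j J0 L0 s ≠ 0 →
      D.eval s * mi G j J L s = N.eval s * mi G j J0 L s := by
    intro s hs hne
    have hev := RR0_ev hG J J0 (hrel J J0) hs hne
    have han : AnalyticAt ℂ (RR0 G J J0) s :=
      ((mi_an hG j J L0 s hs).fun_div (mi_an hG j J0 L0 s hs) hne).congr hev.symm
    have h1 := hDN s han
    have h2 := RR0_generic hG J J0 (hrel J J0) hs hne
    have h3 : mi G j J L s = RR0 G J J0 s * mi G j J0 L s := by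
      rw [h2]
      have := hrel J J0 j s hs L0 L
      field_simp
      linear_combination -this
    rw [h3, ← h1]
    ring
  have hev := mi_ev hG J0 L0 h0 hz0' j hz
  have hc1 : ContinuousAt (fun s => D.eval s * mi G j J L s) z :=
    D.continuous.continuousAt.mul (mi_an hG j J L z hz).continuousAt
  have hc2 : ContinuousAt (fun s => N.eval s * mi G j J0 L s) z :=
    N.continuous.continuousAt.mul (mi_an hG j J0 L z hz).continuousAt
  have t1 : Tendsto (fun s => D.eval s * mi G j J L s) (𝓝[≠] z) (𝓝 (D.eval z * mi G j J L z)) :=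
    hc1.tendsto.mono_left nhdsWithin_le_nhds
  have t2 : Tendsto (fun s => N.eval s * mi G j J0 L s) (𝓝[≠] z) (𝓝 (N.eval z * mi G j J0 L z)) :=
    hc2.tendsto.mono_left nhdsWithin_le_nhds
  have heq : (fun s => D.eval s * mi G j J L s) =ᶠ[𝓝[≠] z] fun s => N.eval s * mi G j J0 L s := by
    filter_upwards [hev] with s hs
    exact hgen s hs.1 hs.2
  exact tendsto_nhds_unique (t1.congr' heq) t2

end Pool.Agent.MSU

end

section

/-! Relations between the minors of size `k` of a matrix of rank at most `k`. -/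

open Matrix Polynomial

namespace Pool.Agent.MSU.ItemDRel

/-- a matrix of rank at most `k` factors through `k` dimensions -/
lemma factor {r d k : ℕ} (M : Matrix (Fin r) (Fin d) ℂ) (hM : M.rank ≤ k) :
    ∃ (X : Matrix (Fin r) (Fin k) ℂ) (Y : Matrix (Fin k) (Fin d) ℂ), M = X * Y := by
  have h1 : Module.finrank ℂ (LinearMap.range M.mulVecLin) ≤ Module.finrank ℂ (Fin k → ℂ) := by
    rw [Module.finrank_fin_fun]
    exact hM
  obtain ⟨f, hf⟩ := (finrank_le_iff_exists_linearMap (R := ℂ)).mp h1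
  obtain ⟨g, hg⟩ := f.exists_leftInverse_of_injective (LinearMap.ker_eq_bot.mpr hf)
  refine ⟨LinearMap.toMatrix' ((LinearMap.range M.mulVecLin).subtype ∘ₗ g),
    LinearMap.toMatrix' (f ∘ₗ M.mulVecLin.rangeRestrict), ?_⟩
  rw [← LinearMap.toMatrix'_comp]
  apply Matrix.toLin'.injective
  rw [Matrix.toLin'_toMatrix']
  apply LinearMap.ext
  intro v
  have h2 : g (f (M.mulVecLin.rangeRestrict v)) = M.mulVecLin.rangeRestrict v :=
    LinearMap.congr_fun hg _
  simp only [LinearMap.comp_apply]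
  rw [h2]
  rfl

lemma sub_mul {r d k : ℕ} (X : Matrix (Fin r) (Fin k) ℂ) (Y : Matrix (Fin k) (Fin d) ℂ)
    (J : Fin k → Fin r) (L : Fin k → Fin d) :
    ((X * Y).submatrix J L).det = (X.submatrix J id).det * (Y.submatrix id L).det := by
  rw [← det_mul]
  rfl

end Pool.Agent.MSU.ItemDRel

namespace Pool.Agent.MSU

open ItemDRel in
theorem prf_D_Rel : D_Rel := by
  intro r d k M hM
  obtain ⟨X, Y, rfl⟩ := factor M hM
  refine ⟨?_, ?_⟩
  · intro J J' L L'
    simp only [sub_mul]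
    ring
  · intro J L i l
    simp only [sub_mul]
    have h1 : ∀ t : Fin k, (X.submatrix J id).det * X i t
        = ∑ a, (X.submatrix (Function.update J a i) id).det * X (J a) t := by
      intro t
      have h2 := congrFun (congrFun (Matrix.mul_assoc X (adjugate (X.submatrix J id))
        (X.submatrix J id)) i) t
      rw [adjugate_mul] at h2
      rw [Matrix.mul_apply] at h2
      simp only [Pool.Agent.Work.MP_5e5ff1_ag.T.mul_adjugate_minor] at h2
      rw [Matrix.mul_smul, Matrix.mul_one] at h2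
      simp only [Matrix.smul_apply, smul_eq_mul] at h2
      exact h2.symm
    have h3 : (X * Y) i l = ∑ t, X i t * Y t l := Matrix.mul_apply
    have h4 : ∀ a, (X * Y) (J a) l = ∑ t, X (J a) t * Y t l := fun a => Matrix.mul_apply
    rw [h3]
    simp only [h4]
    calc (X.submatrix J id).det * (Y.submatrix id L).det * ∑ t, X i t * Y t l
        = (Y.submatrix id L).det * ∑ t, ((X.submatrix J id).det * X i t) * Y t l := by
          rw [Finset.mul_sum, Finset.mul_sum]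
          apply Finset.sum_congr rfl
          intro t _
          ring
      _ = (Y.submatrix id L).det * ∑ t, (∑ a, (X.submatrix (Function.update J a i) id).det
            * X (J a) t) * Y t l := by
          simp only [h1]
      _ = (Y.submatrix id L).det * ∑ a, ∑ t, (X.submatrix (Function.update J a i) id).det
            * X (J a) t * Y t l := by
          congr 1
          rw [Finset.sum_comm]
          apply Finset.sum_congr rfl
          intro t _
          rw [Finset.sum_mul]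
      _ = ∑ a, (X.submatrix (Function.update J a i) id).det * (Y.submatrix id L).det
            * ∑ t, X (J a) t * Y t l := by
          rw [Finset.mul_sum]
          apply Finset.sum_congr rfl
          intro a _
          rw [Finset.mul_sum, Finset.mul_sum]
          apply Finset.sum_congr rfl
          intro t _
          ring

end Pool.Agent.MSU

end

section

/-! Local solvability of an equation with parameter (implicit function theorem). -/

open Filter Topology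

namespace Pool.Agent.MSU

theorem prf_E_IFT : E_IFT := by
  intro E E' _ _ _ _ _ _ hdim Φ hΦ t0 x0 h0 hker ε hε
  have hc : ContDiffAt ℝ 1 Φ (t0, x0) := hΦ.contDiffAt
  have hinj : Function.Injective
      ((fderiv ℝ Φ (t0, x0) ∘L .inr ℝ ℝ E : E →L[ℝ] E') : E →ₗ[ℝ] E') := by
    rw [injective_iff_map_eq_zero]
    intro v hv
    exact hker v (by simpa using hv)
  have hinv : (fderiv ℝ Φ (t0, x0) ∘L .inr ℝ ℝ E).IsInvertible := by
    refine ⟨(LinearEquiv.ofInjectiveOfFinrankEq _ hinj hdim).toContinuousLinearEquiv, ?_⟩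
    ext v
    exact LinearMap.congr_fun (LinearEquiv.coe_ofInjectiveOfFinrankEq _ hinj hdim) v
  have h1 : ContinuousAt (hc.implicitFunction one_ne_zero hinv) t0 :=
    (hc.hasStrictFDerivAt_implicitFunction one_ne_zero hinv).continuousAt
  have h2 : hc.implicitFunction one_ne_zero hinv t0 = x0 :=
    hc.implicitFunction_apply_self one_ne_zero hinv
  have h3 : ∀ᶠ t in 𝓝 t0, ‖hc.implicitFunction one_ne_zero hinv t - x0‖ < ε := by
    have := h1.eventually (Metric.ball_mem_nhds _ hε)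
    filter_upwards [this] with t ht
    rw [h2] at ht
    simpa [dist_eq_norm] using ht
  have h4 : ∀ᶠ t in 𝓝 t0, Φ (t, hc.implicitFunction one_ne_zero hinv t) = Φ (t0, x0) :=
    hc.eventually_apply_implicitFunction one_ne_zero hinv
  obtain ⟨δ, hδ, hb⟩ := Metric.eventually_nhds_iff.mp (h3.and h4)
  refine ⟨δ, hδ, fun t ht => ?_⟩
  have h5 := hb (y := t) (by simpa [Real.dist_eq] using ht)
  exact ⟨_, h5.1, h5.2.trans h0⟩

end Pool.Agent.MSU

end

section

/-! Item E_Ker0: the x-derivative of FF is injective at solutions with t = 0. -/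

open Matrix
open scoped ComplexConjugate ComplexOrder

namespace Pool.Agent.MSU

namespace ItemEKer0

variable {r : ℕ}

theorem lin_coef {F : Type} [NormedAddCommGroup F] [NormedSpace ℝ F] (g : ℝ → F) (c0 c1 c2 : F)
    (hg : ∀ s : ℝ, g s = c0 + s • c1 + (s ^ 2) • c2) (h : HasDerivAt g 0 0) : c1 = 0 := by
  have h1 : HasDerivAt (fun s : ℝ => c0 + s • c1 + (s ^ 2) • c2)
      (0 + (1 : ℝ) • c1 + ((2 : ℕ) * (0 : ℝ) ^ (2 - 1)) • c2) 0 :=
    ((hasDerivAt_const (0 : ℝ) c0).add ((hasDerivAt_id (0 : ℝ)).smul_const c1)).add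
      ((hasDerivAt_pow 2 (0 : ℝ)).smul_const c2)
  have h2 : g = fun s : ℝ => c0 + s • c1 + (s ^ 2) • c2 := funext hg
  rw [h2] at h
  have h3 := h.unique h1
  simpa using h3.symm

theorem der_fst {A B : Type} [NormedAddCommGroup A] [NormedSpace ℝ A] [NormedAddCommGroup B]
    [NormedSpace ℝ B] (g : ℝ → A × B) (h : HasDerivAt g 0 0) :
    HasDerivAt (fun s => (g s).1) 0 0 :=
  (ContinuousLinearMap.fst ℝ A B).hasFDerivAt.comp_hasDerivAt (0 : ℝ) h

theorem der_snd {A B : Type} [NormedAddCommGroup A] [NormedSpace ℝ A] [NormedAddCommGroup B]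
    [NormedSpace ℝ B] (g : ℝ → A × B) (h : HasDerivAt g 0 0) :
    HasDerivAt (fun s => (g s).2) 0 0 :=
  (ContinuousLinearMap.snd ℝ A B).hasFDerivAt.comp_hasDerivAt (0 : ℝ) h

theorem hm_add (S T : Fin r → Fin r → ℝ) (s : ℝ) : hm (S + s • T) = hm S + (s : ℂ) • hm T := by
  ext a b
  simp only [hm, Matrix.of_apply, Matrix.add_apply, Matrix.smul_apply, Pi.add_apply, Pi.smul_apply,
    smul_eq_mul]
  push_cast
  ring

theorem hm_herm (S : Fin r → Fin r → ℝ) : (hm S).IsHermitian := by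
  ext a b
  simp only [hm, Matrix.conjTranspose_apply, Matrix.of_apply]
  apply Complex.ext
  · simp
    ring
  · simp
    ring

theorem hm_zero (S : Fin r → Fin r → ℝ) (h : hm S = 0) : S = 0 := by
  ext a b
  have h1 := congrFun (congrFun h a) b
  simp only [hm, Matrix.of_apply, Matrix.zero_apply] at h1
  have h2 := congrArg Complex.re h1
  have h3 := congrArg Complex.im h1
  simp at h2 h3
  simp only [Pi.zero_apply]
  linarith

theorem hm_trace (S : Fin r → Fin r → ℝ) : (hm S).trace = ((∑ c, S c c : ℝ) : ℂ) := by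
  simp only [Matrix.trace, Matrix.diag, hm, Matrix.of_apply]
  push_cast
  refine Finset.sum_congr rfl fun c _ => ?_
  ring

theorem code_zero (M : Matrix (Fin r) (Fin r) ℂ) (hM : M.IsHermitian) (h : code M = 0) :
    M = 0 := by
  ext a b
  have h1 := congrFun (congrFun h a) b
  have h2 := congrFun (congrFun h b) a
  simp only [code, Pi.zero_apply] at h1 h2
  have h3 : M b a = conj (M a b) := (hM.apply b a).symm
  rw [h3, Complex.conj_re, Complex.conj_im] at h2
  apply Complex.ext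
  · simp only [Matrix.zero_apply, Complex.zero_re]
    linarith
  · simp only [Matrix.zero_apply, Complex.zero_im]
    linarith

theorem E2_zero (H K Z : Matrix (Fin r) (Fin r) ℂ) : E2 0 H K Z = Zᴴ * H + H * Z + K := by
  simp [E2]

theorem bt_add (x v : XT r) (s : ℝ) (y : Fin 3) :
    bt (x + s • v) y = bt x y + (s : ℂ) • bt v y := by
  ext a b
  simp [bt]

theorem Rs_add (γ B C : Fin 3 → Matrix (Fin r) (Fin r) ℂ) (s : ℂ) (x : Fin 3) :
    Rs γ (fun y => B y + s • C y) x = Rs γ B x + s • Rs γ C x := by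
  simp only [Rs, Matrix.mul_add, Matrix.add_mul, Matrix.mul_smul, Matrix.smul_mul]

theorem star_aa (j : Fin 3) : star (aa j) = -aa j := by
  have h : star (Real.pi * Complex.I : ℂ) = -(Real.pi * Complex.I) := by
    simp
  rw [aa]
  split_ifs
  · exact h
  · rw [star_neg, h]

theorem star_bb (j : Fin 3) : star (bb j) = -bb j := by
  have h : ∀ q : ℝ, star ((q : ℂ) * Complex.I) = -((q : ℂ) * Complex.I) := fun q => by
    simp
  have h1 : (3 * Real.pi / 2 : ℂ) = ((3 * Real.pi / 2 : ℝ) : ℂ) := by push_cast; ring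
  have h2 : (Real.pi / 2 : ℂ) = ((Real.pi / 2 : ℝ) : ℂ) := by push_cast; ring
  rw [bb]
  split_ifs
  · rw [h1, star_neg, h]
  · rw [h2, h]

end ItemEKer0

open ItemEKer0 in
theorem prf_E_Ker0 (hZ0 : S_Z0) (hSm : E_Smooth) (hDec : E_Dec0) (hInj : I_Inj0) : E_Ker0 := by
  intro r γ w x hr hγ hW hs hSt hx v hv
  obtain ⟨hLD, hHerm, htr, hK0⟩ := hDec r γ w x hr hγ hs hx
  have hPos := hx.2
  -- the path
  have hdiff : HasFDerivAt (FF γ w) (fderiv ℝ (FF γ w) ((0 : ℝ), x)) ((0 : ℝ), x) :=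
    ((hSm r γ w).differentiable one_ne_zero _).hasFDerivAt
  have hp : HasDerivAt (fun s : ℝ => (((0 : ℝ), x + s • v) : ℝ × XT r)) ((0 : ℝ), v) 0 := by
    have h1 : HasDerivAt (fun s : ℝ => x + s • v) (0 + (1 : ℝ) • v) 0 :=
      (hasDerivAt_const (0 : ℝ) x).add ((hasDerivAt_id (0 : ℝ)).smul_const v)
    rw [zero_add, one_smul] at h1
    exact (hasDerivAt_const (0 : ℝ) (0 : ℝ)).prodMk h1
  have hg : HasDerivAt (fun s : ℝ => FF γ w ((0 : ℝ), x + s • v)) 0 0 := by
    have h1 := HasFDerivAt.comp_hasDerivAt (x := (0 : ℝ)) (l := FF γ w)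
      (f := fun s : ℝ => (((0 : ℝ), x + s • v) : ℝ × XT r)) (f' := ((0 : ℝ), v))
      (l' := fderiv ℝ (FF γ w) ((0 : ℝ), x)) (by simpa using hdiff) hp
    rw [hv] at h1
    exact h1
  have hg0 := der_fst _ hg
  have hg1 : ∀ a b, HasDerivAt (fun s : ℝ => (FF γ w ((0 : ℝ), x + s • v)).1 a b) 0 0 :=
    fun a b => hasDerivAt_pi.1 (hasDerivAt_pi.1 hg0 a) b
  have hg2 := der_snd _ hg
  have hg2a := der_fst _ hg2
  have hg2b := der_snd _ hg2
  have hg3 : ∀ j a b, HasDerivAt (fun s : ℝ => (FF γ w ((0 : ℝ), x + s • v)).2.1 j a b) 0 0 :=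
    fun j a b => hasDerivAt_pi.1 (hasDerivAt_pi.1 (hasDerivAt_pi.1 hg2a j) a) b
  have hg4 : ∀ y a b, HasDerivAt (fun s : ℝ => (FF γ w ((0 : ℝ), x + s • v)).2.2 y a b) 0 0 :=
    fun j a b => hasDerivAt_pi.1 (hasDerivAt_pi.1 (hasDerivAt_pi.1 hg2b j) a) b
  -- notation
  set H := hm x.2.1 with hH
  set Hd := hm v.2.1 with hHd
  set Kd := hm v.2.2 with hKd
  set β := bt x with hβ
  set βd := bt v with hβd
  set σ : ℝ := ∑ c, v.2.1 c c with hσ
  -- first component
  have e1 : βd 0 + βd 1 + βd 2 = 0 := by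
    ext a b
    refine lin_coef _ ((β 0 + β 1 + β 2) a b) ((βd 0 + βd 1 + βd 2) a b) 0 (fun s => ?_) (hg1 a b)
    change (bt (x + s • v) 0 + bt (x + s • v) 1 + bt (x + s • v) 2) a b = _
    rw [bt_add, bt_add, bt_add]
    simp only [Matrix.add_apply, Matrix.smul_apply, smul_zero, smul_eq_mul, Complex.real_smul]
    ring
  -- second component
  have e2 : ∀ j, (aa j • βd 0 + bb j • βd 1)ᴴ * H + (aa j • β 0 + bb j • β 1)ᴴ * Hd +
      H * (aa j • βd 0 + bb j • βd 1) + Hd * (aa j • β 0 + bb j • β 1) + Kd = 0 := by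
    intro j
    set Z := aa j • β 0 + bb j • β 1 with hZ
    set Zd := aa j • βd 0 + bb j • βd 1 with hZd
    have hHh : H.IsHermitian := hm_herm _
    have hHdh : Hd.IsHermitian := hm_herm _
    have hKdh : Kd.IsHermitian := hm_herm _
    apply code_zero
    · rw [Matrix.IsHermitian]
      simp only [Matrix.conjTranspose_add, Matrix.conjTranspose_mul,
        Matrix.conjTranspose_conjTranspose, hHh.eq, hHdh.eq, hKdh.eq]
      abel
    · ext a b
      refine lin_coef _ (code (Zᴴ * H + H * Z + hm x.2.2) a b) _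
        (code (Zdᴴ * Hd + Hd * Zd) a b) (fun s => ?_) (hg3 j a b)
      change code (E2 0 (hm (x.2.1 + s • v.2.1)) (hm (x.2.2 + s • v.2.2))
        (ZZ j 0 (bt (x + s • v)))) a b = _
      have hZs : ZZ j 0 (bt (x + s • v)) = Z + (s : ℂ) • Zd := by
        rw [hZ0, bt_add, bt_add, hZ, hZd]
        simp only [smul_add, smul_smul]
        rw [mul_comm (aa j) (s : ℂ), mul_comm (bb j) (s : ℂ)]
        abel
      rw [hZs, hm_add, hm_add, ← hH, ← hHd, ← hKd]
      have hE : E2 0 (H + (s : ℂ) • Hd) (hm x.2.2 + (s : ℂ) • Kd) (Z + (s : ℂ) • Zd) =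
          (Zᴴ * H + H * Z + hm x.2.2) + (s : ℂ) • (Zdᴴ * H + Zᴴ * Hd + H * Zd + Hd * Z + Kd) +
          ((s : ℂ) ^ 2) • (Zdᴴ * Hd + Hd * Zd) := by
        rw [E2_zero]
        simp only [Matrix.conjTranspose_add, Matrix.conjTranspose_smul,
          Matrix.add_mul, Matrix.mul_add, Matrix.smul_mul, Matrix.mul_smul, smul_smul,
          Complex.star_def, Complex.conj_ofReal, smul_add, pow_two]
        abel
      rw [hE]
      simp only [code, Matrix.add_apply, Matrix.smul_apply, smul_eq_mul, Complex.add_re,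
        Complex.add_im]
      have h5 : ∀ z : ℂ, ((s : ℂ) * z).re = s * z.re := fun z => by simp
      have h6 : ∀ z : ℂ, ((s : ℂ) * z).im = s * z.im := fun z => by simp
      have h7 : ∀ z : ℂ, ((s : ℂ) ^ 2 * z).re = s ^ 2 * z.re := fun z => by
        rw [← Complex.ofReal_pow, Complex.re_ofReal_mul]
      have h8 : ∀ z : ℂ, ((s : ℂ) ^ 2 * z).im = s ^ 2 * z.im := fun z => by
        rw [← Complex.ofReal_pow, Complex.im_ofReal_mul]
      rw [h5, h6, h7, h8]
      simp only [Complex.add_re, Complex.add_im]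
      ring
  -- third component
  have e3 : ∀ y a b, (if b < a then (Rs γ βd y a b).re else
      if a < b then (Rs γ βd y b a).im else (Rs γ βd y a a).re + σ) = 0 := by
    intro y a b
    refine lin_coef _ (E3 γ w (bt x) x.2.1 y a b) _ 0 (fun s => ?_) (hg4 y a b)
    change E3 γ w (bt (x + s • v)) (x.2.1 + s • v.2.1) y a b = _
    have hb : bt (x + s • v) = fun y => bt x y + (s : ℂ) • bt v y := by
      funext y
      exact bt_add x v s y
    rw [E3, E3, hb, Rs_add, ← hβ, ← hβd]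
    have h5 : ∀ z : ℂ, ((s : ℂ) * z).re = s * z.re := fun z => by simp
    have h6 : ∀ z : ℂ, ((s : ℂ) * z).im = s * z.im := fun z => by simp
    by_cases h1 : b < a
    · simp only [h1, if_true, Matrix.add_apply, Matrix.smul_apply, smul_eq_mul, Complex.add_re, h5,
        mul_zero, add_zero]
    · by_cases h2 : a < b
      · simp only [h1, h2, if_true, if_false, Matrix.add_apply, Matrix.smul_apply, smul_eq_mul,
          Complex.add_im, h6, mul_zero, add_zero]
      · simp only [h1, h2, if_false, Matrix.add_apply, Matrix.smul_apply, smul_eq_mul,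
          Complex.add_re, h5, Pi.add_apply, Pi.smul_apply, Finset.sum_add_distrib,
          ← Finset.mul_sum, hσ, mul_zero, add_zero]
        ring
  have hHh : H.IsHermitian := hm_herm _
  have hHdh : Hd.IsHermitian := hm_herm _
  -- the matrices D
  set D0 := H * βd 0 + Hd * β 0 with hD0
  set D1 := H * βd 1 + Hd * β 1 with hD1
  have e4 : ∀ j, aa j • (D0 - D0ᴴ) + bb j • (D1 - D1ᴴ) + Kd = 0 := by
    intro j
    have h1 : D0ᴴ = (βd 0)ᴴ * H + (β 0)ᴴ * Hd := by
      rw [hD0, Matrix.conjTranspose_add, Matrix.conjTranspose_mul, Matrix.conjTranspose_mul,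
        hHh.eq, hHdh.eq]
    have h2 : D1ᴴ = (βd 1)ᴴ * H + (β 1)ᴴ * Hd := by
      rw [hD1, Matrix.conjTranspose_add, Matrix.conjTranspose_mul, Matrix.conjTranspose_mul,
        hHh.eq, hHdh.eq]
    rw [h1, h2, hD0, hD1, ← e2 j]
    simp only [Matrix.conjTranspose_add, Matrix.conjTranspose_smul, Matrix.add_mul, Matrix.mul_add,
      Matrix.smul_mul, Matrix.mul_smul, star_aa, star_bb]
    module
  have hpi : (2 * Real.pi * Complex.I : ℂ) ≠ 0 := by
    simp [Real.pi_ne_zero]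
  have h00 : D0 - D0ᴴ = 0 := by
    have h1 : (2 * Real.pi * Complex.I : ℂ) • (D0 - D0ᴴ) = 0 := by
      have h2 := e4 0
      have h3 := e4 1
      have h4 : (aa 0 - aa 1) • (D0 - D0ᴴ) + (bb 0 - bb 1) • (D1 - D1ᴴ) = 0 := by
        calc (aa 0 - aa 1) • (D0 - D0ᴴ) + (bb 0 - bb 1) • (D1 - D1ᴴ)
            = (aa 0 • (D0 - D0ᴴ) + bb 0 • (D1 - D1ᴴ) + Kd) -
              (aa 1 • (D0 - D0ᴴ) + bb 1 • (D1 - D1ᴴ) + Kd) := by module
          _ = 0 := by rw [h2, h3, sub_zero]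
      have h5 : aa 0 - aa 1 = 2 * Real.pi * Complex.I := by
        simp [aa]
        ring
      have h6 : bb 0 - bb 1 = 0 := by
        simp [bb]
      rw [h5, h6, zero_smul, add_zero] at h4
      exact h4
    exact (smul_eq_zero.1 h1).resolve_left hpi
  have h11 : D1 - D1ᴴ = 0 := by
    have h1 : (2 * Real.pi * Complex.I : ℂ) • (D1 - D1ᴴ) = 0 := by
      have h2 := e4 1
      have h3 := e4 2
      rw [h00, smul_zero, zero_add] at h2 h3
      have h4 : (bb 1 - bb 2) • (D1 - D1ᴴ) = 0 := by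
        calc (bb 1 - bb 2) • (D1 - D1ᴴ)
            = (bb 1 • (D1 - D1ᴴ) + Kd) - (bb 2 • (D1 - D1ᴴ) + Kd) := by module
          _ = 0 := by rw [h2, h3, sub_zero]
      have h5 : bb 1 - bb 2 = 2 * Real.pi * Complex.I := by
        simp [bb]
        ring
      rw [h5] at h4
      exact h4
    exact (smul_eq_zero.1 h1).resolve_left hpi
  have hKd0 : Kd = 0 := by
    have h2 := e4 0
    rw [h00, h11, smul_zero, smul_zero, zero_add, zero_add] at h2
    exact h2
  have hD0h : D0.IsHermitian := (sub_eq_zero.1 h00).symm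
  have hD1h : D1.IsHermitian := (sub_eq_zero.1 h11).symm
  have hD2 : H * βd 2 + Hd * β 2 = -D0 - D1 := by
    have h1 : βd 2 = -βd 0 - βd 1 := by
      rw [eq_sub_iff_add_eq, eq_neg_iff_add_eq_zero, ← e1]
      abel
    have h2 : β 2 = -β 0 - β 1 := by
      rw [eq_sub_iff_add_eq, eq_neg_iff_add_eq_zero, ← hLD.1]
      abel
    rw [h1, h2, hD0, hD1]
    simp only [Matrix.mul_sub, Matrix.mul_neg]
    abel
  have hDall : ∀ y, (H * βd y + Hd * β y).IsHermitian := by
    intro y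
    fin_cases y
    · exact hD0h
    · exact hD1h
    · change (H * βd 2 + Hd * β 2).IsHermitian
      rw [hD2]
      exact hD0h.neg.sub hD1h
  -- flags
  have hlow : ∀ y a b, b < a → Rs γ βd y a b = 0 := by
    intro y a b hab
    apply Complex.ext
    · have h1 := e3 y a b
      rw [if_pos hab] at h1
      exact h1
    · have h1 := e3 y b a
      rw [if_neg (not_lt.2 hab.le), if_pos hab] at h1
      exact h1
  have hdiag : ∀ y a, (Rs γ βd y a a).re = -σ := by
    intro y a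
    have h1 := e3 y a a
    rw [if_neg (lt_irrefl a), if_neg (lt_irrefl a)] at h1
    linarith
  have hσ0 : σ = 0 := by
    have h1 : ∑ y, (Rs γ βd y).trace = 0 := by
      have h2 : ∀ y, (Rs γ βd y).trace = (βd y).trace := by
        intro y
        rw [Rs, Matrix.trace_mul_cycle, Matrix.nonsing_inv_mul _ (hγ y), Matrix.one_mul]
      rw [Finset.sum_congr rfl fun y _ => h2 y, Fin.sum_univ_three, ← Matrix.trace_add,
        ← Matrix.trace_add, e1, Matrix.trace_zero]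
    have h3 := congrArg Complex.re h1
    simp only [Matrix.trace, Matrix.diag, Complex.re_sum, hdiag, Finset.sum_const,
      Finset.card_univ, Fintype.card_fin, nsmul_eq_mul, Complex.zero_re] at h3
    have hr' : (r : ℝ) ≠ 0 := by
      exact_mod_cast hr.ne'
    have h4 : (3 : ℝ) * r * σ = 0 := by
      push_cast at h3
      linarith
    have h5 : (3 : ℝ) * r ≠ 0 := mul_ne_zero (by norm_num) hr'
    exact (mul_eq_zero.1 h4).resolve_left h5
  obtain ⟨hb0, s, hs'⟩ := hInj r γ w β βd H Hd hγ hW.1 hSt hLD hPos hHerm e1 hlow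
    (fun y a => by rw [hdiag, hσ0, neg_zero]) hHdh hDall
  have hs0 : s = 0 := by
    have h1 : Hd.trace = 0 := by
      rw [hHd, hm_trace, ← hσ, hσ0, Complex.ofReal_zero]
    rw [hs', Matrix.trace_smul, htr, smul_eq_mul, mul_one] at h1
    exact_mod_cast h1
  have hHd0 : Hd = 0 := by
    rw [hs', hs0, Complex.ofReal_zero, zero_smul]
  refine Prod.ext ?_ (Prod.ext ?_ ?_)
  · funext y a b
    have h1 := congrFun (congrFun (hb0 y) a) b
    exact h1
  · exact hm_zero _ hHd0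
  · exact hm_zero _ hKd0

end Pool.Agent.MSU

end

section

/-! Kernel of the derivative for `t > 0`. -/

open Matrix Polynomial Filter Topology
open scoped ComplexConjugate ComplexOrder

namespace Pool.Agent.MSU.ItemEKer1

open Pool.Agent.MSU

/-- entrywise derivative at zero of a matrix function of a real variable -/
def HD {m n : Type} (M : ℝ → Matrix m n ℂ) (M' : Matrix m n ℂ) : Prop :=
  ∀ a b, HasDerivAt (fun s => M s a b) (M' a b) 0

lemma HD.mul {m n o : Type} [Fintype n] {M : ℝ → Matrix m n ℂ} {M' : Matrix m n ℂ}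
    {N : ℝ → Matrix n o ℂ} {N' : Matrix n o ℂ} (h : HD M M') (h' : HD N N') :
    HD (fun s => M s * N s) (M' * N 0 + M 0 * N') := by
  intro a b
  have h1 : HasDerivAt (fun s => ∑ l, M s a l * N s l b)
      (∑ l, (M' a l * N 0 l b + M 0 a l * N' l b)) 0 := by
    apply HasDerivAt.fun_sum
    intro l _
    exact (h a l).mul (h' l b)
  have h2 : (M' * N 0 + M 0 * N') a b = ∑ l, (M' a l * N 0 l b + M 0 a l * N' l b) := by
    rw [Matrix.add_apply, mul_apply, mul_apply, Finset.sum_add_distrib]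
  rw [h2]
  exact h1

lemma HD.add {m n : Type} {M N : ℝ → Matrix m n ℂ} {M' N' : Matrix m n ℂ} (h : HD M M')
    (h' : HD N N') : HD (fun s => M s + N s) (M' + N') := fun a b => (h a b).add (h' a b)

lemma HD.sub {m n : Type} {M N : ℝ → Matrix m n ℂ} {M' N' : Matrix m n ℂ} (h : HD M M')
    (h' : HD N N') : HD (fun s => M s - N s) (M' - N') := fun a b => (h a b).sub (h' a b)

lemma HD.smul {m n : Type} {M : ℝ → Matrix m n ℂ} {M' : Matrix m n ℂ} (h : HD M M') (c : ℂ) :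
    HD (fun s => c • M s) (c • M') := fun a b => (h a b).const_mul c

lemma HD.conj {m n : Type} {M : ℝ → Matrix m n ℂ} {M' : Matrix m n ℂ} (h : HD M M') :
    HD (fun s => (M s)ᴴ) M'ᴴ := by
  intro a b
  have := (Complex.conjCLE.toContinuousLinearMap.hasFDerivAt.comp_hasDerivAt (0:ℝ) (h b a))
  exact this

lemma hd_code {r : ℕ} {M : ℝ → Matrix (Fin r) (Fin r) ℂ} {M' : Matrix (Fin r) (Fin r) ℂ}
    (h : HD M M') (a b : Fin r) : HasDerivAt (fun s => code (M s) a b) (code M' a b) 0 := by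
  have h1 := Complex.reCLM.hasFDerivAt.comp_hasDerivAt (0:ℝ) (h a b)
  have h2 := Complex.imCLM.hasFDerivAt.comp_hasDerivAt (0:ℝ) (h a b)
  exact h1.add h2

lemma code_eq_zero {r : ℕ} {H : Matrix (Fin r) (Fin r) ℂ} (hH : H.IsHermitian)
    (h : code H = 0) : H = 0 := by
  ext a b
  have h1 : (H a b).re + (H a b).im = 0 := congrFun (congrFun h a) b
  have h2 : (H b a).re + (H b a).im = 0 := congrFun (congrFun h b) a
  have h3 : conj (H a b) = H b a := hH.apply b a
  have h4 : (H b a).re = (H a b).re := by rw [← h3]; simp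
  have h5 : (H b a).im = -(H a b).im := by rw [← h3]; simp
  rw [h4, h5] at h2
  apply Complex.ext
  · simp; linarith
  · simp; linarith

lemma hm_herm {r : ℕ} (S : Fin r → Fin r → ℝ) : (hm S).IsHermitian := by
  ext a b
  rw [conjTranspose_apply]
  simp only [hm, Matrix.of_apply, star_add, star_mul', Complex.star_def, Complex.conj_ofReal,
    Complex.conj_I]
  have e1 : (S b a + S a b) / 2 = (S a b + S b a) / 2 := by ring
  have e2 : ((S b a - S a b) / 2 : ℝ) = -((S a b - S b a) / 2) := by ring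
  rw [e1, e2]
  push_cast
  ring

lemma code_hm {r : ℕ} (S : Fin r → Fin r → ℝ) : code (hm S) = S := by
  funext a b
  simp only [code, hm, Matrix.of_apply, Complex.add_re, Complex.add_im, Complex.ofReal_re,
    Complex.ofReal_im, Complex.re_ofReal_mul, Complex.im_ofReal_mul, Complex.I_re, Complex.I_im]
  ring

lemma hm_inj {r : ℕ} {S : Fin r → Fin r → ℝ} (h : hm S = 0) : S = 0 := by
  rw [← code_hm S, h]
  funext a b
  simp [code]

lemma hd_hm {r : ℕ} (S S' : Fin r → Fin r → ℝ) : HD (fun s => hm (S + s • S')) (hm S') := by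
  intro a b
  have h1 : ∀ s : ℝ, hm (S + s • S') a b = hm S a b + s * hm S' a b := by
    intro s
    simp only [hm, Matrix.of_apply, Pi.add_apply, Pi.smul_apply, smul_eq_mul]
    push_cast
    ring
  simp only [h1]
  have h2 : HasDerivAt (fun s : ℝ => (s : ℂ)) 1 0 := Complex.ofRealCLM.hasDerivAt
  simpa using (h2.mul_const (hm S' a b)).const_add (hm S a b)

lemma hm_trace {r : ℕ} (S : Fin r → Fin r → ℝ) : (hm S).trace = ((∑ c, S c c : ℝ) : ℂ) := by
  simp only [Matrix.trace, diag_apply, hm, Matrix.of_apply]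
  push_cast
  apply Finset.sum_congr rfl
  intro c _
  ring

lemma hd_bt {r : ℕ} (x v : XT r) (y : Fin 3) : HD (fun s => bt (x + s • v) y) (bt v y) := by
  intro a b
  have h1 : ∀ s : ℝ, bt (x + s • v) y a b = bt x y a b + s * bt v y a b := by
    intro s
    simp [bt]
  simp only [h1]
  have h2 : HasDerivAt (fun s : ℝ => (s : ℂ)) 1 0 := Complex.ofRealCLM.hasDerivAt
  simpa using (h2.mul_const (bt v y a b)).const_add (bt x y a b)

lemma bt_line {r : ℕ} (x v : XT r) (s : ℝ) (y : Fin 3) :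
    bt (x + s • v) y = bt x y + (s : ℂ) • bt v y := by
  ext a b
  simp [bt]

lemma hd_Rs {r : ℕ} (γ : Fin 3 → Matrix (Fin r) (Fin r) ℂ) (x v : XT r) (y : Fin 3) :
    HD (fun s => Rs γ (bt (x + s • v)) y) (Rs γ (bt v) y) := by
  intro a b
  have h1 : ∀ s : ℝ, Rs γ (bt (x + s • v)) y a b = Rs γ (bt x) y a b + s * Rs γ (bt v) y a b := by
    intro s
    have : Rs γ (bt (x + s • v)) y = Rs γ (bt x) y + (s : ℂ) • Rs γ (bt v) y := by
      simp only [Rs]
      rw [bt_line, mul_add, add_mul, Matrix.mul_smul, Matrix.smul_mul]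
    rw [this]
    simp
  simp only [h1]
  have h2 : HasDerivAt (fun s : ℝ => (s : ℂ)) 1 0 := Complex.ofRealCLM.hasDerivAt
  simpa using (h2.mul_const (Rs γ (bt v) y a b)).const_add (Rs γ (bt x) y a b)

/-- the derivative along a line through the solution -/
lemma line {r : ℕ} (hSm : E_Smooth) (γ : Fin 3 → Matrix (Fin r) (Fin r) ℂ)
    (w : Fin 3 → Fin r → ℝ) (t : ℝ) (x v : XT r) (h : fderiv ℝ (FF γ w) (t, x) (0, v) = 0) :
    HasDerivAt (fun s : ℝ => FF γ w (t, x + s • v)) 0 0 := by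
  have h1 : HasFDerivAt (FF γ w) (fderiv ℝ (FF γ w) (t, x)) (t, x) :=
    ((hSm r γ w).differentiable (by norm_num) (t, x)).hasFDerivAt
  have h2 : HasDerivAt (fun s : ℝ => (t, x + s • v)) ((0 : ℝ), v) 0 := by
    apply HasDerivAt.prodMk
    · exact hasDerivAt_const _ _
    · simpa using ((hasDerivAt_id (0:ℝ)).smul_const v).const_add x
  have h3 : HasFDerivAt (FF γ w) (fderiv ℝ (FF γ w) (t, x)) ((fun s : ℝ => (t, x + s • v)) 0) := by
    simpa using h1
  have h4 := h3.comp_hasDerivAt (0:ℝ) h2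
  rw [h] at h4
  exact h4

/-- the affine equations -/
lemma affine {r : ℕ} (hr : 0 < r) (γ : Fin 3 → Matrix (Fin r) (Fin r) ℂ) (hγ : GU γ)
    (w : Fin 3 → Fin r → ℝ) (t : ℝ) (x v : XT r)
    (h : HasDerivAt (fun s : ℝ => FF γ w (t, x + s • v)) 0 0) :
    bt v 0 + bt v 1 + bt v 2 = 0 ∧ (∀ y a b, b < a → Rs γ (bt v) y a b = 0) ∧
      (∀ y a, (Rs γ (bt v) y a a).re = 0) ∧ ∑ c, v.2.1 c c = 0 := by
  have hfst : HasDerivAt (fun s : ℝ => (FF γ w (t, x + s • v)).1) 0 0 := by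
    have := (ContinuousLinearMap.fst ℝ (Fin r → Fin r → ℂ) ((Fin 3 → Fin r → Fin r → ℝ) ×
      (Fin 3 → Fin r → Fin r → ℝ))).hasFDerivAt.comp_hasDerivAt (0:ℝ) h
    rw [map_zero] at this
    exact this
  have hsnd : HasDerivAt (fun s : ℝ => (FF γ w (t, x + s • v)).2.2) 0 0 := by
    have := ((ContinuousLinearMap.snd ℝ (Fin 3 → Fin r → Fin r → ℝ) (Fin 3 → Fin r → Fin r → ℝ)).comp
      (ContinuousLinearMap.snd ℝ (Fin r → Fin r → ℂ) ((Fin 3 → Fin r → Fin r → ℝ) ×
      (Fin 3 → Fin r → Fin r → ℝ)))).hasFDerivAt.comp_hasDerivAt (0:ℝ) h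
    rw [map_zero] at this
    exact this
  have h1 : bt v 0 + bt v 1 + bt v 2 = 0 := by
    ext a b
    have e1 : HasDerivAt (fun s : ℝ => (FF γ w (t, x + s • v)).1 a b) 0 0 :=
      (hasDerivAt_pi.mp (hasDerivAt_pi.mp hfst a)) b
    have e2 := (((hd_bt x v 0).add (hd_bt x v 1)).add (hd_bt x v 2)) a b
    exact e2.unique e1
  have key : ∀ y a b, HasDerivAt (fun s : ℝ => E3 γ w (bt (x + s • v)) (x + s • v).2.1 y a b) 0 0 :=
    fun y a b => (hasDerivAt_pi.mp (hasDerivAt_pi.mp (hasDerivAt_pi.mp hsnd y) a)) b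
  have h2 : ∀ y a b, b < a → Rs γ (bt v) y a b = 0 := by
    intro y a b hab
    apply Complex.ext
    · have e1 := key y a b
      simp only [E3, if_pos hab] at e1
      have e2 := Complex.reCLM.hasFDerivAt.comp_hasDerivAt (0:ℝ) (hd_Rs γ x v y a b)
      exact e2.unique e1
    · have e1 := key y b a
      simp only [E3, if_neg (not_lt.mpr hab.le), if_pos hab] at e1
      have e2 := Complex.imCLM.hasFDerivAt.comp_hasDerivAt (0:ℝ) (hd_Rs γ x v y a b)
      exact e2.unique e1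
  have h3 : ∀ y a, (Rs γ (bt v) y a a).re + ∑ c, v.2.1 c c = 0 := by
    intro y a
    have e1 := key y a a
    simp only [E3, lt_irrefl, if_false] at e1
    have e2 := Complex.reCLM.hasFDerivAt.comp_hasDerivAt (0:ℝ) (hd_Rs γ x v y a a)
    have e3 : HasDerivAt (fun s : ℝ => ∑ c, (x + s • v).2.1 c c) (∑ c, v.2.1 c c) 0 := by
      apply HasDerivAt.fun_sum
      intro c _
      have : HasDerivAt (fun s : ℝ => x.2.1 c c + s * v.2.1 c c) (v.2.1 c c) 0 := by
        simpa using ((hasDerivAt_id (0:ℝ)).mul_const (v.2.1 c c)).const_add (x.2.1 c c)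
      exact this
    have e4 := (e2.sub_const (w y a)).add (e3.sub_const 1)
    exact e4.unique e1
  have h4 : ∑ c, v.2.1 c c = 0 := by
    have e1 : ∑ y : Fin 3, ∑ a, ((Rs γ (bt v) y a a).re + ∑ c, v.2.1 c c) = 0 := by
      simp only [h3, Finset.sum_const_zero]
    simp only [Finset.sum_add_distrib, Finset.sum_const, Finset.card_univ, Fintype.card_fin,
      nsmul_eq_mul] at e1
    have e2 : ∀ y, ∑ a, (Rs γ (bt v) y a a).re = (bt v y).trace.re := by
      intro y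
      have e3 : (Rs γ (bt v) y).trace = (bt v y).trace := by
        simp only [Rs]
        rw [Matrix.trace_mul_comm, ← Matrix.mul_assoc, Matrix.nonsing_inv_mul _ (hγ y),
          Matrix.one_mul]
      rw [← e3]
      simp [Matrix.trace]
    simp only [e2] at e1
    have e3 : ∑ y : Fin 3, (bt v y).trace.re = 0 := by
      rw [Fin.sum_univ_three, ← Complex.add_re, ← Complex.add_re, ← Matrix.trace_add,
        ← Matrix.trace_add, h1]
      simp
    rw [e3, zero_add] at e1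
    have : (r : ℝ) ≠ 0 := by exact_mod_cast hr.ne'
    push_cast at e1
    rcases mul_eq_zero.mp e1 with e | e
    · norm_num at e
    · rcases mul_eq_zero.mp e with e | e
      · exact absurd e this
      · exact e
  refine ⟨h1, h2, ?_, h4⟩
  intro y a
  have := h3 y a
  rw [h4, add_zero] at this
  exact this

lemma two {r : ℕ} (γ : Fin 3 → Matrix (Fin r) (Fin r) ℂ) (w : Fin 3 → Fin r → ℝ) (t : ℝ)
    (x v : XT r) (h : HasDerivAt (fun s : ℝ => FF γ w (t, x + s • v)) 0 0) (j : Fin 3)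
    (a b : Fin r) :
    HasDerivAt (fun s : ℝ => code (E2 t (hm (x.2.1 + s • v.2.1)) (hm (x.2.2 + s • v.2.2))
      (ZZ j t (bt (x + s • v)))) a b) 0 0 := by
  have hsnd : HasDerivAt (fun s : ℝ => (FF γ w (t, x + s • v)).2.1) 0 0 := by
    have := ((ContinuousLinearMap.fst ℝ (Fin 3 → Fin r → Fin r → ℝ) (Fin 3 → Fin r → Fin r → ℝ)).comp
      (ContinuousLinearMap.snd ℝ (Fin r → Fin r → ℂ) ((Fin 3 → Fin r → Fin r → ℝ) ×
      (Fin 3 → Fin r → Fin r → ℝ)))).hasFDerivAt.comp_hasDerivAt (0:ℝ) h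
    rw [map_zero] at this
    exact this
  exact (hasDerivAt_pi.mp (hasDerivAt_pi.mp (hasDerivAt_pi.mp hsnd j) a)) b

lemma E2_eq {r : ℕ} (t : ℝ) (H K Z : Matrix (Fin r) (Fin r) ℂ) :
    (t : ℂ) • E2 t H K Z = (1 + (t : ℂ) • Z)ᴴ * (H + (t : ℂ) • K) * (1 + (t : ℂ) • Z) - H := by
  have h1 : (1 + (t : ℂ) • Z)ᴴ = 1 + (t : ℂ) • Zᴴ := by
    rw [conjTranspose_add, conjTranspose_one, conjTranspose_smul]
    simp
  rw [h1]
  simp only [E2, add_mul, mul_add, Matrix.smul_mul, Matrix.mul_smul, smul_add, smul_smul,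
    Matrix.one_mul, Matrix.mul_one, Matrix.mul_assoc]
  have e1 : (t : ℂ) * (t : ℂ) ^ 2 = (t : ℂ) * ((t : ℂ) * (t : ℂ)) := by ring
  rw [e1]
  abel

/-- derivative of the transport along the line -/
lemma hd_PP {r : ℕ} (hP : S_PDiff) (t : ℝ) (x v : XT r) (j : Fin 3)
    (W : ℂ → Matrix (Fin r) (Fin r) ℂ)
    (hW : IsW (fun y => (t : ℂ) • bt x y) (fun y => (t : ℂ) • bt v y) j W) :
    HD (fun s => PP (fun y => (t : ℂ) • bt (x + s • v) y) j)
      (PP (fun y => (t : ℂ) • bt x y) j * W (-Complex.I)) := by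
  obtain ⟨h1, h2⟩ := hP (Fin r) j
  set B : Fin 3 → Fin r → Fin r → ℂ := fun y a b => (t : ℂ) * x.1 y a b with hB
  set Bd : Fin 3 → Fin r → Fin r → ℂ := fun y a b => (t : ℂ) * v.1 y a b with hBd
  have e1 : (fun y => Matrix.of (B y)) = fun y => (t : ℂ) • bt x y := by
    funext y; ext a b; simp [hB, bt]
  have e2 : (fun y => Matrix.of (Bd y)) = fun y => (t : ℂ) • bt v y := by
    funext y; ext a b; simp [hBd, bt]
  have h3 := h2 B Bd W (by rw [e1, e2]; exact hW)
  have h4 := ((h1.differentiable (by norm_num)) B).hasFDerivAt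
  have h5 : HasDerivAt (fun s : ℝ => B + s • Bd) Bd 0 := by
    simpa using ((hasDerivAt_id (0:ℝ)).smul_const Bd).const_add B
  have h6 : HasFDerivAt (fun (B : Fin 3 → Fin r → Fin r → ℂ) =>
      (fun a b => PP (fun x => Matrix.of (B x)) j a b : Fin r → Fin r → ℂ))
      (fderiv ℝ (fun (B : Fin 3 → Fin r → Fin r → ℂ) =>
        (fun a b => PP (fun x => Matrix.of (B x)) j a b : Fin r → Fin r → ℂ)) B)
      ((fun s : ℝ => B + s • Bd) 0) := by
    simpa using h4
  have h7 := h6.comp_hasDerivAt (0:ℝ) h5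
  rw [h3] at h7
  intro a b
  have h8 := (hasDerivAt_pi.mp (hasDerivAt_pi.mp h7 a)) b
  have e3 : ∀ s : ℝ, (fun y => Matrix.of ((B + s • Bd) y)) = fun y => (t : ℂ) • bt (x + s • v) y := by
    intro s
    funext y; ext a b
    simp [hB, hBd, bt]
    ring
  rw [e1] at h8
  have e4 : (fun s : ℝ => PP (fun y => (t : ℂ) • bt (x + s • v) y) j a b)
      = fun s : ℝ => PP (fun y => Matrix.of ((B + s • Bd) y)) j a b := by
    funext s
    rw [e3]
  rw [e4]
  exact h8

end Pool.Agent.MSU.ItemEKer1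

namespace Pool.Agent.MSU

open ItemEKer1 in
theorem prf_E_Ker1 (hP : S_PDiff) (hZ : S_ZBlock) (hSm : E_Smooth) (hD : E_Dec)
    (hSc : T_Scale) (hI : I_Inj1) : E_Ker1 := by
  intro r γ w t x hr hγ hw hsum hst ht0 ht1 hx v hv
  obtain ⟨hLD, hUN, htr⟩ := hD r γ w t x hr hγ hsum ht0 hx
  have hl := line hSm γ w t x v hv
  obtain ⟨a1, a2, a3, a4⟩ := affine hr γ hγ w t x v hl
  have ht0' : (t : ℂ) ≠ 0 := by exact_mod_cast ht0.ne'
  have hwin : Win (fun y i => t * w y i) := by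
    refine ⟨fun x i j hij => mul_lt_mul_of_pos_left (hw.1 x hij) ht0, fun x i j => ?_⟩
    have h2 := hw.2 x i j
    rw [← mul_sub]
    rcases le_or_gt (w x j - w x i) 0 with h | h
    · have : t * (w x j - w x i) ≤ 0 := mul_nonpos_of_nonneg_of_nonpos ht0.le h
      linarith
    · nlinarith
  have hRs : ∀ y, Rs γ (fun y => (t : ℂ) • bt v y) y = (t : ℂ) • Rs γ (bt v) y := by
    intro y
    simp only [Rs]
    rw [Matrix.mul_smul, Matrix.smul_mul]
  -- linearised equations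
  have hlin : ∀ j W, IsW (fun y => (t : ℂ) • bt x y) (fun y => (t : ℂ) • bt v y) j W →
      (W (-Complex.I))ᴴ * hm x.2.1 + hm x.2.1 * W (-Complex.I)
        + (PP (fun y => (t : ℂ) • bt x y) j)ᴴ * (hm v.2.1 + (t : ℂ) • hm v.2.2)
          * PP (fun y => (t : ℂ) • bt x y) j = hm v.2.1 := by
    intro j W hIW
    have p1 := hd_PP hP t x v j W hIW
    have p2 := hd_hm x.2.1 v.2.1
    have p3 := (hd_hm x.2.2 v.2.2).smul (t : ℂ)
    have p4 := ((p1.conj.mul (p2.add p3)).mul p1).sub p2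
    have p5 : ∀ a b, HasDerivAt (fun s : ℝ => code ((PP (fun y => (t : ℂ) • bt (x + s • v) y) j)ᴴ
        * (hm (x.2.1 + s • v.2.1) + (t : ℂ) • hm (x.2.2 + s • v.2.2))
        * PP (fun y => (t : ℂ) • bt (x + s • v) y) j - hm (x.2.1 + s • v.2.1)) a b) 0 0 := by
      intro a b
      have q1 := (two γ w t x v hl j a b).const_mul t
      rw [mul_zero] at q1
      have q2 : ∀ s : ℝ, t * code (E2 t (hm (x.2.1 + s • v.2.1)) (hm (x.2.2 + s • v.2.2))
          (ZZ j t (bt (x + s • v)))) a b = code ((PP (fun y => (t : ℂ) • bt (x + s • v) y) j)ᴴ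
        * (hm (x.2.1 + s • v.2.1) + (t : ℂ) • hm (x.2.2 + s • v.2.2))
        * PP (fun y => (t : ℂ) • bt (x + s • v) y) j - hm (x.2.1 + s • v.2.1)) a b := by
        intro s
        rw [hZ r t (bt (x + s • v)) j, ← E2_eq]
        simp only [code, Matrix.smul_apply, smul_eq_mul, Complex.re_ofReal_mul,
          Complex.im_ofReal_mul]
        ring
      simpa only [q2] using q1
    set P := PP (fun y => (t : ℂ) • bt x y) j with hPd
    have e0 : (fun y => (t : ℂ) • bt (x + (0:ℝ) • v) y) = fun y => (t : ℂ) • bt x y := by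
      simp
    have hz1 : x.2.1 + (0:ℝ) • v.2.1 = x.2.1 := by simp
    have hz2 : x.2.2 + (0:ℝ) • v.2.2 = x.2.2 := by simp
    simp only [e0, hz1, hz2] at p4
    rw [← hPd] at p4
    have p6 : code (((P * W (-Complex.I))ᴴ * (hm x.2.1 + (t : ℂ) • hm x.2.2)
        + Pᴴ * (hm v.2.1 + (t : ℂ) • hm v.2.2)) * P
        + Pᴴ * (hm x.2.1 + (t : ℂ) • hm x.2.2) * (P * W (-Complex.I)) - hm v.2.1) = 0 := by
      funext a b
      exact (hd_code p4 a b).unique (p5 a b)
    have hUj : Pᴴ * (hm x.2.1 + (t : ℂ) • hm x.2.2) * P = hm x.2.1 := hUN.2.2 j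
    have e1 : ((P * W (-Complex.I))ᴴ * (hm x.2.1 + (t : ℂ) • hm x.2.2)
        + Pᴴ * (hm v.2.1 + (t : ℂ) • hm v.2.2)) * P
        + Pᴴ * (hm x.2.1 + (t : ℂ) • hm x.2.2) * (P * W (-Complex.I)) - hm v.2.1
        = (W (-Complex.I))ᴴ * hm x.2.1 + hm x.2.1 * W (-Complex.I)
          + Pᴴ * (hm v.2.1 + (t : ℂ) • hm v.2.2) * P - hm v.2.1 := by
      rw [conjTranspose_mul, add_mul]
      have f1 : (W (-Complex.I))ᴴ * Pᴴ * (hm x.2.1 + (t : ℂ) • hm x.2.2) * P
          = (W (-Complex.I))ᴴ * hm x.2.1 := by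
        rw [Matrix.mul_assoc, Matrix.mul_assoc, ← Matrix.mul_assoc Pᴴ, hUj]
      have f2 : Pᴴ * (hm x.2.1 + (t : ℂ) • hm x.2.2) * (P * W (-Complex.I))
          = hm x.2.1 * W (-Complex.I) := by
        rw [← Matrix.mul_assoc, hUj]
      rw [f1, f2]
      abel
    rw [e1] at p6
    have hh : ((W (-Complex.I))ᴴ * hm x.2.1 + hm x.2.1 * W (-Complex.I)
          + Pᴴ * (hm v.2.1 + (t : ℂ) • hm v.2.2) * P - hm v.2.1).IsHermitian := by
      have g1 : (hm x.2.1)ᴴ = hm x.2.1 := hm_herm _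
      have g2 : (hm v.2.1)ᴴ = hm v.2.1 := hm_herm _
      have g3 : (hm v.2.2)ᴴ = hm v.2.2 := hm_herm _
      unfold Matrix.IsHermitian
      simp only [conjTranspose_sub, conjTranspose_add, conjTranspose_mul,
        conjTranspose_conjTranspose, conjTranspose_smul, g1, g2, g3, Complex.star_def,
        Complex.conj_ofReal]
      rw [add_comm (hm x.2.1 * W (-Complex.I)), Matrix.mul_assoc]
    exact sub_eq_zero.mp (code_eq_zero hh p6)
  obtain ⟨b1, s, b2, b3⟩ := hI r γ (fun y i => t * w y i) (fun y => (t : ℂ) • bt x y)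
    (fun y => (t : ℂ) • bt v y) (hm x.2.1) (hm x.2.1 + (t : ℂ) • hm x.2.2) (hm v.2.1)
    (hm v.2.1 + (t : ℂ) • hm v.2.2) hγ hwin (hSc r γ w hγ hw hst t ht0 ht1) hLD hUN
    (by rw [← smul_add, ← smul_add, a1, smul_zero])
    (by
      intro y a b hab
      rw [hRs, Matrix.smul_apply, a2 y a b hab, smul_zero])
    (by
      intro y a
      rw [hRs, Matrix.smul_apply, smul_eq_mul, Complex.re_ofReal_mul, a3 y a, mul_zero])
    (hm_herm _)
    (by
      have g2 : (hm v.2.1)ᴴ = hm v.2.1 := hm_herm _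
      have g3 : (hm v.2.2)ᴴ = hm v.2.2 := hm_herm _
      unfold Matrix.IsHermitian
      simp only [conjTranspose_add, conjTranspose_smul, g2, g3, Complex.star_def,
        Complex.conj_ofReal])
    hlin
  have c1 : ∀ y, bt v y = 0 := fun y => (smul_eq_zero.mp (b1 y)).resolve_left ht0'
  have c2 : (s : ℂ) = 0 := by
    have := congrArg Matrix.trace b2
    rw [hm_trace, a4, Matrix.trace_smul, htr] at this
    simpa using this.symm
  rw [c2, zero_smul] at b2 b3
  have c3 := hm_inj b2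
  rw [b2, zero_add] at b3
  have c4 := hm_inj ((smul_eq_zero.mp b3).resolve_left ht0')
  refine Prod.ext ?_ (Prod.ext c3 c4)
  funext y a b
  have := congrFun (congrFun (c1 y) a) b
  simpa [bt] using this

end Pool.Agent.MSU

end

section

/-! The equations are continuously differentiable. -/

open Matrix Polynomial Complex

namespace Pool.Agent.MSU

namespace ItemESmooth

variable {E : Type} [NormedAddCommGroup E] [NormedSpace ℝ E]

/-- entrywise continuously differentiable matrix functions -/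
def SM {m n : Type} (M : E → Matrix m n ℂ) : Prop := ∀ a b, ContDiff ℝ 1 (fun u => M u a b)

lemma SM.const {m n : Type} (A : Matrix m n ℂ) : SM (fun _ : E => A) := fun _ _ => contDiff_const

lemma SM.add {m n : Type} {M N : E → Matrix m n ℂ} (hM : SM M) (hN : SM N) :
    SM (fun u => M u + N u) := fun a b => (hM a b).add (hN a b)

lemma SM.mul {m n o : Type} [Fintype n] {M : E → Matrix m n ℂ} {N : E → Matrix n o ℂ}
    (hM : SM M) (hN : SM N) : SM (fun u => M u * N u) := by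
  intro a b
  simp only [Matrix.mul_apply]
  exact ContDiff.sum fun c _ => (hM a c).mul (hN c b)

lemma SM.smul {m n : Type} {M : E → Matrix m n ℂ} {f : E → ℂ} (hf : ContDiff ℝ 1 f)
    (hM : SM M) : SM (fun u => f u • M u) := by
  intro a b
  simp only [Matrix.smul_apply, smul_eq_mul]
  exact hf.mul (hM a b)

lemma SM.star {m n : Type} {M : E → Matrix m n ℂ} (hM : SM M) : SM (fun u => (M u)ᴴ) := by
  intro a b
  simp only [Matrix.conjTranspose_apply]
  exact (Complex.conjCLE.contDiff (𝕜 := ℝ)).comp (hM b a)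

lemma ofReal_cd {f : E → ℝ} (hf : ContDiff ℝ 1 f) : ContDiff ℝ 1 (fun u => ((f u : ℝ) : ℂ)) :=
  (Complex.ofRealCLM.contDiff (𝕜 := ℝ)).comp hf

lemma re_cd {f : E → ℂ} (hf : ContDiff ℝ 1 f) : ContDiff ℝ 1 (fun u => (f u).re) :=
  (Complex.reCLM.contDiff (𝕜 := ℝ)).comp hf

lemma im_cd {f : E → ℂ} (hf : ContDiff ℝ 1 f) : ContDiff ℝ 1 (fun u => (f u).im) :=
  (Complex.imCLM.contDiff (𝕜 := ℝ)).comp hf

lemma hm_sm {r : ℕ} {S : E → Fin r → Fin r → ℝ} (hS : ∀ a b, ContDiff ℝ 1 (fun u => S u a b)) :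
    SM (fun u => hm (S u)) := by
  intro a b
  simp only [hm, Matrix.of_apply]
  exact (ofReal_cd (((hS a b).add (hS b a)).div_const 2)).add
    ((ofReal_cd (((hS a b).sub (hS b a)).div_const 2)).mul contDiff_const)

lemma ZZ_sm (hP : S_PDiff) {r : ℕ} (j : Fin 3) {t : E → ℝ} (ht : ContDiff ℝ 1 t)
    {β : E → Fin 3 → Matrix (Fin r) (Fin r) ℂ} (hβ : ∀ x, SM (fun u => β u x)) :
    SM (fun u => ZZ j (t u) (β u)) := by
  have h1 := (hP (Fin r ⊕ Fin r) j).1
  set Bm : E → Fin 3 → (Fin r ⊕ Fin r) → (Fin r ⊕ Fin r) → ℂ := fun u x =>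
    fromBlocks ((t u : ℂ) • β u x) (β u x) 0 0 with hBm
  have hB : ContDiff ℝ 1 Bm := by
    refine contDiff_pi.2 fun x => contDiff_pi.2 fun a => contDiff_pi.2 fun b => ?_
    rcases a with a | a <;> rcases b with b | b
    · simp only [hBm, fromBlocks_apply₁₁]
      exact SM.smul (ofReal_cd ht) (hβ x) a b
    · simp only [hBm, fromBlocks_apply₁₂]
      exact hβ x a b
    · simp only [hBm, fromBlocks_apply₂₁]
      exact contDiff_const
    · simp only [hBm, fromBlocks_apply₂₂]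
      exact contDiff_const
  have h2 := h1.comp hB
  intro a b
  have h3 := (contDiff_pi.1 ((contDiff_pi.1 h2) (Sum.inl a))) (Sum.inr b)
  exact h3

end ItemESmooth

open ItemESmooth in
theorem prf_E_Smooth (hP : S_PDiff) : E_Smooth := by
  intro r γ w
  have ht : ContDiff ℝ 1 (fun u : ℝ × XT r => u.1) := contDiff_fst
  have hβ : ∀ x, SM (fun u : ℝ × XT r => bt u.2 x) := by
    intro x a b
    have h1 : ContDiff ℝ 1 (fun u : ℝ × XT r => u.2.1) := contDiff_fst.comp contDiff_snd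
    exact (contDiff_pi.1 ((contDiff_pi.1 ((contDiff_pi.1 h1) x)) a)) b
  have hh : ∀ a b, ContDiff ℝ 1 (fun u : ℝ × XT r => u.2.2.1 a b) := by
    intro a b
    have h1 : ContDiff ℝ 1 (fun u : ℝ × XT r => u.2.2.1) :=
      contDiff_fst.comp (contDiff_snd.comp contDiff_snd)
    exact (contDiff_pi.1 ((contDiff_pi.1 h1) a)) b
  have hk : ∀ a b, ContDiff ℝ 1 (fun u : ℝ × XT r => u.2.2.2 a b) := by
    intro a b
    have h1 : ContDiff ℝ 1 (fun u : ℝ × XT r => u.2.2.2) :=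
      contDiff_snd.comp (contDiff_snd.comp contDiff_snd)
    exact (contDiff_pi.1 ((contDiff_pi.1 h1) a)) b
  unfold FF
  refine ContDiff.prodMk ?_ (ContDiff.prodMk ?_ ?_)
  · refine contDiff_pi.2 fun a => contDiff_pi.2 fun b => ?_
    exact (((hβ 0).add (hβ 1)).add (hβ 2)) a b
  · refine contDiff_pi.2 fun j => contDiff_pi.2 fun a => contDiff_pi.2 fun b => ?_
    have hH := hm_sm hh
    have hK := hm_sm hk
    have hZ := ZZ_sm hP j ht hβ
    have hT := ofReal_cd ht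
    have hE : SM (fun u : ℝ × XT r =>
        E2 u.1 (hm u.2.2.1) (hm u.2.2.2) (ZZ j u.1 (bt u.2))) := by
      unfold E2
      exact ((((hZ.star.mul hH).add (hH.mul hZ)).add hK).add
        (SM.smul hT (((hZ.star.mul hK).add (hK.mul hZ)).add ((hZ.star.mul hH).mul hZ)))).add
        (SM.smul (hT.pow 2) ((hZ.star.mul hK).mul hZ))
    simp only [code]
    exact (re_cd (hE a b)).add (im_cd (hE a b))
  · refine contDiff_pi.2 fun x => contDiff_pi.2 fun a => contDiff_pi.2 fun b => ?_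
    have hR : SM (fun u : ℝ × XT r => Rs γ (bt u.2) x) := by
      unfold Rs
      exact ((SM.const (γ x)).mul (hβ x)).mul (SM.const _)
    simp only [E3]
    by_cases h1 : b < a
    · simp only [h1, if_true]
      exact re_cd (hR a b)
    · by_cases h2 : a < b
      · simp only [h1, h2, if_true, if_false]
        exact im_cd (hR b a)
      · simp only [h1, h2, if_false]
        exact ((re_cd (hR a a)).sub contDiff_const).add
          ((ContDiff.sum fun c _ => hh c c).sub contDiff_const)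

end Pool.Agent.MSU

end

section

set_option autoImplicit false

/-! Item I_Inj0: injectivity of the linearised additive problem. -/

open Matrix Polynomial Filter Topology
open scoped ComplexConjugate ComplexOrder

namespace Pool.Agent.MSU

namespace ItemIInj0

variable {r : ℕ}

/-- upper triangular matrices -/
def UT (M : Matrix (Fin r) (Fin r) ℂ) : Prop := ∀ a b, b < a → M a b = 0

theorem UT.blk {M : Matrix (Fin r) (Fin r) ℂ} (h : UT M) : M.BlockTriangular id :=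
  fun a b hab => h a b hab

theorem UT.of {M : Matrix (Fin r) (Fin r) ℂ} (h : M.BlockTriangular id) : UT M :=
  fun _ _ hab => h hab

theorem UT.mul {M N : Matrix (Fin r) (Fin r) ℂ} (h : UT M) (h' : UT N) : UT (M * N) :=
  UT.of (h.blk.mul h'.blk)

theorem UT.diag_mul {M N : Matrix (Fin r) (Fin r) ℂ} (h : UT M) (h' : UT N) (a : Fin r) :
    (M * N) a a = M a a * N a a := by
  rw [Matrix.mul_apply]
  refine Finset.sum_eq_single a (fun c _ hc => ?_) (fun h => absurd (Finset.mem_univ _) h)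
  rcases lt_or_gt_of_ne hc with h1 | h1
  · rw [h a c h1, zero_mul]
  · rw [h' c a h1, mul_zero]

/-- Cholesky decomposition -/
theorem chol {P : Matrix (Fin r) (Fin r) ℂ} (hP : P.PosDef) : ∃ T : Matrix (Fin r) (Fin r) ℂ,
    UT T ∧ Tᴴ * P * T = 1 := by
  set L := LDL.lowerInv hP with hL
  have h1 : LDL.diag hP = L * P * Lᴴ := LDL.diag_eq_lowerInv_conj hP
  have hinv : Invertible L := LDL.invertibleLowerInv hP
  have hpd : (L * P * Lᴴ).PosDef := by
    apply hP.mul_mul_conjTranspose_same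
    apply Matrix.vecMul_injective_of_isUnit
    exact isUnit_of_invertible L
  rw [← h1] at hpd
  have hd : ∀ i, 0 < LDL.diagEntries hP i := by
    intro i
    have h2 : (diagonal (LDL.diagEntries hP)).PosDef := hpd
    rw [Matrix.posDef_diagonal_iff] at h2
    exact h2 i
  set s : Fin r → ℂ := fun i => ((Real.sqrt (LDL.diagEntries hP i).re : ℝ) : ℂ)⁻¹ with hs
  have hss : ∀ i, s i * LDL.diagEntries hP i * s i = 1 := by
    intro i
    have h2 := hd i
    rw [Complex.pos_iff] at h2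
    have h3 : LDL.diagEntries hP i = (((LDL.diagEntries hP i).re : ℝ) : ℂ) := by
      apply Complex.ext
      · simp
      · simp [h2.2.symm]
    have h4 : ((Real.sqrt (LDL.diagEntries hP i).re : ℝ) : ℂ) *
        ((Real.sqrt (LDL.diagEntries hP i).re : ℝ) : ℂ) = (((LDL.diagEntries hP i).re : ℝ) : ℂ) := by
      rw [← Complex.ofReal_mul, Real.mul_self_sqrt h2.1.le]
    have h5 : ((Real.sqrt (LDL.diagEntries hP i).re : ℝ) : ℂ) ≠ 0 := by
      rw [Complex.ofReal_ne_zero]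
      exact (Real.sqrt_pos.2 h2.1).ne'
    have h6 := h3.trans h4.symm
    set q : ℂ := ((Real.sqrt (LDL.diagEntries hP i).re : ℝ) : ℂ) with hq
    have h7 : s i = q⁻¹ := rfl
    rw [h7, h6]
    field_simp
  have hsc : ∀ i, star (s i) = s i := by
    intro i
    simp [hs]
  refine ⟨Lᴴ * diagonal s, ?_, ?_⟩
  · intro a b hab
    have h : L b a = 0 := LDL.lowerInv_triangular hP hab
    rw [Matrix.mul_diagonal, Matrix.conjTranspose_apply, h]
    simp
  · rw [Matrix.conjTranspose_mul, Matrix.conjTranspose_conjTranspose, Matrix.diagonal_conjTranspose]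
    have h6 : diagonal (star s) * L * P * (Lᴴ * diagonal s) =
        diagonal (star s) * (L * P * Lᴴ) * diagonal s := by
      simp only [Matrix.mul_assoc]
    rw [h6, ← h1, LDL.diag, diagonal_mul_diagonal, diagonal_mul_diagonal, ← diagonal_one]
    congr 1
    funext i
    rw [Pi.star_apply, hsc, hss]

/-- the trace formula for replaced rows -/
theorem row_sum {k : ℕ} (M τ : Matrix (Fin k) (Fin k) ℂ) :
    ∑ l, ∑ c, M.adjugate c l * (M * τ) l c = τ.trace * M.det := by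
  have h1 : ∑ l, ∑ c, M.adjugate c l * (M * τ) l c = (M.adjugate * (M * τ)).trace := by
    rw [Finset.sum_comm]
    simp only [Matrix.trace, Matrix.diag_apply, Matrix.mul_apply (M := M.adjugate)]
  rw [h1, ← Matrix.mul_assoc, Matrix.adjugate_mul, Matrix.smul_mul, Matrix.one_mul,
    Matrix.trace_smul, smul_eq_mul, mul_comm]

theorem det_row {k : ℕ} (M : Matrix (Fin k) (Fin k) ℂ) (l : Fin k) (v : Fin k → ℂ) :
    (M.updateRow l v).det = ∑ c, M.adjugate c l * v c := by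
  rw [← Matrix.cramer_transpose_apply, Matrix.cramer_eq_adjugate_mulVec,
    ← Matrix.adjugate_transpose]
  rfl

/-- The weights of a nonzero minor are at most the trace on the invariant subspace. -/
theorem minor_le {k : ℕ} {A : Matrix (Fin r) (Fin r) ℂ} {a0 : Matrix (Fin r) (Fin k) ℂ}
    {τ : Matrix (Fin k) (Fin k) ℂ} {w : Fin r → ℝ} (hA : UT A) (hd : ∀ a, A a a = (w a : ℂ))
    (hτ : A * a0 = a0 * τ) (hw : StrictMono w) (J : Fin k → Fin r)
    (hJ : (a0.submatrix J id).det ≠ 0) : ∑ a, w (J a) ≤ τ.trace.re := by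
  classical
  obtain ⟨J0, hJ0, hmax⟩ := Finset.exists_max_image
    (Finset.univ.filter (fun J : Fin k → Fin r => (a0.submatrix J id).det ≠ 0))
    (fun J => ∑ a, w (J a)) ⟨J, by simp [hJ]⟩
  rw [Finset.mem_filter] at hJ0
  have hmax' : ∀ J : Fin k → Fin r, (a0.submatrix J id).det ≠ 0 →
      ∑ a, w (J a) ≤ ∑ a, w (J0 a) := fun J h => hmax J (by simp [h])
  refine (hmax' J hJ).trans ?_
  set M := a0.submatrix J0 id with hM
  have h1 := row_sum M τ
  have h2 : ∀ l c, (M * τ) l c = ∑ i, A (J0 l) i * a0 i c := by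
    intro l c
    have h3 : (a0 * τ) (J0 l) c = (A * a0) (J0 l) c := by rw [hτ]
    rw [Matrix.mul_apply (M := A)] at h3
    rw [← h3]
    rfl
  have h4 : ∀ l, ∑ c, M.adjugate c l * (M * τ) l c = (w (J0 l) : ℂ) * M.det := by
    intro l
    have h5 : ∑ c, M.adjugate c l * (M * τ) l c = ∑ i, A (J0 l) i * (M.updateRow l (a0 i)).det := by
      simp only [h2, det_row, Finset.mul_sum]
      rw [Finset.sum_comm]
      refine Finset.sum_congr rfl fun i _ => Finset.sum_congr rfl fun c _ => ?_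
      ring
    rw [h5]
    have h6 : ∀ i, M.updateRow l (a0 i) = a0.submatrix (Function.update J0 l i) id := by
      intro i
      ext a b
      by_cases hal : a = l
      · subst hal
        simp
      · simp [hal, hM]
    have h7 : ∑ i, A (J0 l) i * (M.updateRow l (a0 i)).det
        = A (J0 l) (J0 l) * (M.updateRow l (a0 (J0 l))).det := by
      refine Finset.sum_eq_single (J0 l) (fun i _ hi => ?_)
        (fun h => absurd (Finset.mem_univ _) h)
      rcases lt_or_gt_of_ne hi with h8 | h8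
      · rw [hA _ _ h8, zero_mul]
      · rw [h6 i]
        by_cases h9 : (a0.submatrix (Function.update J0 l i) id).det = 0
        · rw [h9, mul_zero]
        · exfalso
          have h10 := hmax' _ h9
          have h11 : ∑ a, w (Function.update J0 l i a) = w i + ∑ a ∈ Finset.univ \ {l}, w (J0 a) := by
            have h12 : ∀ a, w (Function.update J0 l i a) = Function.update (w ∘ J0) l (w i) a := by
              intro a
              by_cases hal : a = l
              · subst hal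
                simp
              · simp [hal]
            simp only [h12]
            rw [Finset.sum_update_of_mem (Finset.mem_univ l)]
            rfl
          have h13 : ∑ a, w (J0 a) = w (J0 l) + ∑ a ∈ Finset.univ \ {l}, w (J0 a) := by
            rw [add_comm]
            exact (Finset.sum_eq_sum_sdiff_singleton_add (Finset.mem_univ l) _)
          rw [h11, h13] at h10
          have := hw h8
          linarith
    rw [h7, hd, h6, Function.update_eq_self]
  simp only [h4] at h1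
  rw [← Finset.sum_mul] at h1
  have h5 := mul_right_cancel₀ hJ0.2 h1
  rw [← h5]
  simp

/-- The analysis at one puncture. -/
theorem loc {γ β βd H Hd : Matrix (Fin r) (Fin r) ℂ} {w : Fin r → ℝ} (hγ : IsUnit γ.det)
    (hw : StrictMono w) (hA : UT (γ * β * γ⁻¹)) (hAd : ∀ a, ((γ * β * γ⁻¹) a a).re = w a)
    (hH : H.PosDef) (hβ : (H * β).IsHermitian) (hB : UT (γ * βd * γ⁻¹))
    (hBd : ∀ a, ((γ * βd * γ⁻¹) a a).re = 0) (hHd : Hd.IsHermitian)
    (hc : (H * βd + Hd * β).IsHermitian) :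
    (∀ a, (γ * β * γ⁻¹) a a = (w a : ℂ)) ∧ ∃ ρ : ℝ, ρ ≤ 0 ∧ (H⁻¹ * Hd * βd).trace = (ρ : ℂ) ∧
      (ρ = 0 → βd = 0 ∧ H⁻¹ * Hd * β = β * (H⁻¹ * Hd)) := by
  have hγi : γ⁻¹ * γ = 1 := Matrix.nonsing_inv_mul _ hγ
  have hγi' : γ * γ⁻¹ = 1 := Matrix.mul_nonsing_inv _ hγ
  have hP : ((γ⁻¹)ᴴ * H * γ⁻¹).PosDef := by
    apply hH.conjTranspose_mul_mul_same
    apply Matrix.mulVec_injective_of_isUnit
    exact ⟨⟨γ⁻¹, γ, hγi, hγi'⟩, rfl⟩
  obtain ⟨T, hT, hTP⟩ := chol hP
  set F : Matrix (Fin r) (Fin r) ℂ := γ⁻¹ * T with hF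
  set F' : Matrix (Fin r) (Fin r) ℂ := Fᴴ * H with hF'
  have hFF : F' * F = 1 := by
    rw [hF', hF, Matrix.conjTranspose_mul]
    rw [← hTP]
    simp only [Matrix.mul_assoc]
  have hFF' : F * F' = 1 := mul_eq_one_comm.1 hFF
  set T' : Matrix (Fin r) (Fin r) ℂ := F' * γ⁻¹ with hT'
  have hγF : γ * F = T := by
    rw [hF, ← Matrix.mul_assoc, hγi', Matrix.one_mul]
  have hTγ : T' * γ = F' := by
    rw [hT', Matrix.mul_assoc, hγi, Matrix.mul_one]
  have hTT : T' * T = 1 := by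
    rw [hT', Matrix.mul_assoc, ← hF, hFF]
  have hTu : UT T' := by
    have hinv : Invertible T := ⟨T', hTT, mul_eq_one_comm.1 hTT⟩
    have h1 : T⁻¹ = T' := Matrix.inv_eq_left_inv hTT
    have h2 := Matrix.blockTriangular_inv_of_blockTriangular hT.blk
    rw [h1] at h2
    exact UT.of h2
  have conjT : ∀ Z : Matrix (Fin r) (Fin r) ℂ, F' * Z * F = T' * (γ * Z * γ⁻¹) * T := by
    intro Z
    rw [← hTγ, hF]
    simp only [Matrix.mul_assoc]
  have dT : ∀ Z : Matrix (Fin r) (Fin r) ℂ, UT (γ * Z * γ⁻¹) → UT (F' * Z * F) ∧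
      ∀ a, (F' * Z * F) a a = (γ * Z * γ⁻¹) a a := by
    intro Z hZ
    rw [conjT]
    refine ⟨(hTu.mul hZ).mul hT, fun a => ?_⟩
    rw [(hTu.mul hZ).diag_mul hT, hTu.diag_mul hZ]
    have h1 : (T' * T) a a = 1 := by rw [hTT]; simp
    rw [hTu.diag_mul hT] at h1
    linear_combination ((γ * Z * γ⁻¹) a a) * h1
  set b : Matrix (Fin r) (Fin r) ℂ := F' * β * F with hb
  set bd : Matrix (Fin r) (Fin r) ℂ := F' * βd * F with hbd
  set η : Matrix (Fin r) (Fin r) ℂ := Fᴴ * Hd * F with hη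
  have b1 : UT b := (dT β hA).1
  have b2 : ∀ a, b a a = (γ * β * γ⁻¹) a a := (dT β hA).2
  have bd1 : UT bd := (dT βd hB).1
  have bd2 : ∀ a, bd a a = (γ * βd * γ⁻¹) a a := (dT βd hB).2
  have bH : b.IsHermitian := by
    have h1 : b = Fᴴ * (H * β) * F := by
      rw [hb, hF']
      simp only [Matrix.mul_assoc]
    rw [h1]
    exact Matrix.isHermitian_conjTranspose_mul_mul _ hβ
  have ηH : η.IsHermitian := Matrix.isHermitian_conjTranspose_mul_mul _ hHd
  have cH : (bd + η * b).IsHermitian := by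
    have h1 : bd + η * b = Fᴴ * (H * βd + Hd * β) * F := by
      have h2 : η * b = Fᴴ * (Hd * β) * F := by
        have h3 : η * b = Fᴴ * Hd * (F * F') * β * F := by
          rw [hη, hb]
          simp only [Matrix.mul_assoc]
        rw [h3, hFF', Matrix.mul_one]
        simp only [Matrix.mul_assoc]
      rw [h2, hbd, hF', Matrix.mul_add, Matrix.add_mul]
      simp only [Matrix.mul_assoc]
    rw [h1]
    exact Matrix.isHermitian_conjTranspose_mul_mul _ hc
  have bw : ∀ a, b a a = (w a : ℂ) := by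
    intro a
    have h1 : star (b a a) = b a a := bH.apply a a
    have h2 : (b a a).re = w a := by rw [b2, hAd]
    apply Complex.ext
    · rw [h2]; simp
    · have h3 := congrArg Complex.im h1
      simp only [Complex.star_def, Complex.conj_im] at h3
      rw [Complex.ofReal_im]
      linarith
  have boff : ∀ i j, i ≠ j → b i j = 0 := by
    intro i j hij
    rcases lt_or_gt_of_ne hij with h | h
    · rw [← bH.apply i j, b1 j i h, star_zero]
    · exact b1 i j h
  have bdiag : b = diagonal (fun i => (w i : ℂ)) := by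
    ext i j
    by_cases hij : i = j
    · subst hij
      rw [bw, Matrix.diagonal_apply_eq]
    · rw [boff i j hij, Matrix.diagonal_apply_ne _ hij]
  have cent : ∀ i j, (bd + η * b) i j = bd i j + η i j * (w j : ℂ) := by
    intro i j
    rw [Matrix.add_apply, bdiag, Matrix.mul_diagonal]
  have cher : ∀ i j, star (bd j i) + η i j * (w i : ℂ) = bd i j + η i j * (w j : ℂ) := by
    intro i j
    have h1 := cH.apply i j
    rw [cent, cent, star_add, star_mul', ηH.apply i j] at h1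
    have h2 : star ((w i : ℂ)) = (w i : ℂ) := by simp
    rw [h2] at h1
    exact h1
  have bd0 : ∀ i, bd i i = 0 := by
    intro i
    have h1 := cher i i
    have h2 : star (bd i i) = bd i i := by
      linear_combination h1
    have h3 : (bd i i).re = 0 := by rw [bd2, hBd]
    apply Complex.ext
    · rw [h3]; simp
    · have h4 := congrArg Complex.im h2
      simp only [Complex.star_def, Complex.conj_im] at h4
      rw [Complex.zero_im]
      linarith
  have bdlt : ∀ i j, i < j → bd i j = η i j * ((w i : ℂ) - (w j : ℂ)) := by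
    intro i j hij
    have h1 := cher i j
    rw [bd1 j i hij, star_zero] at h1
    linear_combination -h1
  refine ⟨fun a => by rw [← b2, bw], ∑ i, ∑ j, (if j < i then ‖η i j‖ ^ 2 * (w j - w i) else 0),
    ?_, ?_, ?_⟩
  · refine Finset.sum_nonpos fun i _ => Finset.sum_nonpos fun j _ => ?_
    split_ifs with h
    · exact mul_nonpos_of_nonneg_of_nonpos (by positivity) (by linarith [hw h])
    · exact le_rfl
  · have hHi : H⁻¹ = F * Fᴴ := by
      apply Matrix.inv_eq_left_inv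
      rw [Matrix.mul_assoc]
      exact hFF'
    have h1 : (H⁻¹ * Hd * βd).trace = (η * bd).trace := by
      rw [hHi]
      have h2 : F * Fᴴ * Hd * βd = F * (Fᴴ * Hd * βd) := by simp only [Matrix.mul_assoc]
      rw [h2, Matrix.trace_mul_comm]
      have h3 : η * bd = Fᴴ * Hd * (F * F') * βd * F := by
        rw [hη, hbd]
        simp only [Matrix.mul_assoc]
      rw [h3, hFF', Matrix.mul_one]
    rw [h1, Matrix.trace]
    push_cast
    refine Finset.sum_congr rfl fun i _ => ?_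
    rw [Matrix.diag_apply, Matrix.mul_apply]
    refine Finset.sum_congr rfl fun j _ => ?_
    split_ifs with h
    · rw [bdlt j i h, ← ηH.apply j i]
      have h2 : (‖η i j‖ : ℂ) ^ 2 = η i j * star (η i j) := by
        rw [Complex.star_def, Complex.mul_conj']
      push_cast
      rw [h2]
      ring
    · rcases lt_or_eq_of_le (not_lt.1 h) with h2 | h2
      · rw [bd1 j i h2, mul_zero]
        simp
      · subst h2
        rw [bd0, mul_zero]
        simp
  · intro h0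
    have hnn : ∀ i j, (if j < i then ‖η i j‖ ^ 2 * (w j - w i) else 0) ≤ 0 := by
      intro i j
      split_ifs with h
      · exact mul_nonpos_of_nonneg_of_nonpos (by positivity) (by linarith [hw h])
      · exact le_rfl
    have h1 : ∀ i j, j < i → η i j = 0 := by
      intro i j hij
      have h2 := (Finset.sum_eq_zero_iff_of_nonpos (fun i _ => Finset.sum_nonpos
        fun j _ => hnn i j)).1 h0 i (Finset.mem_univ i)
      have h3 := (Finset.sum_eq_zero_iff_of_nonpos (fun j _ => hnn i j)).1 h2 j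
        (Finset.mem_univ j)
      rw [if_pos hij] at h3
      rcases mul_eq_zero.1 h3 with h4 | h4
      · exact norm_eq_zero.1 (pow_eq_zero_iff (two_ne_zero) |>.1 h4)
      · have := hw hij
        linarith
    have h2 : ∀ i j, i ≠ j → η i j = 0 := by
      intro i j hij
      rcases lt_or_gt_of_ne hij with h | h
      · rw [← ηH.apply i j, h1 j i h, star_zero]
      · exact h1 i j h
    have hbd0 : bd = 0 := by
      ext i j
      rw [Matrix.zero_apply]
      rcases lt_trichotomy i j with h | h | h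
      · rw [bdlt i j h, h2 i j h.ne, zero_mul]
      · subst h
        exact bd0 i
      · exact bd1 i j h
    have back : ∀ Z : Matrix (Fin r) (Fin r) ℂ, F * (F' * Z * F) * F' = Z := by
      intro Z
      have h3 : F * (F' * Z * F) * F' = (F * F') * Z * (F * F') := by
        simp only [Matrix.mul_assoc]
      rw [h3, hFF', Matrix.one_mul, Matrix.mul_one]
    refine ⟨?_, ?_⟩
    · rw [← back βd, ← hbd, hbd0]
      simp
    · have hHi : H⁻¹ = F * Fᴴ := by
        apply Matrix.inv_eq_left_inv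
        rw [Matrix.mul_assoc]
        exact hFF'
      have hηd : η = diagonal (fun i => η i i) := by
        ext i j
        by_cases hij : i = j
        · subst hij
          rw [Matrix.diagonal_apply_eq]
        · rw [h2 i j hij, Matrix.diagonal_apply_ne _ hij]
      have hcomm : η * b = b * η := by
        rw [bdiag, hηd, Matrix.diagonal_mul_diagonal, Matrix.diagonal_mul_diagonal]
        congr 1
        funext i
        rw [mul_comm]
      have hX : H⁻¹ * Hd = F * η * F' := by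
        rw [hHi, hη]
        have h3 : F * (Fᴴ * Hd * F) * F' = F * Fᴴ * Hd * (F * F') := by
          simp only [Matrix.mul_assoc]
        rw [h3, hFF', Matrix.mul_one]
      have hβe : β = F * b * F' := (back β).symm
      have h3 : F * η * F' * (F * b * F') = F * (η * (F' * F) * b) * F' := by
        simp only [Matrix.mul_assoc]
      have h4 : F * b * F' * (F * η * F') = F * (b * (F' * F) * η) * F' := by
        simp only [Matrix.mul_assoc]
      calc H⁻¹ * Hd * β = F * η * F' * (F * b * F') := by rw [hX, ← hβe]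
        _ = F * b * F' * (F * η * F') := by
          rw [h3, h4, hFF, Matrix.mul_one, Matrix.mul_one, hcomm]
        _ = β * (H⁻¹ * Hd) := by rw [hX, ← hβe]

/-- Simultaneous diagonalization. -/
theorem simul {H Hd : Matrix (Fin r) (Fin r) ℂ} (hH : H.PosDef) (hHd : Hd.IsHermitian) :
    ∃ (G : Matrix (Fin r) (Fin r) ℂ) (lam : Fin r → ℝ), Gᴴ * H * G = 1 ∧
      Gᴴ * Hd * G = diagonal (fun i => (lam i : ℂ)) := by
  obtain ⟨T, -, hT⟩ := chol hH
  have hM : (Tᴴ * Hd * T).IsHermitian := Matrix.isHermitian_conjTranspose_mul_mul _ hHd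
  set U : Matrix (Fin r) (Fin r) ℂ := (hM.eigenvectorUnitary : Matrix (Fin r) (Fin r) ℂ) with hU
  have hUU : Uᴴ * U = 1 := by
    have := Unitary.coe_star_mul_self hM.eigenvectorUnitary
    exact this
  have hspec := hM.conjStarAlgAut_star_eigenvectorUnitary
  rw [Unitary.conjStarAlgAut_star_apply] at hspec
  refine ⟨T * U, hM.eigenvalues, ?_, ?_⟩
  · have h1 : (T * U)ᴴ * H * (T * U) = Uᴴ * (Tᴴ * H * T) * U := by
      rw [Matrix.conjTranspose_mul]
      simp only [Matrix.mul_assoc]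
    rw [h1, hT, Matrix.mul_one, hUU]
  · have h1 : (T * U)ᴴ * Hd * (T * U) = Uᴴ * (Tᴴ * Hd * T) * U := by
      rw [Matrix.conjTranspose_mul]
      simp only [Matrix.mul_assoc]
    rw [h1]
    exact hspec

end ItemIInj0

open ItemIInj0 in
theorem prf_I_Inj0 : I_Inj0 := by
  intro r γ w β βd H Hd hγ hw hSt hLD hH hβ hβd0 hut hre hHd hc
  have L := fun x => loc (hγ x) (hw x) (hLD.2 x).1 (hLD.2 x).2 hH (hβ x) (hut x) (hre x) hHd (hc x)
  have dg := fun x => (L x).1
  choose ρ hρ0 hρt hρz using fun x => (L x).2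
  have hsum : ∑ x, ρ x = 0 := by
    have h1 : ((∑ x, ρ x : ℝ) : ℂ) = 0 := by
      push_cast
      rw [Fin.sum_univ_three, ← hρt, ← hρt, ← hρt, ← Matrix.trace_add, ← Matrix.trace_add,
        ← Matrix.mul_add, ← Matrix.mul_add, hβd0, Matrix.mul_zero, Matrix.trace_zero]
    exact_mod_cast h1
  have hρ : ∀ x, ρ x = 0 := fun x =>
    (Finset.sum_eq_zero_iff_of_nonpos (fun x _ => hρ0 x)).1 hsum x (Finset.mem_univ x)
  have hz := fun x => hρz x (hρ x)
  refine ⟨fun x => (hz x).1, ?_⟩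
  rcases Nat.eq_zero_or_pos r with hr | hr
  · subst hr
    exact ⟨0, by ext i; exact i.elim0⟩
  obtain ⟨G, lam, hG, hGd⟩ := simul hH hHd
  set G' : Matrix (Fin r) (Fin r) ℂ := Gᴴ * H with hG'
  have hGG' : G * G' = 1 := mul_eq_one_comm.1 hG
  set s : ℝ := lam ⟨0, hr⟩ with hs
  by_cases hall : ∀ i, lam i = s
  · refine ⟨s, ?_⟩
    have hGs : G'ᴴ * Gᴴ = 1 := by
      rw [← Matrix.conjTranspose_mul, hGG', Matrix.conjTranspose_one]
    have back : ∀ Z : Matrix (Fin r) (Fin r) ℂ, G'ᴴ * (Gᴴ * Z * G) * G' = Z := by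
      intro Z
      have h3 : G'ᴴ * (Gᴴ * Z * G) * G' = (G'ᴴ * Gᴴ) * Z * (G * G') := by
        simp only [Matrix.mul_assoc]
      rw [h3, hGG', hGs, Matrix.one_mul, Matrix.mul_one]
    have h1 : Gᴴ * Hd * G = (s : ℂ) • (Gᴴ * H * G) := by
      rw [hGd, hG, Matrix.smul_one_eq_diagonal]
      congr 1
      funext i
      rw [hall i]
    rw [← back Hd, h1, Matrix.mul_smul, Matrix.smul_mul, back H]
  · exfalso
    push Not at hall
    obtain ⟨i1, hi1⟩ := hall
    classical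
    set I : Finset (Fin r) := Finset.univ.filter (fun i => lam i = s) with hI
    have hk0 : 0 < I.card := Finset.card_pos.2 ⟨⟨0, hr⟩, by simp [hI, hs]⟩
    have hkr : I.card < r := by
      have h1 : I ⊂ Finset.univ := by
        rw [Finset.ssubset_univ_iff]
        intro h
        have h2 : i1 ∈ I := by rw [h]; exact Finset.mem_univ _
        rw [hI, Finset.mem_filter] at h2
        exact hi1 h2.2
      have h2 := Finset.card_lt_card h1
      rwa [Finset.card_univ, Fintype.card_fin] at h2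
    have memI : ∀ i, i ∈ I ↔ lam i = s := fun i => by simp [hI]
    have sumI : ∀ f : Fin r → ℂ, ∑ l ∈ I, f l = ∑ a : Fin I.card, f (I.orderEmbOfFin rfl a) := by
      intro f
      have h := Finset.sum_map (Finset.univ : Finset (Fin I.card)) (I.orderEmbOfFin rfl).toEmbedding f
      rw [Finset.map_orderEmbOfFin_univ] at h
      exact h
    set e : Fin I.card ↪o Fin r := I.orderEmbOfFin rfl with he
    set E : Matrix (Fin r) (Fin I.card) ℂ := G.submatrix id e with hE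
    set D : Matrix (Fin r) (Fin r) ℂ := diagonal (fun i => (lam i : ℂ)) with hD
    have hHi : H⁻¹ = G * Gᴴ := by
      apply Matrix.inv_eq_left_inv
      rw [Matrix.mul_assoc]
      exact hGG'
    have hX : G' * (H⁻¹ * Hd) * G = D := by
      rw [hHi]
      have h1 : G' * (G * Gᴴ * Hd) * G = (G' * G) * (Gᴴ * Hd * G) := by
        simp only [Matrix.mul_assoc]
      rw [h1, hG, Matrix.one_mul, hGd]
    have cm : ∀ Z : Matrix (Fin r) (Fin r) ℂ, H⁻¹ * Hd * Z = Z * (H⁻¹ * Hd) →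
        D * (G' * Z * G) = (G' * Z * G) * D := by
      intro Z hZ
      rw [← hX]
      have h1 : G' * (H⁻¹ * Hd) * G * (G' * Z * G) = G' * (H⁻¹ * Hd * (G * G') * Z) * G := by
        simp only [Matrix.mul_assoc]
      have h2 : G' * Z * G * (G' * (H⁻¹ * Hd) * G) = G' * (Z * (G * G') * (H⁻¹ * Hd)) * G := by
        simp only [Matrix.mul_assoc]
      rw [h1, h2, hGG', Matrix.mul_one, Matrix.mul_one, hZ]
    have hN : ∀ x i j, lam i ≠ lam j → (G' * β x * G) i j = 0 := by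
      intro x i j hij
      have h1 := congrFun (congrFun (cm (β x) (hz x).2) i) j
      rw [hD, Matrix.diagonal_mul, Matrix.mul_diagonal] at h1
      have h2 : ((lam i : ℂ) - (lam j : ℂ)) * (G' * β x * G) i j = 0 := by
        linear_combination h1
      rcases mul_eq_zero.1 h2 with h3 | h3
      · exfalso
        apply hij
        have h4 := sub_eq_zero.1 h3
        exact_mod_cast h4
      · exact h3
    have hτ : ∀ x, β x * E = E * (G' * β x * G).submatrix e e := by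
      intro x
      ext i j
      have h1 : (β x * E) i j = (G * (G' * β x * G)) i (e j) := by
        have h2 : G * (G' * β x * G) = β x * G := by
          have h3 : G * (G' * β x * G) = (G * G') * β x * G := by
            simp only [Matrix.mul_assoc]
          rw [h3, hGG', Matrix.one_mul]
        rw [h2]
        rfl
      rw [h1, Matrix.mul_apply, Matrix.mul_apply]
      have h2 : ∑ l, G i l * (G' * β x * G) l (e j) = ∑ l ∈ I, G i l * (G' * β x * G) l (e j) := by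
        symm
        apply Finset.sum_subset (Finset.subset_univ I)
        intro l _ hl
        have h3 : lam l ≠ lam (e j) := by
          have h4 : e j ∈ I := I.orderEmbOfFin_mem rfl j
          intro h5
          exact hl ((memI _).2 (h5.trans ((memI _).1 h4)))
        rw [hN x l (e j) h3, mul_zero]
      rw [h2]
      rw [sumI]
      rfl
    have hEE : Eᴴ * H * E = 1 := by
      ext i j
      have h1 : (Eᴴ * H * E) i j = (Gᴴ * H * G) (e i) (e j) := rfl
      rw [h1]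
      have h2 : Gᴴ * H * G = 1 := hG
      rw [h2]
      by_cases hij : i = j
      · subst hij
        rw [Matrix.one_apply_eq, Matrix.one_apply_eq]
      · rw [Matrix.one_apply_ne hij, Matrix.one_apply_ne (fun h => hij (e.injective h))]
    have hsub : Pool.Agent.Work.MP_5e5ff1_ag.T.IsSub (E.map C) := by
      refine ⟨(Eᴴ * H).map C, ?_⟩
      rw [← Matrix.map_mul, hEE]
      exact Matrix.map_one C C.map_zero C.map_one
    obtain ⟨J, hJ, hpos⟩ := hSt I.card hk0 hkr (E.map C) hsub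
    have hmn : ∀ x (K : Fin I.card → Fin r), mn (γ x) (E.map C) K
        = C (((γ x * E).submatrix K id).det) := by
      intro x K
      unfold mn
      rw [← Matrix.map_mul, RingHom.map_det]
      rfl
    simp only [hmn, rootMultiplicity_C, natDegree_C, Nat.cast_zero, sub_zero, add_zero] at hpos
    have hle : ∀ x, ∑ a, w x (J x a) ≤ ((G' * β x * G).submatrix e e).trace.re := by
      intro x
      have hx := hγ x
      have hγi : (γ x)⁻¹ * γ x = 1 := Matrix.nonsing_inv_mul _ hx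
      refine minor_le (A := γ x * β x * (γ x)⁻¹) (a0 := γ x * E) (hLD.2 x).1 (dg x) ?_ (hw x)
        (J x) ?_
      · have h1 : γ x * β x * (γ x)⁻¹ * (γ x * E) = γ x * β x * ((γ x)⁻¹ * γ x) * E := by
          simp only [Matrix.mul_assoc]
        rw [h1, hγi, Matrix.mul_one, Matrix.mul_assoc, hτ x, ← Matrix.mul_assoc]
      · intro h
        apply hJ x
        rw [hmn, h, C_0]
    have htr : ∑ x, ((G' * β x * G).submatrix e e).trace = 0 := by
      rw [Fin.sum_univ_three, ← Matrix.trace_add, ← Matrix.trace_add]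
      have h1 : (G' * β 0 * G).submatrix e e + (G' * β 1 * G).submatrix e e
          + (G' * β 2 * G).submatrix e e = (G' * (β 0 + β 1 + β 2) * G).submatrix e e := by
        rw [Matrix.mul_add, Matrix.mul_add, Matrix.add_mul, Matrix.add_mul]
        rfl
      rw [h1, hLD.1, Matrix.mul_zero, Matrix.zero_mul]
      simp
    have h1 : ∑ x, ∑ a, w x (J x a) ≤ 0 := by
      calc ∑ x, ∑ a, w x (J x a) ≤ ∑ x, ((G' * β x * G).submatrix e e).trace.re :=
            Finset.sum_le_sum fun x _ => hle x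
        _ = (∑ x, ((G' * β x * G).submatrix e e).trace).re := by rw [Complex.re_sum]
        _ = 0 := by rw [htr, Complex.zero_re]
    linarith

end Pool.Agent.MSU

end
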