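import Mathlib
import Pool.Agent.Work.MP_5e5ff1_ag.Bd.B01
import Pool.Agent.Work.MP_5e5ff1_ag.T.Sub
import Pool.Agent.Work.MP_5e5ff1_ag.T.Los
import Pool.Agent.Work.MP_5e5ff1_ag.Bd.B03
import Pool.Agent.Work.MP_5e5ff1_ag.T.Par
import Pool.Agent.Work.MP_5e5ff1_ag.A.Defs

/-! Bundle of small proof modules (one section per former module). -/

section

/-! Tensor constructions of frames. -/

open Polynomial Matrix

set_option linter.unusedSectionVars false

namespace Pool.Agent.Work.MP_5e5ff1_ag.T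

section fam

variable {R : Type*} [CommRing R] {κ : Type*} [Fintype κ] [DecidableEq κ]

lemma tensFam_update {a : ℕ} (A : Fin a → Matrix κ κ R) (j : Fin a) (B : Matrix κ κ R)
    (x y : Fin a → κ) :
    tensFam (Function.update A j B) x y
      = B (x j) (y j) * ∏ l ∈ Finset.univ.erase j, A l (x l) (y l) := by
  simp only [tensFam, of_apply]
  rw [← Finset.mul_prod_erase Finset.univ _ (Finset.mem_univ j), Function.update_self]
  congr 1
  apply Finset.prod_congr rfl
  intro l hl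
  rw [Function.update_of_ne (Finset.ne_of_mem_erase hl)]

lemma tensFam_map {S : Type*} [CommRing S] {a : ℕ} (A : Fin a → Matrix κ κ R) (f : R →+* S) :
    (tensFam A).map f = tensFam (fun l => (A l).map f) := by
  ext1 x y
  simp only [tensFam, map_apply, of_apply, map_prod]

lemma update_map {S : Type*} {a : ℕ} (A : Fin a → Matrix κ κ R) (j : Fin a)
    (B : Matrix κ κ R) (f : R → S) :
    (fun l => (Function.update A j B l).map f)
      = Function.update (fun l => (A l).map f) j (B.map f) := by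
  funext l
  by_cases h : l = j
  · subst h; simp
  · simp [Function.update_of_ne h]

/-- one slot -/
def slot {a : ℕ} (j : Fin a) (B : Matrix κ κ R) : Matrix (Fin a → κ) (Fin a → κ) R :=
  tensFam (Function.update (fun _ => 1) j B)

lemma slot_add {a : ℕ} (j : Fin a) (B₁ B₂ : Matrix κ κ R) :
    slot j (B₁ + B₂) = slot j B₁ + slot j B₂ := by
  ext1 x y
  simp only [slot, Matrix.add_apply, tensFam_update, add_mul]

lemma slot_smul {a : ℕ} (j : Fin a) (q : R) (B : Matrix κ κ R) :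
    slot j (q • B) = q • slot j B := by
  ext1 x y
  simp only [slot, Matrix.smul_apply, tensFam_update, smul_eq_mul, mul_assoc]

lemma one_map {S : Type*} [CommRing S] (f : R →+* S) : (1 : Matrix κ κ R).map f = 1 := by
  ext1 i j
  rw [map_apply, Matrix.one_apply, Matrix.one_apply]
  split_ifs <;> simp

lemma slot_map {S : Type*} [CommRing S] {a : ℕ} (j : Fin a) (B : Matrix κ κ R) (f : R →+* S) :
    (slot j B).map f = slot j (B.map f) := by
  rw [slot, tensFam_map, update_map]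
  simp only [one_map]
  rfl

lemma slot_mul {a : ℕ} (j : Fin a) (B A : Matrix κ κ R) :
    slot j B * tensFam (fun _ => A) = tensFam (Function.update (fun _ => A) j (B * A)) := by
  rw [slot, tensFam_mul]
  congr 1
  funext l
  by_cases h : l = j
  · subst h; simp
  · simp [Function.update_of_ne h]

lemma derivative_tensFam {a : ℕ} (A : Fin a → Matrix κ κ R[X]) :
    (tensFam A).map derivative
      = ∑ j, tensFam (Function.update A j ((A j).map derivative)) := by
  ext1 x y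
  rw [Matrix.sum_apply]
  simp only [tensFam_update, map_apply]
  have h1 := derivative_prod_finset (s := Finset.univ) (f := fun l => A l (x l) (y l))
  rw [tensFam, of_apply, h1]
  apply Finset.sum_congr rfl
  intro j _
  rw [mul_comm]

lemma smul_tensFam_update {a : ℕ} (A : Fin a → Matrix κ κ R) (j : Fin a) (q : R)
    (B : Matrix κ κ R) :
    q • tensFam (Function.update A j B) = tensFam (Function.update A j (q • B)) := by
  ext1 x y
  simp only [Matrix.smul_apply, tensFam_update, smul_eq_mul, mul_assoc]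

end fam

section tens

variable {R : Type*} [CommRing R] {r : ℕ}

lemma tens_mul (a : ℕ) (g h : Matrix (Fin r) (Fin r) R) : tens a (g * h) = tens a g * tens a h := by
  rw [tens, tens, tens, tensFam_mul]
  congr 1
  funext l
  rw [fromBlocks_multiply]
  simp

lemma tens_one (a : ℕ) : tens a (1 : Matrix (Fin r) (Fin r) R) = 1 := by
  rw [tens, fromBlocks_one, tensFam_one]

lemma tens_map {S : Type*} [CommRing S] (a : ℕ) (g : Matrix (Fin r) (Fin r) R) (f : R →+* S) :
    (tens a g).map f = tens a (g.map f) := by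
  rw [tens, tensFam_map, tens]
  congr 1
  funext l
  rw [fromBlocks_map, one_map]
  congr 1
  · ext1 i j; simp
  · ext1 i j; simp

lemma tensAdd_eq (a : ℕ) (b : Matrix (Fin r) (Fin r) R) :
    tensAdd a b = ∑ j, slot j (fromBlocks 0 0 0 b) := rfl

lemma fromBlocks_zero_add (b c : Matrix (Fin r) (Fin r) R) :
    (fromBlocks 0 0 0 (b + c) : Matrix (Unit ⊕ Fin r) (Unit ⊕ Fin r) R)
      = fromBlocks 0 0 0 b + fromBlocks 0 0 0 c := by
  rw [fromBlocks_add]; simp

lemma fromBlocks_zero_smul (q : R) (b : Matrix (Fin r) (Fin r) R) :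
    (fromBlocks 0 0 0 (q • b) : Matrix (Unit ⊕ Fin r) (Unit ⊕ Fin r) R)
      = q • fromBlocks 0 0 0 b := by
  rw [fromBlocks_smul]; simp

lemma tensAdd_smul (a : ℕ) (q : R) (b : Matrix (Fin r) (Fin r) R) :
    tensAdd a (q • b) = q • tensAdd a b := by
  rw [tensAdd_eq, tensAdd_eq, Finset.smul_sum]
  apply Finset.sum_congr rfl
  intro j _
  rw [fromBlocks_zero_smul, slot_smul]

lemma tensAdd_map {S : Type*} [CommRing S] (a : ℕ) (b : Matrix (Fin r) (Fin r) R) (f : R →+* S) :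
    (tensAdd a b).map f = tensAdd a (b.map f) := by
  rw [tensAdd_eq, tensAdd_eq]
  have h1 : (∑ j, slot j (fromBlocks 0 0 0 b) :
      Matrix (Fin a → Unit ⊕ Fin r) (Fin a → Unit ⊕ Fin r) R).map f
      = ∑ j, (slot j (fromBlocks 0 0 0 b)).map f := by
    ext1 x y
    simp only [map_apply, Matrix.sum_apply, map_sum]
  rw [h1]
  apply Finset.sum_congr rfl
  intro j _
  rw [slot_map, fromBlocks_map]
  congr 2
  · ext1 i j; simp
  · ext1 i j; simp
  · ext1 i j; simp

lemma Lm_tensAdd (a : ℕ) (b c : Matrix (Fin r) (Fin r) R) :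
    Lm (tensAdd a b) (tensAdd a c) = ∑ j, slot j (fromBlocks 0 0 0 (Lm b c)) := by
  rw [Lm, Lm, tensAdd_map, tensAdd_map, tensAdd_eq, tensAdd_eq, Finset.smul_sum, Finset.smul_sum,
    ← Finset.sum_add_distrib]
  apply Finset.sum_congr rfl
  intro j _
  rw [fromBlocks_zero_add, fromBlocks_zero_smul, fromBlocks_zero_smul, slot_add, slot_smul,
    slot_smul]

/-- the tensor construction of a horizontal matrix is horizontal -/
lemma tens_hor (a : ℕ) {b c : Matrix (Fin r) (Fin r) R} {G : Matrix (Fin r) (Fin r) R[X]}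
    (h : (X * (X - 1) : R[X]) • G.map derivative = Lm b c * G) :
    (X * (X - 1) : R[X]) • (tens a G).map derivative
      = Lm (tensAdd a b) (tensAdd a c) * tens a G := by
  rw [Lm_tensAdd, tens, derivative_tensFam, Finset.smul_sum, Matrix.sum_mul]
  apply Finset.sum_congr rfl
  intro j _
  rw [slot_mul, smul_tensFam_update]
  congr 2
  have h1 : (fromBlocks 1 0 0 G : Matrix (Unit ⊕ Fin r) (Unit ⊕ Fin r) R[X]).map derivative
      = fromBlocks 0 0 0 (G.map derivative) := by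
    rw [fromBlocks_map]
    congr 1
    ext1 i j
    simp
  rw [h1, ← fromBlocks_zero_smul, h, fromBlocks_multiply]
  simp

/-- sums of natural numbers along a word -/
def tensNat (a : ℕ) (m : Fin r → ℕ) (x : Fin a → Unit ⊕ Fin r) : ℕ :=
  ∑ l, Sum.elim (fun _ => 0) m (x l)

lemma tens_diagonal_pow (a : ℕ) (q : R) (m : Fin r → ℕ) :
    tens a (diagonal fun j => q ^ (m j)) = diagonal (fun x => q ^ (tensNat a m x)) := by
  have h1 : (fromBlocks 1 0 0 (diagonal fun j => q ^ (m j)) :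
      Matrix (Unit ⊕ Fin r) (Unit ⊕ Fin r) R)
      = diagonal (fun y => q ^ (Sum.elim (fun _ => 0) m y)) := by
    ext1 x y
    rcases x with x | x <;> rcases y with y | y
    · simp
    · simp
    · simp
    · by_cases h : x = y
      · subst h; simp [fromBlocks_apply₂₂]
      · rw [fromBlocks_apply₂₂, diagonal_apply_ne _ h, diagonal_apply_ne]
        simpa using h
  rw [tens, h1]
  ext1 x y
  simp only [tensFam, of_apply]
  by_cases h : x = y
  · subst h
    simp only [diagonal_apply_eq]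
    rw [Finset.prod_pow_eq_pow_sum]
    rfl
  · rw [diagonal_apply_ne _ h]
    obtain ⟨l, hl⟩ := Function.ne_iff.mp h
    exact Finset.prod_eq_zero (Finset.mem_univ l) (diagonal_apply_ne _ hl)

end tens

section field

variable {F : Type*} [Field F] {r : ℕ}

lemma tens_det_ne (a : ℕ) {g : Matrix (Fin r) (Fin r) F} (hg : g.det ≠ 0) :
    (tens a g).det ≠ 0 := by
  have h1 : tens a g * tens a g⁻¹ = 1 := by
    rw [← tens_mul, Matrix.mul_nonsing_inv g (isUnit_iff_ne_zero.mpr hg), tens_one]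
  intro h
  have h2 := congrArg det h1
  rw [det_mul, h, zero_mul, det_one] at h2
  exact zero_ne_one h2

lemma tens_inv (a : ℕ) {g : Matrix (Fin r) (Fin r) F} (hg : g.det ≠ 0) :
    (tens a g)⁻¹ = tens a g⁻¹ := by
  apply Matrix.inv_eq_right_inv
  rw [← tens_mul, Matrix.mul_nonsing_inv g (isUnit_iff_ne_zero.mpr hg), tens_one]

lemma hat_degree {G : Matrix (Fin r) (Fin r) F[X]} {d : Fin r → ℕ}
    (hd : ∀ i j, (G i j).natDegree ≤ d j) (x y : Unit ⊕ Fin r) :
    ((fromBlocks 1 0 0 G : Matrix (Unit ⊕ Fin r) (Unit ⊕ Fin r) F[X]) x y).natDegree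
      ≤ Sum.elim (fun _ => 0) d y := by
  rcases x with x | x <;> rcases y with y | y
  · simp
  · simp
  · simp
  · simpa using hd x y

lemma hat_coeff (G : Matrix (Fin r) (Fin r) F[X]) (d : Fin r → ℕ) (x y : Unit ⊕ Fin r) :
    ((fromBlocks 1 0 0 G : Matrix (Unit ⊕ Fin r) (Unit ⊕ Fin r) F[X]) x y).coeff
      (Sum.elim (fun _ => 0) d y)
      = (fromBlocks 1 0 0 (Matrix.of fun i j => (G i j).coeff (d j)) :
        Matrix (Unit ⊕ Fin r) (Unit ⊕ Fin r) F) x y := by
  rcases x with x | x <;> rcases y with y | y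
  · simp
  · simp
  · simp
  · simp

theorem TFrame.tens {G : Matrix (Fin r) (Fin r) F[X]} {h₀ h₁ : Matrix (Fin r) (Fin r) F}
    {m₀ m₁ d : Fin r → ℕ} (h : TFrame G h₀ h₁ m₀ m₁ d) (a : ℕ) :
    TFrame (T.tens a G) (T.tens a h₀) (T.tens a h₁) (tensNat a m₀) (tensNat a m₁)
      (tensNat a d) := by
  have hloc : ∀ (h : Matrix (Fin r) (Fin r) F) (H : Matrix (Fin r) (Fin r) F[X]) (x : F)
      (m : Fin r → ℕ), G * h.map C = H * diagonal (fun j => (X - C x) ^ (m j)) →
      T.tens a G * (T.tens a h).map C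
        = T.tens a H * diagonal (fun j => (X - C x) ^ (tensNat a m j)) := by
    intro h H x m e
    have h1 : (T.tens a h).map (C : F →+* F[X]) = T.tens a (h.map C) := tens_map a h C
    rw [h1, ← tens_mul, e, tens_mul, tens_diagonal_pow]
  have heval : ∀ (H : Matrix (Fin r) (Fin r) F[X]) (x : F), (H.map (eval x)).det ≠ 0 →
      ((T.tens a H).map (eval x)).det ≠ 0 := by
    intro H x hH
    have h1 : (T.tens a H).map (evalRingHom x) = T.tens a (H.map (evalRingHom x)) :=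
      tens_map a H (evalRingHom x)
    have h2 : (T.tens a H).map (eval x) = T.tens a (H.map (eval x)) := h1
    rw [h2]
    exact tens_det_ne a hH
  have hcd : ∀ x y : Fin a → Unit ⊕ Fin r, (T.tens a G x y).coeff (tensNat a d y)
      = T.tens a (Matrix.of fun i j => (G i j).coeff (d j)) x y ∧
      (T.tens a G x y).natDegree ≤ tensNat a d y := by
    intro x y
    have h1 := coeff_prod_top (fun l => (fromBlocks 1 0 0 G :
      Matrix (Unit ⊕ Fin r) (Unit ⊕ Fin r) F[X]) (x l) (y l))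
      (fun l => Sum.elim (fun _ => 0) d (y l)) (fun l => hat_degree h.deg _ _) Finset.univ
    refine ⟨h1.1.trans ?_, h1.2⟩
    simp only [hat_coeff]
    rfl
  obtain ⟨H₀, e₀, hH₀⟩ := h.frame₀
  obtain ⟨H₁, e₁, hH₁⟩ := h.frame₁
  refine ⟨tens_det_ne a h.h₀_ne, tens_det_ne a h.h₁_ne, ⟨_, hloc _ _ _ _ e₀, heval _ _ hH₀⟩,
    ⟨_, hloc _ _ _ _ e₁, heval _ _ hH₁⟩, fun x y => (hcd x y).2, ?_, ?_⟩
  · have h1 : (Matrix.of fun i j => (T.tens a G i j).coeff (tensNat a d j))
        = T.tens a (Matrix.of fun i j => (G i j).coeff (d j)) := by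
      ext1 x y
      exact (hcd x y).1
    rw [h1]
    exact tens_det_ne a h.lead
  · intro x hx0 hx1
    exact heval _ _ (h.good x hx0 hx1)

end field

end Pool.Agent.Work.MP_5e5ff1_ag.T

end

section

/-! The automorphism of the ultraproduct given by the Frobenius automorphisms. -/

open Filter

set_option linter.unusedSectionVars false

namespace Pool.Agent.Work.MP_5e5ff1_ag.A

open Pool.Agent.Work.MP_5e5ff1_ag.T

variable {k : ℕ → Type} [∀ n, Field (k n)] [∀ n, IsAlgClosed (k n)] {M : Type} [Field M]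
  {π : (∀ n, k n) →+* M} (p : ℕ → ℕ) [∀ n, Fact (p n).Prime] [∀ n, CharP (k n) (p n)]

/-- the Frobenius maps of all the fields -/
noncomputable def frobAll : (∀ n, k n) →+* (∀ n, k n) :=
  RingHom.pi fun n => (frobenius (k n) (p n)).comp (Pi.evalRingHom k n)

lemma frobAll_apply (z : ∀ n, k n) (n : ℕ) : frobAll p z n = z n ^ p n := rfl

theorem exists_frobenius (hπ : IsUltra π) :
    ∃ Φ : M ≃+* M, ∀ z : ∀ n, k n, Φ (π z) = π (fun n => z n ^ p n) := by
  have hker : RingHom.ker π ≤ RingHom.ker (π.comp (frobAll p)) := by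
    intro z hz
    rw [RingHom.mem_ker] at hz ⊢
    rw [RingHom.comp_apply, hπ.2]
    filter_upwards [(hπ.2 z).mp hz] with n hn
    rw [frobAll_apply, hn, zero_pow (Fact.out : (p n).Prime).ne_zero]
  set Φ₀ : M →+* M := RingHom.liftOfSurjective π hπ.1 ⟨π.comp (frobAll p), hker⟩ with hΦ₀
  have hΦ : ∀ z, Φ₀ (π z) = π (fun n => z n ^ p n) := by
    intro z
    have h1 := RingHom.liftOfRightInverse_comp_apply π _ (Function.rightInverse_surjInv hπ.1)
      ⟨π.comp (frobAll p), hker⟩ z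
    exact h1
  refine ⟨RingEquiv.ofBijective Φ₀ ⟨Φ₀.injective, ?_⟩, hΦ⟩
  intro y
  obtain ⟨z, rfl⟩ := hπ.1 y
  have hroot : ∀ n, ∃ t : k n, t ^ p n = z n := fun n =>
    IsAlgClosed.exists_pow_nat_eq (z n) (Fact.out : (p n).Prime).pos
  choose t ht using hroot
  refine ⟨π t, ?_⟩
  rw [hΦ]
  congr 1
  funext n
  exact ht n

/-- the action on roots of unity -/
theorem frobenius_root (hπ : IsUltra π) {Φ : M ≃+* M}
    (hΦ : ∀ z : ∀ n, k n, Φ (π z) = π (fun n => z n ^ p n)) {N a : ℕ}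
    (ha : ∀ n, p n ≡ a [MOD N]) {ζ : M} (hζ : ζ ^ N = 1) : Φ ζ = ζ ^ a := by
  obtain ⟨z, rfl⟩ := hπ.1 ζ
  rw [hΦ, ← map_pow, ← sub_eq_zero, ← map_sub, hπ.2]
  rw [← map_pow, ← map_one π, ← sub_eq_zero, ← map_sub, hπ.2] at hζ
  filter_upwards [hζ] with n hn
  rw [Pi.sub_apply, Pi.pow_apply, Pi.one_apply, sub_eq_zero] at hn
  rw [Pi.sub_apply, Pi.pow_apply, sub_eq_zero]
  rw [← Nat.div_add_mod (p n) N, ← Nat.div_add_mod a N, pow_add, pow_add, pow_mul, pow_mul, hn,
    one_pow, one_pow, one_mul, one_mul, ha n]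

end Pool.Agent.Work.MP_5e5ff1_ag.A

end

section

/-! Tensor constructions and derivations. -/

open Polynomial Matrix

set_option linter.unusedSectionVars false

namespace Pool.Agent.Work.MP_5e5ff1_ag.A

open Pool.Agent.Work.MP_5e5ff1_ag.T

section fam

variable {R : Type*} [CommRing R] {κ : Type*} [Fintype κ] [DecidableEq κ]

lemma IsDer.map_prod {D : R → R} (h : IsDer D) {α : Type*} [DecidableEq α] (s : Finset α)
    (f : α → R) : D (∏ i ∈ s, f i) = ∑ i ∈ s, D (f i) * ∏ l ∈ s.erase i, f l := by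
  induction s using Finset.induction_on with
  | empty => simp [h.map_one]
  | insert a s ha ih =>
    rw [Finset.prod_insert ha, Finset.sum_insert ha, h.leibniz, ih, Finset.erase_insert ha,
      Finset.mul_sum, add_comm, mul_comm (∏ i ∈ s, f i)]
    congr 1
    apply Finset.sum_congr rfl
    intro i hi
    have hia : i ≠ a := fun e => ha (e ▸ hi)
    rw [Finset.erase_insert_of_ne (Ne.symm hia),
      Finset.prod_insert (fun h' => ha (Finset.mem_of_mem_erase h'))]
    ring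

lemma der_tensFam {D : R → R} (h : IsDer D) {a : ℕ} (A : Fin a → Matrix κ κ R) :
    (tensFam A).map D = ∑ j, tensFam (Function.update A j ((A j).map D)) := by
  ext1 x y
  rw [Matrix.sum_apply]
  simp only [tensFam_update, map_apply]
  rw [tensFam, of_apply, h.map_prod]

end fam

section tens

variable {R : Type*} [CommRing R] {r : ℕ}

/-- the tensor construction of a horizontal matrix is horizontal -/
lemma tens_hor' {D : R → R} (hD : IsDer D) (a : ℕ) {q : R} {L S : Matrix (Fin r) (Fin r) R}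
    (h : q • S.map D = L * S) :
    q • (tens a S).map D = (∑ j, slot j (fromBlocks 0 0 0 L)) * tens a S := by
  rw [tens, der_tensFam hD, Finset.smul_sum, Matrix.sum_mul]
  apply Finset.sum_congr rfl
  intro j _
  rw [slot_mul, smul_tensFam_update]
  congr 2
  have h1 : (fromBlocks 1 0 0 S : Matrix (Unit ⊕ Fin r) (Unit ⊕ Fin r) R).map D
      = fromBlocks 0 0 0 (S.map D) := by
    rw [fromBlocks_map]
    congr 1
    · ext1 i j
      simp [hD.map_one]
    · ext1 i j
      simp [hD.map_zero]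
    · ext1 i j
      simp [hD.map_zero]
  rw [h1, ← fromBlocks_zero_smul, h, fromBlocks_multiply]
  simp

/-- the tensor product of the vectors `1 ⊕ v l` -/
def pureVec {a : ℕ} (v : Fin a → Fin r → R) : (Fin a → Unit ⊕ Fin r) → R :=
  fun f => ∏ l, Sum.elim (fun _ => 1) (v l) (f l)

lemma tens_mulVec (a : ℕ) (S : Matrix (Fin r) (Fin r) R) (v : Fin a → Fin r → R) :
    tens a S *ᵥ pureVec v = pureVec (fun l => S *ᵥ v l) := by
  funext x
  simp only [mulVec, dotProduct, tens, tensFam, of_apply, pureVec]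
  simp only [← Finset.prod_mul_distrib]
  rw [← Fintype.prod_sum (fun (l : Fin a) (y : Unit ⊕ Fin r) =>
    (fromBlocks 1 0 0 S : Matrix (Unit ⊕ Fin r) (Unit ⊕ Fin r) R) (x l) y
      * Sum.elim (fun _ => 1) (v l) y)]
  apply Finset.prod_congr rfl
  intro l _
  rw [Fintype.sum_sum_type]
  rcases x l with z | z
  · simp
  · simp [mulVec, dotProduct]

lemma map_slot_sum {S : Type*} [CommRing S] (a : ℕ) (L : Matrix (Fin r) (Fin r) R) (f : R →+* S) :
    (∑ j : Fin a, slot j (fromBlocks 0 0 0 L :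
      Matrix (Unit ⊕ Fin r) (Unit ⊕ Fin r) R)).map f
      = ∑ j : Fin a, slot j (fromBlocks 0 0 0 (L.map f)) := by
  have h := tensAdd_map a L f
  rw [tensAdd_eq, tensAdd_eq] at h
  exact h

end tens

end Pool.Agent.Work.MP_5e5ff1_ag.A

end

section

/-! The inequality and the structure theorem in terms of rational exponents. -/

open Polynomial Matrix NumberField Filter Topology

namespace Pool.Agent.Work.MP_5e5ff1_ag

variable {K : Type*} [Field K] [NumberField K] {r : ℕ}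

lemma modEq_iff {N a p : ℕ} {u : ℤ} (hu : (N : ℤ) ∣ u * a - 1) :
    p ≡ a [MOD N] ↔ (N : ℤ) ∣ u * (p : ℤ) - 1 := by
  rw [Nat.modEq_iff_dvd]
  constructor
  · intro h
    have : u * (p : ℤ) - 1 = (u * a - 1) - u * ((a : ℤ) - p) := by ring
    rw [this]
    exact dvd_sub hu (h.mul_left u)
  · intro h
    have : (a : ℤ) - p = a * (u * a - 1) * (-1) + a * (u * p - 1) + (u * a - 1) * ((a : ℤ) - p)
        - (u * a - 1) * ((a : ℤ) - p) + ((a : ℤ) - p) + a * (u * a - 1) - a * (u * p - 1) := by ring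
    have h2 : (N : ℤ) ∣ u * ((a : ℤ) - p) := by
      have : u * ((a : ℤ) - p) = (u * a - 1) - (u * p - 1) := by ring
      rw [this]
      exact dvd_sub hu h
    have hcop : IsCoprime (N : ℤ) u := by
      obtain ⟨t, ht⟩ := hu
      exact ⟨-t, a, by linarith⟩
    exact hcop.dvd_of_dvd_mul_left h2

/-- the inequality -/
theorem inequality {n N : ℕ} (hn0 : 0 < n) (hN0 : 0 < N)
    {b c : Matrix (Fin r) (Fin r) (𝓞 K)} {e : Fin 3 × Fin r → ℚ}
    (he : ∀ i, ∃ s : ℤ, e i = s / N) (hexp : IsExponents n b c e) {a : ℕ} {u : ℤ}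
    (hu : (N : ℤ) ∣ u * a - 1)
    (hinf : {P : Ideal (𝓞 K) | P.IsMaximal ∧ ringChar (𝓞 K ⧸ P) ≡ a [MOD N] ∧
      PCurvZero n b c P}.Infinite)
    (x : Fin 3 → ℝ) (hx : x 0 + x 1 + x 2 = 0)
    (hgen : ∀ i, Int.fract (x i.1 - u * ((e i : ℚ) : ℝ)) ≠ 0) :
    (NoCommonEigenvector (b.map (algebraMap (𝓞 K) K)) (c.map (algebraMap (𝓞 K) K)) →
      (r : ℝ) ≤ ∑ i, Int.fract (x i.1 - u * ((e i : ℚ) : ℝ))) ∧
    (NoCommonEigenvector (b.map (algebraMap (𝓞 K) K))ᵀ (c.map (algebraMap (𝓞 K) K))ᵀ →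
      ∑ i, Int.fract (x i.1 - u * ((e i : ℚ) : ℝ)) ≤ 2 * r) := by
  choose s hs using he
  have hNK : (N : K) ≠ 0 := Nat.cast_ne_zero.mpr hN0.ne'
  have hcast : ∀ i, ((e i : ℚ) : K) = (s i : K) / (N : K) := by
    intro i
    rw [hs i]; push_cast; rfl
  have hcastR : ∀ i, ((e i : ℚ) : ℝ) = (s i : ℝ) / (N : ℝ) := by
    intro i
    rw [hs i]; push_cast; rfl
  obtain ⟨h0, h1, h2⟩ := hexp
  simp only [hcast] at h0 h1 h2
  have hbc : ((n : K)⁻¹ • (b + c).map (algebraMap (𝓞 K) K)).charpoly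
      = ∏ j, (X - C (((-(s (2, j)) : ℤ) : K) / (N : K))) := by
    have h3 := charpoly_smul_prod h2 (t := -1) (by norm_num)
    have h4 : (-1 : K) • ((n : K)⁻¹ • (-(b + c)).map (algebraMap (𝓞 K) K))
        = (n : K)⁻¹ • (b + c).map (algebraMap (𝓞 K) K) := by
      ext1 i j
      simp
      ring
    rw [h4] at h3
    rw [h3]
    apply Finset.prod_congr rfl
    intro j _
    congr 2
    push_cast
    ring
  have hset : {P : Ideal (𝓞 K) | P.IsMaximal ∧ PCurvZero n b c P ∧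
      (N : ℤ) ∣ u * (ringChar (𝓞 K ⧸ P) : ℕ) - 1}.Infinite := by
    refine hinf.mono ?_
    rintro P ⟨hP1, hP2, hP3⟩
    exact ⟨hP1, hP3, (modEq_iff hu).mp hP2⟩
  have hx2 : x 2 = -x 0 - x 1 := by linarith
  have e2 : ∀ j : Fin r, u * (((-(s (2, j)) : ℤ) : ℝ) / N) - x 0 - x 1
      = x 2 - u * ((s (2, j) : ℝ) / N) := by
    intro j
    rw [hx2]; push_cast; ring
  have key := asymptotic hn0 hN0 h0 h1 hbc hset (x 0) (x 1)
    (fun j => by have := hgen (0, j); rwa [hcastR] at this)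
    (fun j => by have := hgen (1, j); rwa [hcastR] at this)
    (fun j => by rw [e2 j]; have := hgen (2, j); rwa [hcastR] at this)
  have hsum : ∑ i, Int.fract (x i.1 - u * ((e i : ℚ) : ℝ))
      = ∑ j, Int.fract (x 0 - u * ((s (0, j) : ℝ) / N)) + ∑ j, Int.fract (x 1 - u * ((s (1, j) : ℝ) / N))
        + ∑ j, Int.fract (u * (((-(s (2, j)) : ℤ) : ℝ) / N) - x 0 - x 1) := by
    rw [Fintype.sum_prod_type, Fin.sum_univ_three]
    simp only [hcastR, e2]
  rw [hsum]
  exact key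

lemma interlacing_neg_sum {v : Fin 3 × Fin r → ℝ} {x : Fin 3 → ℝ}
    (hgen : ∀ i, Int.fract (x i.1 - v i) ≠ 0) :
    ∑ i : Fin 3 × Fin r, Int.fract (-(x i.1) - -(v i)) = 3 * r - ∑ i, Int.fract (x i.1 - v i) := by
  have : ∀ i : Fin 3 × Fin r, Int.fract (-(x i.1) - -(v i)) = 1 - Int.fract (x i.1 - v i) := by
    intro i
    rw [← Int.fract_neg (hgen i)]
    congr 1
    ring
  simp only [this, Finset.sum_sub_distrib]
  simp

/-- the structure theorem -/
theorem structure_thm (r : ℕ) (hr : 0 < r) :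
    ∃ L : Finset (Finset ((Fin 3 × Fin r → ℤ) × ℚ)),
      (∀ T ∈ L, (∃ w : Fin 3 × Fin r → ℝ, Solves T w) ∧
        (∀ w : Fin 3 × Fin r → ℝ, Solves T w → Interlacing w) ∧
        r ≤ relRank T ∧
        ∀ a : Fin 3, (∃ e ∈ T, ∃ j j' : Fin r, e.1 (a, j) ≠ e.1 (a, j')) ∨
          ∀ b : Fin 3, a ≠ b → ∀ w : Fin 3 × Fin r → ℝ, Solves T w →
            EvenlySpaced (fun j => w (b, j))) ∧
      ∀ (K : Type) [Field K] [NumberField K] (n N : ℕ) (b c : Matrix (Fin r) (Fin r) (𝓞 K))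
        (e : Fin 3 × Fin r → ℚ), 0 < n → 0 < N → (∀ i, ∃ s : ℤ, e i = s / N) →
        IsExponents n b c e →
        NoCommonEigenvector (b.map (algebraMap (𝓞 K) K)) (c.map (algebraMap (𝓞 K) K)) →
        (∃ T ∈ L, Solves T (fun i => ((e i : ℚ) : ℝ))) ∨
        ∃ a : ℕ, a.Coprime N ∧
          {P : Ideal (𝓞 K) | P.IsMaximal ∧ ringChar (𝓞 K ⧸ P) ≡ a [MOD N] ∧
            PCurvZero n b c P}.Finite ∧
          {P : Ideal (𝓞 K) | P.IsMaximal ∧ ringChar (𝓞 K ⧸ P) ≡ a [MOD N] ∧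
            ¬ PCurvZero n b c P}.Infinite := by
  classical
  obtain ⟨L, hL1, hL2⟩ := torsion_cosets {v : Fin 3 × Fin r → ℝ | Interlacing v}
    isClosed_interlacing (fun w hw z => interlacing_periodic hw z)
  refine ⟨L.filter (fun T => ∃ w : Fin 3 × Fin r → ℝ, Solves T w), ?_, ?_⟩
  · intro T hT
    obtain ⟨hT1, w0, hw0⟩ := Finset.mem_filter.mp hT
    refine ⟨⟨w0, hw0⟩, hL1 T hT1, rank_bound hw0 (hL1 T hT1), ?_⟩
    intro a
    by_cases h : ∃ e ∈ T, ∃ j j' : Fin r, e.1 (a, j) ≠ e.1 (a, j')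
    · exact Or.inl h
    · right
      push Not at h
      intro b hab w hw
      exact one_point hr (hL1 T hT1) a h hw b hab
  · intro K _ _ n N b c e hn0 hN0 he hexp hnc
    by_cases hall : ∀ u : ℤ, IsCoprime u (N : ℤ) →
        (fun j => (u : ℝ) * ((e j : ℚ) : ℝ)) ∈ {v : Fin 3 × Fin r → ℝ | Interlacing v}
    · left
      obtain ⟨T, hT, hs⟩ := hL2 e N hN0 he hall
      exact ⟨T, Finset.mem_filter.mpr ⟨hT, _, hs⟩, hs⟩
    · right
      push Not at hall
      obtain ⟨u, hu, hnot⟩ := hall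
      simp only [Set.mem_ofPred_eq, Interlacing] at hnot
      push Not at hnot
      obtain ⟨x, hx, hgen, hbad⟩ := hnot
      -- a unit and a point with the lower inequality violated
      obtain ⟨u', x', hu', hx', hgen', hlt⟩ : ∃ (u' : ℤ) (x' : Fin 3 → ℝ), IsCoprime u' (N : ℤ) ∧
          x' 0 + x' 1 + x' 2 = 0 ∧ (∀ i : Fin 3 × Fin r, Int.fract (x' i.1 - u' * ((e i : ℚ) : ℝ)) ≠ 0) ∧
          ∑ i, Int.fract (x' i.1 - u' * ((e i : ℚ) : ℝ)) < r := by
        by_cases h1 : (r : ℝ) ≤ ∑ i, Int.fract (x i.1 - u * ((e i : ℚ) : ℝ))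
        · have h2 := hbad h1
          refine ⟨-u, fun i => -(x i), hu.neg_left, by linarith, ?_, ?_⟩
          · intro i
            have e1 : -(x i.1) - ((-u : ℤ) : ℝ) * ((e i : ℚ) : ℝ) = -(x i.1 - u * ((e i : ℚ) : ℝ)) := by
              push_cast; ring
            rw [e1, Int.fract_neg (hgen i)]
            have := Int.fract_lt_one (x i.1 - u * ((e i : ℚ) : ℝ))
            intro h0
            linarith
          · have h3 := interlacing_neg_sum (v := fun i => (u : ℝ) * ((e i : ℚ) : ℝ)) hgen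
            have e1 : ∀ i : Fin 3 × Fin r, -(x i.1) - ((-u : ℤ) : ℝ) * ((e i : ℚ) : ℝ)
                = -(x i.1) - -((u : ℝ) * ((e i : ℚ) : ℝ)) := by
              intro i; push_cast; ring
            simp only [e1]
            rw [h3]
            linarith
        · exact ⟨u, x, hu, hx, hgen, not_le.mp h1⟩
      -- the class
      obtain ⟨p, q, hpq⟩ := hu'
      set a : ℕ := (p % N).toNat with ha
      have hNz : (0 : ℤ) < N := by exact_mod_cast hN0
      have ha' : (a : ℤ) = p % N := Int.toNat_of_nonneg (Int.emod_nonneg _ hNz.ne')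
      have hua : (N : ℤ) ∣ u' * a - 1 := by
        refine ⟨-q - u' * (p / N), ?_⟩
        have h3 := Int.emod_add_mul_ediv p N
        rw [ha']
        have h4 : p % N = p - N * (p / N) := by linarith
        rw [h4]
        linear_combination hpq
      have hcop : IsCoprime (a : ℤ) (N : ℤ) := by
        obtain ⟨t, ht⟩ := hua
        exact ⟨u', -t, by linarith⟩
      have hfin : {P : Ideal (𝓞 K) | P.IsMaximal ∧ ringChar (𝓞 K ⧸ P) ≡ a [MOD N] ∧
            PCurvZero n b c P}.Finite := by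
        by_contra hinf
        have := (inequality hn0 hN0 he hexp hua hinf x' hx' hgen').1 hnc
        linarith
      refine ⟨a, Nat.isCoprime_iff_coprime.mp hcop, hfin, ?_⟩
      have hinfc := infinite_class (K := K) hN0 (u := u') ⟨p, q, hpq⟩
      intro hfin2
      apply hinfc
      refine (hfin.union hfin2).subset ?_
      rintro P ⟨hP1, hP2⟩
      have hP3 := (modEq_iff hua).mpr hP2
      by_cases hc : PCurvZero n b c P
      · exact Or.inl ⟨hP1, hP3, hc⟩
      · exact Or.inr ⟨hP1, hP3, hc⟩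

end Pool.Agent.Work.MP_5e5ff1_ag

end

section

/-! Subbundles and sub-systems at one prime. -/

open Polynomial Matrix

set_option linter.unusedSectionVars false

namespace Pool.Agent.Work.MP_5e5ff1_ag.T

variable {F : Type*} [Field F] {ι : Type*} [Fintype ι] [DecidableEq ι]

/-- the integers `p * weight` -/
def expo (m₀ m₁ d : ι → ℕ) (i : Fin 3 × ι) : ℤ :=
  ![(m₀ i.2 : ℤ), (m₁ i.2 : ℤ), -(d i.2 : ℤ)] i.1

/-- all the data at one prime -/
structure TLevel (p N Q : ℕ) (b c : Matrix ι ι F) (s : Fin 3 × ι → ℤ)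
    (G : Matrix ι ι F[X]) (h₀ h₁ : Matrix ι ι F) (m₀ m₁ d : ι → ℕ) : Prop where
  hor : (X * (X - 1) : F[X]) • G.map derivative = Lm b c * G
  frame : TFrame G h₀ h₁ m₀ m₁ d
  le₀ : ∀ j, m₀ j ≤ Q * p
  le₁ : ∀ j, m₁ j ≤ Q * p
  le₂ : ∀ j, d j ≤ Q * p
  expo : ∀ i, ∃ z : ℤ, N * expo m₀ m₁ d i = s i + p * z

lemma TFrame.det_ne {G : Matrix ι ι F[X]} {h₀ h₁ : Matrix ι ι F}
    {m₀ m₁ d : ι → ℕ} (h : TFrame G h₀ h₁ m₀ m₁ d) : G.det ≠ 0 := by
  obtain ⟨H, e, hH⟩ := h.frame₀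
  intro h0
  have h1 := congrArg det e
  rw [det_mul, h0, zero_mul, det_mul, det_diagonal] at h1
  have h2 : H.det ≠ 0 := by
    intro h2
    apply hH
    rw [← eval_det, h2, eval_zero]
  exact mul_ne_zero h2 (Finset.prod_ne_zero_iff.mpr fun j _ =>
    pow_ne_zero _ (X_sub_C_ne_zero 0)) h1.symm

lemma map_expand_eval (p : ℕ) {m n : Type*} (W : Matrix m n F[X]) (x : F) :
    (W.map (expand F p)).map (eval x) = W.map (eval (x ^ p)) := by
  ext1 i j
  simp only [map_apply, expand_eval]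

lemma map_C_eval {m n : Type*} (g : Matrix m n F) (x : F) : (g.map C).map (eval x) = g := by
  ext1 i j
  simp

lemma natDegree_eq_add_roots [IsAlgClosed F] {θ : F[X]} (hθ : θ ≠ 0)
    (h : ∀ x, x ≠ 0 → x ≠ 1 → θ.eval x ≠ 0) :
    θ.natDegree = θ.rootMultiplicity 0 + θ.rootMultiplicity 1 := by
  classical
  rw [← IsAlgClosed.card_roots_eq_natDegree, ← Multiset.toFinset_sum_count_eq]
  have hsub : θ.roots.toFinset ⊆ {0, 1} := by
    intro a ha
    rw [Multiset.mem_toFinset, mem_roots hθ] at ha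
    by_contra hcon
    simp only [Finset.mem_insert, Finset.mem_singleton, not_or] at hcon
    exact h a hcon.1 hcon.2 ha
  rw [Finset.sum_subset hsub (by
    intro a _ ha
    rw [Multiset.mem_toFinset] at ha
    exact Multiset.count_eq_zero.mpr ha), Finset.sum_pair zero_ne_one]
  simp only [count_roots]

lemma sum_expo {p : ℕ} {h₀ h₁ : Matrix ι ι F} {m₀ m₁ d : ι → ℕ} {k : ℕ}
    (W : Matrix ι (Fin k) F[X]) (I : Fin 3 → Fin k → ι) :
    ∑ x : Fin 3, ∑ j, T.expo m₀ m₁ d (x, I x j) + p * ordPart h₀⁻¹ h₁⁻¹ W I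
      = (val p h₀⁻¹ m₀ 0 W (I 0) : ℤ) + val p h₁⁻¹ m₁ 1 W (I 1) - valInf p d W (I 2) := by
  rw [Fin.sum_univ_three]
  simp only [T.expo, ordPart, val, valInf]
  push_cast
  simp only [Finset.sum_neg_distrib]
  ring

section level

variable {p N Q : ℕ} [hp : Fact p.Prime] [CharP F p]
    {b c : Matrix ι ι F} {s : Fin 3 × ι → ℤ}
    {G : Matrix ι ι F[X]} {h₀ h₁ : Matrix ι ι F} {m₀ m₁ d : ι → ℕ}

/-- from subbundles to sub-systems, at one prime -/
lemma TLevel.up (hL : TLevel p N Q b c s G h₀ h₁ m₀ m₁ d) {k : ℕ}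
    {W : Matrix ι (Fin k) F[X]} (hW : FullRank W) :
    ∃ I : Fin 3 → Fin k → ι, ParNonzero h₀⁻¹ h₁⁻¹ W I ∧
      ∑ x : Fin 3, ∑ j, T.expo m₀ m₁ d (x, I x j) + p * ordPart h₀⁻¹ h₁⁻¹ W I ≤ 0 ∧
      ∀ B : ℕ, -(B : ℤ) ≤ ∑ x : Fin 3, ∑ j, T.expo m₀ m₁ d (x, I x j)
          + p * ordPart h₀⁻¹ h₁⁻¹ W I →
        ∃ (Z : Matrix ι (Fin k) F[X]) (J : Fin k → ι) (η : F[X]) (M : Matrix (Fin k) (Fin k) F[X]),
          η ≠ 0 ∧ η.natDegree ≤ B ∧ Z.submatrix J id = η • (1 : Matrix (Fin k) (Fin k) F[X]) ∧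
          (∀ i j, (Z i j).natDegree ≤ B) ∧
          η • nab (Lm b c) Z = Z * (nab (Lm b c) Z).submatrix J id ∧
          η • (G * W.map (expand F p)) = Z * M := by
  classical
  have hi₀ : (h₀⁻¹).det ≠ 0 := by
    rw [det_nonsing_inv]; simpa using hL.frame.h₀_ne
  have hi₁ : (h₁⁻¹).det ≠ 0 := by
    rw [det_nonsing_inv]; simpa using hL.frame.h₁_ne
  obtain ⟨H₀, e₀, _⟩ := hL.frame.frame₀
  obtain ⟨H₁, e₁, _⟩ := hL.frame.frame₁
  obtain ⟨I₀, hI₀, hmin₀⟩ := exists_min_nat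
    (fun I : Fin k → ι => ((h₀⁻¹.map C * W).submatrix I id).det ≠ 0)
    (fun I => val p h₀⁻¹ m₀ 0 W I) (fullRank_map_C_mul hi₀ hW)
  obtain ⟨I₁, hI₁, hmin₁⟩ := exists_min_nat
    (fun I : Fin k → ι => ((h₁⁻¹.map C * W).submatrix I id).det ≠ 0)
    (fun I => val p h₁⁻¹ m₁ 1 W I) (fullRank_map_C_mul hi₁ hW)
  obtain ⟨I₂, hI₂, hmax₂⟩ := exists_max_nat
    (fun I : Fin k → ι => (W.submatrix I id).det ≠ 0) (fun I => valInf p d W I)
    (∑ I : Fin k → ι, valInf p d W I)
    (fun I _ => Finset.single_le_sum (f := fun I : Fin k → ι => valInf p d W I)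
      (fun _ _ => Nat.zero_le _) (Finset.mem_univ I)) hW
  set μ₀ := val p h₀⁻¹ m₀ 0 W I₀ with hμ₀
  set μ₁ := val p h₁⁻¹ m₁ 1 W I₁ with hμ₁
  set D := valInf p d W I₂ with hD
  have hθ0 : ((X - C 0) ^ μ₀ * (X - C 1) ^ μ₁ : F[X]) ≠ 0 :=
    mul_ne_zero (pow_ne_zero _ (X_sub_C_ne_zero 0)) (pow_ne_zero _ (X_sub_C_ne_zero 1))
  have hθd : ((X - C 0) ^ μ₀ * (X - C 1) ^ μ₁ : F[X]).natDegree = μ₀ + μ₁ := by
    rw [natDegree_mul (pow_ne_zero _ (X_sub_C_ne_zero 0)) (pow_ne_zero _ (X_sub_C_ne_zero 1)),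
      natDegree_pow, natDegree_pow, natDegree_X_sub_C, natDegree_X_sub_C, mul_one, mul_one]
  have hdvd : ∀ J, (X - C 0) ^ μ₀ * (X - C 1) ^ μ₁
      ∣ ((G * W.map (expand F p)).submatrix J id).det := by
    intro J
    have hcop : IsCoprime (X - C 0 : F[X]) (X - C 1) := by
      refine ⟨1, -1, ?_⟩
      rw [C_0, C_1]; ring
    exact (IsCoprime.pow hcop).mul_dvd
      (dvd_minor (p := p) hL.frame.h₀_ne (zero_pow hp.out.ne_zero) e₀ W hmin₀ J)
      (dvd_minor (p := p) hL.frame.h₁_ne (one_pow p) e₁ W hmin₁ J)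
  have hdeg : ∀ J, ((G * W.map (expand F p)).submatrix J id).det.natDegree ≤ D := fun J =>
    natDegree_minor_le hL.frame.deg W hmax₂ J
  have hWe : FullRank (W.map (expand F p)) := by
    obtain ⟨I, hI⟩ := hW
    refine ⟨I, ?_⟩
    rw [minor_map_expand]
    intro h
    exact hI ((expand_eq_zero hp.out.pos).mp h)
  have hYfull : FullRank (G * W.map (expand F p)) := fullRank_mul hL.frame.det_ne hWe
  refine ⟨![I₀, I₁, I₂], ⟨hI₀, hI₁, hI₂⟩, ?_, ?_⟩
  · rw [sum_expo]
    obtain ⟨J, hJ⟩ := hYfull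
    have h1 := natDegree_le_of_dvd (hdvd J) hJ
    rw [hθd] at h1
    have h2 : (μ₀ : ℤ) + μ₁ ≤ D := by exact_mod_cast h1.trans (hdeg J)
    simp only [Matrix.cons_val]
    linarith
  · intro B hB
    rw [sum_expo] at hB
    simp only [Matrix.cons_val] at hB
    have hc : D ≤ ((X - C 0) ^ μ₀ * (X - C 1) ^ μ₁ : F[X]).natDegree + B := by
      rw [hθd]
      have h3 : (D : ℤ) ≤ (μ₀ : ℤ) + μ₁ + B := by linarith
      exact_mod_cast h3
    refine subsystem ?_ hθ0 hdvd hdeg hYfull hc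
    have hder : ((W.map (expand F p)).map derivative : Matrix ι (Fin k) F[X]) = 0 := by
      ext1 i j
      simp only [map_apply, Matrix.zero_apply]
      rw [derivative_expand, CharP.cast_eq_zero, zero_mul, mul_zero]
    rw [derivative_matrix_mul, hder, Matrix.mul_zero, add_zero, ← Matrix.smul_mul,
      ← Matrix.mul_assoc, hL.hor]

/-- from sub-systems to subbundles, at one prime -/
lemma TLevel.down [IsAlgClosed F] (hL : TLevel p N Q b c s G h₀ h₁ m₀ m₁ d) {k : ℕ}
    {Z : Matrix ι (Fin k) F[X]} {V : Matrix (Fin k) ι F[X]} (hV : V * Z = 1)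
    {N' : Matrix (Fin k) (Fin k) F[X]} (hN' : nab (Lm b c) Z = Z * N') {e : ℕ}
    (he : ∀ J : Fin k → ι, (Z.submatrix J id).det.natDegree ≤ e) :
    ∃ W : Matrix ι (Fin k) F[X], IsSub W ∧
      (∃ K : Matrix (Fin k) (Fin k) F[X], G * W.map (expand F p) = Z * K) ∧
      (∀ I : Fin 3 → Fin k → ι, ParNonzero h₀⁻¹ h₁⁻¹ W I →
        -(e : ℤ) ≤ ∑ x : Fin 3, ∑ j, T.expo m₀ m₁ d (x, I x j)
          + p * ordPart h₀⁻¹ h₁⁻¹ W I) ∧
      (∀ J : Fin k → ι, (W.submatrix J id).det.natDegree ≤ e + 2 * k * Q) := by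
  classical
  have hi₀ : (h₀⁻¹).det ≠ 0 := by
    rw [det_nonsing_inv]; simpa using hL.frame.h₀_ne
  have hi₁ : (h₁⁻¹).det ≠ 0 := by
    rw [det_nonsing_inv]; simpa using hL.frame.h₁_ne
  obtain ⟨H₀, e₀, hH₀⟩ := hL.frame.frame₀
  obtain ⟨H₁, e₁, hH₁⟩ := hL.frame.frame₁
  obtain ⟨W₁, K₁, hW₁, hK₁, hGW₁⟩ := descent (p := p) hL.hor hL.frame.det_ne
    (fullRank_of_leftInv hV) hN'
  obtain ⟨W, N₁, hWsub, hWN, hN₁⟩ := saturate hW₁
  set Y := G * W.map (expand F p) with hY
  have hN₁e : (N₁.map (expand F p)).det ≠ 0 := by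
    have h1 : (N₁.map (expand F p)).det = expand F p N₁.det := by
      have := AlgHom.map_det (expand F p : F[X] →ₐ[F] F[X]) N₁
      exact this.symm
    rw [h1]
    intro h
    exact hN₁ ((expand_eq_zero hp.out.pos).mp h)
  have hYN : Y * N₁.map (expand F p) = Z * K₁ := by
    rw [hY, Matrix.mul_assoc, ← map_expand_mul, ← hWN, hGW₁]
  have hYZ : Y = Z * (V * Y) := by
    apply mul_cancel_right hN₁e
    have h1 : Z * (V * Y) * N₁.map (expand F p) = Z * (V * (Y * N₁.map (expand F p))) := by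
      rw [Matrix.mul_assoc, Matrix.mul_assoc]
    rw [h1, hYN, ← Matrix.mul_assoc V, hV, Matrix.one_mul]
  set θ := (V * Y).det with hθ
  have hminor : ∀ J : Fin k → ι, (Y.submatrix J id).det = (Z.submatrix J id).det * θ := by
    intro J
    conv_lhs => rw [hYZ]
    rw [minor_mul_right]
  have hYfull : ∀ x : F, x ≠ 0 → x ≠ 1 → FullRank (Y.map (eval x)) := by
    intro x hx0 hx1
    rw [hY, map_eval_mul, map_expand_eval]
    exact fullRank_mul (hL.frame.good x hx0 hx1) (hWsub.fullRank_eval _)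
  have hθx : ∀ x : F, x ≠ 0 → x ≠ 1 → θ.eval x ≠ 0 := by
    intro x hx0 hx1 h
    obtain ⟨J, hJ⟩ := hYfull x hx0 hx1
    apply hJ
    rw [← eval_det_submatrix, hminor, eval_mul, h, mul_zero]
  have hθ0 : θ ≠ 0 := by
    obtain ⟨x, hx⟩ : ∃ x : F, x ∉ ({0, 1} : Finset F) := Infinite.exists_notMem_finset _
    simp only [Finset.mem_insert, Finset.mem_singleton, not_or] at hx
    intro h
    have := hθx x hx.1 hx.2
    rw [h, eval_zero] at this
    exact this rfl
  have hθdeg := natDegree_eq_add_roots hθ0 hθx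
  -- the orders of `θ`
  have hord : ∀ (h : Matrix ι ι F) (H : Matrix ι ι F[X]) (a : F) (m : ι → ℕ), h.det ≠ 0 →
      a ^ p = a → G * h.map C = H * diagonal (fun j => (X - C a) ^ (m j)) →
      (H.map (eval a)).det ≠ 0 → ∀ f : Fin k → ι, ((h⁻¹.map C * W).submatrix f id).det ≠ 0 →
      θ.rootMultiplicity a ≤ val p h⁻¹ m a W f := by
    intro h H a m hh ha hGh hH f hf
    by_contra hcon
    push Not at hcon
    obtain ⟨J, hJ⟩ := exists_minor_order (p := p) hh ha hGh hH W hf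
    apply hJ
    have h1 := hminor J
    rw [hY] at h1
    rw [h1]
    apply Dvd.dvd.mul_left
    exact (pow_dvd_pow _ hcon).trans (pow_rootMultiplicity_dvd θ a)
  have hord₀ := hord h₀ H₀ 0 m₀ hL.frame.h₀_ne (zero_pow hp.out.ne_zero) e₀ hH₀
  have hord₁ := hord h₁ H₁ 1 m₁ hL.frame.h₁_ne (one_pow p) e₁ hH₁
  -- the degree
  have hdeg : ∀ f : Fin k → ι, (W.submatrix f id).det ≠ 0 →
      valInf p d W f ≤ e + (θ.rootMultiplicity 0 + θ.rootMultiplicity 1) := by
    obtain ⟨I₂, hI₂, hmax₂⟩ := exists_max_nat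
      (fun I : Fin k → ι => (W.submatrix I id).det ≠ 0) (fun I => valInf p d W I)
      (∑ I : Fin k → ι, valInf p d W I)
      (fun I _ => Finset.single_le_sum (f := fun I : Fin k → ι => valInf p d W I)
        (fun _ _ => Nat.zero_le _) (Finset.mem_univ I)) hWsub.fullRank
    obtain ⟨J, hJ0, hJ⟩ := exists_minor_degree (p := p) hL.frame.deg hL.frame.lead W hI₂ hmax₂
    intro f hf
    refine (hmax₂ f hf).trans (hJ.trans ?_)
    rw [← hY, hminor J, ← hθdeg]
    exact natDegree_mul_le.trans (add_le_add (he J) le_rfl)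
  refine ⟨W, hWsub, ⟨_, hYZ⟩, ?_, ?_⟩
  · intro I hI
    rw [sum_expo]
    have h1 := hord₀ (I 0) hI.1
    have h2 := hord₁ (I 1) hI.2.1
    have h3 := hdeg (I 2) hI.2.2
    have h4 : (valInf p d W (I 2) : ℤ) ≤ e + (val p h₀⁻¹ m₀ 0 W (I 0) + val p h₁⁻¹ m₁ 1 W (I 1)) := by
      have : valInf p d W (I 2) ≤ e + (val p h₀⁻¹ m₀ 0 W (I 0) + val p h₁⁻¹ m₁ 1 W (I 1)) := by
        omega
      exact_mod_cast this
    linarith
  · -- bound for the degrees
    have hsmall : ∀ (h : Matrix ι ι F) (a : F) (m : ι → ℕ), (h⁻¹).det ≠ 0 → (∀ j, m j ≤ Q * p) →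
        ∃ f : Fin k → ι, ((h⁻¹.map C * W).submatrix f id).det ≠ 0 ∧
          val p h⁻¹ m a W f ≤ k * (Q * p) := by
      intro h a m hh hm
      have h1 : FullRank ((h⁻¹.map C * W).map (eval a)) := by
        rw [map_eval_mul, map_C_eval]
        exact fullRank_mul hh (hWsub.fullRank_eval a)
      obtain ⟨f, hf⟩ := h1
      rw [← eval_det_submatrix] at hf
      refine ⟨f, fun h0 => hf (by rw [h0, eval_zero]), ?_⟩
      rw [val, rootMultiplicity_eq_zero hf, mul_zero, add_zero]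
      calc ∑ j, m (f j) ≤ ∑ _j : Fin k, Q * p := Finset.sum_le_sum (fun j _ => hm _)
        _ = k * (Q * p) := by simp
    obtain ⟨f₀, hf₀, hv₀⟩ := hsmall h₀ 0 m₀ hi₀ hL.le₀
    obtain ⟨f₁, hf₁, hv₁⟩ := hsmall h₁ 1 m₁ hi₁ hL.le₁
    intro J
    by_cases hJ : (W.submatrix J id).det = 0
    · rw [hJ, natDegree_zero]; exact Nat.zero_le _
    · have h1 := hord₀ f₀ hf₀
      have h2 := hord₁ f₁ hf₁
      have h3 := hdeg J hJ
      rw [valInf] at h3
      have h4 : p * (W.submatrix J id).det.natDegree ≤ e + 2 * (k * (Q * p)) := by omega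
      have h5 : e + 2 * (k * (Q * p)) ≤ p * (e + 2 * k * Q) := by
        have h6 := hp.out.one_le
        nlinarith [Nat.mul_le_mul_right e h6]
      exact Nat.le_of_mul_le_mul_left (h4.trans h5) hp.out.pos

end level

end Pool.Agent.Work.MP_5e5ff1_ag.T

end

section

/-! Local solutions. -/

open Polynomial Matrix

set_option linter.unusedSectionVars false

namespace Pool.Agent.Work.MP_5e5ff1_ag.A

open Pool.Agent.Work.MP_5e5ff1_ag.T

section ode

variable {ι : Type*} [Fintype ι]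

lemma hor_exists {q : PowerSeries ℂ} (hq : IsUnit q) (L : Matrix ι ι (PowerSeries ℂ))
    (v : ι → ℂ) : ∃ y : ι → PowerSeries ℂ, (∀ i, PowerSeries.constantCoeff (y i) = v i) ∧
      ∀ i, q * PowerSeries.derivative ℂ (y i) = ∑ j, L i j * y j := by
  obtain ⟨p, hp⟩ := hq.exists_right_inv
  obtain ⟨y, hy0, hy⟩ := exists_solution (Matrix.of fun i j => p * L i j) v
  refine ⟨y, hy0, fun i => ?_⟩
  rw [hy, Finset.mul_sum]
  apply Finset.sum_congr rfl
  intro j _
  rw [of_apply]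
  linear_combination (L i j * y j) * hp

lemma hor_unique {q : PowerSeries ℂ} (hq : IsUnit q) (L : Matrix ι ι (PowerSeries ℂ))
    {y z : ι → PowerSeries ℂ}
    (h0 : ∀ i, PowerSeries.constantCoeff (y i) = PowerSeries.constantCoeff (z i))
    (hy : ∀ i, q * PowerSeries.derivative ℂ (y i) = ∑ j, L i j * y j)
    (hz : ∀ i, q * PowerSeries.derivative ℂ (z i) = ∑ j, L i j * z j) : y = z := by
  obtain ⟨p, hp⟩ := hq.exists_right_inv
  have key : ∀ y : ι → PowerSeries ℂ,
      (∀ i, q * PowerSeries.derivative ℂ (y i) = ∑ j, L i j * y j) →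
      ∀ i, PowerSeries.derivative ℂ (y i) = ∑ j, (Matrix.of fun i j => p * L i j) i j * y j := by
    intro y h i
    simp only [of_apply, mul_assoc]
    rw [← Finset.mul_sum, ← h i]
    linear_combination (-PowerSeries.derivative ℂ (y i)) * hp
  exact solution_unique _ h0 (key y hy) (key z hz)

end ode

lemma isDer_ps : IsDer (fun f : PowerSeries ℂ => PowerSeries.derivative ℂ f) :=
  ⟨fun x y => map_add _ x y, fun x y => (PowerSeries.derivative ℂ).leibniz x y⟩

variable {x : ℂ}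

lemma isUnit_loc (hx0 : x ≠ 0) (hx1 : x ≠ 1) : IsUnit (loc x (X * (X - 1))) := by
  rw [PowerSeries.isUnit_iff_constantCoeff, constantCoeff_loc]
  apply IsUnit.mk0
  simp only [eval_mul, eval_X, eval_sub, eval_one]
  exact mul_ne_zero hx0 (sub_ne_zero.mpr hx1)

/-- the fundamental matrix at the point `x` with given initial value -/
lemma exists_fundamental {r : ℕ} (B C : Matrix (Fin r) (Fin r) ℂ) (hx0 : x ≠ 0) (hx1 : x ≠ 1)
    (h : Matrix (Fin r) (Fin r) ℂ) :
    ∃ S : Matrix (Fin r) (Fin r) (PowerSeries ℂ),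
      (∀ i j, PowerSeries.constantCoeff (S i j) = h i j) ∧
      loc x (X * (X - 1)) • S.map (fun f => PowerSeries.derivative ℂ f)
        = (Lm B C).map (loc x) * S := by
  choose y hy0 hy using fun j : Fin r => hor_exists (isUnit_loc hx0 hx1) ((Lm B C).map (loc x))
    (fun i => h i j)
  refine ⟨Matrix.of fun i j => y j i, fun i j => hy0 j i, ?_⟩
  ext1 i j
  rw [Matrix.smul_apply, map_apply, of_apply, smul_eq_mul, hy, mul_apply]
  rfl

lemma det_ne_of_init {r : ℕ} {S : Matrix (Fin r) (Fin r) (PowerSeries ℂ)}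
    {h : Matrix (Fin r) (Fin r) ℂ} (hS : ∀ i j, PowerSeries.constantCoeff (S i j) = h i j)
    (hh : h.det ≠ 0) : S.det ≠ 0 := by
  intro h0
  apply hh
  have h1 := congrArg (PowerSeries.constantCoeff (R := ℂ)) h0
  rw [RingHom.map_det, map_zero] at h1
  have h2 : (PowerSeries.constantCoeff (R := ℂ)).mapMatrix S = h := by
    ext1 i j
    exact hS i j
  rwa [h2] at h1

/-- the coefficients of the frozen statement -/
lemma ratfunc_coeff (b c : ℂ) :
    algebraMap ℂ[X] (RatFunc ℂ) (X * (X - 1)) *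
      (algebraMap ℂ (RatFunc ℂ) b / RatFunc.X + algebraMap ℂ (RatFunc ℂ) c / (RatFunc.X - 1))
      = algebraMap ℂ[X] (RatFunc ℂ) ((X - 1) * C b + X * C c) := by
  have hX : (RatFunc.X : RatFunc ℂ) ≠ 0 := RatFunc.X_ne_zero
  have hX1 : (RatFunc.X : RatFunc ℂ) - 1 ≠ 0 := by
    intro h
    have h1 : algebraMap ℂ[X] (RatFunc ℂ) (X - 1) = 0 := by
      rw [map_sub, RatFunc.algebraMap_X, map_one, h]
    rw [map_eq_zero_iff _ (IsFractionRing.injective ℂ[X] (RatFunc ℂ))] at h1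
    have h2 := congrArg (eval 0) h1
    simp at h2
  have hC : ∀ z : ℂ, algebraMap ℂ (RatFunc ℂ) z = algebraMap ℂ[X] (RatFunc ℂ) (C z) := by
    intro z
    rw [IsScalarTower.algebraMap_apply ℂ ℂ[X] (RatFunc ℂ), Polynomial.algebraMap_eq]
  rw [hC, hC]
  simp only [map_mul, map_add, map_sub, map_one, RatFunc.algebraMap_X]
  field_simp

section

variable {φ : OO →+* EE} {D : EE → EE} {r : ℕ} {B C : Matrix (Fin r) (Fin r) ℂ}
  {S : Matrix (Fin r) (Fin r) (PowerSeries ℂ)}

lemma matrix_eq (F : Matrix (Fin r) (Fin r) OO)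
    (hφ : ∀ f : ℂ[X], φ (algebraMap (RatFunc ℂ) OO (algebraMap ℂ[X] (RatFunc ℂ) f))
      = algebraMap (PowerSeries ℂ) EE (loc x f)) (i j : Fin r) :
    algebraMap (PowerSeries ℂ) EE (loc x (X * (X - 1))) * φ (((Matrix.of fun i j =>
      algebraMap (RatFunc ℂ) OO (algebraMap ℂ (RatFunc ℂ) (B i j) / RatFunc.X +
         algebraMap ℂ (RatFunc ℂ) (C i j) / (RatFunc.X - 1))) * F) i j)
      = ∑ l, algebraMap (PowerSeries ℂ) EE (loc x (Lm B C i l)) * φ (F l j) := by
  rw [mul_apply, map_sum, Finset.mul_sum]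
  apply Finset.sum_congr rfl
  intro l _
  rw [of_apply, map_mul φ, ← mul_assoc, ← hφ, ← map_mul φ, ← map_mul (algebraMap (RatFunc ℂ) OO),
    ratfunc_coeff, hφ]
  congr 3

/-- algebraic solutions and the local solution at `x` -/
theorem algebraic_iff (hx0 : x ≠ 0) (hx1 : x ≠ 1)
    (hφ : ∀ f : ℂ[X], φ (algebraMap (RatFunc ℂ) OO (algebraMap ℂ[X] (RatFunc ℂ) f))
      = algebraMap (PowerSeries ℂ) EE (loc x f)) (hDer : IsDer D)
    (hD : ∀ f : PowerSeries ℂ, D (algebraMap (PowerSeries ℂ) EE f)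
      = algebraMap (PowerSeries ℂ) EE (PowerSeries.derivative ℂ f))
    (hconst : ∀ e, D e = 0 → ∃ c : ℂ, e = algebraMap (PowerSeries ℂ) EE (PowerSeries.C c))
    {h : Matrix (Fin r) (Fin r) ℂ} (hh : h.det ≠ 0)
    (hS0 : ∀ i j, PowerSeries.constantCoeff (S i j) = h i j)
    (hS : loc x (X * (X - 1)) • S.map (fun f => PowerSeries.derivative ℂ f)
        = (Lm B C).map (loc x) * S) :
    HasAlgebraicSolutions B C ↔ ∀ i j, ∃ z, φ z = algebraMap (PowerSeries ℂ) EE (S i j) := by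
  have hq := isUnit_loc hx0 hx1
  have hQ : algebraMap (PowerSeries ℂ) EE (loc x (X * (X - 1))) ≠ 0 := by
    rw [Ne, map_eq_zero_iff _ algebraMap_EE_injective]
    exact hq.ne_zero
  have hdet := det_ne_of_init hS0 hh
  set εS : Matrix (Fin r) (Fin r) EE := S.map (algebraMap (PowerSeries ℂ) EE) with hεS
  have hεdet : εS.det ≠ 0 := by
    have h1 : εS.det = algebraMap (PowerSeries ℂ) EE S.det :=
      ((algebraMap (PowerSeries ℂ) EE).map_det S).symm
    rw [h1, Ne, map_eq_zero_iff _ algebraMap_EE_injective]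
    exact hdet
  have hSeq : ∀ i j, algebraMap (PowerSeries ℂ) EE (loc x (X * (X - 1))) * D (εS i j)
      = ∑ l, algebraMap (PowerSeries ℂ) EE (loc x (Lm B C i l)) * εS l j := by
    intro i j
    have h1 := congrFun (congrFun hS i) j
    rw [Matrix.smul_apply, map_apply, smul_eq_mul, mul_apply] at h1
    rw [hεS, map_apply, hD, ← map_mul, h1, map_sum]
    apply Finset.sum_congr rfl
    intro l _
    rw [map_mul, map_apply, map_apply]
  constructor
  · rintro ⟨δ, F, hδ0, hδ1, hF, hFeq⟩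
    have hδ : IsDer (δ : OO → OO) := ⟨fun a b => map_add δ a b, fun a b => δ.leibniz a b⟩
    have hcomm : ∀ y : OO, D (φ y) = φ (δ y) :=
      derivation_comm hφ hDer hD hδ hδ0 hδ1
    set M : Matrix (Fin r) (Fin r) EE := F.map φ with hM
    have hMdet : M.det ≠ 0 := by
      have h1 : M.det = φ F.det := (φ.map_det F).symm
      rw [h1, Ne, map_eq_zero]
      exact hF
    have hMeq : ∀ i j, algebraMap (PowerSeries ℂ) EE (loc x (X * (X - 1))) * D (M i j)
        = ∑ l, algebraMap (PowerSeries ℂ) EE (loc x (Lm B C i l)) * M l j := by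
      intro i j
      have h1 := congrFun (congrFun hFeq i) j
      rw [map_apply] at h1
      rw [hM, map_apply, hcomm, h1, matrix_eq F hφ]
      rfl
    set T : Matrix (Fin r) (Fin r) EE := εS⁻¹ * M with hT
    have hST : εS * T = M := by
      rw [hT, ← Matrix.mul_assoc, Matrix.mul_nonsing_inv εS (isUnit_iff_ne_zero.mpr hεdet),
        Matrix.one_mul]
    have hDT : εS * T.map D = 0 := by
      ext1 i j
      have h1 := hMeq i j
      rw [← hST, mul_apply, hDer.map_sum] at h1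
      simp only [hDer.leibniz, Finset.sum_add_distrib, mul_add] at h1
      have h2 : algebraMap (PowerSeries ℂ) EE (loc x (X * (X - 1)))
          * ∑ l, T l j * D (εS i l)
          = ∑ l, algebraMap (PowerSeries ℂ) EE (loc x (Lm B C i l)) * (εS * T) l j := by
        have h3 : algebraMap (PowerSeries ℂ) EE (loc x (X * (X - 1)))
            * ∑ l, T l j * D (εS i l)
            = ∑ l, T l j * ∑ m, algebraMap (PowerSeries ℂ) EE (loc x (Lm B C i m)) * εS m l := by
          rw [Finset.mul_sum]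
          apply Finset.sum_congr rfl
          intro l _
          rw [← hSeq]; ring
        rw [h3]
        simp only [mul_apply, Finset.mul_sum]
        rw [Finset.sum_comm]
        apply Finset.sum_congr rfl
        intro l _
        apply Finset.sum_congr rfl
        intro m _
        ring
      rw [h2] at h1
      have h4 := add_eq_right.mp h1
      have h5 := (mul_eq_zero.mp h4).resolve_left hQ
      rw [mul_apply, Matrix.zero_apply]
      simpa only [map_apply] using h5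
    have hT0 : T.map D = 0 := by
      have h1 : εS⁻¹ * (εS * T.map D) = 0 := by rw [hDT, Matrix.mul_zero]
      rwa [← Matrix.mul_assoc, Matrix.nonsing_inv_mul εS (isUnit_iff_ne_zero.mpr hεdet),
        Matrix.one_mul] at h1
    have hTc : ∀ i j, ∃ c : ℂ, T i j = algebraMap (PowerSeries ℂ) EE (PowerSeries.C c) := by
      intro i j
      exact hconst _ (congrFun (congrFun hT0 i) j)
    choose c hc using hTc
    set cc : Matrix (Fin r) (Fin r) ℂ := Matrix.of c with hcc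
    set ψ : ℂ →+* EE := (algebraMap (PowerSeries ℂ) EE).comp PowerSeries.C with hψ
    have hTψ : T = cc.map ψ := by
      ext1 i j
      exact hc i j
    have hccdet : cc.det ≠ 0 := by
      intro h0
      apply hMdet
      rw [← hST, det_mul, hTψ]
      have h1 : (cc.map ψ).det = ψ cc.det := (ψ.map_det cc).symm
      rw [h1, h0, map_zero, mul_zero]
    intro i j
    refine ⟨∑ l, F i l * algebraMap (RatFunc ℂ) OO (algebraMap ℂ[X] (RatFunc ℂ)
      (Polynomial.C (cc⁻¹ l j))), ?_⟩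
    have h2 : εS = M * cc⁻¹.map ψ := by
      rw [← hST, hTψ, Matrix.mul_assoc, ← Matrix.map_mul, Matrix.mul_nonsing_inv cc
        (isUnit_iff_ne_zero.mpr hccdet)]
      have : (1 : Matrix (Fin r) (Fin r) ℂ).map ψ = 1 := one_map ψ
      rw [this, Matrix.mul_one]
    have h3 : εS i j = algebraMap (PowerSeries ℂ) EE (S i j) := rfl
    rw [← h3, h2, mul_apply, map_sum]
    apply Finset.sum_congr rfl
    intro l _
    rw [map_mul, hφ]
    congr 2
    rw [loc_apply, C_comp, Polynomial.coe_C]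
    rfl
  · intro hz
    choose z hz using hz
    obtain ⟨δ, hδ, hδ0, hδ1⟩ := exists_derivation_OO
    have hcomm : ∀ y : OO, D (φ y) = φ (δ y) := derivation_comm hφ hDer hD hδ hδ0 hδ1
    have hint : ∀ m : ℤ, δ (m : OO) = 0 := by
      intro m
      have h1 : ∀ m : ℕ, δ (m : OO) = 0 := by
        intro m
        induction m with
        | zero => rw [Nat.cast_zero, hδ.map_zero]
        | succ m ih => rw [Nat.cast_succ, hδ.map_add, ih, hδ.map_one, add_zero]
      obtain ⟨k, rfl | rfl⟩ := m.eq_nat_or_neg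
      · rw [Int.cast_natCast, h1]
      · rw [Int.cast_neg, Int.cast_natCast, hδ.map_neg, h1, neg_zero]
    let δ' : Derivation ℤ (AlgebraicClosure (RatFunc ℂ)) (AlgebraicClosure (RatFunc ℂ)) :=
      { toFun := δ
        map_add' := hδ.map_add
        map_smul' := by
          intro m y
          rw [Algebra.smul_def, hδ.leibniz, eq_intCast, hint, mul_zero, add_zero,
            RingHom.id_apply, zsmul_eq_mul]
        map_one_eq_zero' := hδ.map_one
        leibniz' := hδ.leibniz }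
    refine ⟨δ', Matrix.of z, hδ0, hδ1, ?_, ?_⟩
    · intro h0
      apply hεdet
      have h1 : (Matrix.of z).map φ = εS := by
        ext1 i j
        exact hz i j
      rw [← h1]
      have h2 : ((Matrix.of z).map φ).det = φ (Matrix.of z).det := (φ.map_det _).symm
      rw [h2, h0, map_zero]
    · ext1 i j
      apply φ.injective
      apply mul_left_cancel₀ hQ
      rw [matrix_eq _ hφ]
      have h1 : φ ((Matrix.of z).map (fun x => δ' x) i j) = D (εS i j) := by
        rw [map_apply, of_apply]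
        have h2 : εS i j = φ (z i j) := (hz i j).symm
        rw [h2, hcomm]
        rfl
      rw [h1, hSeq]
      apply Finset.sum_congr rfl
      intro l _
      rw [of_apply, hz]
      rfl

end

end Pool.Agent.Work.MP_5e5ff1_ag.A

end

section

/-! The correspondence between subbundles of degree zero and sub-systems in the limit. -/

open Filter Polynomial Matrix

set_option linter.unusedSectionVars false

namespace Pool.Agent.Work.MP_5e5ff1_ag.T

/-- stability of the saturation -/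
lemma sat_stable {F : Type*} [Field F] {ι : Type*} [Fintype ι] [DecidableEq ι] {t : ℕ}
    {L : Matrix ι ι F[X]} {S Z : Matrix ι (Fin t) F[X]} {V : Matrix (Fin t) ι F[X]}
    {K Q : Matrix (Fin t) (Fin t) F[X]} {η : F[X]} (hV : V * Z = 1) (hSK : S = Z * K)
    (hK : K.det ≠ 0) (hη : η ≠ 0) (h : η • nab L S = S * Q) : nab L Z = Z * (V * nab L Z) := by
  apply mul_cancel_right hK
  apply smul_matrix_cancel hη
  have h9 : nab L S = nab L Z * K + Z * ((X * (X - 1) : F[X]) • K.map derivative) := by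
    rw [hSK, nab_mul]
  have h10 : nab L Z * K = nab L S - Z * ((X * (X - 1) : F[X]) • K.map derivative) := by
    rw [h9]; abel
  have h11 : η • (nab L Z * K)
      = Z * (K * Q - η • ((X * (X - 1) : F[X]) • K.map derivative)) := by
    rw [h10, smul_sub, h, Matrix.mul_sub, hSK, Matrix.mul_assoc]
    simp only [Matrix.mul_smul]
  have h12 : η • (Z * (V * nab L Z) * K) = Z * (V * (η • (nab L Z * K))) := by
    rw [Matrix.mul_smul, Matrix.mul_smul, Matrix.mul_assoc, Matrix.mul_assoc]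
  rw [h12, h11, ← Matrix.mul_assoc V Z, hV, Matrix.one_mul]

/-- a family of data at infinitely many primes -/
structure LimData {k : ℕ → Type} [∀ n, Field (k n)] {ι : Type*} [Fintype ι] [DecidableEq ι]
    (p : ℕ → ℕ) (N Q : ℕ) (b c : ∀ n, Matrix ι ι (k n)) (s ζ : Fin 3 × ι → ℤ)
    (G : ∀ n, Matrix ι ι (k n)[X]) (h₀ h₁ : ∀ n, Matrix ι ι (k n)) (m₀ m₁ d : ℕ → ι → ℕ) :
    Prop where
  level : ∀ n, TLevel (p n) N Q (b n) (c n) s (G n) (h₀ n) (h₁ n) (m₀ n) (m₁ n) (d n)
  const : ∀ᶠ n in (hyperfilter ℕ : Filter ℕ), ∀ i,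
    N * expo (m₀ n) (m₁ n) (d n) i = s i + p n * ζ i

section

variable {k : ℕ → Type} [∀ n, Field (k n)] [∀ n, IsAlgClosed (k n)] {M : Type} [Field M]
  {π : (∀ n, k n) →+* M} {ι : Type*} [Fintype ι] [DecidableEq ι]
  {p : ℕ → ℕ} [∀ n, Fact (p n).Prime] [∀ n, CharP (k n) (p n)] {N Q : ℕ}
  {b c : ∀ n, Matrix ι ι (k n)} {s ζ : Fin 3 × ι → ℤ}
  {G : ∀ n, Matrix ι ι (k n)[X]} {h₀ h₁ : ∀ n, Matrix ι ι (k n)} {m₀ m₁ d : ℕ → ι → ℕ}

/-- the value at a prime and in the limit -/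
lemma LimData.value (hD : LimData p N Q b c s ζ G h₀ h₁ m₀ m₁ d) {t : ℕ}
    (I : Fin 3 → Fin t → ι) (o : ℤ) :
    ∀ᶠ n in (hyperfilter ℕ : Filter ℕ),
      (N : ℤ) * (∑ x : Fin 3, ∑ j, expo (m₀ n) (m₁ n) (d n) (x, I x j) + p n * o)
        = ∑ x : Fin 3, ∑ j, s (x, I x j)
          + p n * (∑ x : Fin 3, ∑ j, ζ (x, I x j) + N * o) := by
  filter_upwards [hD.const] with n hn
  rw [mul_add, Finset.mul_sum]
  simp only [Finset.mul_sum, hn, Finset.sum_add_distrib, mul_add]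
  ring

lemma parVal_limit {g₀ g₁ : Matrix ι ι M} {t : ℕ} {W : Matrix ι (Fin t) M[X]}
    {I : Fin 3 → Fin t → ι} (hN : 0 < N) :
    (N : ℝ) * parVal g₀ g₁ (fun i => (ζ i : ℝ) / N) W I
      = ((∑ x : Fin 3, ∑ j, ζ (x, I x j) + N * ordPart g₀ g₁ W I : ℤ) : ℝ) := by
  have hNR : (N : ℝ) ≠ 0 := by exact_mod_cast hN.ne'
  rw [parVal]
  push_cast
  simp only [← Finset.sum_div]
  field_simp

lemma sum_s_bound (s : Fin 3 × ι → ℤ) {t : ℕ} (I : Fin 3 → Fin t → ι) :
    |∑ x : Fin 3, ∑ j, s (x, I x j)| ≤ ((∑ x : Fin 3, ∑ j, (s (x, I x j)).natAbs : ℕ) : ℤ) := by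
  push_cast
  refine (Finset.abs_sum_le_sum_abs _ _).trans ?_
  apply Finset.sum_le_sum
  intro x _
  exact Finset.abs_sum_le_sum_abs _ _

/-- semistability in the limit -/
theorem LimData.semistable (hD : LimData p N Q b c s ζ G h₀ h₁ m₀ m₁ d) (hπ : IsUltra π)
    (hp : Tendsto p (hyperfilter ℕ : Filter ℕ) atTop) (hN : 0 < N) {t : ℕ}
    {W : Matrix ι (Fin t) M[X]} (hW : FullRank W) :
    parDegree ((glue (fun n => (h₀ n)⁻¹)).map π) ((glue (fun n => (h₁ n)⁻¹)).map π)
      (fun i => (ζ i : ℝ) / N) W ≤ 0 := by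
  classical
  obtain ⟨A, hA⟩ := exists_lift hπ W
  subst hA
  have h1 : ∀ᶠ n in (hyperfilter ℕ : Filter ℕ), ∃ I : Fin 3 → Fin t → ι,
      ParNonzero (h₀ n)⁻¹ (h₁ n)⁻¹ (mcomp n A) I ∧
      ∑ x : Fin 3, ∑ j, expo (m₀ n) (m₁ n) (d n) (x, I x j)
            + p n * ordPart (h₀ n)⁻¹ (h₁ n)⁻¹ (mcomp n A) I ≤ 0 := by
    filter_upwards [hπ.fullRank A hW] with n hn
    obtain ⟨I, hI, hle, _⟩ := (hD.level n).up hn
    exact ⟨I, hI, hle⟩
  rw [Ultrafilter.eventually_exists_iff] at h1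
  obtain ⟨I, hI⟩ := h1
  have h2 := hπ.ordPart (fun n => (h₀ n)⁻¹) (fun n => (h₁ n)⁻¹) A I
  have h3 : ParNonzero ((glue (fun n => (h₀ n)⁻¹)).map π) ((glue (fun n => (h₁ n)⁻¹)).map π)
      (mlim π A) I := by
    obtain ⟨n, h4, h5⟩ := (hI.and h2.1).exists
    exact h5.mp h4.1
  refine (parDegree_le _ h3).trans ?_
  set o := ordPart ((glue (fun n => (h₀ n)⁻¹)).map π) ((glue (fun n => (h₁ n)⁻¹)).map π)
    (mlim π A) I with ho
  have h4 : ∑ x : Fin 3, ∑ j, ζ (x, I x j) + N * o ≤ 0 := by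
    by_contra hcon
    push Not at hcon
    have h5 : ∀ᶠ n in (hyperfilter ℕ : Filter ℕ),
        (∑ x : Fin 3, ∑ j, (s (x, I x j)).natAbs : ℕ) < p n := hp.eventually_gt_atTop _
    obtain ⟨n, ⟨⟨⟨hn1, hn2⟩, hn3⟩, hn4⟩, hn5⟩ :=
      ((((hI.and (h2.2 h3)).and (hD.value I o)).and h5)).and hD.const |>.exists
    have h6 := hn1.2
    rw [hn2] at h6
    have h7 := sum_s_bound s I
    rw [abs_le] at h7
    have h8 : (((∑ x : Fin 3, ∑ j, (s (x, I x j)).natAbs : ℕ) : ℤ)) < p n := by exact_mod_cast hn4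
    have h9 : (N : ℤ) * (∑ x : Fin 3, ∑ j, expo (m₀ n) (m₁ n) (d n) (x, I x j) + p n * o) ≤ 0 :=
      mul_nonpos_of_nonneg_of_nonpos (Nat.cast_nonneg N) h6
    rw [hn3] at h9
    have h10 : (p n : ℤ) * 1 ≤ p n * (∑ x : Fin 3, ∑ j, ζ (x, I x j) + N * o) :=
      mul_le_mul_of_nonneg_left hcon (Nat.cast_nonneg _)
    linarith [h7.1]
  have hNR : (0 : ℝ) < N := by exact_mod_cast hN
  have h5 := parVal_limit (ζ := ζ) (g₀ := (glue (fun n => (h₀ n)⁻¹)).map π)
    (g₁ := (glue (fun n => (h₁ n)⁻¹)).map π) (W := mlim π A) (I := I) hN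
  have h6 : (N : ℝ) * parVal ((glue (fun n => (h₀ n)⁻¹)).map π)
      ((glue (fun n => (h₁ n)⁻¹)).map π) (fun i => (ζ i : ℝ) / N) (mlim π A) I ≤ 0 := by
    rw [h5]
    exact_mod_cast h4
  by_contra hcon
  push Not at hcon
  have := mul_pos hNR hcon
  linarith

/-- from subbundles of degree zero to sub-systems -/
theorem LimData.up [IsAlgClosed M] (hD : LimData p N Q b c s ζ G h₀ h₁ m₀ m₁ d) (hπ : IsUltra π)
    (hN : 0 < N) (x : ∀ n, k n) {t : ℕ}
    {W : Matrix ι (Fin t) M[X]} (hW : FullRank W)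
    (hdeg : 0 ≤ parDegree ((glue (fun n => (h₀ n)⁻¹)).map π)
      ((glue (fun n => (h₁ n)⁻¹)).map π) (fun i => (ζ i : ℝ) / N) W) :
    ∃ (Z : Matrix ι (Fin t) M[X]) (V : Matrix (Fin t) ι M[X])
      (N' : Matrix (Fin t) (Fin t) M[X]), V * Z = 1 ∧
      nab (Lm ((glue b).map π) ((glue c).map π)) Z = Z * N' ∧
      (glue (fun n => (G n).map (eval (x n)))).map π
          * W.map (eval (π (fun n => x n ^ p n)))
        = Z.map (eval (π x)) * (V.map (eval (π x))
          * ((glue (fun n => (G n).map (eval (x n)))).map π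
            * W.map (eval (π (fun n => x n ^ p n))))) := by
  classical
  obtain ⟨A, hA⟩ := exists_lift hπ W
  subst hA
  -- the indices
  have h1 : ∀ᶠ n in (hyperfilter ℕ : Filter ℕ), ∃ I : Fin 3 → Fin t → ι,
      ParNonzero (h₀ n)⁻¹ (h₁ n)⁻¹ (mcomp n A) I ∧
      ∀ B : ℕ, -(B : ℤ) ≤ ∑ x : Fin 3, ∑ j, expo (m₀ n) (m₁ n) (d n) (x, I x j)
          + p n * ordPart (h₀ n)⁻¹ (h₁ n)⁻¹ (mcomp n A) I →
        ∃ (J : Fin t → ι) (Z : Matrix ι (Fin t) (k n)[X]) (η : (k n)[X])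
          (K : Matrix (Fin t) (Fin t) (k n)[X]),
          η ≠ 0 ∧ η.natDegree ≤ B ∧ Z.submatrix J id = η • (1 : Matrix (Fin t) (Fin t) (k n)[X]) ∧
          (∀ i j, (Z i j).natDegree ≤ B) ∧
          η • nab (Lm (b n) (c n)) Z = Z * (nab (Lm (b n) (c n)) Z).submatrix J id ∧
          η • (G n * (mcomp n A).map (expand (k n) (p n))) = Z * K := by
    filter_upwards [hπ.fullRank A hW] with n hn
    obtain ⟨I, hI, _, hB⟩ := (hD.level n).up hn
    refine ⟨I, hI, fun B hB' => ?_⟩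
    obtain ⟨Z, J, η, K, h⟩ := hB B hB'
    exact ⟨J, Z, η, K, h⟩
  rw [Ultrafilter.eventually_exists_iff] at h1
  obtain ⟨I, hI⟩ := h1
  have h2 := hπ.ordPart (fun n => (h₀ n)⁻¹) (fun n => (h₁ n)⁻¹) A I
  have h3 : ParNonzero ((glue (fun n => (h₀ n)⁻¹)).map π) ((glue (fun n => (h₁ n)⁻¹)).map π)
      (mlim π A) I := by
    obtain ⟨n, h4, h5⟩ := (hI.and h2.1).exists
    exact h5.mp h4.1
  have h4 := h2.2 h3
  have h5 := hdeg.trans (parDegree_le _ h3)
  set o := ordPart ((glue (fun n => (h₀ n)⁻¹)).map π) ((glue (fun n => (h₁ n)⁻¹)).map π)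
      (mlim π A) I with ho
  set B : ℕ := ∑ x : Fin 3, ∑ j, (s (x, I x j)).natAbs with hB
  have hNR : (0 : ℝ) < N := by exact_mod_cast hN
  have h6 : (0 : ℤ) ≤ ∑ x : Fin 3, ∑ j, ζ (x, I x j) + N * o := by
    have h7 := mul_nonneg hNR.le h5
    rw [parVal_limit hN] at h7
    exact_mod_cast h7
  have h7 : ∀ᶠ n in (hyperfilter ℕ : Filter ℕ), ∃ (J : Fin t → ι),
      ∃ (Z : Matrix ι (Fin t) (k n)[X]) (η : (k n)[X])
          (K : Matrix (Fin t) (Fin t) (k n)[X]),
          η ≠ 0 ∧ η.natDegree ≤ B ∧ Z.submatrix J id = η • (1 : Matrix (Fin t) (Fin t) (k n)[X]) ∧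
          (∀ i j, (Z i j).natDegree ≤ B) ∧
          η • nab (Lm (b n) (c n)) Z = Z * (nab (Lm (b n) (c n)) Z).submatrix J id ∧
          η • (G n * (mcomp n A).map (expand (k n) (p n))) = Z * K := by
    filter_upwards [hI, h4, hD.value I o] with n hn hn' hn''
    apply hn.2 B
    rw [hn']
    have h9 := (abs_le.mp (sum_s_bound s I)).1
    have h10 : -(B : ℤ) ≤ (N : ℤ) * (∑ x : Fin 3, ∑ j,
        expo (m₀ n) (m₁ n) (d n) (x, I x j) + p n * o) := by
      rw [hn'']
      have := mul_nonneg (Nat.cast_nonneg (p n) : (0 : ℤ) ≤ p n) h6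
      linarith
    by_contra hlt
    push Not at hlt
    have hN1 : (1 : ℤ) ≤ N := by exact_mod_cast hN
    have hB0 : (0 : ℤ) ≤ B := Nat.cast_nonneg _
    nlinarith
  rw [Ultrafilter.eventually_exists_iff] at h7
  obtain ⟨J, hJ⟩ := h7
  -- glue the sub-systems
  have h8 : ∀ n, ∃ (Z : Matrix ι (Fin t) (k n)[X]) (η : (k n)[X])
      (K : Matrix (Fin t) (Fin t) (k n)[X]),
      η.natDegree ≤ B ∧ (∀ i j, (Z i j).natDegree ≤ B) ∧
      ((∃ (Z : Matrix ι (Fin t) (k n)[X]) (η : (k n)[X])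
          (K : Matrix (Fin t) (Fin t) (k n)[X]),
          η ≠ 0 ∧ η.natDegree ≤ B ∧ Z.submatrix J id = η • (1 : Matrix (Fin t) (Fin t) (k n)[X]) ∧
          (∀ i j, (Z i j).natDegree ≤ B) ∧
          η • nab (Lm (b n) (c n)) Z = Z * (nab (Lm (b n) (c n)) Z).submatrix J id ∧
          η • (G n * (mcomp n A).map (expand (k n) (p n))) = Z * K) →
        η ≠ 0 ∧ Z.submatrix J id = η • (1 : Matrix (Fin t) (Fin t) (k n)[X]) ∧
          η • nab (Lm (b n) (c n)) Z = Z * (nab (Lm (b n) (c n)) Z).submatrix J id ∧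
          η • (G n * (mcomp n A).map (expand (k n) (p n))) = Z * K) := by
    intro n
    by_cases hn : ∃ (Z : Matrix ι (Fin t) (k n)[X]) (η : (k n)[X])
          (K : Matrix (Fin t) (Fin t) (k n)[X]),
          η ≠ 0 ∧ η.natDegree ≤ B ∧ Z.submatrix J id = η • (1 : Matrix (Fin t) (Fin t) (k n)[X]) ∧
          (∀ i j, (Z i j).natDegree ≤ B) ∧
          η • nab (Lm (b n) (c n)) Z = Z * (nab (Lm (b n) (c n)) Z).submatrix J id ∧
          η • (G n * (mcomp n A).map (expand (k n) (p n))) = Z * K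
    · obtain ⟨Z, η, K, h1, h2, h3, h4, h5, h6⟩ := hn
      exact ⟨Z, η, K, h2, h4, fun _ => ⟨h1, h3, h5, h6⟩⟩
    · exact ⟨0, 0, 0, by simp, by simp, fun h => absurd h hn⟩
  choose Zs ηs Ks hη hZ hall using h8
  obtain ⟨S, hS⟩ := exists_glue_matrix Zs hZ
  obtain ⟨E, hE⟩ := exists_glue_poly ηs hη
  have hE0 : E.map π ≠ 0 := by
    rw [hπ.poly_ne_zero]
    filter_upwards [hJ] with n hn
    rw [hE n]
    exact (hall n hn).1
  have hSfull : FullRank (mlim π S) := by
    refine ⟨J, ?_⟩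
    rw [lim_minor, hπ.poly_ne_zero]
    filter_upwards [hJ] with n hn
    rw [← comp_minor, hS n, (hall n hn).2.1, det_smul, det_one, mul_one]
    exact pow_ne_zero _ (hall n hn).1
  have hSnab : E.map π • nab (Lm ((glue b).map π) ((glue c).map π)) (mlim π S)
      = mlim π S * (nab (Lm ((glue b).map π) ((glue c).map π)) (mlim π S)).submatrix J id := by
    rw [← mlim_nab, ← mlim_submatrix, ← mlim_smul, ← mlim_mul, mlim_eq_iff hπ]
    filter_upwards [hJ] with n hn
    rw [mcomp_smul, mcomp_mul, mcomp_submatrix, mcomp_nab, hS n, hE n]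
    exact (hall n hn).2.2.1
  -- saturate
  obtain ⟨Z, K, ⟨V, hV⟩, hSK, hK⟩ := saturate hSfull
  set L := Lm ((glue b).map π) ((glue c).map π) with hL
  have hZnab : nab L Z = Z * (V * nab L Z) := sat_stable hV hSK hK hE0 hSnab
  refine ⟨Z, V, V * nab L Z, hV, hZnab, ?_⟩
  -- the fibres
  obtain ⟨Z', hZ'⟩ := exists_lift hπ Z
  obtain ⟨V', hV'⟩ := exists_lift hπ V
  obtain ⟨K', hK'⟩ := exists_lift hπ K
  have e1 : ∀ᶠ n in (hyperfilter ℕ : Filter ℕ), mcomp n V' * mcomp n Z' = 1 := by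
    have h9 : mlim π (V' * Z') = mlim π 1 := by rw [mlim_mul, hV', hZ', hV, mlim_one]
    filter_upwards [(mlim_eq_iff hπ _ _).mp h9] with n hn
    rwa [mcomp_mul, mcomp_one] at hn
  have e2 : ∀ᶠ n in (hyperfilter ℕ : Filter ℕ), mcomp n S = mcomp n Z' * mcomp n K' := by
    have h9 : mlim π S = mlim π (Z' * K') := by rw [mlim_mul, hK', hZ', hSK]
    filter_upwards [(mlim_eq_iff hπ _ _).mp h9] with n hn
    rwa [mcomp_mul] at hn
  rw [← hZ', ← hV', ← ml_eval, ← ml_eval, ← ml_eval, ← ml_mul, ← ml_mul, ← ml_mul, ml_eq_iff hπ]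
  filter_upwards [hJ, e1, e2] with n hn hn1 hn2
  simp only [mc_mul, mc_eval, mc_glue]
  have h10 := (hall n hn).2.2.2
  rw [← hS n, hn2] at h10
  have hη0 := (hall n hn).1
  have h11 : G n * (mcomp n A).map (expand (k n) (p n))
      = mcomp n Z' * (mcomp n V' * (G n * (mcomp n A).map (expand (k n) (p n)))) := by
    apply smul_matrix_cancel hη0
    have h12 : ηs n • (mcomp n Z' * (mcomp n V' * (G n * (mcomp n A).map (expand (k n) (p n)))))
        = mcomp n Z' * (mcomp n V' * (ηs n • (G n * (mcomp n A).map (expand (k n) (p n))))) := by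
      rw [Matrix.mul_smul, Matrix.mul_smul]
    rw [h12, h10, Matrix.mul_assoc (mcomp n Z'), ← Matrix.mul_assoc (mcomp n V'), hn1,
      Matrix.one_mul]
  have h12 := congrArg (fun A => A.map (eval (x n))) h11
  simp only [map_eval_mul, map_expand_eval] at h12
  exact h12

end

end Pool.Agent.Work.MP_5e5ff1_ag.T

end

section

/-! Algebraic solutions and bounded ranks. -/

open Polynomial Matrix

set_option linter.unusedSectionVars false

namespace Pool.Agent.Work.MP_5e5ff1_ag.A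

open Pool.Agent.Work.MP_5e5ff1_ag.T

lemma tensVec_eq {F : Type*} [Field F] {a r : ℕ} (τ : Fin a → Fin r) :
    (tensVec τ : (Fin a → Unit ⊕ Fin r) → F)
      = pureVec (fun l => (Pi.single (τ l) 1 : Fin r → F)) := by
  funext f
  unfold tensVec pureVec
  apply Finset.prod_congr rfl
  intro l _
  rcases f l with z | z
  · rfl
  · simp [Pi.single_apply]

lemma tens_tensVec {R : Type*} [CommRing R] {a r : ℕ} (S : Matrix (Fin r) (Fin r) R)
    (τ : Fin a → Fin r) :
    tens a S *ᵥ pureVec (fun l => (Pi.single (τ l) 1 : Fin r → R))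
      = fun f => ∏ l, Sum.elim (fun _ => 1) (fun i => S i (τ l)) (f l) := by
  rw [tens_mulVec]
  funext f
  unfold pureVec
  apply Finset.prod_congr rfl
  intro l _
  rcases f l with z | z
  · rfl
  · simp

variable {x : ℂ} {r : ℕ} {B C : Matrix (Fin r) (Fin r) ℂ}
  {S : Matrix (Fin r) (Fin r) (PowerSeries ℂ)} {h : Matrix (Fin r) (Fin r) ℂ}

/-- the section through the vector `⊗ (1 ⊕ h e_(τ l))` -/
noncomputable def sec (S : Matrix (Fin r) (Fin r) (PowerSeries ℂ)) {a : ℕ} (τ : Fin a → Fin r) :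
    (Fin a → Unit ⊕ Fin r) → PowerSeries ℂ :=
  fun f => ∏ l, Sum.elim (fun _ => 1) (fun i => S i (τ l)) (f l)

lemma sec_const (hS0 : ∀ i j, PowerSeries.constantCoeff (S i j) = h i j) {a : ℕ}
    (τ : Fin a → Fin r) (f : Fin a → Unit ⊕ Fin r) :
    PowerSeries.constantCoeff (sec S τ f) = (tens a h *ᵥ tensVec τ) f := by
  rw [tensVec_eq, tens_tensVec, sec, map_prod]
  apply Finset.prod_congr rfl
  intro l _
  rcases f l with z | z
  · simp
  · simp [hS0]

lemma pureVec_const {a : ℕ} (τ : Fin a → Fin r) (f : Fin a → Unit ⊕ Fin r) :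
    PowerSeries.derivative ℂ (pureVec (fun l => (Pi.single (τ l) 1 : Fin r → PowerSeries ℂ)) f)
      = 0 := by
  have h1 : pureVec (fun l => (Pi.single (τ l) 1 : Fin r → PowerSeries ℂ)) f
      = PowerSeries.C (pureVec (fun l => (Pi.single (τ l) 1 : Fin r → ℂ)) f) := by
    unfold pureVec
    rw [map_prod]
    apply Finset.prod_congr rfl
    intro l _
    rcases f l with z | z
    · simp
    · simp only [Sum.elim_inr, Pi.single_apply]
      split_ifs <;> simp
  rw [h1, PowerSeries.derivative_C]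

lemma sec_hor (hS : loc x (X * (X - 1)) • S.map (fun f => PowerSeries.derivative ℂ f)
        = (Lm B C).map (loc x) * S) {a : ℕ} (τ : Fin a → Fin r) (f : Fin a → Unit ⊕ Fin r) :
    loc x (X * (X - 1)) * PowerSeries.derivative ℂ (sec S τ f)
      = ∑ g, ((Lm (tensAdd a B) (tensAdd a C)).map (loc x)) f g * sec S τ g := by
  have h1 := tens_hor' isDer_ps a hS
  rw [← map_slot_sum, ← Lm_tensAdd] at h1
  set v : (Fin a → Unit ⊕ Fin r) → PowerSeries ℂ :=
    pureVec (fun l => (Pi.single (τ l) 1 : Fin r → PowerSeries ℂ)) with hv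
  have h2 : sec S τ = tens a S *ᵥ v := by
    rw [hv, tens_tensVec]; rfl
  have h3 : loc x (X * (X - 1)) * PowerSeries.derivative ℂ (sec S τ f)
      = ((loc x (X * (X - 1)) • (tens a S).map (fun f => PowerSeries.derivative ℂ f)) *ᵥ v) f := by
    rw [h2]
    simp only [mulVec, dotProduct, map_sum, Matrix.smul_apply, smul_eq_mul, map_apply]
    rw [Finset.mul_sum]
    apply Finset.sum_congr rfl
    intro g _
    rw [(PowerSeries.derivative ℂ).leibniz, hv, pureVec_const]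
    simp only [smul_eq_mul, mul_zero, zero_add]
    ring
  rw [h3, h1, ← mulVec_mulVec, ← h2]
  rfl

/-- horizontal sections of a stable subbundle -/
lemma sub_hor {ι : Type*} [Fintype ι] [DecidableEq ι] {b c : Matrix ι ι ℂ} {k : ℕ}
    {W : Matrix ι (Fin k) ℂ[X]} {N : Matrix (Fin k) (Fin k) ℂ[X]}
    (hN : nab (Lm b c) W = W * N) {y : Fin k → PowerSeries ℂ}
    (hy : ∀ l, loc x (X * (X - 1)) * PowerSeries.derivative ℂ (y l)
      = ∑ m, ((-N).map (loc x)) l m * y m) (f : ι) :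
    loc x (X * (X - 1)) * PowerSeries.derivative ℂ (∑ l, loc x (W f l) * y l)
      = ∑ g, ((Lm b c).map (loc x)) f g * ∑ l, loc x (W g l) * y l := by
  have h1 : ∀ l, loc x (X * (X - 1)) * PowerSeries.derivative ℂ (loc x (W f l))
      = ∑ g, loc x (Lm b c f g) * loc x (W g l) + ∑ m, loc x (W f m) * loc x (N m l) := by
    intro l
    have h2 := congrFun (congrFun hN f) l
    rw [nab, Matrix.sub_apply, Matrix.smul_apply, smul_eq_mul, map_apply, mul_apply,
      mul_apply, sub_eq_iff_eq_add] at h2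
    rw [loc_derivative, ← map_mul, h2, map_add, map_sum, map_sum, add_comm]
    simp only [map_mul]
  rw [map_sum, Finset.mul_sum]
  have h2 : ∀ l, loc x (X * (X - 1)) * PowerSeries.derivative ℂ (loc x (W f l) * y l)
      = (∑ g, loc x (Lm b c f g) * loc x (W g l) + ∑ m, loc x (W f m) * loc x (N m l)) * y l
        - loc x (W f l) * ∑ m, loc x (N l m) * y m := by
    intro l
    rw [(PowerSeries.derivative ℂ).leibniz, ← h1]
    simp only [smul_eq_mul]
    have h3 := hy l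
    simp only [map_apply, Matrix.neg_apply, map_neg, neg_mul, Finset.sum_neg_distrib] at h3
    linear_combination (loc x (W f l)) * h3
  simp only [h2]
  rw [Finset.sum_sub_distrib]
  have h3 : ∑ l, (∑ m, loc x (W f m) * loc x (N m l)) * y l
      = ∑ l, loc x (W f l) * ∑ m, loc x (N l m) * y m := by
    simp only [Finset.sum_mul, Finset.mul_sum]
    rw [Finset.sum_comm]
    apply Finset.sum_congr rfl
    intro l _
    apply Finset.sum_congr rfl
    intro m _
    ring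
  simp only [add_mul, Finset.sum_add_distrib, h3, add_sub_cancel_right]
  simp only [Finset.sum_mul, Finset.mul_sum, map_apply]
  rw [Finset.sum_comm]
  apply Finset.sum_congr rfl
  intro g _
  apply Finset.sum_congr rfl
  intro l _
  ring

lemma exists_left_kernel {m k : ℕ} (hmk : k < m) (A : Matrix (Fin m) (Fin k) (RatFunc ℂ)) :
    ∃ c : Fin m → RatFunc ℂ, c ≠ 0 ∧ ∀ l, ∑ q, c q * A q l = 0 := by
  have h1 : ¬ Function.Injective (Aᵀ.mulVecLin) := by
    intro hinj
    have h2 := LinearMap.finrank_le_finrank_of_injective hinj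
    simp at h2
    omega
  rw [← LinearMap.ker_eq_bot, Submodule.eq_bot_iff] at h1
  push Not at h1
  obtain ⟨c, hc, hc0⟩ := h1
  refine ⟨c, hc0, fun l => ?_⟩
  have h2 := congrFun (LinearMap.mem_ker.mp hc) l
  simp only [mulVecLin_apply, mulVec, dotProduct, transpose_apply, Pi.zero_apply] at h2
  rw [← h2]
  apply Finset.sum_congr rfl
  intro q _
  ring

lemma card_filter_val {D q : ℕ} (hq : q ≤ D) :
    ((Finset.univ : Finset (Fin D)).filter (fun l : Fin D => (l : ℕ) < q)).card = q := by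
  have h2 : ((Finset.univ : Finset (Fin D)).filter (fun l : Fin D => (l : ℕ) < q)).card
      = ((Finset.range D).filter (fun l : ℕ => l < q)).card := by
    rw [← Nat.Iio_eq_range, ← Fin.map_valEmbedding_univ, Finset.filter_map, Finset.card_map]
    rfl
  rw [h2]
  have h3 : (Finset.range D).filter (fun l : ℕ => l < q) = Finset.range q := by
    ext l
    simp only [Finset.mem_filter, Finset.mem_range]
    omega
  rw [h3, Finset.card_range]

variable {φ : OO →+* EE}

/-- bounded ranks imply algebraic solutions -/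
theorem algebraic_of_bounded (hx0 : x ≠ 0) (hx1 : x ≠ 1)
    (hφ : ∀ f : ℂ[X], φ (algebraMap (RatFunc ℂ) OO (algebraMap ℂ[X] (RatFunc ℂ) f))
      = algebraMap (PowerSeries ℂ) EE (loc x f))
    (hφ' : ∀ e : EE, (∃ f : (RatFunc ℂ)[X], f ≠ 0 ∧
      (f.map (φ.comp (algebraMap (RatFunc ℂ) OO))).eval e = 0) → ∃ y, φ y = e)
    (hS0 : ∀ i j, PowerSeries.constantCoeff (S i j) = h i j)
    (hS : loc x (X * (X - 1)) • S.map (fun f => PowerSeries.derivative ℂ f)
        = (Lm B C).map (loc x) * S) {D : ℕ}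
    (hD : ∀ (a : ℕ) (τ : Fin a → Fin r), ∃ U ∈ connFibres (tensAdd a B) (tensAdd a C) x,
      Module.finrank ℂ U ≤ D ∧ tens a h *ᵥ tensVec τ ∈ U) (i j : Fin r) :
    ∃ z, φ z = algebraMap (PowerSeries ℂ) EE (S i j) := by
  classical
  apply hφ'
  obtain ⟨U, ⟨k, Z, hZ, ⟨N, hN⟩, rfl⟩, hrank, hmem⟩ := hD D (fun _ => j)
  -- the rank
  have hk : k ≤ D := by
    refine le_trans (le_of_eq ?_) hrank
    have h1 : Function.Injective (Z.map (eval x)).mulVecLin := by
      obtain ⟨V, hV⟩ := hZ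
      have h2 : (V.map (eval x)) * (Z.map (eval x)) = 1 := by
        rw [← map_eval_mul, hV, map_eval_one]
      intro v w hvw
      have h3 := congrArg (fun u => (V.map (eval x)) *ᵥ u) hvw
      simpa [mulVecLin_apply, mulVec_mulVec, h2] using h3
    rw [LinearMap.finrank_range_of_inj h1]
    simp
  obtain ⟨v, hv⟩ := hmem
  have hNn : nab (Lm (tensAdd D B) (tensAdd D C)) Z = Z * N := hN
  obtain ⟨y, hy0, hy⟩ := hor_exists (isUnit_loc hx0 hx1) ((-N).map (loc x)) v
  have hsec : sec S (fun _ : Fin D => j) = fun f => ∑ l, loc x (Z f l) * y l := by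
    apply hor_unique (isUnit_loc hx0 hx1) ((Lm (tensAdd D B) (tensAdd D C)).map (loc x))
    · intro f
      rw [sec_const hS0, ← hv, map_sum]
      simp only [mulVecLin_apply, mulVec, dotProduct, map_apply, map_mul, constantCoeff_loc, hy0]
    · intro f
      exact sec_hor hS _ f
    · intro f
      exact sub_hor hNn hy f
  -- the words
  let word : Fin (D + 1) → (Fin D → Unit ⊕ Fin r) := fun q l =>
    if (l : ℕ) < q then Sum.inr i else Sum.inl ()
  have hword : ∀ q : Fin (D + 1), sec S (fun _ : Fin D => j) (word q) = S i j ^ (q : ℕ) := by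
    intro q
    unfold sec
    have h1 : ∀ l : Fin D, Sum.elim (fun _ => (1 : PowerSeries ℂ)) (fun i => S i j) (word q l)
        = if (l : ℕ) < q then S i j else 1 := by
      intro l
      simp only [word]
      split_ifs <;> rfl
    simp only [h1]
    rw [Finset.prod_ite, Finset.prod_const, Finset.prod_const_one, mul_one]
    rw [card_filter_val (Nat.lt_succ_iff.mp q.2)]
  obtain ⟨c, hc0, hc⟩ := exists_left_kernel (Nat.lt_succ_of_le hk)
    (Matrix.of fun (q : Fin (D + 1)) l => algebraMap ℂ[X] (RatFunc ℂ) (Z (word q) l))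
  refine ⟨∑ q : Fin (D + 1), monomial (q : ℕ) (c q), ?_, ?_⟩
  · intro h0
    obtain ⟨q, hq⟩ := Function.ne_iff.mp hc0
    apply hq
    have h1 := congrArg (fun p => coeff p (q : ℕ)) h0
    simp only [finsetSum_coeff, coeff_monomial, coeff_zero] at h1
    rw [Finset.sum_eq_single q (by
      intro b _ hb
      rw [if_neg]
      exact fun h => hb (Fin.ext h)) (by simp), if_pos rfl] at h1
    exact h1
  · rw [Polynomial.map_sum, eval_finsetSum]
    set i₀ : RatFunc ℂ →+* EE := φ.comp (algebraMap (RatFunc ℂ) OO) with hi₀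
    have h1 : ∀ q : Fin (D + 1), ((monomial (q : ℕ) (c q)).map i₀).eval
        (algebraMap (PowerSeries ℂ) EE (S i j))
        = ∑ l, i₀ (c q * algebraMap ℂ[X] (RatFunc ℂ) (Z (word q) l))
          * algebraMap (PowerSeries ℂ) EE (y l) := by
      intro q
      rw [map_monomial, eval_monomial, ← map_pow, ← hword, hsec, map_sum, Finset.mul_sum]
      apply Finset.sum_congr rfl
      intro l _
      have h2 : i₀ (algebraMap ℂ[X] (RatFunc ℂ) (Z (word q) l))
          = algebraMap (PowerSeries ℂ) EE (loc x (Z (word q) l)) := hφ _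
      rw [map_mul i₀, h2, map_mul (algebraMap (PowerSeries ℂ) EE)]
      ring
    simp only [h1]
    rw [Finset.sum_comm]
    apply Finset.sum_eq_zero
    intro l _
    rw [← Finset.sum_mul, ← map_sum]
    have h2 := hc l
    simp only [of_apply] at h2
    rw [h2, map_zero, zero_mul]

/-- the entries of the tensor constructions lie in a finite algebra -/
lemma exists_rep (hz : ∀ i j, ∃ z, φ z = algebraMap (PowerSeries ℂ) EE (S i j)) :
    ∃ D : ℕ, ∀ (a : ℕ) (τ : Fin a → Fin r), Rep (φ.comp (algebraMap (RatFunc ℂ) OO))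
      (fun f => algebraMap (PowerSeries ℂ) EE (sec S τ f)) D := by
  classical
  let : Algebra (RatFunc ℂ) EE := (φ.comp (algebraMap (RatFunc ℂ) OO)).toAlgebra
  let φ' : OO →ₐ[RatFunc ℂ] EE := { φ with commutes' := fun _ => rfl }
  set θ : Set EE := Set.range (fun ij : Fin r × Fin r =>
    algebraMap (PowerSeries ℂ) EE (S ij.1 ij.2)) with hθ
  have hint : ∀ e ∈ θ, IsIntegral (RatFunc ℂ) e := by
    rintro e ⟨ij, rfl⟩
    obtain ⟨z, hz'⟩ := hz ij.1 ij.2
    have h1 : IsIntegral (RatFunc ℂ) z := Algebra.IsIntegral.isIntegral z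
    have h2 := h1.map φ'
    have h3 : φ' z = algebraMap (PowerSeries ℂ) EE (S ij.1 ij.2) := hz'
    rwa [h3] at h2
  have hfg := fg_adjoin_of_finite (Set.finite_range _) hint
  obtain ⟨D, u, hu⟩ := Submodule.fg_iff_exists_fin_generating_family.mp hfg
  refine ⟨D, fun a τ => ?_⟩
  have hmem : ∀ f, algebraMap (PowerSeries ℂ) EE (sec S τ f)
      ∈ Algebra.adjoin (RatFunc ℂ) θ := by
    intro f
    rw [sec, map_prod]
    apply Subalgebra.prod_mem
    intro l _
    rcases f l with z | z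
    · simp only [Sum.elim_inl, map_one]
      exact Subalgebra.one_mem _
    · exact Algebra.subset_adjoin ⟨(z, τ l), rfl⟩
  have hmem' : ∀ f, ∃ c : Fin D → RatFunc ℂ, ∑ l, c l • u l
      = algebraMap (PowerSeries ℂ) EE (sec S τ f) := by
    intro f
    rw [← Submodule.mem_span_range_iff_exists_fun, hu]
    exact hmem f
  choose c hc using hmem'
  refine ⟨Matrix.of c, u, fun f => ?_⟩
  refine (hc f).symm.trans ?_
  apply Finset.sum_congr rfl
  intro l _
  rw [Algebra.smul_def]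
  rfl

/-- algebraic solutions imply bounded ranks -/
theorem bounded_of_algebraic
    (hφ : ∀ f : ℂ[X], φ (algebraMap (RatFunc ℂ) OO (algebraMap ℂ[X] (RatFunc ℂ) f))
      = algebraMap (PowerSeries ℂ) EE (loc x f))
    (hS0 : ∀ i j, PowerSeries.constantCoeff (S i j) = h i j)
    (hS : loc x (X * (X - 1)) • S.map (fun f => PowerSeries.derivative ℂ f)
        = (Lm B C).map (loc x) * S)
    (hz : ∀ i j, ∃ z, φ z = algebraMap (PowerSeries ℂ) EE (S i j)) :
    ∃ D : ℕ, ∀ (a : ℕ) (τ : Fin a → Fin r), ∃ U ∈ connFibres (tensAdd a B) (tensAdd a C) x,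
      Module.finrank ℂ U ≤ D ∧ tens a h *ᵥ tensVec τ ∈ U := by
  obtain ⟨D, hD⟩ := exists_rep hz
  refine ⟨D, fun a τ => ?_⟩
  obtain ⟨k, hk, W, y, ⟨V, hV⟩, hsum, hind⟩ := exists_hull _ _ (hD a τ)
  have hφi : ∀ f : ℂ[X], (φ.comp (algebraMap (RatFunc ℂ) OO)) (algebraMap ℂ[X] (RatFunc ℂ) f)
      = algebraMap (PowerSeries ℂ) EE (loc x f) := hφ
  simp only [hφi] at hsum hind
  set ε := algebraMap (PowerSeries ℂ) EE with hε
  -- `y` comes from power series
  set y₀ : Fin k → PowerSeries ℂ := fun l => ∑ f, loc x (V l f) * sec S τ f with hy₀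
  have hy : ∀ l, ε (y₀ l) = y l := by
    intro l
    rw [hy₀, map_sum]
    simp only [map_mul, hsum]
    have h1 : ∀ m, ∑ f, loc x (V l f) * loc x (W f m) = if l = m then 1 else 0 := by
      intro m
      have h2 := congrFun (congrFun hV l) m
      rw [mul_apply, Matrix.one_apply] at h2
      have h3 := congrArg (loc x) h2
      rw [map_sum] at h3
      simp only [map_mul] at h3
      rw [h3]
      split_ifs <;> simp
    calc ∑ f, ε (loc x (V l f)) * ∑ m, ε (loc x (W f m)) * y m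
        = ∑ m, ε (∑ f, loc x (V l f) * loc x (W f m)) * y m := by
          simp only [map_sum, map_mul, Finset.mul_sum, Finset.sum_mul]
          rw [Finset.sum_comm]
          apply Finset.sum_congr rfl
          intro m _
          apply Finset.sum_congr rfl
          intro f _
          ring
      _ = y l := by
          simp only [h1]
          simp
  have hsec : ∀ f, sec S τ f = ∑ l, loc x (W f l) * y₀ l := by
    intro f
    apply algebraMap_EE_injective
    rw [hsum f, map_sum]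
    apply Finset.sum_congr rfl
    intro l _
    rw [map_mul, hy]
  refine ⟨LinearMap.range (W.map (eval x)).mulVecLin, ⟨k, W, ⟨V, hV⟩, ?_, rfl⟩, ?_, ?_⟩
  · -- stability
    set R := nab (Lm (tensAdd a B) (tensAdd a C)) W with hR
    refine ⟨V * R, ?_⟩
    change R = W * (V * R)
    -- the action on `y₀`
    have hRy : ∀ f, ∑ l, loc x (R f l) * y₀ l
        = - ∑ l, loc x (W f l) * (loc x (X * (X - 1)) * PowerSeries.derivative ℂ (y₀ l)) := by
      intro f
      have h1 := sec_hor hS τ f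
      rw [hsec f, map_sum, Finset.mul_sum] at h1
      have h2 : ∀ l, loc x (X * (X - 1)) * PowerSeries.derivative ℂ (loc x (W f l) * y₀ l)
          = loc x (W f l) * (loc x (X * (X - 1)) * PowerSeries.derivative ℂ (y₀ l))
            + loc x (X * (X - 1)) * loc x (derivative (W f l)) * y₀ l := by
        intro l
        rw [(PowerSeries.derivative ℂ).leibniz, loc_derivative]
        simp only [smul_eq_mul]
        ring
      simp only [h2, Finset.sum_add_distrib] at h1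
      have h3 : ∑ g, ((Lm (tensAdd a B) (tensAdd a C)).map (loc x)) f g * sec S τ g
          = ∑ l, (∑ g, loc x (Lm (tensAdd a B) (tensAdd a C) f g) * loc x (W g l)) * y₀ l := by
        simp only [hsec, map_apply, Finset.mul_sum, Finset.sum_mul]
        rw [Finset.sum_comm]
        apply Finset.sum_congr rfl
        intro g _
        apply Finset.sum_congr rfl
        intro l _
        ring
      rw [h3] at h1
      have h4 : ∀ l, loc x (R f l) * y₀ l
          = loc x (X * (X - 1)) * loc x (derivative (W f l)) * y₀ l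
            - (∑ g, loc x (Lm (tensAdd a B) (tensAdd a C) f g) * loc x (W g l)) * y₀ l := by
        intro l
        rw [hR, nab, Matrix.sub_apply, Matrix.smul_apply, smul_eq_mul, map_apply, mul_apply,
          map_sub, map_mul, map_sum]
        simp only [map_mul]
        ring
      simp only [h4]
      rw [Finset.sum_sub_distrib, ← h1]
      ring
    have hVW : ∀ l m, ∑ f, V l f * W f m = if l = m then 1 else 0 := by
      intro l m
      have h2 := congrFun (congrFun hV l) m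
      rwa [mul_apply, Matrix.one_apply] at h2
    have hVR : ∀ l, ∑ m, loc x ((V * R) l m) * y₀ m
        = - (loc x (X * (X - 1)) * PowerSeries.derivative ℂ (y₀ l)) := by
      intro l
      calc ∑ m, loc x ((V * R) l m) * y₀ m
          = ∑ f, loc x (V l f) * ∑ m, loc x (R f m) * y₀ m := by
            simp only [mul_apply, map_sum, map_mul, Finset.sum_mul, Finset.mul_sum]
            rw [Finset.sum_comm]
            apply Finset.sum_congr rfl
            intro f _
            apply Finset.sum_congr rfl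
            intro m _
            ring
        _ = - ∑ m, loc x (∑ f, V l f * W f m)
              * (loc x (X * (X - 1)) * PowerSeries.derivative ℂ (y₀ m)) := by
            simp only [hRy, mul_neg, Finset.sum_neg_distrib, map_sum, map_mul, Finset.sum_mul,
              Finset.mul_sum]
            congr 1
            rw [Finset.sum_comm]
            apply Finset.sum_congr rfl
            intro m _
            apply Finset.sum_congr rfl
            intro f _
            ring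
        _ = _ := by
            simp only [hVW]
            simp
    suffices hcol : ∀ f, (fun l => R f l - (W * (V * R)) f l) = 0 by
      ext1 f l
      exact sub_eq_zero.mp (congrFun (hcol f) l)
    intro f
    apply hind
    have h5 : ∑ l, loc x (R f l - (W * (V * R)) f l) * y₀ l = 0 := by
      simp only [map_sub, sub_mul, Finset.sum_sub_distrib]
      rw [hRy, sub_eq_zero]
      have h6 : ∑ l, loc x ((W * (V * R)) f l) * y₀ l
          = ∑ l, loc x (W f l) * ∑ m, loc x ((V * R) l m) * y₀ m := by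
        rw [show (W * (V * R)) f = fun l => ∑ m, W f m * (V * R) m l from
          funext fun l => mul_apply]
        simp only [map_sum, map_mul, Finset.sum_mul, Finset.mul_sum]
        rw [Finset.sum_comm]
        apply Finset.sum_congr rfl
        intro f _
        apply Finset.sum_congr rfl
        intro m _
        ring
      rw [h6]
      simp only [hVR, mul_neg, Finset.sum_neg_distrib]
    have h6 := congrArg ε h5
    rw [map_sum, map_zero] at h6
    simp only [map_mul, hy] at h6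
    exact h6
  · refine (LinearMap.finrank_range_le _).trans ?_
    simpa using hk
  · refine ⟨fun l => PowerSeries.constantCoeff (y₀ l), ?_⟩
    funext f
    rw [← sec_const hS0 τ f, hsec f, map_sum]
    simp only [mulVecLin_apply, mulVec, dotProduct, map_apply, map_mul, constantCoeff_loc]

/-- the system has a full set of algebraic solutions if and only if the ranks of the smallest
subsystems of the tensor constructions which contain the vectors `⊗ (1 ⊕ h e_(τ l))` are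
bounded -/
theorem algebraic_iff_bounded {x : ℂ} (hx0 : x ≠ 0) (hx1 : x ≠ 1) {r : ℕ}
    (B C : Matrix (Fin r) (Fin r) ℂ) {h : Matrix (Fin r) (Fin r) ℂ} (hh : h.det ≠ 0) :
    HasAlgebraicSolutions B C ↔ ∃ D : ℕ, ∀ (a : ℕ) (τ : Fin a → Fin r),
      ∃ U ∈ connFibres (tensAdd a B) (tensAdd a C) x,
        Module.finrank ℂ U ≤ D ∧ tens a h *ᵥ tensVec τ ∈ U := by
  obtain ⟨φ, hφ, hφ'⟩ := exists_embedding x
  obtain ⟨D, hDer, hD, hconst⟩ := exists_derivation_EE
  obtain ⟨S, hS0, hS⟩ := exists_fundamental B C hx0 hx1 h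
  rw [algebraic_iff hx0 hx1 hφ hDer hD hconst hh hS0 hS]
  constructor
  · exact bounded_of_algebraic hφ hS0 hS
  · rintro ⟨D, hD⟩ i j
    exact algebraic_of_bounded hx0 hx1 hφ hφ' hS0 hS hD i j

end Pool.Agent.Work.MP_5e5ff1_ag.A

end

section

/-! From sub-systems to subbundles of degree zero in the limit. -/

open Filter Polynomial Matrix

set_option linter.unusedSectionVars false

namespace Pool.Agent.Work.MP_5e5ff1_ag.T

variable {k : ℕ → Type} [∀ n, Field (k n)] [∀ n, IsAlgClosed (k n)] {M : Type} [Field M]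
  {π : (∀ n, k n) →+* M} {ι : Type*} [Fintype ι] [DecidableEq ι]
  {p : ℕ → ℕ} [∀ n, Fact (p n).Prime] [∀ n, CharP (k n) (p n)] {N Q : ℕ}
  {b c : ∀ n, Matrix ι ι (k n)} {s ζ : Fin 3 × ι → ℤ}
  {G : ∀ n, Matrix ι ι (k n)[X]} {h₀ h₁ : ∀ n, Matrix ι ι (k n)} {m₀ m₁ d : ℕ → ι → ℕ}

/-- two subbundles with the same span -/
lemma same_span {F : Type*} [Field F] {t : ℕ} {W A : Matrix ι (Fin t) F[X]}
    {U V : Matrix (Fin t) ι F[X]} (hU : U * W = 1) (hV : V * A = 1)
    {R K : Matrix (Fin t) (Fin t) F[X]} {ρ : F[X]} (hρ : ρ ≠ 0) (h : ρ • W = A * K * R) :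
    ∃ E : Matrix (Fin t) (Fin t) F[X], W = A * E ∧ A = W * (U * A) ∧
      ∃ e : F, e ≠ 0 ∧ E.det = C e := by
  have h1 : W = A * (V * W) := by
    apply smul_matrix_cancel hρ
    have h2 : ρ • (A * (V * W)) = A * (V * (ρ • W)) := by
      rw [Matrix.mul_smul, Matrix.mul_smul]
    rw [h2, h, Matrix.mul_assoc A, ← Matrix.mul_assoc V, hV, Matrix.one_mul]
  have h2 : (U * A) * (V * W) = 1 := by
    rw [Matrix.mul_assoc, ← h1, hU]
  have h3 : (V * W) * (U * A) = 1 := mul_eq_one_comm.mp h2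
  refine ⟨V * W, h1, ?_, ?_⟩
  · calc A = A * ((V * W) * (U * A)) := by rw [h3, Matrix.mul_one]
      _ = A * (V * W) * (U * A) := by rw [← Matrix.mul_assoc A]
      _ = W * (U * A) := by rw [← h1]
  · have h4 : IsUnit (V * W).det := by
      rw [← Matrix.isUnit_iff_isUnit_det]
      exact IsUnit.of_mul_eq_one (U * A) h3
    obtain ⟨e, he, he'⟩ := Polynomial.isUnit_iff.mp h4
    exact ⟨e, he.ne_zero, he'.symm⟩

/-- from sub-systems to subbundles of degree zero -/
theorem LimData.down [IsAlgClosed M] (hD : LimData p N Q b c s ζ G h₀ h₁ m₀ m₁ d)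
    (hπ : IsUltra π) (hp : Tendsto p (hyperfilter ℕ : Filter ℕ) atTop)
    (hN : 0 < N) (x : ∀ n, k n) {t : ℕ}
    {Z : Matrix ι (Fin t) M[X]} {V : Matrix (Fin t) ι M[X]} (hV : V * Z = 1)
    {N' : Matrix (Fin t) (Fin t) M[X]}
    (hN' : nab (Lm ((glue b).map π) ((glue c).map π)) Z = Z * N') :
    ∃ W : Matrix ι (Fin t) M[X], IsSub W ∧
      0 ≤ parDegree ((glue (fun n => (h₀ n)⁻¹)).map π)
        ((glue (fun n => (h₁ n)⁻¹)).map π) (fun i => (ζ i : ℝ) / N) W ∧
      (glue (fun n => (G n).map (eval (x n)))).map π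
          * W.map (eval (π (fun n => x n ^ p n)))
        = Z.map (eval (π x)) * (V.map (eval (π x))
          * ((glue (fun n => (G n).map (eval (x n)))).map π
            * W.map (eval (π (fun n => x n ^ p n))))) := by
  classical
  obtain ⟨Z', hZ'⟩ := exists_lift hπ Z
  obtain ⟨V', hV'⟩ := exists_lift hπ V
  obtain ⟨N₁, hN₁⟩ := exists_lift hπ N'
  have e1 : ∀ᶠ n in (hyperfilter ℕ : Filter ℕ), mcomp n V' * mcomp n Z' = 1 := by
    have h9 : mlim π (V' * Z') = mlim π 1 := by rw [mlim_mul, hV', hZ', hV, mlim_one]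
    filter_upwards [(mlim_eq_iff hπ _ _).mp h9] with n hn
    rwa [mcomp_mul, mcomp_one] at hn
  have e2 : ∀ᶠ n in (hyperfilter ℕ : Filter ℕ), nab (Lm (b n) (c n)) (mcomp n Z')
      = mcomp n Z' * mcomp n N₁ := by
    have h9 : mlim π (nab (Lm (glue b) (glue c)) Z') = mlim π (Z' * N₁) := by
      rw [mlim_mul, mlim_nab, hZ', hN₁, hN']
    filter_upwards [(mlim_eq_iff hπ _ _).mp h9] with n hn
    rwa [mcomp_mul, mcomp_nab] at hn
  -- bound for the degrees of the minors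
  set e : ℕ := ∑ J : Fin t → ι, (Z.submatrix J id).det.natDegree with he
  have e3 : ∀ᶠ n in (hyperfilter ℕ : Filter ℕ), ∀ J : Fin t → ι,
      ((mcomp n Z').submatrix J id).det.natDegree ≤ e := by
    rw [eventually_all]
    intro J
    filter_upwards [hπ.natDegree (Z'.submatrix J id).det] with n hn
    rw [comp_minor, hn, ← lim_minor, hZ', he]
    exact Finset.single_le_sum (f := fun J : Fin t → ι => (Z.submatrix J id).det.natDegree)
      (fun _ _ => Nat.zero_le _) (Finset.mem_univ J)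
  set B := e + 2 * t * Q with hB
  -- the subbundles at the primes
  have h1 : ∀ᶠ n in (hyperfilter ℕ : Filter ℕ), ∃ (J : Fin t → ι),
      ∃ W : Matrix ι (Fin t) (k n)[X], IsSub W ∧ (W.submatrix J id).det ≠ 0 ∧
      (∃ K : Matrix (Fin t) (Fin t) (k n)[X],
        G n * W.map (expand (k n) (p n)) = mcomp n Z' * K) ∧
      (∀ I : Fin 3 → Fin t → ι, ParNonzero (h₀ n)⁻¹ (h₁ n)⁻¹ W I →
        -(e : ℤ) ≤ ∑ x : Fin 3, ∑ j, expo (m₀ n) (m₁ n) (d n) (x, I x j)
          + p n * ordPart (h₀ n)⁻¹ (h₁ n)⁻¹ W I) ∧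
      (∀ J : Fin t → ι, (W.submatrix J id).det.natDegree ≤ B) := by
    filter_upwards [e1, e2, e3] with n hn1 hn2 hn3
    obtain ⟨W, hW, hK, hI, hdeg⟩ := (hD.level n).down hn1 hn2 hn3
    obtain ⟨J, hJ⟩ := hW.fullRank
    exact ⟨J, W, hW, hJ, hK, hI, hdeg⟩
  rw [Ultrafilter.eventually_exists_iff] at h1
  obtain ⟨J, hJ⟩ := h1
  have h8 : ∀ n, ∃ W : Matrix ι (Fin t) (k n)[X],
      (∀ J : Fin t → ι, (W.submatrix J id).det.natDegree ≤ B) ∧
      ((∃ W : Matrix ι (Fin t) (k n)[X], IsSub W ∧ (W.submatrix J id).det ≠ 0 ∧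
      (∃ K : Matrix (Fin t) (Fin t) (k n)[X],
        G n * W.map (expand (k n) (p n)) = mcomp n Z' * K) ∧
      (∀ I : Fin 3 → Fin t → ι, ParNonzero (h₀ n)⁻¹ (h₁ n)⁻¹ W I →
        -(e : ℤ) ≤ ∑ x : Fin 3, ∑ j, expo (m₀ n) (m₁ n) (d n) (x, I x j)
          + p n * ordPart (h₀ n)⁻¹ (h₁ n)⁻¹ W I) ∧
      (∀ J : Fin t → ι, (W.submatrix J id).det.natDegree ≤ B)) →
      IsSub W ∧ (W.submatrix J id).det ≠ 0 ∧
      (∃ K : Matrix (Fin t) (Fin t) (k n)[X],
        G n * W.map (expand (k n) (p n)) = mcomp n Z' * K) ∧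
      (∀ I : Fin 3 → Fin t → ι, ParNonzero (h₀ n)⁻¹ (h₁ n)⁻¹ W I →
        -(e : ℤ) ≤ ∑ x : Fin 3, ∑ j, expo (m₀ n) (m₁ n) (d n) (x, I x j)
          + p n * ordPart (h₀ n)⁻¹ (h₁ n)⁻¹ W I)) := by
    intro n
    by_cases hn : ∃ W : Matrix ι (Fin t) (k n)[X], IsSub W ∧ (W.submatrix J id).det ≠ 0 ∧
      (∃ K : Matrix (Fin t) (Fin t) (k n)[X],
        G n * W.map (expand (k n) (p n)) = mcomp n Z' * K) ∧
      (∀ I : Fin 3 → Fin t → ι, ParNonzero (h₀ n)⁻¹ (h₁ n)⁻¹ W I →
        -(e : ℤ) ≤ ∑ x : Fin 3, ∑ j, expo (m₀ n) (m₁ n) (d n) (x, I x j)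
          + p n * ordPart (h₀ n)⁻¹ (h₁ n)⁻¹ W I) ∧
      (∀ J : Fin t → ι, (W.submatrix J id).det.natDegree ≤ B)
    · obtain ⟨W, h1, h2, h3, h4, h5⟩ := hn
      exact ⟨W, h5, fun _ => ⟨h1, h2, h3, h4⟩⟩
    · refine ⟨0, fun J => ?_, fun h => absurd h hn⟩
      by_cases ht : Nonempty (Fin t)
      · have : ((0 : Matrix ι (Fin t) (k n)[X]).submatrix J id).det = 0 := by
          rw [submatrix_zero]
          exact det_zero
        change ((0 : Matrix ι (Fin t) (k n)[X]).submatrix J id).det.natDegree ≤ B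
        rw [this, natDegree_zero]
        exact Nat.zero_le _
      · rw [not_nonempty_iff] at ht
        rw [det_isEmpty, natDegree_one]
        exact Nat.zero_le _
  choose Ws hWdeg hWall using h8
  -- matrices with bounded degrees
  obtain ⟨S, hS⟩ := exists_glue_matrix (B := B)
    (fun n => Ws n * adjugate ((Ws n).submatrix J id)) (fun n i j => by
      rw [mul_adjugate_minor]
      exact hWdeg n _)
  have hSfull : FullRank (mlim π S) := by
    refine ⟨J, ?_⟩
    rw [lim_minor, hπ.poly_ne_zero]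
    filter_upwards [hJ] with n hn
    rw [← comp_minor, hS n, submatrix_mul_left, mul_adjugate, det_smul, det_one, mul_one]
    exact pow_ne_zero _ (hWall n hn).2.1
  obtain ⟨W, K, ⟨U, hU⟩, hSK, hK⟩ := saturate hSfull
  refine ⟨W, ⟨U, hU⟩, ?_, ?_⟩
  all_goals
    obtain ⟨A, hA⟩ := exists_lift hπ W
    obtain ⟨U', hU'⟩ := exists_lift hπ U
    obtain ⟨K', hK'⟩ := exists_lift hπ K
    have f1 : ∀ᶠ n in (hyperfilter ℕ : Filter ℕ), mcomp n U' * mcomp n A = 1 := by
      have h9 : mlim π (U' * A) = mlim π 1 := by rw [mlim_mul, hU', hA, hU, mlim_one]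
      filter_upwards [(mlim_eq_iff hπ _ _).mp h9] with n hn
      rwa [mcomp_mul, mcomp_one] at hn
    have f2 : ∀ᶠ n in (hyperfilter ℕ : Filter ℕ), mcomp n S = mcomp n A * mcomp n K' := by
      have h9 : mlim π S = mlim π (A * K') := by rw [mlim_mul, hK', hA, hSK]
      filter_upwards [(mlim_eq_iff hπ _ _).mp h9] with n hn
      rwa [mcomp_mul] at hn
    have f3 : ∀ᶠ n in (hyperfilter ℕ : Filter ℕ), ∃ (E U₁ : Matrix (Fin t) (Fin t) (k n)[X]),
        Ws n = mcomp n A * E ∧ mcomp n A = Ws n * U₁ ∧ ∃ e : k n, e ≠ 0 ∧ E.det = C e := by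
      filter_upwards [hJ, f1, f2] with n hn hn1 hn2
      obtain ⟨U₀, hU₀⟩ := (hWall n hn).1
      have h9 : ((Ws n).submatrix J id).det • Ws n
          = mcomp n A * mcomp n K' * (Ws n).submatrix J id := by
        rw [← hn2, hS n, Matrix.mul_assoc, adjugate_mul, Matrix.mul_smul, Matrix.mul_one]
      obtain ⟨E, h10, h11, h12⟩ := same_span hU₀ hn1 (hWall n hn).2.1 h9
      exact ⟨E, _, h10, h11, h12⟩
  · -- the degree
    obtain ⟨I, hI, hval⟩ := parDegree_attained
      (glue_det_ne hπ (fun n => (h₀ n)⁻¹) (fun n => by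
        rw [det_nonsing_inv]; simpa using (hD.level n).frame.h₀_ne))
      (glue_det_ne hπ (fun n => (h₁ n)⁻¹) (fun n => by
        rw [det_nonsing_inv]; simpa using (hD.level n).frame.h₁_ne))
      (fun i => (ζ i : ℝ) / N) (fullRank_of_leftInv hU)
    rw [hval]
    rw [← hA] at hI
    have h2 := hπ.ordPart (fun n => (h₀ n)⁻¹) (fun n => (h₁ n)⁻¹) A I
    set o := ordPart ((glue (fun n => (h₀ n)⁻¹)).map π) ((glue (fun n => (h₁ n)⁻¹)).map π)
      (mlim π A) I with ho
    have h3 : (0 : ℤ) ≤ ∑ x : Fin 3, ∑ j, ζ (x, I x j) + N * o := by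
      by_contra hcon
      push Not at hcon
      have h5 : ∀ᶠ n in (hyperfilter ℕ : Filter ℕ),
          (∑ x : Fin 3, ∑ j, (s (x, I x j)).natAbs : ℕ) + N * e < p n := hp.eventually_gt_atTop _
      obtain ⟨n, ⟨⟨⟨⟨⟨hn1, hn2⟩, hn3⟩, hn4⟩, hn5⟩, hn6⟩⟩ :=
        (((((hJ.and f3).and h2.1).and (h2.2 hI)).and (hD.value I o)).and h5).exists
      obtain ⟨E, U₁, h6, h7, e', he', hEe⟩ := hn2
      have h8 : ParNonzero (h₀ n)⁻¹ (h₁ n)⁻¹ (mcomp n A) I := hn3.mpr hI
      have h9 : ParNonzero (h₀ n)⁻¹ (h₁ n)⁻¹ (Ws n) I := by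
        rw [h6, parNonzero_mul he' hEe]
        exact h8
      have h10 := (hWall n hn1).2.2.2 I h9
      rw [h6, ordPart_mul he' hEe h8, hn4] at h10
      have h11 : (N : ℤ) * -(e : ℤ) ≤ N * (∑ x : Fin 3, ∑ j,
          expo (m₀ n) (m₁ n) (d n) (x, I x j) + p n * o) :=
        mul_le_mul_of_nonneg_left h10 (Nat.cast_nonneg N)
      rw [hn5] at h11
      have h12 := (abs_le.mp (sum_s_bound s I)).2
      have h13 : (((∑ x : Fin 3, ∑ j, (s (x, I x j)).natAbs : ℕ) : ℤ)) + N * e < p n := by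
        exact_mod_cast hn6
      have h14 : (p n : ℤ) * (∑ x : Fin 3, ∑ j, ζ (x, I x j) + N * o) ≤ p n * (-1) :=
        mul_le_mul_of_nonneg_left (by omega) (Nat.cast_nonneg _)
      linarith
    have hNR : (0 : ℝ) < N := by exact_mod_cast hN
    have h4 : (0 : ℝ) ≤ (N : ℝ) * parVal ((glue (fun n => (h₀ n)⁻¹)).map π)
        ((glue (fun n => (h₁ n)⁻¹)).map π) (fun i => (ζ i : ℝ) / N) W I := by
      rw [parVal_limit hN, ← hA]
      exact_mod_cast h3
    by_contra hcon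
    push Not at hcon
    have := mul_neg_of_pos_of_neg hNR hcon
    linarith
  · -- the fibres
    rw [← hZ', ← hV', ← hA, ← ml_eval, ← ml_eval, ← ml_eval, ← ml_mul, ← ml_mul, ← ml_mul,
      ml_eq_iff hπ]
    filter_upwards [hJ, e1, f3] with n hn hn1 hn3
    simp only [mc_mul, mc_eval, mc_glue]
    obtain ⟨E, U₁, h6, h7, _⟩ := hn3
    obtain ⟨K₁, hK₁⟩ := (hWall n hn).2.2.1
    have h9 : G n * (Ws n).map (expand (k n) (p n))
        = mcomp n Z' * (mcomp n V' * (G n * (Ws n).map (expand (k n) (p n)))) := by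
      rw [hK₁, ← Matrix.mul_assoc (mcomp n V'), hn1, Matrix.one_mul]
    have h10 : G n * (mcomp n A).map (expand (k n) (p n))
        = mcomp n Z' * (mcomp n V' * (G n * (mcomp n A).map (expand (k n) (p n)))) := by
      rw [h7, map_expand_mul, ← Matrix.mul_assoc (G n), ← Matrix.mul_assoc (mcomp n V'),
        ← Matrix.mul_assoc (mcomp n Z'), ← h9]
    have h12 := congrArg (fun A => A.map (eval (x n))) h10
    simp only [map_eval_mul, map_expand_eval] at h12
    exact h12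

end Pool.Agent.Work.MP_5e5ff1_ag.T

end

section

/-! Existence of the data at the primes with vanishing p-curvature, and their tensor
constructions. -/

open Filter Polynomial Matrix Cardinal NumberField

set_option linter.unusedSectionVars false

namespace Pool.Agent.Work.MP_5e5ff1_ag.T

lemma exists_perm {α : Type*} {r : ℕ} {x y : Fin r → α}
    (h : Finset.univ.val.map x = Finset.univ.val.map y) :
    ∃ τ : Equiv.Perm (Fin r), ∀ j, x (τ j) = y j := by
  classical
  have hcard : ∀ c : α, Fintype.card {a // y a = c} = Fintype.card {b // x b = c} := by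
    intro c
    have h1 : ∀ z : Fin r → α, Fintype.card {a // z a = c} = (Finset.univ.val.map z).count c := by
      intro z
      rw [Multiset.count_map, Fintype.card_subtype]
      rw [Finset.card_def, Finset.filter_val]
      congr 1
      apply Multiset.filter_congr
      intro a _
      exact eq_comm
    rw [h1, h1, h]
  have e : ∀ c : α, {a // y a = c} ≃ {b // x b = c} := fun c =>
    Fintype.equivOfCardEq (hcard c)
  exact ⟨Equiv.ofFiberEquiv e, fun j => Equiv.ofFiberEquiv_map e j⟩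

section field

variable {F : Type*} [Field F] {r : ℕ}

lemma exists_perm_of_prod {x y : Fin r → F} (h : ∏ j, (X - C (x j)) = ∏ j, (X - C (y j))) :
    ∃ τ : Equiv.Perm (Fin r), ∀ j, x (τ j) = y j := by
  apply exists_perm
  have h1 : ∀ z : Fin r → F, (∏ j, (X - C (z j))).roots = Finset.univ.val.map z := by
    intro z
    have : ∏ j, (X - C (z j)) = ((Finset.univ.val.map z).map (fun a => X - C a)).prod := by
      rw [Multiset.map_map]; rfl
    rw [this, roots_multiset_prod_X_sub_C]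
  rw [← h1 x, ← h1 y, h]

lemma frame_col {G H : Matrix (Fin r) (Fin r) F[X]} {h : Matrix (Fin r) (Fin r) F} {q : F[X]}
    {m : Fin r → ℕ} (e : G * h.map C = H * diagonal (fun j => q ^ (m j)))
    (τ : Equiv.Perm (Fin r)) :
    G * (h.submatrix id τ).map C = H.submatrix id τ * diagonal (fun j => q ^ (m (τ j))) := by
  ext1 i j
  have h1 := congrFun (congrFun e i) (τ j)
  rw [mul_diagonal] at h1 ⊢
  rw [mul_apply] at h1 ⊢
  simpa using h1

lemma frame_row {G H : Matrix (Fin r) (Fin r) F[X]} {h : Matrix (Fin r) (Fin r) F} {q : F[X]}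
    {m : Fin r → ℕ} (e : G * h.map C = H * diagonal (fun j => q ^ (m j)))
    (τ : Equiv.Perm (Fin r)) :
    G.submatrix id τ * (h.submatrix τ id).map C = H * diagonal (fun j => q ^ (m j)) := by
  rw [← e]
  ext1 i j
  rw [mul_apply, mul_apply]
  simp only [submatrix_apply, id, map_apply]
  exact Equiv.sum_comp τ (fun l => G i l * C (h l j))

lemma det_submatrix_right_ne {h : Matrix (Fin r) (Fin r) F} (hh : h.det ≠ 0)
    (τ : Equiv.Perm (Fin r)) : (h.submatrix id τ).det ≠ 0 := by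
  rw [Matrix.det_permute']
  exact mul_ne_zero (by
    rcases Int.units_eq_one_or (Equiv.Perm.sign τ) with h | h <;> simp [h]) hh

lemma det_submatrix_left_ne {h : Matrix (Fin r) (Fin r) F} (hh : h.det ≠ 0)
    (τ : Equiv.Perm (Fin r)) : (h.submatrix τ id).det ≠ 0 := by
  rw [Matrix.det_permute]
  exact mul_ne_zero (by
    rcases Int.units_eq_one_or (Equiv.Perm.sign τ) with h | h <;> simp [h]) hh

lemma TFrame.perm {G : Matrix (Fin r) (Fin r) F[X]} {h₀ h₁ : Matrix (Fin r) (Fin r) F}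
    {m₀ m₁ d : Fin r → ℕ} (h : TFrame G h₀ h₁ m₀ m₁ d) (τ₀ τ₁ τ₂ : Equiv.Perm (Fin r)) :
    TFrame (G.submatrix id τ₂) ((h₀.submatrix τ₂ id).submatrix id τ₀)
      ((h₁.submatrix τ₂ id).submatrix id τ₁) (fun j => m₀ (τ₀ j)) (fun j => m₁ (τ₁ j))
      (fun j => d (τ₂ j)) := by
  obtain ⟨H₀, e₀, hH₀⟩ := h.frame₀
  obtain ⟨H₁, e₁, hH₁⟩ := h.frame₁
  refine ⟨det_submatrix_right_ne (det_submatrix_left_ne h.h₀_ne _) _,
    det_submatrix_right_ne (det_submatrix_left_ne h.h₁_ne _) _,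
    ⟨_, frame_col (frame_row e₀ τ₂) τ₀, ?_⟩, ⟨_, frame_col (frame_row e₁ τ₂) τ₁, ?_⟩,
    fun i j => h.deg i (τ₂ j), ?_, ?_⟩
  · exact det_submatrix_right_ne hH₀ τ₀
  · exact det_submatrix_right_ne hH₁ τ₁
  · exact det_submatrix_right_ne h.lead τ₂
  · intro x hx0 hx1
    exact det_submatrix_right_ne (h.good x hx0 hx1) τ₂

lemma exists_z {p N : ℕ} [CharP F p] (hN : (N : F) ≠ 0) {s m : ℤ}
    (h : (m : F) = (s : F) / (N : F)) : ∃ z : ℤ, N * m = s + p * z := by
  have h1 : (((N : ℤ) * m - s : ℤ) : F) = 0 := by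
    push_cast
    rw [h, mul_div_cancel₀ _ hN, sub_self]
  obtain ⟨z, hz⟩ := (CharP.intCast_eq_zero_iff F p _).mp h1
  exact ⟨z, by linarith⟩

theorem exists_level {p N : ℕ} [hp : Fact p.Prime] [CharP F p] [IsAlgClosed F] (hN : (N : F) ≠ 0)
    {b c : Matrix (Fin r) (Fin r) F} {s : Fin 3 × Fin r → ℤ}
    (hb : b.charpoly = ∏ j, (X - C ((s (0, j) : F) / (N : F))))
    (hc : c.charpoly = ∏ j, (X - C ((s (1, j) : F) / (N : F))))
    (hbc : (b + c).charpoly = ∏ j, (X - C (((-(s (2, j)) : ℤ) : F) / (N : F))))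
    (hex : ∃ F, Hor (X * (X - 1)) (Lmat b c) F ∧ F.det ≠ 0) :
    ∃ (G : Matrix (Fin r) (Fin r) F[X]) (h₀ h₁ : Matrix (Fin r) (Fin r) F)
      (m₀ m₁ d : Fin r → ℕ), TLevel p N (2 * r + 1) b c s G h₀ h₁ m₀ m₁ d ∧
        (∀ j, m₀ j < p) ∧ (∀ j, m₁ j < p) ∧ ∑ j, d j = ∑ j, m₀ j + ∑ j, m₁ j := by
  obtain ⟨G, h₀, h₁, m₀, m₁, d, hG, hfr, hm₀, hm₁, hsum, hc0, hc1, hcd⟩ :=
    frames (p := p) b c hex
  obtain ⟨τ₀, hτ₀⟩ := exists_perm_of_prod (hc0.symm.trans hb)
  obtain ⟨τ₁, hτ₁⟩ := exists_perm_of_prod (hc1.symm.trans hc)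
  obtain ⟨τ₂, hτ₂⟩ := exists_perm_of_prod (hcd.symm.trans hbc)
  have hd : ∀ j, d j ≤ (2 * r + 1) * p := by
    intro j
    have h1 : d j ≤ ∑ j, d j :=
      Finset.single_le_sum (f := d) (fun _ _ => Nat.zero_le _) (Finset.mem_univ j)
    have h2 : ∑ j, m₀ j ≤ r * p := by
      calc ∑ j, m₀ j ≤ ∑ _j : Fin r, p := Finset.sum_le_sum (fun j _ => (hm₀ j).le)
        _ = r * p := by simp
    have h3 : ∑ j, m₁ j ≤ r * p := by
      calc ∑ j, m₁ j ≤ ∑ _j : Fin r, p := Finset.sum_le_sum (fun j _ => (hm₁ j).le)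
        _ = r * p := by simp
    have h4 : (2 * r + 1) * p = r * p + r * p + p := by ring
    rw [h4]
    omega
  have hle : ∀ m : ℕ, m < p → m ≤ (2 * r + 1) * p := by
    intro m hm
    have h4 : (2 * r + 1) * p = 2 * r * p + p := by ring
    rw [h4]
    have : 0 ≤ 2 * r * p := Nat.zero_le _
    omega
  refine ⟨G.submatrix id τ₂, (h₀.submatrix τ₂ id).submatrix id τ₀,
    (h₁.submatrix τ₂ id).submatrix id τ₁, fun j => m₀ (τ₀ j), fun j => m₁ (τ₁ j),
    fun j => d (τ₂ j), ⟨?_, hfr.perm τ₀ τ₁ τ₂, fun j => hle _ (hm₀ _), fun j => hle _ (hm₁ _),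
      fun j => hd _, ?_⟩, fun j => hm₀ _, fun j => hm₁ _, ?_⟩
  · ext1 i j
    have h1 := hG i (τ₂ j)
    rw [Matrix.smul_apply, smul_eq_mul, mul_apply]
    exact h1
  · rintro ⟨x, j⟩
    fin_cases x
    · exact exists_z hN (by simpa [T.expo] using hτ₀ j)
    · exact exists_z hN (by simpa [T.expo] using hτ₁ j)
    · refine exists_z hN ?_
      have h2 := hτ₂ j
      have h3 : T.expo (fun j => m₀ (τ₀ j)) (fun j => m₁ (τ₁ j)) (fun j => d (τ₂ j))
        (2, j) = -(d (τ₂ j) : ℤ) := rfl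
      change ((T.expo (fun j => m₀ (τ₀ j)) (fun j => m₁ (τ₁ j)) (fun j => d (τ₂ j))
        (2, j) : ℤ) : F) = (s (2, j) : F) / (N : F)
      rw [h3]
      push_cast at h2 ⊢
      rw [h2]
      ring
  · rw [Equiv.sum_comp τ₀ m₀, Equiv.sum_comp τ₁ m₁, Equiv.sum_comp τ₂ d, hsum]

/-- integral weights of the tensor construction -/
def tensZ (a : ℕ) (s : Fin 3 × Fin r → ℤ) (i : Fin 3 × (Fin a → Unit ⊕ Fin r)) : ℤ :=
  ∑ l, Sum.elim (fun _ => 0) (fun j => s (i.1, j)) (i.2 l)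

lemma expo_tens (a : ℕ) (m₀ m₁ d : Fin r → ℕ) (i : Fin 3 × (Fin a → Unit ⊕ Fin r)) :
    expo (tensNat a m₀) (tensNat a m₁) (tensNat a d) i = tensZ a (expo m₀ m₁ d) i := by
  have key : ∀ (m : Fin r → ℕ) (y : Unit ⊕ Fin r),
      ((Sum.elim (fun _ => 0) m y : ℕ) : ℤ) = Sum.elim (fun _ => (0 : ℤ)) (fun j => (m j : ℤ)) y := by
    intro m y
    rcases y with y | y <;> simp
  have key' : ∀ (m : Fin r → ℕ) (y : Unit ⊕ Fin r),
      -((Sum.elim (fun _ => 0) m y : ℕ) : ℤ)
        = Sum.elim (fun _ => (0 : ℤ)) (fun j => -(m j : ℤ)) y := by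
    intro m y
    rcases y with y | y <;> simp
  obtain ⟨x, y⟩ := i
  fin_cases x
  · change ((tensNat a m₀ y : ℕ) : ℤ) = ∑ l, Sum.elim (fun _ => 0) (fun j => (m₀ j : ℤ)) (y l)
    rw [tensNat, Nat.cast_sum]
    exact Finset.sum_congr rfl (fun l _ => key m₀ (y l))
  · change ((tensNat a m₁ y : ℕ) : ℤ) = ∑ l, Sum.elim (fun _ => 0) (fun j => (m₁ j : ℤ)) (y l)
    rw [tensNat, Nat.cast_sum]
    exact Finset.sum_congr rfl (fun l _ => key m₁ (y l))
  · change -((tensNat a d y : ℕ) : ℤ) = ∑ l, Sum.elim (fun _ => 0) (fun j => -(d j : ℤ)) (y l)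
    rw [tensNat, Nat.cast_sum, ← Finset.sum_neg_distrib]
    exact Finset.sum_congr rfl (fun l _ => key' d (y l))

lemma tensZ_rel (a : ℕ) {N P : ℤ} {e s z : Fin 3 × Fin r → ℤ}
    (h : ∀ i, N * e i = s i + P * z i) (i : Fin 3 × (Fin a → Unit ⊕ Fin r)) :
    N * tensZ a e i = tensZ a s i + P * tensZ a z i := by
  unfold tensZ
  rw [Finset.mul_sum, Finset.mul_sum, ← Finset.sum_add_distrib]
  apply Finset.sum_congr rfl
  intro l _
  rcases i.2 l with y | y
  · simp
  · simpa using h (i.1, y)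

lemma tensNat_le (a : ℕ) {m : Fin r → ℕ} {B : ℕ} (h : ∀ j, m j ≤ B)
    (x : Fin a → Unit ⊕ Fin r) : tensNat a m x ≤ a * B := by
  unfold tensNat
  calc ∑ l, Sum.elim (fun _ => 0) m (x l) ≤ ∑ _l : Fin a, B := by
        apply Finset.sum_le_sum
        intro l _
        rcases x l with y | y
        · simp
        · simpa using h y
    _ = a * B := by simp

theorem TLevel.tens {p N Q : ℕ} {b c : Matrix (Fin r) (Fin r) F} {s : Fin 3 × Fin r → ℤ}
    {G : Matrix (Fin r) (Fin r) F[X]} {h₀ h₁ : Matrix (Fin r) (Fin r) F}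
    {m₀ m₁ d : Fin r → ℕ} (h : TLevel p N Q b c s G h₀ h₁ m₀ m₁ d) (a : ℕ) :
    TLevel p N (a * Q) (tensAdd a b) (tensAdd a c) (tensZ a s) (T.tens a G) (T.tens a h₀)
      (T.tens a h₁) (tensNat a m₀) (tensNat a m₁) (tensNat a d) := by
  refine ⟨tens_hor a h.hor, h.frame.tens a, ?_, ?_, ?_, ?_⟩
  · intro j; rw [mul_assoc]; exact tensNat_le a h.le₀ j
  · intro j; rw [mul_assoc]; exact tensNat_le a h.le₁ j
  · intro j; rw [mul_assoc]; exact tensNat_le a h.le₂ j
  · intro i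
    choose z hz using h.expo
    exact ⟨tensZ a z i, by rw [expo_tens]; exact tensZ_rel a hz i⟩

end field

end Pool.Agent.Work.MP_5e5ff1_ag.T

end

section

/-! The main theorem. -/

open Filter Polynomial Matrix Cardinal NumberField

set_option linter.unusedSectionVars false

namespace Pool.Agent.Work.MP_5e5ff1_ag.T

section fibres

variable {M : Type} [Field M] {ι : Type*} [Fintype ι] [DecidableEq ι]

lemma range_eq_of_mul {t : ℕ} {A B : Matrix ι (Fin t) M} {E : Matrix (Fin t) (Fin t) M}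
    (hA : FullRank A) (h : A = B * E) :
    LinearMap.range A.mulVecLin = LinearMap.range B.mulVecLin := by
  obtain ⟨J, hJ⟩ := hA
  have hE : E.det ≠ 0 := by
    intro h0
    apply hJ
    rw [h, submatrix_mul_left, det_mul, h0, mul_zero]
  have h1 : B = A * E⁻¹ := by
    rw [h, Matrix.mul_assoc, Matrix.mul_nonsing_inv E (isUnit_iff_ne_zero.mpr hE), Matrix.mul_one]
  apply le_antisymm
  · rw [h, Matrix.mulVecLin_mul]
    exact LinearMap.range_comp_le_range _ _
  · rw [h1, Matrix.mulVecLin_mul]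
    exact LinearMap.range_comp_le_range _ _

lemma map_range_mul {t : ℕ} (γ : Matrix ι ι M) (A : Matrix ι (Fin t) M) :
    Submodule.map γ.mulVecLin (LinearMap.range A.mulVecLin)
      = LinearMap.range (γ * A).mulVecLin := by
  rw [Matrix.mulVecLin_mul, LinearMap.range_comp]

end fibres

section limit

variable {k : ℕ → Type} [∀ n, Field (k n)] [∀ n, IsAlgClosed (k n)] {M : Type} [Field M]
  [IsAlgClosed M]
  {π : (∀ n, k n) →+* M} {ι : Type*} [Fintype ι] [DecidableEq ι]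
  {p : ℕ → ℕ} [∀ n, Fact (p n).Prime] [∀ n, CharP (k n) (p n)] {N Q : ℕ}
  {b c : ∀ n, Matrix ι ι (k n)} {s ζ : Fin 3 × ι → ℤ}
  {G : ∀ n, Matrix ι ι (k n)[X]} {h₀ h₁ : ∀ n, Matrix ι ι (k n)} {m₀ m₁ d : ℕ → ι → ℕ}

lemma LimData.fibre_ne (hD : LimData p N Q b c s ζ G h₀ h₁ m₀ m₁ d) (hπ : IsUltra π)
    {x : ∀ n, k n} (hx0 : ∀ n, x n ≠ 0) (hx1 : ∀ n, x n ≠ 1) :
    ((glue (fun n => (G n).map (eval (x n)))).map π).det ≠ 0 :=
  glue_det_ne hπ _ (fun n => (hD.level n).frame.good (x n) (hx0 n) (hx1 n))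

/-- the correspondence of fibres -/
theorem LimData.fibres (hD : LimData p N Q b c s ζ G h₀ h₁ m₀ m₁ d) (hπ : IsUltra π)
    (hp : Tendsto p (hyperfilter ℕ : Filter ℕ) atTop) (hN : 0 < N)
    {x : ∀ n, k n} (hx0 : ∀ n, x n ≠ 0) (hx1 : ∀ n, x n ≠ 1) :
    connFibres ((glue b).map π) ((glue c).map π) (π x)
      = Submodule.map ((glue (fun n => (G n).map (eval (x n)))).map π).mulVecLin ''
        parFibres ((glue (fun n => (h₀ n)⁻¹)).map π) ((glue (fun n => (h₁ n)⁻¹)).map π)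
          (fun i => (ζ i : ℝ) / N) (π (fun n => x n ^ p n)) := by
  have hγ := hD.fibre_ne hπ hx0 hx1
  ext U
  constructor
  · rintro ⟨t, Z, ⟨V, hV⟩, ⟨N', hN'⟩, rfl⟩
    obtain ⟨W, hW, hdeg, hfib⟩ := hD.down hπ hp hN x hV hN'
    refine ⟨_, ⟨t, W, hW, le_antisymm (hD.semistable hπ hp hN hW.fullRank) hdeg, rfl⟩, ?_⟩
    rw [map_range_mul]
    exact range_eq_of_mul (fullRank_mul hγ (hW.fullRank_eval _)) hfib
  · rintro ⟨_, ⟨t, W, hW, hdeg, rfl⟩, rfl⟩
    obtain ⟨Z, V, N', hV, hN', hfib⟩ := hD.up hπ hN x hW.fullRank hdeg.ge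
    refine ⟨t, Z, ⟨V, hV⟩, ⟨N', hN'⟩, ?_⟩
    rw [map_range_mul]
    exact range_eq_of_mul (fullRank_mul hγ (hW.fullRank_eval _)) hfib

/-- irreducibility and stability -/
theorem LimData.stable_iff (hD : LimData p N Q b c s ζ G h₀ h₁ m₀ m₁ d) (hπ : IsUltra π)
    (hp : Tendsto p (hyperfilter ℕ : Filter ℕ) atTop) (hN : 0 < N)
    (hsum : ∑ i, ((ζ i : ℝ) / N) = 0) :
    IrreducibleSystem ((glue b).map π) ((glue c).map π) ↔
      Stable ((glue (fun n => (h₀ n)⁻¹)).map π) ((glue (fun n => (h₁ n)⁻¹)).map π)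
        (fun i => (ζ i : ℝ) / N) := by
  constructor
  · intro hirr
    refine ⟨hsum, fun t ht0 ht W hW => ?_⟩
    by_contra hcon
    push Not at hcon
    obtain ⟨Z, V, N', hV, hN', _⟩ := hD.up hπ hN 0 hW.fullRank hcon
    exact hirr t ht0 ht Z ⟨V, hV⟩ ⟨N', hN'⟩
  · rintro ⟨_, hst⟩ t ht0 ht Z ⟨V, hV⟩ ⟨N', hN'⟩
    obtain ⟨W, hW, hdeg, _⟩ := hD.down hπ hp hN 0 hV hN'
    exact absurd hdeg (not_le.mpr (hst t ht0 ht W hW))

end limit

section tensorlimit

variable {k : ℕ → Type} [∀ n, Field (k n)] [∀ n, IsAlgClosed (k n)] {M : Type} [Field M]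
  {π : (∀ n, k n) →+* M} {r : ℕ}
  {p : ℕ → ℕ} {N Q : ℕ}
  {b c : ∀ n, Matrix (Fin r) (Fin r) (k n)} {s ζ : Fin 3 × Fin r → ℤ}
  {G : ∀ n, Matrix (Fin r) (Fin r) (k n)[X]} {h₀ h₁ : ∀ n, Matrix (Fin r) (Fin r) (k n)}
  {m₀ m₁ d : ℕ → Fin r → ℕ}

theorem LimData.tens (hD : LimData p N Q b c s ζ G h₀ h₁ m₀ m₁ d) (a : ℕ) :
    LimData p N (a * Q) (fun n => tensAdd a (b n)) (fun n => tensAdd a (c n)) (tensZ a s)
      (tensZ a ζ) (fun n => T.tens a (G n)) (fun n => T.tens a (h₀ n)) (fun n => T.tens a (h₁ n))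
      (fun n => tensNat a (m₀ n)) (fun n => tensNat a (m₁ n)) (fun n => tensNat a (d n)) := by
  refine ⟨fun n => (hD.level n).tens a, ?_⟩
  filter_upwards [hD.const] with n hn i
  rw [expo_tens]
  exact tensZ_rel a hn i

lemma tens_component (a : ℕ) (g : Matrix (Fin r) (Fin r) (∀ n, k n)) (n : ℕ) :
    mc n (T.tens a g) = T.tens a (mc n g) :=
  tens_map a g (Pi.evalRingHom k n)

lemma tensAdd_component (a : ℕ) (g : Matrix (Fin r) (Fin r) (∀ n, k n)) (n : ℕ) :
    mc n (tensAdd a g) = tensAdd a (mc n g) :=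
  tensAdd_map a g (Pi.evalRingHom k n)

lemma ext_component {s t : Type*} {A B : Matrix s t (∀ n, k n)} (h : ∀ n, mc n A = mc n B) :
    A = B := by
  ext i j n
  exact congrFun (congrFun (h n) i) j

lemma glue_tens (a : ℕ) (g : ∀ n, Matrix (Fin r) (Fin r) (k n)) :
    (glue (fun n => T.tens a (g n))).map π = T.tens a ((glue g).map π) := by
  have h1 : glue (fun n => T.tens a (g n)) = T.tens a (glue g) := by
    apply ext_component
    intro n
    rw [tens_component, mc_glue, mc_glue]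
  rw [h1]
  exact tens_map a (glue g) π

lemma glue_tensAdd (a : ℕ) (g : ∀ n, Matrix (Fin r) (Fin r) (k n)) :
    (glue (fun n => tensAdd a (g n))).map π = tensAdd a ((glue g).map π) := by
  have h1 : glue (fun n => tensAdd a (g n)) = tensAdd a (glue g) := by
    apply ext_component
    intro n
    rw [tensAdd_component, mc_glue, mc_glue]
  rw [h1]
  exact tensAdd_map a (glue g) π

lemma tensWeight_eq (a : ℕ) (ζ : Fin 3 × Fin r → ℤ) (N : ℕ)
    (i : Fin 3 × (Fin a → Unit ⊕ Fin r)) :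
    tensWeight a (fun i => (ζ i : ℝ) / N) i = (tensZ a ζ i : ℝ) / N := by
  unfold tensWeight tensZ
  push_cast
  rw [Finset.sum_div]
  apply Finset.sum_congr rfl
  intro l _
  rcases i.2 l with y | y
  · simp
  · simp

lemma sum_tensWeight (a : ℕ) {w : Fin 3 × Fin r → ℝ} (hw : ∑ i, w i = 0) :
    ∑ i, tensWeight a w i = 0 := by
  rw [Fintype.sum_prod_type]
  unfold tensWeight
  simp only
  have h1 : ∀ x : Fin 3, ∑ y : Fin a → Unit ⊕ Fin r, ∑ l,
      Sum.elim (fun _ => (0 : ℝ)) (fun j => w (x, j)) (y l)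
      = ∑ l : Fin a, ((Fintype.card (Unit ⊕ Fin r)) ^ (Fintype.card (Fin a) - 1))
        • ∑ j, w (x, j) := by
    intro x
    rw [Finset.sum_comm]
    apply Finset.sum_congr rfl
    intro l _
    have h2 := Fintype.sum_piFinset_apply
      (fun y : Unit ⊕ Fin r => Sum.elim (fun _ => (0 : ℝ)) (fun j => w (x, j)) y) Finset.univ l
    rw [Fintype.piFinset_univ] at h2
    rw [h2, Fintype.sum_sum_type]
    simp
  simp only [h1]
  rw [Finset.sum_comm]
  apply Finset.sum_eq_zero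
  intro l _
  rw [← Finset.smul_sum, ← Fintype.sum_prod_type (f := fun i : Fin 3 × Fin r => w i), hw,
    smul_zero]

end tensorlimit

section final

lemma exists_good_point {k : ℕ → Type} [∀ n, Field (k n)] [∀ n, Infinite (k n)] {M : Type}
    [Field M] {π : (∀ n, k n) →+* M} (hπ : IsUltra π) {x : M} (hx0 : x ≠ 0) (hx1 : x ≠ 1) :
    ∃ z : ∀ n, k n, (∀ n, z n ≠ 0) ∧ (∀ n, z n ≠ 1) ∧ π z = x := by
  classical
  obtain ⟨z₀, hz₀⟩ := hπ.1 x
  have hex : ∀ n, ∃ t : k n, t ≠ 0 ∧ t ≠ 1 := by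
    intro n
    obtain ⟨t, ht⟩ : ∃ t : k n, t ∉ ({0, 1} : Finset (k n)) := Infinite.exists_notMem_finset _
    simp only [Finset.mem_insert, Finset.mem_singleton, not_or] at ht
    exact ⟨t, ht⟩
  choose t ht0 ht1 using hex
  refine ⟨fun n => if z₀ n = 0 ∨ z₀ n = 1 then t n else z₀ n, ?_, ?_, ?_⟩
  · intro n
    simp only
    split_ifs with h
    · exact ht0 n
    · exact fun h' => h (Or.inl h')
  · intro n
    simp only
    split_ifs with h
    · exact ht1 n
    · exact fun h' => h (Or.inr h')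
  · rw [← hz₀, ← sub_eq_zero, ← map_sub, hπ.2]
    have h1 : π z₀ ≠ 0 := by rw [hz₀]; exact hx0
    have h2 : π (z₀ - 1) ≠ 0 := by
      rw [map_sub, map_one, hz₀]; exact sub_ne_zero.mpr hx1
    filter_upwards [hπ.ne_zero.mp h1, hπ.ne_zero.mp h2] with n hn1 hn2
    rw [Pi.sub_apply, if_neg, sub_self]
    rintro (h | h)
    · exact hn1 h
    · apply hn2
      rw [Pi.sub_apply, h, Pi.one_apply, sub_self]

lemma glue_smul_map {r : ℕ} {k : ℕ → Type} [∀ n, Field (k n)] {A : Type} [CommRing A]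
    {π : (∀ n, k n) →+* ℂ} (hπ : IsUltra π) {σ : A →+* ℂ} (hσ : Function.Injective σ)
    (φ : ∀ n, A →+* k n) (hφσ : ∀ a, π (fun n => φ n a) = σ a) {ν : ℕ} (hν : (ν : A) ≠ 0)
    (b : Matrix (Fin r) (Fin r) A) :
    (glue (fun n => (ν : k n)⁻¹ • b.map (φ n))).map π = (ν : ℂ)⁻¹ • b.map σ := by
  have h1 : (ν : ℂ) ≠ 0 := by
    intro h
    apply hν
    apply hσ
    rw [map_natCast, map_zero, h]
  have h2 : ∀ᶠ n in (hyperfilter ℕ : Filter ℕ), (ν : k n) ≠ 0 := by
    have : π (fun n => φ n (ν : A)) ≠ 0 := by rw [hφσ, map_natCast]; exact h1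
    filter_upwards [hπ.ne_zero.mp this] with n hn
    simpa using hn
  have h3 : π (fun n => (ν : k n)⁻¹) = (ν : ℂ)⁻¹ := by
    have h4 : π ((fun n => (ν : k n)⁻¹) * (ν : ∀ n, k n) - 1) = 0 := by
      rw [hπ.2]
      filter_upwards [h2] with n hn
      simp [inv_mul_cancel₀ hn]
    rw [map_sub, map_mul, map_natCast, map_one, sub_eq_zero] at h4
    exact eq_inv_of_mul_eq_one_left h4
  ext1 i j
  have h5 : glue (fun n => (ν : k n)⁻¹ • b.map (φ n)) i j
      = (fun n => (ν : k n)⁻¹) * (fun n => φ n (b i j)) := rfl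
  rw [map_apply, h5, map_mul, h3, hφσ]
  rfl

/-- the conclusion of the main theorem, for the system `f' = (B/t + C/(t-1)) f` and the exponents
`e` multiplied by `-u` -/
def Conclusion {r : ℕ} (B C : Matrix (Fin r) (Fin r) ℂ) (e : Fin 3 × Fin r → ℝ) (N a : ℕ)
    (u : ℤ) : Prop :=
  ∃ (Φ : ℂ ≃+* ℂ) (g₀ g₁ : Matrix (Fin r) (Fin r) ℂ) (w : Fin 3 × Fin r → ℝ),
    (∀ ζ : ℂ, ζ ^ N = 1 → Φ ζ = ζ ^ a) ∧
    g₀.det ≠ 0 ∧ g₁.det ≠ 0 ∧ (∀ i, ∃ z : ℤ, w i + u * e i = z) ∧
    (∀ j, 0 ≤ w (0, j) ∧ w (0, j) ≤ 1 ∧ 0 ≤ w (1, j) ∧ w (1, j) ≤ 1) ∧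
    Semistable g₀ g₁ w ∧ (IrreducibleSystem B C ↔ Stable g₀ g₁ w) ∧
    (∀ m : ℕ, Semistable (tens m g₀) (tens m g₁) (tensWeight m w)) ∧
    ∀ x : ℂ, x ≠ 0 → x ≠ 1 → ∃ γ : Matrix (Fin r) (Fin r) ℂ, γ.det ≠ 0 ∧ ∀ m : ℕ,
        connFibres (tensAdd m B) (tensAdd m C) x
          = Submodule.map (tens m γ).mulVecLin ''
            parFibres (tens m g₀) (tens m g₁) (tensWeight m w) (Φ x)

theorem limit_main {r : ℕ} {A : Type} [CommRing A] [IsDomain A] [Countable A]
    {σ : A →+* ℂ} (hσ : Function.Injective σ) (k : ℕ → Type) [∀ n, Field (k n)]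
    [∀ n, IsAlgClosed (k n)] (hk : ∀ n, #(k n) ≤ 𝔠) (φ : ∀ n, A →+* k n)
    (hφ : ∀ a : A, a ≠ 0 → ∀ᶠ n in cofinite, φ n a ≠ 0) (p : ℕ → ℕ) [∀ n, Fact (p n).Prime]
    [∀ n, CharP (k n) (p n)] (hp : Tendsto p cofinite atTop) {ν N a : ℕ} (hν : (ν : A) ≠ 0)
    (hN : 0 < N) (b c : Matrix (Fin r) (Fin r) A) (s : Fin 3 × Fin r → ℤ) (u : ℤ)
    (hu : ∀ n, (N : ℤ) ∣ u * p n - 1) (ha : ∀ n, p n ≡ a [MOD N])
    (G : ∀ n, Matrix (Fin r) (Fin r) (k n)[X]) (h₀ h₁ : ∀ n, Matrix (Fin r) (Fin r) (k n))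
    (m₀ m₁ d : ℕ → Fin r → ℕ)
    (hL : ∀ n, TLevel (p n) N (2 * r + 1) ((ν : k n)⁻¹ • b.map (φ n)) ((ν : k n)⁻¹ • c.map (φ n)) s
      (G n) (h₀ n) (h₁ n) (m₀ n) (m₁ n) (d n))
    (hlt₀ : ∀ n j, m₀ n j < p n) (hlt₁ : ∀ n j, m₁ n j < p n)
    (hsum : ∀ n, ∑ j, d n j = ∑ j, m₀ n j + ∑ j, m₁ n j) :
    Conclusion ((ν : ℂ)⁻¹ • b.map σ) ((ν : ℂ)⁻¹ • c.map σ) (fun i => (s i : ℝ) / N) N a u := by
  classical
  obtain ⟨π, hsurj, hker, hφσ⟩ := exists_ultra σ hσ k hk φ hφ
  have hπ : IsUltra π := ⟨hsurj, hker⟩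
  have : ∀ n, Infinite (k n) := fun n => IsAlgClosed.instInfinite
  have hNR : (0 : ℝ) < N := by exact_mod_cast hN
  have hp0 : ∀ n, (0 : ℤ) < p n := fun n => by exact_mod_cast (Fact.out : (p n).Prime).pos
  have hp0R : ∀ n, (0 : ℝ) < p n := fun n => by exact_mod_cast (Fact.out : (p n).Prime).pos
  have hph : Tendsto p (hyperfilter ℕ : Filter ℕ) atTop := hp.mono_left hyperfilter_le_cofinite
  choose z hz using fun n => (hL n).expo
  -- the integers `z n i` are bounded
  have hexpo : ∀ n i, |expo (m₀ n) (m₁ n) (d n) i| ≤ (2 * r + 1) * p n := by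
    intro n i
    have key : ∀ m : ℕ, m ≤ (2 * r + 1) * p n → |((m : ℕ) : ℤ)| ≤ (2 * r + 1) * p n := by
      intro m hm
      rw [Nat.abs_cast]
      exact_mod_cast hm
    obtain ⟨x, j⟩ := i
    fin_cases x
    · exact key _ ((hL n).le₀ j)
    · exact key _ ((hL n).le₁ j)
    · change |-((d n j : ℕ) : ℤ)| ≤ _
      rw [abs_neg]
      exact key _ ((hL n).le₂ j)
  have hzb : ∀ i n, z n i ∈ Set.Icc (-(N * (2 * r + 1) + |s i|)) (N * (2 * r + 1) + |s i|) := by
    intro i n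
    rw [Set.mem_Icc, ← abs_le]
    have h1 : (p n : ℤ) * z n i = N * expo (m₀ n) (m₁ n) (d n) i - s i := by
      rw [hz n i]; ring
    have h2 : (p n : ℤ) * |z n i| ≤ p n * (N * (2 * r + 1) + |s i|) := by
      calc (p n : ℤ) * |z n i| = |(p n : ℤ) * z n i| := by
            rw [abs_mul, abs_of_pos (hp0 n)]
        _ = |N * expo (m₀ n) (m₁ n) (d n) i - s i| := by rw [h1]
        _ ≤ |N * expo (m₀ n) (m₁ n) (d n) i| + |s i| := abs_sub _ _
        _ = N * |expo (m₀ n) (m₁ n) (d n) i| + |s i| := by rw [abs_mul, Nat.abs_cast]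
        _ ≤ N * ((2 * r + 1) * p n) + p n * |s i| := by
            apply add_le_add
            · exact mul_le_mul_of_nonneg_left (hexpo n i) (Nat.cast_nonneg _)
            · have h3 : (1 : ℤ) ≤ p n := hp0 n
              nlinarith [abs_nonneg (s i)]
        _ = p n * (N * (2 * r + 1) + |s i|) := by ring
    exact le_of_mul_le_mul_left h2 (hp0 n)
  have hζ : ∀ i, ∃ ζ : ℤ, ∀ᶠ n in (hyperfilter ℕ : Filter ℕ), z n i = ζ := by
    intro i
    have h1 : ∀ᶠ n in (hyperfilter ℕ : Filter ℕ), ∃ ζ ∈ Set.Icc (-(N * (2 * r + 1) + |s i|) : ℤ)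
        (N * (2 * r + 1) + |s i|), z n i = ζ :=
      Eventually.of_forall (fun n => ⟨z n i, hzb i n, rfl⟩)
    rw [Ultrafilter.eventually_exists_mem_iff (Set.finite_Icc _ _)] at h1
    obtain ⟨ζ, _, h2⟩ := h1
    exact ⟨ζ, h2⟩
  choose ζ hζ using hζ
  have hζ' : ∀ᶠ n in (hyperfilter ℕ : Filter ℕ), ∀ i, z n i = ζ i :=
    Filter.eventually_all.mpr hζ
  have hD : LimData p N (2 * r + 1) (fun n => (ν : k n)⁻¹ • b.map (φ n))
      (fun n => (ν : k n)⁻¹ • c.map (φ n)) s ζ G h₀ h₁ m₀ m₁ d := by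
    refine ⟨hL, ?_⟩
    filter_upwards [hζ'] with n hn i
    rw [hz n i, hn i]
  -- the primes tend to infinity
  have hpt : Tendsto (fun n => (p n : ℝ)) (hyperfilter ℕ : Filter ℕ) atTop :=
    tendsto_natCast_atTop_atTop.comp hph
  have hw : ∀ i, Tendsto (fun n => (expo (m₀ n) (m₁ n) (d n) i : ℝ) / p n)
      (hyperfilter ℕ : Filter ℕ) (nhds ((ζ i : ℝ) / N)) := by
    intro i
    have h1 : Tendsto (fun n => ((s i : ℝ) / N) / p n + (ζ i : ℝ) / N)
        (hyperfilter ℕ : Filter ℕ) (nhds ((ζ i : ℝ) / N)) := by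
      have h2 : Tendsto (fun n => ((s i : ℝ) / N) / p n) (hyperfilter ℕ : Filter ℕ) (nhds 0) :=
        tendsto_const_nhds.div_atTop hpt
      have h3 := h2.add_const ((ζ i : ℝ) / N)
      rwa [zero_add] at h3
    refine h1.congr' ?_
    filter_upwards [hζ i] with n hn
    have h4 : (N : ℝ) * expo (m₀ n) (m₁ n) (d n) i = s i + p n * ζ i := by
      have := hz n i
      rw [hn] at this
      exact_mod_cast this
    have h5 := (hp0R n).ne'
    have h6 := hNR.ne'
    field_simp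
    linarith
  have hwsum : ∑ i, (ζ i : ℝ) / N = 0 := by
    have h1 : Tendsto (fun n => ∑ i, (expo (m₀ n) (m₁ n) (d n) i : ℝ) / p n)
        (hyperfilter ℕ : Filter ℕ) (nhds (∑ i, (ζ i : ℝ) / N)) :=
      tendsto_finsetSum _ (fun i _ => hw i)
    have h2 : ∀ n, ∑ i, (expo (m₀ n) (m₁ n) (d n) i : ℝ) / p n = 0 := by
      intro n
      rw [← Finset.sum_div]
      have h3 : ∑ i, (expo (m₀ n) (m₁ n) (d n) i : ℝ) = 0 := by
        rw [Fintype.sum_prod_type, Fin.sum_univ_three]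
        have h4 : (∑ j, (d n j : ℝ)) = ∑ j, (m₀ n j : ℝ) + ∑ j, (m₁ n j : ℝ) := by
          exact_mod_cast hsum n
        simp only [expo]
        push_cast
        simp only [Finset.sum_neg_distrib]
        rw [h4]
        simp
      rw [h3, zero_div]
    simp only [h2] at h1
    exact (tendsto_nhds_unique h1 tendsto_const_nhds)
  have hginv : ∀ (m : ℕ) (h : ∀ n, Matrix (Fin r) (Fin r) (k n)), (∀ n, (h n).det ≠ 0) →
      (glue (fun n => (tens m (h n))⁻¹)).map π = tens m ((glue (fun n => (h n)⁻¹)).map π) := by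
    intro m h hh
    rw [← glue_tens]
    have : (fun n => (tens m (h n))⁻¹) = fun n => tens m (h n)⁻¹ := by
      funext n
      exact tens_inv m (hh n)
    rw [this]
  have hst := hD.stable_iff hπ hph hN hwsum
  rw [glue_smul_map hπ hσ φ hφσ hν b, glue_smul_map hπ hσ φ hφσ hν c] at hst
  have hwt : ∀ m : ℕ, (fun i => (tensZ m ζ i : ℝ) / N) = tensWeight m (fun i => (ζ i : ℝ) / N) := by
    intro m
    funext i
    exact (tensWeight_eq m ζ N i).symm
  obtain ⟨Φ, hΦ⟩ := Pool.Agent.Work.MP_5e5ff1_ag.A.exists_frobenius p hπ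
  refine ⟨Φ, (glue (fun n => (h₀ n)⁻¹)).map π, (glue (fun n => (h₁ n)⁻¹)).map π,
    fun i => (ζ i : ℝ) / N, fun ζ hζ =>
      Pool.Agent.Work.MP_5e5ff1_ag.A.frobenius_root p hπ hΦ ha hζ, ?_, ?_, ?_, ?_, ?_, hst,
    ?_, ?_⟩
  · apply glue_det_ne hπ
    intro n
    rw [det_nonsing_inv]; simpa using (hL n).frame.h₀_ne
  · apply glue_det_ne hπ
    intro n
    rw [det_nonsing_inv]; simpa using (hL n).frame.h₁_ne
  · intro i
    obtain ⟨n, hn⟩ := (hζ i).exists
    obtain ⟨t, ht⟩ := hu n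
    have h1 := hz n i
    rw [hn] at h1
    refine ⟨u * expo (m₀ n) (m₁ n) (d n) i - t * ζ i, ?_⟩
    have h2 : (N : ℝ) * expo (m₀ n) (m₁ n) (d n) i = s i + p n * ζ i := by exact_mod_cast h1
    have h3 : (u : ℝ) * p n - 1 = N * t := by exact_mod_cast ht
    push_cast
    field_simp
    linear_combination (-(u : ℝ)) * h2 - (ζ i : ℝ) * h3
  · intro j
    have hnn : ∀ i : Fin 3 × Fin r, (∀ n, 0 ≤ (expo (m₀ n) (m₁ n) (d n) i : ℝ) / p n) →
        0 ≤ (ζ i : ℝ) / N := fun i h => ge_of_tendsto' (hw i) h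
    have hle : ∀ i : Fin 3 × Fin r, (∀ n, (expo (m₀ n) (m₁ n) (d n) i : ℝ) / p n ≤ 1) →
        (ζ i : ℝ) / N ≤ 1 := fun i h => le_of_tendsto' (hw i) h
    refine ⟨hnn _ fun n => ?_, hle _ fun n => ?_, hnn _ fun n => ?_, hle _ fun n => ?_⟩
    · change 0 ≤ (((m₀ n j : ℕ) : ℤ) : ℝ) / p n
      positivity
    · change (((m₀ n j : ℕ) : ℤ) : ℝ) / p n ≤ 1
      rw [div_le_one (hp0R n)]
      exact_mod_cast (hlt₀ n j).le
    · change 0 ≤ (((m₁ n j : ℕ) : ℤ) : ℝ) / p n
      positivity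
    · change (((m₁ n j : ℕ) : ℤ) : ℝ) / p n ≤ 1
      rw [div_le_one (hp0R n)]
      exact_mod_cast (hlt₁ n j).le
  · exact ⟨hwsum, fun t W hW => hD.semistable hπ hph hN hW.fullRank⟩
  · intro m
    refine ⟨sum_tensWeight m hwsum, fun t W hW => ?_⟩
    have h1 := (hD.tens m).semistable hπ hph hN hW.fullRank
    rw [hginv m h₀ (fun n => (hL n).frame.h₀_ne), hginv m h₁ (fun n => (hL n).frame.h₁_ne),
      hwt m] at h1
    exact h1
  · intro x hx0 hx1
    obtain ⟨ξ, hξ0, hξ1, hξx⟩ := exists_good_point hπ hx0 hx1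
    refine ⟨(glue (fun n => (G n).map (eval (ξ n)))).map π, hD.fibre_ne hπ hξ0 hξ1, ?_⟩
    · intro m
      have h1 := (hD.tens m).fibres hπ hph hN hξ0 hξ1
      rw [hginv m h₀ (fun n => (hL n).frame.h₀_ne), hginv m h₁ (fun n => (hL n).frame.h₁_ne),
        hwt m, glue_tensAdd, glue_tensAdd, glue_smul_map hπ hσ φ hφσ hν b,
        glue_smul_map hπ hσ φ hφσ hν c, hξx] at h1
      have h2 : (fun n => (tens m (G n)).map (eval (ξ n)))
          = fun n => tens m ((G n).map (eval (ξ n))) := by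
        funext n
        exact tens_map m (G n) (evalRingHom (ξ n))
      rw [h2, glue_tens, ← hΦ, hξx] at h1
      exact h1

end final

end Pool.Agent.Work.MP_5e5ff1_ag.T

end

section

/-! The main theorem over a number field. -/

open Filter Polynomial Matrix Cardinal NumberField

set_option linter.unusedSectionVars false

namespace Pool.Agent.Work.MP_5e5ff1_ag.T

variable {K : Type} [Field K] [NumberField K] {r : ℕ}

lemma countable_ringOfIntegers (K : Type) [Field K] [NumberField K] : Countable (𝓞 K) := by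
  have : Countable K := by
    rw [← Cardinal.mk_le_aleph0_iff]
    have h1 := Algebra.IsAlgebraic.cardinalMk_le_max ℚ K
    refine h1.trans ?_
    simp
  exact Function.Injective.countable (f := fun x : 𝓞 K => (x : K)) RingOfIntegers.coe_injective

lemma card_algClosure_le (F : Type) [Field F] [Finite F] : #(AlgebraicClosure F) ≤ 𝔠 := by
  have h1 := Algebra.IsAlgebraic.cardinalMk_le_max F (AlgebraicClosure F)
  refine h1.trans ?_
  refine max_le ?_ (aleph0_le_continuum)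
  exact (Cardinal.lt_aleph0_of_finite F).le.trans aleph0_le_continuum

theorem level_of_prime {n N : ℕ} (hn0 : 0 < n) (hN0 : 0 < N)
    {b c : Matrix (Fin r) (Fin r) (𝓞 K)} {s : Fin 3 × Fin r → ℤ}
    (hb : ((n : K)⁻¹ • b.map (algebraMap (𝓞 K) K)).charpoly
      = ∏ j, (X - C ((s (0, j) : K) / (N : K))))
    (hc : ((n : K)⁻¹ • c.map (algebraMap (𝓞 K) K)).charpoly
      = ∏ j, (X - C ((s (1, j) : K) / (N : K))))
    (hbc : ((n : K)⁻¹ • (b + c).map (algebraMap (𝓞 K) K)).charpoly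
      = ∏ j, (X - C (((-(s (2, j)) : ℤ) : K) / (N : K))))
    {P : Ideal (𝓞 K)} (hcurv : PCurvZero n b c P)
    {k : Type} [Field k] [IsAlgClosed k] (ψ : (𝓞 K ⧸ P) →+* k)
    {p : ℕ} (hpP : ringChar (𝓞 K ⧸ P) = p) [Fact p.Prime] [CharP k p]
    (hnk : (n : k) ≠ 0) (hNk : (N : k) ≠ 0) :
    ∃ (G : Matrix (Fin r) (Fin r) k[X]) (h₀ h₁ : Matrix (Fin r) (Fin r) k)
      (m₀ m₁ d : Fin r → ℕ), TLevel p N (2 * r + 1)
        ((n : k)⁻¹ • b.map (ψ.comp (Ideal.Quotient.mk P)))
        ((n : k)⁻¹ • c.map (ψ.comp (Ideal.Quotient.mk P))) s G h₀ h₁ m₀ m₁ d ∧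
        (∀ j, m₀ j < p) ∧ (∀ j, m₁ j < p) ∧ ∑ j, d j = ∑ j, m₀ j + ∑ j, m₁ j := by
  classical
  set φ : 𝓞 K →+* k := ψ.comp (Ideal.Quotient.mk P) with hφ
  have hbk := reduce_charpoly φ hn0 hN0 hnk hNk hb
  have hck := reduce_charpoly φ hn0 hN0 hnk hNk hc
  have hbck := reduce_charpoly φ hn0 hN0 hnk hNk hbc
  have hadd : (n : k)⁻¹ • b.map φ + (n : k)⁻¹ • c.map φ = (n : k)⁻¹ • (b + c).map φ := by
    rw [← smul_add, Matrix.map_add _ (map_add _)]
  rw [← hadd] at hbck
  have hex : ∃ F, Hor (X * (X - 1)) (Lmat ((n : k)⁻¹ • b.map φ) ((n : k)⁻¹ • c.map φ)) F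
      ∧ F.det ≠ 0 := by
    obtain ⟨x0, hx0⟩ : ∃ x0 : k, x0 ∉ ({0, 1} : Finset k) := Infinite.exists_notMem_finset _
    simp only [Finset.mem_insert, Finset.mem_singleton, not_or] at hx0
    refine exists_hor (p := p) hnk (b.map φ) (c.map φ) ?_ x0 hx0.1 hx0.2
    have h1 := Qs_of_pcurv hcurv ψ
    rw [hpP] at h1
    exact h1
  exact exists_level hNk hbk hck hbck hex

/-- the data at one prime, over the algebraic closure of the residue field -/
theorem exists_field {n N : ℕ} (hn0 : 0 < n) (hN0 : 0 < N)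
    {b c : Matrix (Fin r) (Fin r) (𝓞 K)} {s : Fin 3 × Fin r → ℤ}
    (hb : ((n : K)⁻¹ • b.map (algebraMap (𝓞 K) K)).charpoly
      = ∏ j, (X - C ((s (0, j) : K) / (N : K))))
    (hc : ((n : K)⁻¹ • c.map (algebraMap (𝓞 K) K)).charpoly
      = ∏ j, (X - C ((s (1, j) : K) / (N : K))))
    (hbc : ((n : K)⁻¹ • (b + c).map (algebraMap (𝓞 K) K)).charpoly
      = ∏ j, (X - C (((-(s (2, j)) : ℤ) : K) / (N : K))))
    {P : Ideal (𝓞 K)} (hP : P.IsMaximal) (hnN : (n : 𝓞 K) * (N : 𝓞 K) ∉ P)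
    (hcurv : PCurvZero n b c P) :
    ∃ (k : Type) (_ : Field k) (_ : IsAlgClosed k) (_ : CharP k (ringChar (𝓞 K ⧸ P)))
      (φ : 𝓞 K →+* k) (G : Matrix (Fin r) (Fin r) k[X]) (h₀ h₁ : Matrix (Fin r) (Fin r) k)
      (m₀ m₁ d : Fin r → ℕ), #k ≤ 𝔠 ∧ (∀ z, φ z = 0 → z ∈ P) ∧
        TLevel (ringChar (𝓞 K ⧸ P)) N (2 * r + 1) ((n : k)⁻¹ • b.map φ) ((n : k)⁻¹ • c.map φ) s
          G h₀ h₁ m₀ m₁ d ∧
        (∀ j, m₀ j < ringChar (𝓞 K ⧸ P)) ∧ (∀ j, m₁ j < ringChar (𝓞 K ⧸ P)) ∧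
        ∑ j, d j = ∑ j, m₀ j + ∑ j, m₁ j := by
  have h0 := ne_bot_of_maximal hP
  have hfin : Finite (𝓞 K ⧸ P) := by
    rw [← Ideal.absNorm_ne_zero_iff]
    exact fun h => h0 (Ideal.absNorm_eq_zero_iff.mp h)
  set p := ringChar (𝓞 K ⧸ P) with hp
  have hpp : p.Prime := prime_ringChar hP
  have : Fact p.Prime := ⟨hpp⟩
  let _ : Field (𝓞 K ⧸ P) := Ideal.Quotient.field P
  have : CharP (𝓞 K ⧸ P) p := ringChar.charP _
  have : CharP (AlgebraicClosure (𝓞 K ⧸ P)) p :=
    charP_of_injective_algebraMap (algebraMap (𝓞 K ⧸ P) (AlgebraicClosure (𝓞 K ⧸ P))).injective p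
  have hφ0 : ∀ z, ((algebraMap (𝓞 K ⧸ P) (AlgebraicClosure (𝓞 K ⧸ P))).comp
      (Ideal.Quotient.mk P)) z = 0 → z ∈ P := by
    intro z h
    rw [RingHom.comp_apply] at h
    have h1 := (map_eq_zero_iff _ (algebraMap (𝓞 K ⧸ P)
      (AlgebraicClosure (𝓞 K ⧸ P))).injective).mp h
    exact Ideal.Quotient.eq_zero_iff_mem.mp h1
  have hprod : ((algebraMap (𝓞 K ⧸ P) (AlgebraicClosure (𝓞 K ⧸ P))).comp
      (Ideal.Quotient.mk P)) ((n : 𝓞 K) * (N : 𝓞 K)) ≠ 0 := fun h => hnN (hφ0 _ h)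
  rw [map_mul, map_natCast, map_natCast] at hprod
  obtain ⟨G, h₀, h₁, m₀, m₁, d, hL⟩ := level_of_prime hn0 hN0 hb hc hbc hcurv
    (algebraMap (𝓞 K ⧸ P) (AlgebraicClosure (𝓞 K ⧸ P))) hp.symm
    (left_ne_zero_of_mul hprod) (right_ne_zero_of_mul hprod)
  exact ⟨AlgebraicClosure (𝓞 K ⧸ P), inferInstance, inferInstance, inferInstance,
    (algebraMap (𝓞 K ⧸ P) (AlgebraicClosure (𝓞 K ⧸ P))).comp (Ideal.Quotient.mk P),
    G, h₀, h₁, m₀, m₁, d, card_algClosure_le _, hφ0, hL⟩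

theorem main_theorem (σ : K →+* ℂ) {n N : ℕ} (hn0 : 0 < n) (hN0 : 0 < N)
    {b c : Matrix (Fin r) (Fin r) (𝓞 K)} {e : Fin 3 × Fin r → ℚ}
    (he : ∀ i, ∃ s : ℤ, e i = s / N) (hexp : IsExponents n b c e) {a : ℕ} {u : ℤ}
    (hu : (N : ℤ) ∣ u * a - 1)
    (hinf : {P : Ideal (𝓞 K) | P.IsMaximal ∧ ringChar (𝓞 K ⧸ P) ≡ a [MOD N] ∧
      PCurvZero n b c P}.Infinite) :
    Conclusion ((n : ℂ)⁻¹ • b.map (fun x => σ (algebraMap (𝓞 K) K x)))
      ((n : ℂ)⁻¹ • c.map (fun x => σ (algebraMap (𝓞 K) K x))) (fun i => ((e i : ℚ) : ℝ)) N a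
      u := by
  classical
  choose s hs using he
  have hcast : ∀ i, ((e i : ℚ) : K) = (s i : K) / (N : K) := by
    intro i
    rw [hs i]; push_cast; rfl
  have hcastR : (fun i => ((e i : ℚ) : ℝ)) = fun i => (s i : ℝ) / (N : ℝ) := by
    funext i
    rw [hs i]; push_cast; rfl
  obtain ⟨h0, h1, h2⟩ := hexp
  simp only [hcast] at h0 h1 h2
  have hbc : ((n : K)⁻¹ • (b + c).map (algebraMap (𝓞 K) K)).charpoly
      = ∏ j, (X - C (((-(s (2, j)) : ℤ) : K) / (N : K))) := by
    have h3 := charpoly_smul_prod h2 (t := -1) (by norm_num)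
    have h4 : (-1 : K) • ((n : K)⁻¹ • (-(b + c)).map (algebraMap (𝓞 K) K))
        = (n : K)⁻¹ • (b + c).map (algebraMap (𝓞 K) K) := by
      ext1 i j
      simp
      ring
    rw [h4] at h3
    rw [h3]
    apply Finset.prod_congr rfl
    intro j _
    congr 2
    push_cast
    ring
  -- a sequence of distinct primes
  have hnN : (n : 𝓞 K) * (N : 𝓞 K) ≠ 0 :=
    mul_ne_zero (Nat.cast_ne_zero.mpr hn0.ne') (Nat.cast_ne_zero.mpr hN0.ne')
  set S : Set (Ideal (𝓞 K)) := {P | (P.IsMaximal ∧ ringChar (𝓞 K ⧸ P) ≡ a [MOD N] ∧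
      PCurvZero n b c P) ∧ (n : 𝓞 K) * (N : 𝓞 K) ∉ P} with hS
  have hSinf : S.Infinite := by
    intro hfin
    apply hinf
    refine (hfin.union (finite_mem hnN)).subset ?_
    intro P hP
    by_cases h : (n : 𝓞 K) * (N : 𝓞 K) ∈ P
    · exact Or.inr ⟨hP.1, h⟩
    · exact Or.inl ⟨hP, h⟩
  set P : ℕ → Ideal (𝓞 K) := fun m => (hSinf.natEmbedding S m : Ideal (𝓞 K)) with hP
  have hPS : ∀ m, P m ∈ S := fun m => (hSinf.natEmbedding S m).2
  have hPinj : Function.Injective P := fun x y h =>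
    (hSinf.natEmbedding S).injective (Subtype.ext h)
  have hmax : ∀ m, (P m).IsMaximal := fun m => (hPS m).1.1
  have hchar : ∀ m, (ringChar (𝓞 K ⧸ P m)).Prime := fun m => prime_ringChar (hmax m)
  have hfield := fun m => exists_field hn0 hN0 h0 h1 hbc (hmax m) (hPS m).2 (hPS m).1.2.2
  choose k fk ack chk φ G h₀ h₁ m₀ m₁ d hcard hker hL hlt₀ hlt₁ hsum using hfield
  have : Countable (𝓞 K) := countable_ringOfIntegers K
  have : ∀ m, Fact (ringChar (𝓞 K ⧸ P m)).Prime := fun m => ⟨hchar m⟩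
  have hσ : Function.Injective (σ.comp (algebraMap (𝓞 K) K)) :=
    σ.injective.comp RingOfIntegers.coe_injective
  have hφ : ∀ z : 𝓞 K, z ≠ 0 → ∀ᶠ m in cofinite, φ m z ≠ 0 := by
    intro z hz
    rw [eventually_cofinite]
    refine ((finite_mem hz).preimage hPinj.injOn).subset ?_
    intro m hm
    simp only [Set.mem_ofPred_eq, not_not] at hm
    exact ⟨hmax m, hker m z hm⟩
  have hp : Tendsto (fun m => ringChar (𝓞 K ⧸ P m)) cofinite atTop := by
    rw [tendsto_atTop]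
    intro B
    rw [eventually_cofinite]
    refine ((finite_char (K := K) B).preimage hPinj.injOn).subset ?_
    intro m hm
    simp only [Set.mem_ofPred_eq, not_le] at hm
    exact ⟨hmax m, hm.le⟩
  have hu' : ∀ m, (N : ℤ) ∣ u * (ringChar (𝓞 K ⧸ P m) : ℕ) - 1 := fun m =>
    (modEq_iff hu).mp (hPS m).1.2.1
  have ha' : ∀ m, ringChar (𝓞 K ⧸ P m) ≡ a [MOD N] := fun m => (hPS m).1.2.1
  rw [hcastR]
  exact limit_main hσ k hcard φ hφ
    (fun m => ringChar (𝓞 K ⧸ P m)) hp (ν := n) (Nat.cast_ne_zero.mpr hn0.ne') hN0 b c s u hu' ha'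
    G h₀ h₁ m₀ m₁ d hL hlt₀ hlt₁ hsum

end Pool.Agent.Work.MP_5e5ff1_ag.T

end
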