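import Mathlib
import Pool.Agent.Work.MP_5e5ff1_ag.Unit.Stmts
import Pool.Agent.Work.MP_5e5ff1_ag.Unit.Defs
import Pool.Agent.Work.MP_5e5ff1_ag.Unit.Geo
import Pool.Agent.Work.MP_a78000_an.RMT
import Pool.Agent.Work.MP_63d28d_an.Smooth
import Pool.Agent.Work.MP_63d28d_an.Sub

/-! Bundle of small proof modules (one section per former module). -/

section

set_option autoImplicit false

/-! Injectivity of the linearised equations for positive parameter. -/

open Matrix Polynomial Filter Topology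
open scoped ComplexConjugate ComplexOrder

namespace Pool.Agent.MSU.ItemIInj1

variable {r : ℕ}

open scoped MatrixOrder in
theorem exists_frame (H : Matrix (Fin r) (Fin r) ℂ) (hH : H.PosDef) :
    ∃ S T : Matrix (Fin r) (Fin r) ℂ, H = Sᴴ * S ∧ S * T = 1 ∧ T * S = 1 := by
  obtain ⟨S, hS⟩ := CStarAlgebra.nonneg_iff_eq_star_mul_self.mp hH.posSemidef.nonneg
  rw [star_eq_conjTranspose] at hS
  have h1 : IsUnit H.det := (Matrix.isUnit_iff_isUnit_det _).1 hH.isUnit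
  have h2 : IsUnit S.det := by
    rw [hS, det_mul] at h1
    exact isUnit_of_mul_isUnit_right h1
  exact ⟨S, S⁻¹, hS, Matrix.mul_nonsing_inv _ h2, Matrix.nonsing_inv_mul _ h2⟩

theorem frob_trace (M : Matrix (Fin r) (Fin r) ℂ) :
    ((∑ i : Fin r × Fin r, ‖M i.1 i.2‖ ^ 2 : ℝ) : ℂ) = (Mᴴ * M).trace := by
  rw [Fintype.sum_prod_type, Finset.sum_comm, Matrix.trace]
  push_cast
  refine Finset.sum_congr rfl fun b _ => ?_
  rw [diag_apply, mul_apply]
  refine Finset.sum_congr rfl fun a _ => ?_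
  rw [conjTranspose_apply]
  exact (Complex.conj_mul' (M a b)).symm

theorem frob_conj (U M : Matrix (Fin r) (Fin r) ℂ) (hU : Uᴴ * U = 1) :
    ∑ i : Fin r × Fin r, ‖(Uᴴ * M * U) i.1 i.2‖ ^ 2 = ∑ i : Fin r × Fin r, ‖M i.1 i.2‖ ^ 2 := by
  have hU' : U * Uᴴ = 1 := mul_eq_one_comm.1 hU
  have h : ((∑ i : Fin r × Fin r, ‖(Uᴴ * M * U) i.1 i.2‖ ^ 2 : ℝ) : ℂ) =
      ((∑ i : Fin r × Fin r, ‖M i.1 i.2‖ ^ 2 : ℝ) : ℂ) := by
    rw [frob_trace, frob_trace]
    have e : (Uᴴ * M * U)ᴴ * (Uᴴ * M * U) = Uᴴ * (Mᴴ * M * U) := by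
      simp only [conjTranspose_mul, conjTranspose_conjTranspose]
      calc Uᴴ * (Mᴴ * U) * (Uᴴ * M * U) = Uᴴ * Mᴴ * (U * Uᴴ) * M * U := by noncomm_ring
        _ = Uᴴ * (Mᴴ * M * U) := by rw [hU']; noncomm_ring
    rw [e, trace_mul_comm, Matrix.mul_assoc, hU', Matrix.mul_one]
  exact_mod_cast h

theorem inter_V {j j' : Fin 3} {z : ℂ} (h : z ∈ V j) (h' : z ∈ V j') :
    0 < z.im ∨ z.im < 0 ∨ j = j' := by
  rcases lt_trichotomy z.im 0 with h0 | h0 | h0
  · exact Or.inr (Or.inl h0)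
  · right; right
    rcases h with h | ⟨e, h⟩ | ⟨e, h, h2⟩ | ⟨e, h⟩
    · exact absurd h0 h
    · rcases h' with k | ⟨e', k⟩ | ⟨e', k, k2⟩ | ⟨e', k⟩
      · exact absurd h0 k
      · rw [e, e']
      · linarith
      · linarith
    · rcases h' with k | ⟨e', k⟩ | ⟨e', k, k2⟩ | ⟨e', k⟩
      · exact absurd h0 k
      · linarith
      · rw [e, e']
      · linarith
    · rcases h' with k | ⟨e', k⟩ | ⟨e', k, k2⟩ | ⟨e', k⟩
      · exact absurd h0 k
      · linarith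
      · linarith
      · rw [e, e']
  · exact Or.inl h0

/-- a bound for the entries of `A * K * C` -/
theorem entry_bound (A C : Matrix (Fin r) (Fin r) ℂ) : ∃ c : ℝ, 0 ≤ c ∧
    ∀ (K : Matrix (Fin r) (Fin r) ℂ) (M : ℝ), (∀ i j, ‖K i j‖ ≤ M) → ∀ a b,
      ‖(A * K * C) a b‖ ≤ c * M := by
  refine ⟨∑ a, ∑ b, ∑ j, ∑ i, ‖A a i‖ * ‖C j b‖, by positivity, ?_⟩
  intro K M hK a b
  have hM : 0 ≤ M := by
    have : 0 ≤ ‖K a b‖ := norm_nonneg _
    exact this.trans (hK a b)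
  calc ‖(A * K * C) a b‖ = ‖∑ j, (∑ i, A a i * K i j) * C j b‖ := by
        rw [mul_apply]
        simp only [mul_apply]
    _ ≤ ∑ j, ‖(∑ i, A a i * K i j) * C j b‖ := norm_sum_le _ _
    _ ≤ ∑ j, (∑ i, ‖A a i‖ * M) * ‖C j b‖ := by
        refine Finset.sum_le_sum fun j _ => ?_
        rw [norm_mul]
        refine mul_le_mul_of_nonneg_right ?_ (norm_nonneg _)
        refine (norm_sum_le _ _).trans (Finset.sum_le_sum fun i _ => ?_)
        rw [norm_mul]
        exact mul_le_mul_of_nonneg_left (hK i j) (norm_nonneg _)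
    _ = (∑ j, ∑ i, ‖A a i‖ * ‖C j b‖) * M := by
        rw [Finset.sum_mul]
        refine Finset.sum_congr rfl fun j _ => ?_
        rw [Finset.sum_mul, Finset.sum_mul]
        refine Finset.sum_congr rfl fun i _ => ?_
        ring
    _ ≤ _ := by
        refine mul_le_mul_of_nonneg_right ?_ hM
        have h1 : ∑ j, ∑ i, ‖A a i‖ * ‖C j b‖ ≤ ∑ b, ∑ j, ∑ i, ‖A a i‖ * ‖C j b‖ :=
          Finset.single_le_sum (f := fun b => ∑ j, ∑ i, ‖A a i‖ * ‖C j b‖)
            (fun b _ => by positivity) (Finset.mem_univ b)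
        have h2 : ∑ b, ∑ j, ∑ i, ‖A a i‖ * ‖C j b‖ ≤ ∑ a, ∑ b, ∑ j, ∑ i, ‖A a i‖ * ‖C j b‖ :=
          Finset.single_le_sum (f := fun a => ∑ b, ∑ j, ∑ i, ‖A a i‖ * ‖C j b‖)
            (fun b _ => by positivity) (Finset.mem_univ a)
        exact h1.trans h2

/-- gluing of `K` on the lower half plane -/
theorem K_glue (H Hm Hd Hmd P P' W0 W0' W W' : Matrix (Fin r) (Fin r) ℂ)
    (hP : IsUnit P.det) (hP' : IsUnit P'.det) (h1 : Pᴴ * Hm * P = H) (h2 : P'ᴴ * Hm * P' = H)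
    (e : W0ᴴ * H + H * W0 + Pᴴ * Hmd * P = Hd) (e' : W0'ᴴ * H + H * W0' + P'ᴴ * Hmd * P' = Hd)
    (hH : Hᴴ = H)
    (g : W' - W0' = (P⁻¹ * P')⁻¹ * (W - W0) * (P⁻¹ * P')) :
    -Hd + W'ᴴ * H + H * W' = (P⁻¹ * P')ᴴ * (-Hd + Wᴴ * H + H * W) * (P⁻¹ * P') := by
  set Q := P⁻¹ * P' with hQ
  have hQu : IsUnit Q.det := by
    rw [hQ, det_mul]
    exact ((Matrix.isUnit_nonsing_inv_det_iff).2 hP).mul hP'
  have hPQ : P * Q = P' := by
    rw [hQ, ← Matrix.mul_assoc, Matrix.mul_nonsing_inv _ hP, Matrix.one_mul]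
  have hQH : Qᴴ * H * Q = H := by
    calc Qᴴ * H * Q = (P * Q)ᴴ * Hm * (P * Q) := by
          rw [← h1, conjTranspose_mul P Q]
          simp only [Matrix.mul_assoc]
      _ = H := by rw [hPQ, h2]
  have hHQ : H * Q⁻¹ = Qᴴ * H := by
    calc H * Q⁻¹ = Qᴴ * H * Q * Q⁻¹ := by rw [hQH]
      _ = Qᴴ * H := by rw [Matrix.mul_assoc (Qᴴ * H), Matrix.mul_nonsing_inv _ hQu, Matrix.mul_one]
  have hmd : P'ᴴ * Hmd * P' = Qᴴ * (Pᴴ * Hmd * P) * Q := by
    rw [← hPQ, conjTranspose_mul]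
    noncomm_ring
  have a1 : H * (W' - W0') = Qᴴ * (H * (W - W0)) * Q := by
    rw [g]
    calc H * (Q⁻¹ * (W - W0) * Q) = (H * Q⁻¹) * (W - W0) * Q := by noncomm_ring
      _ = _ := by rw [hHQ]; noncomm_ring
  have a2 : (W' - W0')ᴴ * H = Qᴴ * ((W - W0)ᴴ * H) * Q := by
    have := congrArg conjTranspose a1
    simp only [conjTranspose_mul, conjTranspose_conjTranspose, hH] at this
    rw [this]
    noncomm_ring
  have b1 : H * W' = H * W0' + Qᴴ * (H * (W - W0)) * Q := by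
    rw [← a1]; noncomm_ring
  have b2 : W'ᴴ * H = W0'ᴴ * H + Qᴴ * ((W - W0)ᴴ * H) * Q := by
    rw [← a2, conjTranspose_sub]; noncomm_ring
  have c1 : W0'ᴴ * H + H * W0' = Hd - Qᴴ * (Pᴴ * Hmd * P) * Q := by
    rw [← hmd]
    exact eq_sub_of_add_eq e'
  have c2 : Pᴴ * Hmd * P = Hd - (W0ᴴ * H + H * W0) := by
    rw [add_comm] at e
    exact eq_sub_of_add_eq e
  have c3 : Qᴴ * Hd * Q = Qᴴ * Hd * Q := rfl
  calc -Hd + W'ᴴ * H + H * W'
      = -Hd + (W0'ᴴ * H + H * W0') + Qᴴ * ((W - W0)ᴴ * H + H * (W - W0)) * Q := by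
        rw [b1, b2]; noncomm_ring
    _ = _ := by
        rw [c1, c2, conjTranspose_sub]; noncomm_ring

/-- the residues vanish if the matrix of the system vanishes on the first domain -/
theorem AB_zero (Bd : Fin 3 → Matrix (Fin r) (Fin r) ℂ) (hs : Bd 0 + Bd 1 + Bd 2 = 0)
    (h : ∀ z ∈ V 0, AB Bd z = 0) : ∀ x, Bd x = 0 := by
  have m1 : (-1 : ℂ) ∈ V 0 := Or.inr (Or.inl ⟨rfl, by norm_num⟩)
  have m2 : (-2 : ℂ) ∈ V 0 := Or.inr (Or.inl ⟨rfl, by norm_num⟩)
  have h1 := h _ m1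
  have h2 := h _ m2
  have e1 : Bd 1 = 0 := by
    ext a b
    have k1 := congrFun (congrFun h1 a) b
    have k2 := congrFun (congrFun h2 a) b
    simp only [AB, Matrix.add_apply, Matrix.smul_apply, Matrix.zero_apply, smul_eq_mul] at k1 k2 ⊢
    norm_num at k1 k2
    linear_combination (6 : ℂ) * k1 - (12 : ℂ) * k2
  have e0 : Bd 0 = 0 := by
    ext a b
    have k1 := congrFun (congrFun h1 a) b
    simp only [AB, Matrix.add_apply, Matrix.smul_apply, Matrix.zero_apply, smul_eq_mul, e1] at k1 ⊢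
    norm_num at k1
    linear_combination k1
  have e2 : Bd 2 = 0 := by
    rw [e0, e1] at hs
    simpa using hs
  intro x
  fin_cases x
  · exact e0
  · exact e1
  · exact e2

theorem hasDeriv_conj (S T C W' : Matrix (Fin r) (Fin r) ℂ) (W : ℂ → Matrix (Fin r) (Fin r) ℂ)
    (z : ℂ) (h : ∀ a b, HasDerivAt (fun s => W s a b) (W' a b) z) (a b : Fin r) :
    HasDerivAt (fun s => (S * W s * T - C) a b) ((S * W' * T) a b) z := by
  have h1 : (fun s => (S * W s * T - C) a b) =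
      fun s => (∑ j, (∑ i, S a i * W s i j) * T j b) - C a b := by
    funext s
    rw [Matrix.sub_apply, mul_apply]
    simp only [mul_apply]
  have h2 : (S * W' * T) a b = ∑ j, (∑ i, S a i * W' i j) * T j b := by
    rw [mul_apply]
    simp only [mul_apply]
  rw [h1, h2]
  refine HasDerivAt.sub_const _ ?_
  refine HasDerivAt.fun_sum fun j _ => ?_
  refine HasDerivAt.mul_const ?_ _
  refine HasDerivAt.fun_sum fun i _ => ?_
  exact (h i j).const_mul _

theorem split_K (H Hd S T W : Matrix (Fin r) (Fin r) ℂ) (hS : H = Sᴴ * S) (h1 : S * T = 1)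
    (hHd : Hdᴴ = Hd) :
    Tᴴ * (-Hd + Wᴴ * H + H * W) * T =
      (S * W * T - (1 / 2 : ℂ) • (Tᴴ * Hd * T)) +
        (S * W * T - (1 / 2 : ℂ) • (Tᴴ * Hd * T))ᴴ := by
  have h2 : Tᴴ * Sᴴ = 1 := by
    rw [← conjTranspose_mul, h1, conjTranspose_one]
  have a1 : Tᴴ * (H * W) * T = S * W * T := by
    calc Tᴴ * (H * W) * T = (Tᴴ * Sᴴ) * S * W * T := by rw [hS]; simp only [Matrix.mul_assoc]
      _ = S * W * T := by rw [h2, Matrix.one_mul]
  have a2 : Tᴴ * (Wᴴ * H) * T = (S * W * T)ᴴ := by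
    calc Tᴴ * (Wᴴ * H) * T = Tᴴ * Wᴴ * Sᴴ * (S * T) := by
          rw [hS]; simp only [Matrix.mul_assoc]
      _ = (S * W * T)ᴴ := by
          rw [h1, Matrix.mul_one]
          simp only [conjTranspose_mul, Matrix.mul_assoc]
  have a3 : ((1 / 2 : ℂ) • (Tᴴ * Hd * T))ᴴ = (1 / 2 : ℂ) • (Tᴴ * Hd * T) := by
    rw [conjTranspose_smul]
    simp only [conjTranspose_mul, conjTranspose_conjTranspose, hHd, Matrix.mul_assoc]
    norm_num
  rw [Matrix.mul_add, Matrix.mul_add, Matrix.add_mul, Matrix.add_mul, a1, a2,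
    conjTranspose_sub, a3]
  have a4 : Tᴴ * -Hd * T = -(Tᴴ * Hd * T) := by
    rw [Matrix.mul_neg, Matrix.neg_mul]
  rw [a4]
  module

theorem conj_alg (S T R X : Matrix (Fin r) (Fin r) ℂ) (h2 : T * S = 1) (h3 : Sᴴ * Tᴴ = 1) :
    Tᴴ * (Rᴴ * X * R) * T = (S * R * T)ᴴ * (Tᴴ * X * T) * (S * R * T) := by
  symm
  calc (S * R * T)ᴴ * (Tᴴ * X * T) * (S * R * T)
      = Tᴴ * Rᴴ * (Sᴴ * Tᴴ) * X * (T * S) * R * T := by
        simp only [conjTranspose_mul, Matrix.mul_assoc]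
    _ = Tᴴ * (Rᴴ * X * R) * T := by
        rw [h2, h3]
        simp only [Matrix.mul_one, Matrix.mul_assoc]

theorem rank_lt (N : Matrix (Fin r) (Fin r) ℂ) (v : Fin r → ℂ) (hv : v ≠ 0)
    (h : N *ᵥ v = 0) : N.rank < r := by
  by_contra hc
  have h1 : r ≤ N.rank := not_lt.1 hc
  have h2 : LinearMap.range N.mulVecLin = ⊤ := by
    apply Submodule.eq_top_of_finrank_eq
    have h3 : Module.finrank ℂ (LinearMap.range N.mulVecLin) = N.rank := rfl
    have h4 : N.rank ≤ r := by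
      have := N.rank_le_card_height
      rwa [Fintype.card_fin] at this
    rw [h3, Module.finrank_fin_fun]
    omega
  have h5 : Function.Injective N.mulVecLin :=
    LinearMap.injective_iff_surjective.2 (LinearMap.range_eq_top.1 h2)
  apply hv
  apply h5
  rw [Matrix.mulVecLin_apply, h, map_zero]

end Pool.Agent.MSU.ItemIInj1

namespace Pool.Agent.MSU

open ItemIInj1 in
theorem prf_I_Inj1 (hInv : S_Inv) (hSol : S_Sol) (hGlue : S_Glue) (hW : S_W) (hWG : S_WGlue)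
    (hRow : L_Row) (hK : L_K) (hSH : M_SH1) (hDeg : D_Deg) : I_Inj1 := by
  intro r γ w B Bd H Hm Hd Hmd hG hWin hSt hLD hUN hBd hBd1 hBd2 hHd hHmd hlin
  obtain ⟨hpos, hHm, hP⟩ := id hUN
  have hHH : Hᴴ = H := hpos.isHermitian
  choose W hWW using hW (Fin r) B Bd
  have hPu : ∀ j, IsUnit (PP B j).det := fun j => hInv (Fin r) B j _ (negI_mem j)
  obtain ⟨S, T, hST, h1, h2⟩ := exists_frame H hpos
  have h3 : Sᴴ * Tᴴ = 1 := by rw [← conjTranspose_mul, h2, conjTranspose_one]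
  have h4 : Tᴴ * Sᴴ = 1 := by rw [← conjTranspose_mul, h1, conjTranspose_one]
  -- transport matrices
  have hQH : ∀ j j', ((PP B j)⁻¹ * PP B j')ᴴ * H * ((PP B j)⁻¹ * PP B j') = H := by
    intro j j'
    calc ((PP B j)⁻¹ * PP B j')ᴴ * H * ((PP B j)⁻¹ * PP B j')
        = (PP B j * ((PP B j)⁻¹ * PP B j'))ᴴ * Hm * (PP B j * ((PP B j)⁻¹ * PP B j')) := by
          rw [← hP j, conjTranspose_mul (PP B j)]
          simp only [Matrix.mul_assoc]
      _ = H := by
          rw [← Matrix.mul_assoc (PP B j), Matrix.mul_nonsing_inv _ (hPu j), Matrix.one_mul, hP j']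
  have hUU : ∀ j j', (S * ((PP B j)⁻¹ * PP B j') * T)ᴴ * (S * ((PP B j)⁻¹ * PP B j') * T) = 1 := by
    intro j j'
    calc (S * ((PP B j)⁻¹ * PP B j') * T)ᴴ * (S * ((PP B j)⁻¹ * PP B j') * T)
        = Tᴴ * (((PP B j)⁻¹ * PP B j')ᴴ * (Sᴴ * S) * ((PP B j)⁻¹ * PP B j')) * T := by
          rw [conjTranspose_mul, conjTranspose_mul]
          simp only [Matrix.mul_assoc]
      _ = Tᴴ * H * T := by rw [← hST, hQH]
      _ = (Tᴴ * Sᴴ) * (S * T) := by rw [hST]; simp only [Matrix.mul_assoc]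
      _ = 1 := by rw [h4, h1, Matrix.one_mul]
  have hKe : ∀ j z, ∑ i : Fin r × Fin r,
      ‖(S * W j z * T - (1 / 2 : ℂ) • (Tᴴ * Hd * T)) i.1 i.2 +
        conj ((S * W j z * T - (1 / 2 : ℂ) • (Tᴴ * Hd * T)) i.2 i.1)‖ ^ 2 =
      ∑ i : Fin r × Fin r, ‖(Tᴴ * (-Hd + (W j z)ᴴ * H + H * W j z) * T) i.1 i.2‖ ^ 2 := by
    intro j z
    rw [split_K H Hd S T (W j z) hST h1 hHd]
    rfl
  have hderiv : ∀ j z, z ∈ V j → ∀ a b,
      HasDerivAt (fun s => (S * W j s * T - (1 / 2 : ℂ) • (Tᴴ * Hd * T)) a b)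
        ((S * ((YY B j z)⁻¹ * AB Bd z * YY B j z) * T) a b) z :=
    fun j z hz a b => hasDeriv_conj S T _ _ _ z ((hWW j).2 z hz) a b
  have key := hSH (Fin r × Fin r)
    (fun j i z => (S * W j z * T - (1 / 2 : ℂ) • (Tᴴ * Hd * T)) i.1 i.2)
    (fun j i z => (S * W j z * T - (1 / 2 : ℂ) • (Tᴴ * Hd * T)) i.2 i.1)
    (fun j i z hz => (hderiv j z hz i.1 i.2).differentiableAt.differentiableWithinAt)
    (fun j i z hz => (hderiv j z hz i.2 i.1).differentiableAt.differentiableWithinAt)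
    (by
      intro j j' z hz hz'
      rw [hKe, hKe]
      rcases inter_V hz hz' with h | h | h
      · rw [(hWG (Fin r) B Bd j j' (W j) (W j') (hWW j) (hWW j')).1 z h]
      · rw [K_glue H Hm Hd Hmd (PP B j) (PP B j') (W j (-Complex.I)) (W j' (-Complex.I))
          (W j z) (W j' z) (hPu j) (hPu j') (hP j) (hP j') (hlin j _ (hWW j))
          (hlin j' _ (hWW j')) hHH
          ((hWG (Fin r) B Bd j j' (W j) (W j') (hWW j) (hWW j')).2 z h)]
        have e : Tᴴ * (((PP B j)⁻¹ * PP B j')ᴴ * (-Hd + (W j z)ᴴ * H + H * W j z) *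
            ((PP B j)⁻¹ * PP B j')) * T =
            (S * ((PP B j)⁻¹ * PP B j') * T)ᴴ * (Tᴴ * (-Hd + (W j z)ᴴ * H + H * W j z) * T) *
              (S * ((PP B j)⁻¹ * PP B j') * T) := by
          exact conj_alg S T _ _ h2 h3
        rw [e, frob_conj _ _ (hUU j j')]
      · rw [h])
    (by
      intro x
      obtain ⟨C, ρ, hρ, hρ2, hC⟩ := hK r γ w B Bd H Hm x hG hWin hLD hUN hBd (hBd1 x) (hBd2 x)
        (W x) (W (x + 1)) (hWW x) (hWW (x + 1))
      obtain ⟨c, hc, hcb⟩ := entry_bound Tᴴ T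
      obtain ⟨D, hD⟩ : ∃ D : ℝ, ∀ i j, ‖Hd i j‖ ≤ D := by
        refine ⟨∑ i, ∑ j, ‖Hd i j‖, fun i j => ?_⟩
        exact (Finset.single_le_sum (f := fun j => ‖Hd i j‖) (fun _ _ => norm_nonneg _)
          (Finset.mem_univ j)).trans (Finset.single_le_sum (f := fun i => ∑ j, ‖Hd i j‖)
          (fun _ _ => by positivity) (Finset.mem_univ i))
      have bd : ∀ X : Matrix (Fin r) (Fin r) ℂ, (∀ i j, ‖(Xᴴ * H + H * X) i j‖ ≤ C) →
          ∑ i : Fin r × Fin r, ‖(Tᴴ * (-Hd + Xᴴ * H + H * X) * T) i.1 i.2‖ ^ 2 ≤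
            ∑ i : Fin r × Fin r, (c * (D + C)) ^ 2 := by
        intro X hX
        refine Finset.sum_le_sum fun i _ => ?_
        refine pow_le_pow_left₀ (norm_nonneg _) (hcb _ _ (fun a b => ?_) _ _) 2
        calc ‖(-Hd + Xᴴ * H + H * X) a b‖ = ‖-(Hd a b) + (Xᴴ * H + H * X) a b‖ := by
              rw [add_assoc]
              rfl
          _ ≤ ‖-(Hd a b)‖ + ‖(Xᴴ * H + H * X) a b‖ := norm_add_le _ _
          _ ≤ D + C := by
              rw [norm_neg]
              exact add_le_add (hD a b) (hX a b)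
      refine ⟨∑ i : Fin r × Fin r, (c * (D + C)) ^ 2, ρ, hρ, hρ2, fun ζ hζ => ⟨fun hs => ?_,
        fun hs => ?_⟩⟩
      · rw [hKe]
        exact bd _ fun i j => (hC ζ hζ i j).1 hs
      · rw [hKe]
        exact bd _ fun i j => (hC ζ hζ i j).2 hs)
  have hAB : ∀ z ∈ V 0, AB Bd z = 0 := by
    intro z hz
    have e1 : S * ((YY B 0 z)⁻¹ * AB Bd z * YY B 0 z) * T = 0 := by
      ext a b
      rw [← (hderiv 0 z hz a b).deriv]
      exact (key 0 (a, b) z hz).1
    have hu := hInv (Fin r) B 0 z hz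
    calc AB Bd z = (YY B 0 z * (YY B 0 z)⁻¹) * AB Bd z * (YY B 0 z * (YY B 0 z)⁻¹) := by
          rw [Matrix.mul_nonsing_inv _ hu, Matrix.one_mul, Matrix.mul_one]
      _ = YY B 0 z * (T * (S * ((YY B 0 z)⁻¹ * AB Bd z * YY B 0 z) * T) * S) *
          (YY B 0 z)⁻¹ := by
          calc _ = YY B 0 z * ((1 : Matrix (Fin r) (Fin r) ℂ) *
                ((YY B 0 z)⁻¹ * AB Bd z * YY B 0 z) * (1 : Matrix (Fin r) (Fin r) ℂ)) *
                (YY B 0 z)⁻¹ := by
                simp only [Matrix.one_mul, Matrix.mul_one, Matrix.mul_assoc]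
            _ = _ := by
                rw [← h2]
                simp only [Matrix.mul_assoc]
      _ = 0 := by rw [e1]; simp
  have hBd0 := AB_zero Bd hBd hAB
  refine ⟨hBd0, ?_⟩
  have hAB0 : ∀ z, AB Bd z = 0 := by
    intro z
    rw [AB, hBd0 0, hBd0 1]
    simp
  have hPH : ∀ j, (PP B j)ᴴ * Hmd * PP B j = Hd := by
    intro j
    have := hlin j (fun _ => 0) ⟨rfl, fun z _ a b => by
      rw [hAB0 z]
      simp only [Matrix.mul_zero, Matrix.zero_mul, Matrix.zero_apply]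
      exact hasDerivAt_const z (0 : ℂ)⟩
    simpa using this
  rcases Nat.eq_zero_or_pos r with hr | hr
  · subst hr
    exact ⟨0, by ext a; exact a.elim0, by ext a; exact a.elim0⟩
  have hHp : (Tᴴ * Hd * T).IsHermitian := by
    unfold Matrix.IsHermitian
    simp only [conjTranspose_mul, conjTranspose_conjTranspose, Matrix.mul_assoc]
    rw [hHd]
  obtain ⟨s, v, hv, hsv⟩ : ∃ (s : ℝ) (v : Fin r → ℂ), v ≠ 0 ∧
      (Tᴴ * Hd * T) *ᵥ v = (s : ℂ) • v := by
    refine ⟨hHp.eigenvalues ⟨0, hr⟩, hHp.eigenvectorBasis ⟨0, hr⟩, ?_, ?_⟩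
    · intro h0
      have := hHp.eigenvectorBasis.orthonormal.ne_zero ⟨0, hr⟩
      apply this
      ext i
      exact congrFun h0 i
    · rw [hHp.mulVec_eigenvectorBasis]
      rfl
  refine ⟨s, ?_⟩
  by_cases hN : Tᴴ * Hd * T - (s : ℂ) • (1 : Matrix (Fin r) (Fin r) ℂ) = 0
  · have e1 : Tᴴ * Hd * T = (s : ℂ) • (1 : Matrix (Fin r) (Fin r) ℂ) := sub_eq_zero.1 hN
    have e2 : Hd = (s : ℂ) • H := by
      calc Hd = (Sᴴ * Tᴴ) * Hd * (T * S) := by rw [h3, h2, Matrix.one_mul, Matrix.mul_one]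
        _ = Sᴴ * (Tᴴ * Hd * T) * S := by simp only [Matrix.mul_assoc]
        _ = (s : ℂ) • H := by
            rw [e1, hST, Matrix.mul_smul, Matrix.mul_one, Matrix.smul_mul]
    refine ⟨e2, ?_⟩
    have hu := hPu 0
    have hu' : IsUnit ((PP B 0)ᴴ).det := by
      rw [det_conjTranspose]
      exact hu.star
    have e3 : (PP B 0)ᴴ * Hmd * PP B 0 = (PP B 0)ᴴ * ((s : ℂ) • Hm) * PP B 0 := by
      rw [hPH 0, e2, Matrix.mul_smul, Matrix.smul_mul, hP 0]
    calc Hmd = (((PP B 0)ᴴ)⁻¹ * (PP B 0)ᴴ) * Hmd * (PP B 0 * (PP B 0)⁻¹) := by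
          rw [Matrix.nonsing_inv_mul _ hu', Matrix.mul_nonsing_inv _ hu, Matrix.one_mul,
            Matrix.mul_one]
      _ = ((PP B 0)ᴴ)⁻¹ * ((PP B 0)ᴴ * Hmd * PP B 0) * (PP B 0)⁻¹ := by
          simp only [Matrix.mul_assoc]
      _ = (((PP B 0)ᴴ)⁻¹ * (PP B 0)ᴴ) * ((s : ℂ) • Hm) * (PP B 0 * (PP B 0)⁻¹) := by
          rw [e3]
          simp only [Matrix.mul_assoc]
      _ = (s : ℂ) • Hm := by
          rw [Matrix.nonsing_inv_mul _ hu', Matrix.mul_nonsing_inv _ hu, Matrix.one_mul,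
            Matrix.mul_one]
  · exfalso
    set N := Tᴴ * Hd * T - (s : ℂ) • (1 : Matrix (Fin r) (Fin r) ℂ) with hNd
    set Q : Fin 3 → Matrix (Fin r) (Fin r) ℂ := fun j => S * ((PP B j)⁻¹ * PP B (j + 1)) * T
      with hQd
    have hQQ : ∀ j, (Q j)ᴴ * Q j = 1 := fun j => hUU j (j + 1)
    have hQHd : ∀ j, (Q j)ᴴ * (Tᴴ * Hd * T) * Q j = Tᴴ * Hd * T := by
      intro j
      calc (Q j)ᴴ * (Tᴴ * Hd * T) * Q j
          = Tᴴ * (((PP B j)⁻¹ * PP B (j + 1))ᴴ * ((Sᴴ * Tᴴ) * Hd * (T * S)) *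
            ((PP B j)⁻¹ * PP B (j + 1))) * T := by
            simp only [hQd, conjTranspose_mul, Matrix.mul_assoc]
        _ = Tᴴ * (((PP B j)⁻¹ * PP B (j + 1))ᴴ * Hd * ((PP B j)⁻¹ * PP B (j + 1))) * T := by
            rw [h3, h2, Matrix.one_mul, Matrix.mul_one]
        _ = Tᴴ * ((PP B j * ((PP B j)⁻¹ * PP B (j + 1)))ᴴ * Hmd *
            (PP B j * ((PP B j)⁻¹ * PP B (j + 1)))) * T := by
            rw [← hPH j, conjTranspose_mul (PP B j)]
            simp only [Matrix.mul_assoc]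
        _ = Tᴴ * Hd * T := by
            rw [← Matrix.mul_assoc (PP B j), Matrix.mul_nonsing_inv _ (hPu j), Matrix.one_mul,
              hPH (j + 1)]
    have hQN : ∀ j, Q j * N = N * Q j := by
      intro j
      have h5 : Q j * (Q j)ᴴ = 1 := mul_eq_one_comm.1 (hQQ j)
      have h6 : Q j * (Tᴴ * Hd * T) = (Tᴴ * Hd * T) * Q j := by
        calc Q j * (Tᴴ * Hd * T) = Q j * ((Q j)ᴴ * (Tᴴ * Hd * T) * Q j) := by rw [hQHd]
          _ = (Q j * (Q j)ᴴ) * (Tᴴ * Hd * T) * Q j := by simp only [Matrix.mul_assoc]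
          _ = _ := by rw [h5, Matrix.one_mul]
      rw [hNd, Matrix.mul_sub, Matrix.sub_mul, h6, Matrix.mul_smul, Matrix.smul_mul,
        Matrix.mul_one, Matrix.one_mul]
    have hrank : N.rank < r := by
      apply rank_lt N v hv
      rw [hNd, Matrix.sub_mulVec, hsv, Matrix.smul_mulVec, Matrix.one_mulVec, sub_self]
    have hmv : MV (fun j z => YY B j z * (T * N)) Q := by
      refine ⟨fun j a b z hz => ?_, fun j j' z hz => ?_, fun j z hz => ?_, hQQ⟩
      · have : HasDerivAt (fun z => (YY B j z * (T * N)) a b)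
            (((AB B z * YY B j z) * (T * N)) a b) z := by
          have e1 : (fun z => (YY B j z * (T * N)) a b) =
              fun z => ∑ c, YY B j z a c * (T * N) c b := by
            funext z
            rw [mul_apply]
          rw [e1, mul_apply]
          exact HasDerivAt.fun_sum fun c _ =>
            ((hSol (Fin r) B j).2 z hz a c).mul_const _
        exact this.differentiableAt.differentiableWithinAt
      · show YY B j z * (T * N) = YY B j' z * (T * N)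
        rw [(hGlue (Fin r) B j j').1 z hz]
      · show YY B (j + 1) z * (T * N) = YY B j z * (T * N) * Q j
        rw [(hGlue (Fin r) B j (j + 1)).2 z hz]
        have e1 : ((PP B j)⁻¹ * PP B (j + 1)) * (T * N) = (T * N) * Q j := by
          calc ((PP B j)⁻¹ * PP B (j + 1)) * (T * N)
              = (T * S) * (((PP B j)⁻¹ * PP B (j + 1)) * (T * N)) := by
                rw [h2, Matrix.one_mul]
            _ = T * (Q j * N) := by
                simp only [hQd, Matrix.mul_assoc]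
            _ = (T * N) * Q j := by rw [hQN, Matrix.mul_assoc]
        rw [Matrix.mul_assoc, e1]
        simp only [Matrix.mul_assoc]
    refine hDeg r r γ w (fun j z => YY B j z * (T * N)) Q hG hSt hmv
      (hRow r r γ w B hG hWin hLD (T * N)) ⟨Complex.I, by simp, ?_⟩ ?_
    · show YY B 0 Complex.I * (T * N) ≠ 0
      rw [(hSol (Fin r) B 0).1, Matrix.one_mul]
      intro h0
      apply hN
      calc N = (S * T) * N := by rw [h1, Matrix.one_mul]
        _ = S * (T * N) := Matrix.mul_assoc _ _ _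
        _ = 0 := by rw [h0, Matrix.mul_zero]
    · intro z _
      show (YY B 0 z * (T * N)).rank < r
      rw [← Matrix.mul_assoc]
      exact (Matrix.rank_mul_le_right _ _).trans_lt hrank

end Pool.Agent.MSU

end

section

/-! Closedness of the set of weights for which a unitary Fuchsian system exists. -/

open Matrix Polynomial Filter Topology
open scoped ComplexConjugate ComplexOrder

namespace Pool.Agent.MSU

namespace ItemKClosed

/-! ### limits of matrices -/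

lemma tm {m n : Type} {l : Filter ℕ} {f : ℕ → Matrix m n ℂ} {A : Matrix m n ℂ}
    (h : ∀ a b, Tendsto (fun k => f k a b) l (𝓝 (A a b))) : Tendsto f l (𝓝 A) :=
  tendsto_pi_nhds.2 fun a => tendsto_pi_nhds.2 fun b => h a b

lemma te {m n : Type} {l : Filter ℕ} {f : ℕ → Matrix m n ℂ} {A : Matrix m n ℂ}
    (h : Tendsto f l (𝓝 A)) (a : m) (b : n) : Tendsto (fun k => f k a b) l (𝓝 (A a b)) :=
  tendsto_pi_nhds.1 (tendsto_pi_nhds.1 h a) b

lemma tmul {m n p : Type} [Fintype n] {l : Filter ℕ} {f : ℕ → Matrix m n ℂ}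
    {g : ℕ → Matrix n p ℂ} {A : Matrix m n ℂ} {B : Matrix n p ℂ} (hf : Tendsto f l (𝓝 A))
    (hg : Tendsto g l (𝓝 B)) : Tendsto (fun k => f k * g k) l (𝓝 (A * B)) :=
  ((continuous_fst.matrix_mul continuous_snd).tendsto (A, B)).comp (hf.prodMk_nhds hg)

lemma tct {m n : Type} {l : Filter ℕ} {f : ℕ → Matrix m n ℂ} {A : Matrix m n ℂ}
    (hf : Tendsto f l (𝓝 A)) : Tendsto (fun k => (f k)ᴴ) l (𝓝 Aᴴ) :=
  ((continuous_id.matrix_conjTranspose).tendsto A).comp hf

lemma tsmul {m n : Type} {l : Filter ℕ} {c : ℕ → ℂ} {f : ℕ → Matrix m n ℂ} {c0 : ℂ}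
    {A : Matrix m n ℂ} (hc : Tendsto c l (𝓝 c0)) (hf : Tendsto f l (𝓝 A)) :
    Tendsto (fun k => c k • f k) l (𝓝 (c0 • A)) :=
  tm fun a b => hc.mul (te hf a b)

lemma tadd {m n : Type} {l : Filter ℕ} {f g : ℕ → Matrix m n ℂ} {A B : Matrix m n ℂ}
    (hf : Tendsto f l (𝓝 A)) (hg : Tendsto g l (𝓝 B)) :
    Tendsto (fun k => f k + g k) l (𝓝 (A + B)) :=
  tm fun a b => (te hf a b).add (te hg a b)

lemma tsub {m n : Type} {l : Filter ℕ} {f g : ℕ → Matrix m n ℂ} {A B : Matrix m n ℂ}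
    (hf : Tendsto f l (𝓝 A)) (hg : Tendsto g l (𝓝 B)) :
    Tendsto (fun k => f k - g k) l (𝓝 (A - B)) :=
  tm fun a b => (te hf a b).sub (te hg a b)

lemma tinv {n : Type} [Fintype n] [DecidableEq n] {l : Filter ℕ} {f : ℕ → Matrix n n ℂ}
    {A : Matrix n n ℂ} (hf : Tendsto f l (𝓝 A)) (hA : IsUnit A.det) :
    Tendsto (fun k => (f k)⁻¹) l (𝓝 A⁻¹) := by
  have hd : Tendsto (fun k => (f k).det) l (𝓝 A.det) :=
    ((continuous_id.matrix_det).tendsto A).comp hf
  have ha : Tendsto (fun k => (f k).adjugate) l (𝓝 A.adjugate) :=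
    ((continuous_id.matrix_adjugate).tendsto A).comp hf
  have h := tsmul (hd.inv₀ hA.ne_zero) ha
  simpa only [Matrix.inv_def, Ring.inverse_eq_inv'] using h

lemma ttrace {n : Type} [Fintype n] {l : Filter ℕ} {f : ℕ → Matrix n n ℂ}
    {A : Matrix n n ℂ} (hf : Tendsto f l (𝓝 A)) :
    Tendsto (fun k => (f k).trace) l (𝓝 A.trace) :=
  tendsto_finsetSum _ fun a _ => te hf a a

/-! ### rank -/

lemma rank_lt {r : ℕ} (M : Matrix (Fin r) (Fin r) ℂ) (h : M.det = 0) : M.rank < r := by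
  obtain ⟨v, hv, hM⟩ := Matrix.exists_mulVec_eq_zero_iff.2 h
  have h1 := LinearMap.finrank_range_add_finrank_ker M.mulVecLin
  have h2 : 0 < Module.finrank ℂ (LinearMap.ker M.mulVecLin) := by
    rw [Module.finrank_pos_iff_exists_ne_zero]
    exact ⟨⟨v, by simpa [LinearMap.mem_ker] using hM⟩, fun hh => hv (congrArg Subtype.val hh)⟩
  have h3 : Module.finrank ℂ (Fin r → ℂ) = r := by simp
  rw [h3] at h1
  rw [Matrix.rank]
  omega

/-! ### multivalued matrices -/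

lemma sum_sq_unitary {r d : ℕ} (A : Matrix (Fin r) (Fin d) ℂ) (Q : Matrix (Fin d) (Fin d) ℂ)
    (hQ : Qᴴ * Q = 1) : ∑ a, ∑ b, ‖(A * Q) a b‖ ^ 2 = ∑ a, ∑ b, ‖A a b‖ ^ 2 := by
  have hQ' : Q * Qᴴ = 1 := mul_eq_one_comm.1 hQ
  have key : ∀ M : Matrix (Fin r) (Fin d) ℂ,
      ((∑ a, ∑ b, ‖M a b‖ ^ 2 : ℝ) : ℂ) = (M * Mᴴ).trace := by
    intro M
    simp only [Matrix.trace, Matrix.diag_apply, Matrix.mul_apply, Matrix.conjTranspose_apply]
    push_cast
    refine Finset.sum_congr rfl fun a _ => Finset.sum_congr rfl fun b _ => ?_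
    rw [← Complex.mul_conj']
    rfl
  have h : (A * Q) * (A * Q)ᴴ = A * Aᴴ := by
    rw [Matrix.conjTranspose_mul]
    calc A * Q * (Qᴴ * Aᴴ) = A * (Q * Qᴴ) * Aᴴ := by simp only [Matrix.mul_assoc]
      _ = A * Aᴴ := by rw [hQ', Matrix.mul_one]
  have h2 : ((∑ a, ∑ b, ‖(A * Q) a b‖ ^ 2 : ℝ) : ℂ) = ((∑ a, ∑ b, ‖A a b‖ ^ 2 : ℝ) : ℂ) := by
    rw [key, key, h]
  exact_mod_cast h2

lemma V_real_unique {z : ℂ} {j j' : Fin 3} (h : z.im = 0) (hj : z ∈ V j) (hj' : z ∈ V j') :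
    j = j' := by
  rcases hj with hj | ⟨rfl, hj⟩ | ⟨rfl, hj, hj2⟩ | ⟨rfl, hj⟩
  · exact absurd h hj
  all_goals
    rcases hj' with hj' | ⟨rfl, hj'⟩ | ⟨rfl, hj', hj2'⟩ | ⟨rfl, hj'⟩
    · exact absurd h hj'
    all_goals first | rfl | (exfalso; linarith)

lemma sum_single {r d : ℕ} {G : Fin 3 → ℂ → Matrix (Fin r) (Fin d) ℂ}
    {Q : Fin 3 → Matrix (Fin d) (Fin d) ℂ} (hG : MV G Q) {z : ℂ} {j j' : Fin 3}
    (hj : z ∈ V j) (hj' : z ∈ V j') :
    ∑ a, ∑ b, ‖G j z a b‖ ^ 2 = ∑ a, ∑ b, ‖G j' z a b‖ ^ 2 := by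
  rcases lt_trichotomy z.im 0 with h | h | h
  · have step : ∀ i : Fin 3, ∑ a, ∑ b, ‖G (i + 1) z a b‖ ^ 2 = ∑ a, ∑ b, ‖G i z a b‖ ^ 2 := by
      intro i
      rw [hG.minus i z h]
      exact sum_sq_unitary _ _ (hG.unit i)
    have h0 : ∀ i : Fin 3, ∑ a, ∑ b, ‖G i z a b‖ ^ 2 = ∑ a, ∑ b, ‖G 0 z a b‖ ^ 2 := by
      intro i
      fin_cases i
      · rfl
      · exact step 0
      · exact (step 1).trans (step 0)
    rw [h0 j, h0 j']
  · rw [V_real_unique h hj hj']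
  · rw [hG.plus j j' z h]

lemma eq_zero_of_upper {r d : ℕ} {G : Fin 3 → ℂ → Matrix (Fin r) (Fin d) ℂ}
    {Q : Fin 3 → Matrix (Fin d) (Fin d) ℂ} (hG : MV G Q) (h : ∀ z : ℂ, 0 < z.im → G 0 z = 0)
    (j : Fin 3) {z : ℂ} (hz : z ∈ V j) : G j z = 0 := by
  ext a b
  have han : AnalyticOnNhd ℂ (fun s => G j s a b) (V j) :=
    (hG.diff j a b).analyticOnNhd (V_open j)
  have hev : (fun s => G j s a b) =ᶠ[𝓝 Complex.I] 0 := by
    have ho : IsOpen {s : ℂ | 0 < s.im} := isOpen_lt continuous_const Complex.continuous_im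
    filter_upwards [ho.mem_nhds (show (0 : ℝ) < Complex.I.im by simp)] with s hs
    rw [hG.plus j 0 s hs, h s hs]
    rfl
  exact han.eqOn_zero_of_preconnected_of_eventuallyEq_zero (V_preconnected j) (I_mem j) hev hz

lemma KK_compact : IsCompact KK := by
  refine Metric.isCompact_of_isClosed_isBounded ?_ ?_
  · have h1 : IsClosed {z : ℂ | 1 / 2 ≤ ‖z‖} := isClosed_le continuous_const continuous_norm
    have h2 : IsClosed {z : ℂ | 1 / 2 ≤ ‖z - 1‖} :=
      isClosed_le continuous_const (continuous_norm.comp (continuous_id.sub continuous_const))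
    have h3 : IsClosed {z : ℂ | ‖z‖ ≤ 2} := isClosed_le continuous_norm continuous_const
    have : KK = {z : ℂ | 1 / 2 ≤ ‖z‖} ∩ ({z : ℂ | 1 / 2 ≤ ‖z - 1‖} ∩ {z : ℂ | ‖z‖ ≤ 2}) := rfl
    rw [this]
    exact h1.inter (h2.inter h3)
  · refine (Metric.isBounded_closedBall (x := (0 : ℂ)) (r := 2)).subset fun z hz => ?_
    rw [mem_closedBall_zero_iff]
    exact hz.2.2

/-! ### the system -/

lemma frame_hasDerivAt (hS : S_Sol) {r : ℕ} (B : Fin 3 → Matrix (Fin r) (Fin r) ℂ)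
    (E : Matrix (Fin r) (Fin r) ℂ) (j : Fin 3) {z : ℂ} (hz : z ∈ V j) (a b : Fin r) :
    HasDerivAt (fun s => (YY B j s * E) a b) ((AB B z * (YY B j z * E)) a b) z := by
  have h : ∀ c, HasDerivAt (fun s => YY B j s a c * E c b) ((AB B z * YY B j z) a c * E c b) z :=
    fun c => ((hS (Fin r) B j).2 z hz a c).mul_const _
  have hs := HasDerivAt.fun_sum (u := Finset.univ) fun c _ => h c
  have e1 : (fun s => (YY B j s * E) a b) = fun s => ∑ c, YY B j s a c * E c b := by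
    funext s
    rw [Matrix.mul_apply]
  have e2 : (AB B z * (YY B j z * E)) a b = ∑ c, (AB B z * YY B j z) a c * E c b := by
    rw [← Matrix.mul_assoc, Matrix.mul_apply]
  rw [e1, e2]
  exact hs

/-- the constant in the formula for the residues -/
noncomputable def cc : ℂ :=
  2 * Complex.I / (2 * Complex.I - 1) - Complex.I / (Complex.I - 1)

lemma I_sub_ne : Complex.I - 1 ≠ 0 := fun h => by
  have := congrArg Complex.im h
  simp at this

lemma twoI_sub_ne : 2 * Complex.I - 1 ≠ 0 := fun h => by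
  have := congrArg Complex.im h
  simp at this

lemma cc_ne : cc ≠ 0 := by
  intro h
  unfold cc at h
  have h1 := I_sub_ne
  have h2 := twoI_sub_ne
  rw [div_sub_div _ _ h2 h1, div_eq_zero_iff] at h
  rcases h with h | h
  · have := congrArg Complex.im h
    simp at this
    norm_num at this
  · exact (mul_ne_zero h2 h1) h

lemma res_one {ι : Type} [Fintype ι] [DecidableEq ι] (B : Fin 3 → Matrix ι ι ℂ) :
    B 1 = cc⁻¹ • ((2 * Complex.I) • AB B (2 * Complex.I) - Complex.I • AB B Complex.I) := by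
  ext a b
  have h1 := I_sub_ne
  have h2 := twoI_sub_ne
  have h3 := cc_ne
  have hI := Complex.I_ne_zero
  simp only [AB, Matrix.smul_apply, Matrix.sub_apply, Matrix.add_apply, smul_eq_mul]
  have e : (2 * Complex.I * ((2 * Complex.I)⁻¹ * B 0 a b + (2 * Complex.I - 1)⁻¹ * B 1 a b) -
      Complex.I * (Complex.I⁻¹ * B 0 a b + (Complex.I - 1)⁻¹ * B 1 a b)) = cc * B 1 a b := by
    unfold cc
    have h2I : (2 * Complex.I : ℂ) ≠ 0 := mul_ne_zero two_ne_zero hI
    have e1 : 2 * Complex.I * ((2 * Complex.I)⁻¹ * B 0 a b) = B 0 a b := by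
      rw [← mul_assoc, mul_inv_cancel₀ h2I, one_mul]
    have e2 : Complex.I * (Complex.I⁻¹ * B 0 a b) = B 0 a b := by
      rw [← mul_assoc, mul_inv_cancel₀ hI, one_mul]
    rw [mul_add, mul_add, e1, e2, div_eq_mul_inv, div_eq_mul_inv]
    ring
  rw [e, ← mul_assoc, inv_mul_cancel₀ h3, one_mul]

lemma res_zero {ι : Type} [Fintype ι] [DecidableEq ι] (B : Fin 3 → Matrix ι ι ℂ) :
    B 0 = Complex.I • AB B Complex.I - (Complex.I / (Complex.I - 1)) • B 1 := by
  ext a b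
  have hI := Complex.I_ne_zero
  simp only [AB, Matrix.smul_apply, Matrix.sub_apply, Matrix.add_apply, smul_eq_mul]
  have e2 : Complex.I * (Complex.I⁻¹ * B 0 a b) = B 0 a b := by
    rw [← mul_assoc, mul_inv_cancel₀ hI, one_mul]
  rw [mul_add, e2, div_eq_mul_inv]
  ring

lemma twoI_mem (j : Fin 3) : 2 * Complex.I ∈ V j := Or.inl (by simp)

/-- convergence of the residues from convergence of the values of the matrix of the system -/
lemma res_tendsto {r : ℕ} {l : Filter ℕ} (Bn : ℕ → Fin 3 → Matrix (Fin r) (Fin r) ℂ)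
    (hsum : ∀ n, Bn n 0 + Bn n 1 + Bn n 2 = 0) {A1 A2 : Matrix (Fin r) (Fin r) ℂ}
    (h1 : Tendsto (fun n => AB (Bn n) Complex.I) l (𝓝 A1))
    (h2 : Tendsto (fun n => AB (Bn n) (2 * Complex.I)) l (𝓝 A2)) :
    ∃ B : Fin 3 → Matrix (Fin r) (Fin r) ℂ, B 0 + B 1 + B 2 = 0 ∧
      ∀ x, Tendsto (fun n => Bn n x) l (𝓝 (B x)) := by
  have t1 : Tendsto (fun n => Bn n 1) l
      (𝓝 (cc⁻¹ • ((2 * Complex.I) • A2 - Complex.I • A1))) := by
    have := tsmul (tendsto_const_nhds (x := cc⁻¹)) (tsub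
      (tsmul (tendsto_const_nhds (x := 2 * Complex.I)) h2)
      (tsmul (tendsto_const_nhds (x := Complex.I)) h1))
    refine this.congr fun n => ?_
    exact (res_one (Bn n)).symm
  set B1 := cc⁻¹ • ((2 * Complex.I) • A2 - Complex.I • A1) with hB1
  have t0 : Tendsto (fun n => Bn n 0) l
      (𝓝 (Complex.I • A1 - (Complex.I / (Complex.I - 1)) • B1)) := by
    have := tsub (tsmul (tendsto_const_nhds (x := Complex.I)) h1)
      (tsmul (tendsto_const_nhds (x := Complex.I / (Complex.I - 1))) t1)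
    refine this.congr fun n => ?_
    exact (res_zero (Bn n)).symm
  set B0 := Complex.I • A1 - (Complex.I / (Complex.I - 1)) • B1 with hB0
  refine ⟨![B0, B1, -B0 - B1], ?_, fun x => ?_⟩
  · show B0 + B1 + (-B0 - B1) = 0
    abel
  · fin_cases x
    · exact t0
    · exact t1
    · have h : ∀ n, -Bn n 0 - Bn n 1 = Bn n 2 := fun n => by
        have := hsum n
        have h2 : Bn n 2 = -(Bn n 0 + Bn n 1) := by
          rw [eq_neg_iff_add_eq_zero, add_comm]
          exact this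
        rw [h2]
        abel
      have := tsub (tm fun a b => (te t0 a b).neg : Tendsto (fun n => -Bn n 0) l (𝓝 (-B0))) t1
      exact this.congr h

end ItemKClosed

open ItemKClosed in
theorem prf_K_Closed (hS : S_Sol) (hI : S_Inv) (hU : S_Uniq) (hF : K_Frame) (hM : M_Unif)
    (hL : M_LocBd) (hK : K_Montel) (hD : D_Deg) (hDet : D_Det) : K_Closed := by
  intro r γ w wn Bn Hn Hmn hr hγ hw hst hwin hwn hn
  -- frames
  choose E ν Q hE hν hEH hMV hRB hQ hKK hpt using fun n =>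
    hF r γ (wn n) (Bn n) (Hn n) (Hmn n) hr hγ (hwin n) (hn n).1 (hn n).2.1
  choose jn zn hznV hznK hzn using hpt
  -- bound on the weights
  obtain ⟨Wm, hWm⟩ : ∃ Wm : ℝ, ∀ n x i, |wn n x i| ≤ Wm := by
    have h : ∀ x i, ∃ C : ℝ, ∀ n, |wn n x i| ≤ C := fun x i => by
      obtain ⟨C, hC⟩ := (hwn x i).abs.bddAbove_range
      exact ⟨C, fun n => hC ⟨n, rfl⟩⟩
    choose C hC using h
    have hnn : ∀ x i, 0 ≤ C x i := fun x i => (abs_nonneg _).trans (hC x i 0)
    refine ⟨∑ x, ∑ i, C x i, fun n x i => ?_⟩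
    calc |wn n x i| ≤ C x i := hC x i n
      _ ≤ ∑ i, C x i := Finset.single_le_sum (fun i _ => hnn x i) (Finset.mem_univ i)
      _ ≤ ∑ x, ∑ i, C x i := Finset.single_le_sum (f := fun x => ∑ i, C x i)
          (fun x _ => Finset.sum_nonneg fun i _ => hnn x i) (Finset.mem_univ x)
  obtain ⟨C, hC⟩ := hM r r γ Wm hγ
  have hbd := fun n => hC (wn n) (fun j z => YY (Bn n) j z * E n) (Q n) (hWm n) (hMV n) (hRB n)
    (hKK n)
  have hloc : ∀ j, ∀ z ∈ V j, ∃ ε M : ℝ, 0 < ε ∧ ∀ n, ∀ s ∈ V j, ‖s - z‖ < ε → ∀ a b,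
      ‖(YY (Bn n) j s * E n) a b‖ ≤ M := by
    intro j z hz
    obtain ⟨ε, M, hε, h⟩ := hL r r γ Wm C hγ j z hz
    exact ⟨ε, M, hε, fun n => h (wn n) (fun j z => YY (Bn n) j z * E n) (Q n) (hWm n) (hMV n)
      (hKK n) (hbd n)⟩
  -- the limit along an ultrafilter
  obtain ⟨𝒰, h𝒰⟩ : ∃ 𝒰 : Ultrafilter ℕ, (𝒰 : Filter ℕ) ≤ atTop :=
    ⟨hyperfilter ℕ, by rw [← Nat.cofinite_eq_atTop]; exact hyperfilter_le_cofinite⟩
  obtain ⟨G, Ql, hG, hlim, hQlim, hcc⟩ :=
    hK r r (fun n j z => YY (Bn n) j z * E n) Q hMV hloc 𝒰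
  have hGt : ∀ j, ∀ z ∈ V j, Tendsto (fun n => YY (Bn n) j z * E n) 𝒰 (𝓝 (G j z)) :=
    fun j z hz => tm fun a b => (hlim j z hz a b).1
  -- growth at the punctures
  have hRow : RowBd γ w G := by
    intro x
    refine ⟨C, 1 / 2, by norm_num, le_rfl, fun ζ hζ => ⟨fun hs a b => ?_, fun hs a b => ?_⟩⟩
    · have hne := norm_pos_iff.2 (Sa_ne hs)
      have hz := cz_mem_a x (hζ.trans (by norm_num)) hs
      have t1 : Tendsto (fun n => ‖(γ x * (YY (Bn n) x (cz x ζ) * E n)) a b‖) 𝒰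
          (𝓝 ‖(γ x * G x (cz x ζ)) a b‖) :=
        (te (tmul tendsto_const_nhds (hGt x _ hz)) a b).norm
      have t2 : Tendsto (fun n => C * ‖ζ‖ ^ (wn n x a)) 𝒰 (𝓝 (C * ‖ζ‖ ^ (w x a))) :=
        (((Real.continuous_const_rpow hne.ne').tendsto (w x a)).comp
          ((hwn x a).mono_left h𝒰)).const_mul C
      exact le_of_tendsto_of_tendsto' t1 t2 fun n => (hbd n x ζ hζ.le).1 hs a b
    · have hne := norm_pos_iff.2 (Sb_ne hs)
      have hz := cz_mem_b x (hζ.trans (by norm_num)) hs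
      have t1 : Tendsto (fun n => ‖(γ x * (YY (Bn n) (x + 1) (cz x ζ) * E n)) a b‖) 𝒰
          (𝓝 ‖(γ x * G (x + 1) (cz x ζ)) a b‖) :=
        (te (tmul tendsto_const_nhds (hGt (x + 1) _ hz)) a b).norm
      have t2 : Tendsto (fun n => C * ‖ζ‖ ^ (wn n x a)) 𝒰 (𝓝 (C * ‖ζ‖ ^ (w x a))) :=
        (((Real.continuous_const_rpow hne.ne').tendsto (w x a)).comp
          ((hwn x a).mono_left h𝒰)).const_mul C
      exact le_of_tendsto_of_tendsto' t1 t2 fun n => (hbd n x ζ hζ.le).2 hs a b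
  -- the limit is not zero
  have hne : ∃ z : ℂ, 0 < z.im ∧ G 0 z ≠ 0 := by
    by_contra hcon
    push Not at hcon
    obtain ⟨z, hzK, hz⟩ := KK_compact.ultrafilter_le_nhds (𝒰.map zn)
      (le_principal_iff.2 (show zn ⁻¹' KK ∈ (𝒰 : Filter ℕ) from Filter.univ_mem' hznK))
    have hz' : Tendsto zn 𝒰 (𝓝 z) := hz
    have hz0 : z ≠ 0 := fun h => by
      have := hzK.1
      rw [h, norm_zero] at this
      norm_num at this
    have hz1 : z ≠ 1 := fun h => by
      have := hzK.2.1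
      rw [h, sub_self, norm_zero] at this
      norm_num at this
    obtain ⟨j1, hj1⟩ := V_cover hz0 hz1
    have hev : ∀ᶠ n in (𝒰 : Filter ℕ), zn n ∈ V j1 := hz' ((V_open j1).mem_nhds hj1)
    have t1 : Tendsto (fun n => ∑ a, ∑ b, ‖(YY (Bn n) j1 (zn n) * E n) a b‖ ^ 2) 𝒰
        (𝓝 (∑ a, ∑ b, ‖G j1 z a b‖ ^ 2)) :=
      tendsto_finsetSum _ fun a _ => tendsto_finsetSum _ fun b _ =>
        ((hcc j1 z hj1 zn hz' a b).norm).pow 2
    have t2 : Tendsto (fun n => ∑ a, ∑ b, ‖(YY (Bn n) j1 (zn n) * E n) a b‖ ^ 2) 𝒰 (𝓝 1) := by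
      refine (tendsto_const_nhds (x := (1 : ℝ))).congr' ?_
      filter_upwards [hev] with n h
      rw [← hzn n]
      exact sum_single (hMV n) (hznV n) h
    have h1 := tendsto_nhds_unique t1 t2
    rw [eq_zero_of_upper hG hcon j1 hj1] at h1
    simp at h1
  -- the limit is invertible
  have hdet0 : ∃ z : ℂ, 0 < z.im ∧ (G 0 z).det ≠ 0 := by
    by_contra hcon
    push Not at hcon
    exact hD r r γ w G Ql hγ hst hG hRow hne fun z hz => rank_lt _ (hcon z hz)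
  have hunit := hDet r γ w G Ql hγ hw hG hRow hdet0
  have hun : ∀ n j, ∀ z ∈ V j, IsUnit (YY (Bn n) j z * E n).det := fun n j z hz => by
    rw [Matrix.det_mul]
    exact (hI _ _ j z hz).mul (hE n)
  -- convergence of the residues
  obtain ⟨D, hDdef⟩ : ∃ D : Fin 3 → ℂ → Matrix (Fin r) (Fin r) ℂ,
      ∀ j z a b, D j z a b = deriv (fun s => G j s a b) z :=
    ⟨fun j z => Matrix.of fun a b => deriv (fun s => G j s a b) z, fun _ _ _ _ => rfl⟩
  have hDt : ∀ j, ∀ z ∈ V j,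
      Tendsto (fun n => AB (Bn n) z * (YY (Bn n) j z * E n)) 𝒰 (𝓝 (D j z)) := by
    intro j z hz
    refine tm fun a b => ?_
    rw [hDdef]
    refine ((hlim j z hz a b).2).congr fun n => ?_
    exact (frame_hasDerivAt hS (Bn n) (E n) j hz a b).deriv
  have hAB : ∀ j, ∀ z ∈ V j, Tendsto (fun n => AB (Bn n) z) 𝒰 (𝓝 (D j z * (G j z)⁻¹)) := by
    intro j z hz
    have := tmul (hDt j z hz) (tinv (hGt j z hz) (hunit j z hz))
    refine this.congr fun n => ?_
    rw [Matrix.mul_assoc, Matrix.mul_nonsing_inv _ (hun n j z hz), Matrix.mul_one]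
  obtain ⟨B, hB0, hBt⟩ := res_tendsto Bn (fun n => (hn n).1.1) (hAB 0 _ (I_mem 0))
    (hAB 0 _ (twoI_mem 0))
  have hABlim : ∀ z, Tendsto (fun n => AB (Bn n) z) 𝒰 (𝓝 (AB B z)) := fun z =>
    tadd (tsmul tendsto_const_nhds (hBt 0)) (tsmul tendsto_const_nhds (hBt 1))
  have hABeq : ∀ j, ∀ z ∈ V j, AB B z * G j z = D j z := by
    intro j z hz
    have := tendsto_nhds_unique (hABlim z) (hAB j z hz)
    rw [this, Matrix.mul_assoc, Matrix.nonsing_inv_mul _ (hunit j z hz), Matrix.mul_one]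
  have hGd : ∀ j, ∀ z ∈ V j, ∀ a b, HasDerivAt (fun s => G j s a b) ((AB B z * G j z) a b) z := by
    intro j z hz a b
    rw [hABeq j z hz, hDdef]
    exact ((hG.diff j a b).differentiableAt ((V_open j).mem_nhds hz)).hasDerivAt
  have hEl : ∀ j, ∀ z ∈ V j, G j z = YY B j z * G 0 Complex.I := by
    intro j
    obtain ⟨E', hE'⟩ := hU (Fin r) (Fin r) B j (V j) (V_open j) (V_preconnected j) subset_rfl
      (G j) (hGd j)
    have hI1 : G j Complex.I = E' := by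
      rw [hE' _ (I_mem j), (hS (Fin r) B j).1, Matrix.one_mul]
    intro z hz
    rw [hE' z hz, ← hI1, hG.plus j 0 Complex.I (by simp)]
  -- the local data
  have hRs : ∀ x a b, Tendsto (fun n => Rs γ (Bn n) x a b) 𝒰 (𝓝 (Rs γ B x a b)) := fun x a b =>
    te (tmul (tmul tendsto_const_nhds (hBt x)) tendsto_const_nhds) a b
  have hLD : LD γ w B := by
    refine ⟨hB0, fun x => ⟨fun a b hab => ?_, fun a => ?_⟩⟩
    · refine tendsto_nhds_unique (hRs x a b) (tendsto_const_nhds.congr fun n => ?_)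
      exact (((hn n).1.2 x).1 a b hab).symm
    · have t1 : Tendsto (fun n => (Rs γ (Bn n) x a a).re) 𝒰 (𝓝 (Rs γ B x a a).re) :=
        (Complex.continuous_re.tendsto _).comp (hRs x a a)
      refine tendsto_nhds_unique t1 (((hwn x a).mono_left h𝒰).congr fun n => ?_)
      exact (((hn n).1.2 x).2 a).symm
  -- the Hermitian form
  set El := G 0 Complex.I with hEldef
  have hElu : IsUnit El.det := hunit 0 _ (I_mem 0)
  have hEt : Tendsto E 𝒰 (𝓝 El) := by
    refine (hGt 0 _ (I_mem 0)).congr fun n => ?_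
    rw [(hS (Fin r) (Bn n) 0).1, Matrix.one_mul]
  have : Nonempty (Fin r) := ⟨⟨0, hr⟩⟩
  have hKpos : ∀ F : Matrix (Fin r) (Fin r) ℂ, IsUnit F.det → ((F⁻¹)ᴴ * F⁻¹).PosDef := by
    intro F hF
    refine Matrix.PosDef.conjTranspose_mul_self _ ?_
    refine Matrix.mulVec_injective_of_isUnit ?_
    rw [Matrix.isUnit_iff_isUnit_det]
    exact Matrix.isUnit_nonsing_inv_det _ hF
  have hHn : ∀ n, Hn n = (((E n)⁻¹)ᴴ * (E n)⁻¹).trace⁻¹ • (((E n)⁻¹)ᴴ * (E n)⁻¹) := by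
    intro n
    have h1 : Hn n = (ν n : ℂ) • (((E n)⁻¹)ᴴ * (E n)⁻¹) := by
      have h2 : ((E n)⁻¹)ᴴ * ((E n)ᴴ * Hn n * E n) * (E n)⁻¹ = Hn n := by
        have e1 : ((E n)⁻¹)ᴴ * (E n)ᴴ = 1 := by
          rw [← Matrix.conjTranspose_mul, Matrix.mul_nonsing_inv _ (hE n),
            Matrix.conjTranspose_one]
        calc ((E n)⁻¹)ᴴ * ((E n)ᴴ * Hn n * E n) * (E n)⁻¹
            = (((E n)⁻¹)ᴴ * (E n)ᴴ) * Hn n * (E n * (E n)⁻¹) := by
              simp only [Matrix.mul_assoc]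
          _ = Hn n := by
              rw [e1, Matrix.mul_nonsing_inv _ (hE n), Matrix.one_mul, Matrix.mul_one]
      rw [← h2, hEH n, Matrix.mul_smul, Matrix.smul_mul, Matrix.mul_one]
    have ht := (hn n).2.2
    rw [h1, Matrix.trace_smul, smul_eq_mul] at ht
    rw [h1]
    congr 1
    exact eq_inv_of_mul_eq_one_left ht
  obtain ⟨T, hT⟩ : ∃ T : ℂ, T = ((El⁻¹)ᴴ * El⁻¹).trace := ⟨_, rfl⟩
  have hTpos : 0 < T := by
    rw [hT]
    exact (hKpos El hElu).trace_pos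
  have tK : Tendsto (fun n => ((E n)⁻¹)ᴴ * (E n)⁻¹) 𝒰 (𝓝 ((El⁻¹)ᴴ * El⁻¹)) :=
    tmul (tct (tinv hEt hElu)) (tinv hEt hElu)
  have tT : Tendsto (fun n => (((E n)⁻¹)ᴴ * (E n)⁻¹).trace) 𝒰 (𝓝 T) := by
    rw [hT]
    exact ttrace tK
  have tH : Tendsto Hn 𝒰 (𝓝 (T⁻¹ • ((El⁻¹)ᴴ * El⁻¹))) := by
    refine (tsmul (tT.inv₀ hTpos.ne') tK).congr fun n => ?_
    exact (hHn n).symm
  have hHpos : (T⁻¹ • ((El⁻¹)ᴴ * El⁻¹)).PosDef :=
    (hKpos El hElu).smul (RCLike.inv_pos_of_pos hTpos)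
  -- the transports
  have hPP : ∀ j, Tendsto (fun n => PP (Bn n) j) 𝒰 (𝓝 (PP B j)) := by
    intro j
    have h1 := tmul (hGt j _ (negI_mem j)) (tinv hEt hElu)
    have h2 : G j (-Complex.I) * El⁻¹ = PP B j := by
      rw [hEl j _ (negI_mem j), Matrix.mul_assoc, Matrix.mul_nonsing_inv _ hElu, Matrix.mul_one]
      rfl
    rw [h2] at h1
    refine h1.congr fun n => ?_
    rw [Matrix.mul_assoc, Matrix.mul_nonsing_inv _ (hE n), Matrix.mul_one]
    rfl
  have hPu : ∀ (B' : Fin 3 → Matrix (Fin r) (Fin r) ℂ) (j : Fin 3), IsUnit (PP B' j).det :=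
    fun B' j => hI _ B' j _ (negI_mem j)
  have hHm : ∀ n, Hmn n = ((PP (Bn n) 0)⁻¹)ᴴ * Hn n * (PP (Bn n) 0)⁻¹ := by
    intro n
    have h := (hn n).2.1.2.2 0
    have e1 : ((PP (Bn n) 0)⁻¹)ᴴ * (PP (Bn n) 0)ᴴ = 1 := by
      rw [← Matrix.conjTranspose_mul, Matrix.mul_nonsing_inv _ (hPu _ _),
        Matrix.conjTranspose_one]
    rw [← h]
    calc Hmn n = 1 * Hmn n * 1 := by rw [Matrix.one_mul, Matrix.mul_one]
      _ = (((PP (Bn n) 0)⁻¹)ᴴ * (PP (Bn n) 0)ᴴ) * Hmn n * (PP (Bn n) 0 * (PP (Bn n) 0)⁻¹) := by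
          rw [e1, Matrix.mul_nonsing_inv _ (hPu _ _)]
      _ = ((PP (Bn n) 0)⁻¹)ᴴ * ((PP (Bn n) 0)ᴴ * Hmn n * PP (Bn n) 0) * (PP (Bn n) 0)⁻¹ := by
          simp only [Matrix.mul_assoc]
  have tHm : Tendsto Hmn 𝒰
      (𝓝 (((PP B 0)⁻¹)ᴴ * (T⁻¹ • ((El⁻¹)ᴴ * El⁻¹)) * (PP B 0)⁻¹)) := by
    refine (tmul (tmul (tct (tinv (hPP 0) (hPu B 0))) tH) (tinv (hPP 0) (hPu B 0))).congr
      fun n => ?_
    exact (hHm n).symm
  refine ⟨B, T⁻¹ • ((El⁻¹)ᴴ * El⁻¹), ((PP B 0)⁻¹)ᴴ * (T⁻¹ • ((El⁻¹)ᴴ * El⁻¹)) * (PP B 0)⁻¹,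
    hLD, ⟨hHpos, ?_, fun j => ?_⟩, ?_⟩
  · exact Matrix.isHermitian_conjTranspose_mul_mul _ hHpos.1
  · refine tendsto_nhds_unique (tmul (tmul (tct (hPP j)) tHm) (hPP j)) (tH.congr fun n => ?_)
    exact ((hn n).2.1.2.2 j).symm
  · rw [Matrix.trace_smul, smul_eq_mul, ← hT, inv_mul_cancel₀ hTpos.ne']

end Pool.Agent.MSU

end

section

/-! Item K_Frame: the normalised unitary frame of a Fuchsian system with unitary monodromy. -/

open Matrix Polynomial Filter Topology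
open scoped ComplexConjugate ComplexOrder

namespace Pool.Agent.MSU

namespace ItemKFrame

open scoped MatrixOrder in
lemma exists_sq {r : ℕ} {H : Matrix (Fin r) (Fin r) ℂ} (hH : H.PosDef) :
    ∃ S : Matrix (Fin r) (Fin r) ℂ, H = Sᴴ * S := by
  obtain ⟨S, hS⟩ := CStarAlgebra.nonneg_iff_eq_star_mul_self.mp hH.posSemidef.nonneg
  exact ⟨S, hS⟩

/-- a positive definite matrix is congruent to the identity -/
lemma exists_frame {r : ℕ} {H : Matrix (Fin r) (Fin r) ℂ} (hH : H.PosDef) :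
    ∃ E : Matrix (Fin r) (Fin r) ℂ, IsUnit E.det ∧ Eᴴ * H * E = 1 := by
  obtain ⟨S, hS⟩ := exists_sq hH
  have hdet : H.det ≠ 0 := hH.det_pos.ne'
  have hSdet : S.det ≠ 0 := by
    intro h
    apply hdet
    rw [hS, det_mul, h, mul_zero]
  have hSu : IsUnit S.det := isUnit_iff_ne_zero.mpr hSdet
  refine ⟨S⁻¹, ?_, ?_⟩
  · rw [Matrix.det_nonsing_inv]
    exact hSu.ringInverse
  · rw [hS]
    have h1 : S * S⁻¹ = 1 := Matrix.mul_nonsing_inv S hSu
    have h2 : (S⁻¹)ᴴ * Sᴴ = 1 := by rw [← conjTranspose_mul, h1, conjTranspose_one]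
    calc (S⁻¹)ᴴ * (Sᴴ * S) * S⁻¹ = ((S⁻¹)ᴴ * Sᴴ) * (S * S⁻¹) := by
          simp only [Matrix.mul_assoc]
      _ = 1 := by rw [h1, h2, Matrix.mul_one]

/-- the transports preserve the form -/
lemma transport {r : ℕ} {H Hm P P' : Matrix (Fin r) (Fin r) ℂ} (hP : IsUnit P.det)
    (h : Pᴴ * Hm * P = H) (h' : P'ᴴ * Hm * P' = H) :
    (P⁻¹ * P')ᴴ * H * (P⁻¹ * P') = H := by
  have h1 : P * P⁻¹ = 1 := Matrix.mul_nonsing_inv P hP
  have h2 : (P⁻¹)ᴴ * Pᴴ = 1 := by rw [← conjTranspose_mul, h1, conjTranspose_one]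
  rw [← h, conjTranspose_mul]
  calc P'ᴴ * (P⁻¹)ᴴ * (Pᴴ * Hm * P) * (P⁻¹ * P')
      = P'ᴴ * ((P⁻¹)ᴴ * Pᴴ) * Hm * (P * P⁻¹) * P' := by simp only [Matrix.mul_assoc]
    _ = P'ᴴ * Hm * P' := by rw [h1, h2, Matrix.mul_one, Matrix.mul_one]
    _ = Pᴴ * Hm * P := by rw [h', h]

/-- conjugation by a frame with `Eᴴ H E = ν` turns isometries of `H` into unitary matrices -/
lemma unit_conj {r : ℕ} {H E M : Matrix (Fin r) (Fin r) ℂ} {ν : ℂ} (hν : ν ≠ 0)
    (hE : IsUnit E.det) (h : Eᴴ * H * E = ν • 1) (hM : Mᴴ * H * M = H) :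
    (E⁻¹ * M * E)ᴴ * (E⁻¹ * M * E) = 1 := by
  have h1 : E * E⁻¹ = 1 := Matrix.mul_nonsing_inv E hE
  have h2 : (E⁻¹)ᴴ * Eᴴ = 1 := by rw [← conjTranspose_mul, h1, conjTranspose_one]
  have h3 : H = ν • ((E⁻¹)ᴴ * E⁻¹) := by
    calc H = ((E⁻¹)ᴴ * Eᴴ) * H * (E * E⁻¹) := by rw [h1, h2, Matrix.one_mul, Matrix.mul_one]
      _ = (E⁻¹)ᴴ * (Eᴴ * H * E) * E⁻¹ := by simp only [Matrix.mul_assoc]
      _ = ν • ((E⁻¹)ᴴ * E⁻¹) := by rw [h, Matrix.mul_smul, Matrix.smul_mul, Matrix.mul_one]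
  have h4 : (E⁻¹)ᴴ * E⁻¹ = ν⁻¹ • H := by rw [h3, smul_smul, inv_mul_cancel₀ hν, one_smul]
  calc (E⁻¹ * M * E)ᴴ * (E⁻¹ * M * E)
      = Eᴴ * Mᴴ * ((E⁻¹)ᴴ * E⁻¹) * M * E := by
        rw [conjTranspose_mul, conjTranspose_mul]; simp only [Matrix.mul_assoc]
    _ = ν⁻¹ • (Eᴴ * (Mᴴ * H * M) * E) := by
        rw [h4, Matrix.mul_smul, Matrix.smul_mul, Matrix.smul_mul]
        simp only [Matrix.mul_assoc]
    _ = 1 := by rw [hM, h, smul_smul, inv_mul_cancel₀ hν, one_smul]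

/-- sum of the squares of the absolute values of the entries -/
noncomputable def fro {r d : ℕ} (M : Matrix (Fin r) (Fin d) ℂ) : ℝ := ∑ a, ∑ b, ‖M a b‖ ^ 2

lemma fro_eq {r d : ℕ} (M : Matrix (Fin r) (Fin d) ℂ) :
    ((fro M : ℝ) : ℂ) = (M * Mᴴ).trace := by
  unfold fro
  rw [Matrix.trace]
  push_cast
  apply Finset.sum_congr rfl
  intro a _
  rw [Matrix.diag_apply, Matrix.mul_apply]
  apply Finset.sum_congr rfl
  intro b _
  rw [Matrix.conjTranspose_apply]
  exact (Complex.mul_conj' (M a b)).symm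

lemma fro_unit {r d : ℕ} (M : Matrix (Fin r) (Fin d) ℂ) (U : Matrix (Fin d) (Fin d) ℂ)
    (hU : Uᴴ * U = 1) : fro (M * U) = fro M := by
  have hU' : U * Uᴴ = 1 := by
    exact mul_eq_one_comm.mp hU
  have : ((fro (M * U) : ℝ) : ℂ) = ((fro M : ℝ) : ℂ) := by
    rw [fro_eq, fro_eq, conjTranspose_mul]
    have : M * U * (Uᴴ * Mᴴ) = M * (U * Uᴴ) * Mᴴ := by simp only [Matrix.mul_assoc]
    rw [this, hU', Matrix.mul_one]
  exact_mod_cast this

lemma fro_smul {r d : ℕ} (M : Matrix (Fin r) (Fin d) ℂ) (s : ℝ) :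
    fro ((s : ℂ) • M) = s ^ 2 * fro M := by
  unfold fro
  rw [Finset.mul_sum]
  apply Finset.sum_congr rfl
  intro a _
  rw [Finset.mul_sum]
  apply Finset.sum_congr rfl
  intro b _
  rw [Matrix.smul_apply, norm_smul, mul_pow, Complex.norm_real, Real.norm_eq_abs, sq_abs]

lemma entry_le_fro {r d : ℕ} (M : Matrix (Fin r) (Fin d) ℂ) (a : Fin r) (b : Fin d) :
    ‖M a b‖ ^ 2 ≤ fro M := by
  unfold fro
  calc ‖M a b‖ ^ 2 ≤ ∑ b, ‖M a b‖ ^ 2 :=
        Finset.single_le_sum (f := fun b => ‖M a b‖ ^ 2) (fun _ _ => sq_nonneg _)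
          (Finset.mem_univ b)
    _ ≤ ∑ a, ∑ b, ‖M a b‖ ^ 2 :=
        Finset.single_le_sum (f := fun a => ∑ b, ‖M a b‖ ^ 2)
          (fun _ _ => Finset.sum_nonneg fun _ _ => sq_nonneg _) (Finset.mem_univ a)

lemma fro_pos {r : ℕ} (hr : 0 < r) (M : Matrix (Fin r) (Fin r) ℂ) (hM : IsUnit M.det) :
    0 < fro M := by
  by_contra hcon
  have hM0 : M = 0 := by
    ext a b
    have h1 := entry_le_fro M a b
    have h2 : ‖M a b‖ ^ 2 ≤ 0 := h1.trans (not_lt.mp hcon)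
    have h3 : ‖M a b‖ = 0 := by
      have := sq_nonneg ‖M a b‖
      exact pow_eq_zero_iff (two_ne_zero) |>.mp (le_antisymm h2 this)
    simpa using h3
  rw [hM0] at hM
  have : Nonempty (Fin r) := ⟨⟨0, hr⟩⟩
  rw [Matrix.det_zero] at hM
  exact not_isUnit_zero hM

/-- real points lie in at most one of the three domains -/
lemma V_unique {j j' : Fin 3} {z : ℂ} (h : z ∈ V j) (h' : z ∈ V j') (him : z.im = 0) :
    j = j' := by
  rcases h with h | ⟨e, h⟩ | ⟨e, h, h2⟩ | ⟨e, h⟩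
  · exact absurd him h
  all_goals
    rcases h' with h' | ⟨e', h'⟩ | ⟨e', h', h2'⟩ | ⟨e', h'⟩
    · exact absurd him h'
    all_goals first
      | exact e.trans e'.symm
      | (exfalso; linarith)

lemma KK_compact : IsCompact KK := by
  apply Metric.isCompact_of_isClosed_isBounded
  · have h1 : IsClosed {z : ℂ | 1 / 2 ≤ ‖z‖} := isClosed_le continuous_const continuous_norm
    have h2 : IsClosed {z : ℂ | 1 / 2 ≤ ‖z - 1‖} :=
      isClosed_le continuous_const (continuous_id.sub continuous_const).norm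
    have h3 : IsClosed {z : ℂ | ‖z‖ ≤ 2} := isClosed_le continuous_norm continuous_const
    exact h1.inter (h2.inter h3)
  · refine (Metric.isBounded_closedBall (x := (0 : ℂ)) (r := 2)).subset ?_
    intro z hz
    simpa using hz.2.2

lemma KK_ne {z : ℂ} (h : z ∈ KK) : z ≠ 0 ∧ z ≠ 1 := by
  constructor
  · rintro rfl
    have := h.1
    norm_num at this
  · rintro rfl
    have := h.2.1
    norm_num at this

lemma I_KK : Complex.I ∈ KK := by
  refine ⟨?_, ?_, ?_⟩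
  · simp; norm_num
  · have h1 : |(Complex.I - 1).im| ≤ ‖Complex.I - 1‖ := Complex.abs_im_le_norm _
    have h2 : |(Complex.I - 1).im| = 1 := by simp
    linarith
  · simp

end ItemKFrame

open ItemKFrame in
theorem prf_K_Frame (hSol : S_Sol) (hInv : S_Inv) (hGlue : S_Glue) (hRow : L_Row) : K_Frame := by
  intro r γ w B H Hm hr hγ hw hB hUN
  obtain ⟨hH, hHm, hP⟩ := hUN
  have hPu : ∀ j, IsUnit (PP B j).det := fun j => hInv (Fin r) B j _ (negI_mem j)
  have hT : ∀ j j', ((PP B j)⁻¹ * PP B j')ᴴ * H * ((PP B j)⁻¹ * PP B j') = H :=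
    fun j j' => transport (hPu j) (hP j) (hP j')
  obtain ⟨E0, hE0, hE0H⟩ := exists_frame hH
  have hE0H' : E0ᴴ * H * E0 = (1 : ℂ) • 1 := by rw [hE0H, one_smul]
  -- independence of the branch
  have hind : ∀ j j' : Fin 3, ∀ z : ℂ, z ∈ V j → z ∈ V j' →
      fro (YY B j z * E0) = fro (YY B j' z * E0) := by
    intro j j' z hz hz'
    rcases lt_trichotomy z.im 0 with h | h | h
    · have h1 := (hGlue (Fin r) B j j').2 z h
      have h2 : YY B j' z * E0 = (YY B j z * E0) * (E0⁻¹ * ((PP B j)⁻¹ * PP B j') * E0) := by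
        rw [h1]
        have h3 : E0 * E0⁻¹ = 1 := Matrix.mul_nonsing_inv E0 hE0
        calc YY B j z * ((PP B j)⁻¹ * PP B j') * E0
            = YY B j z * 1 * ((PP B j)⁻¹ * PP B j') * E0 := by rw [Matrix.mul_one]
          _ = YY B j z * (E0 * E0⁻¹) * ((PP B j)⁻¹ * PP B j') * E0 := by rw [h3]
          _ = _ := by simp only [Matrix.mul_assoc]
      rw [h2, fro_unit (YY B j z * E0) _ (unit_conj one_ne_zero hE0 hE0H' (hT j j'))]
    · rw [V_unique hz hz' h]
    · rw [(hGlue (Fin r) B j j').1 z h]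
  classical
  let u : ℂ → ℝ := fun z => if h : ∃ j, z ∈ V j then fro (YY B h.choose z * E0) else 0
  have hu : ∀ j, ∀ z ∈ V j, u z = fro (YY B j z * E0) := by
    intro j z hz
    have h : ∃ j, z ∈ V j := ⟨j, hz⟩
    have h1 : u z = fro (YY B h.choose z * E0) := dif_pos h
    rw [h1]
    exact hind _ _ z h.choose_spec hz
  have hcont : ContinuousOn u KK := by
    intro z hz
    apply ContinuousAt.continuousWithinAt
    obtain ⟨j, hj⟩ := V_cover (KK_ne hz).1 (KK_ne hz).2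
    have hev : u =ᶠ[𝓝 z] fun s => fro (YY B j s * E0) := by
      filter_upwards [(V_open j).mem_nhds hj] with s hs
      exact hu j s hs
    refine ContinuousAt.congr ?_ hev.symm
    have hY : ∀ a b, ContinuousAt (fun s => YY B j s a b) z := fun a b =>
      ((hSol (Fin r) B j).2 z hj a b).continuousAt
    unfold fro
    refine tendsto_finsetSum _ fun a _ => ?_
    refine tendsto_finsetSum _ fun b _ => ?_
    refine ContinuousAt.pow (ContinuousAt.norm ?_) 2
    have : (fun s => (YY B j s * E0) a b) = fun s => ∑ c, YY B j s a c * E0 c b := by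
      funext s; rw [Matrix.mul_apply]
    rw [this]
    exact tendsto_finsetSum _ fun c _ => (hY a c).mul continuousAt_const
  obtain ⟨z0, hz0, hmax⟩ := KK_compact.exists_isMaxOn ⟨_, I_KK⟩ hcont
  have hm : ∀ z ∈ KK, u z ≤ u z0 := fun z hz => hmax hz
  have hpos : 0 < u z0 := by
    refine lt_of_lt_of_le ?_ (hm _ I_KK)
    rw [hu 0 _ (I_mem 0), (hSol (Fin r) B 0).1, Matrix.one_mul]
    exact fro_pos hr E0 hE0
  set m := u z0 with hmdef
  let s : ℝ := (Real.sqrt m)⁻¹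
  have hs0 : 0 < s := inv_pos.mpr (Real.sqrt_pos.mpr hpos)
  have hs2 : s ^ 2 * m = 1 := by
    have : s ^ 2 = m⁻¹ := by
      change ((Real.sqrt m)⁻¹) ^ 2 = m⁻¹
      rw [inv_pow, Real.sq_sqrt hpos.le]
    rw [this, inv_mul_cancel₀ hpos.ne']
  have hsc : (s : ℂ) ≠ 0 := by exact_mod_cast hs0.ne'
  let E : Matrix (Fin r) (Fin r) ℂ := (s : ℂ) • E0
  have hEdef : E = (s : ℂ) • E0 := rfl
  have hE : IsUnit E.det := by
    rw [hEdef, Matrix.det_smul]
    exact (isUnit_iff_ne_zero.mpr (pow_ne_zero _ hsc)).mul hE0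
  have hEH : Eᴴ * H * E = ((s ^ 2 : ℝ) : ℂ) • 1 := by
    rw [hEdef, Matrix.conjTranspose_smul, Matrix.smul_mul, Matrix.smul_mul, Matrix.mul_smul,
      hE0H, smul_smul]
    congr 1
    rw [Complex.star_def, Complex.conj_ofReal]
    push_cast
    ring
  have hYE : ∀ j z, YY B j z * E = (s : ℂ) • (YY B j z * E0) := by
    intro j z
    rw [hEdef, Matrix.mul_smul]
  refine ⟨E, s ^ 2, fun x => E⁻¹ * ((PP B x)⁻¹ * PP B (x + 1)) * E, hE, by positivity, hEH, ?_,
    hRow r r γ w B hγ hw hB E, fun x => rfl, ?_, ?_⟩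
  · refine ⟨?_, ?_, ?_, ?_⟩
    · intro j a b z hz
      have h1 : (fun z => (YY B j z * E) a b) = fun s => ∑ c, YY B j s a c * E c b := by
        funext s; rw [Matrix.mul_apply]
      rw [h1]
      apply DifferentiableAt.differentiableWithinAt
      apply DifferentiableAt.fun_sum
      intro c _
      exact ((hSol (Fin r) B j).2 z hz a c).differentiableAt.mul_const _
    · intro j j' z hz
      rw [(hGlue (Fin r) B j j').1 z hz]
    · intro j z hz
      have h1 := (hGlue (Fin r) B j (j + 1)).2 z hz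
      have h3 : E * E⁻¹ = 1 := Matrix.mul_nonsing_inv E hE
      change YY B (j + 1) z * E = YY B j z * E * (E⁻¹ * ((PP B j)⁻¹ * PP B (j + 1)) * E)
      rw [h1]
      calc YY B j z * ((PP B j)⁻¹ * PP B (j + 1)) * E
          = YY B j z * 1 * ((PP B j)⁻¹ * PP B (j + 1)) * E := by rw [Matrix.mul_one]
        _ = YY B j z * (E * E⁻¹) * ((PP B j)⁻¹ * PP B (j + 1)) * E := by rw [h3]
        _ = _ := by simp only [Matrix.mul_assoc]
    · intro j
      have hν : (((s ^ 2 : ℝ)) : ℂ) ≠ 0 := by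
        exact_mod_cast (pow_pos hs0 2).ne'
      exact unit_conj hν hE hEH (hT j (j + 1))
  · intro j z hz hzK a b
    have h1 : ‖(YY B j z * E) a b‖ ^ 2 ≤ 1 := by
      refine (entry_le_fro _ a b).trans ?_
      rw [hYE, fro_smul, ← hu j z hz]
      calc s ^ 2 * u z ≤ s ^ 2 * m := mul_le_mul_of_nonneg_left (hm z hzK) (sq_nonneg s)
        _ = 1 := hs2
    have h2 : (0 : ℝ) ≤ ‖(YY B j z * E) a b‖ := norm_nonneg _
    nlinarith
  · obtain ⟨j, hj⟩ := V_cover (KK_ne hz0).1 (KK_ne hz0).2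
    refine ⟨j, z0, hj, hz0, ?_⟩
    change fro (YY B j z0 * E) = 1
    rw [hYE, fro_smul, ← hu j z0 hj]
    exact hs2

end Pool.Agent.MSU

end

section

/-! Limits of multivalued matrices along an ultrafilter. -/

open Matrix Polynomial Complex Filter Topology

namespace Pool.Agent.MSU

namespace ItemKMontel

/-- bounded sequences converge along an ultrafilter -/
lemma exists_lim (𝒰 : Ultrafilter ℕ) (f : ℕ → ℂ) (M : ℝ) (h : ∀ n, ‖f n‖ ≤ M) :
    ∃ y : ℂ, Tendsto f 𝒰 (𝓝 y) := by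
  have hc : IsCompact (Metric.closedBall (0 : ℂ) M) := isCompact_closedBall 0 M
  obtain ⟨y, -, hy⟩ := hc.ultrafilter_le_nhds (𝒰.map f) (by
    rw [le_principal_iff]
    change ∀ᶠ n in (𝒰 : Filter ℕ), f n ∈ Metric.closedBall (0 : ℂ) M
    filter_upwards with n
    simpa using h n)
  exact ⟨y, hy⟩

lemma locUnif {j : Fin 3} (𝒰 : Ultrafilter ℕ) (F : ℕ → ℂ → ℂ) (g : ℂ → ℂ)
    (hF : ∀ n, DifferentiableOn ℂ (F n) (V j))
    (hb : ∀ z ∈ V j, ∃ ε M : ℝ, 0 < ε ∧ ∀ n, ∀ s ∈ V j, ‖s - z‖ < ε → ‖F n s‖ ≤ M)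
    (hg : ∀ z ∈ V j, Tendsto (fun n => F n z) 𝒰 (𝓝 (g z))) :
    TendstoLocallyUniformlyOn F g 𝒰 (V j) := by
  intro u hu x hx
  obtain ⟨ε, M, hε, hM⟩ := hb x hx
  set U : Set ℂ := V j ∩ Metric.ball x ε with hU
  have hUo : IsOpen U := (V_open j).inter Metric.isOpen_ball
  have hxU : x ∈ U := ⟨hx, Metric.mem_ball_self hε⟩
  have h1 : TendstoLocallyUniformlyOn F g 𝒰 U := by
    refine Pool.Agent.RMT.tendstoLocallyUniformlyOn_of_pointwise hUo (M := M) ?_ ?_
    · refine Eventually.of_forall fun n => ⟨(hF n).mono Set.inter_subset_left, ?_⟩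
      rintro z ⟨hz, hz2⟩
      exact hM n z hz (by simpa [dist_eq_norm] using hz2)
    · intro z hz
      exact hg z hz.1
  obtain ⟨t, ht, h2⟩ := h1 u hu x hxU
  refine ⟨t, ?_, h2⟩
  rw [hUo.nhdsWithin_eq hxU] at ht
  exact mem_nhdsWithin_of_mem_nhds ht

end ItemKMontel

open ItemKMontel in
theorem prf_K_Montel : K_Montel := by
  intro r d Gn Qn hMV hloc 𝒰
  -- pointwise limits
  have h1 : ∀ (j : Fin 3) (z : ℂ), ∃ y : Fin r → Fin d → ℂ, z ∈ V j → ∀ a b,
      Tendsto (fun n => Gn n j z a b) 𝒰 (𝓝 (y a b)) := by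
    intro j z
    by_cases hz : z ∈ V j
    · obtain ⟨ε, M, hε, hM⟩ := hloc j z hz
      have h2 : ∀ a b, ∃ y : ℂ, Tendsto (fun n => Gn n j z a b) 𝒰 (𝓝 y) := by
        intro a b
        exact exists_lim 𝒰 _ M fun n => hM n z hz (by simpa using hε) a b
      choose y hy using h2
      exact ⟨y, fun _ => hy⟩
    · exact ⟨0, fun h => absurd h hz⟩
  choose y hy using h1
  have hq1 : ∀ (n : ℕ) (x : Fin 3) (a b : Fin d), ‖Qn n x a b‖ ≤ 1 := by
    intro n x a b
    refine entry_norm_bound_of_unitary (U := Qn n x) ?_ a b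
    rw [Matrix.mem_unitaryGroup_iff']
    exact (hMV n).unit x
  have h3 : ∀ (x : Fin 3) (a b : Fin d), ∃ y : ℂ, Tendsto (fun n => Qn n x a b) 𝒰 (𝓝 y) :=
    fun x a b => exists_lim 𝒰 _ 1 fun n => hq1 n x a b
  choose q hq using h3
  set G : Fin 3 → ℂ → Matrix (Fin r) (Fin d) ℂ := fun j z => Matrix.of (y j z) with hG
  set Q : Fin 3 → Matrix (Fin d) (Fin d) ℂ := fun x => Matrix.of (q x) with hQ
  have hGl : ∀ j, ∀ z ∈ V j, ∀ a b, Tendsto (fun n => Gn n j z a b) 𝒰 (𝓝 (G j z a b)) :=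
    fun j z hz a b => hy j z hz a b
  have hQl : ∀ x a b, Tendsto (fun n => Qn n x a b) 𝒰 (𝓝 (Q x a b)) := fun x a b => hq x a b
  have hLU : ∀ j a b, TendstoLocallyUniformlyOn (fun n z => Gn n j z a b)
      (fun z => G j z a b) 𝒰 (V j) := by
    intro j a b
    refine locUnif 𝒰 _ _ (fun n => (hMV n).diff j a b) ?_ (fun z hz => hGl j z hz a b)
    intro z hz
    obtain ⟨ε, M, hε, hM⟩ := hloc j z hz
    exact ⟨ε, M, hε, fun n s hs hsz => hM n s hs hsz a b⟩
  have hdiff : ∀ j a b, DifferentiableOn ℂ (fun z => G j z a b) (V j) := by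
    intro j a b
    exact (hLU j a b).differentiableOn (Eventually.of_forall fun n => (hMV n).diff j a b)
      (V_open j)
  refine ⟨G, Q, ⟨hdiff, ?_, ?_, ?_⟩, ?_, hQl, ?_⟩
  · intro j j' z hz
    ext a b
    refine tendsto_nhds_unique (hGl j z (upper_mem j hz) a b) ?_
    have := hGl j' z (upper_mem j' hz) a b
    refine this.congr fun n => ?_
    rw [(hMV n).plus j j' z hz]
  · intro j z hz
    ext a b
    refine tendsto_nhds_unique (hGl (j + 1) z (lower_mem _ hz) a b) ?_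
    rw [Matrix.mul_apply]
    have h4 : Tendsto (fun n => ∑ c, Gn n j z a c * Qn n j c b) 𝒰
        (𝓝 (∑ c, G j z a c * Q j c b)) :=
      tendsto_finsetSum _ fun c _ => (hGl j z (lower_mem _ hz) a c).mul (hQl j c b)
    refine h4.congr fun n => ?_
    rw [(hMV n).minus j z hz, Matrix.mul_apply]
  · intro x
    ext a b
    have h4 : Tendsto (fun n => ((Qn n x)ᴴ * Qn n x) a b) 𝒰 (𝓝 (((Q x)ᴴ * Q x) a b)) := by
      simp only [Matrix.mul_apply, Matrix.conjTranspose_apply]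
      exact tendsto_finsetSum _ fun c _ => ((hQl x c a).star).mul (hQl x c b)
    refine tendsto_nhds_unique h4 ?_
    refine tendsto_const_nhds.congr fun n => ?_
    rw [(hMV n).unit x]
  · intro j z hz a b
    refine ⟨hGl j z hz a b, ?_⟩
    have h5 := (hLU j a b).deriv (Eventually.of_forall fun n => (hMV n).diff j a b) (V_open j)
    exact h5.tendsto_at hz
  · intro j z hz zn hzn a b
    refine (hLU j a b).tendsto_comp ((hdiff j a b).continuousOn z hz) hz ?_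
    rw [(V_open j).nhdsWithin_eq hz]
    exact hzn

end Pool.Agent.MSU

end

section

/-! Item L_Diag: a unitary local monodromy with eigenvalues `exp (-2 π i D i)` has real `D i` and
orthogonal eigenvectors. -/

open Matrix
open scoped ComplexConjugate ComplexOrder

namespace Pool.Agent.MSU

namespace ItemLDiag

theorem key {r : ℕ} (H Q φ : Matrix (Fin r) (Fin r) ℂ) (L : Fin r → ℂ)
    (hQ : Qᴴ * H * Q = H) (hφ : IsUnit φ.det) (h : diagonal L * φ = φ * Q) :
    ∀ i j, conj (L i) * L j * ((φ⁻¹)ᴴ * H * φ⁻¹) i j = ((φ⁻¹)ᴴ * H * φ⁻¹) i j := by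
  have h1 : φ * φ⁻¹ = 1 := mul_nonsing_inv φ hφ
  have h2 : φ⁻¹ * φ = 1 := nonsing_inv_mul φ hφ
  -- Q φ⁻¹ = φ⁻¹ diag L
  have h3 : Q * φ⁻¹ = φ⁻¹ * diagonal L := by
    calc Q * φ⁻¹ = (φ⁻¹ * φ) * (Q * φ⁻¹) := by rw [h2, one_mul]
      _ = φ⁻¹ * (φ * Q) * φ⁻¹ := by simp only [mul_assoc]
      _ = φ⁻¹ * (diagonal L * φ) * φ⁻¹ := by rw [h]
      _ = φ⁻¹ * diagonal L * (φ * φ⁻¹) := by simp only [mul_assoc]
      _ = φ⁻¹ * diagonal L := by rw [h1, mul_one]
  have h4 : (diagonal L)ᴴ * ((φ⁻¹)ᴴ * H * φ⁻¹) * diagonal L = (φ⁻¹)ᴴ * H * φ⁻¹ := by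
    calc (diagonal L)ᴴ * ((φ⁻¹)ᴴ * H * φ⁻¹) * diagonal L
        = (φ⁻¹ * diagonal L)ᴴ * H * (φ⁻¹ * diagonal L) := by
          rw [conjTranspose_mul]; simp only [mul_assoc]
      _ = (Q * φ⁻¹)ᴴ * H * (Q * φ⁻¹) := by rw [h3]
      _ = (φ⁻¹)ᴴ * (Qᴴ * H * Q) * φ⁻¹ := by
          rw [conjTranspose_mul]; simp only [mul_assoc]
      _ = (φ⁻¹)ᴴ * H * φ⁻¹ := by rw [hQ]
  intro i j
  have h5 := congrFun (congrFun h4 i) j
  rw [mul_diagonal, diagonal_conjTranspose, diagonal_mul] at h5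
  rw [← h5]
  simp only [Pi.star_apply, RCLike.star_def] at h5 ⊢
  rw [h5]
  linear_combination h5

end ItemLDiag

theorem prf_L_Diag : L_Diag := by
  intro r H Q φ D hH hQ hφ h hD
  have key := ItemLDiag.key H Q φ _ hQ hφ h
  set h' : Matrix (Fin r) (Fin r) ℂ := (φ⁻¹)ᴴ * H * φ⁻¹ with hh'
  have hinj : Function.Injective (φ⁻¹).mulVec := by
    have hu : IsUnit (φ⁻¹) := by
      rw [isUnit_nonsing_inv_iff, isUnit_iff_isUnit_det]; exact hφ
    exact mulVec_injective_iff_isUnit.mpr hu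
  have hpos : h'.PosDef := by
    rw [hh']
    exact hH.conjTranspose_mul_mul_same hinj
  have him : ∀ i, (D i).im = 0 := by
    intro i
    have h1 := key i i
    have h2 : h' i i ≠ 0 := ne_of_gt hpos.diag_pos
    have h3 : conj (Complex.exp (-(2 * Real.pi * Complex.I * D i))) *
        Complex.exp (-(2 * Real.pi * Complex.I * D i)) = 1 := by
      have := mul_right_cancel₀ h2 (h1.trans (one_mul _).symm)
      exact this
    have h4 := congrArg (fun z : ℂ => ‖z‖) h3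
    simp only [norm_mul, RCLike.norm_conj, norm_one, Complex.norm_exp] at h4
    have h5 : (-(2 * (Real.pi : ℂ) * Complex.I * D i)).re = 2 * Real.pi * (D i).im := by
      simp
    rw [h5, ← Real.exp_add, Real.exp_eq_one_iff] at h4
    have hpi := Real.pi_pos
    nlinarith [hpi]
  refine ⟨him, fun i j hij => ?_⟩
  by_contra hne
  have h1 := key i j
  have h3 : conj (Complex.exp (-(2 * Real.pi * Complex.I * D i))) *
      Complex.exp (-(2 * Real.pi * Complex.I * D j)) = 1 :=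
    mul_right_cancel₀ hne (h1.trans (one_mul _).symm)
  rw [← Complex.exp_conj, ← Complex.exp_add, Complex.exp_eq_one_iff] at h3
  obtain ⟨n, hn⟩ := h3
  obtain ⟨hd1, hd2⟩ := hD i j hij
  have h6 : (D i).re - (D j).re = n := by
    have h7 := congrArg Complex.im hn
    simp at h7
    have hpi := Real.pi_pos
    have h8 : (2 * Real.pi) * ((D i).re - (D j).re - n) = 0 := by
      nlinarith [h7]
    have h9 : (2 * Real.pi) ≠ 0 := by positivity
    have := (mul_eq_zero.mp h8).resolve_left h9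
    linarith
  rw [h6] at hd2
  have h10 : |n| < 1 := by exact_mod_cast hd2
  have h11 : n = 0 := Int.abs_lt_one_iff.mp h10
  rw [h11] at h6
  apply hd1
  have : (D i).re - (D j).re = 0 := by rw [h6]; simp
  linarith

end Pool.Agent.MSU

end

section

/-! Item L_HSB: functions with exponentially small derivative on a half strip. The lemmas are for
functions with values in a complex normed space. -/

open Matrix Filter Topology Set

namespace Pool.Agent.MSU

namespace ItemLHSB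

variable {E : Type*} [NormedAddCommGroup E] [NormedSpace ℂ E]

/-- derivative along a real line -/
theorem deriv_line {G : ℂ → E} {g' : E} {z v : ℂ} {u : ℝ} (h : HasDerivAt G g' (z + u * v)) :
    HasDerivAt (fun u : ℝ => G (z + u * v)) (v • g') u := by
  have h1 : HasDerivAt (fun u : ℝ => z + (u : ℂ) * v) v u := by
    have := (Complex.ofRealCLM.hasDerivAt (x := u)).mul_const v
    simpa using this.const_add z
  exact h.scomp u h1

/-- horizontal differences -/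
theorem horiz {a c d δ C : ℝ} (hδ : 0 < δ) {G G' : ℂ → E}
    (h : ∀ τ : ℂ, τ.re < a → c < τ.im → τ.im < d → HasDerivAt G (G' τ) τ ∧
      ‖G' τ‖ ≤ C * Real.exp (δ * τ.re)) {y s s' : ℝ} (hy : c < y) (hy' : y < d) (hs : s' ≤ s)
    (hsa : s < a) :
    ‖G (⟨s, y⟩ : ℂ) - G (⟨s', y⟩ : ℂ)‖ ≤
      C / δ * (Real.exp (δ * s) - Real.exp (δ * s')) := by
  have hline : ∀ u : ℝ, ((⟨s', y⟩ : ℂ) + (u : ℂ) * 1) = ⟨s' + u, y⟩ := by
    intro u
    apply Complex.ext <;> simp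
  have hd : ∀ u ∈ Icc 0 (s - s'), HasDerivAt (fun u : ℝ => G ((⟨s', y⟩ : ℂ) + (u : ℂ) * 1))
      ((1 : ℂ) • G' (⟨s' + u, y⟩ : ℂ)) u := by
    intro u hu
    apply deriv_line
    rw [hline u]
    apply (h ⟨s' + u, y⟩ _ hy hy').1
    simp only
    linarith [hu.2]
  have key := image_norm_le_of_norm_deriv_right_le_deriv_boundary
    (f := fun u : ℝ => G ((⟨s', y⟩ : ℂ) + (u : ℂ) * 1) - G (⟨s', y⟩ : ℂ))
    (f' := fun u : ℝ => (1 : ℂ) • G' (⟨s' + u, y⟩ : ℂ)) (a := 0) (b := s - s')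
    (B := fun u => C / δ * (Real.exp (δ * (s' + u)) - Real.exp (δ * s')))
    (B' := fun u => C * Real.exp (δ * (s' + u)))
    (fun u hu => ((hd u hu).sub_const _).continuousAt.continuousWithinAt)
    (fun u hu => ((hd u ⟨hu.1, hu.2.le⟩).sub_const _).hasDerivWithinAt)
    (by simp)
    (by
      intro u
      have h1 : HasDerivAt (fun u : ℝ => δ * (s' + u)) δ u := by
        simpa using ((hasDerivAt_id' u).const_add s').const_mul δ
      have h2 := (h1.exp.sub_const (Real.exp (δ * s'))).const_mul (C / δ)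
      have e : C / δ * (Real.exp (δ * (s' + u)) * δ) = C * Real.exp (δ * (s' + u)) := by
        field_simp
      rw [e] at h2
      exact h2)
    (by
      intro u hu
      rw [one_smul]
      exact (h ⟨s' + u, y⟩ (by simp only; linarith [hu.2]) hy hy').2)
    (x := s - s') ⟨by linarith, le_rfl⟩
  have e1 : s' + (s - s') = s := by ring
  rw [hline, e1] at key
  exact key

/-- vertical differences -/
theorem vert {a c d δ C : ℝ} {G G' : ℂ → E}
    (h : ∀ τ : ℂ, τ.re < a → c < τ.im → τ.im < d → HasDerivAt G (G' τ) τ ∧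
      ‖G' τ‖ ≤ C * Real.exp (δ * τ.re)) {y y' s : ℝ} (hy : c < y) (hy' : y < d) (hz : c < y')
    (hz' : y' < d) (hsa : s < a) :
    ‖G (⟨s, y⟩ : ℂ) - G (⟨s, y'⟩ : ℂ)‖ ≤ C * Real.exp (δ * s) * |y - y'| := by
  have hseg : ∀ τ ∈ segment ℝ (⟨s, y'⟩ : ℂ) ⟨s, y⟩, τ.re = s ∧ c < τ.im ∧ τ.im < d := by
    rintro τ ⟨p, q, hp, hq, hpq, rfl⟩
    refine ⟨?_, ?_, ?_⟩
    · simp
      rw [← add_mul, hpq, one_mul]
    · simp
      have : c = p * c + q * c := by rw [← add_mul, hpq, one_mul]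
      rw [this]
      rcases lt_or_eq_of_le hp with hp | hp
      · have e1 := mul_lt_mul_of_pos_left hz hp
        have e2 := mul_le_mul_of_nonneg_left hy.le hq
        linarith
      · have hq1 : q = 1 := by rw [← hp] at hpq; linarith
        rw [← hp, hq1]; linarith
    · simp
      have : d = p * d + q * d := by rw [← add_mul, hpq, one_mul]
      rw [this]
      rcases lt_or_eq_of_le hp with hp | hp
      · have e1 := mul_lt_mul_of_pos_left hz' hp
        have e2 := mul_le_mul_of_nonneg_left hy'.le hq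
        linarith
      · have hq1 : q = 1 := by rw [← hp] at hpq; linarith
        rw [← hp, hq1]; linarith
  have key := Convex.norm_image_sub_le_of_norm_hasDerivWithin_le (f := G) (f' := G')
    (C := C * Real.exp (δ * s)) (s := segment ℝ (⟨s, y'⟩ : ℂ) ⟨s, y⟩) (x := ⟨s, y'⟩)
    (y := ⟨s, y⟩)
    (by
      intro τ hτ
      obtain ⟨h1, h2, h3⟩ := hseg τ hτ
      exact (h τ (by rw [h1]; exact hsa) h2 h3).1.hasDerivWithinAt)
    (by
      intro τ hτ
      obtain ⟨h1, h2, h3⟩ := hseg τ hτ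
      have := (h τ (by rw [h1]; exact hsa) h2 h3).2
      rwa [h1] at this)
    (convex_segment _ _) (left_mem_segment _ _ _) (right_mem_segment _ _ _)
  have e : ‖(⟨s, y⟩ : ℂ) - ⟨s, y'⟩‖ = |y - y'| := by
    have : (⟨s, y⟩ : ℂ) - ⟨s, y'⟩ = ((y - y' : ℝ) : ℂ) * Complex.I := by
      apply Complex.ext <;> simp
    rw [this, norm_mul, Complex.norm_I, mul_one, Complex.norm_real, Real.norm_eq_abs]
  rwa [e] at key

/-- the constant is nonnegative -/
theorem const_nonneg {a c d δ C : ℝ} (hcd : c < d) {G G' : ℂ → E}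
    (h : ∀ τ : ℂ, τ.re < a → c < τ.im → τ.im < d → HasDerivAt G (G' τ) τ ∧
      ‖G' τ‖ ≤ C * Real.exp (δ * τ.re)) : 0 ≤ C := by
  have h1 := (h ⟨a - 1, (c + d) / 2⟩ (by simp) (by simp only; linarith)
    (by simp only; linarith)).2
  by_contra hC
  push Not at hC
  have h2 : C * Real.exp (δ * (a - 1)) < 0 := mul_neg_of_neg_of_pos hC (Real.exp_pos _)
  have h3 := norm_nonneg (G' ⟨a - 1, (c + d) / 2⟩)
  simp only at h1
  linarith

theorem bounded {a c d δ C : ℝ} (hδ : 0 < δ) (hcd : c < d) {G G' : ℂ → E}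
    (h : ∀ τ : ℂ, τ.re < a → c < τ.im → τ.im < d → HasDerivAt G (G' τ) τ ∧
      ‖G' τ‖ ≤ C * Real.exp (δ * τ.re)) :
    ∃ C' : ℝ, ∀ τ : ℂ, τ.re < a - 1 → c < τ.im → τ.im < d → ‖G τ‖ ≤ C' := by
  have hC := const_nonneg hcd h
  refine ⟨‖G ⟨a - 1, (c + d) / 2⟩‖ + C * Real.exp (δ * (a - 1)) * (d - c)
    + C / δ * Real.exp (δ * (a - 1)), ?_⟩
  intro τ h1 h2 h3
  have e1 := horiz hδ h (y := τ.im) (s := a - 1) (s' := τ.re) h2 h3 h1.le (by linarith)
  have e2 := vert h (y := τ.im) (y' := (c + d) / 2) (s := a - 1) h2 h3 (by linarith)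
    (by linarith) (by linarith)
  have e3 : C * Real.exp (δ * (a - 1)) * |τ.im - (c + d) / 2| ≤
      C * Real.exp (δ * (a - 1)) * (d - c) := by
    apply mul_le_mul_of_nonneg_left _ (by positivity)
    rw [abs_le]
    constructor <;> linarith
  have e4 : C / δ * (Real.exp (δ * (a - 1)) - Real.exp (δ * τ.re)) ≤
      C / δ * Real.exp (δ * (a - 1)) := by
    apply mul_le_mul_of_nonneg_left _ (by positivity)
    linarith [Real.exp_pos (δ * τ.re)]
  have e5 : G τ = G ⟨a - 1, (c + d) / 2⟩ + (G ⟨a - 1, τ.im⟩ - G ⟨a - 1, (c + d) / 2⟩)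
      - (G ⟨a - 1, τ.im⟩ - G ⟨τ.re, τ.im⟩) := by
    have : (⟨τ.re, τ.im⟩ : ℂ) = τ := Complex.eta τ
    rw [this]; abel
  rw [e5]
  calc ‖G ⟨a - 1, (c + d) / 2⟩ + (G ⟨a - 1, τ.im⟩ - G ⟨a - 1, (c + d) / 2⟩)
      - (G ⟨a - 1, τ.im⟩ - G ⟨τ.re, τ.im⟩)‖
      ≤ ‖G ⟨a - 1, (c + d) / 2⟩ + (G ⟨a - 1, τ.im⟩ - G ⟨a - 1, (c + d) / 2⟩)‖
        + ‖G ⟨a - 1, τ.im⟩ - G ⟨τ.re, τ.im⟩‖ := norm_sub_le _ _
    _ ≤ ‖G ⟨a - 1, (c + d) / 2⟩‖ + ‖G ⟨a - 1, τ.im⟩ - G ⟨a - 1, (c + d) / 2⟩‖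
        + ‖G ⟨a - 1, τ.im⟩ - G ⟨τ.re, τ.im⟩‖ := by
        gcongr
        exact norm_add_le _ _
    _ ≤ _ := by linarith

end ItemLHSB

theorem prf_L_HSB : L_HSB := by
  intro a c d δ C hδ hcd f f' h
  exact ItemLHSB.bounded hδ hcd h

end Pool.Agent.MSU

end

section

/-! Item L_K: `Wᴴ H + H W` is bounded near the punctures. -/

open Matrix Polynomial Filter Topology
open scoped ComplexConjugate ComplexOrder

namespace Pool.Agent.MSU.ItemLK

variable {r : ℕ}

theorem skew (H φ : Matrix (Fin r) (Fin r) ℂ) (D : Fin r → ℂ) (hH : H.IsHermitian)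
    (hφ : IsUnit φ.det) (hD : ∀ i, (D i).re = 0)
    (hoff : ∀ i j, i ≠ j → ((φ⁻¹)ᴴ * H * φ⁻¹) i j = 0) :
    (φ⁻¹ * diagonal D * φ)ᴴ * H = -(H * (φ⁻¹ * diagonal D * φ)) := by
  set h' : Matrix (Fin r) (Fin r) ℂ := (φ⁻¹)ᴴ * H * φ⁻¹ with hh'
  have hdiag : h' = diagonal fun i => h' i i := by
    ext i j
    by_cases hij : i = j
    · subst hij; simp
    · rw [hoff i j hij, diagonal_apply_ne _ hij]
  have h1 : φ⁻¹ * φ = 1 := nonsing_inv_mul _ hφ
  have h1' : φᴴ * (φ⁻¹)ᴴ = 1 := by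
    rw [← conjTranspose_mul, h1, conjTranspose_one]
  have hHeq : H = φᴴ * h' * φ := by
    rw [hh']
    calc H = 1 * H * 1 := by simp
      _ = (φᴴ * (φ⁻¹)ᴴ) * H * (φ⁻¹ * φ) := by rw [h1, h1']
      _ = φᴴ * ((φ⁻¹)ᴴ * H * φ⁻¹) * φ := by simp only [Matrix.mul_assoc]
  have hDH : (diagonal D)ᴴ = -diagonal D := by
    rw [diagonal_conjTranspose]
    ext i j
    by_cases hij : i = j
    · subst hij
      simp only [diagonal_apply_eq, Matrix.neg_apply]
      apply Complex.ext <;> simp [hD i]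
    · simp [diagonal_apply_ne _ hij]
  have hcomm : (diagonal D)ᴴ * h' = -(h' * diagonal D) := by
    rw [hDH, Matrix.neg_mul]
    congr 1
    rw [hdiag, diagonal_mul_diagonal, diagonal_mul_diagonal]
    congr 1
    ext i
    exact mul_comm _ _
  have h2 : φ * φ⁻¹ = 1 := mul_nonsing_inv _ hφ
  have h2' : (φ⁻¹)ᴴ * φᴴ = 1 := by
    rw [← conjTranspose_mul, h2, conjTranspose_one]
  have e1 : (φ⁻¹ * diagonal D * φ)ᴴ * H = φᴴ * ((diagonal D)ᴴ * h') * φ := by
    conv_lhs => rw [hHeq]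
    rw [conjTranspose_mul, conjTranspose_mul]
    calc φᴴ * ((diagonal D)ᴴ * (φ⁻¹)ᴴ) * (φᴴ * h' * φ)
        = φᴴ * (diagonal D)ᴴ * ((φ⁻¹)ᴴ * φᴴ) * h' * φ := by simp only [Matrix.mul_assoc]
      _ = φᴴ * ((diagonal D)ᴴ * h') * φ := by
          rw [h2', Matrix.mul_one]; simp only [Matrix.mul_assoc]
  have e2 : H * (φ⁻¹ * diagonal D * φ) = φᴴ * (h' * diagonal D) * φ := by
    conv_lhs => rw [hHeq]
    calc φᴴ * h' * φ * (φ⁻¹ * diagonal D * φ)
        = φᴴ * h' * (φ * φ⁻¹) * diagonal D * φ := by simp only [Matrix.mul_assoc]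
      _ = φᴴ * (h' * diagonal D) * φ := by
          rw [h2, Matrix.mul_one]; simp only [Matrix.mul_assoc]
  rw [e1, e2, hcomm, Matrix.mul_neg, Matrix.neg_mul]

/-- the constant -/
noncomputable def K0 (H M : Matrix (Fin r) (Fin r) ℂ) (C : ℝ) : ℝ :=
  ∑ i, ∑ j, (4 * Real.pi * ‖(H * M) i j‖ + (∑ k, C * ‖H k j‖ + ∑ k, ‖H i k‖ * C))

theorem bound (H M W : Matrix (Fin r) (Fin r) ℂ) (C : ℝ) (hC : 0 ≤ C) (τ : ℂ)
    (hτ : |τ.im| ≤ 2 * Real.pi) (hM : Mᴴ * H = -(H * M))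
    (hW : ∀ i j, ‖(W - τ • M) i j‖ ≤ C) (i j : Fin r) :
    ‖(Wᴴ * H + H * W) i j‖ ≤ K0 H M C := by
  have hpi := Real.pi_pos
  set E : Matrix (Fin r) (Fin r) ℂ := W - τ • M with hE
  have hWE : W = τ • M + E := by rw [hE]; abel
  have e : Wᴴ * H + H * W = (τ - conj τ) • (H * M) + (Eᴴ * H + H * E) := by
    rw [hWE, conjTranspose_add, conjTranspose_smul, Matrix.add_mul, Matrix.mul_add,
      Matrix.smul_mul, hM, Matrix.mul_smul, sub_smul, smul_neg]
    simp only [RCLike.star_def]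
    abel
  have hE1 : ‖(Eᴴ * H) i j‖ ≤ ∑ k, C * ‖H k j‖ := by
    rw [Matrix.mul_apply]
    refine norm_sum_le_of_le _ fun k _ => ?_
    rw [norm_mul, conjTranspose_apply, norm_star]
    exact mul_le_mul_of_nonneg_right (hW k i) (norm_nonneg _)
  have hE2 : ‖(H * E) i j‖ ≤ ∑ k, ‖H i k‖ * C := by
    rw [Matrix.mul_apply]
    refine norm_sum_le_of_le _ fun k _ => ?_
    rw [norm_mul]
    exact mul_le_mul_of_nonneg_left (hW k j) (norm_nonneg _)
  have h3 : ‖τ - conj τ‖ ≤ 4 * Real.pi := by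
    rw [Complex.sub_conj, norm_mul, Complex.norm_I, mul_one, Complex.norm_real, Real.norm_eq_abs,
      abs_mul]
    have : |(2 : ℝ)| = 2 := by norm_num
    rw [this]
    linarith
  have h4 : ‖(Wᴴ * H + H * W) i j‖
      ≤ 4 * Real.pi * ‖(H * M) i j‖ + (∑ k, C * ‖H k j‖ + ∑ k, ‖H i k‖ * C) := by
    rw [e]
    simp only [Matrix.add_apply, Matrix.smul_apply, smul_eq_mul]
    refine (norm_add_le _ _).trans (add_le_add ?_ ((norm_add_le _ _).trans (add_le_add hE1 hE2)))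
    rw [norm_mul]
    exact mul_le_mul_of_nonneg_right h3 (norm_nonneg _)
  have hnn : ∀ a b, 0 ≤ 4 * Real.pi * ‖(H * M) a b‖ + (∑ k, C * ‖H k b‖ + ∑ k, ‖H a k‖ * C) := by
    intro a b
    have h5 : 0 ≤ ∑ k, C * ‖H k b‖ := Finset.sum_nonneg fun k _ => mul_nonneg hC (norm_nonneg _)
    have h6 : 0 ≤ ∑ k, ‖H a k‖ * C := Finset.sum_nonneg fun k _ => mul_nonneg (norm_nonneg _) hC
    positivity
  refine h4.trans ?_
  have h7 := Finset.single_le_sum (f := fun b => 4 * Real.pi * ‖(H * M) i b‖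
    + (∑ k, C * ‖H k b‖ + ∑ k, ‖H i k‖ * C)) (fun b _ => hnn i b) (Finset.mem_univ j)
  have h8 := Finset.single_le_sum (f := fun a => ∑ b, (4 * Real.pi * ‖(H * M) a b‖
    + (∑ k, C * ‖H k b‖ + ∑ k, ‖H a k‖ * C))) (fun a _ => Finset.sum_nonneg fun b _ => hnn a b)
    (Finset.mem_univ i)
  exact h7.trans h8

end Pool.Agent.MSU.ItemLK

namespace Pool.Agent.MSU

open ItemLK

theorem prf_L_K (hI : S_Inv) (hNF : L_NF) (hMon : L_Mon) (hDiag : L_Diag) (hLW : L_W) : L_K := by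
  intro r γ w B Bd H Hm x hG hWin hLD hUN hBd0 hBdt hBdre Wa Wb hWa hWb
  obtain ⟨φ, hφ⟩ := hNF r γ w B hG hWin hLD x
  have hφu : IsUnit φ.det := hφ.1
  obtain ⟨hHpos, -, hPP⟩ := hUN
  have hmon := hMon r γ B x φ hG hφ
  have hu : ∀ j, IsUnit (PP B j).det := fun j => hI (Fin r) B j _ (negI_mem j)
  have hQ : ((PP B x)⁻¹ * PP B (x + 1))ᴴ * H * ((PP B x)⁻¹ * PP B (x + 1)) = H := by
    have e1 : ((PP B x)⁻¹)ᴴ * H * (PP B x)⁻¹ = Hm := by
      have h2 : PP B x * (PP B x)⁻¹ = 1 := mul_nonsing_inv _ (hu x)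
      have h2' : ((PP B x)⁻¹)ᴴ * (PP B x)ᴴ = 1 := by
        rw [← conjTranspose_mul, h2, conjTranspose_one]
      calc ((PP B x)⁻¹)ᴴ * H * (PP B x)⁻¹
          = ((PP B x)⁻¹)ᴴ * ((PP B x)ᴴ * Hm * PP B x) * (PP B x)⁻¹ := by rw [hPP x]
        _ = (((PP B x)⁻¹)ᴴ * (PP B x)ᴴ) * Hm * (PP B x * (PP B x)⁻¹) := by
            simp only [Matrix.mul_assoc]
        _ = Hm := by rw [h2, h2', Matrix.one_mul, Matrix.mul_one]
    calc ((PP B x)⁻¹ * PP B (x + 1))ᴴ * H * ((PP B x)⁻¹ * PP B (x + 1))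
        = (PP B (x + 1))ᴴ * (((PP B x)⁻¹)ᴴ * H * (PP B x)⁻¹) * PP B (x + 1) := by
          rw [conjTranspose_mul]; simp only [Matrix.mul_assoc]
      _ = H := by rw [e1, hPP (x + 1)]
  have hre : ∀ a, (Rs γ B x a a).re = w x a := fun a => (hLD.2 x).2 a
  have hsep : ∀ i j, i ≠ j → (Rs γ B x i i).re ≠ (Rs γ B x j j).re ∧
      |(Rs γ B x i i).re - (Rs γ B x j j).re| < 1 := by
    intro i j hij
    rw [hre, hre]
    refine ⟨fun h => hij ((hWin.1 x).injective h), ?_⟩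
    rw [abs_lt]
    have h1 := hWin.2 x i j
    have h2 := hWin.2 x j i
    constructor <;> linarith
  obtain ⟨-, hoff⟩ := hDiag r H ((PP B x)⁻¹ * PP B (x + 1)) φ (fun i => Rs γ B x i i) hHpos hQ hφu
    hmon hsep
  set D : Fin r → ℂ := fun i => Rs γ Bd x i i with hD
  have hskew := skew H φ D hHpos.isHermitian hφu (fun i => hBdre i) hoff
  set M : Matrix (Fin r) (Fin r) ℂ := φ⁻¹ * diagonal D * φ with hM
  obtain ⟨C, a, hCa⟩ := hLW r γ w B Bd x φ hG hWin hLD hBd0 hBdt hφ Wa Wb hWa hWb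
  refine ⟨K0 H M |C|, min (1 / 2) (Real.exp a), lt_min (by norm_num) (Real.exp_pos a),
    min_le_left _ _, fun ζ hζ i j => ?_⟩
  have hζa : ‖ζ‖ < Real.exp a := hζ.trans_le (min_le_right _ _)
  have hpi := Real.pi_pos
  constructor
  · intro hS
    have hne : ζ ≠ 0 := Sa_ne hS
    have hslit : -ζ ∈ Complex.slitPlane := by
      rcases hS with h | h
      · exact Complex.mem_slitPlane_iff.2 (Or.inr (by simpa using h))
      · exact Complex.mem_slitPlane_iff.2 (Or.inl (by simpa using h))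
    set τ : ℂ := Complex.log (-ζ) + Real.pi * Complex.I with hτ
    have hexp : Complex.exp τ = ζ := by
      rw [hτ, Complex.exp_add, Complex.exp_log (neg_ne_zero.2 hne), Complex.exp_pi_mul_I]
      ring
    have him : τ.im = Complex.arg (-ζ) + Real.pi := by
      rw [hτ]; simp [Complex.log_im]
    have hre' : τ.re = Real.log ‖ζ‖ := by
      rw [hτ]; simp [Complex.log_re]
    have harg1 := Complex.neg_pi_lt_arg (-ζ)
    have harg2 : Complex.arg (-ζ) < Real.pi :=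
      lt_of_le_of_ne (Complex.arg_le_pi _) (Complex.mem_slitPlane_iff_arg.1 hslit).1
    have hτre : τ.re < a := by
      rw [hre', Real.log_lt_iff_lt_exp (norm_pos_iff.2 hne)]
      exact hζa
    have hb : ∀ i j, ‖(Wa (cz x ζ) - τ • M) i j‖ ≤ |C| := by
      intro i j
      have := (hCa τ hτre i j).1 (by rw [him]; linarith) (by rw [him]; linarith)
      rw [hexp] at this
      exact this.trans (le_abs_self C)
    exact bound H M (Wa (cz x ζ)) |C| (abs_nonneg C) τ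
      (by rw [him, abs_le]; constructor <;> linarith) hskew hb i j
  · intro hS
    have hne : ζ ≠ 0 := Sb_ne hS
    have hslit : ζ ∈ Complex.slitPlane := by
      rcases hS with h | h
      · exact Complex.mem_slitPlane_iff.2 (Or.inr h)
      · exact Complex.mem_slitPlane_iff.2 (Or.inl h)
    set τ : ℂ := Complex.log ζ with hτ
    have hexp : Complex.exp τ = ζ := Complex.exp_log hne
    have him : τ.im = Complex.arg ζ := Complex.log_im ζ
    have hre' : τ.re = Real.log ‖ζ‖ := Complex.log_re ζ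
    have harg1 := Complex.neg_pi_lt_arg ζ
    have harg2 : Complex.arg ζ < Real.pi :=
      lt_of_le_of_ne (Complex.arg_le_pi _) (Complex.mem_slitPlane_iff_arg.1 hslit).1
    have hτre : τ.re < a := by
      rw [hre', Real.log_lt_iff_lt_exp (norm_pos_iff.2 hne)]
      exact hζa
    have hb : ∀ i j, ‖(Wb (cz x ζ) - τ • M) i j‖ ≤ |C| := by
      intro i j
      have := (hCa τ hτre i j).2 (by rw [him]; linarith) (by rw [him]; linarith)
      rw [hexp] at this
      exact this.trans (le_abs_self C)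
    exact bound H M (Wb (cz x ζ)) |C| (abs_nonneg C) τ
      (by rw [him, abs_le]; constructor <;> linarith) hskew hb i j

end Pool.Agent.MSU

end

section

/-! L_Mon: local monodromy in terms of the connection matrix. -/

open Matrix Polynomial Filter Topology
open scoped ComplexConjugate ComplexOrder

namespace Pool.Agent.MSU

namespace ItemLMon

/-- a sequence of points going to `-∞` on the line `Im τ = -π/2` -/
noncomputable def tn (n : ℕ) : ℂ := ⟨-(n : ℝ), -(Real.pi / 2)⟩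

lemma exp_tn_im (n : ℕ) : (Complex.exp (tn n)).im < 0 := by
  rw [Complex.exp_im]
  simp only [tn]
  rw [Real.sin_neg, Real.sin_pi_div_two]
  have := Real.exp_pos (-(n : ℝ))
  linarith

lemma tendsto_aux {f : ℕ → ℂ} {c : ℂ} {δ C a : ℝ} (hδ : 0 < δ)
    (h : ∀ n : ℕ, -(n : ℝ) < a → ‖f n - c‖ ≤ C * Real.exp (δ * (-(n : ℝ)))) :
    Tendsto f atTop (𝓝 c) := by
  rw [tendsto_iff_norm_sub_tendsto_zero]
  have h1 : Tendsto (fun n : ℕ => C * Real.exp (δ * (-(n : ℝ)))) atTop (𝓝 0) := by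
    have h2 : Tendsto (fun n : ℕ => δ * (-(n : ℝ))) atTop atBot := by
      apply Tendsto.const_mul_atBot hδ
      exact tendsto_neg_atTop_atBot.comp tendsto_natCast_atTop_atTop
    have h3 := (Real.tendsto_exp_atBot.comp h2).const_mul C
    rw [mul_zero] at h3
    exact h3
  apply squeeze_zero' (Eventually.of_forall fun n => norm_nonneg _) _ h1
  have h4 : ∀ᶠ n : ℕ in atTop, -(n : ℝ) < a := by
    have h5 : Tendsto (fun n : ℕ => -(n : ℝ)) atTop atBot :=
      tendsto_neg_atTop_atBot.comp tendsto_natCast_atTop_atTop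
    exact h5.eventually (eventually_lt_atBot a)
  exact h4.mono fun n hn => h n hn

end ItemLMon

open ItemLMon in
theorem prf_L_Mon (hG : S_Glue) : L_Mon := by
  rintro r γ B x φ - ⟨-, δ, C, a, hδ, hb⟩
  set Q := (PP B x)⁻¹ * PP B (x + 1) with hQ
  have hpi := Real.pi_pos
  have hu : ∀ i j, Tendsto (fun n : ℕ => Complex.exp (-(tn n) * Rs γ B x i i) *
      ((γ x * YY B (x + 1) (cz x (Complex.exp (tn n)))) i j)) atTop (𝓝 (φ i j)) := by
    intro i j
    apply tendsto_aux (δ := δ) (C := C) (a := a) hδ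
    intro n hn
    have h1 := (hb (tn n) hn i j).2
    refine h1 ?_ ?_
    · show -Real.pi < -(Real.pi / 2)
      linarith
    · show -(Real.pi / 2) < Real.pi
      linarith
  have hexp : ∀ n, Complex.exp (tn n + 2 * Real.pi * Complex.I) = Complex.exp (tn n) := by
    intro n
    rw [Complex.exp_add, Complex.exp_two_pi_mul_I, mul_one]
  have hv : ∀ i j, Tendsto (fun n : ℕ =>
      Complex.exp (-(tn n + 2 * Real.pi * Complex.I) * Rs γ B x i i) *
      ((γ x * YY B x (cz x (Complex.exp (tn n)))) i j)) atTop (𝓝 (φ i j)) := by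
    intro i j
    apply tendsto_aux (δ := δ) (C := C) (a := a) hδ
    intro n hn
    have hre : (tn n + 2 * Real.pi * Complex.I).re = -(n : ℝ) := by
      simp [tn]
    have him : (tn n + 2 * Real.pi * Complex.I).im = 3 * Real.pi / 2 := by
      simp [tn]
      ring
    have h1 := (hb (tn n + 2 * Real.pi * Complex.I) (by rw [hre]; exact hn) i j).1
    rw [him, hexp, hre] at h1
    exact h1 (by positivity) (by linarith)
  have key : ∀ i j n, Complex.exp (-(tn n) * Rs γ B x i i) *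
      ((γ x * YY B (x + 1) (cz x (Complex.exp (tn n)))) i j)
      = Complex.exp (2 * Real.pi * Complex.I * Rs γ B x i i) *
        ∑ k, (Complex.exp (-(tn n + 2 * Real.pi * Complex.I) * Rs γ B x i i) *
          ((γ x * YY B x (cz x (Complex.exp (tn n)))) i k)) * Q k j := by
    intro i j n
    have h1 : YY B (x + 1) (cz x (Complex.exp (tn n))) = YY B x (cz x (Complex.exp (tn n))) * Q :=
      (hG (Fin r) B x (x + 1)).2 _ (cz_im_neg x (exp_tn_im n))
    rw [h1, ← Matrix.mul_assoc, Matrix.mul_apply (M := γ x * YY B x (cz x (Complex.exp (tn n)))),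
      Finset.mul_sum, Finset.mul_sum]
    apply Finset.sum_congr rfl
    intro k _
    have h2 : Complex.exp (-(tn n) * Rs γ B x i i)
        = Complex.exp (2 * Real.pi * Complex.I * Rs γ B x i i)
          * Complex.exp (-(tn n + 2 * Real.pi * Complex.I) * Rs γ B x i i) := by
      rw [← Complex.exp_add]
      congr 1
      ring
    rw [h2]
    ring
  ext i j
  rw [diagonal_mul, Matrix.mul_apply]
  have hlim : Tendsto (fun n : ℕ => Complex.exp (-(tn n) * Rs γ B x i i) *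
      ((γ x * YY B (x + 1) (cz x (Complex.exp (tn n)))) i j)) atTop
      (𝓝 (Complex.exp (2 * Real.pi * Complex.I * Rs γ B x i i) * ∑ k, φ i k * Q k j)) := by
    simp_rw [key i j]
    apply Tendsto.const_mul
    apply tendsto_finsetSum
    intro k _
    exact (hv i k).mul_const _
  have heq := tendsto_nhds_unique (hu i j) hlim
  rw [heq, ← mul_assoc, ← Complex.exp_add, neg_add_cancel, Complex.exp_zero, one_mul]

end Pool.Agent.MSU

end

section

/-! Item L_NF: local normal form at a puncture. -/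

open Matrix Filter Topology Set

namespace Pool.Agent.MSU

namespace ItemLNF

theorem norm_exp_lt {τ : ℂ} (h : τ.re < -1) : ‖Complex.exp τ‖ < 1 / 2 := by
  rw [Complex.norm_exp]
  have h1 : Real.exp τ.re < Real.exp (-1) := Real.exp_lt_exp.2 h
  have h2 : Real.exp (-1) < 1 / 2 := by
    rw [Real.exp_neg, inv_eq_one_div]
    apply one_div_lt_one_div_of_lt (by norm_num)
    linarith [Real.exp_one_gt_d9]
  linarith

theorem exp_mem_Sa {τ : ℂ} (h1 : 0 < τ.im) (h2 : τ.im < 2 * Real.pi) : Complex.exp τ ∈ Sa := by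
  unfold Sa
  rw [Set.mem_ofPred_eq, Complex.exp_im, Complex.exp_re]
  have he := Real.exp_pos τ.re
  rcases lt_trichotomy τ.im Real.pi with h | h | h
  · left
    exact (mul_pos he (Real.sin_pos_of_pos_of_lt_pi h1 h)).ne'
  · right
    rw [h, Real.cos_pi]
    linarith
  · left
    apply ne_of_lt
    apply mul_neg_of_pos_of_neg he
    have : Real.sin τ.im = -Real.sin (τ.im - Real.pi) := by rw [Real.sin_sub_pi]; ring
    rw [this]
    have := Real.sin_pos_of_pos_of_lt_pi (x := τ.im - Real.pi) (by linarith) (by linarith)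
    linarith

theorem exp_mem_Sb {τ : ℂ} (h1 : -Real.pi < τ.im) (h2 : τ.im < Real.pi) :
    Complex.exp τ ∈ Sb := by
  unfold Sb
  rw [Set.mem_ofPred_eq, Complex.exp_im, Complex.exp_re]
  have he := Real.exp_pos τ.re
  rcases lt_trichotomy τ.im 0 with h | h | h
  · left
    apply ne_of_lt
    apply mul_neg_of_pos_of_neg he
    exact Real.sin_neg_of_neg_of_neg_pi_lt h h1
  · right
    rw [h, Real.cos_zero]
    linarith
  · left
    exact (mul_pos he (Real.sin_pos_of_pos_of_lt_pi h h2)).ne'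

theorem exp_im_pos {τ : ℂ} (h1 : 0 < τ.im) (h2 : τ.im < Real.pi) : 0 < (Complex.exp τ).im := by
  rw [Complex.exp_im]
  exact mul_pos (Real.exp_pos _) (Real.sin_pos_of_pos_of_lt_pi h1 h2)

/-- chain rule in the coordinate `τ` -/
theorem chain (x : Fin 3) {F : ℂ → ℂ} {F' τ : ℂ}
    (h : HasDerivAt F F' (cz x (Complex.exp τ))) :
    HasDerivAt (fun t => F (cz x (Complex.exp t)))
      (F' * ((if x = 2 then ((Complex.exp τ) ^ 2)⁻¹ else 1) * Complex.exp τ)) τ := by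
  have h1 := (cz_hasDerivAt x (Complex.exp_ne_zero τ)).comp τ (Complex.hasDerivAt_exp τ)
  exact h.comp τ h1

/-- the system in the coordinate `τ` -/
theorem chain_AB {ι : Type} [Fintype ι] [DecidableEq ι] {B : Fin 3 → Matrix ι ι ℂ}
    (hB : B 0 + B 1 + B 2 = 0) (x : Fin 3) {τ : ℂ} (hτ : τ.re < -1) :
    ((if x = 2 then ((Complex.exp τ) ^ 2)⁻¹ else 1) * Complex.exp τ : ℂ) •
      AB B (cz x (Complex.exp τ)) = B x + Complex.exp τ • RR B x (Complex.exp τ) := by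
  have hz := Complex.exp_ne_zero τ
  have h1 := AB_chart B hB x hz (lt_trans (norm_exp_lt hτ) (by norm_num))
  rw [mul_comm, mul_smul, h1, smul_add, smul_smul, mul_inv_cancel₀ hz, one_smul]

theorem norm_inv_le {ζ : ℂ} (h : ‖ζ‖ < 1 / 2) : ‖(ζ - 1)⁻¹‖ ≤ 2 ∧ ‖(1 + ζ)⁻¹‖ ≤ 2 := by
  constructor
  · rw [norm_inv]
    have h1 : 1 / 2 ≤ ‖ζ - 1‖ := by
      have := norm_sub_norm_le (1 : ℂ) ζ
      rw [norm_one, norm_sub_rev] at this
      linarith
    rw [inv_le_comm₀ (by linarith) (by norm_num)]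
    linarith
  · rw [norm_inv]
    have h1 : 1 / 2 ≤ ‖1 + ζ‖ := by
      have := norm_sub_norm_le (1 : ℂ) (-ζ)
      rw [norm_one, norm_neg, sub_neg_eq_add] at this
      linarith
    rw [inv_le_comm₀ (by linarith) (by norm_num)]
    linarith

theorem RR_bound {ι : Type} (B : Fin 3 → Matrix ι ι ℂ) (x : Fin 3) {ζ : ℂ} (h : ‖ζ‖ < 1 / 2)
    (i j : ι) : ‖RR B x ζ i j‖ ≤ 2 * (‖B 0 i j‖ + ‖B 1 i j‖) := by
  obtain ⟨h1, h2⟩ := norm_inv_le h
  have n0 := norm_nonneg (B 0 i j)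
  have n1 := norm_nonneg (B 1 i j)
  unfold RR
  split_ifs
  · rw [Matrix.smul_apply, norm_smul]
    nlinarith
  · rw [Matrix.smul_apply, norm_smul]
    nlinarith
  · rw [Matrix.smul_apply, norm_smul]
    nlinarith

/-- conjugated regular part is bounded -/
theorem R_bound {r : ℕ} (g g' : Matrix (Fin r) (Fin r) ℂ) (B : Fin 3 → Matrix (Fin r) (Fin r) ℂ)
    (x : Fin 3) : ∃ C : ℝ, 0 ≤ C ∧ ∀ ζ : ℂ, ‖ζ‖ < 1 / 2 → ∀ i k,
      ‖(g * RR B x ζ * g') i k‖ ≤ C := by
  set c : Fin r → Fin r → ℝ := fun i k => ∑ b, (∑ a, ‖g i a‖ * (2 * (‖B 0 a b‖ + ‖B 1 a b‖)))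
    * ‖g' b k‖ with hc
  have hc0 : ∀ i k, 0 ≤ c i k := by
    intro i k
    rw [hc]
    positivity
  refine ⟨∑ i, ∑ k, c i k, Finset.sum_nonneg fun i _ => Finset.sum_nonneg fun k _ => hc0 i k, ?_⟩
  intro ζ hζ i k
  have h1 : ‖(g * RR B x ζ * g') i k‖ ≤ c i k := by
    rw [Matrix.mul_apply]
    refine (norm_sum_le _ _).trans (Finset.sum_le_sum fun b _ => ?_)
    rw [norm_mul, Matrix.mul_apply]
    refine mul_le_mul_of_nonneg_right ?_ (norm_nonneg _)
    refine (norm_sum_le _ _).trans (Finset.sum_le_sum fun a _ => ?_)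
    rw [norm_mul]
    exact mul_le_mul_of_nonneg_left (RR_bound B x hζ a b) (norm_nonneg _)
  have h2 : c i k ≤ ∑ k, c i k :=
    Finset.single_le_sum (f := fun k => c i k) (fun k _ => hc0 i k) (Finset.mem_univ k)
  have h3 : ∑ k, c i k ≤ ∑ i, ∑ k, c i k :=
    Finset.single_le_sum (f := fun i => ∑ k, c i k)
      (fun i _ => Finset.sum_nonneg fun k _ => hc0 i k) (Finset.mem_univ i)
  exact h1.trans (h2.trans h3)

/-- exponent gap -/
theorem gap {r : ℕ} (w : Fin r → ℝ) (h1 : StrictMono w) (h2 : ∀ i j, w j - w i < 1) :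
    ∃ δ : ℝ, 0 < δ ∧ (∀ i k, i < k → δ ≤ w k - w i) ∧ ∀ i k, δ ≤ 1 + (w k - w i) := by
  rcases Nat.eq_zero_or_pos r with rfl | hr
  · exact ⟨1, one_pos, fun i => i.elim0, fun i => i.elim0⟩
  · have : Nonempty (Fin r) := ⟨⟨0, hr⟩⟩
    set f : Fin r × Fin r → ℝ := fun p => if p.1 < p.2 then w p.2 - w p.1 else
      1 + (w p.2 - w p.1) with hf
    have hpos : ∀ p, 0 < f p := by
      intro p
      rw [hf]
      simp only
      split_ifs with h
      · linarith [h1 h]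
      · linarith [h2 p.2 p.1]
    obtain ⟨p, -, hp⟩ := Finset.exists_min_image Finset.univ f Finset.univ_nonempty
    refine ⟨f p, hpos p, ?_, ?_⟩
    · intro i k hik
      have := hp (i, k) (Finset.mem_univ _)
      rw [show f (i, k) = w k - w i from if_pos hik] at this
      exact this
    · intro i k
      have := hp (i, k) (Finset.mem_univ _)
      by_cases hik : i < k
      · rw [show f (i, k) = w k - w i from if_pos hik] at this
        linarith
      · rw [show f (i, k) = 1 + (w k - w i) from if_neg hik] at this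
        exact this

/-- size of the conjugation by `exp (τ D)` -/
theorem E_bound {r : ℕ} (D : Fin r → ℂ) : ∃ C : ℝ, 0 < C ∧ ∀ τ : ℂ, |τ.im| ≤ 2 * Real.pi →
    ∀ i k, ‖Complex.exp (τ * (D k - D i))‖ ≤ C * Real.exp (τ.re * ((D k).re - (D i).re)) := by
  refine ⟨Real.exp (2 * Real.pi * (2 * ∑ i, |(D i).im|)), Real.exp_pos _, ?_⟩
  intro τ hτ i k
  rw [Complex.norm_exp, ← Real.exp_add, Real.exp_le_exp, Complex.mul_re, Complex.sub_re,
    Complex.sub_im]
  have h1 : |(D k).im| ≤ ∑ i, |(D i).im| :=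
    Finset.single_le_sum (f := fun i => |(D i).im|) (fun i _ => abs_nonneg _) (Finset.mem_univ k)
  have h2 : |(D i).im| ≤ ∑ i, |(D i).im| :=
    Finset.single_le_sum (f := fun i => |(D i).im|) (fun i _ => abs_nonneg _) (Finset.mem_univ i)
  have h3 : |τ.im * ((D k).im - (D i).im)| ≤ 2 * Real.pi * (2 * ∑ i, |(D i).im|) := by
    rw [abs_mul]
    apply mul_le_mul hτ _ (abs_nonneg _) (by positivity)
    have := abs_sub (D k).im (D i).im
    linarith
  have h4 := neg_abs_le (τ.im * ((D k).im - (D i).im))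
  linarith

/-- derivative of `γ Y` in the coordinate `τ` -/
theorem gY_deriv {r : ℕ} {g : Matrix (Fin r) (Fin r) ℂ} {B : Fin 3 → Matrix (Fin r) (Fin r) ℂ}
    (hB : B 0 + B 1 + B 2 = 0) (hg : IsUnit g.det) (x : Fin 3) {Y : ℂ → Matrix (Fin r) (Fin r) ℂ}
    {τ : ℂ} (hτ : τ.re < -1)
    (hY : ∀ a b, HasDerivAt (fun s => Y s a b)
      ((AB B (cz x (Complex.exp τ)) * Y (cz x (Complex.exp τ))) a b) (cz x (Complex.exp τ)))
    (i j : Fin r) :
    HasDerivAt (fun t => (g * Y (cz x (Complex.exp t))) i j)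
      (((g * B x * g⁻¹ + Complex.exp τ • (g * RR B x (Complex.exp τ) * g⁻¹)) *
        (g * Y (cz x (Complex.exp τ)))) i j) τ := by
  set z := cz x (Complex.exp τ) with hz
  set e : ℂ := (if x = 2 then ((Complex.exp τ) ^ 2)⁻¹ else 1) * Complex.exp τ with he
  have h1 : HasDerivAt (fun t => ∑ k, g i k * Y (cz x (Complex.exp t)) k j)
      (∑ k, g i k * ((AB B z * Y z) k j * e)) τ := by
    apply HasDerivAt.fun_sum
    intro k _
    exact (chain x (hY k j)).const_mul (g i k)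
  have h2 : (fun t => (g * Y (cz x (Complex.exp t))) i j) =
      fun t => ∑ k, g i k * Y (cz x (Complex.exp t)) k j := by
    funext t
    rw [Matrix.mul_apply]
  rw [h2]
  have h3 : (g * B x * g⁻¹ + Complex.exp τ • (g * RR B x (Complex.exp τ) * g⁻¹)) * (g * Y z)
      = g * (e • (AB B z * Y z)) := by
    have e1 : g * B x * g⁻¹ + Complex.exp τ • (g * RR B x (Complex.exp τ) * g⁻¹)
        = g * (e • AB B z) * g⁻¹ := by
      rw [he, hz, chain_AB hB x hτ, Matrix.mul_add, Matrix.add_mul]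
      congr 1
      rw [Matrix.mul_smul, Matrix.smul_mul]
    rw [e1, Matrix.mul_assoc, ← Matrix.mul_assoc g⁻¹, Matrix.nonsing_inv_mul _ hg, Matrix.one_mul,
      Matrix.mul_assoc, Matrix.smul_mul]
  rw [h3, Matrix.mul_apply]
  have h4 : ∑ k, g i k * (e • (AB B z * Y z)) k j = ∑ k, g i k * ((AB B z * Y z) k j * e) := by
    apply Finset.sum_congr rfl
    intro k _
    rw [Matrix.smul_apply, smul_eq_mul, mul_comm e]
  rw [h4]
  exact h1

/-- the local solution on one strip converges -/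
theorem strip (hHS : L_HS) {r : ℕ} {γ B : Fin 3 → Matrix (Fin r) (Fin r) ℂ}
    {w : Fin 3 → Fin r → ℝ} (hγ : GU γ) (hw : Win w) (hLD : LD γ w B) (x : Fin 3) :
    ∃ δ : ℝ, 0 < δ ∧ ∀ (Y : ℂ → Matrix (Fin r) (Fin r) ℂ) (c d : ℝ), c < d → -(2 * Real.pi) ≤ c →
      d ≤ 2 * Real.pi →
      (∀ τ : ℂ, τ.re < -1 → c < τ.im → τ.im < d →
        (∀ a b, HasDerivAt (fun s => Y s a b)
          ((AB B (cz x (Complex.exp τ)) * Y (cz x (Complex.exp τ))) a b)
          (cz x (Complex.exp τ))) ∧ IsUnit (Y (cz x (Complex.exp τ))).det) →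
      ∃ (φ : Matrix (Fin r) (Fin r) ℂ) (C' : ℝ), IsUnit φ.det ∧
        ∀ τ : ℂ, τ.re < -2 → c < τ.im → τ.im < d → ∀ i j,
          ‖Complex.exp (-τ * Rs γ B x i i) * ((γ x * Y (cz x (Complex.exp τ))) i j) - φ i j‖
            ≤ C' * Real.exp (δ * τ.re) := by
  obtain ⟨hB, hL⟩ := hLD
  obtain ⟨hU, hre⟩ := hL x
  obtain ⟨δ, hδ, hδ1, hδ2⟩ := gap (w x) (hw.1 x) (hw.2 x)
  obtain ⟨CR, hCR0, hCR⟩ := R_bound (γ x) (γ x)⁻¹ B x
  obtain ⟨CE, hCE0, hCE⟩ := E_bound (fun i => Rs γ B x i i)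
  refine ⟨δ, hδ, ?_⟩
  intro Y c d hcd hc hd hY
  set D : Fin r → ℂ := fun i => Rs γ B x i i with hD
  set CU : ℝ := ∑ i, ∑ k, ‖Rs γ B x i k‖ with hCU
  have hCUb : ∀ i k, ‖Rs γ B x i k‖ ≤ CU := by
    intro i k
    have h2 : ‖Rs γ B x i k‖ ≤ ∑ k, ‖Rs γ B x i k‖ :=
      Finset.single_le_sum (f := fun k => ‖Rs γ B x i k‖) (fun k _ => norm_nonneg _)
        (Finset.mem_univ k)
    have h3 : ∑ k, ‖Rs γ B x i k‖ ≤ CU :=
      Finset.single_le_sum (f := fun i => ∑ k, ‖Rs γ B x i k‖)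
        (fun i _ => Finset.sum_nonneg fun k _ => norm_nonneg _) (Finset.mem_univ i)
    exact h2.trans h3
  have hCU0 : 0 ≤ CU := Finset.sum_nonneg fun i _ => Finset.sum_nonneg fun k _ => norm_nonneg _
  set R' : ℂ → Matrix (Fin r) (Fin r) ℂ := fun ζ => γ x * RR B x ζ * (γ x)⁻¹ with hR'
  set N : ℂ → Matrix (Fin r) (Fin r) ℂ := fun τ => Matrix.of fun i k =>
    Complex.exp (τ * (D k - D i)) *
      (Rs γ B x i k + Complex.exp τ * R' (Complex.exp τ) i k - if i = k then D i else 0) with hN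
  set Φ : ℂ → Matrix (Fin r) (Fin r) ℂ := fun τ => Matrix.of fun i j =>
    Complex.exp (-τ * D i) * ((γ x * Y (cz x (Complex.exp τ))) i j) with hΦ
  have hΦd : ∀ τ, Φ τ = diagonal (fun i => Complex.exp (-τ * D i)) *
      (γ x * Y (cz x (Complex.exp τ))) := by
    intro τ
    ext i j
    rw [Matrix.diagonal_mul]
    rfl
  obtain ⟨φ, C', hφ, hb⟩ := hHS r (-1) c d δ (CE * (CU + CR)) hδ hcd Φ N (by
    intro τ t1 t2 t3
    obtain ⟨hY1, hY2⟩ := hY τ t1 t2 t3
    have him : |τ.im| ≤ 2 * Real.pi := by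
      rw [abs_le]; constructor <;> linarith
    have hζ := norm_exp_lt t1
    refine ⟨?_, ?_, ?_⟩
    · intro i j
      have h1 := gY_deriv hB (hγ x) x t1 hY1 i j
      have h2 : HasDerivAt (fun t : ℂ => Complex.exp (-t * D i))
          (Complex.exp (-τ * D i) * (-D i)) τ := by
        have : HasDerivAt (fun t : ℂ => -t * D i) (-D i) τ := by
          have := ((hasDerivAt_id' τ).neg.mul_const (D i))
          simpa using this
        exact this.cexp
      have h3 := h2.mul h1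
      have h4 : (N τ * Φ τ) i j = Complex.exp (-τ * D i) * -D i *
          (γ x * Y (cz x (Complex.exp τ))) i j + Complex.exp (-τ * D i) *
          ((γ x * B x * (γ x)⁻¹ + Complex.exp τ • (γ x * RR B x (Complex.exp τ) * (γ x)⁻¹)) *
          (γ x * Y (cz x (Complex.exp τ)))) i j := by
        rw [Matrix.mul_apply, Matrix.mul_apply (M := γ x * B x * (γ x)⁻¹ +
          Complex.exp τ • (γ x * RR B x (Complex.exp τ) * (γ x)⁻¹)), Finset.mul_sum]
        have e1 : Complex.exp (-τ * D i) * -D i * (γ x * Y (cz x (Complex.exp τ))) i j =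
            ∑ k, (if i = k then -(Complex.exp (-τ * D i) * D i *
              (γ x * Y (cz x (Complex.exp τ))) k j) else 0) := by
          rw [Finset.sum_ite_eq]
          simp
        rw [e1, ← Finset.sum_add_distrib]
        apply Finset.sum_congr rfl
        intro k _
        have e2 : Complex.exp (τ * (D k - D i)) * Complex.exp (-τ * D k) =
            Complex.exp (-τ * D i) := by
          rw [← Complex.exp_add]
          congr 1
          ring
        have e3 : N τ i k * Φ τ k j = Complex.exp (-τ * D i) *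
            (Rs γ B x i k + Complex.exp τ * R' (Complex.exp τ) i k - if i = k then D i else 0) *
            (γ x * Y (cz x (Complex.exp τ))) k j := by
          rw [← e2]
          simp only [hN, hΦ, Matrix.of_apply]
          ring
        rw [e3]
        have e4 : (γ x * B x * (γ x)⁻¹ +
            Complex.exp τ • (γ x * RR B x (Complex.exp τ) * (γ x)⁻¹)) i k =
            Rs γ B x i k + Complex.exp τ * R' (Complex.exp τ) i k := by
          rw [Matrix.add_apply, Matrix.smul_apply, smul_eq_mul]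
          rfl
        rw [e4]
        split_ifs with hik
        · subst hik; ring
        · ring
      rw [h4]
      exact h3
    · intro i k
      have h1 : ‖Complex.exp (τ * (D k - D i))‖ ≤ CE * Real.exp (τ.re * (w x k - w x i)) := by
        have := hCE τ him i k
        rw [← hre k, ← hre i]
        exact this
      have h2 := hCR _ hζ i k
      have h3 := hCUb i k
      have hnN : ‖N τ i k‖ = ‖Complex.exp (τ * (D k - D i))‖ *
          ‖Rs γ B x i k + Complex.exp τ * R' (Complex.exp τ) i k - if i = k then D i else 0‖ := by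
        simp only [hN, Matrix.of_apply]
        rw [norm_mul]
      rw [hnN]
      rcases lt_or_ge i k with hik | hik
      · rw [if_neg hik.ne, sub_zero]
        have e1 : ‖Rs γ B x i k + Complex.exp τ * R' (Complex.exp τ) i k‖ ≤ CU + CR := by
          refine (norm_add_le _ _).trans (add_le_add h3 ?_)
          rw [norm_mul]
          calc ‖Complex.exp τ‖ * ‖R' (Complex.exp τ) i k‖ ≤ 1 * CR :=
                mul_le_mul (by linarith) h2 (norm_nonneg _) zero_le_one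
            _ = CR := one_mul _
        have e2 : Real.exp (τ.re * (w x k - w x i)) ≤ Real.exp (δ * τ.re) := by
          apply Real.exp_le_exp.2
          have := hδ1 i k hik
          nlinarith
        calc ‖Complex.exp (τ * (D k - D i))‖ *
              ‖Rs γ B x i k + Complex.exp τ * R' (Complex.exp τ) i k‖
            ≤ (CE * Real.exp (τ.re * (w x k - w x i))) * (CU + CR) :=
              mul_le_mul h1 e1 (norm_nonneg _) (by positivity)
          _ ≤ (CE * Real.exp (δ * τ.re)) * (CU + CR) := by gcongr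
          _ = CE * (CU + CR) * Real.exp (δ * τ.re) := by ring
      · have e0 : Rs γ B x i k - (if i = k then D i else 0) = 0 := by
          split_ifs with h
          · rw [← h]; simp [hD]
          · rw [hU i k (lt_of_le_of_ne hik (Ne.symm h)), sub_zero]
        have e1 : Rs γ B x i k + Complex.exp τ * R' (Complex.exp τ) i k -
            (if i = k then D i else 0) = Complex.exp τ * R' (Complex.exp τ) i k := by
          linear_combination e0
        rw [e1, norm_mul, Complex.norm_exp τ]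
        have e2 : Real.exp (τ.re * (w x k - w x i)) * Real.exp τ.re ≤ Real.exp (δ * τ.re) := by
          rw [← Real.exp_add]
          apply Real.exp_le_exp.2
          have := hδ2 i k
          nlinarith
        calc ‖Complex.exp (τ * (D k - D i))‖ * (Real.exp τ.re * ‖R' (Complex.exp τ) i k‖)
            ≤ (CE * Real.exp (τ.re * (w x k - w x i))) * (Real.exp τ.re * CR) := by
              apply mul_le_mul h1 _ (by positivity) (by positivity)
              exact mul_le_mul_of_nonneg_left h2 (Real.exp_pos _).le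
          _ = CE * CR * (Real.exp (τ.re * (w x k - w x i)) * Real.exp τ.re) := by ring
          _ ≤ CE * CR * Real.exp (δ * τ.re) := by gcongr
          _ ≤ CE * (CU + CR) * Real.exp (δ * τ.re) := by
              apply mul_le_mul_of_nonneg_right _ (Real.exp_pos _).le
              apply mul_le_mul_of_nonneg_left _ hCE0.le
              linarith
    · rw [hΦd, Matrix.det_mul, Matrix.det_mul, Matrix.det_diagonal]
      refine IsUnit.mul ?_ ((hγ x).mul hY2)
      rw [isUnit_iff_ne_zero]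
      exact Finset.prod_ne_zero_iff.2 fun i _ => Complex.exp_ne_zero _)
  refine ⟨φ, C', hφ, ?_⟩
  intro τ t1 t2 t3 i j
  have := hb τ (by linarith) t2 t3 i j
  exact this

end ItemLNF

open ItemLNF in
theorem prf_L_NF (hSol : S_Sol) (hInv : S_Inv) (hGlue : S_Glue) (hHS : L_HS) : L_NF := by
  intro r γ w B hγ hw hLD x
  obtain ⟨δ, hδ, hs⟩ := strip hHS hγ hw hLD x
  have hlt : ∀ τ : ℂ, τ.re < -1 → ‖Complex.exp τ‖ < 1 := fun τ h => by
    have := norm_exp_lt h
    linarith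
  have hpi := Real.pi_pos
  obtain ⟨φa, Ca, hφa, hba⟩ := hs (YY B x) 0 (2 * Real.pi) (by linarith) (by linarith) le_rfl (by
    intro τ t1 t2 t3
    have hz := cz_mem_a x (hlt τ t1) (exp_mem_Sa t2 t3)
    exact ⟨(hSol _ B x).2 _ hz, hInv _ B x _ hz⟩)
  obtain ⟨φb, Cb, hφb, hbb⟩ := hs (YY B (x + 1)) (-Real.pi) Real.pi (by linarith) (by linarith)
    (by linarith) (by
    intro τ t1 t2 t3
    have hz := cz_mem_b x (hlt τ t1) (exp_mem_Sb t2 t3)
    exact ⟨(hSol _ B (x + 1)).2 _ hz, hInv _ B (x + 1) _ hz⟩)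
  have hexp : Tendsto (fun k : ℕ => Real.exp (δ * (-3 - (k : ℝ)))) atTop (𝓝 0) := by
    have e1 : Tendsto (fun N : ℕ => δ * (-3 - (N : ℝ))) atTop atBot := by
      apply Tendsto.const_mul_atBot hδ
      exact tendsto_atBot_add_const_left _ (-3) (tendsto_neg_atTop_atBot.comp
        tendsto_natCast_atTop_atTop)
    exact Real.tendsto_exp_atBot.comp e1
  have hab : φa = φb := by
    ext i j
    have h1 : ∀ k : ℕ, ‖φa i j - φb i j‖ ≤ (Ca + Cb) * Real.exp (δ * (-3 - (k : ℝ))) := by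
      intro k
      have hk : (0 : ℝ) ≤ k := Nat.cast_nonneg k
      set τ : ℂ := ⟨-3 - k, Real.pi / 2⟩ with hτ
      have t1 : τ.re < -2 := by rw [hτ]; simp only; linarith
      have e1 := hba τ t1 (by rw [hτ]; simp only; linarith) (by rw [hτ]; simp only; linarith) i j
      have e2 := hbb τ t1 (by rw [hτ]; simp only; linarith) (by rw [hτ]; simp only; linarith) i j
      have e3 : YY B x (cz x (Complex.exp τ)) = YY B (x + 1) (cz x (Complex.exp τ)) := by
        apply (hGlue _ B x (x + 1)).1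
        apply cz_im_pos
        apply exp_im_pos
        · rw [hτ]; simp only; linarith
        · rw [hτ]; simp only; linarith
      rw [← e3] at e2
      set X := Complex.exp (-τ * Rs γ B x i i) * ((γ x * YY B x (cz x (Complex.exp τ))) i j)
      have e4 : τ.re = -3 - (k : ℝ) := by rw [hτ]
      rw [e4] at e1 e2
      calc ‖φa i j - φb i j‖ = ‖(X - φb i j) - (X - φa i j)‖ := by congr 1; ring
        _ ≤ ‖X - φb i j‖ + ‖X - φa i j‖ := norm_sub_le _ _
        _ ≤ (Ca + Cb) * Real.exp (δ * (-3 - (k : ℝ))) := by linarith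
    have h2 : Tendsto (fun k : ℕ => (Ca + Cb) * Real.exp (δ * (-3 - (k : ℝ)))) atTop (𝓝 0) := by
      simpa using hexp.const_mul (Ca + Cb)
    have h3 : ‖φa i j - φb i j‖ ≤ 0 := ge_of_tendsto' h2 h1
    exact sub_eq_zero.1 (norm_le_zero_iff.1 h3)
  refine ⟨φa, hφa, δ, max Ca Cb, -2, hδ, ?_⟩
  intro τ t1 i j
  refine ⟨fun t2 t3 => ?_, fun t2 t3 => ?_⟩
  · refine (hba τ t1 t2 t3 i j).trans ?_
    exact mul_le_mul_of_nonneg_right (le_max_left _ _) (Real.exp_pos _).le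
  · rw [hab]
    refine (hbb τ t1 t2 t3 i j).trans ?_
    exact mul_le_mul_of_nonneg_right (le_max_right _ _) (Real.exp_pos _).le

end Pool.Agent.MSU

end

section

/-! Item L_Row: row bounds for the fundamental solution. -/

open Matrix
open scoped ComplexConjugate ComplexOrder

namespace Pool.Agent.MSU

namespace ItemLRow

theorem exp_mul_norm (τ R : ℂ) (w : ℝ) (hw : R.re = w) (hτ : |τ.im| ≤ 2 * Real.pi) :
    ‖Complex.exp (τ * R)‖ ≤ Real.exp (2 * Real.pi * |R.im|) * Real.exp (τ.re * w) := by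
  rw [Complex.norm_exp, ← Real.exp_add, Real.exp_le_exp, Complex.mul_re, hw]
  have h1 : -(τ.im * R.im) ≤ |τ.im| * |R.im| := by
    rw [← abs_mul]; exact neg_le_abs _
  have h2 : |τ.im| * |R.im| ≤ 2 * Real.pi * |R.im| :=
    mul_le_mul_of_nonneg_right hτ (abs_nonneg _)
  linarith

theorem entry (τ R y p : ℂ) (w C δ a : ℝ) (hδ : 0 < δ) (hw : R.re = w) (hτa : τ.re < a)
    (hτ : |τ.im| ≤ 2 * Real.pi)
    (h : ‖Complex.exp (-τ * R) * y - p‖ ≤ C * Real.exp (δ * τ.re)) :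
    ‖y‖ ≤ (‖p‖ + |C| * Real.exp (δ * a)) * Real.exp (2 * Real.pi * |R.im|)
      * Real.exp (τ.re * w) := by
  have h1 : y = Complex.exp (τ * R) * (Complex.exp (-τ * R) * y) := by
    rw [← mul_assoc, ← Complex.exp_add]
    simp
  have h2 : ‖Complex.exp (-τ * R) * y‖ ≤ ‖p‖ + |C| * Real.exp (δ * a) := by
    have h3 : ‖Complex.exp (-τ * R) * y‖ ≤ ‖p‖ + ‖Complex.exp (-τ * R) * y - p‖ := by
      have := norm_add_le p (Complex.exp (-τ * R) * y - p)
      simpa using this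
    have h4 : C * Real.exp (δ * τ.re) ≤ |C| * Real.exp (δ * a) := by
      have h5 : Real.exp (δ * τ.re) ≤ Real.exp (δ * a) := by
        rw [Real.exp_le_exp]; nlinarith
      calc C * Real.exp (δ * τ.re) ≤ |C| * Real.exp (δ * τ.re) :=
            mul_le_mul_of_nonneg_right (le_abs_self C) (Real.exp_pos _).le
        _ ≤ |C| * Real.exp (δ * a) := mul_le_mul_of_nonneg_left h5 (abs_nonneg C)
    linarith
  have h6 := exp_mul_norm τ R w hw hτ
  have h7 : 0 ≤ ‖p‖ + |C| * Real.exp (δ * a) := by positivity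
  calc ‖y‖ = ‖Complex.exp (τ * R)‖ * ‖Complex.exp (-τ * R) * y‖ := by
        conv_lhs => rw [h1]
        rw [norm_mul]
    _ ≤ (Real.exp (2 * Real.pi * |R.im|) * Real.exp (τ.re * w))
          * (‖p‖ + |C| * Real.exp (δ * a)) :=
        mul_le_mul h6 h2 (norm_nonneg _) (by positivity)
    _ = _ := by ring

theorem logA {ζ : ℂ} (hζ : ζ ∈ Sa) : ∃ τ : ℂ, Complex.exp τ = ζ ∧ τ.re = Real.log ‖ζ‖ ∧
    0 < τ.im ∧ τ.im < 2 * Real.pi := by
  have h1 : -ζ ∈ Complex.slitPlane := by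
    rw [Complex.mem_slitPlane_iff]
    rcases hζ with h | h
    · right; simpa using h
    · left; simpa using h
  have h0 : -ζ ≠ 0 := Complex.slitPlane_ne_zero h1
  have h2 := Complex.mem_slitPlane_iff_arg.mp h1
  refine ⟨Complex.log (-ζ) + Real.pi * Complex.I, ?_, ?_, ?_, ?_⟩
  · rw [Complex.exp_add, Complex.exp_log h0, Complex.exp_pi_mul_I]; ring
  · simp [Complex.log_re]
  · have := Complex.neg_pi_lt_arg (-ζ)
    simp [Complex.log_im]; linarith
  · have := lt_of_le_of_ne (Complex.arg_le_pi (-ζ)) h2.1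
    simp [Complex.log_im]; linarith

theorem logB {ζ : ℂ} (hζ : ζ ∈ Sb) : ∃ τ : ℂ, Complex.exp τ = ζ ∧ τ.re = Real.log ‖ζ‖ ∧
    -Real.pi < τ.im ∧ τ.im < Real.pi := by
  have h1 : ζ ∈ Complex.slitPlane := by
    rw [Complex.mem_slitPlane_iff]
    rcases hζ with h | h
    · right; exact h
    · left; exact h
  have h0 : ζ ≠ 0 := Complex.slitPlane_ne_zero h1
  have h2 := Complex.mem_slitPlane_iff_arg.mp h1
  refine ⟨Complex.log ζ, Complex.exp_log h0, Complex.log_re ζ, ?_, ?_⟩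
  · rw [Complex.log_im]; exact Complex.neg_pi_lt_arg ζ
  · rw [Complex.log_im]; exact lt_of_le_of_ne (Complex.arg_le_pi ζ) h2.1

theorem Sa_ne {ζ : ℂ} (hζ : ζ ∈ Sa) : ζ ≠ 0 := by
  rintro rfl
  rcases hζ with h | h <;> simp at h

theorem Sb_ne {ζ : ℂ} (hζ : ζ ∈ Sb) : ζ ≠ 0 := by
  rintro rfl
  rcases hζ with h | h <;> simp at h

theorem mulE {r d : ℕ} (A Y : Matrix (Fin r) (Fin r) ℂ) (E : Matrix (Fin r) (Fin d) ℂ)
    (K M : ℝ) (hK : 0 ≤ K) (hM : 0 ≤ M) (i : Fin r) (b : Fin d)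
    (h : ∀ k, ‖(A * Y) i k‖ ≤ K * M) :
    ‖(A * (Y * E)) i b‖ ≤ (K * ∑ k, ∑ c, ‖E k c‖) * M := by
  rw [← Matrix.mul_assoc, Matrix.mul_apply]
  calc ‖∑ k, (A * Y) i k * E k b‖ ≤ ∑ k, ‖(A * Y) i k * E k b‖ := norm_sum_le _ _
    _ ≤ ∑ k, (K * M) * ∑ c, ‖E k c‖ := by
        refine Finset.sum_le_sum fun k _ => ?_
        rw [norm_mul]
        refine mul_le_mul (h k) ?_ (norm_nonneg _) (by positivity)
        exact Finset.single_le_sum (f := fun c => ‖E k c‖) (fun c _ => norm_nonneg _)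
          (Finset.mem_univ b)
    _ = (K * ∑ k, ∑ c, ‖E k c‖) * M := by
        rw [← Finset.mul_sum]; ring

end ItemLRow

open ItemLRow in
theorem prf_L_Row (hNF : L_NF) : L_Row := by
  intro r d γ w B hγ hw hB E x
  obtain ⟨φ, hφ, δ, C, a, hδ, hL⟩ := hNF r γ w B hγ hw hB x
  have hre : ∀ i, (Rs γ B x i i).re = w x i := (hB.2 x).2
  set K : ℝ := ∑ i, ∑ j, (‖φ i j‖ + |C| * Real.exp (δ * a))
    * Real.exp (2 * Real.pi * |(Rs γ B x i i).im|) with hKdef
  have hKnn : 0 ≤ K := by rw [hKdef]; positivity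
  have hKle : ∀ i j, (‖φ i j‖ + |C| * Real.exp (δ * a))
      * Real.exp (2 * Real.pi * |(Rs γ B x i i).im|) ≤ K := by
    intro i j
    rw [hKdef]
    refine le_trans ?_ (Finset.single_le_sum (f := fun i => ∑ j, (‖φ i j‖ + |C| * Real.exp (δ * a))
      * Real.exp (2 * Real.pi * |(Rs γ B x i i).im|)) (fun i _ => by positivity)
      (Finset.mem_univ i))
    exact Finset.single_le_sum (f := fun j => (‖φ i j‖ + |C| * Real.exp (δ * a))
      * Real.exp (2 * Real.pi * |(Rs γ B x i i).im|)) (fun j _ => by positivity)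
      (Finset.mem_univ j)
  have hpi := Real.pi_pos
  have hlog : ∀ ζ : ℂ, ζ ≠ 0 → ‖ζ‖ < min (Real.exp a) (1 / 2) → Real.log ‖ζ‖ < a := by
    intro ζ h0 h
    have h1 : 0 < ‖ζ‖ := norm_pos_iff.mpr h0
    rw [Real.log_lt_iff_lt_exp h1]
    exact lt_of_lt_of_le h (min_le_left _ _)
  have hpow : ∀ (ζ : ℂ) (i : Fin r), ζ ≠ 0 →
      Real.exp (Real.log ‖ζ‖ * w x i) = ‖ζ‖ ^ (w x i) := by
    intro ζ i h0
    rw [Real.rpow_def_of_pos (norm_pos_iff.mpr h0)]
  refine ⟨K * ∑ k, ∑ c, ‖E k c‖, min (Real.exp a) (1 / 2), ?_, min_le_right _ _, ?_⟩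
  · exact lt_min (Real.exp_pos a) (by norm_num)
  intro ζ hζ
  constructor
  · intro hS i b
    have h0 := Sa_ne hS
    obtain ⟨τ, h1, h2, h3, h4⟩ := logA hS
    have hτa : τ.re < a := by rw [h2]; exact hlog ζ h0 hζ
    refine mulE (γ x) (YY B x (cz x ζ)) E K (‖ζ‖ ^ (w x i)) hKnn (by positivity) i b ?_
    intro k
    have h5 := (hL τ hτa i k).1 h3 h4
    rw [h1] at h5
    have h6 := entry τ (Rs γ B x i i) _ (φ i k) (w x i) C δ a hδ (hre i) hτa
      (by rw [abs_of_pos h3]; exact h4.le) h5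
    rw [h2, hpow ζ i h0] at h6
    exact h6.trans (mul_le_mul_of_nonneg_right (hKle i k) (by positivity))
  · intro hS i b
    have h0 := Sb_ne hS
    obtain ⟨τ, h1, h2, h3, h4⟩ := logB hS
    have hτa : τ.re < a := by rw [h2]; exact hlog ζ h0 hζ
    refine mulE (γ x) (YY B (x + 1) (cz x ζ)) E K (‖ζ‖ ^ (w x i)) hKnn (by positivity) i b ?_
    intro k
    have h5 := (hL τ hτa i k).2 h3 h4
    rw [h1] at h5
    have h6 := entry τ (Rs γ B x i i) _ (φ i k) (w x i) C δ a hδ (hre i) hτa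
      (by rw [abs_le]; constructor <;> linarith) h5
    rw [h2, hpow ζ i h0] at h6
    exact h6.trans (mul_le_mul_of_nonneg_right (hKle i k) (by positivity))

end Pool.Agent.MSU

end

section

/-! Item M_Cls: sums of `|f_i + conj h_i|^2` are continuous and have the local sub-mean value
property. -/

open Matrix Polynomial Filter Topology
open scoped ComplexConjugate ComplexOrder

namespace Pool.Agent.MSU

namespace ItemMCls

lemma ineq (c u : ℂ) : 2 * (conj c * u).re - ‖c‖ ^ 2 ≤ ‖u‖ ^ 2 := by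
  have h := sq_nonneg ‖u - c‖
  have h2 : ‖u - c‖ ^ 2 = ‖u‖ ^ 2 - 2 * (conj c * u).re + ‖c‖ ^ 2 := by
    rw [Complex.sq_norm, Complex.sq_norm, Complex.sq_norm, Complex.normSq_apply,
      Complex.normSq_apply, Complex.normSq_apply]
    simp
    ring
  linarith

lemma eqn (c : ℂ) : 2 * (conj c * c).re - ‖c‖ ^ 2 = ‖c‖ ^ 2 := by
  rw [Complex.sq_norm, Complex.normSq_apply]
  simp
  ring

lemma re_split (c f h : ℂ) :
    2 * (conj c * (f + conj h)).re = (2 * conj c * f + 2 * c * h).re := by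
  simp
  ring

end ItemMCls

theorem prf_M_Cls : M_Cls := by
  intro ι _ U f h hU hf hh
  have hcont : ContinuousOn (fun z => ∑ i, ‖f i z + conj (h i z)‖ ^ 2) U := by
    refine continuousOn_finsetSum _ fun i _ => ContinuousOn.pow (ContinuousOn.norm ?_) 2
    exact (hf i).continuousOn.add (Complex.continuous_conj.comp_continuousOn (hh i).continuousOn)
  refine ⟨hcont, ?_⟩
  intro z hz
  obtain ⟨δ, hδ, hball⟩ := Metric.isOpen_iff.1 hU z hz
  refine ⟨δ, hδ, ?_⟩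
  intro r hr hrδ
  set c : ι → ℂ := fun i => f i z + conj (h i z) with hc
  set F : ℂ → ℂ := fun w => ∑ i, (2 * conj (c i) * f i w + 2 * c i * h i w) with hF
  have hFd : DifferentiableOn ℂ F U := by
    rw [hF]
    refine DifferentiableOn.fun_sum fun i _ => ?_
    exact ((hf i).const_mul _).add ((hh i).const_mul _)
  have hsub : Metric.closedBall z |r| ⊆ U := by
    intro w hw
    rw [abs_of_pos hr, Metric.mem_closedBall] at hw
    exact hball (lt_of_le_of_lt hw hrδ)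
  have hmv : Real.circleAverage (fun w => (F w).re) z r = (F z).re := by
    apply InnerProductSpace.HarmonicOnNhd.circleAverage_eq (f := fun w => (F w).re)
    intro x hx
    have hA : AnalyticAt ℂ F x := hFd.analyticAt (hU.mem_nhds (hsub hx))
    exact hA.harmonicAt_re
  have hle : ∀ w, (F w).re - ∑ i, ‖c i‖ ^ 2 ≤ ∑ i, ‖f i w + conj (h i w)‖ ^ 2 := by
    intro w
    rw [hF]
    simp only [Complex.re_sum]
    rw [← Finset.sum_sub_distrib]
    refine Finset.sum_le_sum fun i _ => ?_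
    rw [← ItemMCls.re_split]
    exact ItemMCls.ineq _ _
  have heq : (F z).re - ∑ i, ‖c i‖ ^ 2 = ∑ i, ‖f i z + conj (h i z)‖ ^ 2 := by
    rw [hF]
    simp only [Complex.re_sum]
    rw [← Finset.sum_sub_distrib]
    refine Finset.sum_congr rfl fun i _ => ?_
    rw [← ItemMCls.re_split]
    exact ItemMCls.eqn _
  have hci1 : CircleIntegrable (fun w => ∑ i, ‖f i w + conj (h i w)‖ ^ 2) z r := by
    apply ContinuousOn.circleIntegrable'
    exact hcont.mono (Metric.sphere_subset_closedBall.trans hsub)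
  have hci2 : CircleIntegrable (fun w => (F w).re) z r := by
    apply ContinuousOn.circleIntegrable'
    exact (Complex.continuous_re.comp_continuousOn hFd.continuousOn).mono
      (Metric.sphere_subset_closedBall.trans hsub)
  have hci3 : CircleIntegrable (fun _ : ℂ => ∑ i, ‖c i‖ ^ 2) z r := by
    apply ContinuousOn.circleIntegrable'
    exact continuousOn_const
  calc ∑ i, ‖f i z + conj (h i z)‖ ^ 2 = (F z).re - ∑ i, ‖c i‖ ^ 2 := heq.symm
    _ = Real.circleAverage (fun w => (F w).re) z r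
          - Real.circleAverage (fun _ : ℂ => ∑ i, ‖c i‖ ^ 2) z r := by
        rw [hmv, Real.circleAverage_const]
    _ = Real.circleAverage (fun w => (F w).re - ∑ i, ‖c i‖ ^ 2) z r :=
        (Real.circleAverage_fun_sub hci2 hci3).symm
    _ ≤ Real.circleAverage (fun w => ∑ i, ‖f i w + conj (h i w)‖ ^ 2) z r := by
        apply Real.circleAverage_mono
        · exact hci2.sub hci3
        · exact hci1
        · intro x _
          exact hle x

end Pool.Agent.MSU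

end

section

/-! Local bounds on the slit domains, uniform in the family. -/

open Matrix Polynomial Filter Topology
open scoped ComplexConjugate ComplexOrder

namespace Pool.Agent.MSU

namespace ItemMLocBd

lemma V_real {s : ℂ} (h0 : s.im = 0) {j j' : Fin 3} (h : s ∈ V j) (h' : s ∈ V j') : j = j' := by
  rcases h with h | ⟨rfl, h⟩ | ⟨rfl, h, h2⟩ | ⟨rfl, h⟩
  · exact absurd h0 h
  all_goals
    rcases h' with h' | ⟨rfl, h'⟩ | ⟨rfl, h', h2'⟩ | ⟨rfl, h'⟩
    · exact absurd h0 h'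
    all_goals first | rfl | (exfalso; linarith)

lemma cz_im_ne (x : Fin 3) {ζ : ℂ} (h : (cz x ζ).im ≠ 0) : ζ.im ≠ 0 := by
  intro h0
  apply h
  fin_cases x
  · show (cz 0 ζ).im = 0
    rw [cz_zero]; exact h0
  · show (cz 1 ζ).im = 0
    rw [cz_one]; simpa using h0
  · show (cz 2 ζ).im = 0
    rw [cz_two, neg_inv_im, h0, zero_div]

lemma cz_im_zero (x : Fin 3) {ζ : ℂ} (h : (cz x ζ).im = 0) : ζ.im = 0 := by
  by_contra h0
  rcases lt_or_gt_of_ne h0 with h1 | h1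
  · exact (cz_im_neg x h1).ne h
  · exact (cz_im_pos x h1).ne' h

lemma entry_mul {r d : ℕ} (A : Matrix (Fin r) (Fin d) ℂ) (Q : Matrix (Fin d) (Fin d) ℂ)
    (hQ : Qᴴ * Q = 1) (M : ℝ) (hM : ∀ a b, ‖A a b‖ ≤ M) (a : Fin r) (b : Fin d) :
    ‖(A * Q) a b‖ ≤ d * M := by
  have hQ' : ∀ a b, ‖Q a b‖ ≤ 1 := fun a b =>
    entry_norm_bound_of_unitary (Matrix.mem_unitaryGroup_iff'.mpr hQ) a b
  rw [Matrix.mul_apply]
  refine (norm_sum_le _ _).trans ?_
  have h1 : ∀ c ∈ Finset.univ, ‖A a c * Q c b‖ ≤ M := by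
    intro c _
    rw [norm_mul]
    calc ‖A a c‖ * ‖Q c b‖ ≤ ‖A a c‖ * 1 := mul_le_mul_of_nonneg_left (hQ' c b) (norm_nonneg _)
      _ ≤ M := by rw [mul_one]; exact hM a c
  refine (Finset.sum_le_card_nsmul _ _ _ h1).trans ?_
  simp

lemma rpow_bd {t η w Wm : ℝ} (hη : 0 < η) (h1 : η ≤ t) (h2 : t ≤ 1) (hw : |w| ≤ Wm) :
    t ^ w ≤ η ^ (-Wm) := by
  have ht : 0 < t := lt_of_lt_of_le hη h1
  have hW : 0 ≤ Wm := (abs_nonneg w).trans hw
  calc t ^ w ≤ t ^ (-Wm) :=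
        Real.rpow_le_rpow_of_exponent_ge ht h2 (by have := neg_abs_le w; linarith)
    _ ≤ η ^ (-Wm) := Real.rpow_le_rpow_of_nonpos hη h1 (by linarith)

end ItemMLocBd

open ItemMLocBd in
theorem prf_M_LocBd : M_LocBd := by
  intro r d γ Wm C hγ j z hz
  have hz01 := V_ne hz
  have pz : 0 < ‖z‖ := norm_pos_iff.mpr hz01.1
  have pz1 : 0 < ‖z - 1‖ := norm_pos_iff.mpr (sub_ne_zero.mpr hz01.2)
  obtain ⟨ε, hε, hε1, hε2, hε3⟩ : ∃ ε : ℝ, 0 < ε ∧ ε ≤ ‖z‖ / 2 ∧ ε ≤ ‖z - 1‖ / 2 ∧ ε ≤ 1 :=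
    ⟨min (‖z‖ / 2) (min (‖z - 1‖ / 2) 1), by positivity, min_le_left _ _,
      (min_le_right _ _).trans (min_le_left _ _), (min_le_right _ _).trans (min_le_right _ _)⟩
  obtain ⟨η, hη, hη1, hη2, hη3, hη4⟩ : ∃ η : ℝ, 0 < η ∧ η ≤ ‖z‖ / 2 ∧ η ≤ ‖z - 1‖ / 2 ∧
      η ≤ (‖z‖ + 1)⁻¹ ∧ η ≤ 1 :=
    ⟨min (‖z‖ / 2) (min (‖z - 1‖ / 2) (min (‖z‖ + 1)⁻¹ 1)), by positivity, min_le_left _ _,
      (min_le_right _ _).trans (min_le_left _ _),
      ((min_le_right _ _).trans (min_le_right _ _)).trans (min_le_left _ _),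
      ((min_le_right _ _).trans (min_le_right _ _)).trans (min_le_right _ _)⟩
  set N : ℝ := ∑ x, ∑ a, ∑ a', ‖(γ x)⁻¹ a a'‖ with hN
  set M1 : ℝ := N * (|C| * η ^ (-Wm)) with hM1
  have hN0 : 0 ≤ N := by positivity
  have hM10 : 0 ≤ M1 := by positivity
  refine ⟨ε, 1 + ((d : ℝ) + 1) ^ 2 * M1, hε, ?_⟩
  intro w G Q hw hMV hKK hrow s hs hsz a b
  have s1 : η ≤ ‖s‖ := by
    have := norm_sub_norm_le z (z - s)
    have e1 : z - (z - s) = s := by ring
    rw [e1, norm_sub_rev z s] at this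
    linarith
  have s2 : η ≤ ‖s - 1‖ := by
    have := norm_sub_norm_le (z - 1) (z - s)
    have e1 : z - 1 - (z - s) = s - 1 := by ring
    rw [e1, norm_sub_rev z s] at this
    linarith
  have s3 : ‖s‖ ≤ ‖z‖ + 1 := by
    have := norm_add_le (s - z) z
    rw [sub_add_cancel] at this
    linarith
  -- the bound in the good positions
  have bd : ∀ (x j' : Fin 3) (ζ : ℂ), η ≤ ‖ζ‖ → ‖ζ‖ ≤ 1 / 2 →
      (∀ a b, ‖(γ x * G j' (cz x ζ)) a b‖ ≤ C * ‖ζ‖ ^ (w x a)) →
      ∀ a b, ‖G j' (cz x ζ) a b‖ ≤ M1 := by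
    intro x j' ζ h1 h2 h3 a b
    have e1 : G j' (cz x ζ) = (γ x)⁻¹ * (γ x * G j' (cz x ζ)) := by
      rw [← Matrix.mul_assoc, Matrix.nonsing_inv_mul _ (hγ x), Matrix.one_mul]
    have h4 : ∀ a' b, ‖(γ x * G j' (cz x ζ)) a' b‖ ≤ |C| * η ^ (-Wm) := by
      intro a' b
      refine (h3 a' b).trans ?_
      have h5 : ‖ζ‖ ^ (w x a') ≤ η ^ (-Wm) := rpow_bd hη h1 (by linarith) (hw x a')
      calc C * ‖ζ‖ ^ (w x a') ≤ |C| * ‖ζ‖ ^ (w x a') :=
            mul_le_mul_of_nonneg_right (le_abs_self C) (by positivity)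
        _ ≤ |C| * η ^ (-Wm) := mul_le_mul_of_nonneg_left h5 (abs_nonneg _)
    have h6 : ‖((γ x)⁻¹ * (γ x * G j' (cz x ζ))) a b‖ ≤ M1 := by
      rw [Matrix.mul_apply]
      refine (norm_sum_le _ _).trans ?_
      calc ∑ a', ‖(γ x)⁻¹ a a' * (γ x * G j' (cz x ζ)) a' b‖
          ≤ ∑ a', ‖(γ x)⁻¹ a a'‖ * (|C| * η ^ (-Wm)) := by
            refine Finset.sum_le_sum fun a' _ => ?_
            rw [norm_mul]
            exact mul_le_mul_of_nonneg_left (h4 a' b) (norm_nonneg _)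
        _ = (∑ a', ‖(γ x)⁻¹ a a'‖) * (|C| * η ^ (-Wm)) := by rw [Finset.sum_mul]
        _ ≤ M1 := by
            rw [hM1]
            refine mul_le_mul_of_nonneg_right ?_ (by positivity)
            calc ∑ a', ‖(γ x)⁻¹ a a'‖ ≤ ∑ a, ∑ a', ‖(γ x)⁻¹ a a'‖ :=
                  Finset.single_le_sum (f := fun a => ∑ a', ‖(γ x)⁻¹ a a'‖)
                    (fun _ _ => by positivity) (Finset.mem_univ a)
              _ ≤ N := Finset.single_le_sum (f := fun x => ∑ a, ∑ a', ‖(γ x)⁻¹ a a'‖)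
                    (fun _ _ => by positivity) (Finset.mem_univ x)
    rwa [← e1] at h6
  -- the bound near a puncture
  have near : ∀ (x : Fin 3) (ζ : ℂ), cz x ζ = s → η ≤ ‖ζ‖ → ‖ζ‖ ≤ 1 / 2 →
      ‖G j s a b‖ ≤ ((d : ℝ) + 1) ^ 2 * M1 := by
    intro x ζ hx h1 h2
    have hζ0 : ζ ≠ 0 := norm_pos_iff.mp (lt_of_lt_of_le hη h1)
    have hle : M1 ≤ ((d : ℝ) + 1) ^ 2 * M1 := by
      have hd0 : (0 : ℝ) ≤ d := Nat.cast_nonneg d
      nlinarith [mul_nonneg hd0 hM10, mul_nonneg (mul_nonneg hd0 hd0) hM10]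
    by_cases him : s.im = 0
    · have hζi : ζ.im = 0 := cz_im_zero x (by rw [hx]; exact him)
      have hre : ζ.re ≠ 0 := fun h => hζ0 (Complex.ext h hζi)
      rcases lt_or_gt_of_ne hre with h3 | h3
      · have hSa : ζ ∈ Sa := Or.inr h3
        have hV : s ∈ V x := by rw [← hx]; exact cz_mem_a x (by linarith) hSa
        have hjx := V_real him hs hV
        have h4 := bd x x ζ h1 h2 ((hrow x ζ h2).1 hSa) a b
        rw [hx, ← hjx] at h4
        exact h4.trans hle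
      · have hSb : ζ ∈ Sb := Or.inr h3
        have hV : s ∈ V (x + 1) := by rw [← hx]; exact cz_mem_b x (by linarith) hSb
        have hjx := V_real him hs hV
        have h4 := bd x (x + 1) ζ h1 h2 ((hrow x ζ h2).2 hSb) a b
        rw [hx, ← hjx] at h4
        exact h4.trans hle
    · have hζi : ζ.im ≠ 0 := cz_im_ne x (by rw [hx]; exact him)
      have hSa : ζ ∈ Sa := Or.inl hζi
      have h4 := bd x x ζ h1 h2 ((hrow x ζ h2).1 hSa)
      rw [hx] at h4
      rcases lt_or_gt_of_ne him with h5 | h5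
      · have q1 : ∀ a b, ‖G (x + 1) s a b‖ ≤ d * M1 := by
          intro a b
          rw [hMV.minus x s h5]
          exact entry_mul _ _ (hMV.unit x) _ h4 a b
        have q2 : ∀ a b, ‖G (x + 1 + 1) s a b‖ ≤ d * (d * M1) := by
          intro a b
          rw [hMV.minus (x + 1) s h5]
          exact entry_mul _ _ (hMV.unit (x + 1)) _ q1 a b
        have hj : j = x ∨ j = x + 1 ∨ j = x + 1 + 1 := by
          clear * -
          revert j x
          decide
        have hd0 : (0 : ℝ) ≤ d := Nat.cast_nonneg d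
        have t1 := mul_nonneg hd0 hM10
        have t2 := mul_nonneg (mul_nonneg hd0 hd0) hM10
        rcases hj with rfl | rfl | rfl
        · exact (h4 a b).trans hle
        · refine (q1 a b).trans ?_
          nlinarith
        · refine (q2 a b).trans ?_
          nlinarith
      · rw [hMV.plus j x s h5]
        exact (h4 a b).trans hle
  have hpos : 0 ≤ ((d : ℝ) + 1) ^ 2 * M1 := by positivity
  by_cases c0 : ‖s‖ < 1 / 2
  · have := near 0 s (cz_zero s) s1 c0.le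
    linarith
  by_cases c1 : ‖s - 1‖ < 1 / 2
  · have := near 1 (s - 1) (by rw [cz_one]; ring) s2 c1.le
    linarith
  by_cases c2 : 2 < ‖s‖
  · have hs0 : s ≠ 0 := (V_ne hs).1
    have ps : 0 < ‖s‖ := norm_pos_iff.mpr hs0
    have e1 : ‖-s⁻¹‖ = ‖s‖⁻¹ := by rw [norm_neg, norm_inv]
    have g1 : η ≤ ‖s‖⁻¹ := hη3.trans (inv_anti₀ ps s3)
    have g2 : ‖s‖⁻¹ ≤ 1 / 2 := by
      rw [inv_le_comm₀ ps (by norm_num)]
      linarith
    have := near 2 (-s⁻¹) (by rw [cz_two, inv_neg, inv_inv, neg_neg]) (by rw [e1]; exact g1)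
      (by rw [e1]; exact g2)
    linarith
  · have hk : s ∈ KK := ⟨not_lt.mp c0, not_lt.mp c1, not_lt.mp c2⟩
    have := hKK j s hs hk a b
    linarith

end Pool.Agent.MSU

end

section

/-! Maximum principle on a punctured disc for functions bounded above. -/

open Matrix Polynomial Filter Topology Metric Set
open scoped ComplexConjugate ComplexOrder

namespace Pool.Agent.MSU

namespace ItemMPunct

theorem key (u : ℂ → ℝ) (ρ M C : ℝ) (hρ : 0 < ρ)
    (hc : ContinuousOn u {ζ : ℂ | ζ ≠ 0 ∧ ‖ζ‖ ≤ ρ})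
    (hL : ∀ ζ : ℂ, ζ ≠ 0 → ‖ζ‖ < ρ → LSM u ζ)
    (hC : ∀ ζ : ℂ, ζ ≠ 0 → ‖ζ‖ ≤ ρ → u ζ ≤ C) (hM : ∀ ζ : ℂ, ‖ζ‖ = ρ → u ζ ≤ M)
    (ζ : ℂ) (h0 : ζ ≠ 0) (h1 : ‖ζ‖ ≤ ρ) (ε : ℝ) (hε : 0 < ε) :
    u ζ ≤ M + ε * (Real.log ρ - Real.log ‖ζ‖) := by
  have hζ : 0 < ‖ζ‖ := norm_pos_iff.2 h0
  set δ : ℝ := min ‖ζ‖ (ρ * Real.exp (-(|C - M| / ε))) with hδ
  have hδ0 : 0 < δ := lt_min hζ (by positivity)
  have hδζ : δ ≤ ‖ζ‖ := min_le_left _ _
  have hlogδ : Real.log δ ≤ Real.log ρ - |C - M| / ε := by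
    have h2 : δ ≤ ρ * Real.exp (-(|C - M| / ε)) := min_le_right _ _
    have h3 := Real.log_le_log hδ0 h2
    rw [Real.log_mul hρ.ne' (Real.exp_pos _).ne', Real.log_exp] at h3
    linarith
  have hCM : C ≤ M + ε * (Real.log ρ - Real.log δ) := by
    have h2 : |C - M| / ε ≤ Real.log ρ - Real.log δ := by linarith
    have h3 : |C - M| ≤ ε * (Real.log ρ - Real.log δ) := by
      rw [div_le_iff₀ hε] at h2
      linarith
    have h4 := le_abs_self (C - M)
    linarith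
  set S : Set ℂ := {w : ℂ | δ ≤ ‖w - 0‖ ∧ ‖w - 0‖ ≤ ρ} with hS
  set U : Set ℂ := {w : ℂ | w ≠ 0 ∧ ‖w‖ < ρ} with hU
  have hUo : IsOpen U := by
    have hcn : Continuous (fun w : ℂ => ‖w‖) := by fun_prop
    exact isOpen_ne.inter (isOpen_lt hcn continuous_const)
  have hne : ∀ w ∈ S, ‖w - 0‖ ≠ 0 := by
    intro w hw h
    have := hw.1
    rw [h] at this
    linarith
  have hne' : ∀ w ∈ S, w ≠ 0 := by
    intro w hw h
    apply hne w hw
    rw [h, sub_zero, norm_zero]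
  have hcS : ContinuousOn (fun w => u w - (M + ε * Real.log ρ + (-ε) * Real.log ‖w - 0‖)) S := by
    refine (hc.mono fun w hw => ⟨hne' w hw, ?_⟩).sub
      (continuousOn_const.add (continuousOn_const.mul (ContinuousOn.log (by fun_prop) hne)))
    have := hw.2
    rwa [sub_zero] at this
  have hfin := Pool.Agent.Work.MP_63d28d_an.max_principle
    (Pool.Agent.Work.MP_63d28d_an.isCompact_annulus 0 δ ρ) hcS (by
      intro z hz hfz
      have hz0 : z ≠ 0 := hne' z hz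
      have hz1 : δ < ‖z - 0‖ := by
        rcases hz.1.lt_or_eq with h | h
        · exact h
        · exfalso
          have h5 := hC z hz0 (by have := hz.2; rwa [sub_zero] at this)
          rw [← h] at hfz
          linarith
      have hz2 : ‖z - 0‖ < ρ := by
        rcases hz.2.lt_or_eq with h | h
        · exact h
        · exfalso
          have h5 := hM z (by rw [← h, sub_zero])
          rw [h] at hfz
          linarith
      refine ⟨?_, ?_⟩
      · rw [mem_interior]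
        refine ⟨{w : ℂ | δ < ‖w - 0‖ ∧ ‖w - 0‖ < ρ}, fun w hw => ⟨hw.1.le, hw.2.le⟩, ?_, ⟨hz1, hz2⟩⟩
        have hcn : Continuous (fun w : ℂ => ‖w - 0‖) := by fun_prop
        exact (isOpen_lt continuous_const hcn).inter (isOpen_lt hcn continuous_const)
      · rw [sub_zero] at hz2
        exact Pool.Agent.Work.MP_63d28d_an.LSM_sub_log (U := U) hUo
          (hc.mono fun w hw => ⟨hw.1, hw.2.le⟩) ⟨hz0, hz2⟩ hz0 (hL z hz0 hz2) _ _) ζ
    ⟨by rw [sub_zero]; exact hδζ, by rw [sub_zero]; exact h1⟩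
  rw [sub_zero] at hfin
  linarith

end ItemMPunct

theorem prf_M_Punct : M_Punct := by
  intro u ρ M C hρ hc hL hC hM ζ h0 h1
  by_contra hcon
  push Not at hcon
  have hζ : 0 < ‖ζ‖ := norm_pos_iff.2 h0
  have hlog : 0 ≤ Real.log ρ - Real.log ‖ζ‖ := by
    have := Real.log_le_log hζ h1
    linarith
  set D : ℝ := Real.log ρ - Real.log ‖ζ‖ with hD
  have hk := ItemMPunct.key u ρ M C hρ hc hL hC hM ζ h0 h1 ((u ζ - M) / (2 * (D + 1)))
    (div_pos (by linarith) (by linarith))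
  rw [← hD] at hk
  have h2 : (u ζ - M) / (2 * (D + 1)) * D ≤ (u ζ - M) / 2 := by
    rw [div_mul_eq_mul_div, div_le_div_iff₀ (by linarith) (by norm_num)]
    nlinarith
  linarith

end Pool.Agent.MSU

end

section

/-! If a finite sum of squares of absolute values of (holomorphic + conjugate holomorphic)
functions is constant on an open set then all the functions are locally constant. -/

open Matrix Polynomial Filter Topology
open scoped ComplexConjugate ComplexOrder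

namespace Pool.Agent.MSU

namespace ItemMRigid

lemma point_id (a b a0 b0 : ℂ) :
    ‖a - a0‖ ^ 2 + ‖b - b0‖ ^ 2 =
      ‖a + conj b‖ ^ 2 - 2 * (a * b + conj a0 * a + conj b0 * b).re
        + (‖a0‖ ^ 2 + ‖b0‖ ^ 2) := by
  simp only [← Complex.normSq_eq_norm_sq, Complex.normSq_apply, Complex.add_re, Complex.add_im,
    Complex.sub_re, Complex.sub_im, Complex.mul_re, Complex.conj_re,
    Complex.conj_im]
  ring

end ItemMRigid

open ItemMRigid in
theorem prf_M_Rigid : M_Rigid := by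
  intro ι _ U f h hU hf hh hc i z hz
  set G : ℂ → ℂ := fun s => ∑ i, (f i s * h i s + conj (f i z) * f i s + conj (h i z) * h i s)
    with hG
  set D : ℂ → ℝ := fun s => ∑ i, (‖f i s - f i z‖ ^ 2 + ‖h i s - h i z‖ ^ 2) with hD
  have hDnn : ∀ s, 0 ≤ D s := fun s => Finset.sum_nonneg (fun i _ => by positivity)
  have hDG : ∀ s ∈ U, D s = 2 * ((G z).re - (G s).re) := by
    intro s hs
    have key : ∀ s, D s = ∑ i, ‖f i s + conj (h i s)‖ ^ 2 - 2 * (G s).re
        + ∑ i, (‖f i z‖ ^ 2 + ‖h i z‖ ^ 2) := by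
      intro s
      simp only [hD, hG, Complex.re_sum, Finset.mul_sum, ← Finset.sum_sub_distrib,
        ← Finset.sum_add_distrib]
      exact Finset.sum_congr rfl (fun i _ => point_id _ _ _ _)
    have h0 : D z = 0 := by simp [hD]
    have h1 := key z
    have h2 := key s
    have h3 := hc z hz s hs
    rw [h0] at h1
    linarith
  have hUn : U ∈ 𝓝 z := hU.mem_nhds hz
  have hGd : ∀ᶠ s in 𝓝 z, DifferentiableAt ℂ (fun s => Complex.exp (G s)) s := by
    filter_upwards [hUn] with s hs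
    have hUs : U ∈ 𝓝 s := hU.mem_nhds hs
    have h1 : ∀ i, DifferentiableAt ℂ (f i) s := fun i => (hf i).differentiableAt hUs
    have h2 : ∀ i, DifferentiableAt ℂ (h i) s := fun i => (hh i).differentiableAt hUs
    have h3 : DifferentiableAt ℂ G s := by
      simp only [hG]
      refine DifferentiableAt.fun_sum (fun i _ => ?_)
      exact (((h1 i).mul (h2 i)).add ((h1 i).const_mul _)).add ((h2 i).const_mul _)
    exact h3.cexp
  have hmax : IsLocalMax (norm ∘ (fun s => Complex.exp (G s))) z := by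
    filter_upwards [hUn] with s hs
    simp only [Function.comp_apply, Complex.norm_exp]
    have := hDG s hs
    have := hDnn s
    exact Real.exp_le_exp.mpr (by linarith)
  have hev := Complex.eventually_eq_of_isLocalMax_norm hGd hmax
  have hD0 : ∀ᶠ s in 𝓝 z, D s = 0 := by
    filter_upwards [hUn, hev] with s hs hs2
    have h1 : ‖Complex.exp (G s)‖ = ‖Complex.exp (G z)‖ := by rw [hs2]
    rw [Complex.norm_exp, Complex.norm_exp] at h1
    have h2 := Real.exp_injective h1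
    rw [hDG s hs, h2]
    ring
  have hfi : ∀ᶠ s in 𝓝 z, f i s = f i z ∧ h i s = h i z := by
    filter_upwards [hD0] with s hs
    have h1 := (Finset.sum_eq_zero_iff_of_nonneg (fun i _ => by positivity)).1 hs i
      (Finset.mem_univ i)
    have h2 : ‖f i s - f i z‖ ^ 2 = 0 := by nlinarith [sq_nonneg ‖f i s - f i z‖, sq_nonneg ‖h i s - h i z‖]
    have h3 : ‖h i s - h i z‖ ^ 2 = 0 := by nlinarith [sq_nonneg ‖f i s - f i z‖, sq_nonneg ‖h i s - h i z‖]
    refine ⟨?_, ?_⟩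
    · exact sub_eq_zero.1 (norm_eq_zero.1 (pow_eq_zero_iff (two_ne_zero)|>.1 h2))
    · exact sub_eq_zero.1 (norm_eq_zero.1 (pow_eq_zero_iff (two_ne_zero)|>.1 h3))
  refine ⟨?_, ?_⟩
  · have h1 : f i =ᶠ[𝓝 z] fun _ => f i z := hfi.mono (fun s hs => hs.1)
    rw [h1.deriv_eq]; simp
  · have h1 : h i =ᶠ[𝓝 z] fun _ => h i z := hfi.mono (fun s hs => hs.2)
    rw [h1.deriv_eq]; simp

end Pool.Agent.MSU

end

section

/-! Sums of squares with exponents of positive sum at the three punctures vanish. -/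

open Matrix Polynomial Filter Topology
open scoped ComplexConjugate ComplexOrder

namespace Pool.Agent.MSU

namespace ItemMSH2

lemma rpow_le_two {t b : ℝ} (h1 : 1 / 2 ≤ t) (h2 : t ≤ 2) : t ^ b ≤ 2 ^ |b| := by
  have ht : 0 < t := by linarith
  rcases le_total 0 b with hb | hb
  · rw [abs_of_nonneg hb]
    exact Real.rpow_le_rpow ht.le h2 hb
  · rw [abs_of_nonpos hb]
    have h3 : t ^ b = (t⁻¹) ^ (-b) := by
      rw [Real.inv_rpow ht.le, Real.rpow_neg ht.le, inv_inv]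
    rw [h3]
    refine Real.rpow_le_rpow (inv_nonneg.mpr ht.le) ?_ (by linarith)
    rw [inv_le_comm₀ ht (by norm_num)]
    linarith

lemma near_one {ζ : ℂ} (h : ‖ζ‖ ≤ 1 / 2) : 1 / 2 ≤ ‖1 + ζ‖ ∧ ‖1 + ζ‖ ≤ 2 := by
  have h1 : ‖(1 : ℂ)‖ ≤ ‖1 + ζ‖ + ‖ζ‖ := by
    have := norm_sub_le (1 + ζ) ζ
    have h2 : 1 + ζ - ζ = 1 := by ring
    rwa [h2] at this
  have h3 := norm_add_le (1 : ℂ) ζ
  rw [norm_one] at h1 h3
  exact ⟨by linarith, by linarith⟩

/-- the weight of the twist at a point -/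
noncomputable def wt (al be : ℝ) (z : ℂ) : ℝ := ‖z‖ ^ (-al) * ‖z - 1‖ ^ (-be)

lemma wt_bound (e : Fin 3 → ℝ) (al be δ : ℝ) (h0 : e 0 - al = δ) (h1 : e 1 - be = δ)
    (h2 : e 2 + al + be = 2 * δ) (hδ : 0 < δ) (x : Fin 3) :
    ∀ ζ : ℂ, ζ ≠ 0 → ‖ζ‖ ≤ 1 / 2 →
      ‖ζ‖ ^ (e x) * wt al be (cz x ζ) ≤ 2 ^ (|al| + |be|) * ‖ζ‖ ^ δ := by
  intro ζ hζ hn
  have hp : 0 < ‖ζ‖ := norm_pos_iff.mpr hζ
  have hA : (1 : ℝ) ≤ 2 ^ |al| := Real.one_le_rpow (by norm_num) (abs_nonneg _)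
  have hB : (1 : ℝ) ≤ 2 ^ |be| := Real.one_le_rpow (by norm_num) (abs_nonneg _)
  have hAB : (2 : ℝ) ^ (|al| + |be|) = 2 ^ |al| * 2 ^ |be| := Real.rpow_add (by norm_num) _ _
  have hAle : (2 : ℝ) ^ |al| ≤ 2 ^ (|al| + |be|) := by
    rw [hAB]; exact le_mul_of_one_le_right (by positivity) hB
  have hBle : (2 : ℝ) ^ |be| ≤ 2 ^ (|al| + |be|) := by
    rw [hAB]; exact le_mul_of_one_le_left (by positivity) hA
  have hpd : 0 < ‖ζ‖ ^ δ := Real.rpow_pos_of_pos hp _
  fin_cases x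
  · show ‖ζ‖ ^ (e 0) * wt al be (cz 0 ζ) ≤ _
    rw [cz_zero, wt]
    have e1 : ‖ζ - 1‖ = ‖1 + -ζ‖ := by rw [← norm_neg]; congr 1; ring
    obtain ⟨c1, c2⟩ := near_one (ζ := -ζ) (by rwa [norm_neg])
    have h3 : ‖ζ - 1‖ ^ (-be) ≤ 2 ^ |be| := by
      rw [e1, ← abs_neg]
      exact rpow_le_two c1 c2
    have h4 : ‖ζ‖ ^ (e 0) * ‖ζ‖ ^ (-al) = ‖ζ‖ ^ δ := by
      rw [← Real.rpow_add hp]; congr 1
    calc ‖ζ‖ ^ (e 0) * (‖ζ‖ ^ (-al) * ‖ζ - 1‖ ^ (-be))
        = ‖ζ‖ ^ δ * ‖ζ - 1‖ ^ (-be) := by rw [← mul_assoc, h4]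
      _ ≤ ‖ζ‖ ^ δ * 2 ^ (|al| + |be|) := by gcongr; exact h3.trans hBle
      _ = _ := mul_comm _ _
  · show ‖ζ‖ ^ (e 1) * wt al be (cz 1 ζ) ≤ _
    rw [cz_one, wt]
    have e1 : (1 : ℂ) + ζ - 1 = ζ := by ring
    obtain ⟨c1, c2⟩ := near_one hn
    have h3 : ‖1 + ζ‖ ^ (-al) ≤ 2 ^ |al| := by
      rw [← abs_neg]
      exact rpow_le_two c1 c2
    have h4 : ‖ζ‖ ^ (e 1) * ‖ζ‖ ^ (-be) = ‖ζ‖ ^ δ := by
      rw [← Real.rpow_add hp]; congr 1
    rw [e1]
    calc ‖ζ‖ ^ (e 1) * (‖1 + ζ‖ ^ (-al) * ‖ζ‖ ^ (-be))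
        = ‖1 + ζ‖ ^ (-al) * (‖ζ‖ ^ (e 1) * ‖ζ‖ ^ (-be)) := by ring
      _ = ‖1 + ζ‖ ^ (-al) * ‖ζ‖ ^ δ := by rw [h4]
      _ ≤ 2 ^ (|al| + |be|) * ‖ζ‖ ^ δ := by gcongr; exact h3.trans hAle
  · show ‖ζ‖ ^ (e 2) * wt al be (cz 2 ζ) ≤ _
    rw [cz_two, wt]
    have e1 : -ζ⁻¹ - 1 = -((1 + ζ) * ζ⁻¹) := by
      field_simp
      ring
    obtain ⟨c1, c2⟩ := near_one hn
    have h3 : ‖1 + ζ‖ ^ (-be) ≤ 2 ^ |be| := by
      rw [← abs_neg]
      exact rpow_le_two c1 c2
    have e2 : ‖-ζ⁻¹‖ ^ (-al) = ‖ζ‖ ^ al := by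
      rw [norm_neg, norm_inv, Real.inv_rpow hp.le, Real.rpow_neg hp.le, inv_inv]
    have e3 : ‖-ζ⁻¹ - 1‖ ^ (-be) = ‖1 + ζ‖ ^ (-be) * ‖ζ‖ ^ be := by
      rw [e1, norm_neg, norm_mul, norm_inv, Real.mul_rpow (norm_nonneg _)
        (inv_nonneg.mpr hp.le), Real.inv_rpow hp.le, Real.rpow_neg hp.le, inv_inv]
    have h4 : ‖ζ‖ ^ (e 2) * ‖ζ‖ ^ al * ‖ζ‖ ^ be = ‖ζ‖ ^ (2 * δ) := by
      rw [← Real.rpow_add hp, ← Real.rpow_add hp]; congr 1
    have h5 : ‖ζ‖ ^ (2 * δ) ≤ ‖ζ‖ ^ δ :=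
      Real.rpow_le_rpow_of_exponent_ge hp (by linarith) (by linarith)
    rw [e2, e3]
    calc ‖ζ‖ ^ (e 2) * (‖ζ‖ ^ al * (‖1 + ζ‖ ^ (-be) * ‖ζ‖ ^ be))
        = ‖1 + ζ‖ ^ (-be) * (‖ζ‖ ^ (e 2) * ‖ζ‖ ^ al * ‖ζ‖ ^ be) := by ring
      _ = ‖1 + ζ‖ ^ (-be) * ‖ζ‖ ^ (2 * δ) := by rw [h4]
      _ ≤ 2 ^ (|al| + |be|) * ‖ζ‖ ^ δ := by gcongr; exact h3.trans hBle

/-- the twist -/
noncomputable def twist (al be : ℝ) (j : Fin 3) (z : ℂ) : ℂ :=
  Complex.exp (((-al : ℝ) : ℂ) * Lg0 j z) * Complex.exp (((-be : ℝ) : ℂ) * Lg1 j z)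

lemma twist_ne (al be : ℝ) (j : Fin 3) (z : ℂ) : twist al be j z ≠ 0 :=
  mul_ne_zero (Complex.exp_ne_zero _) (Complex.exp_ne_zero _)

lemma twist_norm (al be : ℝ) {j : Fin 3} {z : ℂ} (h : z ∈ V j) : ‖twist al be j z‖ = wt al be z := by
  rw [twist, norm_mul, norm_exp_real_mul_Lg0 h, norm_exp_real_mul_Lg1 h, wt]

lemma twist_diff (al be : ℝ) (j : Fin 3) : DifferentiableOn ℂ (twist al be j) (V j) := by
  intro z hz
  have h0 := (Lg0_deriv hz).differentiableAt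
  have h1 := (Lg1_deriv hz).differentiableAt
  exact (((h0.const_mul _).cexp).mul ((h1.const_mul _).cexp)).differentiableWithinAt

end ItemMSH2

open ItemMSH2 in
theorem prf_M_SH2 (hH : M_SH1) : M_SH2 := by
  intro ι _ f e hf hs hb hsum
  set s : ℝ := ∑ x, e x with hsdef
  have hs3 : s = e 0 + e 1 + e 2 := by rw [hsdef, Fin.sum_univ_three]
  set al : ℝ := e 0 - s / 4 with hal
  set be : ℝ := e 1 - s / 4 with hbe
  set δ : ℝ := s / 4 with hδ
  have hδ0 : 0 < δ := by positivity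
  have hw := wt_bound e al be δ (by rw [hal]; ring) (by rw [hbe]; ring)
    (by rw [hal, hbe, hδ, hs3]; ring) hδ0
  let g : Fin 3 → ι → ℂ → ℂ := fun j i z => f j i z * twist al be j z
  have hgd : ∀ j i, DifferentiableOn ℂ (g j i) (V j) := fun j i => (hf j i).mul (twist_diff al be j)
  have hgn : ∀ (j : Fin 3) (i : ι) (z : ℂ), z ∈ V j → ‖g j i z‖ = ‖f j i z‖ * wt al be z := by
    intro j i z hz
    show ‖f j i z * twist al be j z‖ = _
    rw [norm_mul, twist_norm al be hz]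
  have hwt0 : ∀ z, 0 ≤ wt al be z := fun z => by
    unfold wt
    positivity
  -- the bound near a puncture
  have hbd : ∀ x : Fin 3, ∃ C ρ : ℝ, 0 ≤ C ∧ 0 < ρ ∧ ρ ≤ 1 / 2 ∧ ∀ ζ : ℂ, ‖ζ‖ < ρ →
      (ζ ∈ Sa → ∀ i, ‖g x i (cz x ζ)‖ ≤ C * ‖ζ‖ ^ δ) ∧
      (ζ ∈ Sb → ∀ i, ‖g (x + 1) i (cz x ζ)‖ ≤ C * ‖ζ‖ ^ δ) := by
    intro x
    obtain ⟨C, ρ, hρ, hρ2, hC⟩ := hb x
    refine ⟨|C| * 2 ^ (|al| + |be|), ρ, by positivity, hρ, hρ2, fun ζ hζ => ?_⟩
    have main : ∀ j, cz x ζ ∈ V j → ζ ≠ 0 → (∀ i, ‖f j i (cz x ζ)‖ ≤ C * ‖ζ‖ ^ (e x)) →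
        ∀ i, ‖g j i (cz x ζ)‖ ≤ |C| * 2 ^ (|al| + |be|) * ‖ζ‖ ^ δ := by
      intro j hj h0 hfj i
      rw [hgn j i _ hj]
      have h1 : ‖f j i (cz x ζ)‖ ≤ |C| * ‖ζ‖ ^ (e x) :=
        (hfj i).trans (mul_le_mul_of_nonneg_right (le_abs_self C) (by positivity))
      calc ‖f j i (cz x ζ)‖ * wt al be (cz x ζ)
          ≤ |C| * ‖ζ‖ ^ (e x) * wt al be (cz x ζ) := mul_le_mul_of_nonneg_right h1 (hwt0 _)
        _ = |C| * (‖ζ‖ ^ (e x) * wt al be (cz x ζ)) := by ring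
        _ ≤ |C| * (2 ^ (|al| + |be|) * ‖ζ‖ ^ δ) :=
            mul_le_mul_of_nonneg_left (hw x ζ h0 (by linarith)) (abs_nonneg _)
        _ = _ := by ring
    exact ⟨fun hS => main x (cz_mem_a x (by linarith) hS) (Sa_ne hS) ((hC ζ hζ).1 hS),
      fun hS => main (x + 1) (cz_mem_b x (by linarith) hS) (Sb_ne hS) ((hC ζ hζ).2 hS)⟩
  have hder := hH ι g (fun _ _ _ => 0) hgd (fun _ _ => differentiableOn_const 0) (by
      intro j j' z hz hz'
      simp only [map_zero, add_zero]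
      have h1 : ∀ j, z ∈ V j → ∑ i, ‖g j i z‖ ^ 2 = (∑ i, ‖f j i z‖ ^ 2) * wt al be z ^ 2 := by
        intro j hj
        rw [Finset.sum_mul]
        exact Finset.sum_congr rfl fun i _ => by rw [hgn j i z hj, mul_pow]
      rw [h1 j hz, h1 j' hz', hs j j' z hz hz']) (by
      intro x
      obtain ⟨C, ρ, hC0, hρ, hρ2, hC⟩ := hbd x
      refine ⟨∑ _i : ι, C ^ 2, ρ, hρ, hρ2, fun ζ hζ => ?_⟩
      simp only [map_zero, add_zero]
      have hle : ‖ζ‖ ^ δ ≤ 1 := Real.rpow_le_one (norm_nonneg _) (by linarith) hδ0.le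
      have main : ∀ j, (∀ i, ‖g j i (cz x ζ)‖ ≤ C * ‖ζ‖ ^ δ) →
          ∑ i, ‖g j i (cz x ζ)‖ ^ 2 ≤ ∑ _i : ι, C ^ 2 := by
        intro j hj
        refine Finset.sum_le_sum fun i _ => ?_
        refine pow_le_pow_left₀ (norm_nonneg _) ((hj i).trans ?_) 2
        exact mul_le_of_le_one_right hC0 hle
      exact ⟨fun hS => main x ((hC ζ hζ).1 hS), fun hS => main (x + 1) ((hC ζ hζ).2 hS)⟩)
  intro j i z hz
  have hconst : ∀ z' ∈ V j, g j i z = g j i z' := fun z' hz' =>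
    (V_open j).is_const_of_deriv_eq_zero (V_preconnected j) (hgd j i)
      (fun y hy => (hder j i y hy).1) hz hz'
  have hg0 : g j i z = 0 := by
    obtain ⟨C, ρ, hC0, hρ, hρ2, hC⟩ := hbd j
    have hlim : Tendsto (fun t : ℝ => C * t ^ δ) (𝓝[>] 0) (𝓝 0) := by
      have h1 : ContinuousAt (fun t : ℝ => C * t ^ δ) 0 :=
        continuousAt_const.mul (Real.continuousAt_rpow_const 0 δ (Or.inr hδ0.le))
      have h2 := h1.tendsto
      simp only [Real.zero_rpow hδ0.ne', mul_zero] at h2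
      exact h2.mono_left nhdsWithin_le_nhds
    have hle : ‖g j i z‖ ≤ 0 := by
      refine ge_of_tendsto hlim ?_
      filter_upwards [Ioo_mem_nhdsGT hρ] with t ht
      have hn : ‖(-(t : ℂ))‖ = t := by
        rw [norm_neg, Complex.norm_real, Real.norm_of_nonneg ht.1.le]
      have hSa : (-(t : ℂ)) ∈ Sa := Or.inr (by simpa using ht.1)
      have h1 := (hC (-(t : ℂ)) (by rw [hn]; exact ht.2)).1 hSa i
      rw [hn] at h1
      rw [hconst _ (cz_mem_a j (by rw [hn]; linarith [ht.2]) hSa)]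
      exact h1
    exact norm_le_zero_iff.mp hle
  exact (mul_eq_zero.mp hg0).resolve_right (twist_ne al be j z)

end Pool.Agent.MSU

end

section

/-! Strong maximum principle for continuous functions with the local sub-mean value property. -/

open Filter Topology Metric Set

namespace Pool.Agent.MSU

theorem prf_M_Strong : M_Strong := by
  intro U u hU hpre hcont hLSM z0 hz0 hmax
  set S : Set ℂ := U ∩ u ⁻¹' {u z0} with hS
  -- `S` is open
  have hSopen : IsOpen S := by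
    rw [Metric.isOpen_iff]
    rintro z ⟨hzU, hz⟩
    have hz' : u z = u z0 := hz
    obtain ⟨r0, hr0, hsub⟩ := hLSM z hzU
    obtain ⟨δ, hδ, hball⟩ := Metric.isOpen_iff.mp hU z hzU
    refine ⟨min r0 δ, lt_min hr0 hδ, fun s hs => ?_⟩
    rw [mem_ball] at hs
    have hs1 : dist s z < r0 := lt_of_lt_of_le hs (min_le_left _ _)
    have hs2 : dist s z < δ := lt_of_lt_of_le hs (min_le_right _ _)
    have hsU : s ∈ U := hball (by rwa [mem_ball])
    refine ⟨hsU, ?_⟩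
    rcases eq_or_lt_of_le (dist_nonneg (x := s) (y := z)) with h | h
    · have : s = z := dist_eq_zero.mp h.symm
      rw [this]; exact hz
    · have hsph : sphere z (dist s z) ⊆ U := fun y hy => hball (by
        rw [mem_ball]; rw [mem_sphere] at hy; linarith)
      exact Pool.Agent.Work.MP_63d28d_an.eq_of_le_circleAverage h (hcont.mono hsph)
        (fun y hy => hmax y (hsph hy)) (by rw [← hz']; exact hsub _ h hs1) s (mem_sphere.mpr rfl)
  -- the complement in `U` is open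
  have hTopen : IsOpen (U ∩ u ⁻¹' {u z0}ᶜ) :=
    hcont.isOpen_inter_preimage hU isOpen_compl_singleton
  intro z hz
  by_contra hne
  have h1 := hpre S (U ∩ u ⁻¹' {u z0}ᶜ) hSopen hTopen
    (fun y hy => by
      by_cases h : u y = u z0
      · exact Or.inl ⟨hy, h⟩
      · exact Or.inr ⟨hy, h⟩)
    ⟨z0, hz0, hz0, rfl⟩ ⟨z, hz, hz, hne⟩
  obtain ⟨y, -, hy1, hy2⟩ := h1
  exact hy2.2 hy1.2

end Pool.Agent.MSU

end
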