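import Mathlib
import Pool.Agent.Work.MP_5e5ff1_ag.Bd.B04
import Pool.Agent.Work.MP_5e5ff1_ag.Bd.B01
import Pool.Agent.Work.MP_5e5ff1_ag.Unit.Stmts
import Pool.Agent.Work.MP_5e5ff1_ag.Bd.B06
import Pool.Agent.Work.MP_5e5ff1_ag.Bd.B07
import Pool.Agent.Work.MP_5e5ff1_ag.Unit.ItemPCrit
import Pool.Agent.Work.MP_5e5ff1_ag.A.Main
import Pool.Agent.Work.MP_5e5ff1_ag.T.Minors

/-! Bundle of small proof modules (one section per former module). -/

section

/-! Item `N_Pert`: weights in closed windows of length one are limits of injective weights in open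
windows, with the same sum. -/

open Filter Topology

namespace Pool.Agent.MSU

namespace ItemNPert

/-- rank of an index -/
noncomputable def rk {r : ℕ} (v : Fin r → ℝ) (a : Fin r) : ℝ :=
  (((Tuple.sort v).symm a : Fin r) : ℕ)

theorem rk_sum {r : ℕ} (v : Fin r → ℝ) : ∑ a, (rk v a - ((r : ℝ) - 1) / 2) = 0 := by
  have h : ∑ a, rk v a = (r : ℝ) * (r - 1) / 2 := by
    unfold rk
    rw [Equiv.sum_comp (Tuple.sort v).symm (fun k : Fin r => ((k : ℕ) : ℝ))]
    rw [Fin.sum_univ_eq_sum_range (fun k => (k : ℝ)) r]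
    clear v
    induction r with
    | zero => simp
    | succ n ih =>
      rw [Finset.sum_range_succ, ih]
      push_cast
      ring
  rw [Finset.sum_sub_distrib, h]
  simp only [Finset.sum_const, Finset.card_univ, Fintype.card_fin, nsmul_eq_mul]
  ring

theorem rk_nonneg {r : ℕ} (v : Fin r → ℝ) (a : Fin r) : 0 ≤ rk v a := Nat.cast_nonneg _

theorem rk_le {r : ℕ} (v : Fin r → ℝ) (a : Fin r) : rk v a ≤ r - 1 := by
  unfold rk
  have h := ((Tuple.sort v).symm a).isLt
  have h2 : (((Tuple.sort v).symm a : Fin r) : ℕ) + 1 ≤ r := h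
  have h3 : ((((Tuple.sort v).symm a : Fin r) : ℕ) : ℝ) + 1 ≤ r := by exact_mod_cast h2
  linarith

theorem rk_lt {r : ℕ} (v : Fin r → ℝ) (a b : Fin r) (h : rk v a < rk v b) : v a ≤ v b := by
  unfold rk at h
  have h1 : (Tuple.sort v).symm a ≤ (Tuple.sort v).symm b := by
    rw [Fin.le_def]
    have : (((Tuple.sort v).symm a : Fin r) : ℕ) < (((Tuple.sort v).symm b : Fin r) : ℕ) := by
      exact_mod_cast h
    exact this.le
  have := Tuple.monotone_sort v h1
  simpa using this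

theorem rk_inj {r : ℕ} (v : Fin r → ℝ) (a b : Fin r) (h : rk v a = rk v b) : a = b := by
  unfold rk at h
  have h1 : (((Tuple.sort v).symm a : Fin r) : ℕ) = (((Tuple.sort v).symm b : Fin r) : ℕ) := by
    exact_mod_cast h
  exact (Tuple.sort v).symm.injective (Fin.ext h1)

/-- the small parameter -/
noncomputable def eta (r n : ℕ) : ℝ := 1 / ((n : ℝ) + 1 + (r + 1))

theorem eta_pos (r n : ℕ) : 0 < eta r n := by unfold eta; positivity

theorem eta_mul (r n : ℕ) : eta r n * ((r : ℝ) - 1) < 1 := by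
  unfold eta
  rw [one_div, inv_mul_lt_iff₀ (by positivity)]
  have : (0:ℝ) ≤ n := Nat.cast_nonneg n
  linarith

theorem eta_lt (r n : ℕ) : eta r n < 1 := by
  unfold eta
  rw [div_lt_one (by positivity)]
  have : (0:ℝ) ≤ n := Nat.cast_nonneg n
  have : (0:ℝ) ≤ r := Nat.cast_nonneg r
  linarith

theorem eta_tendsto (r : ℕ) : Tendsto (fun n => eta r n) atTop (𝓝 0) := by
  unfold eta
  have h1 : Tendsto (fun n : ℕ => (n : ℝ) + 1 + (r + 1)) atTop atTop := by
    have : Tendsto (fun n : ℕ => (n : ℝ)) atTop atTop := tendsto_natCast_atTop_atTop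
    exact (tendsto_atTop_add_const_right _ _ (tendsto_atTop_add_const_right _ _ this))
  have h2 := h1.inv_tendsto_atTop
  refine h2.congr (fun n => ?_)
  simp [one_div]

/-- the perturbed weights -/
noncomputable def pw {r : ℕ} (v : Fin r → ℝ) (n : ℕ) (a : Fin r) : ℝ :=
  (1 - eta r n) * v a + eta r n ^ 2 * (rk v a - ((r : ℝ) - 1) / 2)

theorem pw_lt {r : ℕ} (v : Fin r → ℝ) (n : ℕ) (a b : Fin r) (h : rk v a < rk v b) :
    pw v n a < pw v n b := by
  unfold pw
  have h1 := rk_lt v a b h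
  have h2 := eta_pos r n
  have h3 := eta_lt r n
  have h4 : (1 - eta r n) * v a ≤ (1 - eta r n) * v b :=
    mul_le_mul_of_nonneg_left h1 (by linarith)
  have h5 : eta r n ^ 2 * (rk v a - ((r : ℝ) - 1) / 2) < eta r n ^ 2 * (rk v b - ((r : ℝ) - 1) / 2) :=
    mul_lt_mul_of_pos_left (by linarith) (by positivity)
  linarith

end ItemNPert

open ItemNPert in
theorem prf_N_Pert : N_Pert := by
  intro r u hu hsum
  refine ⟨fun n x a => pw (u x) n a, ?_, ?_, ?_⟩
  · intro n x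
    refine ⟨?_, ?_⟩
    · intro a b hab
      rcases lt_trichotomy (rk (u x) a) (rk (u x) b) with h | h | h
      · exact absurd hab (pw_lt (u x) n a b h).ne
      · exact rk_inj _ _ _ h
      · exact absurd hab (pw_lt (u x) n b a h).ne'
    · intro i j
      show pw (u x) n j - pw (u x) n i < 1
      unfold pw
      have h1 := hu x i j
      have h2 := eta_pos r n
      have h3 := eta_lt r n
      have h4 : (1 - eta r n) * (u x j - u x i) ≤ (1 - eta r n) * 1 :=
        mul_le_mul_of_nonneg_left h1 (by linarith)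
      have h5 : rk (u x) j - rk (u x) i ≤ (r : ℝ) - 1 := by
        linarith [rk_le (u x) j, rk_nonneg (u x) i]
      have h6 : eta r n ^ 2 * (rk (u x) j - rk (u x) i) ≤ eta r n ^ 2 * ((r : ℝ) - 1) :=
        mul_le_mul_of_nonneg_left h5 (by positivity)
      have h7 : eta r n * (eta r n * ((r : ℝ) - 1)) < eta r n * 1 :=
        mul_lt_mul_of_pos_left (eta_mul r n) h2
      nlinarith
  · intro n
    have : ∀ x : Fin 3, ∑ i, pw (u x) n i = (1 - eta r n) * ∑ i, u x i := by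
      intro x
      unfold pw
      rw [Finset.sum_add_distrib, ← Finset.mul_sum, ← Finset.mul_sum, rk_sum, mul_zero, add_zero]
    simp only [this]
    rw [← Finset.mul_sum, hsum, mul_zero]
  · intro x a
    have h1 : Tendsto (fun n => (1 - eta r n) * u x a
        + eta r n ^ 2 * (rk (u x) a - ((r : ℝ) - 1) / 2)) atTop
        (𝓝 ((1 - 0) * u x a + 0 ^ 2 * (rk (u x) a - ((r : ℝ) - 1) / 2))) :=
      ((tendsto_const_nhds.sub (eta_tendsto r)).mul_const _).add
        (((eta_tendsto r).pow 2).mul_const _)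
    simpa [pw] using h1

end Pool.Agent.MSU

end

section

/-! From increasing weights to different weights. -/

open Matrix Polynomial Filter Topology

namespace Pool.Agent.MSU

theorem prf_N_Sort (hM : T_MSB) : N_Sort := by
  intro r γ w hγ hwin hsum hs
  set sg : Fin 3 → Equiv.Perm (Fin r) := fun x => Tuple.sort (w x) with hsg
  have hmono : ∀ x, StrictMono (fun a => w x (sg x a)) := by
    intro x
    have h1 : Monotone (w x ∘ Tuple.sort (w x)) := Tuple.monotone_sort (w x)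
    exact h1.strictMono_of_injective ((hwin x).1.comp (sg x).injective)
  have hmn : ∀ (x : Fin 3) {k : ℕ} (W : Matrix (Fin r) (Fin k) ℂ[X]) (J : Fin k → Fin r),
      mn ((γ x).submatrix (sg x) id) W J = mn (γ x) W (fun l => sg x (J l)) := by
    intro x k W J
    unfold mn
    congr 1
  have h1 : SolG (fun x => (γ x).submatrix (sg x) id) (fun x a => w x (sg x a)) := by
    apply hM
    · intro x
      have h2 : ((γ x).submatrix (sg x) id).det = (Equiv.Perm.sign (sg x) : ℂ) * (γ x).det := by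
        rw [Matrix.det_permute]
      rw [h2]
      refine IsUnit.mul ?_ (hγ x)
      rcases Int.units_eq_one_or (Equiv.Perm.sign (sg x)) with h | h <;> simp [h]
    · exact ⟨hmono, fun x i j => (hwin x).2 _ _⟩
    · rw [← hsum]
      apply Finset.sum_congr rfl
      intro x _
      exact Equiv.sum_comp (sg x) (w x)
    · intro k hk hkr W hW
      obtain ⟨J, hJ, hpos⟩ := hs k hk hkr W hW
      refine ⟨fun x l => (sg x).symm (J x l), ?_, ?_⟩
      · intro x
        rw [hmn]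
        simpa using hJ x
      · simp only [hmn, Equiv.apply_symm_apply]
        exact hpos
  obtain ⟨G, Q, hMV, hrow, hdet, hcp⟩ := h1
  refine ⟨G, Q, hMV, ?_, hdet, ?_⟩
  · intro x
    obtain ⟨C, ρ, hρ, hρ', hb⟩ := hrow x
    refine ⟨C, ρ, hρ, hρ', fun ζ hζ => ⟨fun hS a b => ?_, fun hS a b => ?_⟩⟩
    · have h2 := (hb ζ hζ).1 hS ((sg x).symm a) b
      simp only [Equiv.apply_symm_apply] at h2
      convert h2 using 2
      simp [Matrix.mul_apply]
    · have h2 := (hb ζ hζ).2 hS ((sg x).symm a) b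
      simp only [Equiv.apply_symm_apply] at h2
      convert h2 using 2
      simp [Matrix.mul_apply]
  · intro x
    rw [hcp x]
    exact Equiv.prod_comp (sg x)
      (fun j => (X - C (Complex.exp (-(2 * Real.pi * Complex.I * (w x j : ℂ))))))

end Pool.Agent.MSU

end

section

/-! One step of the change of the lattice. -/

open Matrix Polynomial Filter Topology

namespace Pool.Agent.MSU

theorem prf_N_Step (hO : N_Open) (hT : N_Trans) (hB : N_Back) (hL : N_Limit) : N_Step := by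
  intro r γ w hγ h2 hsum hcw i j hij hw hs hsol
  have hε : Tendsto (fun n : ℕ => (((n : ℝ) + 1)⁻¹ : ℝ)) atTop (𝓝 0) := by
    have := tendsto_one_div_add_atTop_nhds_zero_nat (𝕜 := ℝ)
    simpa [one_div] using this
  have hεc : Tendsto (fun n : ℕ => ((((n : ℝ) + 1)⁻¹ : ℝ) : ℂ)) atTop (𝓝 0) := by
    exact (Complex.continuous_ofReal.tendsto' 0 0 Complex.ofReal_zero).comp hε
  have h1 := hO r γ w hγ h2 hs i j hij (fun n : ℕ => ((((n : ℝ) + 1)⁻¹ : ℝ) : ℂ)) (fun _ => w)
    hεc (fun x a => tendsto_const_nhds)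
  obtain ⟨n0, hn0⟩ := eventually_atTop.mp h1
  refine hL r γ w hγ h2 hsum hs i j hij (fun n : ℕ => ((((n + n0 : ℕ) : ℝ) + 1)⁻¹ : ℝ))
    (fun _ => w) (hεc.comp (tendsto_add_atTop_nat n0)) (fun x a => tendsto_const_nhds) ?_
  intro n
  have hne : ((((((n + n0 : ℕ) : ℝ) + 1)⁻¹ : ℝ)) : ℂ) ≠ 0 := by
    rw [Complex.ofReal_ne_zero]
    positivity
  refine hB r γ w hγ h2 hcw i j hij hw _ hne (hsol _ hne ?_)
  exact hT r γ w hγ h2 hcw i j hij hw _ hne (hn0 (n + n0) (Nat.le_add_left _ _))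

end Pool.Agent.MSU

end

section

/-! Item N_Trans: transfer of stability by the change of basis. -/

open Matrix Polynomial Filter Topology
open Pool.Agent.Work.MP_5e5ff1_ag.T

namespace Pool.Agent.MSU.ItemNTrans

variable {R : Type*} [CommRing R] {r : ℕ}

/-- the matrix `[[a, b], [d, e]]` in the plane `(i, j)`, scalar `c` elsewhere -/
def emb (i j : Fin r) (c a b d e : R) : Matrix (Fin r) (Fin r) R :=
  Matrix.of fun x y => if x = i then (if y = i then a else if y = j then b else 0)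
    else if x = j then (if y = i then d else if y = j then e else 0) else if x = y then c else 0

lemma sum_two {i j : Fin r} (hij : i ≠ j) (a b : R) (f : Fin r → R) :
    ∑ z, (if z = i then a else if z = j then b else 0) * f z = a * f i + b * f j := by
  have : ∀ z, (if z = i then a else if z = j then b else 0) * f z
      = (if z = i then a * f z else 0) + (if z = j then b * f z else 0) := by
    intro z
    by_cases h1 : z = i
    · subst h1; simp [hij]
    · simp [h1]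
  simp only [this, Finset.sum_add_distrib, Finset.sum_ite_eq', Finset.mem_univ, if_true]

lemma emb_mul {i j : Fin r} (hij : i ≠ j) (c a b d e c' a' b' d' e' : R) :
    emb i j c a b d e * emb i j c' a' b' d' e'
      = emb i j (c * c') (a * a' + b * d') (a * b' + b * e') (d * a' + e * d') (d * b' + e * e') := by
  have hji : j ≠ i := hij.symm
  ext x y
  rw [Matrix.mul_apply]
  by_cases h1 : x = i
  · subst h1
    simp only [emb, Matrix.of_apply, if_true]
    rw [sum_two hij]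
    simp only [if_true, hji, if_false]
    split_ifs <;> ring
  by_cases h2 : x = j
  · subst h2
    simp only [emb, Matrix.of_apply, if_true, h1, if_false]
    rw [sum_two hij]
    simp only [if_true, h1, if_false]
    split_ifs <;> ring
  · simp only [emb, Matrix.of_apply, h1, h2, if_false]
    rw [Finset.sum_eq_single x]
    · simp only [if_true, h1, h2, if_false]
      split_ifs <;> ring
    · intro z _ hz
      rw [if_neg (Ne.symm hz), zero_mul]
    · intro h; exact absurd (Finset.mem_univ x) h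

lemma emb_one {i j : Fin r} (hij : i ≠ j) : emb i j (1 : R) 1 0 0 1 = 1 := by
  have hji : j ≠ i := hij.symm
  ext x y
  simp only [emb, Matrix.of_apply, Matrix.one_apply]
  by_cases h1 : x = i
  · subst h1
    by_cases h2 : y = x
    · subst h2; simp
    · simp [h2, Ne.symm h2]
  by_cases h2 : x = j
  · subst h2
    by_cases h3 : y = x
    · subst h3; simp [hji]
    · by_cases h4 : y = i
      · subst h4; simp [h1]
      · simp [h3, h4, h1, Ne.symm h3]
  · simp [h1, h2]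

lemma NN_eq {i j : Fin r} (hij : i ≠ j) (ε t : ℂ) : NN i j ε t = emb i j 1 t ε (-ε⁻¹) 0 := by
  have hji : j ≠ i := hij.symm
  ext x y
  simp only [NN, emb, Matrix.of_apply, Matrix.add_apply, Matrix.sub_apply, Matrix.smul_apply,
    Matrix.one_apply, Matrix.single_apply, smul_eq_mul]
  by_cases h1 : x = i
  · subst h1
    by_cases h2 : y = x
    · subst h2; simp [hij, hji]
    · by_cases h3 : y = j
      · subst h3; simp [hij, hji, Ne.symm h2]
      · simp [h2, h3, hij, hji, Ne.symm h2, Ne.symm h3]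
  by_cases h2 : x = j
  · subst h2
    by_cases h3 : y = x
    · subst h3; simp [hij, hji]
    · by_cases h4 : y = i
      · subst h4; simp [hij, hji]
      · simp [h3, h4, h1, hij, hji, Ne.symm h3, Ne.symm h4]
  · simp [h1, h2, Ne.symm h1, Ne.symm h2]

lemma emb_map {S : Type*} [CommRing S] (f : R →+* S) (i j : Fin r) (c a b d e : R) :
    (emb i j c a b d e).map f = emb i j (f c) (f a) (f b) (f d) (f e) := by
  ext x y
  simp only [emb, Matrix.map_apply, Matrix.of_apply]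
  split_ifs <;> simp

lemma NN_map {i j : Fin r} (hij : i ≠ j) (ε t : ℂ) :
    (NN i j ε t).map (C : ℂ → ℂ[X]) = emb i j 1 (C t) (C ε) (-(C ε⁻¹)) 0 := by
  rw [NN_eq hij]
  have := emb_map (C : ℂ →+* ℂ[X]) i j 1 t ε (-ε⁻¹) 0
  simpa using this

lemma Rh_eq {i j : Fin r} (hij : i ≠ j) (ε : ℂ) : Rh i j ε = emb i j X X (C ε) 0 X := by
  have hji : j ≠ i := hij.symm
  ext1 x y
  simp only [Rh, emb, Matrix.of_apply, Matrix.add_apply, Matrix.smul_apply,
    Matrix.one_apply, Matrix.single_apply, smul_eq_mul]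
  by_cases h1 : x = i
  · subst h1
    by_cases h2 : y = x
    · subst h2; simp [hji]
    · by_cases h3 : y = j
      · subst h3; simp [hij, hji]
      · simp [h2, h3, Ne.symm h2, Ne.symm h3]
  by_cases h2 : x = j
  · subst h2
    by_cases h3 : y = x
    · subst h3; simp [hij, hji]
    · by_cases h4 : y = i
      · subst h4; simp [hji, hij]
      · simp [h3, h4, h1, hij, Ne.symm h3]
  · simp [h1, h2, Ne.symm h1]

/-- the inverse change of basis over the polynomials -/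
noncomputable def Ni (i j : Fin r) (ε : ℂ) : Matrix (Fin r) (Fin r) ℂ[X] :=
  emb i j 1 0 (-(C ε)) (C ε⁻¹) X

/-- the change of basis over the polynomials -/
noncomputable def Np (i j : Fin r) (ε : ℂ) : Matrix (Fin r) (Fin r) ℂ[X] :=
  emb i j 1 X (C ε) (-(C ε⁻¹)) 0

lemma CC {ε : ℂ} (hε : ε ≠ 0) : (C ε : ℂ[X]) * C ε⁻¹ = 1 := by
  rw [← C_mul, mul_inv_cancel₀ hε, C_1]

lemma Np_Ni {i j : Fin r} (hij : i ≠ j) {ε : ℂ} (hε : ε ≠ 0) : Np i j ε * Ni i j ε = 1 := by
  have h := CC hε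
  rw [Np, Ni, emb_mul hij, ← emb_one hij]
  congr 1
  · ring
  · linear_combination h
  · ring
  · ring
  · linear_combination h

lemma Ni_NN {i j : Fin r} (hij : i ≠ j) {ε : ℂ} (hε : ε ≠ 0) (t : ℂ) :
    Ni i j ε * (NN i j ε t).map (C : ℂ → ℂ[X])
      = 1 + (X - C t) • ((-ε⁻¹) • Matrix.single j i (1 : ℂ)).map C := by
  have h := CC hε
  have hji : j ≠ i := hij.symm
  rw [NN_map hij, Ni, emb_mul hij]
  have e1 : (1 : Matrix (Fin r) (Fin r) ℂ[X]) + (X - C t) • ((-ε⁻¹) • Matrix.single j i (1 : ℂ)).map C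
      = emb i j 1 1 0 (-(C ε⁻¹) * (X - C t)) 1 := by
    rw [← emb_one hij]
    ext1 x y
    simp only [emb, Matrix.of_apply, Matrix.add_apply, Matrix.smul_apply, Matrix.map_apply,
      Matrix.single_apply, smul_eq_mul]
    by_cases h1 : x = i
    · subst h1; simp [hji]
    by_cases h2 : x = j
    · subst h2
      by_cases h3 : y = i
      · subst h3; simp [hji]; ring
      · simp [h1, h3, Ne.symm h3]
    · simp [h1, h2, Ne.symm h2]
  rw [e1]
  congr 1
  · ring
  · linear_combination h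
  · ring
  · ring
  · linear_combination h

lemma Rh_Ni {i j : Fin r} (hij : i ≠ j) {ε : ℂ} (hε : ε ≠ 0) :
    Rh i j ε * Ni i j ε = emb i j X 1 0 (C ε⁻¹ * X) (X ^ 2) := by
  have h := CC hε
  rw [Rh_eq hij, Ni, emb_mul hij]
  congr 1
  · ring
  · linear_combination h
  · ring
  · ring
  · ring

lemma map_mul_C (A B : Matrix (Fin r) (Fin r) ℂ) :
    (A * B).map (C : ℂ → ℂ[X]) = A.map C * B.map C := by
  ext1 a b
  simp [Matrix.mul_apply, Matrix.map_apply, map_sum]

/-- the transfer at a finite point -/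
lemma at_point (hDom : N_Dom) (hNN : N_NN) {k : ℕ} (g : Matrix (Fin r) (Fin r) ℂ)
    (hg : IsUnit g.det) (w : Fin r → ℝ) (hw : ∀ a b, w b - w a ≤ 1) {i j : Fin r} (hij : i ≠ j)
    {ε : ℂ} (hε : ε ≠ 0) (t : ℂ) (W' : Matrix (Fin r) (Fin k) ℂ[X]) (J : Fin k → Fin r)
    (hJ : mn g (Ni i j ε * W') J ≠ 0) :
    ∃ J' : Fin k → Fin r, mn (g * (NN i j ε t)⁻¹) W' J' ≠ 0 ∧
      ∑ a, w (J a) - ((mn g (Ni i j ε * W') J).rootMultiplicity t : ℝ)
        ≤ ∑ a, w (J' a) - ((mn (g * (NN i j ε t)⁻¹) W' J').rootMultiplicity t : ℝ) := by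
  have hNd : IsUnit (NN i j ε t).det := by rw [hNN r i j ε t hij hε]; exact isUnit_one
  set K : Matrix (Fin r) (Fin r) ℂ := g * ((-ε⁻¹) • Matrix.single j i (1 : ℂ)) * g⁻¹ with hK
  set S : Matrix (Fin r) (Fin r) ℂ[X] := 1 + (X - C t) • K.map C with hS
  have hone : g.map (C : ℂ → ℂ[X]) * (g⁻¹).map C = 1 := by
    rw [← map_mul_C, mul_nonsing_inv _ hg]
    ext1 a b
    simp [Matrix.one_apply, apply_ite]
  have hone2 : (NN i j ε t).map (C : ℂ → ℂ[X]) * ((NN i j ε t)⁻¹).map C = 1 := by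
    rw [← map_mul_C, mul_nonsing_inv _ hNd]
    ext1 a b
    simp [Matrix.one_apply, apply_ite]
  have hone3 : (g⁻¹).map (C : ℂ → ℂ[X]) * g.map C = 1 := by
    rw [← map_mul_C, nonsing_inv_mul _ hg]
    ext1 a b
    simp [Matrix.one_apply, apply_ite]
  have hSeq : S = g.map C * (Ni i j ε * (NN i j ε t).map C) * (g⁻¹).map C := by
    rw [Ni_NN hij hε, hS, hK, map_mul_C, map_mul_C, Matrix.mul_add, Matrix.add_mul, Matrix.mul_one,
      hone, Matrix.mul_smul, Matrix.smul_mul]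
  have hprod : g.map C * (Ni i j ε * W') = S * ((g * (NN i j ε t)⁻¹).map C * W') := by
    rw [hSeq, map_mul_C]
    calc g.map C * (Ni i j ε * W')
        = g.map C * Ni i j ε * ((NN i j ε t).map C * ((NN i j ε t)⁻¹).map C) * W' := by
          rw [hone2, Matrix.mul_one, Matrix.mul_assoc]
      _ = g.map C * Ni i j ε * (NN i j ε t).map C * ((g⁻¹).map C * g.map C)
            * ((NN i j ε t)⁻¹).map C * W' := by
          rw [hone3, Matrix.mul_one]
          simp only [Matrix.mul_assoc]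
      _ = _ := by simp only [Matrix.mul_assoc]
  have hJ1 : ((S * ((g * (NN i j ε t)⁻¹).map C * W')).submatrix J id).det ≠ 0 := by
    rw [← hprod]; exact hJ
  obtain ⟨J', hJ', hne, hle⟩ := hDom r k S _ t J hJ1
  rw [← hprod] at hle
  refine ⟨J', hJ', ?_⟩
  have hterm : ∀ l, w (J l) - w (J' l) ≤ ((S (J l) (J' l)).rootMultiplicity t : ℝ) := by
    intro l
    by_cases e : J l = J' l
    · rw [e, sub_self]; exact Nat.cast_nonneg _
    · have hent : S (J l) (J' l) = (X - C t) * C (K (J l) (J' l)) := by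
        rw [hS]
        simp [Matrix.one_apply, e]
      have hroot : (S (J l) (J' l)).IsRoot t := by
        rw [hent]; simp [IsRoot]
      have h1 : 0 < (S (J l) (J' l)).rootMultiplicity t := (rootMultiplicity_pos (hne l)).2 hroot
      have h2 : (1 : ℝ) ≤ ((S (J l) (J' l)).rootMultiplicity t : ℝ) := by exact_mod_cast h1
      exact (hw _ _).trans h2
  have hsum : ∑ l, w (J l) - ∑ l, w (J' l) ≤ ∑ l, ((S (J l) (J' l)).rootMultiplicity t : ℝ) := by
    rw [← Finset.sum_sub_distrib]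
    exact Finset.sum_le_sum fun l _ => hterm l
  have hle' : ((mn (g * (NN i j ε t)⁻¹) W' J').rootMultiplicity t : ℝ)
      + ∑ l, ((S (J l) (J' l)).rootMultiplicity t : ℝ)
        ≤ ((mn g (Ni i j ε * W') J).rootMultiplicity t : ℝ) := by
    have := hle
    unfold mn
    exact_mod_cast this
  linarith

end Pool.Agent.MSU.ItemNTrans

namespace Pool.Agent.MSU

open ItemNTrans

theorem prf_N_Trans (hDom : N_Dom) (hInf : N_DomInf) (hNN : N_NN) : N_Trans := by
  classical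
  intro r γ w hγ hγ2 hw i j hij hwij ε hε hst k hk hkr W' hW'
  have hji : j ≠ i := hij.symm
  have hW : IsSub (Ni i j ε * W') := by
    obtain ⟨V', hV'⟩ := hW'
    refine ⟨V' * Np i j ε, ?_⟩
    calc V' * Np i j ε * (Ni i j ε * W') = V' * (Np i j ε * Ni i j ε) * W' := by
          simp only [Matrix.mul_assoc]
      _ = 1 := by rw [Np_Ni hij hε, Matrix.mul_one, hV']
  obtain ⟨J, hJ0, hJ1, hJ2, hpos⟩ := hst k hk hkr _ hW
  obtain ⟨J0', hJ0', hs0⟩ := at_point hDom hNN (γ 0) (hγ 0) (w 0) (hw 0 (by decide)) hij hε 0 W'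
    (J 0) hJ0
  obtain ⟨J1', hJ1', hs1⟩ := at_point hDom hNN (γ 1) (hγ 1) (w 1) (hw 1 (by decide)) hij hε 1 W'
    (J 1) hJ1
  -- infinity
  have hprod : Rh i j ε * (Ni i j ε * W') = emb i j X 1 0 (C ε⁻¹ * X) (X ^ 2) * W' := by
    rw [← Matrix.mul_assoc, Rh_Ni hij hε]
  set S' : Matrix (Fin r) (Fin r) ℂ[X] := emb i j X 1 0 (C ε⁻¹ * X) (X ^ 2) with hS'
  rw [hprod] at hJ2 hpos
  obtain ⟨J2', hJ2', hne, hle⟩ := hInf r k S' W' (J 2) hJ2
  have hterm : ∀ l, w 2 (J 2 l) + ((S' (J 2 l) (J2' l)).natDegree : ℝ) - 1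
      ≤ wT w i j 2 (J2' l) := by
    intro l
    have hn := hne l
    generalize J 2 l = a at hn ⊢
    generalize J2' l = b at hn ⊢
    have hCX : (C ε⁻¹ * X : ℂ[X]).natDegree = 1 := natDegree_C_mul_X _ (inv_ne_zero hε)
    rw [hS'] at hn ⊢
    simp only [emb, Matrix.of_apply, wT, if_true] at hn ⊢
    by_cases h1 : a = i
    · subst h1
      by_cases h2 : b = a
      · subst h2; simp
      · exfalso; apply hn; simp [h2]
    by_cases h2 : a = j
    · subst h2
      by_cases h3 : b = i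
      · subst h3
        simp only [h1, if_false, if_true, hCX]
        push_cast
        linarith
      · by_cases h4 : b = a
        · subst h4
          simp only [h1, if_false, if_true, natDegree_X_pow]
          push_cast
          linarith
        · exfalso; apply hn; simp [h1, h3, h4]
    · by_cases h3 : a = b
      · subst h3
        simp [h1, h2]
      · exfalso; apply hn; simp [h1, h2, h3]
  have hsum2 : ∑ a, w 2 (J 2 a) + (((S' * W').submatrix (J 2) id).det.natDegree : ℝ) - k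
      ≤ ∑ a, wT w i j 2 (J2' a) + ((W'.submatrix J2' id).det.natDegree : ℝ) := by
    have h1 : (((S' * W').submatrix (J 2) id).det.natDegree : ℝ)
        ≤ ((W'.submatrix J2' id).det.natDegree : ℝ) + ∑ l, ((S' (J 2 l) (J2' l)).natDegree : ℝ) := by
      exact_mod_cast hle
    have h2 : ∑ l, (w 2 (J 2 l) + ((S' (J 2 l) (J2' l)).natDegree : ℝ) - 1)
        ≤ ∑ l, wT w i j 2 (J2' l) := Finset.sum_le_sum fun l _ => hterm l
    rw [Finset.sum_sub_distrib, Finset.sum_add_distrib] at h2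
    simp only [Finset.sum_const, Finset.card_univ, Fintype.card_fin, nsmul_eq_mul, mul_one] at h2
    linarith
  have hg2 : ∀ J' : Fin k → Fin r, mn (gT γ i j ε 2) W' J' = (W'.submatrix J' id).det := by
    intro J'
    unfold mn gT
    have : ((1 : Matrix (Fin r) (Fin r) ℂ).map (C : ℂ → ℂ[X])) = 1 := by
      ext1 a b; simp [Matrix.one_apply, apply_ite]
    simp [this]
  have hg0 : gT γ i j ε 0 = γ 0 * (NN i j ε 0)⁻¹ := by simp [gT]
  have hg1 : gT γ i j ε 1 = γ 1 * (NN i j ε 1)⁻¹ := by simp [gT]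
  refine ⟨![J0', J1', J2'], ?_, ?_⟩
  · intro x
    fin_cases x
    · show mn (gT γ i j ε 0) W' J0' ≠ 0
      rw [hg0]; exact hJ0'
    · show mn (gT γ i j ε 1) W' J1' ≠ 0
      rw [hg1]; exact hJ1'
    · show mn (gT γ i j ε 2) W' J2' ≠ 0
      rw [hg2]; exact hJ2'
  · rw [Fin.sum_univ_three] at hpos ⊢
    show 0 < (∑ a, wT w i j 0 (J0' a) + ∑ a, wT w i j 1 (J1' a) + ∑ a, wT w i j 2 (J2' a))
      - ((mn (gT γ i j ε 0) W' J0').rootMultiplicity 0 : ℝ)
      - ((mn (gT γ i j ε 1) W' J1').rootMultiplicity 1 : ℝ)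
      + ((mn (gT γ i j ε 2) W' J2').natDegree : ℝ)
    have e0 : ∀ a, wT w i j 0 a = w 0 a := by intro a; simp [wT]
    have e1 : ∀ a, wT w i j 1 a = w 1 a := by intro a; simp [wT]
    simp only [e0, e1]
    rw [hg0, hg1, hg2]
    linarith

end Pool.Agent.MSU

end

section

/-! Item N_Unif: uniform bounds near the punctures in moved frames. -/

open Matrix Polynomial Filter Topology

namespace Pool.Agent.MSU

namespace ItemNUnif

lemma cz_KK (x : Fin 3) {ζ : ℂ} (h : ‖ζ‖ = 1 / 2) : cz x ζ ∈ KK := by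
  fin_cases x
  · change cz 0 ζ ∈ KK
    rw [cz_zero]
    refine ⟨h.ge, ?_, ?_⟩
    · have := norm_sub_norm_le (1 : ℂ) ζ
      rw [norm_sub_rev] at this
      simp only [norm_one] at this
      linarith
    · linarith
  · change cz 1 ζ ∈ KK
    rw [cz_one]
    refine ⟨?_, ?_, ?_⟩
    · have := norm_sub_norm_le (1 : ℂ) (-ζ)
      rw [sub_neg_eq_add, norm_neg] at this
      simp only [norm_one] at this
      linarith
    · simp [h]
    · have := norm_add_le (1 : ℂ) ζ
      simp only [norm_one] at this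
      linarith
  · change cz 2 ζ ∈ KK
    rw [cz_two]
    have h2 : ‖-ζ⁻¹‖ = 2 := by
      rw [norm_neg, norm_inv, h]; norm_num
    refine ⟨?_, ?_, ?_⟩
    · rw [h2]; norm_num
    · have := norm_sub_norm_le (-ζ⁻¹) (1 : ℂ)
      rw [h2] at this
      simp only [norm_one] at this
      linarith
    · rw [h2]

lemma single_norm {r : ℕ} (i j a b : Fin r) : ‖(Matrix.single i j (1 : ℂ)) a b‖ ≤ 1 := by
  rw [Matrix.single_apply]
  split_ifs <;> simp

lemma one_norm {r : ℕ} (a b : Fin r) : ‖(1 : Matrix (Fin r) (Fin r) ℂ) a b‖ ≤ 1 := by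
  rw [Matrix.one_apply]
  split_ifs <;> simp

end ItemNUnif

theorem prf_N_Unif (hU : M_Unif1) : N_Unif := by
  intro r d γ Wm hγ i j hij
  obtain ⟨C, hC⟩ := hU r d (2 + ∑ x, ∑ a, ∑ b, ‖γ x a b‖) Wm
  have hS0 : (0 : ℝ) ≤ ∑ x, ∑ a, ∑ b, ‖γ x a b‖ :=
    Finset.sum_nonneg fun _ _ => Finset.sum_nonneg fun _ _ => Finset.sum_nonneg fun _ _ =>
      norm_nonneg _
  refine ⟨C, ?_⟩
  intro ε w G Q hε hw hG hR hK x
  refine hC x (Rf γ i j ε x) (w x) G Q (hw x) ?_ ?_ hG ?_ ?_
  · intro a b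
    by_cases hx : x = 2
    · have h1 : (fun ζ => Rf γ i j ε x ζ a b)
          = fun ζ => (1 : Matrix (Fin r) (Fin r) ℂ) a b - (ε * ζ) * Matrix.single i j (1 : ℂ) a b := by
        funext ζ
        rw [Rf, if_pos hx, Matrix.sub_apply, Matrix.smul_apply, smul_eq_mul]
      rw [h1]
      fun_prop
    · have h1 : (fun ζ => Rf γ i j ε x ζ a b) = fun _ => γ x a b := by
        funext ζ
        simp [Rf, hx]
      rw [h1]
      exact differentiableOn_const _
  · intro ζ hζ a b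
    by_cases hx : x = 2
    · have h1 : Rf γ i j ε x ζ a b
          = (1 : Matrix (Fin r) (Fin r) ℂ) a b - (ε * ζ) * Matrix.single i j (1 : ℂ) a b := by
        rw [Rf, if_pos hx, Matrix.sub_apply, Matrix.smul_apply, smul_eq_mul]
      rw [h1]
      have h2 := norm_sub_le ((1 : Matrix (Fin r) (Fin r) ℂ) a b)
        ((ε * ζ) * Matrix.single i j (1 : ℂ) a b)
      have h3 : ‖(ε * ζ) * Matrix.single i j (1 : ℂ) a b‖ ≤ 1 := by
        rw [norm_mul, norm_mul]
        have h4 := ItemNUnif.single_norm i j a b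
        have h5 : ‖ε‖ * ‖ζ‖ ≤ 1 := by
          rw [hζ]; linarith
        calc ‖ε‖ * ‖ζ‖ * ‖Matrix.single i j (1 : ℂ) a b‖ ≤ 1 * 1 := by
              gcongr
          _ = 1 := one_mul 1
      have h6 := ItemNUnif.one_norm a b
      linarith
    · have h0 : Rf γ i j ε x ζ a b = γ x a b := by simp [Rf, hx]
      rw [h0]
      have h1 : ‖γ x a b‖ ≤ ∑ b, ‖γ x a b‖ :=
        Finset.single_le_sum (f := fun b => ‖γ x a b‖) (fun _ _ => norm_nonneg _)
          (Finset.mem_univ b)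
      have h2 : (∑ b, ‖γ x a b‖) ≤ ∑ a, ∑ b, ‖γ x a b‖ :=
        Finset.single_le_sum (f := fun a => ∑ b, ‖γ x a b‖)
          (fun _ _ => Finset.sum_nonneg fun _ _ => norm_nonneg _) (Finset.mem_univ a)
      have h3 : (∑ a, ∑ b, ‖γ x a b‖) ≤ ∑ x, ∑ a, ∑ b, ‖γ x a b‖ :=
        Finset.single_le_sum (f := fun x => ∑ a, ∑ b, ‖γ x a b‖)
          (fun _ _ => Finset.sum_nonneg fun _ _ => Finset.sum_nonneg fun _ _ => norm_nonneg _)
          (Finset.mem_univ x)
      linarith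
  · obtain ⟨C', ρ, h0, _, h2⟩ := hR x
    exact ⟨C', ρ, h0, h2⟩
  · intro ζ hζ
    have hlt : ‖ζ‖ < 1 := by rw [hζ]; norm_num
    exact ⟨fun ha => hK x _ (cz_mem_a x hlt ha) (ItemNUnif.cz_KK x hζ),
      fun hb => hK (x + 1) _ (cz_mem_b x hlt hb) (ItemNUnif.cz_KK x hζ)⟩

end Pool.Agent.MSU

end

section

/-! N_Zero: the case `ε = 0`. -/

open Matrix Polynomial Filter Topology

namespace Pool.Agent.MSU

namespace ItemNZero

lemma Rh_zero {r : ℕ} (i j : Fin r) :
    Rh i j 0 = (X : ℂ[X]) • (1 : Matrix (Fin r) (Fin r) ℂ[X]) := by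
  simp [Rh]

lemma Rh_mul {r k : ℕ} (i j : Fin r) (W : Matrix (Fin r) (Fin k) ℂ[X]) (J : Fin k → Fin r) :
    ((Rh i j 0 * W).submatrix J id).det = (X : ℂ[X]) ^ k * (W.submatrix J id).det := by
  rw [Rh_zero, Matrix.smul_mul, Matrix.one_mul, Matrix.submatrix_smul]
  show ((X : ℂ[X]) • W.submatrix J id).det = _
  rw [Matrix.det_smul, Fintype.card_fin]

lemma mn_one {r k : ℕ} {γ : Matrix (Fin r) (Fin r) ℂ} (h : γ = 1)
    (W : Matrix (Fin r) (Fin k) ℂ[X]) (J : Fin k → Fin r) : mn γ W J = (W.submatrix J id).det := by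
  unfold mn
  rw [h]
  have h1 : (1 : Matrix (Fin r) (Fin r) ℂ).map (C : ℂ → ℂ[X]) = 1 :=
    Matrix.map_one _ (map_zero _) (map_one _)
  rw [h1, Matrix.one_mul]

lemma Rf_zero {r : ℕ} {γ : Fin 3 → Matrix (Fin r) (Fin r) ℂ} (h : γ 2 = 1) (i j : Fin r)
    (x : Fin 3) (ζ : ℂ) : Rf γ i j 0 x ζ = γ x := by
  unfold Rf
  split_ifs with hx
  · rw [hx, h]
    simp
  · rfl

end ItemNZero

open ItemNZero in
theorem prf_N_Zero : N_Zero := by
  intro r γ w i j h2
  constructor
  · intro h k hk hkr W hW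
    obtain ⟨J, h0, h1, h3, hpos⟩ := h k hk hkr W hW
    rw [Rh_mul] at h3 hpos
    have hne : (W.submatrix (J 2) id).det ≠ 0 := right_ne_zero_of_mul h3
    refine ⟨J, ?_, ?_⟩
    · intro x
      fin_cases x
      · exact h0
      · exact h1
      · show mn (γ 2) W (J 2) ≠ 0
        rw [mn_one h2]
        exact hne
    · rw [mn_one h2]
      have hd : ((X : ℂ[X]) ^ k * (W.submatrix (J 2) id).det).natDegree
          = k + (W.submatrix (J 2) id).det.natDegree := by
        rw [Polynomial.natDegree_mul (pow_ne_zero _ X_ne_zero) hne, natDegree_X_pow]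
      rw [hd] at hpos
      push_cast at hpos
      linarith
  · rintro ⟨G, Q, hMV, hRow, hU, hch⟩
    refine ⟨G, Q, hMV, ?_, hU, hch⟩
    intro x
    obtain ⟨C', ρ, h1, h3, h4⟩ := hRow x
    refine ⟨C', ρ, h1, h3, fun ζ hζ => ?_⟩
    rw [Rf_zero h2]
    exact h4 ζ hζ

end Pool.Agent.MSU

end

section

/-! Decoding and encoding of the equations. -/

open Matrix Polynomial Filter Topology
open scoped ComplexConjugate ComplexOrder

namespace Pool.Agent.MSU.ItemEDec

open Pool.Agent.MSU ItemEKer1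

lemma hm_code {r : ℕ} {H : Matrix (Fin r) (Fin r) ℂ} (hH : H.IsHermitian) : hm (code H) = H := by
  ext a b
  have h3 : conj (H a b) = H b a := hH.apply b a
  have h4 : (H b a).re = (H a b).re := by rw [← h3]; simp
  have h5 : (H b a).im = -(H a b).im := by rw [← h3]; simp
  simp only [hm, code, Matrix.of_apply, h4, h5]
  apply Complex.ext
  · simp only [Complex.add_re, Complex.ofReal_re, Complex.re_ofReal_mul, Complex.I_re]
    ring
  · simp only [Complex.add_im, Complex.ofReal_im, Complex.im_ofReal_mul, Complex.I_im]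
    ring

lemma E2_herm {r : ℕ} (t : ℝ) {H K : Matrix (Fin r) (Fin r) ℂ} (Z : Matrix (Fin r) (Fin r) ℂ)
    (hH : H.IsHermitian) (hK : K.IsHermitian) : (E2 t H K Z).IsHermitian := by
  have g1 : Hᴴ = H := hH
  have g2 : Kᴴ = K := hK
  unfold Matrix.IsHermitian E2
  simp only [conjTranspose_add, conjTranspose_mul, conjTranspose_conjTranspose,
    conjTranspose_smul, g1, g2, Complex.star_def, Complex.conj_ofReal, map_pow]
  rw [add_comm (H * Z), add_comm (K * Z), Matrix.mul_assoc Zᴴ H Z, Matrix.mul_assoc Zᴴ K Z]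

/-- the affine part of the equations -/
lemma affine_dec {r : ℕ} (hr : 0 < r) (γ : Fin 3 → Matrix (Fin r) (Fin r) ℂ) (hγ : GU γ)
    (w : Fin 3 → Fin r → ℝ) (hsum : ∑ x, ∑ i, w x i = 0) (t : ℝ) (x : XT r)
    (h : FF γ w (t, x) = 0) :
    bt x 0 + bt x 1 + bt x 2 = 0 ∧ (∀ y a b, b < a → Rs γ (bt x) y a b = 0) ∧
      (∀ y a, (Rs γ (bt x) y a a).re = w y a) ∧ ∑ c, x.2.1 c c = 1 := by
  have h1 : bt x 0 + bt x 1 + bt x 2 = 0 := by
    ext a b
    exact congrFun (congrFun (congrArg Prod.fst h) a) b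
  have key : ∀ y a b, E3 γ w (bt x) x.2.1 y a b = 0 := fun y a b =>
    congrFun (congrFun (congrFun (congrArg Prod.snd (congrArg Prod.snd h)) y) a) b
  have h2 : ∀ y a b, b < a → Rs γ (bt x) y a b = 0 := by
    intro y a b hab
    apply Complex.ext
    · have e1 := key y a b
      simp only [E3, if_pos hab] at e1
      rw [e1]; rfl
    · have e1 := key y b a
      simp only [E3, if_neg (not_lt.mpr hab.le), if_pos hab] at e1
      rw [e1]; rfl
  have h3 : ∀ y a, (Rs γ (bt x) y a a).re - w y a + (∑ c, x.2.1 c c - 1) = 0 := by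
    intro y a
    have e1 := key y a a
    simpa only [E3, lt_irrefl, if_false] using e1
  have h4 : ∑ c, x.2.1 c c = 1 := by
    have e1 : ∑ y : Fin 3, ∑ a, ((Rs γ (bt x) y a a).re - w y a + (∑ c, x.2.1 c c - 1)) = 0 := by
      simp only [h3, Finset.sum_const_zero]
    simp only [Finset.sum_add_distrib, Finset.sum_sub_distrib, Finset.sum_const, Finset.card_univ,
      Fintype.card_fin, nsmul_eq_mul] at e1
    have e2 : ∀ y, ∑ a, (Rs γ (bt x) y a a).re = (bt x y).trace.re := by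
      intro y
      have e3 : (Rs γ (bt x) y).trace = (bt x y).trace := by
        simp only [Rs]
        rw [Matrix.trace_mul_comm, ← Matrix.mul_assoc, Matrix.nonsing_inv_mul _ (hγ y),
          Matrix.one_mul]
      rw [← e3]
      simp [Matrix.trace]
    simp only [e2] at e1
    have e3 : ∑ y : Fin 3, (bt x y).trace.re = 0 := by
      rw [Fin.sum_univ_three, ← Complex.add_re, ← Complex.add_re, ← Matrix.trace_add,
        ← Matrix.trace_add, h1]
      simp
    rw [hsum, e3] at e1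
    have : (r : ℝ) ≠ 0 := by exact_mod_cast hr.ne'
    push_cast at e1
    have e4 : (r : ℝ) * (∑ c, x.2.1 c c - 1) = 0 := by linarith
    rcases mul_eq_zero.mp e4 with e | e
    · exact absurd e this
    · linarith
  refine ⟨h1, h2, ?_, h4⟩
  intro y a
  have := h3 y a
  rw [h4] at this
  linarith

lemma second {r : ℕ} (γ : Fin 3 → Matrix (Fin r) (Fin r) ℂ)
    (w : Fin 3 → Fin r → ℝ) (t : ℝ) (x : XT r) (h : FF γ w (t, x) = 0) (j : Fin 3) :
    E2 t (hm x.2.1) (hm x.2.2) (ZZ j t (bt x)) = 0 := by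
  apply code_eq_zero (E2_herm t _ (hm_herm _) (hm_herm _))
  exact congrFun (congrArg Prod.fst (congrArg Prod.snd h)) j

end Pool.Agent.MSU.ItemEDec

namespace Pool.Agent.MSU

open ItemEKer1 ItemEDec

theorem prf_E_Dec (hZ : S_ZBlock) : E_Dec := by
  intro r γ w t x hr hγ hsum ht hx
  obtain ⟨hF, hpos⟩ := hx
  obtain ⟨h1, h2, h3, h4⟩ := affine_dec hr γ hγ w hsum t x hF
  have hRs : ∀ y, Rs γ (fun y => (t : ℂ) • bt x y) y = (t : ℂ) • Rs γ (bt x) y := by
    intro y
    simp only [Rs]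
    rw [Matrix.mul_smul, Matrix.smul_mul]
  refine ⟨⟨?_, ?_⟩, ⟨hpos, ?_, ?_⟩, ?_⟩
  · rw [← smul_add, ← smul_add, h1, smul_zero]
  · intro y
    refine ⟨?_, ?_⟩
    · intro a b hab
      rw [hRs, Matrix.smul_apply, h2 y a b hab, smul_zero]
    · intro a
      rw [hRs, Matrix.smul_apply, smul_eq_mul, Complex.re_ofReal_mul, h3]
  · have g2 : (hm x.2.1)ᴴ = hm x.2.1 := hm_herm _
    have g3 : (hm x.2.2)ᴴ = hm x.2.2 := hm_herm _
    unfold Matrix.IsHermitian
    simp only [conjTranspose_add, conjTranspose_smul, g2, g3, Complex.star_def,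
      Complex.conj_ofReal]
  · intro j
    have e1 := E2_eq t (hm x.2.1) (hm x.2.2) (ZZ j t (bt x))
    rw [second γ w t x hF j, smul_zero, ← hZ r t (bt x) j] at e1
    exact (sub_eq_zero.mp e1.symm)
  · rw [hm_trace, h4]
    simp

theorem prf_E_Enc (hZ : S_ZBlock) : E_Enc := by
  intro r γ w t B H Hm hr hγ ht hLD hUN htr
  have ht' : (t : ℂ) ≠ 0 := by exact_mod_cast ht.ne'
  have hH : H.IsHermitian := hUN.1.isHermitian
  have hK : ((t : ℂ)⁻¹ • (Hm - H)).IsHermitian := by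
    have g2 : Hᴴ = H := hH
    have g3 : Hmᴴ = Hm := hUN.2.1
    unfold Matrix.IsHermitian
    rw [conjTranspose_smul, conjTranspose_sub, g2, g3]
    simp
  set x : XT r := (fun y a b => (t : ℂ)⁻¹ * B y a b, code H, code ((t : ℂ)⁻¹ • (Hm - H))) with hx
  have e1 : hm x.2.1 = H := hm_code hH
  have e2 : hm x.2.2 = (t : ℂ)⁻¹ • (Hm - H) := hm_code hK
  have e3 : ∀ y, bt x y = (t : ℂ)⁻¹ • B y := by
    intro y; ext a b; simp [bt, hx]
  have e4 : (fun y => (t : ℂ) • bt x y) = B := by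
    funext y
    rw [e3, smul_smul, mul_inv_cancel₀ ht', one_smul]
  have hRs : ∀ y, Rs γ (bt x) y = (t : ℂ)⁻¹ • Rs γ B y := by
    intro y
    simp only [Rs]
    rw [e3, Matrix.mul_smul, Matrix.smul_mul]
  have hinv : ((t : ℂ)⁻¹) = ((t⁻¹ : ℝ) : ℂ) := by push_cast; rfl
  refine ⟨x, ?_, ?_⟩
  · refine Prod.ext ?_ (Prod.ext ?_ ?_)
    · funext a b
      change (bt x 0 + bt x 1 + bt x 2) a b = 0
      rw [e3, e3, e3, ← smul_add, ← smul_add, hLD.1, smul_zero]
      rfl
    · funext j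
      change code (E2 t (hm x.2.1) (hm x.2.2) (ZZ j t (bt x))) = 0
      have f1 := E2_eq t (hm x.2.1) (hm x.2.2) (ZZ j t (bt x))
      rw [← hZ r t (bt x) j, e4, e1, e2, smul_smul, mul_inv_cancel₀ ht', one_smul,
        add_sub_cancel, hUN.2.2 j, sub_self] at f1
      have f2 := (smul_eq_zero.mp f1).resolve_left ht'
      rw [e1, e2, f2]
      funext a b
      simp [code]
    · funext y a b
      change E3 γ w (bt x) x.2.1 y a b = 0
      have htr' : ∑ c, x.2.1 c c = 1 := by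
        have := hm_trace x.2.1
        rw [e1, htr] at this
        exact_mod_cast this.symm
      unfold E3
      split_ifs with h1 h2
      · rw [hRs, Matrix.smul_apply, (hLD.2 y).1 a b h1, smul_zero]; simp
      · rw [hRs, Matrix.smul_apply, (hLD.2 y).1 b a h2, smul_zero]; simp
      · rw [htr', hRs, Matrix.smul_apply, smul_eq_mul, hinv, Complex.re_ofReal_mul,
          (hLD.2 y).2 a]
        field_simp
        ring
  · rw [e1]; exact hUN.1

theorem prf_E_Dec0 (hZ : S_Z0) : E_Dec0 := by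
  intro r γ w x hr hγ hsum hx
  obtain ⟨hF, hpos⟩ := hx
  obtain ⟨h1, h2, h3, h4⟩ := affine_dec hr γ hγ w hsum 0 x hF
  have g2 : (hm x.2.1)ᴴ = hm x.2.1 := hm_herm _
  set H := hm x.2.1 with hH
  -- the second equation
  have key : ∀ j, aa j • (H * bt x 0 - (bt x 0)ᴴ * H) + bb j • (H * bt x 1 - (bt x 1)ᴴ * H)
      + hm x.2.2 = 0 := by
    intro j
    have e1 := second γ w 0 x hF j
    rw [hZ r (bt x) j] at e1
    have haa : (starRingEnd ℂ) (aa j) = -aa j := by
      unfold aa; split_ifs <;> simp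
    have hbb : (starRingEnd ℂ) (bb j) = -bb j := by
      unfold bb; split_ifs
      · simp only [map_neg, map_mul, map_div₀, Complex.conj_ofReal, Complex.conj_I, map_ofNat]
        ring
      · simp only [map_mul, map_div₀, Complex.conj_ofReal, Complex.conj_I, map_ofNat]
        ring
    rw [← hH] at e1
    rw [← e1]
    ext a b
    simp only [E2, Complex.ofReal_zero, zero_smul, ne_eq, OfNat.ofNat_ne_zero, not_false_eq_true,
      zero_pow, add_zero, conjTranspose_add, conjTranspose_smul, Complex.star_def, haa, hbb,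
      add_mul, mul_add, Matrix.smul_mul, Matrix.mul_smul, smul_sub, neg_smul, Matrix.add_apply,
      Matrix.sub_apply, Matrix.smul_apply, smul_eq_mul, Matrix.neg_apply, Matrix.neg_mul,
      Matrix.zero_apply]
    ring
  have k0 := key 0
  have k1 := key 1
  have k2 := key 2
  have hpi : (Real.pi : ℂ) ≠ 0 := by exact_mod_cast Real.pi_ne_zero
  have c1 : H * bt x 1 - (bt x 1)ᴴ * H = 0 := by
    have e1 : (bb 1 - bb 2) • (H * bt x 1 - (bt x 1)ᴴ * H) = 0 := by
      have : aa 1 = aa 2 := by simp [aa]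
      rw [← this] at k2
      rw [sub_smul, sub_eq_zero]
      have := k1.trans k2.symm
      exact add_left_cancel (add_right_cancel this)
    refine (smul_eq_zero.mp e1).resolve_left ?_
    have b1 : bb 1 = Real.pi / 2 * Complex.I := by
      unfold bb; rw [if_neg (by decide)]
    have b2 : bb 2 = -(3 * Real.pi / 2 * Complex.I) := by
      unfold bb; rw [if_pos rfl]
    rw [b1, b2]
    intro h
    have h5 : (2 * Real.pi : ℂ) * Complex.I = 0 := by linear_combination h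
    simp [hpi] at h5
  have c0 : H * bt x 0 - (bt x 0)ᴴ * H = 0 := by
    have e1 : (aa 0 - aa 1) • (H * bt x 0 - (bt x 0)ᴴ * H) = 0 := by
      rw [c1, smul_zero, add_zero] at k0 k1
      rw [sub_smul, sub_eq_zero]
      exact add_right_cancel (k0.trans k1.symm)
    refine (smul_eq_zero.mp e1).resolve_left ?_
    have a1 : aa 1 = -(Real.pi * Complex.I) := by
      unfold aa; rw [if_neg (by decide)]
    have a0 : aa 0 = Real.pi * Complex.I := by
      unfold aa; rw [if_pos rfl]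
    rw [a0, a1]
    intro h
    have h5 : (2 * Real.pi : ℂ) * Complex.I = 0 := by linear_combination h
    simp [hpi] at h5
  have d : ∀ y, bt x y = bt x y := fun _ => rfl
  have hb0 : (H * bt x 0).IsHermitian := by
    unfold Matrix.IsHermitian
    rw [conjTranspose_mul, g2]
    exact (sub_eq_zero.mp c0).symm
  have hb1 : (H * bt x 1).IsHermitian := by
    unfold Matrix.IsHermitian
    rw [conjTranspose_mul, g2]
    exact (sub_eq_zero.mp c1).symm
  refine ⟨⟨h1, fun y => ⟨h2 y, h3 y⟩⟩, ?_, ?_, ?_⟩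
  · intro y
    fin_cases y
    · exact hb0
    · exact hb1
    · have e1 : bt x 2 = -(bt x 0) - bt x 1 := by
        have : bt x 2 = (bt x 0 + bt x 1 + bt x 2) - bt x 0 - bt x 1 := by abel
        rw [this, h1]; abel
      change (H * bt x 2).IsHermitian
      rw [e1, mul_sub, mul_neg]
      exact hb0.neg.sub hb1
  · rw [hH, hm_trace, h4]; simp
  · rw [c0, c1, smul_zero, smul_zero, add_zero, zero_add] at k0
    exact k0

end Pool.Agent.MSU

end

section

/-! Item E_Open: the set of solvable parameters is open. -/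

open Matrix
open scoped ComplexConjugate ComplexOrder Topology

namespace Pool.Agent.MSU

namespace ItemEOpen

variable {r : ℕ}

theorem fin_eq (r : ℕ) : Module.finrank ℝ (XT r) = Module.finrank ℝ (YT r) := by
  simp only [XT, YT, Module.finrank_prod, Module.finrank_pi_fintype, Complex.finrank_real_complex,
    Finset.sum_const, Finset.card_univ, Fintype.card_fin, Module.finrank_self, smul_eq_mul]
  ring

/-- quadratic form -/
noncomputable def qf (S : Fin r → Fin r → ℝ) (v : Fin r → ℂ) : ℂ := star v ⬝ᵥ (hm S *ᵥ v)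

theorem hm_cont : Continuous (fun S : Fin r → Fin r → ℝ => hm S) := by
  unfold hm
  refine continuous_matrix fun a b => ?_
  simp only [Matrix.of_apply]
  fun_prop

theorem qf_cont : Continuous (fun u : (Fin r → Fin r → ℝ) × (Fin r → ℂ) => qf u.1 u.2) := by
  unfold qf
  refine Continuous.dotProduct ?_ ?_
  · exact continuous_snd.star
  · exact Continuous.matrix_mulVec (hm_cont.comp continuous_fst) continuous_snd

theorem qf_im (S : Fin r → Fin r → ℝ) (v : Fin r → ℂ) : (qf S v).im = 0 := by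
  have h := (ItemEKer0.hm_herm S).im_star_dotProduct_mulVec_self v
  simpa [qf] using h

theorem qf_smul (S : Fin r → Fin r → ℝ) (v : Fin r → ℂ) (c : ℝ) :
    qf S ((c : ℂ) • v) = ((c ^ 2 : ℝ) : ℂ) * qf S v := by
  unfold qf
  rw [star_smul, Matrix.mulVec_smul, smul_dotProduct, dotProduct_smul, smul_eq_mul, smul_eq_mul]
  simp only [RCLike.star_def, Complex.conj_ofReal]
  push_cast
  ring

theorem pos_open (S0 : Fin r → Fin r → ℝ) (h0 : (hm S0).PosDef) :
    ∀ᶠ S in 𝓝 S0, (hm S).PosDef := by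
  have hK : IsCompact (Metric.sphere (0 : Fin r → ℂ) 1) := isCompact_sphere _ _
  have h1 : ∀ᶠ S in 𝓝 S0, ∀ v ∈ Metric.sphere (0 : Fin r → ℂ) 1, 0 < (qf S v).re := by
    refine hK.eventually_forall_of_forall_eventually fun v hv => ?_
    have hv0 : v ≠ 0 := by
      rintro rfl
      simp at hv
    have h2 : 0 < (qf S0 v).re := by
      have h3 := h0.dotProduct_mulVec_pos hv0
      exact (Complex.lt_def.1 h3).1
    have h4 : Continuous (fun u : (Fin r → Fin r → ℝ) × (Fin r → ℂ) => (qf u.1 u.2).re) :=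
      Complex.continuous_re.comp qf_cont
    exact h4.continuousAt.eventually (lt_mem_nhds h2)
  filter_upwards [h1] with S hS
  refine Matrix.PosDef.of_dotProduct_mulVec_pos (ItemEKer0.hm_herm S) fun v hv => ?_
  have hn : 0 < ‖v‖ := norm_pos_iff.2 hv
  have h2 : (((‖v‖⁻¹ : ℝ) : ℂ) • v) ∈ Metric.sphere (0 : Fin r → ℂ) 1 := by
    rw [mem_sphere_zero_iff_norm, norm_smul, Complex.norm_real, norm_inv, norm_norm]
    exact inv_mul_cancel₀ hn.ne'
  have h3 := hS _ h2
  rw [qf_smul, Complex.re_ofReal_mul] at h3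
  have h4 : 0 < (‖v‖⁻¹) ^ 2 := by positivity
  have h5 : 0 < (qf S v).re := by
    by_contra h6
    push Not at h6
    nlinarith [mul_nonneg h4.le (neg_nonneg.2 h6)]
  rw [Complex.lt_def]
  exact ⟨h5, (qf_im S v).symm⟩

end ItemEOpen

theorem prf_E_Open (hSm : E_Smooth) (hK1 : E_Ker1) (hK0 : E_Ker0) (hIFT : E_IFT) : E_Open := by
  intro r γ w t hr hγ hw hs hst ht0 ht1 hx
  obtain ⟨x0, hx0⟩ := hx
  have hker : ∀ v : XT r, fderiv ℝ (FF γ w) (t, x0) (0, v) = 0 → v = 0 := by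
    rcases ht0.lt_or_eq with h | h
    · exact hK1 r γ w t x0 hr hγ hw hs hst h ht1 hx0
    · subst h
      exact hK0 r γ w x0 hr hγ hw hs hst hx0
  have hpo : ∀ᶠ x : XT r in 𝓝 x0, (hm x.2.1).PosDef := by
    have hc : Continuous (fun x : XT r => x.2.1) := continuous_fst.comp continuous_snd
    exact hc.continuousAt.eventually (ItemEOpen.pos_open x0.2.1 hx0.2)
  obtain ⟨ε, hε, hball⟩ := Metric.eventually_nhds_iff.1 hpo
  obtain ⟨δ, hδ, hδ2⟩ := hIFT (XT r) (YT r) (ItemEOpen.fin_eq r) (FF γ w) (hSm r γ w) t x0 hx0.1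
    hker ε hε
  refine ⟨δ, hδ, fun t' ht' => ?_⟩
  obtain ⟨x, hx1, hx2⟩ := hδ2 t' ht'
  exact ⟨x, hx2, hball (by rwa [dist_eq_norm])⟩

end Pool.Agent.MSU

end

section

/-! Item L_HS: linear systems with exponentially small matrix on a half strip. -/

open Matrix Filter Topology Set

namespace Pool.Agent.MSU

namespace ItemLHS

open ItemLHSB

variable {E : Type*} [NormedAddCommGroup E] [NormedSpace ℂ E]

/-- Gronwall with a variable coefficient -/
theorem gron {F : Type*} [NormedAddCommGroup F] [NormedSpace ℝ F] {g g' : ℝ → F} {L M : ℝ}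
    {κ b P : ℝ → ℝ} (hL : 0 ≤ L) (hg : ∀ u ∈ Icc 0 L, HasDerivAt g (g' u) u)
    (hb : ∀ u ∈ Icc 0 L, ‖g' u‖ ≤ κ u * ‖g u‖) (hκ : ∀ u, κ u < b u)
    (hP : ∀ u, HasDerivAt P (b u) u) (hM : 0 < M) (h0 : ‖g 0‖ ≤ M) :
    ‖g L‖ ≤ M * Real.exp (P L - P 0) := by
  have key := image_norm_le_of_norm_deriv_right_lt_deriv_boundary (f := g) (f' := g') (a := 0)
    (b := L) (B := fun u => M * Real.exp (P u - P 0))
    (B' := fun u => M * (Real.exp (P u - P 0) * b u))
    (fun u hu => (hg u hu).continuousAt.continuousWithinAt)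
    (fun u hu => (hg u ⟨hu.1, hu.2.le⟩).hasDerivWithinAt)
    (by simpa using h0)
    (fun u => (((hP u).sub_const (P 0)).exp).const_mul M)
    (by
      intro u hu heq
      have h1 := hb u ⟨hu.1, hu.2.le⟩
      have hB : 0 < M * Real.exp (P u - P 0) := by positivity
      rw [heq] at h1
      calc ‖g' u‖ ≤ κ u * (M * Real.exp (P u - P 0)) := h1
        _ < b u * (M * Real.exp (P u - P 0)) := mul_lt_mul_of_pos_right (hκ u) hB
        _ = M * (Real.exp (P u - P 0) * b u) := by ring)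
    (x := L) ⟨hL, le_rfl⟩
  exact key

/-- solutions are bounded -/
theorem bdd {a c d δ K : ℝ} (hδ : 0 < δ) (hcd : c < d) {G G' : ℂ → E}
    (h : ∀ τ : ℂ, τ.re < a → c < τ.im → τ.im < d → HasDerivAt G (G' τ) τ ∧
      ‖G' τ‖ ≤ K * Real.exp (δ * τ.re) * ‖G τ‖) :
    ∃ M : ℝ, 0 < M ∧ ∀ τ : ℂ, τ.re ≤ a - 1 → c < τ.im → τ.im < d → ‖G τ‖ ≤ M := by
  set a1 := a - 1 with ha1
  set y0 := (c + d) / 2 with hy0
  set M0 := ‖G ⟨a1, y0⟩‖ + 1 with hM0
  have hM0p : 0 < M0 := by positivity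
  set K0 := |K| with hK0
  have hK : K ≤ K0 := le_abs_self K
  have hK0n : 0 ≤ K0 := abs_nonneg K
  set b0 := K0 * Real.exp (δ * a1) + 1 with hb0
  have hb0p : 0 < b0 := by positivity
  have hy0c : c < y0 := by rw [hy0]; linarith
  have hy0d : y0 < d := by rw [hy0]; linarith
  -- vertical
  have hv : ∀ y : ℝ, c < y → y < d → ‖G ⟨a1, y⟩‖ ≤ M0 * Real.exp (b0 * (d - c)) := by
    intro y hy hy'
    -- direction
    have main : ∀ ε : ℝ, (ε = 1 ∨ ε = -1) → ∀ L : ℝ, 0 ≤ L → c < y0 + ε * L → y0 + ε * L < d →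
        ‖G ⟨a1, y0 + ε * L⟩‖ ≤ M0 * Real.exp (b0 * L) := by
      intro ε hε L hL h1 h2
      have hline : ∀ u : ℝ, ((⟨a1, y0⟩ : ℂ) + (u : ℂ) * ((ε : ℂ) * Complex.I)) =
          ⟨a1, y0 + ε * u⟩ := by
        intro u
        apply Complex.ext
        · simp
        · simp; ring
      have hin : ∀ u ∈ Icc 0 L, c < y0 + ε * u ∧ y0 + ε * u < d := by
        intro u hu
        rcases hε with rfl | rfl
        · constructor
          · linarith [hu.1]
          · linarith [hu.2]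
        · constructor
          · linarith [hu.2]
          · linarith [hu.1]
      have hnv : ‖(ε : ℂ) * Complex.I‖ = 1 := by
        rw [norm_mul, Complex.norm_I, mul_one, Complex.norm_real, Real.norm_eq_abs]
        rcases hε with rfl | rfl <;> simp
      have key := gron (g := fun u : ℝ => G ((⟨a1, y0⟩ : ℂ) + (u : ℂ) * ((ε : ℂ) * Complex.I)))
        (g' := fun u : ℝ => ((ε : ℂ) * Complex.I) • G' ⟨a1, y0 + ε * u⟩) (L := L) (M := M0)
        (κ := fun _ => K0 * Real.exp (δ * a1)) (b := fun _ => b0) (P := fun u => b0 * u) hL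
        (by
          intro u hu
          apply deriv_line
          rw [hline u]
          exact (h ⟨a1, y0 + ε * u⟩ (by simp only; linarith) (hin u hu).1 (hin u hu).2).1)
        (by
          intro u hu
          rw [norm_smul, hnv, one_mul, hline u]
          have := (h ⟨a1, y0 + ε * u⟩ (by simp only; linarith) (hin u hu).1 (hin u hu).2).2
          simp only at this
          refine this.trans ?_
          gcongr)
        (by intro u; rw [hb0]; linarith)
        (by intro u; simpa using (hasDerivAt_id' u).const_mul b0) hM0p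
        (by
          have := hline 0
          rw [this]
          simp only [mul_zero, add_zero]
          rw [hM0]; linarith)
      simp only [mul_zero, sub_zero] at key
      rw [hline L] at key
      exact key
    have hmono : ∀ L : ℝ, L ≤ d - c → M0 * Real.exp (b0 * L) ≤ M0 * Real.exp (b0 * (d - c)) := by
      intro L hL
      gcongr
    rcases le_total y0 y with hyy | hyy
    · have := main 1 (Or.inl rfl) (y - y0) (by linarith) (by linarith) (by linarith)
      have e : y0 + 1 * (y - y0) = y := by ring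
      rw [e] at this
      exact this.trans (hmono _ (by linarith))
    · have := main (-1) (Or.inr rfl) (y0 - y) (by linarith) (by linarith) (by linarith)
      have e : y0 + -1 * (y0 - y) = y := by ring
      rw [e] at this
      exact this.trans (hmono _ (by linarith))
  set M1 := M0 * Real.exp (b0 * (d - c)) with hM1
  have hM1p : 0 < M1 := by positivity
  refine ⟨M1 * Real.exp ((K0 + 1) / δ * Real.exp (δ * a1)), by positivity, ?_⟩
  intro τ h1 h2 h3
  have hline : ∀ u : ℝ, ((⟨a1, τ.im⟩ : ℂ) + (u : ℂ) * (-1)) = ⟨a1 - u, τ.im⟩ := by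
    intro u
    apply Complex.ext
    · simp; ring
    · simp
  have key := gron (g := fun u : ℝ => G ((⟨a1, τ.im⟩ : ℂ) + (u : ℂ) * (-1)))
    (g' := fun u : ℝ => (-1 : ℂ) • G' ⟨a1 - u, τ.im⟩) (L := a1 - τ.re) (M := M1)
    (κ := fun u => K0 * Real.exp (δ * (a1 - u))) (b := fun u => (K0 + 1) * Real.exp (δ * (a1 - u)))
    (P := fun u => -((K0 + 1) / δ * Real.exp (δ * (a1 - u)))) (by linarith)
    (by
      intro u hu
      apply deriv_line
      rw [hline u]
      exact (h ⟨a1 - u, τ.im⟩ (by simp only; linarith [hu.1]) h2 h3).1)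
    (by
      intro u hu
      rw [norm_smul, norm_neg, norm_one, one_mul, hline u]
      have := (h ⟨a1 - u, τ.im⟩ (by simp only; linarith [hu.1]) h2 h3).2
      simp only at this
      refine this.trans ?_
      gcongr)
    (by
      intro u
      have := Real.exp_pos (δ * (a1 - u))
      nlinarith)
    (by
      intro u
      have e1 : HasDerivAt (fun u : ℝ => δ * (a1 - u)) (-δ) u := by
        have := ((hasDerivAt_id' u).const_sub a1).const_mul δ
        simpa using this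
      have e2 := (e1.exp.const_mul ((K0 + 1) / δ)).neg
      have e3 : -((K0 + 1) / δ * (Real.exp (δ * (a1 - u)) * -δ)) =
          (K0 + 1) * Real.exp (δ * (a1 - u)) := by
        field_simp
      rw [e3] at e2
      exact e2) hM1p
    (by
      rw [hline 0]
      simp only [sub_zero]
      exact hv τ.im h2 h3)
  rw [hline] at key
  have e4 : a1 - (a1 - τ.re) = τ.re := by ring
  rw [e4] at key
  have e5 : (⟨τ.re, τ.im⟩ : ℂ) = τ := Complex.eta τ
  rw [e5] at key
  refine key.trans ?_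
  have e6 : -((K0 + 1) / δ * Real.exp (δ * τ.re)) - -((K0 + 1) / δ * Real.exp (δ * (a1 - 0)))
      ≤ (K0 + 1) / δ * Real.exp (δ * a1) := by
    rw [sub_zero]
    have : 0 ≤ (K0 + 1) / δ * Real.exp (δ * τ.re) := by positivity
    linarith
  gcongr

/-- exponential convergence -/
theorem conv [CompleteSpace E] {a c d δ K : ℝ} (hδ : 0 < δ) (hcd : c < d) {G G' : ℂ → E}
    (h : ∀ τ : ℂ, τ.re < a → c < τ.im → τ.im < d → HasDerivAt G (G' τ) τ ∧
      ‖G' τ‖ ≤ K * Real.exp (δ * τ.re) * ‖G τ‖) :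
    ∃ (g : E) (C' : ℝ), ∀ τ : ℂ, τ.re < a - 1 → c < τ.im → τ.im < d →
      ‖G τ - g‖ ≤ C' * Real.exp (δ * τ.re) := by
  obtain ⟨M, hM, hMb⟩ := bdd hδ hcd h
  set C := |K| * M with hC
  have hC0 : 0 ≤ C := by positivity
  have h' : ∀ τ : ℂ, τ.re < a - 1 → c < τ.im → τ.im < d → HasDerivAt G (G' τ) τ ∧
      ‖G' τ‖ ≤ C * Real.exp (δ * τ.re) := by
    intro τ h1 h2 h3
    obtain ⟨e1, e2⟩ := h τ (by linarith) h2 h3
    refine ⟨e1, e2.trans ?_⟩
    have e3 := hMb τ h1.le h2 h3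
    calc K * Real.exp (δ * τ.re) * ‖G τ‖ ≤ |K| * Real.exp (δ * τ.re) * M := by
          have : K ≤ |K| := le_abs_self K
          gcongr
      _ = C * Real.exp (δ * τ.re) := by rw [hC]; ring
  set y0 := (c + d) / 2 with hy0
  have hy0c : c < y0 := by rw [hy0]; linarith
  have hy0d : y0 < d := by rw [hy0]; linarith
  have hh : ∀ s s' : ℝ, s' ≤ s → s < a - 1 →
      ‖G ⟨s, y0⟩ - G ⟨s', y0⟩‖ ≤ C / δ * Real.exp (δ * s) := by
    intro s s' hs hsa
    refine (horiz hδ h' hy0c hy0d hs hsa).trans ?_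
    apply mul_le_mul_of_nonneg_left _ (by positivity)
    linarith [Real.exp_pos (δ * s')]
  -- the sequence
  set x : ℕ → E := fun n => G ⟨a - 2 - n, y0⟩ with hx
  have hcau : CauchySeq x := by
    apply cauchySeq_of_le_tendsto_0 (fun N : ℕ => C / δ * Real.exp (δ * (a - 2 - N)))
    · intro n m N hn hm
      have hn' : (N : ℝ) ≤ n := by exact_mod_cast hn
      have hm' : (N : ℝ) ≤ m := by exact_mod_cast hm
      rcases le_total n m with hnm | hnm
      · have hnm' : (n : ℝ) ≤ m := by exact_mod_cast hnm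
        rw [dist_eq_norm]
        refine (hh (a - 2 - n) (a - 2 - m) (by linarith) (by
          have : (0 : ℝ) ≤ n := Nat.cast_nonneg n
          linarith)).trans ?_
        apply mul_le_mul_of_nonneg_left _ (by positivity)
        apply Real.exp_le_exp.2
        apply mul_le_mul_of_nonneg_left _ hδ.le
        linarith
      · have hnm' : (m : ℝ) ≤ n := by exact_mod_cast hnm
        rw [dist_eq_norm, norm_sub_rev]
        refine (hh (a - 2 - m) (a - 2 - n) (by linarith) (by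
          have : (0 : ℝ) ≤ m := Nat.cast_nonneg m
          linarith)).trans ?_
        apply mul_le_mul_of_nonneg_left _ (by positivity)
        apply Real.exp_le_exp.2
        apply mul_le_mul_of_nonneg_left _ hδ.le
        linarith
    · have e1 : Tendsto (fun N : ℕ => δ * (a - 2 - (N : ℝ))) atTop atBot := by
        apply Tendsto.const_mul_atBot hδ
        exact tendsto_atBot_add_const_left _ (a - 2) (tendsto_neg_atTop_atBot.comp
          tendsto_natCast_atTop_atTop)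
      have e2 := (Real.tendsto_exp_atBot.comp e1).const_mul (C / δ)
      simpa using e2
  obtain ⟨g, hg⟩ := cauchySeq_tendsto_of_complete hcau
  have hlim : ∀ s : ℝ, s < a - 1 → ‖G ⟨s, y0⟩ - g‖ ≤ C / δ * Real.exp (δ * s) := by
    intro s hs
    apply le_of_tendsto ((tendsto_const_nhds (x := G ⟨s, y0⟩)).sub hg).norm
    obtain ⟨N, hN⟩ := exists_nat_ge (a - 2 - s)
    filter_upwards [eventually_ge_atTop N] with n hn
    have hn' : (N : ℝ) ≤ n := by exact_mod_cast hn
    exact hh s (a - 2 - n) (by linarith) hs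
  refine ⟨g, C / δ + C * (d - c), ?_⟩
  intro τ h1 h2 h3
  have e1 := hlim τ.re h1
  have e2 := vert h' (y := τ.im) (y' := y0) (s := τ.re) h2 h3 hy0c hy0d h1
  have e3 : C * Real.exp (δ * τ.re) * |τ.im - y0| ≤ C * Real.exp (δ * τ.re) * (d - c) := by
    apply mul_le_mul_of_nonneg_left _ (by positivity)
    rw [abs_le]
    constructor <;> linarith
  have e4 : (⟨τ.re, τ.im⟩ : ℂ) = τ := Complex.eta τ
  rw [e4] at e2
  calc ‖G τ - g‖ = ‖(G τ - G ⟨τ.re, y0⟩) + (G ⟨τ.re, y0⟩ - g)‖ := by congr 1; abel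
    _ ≤ ‖G τ - G ⟨τ.re, y0⟩‖ + ‖G ⟨τ.re, y0⟩ - g‖ := norm_add_le _ _
    _ ≤ C * Real.exp (δ * τ.re) * (d - c) + C / δ * Real.exp (δ * τ.re) :=
        add_le_add (e2.trans e3) e1
    _ = _ := by ring

/-! ### matrices -/

theorem det_diff {n : ℕ} {M : ℂ → Matrix (Fin n) (Fin n) ℂ} {τ : ℂ}
    (h : ∀ i j, DifferentiableAt ℂ (fun s => M s i j) τ) :
    DifferentiableAt ℂ (fun s => (M s).det) τ := by
  have : (fun s => (M s).det) = fun s => ∑ σ : Equiv.Perm (Fin n),
      ((Equiv.Perm.sign σ : ℤ) : ℂ) * ∏ i, M s (σ i) i := by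
    funext s
    rw [Matrix.det_apply']
  rw [this]
  apply DifferentiableAt.fun_sum
  intro σ _
  apply DifferentiableAt.const_mul
  apply DifferentiableAt.fun_finsetProd
  intro i _
  exact h _ _

theorem inv_diff {n : ℕ} {M : ℂ → Matrix (Fin n) (Fin n) ℂ} {τ : ℂ}
    (h : ∀ i j, DifferentiableAt ℂ (fun s => M s i j) τ) (hu : IsUnit (M τ).det) (i j : Fin n) :
    DifferentiableAt ℂ (fun s => (M s)⁻¹ i j) τ := by
  have e : (fun s => (M s)⁻¹ i j) = fun s => ((M s).det)⁻¹ * (M s).adjugate i j := by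
    funext s
    rw [Matrix.inv_def, Matrix.smul_apply, smul_eq_mul, Ring.inverse_eq_inv']
  rw [e]
  apply DifferentiableAt.mul
  · exact (det_diff h).inv hu.ne_zero
  · have : (fun s => (M s).adjugate i j) = fun s => ((M s).updateRow j (Pi.single i 1)).det := by
      funext s
      rw [Matrix.adjugate_apply]
    rw [this]
    apply det_diff
    intro k l
    by_cases hk : k = j
    · subst hk
      simp only [Matrix.updateRow_self]
      exact differentiableAt_const _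
    · have : (fun s => (M s).updateRow j (Pi.single i 1) k l) = fun s => M s k l := by
        funext s
        rw [Matrix.updateRow_ne hk]
      rw [this]
      exact h k l

/-- derivative of the inverse of a solution -/
theorem inv_deriv {n : ℕ} {Φ N : ℂ → Matrix (Fin n) (Fin n) ℂ} {U : Set ℂ} (hU : IsOpen U)
    (h : ∀ τ ∈ U, (∀ i j, HasDerivAt (fun s => Φ s i j) ((N τ * Φ τ) i j) τ) ∧
      IsUnit (Φ τ).det) {τ : ℂ} (hτ : τ ∈ U) (i j : Fin n) :
    HasDerivAt (fun s => (Φ s)⁻¹ i j) ((-((Φ τ)⁻¹ * N τ)) i j) τ := by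
  have hd : ∀ i j, DifferentiableAt ℂ (fun s => (Φ s)⁻¹ i j) τ :=
    fun i j => inv_diff (fun i j => ((h τ hτ).1 i j).differentiableAt) (h τ hτ).2 i j
  set P : Matrix (Fin n) (Fin n) ℂ := Matrix.of fun i j => deriv (fun s => (Φ s)⁻¹ i j) τ with hP
  have hPd : ∀ i j, HasDerivAt (fun s => (Φ s)⁻¹ i j) (P i j) τ := fun i j => (hd i j).hasDerivAt
  have heq : N τ * Φ τ * (Φ τ)⁻¹ + Φ τ * P = 0 := by
    ext i j
    have e1 : HasDerivAt (fun s => ∑ k, Φ s i k * (Φ s)⁻¹ k j)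
        (∑ k, ((N τ * Φ τ) i k * (Φ τ)⁻¹ k j + Φ τ i k * P k j)) τ := by
      apply HasDerivAt.fun_sum
      intro k _
      exact ((h τ hτ).1 i k).mul (hPd k j)
    have e2 : (fun s => ∑ k, Φ s i k * (Φ s)⁻¹ k j) =ᶠ[𝓝 τ]
        fun _ => (1 : Matrix (Fin n) (Fin n) ℂ) i j := by
      filter_upwards [hU.mem_nhds hτ] with s hs
      rw [← Matrix.mul_apply, Matrix.mul_nonsing_inv _ (h s hs).2]
    have e3 := (hasDerivAt_const τ ((1 : Matrix (Fin n) (Fin n) ℂ) i j)).congr_of_eventuallyEq e2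
    have e4 := e1.unique e3
    rw [Matrix.add_apply, Matrix.mul_apply, Matrix.mul_apply, ← Finset.sum_add_distrib,
      Matrix.zero_apply]
    exact e4
  have e5 : P = -((Φ τ)⁻¹ * N τ) := by
    have e6 : (Φ τ)⁻¹ * (N τ * Φ τ * (Φ τ)⁻¹ + Φ τ * P) = (Φ τ)⁻¹ * N τ + P := by
      rw [Matrix.mul_add, Matrix.mul_assoc (N τ), Matrix.mul_nonsing_inv _ (h τ hτ).2,
        Matrix.mul_one, ← Matrix.mul_assoc, Matrix.nonsing_inv_mul _ (h τ hτ).2, Matrix.one_mul]
    rw [heq, Matrix.mul_zero] at e6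
    exact (neg_eq_of_add_eq_zero_right e6.symm).symm
  rw [← e5]
  exact hPd i j

theorem mul_bound {n : ℕ} {A B : Matrix (Fin n) (Fin n) ℂ} {α β : ℝ}
    (hA : ∀ i j, ‖A i j‖ ≤ α) (hB : ∀ i j, ‖B i j‖ ≤ β) (i j : Fin n) :
    ‖(A * B) i j‖ ≤ n * (α * β) := by
  have hα : 0 ≤ α := (norm_nonneg _).trans (hA i i)
  rw [Matrix.mul_apply]
  calc ‖∑ k, A i k * B k j‖ ≤ ∑ k, ‖A i k * B k j‖ := norm_sum_le _ _
    _ ≤ ∑ _k : Fin n, α * β := by
        apply Finset.sum_le_sum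
        intro k _
        rw [norm_mul]
        exact mul_le_mul (hA i k) (hB k j) (norm_nonneg _) hα
    _ = n * (α * β) := by simp

end ItemLHS

open ItemLHSB ItemLHS in
theorem prf_L_HS : L_HS := by
  intro n a c d δ C hδ hcd Φ N h
  set U : Set ℂ := {τ | τ.re < a ∧ c < τ.im ∧ τ.im < d} with hU
  have hUo : IsOpen U := by
    have h1 : IsOpen {τ : ℂ | τ.re < a} := isOpen_lt Complex.continuous_re continuous_const
    have h2 : IsOpen {τ : ℂ | c < τ.im} := isOpen_lt continuous_const Complex.continuous_im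
    have h3 : IsOpen {τ : ℂ | τ.im < d} := isOpen_lt Complex.continuous_im continuous_const
    exact h1.inter (h2.inter h3)
  have hsys : ∀ τ ∈ U, (∀ i j, HasDerivAt (fun s => Φ s i j) ((N τ * Φ τ) i j) τ) ∧
      IsUnit (Φ τ).det := by
    rintro τ ⟨h1, h2, h3⟩
    exact ⟨(h τ h1 h2 h3).1, (h τ h1 h2 h3).2.2⟩
  have entry : ∀ (G : Fin n → Fin n → ℂ) (i j : Fin n), ‖G i j‖ ≤ ‖G‖ := fun G i j =>
    (norm_le_pi_norm (G i) j).trans (norm_le_pi_norm G i)
  have hN : ∀ τ ∈ U, ∀ i j, ‖N τ i j‖ ≤ |C| * Real.exp (δ * τ.re) := by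
    rintro τ ⟨h1, h2, h3⟩ i j
    refine ((h τ h1 h2 h3).2.1 i j).trans ?_
    have := le_abs_self C
    gcongr
  -- the solution
  obtain ⟨φ, C1, h1⟩ := conv (E := Fin n → Fin n → ℂ) (a := a) (c := c) (d := d) (δ := δ)
    (K := n * |C|) hδ hcd (G := fun τ i j => Φ τ i j) (G' := fun τ i j => (N τ * Φ τ) i j)
    (by
      intro τ t1 t2 t3
      refine ⟨?_, ?_⟩
      · rw [hasDerivAt_pi]
        intro i
        rw [hasDerivAt_pi]
        intro j
        exact (h τ t1 t2 t3).1 i j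
      · have hK : 0 ≤ n * |C| * Real.exp (δ * τ.re) * ‖(fun i j => Φ τ i j : Fin n → Fin n → ℂ)‖ := by
          positivity
        rw [pi_norm_le_iff_of_nonneg hK]
        intro i
        rw [pi_norm_le_iff_of_nonneg hK]
        intro j
        refine (mul_bound (hN τ ⟨t1, t2, t3⟩)
          (entry (fun i j => Φ τ i j)) i j).trans (le_of_eq ?_)
        ring)
  obtain ⟨ψ, C2, h2⟩ := conv (E := Fin n → Fin n → ℂ) (a := a) (c := c) (d := d) (δ := δ)
    (K := n * |C|) hδ hcd (G := fun τ i j => (Φ τ)⁻¹ i j)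
    (G' := fun τ i j => (-((Φ τ)⁻¹ * N τ)) i j)
    (by
      intro τ t1 t2 t3
      refine ⟨?_, ?_⟩
      · rw [hasDerivAt_pi]
        intro i
        rw [hasDerivAt_pi]
        intro j
        exact inv_deriv hUo hsys ⟨t1, t2, t3⟩ i j
      · have hK : 0 ≤ n * |C| * Real.exp (δ * τ.re) *
            ‖(fun i j => (Φ τ)⁻¹ i j : Fin n → Fin n → ℂ)‖ := by
          positivity
        rw [pi_norm_le_iff_of_nonneg hK]
        intro i
        rw [pi_norm_le_iff_of_nonneg hK]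
        intro j
        rw [Matrix.neg_apply, norm_neg]
        refine (mul_bound (entry (fun i j => (Φ τ)⁻¹ i j)) (hN τ ⟨t1, t2, t3⟩)
          i j).trans (le_of_eq ?_)
        ring)
  have b1 : ∀ τ : ℂ, τ.re < a - 1 → c < τ.im → τ.im < d → ∀ i j,
      ‖Φ τ i j - φ i j‖ ≤ C1 * Real.exp (δ * τ.re) := by
    intro τ t1 t2 t3 i j
    exact (entry (fun i j => Φ τ i j - φ i j) i j).trans (h1 τ t1 t2 t3)
  have b2 : ∀ τ : ℂ, τ.re < a - 1 → c < τ.im → τ.im < d → ∀ i j,
      ‖(Φ τ)⁻¹ i j - ψ i j‖ ≤ C2 * Real.exp (δ * τ.re) := by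
    intro τ t1 t2 t3 i j
    exact (entry (fun i j => (Φ τ)⁻¹ i j - ψ i j) i j).trans (h2 τ t1 t2 t3)
  -- limits along a horizontal line
  set y0 := (c + d) / 2 with hy0
  have hy0c : c < y0 := by rw [hy0]; linarith
  have hy0d : y0 < d := by rw [hy0]; linarith
  set τn : ℕ → ℂ := fun k => ⟨a - 2 - k, y0⟩ with hτn
  have hk1 : ∀ k : ℕ, (τn k).re < a - 1 := by
    intro k
    have : (0 : ℝ) ≤ k := Nat.cast_nonneg k
    simp only [hτn]
    linarith
  have hexp : Tendsto (fun k : ℕ => Real.exp (δ * (τn k).re)) atTop (𝓝 0) := by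
    have e1 : Tendsto (fun N : ℕ => δ * (a - 2 - (N : ℝ))) atTop atBot := by
      apply Tendsto.const_mul_atBot hδ
      exact tendsto_atBot_add_const_left _ (a - 2) (tendsto_neg_atTop_atBot.comp
        tendsto_natCast_atTop_atTop)
    exact Real.tendsto_exp_atBot.comp e1
  have l1 : ∀ i j, Tendsto (fun k => Φ (τn k) i j) atTop (𝓝 (φ i j)) := by
    intro i j
    rw [tendsto_iff_norm_sub_tendsto_zero]
    refine squeeze_zero (fun k => norm_nonneg _)
      (fun k => b1 (τn k) (hk1 k) hy0c hy0d i j) ?_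
    simpa using hexp.const_mul C1
  have l2 : ∀ i j, Tendsto (fun k => (Φ (τn k))⁻¹ i j) atTop (𝓝 (ψ i j)) := by
    intro i j
    rw [tendsto_iff_norm_sub_tendsto_zero]
    refine squeeze_zero (fun k => norm_nonneg _)
      (fun k => b2 (τn k) (hk1 k) hy0c hy0d i j) ?_
    simpa using hexp.const_mul C2
  have hprod : (Matrix.of φ) * (Matrix.of ψ) = 1 := by
    ext i j
    have e1 : Tendsto (fun k => ∑ l, Φ (τn k) i l * (Φ (τn k))⁻¹ l j) atTop
        (𝓝 (∑ l, φ i l * ψ l j)) := by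
      apply tendsto_finsetSum
      intro l _
      exact (l1 i l).mul (l2 l j)
    have e2 : (fun k => ∑ l, Φ (τn k) i l * (Φ (τn k))⁻¹ l j) =
        fun _ => (1 : Matrix (Fin n) (Fin n) ℂ) i j := by
      funext k
      have hmem : τn k ∈ U := ⟨by have := hk1 k; linarith, hy0c, hy0d⟩
      rw [← Matrix.mul_apply, Matrix.mul_nonsing_inv _ (hsys _ hmem).2]
    rw [e2] at e1
    have e3 := tendsto_nhds_unique e1 tendsto_const_nhds
    rw [Matrix.mul_apply]
    exact e3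
  refine ⟨Matrix.of φ, C1, ?_, fun τ t1 t2 t3 i j => b1 τ t1 t2 t3 i j⟩
  have hdet := congrArg Matrix.det hprod
  rw [Matrix.det_mul, Matrix.det_one] at hdet
  exact IsUnit.of_mul_eq_one _ hdet

end Pool.Agent.MSU

end

section

/-! Item S_PDiff: the transport is continuously differentiable in the residues. -/

open Matrix Polynomial Filter Topology

namespace Pool.Agent.MSU

namespace ItemSPDiff

section appl3

variable {ι : Type} [Fintype ι] [DecidableEq ι]

/-- the end point -/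
noncomputable def t1 : Set.Icc (0 : ℝ) 1 := ⟨1, zero_le_one, le_rfl⟩

lemma inv_appl (hS : S_Sol) (hI : S_Inv) (j : Fin 3) (B : PT ι) :
    yy hS j B * Ring.inverse (yy hS j B) = 1 :=
  Ring.mul_inverse_cancel _ (yy_unit hS hI j B)

lemma main_appl (hS : S_Sol) (hI : S_Inv) (j : Fin 3) :
    ContDiff ℝ 1 (fun B : PT ι => yy hS j B t1) :=
  (main_abs (M := NM ι) (P := PT ι) (aL j) (yy hS j) (fun B => Ring.inverse (yy hS j B))
    (yy_eq hS j) (inv_appl hS hI j) t1).1

lemma main_appl2 (hS : S_Sol) (hI : S_Inv) (j : Fin 3) (B Bd : PT ι) :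
    fderiv ℝ (fun B : PT ι => yy hS j B t1) B Bd
      = yy hS j B t1 * Vo (Ring.inverse (yy hS j B) * aL j Bd * yy hS j B) t1 :=
  (main_abs (M := NM ι) (P := PT ι) (aL j) (yy hS j) (fun B => Ring.inverse (yy hS j B))
    (yy_eq hS j) (inv_appl hS hI j) t1).2 B Bd

lemma yy_t1 (hS : S_Sol) (j : Fin 3) (B : PT ι) : (yy hS j B t1 : Matrix ι ι ℂ) = PP (ofB B) j := by
  have h : YY (ofB B) j (qq j 1) = YY (ofB B) j (-Complex.I) := by rw [qq_one]
  exact h

/-- the function `W` along the path -/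
noncomputable def Wp (j : Fin 3) (W : ℂ → Matrix ι ι ℂ) (s : ℝ) : NM ι := W (qq j s)

lemma inv_pt (hS : S_Sol) (hI : S_Inv) (j : Fin 3) (B : PT ι) (t : Set.Icc (0 : ℝ) 1) :
    (Ring.inverse (yy hS j B) t : Matrix ι ι ℂ) = (YY (ofB B) j (qq j t))⁻¹ := by
  have h6 : Ring.inverse (yy hS j B) * yy hS j B = 1 :=
    Ring.inverse_mul_cancel _ (yy_unit hS hI j B)
  have h5 : Ring.inverse (yy hS j B) t * yy hS j B t = 1 := by
    rw [← ContinuousMap.mul_apply, h6, ContinuousMap.one_apply]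
  exact (Matrix.inv_eq_left_inv h5).symm

/-- the derivative of `W` along the path -/
noncomputable def Dp (j : Fin 3) (B Bd : PT ι) (s : ℝ) : NM ι :=
  ((YY (ofB B) j (qq j s))⁻¹ * (dq j s • AB (ofB Bd) (qq j s)) * YY (ofB B) j (qq j s) :
    Matrix ι ι ℂ)

lemma W_deriv (j : Fin 3) (B Bd : PT ι) (W : ℂ → Matrix ι ι ℂ) (hW : IsW (ofB B) (ofB Bd) j W)
    (s : ℝ) : HasDerivAt (Wp j W) (Dp j B Bd s) s := by
  apply mat_deriv
  intro a b
  have h := hW.2 (qq j s) (qq_mem j s) a b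
  have h2 := h.scomp s (qq_deriv j s)
  refine h2.congr_deriv ?_
  rw [Dp, Matrix.mul_smul, Matrix.smul_mul, Matrix.smul_apply]

lemma prod_pt (hS : S_Sol) (hI : S_Inv) (j : Fin 3) (B Bd : PT ι) (t : Set.Icc (0 : ℝ) 1) :
    (Ring.inverse (yy hS j B) * aL j Bd * yy hS j B) t = Dp j B Bd t := by
  rw [ContinuousMap.mul_apply, ContinuousMap.mul_apply, aL_apply, Dp, ← Ap_eq,
    ← inv_pt hS hI j B t]
  rfl

lemma W_end (hS : S_Sol) (hI : S_Inv) (j : Fin 3) (B Bd : PT ι) (W : ℂ → Matrix ι ι ℂ)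
    (hW : IsW (ofB B) (ofB Bd) j W) :
    Vo (Ring.inverse (yy hS j B) * aL j Bd * yy hS j B) t1 = Wp j W 1 := by
  have h7 := ftc _ _ (W_deriv j B Bd W hW) (Ring.inverse (yy hS j B) * aL j Bd * yy hS j B)
    (prod_pt hS hI j B Bd) t1
  have h8 : Wp j W 0 = 0 := by
    change W (qq j 0) = 0
    rw [qq_zero, hW.1]
  rw [h8, zero_add] at h7
  exact h7.symm

lemma final (hS : S_Sol) (hI : S_Inv) (j : Fin 3) :
    ContDiff ℝ 1 (fun B : PT ι => ML (yy hS j B t1)) ∧
    ∀ (B Bd : PT ι) (W : ℂ → Matrix ι ι ℂ), IsW (ofB B) (ofB Bd) j W →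
      fderiv ℝ (fun B : PT ι => ML (yy hS j B t1)) B Bd = ML (yy hS j B t1 * Wp j W 1) := by
  have hA := main_appl (ι := ι) hS hI j
  refine ⟨(ML (ι := ι)).contDiff.comp hA, fun B Bd W hW => ?_⟩
  have hd : DifferentiableAt ℝ (fun B : PT ι => yy hS j B t1) B :=
    (hA.differentiable one_ne_zero) B
  have h3 : fderiv ℝ (fun B : PT ι => ML (yy hS j B t1)) B
      = ML.comp (fderiv ℝ (fun B : PT ι => yy hS j B t1) B) :=
    ((ML (ι := ι)).hasFDerivAt.comp B hd.hasFDerivAt).fderiv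
  have h4 : fderiv ℝ (fun B : PT ι => ML (yy hS j B t1)) B Bd
      = ML (fderiv ℝ (fun B : PT ι => yy hS j B t1) B Bd) := by
    rw [h3]; rfl
  rw [h4, main_appl2 hS hI j B Bd, W_end hS hI j B Bd W hW]

lemma final_eq (hS : S_Sol) (j : Fin 3) :
    (fun B : PT ι => ML (yy hS j B t1)) = fun B : PT ι =>
      (fun a b => PP (fun x => Matrix.of (B x)) j a b : ι → ι → ℂ) := by
  funext B a b
  change (yy hS j B t1 : Matrix ι ι ℂ) a b = _
  rw [yy_t1 hS j B]
  rfl

lemma final_eq2 (hS : S_Sol) (j : Fin 3) (B : PT ι) (W : ℂ → Matrix ι ι ℂ) :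
    ML (yy hS j B t1 * Wp j W 1)
      = fun a b => (PP (fun x => Matrix.of (B x)) j * W (-Complex.I)) a b := by
  have h1 : (Wp j W 1 : Matrix ι ι ℂ) = W (-Complex.I) := by
    change W (qq j 1) = _
    rw [qq_one]
  funext a b
  change ((yy hS j B t1 : Matrix ι ι ℂ) * (Wp j W 1 : Matrix ι ι ℂ)) a b = _
  rw [yy_t1 hS j B, h1]
  rfl

end appl3

end ItemSPDiff

open ItemSPDiff in
theorem prf_S_PDiff (hS : S_Sol) (hI : S_Inv) : S_PDiff := by
  intro ι _ _ j
  have h := final (ι := ι) hS hI j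
  rw [final_eq hS j] at h
  refine ⟨h.1, fun B Bd W hW => ?_⟩
  rw [h.2 B Bd W hW, final_eq2 hS j B W]

end Pool.Agent.MSU

end

section

/-! Item L_W: growth of `W` near a puncture. -/

open Matrix Filter Topology Set

namespace Pool.Agent.MSU

namespace ItemLW

open ItemLNF ItemLHS

/-- the conjugated matrix is diagonal up to an exponentially small term -/
theorem T_bound {r : ℕ} {D : Fin r → ℂ} {w : Fin r → ℝ} (hD : ∀ i, (D i).re = w i)
    {U : Matrix (Fin r) (Fin r) ℂ} (hU : ∀ a b, b < a → U a b = 0) {δ CE CU CR : ℝ}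
    (hCE0 : 0 < CE) (hCR0 : 0 ≤ CR)
    (hδ1 : ∀ i k, i < k → δ ≤ w k - w i) (hδ2 : ∀ i k, δ ≤ 1 + (w k - w i))
    (hCU : ∀ i k, ‖U i k‖ ≤ CU) {τ : ℂ} (hτ : τ.re < -1) {R : Matrix (Fin r) (Fin r) ℂ}
    (hR : ∀ i k, ‖R i k‖ ≤ CR)
    (hE : ∀ i k, ‖Complex.exp (τ * (D k - D i))‖ ≤ CE * Real.exp (τ.re * ((D k).re - (D i).re)))
    (i k : Fin r) :
    ‖Complex.exp (τ * (D k - D i)) * (U i k + Complex.exp τ * R i k)
      - (if i = k then U i i else 0)‖ ≤ CE * (CU + CR) * Real.exp (δ * τ.re) := by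
  have hCU0 : 0 ≤ CU := (norm_nonneg _).trans (hCU i k)
  have h1 : ‖Complex.exp (τ * (D k - D i))‖ ≤ CE * Real.exp (τ.re * (w k - w i)) := by
    rw [← hD k, ← hD i]; exact hE i k
  have h2 := hR i k
  have h3 := hCU i k
  have hζ := norm_exp_lt hτ
  rcases lt_or_ge i k with hik | hik
  · rw [if_neg hik.ne, sub_zero, norm_mul]
    have e1 : ‖U i k + Complex.exp τ * R i k‖ ≤ CU + CR := by
      refine (norm_add_le _ _).trans (add_le_add h3 ?_)
      rw [norm_mul]
      calc ‖Complex.exp τ‖ * ‖R i k‖ ≤ 1 * CR :=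
            mul_le_mul (by linarith) h2 (norm_nonneg _) zero_le_one
        _ = CR := one_mul _
    have e2 : Real.exp (τ.re * (w k - w i)) ≤ Real.exp (δ * τ.re) := by
      apply Real.exp_le_exp.2
      have := hδ1 i k hik
      nlinarith
    calc ‖Complex.exp (τ * (D k - D i))‖ * ‖U i k + Complex.exp τ * R i k‖
        ≤ (CE * Real.exp (τ.re * (w k - w i))) * (CU + CR) :=
          mul_le_mul h1 e1 (norm_nonneg _) (by positivity)
      _ ≤ (CE * Real.exp (δ * τ.re)) * (CU + CR) := by gcongr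
      _ = CE * (CU + CR) * Real.exp (δ * τ.re) := by ring
  · have e0 : Complex.exp (τ * (D k - D i)) * (U i k + Complex.exp τ * R i k)
        - (if i = k then U i i else 0) =
        Complex.exp (τ * (D k - D i)) * (Complex.exp τ * R i k) := by
      split_ifs with h
      · subst h
        rw [sub_self, mul_zero, Complex.exp_zero]
        ring
      · rw [hU i k (lt_of_le_of_ne hik (Ne.symm h))]
        ring
    rw [e0, norm_mul, norm_mul, Complex.norm_exp τ]
    have e2 : Real.exp (τ.re * (w k - w i)) * Real.exp τ.re ≤ Real.exp (δ * τ.re) := by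
      rw [← Real.exp_add]
      apply Real.exp_le_exp.2
      have := hδ2 i k
      nlinarith
    calc ‖Complex.exp (τ * (D k - D i))‖ * (Real.exp τ.re * ‖R i k‖)
        ≤ (CE * Real.exp (τ.re * (w k - w i))) * (Real.exp τ.re * CR) := by
          apply mul_le_mul h1 _ (by positivity) (by positivity)
          exact mul_le_mul_of_nonneg_left h2 (Real.exp_pos _).le
      _ = CE * CR * (Real.exp (τ.re * (w k - w i)) * Real.exp τ.re) := by ring
      _ ≤ CE * CR * Real.exp (δ * τ.re) := by gcongr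
      _ ≤ CE * (CU + CR) * Real.exp (δ * τ.re) := by
          apply mul_le_mul_of_nonneg_right _ (Real.exp_pos _).le
          apply mul_le_mul_of_nonneg_left _ hCE0.le
          linarith

/-- entries of a matrix are bounded by a constant -/
theorem entries {r : ℕ} (M : Matrix (Fin r) (Fin r) ℂ) : ∃ C : ℝ, 0 ≤ C ∧ ∀ i k, ‖M i k‖ ≤ C := by
  refine ⟨∑ i, ∑ k, ‖M i k‖, Finset.sum_nonneg fun i _ => Finset.sum_nonneg fun k _ =>
    norm_nonneg _, ?_⟩
  intro i k
  have h2 : ‖M i k‖ ≤ ∑ k, ‖M i k‖ :=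
    Finset.single_le_sum (f := fun k => ‖M i k‖) (fun k _ => norm_nonneg _) (Finset.mem_univ k)
  have h3 : ∑ k, ‖M i k‖ ≤ ∑ i, ∑ k, ‖M i k‖ :=
    Finset.single_le_sum (f := fun i => ∑ k, ‖M i k‖)
      (fun i _ => Finset.sum_nonneg fun k _ => norm_nonneg _) (Finset.mem_univ i)
  exact h2.trans h3

/-- inverses of matrices near an invertible matrix are bounded -/
theorem inv_near {r : ℕ} {φ : Matrix (Fin r) (Fin r) ℂ} (hφ : IsUnit φ.det) :
    ∃ ε α : ℝ, 0 < ε ∧ 0 ≤ α ∧ ∀ M : Matrix (Fin r) (Fin r) ℂ, (∀ i j, ‖M i j - φ i j‖ < ε) →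
      IsUnit M.det ∧ ∀ i j, ‖M⁻¹ i j‖ ≤ α := by
  set F : (Fin r → Fin r → ℂ) → (Fin r → Fin r → ℂ) := fun G i j =>
    ((Matrix.of G).det)⁻¹ * (Matrix.of G).adjugate i j with hF
  have hdc : Continuous fun G : Fin r → Fin r → ℂ => (Matrix.of G).det :=
    Continuous.matrix_det (continuous_id)
  have hac : Continuous fun G : Fin r → Fin r → ℂ => (Matrix.of G).adjugate :=
    Continuous.matrix_adjugate (continuous_id)
  have hne : (Matrix.of (fun i j => φ i j)).det ≠ 0 := hφ.ne_zero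
  have hFc : ContinuousAt F (fun i j => φ i j) := by
    rw [continuousAt_pi]
    intro i
    rw [continuousAt_pi]
    intro j
    apply ContinuousAt.mul
    · exact hdc.continuousAt.inv₀ hne
    · exact (hac.matrix_elem i j).continuousAt
  have hdn : ∀ᶠ G in 𝓝 (fun i j => φ i j : Fin r → Fin r → ℂ), (Matrix.of G).det ≠ 0 :=
    hdc.continuousAt.eventually_ne hne
  obtain ⟨ε1, hε1, h1⟩ := Metric.continuousAt_iff.1 hFc 1 one_pos
  obtain ⟨ε2, hε2, h2⟩ := Metric.eventually_nhds_iff.1 hdn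
  obtain ⟨α0, hα0, hα⟩ := entries (φ⁻¹)
  refine ⟨min ε1 ε2, α0 + 1, lt_min hε1 hε2, by linarith, ?_⟩
  intro M hM
  have hdist : dist (fun i j => M i j : Fin r → Fin r → ℂ) (fun i j => φ i j) < min ε1 ε2 := by
    rw [dist_pi_lt_iff (lt_min hε1 hε2)]
    intro i
    rw [dist_pi_lt_iff (lt_min hε1 hε2)]
    intro j
    rw [dist_eq_norm]
    exact hM i j
  have hdet : M.det ≠ 0 := h2 (hdist.trans_le (min_le_right _ _))
  have hinv : ∀ (A : Matrix (Fin r) (Fin r) ℂ) (i j : Fin r),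
      A⁻¹ i j = F (fun i j => A i j) i j := by
    intro A i j
    rw [Matrix.inv_def, Matrix.smul_apply, smul_eq_mul, Ring.inverse_eq_inv']
    rfl
  refine ⟨isUnit_iff_ne_zero.2 hdet, ?_⟩
  intro i j
  have e1 := h1 (hdist.trans_le (min_le_left _ _))
  have e2 : dist (M⁻¹ i j) (φ⁻¹ i j) < 1 := by
    rw [hinv, hinv]
    exact lt_of_le_of_lt ((dist_le_pi_dist _ _ j).trans (dist_le_pi_dist _ _ i)) e1
  rw [dist_eq_norm] at e2
  have e3 := hα i j
  have e4 : ‖M⁻¹ i j‖ ≤ ‖M⁻¹ i j - φ⁻¹ i j‖ + ‖φ⁻¹ i j‖ := by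
    have := norm_add_le (M⁻¹ i j - φ⁻¹ i j) (φ⁻¹ i j)
    simpa using this
  linarith

/-- one strip -/
theorem strip (hHSB : L_HSB) {r : ℕ} {γ B Bd : Fin 3 → Matrix (Fin r) (Fin r) ℂ}
    {w : Fin 3 → Fin r → ℝ} (hγ : GU γ) (hw : Win w) (hLD : LD γ w B) (hBd : Bd 0 + Bd 1 + Bd 2 = 0)
    (x : Fin 3) (hUd : ∀ a b, b < a → Rs γ Bd x a b = 0) {φ : Matrix (Fin r) (Fin r) ℂ}
    (hφ : IsUnit φ.det) {c d δ0 C0 a0 : ℝ} (hδ0 : 0 < δ0) (hcd : c < d)
    (hc : -(2 * Real.pi) ≤ c) (hd : d ≤ 2 * Real.pi)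
    {Y W : ℂ → Matrix (Fin r) (Fin r) ℂ}
    (hY : ∀ τ : ℂ, τ.re < -1 → c < τ.im → τ.im < d → IsUnit (Y (cz x (Complex.exp τ))).det ∧
      ∀ a b, HasDerivAt (fun s => W s a b)
        (((Y (cz x (Complex.exp τ)))⁻¹ * AB Bd (cz x (Complex.exp τ)) *
          Y (cz x (Complex.exp τ))) a b) (cz x (Complex.exp τ)))
    (hL : ∀ τ : ℂ, τ.re < a0 → c < τ.im → τ.im < d → ∀ i j,
      ‖Complex.exp (-τ * Rs γ B x i i) * ((γ x * Y (cz x (Complex.exp τ))) i j) - φ i j‖
        ≤ C0 * Real.exp (δ0 * τ.re)) :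
    ∃ C a : ℝ, ∀ τ : ℂ, τ.re < a → c < τ.im → τ.im < d → ∀ i j,
      ‖(W (cz x (Complex.exp τ)) - τ • (φ⁻¹ * diagonal (fun i => Rs γ Bd x i i) * φ)) i j‖
        ≤ C := by
  obtain ⟨hB, hLx⟩ := hLD
  obtain ⟨hU, hre⟩ := hLx x
  obtain ⟨δ1, hδ1p, hδ1, hδ2⟩ := gap (w x) (hw.1 x) (hw.2 x)
  obtain ⟨CR, hCR0, hCR⟩ := R_bound (γ x) (γ x)⁻¹ Bd x
  set D : Fin r → ℂ := fun i => Rs γ B x i i with hD
  obtain ⟨CE, hCE0, hCE⟩ := E_bound D
  obtain ⟨CU, hCU0, hCU⟩ := entries (Rs γ Bd x)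
  obtain ⟨ε, α, hε, hα0, hinv⟩ := inv_near hφ
  obtain ⟨β0, hβ0, hβ⟩ := entries φ
  obtain ⟨α1, hα10, hα1⟩ := entries φ⁻¹
  set Δ : Matrix (Fin r) (Fin r) ℂ := diagonal (fun i => Rs γ Bd x i i) with hΔ
  obtain ⟨CD, hCD0, hCD⟩ := entries Δ
  set δ := min δ0 δ1 with hδ
  have hδp : 0 < δ := lt_min hδ0 hδ1p
  -- choose the left end
  have htend : Tendsto (fun t : ℝ => |C0| * Real.exp (δ0 * t)) atBot (𝓝 0) := by
    have e1 : Tendsto (fun t : ℝ => δ0 * t) atBot atBot := tendsto_id.const_mul_atBot hδ0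
    have := (Real.tendsto_exp_atBot.comp e1).const_mul |C0|
    simpa using this
  obtain ⟨a1, ha1⟩ := Filter.eventually_atBot.1 (htend.eventually_lt_const (lt_min hε one_pos))
  set a2 := min (min a0 a1) (-1) with ha2
  have ha20 : a2 ≤ a0 := (min_le_left _ _).trans (min_le_left _ _)
  have ha21 : a2 ≤ a1 := (min_le_left _ _).trans (min_le_right _ _)
  have ha22 : a2 ≤ -1 := min_le_right _ _
  set Φ : ℂ → Matrix (Fin r) (Fin r) ℂ := fun τ => Matrix.of fun i j =>
    Complex.exp (-τ * D i) * ((γ x * Y (cz x (Complex.exp τ))) i j) with hΦ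
  set T : ℂ → Matrix (Fin r) (Fin r) ℂ := fun τ => Matrix.of fun i k =>
    Complex.exp (τ * (D k - D i)) * (Rs γ Bd x i k +
      Complex.exp τ * (γ x * RR Bd x (Complex.exp τ) * (γ x)⁻¹) i k) with hT
  have hΦd : ∀ τ, Φ τ = diagonal (fun i => Complex.exp (-τ * D i)) *
      (γ x * Y (cz x (Complex.exp τ))) := by
    intro τ
    ext i j
    rw [Matrix.diagonal_mul]
    rfl
  -- the bounds at a point
  set CT := CE * (CU + CR) with hCT
  have hCT0 : 0 ≤ CT := by positivity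
  set K : ℝ := r * (r * (α * CT) * (β0 + 1)) + (r * (r * (α * CD) * |C0|) +
    r * (r * (r * (r * (α * |C0|) * α1) * CD) * β0)) with hK
  have main : ∀ τ : ℂ, τ.re < a2 → c < τ.im → τ.im < d → ∀ i j,
      HasDerivAt (fun t => (W (cz x (Complex.exp t)) - t • (φ⁻¹ * Δ * φ)) i j)
        (((Φ τ)⁻¹ * T τ * Φ τ - φ⁻¹ * Δ * φ) i j) τ ∧
      ‖((Φ τ)⁻¹ * T τ * Φ τ - φ⁻¹ * Δ * φ) i j‖ ≤ K * Real.exp (δ * τ.re) := by
    intro τ t1 t2 t3
    have tm1 : τ.re < -1 := by linarith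
    obtain ⟨hYu, hYd⟩ := hY τ tm1 t2 t3
    have him : |τ.im| ≤ 2 * Real.pi := by
      rw [abs_le]; constructor <;> linarith
    have hζ := norm_exp_lt tm1
    have hLτ : ∀ i j, ‖Φ τ i j - φ i j‖ ≤ |C0| * Real.exp (δ0 * τ.re) := by
      intro i j
      refine (hL τ (by linarith) t2 t3 i j).trans ?_
      exact mul_le_mul_of_nonneg_right (le_abs_self _) (Real.exp_pos _).le
    have hsm := ha1 τ.re (by linarith)
    have hexp0 : Real.exp (δ0 * τ.re) ≤ Real.exp (δ * τ.re) := by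
      apply Real.exp_le_exp.2
      have : δ ≤ δ0 := min_le_left _ _
      nlinarith
    have hexp1 : Real.exp (δ1 * τ.re) ≤ Real.exp (δ * τ.re) := by
      apply Real.exp_le_exp.2
      have : δ ≤ δ1 := min_le_right _ _
      nlinarith
    have hLε : ∀ i j, ‖Φ τ i j - φ i j‖ ≤ |C0| * Real.exp (δ * τ.re) := fun i j =>
      (hLτ i j).trans (mul_le_mul_of_nonneg_left hexp0 (abs_nonneg _))
    obtain ⟨hΦu, hΦi⟩ := hinv (Φ τ) (fun i j => lt_of_le_of_lt (hLτ i j)
      (lt_of_lt_of_le hsm (min_le_left _ _)))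
    have hΦb : ∀ i j, ‖Φ τ i j‖ ≤ β0 + 1 := by
      intro i j
      have e1 := hLτ i j
      have e2 := hβ i j
      have e3 := lt_of_lt_of_le hsm (min_le_right _ _)
      have e4 : ‖Φ τ i j‖ ≤ ‖Φ τ i j - φ i j‖ + ‖φ i j‖ := by
        have := norm_add_le (Φ τ i j - φ i j) (φ i j)
        simpa using this
      linarith
    have hTb : ∀ i k, ‖(T τ - Δ) i k‖ ≤ CT * Real.exp (δ * τ.re) := by
      intro i k
      have e1 := T_bound (D := D) (w := w x) hre (U := Rs γ Bd x) hUd hCE0 hCR0 hδ1 hδ2 hCU tm1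
        (R := γ x * RR Bd x (Complex.exp τ) * (γ x)⁻¹) (hCR _ hζ) (hCE τ him) i k
      have e2 : (T τ - Δ) i k = Complex.exp (τ * (D k - D i)) * (Rs γ Bd x i k +
          Complex.exp τ * (γ x * RR Bd x (Complex.exp τ) * (γ x)⁻¹) i k)
          - (if i = k then Rs γ Bd x i i else 0) := by
        rw [Matrix.sub_apply, hΔ, Matrix.diagonal_apply]
        rfl
      rw [e2]
      exact e1.trans (mul_le_mul_of_nonneg_left hexp1 hCT0)
    intro i j
    refine ⟨?_, ?_⟩
    · -- derivative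
      have h1 := chain x (hYd i j)
      have h2 : HasDerivAt (fun t : ℂ => t * (φ⁻¹ * Δ * φ) i j) ((φ⁻¹ * Δ * φ) i j) τ := by
        simpa using (hasDerivAt_id' τ).mul_const ((φ⁻¹ * Δ * φ) i j)
      have h3 := h1.sub h2
      have e0 : (fun t => (W (cz x (Complex.exp t)) - t • (φ⁻¹ * Δ * φ)) i j) =
          fun t => W (cz x (Complex.exp t)) i j - t * (φ⁻¹ * Δ * φ) i j := by
        funext t
        rw [Matrix.sub_apply, Matrix.smul_apply, smul_eq_mul]
      rw [e0, Matrix.sub_apply]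
      have e1 : (Φ τ)⁻¹ * T τ * Φ τ = ((if x = 2 then ((Complex.exp τ) ^ 2)⁻¹ else 1) *
          Complex.exp τ : ℂ) • ((Y (cz x (Complex.exp τ)))⁻¹ * AB Bd (cz x (Complex.exp τ)) *
          Y (cz x (Complex.exp τ))) := by
        set Z := Y (cz x (Complex.exp τ)) with hZ
        set g := γ x with hg
        have f1 : g * (Bd x + Complex.exp τ • RR Bd x (Complex.exp τ)) * g⁻¹ =
            Rs γ Bd x + Complex.exp τ • (g * RR Bd x (Complex.exp τ) * g⁻¹) := by
          rw [Matrix.mul_add, Matrix.add_mul, Matrix.mul_smul, Matrix.smul_mul]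
          rfl
        set E := diagonal (fun i => Complex.exp (-τ * D i)) with hE
        set E' := diagonal (fun i => Complex.exp (τ * D i)) with hE'
        have hEE : E' * E = 1 := by
          rw [hE, hE', Matrix.diagonal_mul_diagonal, ← Matrix.diagonal_one]
          congr 1
          funext i
          rw [← Complex.exp_add]
          have : τ * D i + -τ * D i = 0 := by ring
          rw [this, Complex.exp_zero]
        have hEE' : E * E' = 1 := by
          rw [hE, hE', Matrix.diagonal_mul_diagonal, ← Matrix.diagonal_one]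
          congr 1
          funext i
          rw [← Complex.exp_add]
          have : -τ * D i + τ * D i = 0 := by ring
          rw [this, Complex.exp_zero]
        have f2 : T τ = E * (Rs γ Bd x + Complex.exp τ • (g * RR Bd x (Complex.exp τ) * g⁻¹)) *
            E' := by
          ext i k
          rw [hE, hE', Matrix.mul_diagonal, Matrix.diagonal_mul, Matrix.add_apply,
            Matrix.smul_apply, smul_eq_mul]
          have : Complex.exp (τ * (D k - D i)) = Complex.exp (-τ * D i) * Complex.exp (τ * D k) := by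
            rw [← Complex.exp_add]; congr 1; ring
          simp only [hT, Matrix.of_apply]
          rw [this]
          ring
        have f3 : (Φ τ)⁻¹ = Z⁻¹ * g⁻¹ * E' := by
          rw [hΦd τ, Matrix.mul_inv_rev, Matrix.mul_inv_rev]
          have : E⁻¹ = E' := Matrix.inv_eq_left_inv hEE
          rw [this]
        have hgg : g⁻¹ * g = 1 := Matrix.nonsing_inv_mul _ (hγ x)
        have f4 : (Φ τ)⁻¹ * T τ * Φ τ = Z⁻¹ *
            (Bd x + Complex.exp τ • RR Bd x (Complex.exp τ)) * Z := by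
          rw [f3, f2, hΦd τ, ← f1]
          calc Z⁻¹ * g⁻¹ * E' * (E * (g * (Bd x + Complex.exp τ • RR Bd x (Complex.exp τ)) * g⁻¹)
                * E') * (E * (g * Z))
              = Z⁻¹ * g⁻¹ * (E' * E) * (g * (Bd x + Complex.exp τ • RR Bd x (Complex.exp τ))
                * g⁻¹) * (E' * E) * (g * Z) := by simp only [Matrix.mul_assoc]
            _ = Z⁻¹ * (g⁻¹ * g) * (Bd x + Complex.exp τ • RR Bd x (Complex.exp τ)) *
                (g⁻¹ * g) * Z := by
                rw [hEE]; simp only [Matrix.mul_assoc, Matrix.mul_one]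
            _ = _ := by rw [hgg]; simp only [Matrix.mul_assoc, Matrix.one_mul]
        rw [f4, ← chain_AB hBd x tm1, Matrix.mul_smul, Matrix.smul_mul]
      rw [e1, Matrix.smul_apply, smul_eq_mul, mul_comm _ (((Y (cz x (Complex.exp τ)))⁻¹ *
        AB Bd (cz x (Complex.exp τ)) * Y (cz x (Complex.exp τ))) i j)]
      exact h3
    · -- bound
      have e1 : (Φ τ)⁻¹ * T τ * Φ τ - φ⁻¹ * Δ * φ = (Φ τ)⁻¹ * (T τ - Δ) * Φ τ +
          ((Φ τ)⁻¹ * Δ * (Φ τ - φ) + -((Φ τ)⁻¹ * (Φ τ - φ) * φ⁻¹ * Δ * φ)) := by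
        have f1 : (Φ τ)⁻¹ * (Φ τ - φ) * φ⁻¹ = φ⁻¹ - (Φ τ)⁻¹ := by
          rw [Matrix.mul_sub, Matrix.nonsing_inv_mul _ hΦu, Matrix.sub_mul, Matrix.one_mul,
            Matrix.mul_assoc, Matrix.mul_nonsing_inv _ hφ, Matrix.mul_one]
        rw [f1]
        simp only [Matrix.mul_sub, Matrix.sub_mul]
        abel
      rw [e1, Matrix.add_apply, Matrix.add_apply, Matrix.neg_apply]
      set η := Real.exp (δ * τ.re) with hη
      have hη0 : 0 ≤ η := (Real.exp_pos _).le
      have hC00 : 0 ≤ |C0| := abs_nonneg _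
      have b1 : ‖((Φ τ)⁻¹ * (T τ - Δ) * Φ τ) i j‖ ≤ r * (r * (α * (CT * η)) * (β0 + 1)) :=
        mul_bound (mul_bound hΦi hTb) hΦb i j
      have b2 : ‖((Φ τ)⁻¹ * Δ * (Φ τ - φ)) i j‖ ≤ r * (r * (α * CD) * (|C0| * η)) := by
        apply mul_bound (mul_bound hΦi hCD)
        intro i j
        rw [Matrix.sub_apply]
        exact hLε i j
      have b3 : ‖((Φ τ)⁻¹ * (Φ τ - φ) * φ⁻¹ * Δ * φ) i j‖ ≤
          r * (r * (r * (r * (α * (|C0| * η)) * α1) * CD) * β0) := by
        apply mul_bound (mul_bound (mul_bound (mul_bound hΦi _) hα1) hCD) hβ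
        intro i j
        rw [Matrix.sub_apply]
        exact hLε i j
      calc ‖((Φ τ)⁻¹ * (T τ - Δ) * Φ τ) i j + (((Φ τ)⁻¹ * Δ * (Φ τ - φ)) i j +
            -((Φ τ)⁻¹ * (Φ τ - φ) * φ⁻¹ * Δ * φ) i j)‖
          ≤ ‖((Φ τ)⁻¹ * (T τ - Δ) * Φ τ) i j‖ + (‖((Φ τ)⁻¹ * Δ * (Φ τ - φ)) i j‖ +
            ‖((Φ τ)⁻¹ * (Φ τ - φ) * φ⁻¹ * Δ * φ) i j‖) := by
            refine (norm_add_le _ _).trans (add_le_add le_rfl ?_)
            refine (norm_add_le _ _).trans (add_le_add le_rfl ?_)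
            rw [norm_neg]
        _ ≤ r * (r * (α * (CT * η)) * (β0 + 1)) + (r * (r * (α * CD) * (|C0| * η)) +
            r * (r * (r * (r * (α * (|C0| * η)) * α1) * CD) * β0)) :=
            add_le_add b1 (add_le_add b2 b3)
        _ = K * η := by rw [hK]; ring
  -- conclusion
  have hfin : ∀ i j, ∃ C' : ℝ, ∀ τ : ℂ, τ.re < a2 - 1 → c < τ.im → τ.im < d →
      ‖(W (cz x (Complex.exp τ)) - τ • (φ⁻¹ * Δ * φ)) i j‖ ≤ C' := fun i j =>
    hHSB a2 c d δ K hδp hcd _ _ (fun τ t1 t2 t3 => main τ t1 t2 t3 i j)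
  choose C' hC' using hfin
  refine ⟨∑ i, ∑ j, |C' i j|, a2 - 1, ?_⟩
  intro τ t1 t2 t3 i j
  have h1 := hC' i j τ t1 t2 t3
  have h2 : |C' i j| ≤ ∑ j, |C' i j| :=
    Finset.single_le_sum (f := fun j => |C' i j|) (fun k _ => abs_nonneg _) (Finset.mem_univ j)
  have h3 : ∑ j, |C' i j| ≤ ∑ i, ∑ j, |C' i j| :=
    Finset.single_le_sum (f := fun i => ∑ j, |C' i j|)
      (fun i _ => Finset.sum_nonneg fun k _ => abs_nonneg _) (Finset.mem_univ i)
  exact h1.trans ((le_abs_self _).trans (h2.trans h3))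

end ItemLW

open ItemLW ItemLNF in
theorem prf_L_W (_hSol : S_Sol) (hInv : S_Inv) (hHSB : L_HSB) : L_W := by
  intro r γ w B Bd x φ hγ hw hLD hBd hUd hLA Wa Wb hWa hWb
  obtain ⟨hφ, δ, C, a, hδ, hL⟩ := hLA
  have hlt : ∀ τ : ℂ, τ.re < -1 → ‖Complex.exp τ‖ < 1 := fun τ h => by
    have := norm_exp_lt h
    linarith
  have hpi := Real.pi_pos
  obtain ⟨C1, a1, h1⟩ := strip hHSB hγ hw hLD hBd x hUd hφ (c := 0) (d := 2 * Real.pi)
    (δ0 := δ) (C0 := C) (a0 := a) hδ (by linarith) (by linarith) le_rfl (Y := YY B x) (W := Wa)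
    (by
      intro τ t1 t2 t3
      have hz := cz_mem_a x (hlt τ t1) (exp_mem_Sa t2 t3)
      exact ⟨hInv _ B x _ hz, hWa.2 _ hz⟩)
    (fun τ t1 t2 t3 i j => (hL τ t1 i j).1 t2 t3)
  obtain ⟨C2, a2, h2⟩ := strip hHSB hγ hw hLD hBd x hUd hφ (c := -Real.pi) (d := Real.pi)
    (δ0 := δ) (C0 := C) (a0 := a) hδ (by linarith) (by linarith) (by linarith)
    (Y := YY B (x + 1)) (W := Wb)
    (by
      intro τ t1 t2 t3
      have hz := cz_mem_b x (hlt τ t1) (exp_mem_Sb t2 t3)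
      exact ⟨hInv _ B (x + 1) _ hz, hWb.2 _ hz⟩)
    (fun τ t1 t2 t3 i j => (hL τ t1 i j).2 t2 t3)
  refine ⟨max C1 C2, min a1 a2, ?_⟩
  intro τ t1 i j
  refine ⟨fun t2 t3 => ?_, fun t2 t3 => ?_⟩
  · exact (h1 τ (lt_of_lt_of_le t1 (min_le_left _ _)) t2 t3 i j).trans (le_max_left _ _)
  · exact (h2 τ (lt_of_lt_of_le t1 (min_le_right _ _)) t2 t3 i j).trans (le_max_right _ _)

end Pool.Agent.MSU

end

section

/-! Item P_Start: from the critical point to a solution of the equations at the parameter zero. -/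

open Matrix Polynomial Filter Topology
open scoped ComplexConjugate ComplexOrder

set_option linter.unusedSectionVars false

namespace Pool.Agent.MSU

namespace ItemPStart

/-! ### coding of Hermitian matrices -/

theorem hm_code {r : ℕ} (H : Matrix (Fin r) (Fin r) ℂ) (hH : Hᴴ = H) : hm (code H) = H := by
  ext a b
  have h1 : H b a = conj (H a b) := by
    have := congrFun (congrFun hH b) a
    rw [Matrix.conjTranspose_apply] at this
    exact this.symm
  unfold hm code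
  simp only [Matrix.of_apply]
  rw [h1]
  apply Complex.ext
  · simp
    ring
  · simp

theorem hm_zero {r : ℕ} : hm (0 : Fin r → Fin r → ℝ) = 0 := by
  ext a b
  simp [hm]

theorem code_zero {r : ℕ} : code (0 : Matrix (Fin r) (Fin r) ℂ) = 0 := by
  funext a b
  simp [code]

/-! ### telescoping -/

theorem tele (g : ℕ → ℝ) (a r : ℕ) (h : a < r) :
    ∑ k ∈ Finset.range r, (if a < k then g k - g (k - 1) else 0) = g (r - 1) - g a := by
  induction r, h using Nat.le_induction with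
  | base =>
    have : ∑ k ∈ Finset.range (a + 1), (if a < k then g k - g (k - 1) else 0) = 0 := by
      refine Finset.sum_eq_zero fun k hk => ?_
      rw [Finset.mem_range] at hk
      rw [if_neg (by omega)]
    simpa using this
  | succ n hn ih =>
    rw [Finset.sum_range_succ, ih, if_pos (by omega)]
    simp

theorem cf_tail {r : ℕ} (w : Fin r → ℝ) (a : Fin r) :
    ∑ l, (if a < l then cf w l else 0) = tw w - w a := by
  set g : ℕ → ℝ := fun k => if h : k < r then w ⟨k, h⟩ else 0 with hg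
  have h0 : 0 < r := lt_of_le_of_lt (Nat.zero_le _) a.isLt
  have h1 : ∀ l : Fin r, (if a < l then cf w l else 0) =
      (fun k : ℕ => if (a : ℕ) < k then g k - g (k - 1) else 0) (l : ℕ) := by
    intro l
    simp only [Fin.lt_def]
    by_cases hl : (a : ℕ) < (l : ℕ)
    · rw [if_pos hl, if_pos hl]
      unfold cf
      rw [dif_pos (by omega), hg]
      simp only
      rw [dif_pos l.isLt, dif_pos (by omega)]
    · rw [if_neg hl, if_neg hl]
  rw [Finset.sum_congr rfl fun l _ => h1 l, Fin.sum_univ_eq_sum_range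
    (fun k : ℕ => if (a : ℕ) < k then g k - g (k - 1) else 0) r, tele g a r a.isLt]
  have h2 : g (r - 1) = tw w := by
    unfold tw
    rw [hg]
    simp only
    rw [dif_pos h0, dif_pos (by omega)]
  have h3 : g (a : ℕ) = w a := by
    rw [hg]
    simp only
    rw [dif_pos a.isLt]
  rw [h2, h3]

/-! ### the projections -/

/-- the orthogonal projection to the span of the first columns -/
noncomputable def pr {r : ℕ} (γ : Matrix (Fin r) (Fin r) ℂ) (h : Matrix (Fin r) (Fin r) ℂ)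
    (l : Fin r) : Matrix (Fin r) (Fin r) ℂ :=
  fc γ l * ((fc γ l)ᴴ * h * fc γ l)⁻¹ * (fc γ l)ᴴ * h

theorem h_pr_herm {r : ℕ} (γ h : Matrix (Fin r) (Fin r) ℂ) (hh : hᴴ = h) (l : Fin r) :
    (h * pr γ h l)ᴴ = h * pr γ h l := by
  unfold pr
  simp only [conjTranspose_mul, conjTranspose_conjTranspose, Matrix.conjTranspose_nonsing_inv, hh,
    Matrix.mul_assoc]

theorem gamma_fc {r : ℕ} (γ : Matrix (Fin r) (Fin r) ℂ) (hγ : IsUnit γ.det) (l : Fin r) :
    γ * fc γ l = (1 : Matrix (Fin r) (Fin r) ℂ).submatrix id (Fin.castLE l.isLt.le) := by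
  unfold fc
  rw [← Matrix.mul_nonsing_inv γ hγ]
  rfl

/-- the projection in the flag basis: rows from `l` on vanish -/
theorem pr_row {r : ℕ} (γ h : Matrix (Fin r) (Fin r) ℂ) (hγ : IsUnit γ.det) (l a b : Fin r)
    (hla : l ≤ a) : (γ * pr γ h l * γ⁻¹) a b = 0 := by
  have h1 : γ * pr γ h l * γ⁻¹ =
      (1 : Matrix (Fin r) (Fin r) ℂ).submatrix id (Fin.castLE l.isLt.le) *
        (((fc γ l)ᴴ * h * fc γ l)⁻¹ * (fc γ l)ᴴ * h * γ⁻¹) := by
    rw [← gamma_fc γ hγ l]
    unfold pr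
    simp only [Matrix.mul_assoc]
  rw [h1, Matrix.mul_apply]
  refine Finset.sum_eq_zero fun k _ => ?_
  rw [Matrix.submatrix_apply, Matrix.one_apply_ne, zero_mul]
  intro h2
  have h3 := congrArg Fin.val h2
  simp only [id, Fin.val_castLE] at h3
  have h4 := k.isLt
  have h5 : (l : ℕ) ≤ (a : ℕ) := hla
  omega

/-- the projection in the flag basis: columns below `l` are those of the unit matrix -/
theorem pr_col {r : ℕ} (γ h : Matrix (Fin r) (Fin r) ℂ) (hγ : IsUnit γ.det) (hh : h.PosDef)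
    (l a b : Fin r) (hbl : b < l) : (γ * pr γ h l * γ⁻¹) a b = (1 : Matrix _ _ ℂ) a b := by
  have hG : ((fc γ l)ᴴ * h * fc γ l).PosDef := hh.conjTranspose_mul_mul_same
      (ItemPCrit.injective_of_fullRank _ (ItemPMin.fc_fullRank γ hγ l))
  have hu : IsUnit ((fc γ l)ᴴ * h * fc γ l).det := isUnit_iff_ne_zero.2 hG.det_pos.ne'
  have h0 : pr γ h l * fc γ l = fc γ l := by
    have e : pr γ h l * fc γ l = fc γ l * (((fc γ l)ᴴ * h * fc γ l)⁻¹ *
        ((fc γ l)ᴴ * h * fc γ l)) := by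
      unfold pr
      simp only [Matrix.mul_assoc]
    rw [e, Matrix.nonsing_inv_mul _ hu, Matrix.mul_one]
  have h1 : (γ * pr γ h l * γ⁻¹) a b = (γ * pr γ h l * fc γ l) a ⟨(b : ℕ), hbl⟩ := by
    rw [Matrix.mul_apply, Matrix.mul_apply]
    rfl
  rw [h1, Matrix.mul_assoc, h0, gamma_fc γ hγ l, Matrix.submatrix_apply]
  rfl

/-! ### scaling -/

theorem crit_smul {r : ℕ} (γ : Fin 3 → Matrix (Fin r) (Fin r) ℂ) (w : Fin 3 → Fin r → ℝ)
    (hγ : GU γ) (h : Matrix (Fin r) (Fin r) ℂ) (hh : h.PosDef) (hc : Crit γ w h) (c : ℝ)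
    (hc0 : 0 < c) : Crit γ w ((c : ℂ) • h) := by
  have hc1 : (c : ℂ) ≠ 0 := by exact_mod_cast hc0.ne'
  let _ : Invertible (c : ℂ) := invertibleOfNonzero hc1
  have h1 : ((c : ℂ) • h)⁻¹ = (c : ℂ)⁻¹ • h⁻¹ := by
    rw [Matrix.inv_smul _ _ (isUnit_iff_ne_zero.2 hh.det_pos.ne'), invOf_eq_inv]
  have h2 : ∀ y l, ((fc (γ y) l)ᴴ * ((c : ℂ) • h) * fc (γ y) l)⁻¹ =
      (c : ℂ)⁻¹ • ((fc (γ y) l)ᴴ * h * fc (γ y) l)⁻¹ := by
    intro y l
    have hG : ((fc (γ y) l)ᴴ * h * fc (γ y) l).PosDef := hh.conjTranspose_mul_mul_same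
      (ItemPCrit.injective_of_fullRank _ (ItemPMin.fc_fullRank (γ y) (hγ y) l))
    rw [Matrix.mul_smul, Matrix.smul_mul,
      Matrix.inv_smul _ _ (isUnit_iff_ne_zero.2 hG.det_pos.ne'), invOf_eq_inv]
  unfold Crit at hc ⊢
  simp only [h1, h2]
  rw [smul_comm, ← hc, Finset.smul_sum]
  refine Finset.sum_congr rfl fun y _ => ?_
  rw [Finset.smul_sum]
  refine Finset.sum_congr rfl fun l _ => ?_
  rw [Matrix.mul_smul, Matrix.smul_mul, smul_comm]

end ItemPStart

/-- start of the continuity method -/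
theorem prf_P_Start (hZ : S_Z0) : P_Start := by
  rintro r γ w hr hγ hw hsum ⟨h0, hh0, hc0⟩
  have : Nonempty (Fin r) := ⟨⟨0, hr⟩⟩
  -- normalisation of the trace
  have ht : 0 < h0.trace := hh0.trace_pos
  obtain ⟨ht1, ht2⟩ := Complex.pos_iff.1 ht
  obtain ⟨h, hh, hc, htr⟩ : ∃ h : Matrix (Fin r) (Fin r) ℂ, h.PosDef ∧ Crit γ w h ∧
      h.trace = 1 := by
    refine ⟨((h0.trace.re⁻¹ : ℝ) : ℂ) • h0, ?_, ItemPStart.crit_smul γ w hγ h0 hh0 hc0 _
      (inv_pos.2 ht1), ?_⟩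
    · exact hh0.smul (by exact_mod_cast inv_pos.2 ht1)
    · rw [Matrix.trace_smul, smul_eq_mul]
      have : h0.trace = ((h0.trace.re : ℝ) : ℂ) := Complex.ext rfl (by simpa using ht2.symm)
      rw [this, Complex.ofReal_re, ← Complex.ofReal_mul, inv_mul_cancel₀ ht1.ne',
        Complex.ofReal_one]
  have hhH : hᴴ = h := hh.1
  have hu : IsUnit h.det := isUnit_iff_ne_zero.2 hh.det_pos.ne'
  set β : Fin 3 → Matrix (Fin r) (Fin r) ℂ := fun y =>
    ((tw (w y) : ℝ) : ℂ) • (1 : Matrix (Fin r) (Fin r) ℂ)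
      - ∑ l, (cf (w y) l : ℂ) • ItemPStart.pr (γ y) h l with hβ
  -- the sum of the residues
  have hβsum : β 0 + β 1 + β 2 = 0 := by
    have e1 : β 0 + β 1 + β 2 = ∑ y, β y := by rw [Fin.sum_univ_three]
    have e2 : ∑ y, ∑ l, (cf (w y) l : ℂ) • ItemPStart.pr (γ y) h l =
        ((∑ y, tw (w y) : ℝ) : ℂ) • (1 : Matrix (Fin r) (Fin r) ℂ) := by
      have e3 : ∑ y, ∑ l, (cf (w y) l : ℂ) • ItemPStart.pr (γ y) h l =
          (∑ y, ∑ l, (cf (w y) l : ℂ) • (fc (γ y) l *
            ((fc (γ y) l)ᴴ * h * fc (γ y) l)⁻¹ * (fc (γ y) l)ᴴ)) * h := by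
        rw [Finset.sum_mul]
        refine Finset.sum_congr rfl fun y _ => ?_
        rw [Finset.sum_mul]
        refine Finset.sum_congr rfl fun l _ => ?_
        rw [Matrix.smul_mul]
        rfl
      rw [e3, hc, Matrix.smul_mul, Matrix.nonsing_inv_mul h hu]
    rw [e1, hβ, Finset.sum_sub_distrib, e2, ← Finset.sum_smul]
    push_cast
    exact sub_self _
  -- self-adjointness
  have hβh : ∀ y, (β y)ᴴ * h = h * β y := by
    intro y
    have e1 : (h * β y)ᴴ = h * β y := by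
      rw [hβ]
      simp only
      rw [Matrix.mul_sub, Matrix.mul_smul, Matrix.mul_one, conjTranspose_sub, conjTranspose_smul,
        hhH, Matrix.mul_sum, conjTranspose_sum]
      have e2 : star ((tw (w y) : ℝ) : ℂ) = ((tw (w y) : ℝ) : ℂ) := Complex.conj_ofReal _
      rw [e2]
      congr 1
      refine Finset.sum_congr rfl fun l _ => ?_
      rw [Matrix.mul_smul, conjTranspose_smul, ItemPStart.h_pr_herm (γ y) h hhH l]
      have e3 : star (cf (w y) l : ℂ) = (cf (w y) l : ℂ) := Complex.conj_ofReal _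
      rw [e3]
    rw [conjTranspose_mul, hhH] at e1
    exact e1
  -- the residues in the flag bases
  have hRs : ∀ y a b, Rs γ β y a b = ((tw (w y) : ℝ) : ℂ) * (1 : Matrix _ _ ℂ) a b
      - ∑ l, (cf (w y) l : ℂ) * (γ y * ItemPStart.pr (γ y) h l * (γ y)⁻¹) a b := by
    intro y a b
    unfold Rs
    rw [hβ]
    simp only
    rw [Matrix.mul_sub, Matrix.sub_mul, Matrix.mul_smul, Matrix.mul_one, Matrix.smul_mul,
      Matrix.mul_nonsing_inv _ (hγ y), Matrix.mul_sum, Matrix.sum_mul, Matrix.sub_apply,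
      Matrix.smul_apply, smul_eq_mul, Matrix.sum_apply]
    congr 1
    refine Finset.sum_congr rfl fun l _ => ?_
    rw [Matrix.mul_smul, Matrix.smul_mul, Matrix.smul_apply, smul_eq_mul]
  have hlow : ∀ y a b, b < a → Rs γ β y a b = 0 := by
    intro y a b hba
    rw [hRs, Matrix.one_apply_ne hba.ne', mul_zero, zero_sub, neg_eq_zero]
    refine Finset.sum_eq_zero fun l _ => ?_
    rcases le_or_gt l a with hl | hl
    · rw [ItemPStart.pr_row (γ y) h (hγ y) l a b hl, mul_zero]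
    · rw [ItemPStart.pr_col (γ y) h (hγ y) hh l a b (hba.trans hl), Matrix.one_apply_ne hba.ne',
        mul_zero]
  have hdiag : ∀ y a, Rs γ β y a a = ((w y a : ℝ) : ℂ) := by
    intro y a
    rw [hRs, Matrix.one_apply_eq, mul_one]
    have e1 : ∀ l, (cf (w y) l : ℂ) * (γ y * ItemPStart.pr (γ y) h l * (γ y)⁻¹) a a =
        (((if a < l then cf (w y) l else 0 : ℝ)) : ℂ) := by
      intro l
      by_cases hl : a < l
      · rw [if_pos hl, ItemPStart.pr_col (γ y) h (hγ y) hh l a a hl, Matrix.one_apply_eq, mul_one]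
      · rw [if_neg hl, ItemPStart.pr_row (γ y) h (hγ y) l a a (not_lt.1 hl), mul_zero]
        simp
    rw [Finset.sum_congr rfl fun l _ => e1 l, ← Complex.ofReal_sum, ItemPStart.cf_tail,
      ← Complex.ofReal_sub]
    congr 1
    ring
  -- the solution
  refine ⟨(fun y a b => β y a b, code h, 0), ?_, ?_⟩
  · have hbt : bt ((fun y a b => β y a b, code h, 0) : XT r) = β := rfl
    unfold FF
    simp only [hbt]
    refine Prod.ext ?_ (Prod.ext ?_ ?_)
    · funext a b
      simp only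
      rw [hβsum]
      rfl
    · funext j
      simp only
      rw [ItemPStart.hm_code h hhH, ItemPStart.hm_zero, hZ r β j]
      have e1 : E2 0 h 0 (aa j • β 0 + bb j • β 1) = 0 := by
        unfold E2
        have ea : star (aa j) = - aa j := by
          unfold aa
          split_ifs
          · simp
          · simp
        have eb : star (bb j) = - bb j := by
          unfold bb
          split_ifs
          · simp
          · simp
        rw [conjTranspose_add, conjTranspose_smul, conjTranspose_smul, ea, eb, Matrix.add_mul,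
          Matrix.smul_mul, Matrix.smul_mul, hβh, hβh, Matrix.mul_add, Matrix.mul_smul,
          Matrix.mul_smul]
        simp only [Complex.ofReal_zero, zero_smul, ne_eq, OfNat.ofNat_ne_zero, not_false_eq_true,
          zero_pow, add_zero]
        module
      rw [e1, ItemPStart.code_zero]
      rfl
    · funext y a b
      show E3 γ w β (code h) y a b = 0
      unfold E3
      by_cases h1 : b < a
      · rw [if_pos h1, hlow y a b h1]
        rfl
      · rw [if_neg h1]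
        by_cases h2 : a < b
        · rw [if_pos h2, hlow y b a h2]
          rfl
        · rw [if_neg h2, hdiag, Complex.ofReal_re]
          have e1 : ∑ c, code h c c = 1 := by
            have e2 : ∀ c, code h c c = (h c c).re := by
              intro c
              have e3 : (h c c).im = 0 := by
                have := congrFun (congrFun hhH c) c
                rw [Matrix.conjTranspose_apply] at this
                exact Complex.conj_eq_iff_im.1 this
              unfold code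
              rw [e3, add_zero]
            rw [Finset.sum_congr rfl fun c _ => e2 c]
            have e4 := congrArg Complex.re htr
            unfold Matrix.trace at e4
            rw [Complex.re_sum] at e4
            simpa using e4
          rw [e1]
          show w y a - w y a + (1 - 1) = 0
          ring
  · show (hm (code h)).PosDef
    rw [ItemPStart.hm_code h hhH]
    exact hh

end Pool.Agent.MSU

end

section

/-! Items (as propositions) of the comparison of the subbundles of parabolic degree zero with the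
invariant subspaces of a unitary local system, and of the final assembly.

`g₀ g₁ v` are as in `T/Defs.lean` (`v` are weights, i.e. MINUS the growth exponents). -/

open Matrix Polynomial Filter Topology
open Pool.Agent.Work.MP_5e5ff1_ag

namespace Pool.Agent.MSU

/-! ### definitions -/

section defs

variable {κ δ : Type} [Fintype κ] [DecidableEq κ] [Fintype δ] [DecidableEq δ]

/-- multivalued matrices with arbitrary index types; see `MV` -/
structure MVx (G : Fin 3 → ℂ → Matrix κ δ ℂ) (Q : Fin 3 → Matrix δ δ ℂ) : Prop where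
  diff : ∀ j a b, DifferentiableOn ℂ (fun z => G j z a b) (V j)
  plus : ∀ (j j' : Fin 3) (z : ℂ), 0 < z.im → G j z = G j' z
  minus : ∀ (j : Fin 3) (z : ℂ), z.im < 0 → G (j + 1) z = G j z * Q j
  unit : ∀ j, (Q j)ᴴ * Q j = 1

/-- row bounds with arbitrary index types; see `RowBd` -/
def RowBdx (γ : Fin 3 → Matrix κ κ ℂ) (w : Fin 3 → κ → ℝ) (G : Fin 3 → ℂ → Matrix κ δ ℂ) : Prop :=
  ∀ x, ∃ C ρ : ℝ, 0 < ρ ∧ ρ ≤ 1 / 2 ∧ ∀ ζ : ℂ, ‖ζ‖ < ρ →
    (ζ ∈ Sa → ∀ a b, ‖(γ x * G x (cz x ζ)) a b‖ ≤ C * ‖ζ‖ ^ (w x a)) ∧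
    (ζ ∈ Sb → ∀ a b, ‖(γ x * G (x + 1) (cz x ζ)) a b‖ ≤ C * ‖ζ‖ ^ (w x a))

/-- the columns of the inverse of `γ G` are bounded by the opposite weights -/
def ColBdx (γ : Fin 3 → Matrix κ κ ℂ) (w : Fin 3 → κ → ℝ) (G : Fin 3 → ℂ → Matrix κ κ ℂ) : Prop :=
  ∀ x, ∃ C ρ : ℝ, 0 < ρ ∧ ρ ≤ 1 / 2 ∧ ∀ ζ : ℂ, ‖ζ‖ < ρ →
    (ζ ∈ Sa → ∀ a b, ‖((γ x * G x (cz x ζ))⁻¹) b a‖ ≤ C * ‖ζ‖ ^ (-(w x a))) ∧
    (ζ ∈ Sb → ∀ a b, ‖((γ x * G (x + 1) (cz x ζ))⁻¹) b a‖ ≤ C * ‖ζ‖ ^ (-(w x a)))

/-- the three frames -/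
def gam (g₀ g₁ : Matrix κ κ ℂ) : Fin 3 → Matrix κ κ ℂ := ![g₀, g₁, 1]

/-- the growth exponents -/
def wt (v : Fin 3 × κ → ℝ) : Fin 3 → κ → ℝ := fun x a => -v (x, a)

end defs

/-! ### items -/

/-- stability in the two languages -/
def M_St : Prop := ∀ (r : ℕ) (g₀ g₁ : Matrix (Fin r) (Fin r) ℂ) (v : Fin 3 × Fin r → ℝ),
  g₀.det ≠ 0 → g₁.det ≠ 0 → T.Stable g₀ g₁ v → StG (gam g₀ g₁) (wt v)

/-- bounds for the inverse -/
def M_Col : Prop := ∀ (r : ℕ) (γ : Fin 3 → Matrix (Fin r) (Fin r) ℂ) (w : Fin 3 → Fin r → ℝ)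
  (G : Fin 3 → ℂ → Matrix (Fin r) (Fin r) ℂ) (Q : Fin 3 → Matrix (Fin r) (Fin r) ℂ), GU γ →
  ∑ x, ∑ i, w x i = 0 → MV G Q → RowBd γ w G → (∀ j, ∀ z ∈ V j, IsUnit (G j z).det) →
  ColBdx γ w G

/-- tensor powers -/
def M_Tens : Prop := ∀ (r m : ℕ) (g₀ g₁ : Matrix (Fin r) (Fin r) ℂ) (v : Fin 3 × Fin r → ℝ)
  (G : Fin 3 → ℂ → Matrix (Fin r) (Fin r) ℂ) (Q : Fin 3 → Matrix (Fin r) (Fin r) ℂ),
  g₀.det ≠ 0 → g₁.det ≠ 0 → MV G Q → RowBd (gam g₀ g₁) (wt v) G →
  (∀ j, ∀ z ∈ V j, IsUnit (G j z).det) → ColBdx (gam g₀ g₁) (wt v) G →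
  MVx (fun j z => T.tens m (G j z)) (fun j => T.tens m (Q j)) ∧
  RowBdx (gam (T.tens m g₀) (T.tens m g₁)) (wt (T.tensWeight m v)) (fun j z => T.tens m (G j z)) ∧
  ColBdx (gam (T.tens m g₀) (T.tens m g₁)) (wt (T.tensWeight m v)) (fun j z => T.tens m (G j z)) ∧
  ∀ j, ∀ z ∈ V j, IsUnit (T.tens m (G j z)).det

/-- `D_Factor` with arbitrary index types -/
def M_Factor : Prop := ∀ (κ : Type) [Fintype κ] [DecidableEq κ] (d : ℕ)
  (γ : Fin 3 → Matrix κ κ ℂ) (w : Fin 3 → κ → ℝ) (G : Fin 3 → ℂ → Matrix κ (Fin d) ℂ)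
  (Q : Fin 3 → Matrix (Fin d) (Fin d) ℂ), (∀ x, IsUnit (γ x).det) → MVx G Q → RowBdx γ w G →
  (∃ z : ℂ, 0 < z.im ∧ G 0 z ≠ 0) → (∀ z : ℂ, 0 < z.im → (G 0 z).rank < Fintype.card κ) →
  ∃ k : ℕ, 0 < k ∧ k < Fintype.card κ ∧ ∃ W : Matrix κ (Fin k) ℂ[X], T.IsSub W ∧
    ∃ N : Fin 3 → ℂ → Matrix (Fin k) (Fin d) ℂ, MVx N Q ∧
      (∀ j, ∀ z ∈ V j, G j z = W.map (eval z) * N j z) ∧
      ∃ (z : ℂ) (L : Fin k → Fin d), 0 < z.im ∧ ((N 0 z).submatrix id L).det ≠ 0

/-- an invariant subspace gives a subbundle of nonnegative parabolic degree -/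
def M_Sup : Prop := ∀ (κ : Type) [Fintype κ] [DecidableEq κ] (g₀ g₁ : Matrix κ κ ℂ)
  (v : Fin 3 × κ → ℝ) (G : Fin 3 → ℂ → Matrix κ κ ℂ) (Q : Fin 3 → Matrix κ κ ℂ),
  g₀.det ≠ 0 → g₁.det ≠ 0 → ∑ i, v i = 0 → MVx G Q → RowBdx (gam g₀ g₁) (wt v) G →
  (∀ j, ∀ z ∈ V j, IsUnit (G j z).det) →
  ∀ U : Submodule ℂ (κ → ℂ), (∀ x, U.map (Q x).mulVecLin ≤ U) →
  ∃ (k : ℕ) (W : Matrix κ (Fin k) ℂ[X]), k = Module.finrank ℂ U ∧ T.IsSub W ∧
    0 ≤ T.parDegree g₀ g₁ v W ∧
    ∀ j, ∀ z ∈ V j, LinearMap.range (W.map (eval z)).mulVecLin = U.map (G j z).mulVecLin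

/-- a unitary matrix preserves the sum of the squares of the minors -/
def M_CB : Prop := ∀ (κ : Type) [Fintype κ] [DecidableEq κ] (k : ℕ) (Q : Matrix κ κ ℂ)
  (A : Matrix κ (Fin k) ℂ), Qᴴ * Q = 1 →
  ∑ f : Fin k → κ, ‖((Q * A).submatrix f id).det‖ ^ 2 = ∑ f : Fin k → κ, ‖(A.submatrix f id).det‖ ^ 2

/-- a subbundle of nonnegative parabolic degree is flat -/
def M_Sub : Prop := ∀ (κ : Type) [Fintype κ] [DecidableEq κ] (g₀ g₁ : Matrix κ κ ℂ)
  (v : Fin 3 × κ → ℝ) (G : Fin 3 → ℂ → Matrix κ κ ℂ) (Q : Fin 3 → Matrix κ κ ℂ),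
  g₀.det ≠ 0 → g₁.det ≠ 0 → MVx G Q → ColBdx (gam g₀ g₁) (wt v) G →
  (∀ j, ∀ z ∈ V j, IsUnit (G j z).det) →
  ∀ (k : ℕ) (W : Matrix κ (Fin k) ℂ[X]), T.IsSub W → 0 ≤ T.parDegree g₀ g₁ v W →
  ∃ U : Submodule ℂ (κ → ℂ), (∀ x, U.map (Q x).mulVecLin ≤ U) ∧
    ∀ j, ∀ z ∈ V j, LinearMap.range (W.map (eval z)).mulVecLin = U.map (G j z).mulVecLin

/-- the fibres of the subbundles of degree zero are the invariant subspaces -/
def M_Fib : Prop := ∀ (κ : Type) [Fintype κ] [DecidableEq κ] (g₀ g₁ : Matrix κ κ ℂ)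
  (v : Fin 3 × κ → ℝ) (G : Fin 3 → ℂ → Matrix κ κ ℂ) (Q : Fin 3 → Matrix κ κ ℂ),
  g₀.det ≠ 0 → g₁.det ≠ 0 → T.Semistable g₀ g₁ v → MVx G Q → RowBdx (gam g₀ g₁) (wt v) G →
  ColBdx (gam g₀ g₁) (wt v) G → (∀ j, ∀ z ∈ V j, IsUnit (G j z).det) →
  ∀ j, ∀ z ∈ V j, T.parFibres g₀ g₁ v z
    = Submodule.map (G j z).mulVecLin '' {U | ∀ x, U.map (Q x).mulVecLin ≤ U}

/-- stable bundles give irreducible representations -/
def M_Irr : Prop := ∀ (r : ℕ) (g₀ g₁ : Matrix (Fin r) (Fin r) ℂ) (v : Fin 3 × Fin r → ℝ)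
  (G : Fin 3 → ℂ → Matrix (Fin r) (Fin r) ℂ) (Q : Fin 3 → Matrix (Fin r) (Fin r) ℂ),
  g₀.det ≠ 0 → g₁.det ≠ 0 → T.Stable g₀ g₁ v → MV G Q → RowBd (gam g₀ g₁) (wt v) G →
  (∀ j, ∀ z ∈ V j, IsUnit (G j z).det) →
  ∀ U : Submodule ℂ (Fin r → ℂ), (∀ x, U.map (Q x).mulVecLin ≤ U) → U = ⊥ ∨ U = ⊤

/-- finite unitary groups in terms of the invariant subspaces of tensor powers -/
def M_Grp : Prop := ∀ (r : ℕ) (A : Fin 3 → Matrix.unitaryGroup (Fin r) ℂ),
  (∃ D : ℕ, ∀ (a : ℕ) (τ : Fin a → Fin r), ∃ U : Submodule ℂ ((Fin a → Unit ⊕ Fin r) → ℂ),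
    (∀ x, U.map (T.tens a (A x : Matrix (Fin r) (Fin r) ℂ)).mulVecLin ≤ U) ∧
      Module.finrank ℂ U ≤ D ∧ Pool.Agent.Work.MP_5e5ff1_ag.A.tensVec τ ∈ U) ↔
  Finite (Subgroup.closure (Set.range A))

/-- the product of the local monodromies -/
def M_Prod : Prop := ∀ (r : ℕ) (G : Fin 3 → ℂ → Matrix (Fin r) (Fin r) ℂ)
  (Q : Fin 3 → Matrix (Fin r) (Fin r) ℂ), MV G Q → (∀ j, ∀ z ∈ V j, IsUnit (G j z).det) →
  Q 0 * Q 1 * Q 2 = 1

end Pool.Agent.MSU

end

section

/-! Item `M_CB`: a unitary matrix preserves the sum of the squares of the minors. -/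

open Matrix
open Pool.Agent.Work.MP_5e5ff1_ag

namespace Pool.Agent.MSU

namespace ItemMCB

/-- the tensor power of a matrix -/
def tp {κ : Type} (k : ℕ) (Q : Matrix κ κ ℂ) : Matrix (Fin k → κ) (Fin k → κ) ℂ :=
  Matrix.of fun f f' => ∏ i, Q (f i) (f' i)

theorem tp_unit {κ : Type} [Fintype κ] [DecidableEq κ] (k : ℕ) (Q : Matrix κ κ ℂ)
    (hQ : Qᴴ * Q = 1) : (tp k Q)ᴴ * tp k Q = 1 := by
  ext f g
  rw [Matrix.mul_apply]
  have h1 : ∀ h : Fin k → κ, (tp k Q)ᴴ f h * tp k Q h g = ∏ i, (Qᴴ (f i) (h i) * Q (h i) (g i)) := by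
    intro h
    simp [tp, Matrix.conjTranspose_apply, Finset.prod_mul_distrib, star_prod]
  simp only [h1]
  have h2 := Finset.prod_univ_sum (fun _ : Fin k => (Finset.univ : Finset κ))
    (fun i a => Qᴴ (f i) a * Q a (g i))
  rw [Fintype.piFinset_univ] at h2
  rw [← h2]
  have h3 : ∀ i, ∑ a, Qᴴ (f i) a * Q a (g i) = (1 : Matrix κ κ ℂ) (f i) (g i) := by
    intro i
    rw [← hQ, Matrix.mul_apply]
  simp only [h3]
  by_cases hfg : f = g
  · subst hfg
    simp
  · rw [Matrix.one_apply_ne hfg]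
    obtain ⟨i, hi⟩ := Function.ne_iff.mp hfg
    exact Finset.prod_eq_zero (Finset.mem_univ i) (Matrix.one_apply_ne hi)

theorem norm_unit {ι : Type} [Fintype ι] [DecidableEq ι] (T : Matrix ι ι ℂ) (hT : Tᴴ * T = 1)
    (x : ι → ℂ) : ∑ f, ‖(T *ᵥ x) f‖ ^ 2 = ∑ f, ‖x f‖ ^ 2 := by
  have h1 : ∀ y : ι → ℂ, ((∑ f, ‖y f‖ ^ 2 : ℝ) : ℂ) = star y ⬝ᵥ y := by
    intro y
    rw [dotProduct]
    push_cast
    apply Finset.sum_congr rfl
    intro f _
    rw [Pi.star_apply, Complex.star_def, ← Complex.normSq_eq_conj_mul_self, Complex.normSq_eq_norm_sq]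
    push_cast
    rfl
  have h2 : ((∑ f, ‖(T *ᵥ x) f‖ ^ 2 : ℝ) : ℂ) = ((∑ f, ‖x f‖ ^ 2 : ℝ) : ℂ) := by
    rw [h1, h1, Matrix.star_mulVec, Matrix.dotProduct_mulVec, Matrix.vecMul_vecMul, hT,
      Matrix.vecMul_one]
  exact_mod_cast h2

end ItemMCB

open ItemMCB in
theorem prf_M_CB : M_CB := by
  intro κ _ _ k Q A hQ
  rw [← norm_unit (tp k Q) (tp_unit k Q hQ) (fun f => (A.submatrix f id).det)]
  apply Finset.sum_congr rfl
  intro f _
  rw [T.minor_mul]
  rfl

end Pool.Agent.MSU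

end

section

/-! Item M_Col: bounds for the inverse from the exact size of the determinant. -/

open Matrix Polynomial Filter Topology
open scoped ComplexConjugate

namespace Pool.Agent.MSU

namespace ItemMCol

open ItemDDet in
/-- the exact size of the determinant -/
theorem det_size (hSH : M_SH1) {r : ℕ} {γ : Fin 3 → Matrix (Fin r) (Fin r) ℂ}
    {w : Fin 3 → Fin r → ℝ} {G : Fin 3 → ℂ → Matrix (Fin r) (Fin r) ℂ}
    {Q : Fin 3 → Matrix (Fin r) (Fin r) ℂ} (hγ : GU γ) (hw : ∑ x, ∑ i, w x i = 0)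
    (hG : MV G Q) (hrow : RowBd γ w G) (hu : ∀ j, ∀ z ∈ V j, IsUnit (G j z).det) :
    ∃ c : ℝ, 0 < c ∧ ∀ j, ∀ z ∈ V j,
      ‖(G j z).det‖ * (‖z‖ ^ (-(∑ i, w 0 i)) * ‖z - 1‖ ^ (-(∑ i, w 1 i))) = c := by
  obtain ⟨α, hα⟩ : ∃ α, α = ∑ i, w 0 i := ⟨_, rfl⟩
  obtain ⟨β, hβ⟩ : ∃ β, β = ∑ i, w 1 i := ⟨_, rfl⟩
  have hw2 : ∑ i, w 2 i = -α - β := by
    rw [Fin.sum_univ_three] at hw
    rw [hα, hβ]; linarith
  obtain ⟨g, hg⟩ : ∃ g : Fin 3 → ℂ → ℂ, ∀ j z, g j z = (G j z).det *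
      (Complex.exp (((-α : ℝ) : ℂ) * Lg0 j z) * Complex.exp (((-β : ℝ) : ℂ) * Lg1 j z)) :=
    ⟨_, fun _ _ => rfl⟩
  have hnorm : ∀ j, ∀ z ∈ V j, ‖g j z‖ = ‖(G j z).det‖ * (‖z‖ ^ (-α) * ‖z - 1‖ ^ (-β)) := by
    intro j z hz
    rw [hg, norm_mul, norm_mul, norm_exp_real_mul_Lg0 hz, norm_exp_real_mul_Lg1 hz]
  have hgd : ∀ j, DifferentiableOn ℂ (g j) (V j) := by
    intro j
    have h1 : g j = fun z => (G j z).det *
      (Complex.exp (((-α : ℝ) : ℂ) * Lg0 j z) * Complex.exp (((-β : ℝ) : ℂ) * Lg1 j z)) := by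
      funext z; exact hg j z
    rw [h1]
    refine (det_diff _ (hG.diff j)).mul (DifferentiableOn.mul ?_ ?_)
    · intro z hz
      exact ((Lg0_deriv hz).differentiableAt.const_mul _).cexp.differentiableWithinAt
    · intro z hz
      exact ((Lg1_deriv hz).differentiableAt.const_mul _).cexp.differentiableWithinAt
  have hQ : ∀ j, ‖(Q j).det‖ = 1 := by
    intro j
    have h1 : ((Q j)ᴴ * Q j).det = 1 := by rw [hG.unit j, Matrix.det_one]
    rw [Matrix.det_mul, Matrix.det_conjTranspose] at h1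
    have h2 : ‖(Q j).det‖ * ‖(Q j).det‖ = 1 := by
      have := congrArg norm h1
      rwa [norm_mul, norm_star, norm_one] at this
    nlinarith [norm_nonneg (Q j).det]
  have hdeteq : ∀ (z : ℂ), z.im ≠ 0 → ∀ j, ‖(G j z).det‖ = ‖(G 0 z).det‖ := by
    intro z hz
    rcases lt_or_gt_of_ne hz with h | h
    · have h1 : ∀ j, ‖(G (j + 1) z).det‖ = ‖(G j z).det‖ := by
        intro j
        rw [hG.minus j z h, Matrix.det_mul, norm_mul, hQ, mul_one]
      intro j
      fin_cases j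
      · rfl
      · exact h1 0
      · exact (h1 1).trans (h1 0)
    · intro j
      rw [hG.plus j 0 z h]
  have hsame : ∀ j j' : Fin 3, ∀ z : ℂ, z ∈ V j → z ∈ V j' → ‖g j z‖ = ‖g j' z‖ := by
    intro j j' z hj hj'
    by_cases him : z.im = 0
    · rw [eq_of_im_zero hj hj' him]
    · rw [hnorm j z hj, hnorm j' z hj', hdeteq z him j, hdeteq z him j']
  have hbd : ∀ x : Fin 3, ∃ C ρ : ℝ, 0 < ρ ∧ ρ ≤ 1 / 2 ∧ ∀ ζ : ℂ, ‖ζ‖ < ρ →
      (ζ ∈ Sa → ‖g x (cz x ζ)‖ ≤ C) ∧ (ζ ∈ Sb → ‖g (x + 1) (cz x ζ)‖ ≤ C) := by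
    intro x
    obtain ⟨C, ρ, hρ, hρ2, hC⟩ := hrow x
    have hgx : (γ x).det ≠ 0 := (hγ x).ne_zero
    have key : ∀ (j : Fin 3) (ζ : ℂ), ζ ≠ 0 → ‖ζ‖ < ρ → cz x ζ ∈ V j →
        (∀ a b, ‖(γ x * G j (cz x ζ)) a b‖ ≤ C * ‖ζ‖ ^ (w x a)) →
        ‖g j (cz x ζ)‖ ≤ ‖(γ x).det‖⁻¹ * ((Fintype.card (Equiv.Perm (Fin r)) : ℝ) * |C| ^ r) *
          (2 ^ |-α| * 2 ^ |-β|) := by
      intro j ζ h0 hn hV hb
      have hp : 0 < ‖ζ‖ := norm_pos_iff.mpr h0
      have h1 := det_bound (γ x * G j (cz x ζ)) (w x) |C| ‖ζ‖ hp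
        (fun a b => (hb a b).trans
          (mul_le_mul_of_nonneg_right (le_abs_self C) (Real.rpow_nonneg hp.le _)))
      rw [Matrix.det_mul, norm_mul] at h1
      have h2 : ‖(G j (cz x ζ)).det‖ ≤ ‖(γ x).det‖⁻¹ *
          ((Fintype.card (Equiv.Perm (Fin r)) : ℝ) * (|C| ^ r * ‖ζ‖ ^ (∑ a, w x a))) := by
        have hpos : 0 < ‖(γ x).det‖ := norm_pos_iff.mpr hgx
        rw [← div_eq_inv_mul, le_div_iff₀ hpos]
        linarith
      have h3 := chart_bd α β (fun x => ∑ a, w x a) hα.symm hβ.symm hw2 x ζ h0 (by linarith)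
      rw [hnorm j _ hV]
      have h4 : 0 ≤ ‖cz x ζ‖ ^ (-α) * ‖cz x ζ - 1‖ ^ (-β) := by positivity
      refine (mul_le_mul_of_nonneg_right h2 h4).trans ?_
      have h5 : ‖(γ x).det‖⁻¹ *
          ((Fintype.card (Equiv.Perm (Fin r)) : ℝ) * (|C| ^ r * ‖ζ‖ ^ (∑ a, w x a))) *
          (‖cz x ζ‖ ^ (-α) * ‖cz x ζ - 1‖ ^ (-β))
          = ‖(γ x).det‖⁻¹ * ((Fintype.card (Equiv.Perm (Fin r)) : ℝ) * |C| ^ r) *
          (‖ζ‖ ^ (∑ a, w x a) * ‖cz x ζ‖ ^ (-α) * ‖cz x ζ - 1‖ ^ (-β)) := by ring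
      rw [h5]
      exact mul_le_mul_of_nonneg_left h3 (by positivity)
    refine ⟨‖(γ x).det‖⁻¹ * ((Fintype.card (Equiv.Perm (Fin r)) : ℝ) * |C| ^ r) *
          (2 ^ |-α| * 2 ^ |-β|), ρ, hρ, hρ2, fun ζ hn => ⟨fun ha => ?_, fun hb => ?_⟩⟩
    · exact key x ζ (Sa_ne ha) hn (cz_mem_a x (by linarith) ha) ((hC ζ hn).1 ha)
    · exact key (x + 1) ζ (Sb_ne hb) hn (cz_mem_b x (by linarith) hb) ((hC ζ hn).2 hb)
  have hres := hSH Unit (fun j _ => g j) (fun _ _ _ => 0) (fun j _ => hgd j)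
    (fun j _ => differentiableOn_const 0)
    (by
      intro j j' z hj hj'
      simp [hsame j j' z hj hj'])
    (by
      intro x
      obtain ⟨C, ρ, hρ, hρ2, hC⟩ := hbd x
      refine ⟨C ^ 2, ρ, hρ, hρ2, fun ζ hn => ⟨fun ha => ?_, fun hb => ?_⟩⟩
      · have h := (hC ζ hn).1 ha
        simp only [map_zero, add_zero, Finset.univ_unique, Finset.sum_singleton]
        exact pow_le_pow_left₀ (norm_nonneg _) h 2
      · have h := (hC ζ hn).2 hb
        simp only [map_zero, add_zero, Finset.univ_unique, Finset.sum_singleton]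
        exact pow_le_pow_left₀ (norm_nonneg _) h 2)
  refine ⟨‖g 0 Complex.I‖, ?_, ?_⟩
  · rw [hnorm 0 _ (I_mem 0)]
    have h1 : 0 < ‖(G 0 Complex.I).det‖ := norm_pos_iff.2 (hu 0 _ (I_mem 0)).ne_zero
    have h2 : 0 < ‖Complex.I‖ := by simp
    have h3 : 0 < ‖Complex.I - 1‖ := norm_pos_iff.2 (sub_ne_zero.2 (V_ne (I_mem 0)).2)
    positivity
  · intro j z hz
    have hc : g j z = g j Complex.I :=
      (V_open j).is_const_of_deriv_eq_zero (V_preconnected j) (hgd j)
        (fun s hs => (hres j () s hs).1) hz (I_mem j)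
    rw [← hα, ← hβ, ← hnorm j z hz, hc]
    exact hsame j 0 _ (I_mem j) (I_mem 0)

open ItemDDet in
/-- bound of the inverse -/
theorem inv_bound {r : ℕ} (M : Matrix (Fin r) (Fin r) ℂ) (e : Fin r → ℝ) (C t c : ℝ)
    (hC : 1 ≤ C) (ht : 0 < t) (hc : 0 < c) (h : ∀ a b, ‖M a b‖ ≤ C * t ^ (e a))
    (hd : c * t ^ (∑ a, e a) ≤ ‖M.det‖) (a b : Fin r) :
    ‖M⁻¹ b a‖ ≤ (c⁻¹ * ((Fintype.card (Equiv.Perm (Fin r)) : ℝ) * C ^ r)) * t ^ (-(e a)) := by
  have h1 := det_bound (M.updateRow a (Pi.single b 1)) (Function.update e a 0) C t ht (by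
    intro i j
    by_cases hi : i = a
    · subst hi
      rw [Matrix.updateRow_self, Function.update_self, Real.rpow_zero, mul_one]
      by_cases hj : j = b
      · subst hj
        simpa using hC
      · rw [Pi.single_eq_of_ne hj, norm_zero]
        linarith
    · rw [Matrix.updateRow_ne hi, Function.update_of_ne hi]
      exact h i j)
  have h2 : ∑ i, Function.update e a 0 i = ∑ i, e i - e a := by
    rw [Finset.sum_update_of_mem (Finset.mem_univ a), zero_add,
      ← Finset.sum_sdiff (Finset.subset_univ {a}) (f := e)]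
    simp
  rw [← Matrix.adjugate_apply, h2, Real.rpow_sub ht] at h1
  have hts : 0 < t ^ (∑ i, e i) := Real.rpow_pos_of_pos ht _
  have hta : 0 < t ^ (e a) := Real.rpow_pos_of_pos ht _
  have hdpos : 0 < ‖M.det‖ := lt_of_lt_of_le (by positivity) hd
  have hdet : M.det ≠ 0 := norm_pos_iff.1 hdpos
  rw [Matrix.inv_def, Matrix.smul_apply, smul_eq_mul, Ring.inverse_eq_inv', norm_mul, norm_inv,
    Real.rpow_neg ht.le]
  have h3 : ‖M.det‖⁻¹ ≤ (c * t ^ (∑ a, e a))⁻¹ := inv_anti₀ (by positivity) hd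
  calc ‖M.det‖⁻¹ * ‖M.adjugate b a‖
      ≤ (c * t ^ (∑ a, e a))⁻¹ * ((Fintype.card (Equiv.Perm (Fin r)) : ℝ) *
          (C ^ r * (t ^ (∑ i, e i) / t ^ (e a)))) :=
        mul_le_mul h3 h1 (norm_nonneg _) (by positivity)
    _ = (c⁻¹ * ((Fintype.card (Equiv.Perm (Fin r)) : ℝ) * C ^ r)) * (t ^ (e a))⁻¹ := by
        field_simp

end ItemMCol

open ItemMCol ItemDDet in
theorem prf_M_Col (hSH : M_SH1) : M_Col := by
  intro r γ w G Q hγ hw hG hrow hu
  obtain ⟨c, hc, hsize⟩ := det_size hSH hγ hw hG hrow hu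
  have hw2 : ∑ i, w 2 i = -(∑ i, w 0 i) - ∑ i, w 1 i := by
    rw [Fin.sum_univ_three] at hw
    linarith
  intro x
  obtain ⟨C, ρ, hρ, hρ2, hC⟩ := hrow x
  have hgx : 0 < ‖(γ x).det‖ := norm_pos_iff.2 (hγ x).ne_zero
  set K : ℝ := 2 ^ |-(∑ i, w 0 i)| * 2 ^ |-(∑ i, w 1 i)| with hK
  have hKpos : 0 < K := by positivity
  have key : ∀ (j : Fin 3) (ζ : ℂ), ζ ≠ 0 → ‖ζ‖ < ρ → cz x ζ ∈ V j →
      (∀ a b, ‖(γ x * G j (cz x ζ)) a b‖ ≤ C * ‖ζ‖ ^ (w x a)) → ∀ a b,
      ‖(γ x * G j (cz x ζ))⁻¹ b a‖ ≤ ((‖(γ x).det‖ * (c * K⁻¹))⁻¹ *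
        ((Fintype.card (Equiv.Perm (Fin r)) : ℝ) * (max C 1) ^ r)) * ‖ζ‖ ^ (-(w x a)) := by
    intro j ζ h0 hn hV hb
    have hp : 0 < ‖ζ‖ := norm_pos_iff.mpr h0
    refine inv_bound _ (w x) (max C 1) ‖ζ‖ _ (le_max_right _ _) hp (by positivity)
      (fun a b => (hb a b).trans
        (mul_le_mul_of_nonneg_right (le_max_left _ _) (Real.rpow_nonneg hp.le _))) ?_
    have h3 := chart_bd (∑ i, w 0 i) (∑ i, w 1 i) (fun x => ∑ a, w x a) rfl rfl hw2 x ζ h0
      (by linarith)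
    have h4 := hsize j _ hV
    rw [Matrix.det_mul, norm_mul, mul_assoc]
    refine mul_le_mul_of_nonneg_left ?_ hgx.le
    have hz1 : 0 < ‖cz x ζ‖ := norm_pos_iff.2 (V_ne hV).1
    have hz2 : 0 < ‖cz x ζ - 1‖ := norm_pos_iff.2 (sub_ne_zero.2 (V_ne hV).2)
    have hP : 0 < ‖cz x ζ‖ ^ (-(∑ i, w 0 i)) * ‖cz x ζ - 1‖ ^ (-(∑ i, w 1 i)) := by positivity
    rw [← h4]
    have h5 : ‖(G j (cz x ζ)).det‖ *
        (‖cz x ζ‖ ^ (-(∑ i, w 0 i)) * ‖cz x ζ - 1‖ ^ (-(∑ i, w 1 i))) * K⁻¹ *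
        ‖ζ‖ ^ (∑ a, w x a) = ‖(G j (cz x ζ)).det‖ * ((‖ζ‖ ^ (∑ a, w x a) *
        ‖cz x ζ‖ ^ (-(∑ i, w 0 i)) * ‖cz x ζ - 1‖ ^ (-(∑ i, w 1 i))) * K⁻¹) := by ring
    rw [h5]
    refine mul_le_of_le_one_right (norm_nonneg _) ?_
    rw [← div_eq_mul_inv, div_le_one hKpos]
    exact h3
  refine ⟨(‖(γ x).det‖ * (c * K⁻¹))⁻¹ *
        ((Fintype.card (Equiv.Perm (Fin r)) : ℝ) * (max C 1) ^ r), ρ, hρ, hρ2,
    fun ζ hn => ⟨fun ha a b => ?_, fun hb a b => ?_⟩⟩
  · exact key x ζ (Sa_ne ha) hn (cz_mem_a x (by linarith) ha) ((hC ζ hn).1 ha) a b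
  · exact key (x + 1) ζ (Sb_ne hb) hn (cz_mem_b x (by linarith) hb) ((hC ζ hn).2 hb) a b

end Pool.Agent.MSU

end

section

/-! Item M_Factor: D_Factor with arbitrary index types. -/

open Matrix Polynomial Filter Topology
open Pool.Agent.Work.MP_5e5ff1_ag

namespace Pool.Agent.MSU

namespace ItemMFactor

theorem rank_sub {m n o : Type} [Fintype m] [Fintype n] [Fintype o]
    (A : Matrix m o ℂ) (e : n ≃ m) : (A.submatrix e id).rank = A.rank := by
  have h1 : ∀ {m n : Type} [Fintype m] [Fintype n] (A : Matrix m o ℂ) (e : n ≃ m),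
      (A.submatrix e id).rank ≤ A.rank := by
    intro m n _ _ A e
    classical
    have : A.submatrix e id = (1 : Matrix m m ℂ).submatrix e id * A := by
      ext i j
      simp [Matrix.mul_apply, Matrix.one_apply]
    rw [this]
    exact Matrix.rank_mul_le_right _ _
  refine le_antisymm (h1 A e) ?_
  have h2 := h1 (A.submatrix e id) e.symm
  simpa using h2

end ItemMFactor

open ItemMFactor in
theorem prf_M_Factor (h1 : D_Factor) : M_Factor := by
  intro κ _ _ d γ w G Q hγ hMV hRow hne hrk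
  set e : κ ≃ Fin (Fintype.card κ) := Fintype.equivFin κ with he
  have hmul : ∀ (A : Matrix κ κ ℂ) (B : Matrix κ (Fin d) ℂ),
      A.submatrix e.symm e.symm * B.submatrix e.symm id = (A * B).submatrix e.symm id :=
    fun A B => Matrix.submatrix_mul_equiv A B e.symm e.symm id
  have hMV' : MV (fun j z => (G j z).submatrix e.symm id) Q := by
    refine ⟨fun j a b => hMV.diff j (e.symm a) b, fun j j' z hz => ?_, fun j z hz => ?_, hMV.unit⟩
    · simp only [hMV.plus j j' z hz]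
    · simp only [hMV.minus j z hz]
      rfl
  obtain ⟨k, hk0, hk1, W, hW, N, hN, hG, hdet⟩ := h1 (Fintype.card κ) d
    (fun x => (γ x).submatrix e.symm e.symm) (fun x => w x ∘ e.symm)
    (fun j z => (G j z).submatrix e.symm id) Q
    (fun x => by rw [Matrix.det_submatrix_equiv_self]; exact hγ x) hMV'
    (by
      intro x
      obtain ⟨C, ρ, hρ, hρ2, hb⟩ := hRow x
      refine ⟨C, ρ, hρ, hρ2, fun ζ hζ => ⟨fun hs a b => ?_, fun hs a b => ?_⟩⟩
      · rw [hmul]
        exact (hb ζ hζ).1 hs (e.symm a) b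
      · rw [hmul]
        exact (hb ζ hζ).2 hs (e.symm a) b)
    (by
      obtain ⟨z, hz, hne⟩ := hne
      refine ⟨z, hz, fun h0 => hne ?_⟩
      ext a b
      have := congrFun (congrFun h0 (e a)) b
      simpa using this)
    (by
      intro z hz
      rw [rank_sub]
      exact hrk z hz)
  refine ⟨k, hk0, hk1, W.submatrix e id, ?_, N, ⟨hN.diff, hN.plus, hN.minus, hN.unit⟩, ?_, hdet⟩
  · obtain ⟨V, hV⟩ := hW
    refine ⟨V.submatrix id e, ?_⟩
    rw [Matrix.submatrix_mul_equiv V W id e id, hV]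
    simp
  · intro j z hz
    have h2 := hG j z hz
    have h3 : G j z = ((G j z).submatrix e.symm id).submatrix e id := by
      ext a b
      simp
    rw [h3, h2]
    rfl

end Pool.Agent.MSU

end
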