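import Mathlib
import Pool.Agent.Work.MP_5e5ff1_ag.Bd.B04
import Pool.Agent.Work.MP_5e5ff1_ag.Bd.B09
import Pool.Agent.Work.MP_5e5ff1_ag.Bd.B01
import Pool.Agent.Work.MP_5e5ff1_ag.T.Par
import Pool.Agent.Work.MP_5e5ff1_ag.Bd.B03
import Pool.Agent.Work.MP_5e5ff1_ag.T.Minors

/-! Bundle of small proof modules (one section per former module). -/

section

/-! Items (as propositions) of the one prime theorem: a system
`f' = (b/t + c/(t-1)) f` over a finite field of characteristic `p` with vanishing p-curvature gives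
three unitary matrices with product one and with the eigenvalues `exp (2 π i m / p)`, `m` the
eigenvalues (in the prime field) of the residues. -/

open Matrix Polynomial
open Pool.Agent.Work.MP_5e5ff1_ag

namespace Pool.Agent.MSU

/-- no proper nonzero subspace is invariant under both matrices -/
def Irr2 {F : Type} [Field F] {r : ℕ} (b c : Matrix (Fin r) (Fin r) F) : Prop :=
  ∀ U : Submodule F (Fin r → F), U.map b.mulVecLin ≤ U → U.map c.mulVecLin ≤ U → U = ⊥ ∨ U = ⊤

/-- the weights of the Frobenius descent -/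
noncomputable def wp {r : ℕ} (p : ℕ) (m₀ m₁ d : Fin r → ℕ) (i : Fin 3 × Fin r) : ℝ :=
  (![(m₀ i.2 : ℝ), (m₁ i.2 : ℝ), -(d i.2 : ℝ)] i.1) / p

/-- `m` are the eigenvalues, modulo `p`, of the residues `b`, `c`, `-(b+c)`, and `A` is a unitary
triple with product one and eigenvalues `exp (2 π i m / p)` -/
def UT {F : Type} [Field F] {r : ℕ} (p : ℕ) (b c : Matrix (Fin r) (Fin r) F)
    (m : Fin 3 → Fin r → ℕ) (A : Fin 3 → Matrix (Fin r) (Fin r) ℂ) : Prop :=
  (∀ x j, m x j < p) ∧ b.charpoly = ∏ j, (X - C ((m 0 j : ℕ) : F)) ∧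
  c.charpoly = ∏ j, (X - C ((m 1 j : ℕ) : F)) ∧
  (-(b + c)).charpoly = ∏ j, (X - C ((m 2 j : ℕ) : F)) ∧
  (∀ x, (A x)ᴴ * A x = 1) ∧ A 0 * A 1 * A 2 = 1 ∧
  ∀ x, (A x).charpoly =
    ∏ j, (X - C (Complex.exp (2 * Real.pi * Complex.I * ((m x j : ℂ) / (p : ℂ)))))

/-! ### items -/

/-- a valuation ring of `ℂ` of residue characteristic `p`; its residue field is algebraically
closed -/
def O_Val : Prop := ∀ p : ℕ, p.Prime → ∃ A : ValuationSubring ℂ,
  (p : A) ∈ IsLocalRing.maximalIdeal A ∧ IsAlgClosed (IsLocalRing.ResidueField A)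

/-- the orders of the minors of `G W^(p)` -/
def O_Ord : Prop := ∀ (p : ℕ) (F : Type) [Field F] [CharP F p] (r k : ℕ), p.Prime → 0 < k →
  ∀ (G : Matrix (Fin r) (Fin r) F[X]) (h₀ h₁ : Matrix (Fin r) (Fin r) F) (m₀ m₁ d : Fin r → ℕ)
    (W : Matrix (Fin r) (Fin k) F[X]), T.TFrame G h₀ h₁ m₀ m₁ d → T.IsSub W →
    T.parDegree h₀⁻¹ h₁⁻¹ (wp p m₀ m₁ d) W ≤ 0 ∧
    (T.parDegree h₀⁻¹ h₁⁻¹ (wp p m₀ m₁ d) W = 0 →
      ∃ (φ : F[X]) (c : (Fin k → Fin r) → F), φ ≠ 0 ∧ (∃ J, c J ≠ 0) ∧
        ∀ J, ((G * W.map (expand F p)).submatrix J id).det = φ * C (c J))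

/-- proportional to constant minors: the span of the columns is constant -/
def O_Const : Prop := ∀ (F : Type) [Field F] (r k : ℕ) (Z : Matrix (Fin r) (Fin k) F[X])
  (φ : F[X]) (c : (Fin k → Fin r) → F), φ ≠ 0 → (∃ J, c J ≠ 0) →
  (∀ J, (Z.submatrix J id).det = φ * C (c J)) →
  ∃ (Ω : Matrix (Fin r) (Fin k) F) (J0 : Fin k → Fin r), Ω.submatrix J0 id = 1 ∧
    Z = Ω.map C * Z.submatrix J0 id ∧ (Z.submatrix J0 id).det ≠ 0

/-- a constant horizontal subbundle is invariant under the residues -/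
def O_Inv : Prop := ∀ (p : ℕ) (F : Type) [Field F] [CharP F p] (r k : ℕ)
  (b c : Matrix (Fin r) (Fin r) F) (G : Matrix (Fin r) (Fin r) F[X])
  (W : Matrix (Fin r) (Fin k) F[X]) (Ω : Matrix (Fin r) (Fin k) F) (J0 : Fin k → Fin r),
  Hor (X * (X - 1)) (Lmat b c) G →
  G * W.map (expand F p) = Ω.map C * (G * W.map (expand F p)).submatrix J0 id →
  ((G * W.map (expand F p)).submatrix J0 id).det ≠ 0 →
  ∃ N₀ N₁ : Matrix (Fin k) (Fin k) F, b * Ω = Ω * N₀ ∧ c * Ω = Ω * N₁

/-- the Frobenius descent of an irreducible system is stable -/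
def O_Stab : Prop := ∀ (p : ℕ) (F : Type) [Field F] [CharP F p] (r : ℕ), p.Prime →
  ∀ (b c : Matrix (Fin r) (Fin r) F) (G : Matrix (Fin r) (Fin r) F[X])
    (h₀ h₁ : Matrix (Fin r) (Fin r) F) (m₀ m₁ d : Fin r → ℕ),
    Hor (X * (X - 1)) (Lmat b c) G → T.TFrame G h₀ h₁ m₀ m₁ d →
    ∑ j, d j = ∑ j, m₀ j + ∑ j, m₁ j → Irr2 b c →
    T.Stable h₀⁻¹ h₁⁻¹ (wp p m₀ m₁ d)

/-- decomposable families of polynomials come from subbundles, over any field -/
def O_Dec : Prop := ∀ (F : Type) [Field F] (r k : ℕ) (q : (Fin k → Fin r) → F[X]), 0 < k →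
  (∃ J, q J ≠ 0) →
  (∀ J0 J : Fin k → Fin r, (Matrix.of fun a b => q (Function.update J0 b (J a))).det
    = q J0 ^ (k - 1) * q J) →
  ∃ (W : Matrix (Fin r) (Fin k) F[X]) (h : F[X]), T.IsSub W ∧ h ≠ 0 ∧
    ∀ J, q J = h * (W.submatrix J id).det

/-- the minors of a matrix are decomposable -/
def O_Rel : Prop := ∀ (F : Type) [Field F] (r k : ℕ) (W : Matrix (Fin r) (Fin k) F[X]), 0 < k →
  ∀ J0 J : Fin k → Fin r,
    (Matrix.of fun a b => (W.submatrix (Function.update J0 b (J a)) id).det).det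
      = (W.submatrix J0 id).det ^ (k - 1) * (W.submatrix J id).det

/-- reduction of a family of polynomials modulo the maximal ideal of a valuation ring -/
def O_Red : Prop := ∀ (A : ValuationSubring ℂ) (κ : Type) [Fintype κ] (q : κ → ℂ[X]),
  (∃ J, q J ≠ 0) → ∃ (l : ℂ) (Q : κ → A[X]), l ≠ 0 ∧
    (∀ J, (Q J).map (algebraMap A ℂ) = C l * q J) ∧
    ∃ J, (Q J).map (IsLocalRing.residue A) ≠ 0

/-- orders and degrees do not get worse under reduction -/
def O_Mult : Prop := ∀ (A : ValuationSubring ℂ) (Q : A[X]) (a : A),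
  Q.map (IsLocalRing.residue A) ≠ 0 →
  (Q.map (algebraMap A ℂ)).rootMultiplicity (a : ℂ)
      ≤ (Q.map (IsLocalRing.residue A)).rootMultiplicity (IsLocalRing.residue A a) ∧
  (Q.map (IsLocalRing.residue A)).natDegree ≤ (Q.map (algebraMap A ℂ)).natDegree

/-- stability lifts from the residue field -/
def O_Lift : Prop := ∀ (A : ValuationSubring ℂ) (r : ℕ) (g₀ g₁ : Matrix (Fin r) (Fin r) A)
  (v : Fin 3 × Fin r → ℝ), (g₀.map (IsLocalRing.residue A)).det ≠ 0 →
  (g₁.map (IsLocalRing.residue A)).det ≠ 0 →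
  T.Stable (g₀.map (IsLocalRing.residue A)) (g₁.map (IsLocalRing.residue A)) v →
  T.Stable (g₀.map (algebraMap A ℂ)) (g₁.map (algebraMap A ℂ)) v

/-- the irreducible case -/
def O_Irr : Prop := ∀ (p : ℕ), p.Prime → ∀ (A : ValuationSubring ℂ),
  (p : A) ∈ IsLocalRing.maximalIdeal A → IsAlgClosed (IsLocalRing.ResidueField A) →
  ∀ (r : ℕ) (b c : Matrix (Fin r) (Fin r) (IsLocalRing.ResidueField A)),
    Qs (1 : IsLocalRing.ResidueField A) b c p = 0 → Irr2 b c →
    ∃ (m : Fin 3 → Fin r → ℕ) (M : Fin 3 → Matrix (Fin r) (Fin r) ℂ), UT p b c m M ∧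
      ∀ U : Submodule ℂ (Fin r → ℂ), (∀ x, U.map (M x).mulVecLin ≤ U) → U = ⊥ ∨ U = ⊤

/-- a proper invariant subspace gives a block decomposition -/
def O_Block : Prop := ∀ (F : Type) [Field F] (r : ℕ) (b c : Matrix (Fin r) (Fin r) F),
  ¬ Irr2 b c → ∃ (k l : ℕ) (e : Fin k ⊕ Fin l ≃ Fin r) (S : Matrix (Fin r) (Fin r) F)
    (b₁ c₁ : Matrix (Fin k) (Fin k) F) (b₂ c₂ : Matrix (Fin l) (Fin l) F)
    (β γ : Matrix (Fin k) (Fin l) F), 0 < k ∧ 0 < l ∧ IsUnit S.det ∧
    b * S = S * (fromBlocks b₁ β 0 b₂).reindex e e ∧ c * S = S * (fromBlocks c₁ γ 0 c₂).reindex e e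

/-- the p-curvature of the blocks -/
def O_QBlock : Prop := ∀ (F : Type) [Field F] (r k l : ℕ) (e : Fin k ⊕ Fin l ≃ Fin r)
  (b c S : Matrix (Fin r) (Fin r) F) (b₁ c₁ : Matrix (Fin k) (Fin k) F)
  (b₂ c₂ : Matrix (Fin l) (Fin l) F) (β γ : Matrix (Fin k) (Fin l) F), IsUnit S.det →
  b * S = S * (fromBlocks b₁ β 0 b₂).reindex e e →
  c * S = S * (fromBlocks c₁ γ 0 c₂).reindex e e → ∀ j : ℕ, Qs (1 : F) b c j = 0 →
  Qs (1 : F) b₁ c₁ j = 0 ∧ Qs (1 : F) b₂ c₂ j = 0

/-- direct sums of unitary triples -/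
def O_Sum : Prop := ∀ (F : Type) [Field F] (p r k l : ℕ) (e : Fin k ⊕ Fin l ≃ Fin r)
  (b c S : Matrix (Fin r) (Fin r) F) (b₁ c₁ : Matrix (Fin k) (Fin k) F)
  (b₂ c₂ : Matrix (Fin l) (Fin l) F) (β γ : Matrix (Fin k) (Fin l) F)
  (m₁ : Fin 3 → Fin k → ℕ) (m₂ : Fin 3 → Fin l → ℕ) (M₁ : Fin 3 → Matrix (Fin k) (Fin k) ℂ)
  (M₂ : Fin 3 → Matrix (Fin l) (Fin l) ℂ), IsUnit S.det →
  b * S = S * (fromBlocks b₁ β 0 b₂).reindex e e →
  c * S = S * (fromBlocks c₁ γ 0 c₂).reindex e e → UT p b₁ c₁ m₁ M₁ → UT p b₂ c₂ m₂ M₂ →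
  ∃ (m : Fin 3 → Fin r → ℕ) (M : Fin 3 → Matrix (Fin r) (Fin r) ℂ), UT p b c m M

/-- all systems with vanishing p-curvature -/
def O_Gen : Prop := ∀ (F : Type) [Field F] (p : ℕ),
  (∀ (r : ℕ) (b c : Matrix (Fin r) (Fin r) F), Qs (1 : F) b c p = 0 → Irr2 b c →
    ∃ (m : Fin 3 → Fin r → ℕ) (M : Fin 3 → Matrix (Fin r) (Fin r) ℂ), UT p b c m M) →
  ∀ (r : ℕ) (b c : Matrix (Fin r) (Fin r) F), Qs (1 : F) b c p = 0 →
    ∃ (m : Fin 3 → Fin r → ℕ) (M : Fin 3 → Matrix (Fin r) (Fin r) ℂ), UT p b c m M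

/-- absolute irreducibility -/
def O_Abs : Prop := ∀ (k F : Type) [Field k] [Field F] (φ : k →+* F) (r : ℕ)
  (b c : Matrix (Fin r) (Fin r) k), Algebra.adjoin k {b, c} = ⊤ → Irr2 (b.map φ) (c.map φ)

/-- the one prime theorem for finite fields -/
def O_Main : Prop := ∀ (p : ℕ), p.Prime → ∀ (k : Type) [Field k] [Finite k] [CharP k p] (r : ℕ)
  (b c : Matrix (Fin r) (Fin r) k), Qs (1 : k) b c p = 0 →
  ∃ (m : Fin 3 → Fin r → ℕ) (M : Fin 3 → Matrix (Fin r) (Fin r) ℂ), UT p b c m M ∧
    (Algebra.adjoin k {b, c} = ⊤ →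
      ∀ U : Submodule ℂ (Fin r → ℂ), (∀ x, U.map (M x).mulVecLin ≤ U) → U = ⊥ ∨ U = ⊤)

/-- rescaling of the recursion -/
def O_Scale : Prop := ∀ (k : Type) [Field k] (r : ℕ) (ν : k) (b c : Matrix (Fin r) (Fin r) k),
  ν ≠ 0 → ∀ j, Qs ν b c j = (C ν ^ j : k[X]) • Qs (1 : k) (ν⁻¹ • b) (ν⁻¹ • c) j

end Pool.Agent.MSU

end

section

/-! Item O_Abs: absolutely irreducible pairs stay irreducible over extensions. -/

open Matrix Polynomial
open Pool.Agent.Work.MP_5e5ff1_ag

namespace Pool.Agent.MSU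

theorem prf_O_Abs : O_Abs := by
  classical
  intro k F _ _ φ r b c hadj U hb hc
  have key : ∀ M : Matrix (Fin r) (Fin r) k, ∀ u ∈ U, (M.map φ).mulVec u ∈ U := by
    intro M
    have hM : M ∈ Algebra.adjoin k {b, c} := by rw [hadj]; trivial
    induction hM using Algebra.adjoin_induction with
    | mem x hx =>
      intro u hu
      rcases hx with rfl | hx
      · exact hb (Submodule.mem_map_of_mem hu)
      · rw [Set.mem_singleton_iff] at hx
        subst hx
        exact hc (Submodule.mem_map_of_mem hu)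
    | algebraMap a =>
      intro u hu
      have : ((algebraMap k (Matrix (Fin r) (Fin r) k) a).map φ) = (φ a) • (1 : Matrix (Fin r) (Fin r) F) := by
        ext i j
        by_cases h : i = j
        · subst h
          simp [Matrix.algebraMap_matrix_apply]
        · simp [Matrix.algebraMap_matrix_apply, h]
      rw [this, Matrix.smul_mulVec, Matrix.one_mulVec]
      exact U.smul_mem _ hu
    | add x y _ _ hx hy =>
      intro u hu
      have : (x + y).map φ = x.map φ + y.map φ := by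
        ext i j
        simp
      rw [this, Matrix.add_mulVec]
      exact U.add_mem (hx u hu) (hy u hu)
    | mul x y _ _ hx hy =>
      intro u hu
      rw [Matrix.map_mul, ← Matrix.mulVec_mulVec]
      exact hx _ (hy u hu)
  by_cases hU : U = ⊥
  · exact Or.inl hU
  right
  obtain ⟨u, hu, hu0⟩ := (Submodule.ne_bot_iff U).mp hU
  obtain ⟨i, hi⟩ : ∃ i, u i ≠ 0 := by
    by_contra h
    push Not at h
    exact hu0 (funext h)
  rw [eq_top_iff]
  intro v _
  have hj : ∀ j, (Pi.single j (1 : F) : Fin r → F) ∈ U := by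
    intro j
    have h1 := key (Matrix.single j i 1) u hu
    have h2 : ((Matrix.single j i (1 : k)).map φ).mulVec u = (u i) • (Pi.single j (1 : F)) := by
      ext l
      by_cases h : l = j
      · subst h
        simp [Matrix.mulVec, dotProduct, Matrix.single_apply]
      · have h' : ¬ (j = l) := fun h3 => h h3.symm
        simp [Matrix.mulVec, dotProduct, Matrix.single_apply, h, h']
    rw [h2] at h1
    have h3 := U.smul_mem (u i)⁻¹ h1
    rw [smul_smul, inv_mul_cancel₀ hi, one_smul] at h3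
    exact h3
  have hv : v = ∑ j, v j • (Pi.single j (1 : F) : Fin r → F) := by
    ext l
    simp [Finset.sum_apply, Pi.single_apply]
  rw [hv]
  exact U.sum_mem fun j _ => U.smul_mem _ (hj j)

end Pool.Agent.MSU

end

section

/-! Item O_Block: block decomposition along an invariant subspace. -/

open Matrix Polynomial
open Pool.Agent.Work.MP_5e5ff1_ag

namespace Pool.Agent.MSU

namespace Item_O_Block

lemma repr_inr_zero {F V : Type*} [Field F] [AddCommGroup V] [Module F V] {U W : Submodule F V}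
    (h : IsCompl U W) {ι κ : Type*} (bU : Module.Basis ι F U) (bW : Module.Basis κ F W) (x : V)
    (hx : x ∈ U) (i : κ) :
    ((bU.prod bW).map (Submodule.prodEquivOfIsCompl U W h)).repr x (Sum.inr i) = 0 := by
  rw [Module.Basis.map_repr, LinearEquiv.trans_apply]
  have := Submodule.prodEquivOfIsCompl_symm_apply_left U W h ⟨x, hx⟩
  simp only at this
  rw [this, Module.Basis.prod_repr_inr]
  simp

lemma basis_inl {F V : Type*} [Field F] [AddCommGroup V] [Module F V] {U W : Submodule F V}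
    (h : IsCompl U W) {ι κ : Type*} (bU : Module.Basis ι F U) (bW : Module.Basis κ F W) (i : ι) :
    ((bU.prod bW).map (Submodule.prodEquivOfIsCompl U W h)) (Sum.inl i) ∈ U := by
  rw [Module.Basis.map_apply]
  simp [Module.Basis.prod_apply]

lemma block {F : Type} [Field F] {r : ℕ} {U W : Submodule F (Fin r → F)} (h : IsCompl U W)
    {k l : ℕ} (bU : Module.Basis (Fin k) F U) (bW : Module.Basis (Fin l) F W)
    (e : Fin k ⊕ Fin l ≃ Fin r) (b : Matrix (Fin r) (Fin r) F) (hb : U.map b.mulVecLin ≤ U) :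
    ∃ (b₁ : Matrix (Fin k) (Fin k) F) (β : Matrix (Fin k) (Fin l) F)
      (b₂ : Matrix (Fin l) (Fin l) F),
      b * (Pi.basisFun F (Fin r)).toMatrix
        (((bU.prod bW).map (Submodule.prodEquivOfIsCompl U W h)).reindex e) =
      (Pi.basisFun F (Fin r)).toMatrix
        (((bU.prod bW).map (Submodule.prodEquivOfIsCompl U W h)).reindex e) *
        (fromBlocks b₁ β 0 b₂).reindex e e := by
  set B := (bU.prod bW).map (Submodule.prodEquivOfIsCompl U W h) with hB
  set M := LinearMap.toMatrix B B b.mulVecLin with hM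
  refine ⟨M.toBlocks₁₁, M.toBlocks₁₂, M.toBlocks₂₂, ?_⟩
  have h21 : M.toBlocks₂₁ = 0 := by
    ext i j
    rw [Matrix.toBlocks₂₁, Matrix.of_apply, hM, LinearMap.toMatrix_apply, Matrix.zero_apply]
    apply repr_inr_zero
    exact hb (Submodule.mem_map_of_mem (basis_inl h bU bW j))
  have hMb : fromBlocks M.toBlocks₁₁ M.toBlocks₁₂ 0 M.toBlocks₂₂ = M := by
    rw [← h21]
    exact Matrix.fromBlocks_toBlocks M
  rw [hMb]
  have hre : M.reindex e e = LinearMap.toMatrix (B.reindex e) (B.reindex e) b.mulVecLin := by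
    ext i j
    rw [LinearMap.toMatrix_apply, Matrix.reindex_apply, Matrix.submatrix_apply, hM,
      LinearMap.toMatrix_apply, Module.Basis.repr_reindex_apply, Module.Basis.reindex_apply]
  rw [hre, basis_toMatrix_mul_linearMap_toMatrix]
  have hb' : LinearMap.toMatrix (Pi.basisFun F (Fin r)) (Pi.basisFun F (Fin r)) b.mulVecLin = b := by
    rw [LinearMap.toMatrix_eq_toMatrix']
    rw [← Matrix.toLin'_apply', LinearMap.toMatrix'_toLin']
  conv_lhs => rw [← hb']
  rw [linearMap_toMatrix_mul_basis_toMatrix]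

end Item_O_Block

open Item_O_Block in
theorem prf_O_Block : O_Block := by
  intro F _ r b c hI
  unfold Irr2 at hI
  push Not at hI
  obtain ⟨U, hb, hc, h0, h1⟩ := hI
  obtain ⟨W, hW⟩ := exists_isCompl U
  let bU := Module.finBasis F U
  let bW := Module.finBasis F W
  let B := (bU.prod bW).map (Submodule.prodEquivOfIsCompl U W hW)
  let e := B.indexEquiv (Pi.basisFun F (Fin r))
  obtain ⟨b₁, β, b₂, e1⟩ := block hW bU bW e b hb
  obtain ⟨c₁, γ, c₂, e2⟩ := block hW bU bW e c hc
  refine ⟨_, _, e, _, b₁, c₁, b₂, c₂, β, γ, ?_, ?_, ?_, e1, e2⟩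
  · exact Submodule.one_le_finrank_iff.mpr h0
  · apply Submodule.one_le_finrank_iff.mpr
    rintro rfl
    apply h1
    have := hW.sup_eq_top
    simpa using this
  · exact (Pi.basisFun F (Fin r)).isUnit_det (B.reindex e)

end Pool.Agent.MSU

end

section

/-! Item O_Const: a matrix whose minors are proportional to constants. -/

open Matrix Polynomial
open Pool.Agent.Work.MP_5e5ff1_ag

namespace Pool.Agent.MSU

theorem prf_O_Const : O_Const := by
  intro F _ r k Z φ c hφ hc hdet
  classical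
  obtain ⟨J0, hJ0⟩ := hc
  have hZ0 : (Z.submatrix J0 id).det ≠ 0 := by
    rw [hdet J0]
    exact mul_ne_zero hφ (C_ne_zero.mpr hJ0)
  set Ω : Matrix (Fin r) (Fin k) F := Matrix.of fun i b => c (Function.update J0 b i) / c J0 with hΩ
  have hΩ1 : Ω.submatrix J0 id = 1 := by
    ext1 a b
    simp only [hΩ, submatrix_apply, of_apply, id_eq]
    by_cases hab : a = b
    · subst hab
      rw [Function.update_eq_self, Matrix.one_apply_eq, div_self hJ0]
    · rw [Matrix.one_apply_ne hab]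
      have h1 : (Z.submatrix (Function.update J0 b (J0 a)) id).det = 0 := by
        apply Matrix.det_zero_of_row_eq hab
        funext j
        simp only [submatrix_apply, id_eq]
        rw [Function.update_of_ne hab, Function.update_self]
      rw [hdet] at h1
      have h2 : c (Function.update J0 b (J0 a)) = 0 := by
        rcases mul_eq_zero.mp h1 with h | h
        · exact absurd h hφ
        · exact C_eq_zero.mp h
      rw [h2, zero_div]
  refine ⟨Ω, J0, hΩ1, ?_, hZ0⟩
  set Z0 := Z.submatrix J0 id with hZ0def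
  have hadj : Z * adjugate Z0 = Z0.det • Ω.map C := by
    ext1 i b
    rw [hZ0def, T.mul_adjugate_minor, hdet, Matrix.smul_apply, hdet J0, map_apply, smul_eq_mul,
      mul_assoc, ← C_mul, hΩ, of_apply, mul_div_cancel₀ _ hJ0]
  apply T.smul_matrix_cancel hZ0
  have h3 : Z0.det • Z = Z * adjugate Z0 * Z0 := by
    rw [Matrix.mul_assoc, adjugate_mul, Matrix.mul_smul, Matrix.mul_one]
  rw [h3, hadj, Matrix.smul_mul]

end Pool.Agent.MSU

end

section

/-! Item O_Dec: decomposable families of polynomials come from subbundles. -/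

open Matrix Polynomial Filter Topology
open Pool.Agent.Work.MP_5e5ff1_ag
open Pool.Agent.Work.MP_5e5ff1_ag.T

namespace Pool.Agent.MSU

namespace ItemODec

variable {F : Type} [Field F] {ι : Type*} [Fintype ι] [DecidableEq ι]

lemma isSub_of_irr {k : ℕ} {W : Matrix ι (Fin k) F[X]}
    (h : ∀ π : F[X], Irreducible π → ∃ J : Fin k → ι, ¬ π ∣ (W.submatrix J id).det) : IsSub W := by
  classical
  have h1 : (1 : F[X]) ∈ Ideal.span (Set.range fun J : Fin k → ι => (W.submatrix J id).det) := by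
    obtain ⟨g, hg⟩ := (inferInstance : (Ideal.span
      (Set.range fun J : Fin k → ι => (W.submatrix J id).det)).IsPrincipal)
    have hdvd : ∀ J, g ∣ (W.submatrix J id).det := by
      intro J
      rw [← Ideal.mem_span_singleton, ← Ideal.submodule_span_eq, ← hg]
      exact Ideal.subset_span ⟨J, rfl⟩
    have hunit : IsUnit g := by
      by_contra hnu
      obtain ⟨π, hπ, hdv⟩ : ∃ π, Irreducible π ∧ π ∣ g := by
        by_cases h0 : g = 0
        · exact ⟨X, irreducible_X, by rw [h0]; exact dvd_zero _⟩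
        · exact WfDvdMonoid.exists_irreducible_factor hnu h0
      obtain ⟨J, hJ⟩ := h π hπ
      exact hJ (hdv.trans (hdvd J))
    rw [hg, Ideal.submodule_span_eq, Ideal.span_singleton_eq_top.mpr hunit]
    exact Submodule.mem_top
  rw [Ideal.mem_span_range_iff_exists_fun] at h1
  obtain ⟨c, hc⟩ := h1
  refine ⟨∑ J : Fin k → ι, c J • (adjugate (W.submatrix J id)
    * (1 : Matrix ι ι F[X]).submatrix J id), ?_⟩
  rw [Matrix.sum_mul]
  have h2 : ∀ J : Fin k → ι, (c J • (adjugate (W.submatrix J id)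
      * (1 : Matrix ι ι F[X]).submatrix J id)) * W
      = (c J * (W.submatrix J id).det) • (1 : Matrix (Fin k) (Fin k) F[X]) := by
    intro J
    have h3 : (1 : Matrix ι ι F[X]).submatrix J id * W = W.submatrix J id := by
      rw [← submatrix_mul_left, Matrix.one_mul]
    rw [Matrix.smul_mul, Matrix.mul_assoc, h3, adjugate_mul, smul_smul]
  simp only [h2]
  rw [← Finset.sum_smul, hc, one_smul]

lemma exists_rel_mod {k : ℕ} {W : Matrix ι (Fin k) F[X]} {π : F[X]} (hπ : Irreducible π)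
    (h : ∀ J : Fin k → ι, π ∣ (W.submatrix J id).det) :
    ∃ (d : Fin k → F[X]) (J : Fin k), d J = 1 ∧ ∀ i, π ∣ ∑ l, W i l * d l := by
  classical
  haveI hmax : (Ideal.span {π}).IsMaximal := PrincipalIdealRing.isMaximal_of_irreducible hπ
  letI : Field (F[X] ⧸ Ideal.span {π}) := Ideal.Quotient.field _
  set φ : F[X] →+* F[X] ⧸ Ideal.span {π} := Ideal.Quotient.mk _ with hφ
  have hnf : ¬ FullRank (W.map φ) := by
    rintro ⟨J, hJ⟩
    apply hJ
    have h1 : ((W.map φ).submatrix J id).det = φ ((W.submatrix J id).det) := by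
      rw [RingHom.map_det]
      rfl
    rw [h1, hφ, Ideal.Quotient.eq_zero_iff_mem, Ideal.mem_span_singleton]
    exact h J
  obtain ⟨c, hc, hWc⟩ := exists_relation hnf
  obtain ⟨J, hJ⟩ := Function.ne_iff.mp hc
  simp only [Pi.zero_apply] at hJ
  have hs : ∀ l, ∃ y : F[X], φ y = (c J)⁻¹ * c l := fun l => Ideal.Quotient.mk_surjective _
  choose y hy using hs
  refine ⟨Function.update y J 1, J, Function.update_self _ _ _, fun i => ?_⟩
  rw [← Ideal.mem_span_singleton, ← Ideal.Quotient.eq_zero_iff_mem]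
  change φ _ = 0
  rw [map_sum]
  have h2 : ∀ l, φ (W i l * Function.update y J 1 l) = (c J)⁻¹ * (φ (W i l) * c l) := by
    intro l
    rw [map_mul]
    by_cases hl : l = J
    · subst hl
      rw [Function.update_self, map_one]
      field_simp
    · rw [Function.update_of_ne hl, hy]
      ring
  simp only [h2]
  rw [← Finset.mul_sum]
  have h3 := congrFun hWc i
  simp only [mulVec, dotProduct, map_apply, Pi.zero_apply] at h3
  rw [h3, mul_zero]

/-- saturation over any field -/
theorem saturate' {k : ℕ} {W₁ : Matrix ι (Fin k) F[X]} (h : FullRank W₁) :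
    ∃ (W : Matrix ι (Fin k) F[X]) (N : Matrix (Fin k) (Fin k) F[X]), IsSub W ∧ W₁ = W * N ∧
      N.det ≠ 0 := by
  classical
  obtain ⟨I, hI⟩ := h
  have hminor : ∀ (W : Matrix ι (Fin k) F[X]) (N : Matrix (Fin k) (Fin k) F[X]), W₁ = W * N →
      (W₁.submatrix I id).det = (W.submatrix I id).det * N.det := by
    rintro W N rfl
    rw [submatrix_mul_left, det_mul]
  obtain ⟨⟨W, N⟩, hWN, hmax⟩ := exists_max_nat
    (fun x : Matrix ι (Fin k) F[X] × Matrix (Fin k) (Fin k) F[X] => W₁ = x.1 * x.2)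
    (fun x => x.2.det.natDegree) (W₁.submatrix I id).det.natDegree
    (by
      rintro ⟨W, N⟩ hWN
      simp only at hWN ⊢
      exact natDegree_le_of_dvd ⟨(W.submatrix I id).det, by rw [hminor W N hWN]; ring⟩ hI)
    ⟨(W₁, 1), by simp⟩
  simp only at hWN hmax
  have hN : N.det ≠ 0 := by
    intro h0
    apply hI
    rw [hminor W N hWN, h0, mul_zero]
  refine ⟨W, N, ?_, hWN, hN⟩
  apply isSub_of_irr
  intro π hπ
  by_contra hcon
  push Not at hcon
  obtain ⟨d, J, hdJ, hdvd⟩ := exists_rel_mod hπ hcon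
  set E : Matrix (Fin k) (Fin k) F[X] := (1 : Matrix (Fin k) (Fin k) F[X]).updateCol J
    (fun i => ∑ j, d j • (1 : Matrix (Fin k) (Fin k) F[X]) i j) with hE
  have hEdet : E.det = 1 := by
    rw [hE, det_updateCol_sum, det_one]; simp [hdJ]
  have hEJ : ∀ i, E i J = d i := by
    intro i
    rw [hE, updateCol_self]
    simp [Matrix.one_apply]
  have hcol : ∀ i, π ∣ (W * E) i J := by
    intro i
    have h1 : (W * E) i J = ∑ l, W i l * d l := by
      rw [mul_apply]
      exact Finset.sum_congr rfl fun l _ => by rw [hEJ]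
    rw [h1]
    exact hdvd i
  choose q hq using hcol
  set W' : Matrix ι (Fin k) F[X] := (W * E).updateCol J q with hW'
  set D : Matrix (Fin k) (Fin k) F[X] := diagonal (Function.update (fun _ => 1) J π) with hD
  have h1 : W * E = W' * D := by
    ext1 i j
    rw [hD, mul_diagonal]
    by_cases hj : j = J
    · subst hj
      rw [hW', updateCol_self, Function.update_self, hq, mul_comm]
    · rw [hW', updateCol_ne hj, Function.update_of_ne hj, mul_one]
  have h2 : W = W' * (D * adjugate E) := by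
    rw [← Matrix.mul_assoc, ← h1, Matrix.mul_assoc, mul_adjugate, hEdet, one_smul, Matrix.mul_one]
  have h3 := hmax (W', D * adjugate E * N) (by
    simp only
    rw [← Matrix.mul_assoc, ← h2]
    exact hWN)
  simp only at h3
  have hDdet : D.det = π := by
    rw [hD, det_diagonal, Finset.prod_update_of_mem (Finset.mem_univ J)]
    simp
  have h4 : (D * adjugate E * N).det = π * N.det := by
    rw [det_mul, det_mul, det_adjugate, hEdet, hDdet, one_pow, mul_one]
  rw [h4, natDegree_mul hπ.ne_zero hN] at h3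
  have h5 : 0 < π.natDegree := hπ.natDegree_pos
  omega

end ItemODec

theorem prf_O_Dec : O_Dec := by
  classical
  intro F _ r k q hk hne hrel
  obtain ⟨J0, hJ0⟩ := hne
  set F' : Matrix (Fin r) (Fin k) F[X] := Matrix.of fun i b => q (Function.update J0 b i) with hF
  have hdet : ∀ J : Fin k → Fin r, (F'.submatrix J id).det = q J0 ^ (k - 1) * q J := fun J =>
    hrel J0 J
  have hfull : FullRank F' := by
    refine ⟨J0, ?_⟩
    rw [hdet]
    exact mul_ne_zero (pow_ne_zero _ hJ0) hJ0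
  obtain ⟨W, N, hW, hFW, hN⟩ := ItemODec.saturate' hfull
  have hmin : ∀ J : Fin k → Fin r, (F'.submatrix J id).det = (W.submatrix J id).det * N.det := by
    intro J
    rw [hFW, ← det_mul]
    congr 1
  obtain ⟨V, hV⟩ := hW
  have hone : (1 : F[X]) = ∑ f : Fin k → Fin r, (∏ i, V i (f i)) * (W.submatrix f id).det := by
    rw [← det_mul_rect, hV, det_one]
  set h : F[X] := ∑ f : Fin k → Fin r, (∏ i, V i (f i)) * q f with hh
  have hqh : q J0 ^ (k - 1) * h = N.det := by
    rw [hh, Finset.mul_sum]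
    calc ∑ f : Fin k → Fin r, q J0 ^ (k - 1) * ((∏ i, V i (f i)) * q f)
        = ∑ f : Fin k → Fin r, ((∏ i, V i (f i)) * (W.submatrix f id).det) * N.det := by
          refine Finset.sum_congr rfl fun f _ => ?_
          have := (hdet f).symm.trans (hmin f)
          calc q J0 ^ (k - 1) * ((∏ i, V i (f i)) * q f)
              = (∏ i, V i (f i)) * (q J0 ^ (k - 1) * q f) := by ring
            _ = ((∏ i, V i (f i)) * (W.submatrix f id).det) * N.det := by rw [this]; ring
      _ = N.det := by rw [← Finset.sum_mul, ← hone, one_mul]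
  have hq0 : q J0 ^ (k - 1) ≠ 0 := pow_ne_zero _ hJ0
  refine ⟨W, h, ⟨V, hV⟩, ?_, fun J => ?_⟩
  · intro h0
    rw [h0, mul_zero] at hqh
    exact hN hqh.symm
  · apply mul_left_cancel₀ hq0
    rw [(hdet J).symm.trans (hmin J), ← hqh]
    ring

end Pool.Agent.MSU

end

section

/-! Item O_Gen: all systems, by induction on the rank. -/

open Matrix Polynomial
open Pool.Agent.Work.MP_5e5ff1_ag

namespace Pool.Agent.MSU

theorem prf_O_Gen (hB : O_Block) (hQ : O_QBlock) (hS : O_Sum) : O_Gen := by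
  intro F _ p hirr r
  induction r using Nat.strong_induction_on with
  | _ r ih =>
    intro b c hp
    by_cases h : Irr2 b c
    · exact hirr r b c hp h
    obtain ⟨k, l, e, S, b₁, c₁, b₂, c₂, β, γ, hk, hl, hSu, hbS, hcS⟩ := hB F r b c h
    have hcard : k + l = r := by
      have := Fintype.card_congr e
      simpa using this
    obtain ⟨h1, h2⟩ := hQ F r k l e b c S b₁ c₁ b₂ c₂ β γ hSu hbS hcS p hp
    obtain ⟨m₁, M₁, hU₁⟩ := ih k (by omega) b₁ c₁ h1
    obtain ⟨m₂, M₂, hU₂⟩ := ih l (by omega) b₂ c₂ h2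
    exact hS F p r k l e b c S b₁ c₁ b₂ c₂ β γ m₁ m₂ M₁ M₂ hSu hbS hcS hU₁ hU₂

end Pool.Agent.MSU

end

section

/-! Item O_Inv: a constant horizontal subbundle is invariant under the residues. -/

open Matrix Polynomial
open Pool.Agent.Work.MP_5e5ff1_ag

namespace Pool.Agent.MSU

theorem prf_O_Inv : O_Inv := by
  intro p F _ _ r k b c G W Ω J0 hG hZ hdet
  classical
  set Z : Matrix (Fin r) (Fin k) F[X] := G * W.map (expand F p) with hZdef
  set Z0 := Z.submatrix J0 id with hZ0
  have hder : ∀ f : F[X], derivative (expand F p f) = 0 := by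
    intro f
    rw [derivative_expand]
    simp
  -- horizontality
  have hH : ∀ i j, X * (X - 1) * derivative (Z i j) = (Lmat b c * Z) i j := by
    intro i j
    rw [hZdef, mul_apply, derivative_sum, Finset.mul_sum]
    have h1 : ∀ l, (X * (X - 1) : F[X]) * derivative (G i l * (W.map (expand F p)) l j)
        = (∑ m, Lmat b c i m * G m l) * (W.map (expand F p)) l j := by
      intro l
      rw [derivative_mul, map_apply, hder, mul_zero, add_zero, ← mul_assoc, hG i l]
    rw [Finset.sum_congr rfl (fun l _ => h1 l), ← Matrix.mul_assoc, mul_apply]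
    rfl
  set D : Matrix (Fin k) (Fin k) F[X] := Z0.map (fun f => X * (X - 1) * derivative f) with hD
  have hD1 : Ω.map C * D = Lmat b c * Ω.map C * Z0 := by
    have h1 : Ω.map C * D = Lmat b c * Z := by
      ext1 i j
      rw [← hH i j]
      have h2 : Z i j = (Ω.map C * Z0) i j := by rw [← hZ]
      rw [h2, mul_apply, mul_apply, derivative_sum, Finset.mul_sum]
      apply Finset.sum_congr rfl
      intro l _
      rw [map_apply, derivative_C_mul, hD, map_apply]
      ring
    rw [h1, hZ, Matrix.mul_assoc]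
  have hD2 : D = (Lmat b c * Ω.map C).submatrix J0 id * Z0 := by
    ext1 i j
    rw [hD, map_apply, hZ0, submatrix_apply, id_eq, hH]
    have h2 : (Lmat b c * Z) (J0 i) j = (Lmat b c * Ω.map C * Z0) (J0 i) j := by
      rw [Matrix.mul_assoc, ← hZ]
    rw [h2, ← T.submatrix_mul_left]
    rfl
  have hkey : Ω.map C * (Lmat b c * Ω.map C).submatrix J0 id = Lmat b c * Ω.map C := by
    have h1 : Ω.map C * (Lmat b c * Ω.map C).submatrix J0 id * Z0 = Lmat b c * Ω.map C * Z0 := by
      rw [Matrix.mul_assoc, ← hD2, hD1]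
    apply T.smul_matrix_cancel hdet
    have h2 := congrArg (fun M => M * adjugate Z0) h1
    simp only [Matrix.mul_assoc, mul_adjugate, Matrix.mul_smul, Matrix.mul_one] at h2
    rw [h2]
  -- evaluation
  have hev : ∀ x : F, Ω * (((x - 1) • b + x • c) * Ω).submatrix J0 id
      = ((x - 1) • b + x • c) * Ω := by
    intro x
    have h1 := congrArg (fun M : Matrix (Fin r) (Fin k) F[X] => M.map (evalRingHom x)) hkey
    have hL : (Lmat b c * Ω.map C).map (evalRingHom x) = ((x - 1) • b + x • c) * Ω := by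
      ext1 i j
      simp only [Lmat, mul_apply, map_apply, Matrix.add_apply, Matrix.smul_apply, smul_eq_mul,
        coe_evalRingHom, eval_finsetSum, eval_mul, eval_add, eval_sub, eval_X, eval_one, eval_C]
    have hO : (Ω.map C * (Lmat b c * Ω.map C).submatrix J0 id).map (evalRingHom x)
        = Ω * (((Lmat b c * Ω.map C).map (evalRingHom x)).submatrix J0 id) := by
      rw [Matrix.map_mul]
      congr 1
      ext1 i j
      simp
    have h2 : (Ω.map C * (Lmat b c * Ω.map C).submatrix J0 id).map (evalRingHom x)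
      = (Lmat b c * Ω.map C).map (evalRingHom x) := h1
    rw [hO, hL] at h2
    exact h2
  refine ⟨(b * Ω).submatrix J0 id, (c * Ω).submatrix J0 id, ?_, ?_⟩
  · have h := hev 0
    simp only [zero_sub, neg_smul, one_smul, zero_smul, add_zero] at h
    have h2 : ((-b) * Ω).submatrix J0 id = - ((b * Ω).submatrix J0 id) := by
      rw [Matrix.neg_mul]; rfl
    rw [h2, Matrix.mul_neg, Matrix.neg_mul, neg_inj] at h
    exact h.symm
  · have h := hev 1
    simp only [sub_self, one_smul, zero_smul, zero_add] at h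
    exact h.symm

end Pool.Agent.MSU

end

section

/-! Item O_Irr: assembly of the irreducible case. -/

open Matrix Polynomial
open Pool.Agent.Work.MP_5e5ff1_ag

namespace Pool.Agent.MSU

namespace ItemOIrr

theorem charP_of_prime_eq_zero {k : Type} [Field k] {p : ℕ} (hp : p.Prime) (h : (p : k) = 0) :
    CharP k p := by
  have h1 : ringChar k ∣ p := ringChar.dvd h
  rcases (Nat.dvd_prime hp).mp h1 with h2 | h2
  · exact absurd h2 CharP.ringChar_ne_one
  · rw [← h2]
    exact ringChar.charP k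

/-- the third exponent -/
def neg' (p d : ℕ) : ℕ := (p - d % p) % p

theorem neg'_lt {p : ℕ} (hp : 0 < p) (d : ℕ) : neg' p d < p := Nat.mod_lt _ hp

theorem neg'_add {p : ℕ} (hp : 0 < p) (d : ℕ) : ∃ s : ℕ, neg' p d + d = p * s := by
  have h1 : p ∣ neg' p d + d := by
    unfold neg'
    rw [Nat.dvd_iff_mod_eq_zero, Nat.add_mod, Nat.mod_mod, ← Nat.add_mod]
    have h2 : d % p < p := Nat.mod_lt _ hp
    have h3 : p - d % p + d = p + p * (d / p) := by
      have := Nat.div_add_mod d p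
      omega
    rw [h3, show p + p * (d / p) = p * (1 + d / p) by ring]
    exact Nat.mul_mod_right _ _
  obtain ⟨s, hs⟩ := h1
  exact ⟨s, hs⟩

theorem neg'_cast {k : Type} [Field k] {p : ℕ} [CharP k p] (hp : 0 < p) (d : ℕ) :
    ((neg' p d : ℕ) : k) = -(d : k) := by
  obtain ⟨s, hs⟩ := neg'_add hp d
  have h1 := congrArg (fun n : ℕ => (n : k)) hs
  simp only [Nat.cast_add, Nat.cast_mul, CharP.cast_eq_zero, zero_mul] at h1
  exact eq_neg_of_add_eq_zero_left h1

theorem exp_neg' {p : ℕ} (hp : 0 < p) (d : ℕ) :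
    Complex.exp (-(2 * Real.pi * Complex.I * (((d : ℝ) / p : ℝ) : ℂ))) =
      Complex.exp (2 * Real.pi * Complex.I * ((neg' p d : ℂ) / (p : ℂ))) := by
  obtain ⟨s, hs⟩ := neg'_add hp d
  have h1 := congrArg (fun n : ℕ => (n : ℂ)) hs
  simp only [Nat.cast_add, Nat.cast_mul] at h1
  have hp0 : (p : ℂ) ≠ 0 := by exact_mod_cast hp.ne'
  rw [Complex.exp_eq_exp_iff_exists_int]
  refine ⟨-(s : ℤ), ?_⟩
  have h2 : (neg' p d : ℂ) = p * s - d := by linear_combination h1
  rw [h2]
  push_cast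
  field_simp
  ring

end ItemOIrr

open ItemOIrr in
theorem prf_O_Irr (hS : O_Stab) (hL : O_Lift) (hMain : N_Main) (hSt : M_St) (hIrr : M_Irr)
    (hProd : M_Prod) : O_Irr := by
  classical
  intro p hp A hpA hac r b c hQ hirr
  have : Fact p.Prime := ⟨hp⟩
  have := hac
  have hp0 : ((p : ℕ) : IsLocalRing.ResidueField A) = 0 := by
    have h1 : IsLocalRing.residue A (p : A) = 0 := (IsLocalRing.residue_eq_zero_iff _).mpr hpA
    rw [map_natCast] at h1
    exact h1
  have : CharP (IsLocalRing.ResidueField A) p := charP_of_prime_eq_zero hp hp0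
  obtain ⟨x0, hx0⟩ := Infinite.exists_notMem_finset ({0, 1} : Finset (IsLocalRing.ResidueField A))
  simp only [Finset.mem_insert, Finset.mem_singleton, not_or] at hx0
  have hex : ∃ F, Hor (X * (X - 1)) (Lmat b c) F ∧ F.det ≠ 0 := by
    have h1 := exists_hor (p := p) (one_ne_zero : (1 : IsLocalRing.ResidueField A) ≠ 0) b c hQ x0
      hx0.1 hx0.2
    simpa using h1
  obtain ⟨G, h₀, h₁, m₀, m₁, d, hG, hfr, hm₀, hm₁, hsum, hb, hc, hbc⟩ :=
    T.frames (p := p) b c hex
  have hst := hS p (IsLocalRing.ResidueField A) r hp b c G h₀ h₁ m₀ m₁ d hG hfr hsum hirr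
  -- lift of the frames
  choose lift hlift using (IsLocalRing.residue_surjective (R := A))
  set g₀ : Matrix (Fin r) (Fin r) A := (h₀⁻¹).map lift with hg₀
  set g₁ : Matrix (Fin r) (Fin r) A := (h₁⁻¹).map lift with hg₁
  have e₀ : g₀.map (IsLocalRing.residue A) = h₀⁻¹ := by
    ext1 i j
    simp only [hg₀, map_apply, hlift]
  have e₁ : g₁.map (IsLocalRing.residue A) = h₁⁻¹ := by
    ext1 i j
    simp only [hg₁, map_apply, hlift]
  have hd₀ : (h₀⁻¹).det ≠ 0 := by
    rw [det_nonsing_inv, Ring.inverse_eq_inv']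
    exact inv_ne_zero hfr.h₀_ne
  have hd₁ : (h₁⁻¹).det ≠ 0 := by
    rw [det_nonsing_inv, Ring.inverse_eq_inv']
    exact inv_ne_zero hfr.h₁_ne
  have hst' := hL A r g₀ g₁ (wp p m₀ m₁ d) (by rw [e₀]; exact hd₀) (by rw [e₁]; exact hd₁)
    (by rw [e₀, e₁]; exact hst)
  have hdet : ∀ g : Matrix (Fin r) (Fin r) A, (g.map (IsLocalRing.residue A)).det ≠ 0 →
      (g.map (algebraMap A ℂ)).det ≠ 0 := by
    intro g hg h0
    apply hg
    have h1 := RingHom.map_det (algebraMap A ℂ) g
    have h2 := RingHom.map_det (IsLocalRing.residue A) g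
    rw [RingHom.mapMatrix_apply] at h1 h2
    rw [← h1] at h0
    have h3 : g.det = 0 := by
      apply (FaithfulSMul.algebraMap_injective A ℂ)
      rw [h0, map_zero]
    rw [← h2, h3, map_zero]
  have hD₀ : (g₀.map (algebraMap A ℂ)).det ≠ 0 := hdet g₀ (by rw [e₀]; exact hd₀)
  have hD₁ : (g₁.map (algebraMap A ℂ)).det ≠ 0 := hdet g₁ (by rw [e₁]; exact hd₁)
  set γ := gam (g₀.map (algebraMap A ℂ)) (g₁.map (algebraMap A ℂ)) with hγ
  set w := wt (wp p m₀ m₁ d) with hw
  have hppos : (0 : ℝ) < p := by exact_mod_cast hp.pos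
  have w0 : ∀ a, w 0 a = -((m₀ a : ℝ) / p) := by
    intro a; simp [hw, wt, wp]
  have w1 : ∀ a, w 1 a = -((m₁ a : ℝ) / p) := by
    intro a; simp [hw, wt, wp]
  have w2 : ∀ a, w 2 a = (d a : ℝ) / p := by
    intro a; simp [hw, wt, wp, neg_div]
  have hGU : GU γ := by
    intro x
    fin_cases x
    · exact isUnit_iff_ne_zero.mpr hD₀
    · exact isUnit_iff_ne_zero.mpr hD₁
    · simp [hγ, gam]
  have hCW : CWin w := by
    intro x hx a b'
    fin_cases x
    · change w 0 b' - w 0 a ≤ 1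
      rw [w0, w0]
      have h1 : (m₀ a : ℝ) / p ≤ 1 := by
        rw [div_le_one hppos]
        exact_mod_cast (hm₀ a).le
      have h2 : (0 : ℝ) ≤ (m₀ b' : ℝ) / p := by positivity
      linarith
    · change w 1 b' - w 1 a ≤ 1
      rw [w1, w1]
      have h1 : (m₁ a : ℝ) / p ≤ 1 := by
        rw [div_le_one hppos]
        exact_mod_cast (hm₁ a).le
      have h2 : (0 : ℝ) ≤ (m₁ b' : ℝ) / p := by positivity
      linarith
    · exact absurd rfl hx
  have hsw : ∑ x, ∑ i, w x i = 0 := by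
    rw [Fin.sum_univ_three]
    simp only [w0, w1, w2, Finset.sum_neg_distrib, ← Finset.sum_div]
    have h1 : (∑ j, (d j : ℝ)) = ∑ j, (m₀ j : ℝ) + ∑ j, (m₁ j : ℝ) := by exact_mod_cast hsum
    rw [h1]
    ring
  have hStG : StG γ w := hSt r _ _ _ hD₀ hD₁ hst'
  obtain ⟨Gm, Q, hMV, hRB, hinv, hch⟩ := hMain r γ w hGU rfl hCW hsw hStG
  refine ⟨![m₀, m₁, fun j => neg' p (d j)], Q, ⟨?_, ?_, ?_, ?_, hMV.unit, hProd r Gm Q hMV hinv, ?_⟩,
    hIrr r _ _ _ Gm Q hD₀ hD₁ hst' hMV hRB hinv⟩
  · intro x j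
    fin_cases x
    · exact hm₀ j
    · exact hm₁ j
    · exact neg'_lt hp.pos _
  · exact hb
  · exact hc
  · have h1 := charpoly_smul_prod (t := (-1 : IsLocalRing.ResidueField A)) hbc
      (neg_ne_zero.mpr one_ne_zero)
    rw [neg_one_smul] at h1
    rw [h1]
    apply Finset.prod_congr rfl
    intro j _
    congr 2
    change -1 * ((d j : ℕ) : IsLocalRing.ResidueField A) = ((neg' p (d j) : ℕ) : _)
    rw [neg'_cast hp.pos]
    ring
  · intro x
    rw [hch x]
    apply Finset.prod_congr rfl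
    intro j _
    congr 2
    fin_cases x
    · change Complex.exp (-(2 * Real.pi * Complex.I * (w 0 j : ℂ))) =
        Complex.exp (2 * Real.pi * Complex.I * ((m₀ j : ℂ) / (p : ℂ)))
      rw [w0]
      congr 1
      push_cast
      ring
    · change Complex.exp (-(2 * Real.pi * Complex.I * (w 1 j : ℂ))) =
        Complex.exp (2 * Real.pi * Complex.I * ((m₁ j : ℂ) / (p : ℂ)))
      rw [w1]
      congr 1
      push_cast
      ring
    · change Complex.exp (-(2 * Real.pi * Complex.I * (w 2 j : ℂ))) =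
        Complex.exp (2 * Real.pi * Complex.I * ((neg' p (d j) : ℂ) / (p : ℂ)))
      rw [w2]
      exact exp_neg' hp.pos _

end Pool.Agent.MSU

end

section

/-! Item O_Lift: stability lifts from the residue field of a valuation ring. -/

open Matrix Polynomial
open Pool.Agent.Work.MP_5e5ff1_ag

namespace Pool.Agent.MSU

namespace ItemOLift

/-- the two orders are at most the degree -/
theorem ord_add_le {K : Type*} [Field K] {h : K[X]} (hh : h ≠ 0) :
    h.rootMultiplicity 0 + h.rootMultiplicity 1 ≤ h.natDegree := by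
  have h1 : (X - C (0 : K)) ^ h.rootMultiplicity 0 ∣ h := pow_rootMultiplicity_dvd h 0
  have h2 : (X - C (1 : K)) ^ h.rootMultiplicity 1 ∣ h := pow_rootMultiplicity_dvd h 1
  have hcop : IsCoprime ((X - C (0 : K)) ^ h.rootMultiplicity 0)
      ((X - C (1 : K)) ^ h.rootMultiplicity 1) := by
    apply IsCoprime.pow
    apply isCoprime_X_sub_C_of_isUnit_sub
    simp
  have h3 := hcop.mul_dvd h1 h2
  have h4 := natDegree_le_of_dvd h3 hh
  rw [natDegree_mul (pow_ne_zero _ (X_sub_C_ne_zero _)) (pow_ne_zero _ (X_sub_C_ne_zero _)),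
    natDegree_pow, natDegree_pow, natDegree_X_sub_C, natDegree_X_sub_C] at h4
  omega

variable {A : ValuationSubring ℂ} {r k : ℕ}

/-- a family of polynomials over `A` and a matrix over `A` -/
noncomputable def PQ (g : Matrix (Fin r) (Fin r) A) (Q : (Fin k → Fin r) → A[X])
    (I : Fin k → Fin r) : A[X] :=
  ∑ f : Fin k → Fin r, (∏ i, C (g (I i) (f i))) * Q f

theorem PQ_map {K : Type} [Field K] (φ : A →+* K) (g : Matrix (Fin r) (Fin r) A)
    (Q : (Fin k → Fin r) → A[X]) (I : Fin k → Fin r) (W : Matrix (Fin r) (Fin k) K[X]) (c : K[X])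
    (hQ : ∀ J, (Q J).map φ = c * (W.submatrix J id).det) :
    (PQ g Q I).map φ = c * (((g.map φ).map C * W).submatrix I id).det := by
  rw [T.minor_mul, PQ, Polynomial.map_sum, Finset.mul_sum]
  apply Finset.sum_congr rfl
  intro f _
  rw [Polynomial.map_mul, Polynomial.map_prod, hQ]
  have h1 : ∏ i, (C (g (I i) (f i)) : A[X]).map φ = ∏ i, ((g.map φ).map C) (I i) (f i) := by
    apply Finset.prod_congr rfl
    intro i _
    rw [Polynomial.map_C]
    rfl
  rw [h1]
  ring

end ItemOLift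

open ItemOLift in
theorem prf_O_Lift (hD : O_Dec) (hR : O_Rel) (hE : O_Red) (hM : O_Mult) : O_Lift := by
  classical
  intro A r g₀ g₁ v hg₀ hg₁ hst
  refine ⟨hst.1, ?_⟩
  intro k hk hkr W hW
  set res := IsLocalRing.residue A with hres
  set ia := algebraMap A ℂ with hia
  have hinj : Function.Injective ia := Subtype.val_injective
  obtain ⟨J₁, hJ₁⟩ := hW.fullRank
  obtain ⟨l, Q, hl, hQ, J₂, hJ₂⟩ := hE A (Fin k → Fin r) (fun J => (W.submatrix J id).det)
    ⟨J₁, hJ₁⟩
  have hrelQ : ∀ J0 J : Fin k → Fin r,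
      (Matrix.of fun a b => Q (Function.update J0 b (J a))).det = Q J0 ^ (k - 1) * Q J := by
    intro J0 J
    apply Polynomial.map_injective ia hinj
    have h1 := hR ℂ r k W hk J0 J
    have h2 : ((Matrix.of fun a b => Q (Function.update J0 b (J a))).det).map ia =
        (Matrix.of fun a b => C l * (W.submatrix (Function.update J0 b (J a)) id).det).det := by
      have h3 := RingHom.map_det (mapRingHom ia) (Matrix.of fun a b => Q (Function.update J0 b (J a)))
      rw [coe_mapRingHom] at h3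
      rw [h3]
      congr 1
      ext1 a b
      simp only [RingHom.mapMatrix_apply, Matrix.map_apply, Matrix.of_apply, coe_mapRingHom]
      exact hQ _
    have h4 : (Matrix.of fun a b => C l * (W.submatrix (Function.update J0 b (J a)) id).det) =
        C l • (Matrix.of fun a b => (W.submatrix (Function.update J0 b (J a)) id).det) := by
      ext1 a b
      simp only [Matrix.of_apply, Matrix.smul_apply, smul_eq_mul]
    rw [h2, h4, det_smul, Fintype.card_fin, h1, Polynomial.map_mul, Polynomial.map_pow, hQ, hQ]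
    have h5 : (C l : ℂ[X]) ^ k = C l ^ (k - 1) * C l := by
      rw [← pow_succ]
      congr 1
      omega
    rw [h5, mul_pow]
    ring
  set qb : (Fin k → Fin r) → (IsLocalRing.ResidueField A)[X] := fun J => (Q J).map res with hqb
  have hrelq : ∀ J0 J : Fin k → Fin r,
      (Matrix.of fun a b => qb (Function.update J0 b (J a))).det = qb J0 ^ (k - 1) * qb J := by
    intro J0 J
    have h1 := congrArg (Polynomial.map res) (hrelQ J0 J)
    rw [Polynomial.map_mul, Polynomial.map_pow] at h1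
    rw [hqb]
    simp only
    rw [← h1]
    have h3 := RingHom.map_det (mapRingHom res) (Matrix.of fun a b => Q (Function.update J0 b (J a)))
    rw [coe_mapRingHom] at h3
    rw [h3]
    congr 1
  obtain ⟨Wb, h, hWb, hh, hqWb⟩ := hD (IsLocalRing.ResidueField A) r k qb hk ⟨J₂, hJ₂⟩ hrelq
  obtain ⟨I, hI, hIdeg⟩ := T.parDegree_attained hg₀ hg₁ v hWb.fullRank
  have hlt := hst.2 k hk hkr Wb hWb
  have hCl : (C l : ℂ[X]) ≠ 0 := C_ne_zero.mpr hl
  -- comparison of the minors of `g W`
  have hcomp : ∀ (g : Matrix (Fin r) (Fin r) A) (J : Fin k → Fin r) (a : A),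
      (((g.map res).map C * Wb).submatrix J id).det ≠ 0 →
      (((g.map ia).map C * W).submatrix J id).det ≠ 0 ∧
      (((g.map ia).map C * W).submatrix J id).det.rootMultiplicity (a : ℂ) ≤
        h.rootMultiplicity (res a) +
          (((g.map res).map C * Wb).submatrix J id).det.rootMultiplicity (res a) := by
    intro g J a hne
    have e1 := PQ_map ia g Q J W (C l) hQ
    have e2 := PQ_map res g Q J Wb h hqWb
    have hne2 : (PQ g Q J).map res ≠ 0 := by
      rw [e2]
      exact mul_ne_zero hh hne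
    have hPne : PQ g Q J ≠ 0 := by
      intro h0
      rw [h0, Polynomial.map_zero] at hne2
      exact hne2 rfl
    have hne3 : (PQ g Q J).map ia ≠ 0 := by
      intro h0
      exact hPne (Polynomial.map_injective ia hinj (by rw [h0, Polynomial.map_zero]))
    have hne4 : (((g.map ia).map C * W).submatrix J id).det ≠ 0 := by
      intro h0
      rw [e1, h0, mul_zero] at hne3
      exact hne3 rfl
    refine ⟨hne4, ?_⟩
    have h1 := (hM A (PQ g Q J) a hne2).1
    rw [e1, e2, rootMultiplicity_mul (mul_ne_zero hCl hne4), rootMultiplicity_C, zero_add,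
      rootMultiplicity_mul (mul_ne_zero hh hne)] at h1
    exact h1
  obtain ⟨hI0, hI1, hI2⟩ := hI
  obtain ⟨c0, c0'⟩ := hcomp g₀ (I 0) 0 hI0
  obtain ⟨c1, c1'⟩ := hcomp g₁ (I 1) 1 hI1
  have c2 : (W.submatrix (I 2) id).det ≠ 0 ∧
      h.natDegree + (Wb.submatrix (I 2) id).det.natDegree ≤
        (W.submatrix (I 2) id).det.natDegree := by
    have hne2 : (Q (I 2)).map res ≠ 0 := by
      have := hqWb (I 2)
      rw [hqb] at this
      simp only at this
      rw [this]
      exact mul_ne_zero hh hI2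
    have hne : (W.submatrix (I 2) id).det ≠ 0 := by
      intro h0
      have h1 := hQ (I 2)
      rw [h0, mul_zero] at h1
      have h2 : Q (I 2) = 0 := Polynomial.map_injective ia hinj (by rw [h1, Polynomial.map_zero])
      rw [h2, Polynomial.map_zero] at hne2
      exact hne2 rfl
    refine ⟨hne, ?_⟩
    have h1 := (hM A (Q (I 2)) 0 hne2).2
    have h2 := hQ (I 2)
    have h3 := hqWb (I 2)
    rw [hqb] at h3
    simp only at h3
    rw [h2, h3, natDegree_mul hh hI2, natDegree_C_mul hl] at h1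
    exact h1
  have hpar : T.ParNonzero (g₀.map ia) (g₁.map ia) W I := ⟨c0, c1, c2.1⟩
  have hle := T.parDegree_le v hpar
  refine lt_of_le_of_lt hle ?_
  refine lt_of_le_of_lt ?_ hlt
  rw [hIdeg, T.parVal_eq, T.parVal_eq]
  have hres0 : res 0 = 0 := map_zero _
  have hres1 : res 1 = 1 := map_one _
  rw [hres0] at c0'
  rw [hres1] at c1'
  have c0r : ((((g₀.map ia).map C * W).submatrix (I 0) id).det.rootMultiplicity 0 : ℝ) ≤
      h.rootMultiplicity 0 + (((g₀.map res).map C * Wb).submatrix (I 0) id).det.rootMultiplicity 0 := by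
    exact_mod_cast c0'
  have c1r : ((((g₁.map ia).map C * W).submatrix (I 1) id).det.rootMultiplicity 1 : ℝ) ≤
      h.rootMultiplicity 1 + (((g₁.map res).map C * Wb).submatrix (I 1) id).det.rootMultiplicity 1 := by
    exact_mod_cast c1'
  have c2r : (h.natDegree : ℝ) + (Wb.submatrix (I 2) id).det.natDegree ≤
        (W.submatrix (I 2) id).det.natDegree := by
    exact_mod_cast c2.2
  have c3r : (h.rootMultiplicity 0 : ℝ) + h.rootMultiplicity 1 ≤ h.natDegree := by
    exact_mod_cast ord_add_le hh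
  linarith

end Pool.Agent.MSU

end

section

set_option autoImplicit false

/-! The one prime theorem for finite fields, assembly (helper18). -/

open Matrix Polynomial
open Pool.Agent.Work.MP_5e5ff1_ag

namespace Pool.Agent.MSU

namespace ItemO_Main

theorem charpoly_transfer {k F : Type} [Field k] [Field F] (φ : k →+* F) {r : ℕ}
    (b : Matrix (Fin r) (Fin r) k) (m : Fin r → ℕ)
    (h : (b.map φ).charpoly = ∏ j, (X - C ((m j : ℕ) : F))) :
    b.charpoly = ∏ j, (X - C ((m j : ℕ) : k)) := by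
  apply Polynomial.map_injective φ φ.injective
  rw [← Matrix.charpoly_map, Polynomial.map_prod]
  rw [h]
  refine Finset.prod_congr rfl fun j _ => ?_
  simp

theorem UT_transfer {k F : Type} [Field k] [Field F] (φ : k →+* F) {r : ℕ} (p : ℕ)
    (b c : Matrix (Fin r) (Fin r) k) (m : Fin 3 → Fin r → ℕ)
    (M : Fin 3 → Matrix (Fin r) (Fin r) ℂ) (h : UT p (b.map φ) (c.map φ) m M) :
    UT p b c m M := by
  obtain ⟨h1, h2, h3, h4, h5, h6, h7⟩ := h
  refine ⟨h1, charpoly_transfer φ b _ h2, charpoly_transfer φ c _ h3,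
    charpoly_transfer φ (-(b + c)) _ ?_, h5, h6, h7⟩
  have e : (-(b + c)).map φ = -(b.map φ + c.map φ) := by
    ext i j
    simp
  rw [e]
  exact h4

theorem exists_hom (p : ℕ) (hp : p.Prime) (k : Type) [Field k] [Finite k] [CharP k p]
    (A : ValuationSubring ℂ) (hpA : (p : A) ∈ IsLocalRing.maximalIdeal A)
    (hcl : IsAlgClosed (IsLocalRing.ResidueField A)) :
    Nonempty (k →+* IsLocalRing.ResidueField A) := by
  have : Fact p.Prime := ⟨hp⟩
  have h0 : ((p : ℕ) : IsLocalRing.ResidueField A) = 0 := by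
    have h1 : IsLocalRing.residue A (p : A) = 0 := (IsLocalRing.residue_eq_zero_iff _).2 hpA
    rw [map_natCast] at h1
    exact h1
  have : CharP (IsLocalRing.ResidueField A) p := (CharP.charP_iff_prime_eq_zero hp).2 h0
  let _ : Algebra (ZMod p) k := ZMod.algebra k p
  let _ : Algebra (ZMod p) (IsLocalRing.ResidueField A) := ZMod.algebra _ p
  have : Module.Finite (ZMod p) k := Module.Finite.of_finite
  exact ⟨(IsAlgClosed.lift : k →ₐ[ZMod p] IsLocalRing.ResidueField A).toRingHom⟩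

end ItemO_Main

theorem prf_O_Main (hV : O_Val) (hI : O_Irr) (hG : O_Gen) (hA : O_Abs) : O_Main := by
  intro p hp k _ _ _ r b c hQ
  obtain ⟨A, hpA, hcl⟩ := hV p hp
  obtain ⟨φ⟩ := ItemO_Main.exists_hom p hp k A hpA hcl
  have hQ' : Qs (1 : IsLocalRing.ResidueField A) (b.map φ) (c.map φ) p = 0 := by
    have h1 := Qs_map φ (1 : k) b c p
    rw [hQ, map_one] at h1
    rw [← h1]
    ext i j
    simp
  by_cases hadj : Algebra.adjoin k {b, c} = ⊤
  · obtain ⟨m, M, h1, h2⟩ := hI p hp A hpA hcl r (b.map φ) (c.map φ) hQ'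
      (hA k _ φ r b c hadj)
    exact ⟨m, M, ItemO_Main.UT_transfer φ p b c m M h1, fun _ => h2⟩
  · obtain ⟨m, M, h1⟩ := hG (IsLocalRing.ResidueField A) p (fun r b c hQ hIrr => by
      obtain ⟨m, M, h, -⟩ := hI p hp A hpA hcl r b c hQ hIrr
      exact ⟨m, M, h⟩) r (b.map φ) (c.map φ) hQ'
    exact ⟨m, M, ItemO_Main.UT_transfer φ p b c m M h1, fun h => absurd h hadj⟩

end Pool.Agent.MSU

end

section

open Matrix Polynomial
open Pool.Agent.Work.MP_5e5ff1_ag

namespace Pool.Agent.MSU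

theorem prf_O_Mult : O_Mult := by
  intro A Q a hQ
  have hinj : Function.Injective (algebraMap A ℂ) := Subtype.val_injective
  have hQ0 : Q ≠ 0 := by
    rintro rfl
    exact hQ (Polynomial.map_zero _)
  have hQC : Q.map (algebraMap A ℂ) ≠ 0 := (Polynomial.map_ne_zero_iff hinj).2 hQ0
  constructor
  · rw [Polynomial.le_rootMultiplicity_iff hQ]
    have h1 := Polynomial.pow_rootMultiplicity_dvd (Q.map (algebraMap A ℂ)) (a : ℂ)
    have h2 : ((X - C a) ^ ((Q.map (algebraMap A ℂ)).rootMultiplicity (a : ℂ))).map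
        (algebraMap A ℂ) ∣ Q.map (algebraMap A ℂ) := by
      rw [Polynomial.map_pow, Polynomial.map_sub, Polynomial.map_X, Polynomial.map_C]
      exact h1
    have h3 : (X - C a) ^ ((Q.map (algebraMap A ℂ)).rootMultiplicity (a : ℂ)) ∣ Q :=
      (Polynomial.map_dvd_map _ hinj ((Polynomial.monic_X_sub_C a).pow _)).1 h2
    have h4 := Polynomial.map_dvd (IsLocalRing.residue A) h3
    rw [Polynomial.map_pow, Polynomial.map_sub, Polynomial.map_X, Polynomial.map_C] at h4
    exact h4
  · rw [Polynomial.natDegree_map_eq_of_injective hinj]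
    exact Polynomial.natDegree_map_le

end Pool.Agent.MSU

end

section

/-! The orders of the minors of `G W^(p)`. -/

open Matrix Polynomial
open Pool.Agent.Work.MP_5e5ff1_ag

namespace Pool.Agent.MSU

namespace ItemO_Ord

open Pool.Agent.Work.MP_5e5ff1_ag.T

variable {F : Type} [Field F] {r : ℕ}

lemma det_ne {G : Matrix (Fin r) (Fin r) F[X]} {h₀ h₁ : Matrix (Fin r) (Fin r) F}
    {m₀ m₁ d : Fin r → ℕ} (h : TFrame G h₀ h₁ m₀ m₁ d) : G.det ≠ 0 := by
  obtain ⟨H, e, hH⟩ := h.frame₀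
  intro h0
  have h1 := congrArg det e
  rw [det_mul, h0, zero_mul, det_mul, det_diagonal] at h1
  have h2 : H.det ≠ 0 := by
    intro h2
    apply hH
    rw [← T.eval_det, h2, eval_zero]
  exact mul_ne_zero h2 (Finset.prod_ne_zero_iff.mpr fun j _ =>
    pow_ne_zero _ (X_sub_C_ne_zero 0)) h1.symm

lemma parVal_wp {p : ℕ} (hp : (p : ℝ) ≠ 0) {h₀ h₁ : Matrix (Fin r) (Fin r) F}
    {m₀ m₁ d : Fin r → ℕ} {k : ℕ} (W : Matrix (Fin r) (Fin k) F[X]) (I : Fin 3 → Fin k → Fin r) :
    (p : ℝ) * parVal h₀⁻¹ h₁⁻¹ (wp p m₀ m₁ d) W I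
      = (val p h₀⁻¹ m₀ 0 W (I 0) : ℝ) + (val p h₁⁻¹ m₁ 1 W (I 1) : ℝ)
        - (valInf p d W (I 2) : ℝ) := by
  rw [parVal_eq]
  simp only [wp, val, valInf]
  have e0 : ∀ (x : Fin r → ℝ) (f : Fin k → Fin r), (p : ℝ) * ∑ j, x (f j) / p
      = ∑ j, x (f j) := by
    intro x f
    rw [Finset.mul_sum]
    apply Finset.sum_congr rfl
    intro j _
    field_simp
  have a0 := e0 (fun i => (m₀ i : ℝ)) (I 0)
  have a1 := e0 (fun i => (m₁ i : ℝ)) (I 1)
  have a2 := e0 (fun i => (-(d i : ℝ))) (I 2)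
  simp only [Finset.sum_neg_distrib] at a2
  simp only [Matrix.cons_val_zero, Matrix.cons_val_one, Matrix.cons_val]
  push_cast
  linear_combination a0 + a1 + a2

theorem main (p : ℕ) [hp : Fact p.Prime] [CharP F p] (k : ℕ)
    (G : Matrix (Fin r) (Fin r) F[X]) (h₀ h₁ : Matrix (Fin r) (Fin r) F)
    (m₀ m₁ d : Fin r → ℕ) (W : Matrix (Fin r) (Fin k) F[X])
    (hG : T.TFrame G h₀ h₁ m₀ m₁ d) (hWs : T.IsSub W) :
    T.parDegree h₀⁻¹ h₁⁻¹ (wp p m₀ m₁ d) W ≤ 0 ∧
    (T.parDegree h₀⁻¹ h₁⁻¹ (wp p m₀ m₁ d) W = 0 →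
      ∃ (φ : F[X]) (c : (Fin k → Fin r) → F), φ ≠ 0 ∧ (∃ J, c J ≠ 0) ∧
        ∀ J, ((G * W.map (expand F p)).submatrix J id).det = φ * C (c J)) := by
  classical
  have hp0 : (0 : ℝ) < (p : ℝ) := by exact_mod_cast hp.out.pos
  have hp1 : (p : ℝ) ≠ 0 := hp0.ne'
  have hW : FullRank W := hWs.fullRank
  have hi₀ : (h₀⁻¹).det ≠ 0 := by
    rw [det_nonsing_inv]; simpa using hG.h₀_ne
  have hi₁ : (h₁⁻¹).det ≠ 0 := by
    rw [det_nonsing_inv]; simpa using hG.h₁_ne
  obtain ⟨H₀, e₀, _⟩ := hG.frame₀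
  obtain ⟨H₁, e₁, _⟩ := hG.frame₁
  obtain ⟨I, hI, hpar⟩ := parDegree_attained hi₀ hi₁ (wp p m₀ m₁ d) hW
  have hval := parVal_wp hp1 (h₀ := h₀) (h₁ := h₁) (m₀ := m₀) (m₁ := m₁) (d := d) W I
  have hmin₀ : ∀ f : Fin k → Fin r, ((h₀⁻¹.map C * W).submatrix f id).det ≠ 0 →
      val p h₀⁻¹ m₀ 0 W (I 0) ≤ val p h₀⁻¹ m₀ 0 W f := by
    intro f hf
    have h1 := parDegree_le (g₀ := h₀⁻¹) (g₁ := h₁⁻¹) (wp p m₀ m₁ d) (W := W)
      (I := ![f, I 1, I 2]) ⟨hf, hI.2.1, hI.2.2⟩
    have h2 := parVal_wp hp1 (h₀ := h₀) (h₁ := h₁) (m₀ := m₀) (m₁ := m₁) (d := d) W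
      ![f, I 1, I 2]
    rw [hpar] at h1
    have h3 := mul_le_mul_of_nonneg_left h1 hp0.le
    rw [h2, hval] at h3
    simp only [Matrix.cons_val_zero, Matrix.cons_val_one, Matrix.cons_val] at h3
    have h4 : (val p h₀⁻¹ m₀ 0 W (I 0) : ℝ) ≤ (val p h₀⁻¹ m₀ 0 W f : ℝ) := by linarith
    exact_mod_cast h4
  have hmin₁ : ∀ f : Fin k → Fin r, ((h₁⁻¹.map C * W).submatrix f id).det ≠ 0 →
      val p h₁⁻¹ m₁ 1 W (I 1) ≤ val p h₁⁻¹ m₁ 1 W f := by
    intro f hf
    have h1 := parDegree_le (g₀ := h₀⁻¹) (g₁ := h₁⁻¹) (wp p m₀ m₁ d) (W := W)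
      (I := ![I 0, f, I 2]) ⟨hI.1, hf, hI.2.2⟩
    have h2 := parVal_wp hp1 (h₀ := h₀) (h₁ := h₁) (m₀ := m₀) (m₁ := m₁) (d := d) W
      ![I 0, f, I 2]
    rw [hpar] at h1
    have h3 := mul_le_mul_of_nonneg_left h1 hp0.le
    rw [h2, hval] at h3
    simp only [Matrix.cons_val_zero, Matrix.cons_val_one, Matrix.cons_val] at h3
    have h4 : (val p h₁⁻¹ m₁ 1 W (I 1) : ℝ) ≤ (val p h₁⁻¹ m₁ 1 W f : ℝ) := by linarith
    exact_mod_cast h4
  have hmax₂ : ∀ f : Fin k → Fin r, (W.submatrix f id).det ≠ 0 →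
      valInf p d W f ≤ valInf p d W (I 2) := by
    intro f hf
    have h1 := parDegree_le (g₀ := h₀⁻¹) (g₁ := h₁⁻¹) (wp p m₀ m₁ d) (W := W)
      (I := ![I 0, I 1, f]) ⟨hI.1, hI.2.1, hf⟩
    have h2 := parVal_wp hp1 (h₀ := h₀) (h₁ := h₁) (m₀ := m₀) (m₁ := m₁) (d := d) W
      ![I 0, I 1, f]
    rw [hpar] at h1
    have h3 := mul_le_mul_of_nonneg_left h1 hp0.le
    rw [h2, hval] at h3
    simp only [Matrix.cons_val_zero, Matrix.cons_val_one, Matrix.cons_val] at h3
    have h4 : (valInf p d W f : ℝ) ≤ (valInf p d W (I 2) : ℝ) := by linarith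
    exact_mod_cast h4
  set μ₀ := val p h₀⁻¹ m₀ 0 W (I 0) with hμ₀
  set μ₁ := val p h₁⁻¹ m₁ 1 W (I 1) with hμ₁
  set D := valInf p d W (I 2) with hD
  have hθ0 : ((X - C 0) ^ μ₀ * (X - C 1) ^ μ₁ : F[X]) ≠ 0 :=
    mul_ne_zero (pow_ne_zero _ (X_sub_C_ne_zero 0)) (pow_ne_zero _ (X_sub_C_ne_zero 1))
  have hθd : ((X - C 0) ^ μ₀ * (X - C 1) ^ μ₁ : F[X]).natDegree = μ₀ + μ₁ := by
    rw [natDegree_mul (pow_ne_zero _ (X_sub_C_ne_zero 0)) (pow_ne_zero _ (X_sub_C_ne_zero 1)),
      natDegree_pow, natDegree_pow, natDegree_X_sub_C, natDegree_X_sub_C, mul_one, mul_one]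
  have hdvd : ∀ J, (X - C 0) ^ μ₀ * (X - C 1) ^ μ₁
      ∣ ((G * W.map (expand F p)).submatrix J id).det := by
    intro J
    have hcop : IsCoprime (X - C 0 : F[X]) (X - C 1) := by
      refine ⟨1, -1, ?_⟩
      rw [C_0, C_1]; ring
    exact (IsCoprime.pow hcop).mul_dvd
      (dvd_minor (p := p) hG.h₀_ne (zero_pow hp.out.ne_zero) e₀ W hmin₀ J)
      (dvd_minor (p := p) hG.h₁_ne (one_pow p) e₁ W hmin₁ J)
  have hdeg : ∀ J, ((G * W.map (expand F p)).submatrix J id).det.natDegree ≤ D := fun J =>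
    natDegree_minor_le hG.deg W hmax₂ J
  have hWe : FullRank (W.map (expand F p)) := by
    obtain ⟨I', hI'⟩ := hW
    refine ⟨I', ?_⟩
    rw [minor_map_expand]
    intro h
    exact hI' ((expand_eq_zero hp.out.pos).mp h)
  have hYfull : FullRank (G * W.map (expand F p)) := fullRank_mul (det_ne hG) hWe
  obtain ⟨J0, hJ0⟩ := hYfull
  have hsum : μ₀ + μ₁ ≤ D := by
    have h1 := natDegree_le_of_dvd (hdvd J0) hJ0
    rw [hθd] at h1
    exact h1.trans (hdeg J0)
  have hsumR : (μ₀ : ℝ) + (μ₁ : ℝ) ≤ (D : ℝ) := by exact_mod_cast hsum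
  constructor
  · rw [hpar]
    by_contra hcon
    push Not at hcon
    have h1 := mul_pos hp0 hcon
    rw [hval] at h1
    linarith
  · intro h0
    rw [← hpar, h0, mul_zero] at hval
    have h1 : (D : ℝ) ≤ (μ₀ : ℝ) + (μ₁ : ℝ) := by linarith
    have h2 : D ≤ μ₀ + μ₁ := by exact_mod_cast h1
    have hq : ∀ J : Fin k → Fin r, ∃ a : F, ((G * W.map (expand F p)).submatrix J id).det
        = ((X - C 0) ^ μ₀ * (X - C 1) ^ μ₁) * C a := by
      intro J
      obtain ⟨q, hq⟩ := hdvd J
      by_cases hq0 : q = 0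
      · refine ⟨0, ?_⟩
        rw [hq, hq0, C_0]
      · have h3 := hdeg J
        rw [hq, natDegree_mul hθ0 hq0, hθd] at h3
        have h4 : q.natDegree = 0 := by omega
        refine ⟨q.coeff 0, ?_⟩
        rw [hq]
        congr 1
        exact eq_C_of_natDegree_eq_zero h4
    choose c hc using hq
    refine ⟨(X - C 0) ^ μ₀ * (X - C 1) ^ μ₁, c, hθ0, ⟨J0, ?_⟩, hc⟩
    intro h
    apply hJ0
    rw [hc J0, h, C_0, mul_zero]

end ItemO_Ord

theorem prf_O_Ord : O_Ord := by
  intro p F _ _ r k hp _ G h₀ h₁ m₀ m₁ d W hG hW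
  have : Fact p.Prime := ⟨hp⟩
  exact ItemO_Ord.main p k G h₀ h₁ m₀ m₁ d W hG hW

end Pool.Agent.MSU

end

section

/-! Item O_QBlock: the p-curvature of the blocks. -/

open Matrix Polynomial
open Pool.Agent.Work.MP_5e5ff1_ag

namespace Pool.Agent.MSU

namespace ItemO_QBlock

variable {F : Type} [Field F]

theorem der_mul_const {m n o : Type} [Fintype n] (M : Matrix m n F[X]) (S : Matrix n o F) :
    (M * S.map (fun x => C x)).map (fun f => derivative f) =
      M.map (fun f => derivative f) * S.map (fun x => C x) := by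
  ext1 i j
  simp [Matrix.mul_apply, derivative_mul]

theorem der_const_mul {m n o : Type} [Fintype n] (S : Matrix m n F) (M : Matrix n o F[X]) :
    (S.map (fun x => C x) * M).map (fun f => derivative f) =
      S.map (fun x => C x) * M.map (fun f => derivative f) := by
  ext1 i j
  simp [Matrix.mul_apply, derivative_mul]

theorem map_C_mul {m n o : Type} [Fintype n] (M : Matrix m n F) (N : Matrix n o F) :
    (M * N).map (fun x => (C x : F[X])) = M.map (fun x => C x) * N.map (fun x => C x) := by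
  ext1 i j
  simp [Matrix.mul_apply]

theorem conj {r : ℕ} (b c S B' C' : Matrix (Fin r) (Fin r) F) (hb : b * S = S * B')
    (hc : c * S = S * C') (j : ℕ) :
    Qs (1 : F) b c j * S.map (fun x => C x) = S.map (fun x => C x) * Qs (1 : F) B' C' j := by
  have hb' : b.map (fun x => (C x : F[X])) * S.map (fun x => C x) =
      S.map (fun x => C x) * B'.map (fun x => C x) := by
    rw [← map_C_mul, hb, map_C_mul]
  have hc' : c.map (fun x => (C x : F[X])) * S.map (fun x => C x) =
      S.map (fun x => C x) * C'.map (fun x => C x) := by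
    rw [← map_C_mul, hc, map_C_mul]
  induction j with
  | zero =>
    show 1 * S.map (fun x => C x) = S.map (fun x => C x) * 1
    rw [Matrix.one_mul, Matrix.mul_one]
  | succ j ih =>
    have hd : (Qs (1 : F) b c j).map (fun f => derivative f) * S.map (fun x => C x) =
        S.map (fun x => C x) * (Qs (1 : F) B' C' j).map (fun f => derivative f) := by
      rw [← der_mul_const, ih, der_const_mul]
    simp only [Qs]
    rw [Matrix.sub_mul, Matrix.sub_mul, Matrix.mul_sub, Matrix.mul_sub, Matrix.smul_mul,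
      Matrix.smul_mul, Matrix.mul_smul, Matrix.mul_smul, hd, ih, Matrix.mul_assoc, ih,
      ← Matrix.mul_assoc, ← Matrix.mul_assoc]
    congr 2
    rw [Matrix.add_mul, Matrix.mul_add, Matrix.smul_mul, Matrix.smul_mul, Matrix.mul_smul,
      Matrix.mul_smul, hb', hc']

theorem step_sub {R : Type} [CommRing R] {r : ℕ} {n : Type} [Fintype n] (e : n ≃ Fin r) (s t : R)
    (D Q L : Matrix (Fin r) (Fin r) R) :
    (s • D - t • Q - L * Q).submatrix e e =
      s • D.submatrix e e - t • Q.submatrix e e - L.submatrix e e * Q.submatrix e e := by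
  rw [Matrix.submatrix_mul_equiv L Q e e e]
  rfl

theorem step_add {R : Type} [CommRing R] {r : ℕ} {n : Type} (e : n ≃ Fin r) (s t : R)
    (B B' : Matrix (Fin r) (Fin r) R) :
    (s • B + t • B').submatrix e e = s • B.submatrix e e + t • B'.submatrix e e := rfl

theorem blocks {r k l : ℕ} (e : Fin k ⊕ Fin l ≃ Fin r) (b₁ c₁ : Matrix (Fin k) (Fin k) F)
    (b₂ c₂ : Matrix (Fin l) (Fin l) F) (β γ : Matrix (Fin k) (Fin l) F) (j : ℕ) :
    ∃ Z : Matrix (Fin k) (Fin l) F[X],
      (Qs (1 : F) ((fromBlocks b₁ β 0 b₂).reindex e e) ((fromBlocks c₁ γ 0 c₂).reindex e e)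
        j).submatrix e e = fromBlocks (Qs (1 : F) b₁ c₁ j) Z 0 (Qs (1 : F) b₂ c₂ j) := by
  induction j with
  | zero =>
    refine ⟨0, ?_⟩
    show (1 : Matrix (Fin r) (Fin r) F[X]).submatrix e e = fromBlocks 1 0 0 1
    rw [Matrix.submatrix_one_equiv, Matrix.fromBlocks_one]
  | succ j ih =>
    obtain ⟨Z, hZ⟩ := ih
    have hbm : (((fromBlocks b₁ β 0 b₂).reindex e e).map (fun x => (C x : F[X]))).submatrix e e =
        fromBlocks (b₁.map (fun x => C x)) (β.map (fun x => C x)) 0 (b₂.map (fun x => C x)) := by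
      ext1 x y
      rcases x with x | x <;> rcases y with y | y <;> simp
    have hcm : (((fromBlocks c₁ γ 0 c₂).reindex e e).map (fun x => (C x : F[X]))).submatrix e e =
        fromBlocks (c₁.map (fun x => C x)) (γ.map (fun x => C x)) 0 (c₂.map (fun x => C x)) := by
      ext1 x y
      rcases x with x | x <;> rcases y with y | y <;> simp
    have hder : ((Qs (1 : F) ((fromBlocks b₁ β 0 b₂).reindex e e)
        ((fromBlocks c₁ γ 0 c₂).reindex e e) j).map (fun f => derivative f)).submatrix e e =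
        fromBlocks ((Qs (1 : F) b₁ c₁ j).map (fun f => derivative f))
          (Z.map (fun f => derivative f)) 0 ((Qs (1 : F) b₂ c₂ j).map (fun f => derivative f)) := by
      have hs : ∀ M : Matrix (Fin r) (Fin r) F[X], (M.map (fun f => derivative f)).submatrix e e =
          (M.submatrix e e).map (fun f => derivative f) := fun _ => rfl
      rw [hs, hZ]
      ext1 x y
      rcases x with x | x <;> rcases y with y | y <;> simp
    refine ⟨(Polynomial.C (1 : F) * ((X : Polynomial F) * (X - 1))) •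
        Z.map (fun f => derivative f)
      - ((j : Polynomial F) * Polynomial.C (1 : F) * (2 * (X : Polynomial F) - 1)) • Z
      - ((((X : Polynomial F) - 1) • b₁.map (fun x => Polynomial.C x)
          + (X : Polynomial F) • c₁.map (fun x => Polynomial.C x)) * Z
        + (((X : Polynomial F) - 1) • β.map (fun x => Polynomial.C x)
          + (X : Polynomial F) • γ.map (fun x => Polynomial.C x)) * Qs (1 : F) b₂ c₂ j), ?_⟩
    have hstep : (Qs (1 : F) ((fromBlocks b₁ β 0 b₂).reindex e e)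
        ((fromBlocks c₁ γ 0 c₂).reindex e e) (j + 1)).submatrix e e =
        (Polynomial.C (1 : F) * ((X : Polynomial F) * (X - 1))) •
          fromBlocks ((Qs (1 : F) b₁ c₁ j).map (fun f => derivative f))
            (Z.map (fun f => derivative f)) 0 ((Qs (1 : F) b₂ c₂ j).map (fun f => derivative f))
        - ((j : Polynomial F) * Polynomial.C (1 : F) * (2 * (X : Polynomial F) - 1)) •
          fromBlocks (Qs (1 : F) b₁ c₁ j) Z 0 (Qs (1 : F) b₂ c₂ j)
        - (((X : Polynomial F) - 1) • fromBlocks (b₁.map (fun x => C x)) (β.map (fun x => C x)) 0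
            (b₂.map (fun x => C x))
          + (X : Polynomial F) • fromBlocks (c₁.map (fun x => C x)) (γ.map (fun x => C x)) 0
            (c₂.map (fun x => C x))) * fromBlocks (Qs (1 : F) b₁ c₁ j) Z 0 (Qs (1 : F) b₂ c₂ j) := by
      rw [← hder, ← hZ, ← hbm, ← hcm, ← step_add, ← step_sub]
      rfl
    rw [hstep]
    ext1 x y
    rcases x with x | x <;> rcases y with y | y
    · simp [Qs, Matrix.mul_apply, Fintype.sum_sum_type]
    · simp [Qs, Matrix.mul_apply, Fintype.sum_sum_type]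
    · simp [Qs, Matrix.mul_apply, Fintype.sum_sum_type]
    · simp [Qs, Matrix.mul_apply, Fintype.sum_sum_type]

end ItemO_QBlock

theorem prf_O_QBlock : O_QBlock := by
  intro F _ r k l e b c S b₁ c₁ b₂ c₂ β γ hS hb hc j hQ
  have h1 := ItemO_QBlock.conj b c S _ _ hb hc j
  rw [hQ, Matrix.zero_mul] at h1
  have h2 : Qs (1 : F) ((fromBlocks b₁ β 0 b₂).reindex e e) ((fromBlocks c₁ γ 0 c₂).reindex e e)
      j = 0 := by
    have h3 : (S⁻¹).map (fun x => (C x : F[X])) * S.map (fun x => C x) = 1 := by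
      rw [← ItemO_QBlock.map_C_mul, Matrix.nonsing_inv_mul S hS]
      ext1 i j
      rw [Matrix.map_apply, Matrix.one_apply, Matrix.one_apply]
      split_ifs <;> simp
    have h4 := congrArg (fun M => (S⁻¹).map (fun x => (C x : F[X])) * M) h1
    simp only [Matrix.mul_zero] at h4
    rw [← Matrix.mul_assoc, h3, Matrix.one_mul] at h4
    exact h4.symm
  obtain ⟨Z, hZ⟩ := ItemO_QBlock.blocks e b₁ c₁ b₂ c₂ β γ j
  rw [h2] at hZ
  constructor
  · ext1 x y
    have := congrFun (congrFun hZ (Sum.inl x)) (Sum.inl y)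
    simpa using this.symm
  · ext1 x y
    have := congrFun (congrFun hZ (Sum.inr x)) (Sum.inr y)
    simpa using this.symm

end Pool.Agent.MSU

end

section

open Matrix Polynomial
open Pool.Agent.Work.MP_5e5ff1_ag

namespace Pool.Agent.MSU

theorem prf_O_Red : O_Red := by
  classical
  intro A κ _ q ⟨J0, hJ0⟩
  have hinj : Function.Injective (algebraMap A ℂ) := Subtype.val_injective
  -- the finite set of all coefficients
  let S : Finset (κ × ℕ) := Finset.univ.biUnion fun J : κ =>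
    (q J).support.image fun n => (J, n)
  have hmem : ∀ J n, (q J).coeff n ≠ 0 → (J, n) ∈ S := by
    intro J n h
    refine Finset.mem_biUnion.2 ⟨J, Finset.mem_univ _, Finset.mem_image.2 ⟨n, ?_, rfl⟩⟩
    exact Polynomial.mem_support_iff.2 h
  have hS : S.Nonempty := by
    obtain ⟨n, hn⟩ : ∃ n, (q J0).coeff n ≠ 0 := by
      by_contra hcon
      push Not at hcon
      exact hJ0 (Polynomial.ext fun n => by simpa using hcon n)
    exact ⟨_, hmem J0 n hn⟩
  obtain ⟨⟨J1, n1⟩, h1, hmax⟩ := Finset.exists_max_image S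
    (fun x => A.valuation ((q x.1).coeff x.2)) hS
  have hc0 : (q J1).coeff n1 ≠ 0 := by
    obtain ⟨J, _, hJ⟩ := Finset.mem_biUnion.1 h1
    obtain ⟨n, hn, he⟩ := Finset.mem_image.1 hJ
    have e1 : J = J1 := congrArg Prod.fst he
    have e2 : n = n1 := congrArg Prod.snd he
    subst e1; subst e2
    exact Polynomial.mem_support_iff.1 hn
  set c0 : ℂ := (q J1).coeff n1 with hc0def
  have hval : A.valuation c0 ≠ 0 := (Valuation.ne_zero_iff _).2 hc0
  have hle : ∀ J n, A.valuation (c0⁻¹ * (q J).coeff n) ≤ 1 := by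
    intro J n
    by_cases h : (q J).coeff n = 0
    · rw [h, mul_zero, map_zero]
      exact zero_le_one
    · have h2 := hmax (J, n) (hmem J n h)
      rw [map_mul, map_inv₀]
      have h3 : (A.valuation c0)⁻¹ * A.valuation ((q J).coeff n)
          ≤ (A.valuation c0)⁻¹ * A.valuation c0 := mul_le_mul_right h2 _
      rwa [inv_mul_cancel₀ hval] at h3
  have hlift : ∀ J, ∃ Q : A[X], Q.map (algebraMap A ℂ) = C c0⁻¹ * q J := by
    intro J
    have : C c0⁻¹ * q J ∈ Polynomial.lifts (algebraMap A ℂ) := by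
      rw [Polynomial.lifts_iff_coeff_lifts]
      intro n
      rw [Polynomial.coeff_C_mul]
      exact ⟨⟨_, (A.valuation_le_one_iff _).1 (hle J n)⟩, rfl⟩
    exact (Polynomial.mem_lifts _).1 this
  choose Q hQ using hlift
  refine ⟨c0⁻¹, Q, inv_ne_zero hc0, hQ, J1, ?_⟩
  intro hzero
  have h5 : (Q J1).coeff n1 = 1 := by
    apply hinj
    have := congrArg (fun P : ℂ[X] => P.coeff n1) (hQ J1)
    simp only [Polynomial.coeff_map, Polynomial.coeff_C_mul] at this
    rw [this, map_one]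
    exact inv_mul_cancel₀ hc0
  have h6 := congrArg (fun P : (IsLocalRing.ResidueField A)[X] => P.coeff n1) hzero
  simp only [Polynomial.coeff_map, Polynomial.coeff_zero, h5, map_one] at h6
  exact one_ne_zero h6

end Pool.Agent.MSU

end

section

/-! Item O_Rel: the minors of a matrix satisfy the decomposability relations. -/

open Matrix Polynomial
open Pool.Agent.Work.MP_5e5ff1_ag
open Pool.Agent.Work.MP_5e5ff1_ag.T

namespace Pool.Agent.MSU

theorem prf_O_Rel : O_Rel := by
  classical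
  intro F _ r k W hk J0 J
  have h : (Matrix.of fun a b => (W.submatrix (Function.update J0 b (J a)) id).det)
      = (W.submatrix J id) * adjugate (W.submatrix J0 id) := by
    ext1 a b
    rw [Matrix.of_apply, ← mul_adjugate_minor W J0 (J a) b]
    rfl
  rw [h, det_mul, det_adjugate, Fintype.card_fin, mul_comm]

end Pool.Agent.MSU

end

section

/-! Item O_Scale: rescaling of the recursion. -/

open Matrix Polynomial
open Pool.Agent.Work.MP_5e5ff1_ag

namespace Pool.Agent.MSU

theorem prf_O_Scale : O_Scale := by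
  intro k _ r ν b c hν j
  induction j with
  | zero => simp [Qs]
  | succ j ih =>
    have hb : b.map (fun x => (C x : k[X])) = (C ν : k[X]) • ((ν⁻¹ • b).map (fun x => (C x : k[X]))) := by
      ext1 i l
      simp only [map_apply, Matrix.smul_apply, smul_eq_mul, ← C_mul]
      rw [← mul_assoc, mul_inv_cancel₀ hν, one_mul]
    have hc : c.map (fun x => (C x : k[X])) = (C ν : k[X]) • ((ν⁻¹ • c).map (fun x => (C x : k[X]))) := by
      ext1 i l
      simp only [map_apply, Matrix.smul_apply, smul_eq_mul, ← C_mul]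
      rw [← mul_assoc, mul_inv_cancel₀ hν, one_mul]
    have hd : (Qs ν b c j).map (fun f => derivative f)
        = (C ν ^ j : k[X]) • (Qs (1 : k) (ν⁻¹ • b) (ν⁻¹ • c) j).map (fun f => derivative f) := by
      rw [ih]
      ext1 i l
      simp only [map_apply, Matrix.smul_apply, smul_eq_mul, derivative_mul]
      rw [← C_pow, derivative_C, zero_mul, zero_add]
    simp only [Qs]
    rw [hd, ih, hb, hc]
    set Q := Qs (1 : k) (ν⁻¹ • b) (ν⁻¹ • c) j
    set B := (ν⁻¹ • b).map (fun x => (C x : k[X]))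
    set B' := (ν⁻¹ • c).map (fun x => (C x : k[X]))
    set Q' := Q.map (fun f => derivative f)
    have e1 : (C ν * (X * (X - 1)) : k[X]) • ((C ν ^ j : k[X]) • Q')
        = (C ν ^ (j + 1) : k[X]) • ((C 1 * (X * (X - 1)) : k[X]) • Q') := by
      rw [smul_smul, smul_smul]; congr 1; rw [C_1]; ring
    have e2 : ((j : k[X]) * C ν * (2 * X - 1)) • ((C ν ^ j : k[X]) • Q)
        = (C ν ^ (j + 1) : k[X]) • (((j : k[X]) * C 1 * (2 * X - 1)) • Q) := by
      rw [smul_smul, smul_smul]; congr 1; rw [C_1]; ring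
    have e3 : ((X - 1 : k[X]) • ((C ν : k[X]) • B) + (X : k[X]) • ((C ν : k[X]) • B'))
          * ((C ν ^ j : k[X]) • Q)
        = (C ν ^ (j + 1) : k[X]) • (((X - 1 : k[X]) • B + (X : k[X]) • B') * Q) := by
      have : ((X - 1 : k[X]) • ((C ν : k[X]) • B) + (X : k[X]) • ((C ν : k[X]) • B'))
          = (C ν : k[X]) • ((X - 1 : k[X]) • B + (X : k[X]) • B') := by
        rw [smul_add, smul_comm (X - 1 : k[X]), smul_comm (X : k[X])]
      rw [this, Matrix.smul_mul, Matrix.mul_smul, smul_smul]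
      congr 1
      ring
    rw [e1, e2, e3, smul_sub, smul_sub]

end Pool.Agent.MSU

end
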