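import Pool.Agent.Work.MP_5e5ff1_ag.Bd.B12

/-! Bundle of small proof modules (one section per former module). -/

section

/-! Item O_Stab: the Frobenius descent of an irreducible system is stable. -/

open Matrix Polynomial
open Pool.Agent.Work.MP_5e5ff1_ag

namespace Pool.Agent.MSU

namespace ItemO_Stab

theorem map_le_of_eq {F : Type} [Field F] {r k : ℕ} {b : Matrix (Fin r) (Fin r) F}
    {Om : Matrix (Fin r) (Fin k) F} {N : Matrix (Fin k) (Fin k) F} (h : b * Om = Om * N) :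
    (LinearMap.range Om.mulVecLin).map b.mulVecLin ≤ LinearMap.range Om.mulVecLin := by
  rintro _ ⟨_, ⟨v, rfl⟩, rfl⟩
  refine ⟨N.mulVec v, ?_⟩
  simp only [Matrix.mulVecLin_apply, Matrix.mulVec_mulVec]
  rw [h]

theorem injective_of_submatrix {F : Type} [Field F] {r k : ℕ}
    {Om : Matrix (Fin r) (Fin k) F} {J0 : Fin k → Fin r} (h : Om.submatrix J0 id = 1) :
    Function.Injective Om.mulVecLin := by
  intro v w hvw
  simp only [Matrix.mulVecLin_apply] at hvw
  have h1 : ∀ u : Fin k → F, (Om.submatrix J0 id).mulVec u = (Om.mulVec u) ∘ J0 := by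
    intro u
    rfl
  have h2 := h1 v
  have h3 := h1 w
  rw [h, Matrix.one_mulVec] at h2 h3
  rw [h2, h3, hvw]

end ItemO_Stab

open ItemO_Stab in
theorem prf_O_Stab (hO : O_Ord) (hC : O_Const) (hI : O_Inv) : O_Stab := by
  intro p F _ _ r hp b c G h₀ h₁ m₀ m₁ d hHor hT hsum hirr
  refine ⟨?_, ?_⟩
  · rw [Fintype.sum_prod_type, Fin.sum_univ_three]
    unfold wp
    simp only [Matrix.cons_val_zero, Matrix.cons_val_one, Matrix.cons_val]
    rw [← Finset.sum_div, ← Finset.sum_div, ← Finset.sum_div, ← add_div, ← add_div]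
    have h1 : (∑ j, (d j : ℝ)) = ∑ j, (m₀ j : ℝ) + ∑ j, (m₁ j : ℝ) := by exact_mod_cast hsum
    rw [Finset.sum_neg_distrib, h1]
    simp
  · intro k hk hkr W hW
    rw [Fintype.card_fin] at hkr
    obtain ⟨hle, heq⟩ := hO p F r k hp hk G h₀ h₁ m₀ m₁ d W hT hW
    rcases lt_or_eq_of_le hle with hlt | h0
    · exact hlt
    exfalso
    obtain ⟨φ, e, hφ, he, hJ⟩ := heq h0
    obtain ⟨Om, J0, hOm, hZ, hdet⟩ := hC F r k (G * W.map (expand F p)) φ e hφ he hJ
    obtain ⟨N₀, N₁, hN₀, hN₁⟩ := hI p F r k b c G W Om J0 hHor hZ hdet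
    have hinj := injective_of_submatrix hOm
    have hfin : Module.finrank F (LinearMap.range Om.mulVecLin) = k := by
      rw [LinearMap.finrank_range_of_inj hinj, Module.finrank_fin_fun]
    rcases hirr (LinearMap.range Om.mulVecLin) (map_le_of_eq hN₀) (map_le_of_eq hN₁) with h | h
    · rw [h, finrank_bot] at hfin
      omega
    · rw [h, finrank_top, Module.finrank_fin_fun] at hfin
      omega

end Pool.Agent.MSU

end

section

/-! Direct sums of unitary triples. -/

open Matrix Polynomial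
open Pool.Agent.Work.MP_5e5ff1_ag

namespace Pool.Agent.MSU

namespace ItemO_Sum

/-- characteristic polynomial of a matrix which is block triangular after conjugation -/
theorem charpoly_block {F : Type} [Field F] {r k l : ℕ} (e : Fin k ⊕ Fin l ≃ Fin r)
    (b S : Matrix (Fin r) (Fin r) F) (b₁ : Matrix (Fin k) (Fin k) F)
    (b₂ : Matrix (Fin l) (Fin l) F) (β : Matrix (Fin k) (Fin l) F) (hS : IsUnit S.det)
    (h : b * S = S * (fromBlocks b₁ β 0 b₂).reindex e e) :
    b.charpoly = b₁.charpoly * b₂.charpoly := by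
  have hSu : IsUnit S := (Matrix.isUnit_iff_isUnit_det S).2 hS
  obtain ⟨u, hu⟩ := hSu
  have hb : b = u.val * (fromBlocks b₁ β 0 b₂).reindex e e * u⁻¹.val := by
    rw [hu, ← h, ← hu, Matrix.mul_assoc]
    have : (u : Matrix (Fin r) (Fin r) F) * (u⁻¹ : (Matrix (Fin r) (Fin r) F)ˣ) = 1 := by
      simp
    rw [this, Matrix.mul_one]
  rw [hb, Matrix.coe_units_inv, Matrix.charpoly_units_conj, Matrix.charpoly_reindex,
    Matrix.charpoly_fromBlocks_zero₂₁]

/-- a product over the reindexed sum -/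
theorem prod_sum {R : Type} [CommMonoid R] {r k l : ℕ} (e : Fin k ⊕ Fin l ≃ Fin r)
    (f : Fin k ⊕ Fin l → R) :
    ∏ j, f (e.symm j) = (∏ j, f (Sum.inl j)) * ∏ j, f (Sum.inr j) := by
  rw [Equiv.prod_comp e.symm f, Fintype.prod_sum_type]

/-- the direct sum of two square matrices -/
noncomputable def ds {r k l : ℕ} (e : Fin k ⊕ Fin l ≃ Fin r) (A : Matrix (Fin k) (Fin k) ℂ)
    (B : Matrix (Fin l) (Fin l) ℂ) : Matrix (Fin r) (Fin r) ℂ :=
  (fromBlocks A 0 0 B).submatrix e.symm e.symm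

theorem ds_mul {r k l : ℕ} (e : Fin k ⊕ Fin l ≃ Fin r) (A A' : Matrix (Fin k) (Fin k) ℂ)
    (B B' : Matrix (Fin l) (Fin l) ℂ) : ds e A B * ds e A' B' = ds e (A * A') (B * B') := by
  unfold ds
  rw [Matrix.submatrix_mul_equiv, Matrix.fromBlocks_multiply]
  simp

theorem ds_conj {r k l : ℕ} (e : Fin k ⊕ Fin l ≃ Fin r) (A : Matrix (Fin k) (Fin k) ℂ)
    (B : Matrix (Fin l) (Fin l) ℂ) : (ds e A B)ᴴ = ds e Aᴴ Bᴴ := by
  unfold ds
  rw [Matrix.conjTranspose_submatrix, Matrix.fromBlocks_conjTranspose]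
  simp

theorem ds_one {r k l : ℕ} (e : Fin k ⊕ Fin l ≃ Fin r) :
    ds e (1 : Matrix (Fin k) (Fin k) ℂ) (1 : Matrix (Fin l) (Fin l) ℂ) = 1 := by
  unfold ds
  rw [Matrix.fromBlocks_one]
  exact Matrix.submatrix_one_equiv e.symm

theorem ds_charpoly {r k l : ℕ} (e : Fin k ⊕ Fin l ≃ Fin r) (A : Matrix (Fin k) (Fin k) ℂ)
    (B : Matrix (Fin l) (Fin l) ℂ) : (ds e A B).charpoly = A.charpoly * B.charpoly := by
  have : ds e A B = (fromBlocks A 0 0 B).reindex e e := rfl
  rw [this, Matrix.charpoly_reindex, Matrix.charpoly_fromBlocks_zero₂₁]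

end ItemO_Sum

open ItemO_Sum in
theorem prf_O_Sum : O_Sum := by
  intro F _ p r k l e b c S b₁ c₁ b₂ c₂ β γ m₁ m₂ M₁ M₂ hS hb hc h₁ h₂
  obtain ⟨lt1, hb1, hc1, hd1, hu1, hm1, he1⟩ := h₁
  obtain ⟨lt2, hb2, hc2, hd2, hu2, hm2, he2⟩ := h₂
  have hd : (-(b + c)) * S
      = S * (fromBlocks (-(b₁ + c₁)) (-(β + γ)) 0 (-(b₂ + c₂))).reindex e e := by
    have : (fromBlocks (-(b₁ + c₁)) (-(β + γ)) 0 (-(b₂ + c₂))).reindex e e
        = -((fromBlocks b₁ β 0 b₂).reindex e e + (fromBlocks c₁ γ 0 c₂).reindex e e) := by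
      simp only [Matrix.reindex_apply]
      ext i j
      simp only [Matrix.submatrix_apply, Matrix.neg_apply, Matrix.add_apply]
      rcases e.symm i with i' | i' <;> rcases e.symm j with j' | j' <;> simp
    rw [this, Matrix.mul_neg, Matrix.mul_add, ← hb, ← hc, Matrix.neg_mul, Matrix.add_mul]
  refine ⟨fun x i => Sum.elim (m₁ x) (m₂ x) (e.symm i), fun x => ds e (M₁ x) (M₂ x), ?_, ?_, ?_,
    ?_, ?_, ?_, ?_⟩
  · intro x j
    rcases h : e.symm j with i | i
    · simpa [h] using lt1 x i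
    · simpa [h] using lt2 x i
  · rw [charpoly_block e b S b₁ b₂ β hS hb, hb1, hb2,
      prod_sum e (fun s => (X - C ((Sum.elim (m₁ 0) (m₂ 0) s : ℕ) : F)))]
    simp
  · rw [charpoly_block e c S c₁ c₂ γ hS hc, hc1, hc2,
      prod_sum e (fun s => (X - C ((Sum.elim (m₁ 1) (m₂ 1) s : ℕ) : F)))]
    simp
  · rw [charpoly_block e (-(b + c)) S _ _ _ hS hd, hd1, hd2,
      prod_sum e (fun s => (X - C ((Sum.elim (m₁ 2) (m₂ 2) s : ℕ) : F)))]
    simp
  · intro x
    rw [ds_conj, ds_mul, hu1 x, hu2 x, ds_one]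
  · rw [ds_mul, ds_mul, hm1, hm2, ds_one]
  · intro x
    rw [ds_charpoly, he1 x, he2 x,
      prod_sum e (fun s => (X - C (Complex.exp (2 * Real.pi * Complex.I *
        (((Sum.elim (m₁ x) (m₂ x) s : ℕ) : ℂ) / (p : ℂ))))))]
    simp

end Pool.Agent.MSU

end

section

/-! Item O_Val: a valuation ring of the complex numbers of residue characteristic `p`. -/

open Matrix Polynomial
open Pool.Agent.Work.MP_5e5ff1_ag

namespace Pool.Agent.MSU

namespace ItemO_Val

/-- the residue field of a valuation subring of an algebraically closed field is algebraically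
closed -/
theorem residue_closed (A : ValuationSubring ℂ) : IsAlgClosed (IsLocalRing.ResidueField A) := by
  apply IsAlgClosed.of_exists_root
  intro f hf hirr
  have hlift : f ∈ lifts (IsLocalRing.residue A) :=
    Polynomial.mem_lifts_of_surjective (IsLocalRing.residue_surjective) f
  obtain ⟨g, hg1, hg2, hg3⟩ := lifts_and_natDegree_eq_and_monic hlift hf
  have hdeg : f.degree ≠ 0 := (Polynomial.degree_pos_of_irreducible hirr).ne'
  have hgdeg : (g.map (algebraMap A ℂ)).degree ≠ 0 := by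
    rw [hg3.degree_map, Polynomial.degree_eq_natDegree hg3.ne_zero, hg2,
      ← Polynomial.degree_eq_natDegree hf.ne_zero]
    exact hdeg
  obtain ⟨z, hz⟩ := IsAlgClosed.exists_root (g.map (algebraMap A ℂ)) hgdeg
  have hint : IsIntegral A z := by
    refine ⟨g, hg3, ?_⟩
    rw [Polynomial.IsRoot.def, Polynomial.eval_map] at hz
    exact hz
  obtain ⟨a, ha⟩ := (IsIntegrallyClosed.isIntegral_iff (R := A) (K := ℂ)).mp hint
  have hroot : g.eval a = 0 := by
    have h1 : algebraMap A ℂ (g.eval a) = 0 := by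
      rw [Polynomial.IsRoot.def, Polynomial.eval_map, ← ha] at hz
      rw [← Polynomial.eval₂_at_apply]
      exact hz
    exact (map_eq_zero_iff _ (FaithfulSMul.algebraMap_injective A ℂ)).mp h1
  refine ⟨IsLocalRing.residue A a, ?_⟩
  rw [← hg1, Polynomial.eval_map, Polynomial.eval₂_at_apply, hroot, map_zero]

end ItemO_Val

open ItemO_Val in
theorem prf_O_Val : O_Val := by
  intro p hp
  have hmem : ((p : ℤ) : ℂ) ∈ (Int.castRingHom ℂ).range := ⟨(p : ℤ), rfl⟩
  have hI : Ideal.span {(⟨((p : ℤ) : ℂ), hmem⟩ : (Int.castRingHom ℂ).range)} ≠ ⊤ := by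
    intro htop
    rw [Ideal.eq_top_iff_one, Ideal.mem_span_singleton] at htop
    obtain ⟨⟨_, n, rfl⟩, hn⟩ := htop
    have h1 : (1 : ℂ) = ((p : ℤ) : ℂ) * (n : ℂ) := by
      have := congrArg Subtype.val hn
      simpa using this
    have h2 : (1 : ℤ) = (p : ℤ) * n := by exact_mod_cast h1
    have h3 : (p : ℤ) ∣ 1 := ⟨n, h2⟩
    have h4 : p ∣ 1 := by exact_mod_cast h3
    exact hp.one_lt.ne' (Nat.dvd_one.mp h4)
  obtain ⟨B, hB1, hB2⟩ := Ideal.image_subset_nonunits_valuationSubring _ hI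
  refine ⟨B, ?_, residue_closed B⟩
  have h5 : ((p : ℤ) : ℂ) ∈ B.nonunits :=
    hB2 ⟨⟨((p : ℤ) : ℂ), hmem⟩, Ideal.subset_span rfl, rfl⟩
  rw [IsLocalRing.mem_maximalIdeal, mem_nonunits_iff]
  intro hu
  rw [ValuationSubring.mem_nonunits_iff] at h5
  have h6 := (ValuationSubring.valuation_eq_one_iff B (p : B)).mp hu
  have h7 : (((p : B) : B) : ℂ) = ((p : ℤ) : ℂ) := by
    push_cast
    rfl
  rw [h7] at h6
  exact h5.ne h6

end Pool.Agent.MSU

end
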