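import Mathlib
import Pool.Agent.Work.MP_5e5ff1_ag.Unit.Stmts
import Pool.Agent.Work.MP_5e5ff1_ag.Bd.B01
import Pool.Agent.Work.MP_5e5ff1_ag.Unit.Defs
import Pool.Agent.Work.MP_5e5ff1_ag.Unit.Geo
import Pool.Agent.Work.MP_5e5ff1_ag.Bd.B04
import Pool.Agent.Work.MP_5e5ff1_ag.T.Minors
import Pool.Agent.Work.MP_5e5ff1_ag.Bd.B06

/-! Bundle of small proof modules (one section per former module). -/

section

/-! Continuity method. -/

open Matrix Polynomial Filter Topology Set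
open scoped ComplexConjugate ComplexOrder

namespace Pool.Agent.MSU

lemma TPath_win {r : ℕ} {w : Fin 3 → Fin r → ℝ} (hw : Win w) {t : ℝ} (h0 : 0 < t) (h1 : t ≤ 1) :
    Win (fun y i => t * w y i) := by
  refine ⟨fun x i j hij => mul_lt_mul_of_pos_left (hw.1 x hij) h0, fun x i j => ?_⟩
  have h2 := hw.2 x i j
  rw [← mul_sub]
  rcases le_or_gt (w x j - w x i) 0 with h | h
  · have : t * (w x j - w x i) ≤ 0 := mul_nonpos_of_nonneg_of_nonpos h0.le h
    linarith
  · nlinarith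

theorem prf_T_Path (hSl : P_Slope) (hMin : P_Min) (hCr : P_Crit) (hSt : P_Start) (hO : E_Open)
    (hD : E_Dec) (hE : E_Enc) (hK : K_Closed) (hSc : T_Scale) : T_Path := by
  intro r γ w hr hγ hw hsum hst
  set S : Set ℝ := {t | ∃ x, IsS γ w t x} with hS
  have h0 : (0 : ℝ) ∈ S := by
    obtain ⟨h, hh, hmin⟩ := hMin r γ w hr hγ hw.1 hsum (hSl r γ w hγ hw.1 hsum hst)
    exact hSt r γ w hr hγ hw.1 hsum ⟨h, hh, hCr r γ w h hγ hh hmin⟩
  have hclosed : IsClosed (S ∩ Icc 0 1) := by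
    rw [← isSeqClosed_iff_isClosed]
    intro tn t htn hlim
    have ht : t ∈ Icc (0 : ℝ) 1 := isClosed_Icc.isSeqClosed (fun n => (htn n).2) hlim
    refine ⟨?_, ht⟩
    rcases eq_or_lt_of_le ht.1 with hz | hpos
    · rw [← hz]; exact h0
    · have hev : ∀ᶠ n in atTop, 0 < tn n := hlim.eventually (lt_mem_nhds hpos)
      obtain ⟨n0, hn0⟩ := Filter.eventually_atTop.mp hev
      choose x hx using fun n => (htn (n + n0)).1
      have hpn : ∀ n, 0 < tn (n + n0) := fun n => hn0 _ (Nat.le_add_left _ _)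
      have h1n : ∀ n, tn (n + n0) ≤ 1 := fun n => (htn (n + n0)).2.2
      have hlim' : Tendsto (fun n => tn (n + n0)) atTop (𝓝 t) := (tendsto_add_atTop_iff_nat n0).mpr hlim
      have hsum' : ∑ y, ∑ i, t * w y i = 0 := by
        simp only [← Finset.mul_sum]
        rw [hsum, mul_zero]
      obtain ⟨B, H, Hm, h1, h2, h3⟩ := hK r γ (fun y i => t * w y i)
        (fun n y i => tn (n + n0) * w y i) _ _ _ hr hγ hsum'
        (hSc r γ w hγ hw hst t hpos ht.2) (fun n => TPath_win hw (hpn n) (h1n n))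
        (fun y i => hlim'.mul_const _) (fun n => hD r γ w _ (x n) hr hγ hsum (hpn n) (hx n))
      exact hE r γ w t B H Hm hr hγ hpos h1 h2 h3
  have hopen : ∀ t ∈ S ∩ Ico 0 1, ∀ y ∈ Ioi t, (S ∩ Ioc t y).Nonempty := by
    intro t ht y hy
    obtain ⟨δ, hδ, h⟩ := hO r γ w t hr hγ hw hsum hst ht.2.1 ht.2.2.le ht.1
    have hmin : 0 < min (δ / 2) (y - t) := lt_min (by linarith) (sub_pos.mpr hy)
    refine ⟨t + min (δ / 2) (y - t), ?_, ?_, ?_⟩
    · apply h
      rw [add_sub_cancel_left, abs_of_pos hmin]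
      have := min_le_left (δ / 2) (y - t)
      linarith
    · linarith
    · have := min_le_right (δ / 2) (y - t)
      linarith
  have key : Icc (0 : ℝ) 1 ⊆ S := by
    apply IsClosed.Icc_subset_of_forall_exists_gt hclosed h0
    intro t ht y hy
    exact hopen t ht y hy
  exact key ⟨zero_le_one, le_rfl⟩

end Pool.Agent.MSU

end

section

/-! Item T_Scale: stability for the weights `t w`, `0 < t ≤ 1`. -/

open Matrix Polynomial Filter Topology
open Pool.Agent.Work.MP_5e5ff1_ag.T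

namespace Pool.Agent.MSU.ItemTScale

lemma map_C_eval {r : ℕ} (g : Matrix (Fin r) (Fin r) ℂ) (a : ℂ) :
    (g.map (C : ℂ → ℂ[X])).map (eval a) = g := by
  ext i j; simp

lemma exists_eval_ne {r k : ℕ} {g : Matrix (Fin r) (Fin r) ℂ} (hg : IsUnit g.det)
    {W : Matrix (Fin r) (Fin k) ℂ[X]} (h : IsSub W) (a : ℂ) :
    ∃ J : Fin k → Fin r, (mn g W J).eval a ≠ 0 := by
  have h1 : FullRank (g * W.map (eval a)) := fullRank_mul hg.ne_zero (h.fullRank_eval a)
  obtain ⟨J, hJ⟩ := h1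
  refine ⟨J, ?_⟩
  unfold mn
  rw [eval_det_submatrix, map_eval_mul, map_C_eval]
  exact hJ

end Pool.Agent.MSU.ItemTScale

namespace Pool.Agent.MSU

open ItemTScale

theorem prf_T_Scale (hLoc : T_Loc) (hInf : T_LocInf) : T_Scale := by
  classical
  intro r γ w hγ hw hst t ht ht1 k hk hkr W hW
  obtain ⟨J, hJ, hpos⟩ := hst k hk hkr W hW
  obtain ⟨J0, hJ0, hJ0s⟩ := hLoc r k ((γ 0).map C * W) 1 (fun J => mn (γ 0) W J) 0 (w 0) hk
    one_ne_zero (fun J => by rw [one_mul]; rfl) (fun i j => hw.2 0 i j)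
    (exists_eval_ne (hγ 0) hW 0) (J 0) (hJ 0)
  obtain ⟨J1, hJ1, hJ1s⟩ := hLoc r k ((γ 1).map C * W) 1 (fun J => mn (γ 1) W J) 1 (w 1) hk
    one_ne_zero (fun J => by rw [one_mul]; rfl) (fun i j => hw.2 1 i j)
    (exists_eval_ne (hγ 1) hW 1) (J 1) (hJ 1)
  -- maximal degree at infinity
  obtain ⟨Jm, hJm, hmax⟩ := Finset.exists_max_image
    (Finset.univ.filter fun J : Fin k → Fin r => mn (γ 2) W J ≠ 0)
    (fun J => (mn (γ 2) W J).natDegree) ⟨J 2, by simpa using hJ 2⟩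
  have hJm' : mn (γ 2) W Jm ≠ 0 := by simpa using hJm
  set m := (mn (γ 2) W Jm).natDegree with hm
  have hle : ∀ J : Fin k → Fin r, (mn (γ 2) W J).natDegree ≤ m := by
    intro J
    by_cases h0 : mn (γ 2) W J = 0
    · rw [h0]; simp
    · exact hmax J (by simpa using h0)
  have hcm : (mn (γ 2) W Jm).coeff m ≠ 0 := by
    rw [hm, coeff_natDegree]
    exact leadingCoeff_ne_zero.2 hJm'
  obtain ⟨J2, hJ2, hJ2s⟩ := hInf r k ((γ 2).map C * W) m (w 2) hk (fun i j => hw.2 2 i j)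
    hle ⟨Jm, hcm⟩ (J 2) (hJ 2)
  have hJ2' : (mn (γ 2) W J2).coeff m ≠ 0 := hJ2
  have hJ2s' : ∑ b, w 2 (J 2 b) + ((mn (γ 2) W (J 2)).natDegree : ℝ) ≤ ∑ b, w 2 (J2 b) + m := hJ2s
  have hdeg : (mn (γ 2) W J2).natDegree = m :=
    le_antisymm (hle J2) (le_natDegree_of_ne_zero hJ2')
  have hJ0' : (mn (γ 0) W J0).eval 0 ≠ 0 := hJ0
  have hJ1' : (mn (γ 1) W J1).eval 1 ≠ 0 := hJ1
  have hr0 : (mn (γ 0) W J0).rootMultiplicity 0 = 0 := rootMultiplicity_eq_zero hJ0'
  have hr1 : (mn (γ 1) W J1).rootMultiplicity 1 = 0 := rootMultiplicity_eq_zero hJ1'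
  refine ⟨![J0, J1, J2], ?_, ?_⟩
  · intro x
    fin_cases x
    · show mn (γ 0) W J0 ≠ 0
      intro h; rw [h] at hJ0'; simp at hJ0'
    · show mn (γ 1) W J1 ≠ 0
      intro h; rw [h] at hJ1'; simp at hJ1'
    · show mn (γ 2) W J2 ≠ 0
      intro h; rw [h] at hJ2'; simp at hJ2'
  · rw [Fin.sum_univ_three] at hpos ⊢
    show 0 < (∑ a, t * w 0 (J0 a) + ∑ a, t * w 1 (J1 a) + ∑ a, t * w 2 (J2 a))
      - ((mn (γ 0) W J0).rootMultiplicity 0 : ℝ) - ((mn (γ 1) W J1).rootMultiplicity 1 : ℝ)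
      + ((mn (γ 2) W J2).natDegree : ℝ)
    rw [hr0, hr1, hdeg, ← Finset.mul_sum, ← Finset.mul_sum, ← Finset.mul_sum]
    set S0 := ∑ a, w 0 (J0 a)
    set S1 := ∑ a, w 1 (J1 a)
    set S2 := ∑ a, w 2 (J2 a)
    have hkey : 0 < S0 + S1 + S2 + m := by
      have h1 : ∑ b, w 0 (J 0 b) - ((mn (γ 0) W (J 0)).rootMultiplicity 0 : ℝ) ≤ S0 := hJ0s
      have h2 : ∑ b, w 1 (J 1 b) - ((mn (γ 1) W (J 1)).rootMultiplicity 1 : ℝ) ≤ S1 := hJ1s
      linarith
    have hm0 : (0 : ℝ) ≤ m := Nat.cast_nonneg m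
    have h3 : 0 < t * (S0 + S1 + S2 + m) := mul_pos ht hkey
    push_cast
    nlinarith
end Pool.Agent.MSU

end

section

/-! Item T_Sol: from a unitary Fuchsian system to the unitary solution. -/

open Matrix Polynomial Filter Topology
open scoped MatrixOrder ComplexOrder

namespace Pool.Agent.MSU.ItemTSol

lemma exists_frame {r : ℕ} {H : Matrix (Fin r) (Fin r) ℂ} (hH : H.PosDef) :
    ∃ E : Matrix (Fin r) (Fin r) ℂ, IsUnit E.det ∧ Eᴴ * H * E = 1 := by
  obtain ⟨B, hB⟩ := CStarAlgebra.nonneg_iff_eq_star_mul_self.mp hH.posSemidef.nonneg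
  have hdet : IsUnit H.det := (Matrix.isUnit_iff_isUnit_det H).1 hH.isUnit
  have hBd : IsUnit B.det := by
    rw [hB, det_mul] at hdet
    exact isUnit_of_mul_isUnit_right hdet
  refine ⟨B⁻¹, ?_, ?_⟩
  · rw [Matrix.isUnit_nonsing_inv_det_iff]; exact hBd
  · rw [hB, Matrix.star_eq_conjTranspose]
    have h1 : B * B⁻¹ = 1 := mul_nonsing_inv B hBd
    have h2 : (B⁻¹)ᴴ * Bᴴ = 1 := by rw [← conjTranspose_mul, h1, conjTranspose_one]
    calc (B⁻¹)ᴴ * (Bᴴ * B) * B⁻¹ = ((B⁻¹)ᴴ * Bᴴ) * (B * B⁻¹) := by simp only [Matrix.mul_assoc]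
      _ = 1 := by rw [h1, h2, Matrix.one_mul]

lemma charpoly_conj {r : ℕ} {T φ D : Matrix (Fin r) (Fin r) ℂ} (hφ : IsUnit φ.det)
    (h : D * φ = φ * T) : T.charpoly = D.charpoly := by
  have h1 : T = φ⁻¹ * (D * φ) := by
    rw [h, ← Matrix.mul_assoc, nonsing_inv_mul _ hφ, Matrix.one_mul]
  rw [h1, charpoly_mul_comm, Matrix.mul_assoc, mul_nonsing_inv _ hφ, Matrix.mul_one]

end Pool.Agent.MSU.ItemTSol

namespace Pool.Agent.MSU

open ItemTSol

theorem prf_T_Sol (hSol : S_Sol) (hInv : S_Inv) (hGlue : S_Glue) (hNF : L_NF) (hMon : L_Mon)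
    (hDiag : L_Diag) (hRow : L_Row) : T_Sol := by
  intro r γ w B H Hm hγ hw hLD hUN
  obtain ⟨hH, hHm, hP⟩ := hUN
  obtain ⟨E, hE, hEH⟩ := exists_frame hH
  have hPd : ∀ j, IsUnit (PP B j).det := fun j => hInv (Fin r) B j _ (negI_mem j)
  have hEinv : E * E⁻¹ = 1 := mul_nonsing_inv E hE
  have hEinv' : E⁻¹ * E = 1 := nonsing_inv_mul E hE
  have hEi : (E⁻¹)ᴴ * E⁻¹ = H := by
    have h1 : (E⁻¹)ᴴ * (Eᴴ * H * E) * E⁻¹ = (E⁻¹)ᴴ * E⁻¹ := by rw [hEH, Matrix.mul_one]
    have h2 : (E⁻¹)ᴴ * Eᴴ = 1 := by rw [← conjTranspose_mul, hEinv, conjTranspose_one]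
    rw [← h1]
    calc (E⁻¹)ᴴ * (Eᴴ * H * E) * E⁻¹ = ((E⁻¹)ᴴ * Eᴴ) * H * (E * E⁻¹) := by
          simp only [Matrix.mul_assoc]
      _ = H := by rw [h2, hEinv, Matrix.one_mul, Matrix.mul_one]
  -- the local monodromies
  set T : Fin 3 → Matrix (Fin r) (Fin r) ℂ := fun x => (PP B x)⁻¹ * PP B (x + 1) with hT
  have hTH : ∀ x, (T x)ᴴ * H * T x = H := by
    intro x
    have h1 := hP x
    have h2 := hP (x + 1)
    have h3 : ((PP B x)⁻¹)ᴴ * H * (PP B x)⁻¹ = Hm := by
      rw [← h1]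
      have e1 : ((PP B x)⁻¹)ᴴ * (PP B x)ᴴ = 1 := by
        rw [← conjTranspose_mul, mul_nonsing_inv _ (hPd x), conjTranspose_one]
      calc ((PP B x)⁻¹)ᴴ * ((PP B x)ᴴ * Hm * PP B x) * (PP B x)⁻¹
          = (((PP B x)⁻¹)ᴴ * (PP B x)ᴴ) * Hm * (PP B x * (PP B x)⁻¹) := by
            simp only [Matrix.mul_assoc]
        _ = Hm := by rw [e1, mul_nonsing_inv _ (hPd x), Matrix.one_mul, Matrix.mul_one]
    calc (T x)ᴴ * H * T x
        = (PP B (x + 1))ᴴ * (((PP B x)⁻¹)ᴴ * H * (PP B x)⁻¹) * PP B (x + 1) := by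
          simp only [hT, conjTranspose_mul, Matrix.mul_assoc]
      _ = H := by rw [h3, h2]
  set Q : Fin 3 → Matrix (Fin r) (Fin r) ℂ := fun x => E⁻¹ * T x * E with hQ
  have hQu : ∀ j, (Q j)ᴴ * Q j = 1 := by
    intro j
    calc (Q j)ᴴ * Q j = Eᴴ * ((T j)ᴴ * ((E⁻¹)ᴴ * E⁻¹) * T j) * E := by
          simp only [hQ, conjTranspose_mul, Matrix.mul_assoc]
      _ = 1 := by rw [hEi, hTH, hEH]
  refine ⟨fun j z => YY B j z * E, Q, ?_, hRow r r γ w B hγ hw hLD E, ?_, ?_⟩
  · refine ⟨?_, ?_, ?_, hQu⟩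
    · intro j a b
      have : (fun z => (YY B j z * E) a b) = fun z => ∑ c, YY B j z a c * E c b := by
        funext z; rw [Matrix.mul_apply]
      rw [this]
      apply DifferentiableOn.fun_sum
      intro c _
      apply DifferentiableOn.mul_const
      intro z hz
      exact ((hSol (Fin r) B j).2 z hz a c).differentiableAt.differentiableWithinAt
    · intro j j' z hz
      show YY B j z * E = YY B j' z * E
      rw [(hGlue (Fin r) B j j').1 z hz]
    · intro j z hz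
      show YY B (j + 1) z * E = YY B j z * E * Q j
      rw [(hGlue (Fin r) B j (j + 1)).2 z hz]
      simp only [hQ, hT]
      calc YY B j z * ((PP B j)⁻¹ * PP B (j + 1)) * E
          = YY B j z * 1 * ((PP B j)⁻¹ * PP B (j + 1)) * E := by rw [Matrix.mul_one]
        _ = YY B j z * (E * E⁻¹) * ((PP B j)⁻¹ * PP B (j + 1)) * E := by rw [hEinv]
        _ = YY B j z * E * (E⁻¹ * ((PP B j)⁻¹ * PP B (j + 1)) * E) := by
            simp only [Matrix.mul_assoc]
  · intro j z hz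
    show IsUnit (YY B j z * E).det
    rw [det_mul]
    exact (hInv (Fin r) B j z hz).mul hE
  · intro x
    obtain ⟨φ, hφ⟩ := hNF r γ w B hγ hw hLD x
    have hmon : diagonal (fun i => Complex.exp (-(2 * Real.pi * Complex.I * Rs γ B x i i))) * φ
        = φ * T x := hMon r γ B x φ hγ hφ
    have hre : ∀ a, (Rs γ B x a a).re = w x a := (hLD.2 x).2
    obtain ⟨hD, -⟩ := hDiag r H (T x) φ (fun i => Rs γ B x i i) hH (hTH x) hφ.1 hmon (by
      intro i j hij
      simp only [hre]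
      have hmono := hw.1 x
      refine ⟨fun h => hij (hmono.injective h), ?_⟩
      have h1 := hw.2 x i j
      have h2 := hw.2 x j i
      rw [abs_lt]
      constructor <;> linarith)
    have hDr : ∀ i, Rs γ B x i i = (w x i : ℂ) := by
      intro i
      apply Complex.ext
      · rw [hre]; simp
      · rw [hD]; simp
    have hQc : (Q x).charpoly = (T x).charpoly := by
      refine charpoly_conj (φ := E) hE ?_
      have e3 : E * (E⁻¹ * T x * E) = (E * E⁻¹) * T x * E := by simp only [Matrix.mul_assoc]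
      show T x * E = E * (E⁻¹ * T x * E)
      rw [e3, hEinv, Matrix.one_mul]
    rw [hQc, charpoly_conj hφ.1 hmon, charpoly_diagonal]
    refine Finset.prod_congr rfl fun i _ => ?_
    rw [hDr]

end Pool.Agent.MSU

end

section

/-! Transfer of the unitary solution by the change of basis. -/

open Matrix Polynomial Complex

namespace Pool.Agent.MSU

namespace ItemNBack

/-- the matrix with the block `[[a, b], [c, d]]` in the plane `(i, j)` -/
noncomputable def pl {r : ℕ} (i j : Fin r) (a b c d : ℂ) : Matrix (Fin r) (Fin r) ℂ :=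
  1 + (a - 1) • Matrix.single i i (1 : ℂ) + b • Matrix.single i j (1 : ℂ)
    + c • Matrix.single j i (1 : ℂ) + (d - 1) • Matrix.single j j (1 : ℂ)

lemma single_mul {r : ℕ} {m : Type} (i j x : Fin r) (y : m) (M : Matrix (Fin r) m ℂ) :
    (Matrix.single i j (1 : ℂ) * M) x y = if x = i then M j y else 0 := by
  by_cases h : x = i
  · subst h
    simp
  · rw [if_neg h, Matrix.single_mul_apply_of_ne _ _ _ _ _ h]

lemma pl_mul {r : ℕ} {m : Type} {i j : Fin r} (hij : i ≠ j) (a b c d : ℂ)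
    (M : Matrix (Fin r) m ℂ) (x : Fin r) (y : m) :
    (pl i j a b c d * M) x y = if x = i then a * M i y + b * M j y else
      if x = j then c * M i y + d * M j y else M x y := by
  unfold pl
  simp only [Matrix.add_mul, Matrix.smul_mul, Matrix.add_apply, Matrix.smul_apply, smul_eq_mul,
    single_mul, Matrix.one_mul]
  by_cases h1 : x = i
  · subst h1
    simp only [if_true, if_neg hij]
    ring
  · by_cases h2 : x = j
    · subst h2
      simp only [if_true, if_neg h1]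
      ring
    · simp only [if_neg h1, if_neg h2]
      ring

lemma pl_apply {r : ℕ} {i j : Fin r} (hij : i ≠ j) (a b c d : ℂ) (x y : Fin r) :
    pl i j a b c d x y = if x = i then a * (1 : Matrix (Fin r) (Fin r) ℂ) i y
        + b * (1 : Matrix (Fin r) (Fin r) ℂ) j y else
      if x = j then c * (1 : Matrix (Fin r) (Fin r) ℂ) i y
        + d * (1 : Matrix (Fin r) (Fin r) ℂ) j y else (1 : Matrix (Fin r) (Fin r) ℂ) x y := by
  have := pl_mul hij a b c d (1 : Matrix (Fin r) (Fin r) ℂ) x y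
  rwa [Matrix.mul_one] at this

lemma pl_mul_pl {r : ℕ} {i j : Fin r} (hij : i ≠ j) (a b c d a' b' c' d' : ℂ) :
    pl i j a b c d * pl i j a' b' c' d' =
      pl i j (a * a' + b * c') (a * b' + b * d') (c * a' + d * c') (c * b' + d * d') := by
  ext x y
  rw [pl_mul hij, pl_apply hij, pl_apply hij, pl_apply hij, pl_apply hij]
  have hji : j ≠ i := hij.symm
  by_cases h1 : x = i
  · simp only [if_pos h1, if_neg hji, if_true]
    ring
  · by_cases h2 : x = j
    · simp only [if_pos h2, if_neg h1, if_neg hji, if_true]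
      ring
    · simp only [if_neg h1, if_neg h2]

lemma pl_one {r : ℕ} (i j : Fin r) : pl i j 1 0 0 1 = 1 := by
  simp [pl]

lemma NN_eq {r : ℕ} (i j : Fin r) (ε t : ℂ) : NN i j ε t = pl i j t ε (-ε⁻¹) 0 := by
  unfold NN pl
  simp only [neg_smul, zero_sub, one_smul]
  abel

/-- the inverse of `NN` -/
noncomputable def Ni {r : ℕ} (i j : Fin r) (ε t : ℂ) : Matrix (Fin r) (Fin r) ℂ :=
  pl i j 0 (-ε) ε⁻¹ t

lemma NN_mul_Ni {r : ℕ} {i j : Fin r} (hij : i ≠ j) {ε : ℂ} (hε : ε ≠ 0) (t : ℂ) :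
    NN i j ε t * Ni i j ε t = 1 := by
  rw [NN_eq, Ni, pl_mul_pl hij, ← pl_one i j]
  congr 1 <;> field_simp <;> ring

lemma Ni_mul_NN {r : ℕ} {i j : Fin r} (hij : i ≠ j) {ε : ℂ} (hε : ε ≠ 0) (t : ℂ) :
    Ni i j ε t * NN i j ε t = 1 := by
  rw [NN_eq, Ni, pl_mul_pl hij, ← pl_one i j]
  congr 1 <;> field_simp <;> ring

lemma NN_inv {r : ℕ} {i j : Fin r} (hij : i ≠ j) {ε : ℂ} (hε : ε ≠ 0) (t : ℂ) :
    (NN i j ε t)⁻¹ = Ni i j ε t := Matrix.inv_eq_right_inv (NN_mul_Ni hij hε t)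

lemma Ni_mul_NN' {r : ℕ} {i j : Fin r} (hij : i ≠ j) {ε : ℂ} (hε : ε ≠ 0) (t ζ : ℂ) :
    Ni i j ε (t + ζ) * NN i j ε t = 1 - (ζ * ε⁻¹) • Matrix.single j i (1 : ℂ) := by
  rw [NN_eq, Ni, pl_mul_pl hij]
  have h1 : (0 : ℂ) * t + -ε * -ε⁻¹ = 1 := by field_simp; ring
  have h2 : (0 : ℂ) * ε + -ε * 0 = 0 := by ring
  have h3 : ε⁻¹ * t + (t + ζ) * -ε⁻¹ = -(ζ * ε⁻¹) := by ring
  have h4 : ε⁻¹ * ε + (t + ζ) * 0 = 1 := by field_simp; ring
  rw [h1, h2, h3, h4]
  simp [pl, sub_eq_add_neg]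

lemma ne_zero_of_Sa {ζ : ℂ} (h : ζ ∈ Sa) : ζ ≠ 0 := by
  rintro rfl
  rcases h with h | h <;> simp at h

lemma ne_zero_of_Sb {ζ : ℂ} (h : ζ ∈ Sb) : ζ ≠ 0 := by
  rintro rfl
  rcases h with h | h <;> simp at h

/-- the bounds at the finite punctures -/
lemma bound_fin {r : ℕ} {i j : Fin r} (hij : i ≠ j) {ε : ℂ} (hε : ε ≠ 0)
    (g : Matrix (Fin r) (Fin r) ℂ) (hg : IsUnit g.det) (u : Fin r → ℝ)
    (hu : ∀ a b, u b - u a ≤ 1) (t : ℂ) (C : ℝ) (hC : 0 ≤ C) :
    ∃ C' : ℝ, ∀ ζ : ℂ, ζ ≠ 0 → ‖ζ‖ ≤ 1 → ∀ M : Matrix (Fin r) (Fin r) ℂ,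
      (∀ a b, ‖(g * (NN i j ε t)⁻¹ * M) a b‖ ≤ C * ‖ζ‖ ^ (u a)) →
      ∀ a b, ‖(g * (Ni i j ε (t + ζ) * M)) a b‖ ≤ C' * ‖ζ‖ ^ (u a) := by
  set K : Matrix (Fin r) (Fin r) ℂ := g * Matrix.single j i (1 : ℂ) * g⁻¹ with hK
  refine ⟨C * (1 + ‖ε⁻¹‖ * ∑ a, ∑ c, ‖K a c‖), fun ζ hζ hζ1 M hM a b => ?_⟩
  rw [NN_inv hij hε] at hM
  set P : Matrix (Fin r) (Fin r) ℂ := g * Ni i j ε t * M with hP
  have h1 : g * (Ni i j ε (t + ζ) * M) = P - (ζ * ε⁻¹) • (K * P) := by
    have h2 : M = NN i j ε t * g⁻¹ * P := by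
      rw [hP]
      calc M = (NN i j ε t * Ni i j ε t) * M := by rw [NN_mul_Ni hij hε, Matrix.one_mul]
        _ = NN i j ε t * (g⁻¹ * g) * Ni i j ε t * M := by
          rw [Matrix.nonsing_inv_mul _ hg, Matrix.mul_one]
        _ = NN i j ε t * g⁻¹ * (g * Ni i j ε t * M) := by simp only [Matrix.mul_assoc]
    calc g * (Ni i j ε (t + ζ) * M)
        = g * (Ni i j ε (t + ζ) * NN i j ε t) * g⁻¹ * P := by
          conv_lhs => rw [h2]
          simp only [Matrix.mul_assoc]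
      _ = g * g⁻¹ * P - (ζ * ε⁻¹) • (K * P) := by
          rw [Ni_mul_NN' hij hε, Matrix.mul_sub, Matrix.mul_one, Matrix.sub_mul, Matrix.sub_mul,
            Matrix.mul_smul, Matrix.smul_mul, Matrix.smul_mul]
      _ = _ := by rw [Matrix.mul_nonsing_inv _ hg, Matrix.one_mul]
  have hn : 0 < ‖ζ‖ := norm_pos_iff.mpr hζ
  rw [h1, Matrix.sub_apply, Matrix.smul_apply, smul_eq_mul]
  have h3 : ‖(K * P) a b‖ * ‖ζ‖ ≤ (∑ c, ‖K a c‖) * (C * ‖ζ‖ ^ (u a)) := by
    rw [Matrix.mul_apply]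
    calc ‖∑ c, K a c * P c b‖ * ‖ζ‖ ≤ (∑ c, ‖K a c * P c b‖) * ‖ζ‖ := by
          gcongr
          exact norm_sum_le _ _
      _ = ∑ c, ‖K a c‖ * (‖P c b‖ * ‖ζ‖) := by
          rw [Finset.sum_mul]
          refine Finset.sum_congr rfl fun c _ => ?_
          rw [norm_mul]
          ring
      _ ≤ ∑ c, ‖K a c‖ * (C * ‖ζ‖ ^ (u a)) := by
          refine Finset.sum_le_sum fun c _ => ?_
          refine mul_le_mul_of_nonneg_left ?_ (norm_nonneg _)
          calc ‖P c b‖ * ‖ζ‖ ≤ (C * ‖ζ‖ ^ (u c)) * ‖ζ‖ := by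
                gcongr
                exact hM c b
            _ = C * ‖ζ‖ ^ (u c + 1) := by
                rw [Real.rpow_add hn, Real.rpow_one]
                ring
            _ ≤ C * ‖ζ‖ ^ (u a) := by
                refine mul_le_mul_of_nonneg_left ?_ hC
                refine Real.rpow_le_rpow_of_exponent_ge hn hζ1 ?_
                have := hu c a
                linarith
      _ = _ := by rw [Finset.sum_mul]
  have h4 : ∑ c, ‖K a c‖ ≤ ∑ a, ∑ c, ‖K a c‖ :=
    Finset.single_le_sum (f := fun a => ∑ c, ‖K a c‖)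
      (fun a _ => Finset.sum_nonneg fun c _ => norm_nonneg _) (Finset.mem_univ a)
  have hpos : 0 ≤ C * ‖ζ‖ ^ (u a) := mul_nonneg hC (Real.rpow_nonneg hn.le _)
  calc ‖P a b - ζ * ε⁻¹ * (K * P) a b‖ ≤ ‖P a b‖ + ‖ζ * ε⁻¹ * (K * P) a b‖ := norm_sub_le _ _
    _ = ‖P a b‖ + ‖ε⁻¹‖ * (‖(K * P) a b‖ * ‖ζ‖) := by
        rw [norm_mul, norm_mul]
        ring
    _ ≤ C * ‖ζ‖ ^ (u a) + ‖ε⁻¹‖ * ((∑ c, ‖K a c‖) * (C * ‖ζ‖ ^ (u a))) := by
        gcongr
        exact hM a b
    _ ≤ C * ‖ζ‖ ^ (u a) + ‖ε⁻¹‖ * ((∑ a, ∑ c, ‖K a c‖) * (C * ‖ζ‖ ^ (u a))) := by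
        gcongr
    _ = _ := by ring

/-- the bounds at infinity -/
lemma bound_inf {r : ℕ} {i j : Fin r} (hij : i ≠ j) {ε : ℂ} (hε : ε ≠ 0)
    (u : Fin r → ℝ) (hu : u j + 1 ≤ u i) (C : ℝ) (hC : 0 ≤ C) (ζ : ℂ) (hζ : ζ ≠ 0)
    (hζ1 : ‖ζ‖ ≤ 1) (M : Matrix (Fin r) (Fin r) ℂ)
    (hM : ∀ a b, ‖M a b‖ ≤ C * ‖ζ‖ ^ (u a + if a = i then -1 else if a = j then 1 else 0))
    (a b : Fin r) :
    ‖((1 - (ε * ζ) • Matrix.single i j (1 : ℂ)) * (Ni i j ε (-ζ⁻¹) * M)) a b‖
      ≤ C * (1 + ‖ε⁻¹‖) * ‖ζ‖ ^ (u a) := by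
  have hn : 0 < ‖ζ‖ := norm_pos_iff.mpr hζ
  have h1 : (1 - (ε * ζ) • Matrix.single i j (1 : ℂ)) = pl i j 1 (-(ε * ζ)) 0 1 := by
    simp [pl, sub_eq_add_neg]
  have h2 : pl i j 1 (-(ε * ζ)) 0 1 * Ni i j ε (-ζ⁻¹) = pl i j (-ζ) 0 ε⁻¹ (-ζ⁻¹) := by
    rw [Ni, pl_mul_pl hij]
    congr 1
    · field_simp; ring
    · field_simp; ring
    · ring
    · ring
  rw [h1, ← Matrix.mul_assoc, h2, pl_mul hij]
  have hji : j ≠ i := hij.symm
  have hpos : ∀ s : ℝ, 0 ≤ C * ‖ζ‖ ^ s := fun s => mul_nonneg hC (Real.rpow_nonneg hn.le _)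
  have hin := norm_nonneg ε⁻¹
  have hMi := hM i b
  have hMj := hM j b
  rw [if_pos rfl] at hMi
  rw [if_neg hji, if_pos rfl] at hMj
  by_cases hai : a = i
  · subst hai
    rw [if_pos rfl, zero_mul, add_zero, norm_mul, norm_neg]
    calc ‖ζ‖ * ‖M a b‖ ≤ ‖ζ‖ * (C * ‖ζ‖ ^ (u a + -1)) := by gcongr
      _ = C * ‖ζ‖ ^ (u a) := by
          rw [Real.rpow_add hn, Real.rpow_neg_one]
          field_simp
      _ ≤ C * (1 + ‖ε⁻¹‖) * ‖ζ‖ ^ (u a) := by
          have := mul_nonneg hin (hpos (u a))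
          nlinarith
  · by_cases haj : a = j
    · subst haj
      rw [if_neg hai, if_pos rfl]
      calc ‖ε⁻¹ * M i b + -ζ⁻¹ * M a b‖ ≤ ‖ε⁻¹‖ * ‖M i b‖ + ‖ζ‖⁻¹ * ‖M a b‖ := by
            refine (norm_add_le _ _).trans ?_
            rw [norm_mul, norm_mul, norm_neg, norm_inv ζ]
        _ ≤ ‖ε⁻¹‖ * (C * ‖ζ‖ ^ (u i + -1)) + ‖ζ‖⁻¹ * (C * ‖ζ‖ ^ (u a + 1)) := by
            gcongr
        _ ≤ ‖ε⁻¹‖ * (C * ‖ζ‖ ^ (u a)) + C * ‖ζ‖ ^ (u a) := by
            have e1 : ‖ζ‖⁻¹ * (C * ‖ζ‖ ^ (u a + 1)) = C * ‖ζ‖ ^ (u a) := by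
              rw [Real.rpow_add hn, Real.rpow_one]
              field_simp
            rw [e1]
            gcongr ‖ε⁻¹‖ * (C * ?_) + _
            refine Real.rpow_le_rpow_of_exponent_ge hn hζ1 ?_
            linarith
        _ = _ := by ring
    · rw [if_neg hai, if_neg haj]
      have h3 := hM a b
      rw [if_neg hai, if_neg haj, add_zero] at h3
      refine h3.trans ?_
      have := mul_nonneg hin (hpos (u a))
      nlinarith

lemma exp_int (s : ℝ) (n : ℤ) : Complex.exp (-(2 * Real.pi * Complex.I * ((s + n : ℝ) : ℂ))) =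
    Complex.exp (-(2 * Real.pi * Complex.I * (s : ℂ))) := by
  rw [Complex.exp_eq_exp_iff_exists_int]
  exact ⟨-n, by push_cast; ring⟩

end ItemNBack

open ItemNBack in
theorem prf_N_Back : N_Back := by
  intro r γ w hγ hγ2 hCW i j hij hw ε hε hSol
  obtain ⟨G', Q, hMV, hRB, hdet, hchar⟩ := hSol
  refine ⟨fun l z => Ni i j ε z * G' l z, Q, ⟨?_, ?_, ?_, hMV.unit⟩, ?_, ?_, ?_⟩
  · intro l a b
    have h : (fun z => (Ni i j ε z * G' l z) a b) = fun z =>
        if a = i then 0 * G' l z i b + (-ε) * G' l z j b else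
        if a = j then ε⁻¹ * G' l z i b + z * G' l z j b else G' l z a b := by
      funext z
      rw [Ni, pl_mul hij]
    rw [h]
    have h1 := hMV.diff l i b
    have h2 := hMV.diff l j b
    have h3 := hMV.diff l a b
    split_ifs
    · exact (h1.const_mul _).add (h2.const_mul _)
    · exact (h1.const_mul _).add (differentiableOn_id.mul h2)
    · exact h3
  · intro l l' z hz
    rw [hMV.plus l l' z hz]
  · intro l z hz
    rw [hMV.minus l z hz, Matrix.mul_assoc]
  · intro x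
    obtain ⟨C, ρ, hρ, hρ2, hb⟩ := hRB x
    have hC0 : (0:ℝ) ≤ max C 0 := le_max_right _ _
    have key : ∃ C' : ℝ, ∀ ζ : ℂ, ζ ≠ 0 → ‖ζ‖ ≤ 1 → ∀ M : Matrix (Fin r) (Fin r) ℂ,
        (∀ a b, ‖(gT γ i j ε x * M) a b‖ ≤ max C 0 * ‖ζ‖ ^ (wT w i j x a)) →
        ∀ a b, ‖(Rf γ i j ε x ζ * (Ni i j ε (cz x ζ) * M)) a b‖ ≤ C' * ‖ζ‖ ^ (w x a) := by
      fin_cases x
      · obtain ⟨C', hC'⟩ := bound_fin hij hε (γ 0) (hγ 0) (w 0) (hCW 0 (by decide)) 0 _ hC0
        refine ⟨C', fun ζ hζ hζ1 M hM a b => ?_⟩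
        have h := hC' ζ hζ hζ1 M (fun a b => by simpa [gT, wT] using hM a b) a b
        simpa [Rf, cz] using h
      · obtain ⟨C', hC'⟩ := bound_fin hij hε (γ 1) (hγ 1) (w 1) (hCW 1 (by decide)) 1 _ hC0
        refine ⟨C', fun ζ hζ hζ1 M hM a b => ?_⟩
        have h := hC' ζ hζ hζ1 M (fun a b => by simpa [gT, wT] using hM a b) a b
        simpa [Rf, cz] using h
      · refine ⟨max C 0 * (1 + ‖ε⁻¹‖), fun ζ hζ hζ1 M hM a b => ?_⟩
        have h := bound_inf hij hε (w 2) hw _ hC0 ζ hζ hζ1 M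
          (fun a b => by simpa [gT, wT] using hM a b) a b
        simpa [Rf, cz] using h
    obtain ⟨C', hC'⟩ := key
    refine ⟨C', ρ, hρ, hρ2, fun ζ hζ => ⟨fun hSa a b => ?_, fun hSb a b => ?_⟩⟩
    · have h0 := ne_zero_of_Sa hSa
      have h1 : ‖ζ‖ ≤ 1 := by linarith
      refine hC' ζ h0 h1 (G' x (cz x ζ)) (fun a b => ?_) a b
      refine ((hb ζ hζ).1 hSa a b).trans ?_
      gcongr
      exact le_max_left _ _
    · have h0 := ne_zero_of_Sb hSb
      have h1 : ‖ζ‖ ≤ 1 := by linarith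
      refine hC' ζ h0 h1 (G' (x + 1) (cz x ζ)) (fun a b => ?_) a b
      refine ((hb ζ hζ).2 hSb a b).trans ?_
      gcongr
      exact le_max_left _ _
  · intro l z hz
    rw [Matrix.det_mul]
    refine IsUnit.mul ?_ (hdet l z hz)
    exact Matrix.isUnit_det_of_right_inverse (Ni_mul_NN hij hε z)
  · intro x
    rw [hchar x]
    refine Finset.prod_congr rfl fun a _ => ?_
    congr 2
    by_cases hx : x = 2
    · by_cases hai : a = i
      · have h := exp_int (w x a) (-1)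
        rw [← h]
        simp [wT, hx, hai]
      · by_cases haj : a = j
        · have h := exp_int (w x a) 1
          rw [← h]
          simp [wT, hx, haj, hij.symm]
        · simp [wT, hai, haj]
    · simp [wT, hx]

end Pool.Agent.MSU

end

section

/-! Compactness of families of polynomials of bounded degree. -/

open Matrix Polynomial Filter Topology

namespace Pool.Agent.MSU

namespace ItemNCoef

/-- the polynomial with given coefficients -/
noncomputable def pol {D : ℕ} (v : Fin (D + 1) → ℂ) : ℂ[X] := ∑ m, C (v m) * X ^ (m : ℕ)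

theorem coeff_pol_lt {D : ℕ} (v : Fin (D + 1) → ℂ) (m : ℕ) (hm : m < D + 1) :
    (pol v).coeff m = v ⟨m, hm⟩ := by
  rw [pol, finsetSum_coeff, Finset.sum_eq_single ⟨m, hm⟩]
  · simp
  · intro b _ hb
    rw [coeff_C_mul, coeff_X_pow, if_neg, mul_zero]
    intro h
    apply hb
    ext
    exact h.symm
  · intro h
    exact absurd (Finset.mem_univ _) h

theorem coeff_pol_ge {D : ℕ} (v : Fin (D + 1) → ℂ) (m : ℕ) (hm : D + 1 ≤ m) :
    (pol v).coeff m = 0 := by
  rw [pol, finsetSum_coeff]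
  refine Finset.sum_eq_zero fun b _ => ?_
  rw [coeff_C_mul, coeff_X_pow, if_neg, mul_zero]
  intro h
  have := b.2
  omega

end ItemNCoef

open ItemNCoef in
theorem prf_N_Coef : N_Coef := by
  classical
  intro κ _ D p hD hne
  let x : ℕ → (κ → Fin (D + 1) → ℂ) := fun n J m => (p n J).coeff m
  have hx : ∀ n, x n ≠ 0 := by
    intro n h
    obtain ⟨J, hJ⟩ := hne n
    apply hJ
    ext m
    rw [coeff_zero]
    by_cases hm : m < D + 1
    · exact congrFun (congrFun h J) ⟨m, hm⟩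
    · exact coeff_eq_zero_of_natDegree_lt (by have := hD n J; omega)
  have hxn : ∀ n, ‖x n‖ ≠ 0 := fun n => norm_ne_zero_iff.2 (hx n)
  let y : ℕ → (κ → Fin (D + 1) → ℂ) := fun n => ((‖x n‖ : ℂ)⁻¹) • x n
  have hy : ∀ n, y n ∈ Metric.sphere (0 : κ → Fin (D + 1) → ℂ) 1 := by
    intro n
    rw [mem_sphere_zero_iff_norm]
    simp only [y]
    rw [norm_smul, norm_inv, Complex.norm_real, norm_norm, inv_mul_cancel₀ (hxn n)]
  obtain ⟨a, ha, φ, hφ, hlim⟩ := (isCompact_sphere (0 : κ → Fin (D + 1) → ℂ) 1).tendsto_subseq hy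
  refine ⟨φ, fun n => (‖x (φ n)‖ : ℂ)⁻¹, fun J => pol (a J), hφ, ?_, ?_, ?_, ?_⟩
  · intro n
    exact inv_ne_zero (by exact_mod_cast hxn (φ n))
  · by_contra hcon
    push Not at hcon
    have h0 : a = 0 := by
      funext J m
      have h1 := coeff_pol_lt (a J) m m.2
      rw [hcon J, coeff_zero] at h1
      exact h1.symm
    rw [mem_sphere_zero_iff_norm, h0, norm_zero] at ha
    exact zero_ne_one ha
  · intro J
    rw [natDegree_le_iff_coeff_eq_zero]
    intro m hm
    exact coeff_pol_ge (a J) m (by omega)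
  · intro J m
    by_cases hm : m < D + 1
    · rw [coeff_pol_lt (a J) m hm]
      have h1 := (tendsto_pi_nhds.1 ((tendsto_pi_nhds.1 hlim) J)) ⟨m, hm⟩
      exact h1
    · rw [coeff_pol_ge (a J) m (by omega)]
      have h1 : (fun n => (‖x (φ n)‖ : ℂ)⁻¹ * (p (φ n) J).coeff m) = fun _ => 0 := by
        funext n
        rw [coeff_eq_zero_of_natDegree_lt (by have := hD (φ n) J; omega), mul_zero]
      rw [h1]
      exact tendsto_const_nhds

end Pool.Agent.MSU

end

section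

/-! Item N_Dec: decomposable families of polynomials come from subbundles. -/

open Matrix Polynomial Filter Topology
open Pool.Agent.Work.MP_5e5ff1_ag.T

namespace Pool.Agent.MSU

theorem prf_N_Dec : N_Dec := by
  classical
  intro r k q hk hne hrel
  obtain ⟨J0, hJ0⟩ := hne
  set F' : Matrix (Fin r) (Fin k) ℂ[X] := Matrix.of fun i b => q (Function.update J0 b i) with hF
  have hdet : ∀ J : Fin k → Fin r, (F'.submatrix J id).det = q J0 ^ (k - 1) * q J := fun J =>
    hrel J0 J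
  have hfull : FullRank F' := by
    refine ⟨J0, ?_⟩
    rw [hdet]
    exact mul_ne_zero (pow_ne_zero _ hJ0) hJ0
  obtain ⟨W, N, hW, hFW, hN⟩ := saturate hfull
  have hmin : ∀ J : Fin k → Fin r, (F'.submatrix J id).det = (W.submatrix J id).det * N.det := by
    intro J
    rw [hFW, ← det_mul]
    congr 1
  obtain ⟨V, hV⟩ := hW
  have hone : (1 : ℂ[X]) = ∑ f : Fin k → Fin r, (∏ i, V i (f i)) * (W.submatrix f id).det := by
    rw [← det_mul_rect, hV, det_one]
  set h : ℂ[X] := ∑ f : Fin k → Fin r, (∏ i, V i (f i)) * q f with hh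
  have hqh : q J0 ^ (k - 1) * h = N.det := by
    rw [hh, Finset.mul_sum]
    calc ∑ f : Fin k → Fin r, q J0 ^ (k - 1) * ((∏ i, V i (f i)) * q f)
        = ∑ f : Fin k → Fin r, ((∏ i, V i (f i)) * (W.submatrix f id).det) * N.det := by
          refine Finset.sum_congr rfl fun f _ => ?_
          have := (hdet f).symm.trans (hmin f)
          calc q J0 ^ (k - 1) * ((∏ i, V i (f i)) * q f)
              = (∏ i, V i (f i)) * (q J0 ^ (k - 1) * q f) := by ring
            _ = ((∏ i, V i (f i)) * (W.submatrix f id).det) * N.det := by rw [this]; ring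
      _ = N.det := by rw [← Finset.sum_mul, ← hone, one_mul]
  have hq0 : q J0 ^ (k - 1) ≠ 0 := pow_ne_zero _ hJ0
  refine ⟨W, h, ⟨V, hV⟩, ?_, fun J => ?_⟩
  · intro h0
    rw [h0, mul_zero] at hqh
    exact hN hqh.symm
  · apply mul_left_cancel₀ hq0
    rw [(hdet J).symm.trans (hmin J), ← hqh]
    ring

end Pool.Agent.MSU

end

section

/-! Minors of `S A` against minors of `A` at a point. -/

open Matrix Polynomial Filter Topology

namespace Pool.Agent.MSU

namespace ItemNDom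

lemma rootMul_prod {k : ℕ} (t : ℂ) (s : Finset (Fin k)) (p : Fin k → ℂ[X])
    (h : ∀ l ∈ s, p l ≠ 0) :
    (∏ l ∈ s, p l).rootMultiplicity t = ∑ l ∈ s, (p l).rootMultiplicity t := by
  induction s using Finset.induction_on with
  | empty => simp
  | insert a s ha ih =>
    have h1 : ∀ l ∈ s, p l ≠ 0 := fun l hl => h l (Finset.mem_insert_of_mem hl)
    have h2 : ∏ l ∈ s, p l ≠ 0 := Finset.prod_ne_zero_iff.mpr h1
    have h3 : p a ≠ 0 := h a (Finset.mem_insert_self a s)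
    rw [Finset.prod_insert ha, Finset.sum_insert ha, rootMultiplicity_mul (mul_ne_zero h3 h2),
      ih h1]

end ItemNDom

open ItemNDom in
theorem prf_N_Dom : N_Dom := by
  intro r k S A t J hne
  have hsum := Pool.Agent.Work.MP_5e5ff1_ag.T.minor_mul S A J
  by_contra hcon
  push Not at hcon
  have hdvd : ∀ f ∈ (Finset.univ : Finset (Fin k → Fin r)),
      (X - C t) ^ (((S * A).submatrix J id).det.rootMultiplicity t + 1)
        ∣ (∏ i, S (J i) (f i)) * (A.submatrix f id).det := by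
    intro f _
    by_cases h0 : (∏ i, S (J i) (f i)) * (A.submatrix f id).det = 0
    · rw [h0]
      exact dvd_zero _
    · have hA : (A.submatrix f id).det ≠ 0 := right_ne_zero_of_mul h0
      have hp : ∏ i, S (J i) (f i) ≠ 0 := left_ne_zero_of_mul h0
      have hS : ∀ l, S (J l) (f l) ≠ 0 := fun l =>
        Finset.prod_ne_zero_iff.mp hp l (Finset.mem_univ l)
      have h1 := hcon f hA hS
      rw [← le_rootMultiplicity_iff h0, rootMultiplicity_mul h0,
        rootMul_prod t Finset.univ (fun l => S (J l) (f l)) (fun l _ => hS l)]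
      omega
  have h2 := Finset.dvd_sum hdvd
  rw [← hsum, ← le_rootMultiplicity_iff hne] at h2
  omega

end Pool.Agent.MSU

end

section

/-! Minors of a product against minors of a factor, at infinity. -/

open Matrix Polynomial

namespace Pool.Agent.MSU

theorem prf_N_DomInf : N_DomInf := by
  intro r k S A J h0
  by_contra hcon
  push Not at hcon
  set m := ((S * A).submatrix J id).det.natDegree with hm
  have hmem : ((S * A).submatrix J id).det ∈ Polynomial.degreeLT ℂ m := by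
    rw [Pool.Agent.Work.MP_5e5ff1_ag.T.minor_mul]
    refine Submodule.sum_mem _ fun f _ => ?_
    rw [Polynomial.mem_degreeLT]
    by_cases h : (∏ i, S (J i) (f i)) * (A.submatrix f id).det = 0
    · rw [h, Polynomial.degree_zero]
      exact WithBot.bot_lt_coe m
    · have h1 := left_ne_zero_of_mul h
      have h2 := right_ne_zero_of_mul h
      have h3 : ∀ l, S (J l) (f l) ≠ 0 := fun l => Finset.prod_ne_zero_iff.1 h1 l (Finset.mem_univ l)
      have h4 := hcon f h2 h3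
      refine Polynomial.degree_le_natDegree.trans_lt ?_
      rw [Polynomial.natDegree_mul h1 h2, Polynomial.natDegree_prod _ _ fun l _ => h3 l]
      rw [add_comm] at h4
      exact_mod_cast h4
  rw [Polynomial.mem_degreeLT, Polynomial.degree_eq_natDegree h0] at hmem
  exact lt_irrefl _ (by exact_mod_cast hmem : m < m)

end Pool.Agent.MSU

end

section

/-! Induction over the lattice at infinity. -/

open Matrix Polynomial Filter Topology

namespace Pool.Agent.MSU

lemma ItemNInd.sum_wT {r : ℕ} (w : Fin 3 → Fin r → ℝ) {i j : Fin r} (hij : i ≠ j) :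
    ∑ x, ∑ a, wT w i j x a = ∑ x, ∑ a, w x a := by
  have h1 : ∀ x, ∑ a, wT w i j x a = ∑ a, w x a := by
    intro x
    unfold wT
    rw [Finset.sum_add_distrib]
    by_cases hx : x = 2
    · simp only [hx, if_true]
      have h2 : ∀ a : Fin r, (if a = i then (-1 : ℝ) else if a = j then 1 else 0)
          = (if a = i then (-1 : ℝ) else 0) + (if a = j then 1 else 0) := by
        intro a
        by_cases ha : a = i
        · subst ha
          simp [hij]
        · simp [ha]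
      simp only [h2]
      rw [Finset.sum_add_distrib]
      simp
    · simp [hx]
  exact Finset.sum_congr rfl (fun x _ => h1 x)

theorem prf_N_Ind (hS : N_Step) (hSo : N_Sort) (hNN : N_NN) : N_Ind := by
  have key : ∀ (n : ℕ) (r : ℕ) (lam : Fin r → ℤ) (γ : Fin 3 → Matrix (Fin r) (Fin r) ℂ)
      (w : Fin 3 → Fin r → ℝ), (∑ i, lam i ^ 2) < n → ∑ i, lam i = 0 → GU γ → γ 2 = 1 →
      IWin (w 0) → IWin (w 1) → IWin (fun a => w 2 a - lam a) → ∑ x, ∑ i, w x i = 0 →
      StG γ w → SolG γ w := by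
    intro n
    induction n with
    | zero =>
      intro r lam γ w hn
      have h1 : 0 ≤ ∑ i, lam i ^ 2 := Finset.sum_nonneg (fun i _ => sq_nonneg _)
      exact absurd hn (by push_cast; omega)
    | succ n ih =>
      intro r lam γ w hn hlam hγ h2 hw0 hw1 hw2 hsum hs
      by_cases h0 : ∀ i, lam i = 0
      · apply hSo r γ w hγ _ hsum hs
        intro x
        fin_cases x
        · exact hw0
        · exact hw1
        · have : (fun a => w 2 a - (lam a : ℝ)) = w 2 := by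
            funext a
            rw [h0 a]
            simp
          rw [this] at hw2
          exact hw2
      · have hpos : ∃ i, 0 < lam i := by
          by_contra hcon
          push Not at hcon
          apply h0
          intro i
          have h3 := (Finset.sum_eq_zero_iff_of_nonpos (fun i _ => hcon i)).mp hlam
          exact h3 i (Finset.mem_univ i)
        have hneg : ∃ j, lam j < 0 := by
          by_contra hcon
          push Not at hcon
          apply h0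
          intro i
          have h3 := (Finset.sum_eq_zero_iff_of_nonneg (fun i _ => hcon i)).mp hlam
          exact h3 i (Finset.mem_univ i)
        obtain ⟨i, hi⟩ := hpos
        obtain ⟨j, hj⟩ := hneg
        have hij : i ≠ j := by
          rintro rfl
          omega
        have hw : w 2 j + 1 ≤ w 2 i := by
          have h3 := hw2.2 i j
          have h4 : (2 : ℝ) ≤ (lam i : ℝ) - (lam j : ℝ) := by
            have : (2 : ℤ) ≤ lam i - lam j := by omega
            exact_mod_cast this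
          simp only at h3
          linarith
        have hcw : CWin w := by
          intro x hx a b
          fin_cases x
          · exact (hw0.2 a b).le
          · exact (hw1.2 a b).le
          · exact absurd rfl hx
        refine hS r γ w hγ h2 hsum hcw i j hij hw hs (fun ε hε hst => ?_)
        have hTw : ∀ x, x ≠ 2 → wT w i j x = w x := by
          intro x hx
          funext a
          simp [wT, hx]
        refine ih r (fun a => lam a + if a = i then -1 else if a = j then 1 else 0)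
          (gT γ i j ε) (wT w i j) ?_ ?_ ?_ ?_ ?_ ?_ ?_ ?_ hst
        · have h3 : ∑ a, (lam a + if a = i then -1 else if a = j then 1 else 0) ^ 2
              = ∑ a, lam a ^ 2 + (-2 * lam i + 1) + (2 * lam j + 1) := by
            have h4 : ∀ a : Fin r, (lam a + if a = i then -1 else if a = j then 1 else 0) ^ 2
                = lam a ^ 2 + (if a = i then -2 * lam i + 1 else 0)
                  + (if a = j then 2 * lam j + 1 else 0) := by
              intro a
              by_cases ha : a = i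
              · subst ha
                simp [hij]
                ring
              · by_cases hb : a = j
                · subst hb
                  simp [ha]
                  ring
                · simp [ha, hb]
            simp only [h4]
            rw [Finset.sum_add_distrib, Finset.sum_add_distrib]
            simp
          rw [h3]
          push_cast at hn ⊢
          linarith
        · have h4 : ∀ a : Fin r, (lam a + if a = i then -1 else if a = j then 1 else 0)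
              = lam a + (if a = i then -1 else 0) + (if a = j then 1 else 0) := by
            intro a
            by_cases ha : a = i
            · subst ha
              simp [hij]
            · simp [ha]
          simp only [h4]
          rw [Finset.sum_add_distrib, Finset.sum_add_distrib, hlam]
          simp
        · intro x
          unfold gT
          have hinv : ∀ t, IsUnit ((NN i j ε t)⁻¹).det := by
            intro t
            rw [Matrix.det_nonsing_inv, hNN r i j ε t hij hε]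
            simp
          by_cases hx0 : x = 0
          · simp only [hx0, if_true]
            rw [det_mul]
            exact (hγ 0).mul (hinv 0)
          · by_cases hx1 : x = 1
            · subst hx1
              simp only [one_ne_zero, if_false, if_true]
              rw [det_mul]
              exact (hγ 1).mul (hinv 1)
            · simp [hx0, hx1]
        · simp [gT]
        · rw [hTw 0 (by decide)]
          exact hw0
        · rw [hTw 1 (by decide)]
          exact hw1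
        · have : (fun a => wT w i j 2 a
              - ((lam a + if a = i then -1 else if a = j then 1 else 0 : ℤ) : ℝ))
              = fun a => w 2 a - lam a := by
            funext a
            unfold wT
            simp only [if_true]
            push_cast
            by_cases ha : a = i
            · simp [ha]
            · by_cases hb : a = j
              · simp [hb, Ne.symm hij]
              · simp [ha, hb]
          rw [this]
          exact hw2
        · rw [ItemNInd.sum_wT w hij]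
          exact hsum
  intro r lam γ w hlam hγ h2 hw0 hw1 hw2 hsum hs
  refine key ((∑ i, lam i ^ 2).toNat + 1) r lam γ w ?_ hlam hγ h2 hw0 hw1 hw2 hsum hs
  have h1 : 0 ≤ ∑ i, lam i ^ 2 := Finset.sum_nonneg (fun i _ => sq_nonneg _)
  push_cast
  rw [Int.toNat_of_nonneg h1]
  omega

end Pool.Agent.MSU

end

section

/-! Item `N_Lat`: every real vector can be moved by an integral vector of sum zero into a closed
window of length one. -/

namespace Pool.Agent.MSU

theorem prf_N_Lat : N_Lat := by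
  intro r x
  rcases Nat.eq_zero_or_pos r with hr | hr
  · subst hr
    exact ⟨fun _ => 0, by simp, fun i => i.elim0⟩
  set y : Fin r → ℝ := fun i => Int.fract (x i) with hy
  set σ := Tuple.sort y with hσ
  have hmono : Monotone (y ∘ σ) := Tuple.monotone_sort y
  set N : ℤ := ∑ i, ⌊x i⌋ with hN
  have hr' : (0:ℤ) < r := by exact_mod_cast hr
  set q : ℤ := N / r with hq
  set s : ℕ := (N % r).toNat with hsdef
  have hs0 : 0 ≤ N % r := Int.emod_nonneg _ hr'.ne'
  have hs1 : N % r < r := Int.emod_lt_of_pos _ hr'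
  have hs : (s : ℤ) = N % r := Int.toNat_of_nonneg hs0
  have hsr : s ≤ r := by
    have : (s : ℤ) < r := by rw [hs]; exact hs1
    exact_mod_cast this.le
  refine ⟨fun i => ⌊x i⌋ - q - (if ((σ.symm i : Fin r) : ℕ) < s then 1 else 0), ?_, ?_⟩
  · rw [Finset.sum_sub_distrib, Finset.sum_sub_distrib, ← hN]
    have h1 : (∑ i : Fin r, (if ((σ.symm i : Fin r) : ℕ) < s then (1:ℤ) else 0)) = s := by
      rw [Equiv.sum_comp σ.symm (fun k : Fin r => if (k : ℕ) < s then (1:ℤ) else 0)]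
      rw [Fin.sum_univ_eq_sum_range (fun k => if k < s then (1:ℤ) else 0) r]
      rw [Finset.sum_ite, Finset.sum_const_zero, add_zero, Finset.sum_const]
      have : (Finset.range r).filter (fun k => k < s) = Finset.range s := by
        ext k
        simp only [Finset.mem_filter, Finset.mem_range]
        omega
      rw [this]
      simp
    rw [h1, hs]
    simp only [Finset.sum_const, Finset.card_univ, Fintype.card_fin, nsmul_eq_mul]
    have := Int.emod_add_mul_ediv N r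
    rw [← hq] at this
    linarith
  · intro i j
    have key : ∀ k : Fin r, x k - (((⌊x k⌋ - q - (if ((σ.symm k : Fin r) : ℕ) < s then 1 else 0) : ℤ)) : ℝ)
        = y k + q + (if ((σ.symm k : Fin r) : ℕ) < s then (1:ℝ) else 0) := by
      intro k
      have : y k = x k - ⌊x k⌋ := rfl
      rw [this]
      push_cast
      ring
    have hy0 : ∀ k, 0 ≤ y k := fun k => Int.fract_nonneg _
    have hy1 : ∀ k, y k < 1 := fun k => Int.fract_lt_one _
    simp only [key]
    have a1 := hy0 i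
    have a2 := hy1 i
    have a3 := hy0 j
    have a4 := hy1 j
    by_cases hi : ((σ.symm i : Fin r) : ℕ) < s <;> by_cases hj : ((σ.symm j : Fin r) : ℕ) < s
    · simp only [if_pos hi, if_pos hj]; linarith
    · simp only [if_pos hi, if_neg hj]; linarith
    · simp only [if_neg hi, if_pos hj]
      have hle : σ.symm j ≤ σ.symm i := by
        rw [Fin.le_def]; omega
      have := hmono hle
      simp only [Function.comp_apply, Equiv.apply_symm_apply] at this
      linarith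
    · simp only [if_neg hi, if_neg hj]; linarith

end Pool.Agent.MSU

end

section

/-! Limits of unitary solutions. -/

open Matrix Polynomial Filter Topology

namespace Pool.Agent.MSU

namespace ItemNLimit

open ItemKClosed

lemma I_mem_KK : Complex.I ∈ KK := by
  refine ⟨by simp; norm_num, ?_, by simp⟩
  have h := Complex.abs_im_le_norm (Complex.I - 1)
  have h1 : |(Complex.I - 1).im| = 1 := by simp
  rw [h1] at h
  linarith

lemma MV_smul {r d : ℕ} {G : Fin 3 → ℂ → Matrix (Fin r) (Fin d) ℂ}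
    {Q : Fin 3 → Matrix (Fin d) (Fin d) ℂ} (hG : MV G Q) (c : ℂ) :
    MV (fun j z => c • G j z) Q where
  diff := fun j a b => (hG.diff j a b).const_mul c
  plus := fun j j' z hz => by rw [hG.plus j j' z hz]
  minus := fun j z hz => by
    show c • G (j + 1) z = c • G j z * Q j
    rw [hG.minus j z hz, Matrix.smul_mul]
  unit := hG.unit

lemma RowBdF_smul {r d : ℕ} {R : Fin 3 → ℂ → Matrix (Fin r) (Fin r) ℂ} {w : Fin 3 → Fin r → ℝ}
    {G : Fin 3 → ℂ → Matrix (Fin r) (Fin d) ℂ} (h : RowBdF R w G) (c : ℂ) :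
    RowBdF R w (fun j z => c • G j z) := by
  intro x
  obtain ⟨C, ρ, hρ, hρ2, hb⟩ := h x
  refine ⟨‖c‖ * C, ρ, hρ, hρ2, fun ζ hζ => ⟨fun hs a b => ?_, fun hs a b => ?_⟩⟩
  · have := (hb ζ hζ).1 hs a b
    show ‖(R x ζ * c • G x (cz x ζ)) a b‖ ≤ _
    rw [Matrix.mul_smul, Matrix.smul_apply, norm_smul, mul_assoc]
    exact mul_le_mul_of_nonneg_left this (norm_nonneg _)
  · have := (hb ζ hζ).2 hs a b
    show ‖(R x ζ * c • G (x + 1) (cz x ζ)) a b‖ ≤ _
    rw [Matrix.mul_smul, Matrix.smul_apply, norm_smul, mul_assoc]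
    exact mul_le_mul_of_nonneg_left this (norm_nonneg _)

lemma Rf_tendsto {r : ℕ} (γ : Fin 3 → Matrix (Fin r) (Fin r) ℂ) (hγ2 : γ 2 = 1) (i j : Fin r)
    {l : Filter ℕ} {ε : ℕ → ℂ} (hε : Tendsto ε l (𝓝 0)) (x : Fin 3) (ζ : ℂ) :
    Tendsto (fun n => Rf γ i j (ε n) x ζ) l (𝓝 (γ x)) := by
  unfold Rf
  by_cases hx : x = 2
  · subst hx
    simp only [if_true]
    rw [hγ2]
    have h1 : Tendsto (fun n => ε n * ζ) l (𝓝 0) := by
      simpa using hε.mul_const ζ
    have h2 := tsub (tendsto_const_nhds (x := (1 : Matrix (Fin r) (Fin r) ℂ)))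
      (tsmul h1 (tendsto_const_nhds (x := Matrix.single i j (1 : ℂ))))
    simpa using h2
  · simp only [if_neg hx]
    exact tendsto_const_nhds

lemma main (hNorm : N_Norm) (hUnif : N_Unif) (hLoc : N_LocBd) (hK : K_Montel) (hD : D_Deg)
    (hDet : D_Det) (r : ℕ) (γ : Fin 3 → Matrix (Fin r) (Fin r) ℂ) (w : Fin 3 → Fin r → ℝ)
    (hγ : GU γ) (hγ2 : γ 2 = 1) (hw : ∑ x, ∑ i, w x i = 0) (hst : StG γ w) (i j : Fin r)
    (hij : i ≠ j) (ε : ℕ → ℂ) (wn : ℕ → Fin 3 → Fin r → ℝ) (hε : Tendsto ε atTop (𝓝 0))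
    (hwn : ∀ x a, Tendsto (fun n => wn n x a) atTop (𝓝 (w x a)))
    (hsol : ∀ n, SolM γ (wn n) i j (ε n)) (hε1 : ∀ n, ‖ε n‖ ≤ 1) : SolG γ w := by
  choose G0 Q hMV0 hRB0 hun0 hch using hsol
  have hnz : ∀ n, ∃ z : ℂ, 0 < z.im ∧ z ∈ KK ∧ G0 n 0 z ≠ 0 := fun n => by
    refine ⟨Complex.I, by simp, I_mem_KK, fun h => ?_⟩
    have hu := hun0 n 0 Complex.I (I_mem 0)
    have : Nonempty (Fin r) := ⟨i⟩
    rw [h, Matrix.det_zero] at hu
    exact not_isUnit_zero hu
  choose ν hν hKK hpt using fun n => hNorm r r (G0 n) (Q n) (hMV0 n) (hnz n)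
  choose jn zn hznV hznK hzn using hpt
  have hMV : ∀ n, MV (fun j z => (ν n : ℂ) • G0 n j z) (Q n) := fun n => MV_smul (hMV0 n) _
  have hRB : ∀ n, RowBdF (Rf γ i j (ε n)) (wn n) (fun j z => (ν n : ℂ) • G0 n j z) :=
    fun n => RowBdF_smul (hRB0 n) _
  -- bound on the weights
  obtain ⟨Wm, hWm⟩ : ∃ Wm : ℝ, ∀ n x i, |wn n x i| ≤ Wm := by
    have h : ∀ x i, ∃ C : ℝ, ∀ n, |wn n x i| ≤ C := fun x i => by
      obtain ⟨C, hC⟩ := (hwn x i).abs.bddAbove_range
      exact ⟨C, fun n => hC ⟨n, rfl⟩⟩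
    choose C hC using h
    have hnn : ∀ x i, 0 ≤ C x i := fun x i => (abs_nonneg _).trans (hC x i 0)
    refine ⟨∑ x, ∑ i, C x i, fun n x i => ?_⟩
    calc |wn n x i| ≤ C x i := hC x i n
      _ ≤ ∑ i, C x i := Finset.single_le_sum (fun i _ => hnn x i) (Finset.mem_univ i)
      _ ≤ ∑ x, ∑ i, C x i := Finset.single_le_sum (f := fun x => ∑ i, C x i)
          (fun x _ => Finset.sum_nonneg fun i _ => hnn x i) (Finset.mem_univ x)
  obtain ⟨C, hC⟩ := hUnif r r γ Wm hγ i j hij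
  have hbd := fun n => hC (ε n) (wn n) (fun j z => (ν n : ℂ) • G0 n j z) (Q n) (hε1 n) (hWm n)
    (hMV n) (hRB n) (hKK n)
  have hloc : ∀ l, ∀ z ∈ V l, ∃ δ M : ℝ, 0 < δ ∧ ∀ n, ∀ s ∈ V l, ‖s - z‖ < δ → ∀ a b,
      ‖((ν n : ℂ) • G0 n l s) a b‖ ≤ M := by
    intro l z hz
    obtain ⟨δ, M, hδ, h⟩ := hLoc r r γ Wm C hγ i j hij l z hz
    exact ⟨δ, M, hδ, fun n => h (ε n) (wn n) (fun j z => (ν n : ℂ) • G0 n j z) (Q n) (hε1 n)
      (hWm n) (hMV n) (hKK n) (hbd n)⟩
  -- the limit along an ultrafilter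
  obtain ⟨𝒰, h𝒰⟩ : ∃ 𝒰 : Ultrafilter ℕ, (𝒰 : Filter ℕ) ≤ atTop :=
    ⟨hyperfilter ℕ, by rw [← Nat.cofinite_eq_atTop]; exact hyperfilter_le_cofinite⟩
  obtain ⟨G, Ql, hG, hlim, hQlim, hcc⟩ :=
    hK r r (fun n j z => (ν n : ℂ) • G0 n j z) Q hMV hloc 𝒰
  have hGt : ∀ j, ∀ z ∈ V j, Tendsto (fun n => (ν n : ℂ) • G0 n j z) 𝒰 (𝓝 (G j z)) :=
    fun j z hz => tm fun a b => (hlim j z hz a b).1
  have hRft : ∀ x ζ, Tendsto (fun n => Rf γ i j (ε n) x ζ) 𝒰 (𝓝 (γ x)) := fun x ζ =>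
    Rf_tendsto γ hγ2 i j (hε.mono_left h𝒰) x ζ
  -- growth at the punctures
  have hRow : RowBd γ w G := by
    intro x
    refine ⟨C, 1 / 2, by norm_num, le_rfl, fun ζ hζ => ⟨fun hs a b => ?_, fun hs a b => ?_⟩⟩
    · have hne := norm_pos_iff.2 (Sa_ne hs)
      have hz := cz_mem_a x (hζ.trans (by norm_num)) hs
      have t1 : Tendsto (fun n => ‖(Rf γ i j (ε n) x ζ * ((ν n : ℂ) • G0 n x (cz x ζ))) a b‖) 𝒰
          (𝓝 ‖(γ x * G x (cz x ζ)) a b‖) :=
        (te (tmul (hRft x ζ) (hGt x _ hz)) a b).norm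
      have t2 : Tendsto (fun n => C * ‖ζ‖ ^ (wn n x a)) 𝒰 (𝓝 (C * ‖ζ‖ ^ (w x a))) :=
        (((Real.continuous_const_rpow hne.ne').tendsto (w x a)).comp
          ((hwn x a).mono_left h𝒰)).const_mul C
      exact le_of_tendsto_of_tendsto' t1 t2 fun n => (hbd n x ζ hζ.le).1 hs a b
    · have hne := norm_pos_iff.2 (Sb_ne hs)
      have hz := cz_mem_b x (hζ.trans (by norm_num)) hs
      have t1 : Tendsto (fun n => ‖(Rf γ i j (ε n) x ζ * ((ν n : ℂ) • G0 n (x + 1) (cz x ζ))) a b‖)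
          𝒰 (𝓝 ‖(γ x * G (x + 1) (cz x ζ)) a b‖) :=
        (te (tmul (hRft x ζ) (hGt (x + 1) _ hz)) a b).norm
      have t2 : Tendsto (fun n => C * ‖ζ‖ ^ (wn n x a)) 𝒰 (𝓝 (C * ‖ζ‖ ^ (w x a))) :=
        (((Real.continuous_const_rpow hne.ne').tendsto (w x a)).comp
          ((hwn x a).mono_left h𝒰)).const_mul C
      exact le_of_tendsto_of_tendsto' t1 t2 fun n => (hbd n x ζ hζ.le).2 hs a b
  -- the limit is not zero
  have hne : ∃ z : ℂ, 0 < z.im ∧ G 0 z ≠ 0 := by
    by_contra hcon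
    push Not at hcon
    obtain ⟨z, hzK, hz⟩ := KK_compact.ultrafilter_le_nhds (𝒰.map zn)
      (le_principal_iff.2 (show zn ⁻¹' KK ∈ (𝒰 : Filter ℕ) from Filter.univ_mem' hznK))
    have hz' : Tendsto zn 𝒰 (𝓝 z) := hz
    have hz0 : z ≠ 0 := fun h => by
      have := hzK.1
      rw [h, norm_zero] at this
      norm_num at this
    have hz1 : z ≠ 1 := fun h => by
      have := hzK.2.1
      rw [h, sub_self, norm_zero] at this
      norm_num at this
    obtain ⟨j1, hj1⟩ := V_cover hz0 hz1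
    have hev : ∀ᶠ n in (𝒰 : Filter ℕ), zn n ∈ V j1 := hz' ((V_open j1).mem_nhds hj1)
    have t1 : Tendsto (fun n => ∑ a, ∑ b, ‖((ν n : ℂ) • G0 n j1 (zn n)) a b‖ ^ 2) 𝒰
        (𝓝 (∑ a, ∑ b, ‖G j1 z a b‖ ^ 2)) :=
      tendsto_finsetSum _ fun a _ => tendsto_finsetSum _ fun b _ =>
        ((hcc j1 z hj1 zn hz' a b).norm).pow 2
    have t2 : Tendsto (fun n => ∑ a, ∑ b, ‖((ν n : ℂ) • G0 n j1 (zn n)) a b‖ ^ 2) 𝒰 (𝓝 1) := by
      refine (tendsto_const_nhds (x := (1 : ℝ))).congr' ?_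
      filter_upwards [hev] with n h
      rw [← hzn n]
      exact sum_single (hMV n) (hznV n) h
    have h1 := tendsto_nhds_unique t1 t2
    rw [eq_zero_of_upper hG hcon j1 hj1] at h1
    simp at h1
  -- the limit is invertible
  have hdet0 : ∃ z : ℂ, 0 < z.im ∧ (G 0 z).det ≠ 0 := by
    by_contra hcon
    push Not at hcon
    exact hD r r γ w G Ql hγ hst hG hRow hne fun z hz => rank_lt _ (hcon z hz)
  have hunit := hDet r γ w G Ql hγ hw hG hRow hdet0
  refine ⟨G, Ql, hG, hRow, hunit, fun x => ?_⟩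
  -- the characteristic polynomials
  refine Polynomial.funext fun t => ?_
  rw [Matrix.eval_charpoly, Polynomial.eval_prod]
  simp only [Polynomial.eval_sub, Polynomial.eval_X, Polynomial.eval_C]
  have t1 : Tendsto (fun n => (Matrix.scalar (Fin r) t - Q n x).det) 𝒰
      (𝓝 (Matrix.scalar (Fin r) t - Ql x).det) :=
    ((continuous_id.matrix_det).tendsto _).comp
      (tsub tendsto_const_nhds (tm fun a b => hQlim x a b))
  have t2 : Tendsto (fun n => (Matrix.scalar (Fin r) t - Q n x).det) 𝒰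
      (𝓝 (∏ a, (t - Complex.exp (-(2 * Real.pi * Complex.I * (w x a : ℂ)))))) := by
    have h : ∀ n, (Matrix.scalar (Fin r) t - Q n x).det
        = ∏ a, (t - Complex.exp (-(2 * Real.pi * Complex.I * (wn n x a : ℂ)))) := fun n => by
      rw [← Matrix.eval_charpoly, hch n x, Polynomial.eval_prod]
      simp only [Polynomial.eval_sub, Polynomial.eval_X, Polynomial.eval_C]
    refine Tendsto.congr (fun n => (h n).symm) ?_
    refine tendsto_finsetProd _ fun a _ => ?_
    refine tendsto_const_nhds.sub ?_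
    refine (Complex.continuous_exp.tendsto _).comp ?_
    refine (tendsto_const_nhds.mul ?_).neg
    exact (Complex.continuous_ofReal.tendsto _).comp ((hwn x a).mono_left h𝒰)
  exact tendsto_nhds_unique t1 t2

end ItemNLimit

theorem prf_N_Limit (hNorm : N_Norm) (hUnif : N_Unif) (hLoc : N_LocBd) (hK : K_Montel)
    (hD : D_Deg) (hDet : D_Det) : N_Limit := by
  intro r γ w hγ hγ2 hw hst i j hij ε wn hε hwn hsol
  obtain ⟨N, hN⟩ : ∃ N, ∀ n ≥ N, ‖ε n‖ ≤ 1 := by
    have h : ∀ᶠ n in atTop, ‖ε n‖ < 1 := by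
      have := hε.norm
      rw [norm_zero] at this
      exact this.eventually_lt_const one_pos
    obtain ⟨N, hN⟩ := eventually_atTop.1 h
    exact ⟨N, fun n hn => (hN n hn).le⟩
  exact ItemNLimit.main hNorm hUnif hLoc hK hD hDet r γ w hγ hγ2 hw hst i j hij
    (fun n => ε (n + N)) (fun n => wn (n + N)) (hε.comp (tendsto_add_atTop_nat N))
    (fun x a => (hwn x a).comp (tendsto_add_atTop_nat N)) (fun n => hsol (n + N))
    (fun n => hN (n + N) (by omega))

end Pool.Agent.MSU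

end

section

/-! Local bounds on the slit domains, uniform in the family, in moved frames. -/

open Matrix Polynomial Filter Topology
open scoped ComplexConjugate ComplexOrder

namespace Pool.Agent.MSU

namespace ItemNLocBd

/-- the inverse of the frame -/
noncomputable def Ri {r : ℕ} (γ : Fin 3 → Matrix (Fin r) (Fin r) ℂ) (i j : Fin r) (ε : ℂ)
    (x : Fin 3) (ζ : ℂ) : Matrix (Fin r) (Fin r) ℂ :=
  if x = 2 then 1 + (ε * ζ) • Matrix.single i j (1 : ℂ) else (γ x)⁻¹

lemma Ri_mul {r : ℕ} {γ : Fin 3 → Matrix (Fin r) (Fin r) ℂ} (hγ : GU γ) {i j : Fin r}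
    (hij : i ≠ j) (ε : ℂ) (x : Fin 3) (ζ : ℂ) : Ri γ i j ε x ζ * Rf γ i j ε x ζ = 1 := by
  unfold Ri Rf
  split_ifs with hx
  · have h1 : Matrix.single i j (1 : ℂ) * Matrix.single i j (1 : ℂ) = 0 :=
      Matrix.single_mul_single_of_ne (1 : ℂ) i j i hij.symm (1 : ℂ)
    rw [Matrix.add_mul, Matrix.mul_sub, Matrix.mul_sub, Matrix.one_mul, Matrix.one_mul,
      Matrix.mul_one, Matrix.smul_mul, Matrix.mul_smul, h1, smul_zero, smul_zero, sub_zero]
    abel
  · exact Matrix.nonsing_inv_mul _ (hγ x)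

lemma Ri_bd {r : ℕ} (γ : Fin 3 → Matrix (Fin r) (Fin r) ℂ) (i j : Fin r) {ε : ℂ} (hε : ‖ε‖ ≤ 1)
    (x : Fin 3) {ζ : ℂ} (hζ : ‖ζ‖ ≤ 1 / 2) (a : Fin r) :
    ∑ a', ‖Ri γ i j ε x ζ a a'‖ ≤ (∑ x, ∑ a, ∑ a', ‖(γ x)⁻¹ a a'‖) + r * 2 := by
  have h0 : (0 : ℝ) ≤ ∑ x, ∑ a, ∑ a', ‖(γ x)⁻¹ a a'‖ := by positivity
  unfold Ri
  split_ifs with hx
  · have h1 : ∀ a' ∈ Finset.univ,
        ‖(1 + (ε * ζ) • Matrix.single i j (1 : ℂ) : Matrix (Fin r) (Fin r) ℂ) a a'‖ ≤ 2 := by
      intro a' _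
      rw [Matrix.add_apply, Matrix.smul_apply]
      refine (norm_add_le _ _).trans ?_
      have h2 : ‖(1 : Matrix (Fin r) (Fin r) ℂ) a a'‖ ≤ 1 := by
        rw [Matrix.one_apply]
        split_ifs <;> simp
      have h3 : ‖(ε * ζ) • Matrix.single i j (1 : ℂ) a a'‖ ≤ 1 := by
        rw [norm_smul, norm_mul]
        have h4 : ‖Matrix.single i j (1 : ℂ) a a'‖ ≤ 1 := by
          rw [Matrix.single_apply]
          split_ifs <;> simp
        calc ‖ε‖ * ‖ζ‖ * ‖Matrix.single i j (1 : ℂ) a a'‖ ≤ 1 * (1 / 2) * 1 := by gcongr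
          _ ≤ 1 := by norm_num
      linarith
    refine (Finset.sum_le_card_nsmul _ _ _ h1).trans ?_
    rw [Finset.card_univ, Fintype.card_fin, nsmul_eq_mul]
    linarith
  · have h1 : ∑ a', ‖(γ x)⁻¹ a a'‖ ≤ ∑ x, ∑ a, ∑ a', ‖(γ x)⁻¹ a a'‖ :=
      calc ∑ a', ‖(γ x)⁻¹ a a'‖ ≤ ∑ a, ∑ a', ‖(γ x)⁻¹ a a'‖ :=
            Finset.single_le_sum (f := fun a => ∑ a', ‖(γ x)⁻¹ a a'‖)
              (fun _ _ => by positivity) (Finset.mem_univ a)
        _ ≤ _ := Finset.single_le_sum (f := fun x => ∑ a, ∑ a', ‖(γ x)⁻¹ a a'‖)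
              (fun _ _ => by positivity) (Finset.mem_univ x)
    have h2 : (0 : ℝ) ≤ r * 2 := by positivity
    linarith

end ItemNLocBd

open ItemMLocBd ItemNLocBd in
theorem prf_N_LocBd : N_LocBd := by
  intro r d γ Wm C hγ i0 j0 hij j z hz
  have hz01 := V_ne hz
  have pz : 0 < ‖z‖ := norm_pos_iff.mpr hz01.1
  have pz1 : 0 < ‖z - 1‖ := norm_pos_iff.mpr (sub_ne_zero.mpr hz01.2)
  obtain ⟨ε, hε, hε1, hε2, hε3⟩ : ∃ ε : ℝ, 0 < ε ∧ ε ≤ ‖z‖ / 2 ∧ ε ≤ ‖z - 1‖ / 2 ∧ ε ≤ 1 :=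
    ⟨min (‖z‖ / 2) (min (‖z - 1‖ / 2) 1), by positivity, min_le_left _ _,
      (min_le_right _ _).trans (min_le_left _ _), (min_le_right _ _).trans (min_le_right _ _)⟩
  obtain ⟨η, hη, hη1, hη2, hη3, hη4⟩ : ∃ η : ℝ, 0 < η ∧ η ≤ ‖z‖ / 2 ∧ η ≤ ‖z - 1‖ / 2 ∧
      η ≤ (‖z‖ + 1)⁻¹ ∧ η ≤ 1 :=
    ⟨min (‖z‖ / 2) (min (‖z - 1‖ / 2) (min (‖z‖ + 1)⁻¹ 1)), by positivity, min_le_left _ _,
      (min_le_right _ _).trans (min_le_left _ _),
      ((min_le_right _ _).trans (min_le_right _ _)).trans (min_le_left _ _),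
      ((min_le_right _ _).trans (min_le_right _ _)).trans (min_le_right _ _)⟩
  set N : ℝ := (∑ x, ∑ a, ∑ a', ‖(γ x)⁻¹ a a'‖) + r * 2 with hN
  set M1 : ℝ := N * (|C| * η ^ (-Wm)) with hM1
  have hN0 : 0 ≤ N := by positivity
  have hM10 : 0 ≤ M1 := by positivity
  refine ⟨ε, 1 + ((d : ℝ) + 1) ^ 2 * M1, hε, ?_⟩
  intro ep w G Q hep hw hMV hKK hrow s hs hsz a b
  have s1 : η ≤ ‖s‖ := by
    have := norm_sub_norm_le z (z - s)
    have e1 : z - (z - s) = s := by ring
    rw [e1, norm_sub_rev z s] at this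
    linarith
  have s2 : η ≤ ‖s - 1‖ := by
    have := norm_sub_norm_le (z - 1) (z - s)
    have e1 : z - 1 - (z - s) = s - 1 := by ring
    rw [e1, norm_sub_rev z s] at this
    linarith
  have s3 : ‖s‖ ≤ ‖z‖ + 1 := by
    have := norm_add_le (s - z) z
    rw [sub_add_cancel] at this
    linarith
  -- the bound in the good positions
  have bd : ∀ (x j' : Fin 3) (ζ : ℂ), η ≤ ‖ζ‖ → ‖ζ‖ ≤ 1 / 2 →
      (∀ a b, ‖(Rf γ i0 j0 ep x ζ * G j' (cz x ζ)) a b‖ ≤ C * ‖ζ‖ ^ (w x a)) →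
      ∀ a b, ‖G j' (cz x ζ) a b‖ ≤ M1 := by
    intro x j' ζ h1 h2 h3 a b
    have e1 : G j' (cz x ζ) = Ri γ i0 j0 ep x ζ * (Rf γ i0 j0 ep x ζ * G j' (cz x ζ)) := by
      rw [← Matrix.mul_assoc, Ri_mul hγ hij, Matrix.one_mul]
    have h4 : ∀ a' b, ‖(Rf γ i0 j0 ep x ζ * G j' (cz x ζ)) a' b‖ ≤ |C| * η ^ (-Wm) := by
      intro a' b
      refine (h3 a' b).trans ?_
      have h5 : ‖ζ‖ ^ (w x a') ≤ η ^ (-Wm) := rpow_bd hη h1 (by linarith) (hw x a')
      calc C * ‖ζ‖ ^ (w x a') ≤ |C| * ‖ζ‖ ^ (w x a') :=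
            mul_le_mul_of_nonneg_right (le_abs_self C) (by positivity)
        _ ≤ |C| * η ^ (-Wm) := mul_le_mul_of_nonneg_left h5 (abs_nonneg _)
    have h6 : ‖(Ri γ i0 j0 ep x ζ * (Rf γ i0 j0 ep x ζ * G j' (cz x ζ))) a b‖ ≤ M1 := by
      rw [Matrix.mul_apply]
      refine (norm_sum_le _ _).trans ?_
      calc ∑ a', ‖Ri γ i0 j0 ep x ζ a a' * (Rf γ i0 j0 ep x ζ * G j' (cz x ζ)) a' b‖
          ≤ ∑ a', ‖Ri γ i0 j0 ep x ζ a a'‖ * (|C| * η ^ (-Wm)) := by
            refine Finset.sum_le_sum fun a' _ => ?_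
            rw [norm_mul]
            exact mul_le_mul_of_nonneg_left (h4 a' b) (norm_nonneg _)
        _ = (∑ a', ‖Ri γ i0 j0 ep x ζ a a'‖) * (|C| * η ^ (-Wm)) := by rw [Finset.sum_mul]
        _ ≤ M1 := by
            rw [hM1]
            exact mul_le_mul_of_nonneg_right (Ri_bd γ i0 j0 hep x h2 a) (by positivity)
    rwa [← e1] at h6
  -- the bound near a puncture
  have near : ∀ (x : Fin 3) (ζ : ℂ), cz x ζ = s → η ≤ ‖ζ‖ → ‖ζ‖ ≤ 1 / 2 →
      ‖G j s a b‖ ≤ ((d : ℝ) + 1) ^ 2 * M1 := by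
    intro x ζ hx h1 h2
    have hζ0 : ζ ≠ 0 := norm_pos_iff.mp (lt_of_lt_of_le hη h1)
    have hle : M1 ≤ ((d : ℝ) + 1) ^ 2 * M1 := by
      have hd0 : (0 : ℝ) ≤ d := Nat.cast_nonneg d
      nlinarith [mul_nonneg hd0 hM10, mul_nonneg (mul_nonneg hd0 hd0) hM10]
    by_cases him : s.im = 0
    · have hζi : ζ.im = 0 := cz_im_zero x (by rw [hx]; exact him)
      have hre : ζ.re ≠ 0 := fun h => hζ0 (Complex.ext h hζi)
      rcases lt_or_gt_of_ne hre with h3 | h3
      · have hSa : ζ ∈ Sa := Or.inr h3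
        have hV : s ∈ V x := by rw [← hx]; exact cz_mem_a x (by linarith) hSa
        have hjx := V_real him hs hV
        have h4 := bd x x ζ h1 h2 ((hrow x ζ h2).1 hSa) a b
        rw [hx, ← hjx] at h4
        exact h4.trans hle
      · have hSb : ζ ∈ Sb := Or.inr h3
        have hV : s ∈ V (x + 1) := by rw [← hx]; exact cz_mem_b x (by linarith) hSb
        have hjx := V_real him hs hV
        have h4 := bd x (x + 1) ζ h1 h2 ((hrow x ζ h2).2 hSb) a b
        rw [hx, ← hjx] at h4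
        exact h4.trans hle
    · have hζi : ζ.im ≠ 0 := cz_im_ne x (by rw [hx]; exact him)
      have hSa : ζ ∈ Sa := Or.inl hζi
      have h4 := bd x x ζ h1 h2 ((hrow x ζ h2).1 hSa)
      rw [hx] at h4
      rcases lt_or_gt_of_ne him with h5 | h5
      · have q1 : ∀ a b, ‖G (x + 1) s a b‖ ≤ d * M1 := by
          intro a b
          rw [hMV.minus x s h5]
          exact entry_mul _ _ (hMV.unit x) _ h4 a b
        have q2 : ∀ a b, ‖G (x + 1 + 1) s a b‖ ≤ d * (d * M1) := by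
          intro a b
          rw [hMV.minus (x + 1) s h5]
          exact entry_mul _ _ (hMV.unit (x + 1)) _ q1 a b
        have hj : j = x ∨ j = x + 1 ∨ j = x + 1 + 1 := by
          clear * -
          revert j x
          decide
        have hd0 : (0 : ℝ) ≤ d := Nat.cast_nonneg d
        have t1 := mul_nonneg hd0 hM10
        have t2 := mul_nonneg (mul_nonneg hd0 hd0) hM10
        rcases hj with rfl | rfl | rfl
        · exact (h4 a b).trans hle
        · refine (q1 a b).trans ?_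
          nlinarith
        · refine (q2 a b).trans ?_
          nlinarith
      · rw [hMV.plus j x s h5]
        exact (h4 a b).trans hle
  have hpos : 0 ≤ ((d : ℝ) + 1) ^ 2 * M1 := by positivity
  by_cases c0 : ‖s‖ < 1 / 2
  · have := near 0 s (cz_zero s) s1 c0.le
    linarith
  by_cases c1 : ‖s - 1‖ < 1 / 2
  · have := near 1 (s - 1) (by rw [cz_one]; ring) s2 c1.le
    linarith
  by_cases c2 : 2 < ‖s‖
  · have hs0 : s ≠ 0 := (V_ne hs).1
    have ps : 0 < ‖s‖ := norm_pos_iff.mpr hs0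
    have e1 : ‖-s⁻¹‖ = ‖s‖⁻¹ := by rw [norm_neg, norm_inv]
    have g1 : η ≤ ‖s‖⁻¹ := hη3.trans (inv_anti₀ ps s3)
    have g2 : ‖s‖⁻¹ ≤ 1 / 2 := by
      rw [inv_le_comm₀ ps (by norm_num)]
      linarith
    have := near 2 (-s⁻¹) (by rw [cz_two, inv_neg, inv_inv, neg_neg]) (by rw [e1]; exact g1)
      (by rw [e1]; exact g2)
    linarith
  · have hk : s ∈ KK := ⟨not_lt.mp c0, not_lt.mp c1, not_lt.mp c2⟩
    have := hKK j s hs hk a b
    linarith

end Pool.Agent.MSU

end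

section

/-! Assembly of level 2. -/

open Matrix Polynomial Filter Topology

namespace Pool.Agent.MSU

theorem prf_N_Main (hO : N_Open) (hL : N_Limit) (hZ : N_Zero) (hI : N_Ind) (hLat : N_Lat)
    (hP : N_Pert) (hM : T_MSB) : N_Main := by
  intro r γ w hγ h2 hcw hsum hs
  by_cases hr : r ≤ 1
  · have hsub : Subsingleton (Fin r) := Fin.subsingleton_iff_le_one.mpr hr
    apply hM r γ w hγ ⟨?_, ?_⟩ hsum hs
    · intro x
      exact Subsingleton.strictMono _
    · intro x i j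
      rw [Subsingleton.elim j i]
      simp
  · push Not at hr
    set i : Fin r := ⟨0, by omega⟩ with hi
    set j : Fin r := ⟨1, by omega⟩ with hj
    have hij : i ≠ j := by
      intro h
      have := congrArg Fin.val h
      simp [hi, hj] at this
    obtain ⟨lam, hlam, hlam2⟩ := hLat r (w 2)
    set u : Fin 3 → Fin r → ℝ := fun x a => w x a - if x = 2 then (lam a : ℝ) else 0 with hu
    have hu2 : ∀ a, u 2 a = w 2 a - lam a := by intro a; simp [hu]
    have hux : ∀ x, x ≠ 2 → ∀ a, u x a = w x a := by intro x hx a; simp [hu, hx]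
    have hlamR : ∑ a, (lam a : ℝ) = 0 := by exact_mod_cast hlam
    obtain ⟨un, hun1, hun2, hun3⟩ := hP r u (by
      intro x a b
      by_cases hx : x = 2
      · rw [hx, hu2, hu2]
        exact hlam2 a b
      · rw [hux x hx, hux x hx]
        exact hcw x hx a b) (by
      rw [Fin.sum_univ_three] at hsum ⊢
      simp only [hu2, hux 0 (by decide), hux 1 (by decide)]
      rw [Finset.sum_sub_distrib, hlamR]
      linarith)
    set wn : ℕ → Fin 3 → Fin r → ℝ := fun n x a => un n x a + if x = 2 then (lam a : ℝ) else 0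
      with hwn
    have hlim : ∀ x a, Tendsto (fun n => wn n x a) atTop (𝓝 (w x a)) := by
      intro x a
      have h3 := (hun3 x a).add_const (if x = 2 then (lam a : ℝ) else 0)
      have h4 : u x a + (if x = 2 then (lam a : ℝ) else 0) = w x a := by simp [hu]
      rw [h4] at h3
      exact h3
    have hsol : ∀ n, StM γ (wn n) i j 0 → SolM γ (wn n) i j 0 := by
      intro n hst
      refine (hZ r γ (wn n) i j h2).2 (hI r lam γ (wn n) hlam hγ h2 ?_ ?_ ?_ ?_
        ((hZ r γ (wn n) i j h2).1 hst))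
      · have : wn n 0 = un n 0 := by funext a; simp [hwn]
        rw [this]
        exact hun1 n 0
      · have : wn n 1 = un n 1 := by funext a; simp [hwn]
        rw [this]
        exact hun1 n 1
      · have : (fun a => wn n 2 a - (lam a : ℝ)) = un n 2 := by funext a; simp [hwn]
        rw [this]
        exact hun1 n 2
      · have h3 := hun2 n
        rw [Fin.sum_univ_three] at h3 ⊢
        have h4 : ∑ a, wn n 2 a = ∑ a, un n 2 a := by
          simp only [hwn, if_true]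
          rw [Finset.sum_add_distrib, hlamR, add_zero]
        have h5 : ∑ a, wn n 0 a = ∑ a, un n 0 a := by simp [hwn]
        have h6 : ∑ a, wn n 1 a = ∑ a, un n 1 a := by simp [hwn]
        rw [h4, h5, h6]
        exact h3
    obtain ⟨n0, hn0⟩ := eventually_atTop.mp (hO r γ w hγ h2 hs i j hij (fun _ => 0) wn
      tendsto_const_nhds hlim)
    exact hL r γ w hγ h2 hsum hs i j hij (fun _ => 0) (fun n => wn (n + n0)) tendsto_const_nhds
      (fun x a => (hlim x a).comp (tendsto_add_atTop_nat n0))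
      (fun n => hsol (n + n0) (hn0 (n + n0) (Nat.le_add_left _ _)))

end Pool.Agent.MSU

end

section

/-! Item N_NN: the change of basis has determinant one. -/

open Matrix Polynomial Filter Topology

namespace Pool.Agent.MSU.ItemNNN

theorem NN_eq {r : ℕ} (i j : Fin r) (ε t : ℂ) (hij : i ≠ j) (hε : ε ≠ 0) :
    NN i j ε t = transvection i j (ε * (1 - t)) * transvection j i (-ε⁻¹) * transvection i j ε := by
  have hs : ∀ (a b : Fin r) (c : ℂ), Matrix.single a b c = c • Matrix.single a b (1 : ℂ) := by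
    intro a b c
    rw [Matrix.smul_single, smul_eq_mul, mul_one]
  have h1 : ε * (1 - t) * -ε⁻¹ = t - 1 := by field_simp; ring
  unfold NN transvection
  simp only [Matrix.add_mul, Matrix.mul_add, Matrix.one_mul, Matrix.mul_one,
    Matrix.single_mul_single_same,
    Matrix.single_mul_single_of_ne _ _ _ _ hij.symm]
  rw [h1, hs i i (t - 1), hs i j ε, hs i j (ε * (1 - t)), hs j i (-ε⁻¹), hs j j (-ε⁻¹ * ε),
    hs i j ((t - 1) * ε)]
  have h2 : -ε⁻¹ * ε = -1 := by field_simp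
  rw [h2]
  module

end Pool.Agent.MSU.ItemNNN

namespace Pool.Agent.MSU

theorem prf_N_NN : N_NN := by
  intro r i j ε t hij hε
  rw [ItemNNN.NN_eq i j ε t hij hε, det_mul, det_mul, det_transvection_of_ne _ _ hij,
    det_transvection_of_ne _ _ hij.symm, det_transvection_of_ne _ _ hij]
  norm_num

end Pool.Agent.MSU

end

section

/-! Item N_Norm: normalisation of a multivalued matrix on the compact set `KK`. -/

open Matrix Polynomial Filter Topology

namespace Pool.Agent.MSU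

namespace ItemNNorm

lemma row_sum {r d : ℕ} (M : Matrix (Fin r) (Fin d) ℂ) (a : Fin r) :
    ((∑ b, ‖M a b‖ ^ 2 : ℝ) : ℂ) = (M * Mᴴ) a a := by
  rw [Matrix.mul_apply]
  push_cast
  refine Finset.sum_congr rfl fun b _ => ?_
  rw [Matrix.conjTranspose_apply, Complex.star_def, Complex.mul_conj, Complex.normSq_eq_norm_sq]
  push_cast
  rfl

lemma row_unit {r d : ℕ} (M : Matrix (Fin r) (Fin d) ℂ) (Q : Matrix (Fin d) (Fin d) ℂ)
    (hQ : Qᴴ * Q = 1) (a : Fin r) : ∑ b, ‖(M * Q) a b‖ ^ 2 = ∑ b, ‖M a b‖ ^ 2 := by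
  have hQ' : Q * Qᴴ = 1 := mul_eq_one_comm.mp hQ
  have h : (((∑ b, ‖(M * Q) a b‖ ^ 2 : ℝ)) : ℂ) = ((∑ b, ‖M a b‖ ^ 2 : ℝ) : ℂ) := by
    rw [row_sum, row_sum, Matrix.conjTranspose_mul, Matrix.mul_assoc, ← Matrix.mul_assoc Q, hQ',
      Matrix.one_mul]
  exact_mod_cast h

lemma branch {r d : ℕ} {G : Fin 3 → ℂ → Matrix (Fin r) (Fin d) ℂ}
    {Q : Fin 3 → Matrix (Fin d) (Fin d) ℂ} (hG : MV G Q) {z : ℂ} {j j' : Fin 3}
    (hj : z ∈ V j) (hj' : z ∈ V j') :
    ∑ a, ∑ b, ‖G j z a b‖ ^ 2 = ∑ a, ∑ b, ‖G j' z a b‖ ^ 2 := by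
  rcases lt_trichotomy z.im 0 with h | h | h
  · have step : ∀ j : Fin 3, ∑ a, ∑ b, ‖G (j + 1) z a b‖ ^ 2 = ∑ a, ∑ b, ‖G j z a b‖ ^ 2 := by
      intro j
      rw [hG.minus j z h]
      exact Finset.sum_congr rfl fun a _ => row_unit _ _ (hG.unit j) a
    have h0 : ∀ j : Fin 3, ∑ a, ∑ b, ‖G j z a b‖ ^ 2 = ∑ a, ∑ b, ‖G 0 z a b‖ ^ 2 := by
      intro j
      fin_cases j
      · rfl
      · exact step 0
      · exact (step 1).trans (step 0)
    rw [h0 j, h0 j']
  · have hjj : j = j' := by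
      rcases hj with h1 | ⟨h1, h2⟩ | ⟨h1, h2, h3⟩ | ⟨h1, h2⟩
      · exact absurd h h1
      all_goals
        rcases hj' with g1 | ⟨g1, g2⟩ | ⟨g1, g2, g3⟩ | ⟨g1, g2⟩
        · exact absurd h g1
        all_goals first
          | (exfalso; linarith)
          | (rw [h1, g1])
    rw [hjj]
  · rw [hG.plus j j' z h]

end ItemNNorm

open Classical in
theorem prf_N_Norm : N_Norm := by
  intro r d G Q hG hne
  set u : ℂ → ℝ := fun z => if h : ∃ j, z ∈ V j then ∑ a, ∑ b, ‖G h.choose z a b‖ ^ 2 else 0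
    with hu
  have huj : ∀ j, ∀ z ∈ V j, u z = ∑ a, ∑ b, ‖G j z a b‖ ^ 2 := by
    intro j z hz
    have h : ∃ j, z ∈ V j := ⟨j, hz⟩
    rw [hu]
    simp only [h, dif_pos]
    exact ItemNNorm.branch hG h.choose_spec hz
  have hKne : ∀ z ∈ KK, z ≠ 0 ∧ z ≠ 1 := by
    intro z hz
    constructor
    · rintro rfl
      have := hz.1
      norm_num at this
    · rintro rfl
      have := hz.2.1
      norm_num at this
  have hcont : ContinuousOn u KK := by
    intro z hz
    obtain ⟨j, hj⟩ := V_cover (hKne z hz).1 (hKne z hz).2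
    refine ContinuousAt.continuousWithinAt ?_
    have h1 : ContinuousAt (fun z => ∑ a, ∑ b, ‖G j z a b‖ ^ 2) z := by
      have h2 : ContinuousOn (fun z => ∑ a, ∑ b, ‖G j z a b‖ ^ 2) (V j) := by
        refine continuousOn_finsetSum _ fun a _ => continuousOn_finsetSum _ fun b _ => ?_
        exact ((hG.diff j a b).continuousOn.norm).pow 2
      exact h2.continuousAt ((V_open j).mem_nhds hj)
    refine h1.congr ?_
    filter_upwards [(V_open j).mem_nhds hj] with s hs
    exact (huj j s hs).symm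
  have hKc : IsCompact KK := by
    rw [Metric.isCompact_iff_isClosed_bounded]
    constructor
    · have h1 : IsClosed {z : ℂ | 1 / 2 ≤ ‖z‖} := isClosed_le continuous_const continuous_norm
      have h2 : IsClosed {z : ℂ | 1 / 2 ≤ ‖z - 1‖} :=
        isClosed_le continuous_const (continuous_norm.comp (continuous_id.sub continuous_const))
      have h3 : IsClosed {z : ℂ | ‖z‖ ≤ 2} := isClosed_le continuous_norm continuous_const
      exact h1.inter (h2.inter h3)
    · refine (Metric.isBounded_closedBall (x := (0 : ℂ)) (r := 2)).subset ?_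
      intro z hz
      rw [mem_closedBall_zero_iff]
      exact hz.2.2
  obtain ⟨z1, hz1, hz1K, hz1G⟩ := hne
  obtain ⟨z0, hz0, hmax⟩ := hKc.exists_isMaxOn ⟨z1, hz1K⟩ hcont
  have hM : 0 < u z0 := by
    refine lt_of_lt_of_le ?_ (hmax hz1K)
    rw [huj 0 z1 (upper_mem 0 hz1)]
    have hab : ∃ a b, G 0 z1 a b ≠ 0 := by
      by_contra hcon
      push Not at hcon
      apply hz1G
      ext a b
      simpa using hcon a b
    obtain ⟨a, b, hab⟩ := hab
    have h1 : 0 < ‖G 0 z1 a b‖ ^ 2 := by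
      have := norm_pos_iff.mpr hab
      positivity
    have h2 : ‖G 0 z1 a b‖ ^ 2 ≤ ∑ b, ‖G 0 z1 a b‖ ^ 2 :=
      Finset.single_le_sum (f := fun b => ‖G 0 z1 a b‖ ^ 2) (fun _ _ => by positivity)
        (Finset.mem_univ b)
    have h3 : (∑ b, ‖G 0 z1 a b‖ ^ 2) ≤ ∑ a, ∑ b, ‖G 0 z1 a b‖ ^ 2 :=
      Finset.single_le_sum (f := fun a => ∑ b, ‖G 0 z1 a b‖ ^ 2)
        (fun _ _ => Finset.sum_nonneg fun _ _ => by positivity) (Finset.mem_univ a)
    linarith
  set M := u z0 with hMdef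
  have hν : 0 < (Real.sqrt M)⁻¹ := inv_pos.mpr (Real.sqrt_pos.mpr hM)
  have hν2 : ((Real.sqrt M)⁻¹) ^ 2 * M = 1 := by
    rw [inv_pow, Real.sq_sqrt hM.le]
    exact inv_mul_cancel₀ hM.ne'
  have hnrm : ∀ (A : Matrix (Fin r) (Fin d) ℂ) a b,
      ‖((((Real.sqrt M)⁻¹ : ℝ) : ℂ) • A) a b‖ ^ 2 = ((Real.sqrt M)⁻¹) ^ 2 * ‖A a b‖ ^ 2 := by
    intro A a b
    rw [Matrix.smul_apply, smul_eq_mul, norm_mul, mul_pow, Complex.norm_real, Real.norm_eq_abs,
      sq_abs]
  refine ⟨(Real.sqrt M)⁻¹, hν, ?_, ?_⟩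
  · intro j z hz hzK a b
    have h1 : u z ≤ M := hmax hzK
    rw [huj j z hz] at h1
    have h2 : ‖G j z a b‖ ^ 2 ≤ ∑ b, ‖G j z a b‖ ^ 2 :=
      Finset.single_le_sum (f := fun b => ‖G j z a b‖ ^ 2) (fun _ _ => by positivity)
        (Finset.mem_univ b)
    have h3 : (∑ b, ‖G j z a b‖ ^ 2) ≤ ∑ a, ∑ b, ‖G j z a b‖ ^ 2 :=
      Finset.single_le_sum (f := fun a => ∑ b, ‖G j z a b‖ ^ 2)
        (fun _ _ => Finset.sum_nonneg fun _ _ => by positivity) (Finset.mem_univ a)
    have h4 : ‖((((Real.sqrt M)⁻¹ : ℝ) : ℂ) • G j z) a b‖ ^ 2 ≤ 1 := by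
      rw [hnrm, ← hν2]
      exact mul_le_mul_of_nonneg_left (h2.trans (h3.trans h1)) (by positivity)
    have h5 := norm_nonneg (((((Real.sqrt M)⁻¹ : ℝ) : ℂ) • G j z) a b)
    nlinarith
  · obtain ⟨j, hj⟩ := V_cover (hKne z0 hz0).1 (hKne z0 hz0).2
    refine ⟨j, z0, hj, hz0, ?_⟩
    simp only [hnrm]
    rw [← hν2, hMdef, huj j z0 hj, Finset.mul_sum]
    refine Finset.sum_congr rfl fun a _ => ?_
    rw [Finset.mul_sum]

end Pool.Agent.MSU

end

section

/-! Stability is an open condition. -/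

open Matrix Polynomial Filter Topology
open Pool.Agent.Work.MP_5e5ff1_ag

namespace Pool.Agent.MSU

namespace ItemNOpen

/-! ### coefficientwise limits of polynomials of bounded degree -/

/-- coefficientwise convergence, with bounded degrees -/
def Lim (P : ℕ → ℂ[X]) (Q : ℂ[X]) : Prop :=
  (∃ D : ℕ, (∀ n, (P n).natDegree ≤ D) ∧ Q.natDegree ≤ D) ∧
    ∀ m, Tendsto (fun n => (P n).coeff m) atTop (𝓝 (Q.coeff m))

lemma Lim.const (Q : ℂ[X]) : Lim (fun _ => Q) Q :=
  ⟨⟨Q.natDegree, fun _ => le_rfl, le_rfl⟩, fun _ => tendsto_const_nhds⟩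

lemma Lim.add {P P' : ℕ → ℂ[X]} {Q Q' : ℂ[X]} (h : Lim P Q) (h' : Lim P' Q') :
    Lim (fun n => P n + P' n) (Q + Q') := by
  obtain ⟨⟨D, hD, hD'⟩, hc⟩ := h
  obtain ⟨⟨E, hE, hE'⟩, he⟩ := h'
  refine ⟨⟨max D E, fun n => ?_, ?_⟩, fun m => ?_⟩
  · exact (natDegree_add_le _ _).trans (max_le_max (hD n) (hE n))
  · exact (natDegree_add_le _ _).trans (max_le_max hD' hE')
  · simp only [coeff_add]
    exact (hc m).add (he m)

lemma Lim.mul {P P' : ℕ → ℂ[X]} {Q Q' : ℂ[X]} (h : Lim P Q) (h' : Lim P' Q') :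
    Lim (fun n => P n * P' n) (Q * Q') := by
  obtain ⟨⟨D, hD, hD'⟩, hc⟩ := h
  obtain ⟨⟨E, hE, hE'⟩, he⟩ := h'
  refine ⟨⟨D + E, fun n => ?_, ?_⟩, fun m => ?_⟩
  · exact natDegree_mul_le.trans (add_le_add (hD n) (hE n))
  · exact natDegree_mul_le.trans (add_le_add hD' hE')
  · simp only [coeff_mul]
    exact tendsto_finsetSum _ fun x _ => (hc x.1).mul (he x.2)

lemma Lim.sum {α : Type*} (s : Finset α) {P : ℕ → α → ℂ[X]} {Q : α → ℂ[X]}
    (h : ∀ a, Lim (fun n => P n a) (Q a)) : Lim (fun n => ∑ a ∈ s, P n a) (∑ a ∈ s, Q a) := by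
  classical
  induction s using Finset.induction_on with
  | empty => simpa using Lim.const 0
  | insert a s ha ih =>
    simp only [Finset.sum_insert ha]
    exact (h a).add ih

lemma Lim.prod {α : Type*} (s : Finset α) {P : ℕ → α → ℂ[X]} {Q : α → ℂ[X]}
    (h : ∀ a, Lim (fun n => P n a) (Q a)) : Lim (fun n => ∏ a ∈ s, P n a) (∏ a ∈ s, Q a) := by
  classical
  induction s using Finset.induction_on with
  | empty => simpa using Lim.const 1
  | insert a s ha ih =>
    simp only [Finset.prod_insert ha]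
    exact (h a).mul ih

lemma Lim.pow {P : ℕ → ℂ[X]} {Q : ℂ[X]} (h : Lim P Q) (k : ℕ) :
    Lim (fun n => P n ^ k) (Q ^ k) := by
  induction k with
  | zero => simpa using Lim.const 1
  | succ k ih =>
    simp only [pow_succ]
    exact ih.mul h

lemma Lim.det {k : ℕ} {A : ℕ → Matrix (Fin k) (Fin k) ℂ[X]} {B : Matrix (Fin k) (Fin k) ℂ[X]}
    (h : ∀ a b, Lim (fun n => A n a b) (B a b)) : Lim (fun n => (A n).det) B.det := by
  simp only [det_apply']
  exact Lim.sum _ fun σ => (Lim.const _).mul (Lim.prod _ fun a => h (σ a) a)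

lemma Lim.unique {P : ℕ → ℂ[X]} {Q Q' : ℂ[X]} (h : Lim P Q) (h' : Lim P Q') : Q = Q' := by
  ext m
  exact tendsto_nhds_unique (h.2 m) (h'.2 m)

lemma comp_eq_sum {P G : ℂ[X]} {D : ℕ} (h : P.natDegree ≤ D) :
    P.comp G = ∑ i ∈ Finset.range (D + 1), C (P.coeff i) * G ^ i := by
  rw [comp_eq_sum_left, sum_over_range' _ _ (D + 1) (by omega)]
  intro n
  simp

lemma Lim.comp {P : ℕ → ℂ[X]} {Q : ℂ[X]} (h : Lim P Q) (G : ℂ[X]) :
    Lim (fun n => (P n).comp G) (Q.comp G) := by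
  obtain ⟨⟨D, hD, hD'⟩, hc⟩ := h
  rw [comp_eq_sum hD']
  have h1 : (fun n => (P n).comp G)
      = fun n => ∑ i ∈ Finset.range (D + 1), C ((P n).coeff i) * G ^ i := by
    funext n
    exact comp_eq_sum (hD n)
  rw [h1]
  apply Lim.sum
  intro i
  refine Lim.mul ⟨⟨0, fun n => by simp, by simp⟩, fun m => ?_⟩ (Lim.const _)
  simp only [coeff_C]
  split_ifs
  · exact hc i
  · exact tendsto_const_nhds

/-- the multiplicity of a root is upper semicontinuous -/
lemma Lim.root {P : ℕ → ℂ[X]} {Q : ℂ[X]} (h : Lim P Q) (hQ : Q ≠ 0) (a : ℂ) :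
    ∀ᶠ n in atTop, P n ≠ 0 ∧ (P n).rootMultiplicity a ≤ Q.rootMultiplicity a := by
  have h1 := h.comp (X + C a)
  have hQ1 : Q.comp (X + C a) ≠ 0 := by
    intro h0
    apply hQ
    have := congrArg (fun q : ℂ[X] => q.comp (X - C a)) h0
    simpa [comp_assoc] using this
  have h2 : (Q.comp (X + C a)).coeff (Q.rootMultiplicity a) ≠ 0 := by
    rw [rootMultiplicity_eq_natTrailingDegree]
    exact coeff_natTrailingDegree_ne_zero.mpr hQ1
  filter_upwards [(h1.2 (Q.rootMultiplicity a)).eventually_ne h2] with n hn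
  refine ⟨?_, ?_⟩
  · rintro h0
    apply hn
    rw [h0]
    simp
  · rw [rootMultiplicity_eq_natTrailingDegree (p := P n)]
    exact natTrailingDegree_le_of_ne_zero hn

/-- the degree is lower semicontinuous -/
lemma Lim.deg {P : ℕ → ℂ[X]} {Q : ℂ[X]} (h : Lim P Q) (hQ : Q ≠ 0) :
    ∀ᶠ n in atTop, P n ≠ 0 ∧ Q.natDegree ≤ (P n).natDegree := by
  have h2 : Q.coeff Q.natDegree ≠ 0 := by
    rw [coeff_natDegree]
    exact leadingCoeff_ne_zero.mpr hQ
  filter_upwards [(h.2 Q.natDegree).eventually_ne h2] with n hn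
  refine ⟨?_, le_natDegree_of_ne_zero hn⟩
  rintro h0
  apply hn
  rw [h0]
  simp

/-! ### Pluecker relations -/

lemma pluecker {r k : ℕ} (hk : 0 < k) (Y : Matrix (Fin r) (Fin k) ℂ[X]) (s : ℂ[X])
    (J0 J : Fin k → Fin r) :
    (Matrix.of fun a b => s * (Y.submatrix (Function.update J0 b (J a)) id).det).det
      = (s * (Y.submatrix J0 id).det) ^ (k - 1) * (s * (Y.submatrix J id).det) := by
  have h1 : (Matrix.of fun a b => s * (Y.submatrix (Function.update J0 b (J a)) id).det)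
      = s • (Y.submatrix J id * adjugate (Y.submatrix J0 id)) := by
    ext1 a b
    rw [Matrix.of_apply, Matrix.smul_apply, smul_eq_mul, ← T.mul_adjugate_minor]
    rfl
  rw [h1, det_smul, det_mul, det_adjugate, Fintype.card_fin]
  obtain ⟨m, rfl⟩ : ∃ m, k = m + 1 := ⟨k - 1, by omega⟩
  simp only [Nat.add_sub_cancel]
  ring

/-! ### the matrix at infinity -/

lemma Rh_mul {r : ℕ} {i j : Fin r} (hij : i ≠ j) (ε : ℂ) :
    ((X : ℂ[X]) • (1 : Matrix (Fin r) (Fin r) ℂ[X]) - (C ε : ℂ[X]) • Matrix.single i j (1 : ℂ[X]))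
      * Rh i j ε = ((X : ℂ[X]) ^ 2) • (1 : Matrix (Fin r) (Fin r) ℂ[X]) := by
  unfold Rh
  have h1 : Matrix.single i j (1 : ℂ[X]) * Matrix.single i j (1 : ℂ[X]) = 0 := by
    exact Matrix.single_mul_single_of_ne _ _ _ _ (Ne.symm hij) _
  rw [Matrix.sub_mul, Matrix.mul_add, Matrix.mul_add]
  simp only [Matrix.smul_mul, Matrix.mul_smul, Matrix.one_mul, Matrix.mul_one, h1, smul_zero,
    smul_smul]
  rw [add_zero, mul_comm (C ε) X, add_sub_cancel_right, sq]

lemma Rh_zero {r : ℕ} (i j : Fin r) :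
    Rh i j 0 = (X : ℂ[X]) • (1 : Matrix (Fin r) (Fin r) ℂ[X]) := by
  unfold Rh
  simp

lemma minor_smul {r k : ℕ} (s : ℂ[X]) (Y : Matrix (Fin r) (Fin k) ℂ[X]) (J : Fin k → Fin r) :
    ((s • Y).submatrix J id).det = s ^ k * (Y.submatrix J id).det := by
  have h1 : (s • Y).submatrix J id = s • Y.submatrix J id := rfl
  rw [h1, det_smul, Fintype.card_fin]

/-- a bound for the degrees of the minors of `W` -/
lemma natDegree_le {r k D : ℕ} {i j : Fin r} (hij : i ≠ j) (ε : ℂ)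
    (W : Matrix (Fin r) (Fin k) ℂ[X])
    (h : ∀ J : Fin k → Fin r, ((Rh i j ε * W).submatrix J id).det.natDegree ≤ D)
    (J : Fin k → Fin r) : (W.submatrix J id).det.natDegree ≤ k + D := by
  by_cases h0 : (W.submatrix J id).det = 0
  · rw [h0]; simp
  set M : Matrix (Fin r) (Fin r) ℂ[X] := (X : ℂ[X]) • (1 : Matrix (Fin r) (Fin r) ℂ[X])
    - (C ε : ℂ[X]) • Matrix.single i j (1 : ℂ[X]) with hM
  have h1 : M * (Rh i j ε * W) = ((X : ℂ[X]) ^ 2) • W := by
    rw [← Matrix.mul_assoc, hM, Rh_mul hij, Matrix.smul_mul, Matrix.one_mul]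
  have hMd : ∀ a b, (M a b).natDegree ≤ 1 := by
    intro a b
    rw [hM, Matrix.sub_apply, Matrix.smul_apply, Matrix.smul_apply, smul_eq_mul, smul_eq_mul]
    refine (natDegree_sub_le _ _).trans (max_le ?_ ?_)
    · rw [Matrix.one_apply]
      split_ifs <;> simp
    · rw [Matrix.single_apply]
      split_ifs <;> simp
  have h2 : ((M * (Rh i j ε * W)).submatrix J id).det.natDegree ≤ k + D := by
    rw [T.minor_mul]
    apply natDegree_sum_le_of_forall_le
    intro f _
    refine natDegree_mul_le.trans (add_le_add ?_ (h f))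
    refine (natDegree_prod_le _ _).trans ?_
    refine (Finset.sum_le_sum fun l _ => hMd _ _).trans ?_
    simp
  rw [h1, minor_smul, natDegree_mul (pow_ne_zero _ (pow_ne_zero _ X_ne_zero)) h0] at h2
  omega

/-- some minor of `γ W` does not vanish at the point -/
lemma exists_minor {r k : ℕ} {γ : Matrix (Fin r) (Fin r) ℂ} (hγ : IsUnit γ.det)
    {W : Matrix (Fin r) (Fin k) ℂ[X]} (hW : T.IsSub W) (a : ℂ) :
    ∃ J : Fin k → Fin r, mn γ W J ≠ 0 ∧ (mn γ W J).rootMultiplicity a = 0 := by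
  obtain ⟨J, hJ⟩ := T.fullRank_mul hγ.ne_zero (hW.fullRank_eval a)
  have h1 : (mn γ W J).eval a = ((γ * W.map (eval a)).submatrix J id).det := by
    unfold mn
    rw [T.eval_det_submatrix, T.map_eval_mul]
    congr 3
    ext1 x y
    simp
  refine ⟨J, ?_, ?_⟩
  · intro h0
    apply hJ
    rw [← h1, h0, eval_zero]
  · apply rootMultiplicity_eq_zero
    rw [IsRoot.def, h1]
    exact hJ

end ItemNOpen

open ItemNOpen in
/-- the statement for one rank `k` -/
lemma ItemNOpen.fixk (hDec : N_Dec) (hCoef : N_Coef) {r : ℕ}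
    {γ : Fin 3 → Matrix (Fin r) (Fin r) ℂ} {w : Fin 3 → Fin r → ℝ}
    (hγ : GU γ) (hγ2 : γ 2 = 1) (hst : StG γ w) {i j : Fin r} (hij : i ≠ j) {ε : ℕ → ℂ}
    {wn : ℕ → Fin 3 → Fin r → ℝ} (hε : Tendsto ε atTop (𝓝 0))
    (hw : ∀ x a, Tendsto (fun n => wn n x a) atTop (𝓝 (w x a))) {k : ℕ} (hk0 : 0 < k)
    (hkr : k < r) (W : ℕ → Matrix (Fin r) (Fin k) ℂ[X]) (hW : ∀ n, T.IsSub (W n))
    (hneg : ∀ n, ∀ J : Fin 3 → Fin k → Fin r, mn (γ 0) (W n) (J 0) ≠ 0 →
      mn (γ 1) (W n) (J 1) ≠ 0 → ((Rh i j (ε n) * W n).submatrix (J 2) id).det ≠ 0 →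
      ∑ x, ∑ a, wn n x (J x a) - ((mn (γ 0) (W n) (J 0)).rootMultiplicity 0 : ℝ)
        - ((mn (γ 1) (W n) (J 1)).rootMultiplicity 1 : ℝ)
        + ((((Rh i j (ε n) * W n).submatrix (J 2) id).det.natDegree : ℝ) - k) ≤ 0) : False := by
  -- a bound for the weights
  obtain ⟨B, hB⟩ : ∃ B : ℝ, ∀ n x a, |wn n x a| ≤ B := by
    have h1 : Tendsto wn atTop (𝓝 w) := by
      rw [tendsto_pi_nhds]
      intro x
      rw [tendsto_pi_nhds]
      exact hw x
    obtain ⟨B, hB⟩ := (Metric.isBounded_range_of_tendsto wn h1).exists_norm_le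
    refine ⟨B, fun n x a => ?_⟩
    have h2 := hB (wn n) ⟨n, rfl⟩
    have h3 := norm_le_pi_norm (wn n x) a
    have h4 := norm_le_pi_norm (wn n) x
    rw [Real.norm_eq_abs] at h3
    linarith
  -- a bound for the degrees
  set D0 : ℕ := k + ⌈3 * k * B⌉₊ with hD0
  have hdeg1 : ∀ n, ∀ J : Fin k → Fin r,
      ((Rh i j (ε n) * W n).submatrix J id).det.natDegree ≤ D0 := by
    intro n J
    by_cases h0 : ((Rh i j (ε n) * W n).submatrix J id).det = 0
    · rw [h0]; simp
    obtain ⟨J0, hJ0, hJ0'⟩ := exists_minor (hγ 0) (hW n) 0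
    obtain ⟨J1, hJ1, hJ1'⟩ := exists_minor (hγ 1) (hW n) 1
    have h1 := hneg n ![J0, J1, J] hJ0 hJ1 h0
    simp only [Matrix.cons_val_zero, Matrix.cons_val_one, Matrix.cons_val, hJ0', hJ1',
      Nat.cast_zero, sub_zero] at h1
    have h2 : -(3 * k * B) ≤ ∑ x, ∑ a, wn n x ((![J0, J1, J] : Fin 3 → Fin k → Fin r) x a) := by
      have h3 : ∀ x : Fin 3, -(k * B)
          ≤ ∑ a, wn n x ((![J0, J1, J] : Fin 3 → Fin k → Fin r) x a) := by
        intro x
        have h4 : ∑ a : Fin k, (-B) ≤ ∑ a, wn n x ((![J0, J1, J] : Fin 3 → Fin k → Fin r) x a) :=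
          Finset.sum_le_sum fun a _ => by
            have := hB n x ((![J0, J1, J] : Fin 3 → Fin k → Fin r) x a)
            exact (abs_le.mp this).1
        simp only [Finset.sum_const, Finset.card_univ, Fintype.card_fin, nsmul_eq_mul] at h4
        linarith
      have h5 : ∑ x : Fin 3, (-(k * B))
          ≤ ∑ x, ∑ a, wn n x ((![J0, J1, J] : Fin 3 → Fin k → Fin r) x a) :=
        Finset.sum_le_sum fun x _ => h3 x
      simp only [Finset.sum_const, Finset.card_univ, Fintype.card_fin, nsmul_eq_mul] at h5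
      push_cast at h5
      linarith
    have h6 : ((((Rh i j (ε n) * W n).submatrix J id).det.natDegree : ℕ) : ℝ) ≤ D0 := by
      rw [hD0]
      push_cast
      have := Nat.le_ceil (3 * (k : ℝ) * B)
      linarith
    exact_mod_cast h6
  have hdeg2 : ∀ n, ∀ J : Fin k → Fin r, ((W n).submatrix J id).det.natDegree ≤ k + D0 :=
    fun n J => natDegree_le hij (ε n) (W n) (hdeg1 n) J
  -- the limit
  obtain ⟨φ, c, q, hφ, hc, hq0, hqD, hlim⟩ := hCoef (Fin k → Fin r) (k + D0)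
    (fun n J => ((W n).submatrix J id).det) hdeg2 (fun n => (hW n).fullRank)
  have hL : ∀ J : Fin k → Fin r, Lim (fun n => C (c n) * ((W (φ n)).submatrix J id).det) (q J) := by
    intro J
    refine ⟨⟨k + D0, fun n => ?_, hqD J⟩, fun m => ?_⟩
    · exact (natDegree_C_mul_le _ _).trans (hdeg2 (φ n) J)
    · simp only [coeff_C_mul]
      exact hlim J m
  -- the limit is decomposable
  obtain ⟨W0, h, hW0, hh, hqW⟩ := hDec r k q hk0 hq0 (by
    intro J0 J
    refine Lim.unique (P := fun n => (Matrix.of fun a b => C (c n)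
      * ((W (φ n)).submatrix (Function.update J0 b (J a)) id).det).det) ?_ ?_
    · exact Lim.det fun a b => hL (Function.update J0 b (J a))
    · have h1 : (fun n => (Matrix.of fun a b => C (c n)
          * ((W (φ n)).submatrix (Function.update J0 b (J a)) id).det).det)
          = fun n => (C (c n) * ((W (φ n)).submatrix J0 id).det) ^ (k - 1)
            * (C (c n) * ((W (φ n)).submatrix J id).det) := by
        funext n
        exact pluecker hk0 (W (φ n)) (C (c n)) J0 J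
      rw [h1]
      exact ((hL J0).pow _).mul (hL J))
  -- stability of the limit
  obtain ⟨J, hJ, hpos⟩ := hst k hk0 hkr W0 hW0
  have hLx : ∀ x, Lim (fun n => C (c n) * mn (γ x) (W (φ n)) (J x)) (h * mn (γ x) W0 (J x)) := by
    intro x
    have h1 : (fun n => C (c n) * mn (γ x) (W (φ n)) (J x))
        = fun n => ∑ f : Fin k → Fin r, (∏ l, (γ x).map C (J x l) (f l))
          * (C (c n) * ((W (φ n)).submatrix f id).det) := by
      funext n
      unfold mn
      rw [T.minor_mul, Finset.mul_sum]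
      apply Finset.sum_congr rfl
      intro f _
      ring
    have h2 : h * mn (γ x) W0 (J x)
        = ∑ f : Fin k → Fin r, (∏ l, (γ x).map C (J x l) (f l)) * q f := by
      unfold mn
      rw [T.minor_mul, Finset.mul_sum]
      apply Finset.sum_congr rfl
      intro f _
      rw [hqW]
      ring
    rw [h1, h2]
    exact Lim.sum _ fun f => (Lim.const _).mul (hL f)
  have hLi : Lim (fun n => C (c n) * ((Rh i j (ε (φ n)) * W (φ n)).submatrix (J 2) id).det)
      (X ^ k * (h * mn (γ 2) W0 (J 2))) := by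
    have h1 : (fun n => C (c n) * ((Rh i j (ε (φ n)) * W (φ n)).submatrix (J 2) id).det)
        = fun n => ∑ f : Fin k → Fin r, (∏ l, Rh i j (ε (φ n)) (J 2 l) (f l))
          * (C (c n) * ((W (φ n)).submatrix f id).det) := by
      funext n
      rw [T.minor_mul, Finset.mul_sum]
      apply Finset.sum_congr rfl
      intro f _
      ring
    have h2 : X ^ k * (h * mn (γ 2) W0 (J 2))
        = ∑ f : Fin k → Fin r, (∏ l, Rh i j 0 (J 2 l) (f l)) * q f := by
      have h3 : X ^ k * (h * mn (γ 2) W0 (J 2))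
          = h * ((Rh i j 0 * W0).submatrix (J 2) id).det := by
        rw [Rh_zero, Matrix.smul_mul, Matrix.one_mul, minor_smul]
        unfold mn
        rw [hγ2]
        have h4 : (1 : Matrix (Fin r) (Fin r) ℂ).map (C : ℂ → ℂ[X]) = 1 := by
          ext1 x y
          rw [map_apply, Matrix.one_apply, Matrix.one_apply]
          split_ifs <;> simp
        rw [h4, Matrix.one_mul]
        ring
      rw [h3, T.minor_mul, Finset.mul_sum]
      apply Finset.sum_congr rfl
      intro f _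
      rw [hqW]
      ring
    rw [h1, h2]
    refine Lim.sum _ fun f => (Lim.prod _ fun l => ?_).mul (hL f)
    unfold Rh
    simp only [Matrix.add_apply, Matrix.smul_apply, smul_eq_mul]
    refine (Lim.const _).add (Lim.mul ⟨⟨0, fun n => by simp, by simp⟩, fun m => ?_⟩ (Lim.const _))
    simp only [coeff_C]
    split_ifs
    · exact hε.comp hφ.tendsto_atTop
    · exact tendsto_const_nhds
  have e0 := (hLx 0).root (mul_ne_zero hh (hJ 0)) 0
  have e1 := (hLx 1).root (mul_ne_zero hh (hJ 1)) 1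
  have e2 := hLi.deg (mul_ne_zero (pow_ne_zero _ X_ne_zero) (mul_ne_zero hh (hJ 2)))
  -- the inequality in the limit
  have hfin : ∑ x, ∑ a, w x (J x a)
      - (((h * mn (γ 0) W0 (J 0)).rootMultiplicity 0 : ℕ) : ℝ)
      - (((h * mn (γ 1) W0 (J 1)).rootMultiplicity 1 : ℕ) : ℝ)
      + (((X ^ k * (h * mn (γ 2) W0 (J 2))).natDegree : ℕ) - (k : ℝ)) ≤ 0 := by
    have h1 : Tendsto (fun n => ∑ x, ∑ a, wn (φ n) x (J x a)
        - (((h * mn (γ 0) W0 (J 0)).rootMultiplicity 0 : ℕ) : ℝ)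
        - (((h * mn (γ 1) W0 (J 1)).rootMultiplicity 1 : ℕ) : ℝ)
        + (((X ^ k * (h * mn (γ 2) W0 (J 2))).natDegree : ℕ) - (k : ℝ))) atTop
        (𝓝 (∑ x, ∑ a, w x (J x a)
        - (((h * mn (γ 0) W0 (J 0)).rootMultiplicity 0 : ℕ) : ℝ)
        - (((h * mn (γ 1) W0 (J 1)).rootMultiplicity 1 : ℕ) : ℝ)
        + (((X ^ k * (h * mn (γ 2) W0 (J 2))).natDegree : ℕ) - (k : ℝ)))) := by
      refine ((Tendsto.sub_const (Tendsto.sub_const ?_ _) _).add_const _)
      exact tendsto_finsetSum _ fun x _ => tendsto_finsetSum _ fun a _ =>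
        (hw x (J x a)).comp hφ.tendsto_atTop
    refine le_of_tendsto h1 ?_
    filter_upwards [e0, e1, e2] with n h0 h1 h2
    have hcn : C (c n) ≠ 0 := C_ne_zero.mpr (hc n)
    have h3 : ∀ (P : ℂ[X]) (a : ℂ), C (c n) * P ≠ 0 →
        (C (c n) * P).rootMultiplicity a = P.rootMultiplicity a := by
      intro P a hP
      rw [rootMultiplicity_mul hP, rootMultiplicity_C, zero_add]
    rw [h3 _ _ h0.1] at h0
    rw [h3 _ _ h1.1] at h1
    rw [natDegree_C_mul (hc n)] at h2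
    have h4 := hneg (φ n) J (right_ne_zero_of_mul h0.1) (right_ne_zero_of_mul h1.1)
      (right_ne_zero_of_mul h2.1)
    have h5 : (((mn (γ 0) (W (φ n)) (J 0)).rootMultiplicity 0 : ℕ) : ℝ)
        ≤ (((h * mn (γ 0) W0 (J 0)).rootMultiplicity 0 : ℕ) : ℝ) := by exact_mod_cast h0.2
    have h6 : (((mn (γ 1) (W (φ n)) (J 1)).rootMultiplicity 1 : ℕ) : ℝ)
        ≤ (((h * mn (γ 1) W0 (J 1)).rootMultiplicity 1 : ℕ) : ℝ) := by exact_mod_cast h1.2
    have h7 : (((X ^ k * (h * mn (γ 2) W0 (J 2))).natDegree : ℕ) : ℝ)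
        ≤ ((((Rh i j (ε (φ n)) * W (φ n)).submatrix (J 2) id).det.natDegree : ℕ) : ℝ) := by
      exact_mod_cast h2.2
    linarith
  rw [rootMultiplicity_mul (mul_ne_zero hh (hJ 0)), rootMultiplicity_mul (mul_ne_zero hh (hJ 1)),
    natDegree_mul (pow_ne_zero _ X_ne_zero) (mul_ne_zero hh (hJ 2)), natDegree_X_pow,
    natDegree_mul hh (hJ 2)] at hfin
  have h8 := S.rootMultiplicity_add_le h
  have h9 : ((h.rootMultiplicity 0 : ℕ) : ℝ) + ((h.rootMultiplicity 1 : ℕ) : ℝ)
      ≤ ((h.natDegree : ℕ) : ℝ) := by exact_mod_cast h8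
  push_cast at hfin
  linarith

theorem prf_N_Open (hDec : N_Dec) (hCoef : N_Coef) : N_Open := by
  intro r γ w hγ hγ2 hst i j hij ε wn hε hw
  have hmain : ∀ k ∈ Finset.range r, ∀ᶠ n in atTop, 0 < k →
      ∀ W : Matrix (Fin r) (Fin k) ℂ[X], T.IsSub W →
      ∃ J : Fin 3 → Fin k → Fin r, mn (γ 0) W (J 0) ≠ 0 ∧ mn (γ 1) W (J 1) ≠ 0 ∧
        ((Rh i j (ε n) * W).submatrix (J 2) id).det ≠ 0 ∧
        0 < ∑ x, ∑ a, wn n x (J x a) - ((mn (γ 0) W (J 0)).rootMultiplicity 0 : ℝ)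
          - ((mn (γ 1) W (J 1)).rootMultiplicity 1 : ℝ)
          + ((((Rh i j (ε n) * W).submatrix (J 2) id).det.natDegree : ℝ) - k) := by
    intro k hk
    by_contra hcon
    obtain ⟨ψ, hψ, hψ'⟩ := extraction_of_frequently_atTop (not_eventually.mp hcon)
    push Not at hψ'
    choose hk0 W hW hneg using hψ'
    exact ItemNOpen.fixk hDec hCoef hγ hγ2 hst hij (hε.comp hψ.tendsto_atTop)
      (wn := fun n => wn (ψ n)) (fun x a => (hw x a).comp hψ.tendsto_atTop) (hk0 0)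
      (Finset.mem_range.mp hk) W hW hneg
  rw [← Filter.eventually_all_finset] at hmain
  filter_upwards [hmain] with n hn
  intro k hk0 hkr W hW
  exact hn k (Finset.mem_range.mpr hkr) hk0 W hW

end Pool.Agent.MSU

end
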