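import Mathlib
import Pool.Agent.Work.MP_5e5ff1_ag.Bd.B09
import Pool.Agent.Work.MP_5e5ff1_ag.Unit.Stmts
import Pool.Agent.Work.MP_5e5ff1_ag.T.Par
import Pool.Agent.Work.MP_5e5ff1_ag.Unit.Geo
import Pool.Agent.Work.MP_5e5ff1_ag.Bd.B06
import Pool.Agent.Work.MP_5e5ff1_ag.T.Minors
import Pool.Agent.Work.MP_5e5ff1_ag.Bd.B01
import Pool.Agent.Work.MP_5e5ff1_ag.Bd.B04
import Pool.Agent.Work.MP_5e5ff1_ag.Bd.B10

/-! Bundle of small proof modules (one section per former module). -/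

section

/-! M_Fib: the fibres of the subbundles of degree zero are the invariant subspaces. -/

open Matrix Polynomial Filter Topology
open Pool.Agent.Work.MP_5e5ff1_ag

namespace Pool.Agent.MSU

theorem prf_M_Fib (hSup : M_Sup) (hSub : M_Sub) : M_Fib := by
  intro κ _ _ g₀ g₁ v G Q h0 h1 hss hMV hRow hCol hU j z hz
  ext U'
  constructor
  · rintro ⟨k, W, hW, hpd, rfl⟩
    obtain ⟨U, hinv, hfib⟩ := hSub κ g₀ g₁ v G Q h0 h1 hMV hCol hU k W hW hpd.ge
    exact ⟨U, hinv, (hfib j z hz).symm⟩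
  · rintro ⟨U, hinv, rfl⟩
    obtain ⟨k, W, -, hW, hpd, hfib⟩ := hSup κ g₀ g₁ v G Q h0 h1 hss.1 hMV hRow hU U hinv
    exact ⟨k, W, hW, le_antisymm (hss.2 k W hW) hpd, (hfib j z hz).symm⟩

end Pool.Agent.MSU

end

section

/-! Finite unitary groups in terms of the invariant subspaces of tensor powers. -/

open Matrix Polynomial Filter Topology
open Pool.Agent.Work.MP_5e5ff1_ag

namespace Pool.Agent.MSU.ItemMGrp

open Pool.Agent.Work.MP_5e5ff1_ag.T Pool.Agent.Work.MP_5e5ff1_ag.A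

variable {r : ℕ}

lemma inv_closure (A : Fin 3 → Matrix.unitaryGroup (Fin r) ℂ) {a : ℕ}
    (U : Submodule ℂ ((Fin a → Unit ⊕ Fin r) → ℂ))
    (hU : ∀ x, U.map (T.tens a (A x : Matrix (Fin r) (Fin r) ℂ)).mulVecLin ≤ U)
    (h : Matrix.unitaryGroup (Fin r) ℂ) (hh : h ∈ Subgroup.closure (Set.range A)) :
    ∀ u ∈ U, T.tens a (h : Matrix (Fin r) (Fin r) ℂ) *ᵥ u ∈ U := by
  induction hh using Subgroup.closure_induction with
  | mem x hx =>
    obtain ⟨i, rfl⟩ := hx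
    intro u hu
    exact hU i (Submodule.mem_map_of_mem hu)
  | one =>
    intro u hu
    have h1 : ((1 : Matrix.unitaryGroup (Fin r) ℂ) : Matrix (Fin r) (Fin r) ℂ) = 1 := rfl
    rw [h1, tens_one, Matrix.one_mulVec]
    exact hu
  | mul x y _ _ ihx ihy =>
    intro u hu
    have h1 : ((x * y : Matrix.unitaryGroup (Fin r) ℂ) : Matrix (Fin r) (Fin r) ℂ)
      = (x : Matrix (Fin r) (Fin r) ℂ) * (y : Matrix (Fin r) (Fin r) ℂ) := rfl
    rw [h1, tens_mul, ← Matrix.mulVec_mulVec]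
    exact ihx _ (ihy _ hu)
  | inv x _ ih =>
    intro u hu
    have h1 : T.tens a ((x⁻¹ : Matrix.unitaryGroup (Fin r) ℂ) : Matrix (Fin r) (Fin r) ℂ)
        * T.tens a (x : Matrix (Fin r) (Fin r) ℂ) = 1 := by
      rw [← tens_mul]
      have h2 : ((x⁻¹ : Matrix.unitaryGroup (Fin r) ℂ) : Matrix (Fin r) (Fin r) ℂ)
          * (x : Matrix (Fin r) (Fin r) ℂ)
          = ((x⁻¹ * x : Matrix.unitaryGroup (Fin r) ℂ) : Matrix (Fin r) (Fin r) ℂ) := rfl
      rw [h2, inv_mul_cancel]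
      exact tens_one a
    let g : U →ₗ[ℂ] U := (T.tens a (x : Matrix (Fin r) (Fin r) ℂ)).mulVecLin.restrict ih
    have hg : Function.Injective g := by
      rw [injective_iff_map_eq_zero]
      intro c hc
      have h3 : T.tens a (x : Matrix (Fin r) (Fin r) ℂ) *ᵥ (c : (Fin a → Unit ⊕ Fin r) → ℂ) = 0 :=
        congrArg Subtype.val hc
      apply Subtype.ext
      have h4 := congrArg (fun v => T.tens a ((x⁻¹ : Matrix.unitaryGroup (Fin r) ℂ) :
        Matrix (Fin r) (Fin r) ℂ) *ᵥ v) h3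
      simp only [Matrix.mulVec_mulVec, h1, Matrix.one_mulVec, Matrix.mulVec_zero] at h4
      exact h4
    obtain ⟨u', hu'⟩ := (LinearMap.injective_iff_surjective.mp hg) ⟨u, hu⟩
    have h5 : T.tens a (x : Matrix (Fin r) (Fin r) ℂ) *ᵥ (u' : (Fin a → Unit ⊕ Fin r) → ℂ) = u :=
      congrArg Subtype.val hu'
    rw [← h5, Matrix.mulVec_mulVec, h1, Matrix.one_mulVec]
    exact u'.2

lemma vec_apply {a : ℕ} (h : Matrix (Fin r) (Fin r) ℂ) (τ : Fin a → Fin r)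
    (f : Fin a → Unit ⊕ Fin r) :
    (T.tens a h *ᵥ tensVec τ) f = ∏ l, Sum.elim (fun _ => 1) (fun m => h m (τ l)) (f l) := by
  rw [tensVec_eq, tens_tensVec]

/-- evaluation of a product functional -/
lemma functional {a : ℕ} (c : Fin a → (Unit ⊕ Fin r) → ℂ) (h : Matrix (Fin r) (Fin r) ℂ)
    (τ : Fin a → Fin r) :
    ∑ f : Fin a → Unit ⊕ Fin r, (∏ l, c l (f l)) * (T.tens a h *ᵥ tensVec τ) f
      = ∏ l, (c l (Sum.inl ()) + ∑ m, c l (Sum.inr m) * h m (τ l)) := by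
  simp_rw [vec_apply, ← Finset.prod_mul_distrib]
  have h1 : ∀ l : Fin a, (c l (Sum.inl ()) + ∑ m, c l (Sum.inr m) * h m (τ l))
      = ∑ z : Unit ⊕ Fin r, c l z * Sum.elim (fun _ => 1) (fun m => h m (τ l)) z := by
    intro l
    rw [Fintype.sum_sum_type]
    simp
  simp_rw [h1]
  rw [Finset.prod_univ_sum, Fintype.piFinset_univ]

lemma indep {n : ℕ} (h : Fin n → Matrix (Fin r) (Fin r) ℂ) (hinj : Function.Injective h)
    (hr : 0 < r) : ∃ (a : ℕ) (τ : Fin a → Fin r),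
      LinearIndependent ℂ (fun i => T.tens a (h i) *ᵥ (tensVec τ : (Fin a → Unit ⊕ Fin r) → ℂ)) := by
  classical
  have h1 : ∀ i i' : Fin n, ∃ p q : Fin r, i ≠ i' → h i p q ≠ h i' p q := by
    intro i i'
    by_cases hi : i = i'
    · exact ⟨⟨0, hr⟩, ⟨0, hr⟩, fun h => absurd hi h⟩
    · by_contra hcon
      push Not at hcon
      apply hi
      apply hinj
      ext p q
      exact (hcon p q).2
  choose p q hpq using h1
  refine ⟨n * n, fun l => q (finProdFinEquiv.symm l).1 (finProdFinEquiv.symm l).2, ?_⟩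
  rw [Fintype.linearIndependent_iff]
  intro g hg i
  -- the coefficients of the functional
  set c : Fin (n * n) → (Unit ⊕ Fin r) → ℂ := fun l =>
    if (finProdFinEquiv.symm l).1 = i ∧ i ≠ (finProdFinEquiv.symm l).2 then
      Sum.elim (fun _ => - h (finProdFinEquiv.symm l).2 (p i (finProdFinEquiv.symm l).2)
        (q i (finProdFinEquiv.symm l).2)) (fun m => if m = p i (finProdFinEquiv.symm l).2 then 1
        else 0)
    else Sum.elim (fun _ => 1) (fun _ => 0) with hc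
  have hfac : ∀ (x : Matrix (Fin r) (Fin r) ℂ) (l : Fin (n * n)),
      (c l (Sum.inl ()) + ∑ m, c l (Sum.inr m) * x m (q (finProdFinEquiv.symm l).1
        (finProdFinEquiv.symm l).2))
      = if (finProdFinEquiv.symm l).1 = i ∧ i ≠ (finProdFinEquiv.symm l).2 then
          x (p i (finProdFinEquiv.symm l).2) (q i (finProdFinEquiv.symm l).2)
            - h (finProdFinEquiv.symm l).2 (p i (finProdFinEquiv.symm l).2)
              (q i (finProdFinEquiv.symm l).2) else 1 := by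
    intro x l
    simp only [hc]
    split_ifs with hl
    · rw [hl.1]
      simp only [Sum.elim_inl, Sum.elim_inr, ite_mul, one_mul, zero_mul, Finset.sum_ite_eq',
        Finset.mem_univ, if_true]
      ring
    · simp
  have h2 := congrArg (fun v : (Fin (n * n) → Unit ⊕ Fin r) → ℂ =>
    ∑ f : Fin (n * n) → Unit ⊕ Fin r, (∏ l, c l (f l)) * v f) hg
  simp only [Finset.sum_apply, Pi.smul_apply, smul_eq_mul, Pi.zero_apply, mul_zero,
    Finset.sum_const_zero, Finset.mul_sum] at h2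
  rw [Finset.sum_comm] at h2
  have h3 : ∀ j : Fin n, ∑ f : Fin (n * n) → Unit ⊕ Fin r, (∏ l, c l (f l)) * (g j *
      (T.tens (n * n) (h j) *ᵥ tensVec (fun l => q (finProdFinEquiv.symm l).1
        (finProdFinEquiv.symm l).2)) f)
      = g j * ∏ l, (if (finProdFinEquiv.symm l).1 = i ∧ i ≠ (finProdFinEquiv.symm l).2 then
          h j (p i (finProdFinEquiv.symm l).2) (q i (finProdFinEquiv.symm l).2)
            - h (finProdFinEquiv.symm l).2 (p i (finProdFinEquiv.symm l).2)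
              (q i (finProdFinEquiv.symm l).2) else 1) := by
    intro j
    rw [← Finset.prod_congr rfl (fun l _ => hfac (h j) l), ← functional, Finset.mul_sum]
    apply Finset.sum_congr rfl
    intro f _
    ring
  rw [Finset.sum_congr rfl (fun j _ => h3 j), Finset.sum_eq_single i] at h2
  · rcases mul_eq_zero.mp h2 with h4 | h4
    · exact h4
    · exfalso
      obtain ⟨l, _, hl⟩ := Finset.prod_eq_zero_iff.mp h4
      split_ifs at hl with hl'
      · exact hpq i _ hl'.2 (sub_eq_zero.mp hl)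
      · exact one_ne_zero hl
  · intro j _ hj
    rw [Finset.prod_eq_zero (Finset.mem_univ (finProdFinEquiv (i, j))), mul_zero]
    rw [Equiv.symm_apply_apply, if_pos ⟨rfl, Ne.symm hj⟩, sub_self]
  · intro hi
    exact absurd (Finset.mem_univ i) hi

end Pool.Agent.MSU.ItemMGrp

namespace Pool.Agent.MSU

open ItemMGrp Pool.Agent.Work.MP_5e5ff1_ag.T Pool.Agent.Work.MP_5e5ff1_ag.A

theorem prf_M_Grp : M_Grp := by
  classical
  intro r A
  constructor
  · rintro ⟨D, hD⟩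
    by_contra hfin
    have hinf : Infinite (Subgroup.closure (Set.range A)) := not_finite_iff_infinite.mp hfin
    set e : Fin (D + 2) → Subgroup.closure (Set.range A) :=
      fun i => Infinite.natEmbedding _ i.val with he
    have hinj : Function.Injective (fun i => ((e i : Matrix.unitaryGroup (Fin r) ℂ) :
        Matrix (Fin r) (Fin r) ℂ)) := by
      intro i j hij
      have h1 : e i = e j := Subtype.ext (Subtype.ext hij)
      have h2 := (Infinite.natEmbedding _).injective h1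
      exact Fin.ext h2
    have hr : 0 < r := by
      rcases Nat.eq_zero_or_pos r with h0 | h0
      · subst h0
        exfalso
        have h1 : (⟨0, by omega⟩ : Fin (D + 2)) = ⟨1, by omega⟩ := by
          apply hinj
          ext p
          exact p.elim0
        simp at h1
      · exact h0
    obtain ⟨a, τ, hli⟩ := indep _ hinj hr
    obtain ⟨U, hU, hrk, hmem⟩ := hD a τ
    have hv : ∀ i : Fin (D + 2), T.tens a ((e i : Matrix.unitaryGroup (Fin r) ℂ) :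
        Matrix (Fin r) (Fin r) ℂ) *ᵥ (tensVec τ : (Fin a → Unit ⊕ Fin r) → ℂ) ∈ U :=
      fun i => inv_closure A U hU (e i) (e i).2 _ hmem
    have hli' : LinearIndependent ℂ (fun i => (⟨_, hv i⟩ : U)) := by
      apply LinearIndependent.of_comp U.subtype
      exact hli
    have h1 := hli'.fintype_card_le_finrank
    rw [Fintype.card_fin] at h1
    omega
  · intro hfin
    have : Fintype (Subgroup.closure (Set.range A)) := Fintype.ofFinite _
    refine ⟨Fintype.card (Subgroup.closure (Set.range A)), fun a τ => ?_⟩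
    refine ⟨Submodule.span ℂ (Set.range (fun h : Subgroup.closure (Set.range A) =>
      T.tens a ((h : Matrix.unitaryGroup (Fin r) ℂ) : Matrix (Fin r) (Fin r) ℂ)
        *ᵥ (tensVec τ : (Fin a → Unit ⊕ Fin r) → ℂ))), ?_, finrank_range_le_card _, ?_⟩
    · intro x
      rw [Submodule.map_span_le]
      rintro _ ⟨h, rfl⟩
      apply Submodule.subset_span
      refine ⟨⟨A x * h, Subgroup.mul_mem _ (Subgroup.subset_closure ⟨x, rfl⟩) h.2⟩, ?_⟩
      simp only [Matrix.mulVecLin_apply, Matrix.mulVec_mulVec]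
      rw [← tens_mul]
      rfl
    · apply Submodule.subset_span
      refine ⟨1, ?_⟩
      have h1 : (((1 : Subgroup.closure (Set.range A)) : Matrix.unitaryGroup (Fin r) ℂ) :
        Matrix (Fin r) (Fin r) ℂ) = 1 := rfl
      simp only [h1]
      rw [tens_one, Matrix.one_mulVec]

end Pool.Agent.MSU

end

section

/-! Item M_Irr: stable bundles give irreducible representations. -/

open Matrix Polynomial Filter Topology
open Pool.Agent.Work.MP_5e5ff1_ag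

namespace Pool.Agent.MSU

theorem prf_M_Irr (h1 : M_Sup) : M_Irr := by
  intro r g₀ g₁ v G Q hg₀ hg₁ hst hMV hRow hu U hU
  obtain ⟨k, W, hk, hW, hdeg, -⟩ := h1 (Fin r) g₀ g₁ v G Q hg₀ hg₁ hst.1
    ⟨hMV.diff, hMV.plus, hMV.minus, hMV.unit⟩ hRow hu U hU
  by_contra hcon
  push Not at hcon
  have hpos : 0 < k := by
    rw [hk, Nat.pos_iff_ne_zero]
    intro h0
    exact hcon.1 (Submodule.finrank_eq_zero.1 h0)
  have hlt : k < Fintype.card (Fin r) := by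
    rw [hk]
    have := Submodule.finrank_lt hcon.2
    simpa using this
  exact absurd hdeg (not_le.2 (hst.2 k hpos hlt W hW))

end Pool.Agent.MSU

end

section

/-! Item M_Prod: the product of the local monodromies is one. -/

open Matrix Polynomial Filter Topology

namespace Pool.Agent.MSU

theorem prf_M_Prod : M_Prod := by
  intro r G Q h hu
  have hz : (-Complex.I).im < 0 := by simp
  have h0 := h.minus 0 (-Complex.I) hz
  have h1 := h.minus 1 (-Complex.I) hz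
  have h2 := h.minus 2 (-Complex.I) hz
  have e0 : (0 : Fin 3) + 1 = 1 := rfl
  have e1 : (1 : Fin 3) + 1 = 2 := rfl
  have e2 : (2 : Fin 3) + 1 = 0 := rfl
  rw [e0] at h0
  rw [e1] at h1
  rw [e2] at h2
  have hU := hu 0 (-Complex.I) (negI_mem 0)
  have h3 : G 0 (-Complex.I) * (Q 0 * Q 1 * Q 2) = G 0 (-Complex.I) * 1 := by
    rw [mul_one, ← Matrix.mul_assoc, ← Matrix.mul_assoc, ← h0, ← h1, ← h2]
  have h4 := congrArg (fun M => (G 0 (-Complex.I))⁻¹ * M) h3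
  simp only [← Matrix.mul_assoc, Matrix.nonsing_inv_mul _ hU, one_mul] at h4
  exact h4

end Pool.Agent.MSU

end

section

/-! Item M_St: stability in the two languages. -/

open Matrix Polynomial Filter Topology
open Pool.Agent.Work.MP_5e5ff1_ag

namespace Pool.Agent.MSU

theorem prf_M_St : M_St := by
  intro r g₀ g₁ v h₀ h₁ hst k hk hkr W hW
  have hlt : T.parDegree g₀ g₁ v W < 0 := hst.2 k hk (by simpa using hkr) W hW
  have hfr : T.FullRank W := by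
    obtain ⟨V, hV⟩ := hW
    exact T.fullRank_of_leftInv hV
  obtain ⟨I, hI, hval⟩ := T.parDegree_attained h₀ h₁ v hfr
  have hone : (((1 : Matrix (Fin r) (Fin r) ℂ)).map C * W) = W := by
    have : ((1 : Matrix (Fin r) (Fin r) ℂ)).map (C : ℂ → ℂ[X]) = 1 := by
      ext1 i j
      simp [Matrix.map_apply, Matrix.one_apply, apply_ite]
    rw [this, Matrix.one_mul]
  have e0 : mn (gam g₀ g₁ 0) W (I 0) = ((g₀.map C * W).submatrix (I 0) id).det := rfl
  have e1 : mn (gam g₀ g₁ 1) W (I 1) = ((g₁.map C * W).submatrix (I 1) id).det := rfl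
  have e2 : mn (gam g₀ g₁ 2) W (I 2) = (W.submatrix (I 2) id).det := by
    change ((((1 : Matrix (Fin r) (Fin r) ℂ)).map C * W).submatrix (I 2) id).det = _
    rw [hone]
  refine ⟨I, ?_, ?_⟩
  · intro x
    fin_cases x
    · change mn (gam g₀ g₁ 0) W (I 0) ≠ 0
      rw [e0]; exact hI.1
    · change mn (gam g₀ g₁ 1) W (I 1) ≠ 0
      rw [e1]; exact hI.2.1
    · change mn (gam g₀ g₁ 2) W (I 2) ≠ 0
      rw [e2]; exact hI.2.2
  · rw [hval, T.parVal_eq] at hlt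
    rw [e0, e1, e2, Fin.sum_univ_three]
    simp only [wt, Finset.sum_neg_distrib]
    linarith

end Pool.Agent.MSU

end

section

/-! M_Sub: a subbundle of nonnegative parabolic degree is flat. -/

open Matrix Polynomial Filter Topology
open scoped ComplexConjugate ComplexOrder
open Pool.Agent.Work.MP_5e5ff1_ag

namespace Pool.Agent.MSU

namespace ItemMSub

/-! ### differentiability -/

lemma det_diff {ι : Type} [Fintype ι] [DecidableEq ι] {U : Set ℂ} {M : ℂ → Matrix ι ι ℂ}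
    (h : ∀ a b, DifferentiableOn ℂ (fun z => M z a b) U) :
    DifferentiableOn ℂ (fun z => (M z).det) U := by
  simp only [Matrix.det_apply]
  refine DifferentiableOn.fun_sum fun σ _ => ?_
  refine DifferentiableOn.const_smul ?_ _
  exact DifferentiableOn.fun_finsetProd fun i _ => h _ _

lemma adj_diff {ι : Type} [Fintype ι] [DecidableEq ι] {U : Set ℂ} {M : ℂ → Matrix ι ι ℂ}
    (h : ∀ a b, DifferentiableOn ℂ (fun z => M z a b) U) (a b : ι) :
    DifferentiableOn ℂ (fun z => (M z).adjugate a b) U := by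
  simp only [Matrix.adjugate_apply]
  refine det_diff fun c d => ?_
  by_cases hc : c = b
  · subst hc
    simp only [Matrix.updateRow_self]
    exact differentiableOn_const _
  · simp only [Matrix.updateRow_ne hc]
    exact h c d

lemma inv_diff {ι : Type} [Fintype ι] [DecidableEq ι] {U : Set ℂ} {M : ℂ → Matrix ι ι ℂ}
    (h : ∀ a b, DifferentiableOn ℂ (fun z => M z a b) U) (hu : ∀ z ∈ U, IsUnit (M z).det)
    (a b : ι) : DifferentiableOn ℂ (fun z => (M z)⁻¹ a b) U := by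
  simp only [Matrix.inv_def, Ring.inverse_eq_inv', Matrix.smul_apply, smul_eq_mul]
  exact ((det_diff h).fun_inv fun z hz => (hu z hz).ne_zero).fun_mul (adj_diff h a b)

lemma eq_of_im_zero {z : ℂ} {j j' : Fin 3} (h : z ∈ V j) (h' : z ∈ V j') (him : z.im = 0) :
    j = j' := by
  rcases h with h | ⟨rfl, h⟩ | ⟨rfl, h, h1⟩ | ⟨rfl, h⟩
  · exact absurd him h
  all_goals
    rcases h' with h' | ⟨rfl, h'⟩ | ⟨rfl, h', h1'⟩ | ⟨rfl, h'⟩
    · exact absurd him h'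
    all_goals first | rfl | (exfalso; linarith)

/-! ### bounds for polynomials near a point -/

lemma poly_bd (P : ℂ[X]) (a : ℂ) : ∃ C : ℝ, 0 ≤ C ∧ ∀ ζ : ℂ, ‖ζ‖ ≤ 1 →
    ‖P.eval (a + ζ)‖ ≤ C * ‖ζ‖ ^ (P.rootMultiplicity a) := by
  obtain ⟨Q, hQ⟩ := pow_rootMultiplicity_dvd P a
  have hcont : Continuous fun ζ : ℂ => ‖Q.eval (a + ζ)‖ :=
    (Q.continuous.comp (continuous_const.add continuous_id)).norm
  obtain ⟨ζ0, -, h0⟩ := (isCompact_closedBall (0 : ℂ) 1).exists_isMaxOn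
    ⟨0, by simp⟩ hcont.continuousOn
  refine ⟨‖Q.eval (a + ζ0)‖, norm_nonneg _, fun ζ hζ => ?_⟩
  have h1 : ‖Q.eval (a + ζ)‖ ≤ ‖Q.eval (a + ζ0)‖ := h0 (by simpa using hζ)
  have h2 : P.eval (a + ζ) = ζ ^ (P.rootMultiplicity a) * Q.eval (a + ζ) := by
    conv_lhs => rw [hQ]
    simp
  rw [h2, norm_mul, norm_pow, mul_comm]
  exact mul_le_mul_of_nonneg_right h1 (by positivity)

lemma poly_bd_inf (P : ℂ[X]) : ∃ C : ℝ, 0 ≤ C ∧ ∀ ζ : ℂ, ζ ≠ 0 → ‖ζ‖ ≤ 1 →
    ‖P.eval (-ζ⁻¹)‖ ≤ C * ‖ζ‖ ^ (-(P.natDegree : ℝ)) := by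
  refine ⟨∑ i ∈ Finset.range (P.natDegree + 1), ‖P.coeff i‖, Finset.sum_nonneg fun i _ =>
    norm_nonneg _, fun ζ h0 h1 => ?_⟩
  have hp : 0 < ‖ζ‖ := norm_pos_iff.mpr h0
  have h2 : 1 ≤ ‖ζ‖⁻¹ := (one_le_inv₀ hp).mpr h1
  rw [eval_eq_sum_range, Finset.sum_mul]
  refine (norm_sum_le _ _).trans (Finset.sum_le_sum fun i hi => ?_)
  rw [norm_mul, norm_pow, norm_neg, norm_inv]
  refine mul_le_mul_of_nonneg_left ?_ (norm_nonneg _)
  rw [Real.rpow_neg hp.le, Real.rpow_natCast, ← inv_pow]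
  exact pow_le_pow_right₀ h2 (by
    have := Finset.mem_range.mp hi
    omega)

/-! ### constancy -/

lemma wt_bound (e : Fin 3 → ℝ) (hsum : 0 ≤ ∑ x, e x) (x : Fin 3) :
    ∀ ζ : ℂ, ζ ≠ 0 → ‖ζ‖ ≤ 1 / 2 →
      ‖ζ‖ ^ (e x) * ItemMSH2.wt (e 0) (e 1) (cz x ζ) ≤ 2 ^ (|e 0| + |e 1|) := by
  intro ζ hζ hn
  rw [Fin.sum_univ_three] at hsum
  have hp : 0 < ‖ζ‖ := norm_pos_iff.mpr hζ
  have hA : (1 : ℝ) ≤ 2 ^ |e 0| := Real.one_le_rpow (by norm_num) (abs_nonneg _)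
  have hB : (1 : ℝ) ≤ 2 ^ |e 1| := Real.one_le_rpow (by norm_num) (abs_nonneg _)
  have hAB : (2 : ℝ) ^ (|e 0| + |e 1|) = 2 ^ |e 0| * 2 ^ |e 1| := Real.rpow_add (by norm_num) _ _
  have hAle : (2 : ℝ) ^ |e 0| ≤ 2 ^ (|e 0| + |e 1|) := by
    rw [hAB]; exact le_mul_of_one_le_right (by positivity) hB
  have hBle : (2 : ℝ) ^ |e 1| ≤ 2 ^ (|e 0| + |e 1|) := by
    rw [hAB]; exact le_mul_of_one_le_left (by positivity) hA
  have hcanc : ∀ b : ℝ, ‖ζ‖ ^ b * ‖ζ‖ ^ (-b) = 1 := by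
    intro b
    rw [← Real.rpow_add hp]; simp
  fin_cases x
  · show ‖ζ‖ ^ (e 0) * ItemMSH2.wt (e 0) (e 1) (cz 0 ζ) ≤ _
    rw [cz_zero, ItemMSH2.wt]
    have e1 : ‖ζ - 1‖ = ‖1 + -ζ‖ := by rw [← norm_neg]; congr 1; ring
    obtain ⟨c1, c2⟩ := ItemMSH2.near_one (ζ := -ζ) (by rwa [norm_neg])
    have h3 : ‖ζ - 1‖ ^ (-(e 1)) ≤ 2 ^ |e 1| := by
      rw [e1, ← abs_neg]
      exact ItemMSH2.rpow_le_two c1 c2
    rw [← mul_assoc, hcanc, one_mul]
    exact h3.trans hBle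
  · show ‖ζ‖ ^ (e 1) * ItemMSH2.wt (e 0) (e 1) (cz 1 ζ) ≤ _
    rw [cz_one, ItemMSH2.wt]
    have e1 : (1 : ℂ) + ζ - 1 = ζ := by ring
    obtain ⟨c1, c2⟩ := ItemMSH2.near_one hn
    have h3 : ‖1 + ζ‖ ^ (-(e 0)) ≤ 2 ^ |e 0| := by
      rw [← abs_neg]
      exact ItemMSH2.rpow_le_two c1 c2
    rw [e1]
    have h5 : ‖ζ‖ ^ (e 1) * (‖1 + ζ‖ ^ (-(e 0)) * ‖ζ‖ ^ (-(e 1))) =
        ‖1 + ζ‖ ^ (-(e 0)) * (‖ζ‖ ^ (e 1) * ‖ζ‖ ^ (-(e 1))) := by ring
    rw [h5, hcanc, mul_one]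
    exact h3.trans hAle
  · show ‖ζ‖ ^ (e 2) * ItemMSH2.wt (e 0) (e 1) (cz 2 ζ) ≤ _
    rw [cz_two, ItemMSH2.wt]
    have e1 : -ζ⁻¹ - 1 = -((1 + ζ) * ζ⁻¹) := by
      field_simp
      ring
    obtain ⟨c1, c2⟩ := ItemMSH2.near_one hn
    have h3 : ‖1 + ζ‖ ^ (-(e 1)) ≤ 2 ^ |e 1| := by
      rw [← abs_neg]
      exact ItemMSH2.rpow_le_two c1 c2
    have e2 : ‖-ζ⁻¹‖ ^ (-(e 0)) = ‖ζ‖ ^ (e 0) := by
      rw [norm_neg, norm_inv, Real.inv_rpow hp.le, Real.rpow_neg hp.le, inv_inv]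
    have e3 : ‖-ζ⁻¹ - 1‖ ^ (-(e 1)) = ‖1 + ζ‖ ^ (-(e 1)) * ‖ζ‖ ^ (e 1) := by
      rw [e1, norm_neg, norm_mul, norm_inv, Real.mul_rpow (norm_nonneg _)
        (inv_nonneg.mpr hp.le), Real.inv_rpow hp.le, Real.rpow_neg hp.le, inv_inv]
    have h4 : ‖ζ‖ ^ (e 2) * ‖ζ‖ ^ (e 0) * ‖ζ‖ ^ (e 1) = ‖ζ‖ ^ (e 0 + e 1 + e 2) := by
      rw [← Real.rpow_add hp, ← Real.rpow_add hp]; congr 1; ring
    have h5 : ‖ζ‖ ^ (e 0 + e 1 + e 2) ≤ 1 := Real.rpow_le_one hp.le (by linarith) hsum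
    rw [e2, e3]
    calc ‖ζ‖ ^ (e 2) * (‖ζ‖ ^ (e 0) * (‖1 + ζ‖ ^ (-(e 1)) * ‖ζ‖ ^ (e 1)))
        = ‖1 + ζ‖ ^ (-(e 1)) * (‖ζ‖ ^ (e 2) * ‖ζ‖ ^ (e 0) * ‖ζ‖ ^ (e 1)) := by ring
      _ = ‖1 + ζ‖ ^ (-(e 1)) * ‖ζ‖ ^ (e 0 + e 1 + e 2) := by rw [h4]
      _ ≤ ‖1 + ζ‖ ^ (-(e 1)) * 1 := by gcongr
      _ ≤ 2 ^ (|e 0| + |e 1|) := by rw [mul_one]; exact h3.trans hBle

/-- with exponents of nonnegative sum the twisted functions are constant -/
lemma const (hH : M_SH1) {ι : Type} [Fintype ι] (f : Fin 3 → ι → ℂ → ℂ) (e : Fin 3 → ℝ)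
    (hf : ∀ j i, DifferentiableOn ℂ (f j i) (V j))
    (hs : ∀ j j' : Fin 3, ∀ z : ℂ, z ∈ V j → z ∈ V j' →
      ∑ i, ‖f j i z‖ ^ 2 = ∑ i, ‖f j' i z‖ ^ 2)
    (hb : ∀ x : Fin 3, ∃ C ρ : ℝ, 0 < ρ ∧ ρ ≤ 1 / 2 ∧ ∀ ζ : ℂ, ‖ζ‖ < ρ →
      (ζ ∈ Sa → ∀ i, ‖f x i (cz x ζ)‖ ≤ C * ‖ζ‖ ^ (e x)) ∧
      (ζ ∈ Sb → ∀ i, ‖f (x + 1) i (cz x ζ)‖ ≤ C * ‖ζ‖ ^ (e x)))
    (hsum : 0 ≤ ∑ x, e x) (j : Fin 3) (i : ι) (z z' : ℂ) (hz : z ∈ V j) (hz' : z' ∈ V j) :
    f j i z * ItemMSH2.twist (e 0) (e 1) j z = f j i z' * ItemMSH2.twist (e 0) (e 1) j z' := by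
  have hw := wt_bound e hsum
  let g : Fin 3 → ι → ℂ → ℂ := fun j i z => f j i z * ItemMSH2.twist (e 0) (e 1) j z
  have hgd : ∀ j i, DifferentiableOn ℂ (g j i) (V j) := fun j i =>
    (hf j i).mul (ItemMSH2.twist_diff (e 0) (e 1) j)
  have hgn : ∀ (j : Fin 3) (i : ι) (z : ℂ), z ∈ V j →
      ‖g j i z‖ = ‖f j i z‖ * ItemMSH2.wt (e 0) (e 1) z := by
    intro j i z hz
    show ‖f j i z * ItemMSH2.twist (e 0) (e 1) j z‖ = _
    rw [norm_mul, ItemMSH2.twist_norm (e 0) (e 1) hz]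
  have hwt0 : ∀ z, 0 ≤ ItemMSH2.wt (e 0) (e 1) z := fun z => by
    unfold ItemMSH2.wt
    positivity
  have hder := hH ι g (fun _ _ _ => 0) hgd (fun _ _ => differentiableOn_const 0) (by
      intro j j' z hz hz'
      simp only [map_zero, add_zero]
      have h1 : ∀ j, z ∈ V j → ∑ i, ‖g j i z‖ ^ 2 =
          (∑ i, ‖f j i z‖ ^ 2) * ItemMSH2.wt (e 0) (e 1) z ^ 2 := by
        intro j hj
        rw [Finset.sum_mul]
        exact Finset.sum_congr rfl fun i _ => by rw [hgn j i z hj, mul_pow]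
      rw [h1 j hz, h1 j' hz', hs j j' z hz hz']) (by
      intro x
      obtain ⟨C, ρ, hρ, hρ2, hC⟩ := hb x
      refine ⟨∑ _i : ι, (|C| * 2 ^ (|e 0| + |e 1|)) ^ 2, ρ, hρ, hρ2, fun ζ hζ => ?_⟩
      simp only [map_zero, add_zero]
      have main : ∀ j, cz x ζ ∈ V j → ζ ≠ 0 → (∀ i, ‖f j i (cz x ζ)‖ ≤ C * ‖ζ‖ ^ (e x)) →
          ∑ i, ‖g j i (cz x ζ)‖ ^ 2 ≤ ∑ _i : ι, (|C| * 2 ^ (|e 0| + |e 1|)) ^ 2 := by
        intro j hj h0 hfj
        refine Finset.sum_le_sum fun i _ => ?_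
        refine pow_le_pow_left₀ (norm_nonneg _) ?_ 2
        rw [hgn j i _ hj]
        have h1 : ‖f j i (cz x ζ)‖ ≤ |C| * ‖ζ‖ ^ (e x) :=
          (hfj i).trans (mul_le_mul_of_nonneg_right (le_abs_self C) (by positivity))
        calc ‖f j i (cz x ζ)‖ * ItemMSH2.wt (e 0) (e 1) (cz x ζ)
            ≤ |C| * ‖ζ‖ ^ (e x) * ItemMSH2.wt (e 0) (e 1) (cz x ζ) :=
              mul_le_mul_of_nonneg_right h1 (hwt0 _)
          _ = |C| * (‖ζ‖ ^ (e x) * ItemMSH2.wt (e 0) (e 1) (cz x ζ)) := by ring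
          _ ≤ |C| * 2 ^ (|e 0| + |e 1|) :=
              mul_le_mul_of_nonneg_left (hw x ζ h0 (by linarith)) (abs_nonneg _)
      exact ⟨fun hS => main x (cz_mem_a x (by linarith) hS) (Sa_ne hS) ((hC ζ hζ).1 hS),
        fun hS => main (x + 1) (cz_mem_b x (by linarith) hS) (Sb_ne hS) ((hC ζ hζ).2 hS)⟩)
  exact (V_open j).is_const_of_deriv_eq_zero (V_preconnected j) (hgd j i)
    (fun y hy => (hder j i y hy).1) hz hz'

/-! ### ranges and minors -/

lemma range_le {κ : Type} [Fintype κ] [DecidableEq κ] {k : ℕ} (A A' : Matrix κ (Fin k) ℂ) (c : ℂ)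
    (h : ∀ f : Fin k → κ, (A.submatrix f id).det = c * (A'.submatrix f id).det)
    (f0 : Fin k → κ) (hf0 : (A.submatrix f0 id).det ≠ 0) :
    LinearMap.range A.mulVecLin ≤ LinearMap.range A'.mulVecLin := by
  have h1 : A * adjugate (A.submatrix f0 id) = c • (A' * adjugate (A'.submatrix f0 id)) := by
    ext i j
    rw [T.mul_adjugate_minor, Matrix.smul_apply, T.mul_adjugate_minor, h, smul_eq_mul]
  rintro y ⟨x, rfl⟩
  set d := (A.submatrix f0 id).det with hd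
  refine ⟨(d⁻¹ * c) • (adjugate (A'.submatrix f0 id) *ᵥ (A.submatrix f0 id *ᵥ x)), ?_⟩
  rw [Matrix.mulVecLin_apply, Matrix.mulVecLin_apply, Matrix.mulVec_smul, Matrix.mulVec_mulVec,
    mul_smul, ← Matrix.smul_mulVec, ← h1, Matrix.mulVec_mulVec, Matrix.mul_assoc,
    Matrix.adjugate_mul, ← hd, Matrix.mul_smul, Matrix.mul_one, Matrix.smul_mulVec, smul_smul,
    inv_mul_cancel₀ hf0, one_smul]

lemma range_eq {κ : Type} [Fintype κ] [DecidableEq κ] {k : ℕ} (A A' : Matrix κ (Fin k) ℂ) (c : ℂ)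
    (hc : c ≠ 0)
    (h : ∀ f : Fin k → κ, (A.submatrix f id).det = c * (A'.submatrix f id).det)
    (f0 : Fin k → κ) (hf0 : (A.submatrix f0 id).det ≠ 0) :
    LinearMap.range A.mulVecLin = LinearMap.range A'.mulVecLin := by
  refine le_antisymm (range_le A A' c h f0 hf0) (range_le A' A c⁻¹ (fun f => ?_) f0 ?_)
  · rw [h f, ← mul_assoc, inv_mul_cancel₀ hc, one_mul]
  · intro h0
    apply hf0
    rw [h f0, h0, mul_zero]

lemma range_mul {κ : Type} [Fintype κ] [DecidableEq κ] {k : ℕ} (G : Matrix κ κ ℂ)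
    (A : Matrix κ (Fin k) ℂ) : LinearMap.range (G * A).mulVecLin =
      (LinearMap.range A.mulVecLin).map G.mulVecLin := by
  rw [Matrix.mulVecLin_mul, LinearMap.range_comp]

lemma map_inj {κ : Type} [Fintype κ] [DecidableEq κ] (G : Matrix κ κ ℂ) (hG : IsUnit G.det)
    (U U' : Submodule ℂ (κ → ℂ)) (h : U.map G.mulVecLin = U'.map G.mulVecLin) : U = U' := by
  have hinj : Function.Injective G.mulVecLin := by
    intro x y hxy
    have h1 : G *ᵥ x = G *ᵥ y := hxy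
    have h2 : G⁻¹ *ᵥ (G *ᵥ x) = G⁻¹ *ᵥ (G *ᵥ y) := by rw [h1]
    rwa [Matrix.mulVec_mulVec, Matrix.mulVec_mulVec, Matrix.nonsing_inv_mul G hG,
      Matrix.one_mulVec, Matrix.one_mulVec] at h2
  exact Submodule.map_injective_of_injective hinj h

/-! ### the bound of the minors -/

/-- the orders at the three points -/
noncomputable def oo {κ : Type} [Fintype κ] [DecidableEq κ] (g₀ g₁ : Matrix κ κ ℂ)
    (v : Fin 3 × κ → ℝ) {k : ℕ} (W : Matrix κ (Fin k) ℂ[X]) : Fin 3 → ℝ :=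
  ![T.wedgeOrd g₀ (fun j => v (0, j)) 0 W, T.wedgeOrd g₁ (fun j => v (1, j)) 1 W,
    T.wedgeOrdInf (fun j => v (2, j)) W]

lemma one_bd {κ : Type} [Fintype κ] [DecidableEq κ] (g₀ g₁ : Matrix κ κ ℂ)
    (v : Fin 3 × κ → ℝ) {k : ℕ} (W : Matrix κ (Fin k) ℂ[X]) (x : Fin 3) (J : Fin k → κ) :
    ∃ C : ℝ, 0 ≤ C ∧ ∀ ζ : ℂ, ζ ≠ 0 → ‖ζ‖ ≤ 1 →
      ‖ζ‖ ^ (∑ l, v (x, J l)) *
        ‖(((gam g₀ g₁ x * W.map (eval (cz x ζ))).submatrix J id).det)‖ ≤
      C * ‖ζ‖ ^ (oo g₀ g₁ v W x) := by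
  have hev : ∀ (g : Matrix κ κ ℂ) (z : ℂ), ((g * W.map (eval z)).submatrix J id).det =
      (((g.map C * W).submatrix J id).det).eval z := by
    intro g z
    rw [T.eval_det_submatrix, T.map_eval_mul]
    congr 3
    ext a b
    simp
  have fin : ∀ (n s o : ℝ) (t : ℝ), 0 < t → t ≤ 1 → o ≤ s + n → t ^ s * t ^ n ≤ t ^ o := by
    intro n s o t ht ht1 ho
    rw [← Real.rpow_add ht]
    exact Real.rpow_le_rpow_of_exponent_ge ht ht1 ho
  fin_cases x
  · set P := ((g₀.map C * W).submatrix J id).det with hP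
    obtain ⟨C, hC0, hC⟩ := poly_bd P 0
    refine ⟨C, hC0, fun ζ h0 h1 => ?_⟩
    have hp : 0 < ‖ζ‖ := norm_pos_iff.mpr h0
    show ‖ζ‖ ^ (∑ l, v (0, J l)) * ‖((g₀ * W.map (eval (cz 0 ζ))).submatrix J id).det‖ ≤
      C * ‖ζ‖ ^ (T.wedgeOrd g₀ (fun j => v (0, j)) 0 W)
    rw [hev, cz_zero, ← hP]
    by_cases hP0 : P = 0
    · rw [hP0, eval_zero, norm_zero, mul_zero]
      positivity
    · have h2 := hC ζ h1
      rw [zero_add, ← Real.rpow_natCast] at h2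
      have ho : T.wedgeOrd g₀ (fun j => v (0, j)) 0 W ≤
          ∑ l, v (0, J l) + (P.rootMultiplicity 0 : ℝ) := by
        unfold T.wedgeOrd
        exact ciInf_le (Set.finite_range _).bddBelow
          (⟨J, hP0⟩ :
            {I : Fin k → κ // ((g₀.map Polynomial.C * W).submatrix I id).det ≠ 0})
      calc ‖ζ‖ ^ (∑ l, v (0, J l)) * ‖P.eval ζ‖
          ≤ ‖ζ‖ ^ (∑ l, v (0, J l)) * (C * ‖ζ‖ ^ (P.rootMultiplicity 0 : ℝ)) := by gcongr
        _ = C * (‖ζ‖ ^ (∑ l, v (0, J l)) * ‖ζ‖ ^ (P.rootMultiplicity 0 : ℝ)) := by ring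
        _ ≤ _ := mul_le_mul_of_nonneg_left (fin _ _ _ _ hp h1 ho) hC0
  · set P := ((g₁.map C * W).submatrix J id).det with hP
    obtain ⟨C, hC0, hC⟩ := poly_bd P 1
    refine ⟨C, hC0, fun ζ h0 h1 => ?_⟩
    have hp : 0 < ‖ζ‖ := norm_pos_iff.mpr h0
    show ‖ζ‖ ^ (∑ l, v (1, J l)) * ‖((g₁ * W.map (eval (cz 1 ζ))).submatrix J id).det‖ ≤
      C * ‖ζ‖ ^ (T.wedgeOrd g₁ (fun j => v (1, j)) 1 W)
    rw [hev, cz_one, ← hP]
    by_cases hP0 : P = 0
    · rw [hP0, eval_zero, norm_zero, mul_zero]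
      positivity
    · have h2 := hC ζ h1
      rw [← Real.rpow_natCast] at h2
      have ho : T.wedgeOrd g₁ (fun j => v (1, j)) 1 W ≤
          ∑ l, v (1, J l) + (P.rootMultiplicity 1 : ℝ) := by
        unfold T.wedgeOrd
        exact ciInf_le (Set.finite_range _).bddBelow
          (⟨J, hP0⟩ :
            {I : Fin k → κ // ((g₁.map Polynomial.C * W).submatrix I id).det ≠ 0})
      calc ‖ζ‖ ^ (∑ l, v (1, J l)) * ‖P.eval (1 + ζ)‖
          ≤ ‖ζ‖ ^ (∑ l, v (1, J l)) * (C * ‖ζ‖ ^ (P.rootMultiplicity 1 : ℝ)) := by gcongr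
        _ = C * (‖ζ‖ ^ (∑ l, v (1, J l)) * ‖ζ‖ ^ (P.rootMultiplicity 1 : ℝ)) := by ring
        _ ≤ _ := mul_le_mul_of_nonneg_left (fin _ _ _ _ hp h1 ho) hC0
  · set P := (W.submatrix J id).det with hP
    obtain ⟨C, hC0, hC⟩ := poly_bd_inf P
    refine ⟨C, hC0, fun ζ h0 h1 => ?_⟩
    have hp : 0 < ‖ζ‖ := norm_pos_iff.mpr h0
    show ‖ζ‖ ^ (∑ l, v (2, J l)) *
      ‖(((1 : Matrix κ κ ℂ) * W.map (eval (cz 2 ζ))).submatrix J id).det‖ ≤
      C * ‖ζ‖ ^ (T.wedgeOrdInf (fun j => v (2, j)) W)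
    rw [Matrix.one_mul, ← T.eval_det_submatrix, cz_two, ← hP]
    by_cases hP0 : P = 0
    · rw [hP0, eval_zero, norm_zero, mul_zero]
      positivity
    · have h2 := hC ζ h0 h1
      have ho : T.wedgeOrdInf (fun j => v (2, j)) W ≤
          ∑ l, v (2, J l) + -(P.natDegree : ℝ) := by
        unfold T.wedgeOrdInf
        rw [← sub_eq_add_neg]
        exact ciInf_le (Set.finite_range _).bddBelow
          (⟨J, hP0⟩ : {I : Fin k → κ // (W.submatrix I id).det ≠ 0})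
      calc ‖ζ‖ ^ (∑ l, v (2, J l)) * ‖P.eval (-ζ⁻¹)‖
          ≤ ‖ζ‖ ^ (∑ l, v (2, J l)) * (C * ‖ζ‖ ^ (-(P.natDegree : ℝ))) := by gcongr
        _ = C * (‖ζ‖ ^ (∑ l, v (2, J l)) * ‖ζ‖ ^ (-(P.natDegree : ℝ))) := by ring
        _ ≤ _ := mul_le_mul_of_nonneg_left (fin _ _ _ _ hp h1 ho) hC0

lemma minor_bd {κ : Type} [Fintype κ] [DecidableEq κ] {k : ℕ} (γ G : Matrix κ κ ℂ)
    (hγ : IsUnit γ.det) (W : Matrix κ (Fin k) ℂ) (f : Fin k → κ) (C t : ℝ) (ht : 0 < t)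
    (s : κ → ℝ) (h : ∀ a b, ‖((γ * G)⁻¹) b a‖ ≤ C * t ^ (s a)) :
    ‖((G⁻¹ * W).submatrix f id).det‖ ≤
      ∑ J : Fin k → κ, C ^ k * (t ^ (∑ l, s (J l)) * ‖((γ * W).submatrix J id).det‖) := by
  have h1 : G⁻¹ * W = (γ * G)⁻¹ * (γ * W) := by
    rw [Matrix.mul_inv_rev, Matrix.mul_assoc, ← Matrix.mul_assoc γ⁻¹, Matrix.nonsing_inv_mul γ hγ,
      Matrix.one_mul]
  rw [h1, T.minor_mul]
  refine (norm_sum_le _ _).trans (Finset.sum_le_sum fun J _ => ?_)
  rw [norm_mul, norm_prod, ← mul_assoc]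
  refine mul_le_mul_of_nonneg_right ?_ (norm_nonneg _)
  have h2 : C ^ k * t ^ (∑ l, s (J l)) = ∏ l : Fin k, (C * t ^ (s (J l))) := by
    rw [Finset.prod_mul_distrib, Finset.prod_const, Finset.card_univ, Fintype.card_fin,
      Real.rpow_sum_of_pos ht]
  rw [h2]
  exact Finset.prod_le_prod (fun l _ => norm_nonneg _) fun l _ => h (J l) (f l)

end ItemMSub

open ItemMSub in
theorem prf_M_Sub (hCB : M_CB) (hSH : M_SH1) : M_Sub := by
  intro κ _ _ g₀ g₁ v G Q hg₀ hg₁ hG hCol hdet k W hW hdeg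
  -- the coordinates of the subbundle
  obtain ⟨A, hA⟩ : ∃ A : Fin 3 → ℂ → Matrix κ (Fin k) ℂ, ∀ j z, A j z =
      (G j z)⁻¹ * W.map (eval z) := ⟨_, fun _ _ => rfl⟩
  have hWG : ∀ j, ∀ z ∈ V j, W.map (eval z) = G j z * A j z := by
    intro j z hz
    rw [hA, ← Matrix.mul_assoc, Matrix.mul_nonsing_inv _ (hdet j z hz), Matrix.one_mul]
  have hfull : ∀ j, ∀ z ∈ V j, ∃ f0 : Fin k → κ, ((A j z).submatrix f0 id).det ≠ 0 := by
    intro j z hz
    have h1 := hW.fullRank_eval z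
    rw [hWG j z hz] at h1
    exact T.fullRank_of_mul h1
  have hQu : ∀ j, IsUnit (Q j).det := by
    intro j
    have h1 := congrArg Matrix.det (hG.unit j)
    rw [Matrix.det_mul, Matrix.det_one] at h1
    exact IsUnit.of_mul_eq_one_right _ h1
  -- the functions
  obtain ⟨q, hq⟩ : ∃ q : Fin 3 → (Fin k → κ) → ℂ → ℂ, ∀ j f z, q j f z =
      ((A j z).submatrix f id).det := ⟨_, fun _ _ _ => rfl⟩
  have hWd : ∀ j a b, DifferentiableOn ℂ (fun z => (W.map (eval z)) a b) (V j) := by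
    intro j a b
    exact (W a b).differentiable.differentiableOn
  have hAd : ∀ j a b, DifferentiableOn ℂ (fun z => A j z a b) (V j) := by
    intro j a b
    simp only [hA, Matrix.mul_apply]
    exact DifferentiableOn.fun_sum fun i _ =>
      (inv_diff (hG.diff j) (hdet j) a i).fun_mul (hWd j i b)
  have hqd : ∀ j f, DifferentiableOn ℂ (q j f) (V j) := by
    intro j f
    have h1 : q j f = fun z => ((A j z).submatrix f id).det := by
      funext z
      exact hq j f z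
    rw [h1]
    exact det_diff fun a b => hAd j (f a) b
  -- independence of the branch
  have hminus : ∀ (j : Fin 3) (z : ℂ), z.im < 0 →
      ∑ f, ‖q (j + 1) f z‖ ^ 2 = ∑ f, ‖q j f z‖ ^ 2 := by
    intro j z hz
    have hQQ : Q j * (Q j)ᴴ = 1 := mul_eq_one_comm.mp (hG.unit j)
    have hinv : (Q j)⁻¹ = (Q j)ᴴ := Matrix.inv_eq_left_inv (hG.unit j)
    have h1 : A (j + 1) z = (Q j)ᴴ * A j z := by
      rw [hA, hA, hG.minus j z hz, Matrix.mul_inv_rev, hinv, Matrix.mul_assoc]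
    have h2 := hCB κ k ((Q j)ᴴ) (A j z) (by rw [Matrix.conjTranspose_conjTranspose]; exact hQQ)
    simp only [hq, h1]
    exact h2
  have hs : ∀ j j' : Fin 3, ∀ z : ℂ, z ∈ V j → z ∈ V j' →
      ∑ f, ‖q j f z‖ ^ 2 = ∑ f, ‖q j' f z‖ ^ 2 := by
    intro j j' z hz hz'
    rcases lt_trichotomy z.im 0 with him | him | him
    · have h0 := hminus 0 z him
      have h1 := hminus 1 z him
      have h2 := hminus 2 z him
      have e0 : (0 : Fin 3) + 1 = 1 := rfl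
      have e1 : (1 : Fin 3) + 1 = 2 := rfl
      have e2 : (2 : Fin 3) + 1 = 0 := rfl
      rw [e0] at h0
      rw [e1] at h1
      rw [e2] at h2
      have hall : ∀ j, ∑ f, ‖q j f z‖ ^ 2 = ∑ f, ‖q 0 f z‖ ^ 2 := by
        intro j
        fin_cases j
        · rfl
        · exact h0
        · exact h1.trans h0
      rw [hall j, hall j']
    · rw [eq_of_im_zero hz hz' him]
    · simp only [hq, hA, hG.plus j j' z him]
  -- bounds
  have hgu : ∀ x, IsUnit (gam g₀ g₁ x).det := by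
    intro x
    fin_cases x
    · exact isUnit_iff_ne_zero.mpr hg₀
    · exact isUnit_iff_ne_zero.mpr hg₁
    · show IsUnit (1 : Matrix κ κ ℂ).det
      rw [Matrix.det_one]
      exact isUnit_one
  have hb : ∀ x : Fin 3, ∃ C ρ : ℝ, 0 < ρ ∧ ρ ≤ 1 / 2 ∧ ∀ ζ : ℂ, ‖ζ‖ < ρ →
      (ζ ∈ Sa → ∀ f, ‖q x f (cz x ζ)‖ ≤ C * ‖ζ‖ ^ (oo g₀ g₁ v W x)) ∧
      (ζ ∈ Sb → ∀ f, ‖q (x + 1) f (cz x ζ)‖ ≤ C * ‖ζ‖ ^ (oo g₀ g₁ v W x)) := by
    intro x
    obtain ⟨C, ρ, hρ, hρ2, hC⟩ := hCol x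
    choose D hD0 hD using fun J : Fin k → κ => one_bd g₀ g₁ v W x J
    refine ⟨∑ J, |C| ^ k * D J, ρ, hρ, hρ2, fun ζ hζ => ?_⟩
    have main : ∀ j, ζ ≠ 0 →
        (∀ a b, ‖((gam g₀ g₁ x * G j (cz x ζ))⁻¹) b a‖ ≤ C * ‖ζ‖ ^ (-(wt v x a))) →
        ∀ f, ‖q j f (cz x ζ)‖ ≤ (∑ J, |C| ^ k * D J) * ‖ζ‖ ^ (oo g₀ g₁ v W x) := by
      intro j h0 hbj f
      have hp : 0 < ‖ζ‖ := norm_pos_iff.mpr h0
      rw [hq, hA]
      refine (minor_bd (gam g₀ g₁ x) (G j (cz x ζ)) (hgu x) (W.map (eval (cz x ζ))) f |C| ‖ζ‖ hp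
        (fun a => v (x, a)) (fun a b => ?_)).trans ?_
      · have h1 := hbj a b
        have h2 : -(wt v x a) = v (x, a) := by rw [wt, neg_neg]
        rw [h2] at h1
        exact h1.trans (mul_le_mul_of_nonneg_right (le_abs_self C) (by positivity))
      · rw [Finset.sum_mul]
        refine Finset.sum_le_sum fun J _ => ?_
        rw [mul_assoc]
        exact mul_le_mul_of_nonneg_left (hD J ζ h0 (by linarith)) (by positivity)
    exact ⟨fun hS => main x (Sa_ne hS) ((hC ζ hζ).1 hS),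
      fun hS => main (x + 1) (Sb_ne hS) ((hC ζ hζ).2 hS)⟩
  have hsum : 0 ≤ ∑ x, oo g₀ g₁ v W x := by
    rw [Fin.sum_univ_three]
    exact hdeg
  have hconst := const hSH q (oo g₀ g₁ v W) hqd hs hb hsum
  -- the ranges are constant
  have hrange : ∀ j, ∀ z ∈ V j, ∀ z' ∈ V j,
      LinearMap.range (A j z).mulVecLin = LinearMap.range (A j z').mulVecLin := by
    intro j z hz z' hz'
    obtain ⟨f0, hf0⟩ := hfull j z hz
    have ht := ItemMSH2.twist_ne (oo g₀ g₁ v W 0) (oo g₀ g₁ v W 1) j z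
    have ht' := ItemMSH2.twist_ne (oo g₀ g₁ v W 0) (oo g₀ g₁ v W 1) j z'
    refine range_eq (A j z) (A j z')
      (ItemMSH2.twist (oo g₀ g₁ v W 0) (oo g₀ g₁ v W 1) j z' /
        ItemMSH2.twist (oo g₀ g₁ v W 0) (oo g₀ g₁ v W 1) j z) (div_ne_zero ht' ht)
      (fun f => ?_) f0 hf0
    have h1 := hconst j f z z' hz hz'
    rw [hq, hq] at h1
    rw [div_mul_eq_mul_div, eq_div_iff ht, h1, mul_comm]
  obtain ⟨U, hU⟩ : ∃ U : Submodule ℂ (κ → ℂ), U = LinearMap.range (A 0 Complex.I).mulVecLin :=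
    ⟨_, rfl⟩
  have hUj : ∀ j, ∀ z ∈ V j, LinearMap.range (A j z).mulVecLin = U := by
    intro j z hz
    have h1 : A j Complex.I = A 0 Complex.I := by
      rw [hA, hA, hG.plus j 0 Complex.I (by simp)]
    rw [hrange j z hz Complex.I (I_mem j), h1, hU]
  have hfin : ∀ j, ∀ z ∈ V j, LinearMap.range (W.map (eval z)).mulVecLin =
      U.map (G j z).mulVecLin := by
    intro j z hz
    rw [hWG j z hz, range_mul, hUj j z hz]
  refine ⟨U, fun x => ?_, hfin⟩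
  have h1 := hfin x _ (negI_mem x)
  have h2 := hfin (x + 1) _ (negI_mem (x + 1))
  rw [hG.minus x _ (by simp), Matrix.mulVecLin_mul, Submodule.map_comp, h1] at h2
  exact (map_inj (G x (-Complex.I)) (hdet x _ (negI_mem x)) _ _ h2).symm.le

end Pool.Agent.MSU

end

section

/-! An invariant subspace gives a subbundle of nonnegative parabolic degree. -/

open Matrix Polynomial Filter Topology
open Pool.Agent.Work.MP_5e5ff1_ag

namespace Pool.Agent.MSU.ItemMSup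

variable {κ : Type} [Fintype κ] [DecidableEq κ]

/-! ### orthonormal bases -/

omit [DecidableEq κ] in
lemma onb (U : Submodule ℂ (κ → ℂ)) : ∃ Bm : Matrix κ (Fin (Module.finrank ℂ U)) ℂ,
    Bmᴴ * Bm = 1 ∧ LinearMap.range Bm.mulVecLin = U := by
  classical
  let e : EuclideanSpace ℂ κ ≃ₗ[ℂ] (κ → ℂ) := WithLp.linearEquiv 2 ℂ (κ → ℂ)
  let U' : Submodule ℂ (EuclideanSpace ℂ κ) := U.comap e.toLinearMap
  have hU' : U'.map e.toLinearMap = U := by
    rw [Submodule.map_comap_eq, LinearEquiv.range, top_inf_eq]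
  have hfr : Module.finrank ℂ U' = Module.finrank ℂ U := by
    conv_rhs => rw [← hU']
    exact (LinearEquiv.finrank_map_eq e U').symm
  rw [← hfr]
  let b := stdOrthonormalBasis ℂ U'
  refine ⟨Matrix.of fun a i => (b i : EuclideanSpace ℂ κ) a, ?_, ?_⟩
  · ext i j
    rw [mul_apply]
    have h1 := orthonormal_iff_ite.mp b.orthonormal i j
    have h2 : inner ℂ (b i) (b j) = inner ℂ (b i : EuclideanSpace ℂ κ) (b j : EuclideanSpace ℂ κ) :=
      rfl
    rw [h2, PiLp.inner_apply] at h1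
    rw [one_apply, ← h1]
    refine Finset.sum_congr rfl fun a _ => ?_
    simp [mul_comm]
  · apply le_antisymm
    · rintro _ ⟨c, rfl⟩
      rw [← hU']
      refine ⟨∑ i, c i • (b i : EuclideanSpace ℂ κ), ?_, ?_⟩
      · exact U'.sum_mem fun i _ => U'.smul_mem _ (b i).2
      · funext a
        simp [e, mulVec, dotProduct, mul_comm]
    · intro u hu
      rw [← hU'] at hu
      obtain ⟨u', hu', rfl⟩ := hu
      have h1 : (⟨u', hu'⟩ : U') = ∑ i, b.repr ⟨u', hu'⟩ i • b i := (b.sum_repr _).symm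
      refine ⟨fun i => b.repr ⟨u', hu'⟩ i, ?_⟩
      have h2 : u' = ∑ i, b.repr ⟨u', hu'⟩ i • (b i : EuclideanSpace ℂ κ) := by
        have := congrArg (Subtype.val) h1
        simpa using this
      funext a
      conv_rhs => rw [h2]
      simp [e, mulVec, dotProduct, mul_comm]

/-! ### the degree of the trivial subbundles -/

lemma deg_zero (g₀ g₁ : Matrix κ κ ℂ) (v : Fin 3 × κ → ℝ) (h₀ : g₀.det ≠ 0) (h₁ : g₁.det ≠ 0)
    (W : Matrix κ (Fin 0) ℂ[X]) (hW : T.IsSub W) : 0 ≤ T.parDegree g₀ g₁ v W := by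
  obtain ⟨I, hI, hdeg⟩ := T.parDegree_attained h₀ h₁ v hW.fullRank
  rw [hdeg, T.parVal_eq]
  simp
  positivity

lemma deg_full (g₀ g₁ : Matrix κ κ ℂ) (v : Fin 3 × κ → ℝ) (h₀ : g₀.det ≠ 0) (h₁ : g₁.det ≠ 0)
    (hv : ∑ i, v i = 0) {n : ℕ} (e : Fin n ≃ κ)
    (hW : T.IsSub ((1 : Matrix κ κ ℂ[X]).submatrix id e)) :
    0 ≤ T.parDegree g₀ g₁ v ((1 : Matrix κ κ ℂ[X]).submatrix id e) := by
  obtain ⟨I, hI, hdeg⟩ := T.parDegree_attained h₀ h₁ v hW.fullRank
  rw [hdeg, T.parVal_eq]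
  have hinj : ∀ (M : Matrix κ (Fin n) ℂ[X]) (J : Fin n → κ), (M.submatrix J id).det ≠ 0 →
      Function.Bijective J := by
    intro M J hJ
    have h1 : Function.Injective J := by
      intro a b hab
      by_contra hne
      apply hJ
      apply det_zero_of_row_eq hne
      funext c
      simp [hab]
    refine (Fintype.bijective_iff_injective_and_card J).mpr ⟨h1, ?_⟩
    exact Fintype.card_congr e
  have hs : ∀ (x : Fin 3) (J : Fin n → κ), Function.Bijective J →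
      ∑ j, v (x, J j) = ∑ a, v (x, a) := by
    intro x J hJ
    exact Fintype.sum_bijective J hJ _ _ fun _ => rfl
  rw [hs 0 _ (hinj _ _ hI.1), hs 1 _ (hinj _ _ hI.2.1), hs 2 _ (hinj _ _ hI.2.2)]
  have hv' : ∑ a, v (0, a) + ∑ a, v (1, a) + ∑ a, v (2, a) = 0 := by
    rw [← hv, Fintype.sum_prod_type, Fin.sum_univ_three]
  have hdet : ((((1 : Matrix κ κ ℂ[X]).submatrix id e).submatrix (I 2) id).det).natDegree = 0 := by
    have h1 : ((1 : Matrix κ κ ℂ[X]).submatrix id e).submatrix (I 2) id =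
        ((1 : Matrix κ κ ℂ).submatrix (I 2) e).map C := by
      ext1 a b
      simp only [submatrix_apply, map_apply, id, one_apply]
      split_ifs <;> simp
    have h2 : (((1 : Matrix κ κ ℂ).submatrix (I 2) e).map C).det =
        C (((1 : Matrix κ κ ℂ).submatrix (I 2) e).det) := by
      exact (RingHom.map_det C _).symm
    rw [h1, h2, natDegree_C]
  rw [hdet]
  have r0 : (0 : ℝ) ≤ ((((g₀.map C * (1 : Matrix κ κ ℂ[X]).submatrix id e).submatrix (I 0)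
    id).det.rootMultiplicity 0 : ℕ) : ℝ) := Nat.cast_nonneg _
  have r1 : (0 : ℝ) ≤ ((((g₁.map C * (1 : Matrix κ κ ℂ[X]).submatrix id e).submatrix (I 1)
    id).det.rootMultiplicity 1 : ℕ) : ℝ) := Nat.cast_nonneg _
  push_cast
  linarith

/-! ### local estimates -/

omit [DecidableEq κ] in
lemma minor_factor {k : ℕ} (γ : Matrix κ κ ℂ) (W : Matrix κ (Fin k) ℂ[X])
    (J : Fin k → κ) (N : Matrix (Fin k) (Fin k) ℂ) (z : ℂ) :
    ((γ * (W.map (eval z) * N)).submatrix J id).det =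
      ((γ.map C * W).submatrix J id).det.eval z * N.det := by
  have h1 : (γ * (W.map (eval z) * N)).submatrix J id =
      ((γ * W.map (eval z)).submatrix J id) * N := by
    rw [← Matrix.mul_assoc]
    rfl
  have h2 : ((γ.map C * W).submatrix J id).map (evalRingHom z) =
      (γ * W.map (eval z)).submatrix J id := by
    ext i j
    simp [Matrix.mul_apply, Polynomial.eval_finsetSum]
  have h3 : ((γ.map C * W).submatrix J id).det.eval z =
      ((γ * W.map (eval z)).submatrix J id).det := by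
    rw [← coe_evalRingHom, RingHom.map_det, RingHom.mapMatrix_apply, h2]
    rfl
  rw [h1, det_mul, h3]

omit [DecidableEq κ] in
lemma loc {k : ℕ} (γ : Matrix κ κ ℂ) (W : Matrix κ (Fin k) ℂ[X])
    (J : Fin k → κ) (w : κ → ℝ) (G : Matrix κ (Fin k) ℂ)
    (M : Matrix (Fin k) (Fin k) ℂ) (z ζ : ℂ) (c C0 m : ℝ) (hζ : ζ ≠ 0) (hc : 0 < c)
    (hG : G = W.map (eval z) * M) (hb : ∀ a b, ‖(γ * G) a b‖ ≤ C0 * ‖ζ‖ ^ (w a))
    (hP : c * ‖ζ‖ ^ m ≤ ‖((γ.map C * W).submatrix J id).det.eval z‖) :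
    ‖M.det‖ ≤ ((Nat.factorial k : ℝ) * C0 ^ k / c) * ‖ζ‖ ^ (∑ a, w (J a) - m) := by
  have hn : 0 < ‖ζ‖ := norm_pos_iff.mpr hζ
  have h1 : ‖((γ * G).submatrix J id).det‖ ≤
      (Nat.factorial k : ℝ) * ∏ i, C0 * ‖ζ‖ ^ (w (J i)) :=
    ItemDDeg.det_bd _ _ fun i j => hb (J i) j
  rw [hG, minor_factor, norm_mul, Finset.prod_mul_distrib, Finset.prod_const, Finset.card_univ,
    Fintype.card_fin, ← Real.rpow_sum_of_pos hn] at h1
  have h2 : c * ‖ζ‖ ^ m * ‖M.det‖ ≤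
      (Nat.factorial k : ℝ) * (C0 ^ k * ‖ζ‖ ^ (∑ a, w (J a))) := by
    refine le_trans ?_ h1
    gcongr
  have h3 : 0 < ‖ζ‖ ^ m := Real.rpow_pos_of_pos hn _
  rw [Real.rpow_sub hn]
  have h4 : (Nat.factorial k : ℝ) * C0 ^ k / c * (‖ζ‖ ^ (∑ a, w (J a)) / ‖ζ‖ ^ m) =
      (Nat.factorial k : ℝ) * (C0 ^ k * ‖ζ‖ ^ (∑ a, w (J a))) / (c * ‖ζ‖ ^ m) := by
    field_simp
  rw [h4, le_div_iff₀ (by positivity), mul_comm]
  exact h2

/-- a nonzero determinant and the row bounds bound the parabolic degree from below -/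
lemma degree (hM : M_SH2) (g₀ g₁ : Matrix κ κ ℂ) (v : Fin 3 × κ → ℝ) (h₀ : g₀.det ≠ 0)
    (h₁ : g₁.det ≠ 0) {k : ℕ} (G : Fin 3 → ℂ → Matrix κ (Fin k) ℂ)
    (Q : Fin 3 → Matrix (Fin k) (Fin k) ℂ) (W : Matrix κ (Fin k) ℂ[X]) (hW : T.IsSub W)
    (N : Fin 3 → ℂ → Matrix (Fin k) (Fin k) ℂ) (hN : MVx N Q)
    (hRB : RowBdx (gam g₀ g₁) (wt v) G) (hGN : ∀ j, ∀ z ∈ V j, G j z = W.map (eval z) * N j z)
    (hne : ∃ z : ℂ, 0 < z.im ∧ (N 0 z).det ≠ 0) : 0 ≤ T.parDegree g₀ g₁ v W := by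
  obtain ⟨I, hI, hdeg⟩ := T.parDegree_attained h₀ h₁ v hW.fullRank
  by_contra hneg
  push Not at hneg
  rw [hdeg, T.parVal_eq] at hneg
  obtain ⟨z0, hz0, hL0⟩ := hne
  have hP : ∀ x, (((gam g₀ g₁ x).map C * W).submatrix (I x) id).det ≠ 0 := by
    intro x
    fin_cases x
    · exact hI.1
    · exact hI.2.1
    · have h1 : ((gam g₀ g₁ 2).map C * W) = W := by
        simp [gam]
      change (((gam g₀ g₁ 2).map C * W).submatrix (I 2) id).det ≠ 0
      rw [h1]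
      exact hI.2.2
  have hdetQ : ∀ j, ‖(Q j).det‖ = 1 := by
    intro j
    have h1 : ((Q j)ᴴ * Q j).det = 1 := by rw [hN.unit j, det_one]
    rw [det_mul, det_conjTranspose] at h1
    have h2 : ‖star (Q j).det * (Q j).det‖ = 1 := by rw [h1, norm_one]
    rw [norm_mul, norm_star] at h2
    nlinarith [norm_nonneg (Q j).det]
  have hS : ∀ j : Fin 3, ∀ z : ℂ, z.im < 0 → ‖(N (j + 1) z).det‖ = ‖(N j z).det‖ := by
    intro j z hz
    rw [hN.minus j z hz, det_mul, norm_mul, hdetQ, mul_one]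
  have hz := hM Unit (fun j _ z => (N j z).det)
    (fun x => ∑ a, wt v x (I x a) -
      ItemDDeg.mexp x (((gam g₀ g₁ x).map C * W).submatrix (I x) id).det) ?_ ?_ ?_ ?_ 0 () z0
      (upper_mem 0 hz0)
  · exact hL0 hz
  · intro j _
    exact ItemDDeg.diff_det _ _ (hN.diff j) id
  · intro j j' z hzj hzj'
    simp only [Finset.univ_unique, Finset.sum_singleton]
    rcases lt_trichotomy z.im 0 with h | h | h
    · have e0 := hS 0 z h
      have e1 := hS 1 z h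
      have e2 : ∀ j : Fin 3, ‖(N j z).det‖ = ‖(N 0 z).det‖ := by
        intro j
        fin_cases j
        · rfl
        · exact e0
        · exact e1.trans e0
      rw [e2 j, e2 j']
    · rw [ItemDDeg.V_real hzj hzj' h]
    · rw [hN.plus j j' z h]
  · intro x
    obtain ⟨C0, ρ0, hρ0, hρ0', hb⟩ := hRB x
    obtain ⟨c, ρ1, hc, hρ1, hp⟩ := ItemDDeg.poly_loc x _ (hP x)
    refine ⟨(Nat.factorial k : ℝ) * C0 ^ k / c, min ρ0 ρ1, lt_min hρ0 hρ1,
      (min_le_left _ _).trans hρ0', fun ζ hζ => ⟨fun hs _ => ?_, fun hs _ => ?_⟩⟩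
    · have h0 : ‖ζ‖ < ρ0 := hζ.trans_le (min_le_left _ _)
      have h1 : ‖ζ‖ < ρ1 := hζ.trans_le (min_le_right _ _)
      have hm : cz x ζ ∈ V x := cz_mem_a x (by linarith) hs
      exact loc (gam g₀ g₁ x) W (I x) (wt v x) (G x (cz x ζ)) (N x (cz x ζ)) (cz x ζ) ζ c C0 _
        (Sa_ne hs) hc (hGN x _ hm) ((hb ζ h0).1 hs) (hp ζ (Sa_ne hs) h1)
    · have h0 : ‖ζ‖ < ρ0 := hζ.trans_le (min_le_left _ _)
      have h1 : ‖ζ‖ < ρ1 := hζ.trans_le (min_le_right _ _)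
      have hm : cz x ζ ∈ V (x + 1) := cz_mem_b x (by linarith) hs
      exact loc (gam g₀ g₁ x) W (I x) (wt v x) (G (x + 1) (cz x ζ)) (N (x + 1) (cz x ζ)) (cz x ζ) ζ
        c C0 _ (Sb_ne hs) hc (hGN (x + 1) _ hm) ((hb ζ h0).2 hs) (hp ζ (Sb_ne hs) h1)
  · rw [Fin.sum_univ_three]
    have h20 : (2 : Fin 3) ≠ 0 := by decide
    have h21 : (2 : Fin 3) ≠ 1 := by decide
    have h10 : (1 : Fin 3) ≠ 0 := by decide
    have hg2 : ((gam g₀ g₁ 2).map C * W) = W := by simp [gam]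
    have hg0 : gam g₀ g₁ 0 = g₀ := rfl
    have hg1 : gam g₀ g₁ 1 = g₁ := rfl
    rw [hg2, hg0, hg1]
    simp only [ItemDDeg.mexp, wt, if_true, if_neg h20, if_neg h21, if_neg h10,
      Finset.sum_neg_distrib]
    linarith

/-! ### linear algebra -/

omit [Fintype κ] [DecidableEq κ] in
lemma range_mul_unit {n : ℕ} (W : Matrix κ (Fin n) ℂ) (N : Matrix (Fin n) (Fin n) ℂ)
    (hN : IsUnit N.det) : LinearMap.range (W * N).mulVecLin = LinearMap.range W.mulVecLin := by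
  apply le_antisymm
  · rintro _ ⟨c, rfl⟩
    exact ⟨N *ᵥ c, by simp [mulVec_mulVec]⟩
  · rintro _ ⟨c, rfl⟩
    refine ⟨N⁻¹ *ᵥ c, ?_⟩
    simp only [mulVecLin_apply, mulVec_mulVec, Matrix.mul_assoc, Matrix.mul_nonsing_inv _ hN,
      Matrix.mul_one]

omit [DecidableEq κ] in
lemma range_mul {n : ℕ} (G : Matrix κ κ ℂ) (Bm : Matrix κ (Fin n) ℂ) :
    LinearMap.range (G * Bm).mulVecLin = (LinearMap.range Bm.mulVecLin).map G.mulVecLin := by
  rw [mulVecLin_mul, LinearMap.range_comp]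

omit [DecidableEq κ] in
/-- columns in the range of an orthonormal matrix -/
lemma proj {n m : ℕ} (Bm : Matrix κ (Fin n) ℂ) (h : Bmᴴ * Bm = 1) (A : Matrix κ (Fin m) ℂ)
    (hA : ∀ c, A *ᵥ c ∈ LinearMap.range Bm.mulVecLin) : Bm * (Bmᴴ * A) = A := by
  have h1 : ∀ c, (Bm * (Bmᴴ * A)) *ᵥ c = A *ᵥ c := by
    intro c
    obtain ⟨d, hd⟩ := hA c
    rw [mulVecLin_apply] at hd
    rw [← mulVec_mulVec, ← mulVec_mulVec, ← hd, mulVec_mulVec d Bmᴴ Bm, h, one_mulVec]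
  ext a b
  have h2 := congrFun (h1 (Pi.single b 1)) a
  simpa using h2

/-- the intermediate case -/
lemma mid (hF : M_Factor) (hM : M_SH2) (g₀ g₁ : Matrix κ κ ℂ)
    (v : Fin 3 × κ → ℝ) (G : Fin 3 → ℂ → Matrix κ κ ℂ) (Q : Fin 3 → Matrix κ κ ℂ)
    (h₀ : g₀.det ≠ 0) (h₁ : g₁.det ≠ 0) (hMV : MVx G Q) (hRB : RowBdx (gam g₀ g₁) (wt v) G)
    (hinv : ∀ j, ∀ z ∈ V j, IsUnit (G j z).det) {n : ℕ} (hn0 : 0 < n) (hnc : n < Fintype.card κ)
    (Bm : Matrix κ (Fin n) ℂ) (hB : Bmᴴ * Bm = 1)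
    (hQB : ∀ x, Bm * (Bmᴴ * (Q x * Bm)) = Q x * Bm) :
    ∃ W : Matrix κ (Fin n) ℂ[X], T.IsSub W ∧ 0 ≤ T.parDegree g₀ g₁ v W ∧
      ∀ j, ∀ z ∈ V j, LinearMap.range (W.map (eval z)).mulVecLin =
        (LinearMap.range Bm.mulVecLin).map (G j z).mulVecLin := by
  classical
  -- the restricted matrix
  have hMV' : MVx (fun j z => G j z * Bm) (fun x => Bmᴴ * (Q x * Bm)) := by
    refine ⟨fun j a b => ?_, fun j j' z hz => ?_, fun j z hz => ?_, fun j => ?_⟩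
    · simp only [mul_apply]
      exact DifferentiableOn.fun_sum fun c _ => (hMV.diff j a c).mul_const _
    · show G j z * Bm = G j' z * Bm
      rw [hMV.plus j j' z hz]
    · show G (j + 1) z * Bm = G j z * Bm * (Bmᴴ * (Q j * Bm))
      rw [hMV.minus j z hz, Matrix.mul_assoc, ← hQB j, ← Matrix.mul_assoc (G j z)]
      congr 1
      rw [hQB j]
    · rw [conjTranspose_mul, conjTranspose_mul, conjTranspose_conjTranspose]
      calc Bmᴴ * (Q j)ᴴ * Bm * (Bmᴴ * (Q j * Bm)) = Bmᴴ * (Q j)ᴴ * (Bm * (Bmᴴ * (Q j * Bm))) := by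
            simp only [Matrix.mul_assoc]
        _ = Bmᴴ * (Q j)ᴴ * (Q j * Bm) := by rw [hQB j]
        _ = Bmᴴ * ((Q j)ᴴ * Q j) * Bm := by simp only [Matrix.mul_assoc]
        _ = 1 := by rw [hMV.unit j, Matrix.mul_one, hB]
  have hRB' : RowBdx (gam g₀ g₁) (wt v) (fun j z => G j z * Bm) := by
    intro x
    obtain ⟨C0, ρ0, hρ0, hρ0', hb⟩ := hRB x
    obtain ⟨S, hS⟩ : ∃ S : ℝ, S = ∑ c, ∑ b, ‖Bm c b‖ := ⟨_, rfl⟩
    have key : ∀ (A : Matrix κ κ ℂ) (t : κ → ℝ), (∀ a b, ‖A a b‖ ≤ C0 * t a) → (∀ a, 0 ≤ t a) →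
        ∀ a b, ‖(A * Bm) a b‖ ≤ (|C0| * S) * t a := by
      intro A t hA ht a b
      rw [mul_apply]
      refine (norm_sum_le _ _).trans ?_
      have h1 : ∀ c ∈ (Finset.univ : Finset κ), ‖A a c * Bm c b‖ ≤ (|C0| * t a) * ‖Bm c b‖ := by
        intro c _
        rw [norm_mul]
        gcongr
        refine (hA a c).trans ?_
        have := ht a
        gcongr
        exact le_abs_self C0
      refine (Finset.sum_le_sum h1).trans ?_
      rw [← Finset.mul_sum]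
      have h2 : ∑ c, ‖Bm c b‖ ≤ S := by
        rw [hS]
        refine Finset.sum_le_sum fun c _ => ?_
        exact Finset.single_le_sum (f := fun b => ‖Bm c b‖) (fun b _ => norm_nonneg _)
          (Finset.mem_univ b)
      have h3 := ht a
      calc |C0| * t a * ∑ c, ‖Bm c b‖ ≤ |C0| * t a * S := by gcongr
        _ = (|C0| * S) * t a := by ring
    refine ⟨|C0| * S, ρ0, hρ0, hρ0', fun ζ hζ => ⟨fun hs a b => ?_, fun hs a b => ?_⟩⟩
    · show ‖(gam g₀ g₁ x * (G x (cz x ζ) * Bm)) a b‖ ≤ _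
      rw [← Matrix.mul_assoc]
      exact key _ (fun a => ‖ζ‖ ^ (wt v x a)) ((hb ζ hζ).1 hs)
        (fun a => Real.rpow_nonneg (norm_nonneg _) _) a b
    · show ‖(gam g₀ g₁ x * (G (x + 1) (cz x ζ) * Bm)) a b‖ ≤ _
      rw [← Matrix.mul_assoc]
      exact key _ (fun a => ‖ζ‖ ^ (wt v x a)) ((hb ζ hζ).2 hs)
        (fun a => Real.rpow_nonneg (norm_nonneg _) _) a b
  -- injectivity
  have hBinj : ∀ c : Fin n → ℂ, Bm *ᵥ c = 0 → c = 0 := by
    intro c hc
    have h1 : Bmᴴ *ᵥ (Bm *ᵥ c) = c := by rw [mulVec_mulVec, hB, one_mulVec]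
    rw [← h1, hc, mulVec_zero]
  have hGinj : ∀ j, ∀ z ∈ V j, ∀ c : Fin n → ℂ, (G j z * Bm) *ᵥ c = 0 → c = 0 := by
    intro j z hz c hc
    apply hBinj
    rw [← mulVec_mulVec] at hc
    have h1 : (G j z)⁻¹ *ᵥ (G j z *ᵥ (Bm *ᵥ c)) = Bm *ᵥ c := by
      rw [mulVec_mulVec, Matrix.nonsing_inv_mul _ (hinv j z hz), one_mulVec]
    rw [← h1, hc, mulVec_zero]
  have hgam : ∀ x, IsUnit (gam g₀ g₁ x).det := by
    intro x
    rw [isUnit_iff_ne_zero]
    fin_cases x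
    · exact h₀
    · exact h₁
    · change (gam g₀ g₁ 2).det ≠ 0
      simp [gam]
  obtain ⟨k, hk0, hkc, W, hW, N, hN, hGN, z0, L, hz0, hL⟩ := hF κ n (gam g₀ g₁) (wt v)
    (fun j z => G j z * Bm) (fun x => Bmᴴ * (Q x * Bm)) hgam hMV' hRB'
    (by
      refine ⟨Complex.I, by simp, fun h0 => ?_⟩
      have h1 := hGinj 0 Complex.I (I_mem 0) (fun _ => 1) (by
        have h2 : G 0 Complex.I * Bm = 0 := h0
        rw [h2, zero_mulVec])
      have h2 := congrFun h1 ⟨0, hn0⟩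
      simp at h2)
    (fun z _ => by
      refine lt_of_le_of_lt (Matrix.rank_le_card_width _) ?_
      simpa using hnc)
  have hkn : k = n := by
    apply le_antisymm
    · have hLinj : Function.Injective L := by
        intro a b hab
        by_contra hne
        apply hL
        apply det_zero_of_column_eq hne
        intro c
        simp [hab]
      simpa using Fintype.card_le_of_injective L hLinj
    · have hNinj : Function.Injective (N 0 Complex.I).mulVecLin := by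
        rw [← LinearMap.ker_eq_bot, LinearMap.ker_eq_bot']
        intro c hc
        apply hGinj 0 Complex.I (I_mem 0)
        have h1 : G 0 Complex.I * Bm = W.map (eval Complex.I) * N 0 Complex.I :=
          hGN 0 Complex.I (I_mem 0)
        rw [mulVecLin_apply] at hc
        rw [h1, ← mulVec_mulVec, hc, mulVec_zero]
      have h2 := LinearMap.finrank_le_finrank_of_injective hNinj
      simpa using h2
  subst hkn
  have hNunit : ∀ j, ∀ z ∈ V j, IsUnit (N j z).det := by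
    intro j z hz
    rw [isUnit_iff_ne_zero]
    intro h0
    obtain ⟨c, hc0, hc⟩ := Matrix.exists_mulVec_eq_zero_iff.mpr h0
    apply hc0
    apply hGinj j z hz
    have h1 : G j z * Bm = W.map (eval z) * N j z := hGN j z hz
    rw [h1, ← mulVec_mulVec, hc, mulVec_zero]
  refine ⟨W, hW, ?_, fun j z hz => ?_⟩
  · exact degree hM g₀ g₁ v h₀ h₁ _ _ W hW N hN hRB' hGN
      ⟨z0, hz0, (hNunit 0 z0 (upper_mem 0 hz0)).ne_zero⟩
  · rw [← range_mul, ← range_mul_unit (W.map (eval z)) (N j z) (hNunit j z hz)]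
    have h1 : G j z * Bm = W.map (eval z) * N j z := hGN j z hz
    rw [h1]

end Pool.Agent.MSU.ItemMSup

namespace Pool.Agent.MSU

open ItemMSup in
/-- an invariant subspace gives a subbundle of nonnegative parabolic degree -/
theorem prf_M_Sup (hF : M_Factor) (hM : M_SH2) : M_Sup := by
  classical
  intro κ _ _ g₀ g₁ v G Q h₀ h₁ hv hMV hRB hinv U hU
  have hcard : Module.finrank ℂ (κ → ℂ) = Fintype.card κ := Module.finrank_pi ℂ
  have hle : Module.finrank ℂ U ≤ Fintype.card κ := hcard ▸ Submodule.finrank_le U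
  rcases Nat.eq_zero_or_pos (Module.finrank ℂ U) with hn0 | hn0
  · -- the zero subspace
    have hU0 : U = ⊥ := Submodule.finrank_eq_zero.mp hn0
    have hsub : T.IsSub (0 : Matrix κ (Fin 0) ℂ[X]) := ⟨0, Subsingleton.elim _ _⟩
    refine ⟨0, 0, hn0.symm, hsub, deg_zero g₀ g₁ v h₀ h₁ _ hsub, fun j z _ => ?_⟩
    rw [hU0, Submodule.map_bot, LinearMap.range_eq_bot]
    apply LinearMap.ext
    intro c
    rw [Subsingleton.elim c 0, map_zero, map_zero]
  rcases hle.eq_or_lt with hnc | hnc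
  · -- the full space
    have hUt : U = ⊤ := by
      apply Submodule.eq_top_of_finrank_eq
      rw [hnc, hcard]
    obtain ⟨n, hn⟩ : ∃ n, n = Module.finrank ℂ U := ⟨_, rfl⟩
    rw [← hn] at hnc
    obtain ⟨e⟩ : Nonempty (Fin n ≃ κ) := ⟨(finCongr hnc).trans (Fintype.equivFin κ).symm⟩
    have hsub : T.IsSub ((1 : Matrix κ κ ℂ[X]).submatrix id e) := by
      refine ⟨(1 : Matrix κ κ ℂ[X]).submatrix e id, ?_⟩
      have h1 : (1 : Matrix κ κ ℂ[X]).submatrix e id * (1 : Matrix κ κ ℂ[X]).submatrix id e =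
          ((1 : Matrix κ κ ℂ[X]) * 1).submatrix e e := rfl
      rw [h1, Matrix.mul_one, submatrix_one_equiv]
    refine ⟨n, _, hn, hsub, deg_full g₀ g₁ v h₀ h₁ hv e hsub, fun j z hz => ?_⟩
    rw [hUt, Submodule.map_top]
    have e1 : LinearMap.range (G j z).mulVecLin = ⊤ := by
      rw [LinearMap.range_eq_top]
      intro y
      refine ⟨(G j z)⁻¹ *ᵥ y, ?_⟩
      rw [mulVecLin_apply, mulVec_mulVec, Matrix.mul_nonsing_inv _ (hinv j z hz), one_mulVec]
    rw [e1, LinearMap.range_eq_top]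
    intro y
    refine ⟨y ∘ e, ?_⟩
    funext a
    rw [mulVecLin_apply, mulVec, dotProduct]
    have : ∀ i, (((1 : Matrix κ κ ℂ[X]).submatrix id e).map (eval z)) a i * (y ∘ e) i =
        if a = e i then y (e i) else 0 := by
      intro i
      simp only [map_apply, submatrix_apply, id, one_apply, Function.comp]
      split_ifs <;> simp
    rw [Finset.sum_congr rfl fun i _ => this i, Equiv.sum_comp e (fun b => if a = b then y b else 0)]
    simp
  -- the intermediate case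
  obtain ⟨Bm, hB, hBU⟩ := onb U
  have hQB : ∀ x, Bm * (Bmᴴ * (Q x * Bm)) = Q x * Bm := by
    intro x
    apply proj Bm hB
    intro c
    have h1 : Bm *ᵥ c ∈ U := by
      have : Bm *ᵥ c ∈ LinearMap.range Bm.mulVecLin := ⟨c, rfl⟩
      exact hBU.le this
    have h2 : (Q x * Bm) *ᵥ c ∈ U := by
      apply hU x
      refine ⟨Bm *ᵥ c, h1, ?_⟩
      rw [mulVecLin_apply, mulVec_mulVec]
    exact hBU.ge h2
  obtain ⟨W, hW, hd, hr⟩ := mid hF hM g₀ g₁ v G Q h₀ h₁ hMV hRB hinv hn0 hnc Bm hB hQB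
  refine ⟨_, W, rfl, hW, hd, fun j z hz => ?_⟩
  have h1 := hr j z hz
  exact h1.trans (congrArg (fun X => Submodule.map (G j z).mulVecLin X) hBU)

end Pool.Agent.MSU

end

section

/-! Item M_Tens: tensor powers of the multivalued matrix. -/

open Matrix Polynomial Filter Topology
open Pool.Agent.Work.MP_5e5ff1_ag

namespace Pool.Agent.MSU

namespace ItemMTens

/-- the exponents of the block matrix -/
def ex {r : ℕ} (e : Fin r → ℝ) : Unit ⊕ Fin r → ℝ := Sum.elim (fun _ => 0) e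

theorem tens_apply {r : ℕ} (m : ℕ) (g : Matrix (Fin r) (Fin r) ℂ)
    (x y : Fin m → Unit ⊕ Fin r) :
    T.tens m g x y = ∏ l, (fromBlocks 1 0 0 g : Matrix (Unit ⊕ Fin r) (Unit ⊕ Fin r) ℂ) (x l) (y l) :=
  rfl

theorem tens_star {r : ℕ} (m : ℕ) (g : Matrix (Fin r) (Fin r) ℂ) :
    (T.tens m g)ᴴ = T.tens m gᴴ := by
  ext x y
  rw [Matrix.conjTranspose_apply, tens_apply, tens_apply, star_prod]
  refine Finset.prod_congr rfl (fun l _ => ?_)
  rw [← Matrix.conjTranspose_apply, Matrix.fromBlocks_conjTranspose]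
  simp

theorem prod_bound {m : ℕ} (B : Fin m → ℂ) (C t : ℝ) (ht : 0 < t) (E : Fin m → ℝ)
    (h : ∀ l, ‖B l‖ ≤ C * t ^ (E l)) : ‖∏ l, B l‖ ≤ C ^ m * t ^ (∑ l, E l) := by
  rw [norm_prod, Real.rpow_sum_of_pos ht]
  calc ∏ l, ‖B l‖ ≤ ∏ l, (C * t ^ (E l)) :=
        Finset.prod_le_prod (fun l _ => norm_nonneg _) (fun l _ => h l)
    _ = C ^ m * ∏ l, t ^ (E l) := by
        rw [Finset.prod_mul_distrib]
        simp

theorem block_row {r : ℕ} (A : Matrix (Fin r) (Fin r) ℂ) (C t : ℝ) (hC : 1 ≤ C) (ht : 0 < t)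
    (e : Fin r → ℝ) (h : ∀ a b, ‖A a b‖ ≤ C * t ^ (e a)) (p q : Unit ⊕ Fin r) :
    ‖(fromBlocks 1 0 0 A : Matrix (Unit ⊕ Fin r) (Unit ⊕ Fin r) ℂ) p q‖ ≤ C * t ^ (ex e p) := by
  rcases p with p | p <;> rcases q with q | q
  · simp [ex, hC]
  · simp only [fromBlocks_apply₁₂, Matrix.zero_apply, norm_zero]
    positivity
  · simp only [fromBlocks_apply₂₁, Matrix.zero_apply, norm_zero]
    positivity
  · simp only [fromBlocks_apply₂₂, ex, Sum.elim_inr]
    exact h p q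

theorem block_col {r : ℕ} (A : Matrix (Fin r) (Fin r) ℂ) (C t : ℝ) (hC : 1 ≤ C) (ht : 0 < t)
    (e : Fin r → ℝ) (h : ∀ a b, ‖A b a‖ ≤ C * t ^ (e a)) (p q : Unit ⊕ Fin r) :
    ‖(fromBlocks 1 0 0 A : Matrix (Unit ⊕ Fin r) (Unit ⊕ Fin r) ℂ) q p‖ ≤ C * t ^ (ex e p) := by
  rcases p with p | p <;> rcases q with q | q
  · simp [ex, hC]
  · simp only [fromBlocks_apply₂₁, Matrix.zero_apply, norm_zero]
    positivity
  · simp only [fromBlocks_apply₁₂, Matrix.zero_apply, norm_zero]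
    positivity
  · simp only [fromBlocks_apply₂₂, ex, Sum.elim_inr]
    exact h p q

theorem gam_tens {r : ℕ} (m : ℕ) (g₀ g₁ : Matrix (Fin r) (Fin r) ℂ) (x : Fin 3) :
    gam (T.tens m g₀) (T.tens m g₁) x = T.tens m (gam g₀ g₁ x) := by
  fin_cases x
  · rfl
  · rfl
  · simp [gam, T.tens_one]

theorem gam_det {r : ℕ} (g₀ g₁ : Matrix (Fin r) (Fin r) ℂ) (h0 : g₀.det ≠ 0) (h1 : g₁.det ≠ 0)
    (x : Fin 3) : (gam g₀ g₁ x).det ≠ 0 := by
  fin_cases x
  · exact h0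
  · exact h1
  · simp [gam]

theorem wt_eq {r : ℕ} (m : ℕ) (v : Fin 3 × Fin r → ℝ) (x : Fin 3) (I : Fin m → Unit ⊕ Fin r) :
    wt (T.tensWeight m v) x I = ∑ l, ex (wt v x) (I l) := by
  simp only [wt, T.tensWeight]
  rw [← Finset.sum_neg_distrib]
  refine Finset.sum_congr rfl (fun l _ => ?_)
  rcases I l with p | p <;> simp [ex, wt]

theorem ex_neg {r : ℕ} (e : Fin r → ℝ) (p : Unit ⊕ Fin r) :
    ex (fun a => -(e a)) p = -(ex e p) := by
  rcases p with p | p <;> simp [ex]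

end ItemMTens

open ItemMTens in
theorem prf_M_Tens : M_Tens := by
  intro r m g₀ g₁ v G Q hg₀ hg₁ hMV hRow hu hCol
  have hdet : ∀ (x : Fin 3) (j : Fin 3) (z : ℂ), z ∈ V j → (gam g₀ g₁ x * G j z).det ≠ 0 := by
    intro x j z hz
    rw [Matrix.det_mul]
    exact mul_ne_zero (gam_det g₀ g₁ hg₀ hg₁ x) (hu j z hz).ne_zero
  refine ⟨⟨?_, ?_, ?_, ?_⟩, ?_, ?_, ?_⟩
  · intro j a b
    have h : ∀ l ∈ (Finset.univ : Finset (Fin m)), DifferentiableOn ℂ (fun z =>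
        (fromBlocks 1 0 0 (G j z) : Matrix (Unit ⊕ Fin r) (Unit ⊕ Fin r) ℂ) (a l) (b l)) (V j) := by
      intro l _
      rcases a l with p | p <;> rcases b l with q | q
      · simp only [fromBlocks_apply₁₁]
        exact differentiableOn_const _
      · simp only [fromBlocks_apply₁₂]
        exact differentiableOn_const _
      · simp only [fromBlocks_apply₂₁]
        exact differentiableOn_const _
      · simp only [fromBlocks_apply₂₂]
        exact hMV.diff j p q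
    have h2 := DifferentiableOn.fun_finsetProd h
    exact h2
  · intro j j' z hz
    simp only [hMV.plus j j' z hz]
  · intro j z hz
    simp only [hMV.minus j z hz, T.tens_mul]
  · intro j
    rw [tens_star, ← T.tens_mul, hMV.unit j, T.tens_one]
  · intro x
    obtain ⟨C, ρ, hρ, hρ2, hb⟩ := hRow x
    refine ⟨(max C 1) ^ m, ρ, hρ, hρ2, fun ζ hζ => ⟨fun hs I f => ?_, fun hs I f => ?_⟩⟩
    · have hpos : 0 < ‖ζ‖ := norm_pos_iff.2 (Sa_ne hs)
      rw [gam_tens, ← T.tens_mul, tens_apply, wt_eq]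
      refine prod_bound _ _ _ hpos _ (fun l => ?_)
      refine block_row _ _ _ (le_max_right _ _) hpos _ (fun a b => ?_) _ _
      exact ((hb ζ hζ).1 hs a b).trans (mul_le_mul_of_nonneg_right (le_max_left _ _)
        (Real.rpow_nonneg (norm_nonneg _) _))
    · have hpos : 0 < ‖ζ‖ := norm_pos_iff.2 (Sb_ne hs)
      rw [gam_tens, ← T.tens_mul, tens_apply, wt_eq]
      refine prod_bound _ _ _ hpos _ (fun l => ?_)
      refine block_row _ _ _ (le_max_right _ _) hpos _ (fun a b => ?_) _ _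
      exact ((hb ζ hζ).2 hs a b).trans (mul_le_mul_of_nonneg_right (le_max_left _ _)
        (Real.rpow_nonneg (norm_nonneg _) _))
  · intro x
    obtain ⟨C, ρ, hρ, hρ2, hb⟩ := hCol x
    refine ⟨(max C 1) ^ m, ρ, hρ, hρ2, fun ζ hζ => ⟨fun hs I f => ?_, fun hs I f => ?_⟩⟩
    · have hpos : 0 < ‖ζ‖ := norm_pos_iff.2 (Sa_ne hs)
      have hz : cz x ζ ∈ V x := cz_mem_a x (by linarith) hs
      rw [gam_tens, ← T.tens_mul, T.tens_inv m (hdet x x _ hz), tens_apply, wt_eq,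
        ← Finset.sum_neg_distrib]
      simp only [← ex_neg]
      refine prod_bound _ _ _ hpos _ (fun l => ?_)
      refine block_col _ _ _ (le_max_right _ _) hpos _ (fun a b => ?_) _ _
      exact ((hb ζ hζ).1 hs a b).trans (mul_le_mul_of_nonneg_right (le_max_left _ _)
        (Real.rpow_nonneg (norm_nonneg _) _))
    · have hpos : 0 < ‖ζ‖ := norm_pos_iff.2 (Sb_ne hs)
      have hz : cz x ζ ∈ V (x + 1) := cz_mem_b x (by linarith) hs
      rw [gam_tens, ← T.tens_mul, T.tens_inv m (hdet x (x + 1) _ hz), tens_apply, wt_eq,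
        ← Finset.sum_neg_distrib]
      simp only [← ex_neg]
      refine prod_bound _ _ _ hpos _ (fun l => ?_)
      refine block_col _ _ _ (le_max_right _ _) hpos _ (fun a b => ?_) _ _
      exact ((hb ζ hζ).2 hs a b).trans (mul_le_mul_of_nonneg_right (le_max_left _ _)
        (Real.rpow_nonneg (norm_nonneg _) _))
  · intro j z hz
    exact isUnit_iff_ne_zero.2 (T.tens_det_ne m (hu j z hz).ne_zero)

end Pool.Agent.MSU

end
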