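import Mathlib
import Pool.Agent.Work.MP_5e5ff1_ag.U.Defs

/-! Bundle of small proof modules (one section per former module). -/

section

/-! The exponents of unitary local systems form a closed periodic symmetric set. -/

open Matrix Polynomial Filter Topology

namespace Pool.Agent.Work.MP_5e5ff1_ag.U

variable {r : ℕ}

lemma exp_add_int (x : ℝ) (z : ℤ) :
    Complex.exp (2 * Real.pi * Complex.I * ((x + z : ℝ) : ℂ))
      = Complex.exp (2 * Real.pi * Complex.I * ((x : ℝ) : ℂ)) := by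
  have h1 : (2 * Real.pi * Complex.I * ((x + z : ℝ) : ℂ))
      = 2 * Real.pi * Complex.I * ((x : ℝ) : ℂ) + z * (2 * Real.pi * Complex.I) := by
    push_cast
    ring
  rw [h1, Complex.exp_add, Complex.exp_int_mul_two_pi_mul_I, mul_one]

lemma UnitaryExponents.periodic {v : Fin 3 × Fin r → ℝ} (h : UnitaryExponents v)
    (z : Fin 3 × Fin r → ℤ) : UnitaryExponents (fun i => v i + z i) := by
  obtain ⟨ρ, h1, h2⟩ := h
  refine ⟨ρ, h1, fun x => ?_⟩
  rw [h2 x]
  apply Finset.prod_congr rfl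
  intro j _
  rw [← exp_add_int (v (x, j)) (z (x, j))]

lemma UnitaryExponents.congr {v w : Fin 3 × Fin r → ℝ} (h : UnitaryExponents v)
    (hvw : ∀ i, ∃ z : ℤ, w i = v i + z) : UnitaryExponents w := by
  choose z hz using hvw
  have h1 := h.periodic z
  have h2 : (fun i => v i + (z i : ℝ)) = w := by
    funext i
    exact (hz i).symm
  rwa [h2] at h1

/-- complex conjugation -/
lemma UnitaryExponents.neg {v : Fin 3 × Fin r → ℝ} (h : UnitaryExponents v) :
    UnitaryExponents (fun i => -v i) := by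
  obtain ⟨ρ, h1, h2⟩ := h
  have hmem : ∀ x, (ρ x : Matrix (Fin r) (Fin r) ℂ).map (starRingEnd ℂ)
      ∈ Matrix.unitaryGroup (Fin r) ℂ := by
    intro x
    have h3 := (ρ x).2
    rw [Matrix.mem_unitaryGroup_iff'] at h3 ⊢
    have h4 : (star (ρ x : Matrix (Fin r) (Fin r) ℂ) * (ρ x : Matrix (Fin r) (Fin r) ℂ)).map
        (starRingEnd ℂ) = (1 : Matrix (Fin r) (Fin r) ℂ).map (starRingEnd ℂ) := by
      rw [h3]
    rw [Matrix.map_mul] at h4
    have h5 : (1 : Matrix (Fin r) (Fin r) ℂ).map (starRingEnd ℂ) = 1 :=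
      Matrix.map_one _ (map_zero _) (map_one _)
    rw [h5] at h4
    have h6 : star ((ρ x : Matrix (Fin r) (Fin r) ℂ).map (starRingEnd ℂ))
        = (star (ρ x : Matrix (Fin r) (Fin r) ℂ)).map (starRingEnd ℂ) := by
      ext i j
      simp [Matrix.star_apply]
    rw [h6]
    exact h4
  refine ⟨fun x => ⟨_, hmem x⟩, ?_, fun x => ?_⟩
  · apply Subtype.ext
    have h3 := congrArg (fun M : Matrix.unitaryGroup (Fin r) ℂ =>
      (M : Matrix (Fin r) (Fin r) ℂ).map (starRingEnd ℂ)) h1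
    have h4 : ((ρ 0 : Matrix (Fin r) (Fin r) ℂ) * (ρ 1 : Matrix (Fin r) (Fin r) ℂ)
        * (ρ 2 : Matrix (Fin r) (Fin r) ℂ)).map (starRingEnd ℂ)
        = (1 : Matrix (Fin r) (Fin r) ℂ).map (starRingEnd ℂ) := h3
    rw [Matrix.map_mul, Matrix.map_mul, Matrix.map_one _ (map_zero _) (map_one _)] at h4
    exact h4
  · change ((ρ x : Matrix (Fin r) (Fin r) ℂ).map (starRingEnd ℂ)).charpoly = _
    rw [Matrix.charpoly_map, h2 x, Polynomial.map_prod]
    apply Finset.prod_congr rfl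
    intro j _
    rw [Polynomial.map_sub, Polynomial.map_X, Polynomial.map_C]
    congr 2
    rw [← Complex.exp_conj]
    congr 1
    simp only [map_mul, Complex.conj_I, Complex.conj_ofReal]
    rw [show (starRingEnd ℂ) (2 : ℂ) = 2 from Complex.conj_ofNat 2]
    push_cast
    ring

lemma eval_charpoly_eq (M : Matrix (Fin r) (Fin r) ℂ) (t : ℂ) :
    M.charpoly.eval t = (Matrix.scalar (Fin r) t - M).det := by
  rw [Matrix.eval_charpoly]

theorem isClosed_unitaryExponents : IsClosed {v : Fin 3 × Fin r → ℝ | UnitaryExponents v} := by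
  have hcomp : IsCompact {M : Matrix (Fin r) (Fin r) ℂ | M ∈ Matrix.unitaryGroup (Fin r) ℂ} := by
    have hcl : IsClosed {M : Matrix (Fin r) (Fin r) ℂ | M ∈ Matrix.unitaryGroup (Fin r) ℂ} := by
      have : {M : Matrix (Fin r) (Fin r) ℂ | M ∈ Matrix.unitaryGroup (Fin r) ℂ}
          = {M | star M * M = 1} := by
        ext M
        exact Matrix.mem_unitaryGroup_iff'
      rw [this]
      exact isClosed_eq (by fun_prop) continuous_const
    have hsub : {M : Matrix (Fin r) (Fin r) ℂ | M ∈ Matrix.unitaryGroup (Fin r) ℂ}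
        ⊆ Set.pi Set.univ (fun _ => Set.pi Set.univ (fun _ => Metric.closedBall (0 : ℂ) 1)) := by
      intro M hM i _ j _
      rw [mem_closedBall_zero_iff]
      exact entry_norm_bound_of_unitary hM i j
    exact IsCompact.of_isClosed_subset
      (isCompact_univ_pi fun _ => isCompact_univ_pi fun _ => isCompact_closedBall _ _) hcl hsub
  have hset : {v : Fin 3 × Fin r → ℝ | UnitaryExponents v}
      = Prod.snd '' {p : (Fin 3 → Matrix (Fin r) (Fin r) ℂ) × (Fin 3 × Fin r → ℝ) |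
        (∀ x, p.1 x ∈ Matrix.unitaryGroup (Fin r) ℂ) ∧ p.1 0 * p.1 1 * p.1 2 = 1 ∧
        ∀ x, ∀ t : ℂ, (Matrix.scalar (Fin r) t - p.1 x).det
          = ∏ j, (t - Complex.exp (2 * Real.pi * Complex.I * ((p.2 (x, j) : ℝ) : ℂ)))} := by
    ext v
    simp only [Set.mem_ofPred_eq, Set.mem_image, Prod.exists, exists_eq_right]
    constructor
    · rintro ⟨ρ, h1, h2⟩
      refine ⟨fun x => (ρ x : Matrix (Fin r) (Fin r) ℂ), fun x => (ρ x).2, ?_, fun x t => ?_⟩
      · have h3 := congrArg (fun M : Matrix.unitaryGroup (Fin r) ℂ =>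
          (M : Matrix (Fin r) (Fin r) ℂ)) h1
        exact h3
      · rw [← eval_charpoly_eq, h2 x, Polynomial.eval_prod]
        simp
    · rintro ⟨M, h1, h2, h3⟩
      refine ⟨fun x => ⟨M x, h1 x⟩, Subtype.ext h2, fun x => ?_⟩
      apply Polynomial.funext
      intro t
      change (M x).charpoly.eval t = _
      rw [eval_charpoly_eq, h3 x t, Polynomial.eval_prod]
      simp
  rw [hset]
  have hK : IsCompact {M : Fin 3 → Matrix (Fin r) (Fin r) ℂ |
      ∀ x, M x ∈ Matrix.unitaryGroup (Fin r) ℂ} := by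
    have := isCompact_univ_pi (fun _ : Fin 3 => hcomp)
    convert this using 1
    ext M
    simp
  -- projection along a compact factor
  have hclosed : IsClosed {p : (Fin 3 → Matrix (Fin r) (Fin r) ℂ) × (Fin 3 × Fin r → ℝ) |
        p.1 0 * p.1 1 * p.1 2 = 1 ∧
        ∀ x, ∀ t : ℂ, (Matrix.scalar (Fin r) t - p.1 x).det
          = ∏ j, (t - Complex.exp (2 * Real.pi * Complex.I * ((p.2 (x, j) : ℝ) : ℂ)))} := by
    have h1 : IsClosed {p : (Fin 3 → Matrix (Fin r) (Fin r) ℂ) × (Fin 3 × Fin r → ℝ) |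
        p.1 0 * p.1 1 * p.1 2 = 1} := by
      apply isClosed_eq _ continuous_const
      exact ((continuous_apply 0).comp continuous_fst |>.matrix_mul
        ((continuous_apply 1).comp continuous_fst)).matrix_mul
        ((continuous_apply 2).comp continuous_fst)
    have h2 : ∀ (x : Fin 3) (t : ℂ),
        IsClosed {p : (Fin 3 → Matrix (Fin r) (Fin r) ℂ) × (Fin 3 × Fin r → ℝ) |
          (Matrix.scalar (Fin r) t - p.1 x).det
            = ∏ j, (t - Complex.exp (2 * Real.pi * Complex.I * ((p.2 (x, j) : ℝ) : ℂ)))} := by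
      intro x t
      apply isClosed_eq
      · apply Continuous.matrix_det
        exact continuous_const.sub ((continuous_apply x).comp continuous_fst)
      · apply continuous_finsetProd
        intro j _
        refine continuous_const.sub (Complex.continuous_exp.comp ?_)
        refine continuous_const.mul (Complex.continuous_ofReal.comp ?_)
        exact (continuous_apply (x, j)).comp continuous_snd
    have h3 : {p : (Fin 3 → Matrix (Fin r) (Fin r) ℂ) × (Fin 3 × Fin r → ℝ) |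
        p.1 0 * p.1 1 * p.1 2 = 1 ∧
        ∀ x, ∀ t : ℂ, (Matrix.scalar (Fin r) t - p.1 x).det
          = ∏ j, (t - Complex.exp (2 * Real.pi * Complex.I * ((p.2 (x, j) : ℝ) : ℂ)))}
        = {p | p.1 0 * p.1 1 * p.1 2 = 1} ∩ ⋂ x, ⋂ t : ℂ,
          {p | (Matrix.scalar (Fin r) t - p.1 x).det
            = ∏ j, (t - Complex.exp (2 * Real.pi * Complex.I * ((p.2 (x, j) : ℝ) : ℂ)))} := by
      ext p
      simp
    rw [h3]
    exact h1.inter (isClosed_iInter fun x => isClosed_iInter fun t => h2 x t)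
  rw [← isSeqClosed_iff_isClosed]
  intro vn v hvn hv
  choose pn hpn using hvn
  have hM : ∀ n, (pn n).1 ∈ {M : Fin 3 → Matrix (Fin r) (Fin r) ℂ |
      ∀ x, M x ∈ Matrix.unitaryGroup (Fin r) ℂ} := fun n => (hpn n).1.1
  have : FirstCountableTopology (Fin 3 → Matrix (Fin r) (Fin r) ℂ) :=
    inferInstanceAs (FirstCountableTopology (Fin 3 → Fin r → Fin r → ℂ))
  obtain ⟨M, hMmem, φ, hφ, hlim⟩ := hK.tendsto_subseq hM
  refine ⟨(M, v), ⟨hMmem, ?_⟩, rfl⟩
  have hlim2 : Tendsto (fun n => ((pn (φ n)).1, (pn (φ n)).2)) atTop (𝓝 (M, v)) := by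
    apply hlim.prodMk_nhds
    have : (fun n => (pn (φ n)).2) = fun n => vn (φ n) := by
      funext n
      exact (hpn (φ n)).2
    rw [this]
    exact hv.comp hφ.tendsto_atTop
  exact hclosed.mem_of_tendsto hlim2 (Eventually.of_forall fun n => (hpn (φ n)).1.2)

end Pool.Agent.Work.MP_5e5ff1_ag.U

end

section

/-! Limits of exponents of unitary local systems. -/

open Matrix Polynomial Filter Topology
namespace Pool.Agent.Work.MP_5e5ff1_ag.U
variable {r : ℕ}

lemma mem_of_lim {v : Fin 3 × Fin r → ℝ} {w : ℕ → Fin 3 × Fin r → ℝ}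
    (h : Tendsto w atTop (𝓝 v)) (hw : ∀ m, UnitaryExponents (w m)) : UnitaryExponents v := by
  have h1 : v ∈ {v : Fin 3 × Fin r → ℝ | UnitaryExponents v} :=
    isClosed_unitaryExponents.mem_of_tendsto h (Eventually.of_forall hw)
  exact h1

lemma lim1 {e : Fin 3 × Fin r → ℚ} {u : ℤ} {p : ℕ → ℕ} (hp : Tendsto p atTop atTop) :
   Tendsto (fun (m : ℕ) (i : Fin 3 × Fin r) => -((u : ℝ) * ((e i : ℚ) : ℝ))
      + ((e i : ℚ) : ℝ) / (p m : ℝ)) atTop
      (𝓝 (fun i => -((u : ℝ) * ((e i : ℚ) : ℝ)))) := by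
    rw [tendsto_pi_nhds]
    intro i
    have h1 : Tendsto (fun m : ℕ => (p m : ℝ)) atTop atTop :=
      tendsto_natCast_atTop_atTop.comp hp
    have h2 := (h1.const_div_atTop ((e i : ℚ) : ℝ)).const_add (-((u : ℝ) * ((e i : ℚ) : ℝ)))
    rw [add_zero] at h2
    exact h2

lemma lim2 {e : Fin 3 × Fin r → ℚ} {u : ℤ} {p : ℕ → ℕ} (hp : Tendsto p atTop atTop) :
    Tendsto (fun (m : ℕ) (i : Fin 3 × Fin r) => (u : ℝ) * ((e i : ℚ) : ℝ)
      - ((e i : ℚ) : ℝ) / (p m : ℝ)) atTop
      (𝓝 (fun i => (u : ℝ) * ((e i : ℚ) : ℝ))) := by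
  rw [tendsto_pi_nhds]
  intro i
  have h1 : Tendsto (fun m : ℕ => (p m : ℝ)) atTop atTop :=
    tendsto_natCast_atTop_atTop.comp hp
  have h2 := (h1.const_div_atTop ((e i : ℚ) : ℝ)).const_sub ((u : ℝ) * ((e i : ℚ) : ℝ))
  rw [sub_zero] at h2
  exact h2

lemma unitary_limit {e : Fin 3 × Fin r → ℚ} {u : ℤ} {p : ℕ → ℕ} (hp : Tendsto p atTop atTop)
    (hmem : ∀ m, UnitaryExponents (fun i => -((u : ℝ) * ((e i : ℚ) : ℝ))
      + ((e i : ℚ) : ℝ) / (p m : ℕ))) :
    UnitaryExponents (fun i => (u : ℝ) * ((e i : ℚ) : ℝ)) := by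
  have h1 := mem_of_lim (lim1 hp) hmem
  have h2 := UnitaryExponents.neg h1
  have h3 : (fun i => -(fun i => -((u : ℝ) * ((e i : ℚ) : ℝ))) i)
      = fun i => (u : ℝ) * ((e i : ℚ) : ℝ) := by
    funext i
    simp only [neg_neg]
  rw [h3] at h2
  exact h2

end Pool.Agent.Work.MP_5e5ff1_ag.U

end
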