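import Mathlib
import Pool.Agent.Work.MP_5e5ff1_ag.Bd.B03
import Pool.Agent.Work.MP_5e5ff1_ag.S.Defs
import Pool.Agent.Work.MP_5e5ff1_ag.Bd.B04
import Pool.Agent.Work.MP_5e5ff1_ag.T.Los
import Pool.Agent.Work.MP_5e5ff1_ag.Bd.B10

/-! Bundle of small proof modules (one section per former module). -/

section

/-! Torsion points and closed periodic sets, with a uniform proportion of the unit multiples. -/

open Finset Filter Topology

namespace Pool.Agent.Work.MP_5e5ff1_ag.U

open Pool.Agent.Work.MP_5e5ff1_ag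

/-- the image of a set of units -/
lemma card_units_image {N m : ℕ} (hN : 0 < N) (hm : 0 < m) [DecidableEq (ZMod N)ˣ]
    (S : Finset (ZMod (N * m))ˣ) :
    S.card * N.totient ≤ (N * m).totient * (S.image (ZMod.unitsMap (dvd_mul_right N m))).card := by
  classical
  have : NeZero N := ⟨hN.ne'⟩
  have : NeZero (N * m) := ⟨(Nat.mul_pos hN hm).ne'⟩
  set π := ZMod.unitsMap (dvd_mul_right N m) with hπ
  have hsurj : Function.Surjective π := ZMod.unitsMap_surjective _
  set k := (Finset.univ.filter (fun u : (ZMod (N * m))ˣ => π u = 1)).card with hk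
  have hfib : ∀ v : (ZMod N)ˣ,
      (Finset.univ.filter (fun u : (ZMod (N * m))ˣ => π u = v)).card = k := by
    intro v
    exact MonoidHom.card_fiber_eq_of_mem_range π (hsurj v) (hsurj 1)
  have h1 : (Finset.univ : Finset (ZMod (N * m))ˣ).card = ∑ v : (ZMod N)ˣ, k := by
    rw [Finset.card_eq_sum_card_fiberwise (f := π) (t := Finset.univ) (fun _ _ => Finset.mem_univ _)]
    exact Finset.sum_congr rfl fun v _ => hfib v
  rw [Finset.card_univ, ZMod.card_units_eq_totient, Finset.sum_const, Finset.card_univ,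
    ZMod.card_units_eq_totient, smul_eq_mul] at h1
  have h2 : S.card ≤ k * (S.image π).card := by
    apply Finset.card_le_mul_card_image
    intro a _
    rw [← hfib a]
    apply Finset.card_le_card
    intro x hx
    rw [Finset.mem_filter] at hx ⊢
    exact ⟨Finset.mem_univ _, hx.2⟩
  rw [h1]
  calc S.card * N.totient ≤ k * (S.image π).card * N.totient := Nat.mul_le_mul_right _ h2
    _ = _ := by ring

variable {ι : Type*} [Fintype ι]

/-- the multiples by the units near a point of the torsion coset -/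
theorem orbit_dense_card [DecidableEq ι] (U : Ultrafilter ℕ) (v : ℕ → ι → ℚ) (N : ℕ → ℕ)
    (hN : ∀ i, 0 < N i) (hv : ∀ i j, ∃ a : ℤ, v i j = a / N i)
    (S : Finset (ι → ℤ)) (m : ℕ) (hm0 : 0 < m)
    (hS : Submodule.span ℤ (S : Set (ι → ℤ)) = relMod U v)
    (χ : (ι → ℤ) → ℚ) (hχ : ∀ s ∈ S, ∃ c : ℤ, χ s = c / m)
    (hev : ∀ᶠ i in (U : Filter ℕ), ∀ s ∈ S, ∃ z : ℤ, pr s (v i) = χ s + z)
    (w : ι → ℝ) (hw : Solves (S.image (fun s => (s, χ s))) w) (δ : ℝ) (hδ : 0 < δ) :
    ∃ c : ℝ, 0 < c ∧ ∀ᶠ i in (U : Filter ℕ), ∃ A : Finset (ZMod (N i))ˣ,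
      c * (N i).totient ≤ A.card ∧
      ∀ u ∈ A, ∀ j, ∃ z : ℤ, |((u : ZMod (N i)).val : ℝ) * ((v i j : ℚ) : ℝ) - w j - z| < δ := by
  classical
  -- parameters
  set n := Fintype.card ι with hn
  set δ' := min δ (1 / 4) with hδ'
  have hδ'0 : 0 < δ' := lt_min hδ (by norm_num)
  have hδ'1 : δ' ≤ 1 / 4 := min_le_right _ _
  set q : ℝ := 1 - 4 * δ' ^ 2 with hq
  have hq0 : 0 < q := by rw [hq]; nlinarith
  have hq1 : q < 1 := by rw [hq]; nlinarith [pow_pos hδ'0 2]
  obtain ⟨K, hK⟩ : ∃ K : ℕ, q ^ K < 1 / (2 * ((K : ℝ) + 1) ^ n) := by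
    have h1 := tendsto_pow_const_mul_const_pow_of_lt_one n hq0.le hq1
    have h2 := (h1.comp (tendsto_add_atTop_nat 1)).eventually (gt_mem_nhds (show (0 : ℝ) < q / 2 by
      positivity))
    obtain ⟨K, hK⟩ := h2.exists
    refine ⟨K, ?_⟩
    simp only [Function.comp] at hK
    push_cast at hK
    rw [pow_succ] at hK
    rw [lt_div_iff₀ (by positivity)]
    have h3 : ((K : ℝ) + 1) ^ n * q ^ K < 1 / 2 := by
      by_contra hcon
      push Not at hcon
      nlinarith
    nlinarith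
  set B := 4 * m * (K + 1) ^ n with hB
  have hmpos : (0 : ℝ) < m := by exact_mod_cast hm0
  refine ⟨1 / (4 * m * ((K : ℝ) + 1) ^ n), by positivity, ?_⟩
  have hbad : ∀ k ∈ Fintype.piFinset (fun _ : ι => Finset.Icc (-(K : ℤ)) K), k ∉ relMod U v →
      ∀ᶠ i in (U : Filter ℕ), (2 * B).factorial * m < (pr k (v i)).den := by
    intro k _ hk
    by_contra hcon
    apply hk
    rw [mem_relMod]
    refine ⟨(2 * B).factorial * m, ?_⟩
    rw [← Ultrafilter.eventually_not] at hcon
    filter_upwards [hcon] with i hi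
    exact not_lt.mp hi
  have hbad' : ∀ᶠ i in (U : Filter ℕ), ∀ k ∈ Fintype.piFinset (fun _ : ι => Finset.Icc (-(K : ℤ)) K),
      k ∉ relMod U v → (2 * B).factorial * m < (pr k (v i)).den := by
    rw [Filter.eventually_all_finset]
    intro k hk
    by_cases h : k ∈ relMod U v
    · exact Filter.Eventually.of_forall fun i h' => absurd h h'
    · filter_upwards [hbad k hk h] with i hi _ using hi
  filter_upwards [hev, hbad'] with i hi hib
  have hN0 := hN i
  have hNe : NeZero (N i) := ⟨hN0.ne'⟩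
  choose a ha using hv i
  set N' := N i * m with hN'
  have hN'0 : 0 < N' := Nat.mul_pos hN0 hm0
  have hne : NeZero N' := ⟨hN'0.ne'⟩
  have hmN' : m ∣ N' := ⟨N i, by rw [hN']; ring⟩
  have hNq : (N i : ℚ) ≠ 0 := Nat.cast_ne_zero.mpr hN0.ne'
  -- relations in the span
  have hspan : ∀ k ∈ relMod U v, (∃ z : ℤ, ∑ j, (k j : ℝ) * w j = ((pr k (v i) : ℚ) : ℝ) + z) ∧
      ∃ c : ℤ, pr k (v i) = c / m := by
    intro k hk
    rw [← hS] at hk
    refine Submodule.span_induction ?_ ?_ ?_ ?_ hk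
    · intro s hs
      obtain ⟨z, hz⟩ := hi s hs
      obtain ⟨c, hc⟩ := hχ s hs
      constructor
      · obtain ⟨z', hz'⟩ := hw (s, χ s) (Finset.mem_image.mpr ⟨s, hs, rfl⟩)
        refine ⟨z' - z, ?_⟩
        simp only at hz'
        rw [hz', hz]
        push_cast
        ring
      · refine ⟨c + z * m, ?_⟩
        rw [hz, hc]
        push_cast
        field_simp
    · refine ⟨⟨0, by simp [pr_zero]⟩, 0, by simp [pr_zero]⟩
    · rintro k l _ _ ⟨⟨z, hz⟩, c, hc⟩ ⟨⟨z', hz'⟩, c', hc'⟩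
      constructor
      · refine ⟨z + z', ?_⟩
        have : ∑ j, ((k + l) j : ℝ) * w j = ∑ j, (k j : ℝ) * w j + ∑ j, (l j : ℝ) * w j := by
          rw [← Finset.sum_add_distrib]
          apply Finset.sum_congr rfl
          intro j _
          simp only [Pi.add_apply]; push_cast; ring
        rw [this, hz, hz', pr_add]
        push_cast
        ring
      · refine ⟨c + c', ?_⟩
        rw [pr_add, hc, hc']
        push_cast
        ring
    · rintro t k _ ⟨⟨z, hz⟩, c, hc⟩
      constructor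
      · refine ⟨t * z, ?_⟩
        have : ∑ j, ((t • k) j : ℝ) * w j = t * ∑ j, (k j : ℝ) * w j := by
          rw [Finset.mul_sum]
          apply Finset.sum_congr rfl
          intro j _
          simp only [Pi.smul_apply, smul_eq_mul]; push_cast; ring
        rw [this, hz, pr_smul]
        push_cast
        ring
      · refine ⟨t * c, ?_⟩
        rw [pr_smul, hc]
        push_cast
        ring
  -- the average
  set G := unitsOne N' m with hG
  set g : (ZMod N')ˣ → ι → ℝ := fun u j => ((u : ZMod N').val : ℝ) * ((v i j : ℚ) : ℝ) with hg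
  set η : ℝ := 1 / (4 * ((K : ℝ) + 1) ^ n) with hη
  have hη0 : 0 ≤ η := by positivity
  have hcardG := card_unitsOne (N := N') hm0 hmN'
  have hφpos : (0 : ℝ) < N'.totient := by exact_mod_cast Nat.totient_pos.mpr hN'0
  have hGpos : (0 : ℝ) < G.card := by
    by_contra hcon
    push Not at hcon
    have : (m : ℝ) * G.card ≤ 0 := mul_nonpos_of_nonneg_of_nonpos hmpos.le hcon
    linarith
  have hlow := avg_lower K G g w hη0 (by
    intro k hk
    have hmem : k ∈ Fintype.piFinset (fun _ : ι => Finset.Icc (-(K : ℤ)) K) := by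
      rw [Fintype.mem_piFinset]
      intro j
      rw [Finset.mem_Icc, ← abs_le]
      exact hk j
    have hsum : ∀ u, ∑ j, (k j : ℝ) * (g u j - w j)
        = ((u : ZMod N').val : ℝ) * ((pr k (v i) : ℚ) : ℝ) - ∑ j, (k j : ℝ) * w j := by
      intro u
      unfold pr
      push_cast
      rw [Finset.mul_sum, ← Finset.sum_sub_distrib]
      apply Finset.sum_congr rfl
      intro j _
      simp only [hg]
      ring
    by_cases hkm : k ∈ relMod U v
    · left
      obtain ⟨⟨z, hz⟩, c, hc⟩ := hspan k hkm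
      intro u hu
      rw [hG, unitsOne, Finset.mem_filter] at hu
      obtain ⟨t, ht⟩ := hu.2
      rw [hsum, hz, hc, ← ee_int (t * c - z)]
      congr 1
      have ht' : ((u : ZMod N').val : ℝ) = m * t + 1 := by
        have : ((((u : ZMod N').val : ℤ)) : ℝ) - 1 = m * t := by exact_mod_cast ht
        push_cast at this
        linarith
      have hmr : (m : ℝ) ≠ 0 := Nat.cast_ne_zero.mpr hm0.ne'
      rw [ht']
      push_cast
      field_simp
      ring
    · right
      have hden := hib k hmem hkm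
      set h : ℤ := ∑ j, k j * (a j * m) with hh
      have hhN : (h : ℚ) / N' = pr k (v i) := by
        rw [hh, hN']
        unfold pr
        push_cast
        rw [Finset.sum_div]
        apply Finset.sum_congr rfl
        intro j _
        rw [ha j]
        field_simp
      rw [← hhN] at hden
      have h1 := restricted_sum (N := N') hm0 hmN' h hden
      have h2 : ∑ u ∈ G, ee (∑ j, (k j : ℝ) * (g u j - w j))
          = ee (-(∑ j, (k j : ℝ) * w j)) * ∑ u ∈ G, ee ((((u : ZMod N').val : ℝ) * h) / N') := by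
        rw [Finset.mul_sum]
        apply Finset.sum_congr rfl
        intro u _
        rw [hsum, ← ee_add]
        congr 1
        rw [← hhN]
        push_cast
        ring
      rw [h2, norm_mul, norm_ee, one_mul]
      have h3 : ‖∑ u ∈ G, ee ((((u : ZMod N').val : ℝ) * h) / N')‖ * (B : ℝ) ≤ m * G.card :=
        h1.trans hcardG
      have hBr : (B : ℝ) = m * (4 * ((K : ℝ) + 1) ^ n) := by rw [hB]; push_cast; ring
      rw [hBr] at h3
      have h4 : ‖∑ u ∈ G, ee ((((u : ZMod N').val : ℝ) * h) / N')‖ * (4 * ((K : ℝ) + 1) ^ n)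
          ≤ G.card := by
        by_contra hcon
        push Not at hcon
        nlinarith
      rw [hη, div_mul_eq_mul_div, one_mul, le_div_iff₀ (by positivity)]
      exact h4)
  set Gd := G.filter (fun u => ∀ j, ∃ z : ℤ, |g u j - w j - z| < δ) with hGd
  have hup : ∑ u ∈ G, ∏ j, kerc K (g u j - w j) ≤ Gd.card + G.card * q ^ K := by
    have hle : ∀ u ∈ G, ∏ j, kerc K (g u j - w j)
        ≤ (if (∀ j, ∃ z : ℤ, |g u j - w j - z| < δ) then (1 : ℝ) else 0) + q ^ K := by
      intro u _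
      split_ifs with hgood
      · have h1 : ∏ j, kerc K (g u j - w j) ≤ 1 :=
          Finset.prod_le_one (fun _ _ => kerc_nonneg _ _) (fun _ _ => kerc_le_one _ _)
        have h2 : 0 ≤ q ^ K := by positivity
        linarith
      · push Not at hgood
        obtain ⟨j, hj⟩ := hgood
        rw [zero_add, ← Finset.mul_prod_erase Finset.univ _ (Finset.mem_univ j)]
        have h1 : kerc K (g u j - w j) ≤ q ^ K := by
          apply kerc_far K hδ'0
          intro z
          exact (min_le_left _ _).trans (hj z)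
        calc kerc K (g u j - w j) * ∏ x ∈ Finset.univ.erase j, kerc K (g u x - w x)
            ≤ q ^ K * 1 := by
              apply mul_le_mul h1 _ (Finset.prod_nonneg fun _ _ => kerc_nonneg _ _) (by positivity)
              exact Finset.prod_le_one (fun _ _ => kerc_nonneg _ _) (fun _ _ => kerc_le_one _ _)
          _ = q ^ K := mul_one _
    refine (Finset.sum_le_sum hle).trans (le_of_eq ?_)
    rw [Finset.sum_add_distrib, ← Finset.sum_filter, Finset.sum_const, Finset.sum_const,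
      nsmul_eq_mul, nsmul_eq_mul, mul_one]
  have h5 := hlow.trans hup
  have hP : (0 : ℝ) < ((K : ℝ) + 1) ^ n := by positivity
  have h7 : 1 / ((K : ℝ) + 1) ^ n - η = 3 / (4 * ((K : ℝ) + 1) ^ n) := by
    rw [hη]; field_simp; norm_num
  rw [h7] at h5
  have h8 : (G.card : ℝ) * q ^ K ≤ G.card * (1 / (2 * ((K : ℝ) + 1) ^ n)) :=
    mul_le_mul_of_nonneg_left hK.le hGpos.le
  have h9 : (1 / (4 * ((K : ℝ) + 1) ^ n)) * G.card ≤ Gd.card := by
    have e1 : 3 / (4 * ((K : ℝ) + 1) ^ n) * G.card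
        = (1 / (4 * ((K : ℝ) + 1) ^ n)) * G.card + G.card * (1 / (2 * ((K : ℝ) + 1) ^ n)) := by
      field_simp
      ring
    rw [e1] at h5
    linarith
  have h10 : (1 / (4 * m * ((K : ℝ) + 1) ^ n)) * N'.totient ≤ Gd.card := by
    refine le_trans ?_ h9
    calc (1 / (4 * m * ((K : ℝ) + 1) ^ n)) * N'.totient
        ≤ (1 / (4 * m * ((K : ℝ) + 1) ^ n)) * (m * G.card) :=
          mul_le_mul_of_nonneg_left hcardG (by positivity)
      _ = _ := by field_simp
  -- the image
  refine ⟨Gd.image (ZMod.unitsMap (dvd_mul_right (N i) m)), ?_, ?_⟩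
  · have h11 := card_units_image hN0 hm0 Gd
    have h12 : (Gd.card : ℝ) * (N i).totient
        ≤ N'.totient * (Gd.image (ZMod.unitsMap (dvd_mul_right (N i) m))).card := by
      exact_mod_cast h11
    have hφ : (0 : ℝ) < (N i).totient := by exact_mod_cast Nat.totient_pos.mpr hN0
    have h13 : (1 / (4 * m * ((K : ℝ) + 1) ^ n)) * N'.totient * (N i).totient
        ≤ N'.totient * (Gd.image (ZMod.unitsMap (dvd_mul_right (N i) m))).card :=
      (mul_le_mul_of_nonneg_right h10 hφ.le).trans h12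
    have h14 : (N'.totient : ℝ) * ((1 / (4 * m * ((K : ℝ) + 1) ^ n)) * (N i).totient)
        ≤ N'.totient * (Gd.image (ZMod.unitsMap (dvd_mul_right (N i) m))).card := by
      refine le_trans (le_of_eq ?_) h13
      ring
    exact le_of_mul_le_mul_left h14 hφpos
  · intro u hu j
    obtain ⟨u', hu', rfl⟩ := Finset.mem_image.mp hu
    obtain ⟨z, hz⟩ := (Finset.mem_filter.mp hu').2 j
    -- the value modulo N
    have h1 : (N i : ℤ) ∣ ((u' : ZMod N').val : ℤ)
        - (((ZMod.unitsMap (dvd_mul_right (N i) m) u' : (ZMod (N i))ˣ) : ZMod (N i)).val : ℤ) := by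
      rw [← ZMod.intCast_zmod_eq_zero_iff_dvd, ZMod.unitsMap_val]
      push_cast
      rw [ZMod.natCast_val, ZMod.natCast_val, ZMod.cast_id, sub_self]
    obtain ⟨t, ht⟩ := h1
    refine ⟨z - t * a j, ?_⟩
    have h2 : ((u' : ZMod N').val : ℝ)
        = (((ZMod.unitsMap (dvd_mul_right (N i) m) u' : (ZMod (N i))ˣ) : ZMod (N i)).val : ℝ)
          + N i * t := by
      have : (((u' : ZMod N').val : ℤ) : ℝ)
        - ((((ZMod.unitsMap (dvd_mul_right (N i) m) u' : (ZMod (N i))ˣ) : ZMod (N i)).val : ℤ) : ℝ)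
          = N i * t := by exact_mod_cast ht
      push_cast at this
      linarith
    have h3 : ((v i j : ℚ) : ℝ) = a j / N i := by rw [ha j]; push_cast; rfl
    have hNr : (N i : ℝ) ≠ 0 := Nat.cast_ne_zero.mpr hN0.ne'
    refine lt_of_le_of_lt (le_of_eq ?_) hz
    congr 1
    simp only [hg]
    rw [h2, h3]
    push_cast
    field_simp
    ring

end Pool.Agent.Work.MP_5e5ff1_ag.U

end

section

/-! Torsion points and closed periodic sets: the uniform statement. -/

open Finset Filter Topology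

namespace Pool.Agent.Work.MP_5e5ff1_ag.U

open Pool.Agent.Work.MP_5e5ff1_ag

lemma exists_lift {N m : ℕ} (hN : 0 < N) (hm : 0 < m) {u : ℤ} (hu : IsCoprime u (m : ℤ)) :
    ∃ t : ℤ, IsCoprime t (N : ℤ) ∧ (m : ℤ) ∣ t - u := by
  have : NeZero N := ⟨hN.ne'⟩
  have hne : NeZero (N * m) := ⟨(Nat.mul_pos hN hm).ne'⟩
  obtain ⟨x, hx⟩ := ZMod.unitsMap_surjective (dvd_mul_left m N) (ZMod.unitOfIsCoprime u hu)
  refine ⟨((x : ZMod (N * m)).val : ℤ), ?_, ?_⟩
  · have h1 : IsCoprime (((x : ZMod (N * m)).val : ℕ) : ℤ) ((N * m : ℕ) : ℤ) :=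
      Nat.isCoprime_iff_coprime.mpr (ZMod.val_coe_unit_coprime x)
    rw [Nat.cast_mul] at h1
    exact h1.of_mul_right_left
  · have h1 := congrArg (fun y : (ZMod m)ˣ => (y : ZMod m)) hx
    simp only [ZMod.unitsMap_val, ZMod.coe_unitOfIsCoprime] at h1
    rw [← ZMod.intCast_zmod_eq_zero_iff_dvd]
    push_cast
    rw [ZMod.natCast_val, h1, sub_self]

variable {ι : Type*} [Fintype ι]

/-- the conjugates of a system of congruences -/
def conjT [DecidableEq ι] (u : ℤ) (T : Finset ((ι → ℤ) × ℚ)) : Finset ((ι → ℤ) × ℚ) :=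
  T.image (fun s => (s.1, u * s.2))

lemma den_mul_of_coprime {x : ℚ} {t : ℤ} (h : IsCoprime t (x.den : ℤ)) :
    x.den ∣ (t * x).den := by
  have h1 : ((t * x).den : ℤ) * (t * x.num) = (t * x).num * x.den := by
    have e1 : (((t : ℚ) * x).den : ℚ) * (t * x) = (t * x).num := by
      rw [mul_comm]; exact Rat.mul_den_eq_num _
    have e2 : x * x.den = x.num := Rat.mul_den_eq_num x
    have e3 : (((t : ℚ) * x).den : ℚ) * (t * x.num) = (t * x).num * x.den := by
      rw [← e2, ← e1]; ring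
    exact_mod_cast e3
  have h2 : (x.den : ℤ) ∣ ((t * x).den : ℤ) * (t * x.num) := ⟨(t * x).num, by rw [h1]; ring⟩
  have h3 : IsCoprime (x.den : ℤ) (t * x.num) := by
    apply IsCoprime.mul_right h.symm
    rw [Int.isCoprime_iff_gcd_eq_one]
    have := x.reduced
    rw [Nat.Coprime, Nat.gcd_comm] at this
    rw [Int.gcd]
    simpa using this
  exact_mod_cast h3.dvd_of_dvd_mul_right h2

lemma den_dvd {x : ℚ} {N : ℕ} (h : ∃ a : ℤ, x = a / N) : x.den ∣ N := by
  obtain ⟨a, rfl⟩ := h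
  have h1 := Rat.den_dvd a N
  have h2 : Rat.divInt a N = (a : ℚ) / N := by rw [Rat.divInt_eq_div]; push_cast; rfl
  rw [h2] at h1
  exact_mod_cast h1

lemma pr_mul (k : ι → ℤ) (t : ℚ) (v : ι → ℚ) : pr k (fun j => t * v j) = t * pr k v := by
  unfold pr
  rw [Finset.mul_sum]
  exact Finset.sum_congr rfl fun i _ => by ring

lemma pr_int {N : ℕ} {v : ι → ℚ} (hv : ∀ j, ∃ a : ℤ, v j = a / N) (k : ι → ℤ) :
    ∃ a : ℤ, pr k v = a / N := by
  choose a ha using hv
  refine ⟨∑ j, k j * a j, ?_⟩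
  unfold pr
  push_cast
  rw [Finset.sum_div]
  exact Finset.sum_congr rfl fun i _ => by rw [ha i]; ring

/-- the multiples by the units near a point of a conjugate of the torsion coset -/
theorem orbit_dense_conj [DecidableEq ι] (U : Ultrafilter ℕ) (v : ℕ → ι → ℚ) (N : ℕ → ℕ)
    (hN : ∀ i, 0 < N i) (hv : ∀ i j, ∃ a : ℤ, v i j = a / N i) :
    ∃ T : Finset ((ι → ℤ) × ℚ), (∀ᶠ i in (U : Filter ℕ), Solves T (fun j => ((v i j : ℚ) : ℝ))) ∧
      ∀ u : ℤ, (∀ s ∈ T, IsCoprime u (s.2.den : ℤ)) →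
      ∀ w : ι → ℝ, Solves (conjT u T) w → ∀ δ : ℝ, 0 < δ →
        ∃ c : ℝ, 0 < c ∧ ∀ᶠ i in (U : Filter ℕ), ∃ A : Finset (ZMod (N i))ˣ,
          c * (N i).totient ≤ A.card ∧
          ∀ u ∈ A, ∀ j, ∃ z : ℤ,
            |((u : ZMod (N i)).val : ℝ) * ((v i j : ℚ) : ℝ) - w j - z| < δ := by
  classical
  obtain ⟨S, m', hm'0, hS, χ, hχ', hev⟩ := relMod_common U v
  set m : ℕ := ∏ s ∈ S, (χ s).den with hm
  have hm0 : 0 < m := Finset.prod_pos fun s _ => (χ s).den_pos
  refine ⟨S.image (fun s => (s, χ s)), ?_, ?_⟩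
  · filter_upwards [hev] with i hi
    intro e he
    obtain ⟨s, hs, rfl⟩ := Finset.mem_image.mp he
    obtain ⟨z, hz⟩ := hi s hs
    refine ⟨z, ?_⟩
    have := congrArg (fun q : ℚ => (q : ℝ)) hz
    unfold pr at this
    push_cast at this
    simpa using this
  intro u hu w hw δ hδ
  have hum : IsCoprime u (m : ℤ) := by
    rw [hm, Nat.cast_prod]
    apply IsCoprime.prod_right
    intro s hs
    exact hu (s, χ s) (Finset.mem_image.mpr ⟨s, hs, rfl⟩)
  have hχ : ∀ s ∈ S, ∃ c : ℤ, χ s = c / m := by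
    intro s hs
    obtain ⟨l, hl⟩ : (χ s).den ∣ m := Finset.dvd_prod_of_mem _ hs
    refine ⟨(χ s).num * l, ?_⟩
    have h1 : (m : ℚ) ≠ 0 := Nat.cast_ne_zero.mpr hm0.ne'
    rw [eq_div_iff h1, hl]
    push_cast
    rw [← mul_assoc, Rat.mul_den_eq_num]
  choose t ht1 ht2 using fun i => exists_lift (hN i) hm0 hum
  set v' : ℕ → ι → ℚ := fun i j => (t i : ℚ) * v i j with hv'
  have hv'N : ∀ i j, ∃ a : ℤ, v' i j = a / N i := by
    intro i j
    obtain ⟨a, ha⟩ := hv i j
    exact ⟨t i * a, by rw [hv']; simp only; rw [ha]; push_cast; ring⟩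
  have hden : ∀ i k, (pr k (v' i)).den = (pr k (v i)).den := by
    intro i k
    have h1 : pr k (v' i) = (t i : ℚ) * pr k (v i) := pr_mul k _ _
    rw [h1]
    apply Nat.dvd_antisymm
    · simpa using Rat.mul_den_dvd (t i : ℚ) (pr k (v i))
    · apply den_mul_of_coprime
      have h2 := den_dvd (pr_int (hv i) k)
      exact (ht1 i).of_isCoprime_of_dvd_right (by exact_mod_cast h2)
  have hrel : relMod U v' = relMod U v := by
    ext k
    rw [mem_relMod, mem_relMod]
    simp only [hden]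
  have hχ2 : ∀ s ∈ S, ∃ c : ℤ, (u : ℚ) * χ s = c / m := by
    intro s hs
    obtain ⟨c, hc⟩ := hχ s hs
    exact ⟨u * c, by rw [hc]; push_cast; ring⟩
  have hev' : ∀ᶠ i in (U : Filter ℕ), ∀ s ∈ S, ∃ z : ℤ, pr s (v' i) = (u : ℚ) * χ s + z := by
    filter_upwards [hev] with i hi
    intro s hs
    obtain ⟨z, hz⟩ := hi s hs
    obtain ⟨c, hc⟩ := hχ s hs
    obtain ⟨l, hl⟩ := ht2 i
    refine ⟨l * c + t i * z, ?_⟩
    have h1 : pr s (v' i) = (t i : ℚ) * pr s (v i) := pr_mul s _ _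
    have h2 : (t i : ℚ) = u + m * l := by
      have : ((t i - u : ℤ) : ℚ) = ((m * l : ℤ) : ℚ) := by rw [hl]
      push_cast at this
      linarith
    have h3 : (m : ℚ) ≠ 0 := Nat.cast_ne_zero.mpr hm0.ne'
    rw [h1, hz, hc]
    push_cast
    rw [h2]
    field_simp
    ring
  have hw' : Solves (S.image (fun s => (s, (u : ℚ) * χ s))) w := by
    have h1 : conjT u (S.image (fun s => (s, χ s))) = S.image (fun s => (s, (u : ℚ) * χ s)) := by
      rw [conjT, Finset.image_image]
      rfl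
    rwa [h1] at hw
  obtain ⟨c, hc, hfin⟩ := orbit_dense_card U v' N hN hv'N S m hm0 (by rw [hS, hrel])
    (fun s => (u : ℚ) * χ s) hχ2 hev' w hw' δ hδ
  refine ⟨c, hc, ?_⟩
  filter_upwards [hfin] with i hi
  obtain ⟨A, hA1, hA2⟩ := hi
  have hNe : NeZero (N i) := ⟨(hN i).ne'⟩
  set x : (ZMod (N i))ˣ := ZMod.unitOfIsCoprime (t i) (ht1 i) with hx
  refine ⟨A.map (mulLeftEmbedding x), by rw [Finset.card_map]; exact hA1, ?_⟩
  intro y hy j
  obtain ⟨u', hu', rfl⟩ := Finset.mem_map.mp hy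
  obtain ⟨z, hz⟩ := hA2 u' hu' j
  obtain ⟨a, ha⟩ := hv i j
  have h1 : (N i : ℤ) ∣ t i * ((u' : ZMod (N i)).val : ℤ)
      - (((x * u' : (ZMod (N i))ˣ) : ZMod (N i)).val : ℤ) := by
    rw [← ZMod.intCast_zmod_eq_zero_iff_dvd]
    push_cast
    rw [ZMod.natCast_zmod_val, ZMod.natCast_zmod_val, hx, ZMod.coe_unitOfIsCoprime, sub_self]
  obtain ⟨l, hl⟩ := h1
  refine ⟨z - l * a, ?_⟩
  have h2 : (t i : ℝ) * ((u' : ZMod (N i)).val : ℝ)
      = (((x * u' : (ZMod (N i))ˣ) : ZMod (N i)).val : ℝ) + N i * l := by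
    have : ((t i * ((u' : ZMod (N i)).val : ℤ)
      - (((x * u' : (ZMod (N i))ˣ) : ZMod (N i)).val : ℤ) : ℤ) : ℝ) = ((N i * l : ℤ) : ℝ) := by
      rw [hl]
    push_cast at this
    push_cast
    linarith
  have h3 : ((v i j : ℚ) : ℝ) = a / N i := by rw [ha]; push_cast; rfl
  have hNr : (N i : ℝ) ≠ 0 := Nat.cast_ne_zero.mpr (hN i).ne'
  refine lt_of_le_of_lt (le_of_eq ?_) hz
  congr 1
  change (((x * u' : (ZMod (N i))ˣ) : ZMod (N i)).val : ℝ) * ((v i j : ℚ) : ℝ) - w j
    - ((z - l * a : ℤ) : ℝ) = ((u' : ZMod (N i)).val : ℝ) * (((t i : ℚ) * v i j : ℚ) : ℝ) - w j - z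
  push_cast
  have h4 : (((x * u' : (ZMod (N i))ˣ) : ZMod (N i)).val : ℝ)
      = (t i : ℝ) * ((u' : ZMod (N i)).val : ℝ) - N i * l := by linarith
  rw [h3]
  push_cast at h4
  rw [h4]
  field_simp
  ring

lemma conjT_one [DecidableEq ι] (T : Finset ((ι → ℤ) × ℚ)) : conjT 1 T = T := by
  unfold conjT
  have : (fun s : (ι → ℤ) × ℚ => (s.1, ((1 : ℤ) : ℚ) * s.2)) = id := by
    funext s
    simp
  rw [this, Finset.image_id]

lemma solves_conj [DecidableEq ι] {T : Finset ((ι → ℤ) × ℚ)} {w : ι → ℝ} (h : Solves T w)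
    (u : ℤ) : Solves (conjT u T) (fun j => (u : ℝ) * w j) := by
  intro e he
  obtain ⟨s, hs, rfl⟩ := Finset.mem_image.mp he
  obtain ⟨z, hz⟩ := h s hs
  refine ⟨u * z, ?_⟩
  have h1 : ∑ i, ((s.1 i : ℤ) : ℝ) * ((u : ℝ) * w i) = u * ∑ i, ((s.1 i : ℤ) : ℝ) * w i := by
    rw [Finset.mul_sum]
    exact Finset.sum_congr rfl fun i _ => by ring
  simp only
  rw [h1, hz]
  push_cast
  ring

lemma coprime_den [DecidableEq ι] {T : Finset ((ι → ℤ) × ℚ)} {v : ι → ℚ} {N : ℕ} (hN : 0 < N)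
    (hv : ∀ j, ∃ a : ℤ, v j = a / N) (h : Solves T (fun j => ((v j : ℚ) : ℝ))) {u : ℤ}
    (hu : IsCoprime u (N : ℤ)) : ∀ s ∈ T, IsCoprime u (s.2.den : ℤ) := by
  intro s hs
  obtain ⟨z, hz⟩ := h s hs
  have h1 : pr s.1 v = s.2 + z := by
    have h0 : ((pr s.1 v : ℚ) : ℝ) = ((s.2 + z : ℚ) : ℝ) := by
      unfold pr
      push_cast
      exact hz
    exact_mod_cast h0
  obtain ⟨a, ha⟩ := pr_int hv s.1
  have h2 : s.2.den ∣ N := by
    apply den_dvd
    refine ⟨a - z * N, ?_⟩
    have h3 : (N : ℚ) ≠ 0 := Nat.cast_ne_zero.mpr hN.ne'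
    have h4 : s.2 = (a : ℚ) / N - z := by linarith
    rw [h4]
    push_cast
    field_simp
  exact hu.of_isCoprime_of_dvd_right (by exact_mod_cast h2)

/-- the main statement on torsion points and closed periodic sets, uniform version -/
theorem torsion_cosets_dens [DecidableEq ι] (C : Set (ι → ℝ)) (hC : IsClosed C)
    (hper : ∀ w ∈ C, ∀ z : ι → ℤ, (fun j => w j + z j) ∈ C) :
    ∃ (L : Finset (Finset ((ι → ℤ) × ℚ))) (B : ℕ),
      (∀ T ∈ L, (∃ w : ι → ℝ, Solves T w) ∧ ∀ w : ι → ℝ, Solves T w → w ∈ C) ∧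
      ∀ (v : ι → ℚ) (N : ℕ), 0 < N → (∀ j, ∃ a : ℤ, v j = a / N) →
        ((∃ T ∈ L, Solves T (fun j => ((v j : ℚ) : ℝ))) ↔
          ∀ u : ℤ, IsCoprime u (N : ℤ) → (fun j => (u : ℝ) * ((v j : ℚ) : ℝ)) ∈ C) ∧
        ((∃ T ∈ L, Solves T (fun j => ((v j : ℚ) : ℝ))) ∨
          ∃ A : Finset (ZMod N)ˣ, N.totient ≤ B * A.card ∧ ∀ u ∈ A, ∀ w ∈ C, ∃ j,
            1 ≤ (B : ℝ) * |((u : ZMod N).val : ℝ) * ((v j : ℚ) : ℝ) - w j|) := by
  classical
  set good : Finset ((ι → ℤ) × ℚ) → Prop := fun T => (∃ w : ι → ℝ, Solves T w) ∧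
    ∀ u : ℤ, (∀ s ∈ T, IsCoprime u (s.2.den : ℤ)) → ∀ w : ι → ℝ, Solves (conjT u T) w → w ∈ C
    with hgood
  -- the main point
  have key : ∃ (L : Finset (Finset ((ι → ℤ) × ℚ))) (B : ℕ), (∀ T ∈ L, good T) ∧
      ∀ (v : ι → ℚ) (N : ℕ), 0 < N → (∀ j, ∃ a : ℤ, v j = a / N) →
        ((∃ T ∈ L, Solves T (fun j => ((v j : ℚ) : ℝ))) ∨
          ∃ A : Finset (ZMod N)ˣ, N.totient ≤ B * A.card ∧ ∀ u ∈ A, ∀ w ∈ C, ∃ j,
            1 ≤ (B : ℝ) * |((u : ZMod N).val : ℝ) * ((v j : ℚ) : ℝ) - w j|) := by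
    by_contra hcon
    push Not at hcon
    obtain ⟨e, he⟩ := exists_surjective_nat (Finset ((ι → ℤ) × ℚ))
    have hseq : ∀ i : ℕ, ∃ v : ι → ℚ, ∃ N : ℕ, 0 < N ∧ (∀ j, ∃ a : ℤ, v j = a / N) ∧
        (∀ T ∈ ((Finset.range (i + 1)).image e).filter good,
          ¬ Solves T (fun j => ((v j : ℚ) : ℝ))) ∧
        ∀ A : Finset (ZMod N)ˣ, N.totient ≤ (i + 1) * A.card → ∃ u ∈ A, ∃ w ∈ C, ∀ j,
            ((i + 1 : ℕ) : ℝ) * |((u : ZMod N).val : ℝ) * ((v j : ℚ) : ℝ) - w j| < 1 := by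
      intro i
      obtain ⟨v, N, h1, h2, h3, h4⟩ := hcon (((Finset.range (i + 1)).image e).filter good) (i + 1)
        (fun T hT => (Finset.mem_filter.mp hT).2)
      exact ⟨v, N, h1, h2, h3, h4⟩
    choose v N h1 h2 h3 h4 using hseq
    set U : Ultrafilter ℕ := Filter.hyperfilter ℕ with hU
    have hev : ∀ b : ℕ, ∀ᶠ i in (U : Filter ℕ), b ≤ i := by
      intro b
      have h5 : ∀ᶠ i in (Filter.atTop : Filter ℕ), b ≤ i := Filter.eventually_ge_atTop b
      exact (Nat.hyperfilter_le_atTop) h5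
    obtain ⟨T, hT1, hT2⟩ := orbit_dense_conj U v N h1 h2
    have hTgood : good T := by
      refine ⟨?_, ?_⟩
      · obtain ⟨i, hi⟩ := hT1.exists
        exact ⟨_, hi⟩
      intro u hu w hw
      by_contra hwC
      have hopen : Cᶜ ∈ 𝓝 w := hC.isOpen_compl.mem_nhds hwC
      obtain ⟨ε, hε, hball⟩ := Metric.mem_nhds_iff.mp hopen
      obtain ⟨c, hc, hevc⟩ := hT2 u hu w hw (ε / 2) (by positivity)
      obtain ⟨b1, hb1⟩ := exists_nat_ge (1 / c)
      obtain ⟨b2, hb2⟩ := exists_nat_ge (2 / ε)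
      obtain ⟨i, ⟨⟨A, hA1, hA2⟩, hib1⟩, hib2⟩ := ((hevc.and (hev b1)).and (hev b2)).exists
      have hi1 : 1 ≤ ((i : ℝ) + 1) * c := by
        have e1 : (b1 : ℝ) ≤ i := by exact_mod_cast hib1
        rw [div_le_iff₀ hc] at hb1
        nlinarith
      have hi2 : 1 ≤ ((i : ℝ) + 1) * (ε / 2) := by
        have e1 : (b2 : ℝ) ≤ i := by exact_mod_cast hib2
        rw [div_le_iff₀ hε] at hb2
        nlinarith
      have hφ : ((N i).totient : ℝ) ≤ ((i + 1) * A.card : ℕ) := by
        push_cast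
        have e1 : (0 : ℝ) ≤ (N i).totient := Nat.cast_nonneg _
        have e2 : (0 : ℝ) ≤ (i : ℝ) + 1 := by positivity
        calc ((N i).totient : ℝ) = 1 * (N i).totient := by ring
          _ ≤ ((i : ℝ) + 1) * c * (N i).totient := mul_le_mul_of_nonneg_right hi1 e1
          _ = ((i : ℝ) + 1) * (c * (N i).totient) := by ring
          _ ≤ _ := mul_le_mul_of_nonneg_left hA1 e2
      obtain ⟨u', hu', w', hw', hclose⟩ := h4 i A (by exact_mod_cast hφ)
      choose z hz using hA2 u' hu'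
      have hmem := hper w' hw' (fun j => -(z j))
      have hin : (fun j => w' j + ((-(z j) : ℤ) : ℝ)) ∈ Metric.ball w ε := by
        rw [Metric.mem_ball, dist_pi_lt_iff hε]
        intro j
        rw [Real.dist_eq]
        have e1 := hz j
        have e2 := hclose j
        have e3 : |((u' : ZMod (N i)).val : ℝ) * ((v i j : ℚ) : ℝ) - w' j| < ε / 2 := by
          push_cast at e2
          have e4 : 0 ≤ |((u' : ZMod (N i)).val : ℝ) * ((v i j : ℚ) : ℝ) - w' j| := abs_nonneg _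
          by_contra hge
          push Not at hge
          nlinarith
        rw [abs_lt] at e1 e3 ⊢
        push_cast
        constructor <;> linarith [e1.1, e1.2, e3.1, e3.2]
      exact hball hin hmem
    obtain ⟨j, hj⟩ := he T
    obtain ⟨i, hi1, hi2⟩ := (hT1.and (hev j)).exists
    apply h3 i T _ hi1
    rw [Finset.mem_filter, Finset.mem_image]
    exact ⟨⟨j, Finset.mem_range.mpr (by omega), hj⟩, hTgood⟩
  obtain ⟨L, B, hL1, hL2⟩ := key
  refine ⟨L, B, fun T hT => ⟨(hL1 T hT).1, fun w hw => ?_⟩, fun v N hN hv => ⟨⟨?_, ?_⟩, hL2 v N hN hv⟩⟩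
  · refine (hL1 T hT).2 1 (fun _ _ => isCoprime_one_left) w ?_
    rwa [conjT_one]
  · rintro ⟨T, hT, hs⟩ u hu
    exact (hL1 T hT).2 u (coprime_den hN hv hs hu) _ (solves_conj hs u)
  · intro hall
    rcases hL2 v N hN hv with h | ⟨A, hA1, hA2⟩
    · exact h
    · exfalso
      have hφ := Nat.totient_pos.mpr hN
      have hne : A.Nonempty := by
        rw [← Finset.card_pos]
        by_contra h0
        have : A.card = 0 := by omega
        rw [this, mul_zero] at hA1
        omega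
      obtain ⟨u, hu⟩ := hne
      have hNe : NeZero N := ⟨hN.ne'⟩
      have hcop : IsCoprime (((u : ZMod N).val : ℕ) : ℤ) (N : ℤ) :=
        Nat.isCoprime_iff_coprime.mpr (ZMod.val_coe_unit_coprime u)
      have h1 := hall _ hcop
      obtain ⟨j, hj⟩ := hA2 u hu _ h1
      simp only [Int.cast_natCast, sub_self, abs_zero, mul_zero] at hj
      linarith

end Pool.Agent.Work.MP_5e5ff1_ag.U

end

section

/-! The region of the weights of semistable bundles is closed. -/

open Filter Polynomial Matrix Topology Cardinal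

set_option linter.unusedSectionVars false

namespace Pool.Agent.Work.MP_5e5ff1_ag.S

open Pool.Agent.Work.MP_5e5ff1_ag.T

/-- semistability of the limit of semistable bundles -/
theorem semistable_limit {k : ℕ → Type} [∀ n, Field (k n)] [∀ n, IsAlgClosed (k n)] {M : Type}
    [Field M] {π : (∀ n, k n) →+* M} (hπ : IsUltra π) {ι : Type*} [Fintype ι] [DecidableEq ι]
    {g₀ g₁ : ∀ n, Matrix ι ι (k n)} (h₀ : ∀ n, (g₀ n).det ≠ 0) (h₁ : ∀ n, (g₁ n).det ≠ 0)
    {w : ℕ → Fin 3 × ι → ℝ} (hs : ∀ n, Semistable (g₀ n) (g₁ n) (w n)) {w' : Fin 3 × ι → ℝ}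
    (hw : ∀ i, Tendsto (fun n => w n i) (hyperfilter ℕ : Filter ℕ) (𝓝 (w' i))) :
    Semistable ((glue g₀).map π) ((glue g₁).map π) w' := by
  classical
  constructor
  · have h1 : Tendsto (fun n => ∑ i, w n i) (hyperfilter ℕ : Filter ℕ) (𝓝 (∑ i, w' i)) :=
      tendsto_finsetSum _ (fun i _ => hw i)
    have h2 : ∀ n, ∑ i, w n i = 0 := fun n => (hs n).1
    simp only [h2] at h1
    exact tendsto_nhds_unique h1 tendsto_const_nhds
  · intro t W hW
    obtain ⟨A, hA⟩ := exists_lift hπ W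
    subst hA
    have hfull := hW.fullRank
    have h1 : ∀ᶠ n in (hyperfilter ℕ : Filter ℕ), ∃ I : Fin 3 → Fin t → ι,
        ParNonzero (g₀ n) (g₁ n) (mcomp n A) I ∧
        parVal (g₀ n) (g₁ n) (w n) (mcomp n A) I ≤ 0 := by
      filter_upwards [hπ.fullRank A hfull] with n hn
      obtain ⟨I, hI, hval⟩ := parDegree_attained (h₀ n) (h₁ n) (w n) hn
      refine ⟨I, hI, ?_⟩
      rw [← hval]
      exact parDegree_fullRank_le (h₀ n) (h₁ n) (hs n) hn
    rw [Ultrafilter.eventually_exists_iff] at h1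
    obtain ⟨I, hI⟩ := h1
    have h2 := hπ.ordPart g₀ g₁ A I
    have h3 : ParNonzero ((glue g₀).map π) ((glue g₁).map π) (mlim π A) I := by
      obtain ⟨n, h4, h5⟩ := (hI.and h2.1).exists
      exact h5.mp h4.1
    refine (parDegree_le _ h3).trans ?_
    have h4 : Tendsto (fun n => parVal (g₀ n) (g₁ n) (w n) (mcomp n A) I)
        (hyperfilter ℕ : Filter ℕ)
        (𝓝 (parVal ((glue g₀).map π) ((glue g₁).map π) w' (mlim π A) I)) := by
      unfold parVal
      apply Tendsto.add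
      · exact tendsto_finsetSum _ (fun x _ => tendsto_finsetSum _ (fun j _ => hw _))
      · refine tendsto_const_nhds.congr' ?_
        filter_upwards [h2.2 h3] with n hn
        rw [hn]
    exact le_of_tendsto h4 (hI.mono fun n hn => hn.2)

/-- the region is closed -/
theorem isClosed_semistableWeights {r : ℕ} :
    IsClosed {v : Fin 3 × Fin r → ℝ | SemistableWeights v} := by
  classical
  apply IsSeqClosed.isClosed
  intro v v' hv hlim
  choose g₀ g₁ w h₀ h₁ hvw hw hs using hv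
  -- the ultraproduct
  obtain ⟨π, hsurj, hker, _⟩ := exists_ultra (A := ℤ) (Int.castRingHom ℂ) Int.cast_injective
    (fun _ => ℂ) (fun _ => le_of_eq (by simp)) (fun _ => Int.castRingHom ℂ)
    (fun a ha => Eventually.of_forall fun _ => by simpa using ha)
  have hπ : IsUltra π := ⟨hsurj, hker⟩
  -- the limit weights
  have hbound : ∀ n i, w n i ∈ Set.Icc (-(2 * r : ℝ)) 1 := by
    rintro n ⟨m, j⟩
    have hr : (0 : ℝ) ≤ r := Nat.cast_nonneg _
    fin_cases m
    · have := hw n j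
      change w n (0, j) ∈ _
      exact ⟨by linarith [this.1], this.2.1⟩
    · have := hw n j
      change w n (1, j) ∈ _
      exact ⟨by linarith [this.2.2.1], this.2.2.2⟩
    · have h5 := weight_inf_le (h₀ n) (h₁ n) (hw n) (hs n) j
      have h6 := weight_inf_ge (h₀ n) (h₁ n) (hw n) (hs n) j
      change w n (2, j) ∈ _
      exact ⟨h6, by linarith⟩
  have hex : ∀ i, ∃ c : ℝ, Tendsto (fun n => w n i) (hyperfilter ℕ : Filter ℕ) (𝓝 c) := by
    intro i
    have h5 : (((hyperfilter ℕ).map (fun n => w n i) : Ultrafilter ℝ) : Filter ℝ)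
        ≤ 𝓟 (Set.Icc (-(2 * r : ℝ)) 1) := by
      rw [Filter.le_principal_iff, Ultrafilter.coe_map, Filter.mem_map]
      exact Filter.univ_mem' fun n => hbound n i
    obtain ⟨c, _, hc⟩ := isCompact_Icc.ultrafilter_le_nhds _ h5
    exact ⟨c, hc⟩
  choose w' hw' using hex
  refine ⟨(glue g₀).map π, (glue g₁).map π, w', glue_det_ne hπ _ h₀, glue_det_ne hπ _ h₁, ?_, ?_,
    semistable_limit hπ h₀ h₁ hs hw'⟩
  · intro i
    have hlim' : Tendsto (fun n => v n i) (hyperfilter ℕ : Filter ℕ) (𝓝 (v' i)) := by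
      have h5 := (tendsto_pi_nhds.mp hlim) i
      exact h5.mono_left Nat.hyperfilter_le_atTop
    have h6 := hlim'.sub (hw' i)
    have h7 : ∀ n, v n i - w n i ∈ Set.range ((↑) : ℤ → ℝ) := by
      intro n
      obtain ⟨z, hz⟩ := hvw n i
      exact ⟨z, by rw [hz]; ring⟩
    have h8 : IsClosed (Set.range ((↑) : ℤ → ℝ)) := Int.isClosedEmbedding_coe_real.isClosed_range
    obtain ⟨z, hz⟩ := h8.mem_of_tendsto h6 (Eventually.of_forall h7)
    exact ⟨z, by linarith⟩
  · intro j
    refine ⟨ge_of_tendsto' (hw' _) fun n => (hw n j).1, le_of_tendsto' (hw' _) fun n => (hw n j).2.1,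
      ge_of_tendsto' (hw' _) fun n => (hw n j).2.2.1,
      le_of_tendsto' (hw' _) fun n => (hw n j).2.2.2⟩

lemma semistableWeights_periodic {r : ℕ} {v : Fin 3 × Fin r → ℝ} (h : SemistableWeights v)
    (z : Fin 3 × Fin r → ℤ) : SemistableWeights (fun i => v i + z i) := by
  obtain ⟨g₀, g₁, w, h₀, h₁, hvw, hw, hs⟩ := h
  refine ⟨g₀, g₁, w, h₀, h₁, fun i => ?_, hw, hs⟩
  obtain ⟨t, ht⟩ := hvw i
  refine ⟨t + z i, ?_⟩
  simp only [ht]
  push_cast
  ring

/-- the inequality for the region -/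
theorem SemistableWeights.sum_fract_le {r : ℕ} {v : Fin 3 × Fin r → ℝ} (h : SemistableWeights v)
    {x : Fin 3 → ℝ} (hx : x 0 + x 1 + x 2 = 0)
    (hgen : ∀ i : Fin 3 × Fin r, Int.fract (x i.1 - v i) ≠ 0) :
    ∑ i : Fin 3 × Fin r, Int.fract (x i.1 - v i) ≤ 2 * r := by
  obtain ⟨g₀, g₁, w, h₀, h₁, hvw, hw, hs⟩ := h
  have h1 : ∀ i : Fin 3 × Fin r, Int.fract (x i.1 - v i) = Int.fract (x i.1 - w i) := by
    intro i
    obtain ⟨z, hz⟩ := hvw i
    have : x i.1 - v i = (x i.1 - w i) - (z : ℝ) := by rw [hz]; ring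
    rw [this, Int.fract_sub_intCast]
  simp only [h1] at hgen ⊢
  exact S.sum_fract_le h₀ h₁ hw hs hx hgen

end Pool.Agent.Work.MP_5e5ff1_ag.S

end

section

/-! Torsion cosets in the region of the weights of semistable bundles. -/

open Polynomial Matrix NumberField

set_option linter.unusedSectionVars false

namespace Pool.Agent.Work.MP_5e5ff1_ag.S

open Pool.Agent.Work.MP_5e5ff1_ag.T

variable {r : ℕ}

lemma fract_neg_of_ne {x : ℝ} (h : Int.fract x ≠ 0) : Int.fract (-x) = 1 - Int.fract x :=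
  Int.fract_neg h

/-- both inequalities -/
theorem interlacing_of_semistable {v : Fin 3 × Fin r → ℝ} (h : SemistableWeights v)
    (h' : SemistableWeights (fun i => -v i)) : Interlacing v := by
  intro x hx hgen
  constructor
  · have hgen' : ∀ i : Fin 3 × Fin r, Int.fract ((fun m => -x m) i.1 - (fun i => -v i) i) ≠ 0 := by
      intro i
      have e1 : (fun m => -x m) i.1 - (fun i => -v i) i = -(x i.1 - v i) := by simp only; ring
      rw [e1, Int.fract_neg (hgen i)]
      have := Int.fract_lt_one (x i.1 - v i)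
      intro h0
      linarith
    have h1 := h'.sum_fract_le (x := fun m => -x m) (by linarith) hgen'
    have h2 := interlacing_neg_sum (v := v) hgen
    rw [h2] at h1
    linarith
  · exact h.sum_fract_le hx hgen

/-- the main theorem on the weights: one residue class -/
theorem semistableWeights_of_class {K : Type} [Field K] [NumberField K] {n N : ℕ} (hn0 : 0 < n)
    (hN0 : 0 < N) {b c : Matrix (Fin r) (Fin r) (𝓞 K)} {e : Fin 3 × Fin r → ℚ}
    (he : ∀ i, ∃ s : ℤ, e i = s / N) (hexp : IsExponents n b c e) {a : ℕ} {u : ℤ}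
    (hu : (N : ℤ) ∣ u * a - 1)
    (hinf : {P : Ideal (𝓞 K) | P.IsMaximal ∧ ringChar (𝓞 K ⧸ P) ≡ a [MOD N] ∧
      PCurvZero n b c P}.Infinite) :
    SemistableWeights (fun i => ((-u : ℤ) : ℝ) * ((e i : ℚ) : ℝ)) := by
  obtain ⟨σ⟩ : Nonempty (K →+* ℂ) := inferInstance
  obtain ⟨_, g₀, g₁, w, _, h₀, h₁, hw, hw', hs, _⟩ := main_theorem σ hn0 hN0 he hexp hu hinf
  refine ⟨g₀, g₁, w, h₀, h₁, fun i => ?_, hw', hs⟩
  obtain ⟨z, hz⟩ := hw i
  refine ⟨-z, ?_⟩
  push_cast
  linarith

theorem structure_thm (r : ℕ) (hr : 0 < r) :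
    ∃ L : Finset (Finset ((Fin 3 × Fin r → ℤ) × ℚ)),
      (∀ T ∈ L, (∃ w : Fin 3 × Fin r → ℝ, Solves T w) ∧
        (∀ w : Fin 3 × Fin r → ℝ, Solves T w →
          SemistableWeights w ∧ SemistableWeights (fun i => -w i) ∧ Interlacing w) ∧
        r ≤ relRank T ∧
        ∀ a : Fin 3, (∃ e ∈ T, ∃ j j' : Fin r, e.1 (a, j) ≠ e.1 (a, j')) ∨
          ∀ b : Fin 3, a ≠ b → ∀ w : Fin 3 × Fin r → ℝ, Solves T w →
            EvenlySpaced (fun j => w (b, j))) ∧
      ∀ (K : Type) [Field K] [NumberField K] (n N : ℕ) (b c : Matrix (Fin r) (Fin r) (𝓞 K))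
        (e : Fin 3 × Fin r → ℚ), 0 < n → 0 < N → (∀ i, ∃ s : ℤ, e i = s / N) →
        IsExponents n b c e →
        (∃ T ∈ L, Solves T (fun i => ((e i : ℚ) : ℝ))) ∨
        ∃ a : ℕ, a.Coprime N ∧
          {P : Ideal (𝓞 K) | P.IsMaximal ∧ ringChar (𝓞 K ⧸ P) ≡ a [MOD N] ∧
            PCurvZero n b c P}.Finite ∧
          {P : Ideal (𝓞 K) | P.IsMaximal ∧ ringChar (𝓞 K ⧸ P) ≡ a [MOD N] ∧
            ¬ PCurvZero n b c P}.Infinite := by
  classical
  have hclosed : IsClosed {v : Fin 3 × Fin r → ℝ |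
      SemistableWeights v ∧ SemistableWeights (fun i => -v i)} := by
    refine isClosed_semistableWeights.inter ?_
    exact isClosed_semistableWeights.preimage (f := fun v : Fin 3 × Fin r → ℝ => fun i => -v i)
      (by fun_prop)
  obtain ⟨L, hL1, hL2⟩ := torsion_cosets _ hclosed (by
    rintro w ⟨hw1, hw2⟩ z
    refine ⟨semistableWeights_periodic hw1 z, ?_⟩
    have h1 := semistableWeights_periodic hw2 (fun i => -(z i))
    have e1 : (fun i => -(fun j => w j + z j) i) = fun i => (fun i => -w i) i + ((-(z i) : ℤ) : ℝ) := by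
      funext i
      simp only
      push_cast
      ring
    rw [e1]
    exact h1)
  have hint : ∀ T ∈ L, ∀ w : Fin 3 × Fin r → ℝ, Solves T w → Interlacing w := by
    intro T hT w hw
    obtain ⟨h1, h2⟩ := hL1 T hT w hw
    exact interlacing_of_semistable h1 h2
  refine ⟨L.filter (fun T => ∃ w : Fin 3 × Fin r → ℝ, Solves T w), ?_, ?_⟩
  · intro T hT
    obtain ⟨hT1, w0, hw0⟩ := Finset.mem_filter.mp hT
    refine ⟨⟨w0, hw0⟩, fun w hw => ⟨(hL1 T hT1 w hw).1, (hL1 T hT1 w hw).2, hint T hT1 w hw⟩,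
      rank_bound hw0 (hint T hT1), ?_⟩
    intro a
    by_cases h : ∃ e ∈ T, ∃ j j' : Fin r, e.1 (a, j) ≠ e.1 (a, j')
    · exact Or.inl h
    · right
      push Not at h
      intro b hab w hw
      exact one_point hr (hint T hT1) a h hw b hab
  · intro K _ _ n N b c e hn0 hN0 he hexp
    by_cases hall : ∀ u : ℤ, IsCoprime u (N : ℤ) →
        SemistableWeights (fun i => (u : ℝ) * ((e i : ℚ) : ℝ))
    · left
      obtain ⟨T, hT, hs⟩ := hL2 e N hN0 he (by
        intro u hu
        refine ⟨hall u hu, ?_⟩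
        have h1 := hall (-u) hu.neg_left
        have e1 : (fun i => -(fun j => (u : ℝ) * ((e j : ℚ) : ℝ)) i)
            = fun i => ((-u : ℤ) : ℝ) * ((e i : ℚ) : ℝ) := by
          funext i
          simp only
          push_cast
          ring
        rw [e1]
        exact h1)
      exact ⟨T, Finset.mem_filter.mpr ⟨hT, _, hs⟩, hs⟩
    · right
      push Not at hall
      obtain ⟨u, hu, hnot⟩ := hall
      have hu' : IsCoprime (-u) (N : ℤ) := hu.neg_left
      -- the class
      obtain ⟨p, q, hpq⟩ := hu'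
      set a : ℕ := (p % N).toNat with ha
      have hNz : (0 : ℤ) < N := by exact_mod_cast hN0
      have ha' : (a : ℤ) = p % N := Int.toNat_of_nonneg (Int.emod_nonneg _ hNz.ne')
      have hua : (N : ℤ) ∣ (-u) * a - 1 := by
        refine ⟨-q - (-u) * (p / N), ?_⟩
        have h3 := Int.emod_add_mul_ediv p N
        rw [ha']
        have h4 : p % N = p - N * (p / N) := by linarith
        rw [h4]
        linear_combination hpq
      have hcop : IsCoprime (a : ℤ) (N : ℤ) := by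
        obtain ⟨t, ht⟩ := hua
        exact ⟨-u, -t, by linarith⟩
      have hfin : {P : Ideal (𝓞 K) | P.IsMaximal ∧ ringChar (𝓞 K ⧸ P) ≡ a [MOD N] ∧
            PCurvZero n b c P}.Finite := by
        by_contra hinf
        apply hnot
        have h1 := semistableWeights_of_class hn0 hN0 he hexp hua hinf
        have e1 : (fun i => ((-(-u) : ℤ) : ℝ) * ((e i : ℚ) : ℝ))
            = fun i => (u : ℝ) * ((e i : ℚ) : ℝ) := by
          funext i
          push_cast
          ring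
        rwa [e1] at h1
      refine ⟨a, Nat.isCoprime_iff_coprime.mp hcop, hfin, ?_⟩
      have hinfc := infinite_class (K := K) hN0 (u := -u) ⟨p, q, hpq⟩
      intro hfin2
      apply hinfc
      refine (hfin.union hfin2).subset ?_
      rintro P ⟨hP1, hP2⟩
      have hP3 := (modEq_iff hua).mpr hP2
      by_cases hc : PCurvZero n b c P
      · exact Or.inl ⟨hP1, hP3, hc⟩
      · exact Or.inr ⟨hP1, hP3, hc⟩

end Pool.Agent.Work.MP_5e5ff1_ag.S

end

section

/-! The dual system: its p-curvature vanishes at the same primes. -/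

open Polynomial Matrix NumberField

set_option linter.unusedSectionVars false

namespace Pool.Agent.Work.MP_5e5ff1_ag.S

open Pool.Agent.Work.MP_5e5ff1_ag.T

section field

variable {k : Type*} [Field k] {r : ℕ}

lemma der_mul (M N : Matrix (Fin r) (Fin r) k[X]) : der (M * N) = der M * N + M * der N := by
  ext1 i j
  simp only [der, map_apply, mul_apply, derivative_sum, derivative_mul, Matrix.add_apply]
  rw [← Finset.sum_add_distrib]

lemma der_transpose (M : Matrix (Fin r) (Fin r) k[X]) : der Mᵀ = (der M)ᵀ := rfl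

lemma cancel_left {A M N : Matrix (Fin r) (Fin r) k[X]} (hA : A.det ≠ 0) (h : A * M = A * N) :
    M = N := by
  have h1 : adjugate A * (A * M) = adjugate A * (A * N) := by rw [h]
  rw [← Matrix.mul_assoc, ← Matrix.mul_assoc, adjugate_mul, Matrix.smul_mul, Matrix.smul_mul,
    Matrix.one_mul, Matrix.one_mul] at h1
  exact smul_matrix_cancel hA h1

/-- the numerators of the iterates of the connection in terms of a horizontal frame -/
theorem Qs_zero_of_hor {p : ℕ} [hp : Fact p.Prime] [CharP k p] (ν : k)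
    (b c : Matrix (Fin r) (Fin r) k) {Y : Matrix (Fin r) (Fin r) k[X]}
    (hY : (C ν * (X * (X - 1)) : k[X]) • der Y = Lmat b c * Y) (hdet : Y.det ≠ 0) :
    Qs ν b c p = 0 := by
  set w : k[X] := C ν * (X * (X - 1)) with hw
  set D : k[X] := Y.det ^ p with hD
  set Z : Matrix (Fin r) (Fin r) k[X] := Y.det ^ (p - 1) • adjugate Y with hZ
  have hYZ : Y * Z = D • (1 : Matrix (Fin r) (Fin r) k[X]) := by
    rw [hZ, Matrix.mul_smul, mul_adjugate, smul_smul, hD, ← pow_succ,
      Nat.sub_add_cancel hp.out.one_le]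
  have hD' : derivative D = 0 := by
    rw [hD, derivative_pow, CharP.cast_eq_zero, C_0]
    ring
  have hw' : derivative w = C ν * (2 * X - 1) := by
    simp only [hw, derivative_mul, derivative_C, derivative_X, derivative_sub, derivative_one]
    ring
  have key : ∀ j : ℕ, D • Qs ν b c j = Y * (w ^ j • (der^[j] Z)) := by
    intro j
    induction j with
    | zero =>
      rw [pow_zero, one_smul, Function.iterate_zero, id, hYZ]
      rfl
    | succ j ih =>
      have h1 : Qs ν b c (j + 1) = w • der (Qs ν b c j)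
          - ((j : k[X]) * derivative w) • Qs ν b c j - Lmat b c * Qs ν b c j := by
        rw [hw']
        simp only [Qs, hw, der, Lmat, mul_assoc]
      have h2 : D • der (Qs ν b c j) = der (D • Qs ν b c j) := by
        rw [der_smul, hD', zero_smul, zero_add]
      have h3 : w • der (Y * (w ^ j • (der^[j] Z)))
          = Lmat b c * (Y * (w ^ j • (der^[j] Z)))
            + ((j : k[X]) * derivative w) • (Y * (w ^ j • (der^[j] Z)))
            + Y * (w ^ (j + 1) • (der^[j + 1] Z)) := by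
        rw [der_mul, smul_add, ← Matrix.smul_mul, hY, Matrix.mul_assoc, add_assoc]
        congr 1
        rw [der_smul, Function.iterate_succ', Function.comp_apply, Matrix.mul_add, smul_add]
        congr 1
        · rw [← Matrix.mul_smul, ← Matrix.mul_smul, smul_smul, smul_smul]
          congr 2
          rw [derivative_pow]
          rcases j with _ | j
          · simp
          · simp only [Nat.add_sub_cancel, map_natCast]
            ring
        · rw [← Matrix.mul_smul, smul_smul, pow_succ']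
      rw [h1, smul_sub, smul_sub, smul_comm D w, h2, smul_comm D, ← Matrix.mul_smul, ih, h3]
      abel
  have hfac : ((p.factorial : ℕ) : k) = 0 := by
    rw [CharP.cast_eq_zero_iff k p]
    exact Nat.dvd_factorial hp.out.pos le_rfl
  have hit : ∀ (j : ℕ) (M : Matrix (Fin r) (Fin r) k[X]) (i l : Fin r),
      (der^[j] M) i l = derivative^[j] (M i l) := by
    intro j
    induction j with
    | zero => intro M i l; rfl
    | succ j ih =>
      intro M i l
      rw [Function.iterate_succ_apply, Function.iterate_succ_apply, ih]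
      rfl
  have hZp : der^[p] Z = 0 := by
    ext1 i l
    rw [hit]
    have h1 := congrFun (Polynomial.factorial_smul_hasseDeriv (R := k) p) (Z i l)
    rw [← h1]
    simp only [Matrix.zero_apply, LinearMap.smul_apply, Pi.smul_apply]
    rw [← Nat.cast_smul_eq_nsmul k, hfac, zero_smul]
  have h1 := key p
  rw [hZp, smul_zero, Matrix.mul_zero] at h1
  have hDne : D ≠ 0 := pow_ne_zero _ hdet
  exact smul_matrix_cancel hDne (by rw [h1, smul_zero])

theorem Qs_dual {p : ℕ} [hp : Fact p.Prime] [CharP k p] {ν : k} (hν : ν ≠ 0)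
    (b c : Matrix (Fin r) (Fin r) k) (hQ : Qs ν b c p = 0) (x0 : k) (hx0 : x0 ≠ 0) (hx1 : x0 ≠ 1) :
    Qs ν (-bᵀ) (-cᵀ) p = 0 := by
  obtain ⟨F, hF, hdet⟩ := exists_hor hν b c hQ x0 hx0 hx1
  set w : k[X] := C ν * (X * (X - 1)) with hw
  have hF' : w • der F = Lmat b c * F := by
    ext1 i j
    have h1 := hF i j
    rw [Matrix.smul_apply, mul_apply, smul_eq_mul]
    have h3 : ∀ l, Lmat b c i l = C ν * Lmat (ν⁻¹ • b) (ν⁻¹ • c) i l := by
      intro l
      simp only [Lmat, Matrix.add_apply, Matrix.smul_apply, map_apply, smul_eq_mul, C_mul]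
      have : C ν * C ν⁻¹ = (1 : k[X]) := by rw [← C_mul, mul_inv_cancel₀ hν, C_1]
      linear_combination (-(X - 1) * C (b i l) - X * C (c i l)) * this
    have h4 : ∑ l, Lmat b c i l * F l j = C ν * ∑ l, Lmat (ν⁻¹ • b) (ν⁻¹ • c) i l * F l j := by
      rw [Finset.mul_sum]
      apply Finset.sum_congr rfl
      intro l _
      rw [h3]
      ring
    rw [h4, ← h1, hw]
    change _ * derivative (F i j) = _
    ring
  set Y : Matrix (Fin r) (Fin r) k[X] := F.det ^ (p - 1) • (adjugate F)ᵀ with hY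
  have hFY : Fᵀ * Y = (F.det ^ p) • (1 : Matrix (Fin r) (Fin r) k[X]) := by
    rw [hY, Matrix.mul_smul, ← Matrix.transpose_mul, adjugate_mul, transpose_smul, transpose_one,
      smul_smul, ← pow_succ, Nat.sub_add_cancel hp.out.one_le]
  have hFt : Fᵀ.det ≠ 0 := by rw [det_transpose]; exact hdet
  have hYdet : Y.det ≠ 0 := by
    intro h0
    have h1 := congrArg Matrix.det hFY
    rw [det_mul, h0, mul_zero, det_smul, det_one, mul_one] at h1
    exact (pow_ne_zero _ (pow_ne_zero _ hdet)) h1.symm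
  apply Qs_zero_of_hor ν _ _ _ hYdet
  apply cancel_left hFt
  have h1 : w • der (Fᵀ * Y) = 0 := by
    rw [hFY, der_smul, derivative_pow, CharP.cast_eq_zero, C_0]
    have : der (1 : Matrix (Fin r) (Fin r) k[X]) = 0 := by
      ext1 i j
      simp only [der, map_apply, Matrix.one_apply, Matrix.zero_apply]
      split_ifs <;> simp
    rw [this]
    simp
  have h2 : w • der Fᵀ = Fᵀ * (Lmat b c)ᵀ := by
    rw [der_transpose, ← Matrix.transpose_smul, hF', Matrix.transpose_mul]
  rw [der_mul, smul_add, ← Matrix.smul_mul, h2, ← Matrix.mul_smul] at h1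
  have h3 : Lmat (-bᵀ) (-cᵀ) = -(Lmat b c)ᵀ := by
    ext1 i j
    simp only [Lmat, Matrix.add_apply, Matrix.smul_apply, map_apply, smul_eq_mul, Matrix.neg_apply,
      transpose_apply, C_neg]
    ring
  rw [h3, Matrix.neg_mul, Matrix.mul_neg]
  rw [Matrix.mul_assoc] at h1
  exact eq_neg_of_add_eq_zero_right h1

end field

section number

variable {K : Type} [Field K] [NumberField K] {r : ℕ}

lemma pCurvZero_iff {n : ℕ} {b c : Matrix (Fin r) (Fin r) (𝓞 K)} {P : Ideal (𝓞 K)} :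
    PCurvZero n b c P ↔ Qs (Ideal.Quotient.mk P (n : 𝓞 K)) (b.map (Ideal.Quotient.mk P))
      (c.map (Ideal.Quotient.mk P)) (ringChar (𝓞 K ⧸ P)) = 0 := by
  constructor
  · intro h
    exact h _ rfl (fun k => rfl)
  · intro h Q h0 hrec
    have h1 : ∀ j, Q j = Qs (Ideal.Quotient.mk P (n : 𝓞 K)) (b.map (Ideal.Quotient.mk P))
      (c.map (Ideal.Quotient.mk P)) j := by
      intro j
      induction j with
      | zero => rw [h0]; rfl
      | succ j ih => rw [hrec, ih]; rfl
    rw [h1, h]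

theorem pCurvZero_dual {n : ℕ} {b c : Matrix (Fin r) (Fin r) (𝓞 K)} {P : Ideal (𝓞 K)}
    (hP : P.IsMaximal) (hn : (n : 𝓞 K) ∉ P) (h : PCurvZero n b c P) :
    PCurvZero n (-bᵀ) (-cᵀ) P := by
  classical
  have h0 := ne_bot_of_maximal hP
  have hfin : Finite (𝓞 K ⧸ P) := by
    rw [← Ideal.absNorm_ne_zero_iff]
    exact fun h => h0 (Ideal.absNorm_eq_zero_iff.mp h)
  set p := ringChar (𝓞 K ⧸ P) with hp
  have hpp : p.Prime := prime_ringChar hP
  have : Fact p.Prime := ⟨hpp⟩
  let _ : Field (𝓞 K ⧸ P) := Ideal.Quotient.field P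
  have : CharP (𝓞 K ⧸ P) p := ringChar.charP _
  have : CharP (AlgebraicClosure (𝓞 K ⧸ P)) p :=
    charP_of_injective_algebraMap (algebraMap (𝓞 K ⧸ P) (AlgebraicClosure (𝓞 K ⧸ P))).injective p
  set ψ := algebraMap (𝓞 K ⧸ P) (AlgebraicClosure (𝓞 K ⧸ P)) with hψ
  set ν : 𝓞 K ⧸ P := Ideal.Quotient.mk P (n : 𝓞 K) with hν
  have hν0 : ψ ν ≠ 0 := by
    intro h
    apply hn
    have h1 := (map_eq_zero_iff _ ψ.injective).mp h
    exact Ideal.Quotient.eq_zero_iff_mem.mp h1
  obtain ⟨x0, hx0⟩ : ∃ x0 : AlgebraicClosure (𝓞 K ⧸ P), x0 ∉ ({0, 1} : Finset _) :=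
    Infinite.exists_notMem_finset _
  simp only [Finset.mem_insert, Finset.mem_singleton, not_or] at hx0
  rw [pCurvZero_iff] at h ⊢
  have h1 := Qs_map ψ ν (b.map (Ideal.Quotient.mk P)) (c.map (Ideal.Quotient.mk P)) p
  rw [h] at h1
  have h4 : (0 : Matrix (Fin r) (Fin r) (Polynomial (𝓞 K ⧸ P))).map (fun f => f.map ψ) = 0 := by
    ext1 i j
    simp
  rw [h4] at h1
  have h2 := Qs_dual hν0 _ _ h1.symm x0 hx0.1 hx0.2
  have h3 := Qs_map ψ ν ((-bᵀ).map (Ideal.Quotient.mk P)) ((-cᵀ).map (Ideal.Quotient.mk P)) p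
  have e : ∀ d : Matrix (Fin r) (Fin r) (𝓞 K), ((-dᵀ).map (Ideal.Quotient.mk P)).map ψ
      = -((d.map (Ideal.Quotient.mk P)).map ψ)ᵀ := by
    intro d
    ext1 i j
    simp
  rw [e, e, h2] at h3
  ext1 i j
  have h5 := congrFun (congrFun h3 i) j
  rw [map_apply, Matrix.zero_apply] at h5
  rw [Matrix.zero_apply]
  exact (Polynomial.map_eq_zero_iff ψ.injective).mp h5

end number

end Pool.Agent.Work.MP_5e5ff1_ag.S

end

section

/-! The structure theorem, with the statement on one residue class. -/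

open Polynomial Matrix NumberField

set_option linter.unusedSectionVars false

namespace Pool.Agent.Work.MP_5e5ff1_ag.S

open Pool.Agent.Work.MP_5e5ff1_ag.T

variable {r : ℕ}

lemma isExponents_dual {K : Type} [Field K] [NumberField K] {n : ℕ}
    {b c : Matrix (Fin r) (Fin r) (𝓞 K)} {e : Fin 3 × Fin r → ℚ} (h : IsExponents n b c e) :
    IsExponents n (-bᵀ) (-cᵀ) (fun i => -e i) := by
  have key : ∀ (d : Matrix (Fin r) (Fin r) (𝓞 K)) (x : Fin r → ℚ),
      ((n : K)⁻¹ • d.map (algebraMap (𝓞 K) K)).charpoly = ∏ j, (X - C ((x j : ℚ) : K)) →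
      ((n : K)⁻¹ • (-dᵀ).map (algebraMap (𝓞 K) K)).charpoly
        = ∏ j, (X - C (((-x j : ℚ)) : K)) := by
    intro d x hd
    have h1 := charpoly_smul_prod hd (t := -1) (by norm_num)
    have h2 : (n : K)⁻¹ • (-dᵀ).map (algebraMap (𝓞 K) K)
        = ((-1 : K) • ((n : K)⁻¹ • d.map (algebraMap (𝓞 K) K)))ᵀ := by
      ext1 i j
      simp
    rw [h2, Matrix.charpoly_transpose, h1]
    apply Finset.prod_congr rfl
    intro j _
    push_cast
    ring_nf
  obtain ⟨h0, h1, h2⟩ := h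
  refine ⟨key b _ h0, key c _ h1, ?_⟩
  have h3 := key _ _ h2
  have h4 : (-(-bᵀ + -cᵀ) : Matrix (Fin r) (Fin r) (𝓞 K)) = -(-(b + c))ᵀ := by
    rw [transpose_neg, transpose_add]
    abel
  rw [h4]
  exact h3

/-- one residue class: all the inequalities -/
theorem weights_of_class {K : Type} [Field K] [NumberField K] {n N : ℕ} (hn0 : 0 < n)
    (hN0 : 0 < N) {b c : Matrix (Fin r) (Fin r) (𝓞 K)} {e : Fin 3 × Fin r → ℚ}
    (he : ∀ i, ∃ s : ℤ, e i = s / N) (hexp : IsExponents n b c e) {a : ℕ} {u : ℤ}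
    (hu : (N : ℤ) ∣ u * a - 1)
    (hinf : {P : Ideal (𝓞 K) | P.IsMaximal ∧ ringChar (𝓞 K ⧸ P) ≡ a [MOD N] ∧
      PCurvZero n b c P}.Infinite) :
    SemistableWeights (fun i => (u : ℝ) * ((e i : ℚ) : ℝ)) ∧
      SemistableWeights (fun i => -((u : ℝ) * ((e i : ℚ) : ℝ))) ∧
      Interlacing (fun i => (u : ℝ) * ((e i : ℚ) : ℝ)) := by
  have h1 := semistableWeights_of_class hn0 hN0 he hexp hu hinf
  have e1 : (fun i => ((-u : ℤ) : ℝ) * ((e i : ℚ) : ℝ))
      = fun i => -((u : ℝ) * ((e i : ℚ) : ℝ)) := by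
    funext i
    push_cast
    ring
  rw [e1] at h1
  -- the dual system
  have hfin : {P : Ideal (𝓞 K) | P.IsMaximal ∧ (n : 𝓞 K) ∈ P}.Finite :=
    finite_mem (Nat.cast_ne_zero.mpr hn0.ne')
  have hinf' : {P : Ideal (𝓞 K) | P.IsMaximal ∧ ringChar (𝓞 K ⧸ P) ≡ a [MOD N] ∧
      PCurvZero n (-bᵀ) (-cᵀ) P}.Infinite := by
    refine (hinf.diff hfin).mono ?_
    rintro P ⟨⟨hP, hPa, hc⟩, hn⟩
    exact ⟨hP, hPa, pCurvZero_dual hP (fun h => hn ⟨hP, h⟩) hc⟩
  have h2 := semistableWeights_of_class hn0 hN0 (e := fun i => -e i) (by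
    intro i
    obtain ⟨s, hs⟩ := he i
    exact ⟨-s, by rw [hs]; push_cast; ring⟩) (isExponents_dual hexp) hu hinf'
  have e2 : (fun i => ((-u : ℤ) : ℝ) * ((-e i : ℚ) : ℝ))
      = fun i => (u : ℝ) * ((e i : ℚ) : ℝ) := by
    funext i
    push_cast
    ring
  rw [e2] at h2
  exact ⟨h2, h1, interlacing_of_semistable h2 h1⟩

/-- the structure theorem together with the statement on one residue class -/
theorem structure_thm' (r : ℕ) (hr : 0 < r) :
    ∃ L : Finset (Finset ((Fin 3 × Fin r → ℤ) × ℚ)),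
      (∀ T ∈ L, (∃ w : Fin 3 × Fin r → ℝ, Solves T w) ∧
        (∀ w : Fin 3 × Fin r → ℝ, Solves T w →
          SemistableWeights w ∧ SemistableWeights (fun i => -w i) ∧ Interlacing w) ∧
        r ≤ relRank T ∧
        ∀ a : Fin 3, (∃ e ∈ T, ∃ j j' : Fin r, e.1 (a, j) ≠ e.1 (a, j')) ∨
          ∀ b : Fin 3, a ≠ b → ∀ w : Fin 3 × Fin r → ℝ, Solves T w →
            EvenlySpaced (fun j => w (b, j))) ∧
      ∀ (K : Type) [Field K] [NumberField K] (n N : ℕ) (b c : Matrix (Fin r) (Fin r) (𝓞 K))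
        (e : Fin 3 × Fin r → ℚ), 0 < n → 0 < N → (∀ i, ∃ s : ℤ, e i = s / N) →
        IsExponents n b c e →
        (∀ (a : ℕ) (u : ℤ), (N : ℤ) ∣ u * a - 1 →
          {P : Ideal (𝓞 K) | P.IsMaximal ∧ ringChar (𝓞 K ⧸ P) ≡ a [MOD N] ∧
            PCurvZero n b c P}.Infinite →
          SemistableWeights (fun i => (u : ℝ) * ((e i : ℚ) : ℝ)) ∧
            SemistableWeights (fun i => -((u : ℝ) * ((e i : ℚ) : ℝ))) ∧
            Interlacing (fun i => (u : ℝ) * ((e i : ℚ) : ℝ))) ∧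
        ((∃ T ∈ L, Solves T (fun i => ((e i : ℚ) : ℝ))) ∨
        ∃ a : ℕ, a.Coprime N ∧
          {P : Ideal (𝓞 K) | P.IsMaximal ∧ ringChar (𝓞 K ⧸ P) ≡ a [MOD N] ∧
            PCurvZero n b c P}.Finite ∧
          {P : Ideal (𝓞 K) | P.IsMaximal ∧ ringChar (𝓞 K ⧸ P) ≡ a [MOD N] ∧
            ¬ PCurvZero n b c P}.Infinite) := by
  obtain ⟨L, hL1, hL2⟩ := structure_thm r hr
  refine ⟨L, hL1, ?_⟩
  intro K _ _ n N b c e hn0 hN0 he hexp
  exact ⟨fun a u hu hinf => weights_of_class hn0 hN0 he hexp hu hinf,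
    hL2 K n N b c e hn0 hN0 he hexp⟩

end Pool.Agent.Work.MP_5e5ff1_ag.S

end
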