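import Mathlib
import Pool.Agent.Work.MP_5e5ff1_ag.Bd.B12
import Pool.Agent.Work.MP_5e5ff1_ag.O.Final
import Pool.Agent.Work.MP_5e5ff1_ag.Bd.B05
import Pool.Agent.Work.MP_5e5ff1_ag.Bd.B02

/-! Bundle of small proof modules (one section per former module). -/

section

/-! Semistability lifts from the residue field of a valuation ring. -/

open Matrix Polynomial
open Pool.Agent.Work.MP_5e5ff1_ag

namespace Pool.Agent.MSU

/-- rank zero -/
theorem parDegree_rank_zero {F : Type*} [Field F] {r : ℕ} (g₀ g₁ : Matrix (Fin r) (Fin r) F)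
    (v : Fin 3 × Fin r → ℝ) (W : Matrix (Fin r) (Fin 0) F[X]) : T.parDegree g₀ g₁ v W = 0 := by
  have h1 : ∀ (M : Matrix (Fin r) (Fin 0) F[X]) (I : Fin 0 → Fin r), (M.submatrix I id).det = 1 :=
    fun M I => Matrix.det_isEmpty
  have h2 : ∀ (g : Matrix (Fin r) (Fin r) F) (u : Fin r → ℝ) (a : F), T.wedgeOrd g u a W = 0 := by
    intro g u a
    unfold T.wedgeOrd
    have : Nonempty {I : Fin 0 → Fin r // ((g.map C * W).submatrix I id).det ≠ 0} :=
      ⟨⟨Fin.elim0, by rw [h1]; exact one_ne_zero⟩⟩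
    have h3 : ∀ I : {I : Fin 0 → Fin r // ((g.map C * W).submatrix I id).det ≠ 0},
        (∑ j, u (I.1 j) + (((g.map C * W).submatrix I.1 id).det.rootMultiplicity a : ℝ)) = 0 := by
      intro I
      rw [h1]
      simp
    rw [iInf_congr h3, ciInf_const]
  have h4 : ∀ u : Fin r → ℝ, T.wedgeOrdInf u W = 0 := by
    intro u
    unfold T.wedgeOrdInf
    have : Nonempty {I : Fin 0 → Fin r // (W.submatrix I id).det ≠ 0} :=
      ⟨⟨Fin.elim0, by rw [h1]; exact one_ne_zero⟩⟩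
    have h3 : ∀ I : {I : Fin 0 → Fin r // (W.submatrix I id).det ≠ 0},
        (∑ j, u (I.1 j) - ((W.submatrix I.1 id).det.natDegree : ℝ)) = 0 := by
      intro I
      rw [h1]
      simp
    rw [iInf_congr h3, ciInf_const]
  unfold T.parDegree
  rw [h2, h2, h4]
  norm_num

open ItemOLift in
/-- semistability lifts from the residue field -/
theorem semistable_lift (hD : O_Dec) (hR : O_Rel) (hE : O_Red) (hM : O_Mult)
    (A : ValuationSubring ℂ) (r : ℕ) (g₀ g₁ : Matrix (Fin r) (Fin r) A)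
    (v : Fin 3 × Fin r → ℝ) (hg₀ : (g₀.map (IsLocalRing.residue A)).det ≠ 0)
    (hg₁ : (g₁.map (IsLocalRing.residue A)).det ≠ 0)
    (hst : T.Semistable (g₀.map (IsLocalRing.residue A)) (g₁.map (IsLocalRing.residue A)) v) :
    T.Semistable (g₀.map (algebraMap A ℂ)) (g₁.map (algebraMap A ℂ)) v := by
  classical
  refine ⟨hst.1, ?_⟩
  intro k W hW
  rcases Nat.eq_zero_or_pos k with rfl | hk
  · exact (parDegree_rank_zero _ _ v W).le
  set res := IsLocalRing.residue A with hres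
  set ia := algebraMap A ℂ with hia
  have hinj : Function.Injective ia := Subtype.val_injective
  obtain ⟨J₁, hJ₁⟩ := hW.fullRank
  obtain ⟨l, Q, hl, hQ, J₂, hJ₂⟩ := hE A (Fin k → Fin r) (fun J => (W.submatrix J id).det)
    ⟨J₁, hJ₁⟩
  have hrelQ : ∀ J0 J : Fin k → Fin r,
      (Matrix.of fun a b => Q (Function.update J0 b (J a))).det = Q J0 ^ (k - 1) * Q J := by
    intro J0 J
    apply Polynomial.map_injective ia hinj
    have h1 := hR ℂ r k W hk J0 J
    have h2 : ((Matrix.of fun a b => Q (Function.update J0 b (J a))).det).map ia =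
        (Matrix.of fun a b => C l * (W.submatrix (Function.update J0 b (J a)) id).det).det := by
      have h3 := RingHom.map_det (mapRingHom ia) (Matrix.of fun a b => Q (Function.update J0 b (J a)))
      rw [coe_mapRingHom] at h3
      rw [h3]
      congr 1
      ext1 a b
      simp only [RingHom.mapMatrix_apply, Matrix.map_apply, Matrix.of_apply, coe_mapRingHom]
      exact hQ _
    have h4 : (Matrix.of fun a b => C l * (W.submatrix (Function.update J0 b (J a)) id).det) =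
        C l • (Matrix.of fun a b => (W.submatrix (Function.update J0 b (J a)) id).det) := by
      ext1 a b
      simp only [Matrix.of_apply, Matrix.smul_apply, smul_eq_mul]
    rw [h2, h4, det_smul, Fintype.card_fin, h1, Polynomial.map_mul, Polynomial.map_pow, hQ, hQ]
    have h5 : (C l : ℂ[X]) ^ k = C l ^ (k - 1) * C l := by
      rw [← pow_succ]
      congr 1
      omega
    rw [h5, mul_pow]
    ring
  set qb : (Fin k → Fin r) → (IsLocalRing.ResidueField A)[X] := fun J => (Q J).map res with hqb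
  have hrelq : ∀ J0 J : Fin k → Fin r,
      (Matrix.of fun a b => qb (Function.update J0 b (J a))).det = qb J0 ^ (k - 1) * qb J := by
    intro J0 J
    have h1 := congrArg (Polynomial.map res) (hrelQ J0 J)
    rw [Polynomial.map_mul, Polynomial.map_pow] at h1
    rw [hqb]
    simp only
    rw [← h1]
    have h3 := RingHom.map_det (mapRingHom res) (Matrix.of fun a b => Q (Function.update J0 b (J a)))
    rw [coe_mapRingHom] at h3
    rw [h3]
    congr 1
  obtain ⟨Wb, h, hWb, hh, hqWb⟩ := hD (IsLocalRing.ResidueField A) r k qb hk ⟨J₂, hJ₂⟩ hrelq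
  obtain ⟨I, hI, hIdeg⟩ := T.parDegree_attained hg₀ hg₁ v hWb.fullRank
  have hlt := hst.2 k Wb hWb
  have hCl : (C l : ℂ[X]) ≠ 0 := C_ne_zero.mpr hl
  -- comparison of the minors of `g W`
  have hcomp : ∀ (g : Matrix (Fin r) (Fin r) A) (J : Fin k → Fin r) (a : A),
      (((g.map res).map C * Wb).submatrix J id).det ≠ 0 →
      (((g.map ia).map C * W).submatrix J id).det ≠ 0 ∧
      (((g.map ia).map C * W).submatrix J id).det.rootMultiplicity (a : ℂ) ≤
        h.rootMultiplicity (res a) +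
          (((g.map res).map C * Wb).submatrix J id).det.rootMultiplicity (res a) := by
    intro g J a hne
    have e1 := PQ_map ia g Q J W (C l) hQ
    have e2 := PQ_map res g Q J Wb h hqWb
    have hne2 : (PQ g Q J).map res ≠ 0 := by
      rw [e2]
      exact mul_ne_zero hh hne
    have hPne : PQ g Q J ≠ 0 := by
      intro h0
      rw [h0, Polynomial.map_zero] at hne2
      exact hne2 rfl
    have hne3 : (PQ g Q J).map ia ≠ 0 := by
      intro h0
      exact hPne (Polynomial.map_injective ia hinj (by rw [h0, Polynomial.map_zero]))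
    have hne4 : (((g.map ia).map C * W).submatrix J id).det ≠ 0 := by
      intro h0
      rw [e1, h0, mul_zero] at hne3
      exact hne3 rfl
    refine ⟨hne4, ?_⟩
    have h1 := (hM A (PQ g Q J) a hne2).1
    rw [e1, e2, rootMultiplicity_mul (mul_ne_zero hCl hne4), rootMultiplicity_C, zero_add,
      rootMultiplicity_mul (mul_ne_zero hh hne)] at h1
    exact h1
  obtain ⟨hI0, hI1, hI2⟩ := hI
  obtain ⟨c0, c0'⟩ := hcomp g₀ (I 0) 0 hI0
  obtain ⟨c1, c1'⟩ := hcomp g₁ (I 1) 1 hI1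
  have c2 : (W.submatrix (I 2) id).det ≠ 0 ∧
      h.natDegree + (Wb.submatrix (I 2) id).det.natDegree ≤
        (W.submatrix (I 2) id).det.natDegree := by
    have hne2 : (Q (I 2)).map res ≠ 0 := by
      have := hqWb (I 2)
      rw [hqb] at this
      simp only at this
      rw [this]
      exact mul_ne_zero hh hI2
    have hne : (W.submatrix (I 2) id).det ≠ 0 := by
      intro h0
      have h1 := hQ (I 2)
      rw [h0, mul_zero] at h1
      have h2 : Q (I 2) = 0 := Polynomial.map_injective ia hinj (by rw [h1, Polynomial.map_zero])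
      rw [h2, Polynomial.map_zero] at hne2
      exact hne2 rfl
    refine ⟨hne, ?_⟩
    have h1 := (hM A (Q (I 2)) 0 hne2).2
    have h2 := hQ (I 2)
    have h3 := hqWb (I 2)
    rw [hqb] at h3
    simp only at h3
    rw [h2, h3, natDegree_mul hh hI2, natDegree_C_mul hl] at h1
    exact h1
  have hpar : T.ParNonzero (g₀.map ia) (g₁.map ia) W I := ⟨c0, c1, c2.1⟩
  have hle := T.parDegree_le v hpar
  refine le_trans hle ?_
  refine le_trans ?_ hlt
  rw [hIdeg, T.parVal_eq, T.parVal_eq]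
  have hres0 : res 0 = 0 := map_zero _
  have hres1 : res 1 = 1 := map_one _
  rw [hres0] at c0'
  rw [hres1] at c1'
  have c0r : ((((g₀.map ia).map C * W).submatrix (I 0) id).det.rootMultiplicity 0 : ℝ) ≤
      h.rootMultiplicity 0 + (((g₀.map res).map C * Wb).submatrix (I 0) id).det.rootMultiplicity 0 := by
    exact_mod_cast c0'
  have c1r : ((((g₁.map ia).map C * W).submatrix (I 1) id).det.rootMultiplicity 1 : ℝ) ≤
      h.rootMultiplicity 1 + (((g₁.map res).map C * Wb).submatrix (I 1) id).det.rootMultiplicity 1 := by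
    exact_mod_cast c1'
  have c2r : (h.natDegree : ℝ) + (Wb.submatrix (I 2) id).det.natDegree ≤
        (W.submatrix (I 2) id).det.natDegree := by
    exact_mod_cast c2.2
  have c3r : (h.rootMultiplicity 0 : ℝ) + h.rootMultiplicity 1 ≤ h.natDegree := by
    exact_mod_cast ord_add_le hh
  linarith

end Pool.Agent.MSU

end

section

/-! One prime: the weights are the weights of a semistable parabolic bundle over the complex
numbers. -/

open Matrix Polynomial
open Pool.Agent.Work.MP_5e5ff1_ag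

namespace Pool.Agent.MSU

/-- the frames of the Frobenius descent give semistable weights -/
theorem semi_of_frame {p : ℕ} (hp : p.Prime) (A : ValuationSubring ℂ)
    (hpA : (p : A) ∈ IsLocalRing.maximalIdeal A)
    {r : ℕ} {G : Matrix (Fin r) (Fin r) (IsLocalRing.ResidueField A)[X]}
    {h₀ h₁ : Matrix (Fin r) (Fin r) (IsLocalRing.ResidueField A)} {m₀ m₁ d : Fin r → ℕ}
    (hfr : T.TFrame G h₀ h₁ m₀ m₁ d) (hm₀ : ∀ j, m₀ j < p) (hm₁ : ∀ j, m₁ j < p)
    (hsum : ∑ j, d j = ∑ j, m₀ j + ∑ j, m₁ j) : S.SemistableWeights (wp p m₀ m₁ d) := by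
  classical
  have : Fact p.Prime := ⟨hp⟩
  have hp0 : ((p : ℕ) : IsLocalRing.ResidueField A) = 0 := by
    have h1 : IsLocalRing.residue A (p : A) = 0 := (IsLocalRing.residue_eq_zero_iff _).mpr hpA
    rw [map_natCast] at h1
    exact h1
  have : CharP (IsLocalRing.ResidueField A) p := ItemOIrr.charP_of_prime_eq_zero hp hp0
  have hppos : (0 : ℝ) < p := by exact_mod_cast hp.pos
  have hst : T.Semistable h₀⁻¹ h₁⁻¹ (wp p m₀ m₁ d) := by
    refine ⟨?_, ?_⟩
    · rw [Fintype.sum_prod_type, Fin.sum_univ_three]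
      have e1 : ∀ j, wp p m₀ m₁ d (0, j) = (m₀ j : ℝ) / p := fun j => rfl
      have e2 : ∀ j, wp p m₀ m₁ d (1, j) = (m₁ j : ℝ) / p := fun j => rfl
      have e3 : ∀ j, wp p m₀ m₁ d (2, j) = -(d j : ℝ) / p := fun j => rfl
      simp only [e1, e2, e3, ← Finset.sum_div, Finset.sum_neg_distrib]
      have h1 : (∑ j, (d j : ℝ)) = ∑ j, (m₀ j : ℝ) + ∑ j, (m₁ j : ℝ) := by exact_mod_cast hsum
      rw [h1]
      ring
    · intro k W hW
      rcases Nat.eq_zero_or_pos k with rfl | hk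
      · exact (parDegree_rank_zero _ _ _ W).le
      · exact (prf_O_Ord p (IsLocalRing.ResidueField A) r k hp hk G h₀ h₁ m₀ m₁ d W hfr hW).1
  -- lift of the frames
  choose lift hlift using (IsLocalRing.residue_surjective (R := A))
  set g₀ : Matrix (Fin r) (Fin r) A := (h₀⁻¹).map lift with hg₀
  set g₁ : Matrix (Fin r) (Fin r) A := (h₁⁻¹).map lift with hg₁
  have e₀ : g₀.map (IsLocalRing.residue A) = h₀⁻¹ := by
    ext1 i j
    simp only [hg₀, map_apply, hlift]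
  have e₁ : g₁.map (IsLocalRing.residue A) = h₁⁻¹ := by
    ext1 i j
    simp only [hg₁, map_apply, hlift]
  have hd₀ : (h₀⁻¹).det ≠ 0 := by
    rw [det_nonsing_inv, Ring.inverse_eq_inv']
    exact inv_ne_zero hfr.h₀_ne
  have hd₁ : (h₁⁻¹).det ≠ 0 := by
    rw [det_nonsing_inv, Ring.inverse_eq_inv']
    exact inv_ne_zero hfr.h₁_ne
  have hst' := semistable_lift prf_O_Dec prf_O_Rel prf_O_Red prf_O_Mult A r g₀ g₁
    (wp p m₀ m₁ d) (by rw [e₀]; exact hd₀) (by rw [e₁]; exact hd₁) (by rw [e₀, e₁]; exact hst)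
  have hdet : ∀ g : Matrix (Fin r) (Fin r) A, (g.map (IsLocalRing.residue A)).det ≠ 0 →
      (g.map (algebraMap A ℂ)).det ≠ 0 := by
    intro g hg h0
    apply hg
    have h1 := RingHom.map_det (algebraMap A ℂ) g
    have h2 := RingHom.map_det (IsLocalRing.residue A) g
    rw [RingHom.mapMatrix_apply] at h1 h2
    rw [← h1] at h0
    have h3 : g.det = 0 := by
      apply (FaithfulSMul.algebraMap_injective A ℂ)
      rw [h0, map_zero]
    rw [← h2, h3, map_zero]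
  have hle : ∀ a : ℕ, a < p → (a : ℝ) / p ≤ 1 := by
    intro a ha
    rw [div_le_one hppos]
    exact_mod_cast ha.le
  refine ⟨g₀.map (algebraMap A ℂ), g₁.map (algebraMap A ℂ),
    wp p m₀ m₁ d, hdet g₀ (by rw [e₀]; exact hd₀), hdet g₁ (by rw [e₁]; exact hd₁),
    fun i => ⟨0, by simp⟩, fun j => ⟨?_, hle _ (hm₀ j), ?_, hle _ (hm₁ j)⟩, hst'⟩
  · change (0 : ℝ) ≤ (m₀ j : ℝ) / p
    positivity
  · change (0 : ℝ) ≤ (m₁ j : ℝ) / p
    positivity

/-- one prime, over the residue field of a valuation ring of `ℂ` -/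
theorem semi_one {p : ℕ} (hp : p.Prime) (A : ValuationSubring ℂ)
    (hpA : (p : A) ∈ IsLocalRing.maximalIdeal A) (hac : IsAlgClosed (IsLocalRing.ResidueField A))
    (r : ℕ) (b c : Matrix (Fin r) (Fin r) (IsLocalRing.ResidueField A))
    (hQ : Qs (1 : IsLocalRing.ResidueField A) b c p = 0) :
    ∃ m₀ m₁ d : Fin r → ℕ, (∀ j, m₀ j < p) ∧ (∀ j, m₁ j < p) ∧
      b.charpoly = ∏ j, (X - C ((m₀ j : ℕ) : IsLocalRing.ResidueField A)) ∧
      c.charpoly = ∏ j, (X - C ((m₁ j : ℕ) : IsLocalRing.ResidueField A)) ∧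
      (b + c).charpoly = ∏ j, (X - C ((d j : ℕ) : IsLocalRing.ResidueField A)) ∧
      ∀ τ₀ τ₁ τ₂ : Equiv.Perm (Fin r),
        S.SemistableWeights (wp p (fun j => m₀ (τ₀ j)) (fun j => m₁ (τ₁ j)) (fun j => d (τ₂ j))) := by
  classical
  have : Fact p.Prime := ⟨hp⟩
  have := hac
  have hp0 : ((p : ℕ) : IsLocalRing.ResidueField A) = 0 := by
    have h1 : IsLocalRing.residue A (p : A) = 0 := (IsLocalRing.residue_eq_zero_iff _).mpr hpA
    rw [map_natCast] at h1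
    exact h1
  have : CharP (IsLocalRing.ResidueField A) p := ItemOIrr.charP_of_prime_eq_zero hp hp0
  obtain ⟨x0, hx0⟩ := Infinite.exists_notMem_finset ({0, 1} : Finset (IsLocalRing.ResidueField A))
  simp only [Finset.mem_insert, Finset.mem_singleton, not_or] at hx0
  have hex : ∃ F, Hor (X * (X - 1)) (Lmat b c) F ∧ F.det ≠ 0 := by
    have h1 := exists_hor (p := p) (one_ne_zero : (1 : IsLocalRing.ResidueField A) ≠ 0) b c hQ x0
      hx0.1 hx0.2
    simpa using h1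
  obtain ⟨G, h₀, h₁, m₀, m₁, d, hG, hfr, hm₀, hm₁, hsum, hb, hc, hbc⟩ :=
    T.frames (p := p) b c hex
  refine ⟨m₀, m₁, d, hm₀, hm₁, hb, hc, hbc, fun τ₀ τ₁ τ₂ => ?_⟩
  refine semi_of_frame hp A hpA (hfr.perm τ₀ τ₁ τ₂) (fun j => hm₀ _) (fun j => hm₁ _) ?_
  rw [Equiv.sum_comp τ₀ m₀, Equiv.sum_comp τ₁ m₁, Equiv.sum_comp τ₂ d, hsum]

/-- one prime, over a finite field -/
theorem semi_main {p : ℕ} (hp : p.Prime) (k : Type) [Field k] [Finite k] [CharP k p] (r : ℕ)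
    (b c : Matrix (Fin r) (Fin r) k) (hQ : Qs (1 : k) b c p = 0) :
    ∃ m : Fin 3 → Fin r → ℕ, b.charpoly = ∏ j, (X - C ((m 0 j : ℕ) : k)) ∧
      c.charpoly = ∏ j, (X - C ((m 1 j : ℕ) : k)) ∧
      (-(b + c)).charpoly = ∏ j, (X - C ((m 2 j : ℕ) : k)) ∧
      ∀ τ : Fin 3 → Equiv.Perm (Fin r),
        S.SemistableWeights (fun i : Fin 3 × Fin r => ((m i.1 (τ i.1 i.2) : ℕ) : ℝ) / (p : ℝ)) := by
  obtain ⟨A, hpA, hcl⟩ := prf_O_Val p hp
  obtain ⟨φ⟩ := ItemO_Main.exists_hom p hp k A hpA hcl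
  have hQ' : Qs (1 : IsLocalRing.ResidueField A) (b.map φ) (c.map φ) p = 0 := by
    have h1 := Qs_map φ (1 : k) b c p
    rw [hQ, map_one] at h1
    rw [← h1]
    ext i j
    simp
  obtain ⟨m₀, m₁, d, hm₀, hm₁, hb, hc, hbc, hs⟩ := semi_one hp A hpA hcl r _ _ hQ'
  have hppos : (0 : ℝ) < p := by exact_mod_cast hp.pos
  refine ⟨![m₀, m₁, fun j => ItemOIrr.neg' p (d j)], ?_, ?_, ?_, fun τ => ?_⟩
  · exact ItemO_Main.charpoly_transfer φ b _ hb
  · exact ItemO_Main.charpoly_transfer φ c _ hc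
  · have h0 : (b.map φ + c.map φ) = (b + c).map φ := by
      ext i j
      simp
    rw [h0] at hbc
    have h2 := ItemO_Main.charpoly_transfer φ (b + c) _ hbc
    have h1 := charpoly_smul_prod (t := (-1 : k)) h2 (neg_ne_zero.mpr one_ne_zero)
    rw [neg_one_smul] at h1
    rw [h1]
    apply Finset.prod_congr rfl
    intro j _
    congr 2
    change -1 * ((d j : ℕ) : k) = ((ItemOIrr.neg' p (d j) : ℕ) : k)
    rw [ItemOIrr.neg'_cast hp.pos]
    ring
  · obtain ⟨g₀, g₁, w, hg₀, hg₁, hw, hw', hsem⟩ := hs (τ 0) (τ 1) (τ 2)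
    refine ⟨g₀, g₁, w, hg₀, hg₁, ?_, hw', hsem⟩
    rintro ⟨x, j⟩
    obtain ⟨z, hz⟩ := hw (x, j)
    fin_cases x
    · exact ⟨z, hz⟩
    · exact ⟨z, hz⟩
    · obtain ⟨s, hs⟩ := ItemOIrr.neg'_add hp.pos (d (τ 2 j))
      refine ⟨z + s, ?_⟩
      have h1 : ((ItemOIrr.neg' p (d (τ 2 j)) : ℕ) : ℝ) = p * s - d (τ 2 j) := by
        have : ((ItemOIrr.neg' p (d (τ 2 j)) : ℕ) : ℝ) + d (τ 2 j) = p * s := by exact_mod_cast hs
        linarith
      have h3 : -(d (τ 2 j) : ℝ) / p = w (2, j) + z := hz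
      change ((ItemOIrr.neg' p (d (τ 2 j)) : ℕ) : ℝ) / (p : ℝ) = w (2, j) + ((z + s : ℤ) : ℝ)
      rw [h1]
      push_cast
      have h4 : (p * s - d (τ 2 j) : ℝ) / p = s + -(d (τ 2 j) : ℝ) / p := by
        field_simp
        ring
      rw [h4, h3]
      ring

end Pool.Agent.MSU

end

section

/-! The exponents of systems with vanishing p-curvatures are exponents of unitary local systems:
the uniform structure theorem. -/

open Matrix Polynomial Filter Topology NumberField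

set_option linter.unusedSectionVars false

namespace Pool.Agent.Work.MP_5e5ff1_ag.U

open Pool.Agent.Work.MP_5e5ff1_ag.T Pool.Agent.Work.MP_5e5ff1_ag.S Pool.Agent.MSU

variable {r : ℕ}

lemma UnitaryExponents.perm {v : Fin 3 × Fin r → ℝ} (h : UnitaryExponents v)
    (τ : Fin 3 → Equiv.Perm (Fin r)) : UnitaryExponents (fun i => v (i.1, τ i.1 i.2)) := by
  obtain ⟨ρ, h1, h2⟩ := h
  refine ⟨ρ, h1, fun x => ?_⟩
  rw [h2 x]
  exact (Equiv.prod_comp (τ x)
    (fun j => (X - C (Complex.exp (2 * Real.pi * Complex.I * ((v (x, j) : ℝ) : ℂ)))))).symm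

lemma semi_congr {v w : Fin 3 × Fin r → ℝ} (h : SemistableWeights v)
    (hvw : ∀ i, ∃ z : ℤ, w i = v i + z) : SemistableWeights w := by
  obtain ⟨g₀, g₁, x, h₀, h₁, hx, hx', hs⟩ := h
  refine ⟨g₀, g₁, x, h₀, h₁, fun i => ?_, hx', hs⟩
  obtain ⟨z, hz⟩ := hvw i
  obtain ⟨y, hy⟩ := hx i
  exact ⟨y + z, by rw [hz, hy]; push_cast; ring⟩

variable {K : Type} [Field K] [NumberField K]

/-- the reduced system at a prime with vanishing p-curvature, and its exponents -/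
theorem at_prime {n N : ℕ} (hn0 : 0 < n) (hN0 : 0 < N)
    {b c : Matrix (Fin r) (Fin r) (𝓞 K)} {e : Fin 3 × Fin r → ℚ} {s : Fin 3 × Fin r → ℤ}
    (hes : ∀ i, e i = s i / N) (hexp : IsExponents n b c e) {P : Ideal (𝓞 K)}
    (hP : P.IsMaximal) (hnN : (n : 𝓞 K) * (N : 𝓞 K) ∉ P) (hcurv : PCurvZero n b c P) {u : ℤ}
    (hu : (N : ℤ) ∣ u * (ringChar (𝓞 K ⧸ P) : ℕ) - 1) :
    (∃ (m : Fin 3 → Fin r → ℕ) (τ : Fin 3 → Equiv.Perm (Fin r)),
      UnitaryExponents (fun i : Fin 3 × Fin r => ((m i.1 i.2 : ℕ) : ℝ)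
        / (ringChar (𝓞 K ⧸ P) : ℕ)) ∧
      ∀ i : Fin 3 × Fin r, ∃ z : ℤ, -((u : ℝ) * ((e i : ℚ) : ℝ))
        + ((e i : ℚ) : ℝ) / (ringChar (𝓞 K ⧸ P) : ℕ)
          = ((m i.1 (τ i.1 i.2) : ℕ) : ℝ) / (ringChar (𝓞 K ⧸ P) : ℕ) + z) ∧
    ∃ (m : Fin 3 → Fin r → ℕ) (τ : Fin 3 → Equiv.Perm (Fin r)),
      SemistableWeights (fun i : Fin 3 × Fin r => ((m i.1 (τ i.1 i.2) : ℕ) : ℝ)
        / (ringChar (𝓞 K ⧸ P) : ℕ)) ∧
      ∀ i : Fin 3 × Fin r, ∃ z : ℤ, -((u : ℝ) * ((e i : ℚ) : ℝ))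
        + ((e i : ℚ) : ℝ) / (ringChar (𝓞 K ⧸ P) : ℕ)
          = ((m i.1 (τ i.1 i.2) : ℕ) : ℝ) / (ringChar (𝓞 K ⧸ P) : ℕ) + z := by
  classical
  have h0 := ne_bot_of_maximal hP
  have hfin : Finite (𝓞 K ⧸ P) := by
    rw [← Ideal.absNorm_ne_zero_iff]
    exact fun h => h0 (Ideal.absNorm_eq_zero_iff.mp h)
  set p := ringChar (𝓞 K ⧸ P) with hp
  have hpp : p.Prime := prime_ringChar hP
  have : Fact p.Prime := ⟨hpp⟩
  let _ : Field (𝓞 K ⧸ P) := Ideal.Quotient.field P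
  have : CharP (𝓞 K ⧸ P) p := ringChar.charP _
  set φ : 𝓞 K →+* (𝓞 K ⧸ P) := Ideal.Quotient.mk P with hφ
  have hprod : φ ((n : 𝓞 K) * (N : 𝓞 K)) ≠ 0 := fun h =>
    hnN (Ideal.Quotient.eq_zero_iff_mem.mp h)
  rw [map_mul, map_natCast, map_natCast] at hprod
  have hnk : (n : 𝓞 K ⧸ P) ≠ 0 := left_ne_zero_of_mul hprod
  have hNk : (N : 𝓞 K ⧸ P) ≠ 0 := right_ne_zero_of_mul hprod
  -- p-curvature
  have hQ : Qs (1 : 𝓞 K ⧸ P) ((n : 𝓞 K ⧸ P)⁻¹ • b.map φ) ((n : 𝓞 K ⧸ P)⁻¹ • c.map φ) p = 0 := by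
    have h1 := pCurvZero_iff.mp hcurv
    have hν : φ (n : 𝓞 K) = (n : 𝓞 K ⧸ P) := map_natCast φ n
    rw [← hφ, hν, ← hp, prf_O_Scale (𝓞 K ⧸ P) r (n : 𝓞 K ⧸ P) (b.map φ) (c.map φ) hnk p] at h1
    have h2 : (C (n : 𝓞 K ⧸ P) ^ p : (𝓞 K ⧸ P)[X]) ≠ 0 := pow_ne_zero _ (C_ne_zero.mpr hnk)
    exact smul_matrix_cancel h2 (by rw [h1, smul_zero])
  have key : ∀ m : Fin 3 → Fin r → ℕ,
      ((n : 𝓞 K ⧸ P)⁻¹ • b.map φ).charpoly = ∏ j, (X - C ((m 0 j : ℕ) : 𝓞 K ⧸ P)) →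
      ((n : 𝓞 K ⧸ P)⁻¹ • c.map φ).charpoly = ∏ j, (X - C ((m 1 j : ℕ) : 𝓞 K ⧸ P)) →
      (-((n : 𝓞 K ⧸ P)⁻¹ • b.map φ + (n : 𝓞 K ⧸ P)⁻¹ • c.map φ)).charpoly
        = ∏ j, (X - C ((m 2 j : ℕ) : 𝓞 K ⧸ P)) →
      ∃ τ : Fin 3 → Equiv.Perm (Fin r), ∀ i : Fin 3 × Fin r, ∃ z : ℤ,
        -((u : ℝ) * ((e i : ℚ) : ℝ)) + ((e i : ℚ) : ℝ) / (p : ℕ)
          = ((m i.1 (τ i.1 i.2) : ℕ) : ℝ) / (p : ℕ) + z := by
    intro m hb hc hd
    -- exponents
    have hexpk : ∀ x, ∏ j, (X - C ((m x j : ℕ) : 𝓞 K ⧸ P))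
        = ∏ j, (X - C ((s (x, j) : 𝓞 K ⧸ P) / (N : 𝓞 K ⧸ P))) := by
      obtain ⟨e0, e1, e2⟩ := hexp
      have hcast : ∀ i, ((e i : ℚ) : K) = (s i : K) / (N : K) := by
        intro i
        rw [hes i]; push_cast; rfl
      simp only [hcast] at e0 e1 e2
      intro x
      fin_cases x
      · exact hb.symm.trans (reduce_charpoly φ hn0 hN0 hnk hNk e0)
      · exact hc.symm.trans (reduce_charpoly φ hn0 hN0 hnk hNk e1)
      · refine hd.symm.trans ?_
        have h3 := reduce_charpoly φ hn0 hN0 hnk hNk e2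
        have h4 : (n : 𝓞 K ⧸ P)⁻¹ • (-(b + c)).map φ
            = -((n : 𝓞 K ⧸ P)⁻¹ • b.map φ + (n : 𝓞 K ⧸ P)⁻¹ • c.map φ) := by
          ext1 i j
          simp only [Matrix.smul_apply, map_apply, Matrix.neg_apply, Matrix.add_apply, map_neg,
            map_add, smul_eq_mul]
          ring
        rw [h4] at h3
        exact h3
    choose τ hτ using fun x => exists_perm_of_prod (hexpk x)
    refine ⟨τ, ?_⟩
    -- congruences
    have hz : ∀ x j, ∃ z : ℤ, (N : ℤ) * (m x (τ x j) : ℤ) = s (x, j) + p * z := by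
      intro x j
      refine exists_z (F := 𝓞 K ⧸ P) hNk ?_
      have h3 := hτ x j
      push_cast
      exact h3
    rintro ⟨x, j⟩
    obtain ⟨z, hz⟩ := hz x j
    obtain ⟨q, hq⟩ := hu
    -- N m = s + p z, u p = 1 + N q
    have hNz : (N : ℤ) ∣ z + u * s (x, j) := by
      -- multiply by p
      have h1 : (N : ℤ) ∣ u * (p * z + s (x, j)) := ⟨u * m x (τ x j), by rw [← mul_assoc, mul_comm (N : ℤ) u, mul_assoc, hz]; ring⟩
      have h2 : u * (p * z + s (x, j)) = (z + u * s (x, j)) + N * (q * z) := by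
        have : u * (p : ℤ) = 1 + N * q := by linarith
        linear_combination z * this
      rw [h2] at h1
      exact (Int.dvd_add_left ⟨q * z, rfl⟩).mp h1
    obtain ⟨w, hw⟩ := hNz
    refine ⟨-w, ?_⟩
    have hpR : (p : ℝ) ≠ 0 := by exact_mod_cast hpp.ne_zero
    have hNR : (N : ℝ) ≠ 0 := by exact_mod_cast hN0.ne'
    have he : ((e (x, j) : ℚ) : ℝ) = (s (x, j) : ℝ) / N := by
      rw [hes]; push_cast; rfl
    have hzR : (N : ℝ) * (m x (τ x j) : ℝ) = s (x, j) + p * z := by exact_mod_cast hz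
    have hwR : (z : ℝ) + u * s (x, j) = N * w := by exact_mod_cast hw
    simp only
    rw [he]
    push_cast
    field_simp
    linear_combination (-1 : ℝ) * hzR - (p : ℝ) * hwR
  constructor
  · obtain ⟨m, M, ⟨hm, hb, hc, hd, hU, hprod1, hcp⟩, -⟩ := OFin.main p hpp (𝓞 K ⧸ P) r _ _ hQ
    obtain ⟨τ, hτ⟩ := key m hb hc hd
    refine ⟨m, τ, ?_, hτ⟩
    refine ⟨fun x => ⟨M x, ?_⟩, Subtype.ext hprod1, fun x => ?_⟩
    · rw [Matrix.mem_unitaryGroup_iff', Matrix.star_eq_conjTranspose]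
      exact hU x
    · change (M x).charpoly = _
      rw [hcp x]
      apply Finset.prod_congr rfl
      intro j _
      push_cast
      rfl
  · obtain ⟨m, hb, hc, hd, hS⟩ := semi_main hpp (𝓞 K ⧸ P) r _ _ hQ
    obtain ⟨τ, hτ⟩ := key m hb hc hd
    exact ⟨m, τ, hS τ, hτ⟩

/-- The exponents of a unitary local system, which are, up to sign, the weights modulo one of
semistable parabolic bundles. -/
def Reg (r : ℕ) : Set (Fin 3 × Fin r → ℝ) :=
  {v | UnitaryExponents v ∧ SemistableWeights v ∧ SemistableWeights (fun i => -v i)}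

lemma isClosed_reg : IsClosed (Reg r) := by
  refine isClosed_unitaryExponents.inter (isClosed_semistableWeights.inter ?_)
  exact isClosed_semistableWeights.preimage (f := fun v : Fin 3 × Fin r → ℝ => fun i => -v i)
    (by fun_prop)

lemma reg_periodic : ∀ w ∈ Reg r, ∀ z : Fin 3 × Fin r → ℤ, (fun j => w j + z j) ∈ Reg r := by
  rintro w ⟨hw0, hw1, hw2⟩ z
  exact ⟨hw0.periodic z, semi_congr hw1 fun i => ⟨z i, rfl⟩,
    semi_congr hw2 fun i => ⟨-(z i), by push_cast; ring⟩⟩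

lemma interlacing_of_reg {w : Fin 3 × Fin r → ℝ} (h : w ∈ Reg r) : Interlacing w :=
  interlacing_of_semistable h.2.1 h.2.2

/-- one prime -/
theorem reg_of_prime {n N : ℕ} (hn0 : 0 < n) (hN0 : 0 < N)
    {b c : Matrix (Fin r) (Fin r) (𝓞 K)} {e : Fin 3 × Fin r → ℚ}
    (he : ∀ i, ∃ s : ℤ, e i = s / N) (hexp : IsExponents n b c e) {P : Ideal (𝓞 K)}
    (hP : P.IsMaximal) (hnN : (n : 𝓞 K) * (N : 𝓞 K) ∉ P) (hcurv : PCurvZero n b c P) {u : ℤ}
    (hu : (N : ℤ) ∣ u * (ringChar (𝓞 K ⧸ P) : ℕ) - 1) :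
    (fun i : Fin 3 × Fin r => (u : ℝ) * ((e i : ℚ) : ℝ)
      - ((e i : ℚ) : ℝ) / (ringChar (𝓞 K ⧸ P) : ℕ)) ∈ Reg r := by
  choose s hs using he
  have hn : (n : 𝓞 K) ∉ P := fun h => hnN (P.mul_mem_right _ h)
  obtain ⟨⟨m, τ, hU, hUz⟩, ⟨m', τ', hS, hSz⟩⟩ := at_prime hn0 hN0 hs hexp hP hnN hcurv hu
  obtain ⟨-, ⟨m'', τ'', hS', hSz'⟩⟩ := at_prime hn0 hN0 (s := fun i => -s i)
    (e := fun i => -e i) (fun i => by rw [hs i]; push_cast; ring) (isExponents_dual hexp) hP hnN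
    (pCurvZero_dual hP hn hcurv) hu
  refine ⟨?_, ?_, ?_⟩
  · have h1 := ((hU.perm τ).congr hUz).neg
    refine h1.congr fun i => ⟨0, ?_⟩
    push_cast
    ring
  · have h1 := semi_congr hS' hSz'
    refine semi_congr h1 fun i => ⟨0, ?_⟩
    push_cast
    ring
  · have h1 := semi_congr hS hSz
    refine semi_congr h1 fun i => ⟨0, ?_⟩
    push_cast
    ring

/-- one residue class -/
theorem reg_of_class {n N : ℕ} (hn0 : 0 < n) (hN0 : 0 < N)
    {b c : Matrix (Fin r) (Fin r) (𝓞 K)} {e : Fin 3 × Fin r → ℚ}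
    (he : ∀ i, ∃ s : ℤ, e i = s / N) (hexp : IsExponents n b c e) {a : ℕ} {u : ℤ}
    (hu : (N : ℤ) ∣ u * a - 1)
    (hinf : {P : Ideal (𝓞 K) | P.IsMaximal ∧ ringChar (𝓞 K ⧸ P) ≡ a [MOD N] ∧
      PCurvZero n b c P}.Infinite) :
    (fun i : Fin 3 × Fin r => (u : ℝ) * ((e i : ℚ) : ℝ)) ∈ Reg r := by
  classical
  have hnN : (n : 𝓞 K) * (N : 𝓞 K) ≠ 0 :=
    mul_ne_zero (Nat.cast_ne_zero.mpr hn0.ne') (Nat.cast_ne_zero.mpr hN0.ne')
  set S : Set (Ideal (𝓞 K)) := {P | (P.IsMaximal ∧ ringChar (𝓞 K ⧸ P) ≡ a [MOD N] ∧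
      PCurvZero n b c P) ∧ (n : 𝓞 K) * (N : 𝓞 K) ∉ P} with hS
  have hSinf : S.Infinite := by
    intro hfin
    apply hinf
    refine (hfin.union (finite_mem hnN)).subset ?_
    intro P hP
    by_cases h : (n : 𝓞 K) * (N : 𝓞 K) ∈ P
    · exact Or.inr ⟨hP.1, h⟩
    · exact Or.inl ⟨hP, h⟩
  set P : ℕ → Ideal (𝓞 K) := fun m => (hSinf.natEmbedding S m : Ideal (𝓞 K)) with hP
  have hPS : ∀ m, P m ∈ S := fun m => (hSinf.natEmbedding S m).2
  have hPinj : Function.Injective P := fun x y h =>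
    (hSinf.natEmbedding S).injective (Subtype.ext h)
  have hmax : ∀ m, (P m).IsMaximal := fun m => (hPS m).1.1
  have hp : Tendsto (fun m => ringChar (𝓞 K ⧸ P m)) cofinite atTop := by
    rw [tendsto_atTop]
    intro B
    rw [eventually_cofinite]
    refine ((finite_char (K := K) B).preimage hPinj.injOn).subset ?_
    intro m hm
    simp only [Set.mem_ofPred_eq, not_le] at hm
    exact ⟨hmax m, hm.le⟩
  rw [Nat.cofinite_eq_atTop] at hp
  have hmem : ∀ m, (fun i : Fin 3 × Fin r => (u : ℝ) * ((e i : ℚ) : ℝ)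
      - ((e i : ℚ) : ℝ) / (ringChar (𝓞 K ⧸ P m) : ℕ)) ∈ Reg r := fun m =>
    reg_of_prime hn0 hN0 he hexp (hmax m) (hPS m).2 (hPS m).1.2.2
      ((modEq_iff hu).mp (hPS m).1.2.1)
  exact isClosed_reg.mem_of_tendsto (lim2 hp) (Eventually.of_forall hmem)

end Pool.Agent.Work.MP_5e5ff1_ag.U

end
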